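import Pool.Agent.T2H02.TT.Stm3

/-!
# Package P1 : decay for the site-level kernels
-/

set_option autoImplicit false
set_option linter.unusedSectionVars false

noncomputable section

open MeasureTheory Matrix
open scoped Matrix.Norms.Frobenius

namespace T2H02.TT.PkgP1

/-- oscillation of the outer kernel -/
lemma osc (h5 : S_F5) {ι Tm X : Type} [DecidableEq ι] [DecidableEq Tm] [MeasurableSpace X]
    (S : Sys ι Tm X) (μ : Measure X) [IsProbabilityMeasure μ] (Λ : Finset Pl)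
    (g : (ι → X) → ℝ) (hg : Measurable g) (hb : ∃ K, ∀ ω, |g ω| ≤ K) (B : ℝ)
    (h : ∀ ω ω', g ω ≤ g ω' + B) (η η' : ι → X) : S.ker μ Λ g η ≤ S.ker μ Λ g η' + B := by
  obtain ⟨-, hc, hm, -⟩ := h5 ι Tm X S μ Λ
  have h1 : ∀ ω', S.ker μ Λ g η ≤ g ω' + B := by
    intro ω'
    rw [← hc (g ω' + B) η]
    exact (hm g (fun _ => g ω' + B) hg hb measurable_const ⟨|g ω' + B|, fun _ => le_rfl⟩ η).1
      fun ξ => h _ _
  have h2 : S.ker μ Λ g η - B ≤ S.ker μ Λ g η' := by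
    rw [← hc (S.ker μ Λ g η - B) η']
    refine (hm (fun _ => S.ker μ Λ g η - B) g measurable_const ⟨|S.ker μ Λ g η - B|, fun _ => le_rfl⟩
      hg hb η').1 fun ξ => ?_
    have := h1 (glue (S.Fr Λ) ξ η')
    linarith
  linarith

/-- blocks -/
lemma sit_sub {M n : ℕ} (hM : 0 < M) (hn : M ≤ n) (A Λ : Finset Pl) (hA : ∀ a ∈ A, Nb n a ⊆ Λ) :
    sit M ((A.image (blk M)).biUnion (Nb (n / M - 1))) ⊆ Λ := by
  intro s hs
  rw [mem_sit M hM, Finset.mem_biUnion] at hs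
  obtain ⟨b, hb, hs⟩ := hs
  obtain ⟨a, ha, rfl⟩ := Finset.mem_image.1 hb
  refine hA a ha ?_
  have hM' : (0 : ℤ) < M := by exact_mod_cast hM
  have h1 : 1 ≤ n / M := (Nat.one_le_div_iff hM).2 hn
  have h2 : M * (n / M) ≤ n := Nat.mul_div_le n M
  have h3 : ((n / M - 1 : ℕ) : ℤ) = ((n / M : ℕ) : ℤ) - 1 := by push_cast [Nat.cast_sub h1]; ring
  have key : ∀ u v : ℤ, v / M - ((n / M - 1 : ℕ) : ℤ) ≤ u / M → u / M ≤ v / M +
      ((n / M - 1 : ℕ) : ℤ) → v - n ≤ u ∧ u ≤ v + n := by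
    intro u v h4 h5
    rw [h3] at h4 h5
    have a1 := Int.emod_nonneg u hM'.ne'
    have a2 := Int.emod_lt_of_pos u hM'
    have a3 := Int.emod_add_mul_ediv u M
    have b1 := Int.emod_nonneg v hM'.ne'
    have b2 := Int.emod_lt_of_pos v hM'
    have b3 := Int.emod_add_mul_ediv v M
    have h2' : (M : ℤ) * ((n / M : ℕ) : ℤ) ≤ n := by exact_mod_cast h2
    obtain ⟨q, hq⟩ : ∃ q : ℤ, q = ((n / M : ℕ) : ℤ) := ⟨_, rfl⟩
    rw [← hq] at h4 h5 h2'
    constructor <;> nlinarith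
  unfold Nb blk at hs
  rw [Finset.mem_product, Finset.mem_Icc, Finset.mem_Icc] at hs
  unfold Nb
  rw [Finset.mem_product, Finset.mem_Icc, Finset.mem_Icc]
  exact ⟨key _ _ hs.1.1 hs.1.2, key _ _ hs.2.1 hs.2.2⟩

/-- arithmetic of the rate -/
lemma rate {β c K q : ℝ} {M n : ℕ} (hβ : 1 < β) (hc : 0 < c) (hK : 1 ≤ K) (hM : 0 < M)
    (hMK : (M : ℝ) ≤ K * Real.log β) (hq : 0 < q) (hqc : 48 * q ≤ β ^ (-c)) (_hn : M ≤ n) :
    (48 * q) ^ ((n / M - 1) / 3) ≤ β ^ (2 * c) * Real.exp (-(c / (3 * K)) * n) := by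
  have hβ0 : 0 < β := by linarith
  have hl : 0 < Real.log β := Real.log_pos hβ
  have hM' : (0 : ℝ) < M := by exact_mod_cast hM
  obtain ⟨j, hj⟩ : ∃ j : ℕ, j = (n / M - 1) / 3 := ⟨_, rfl⟩
  rw [← hj]
  have hjr : (n : ℝ) / (3 * M) - 2 ≤ j := by
    have h1 : n < M * (n / M) + M := by
      have := Nat.div_add_mod n M
      have := Nat.mod_lt n hM
      omega
    have h2 : n / M ≤ 3 * j + 3 := by omega
    have h3 : (n : ℝ) < M * ((n / M : ℕ) : ℝ) + M := by exact_mod_cast h1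
    have h4 : ((n / M : ℕ) : ℝ) ≤ 3 * j + 3 := by exact_mod_cast h2
    have h5 : (n : ℝ) / (3 * M) ≤ j + 2 := by
      rw [div_le_iff₀ (by positivity)]
      nlinarith
    linarith
  calc (48 * q) ^ j ≤ (β ^ (-c)) ^ j := pow_le_pow_left₀ (by positivity) hqc j
    _ = Real.exp (-c * Real.log β * j) := by
        rw [Real.rpow_def_of_pos hβ0, ← Real.exp_nat_mul]
        congr 1
        ring
    _ ≤ Real.exp (2 * c * Real.log β + -(c / (3 * K)) * n) := by
        refine Real.exp_le_exp.2 ?_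
        have h6 : c / (3 * K) * n ≤ c * Real.log β * (n / (3 * M)) := by
          rw [div_mul_eq_mul_div, mul_div_assoc', div_le_div_iff₀ (by positivity) (by positivity)]
          have h7 : (0 : ℝ) ≤ c * n * 3 := by positivity
          nlinarith [mul_le_mul_of_nonneg_left hMK h7]
        have h8 := mul_le_mul_of_nonneg_left hjr (show 0 ≤ c * Real.log β by positivity)
        nlinarith
    _ = β ^ (2 * c) * Real.exp (-(c / (3 * K)) * n) := by
        rw [Real.exp_add, Real.rpow_def_of_pos hβ0]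
        congr 2
        ring

theorem pP1 (h3 : S_F3) (h5 : S_F5) (hX : S_X) (hZ : S_Z) : S_P1 := by
  intro N k L _ hN hk
  obtain ⟨c, K, β₀, hc, hK, hβ₀, HZ⟩ := hZ N k L hN hk
  refine ⟨c / (3 * K), 2 * c, β₀, by positivity, by positivity, hβ₀, ?_⟩
  intro β hβ hββ A Λ n hA f hf hf1 hfd η η'
  have hβ1 : 1 < β := by linarith
  have hβ0 : 0 < β := by linarith
  obtain ⟨M, hM, ε, p, δ, q, hMK, hp, hδ, hq, hδq, hpq, hq2, hqc, hbad, hins⟩ := HZ β hβ hββ
  have hN0 : 0 < N := by omega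
  obtain ⟨S, hS⟩ : ∃ S, S = sysS N L k β hN hβ := ⟨_, rfl⟩
  rw [← hS] at hbad hins ⊢
  have hcard : (0 : ℝ) ≤ A.card := Nat.cast_nonneg _
  rcases Finset.eq_empty_or_nonempty A with hAe | hAne
  · -- the function is constant
    subst hAe
    have hconst : ∀ X Y, f X = f Y := by
      intro X Y
      refine hfd X Y fun l hl => ?_
      exact absurd (hl l.1.1 ((mem_st _ _).2 (Or.inl rfl))) (Finset.notMem_empty _)
    have hfc : f = fun _ => f η := funext fun X => hconst X η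
    obtain ⟨-, hcst, -⟩ := h5 (Lk L) Tm (SU N) S (hm N) Λ
    rw [hfc, hcst, hcst]
    simp
  have hA1 : (1 : ℝ) ≤ A.card := by exact_mod_cast hAne.card_pos
  rcases Nat.lt_or_ge n M with hnM | hnM
  · -- small `n`
    obtain ⟨-, -, -, -, hbd, -⟩ := h5 (Lk L) Tm (SU N) S (hm N) Λ
    have e1 := hbd 1 f hf hf1 η
    have e2 := hbd 1 f hf hf1 η'
    have e3 : |S.ker (hm N) Λ f η - S.ker (hm N) Λ f η'| ≤ 2 := by
      rw [abs_le] at e1 e2 ⊢
      constructor <;> linarith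
    have hl : 0 < Real.log β := Real.log_pos hβ1
    have hnr : (n : ℝ) ≤ K * Real.log β := by
      have : (n : ℝ) ≤ M := by exact_mod_cast hnM.le
      linarith
    have e4 : 1 ≤ β ^ (2 * c) * Real.exp (-(c / (3 * K)) * n) := by
      rw [Real.rpow_def_of_pos hβ0, ← Real.exp_add]
      refine Real.one_le_exp ?_
      have : c / (3 * K) * n ≤ c / (3 * K) * (K * Real.log β) :=
        mul_le_mul_of_nonneg_left hnr (by positivity)
      have e5 : c / (3 * K) * (K * Real.log β) = c * Real.log β / 3 := by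
        field_simp
      rw [e5] at this
      have : 0 < c * Real.log β := by positivity
      linarith
    calc |S.ker (hm N) Λ f η - S.ker (hm N) Λ f η'| ≤ 2 := e3
      _ ≤ 6 * 1 * 1 := by norm_num
      _ ≤ 6 * A.card * (β ^ (2 * c) * Real.exp (-(c / (3 * K)) * n)) :=
          mul_le_mul (by linarith) e4 zero_le_one (by positivity)
      _ = _ := by ring
  -- large `n`
  obtain ⟨n', hn'⟩ : ∃ n', n' = n / M - 1 := ⟨_, rfl⟩
  obtain ⟨A', hA'⟩ : ∃ A', A' = A.image (blk M) := ⟨_, rfl⟩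
  obtain ⟨Λ', hΛ'⟩ : ∃ Λ', Λ' = A'.biUnion (Nb n') := ⟨_, rfl⟩
  have hsub : sit M Λ' ⊆ Λ := by
    rw [hΛ', hA', hn']
    exact sit_sub hM hnM A Λ hA
  have key := hX (Lk L) Tm (SU N) (coa S M hM) (hm N) (fun τ X => en k X τ ≤ ε) p δ q
    (fun τ => measurableSet_le (en_cont k τ hN0).measurable measurable_const)
    (fun τ ω ω' h => by
      have hsp : (coa S M hM).sp τ = spt τ := by rw [hS]; rfl
      rw [hsp] at h
      show en k ω τ ≤ ε ↔ en k ω' τ ≤ ε
      rw [en_loc k τ ω ω' h])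
    hbad hins hp hδ hq hδq hpq hq2 A' Λ' n'
    (fun a ha => by
      rw [hΛ']
      exact Finset.subset_biUnion_of_mem (Nb n') ha)
    f hf hf1
    (fun ω ω' h => hfd ω ω' fun l hl => h l (by
      intro a ha
      have hbl : (coa S M hM).bl l = (st l).image (blk M) := by rw [hS]; rfl
      rw [hbl] at ha
      obtain ⟨b, hb, rfl⟩ := Finset.mem_image.1 ha
      rw [hA']
      exact Finset.mem_image_of_mem _ (hl b hb)))
  obtain ⟨B, hB⟩ : ∃ B : ℝ, B = 6 * A.card * β ^ (2 * c) * Real.exp (-(c / (3 * K)) * n) := ⟨_, rfl⟩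
  have hkey : ∀ ω ω', S.ker (hm N) (sit M Λ') f ω ≤ S.ker (hm N) (sit M Λ') f ω' + B := by
    intro ω ω'
    have h6 := key ω ω'
    rw [coa_ker, coa_ker] at h6
    have h7 : (A'.card : ℝ) ≤ A.card := by
      rw [hA']
      exact_mod_cast Finset.card_image_le
    have h8 := rate hβ1 hc hK hM hMK hq hqc hnM
    rw [← hn'] at h8
    have h9 : 6 * (A'.card : ℝ) * (48 * q) ^ (n' / 3) ≤ B := by
      calc 6 * (A'.card : ℝ) * (48 * q) ^ (n' / 3) ≤
            6 * A.card * (β ^ (2 * c) * Real.exp (-(c / (3 * K)) * n)) :=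
            mul_le_mul (by linarith) h8 (by positivity) (by positivity)
        _ = B := by rw [hB]; ring
    have := (abs_le.1 (h6.trans h9)).2
    linarith
  -- consistency
  have hΔ := h5 (Lk L) Tm (SU N) S (hm N) (sit M Λ')
  obtain ⟨-, -, -, hmea, hbd, -⟩ := hΔ
  have hgm : Measurable (S.ker (hm N) (sit M Λ') f) := hmea f hf ⟨1, hf1⟩
  have hgb : ∃ K, ∀ ω, |S.ker (hm N) (sit M Λ') f ω| ≤ K := ⟨1, fun ω => hbd 1 f hf hf1 ω⟩
  have hcons : ∀ ω, S.ker (hm N) Λ f ω = S.ker (hm N) Λ (S.ker (hm N) (sit M Λ') f) ω := by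
    intro ω
    have := h3 (Lk L) Tm (SU N) S (hm N) (sit M Λ') Λ hsub f hf ⟨1, hf1⟩ (fun _ => 1)
      measurable_const ⟨1, fun _ => by simp⟩ (fun _ _ _ => rfl) ω
    simpa using this
  rw [hcons η, hcons η', ← hB, abs_le]
  have g1 := osc h5 S (hm N) Λ _ hgm hgb B hkey η η'
  have g2 := osc h5 S (hm N) Λ _ hgm hgb B hkey η' η
  constructor <;> linarith

end T2H02.TT.PkgP1

namespace T2H02.TT

theorem pP1 (h3 : S_F3) (h5 : S_F5) (hX : S_X) (hZ : S_Z) : S_P1 := PkgP1.pP1 h3 h5 hX hZ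

end T2H02.TT
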