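import Pool.Agent.T2H02.TT.StmX

/-! Package F: averaging facts for the infinite product measure and for `Sys.ker`. -/

set_option autoImplicit false

noncomputable section

open MeasureTheory

namespace T2H02.TT

namespace PkgF

section

variable {ι X : Type} [DecidableEq ι] [MeasurableSpace X]

theorem meas_glue (J : Finset ι) :
    Measurable (fun p : (ι → X) × (ι → X) => glue J p.2 p.1) := by
  rw [measurable_pi_iff]
  intro i
  unfold glue
  by_cases h : i ∈ J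
  · simp only [h, if_true]
    exact (measurable_pi_apply i).comp measurable_snd
  · simp only [h, if_false]
    exact (measurable_pi_apply i).comp measurable_fst

theorem meas_glue_left (J : Finset ι) (η : ι → X) : Measurable (fun ξ : ι → X => glue J ξ η) :=
  (meas_glue J).comp (measurable_const.prodMk measurable_id)

theorem map_glue (μ : Measure X) [IsProbabilityMeasure μ] (J : Finset ι) :
    ((Measure.infinitePi fun _ : ι => μ).prod (Measure.infinitePi fun _ : ι => μ)).map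
      (fun p : (ι → X) × (ι → X) => glue J p.2 p.1) = Measure.infinitePi fun _ : ι => μ := by
  apply Measure.eq_infinitePi
  intro s t ht
  rw [Measure.map_apply (meas_glue J) (MeasurableSet.pi s.countable_toSet (fun i _ => ht i))]
  have h1 : (fun p : (ι → X) × (ι → X) => glue J p.2 p.1) ⁻¹' (Set.pi s t) =
      (Set.pi ((s \ J : Finset ι) : Set ι) t) ×ˢ (Set.pi ((s ∩ J : Finset ι) : Set ι) t) := by
    ext p
    simp only [Set.mem_preimage, Set.mem_pi, Finset.mem_coe, Set.mem_prod, Finset.mem_sdiff,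
      Finset.mem_inter]
    unfold glue
    constructor
    · intro h
      refine ⟨fun i hi => ?_, fun i hi => ?_⟩
      · have := h i hi.1
        rwa [if_neg hi.2] at this
      · have := h i hi.1
        rwa [if_pos hi.2] at this
    · rintro ⟨h, h'⟩ i hi
      by_cases hJ : i ∈ J
      · rw [if_pos hJ]
        exact h' i ⟨hi, hJ⟩
      · rw [if_neg hJ]
        exact h i ⟨hi, hJ⟩
  rw [h1, Measure.prod_prod, Measure.infinitePi_pi _ (fun i _ => ht i),
    Measure.infinitePi_pi _ (fun i _ => ht i), mul_comm, Finset.prod_inter_mul_prod_sdiff]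

theorem map_update (μ : Measure X) [IsProbabilityMeasure μ] (s : ι) :
    ((Measure.infinitePi fun _ : ι => μ).prod μ).map
      (fun p : (ι → X) × X => Function.update p.1 s p.2) = Measure.infinitePi fun _ : ι => μ := by
  have hm : Measurable (fun p : (ι → X) × X => Function.update p.1 s p.2) := by
    rw [measurable_pi_iff]
    intro i
    by_cases h : i = s
    · subst h
      simp only [Function.update_self]
      exact measurable_snd
    · simp only [Function.update_of_ne h]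
      exact (measurable_pi_apply i).comp measurable_fst
  apply Measure.eq_infinitePi
  intro S t ht
  rw [Measure.map_apply hm (MeasurableSet.pi S.countable_toSet (fun i _ => ht i))]
  by_cases hs : s ∈ S
  · have h1 : (fun p : (ι → X) × X => Function.update p.1 s p.2) ⁻¹' (Set.pi S t) =
        (Set.pi ((S.erase s : Finset ι) : Set ι) t) ×ˢ (t s) := by
      ext p
      simp only [Set.mem_preimage, Set.mem_pi, Finset.mem_coe, Set.mem_prod, Finset.mem_erase]
      constructor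
      · intro h
        refine ⟨fun i hi => ?_, ?_⟩
        · have := h i hi.2
          rwa [Function.update_of_ne hi.1] at this
        · have := h s hs
          rwa [Function.update_self] at this
      · rintro ⟨h, h'⟩ i hi
        by_cases hJ : i = s
        · subst hJ
          rw [Function.update_self]
          exact h'
        · rw [Function.update_of_ne hJ]
          exact h i ⟨hJ, hi⟩
    rw [h1, Measure.prod_prod, Measure.infinitePi_pi _ (fun i _ => ht i),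
      Finset.prod_erase_mul S (fun i => μ (t i)) hs]
  · have h1 : (fun p : (ι → X) × X => Function.update p.1 s p.2) ⁻¹' (Set.pi S t) =
        (Set.pi (S : Set ι) t) ×ˢ Set.univ := by
      ext p
      simp only [Set.mem_preimage, Set.mem_pi, Finset.mem_coe, Set.mem_prod, Set.mem_univ, and_true]
      refine forall_congr' fun i => ?_
      refine imp_congr_right fun hi => ?_
      have : i ≠ s := fun h => hs (h ▸ hi)
      rw [Function.update_of_ne this]
    rw [h1, Measure.prod_prod, Measure.infinitePi_pi _ (fun i _ => ht i), measure_univ, mul_one]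

theorem integrable_bdd {α : Type} [MeasurableSpace α] {ν : Measure α} [IsProbabilityMeasure ν]
    {f : α → ℝ} (hf : Measurable f) (hb : ∃ K, ∀ ω, |f ω| ≤ K) : Integrable f ν := by
  obtain ⟨K, hK⟩ := hb
  exact Integrable.of_bound hf.aestronglyMeasurable K (Filter.Eventually.of_forall fun ω => by
    rw [Real.norm_eq_abs]; exact hK ω)

end

end PkgF

open PkgF

theorem pF1 : S_F1 := by
  intro ι X _ _ μ _ s f hf hb
  have hm : Measurable (fun p : (ι → X) × X => Function.update p.1 s p.2) := by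
    rw [measurable_pi_iff]
    intro i
    by_cases h : i = s
    · subst h
      simp only [Function.update_self]
      exact measurable_snd
    · simp only [Function.update_of_ne h]
      exact (measurable_pi_apply i).comp measurable_fst
  conv_lhs => rw [← map_update μ s]
  rw [integral_map hm.aemeasurable hf.aestronglyMeasurable]
  rw [integral_prod (fun p : (ι → X) × X => f (Function.update p.1 s p.2))]
  apply integrable_bdd (hf.comp hm)
  obtain ⟨K, hK⟩ := hb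
  exact ⟨K, fun ω => hK _⟩

theorem pF2 : S_F2 := by
  intro ι X _ _ μ _ J f hf hb
  conv_lhs => rw [← map_glue μ J]
  rw [integral_map (meas_glue J).aemeasurable hf.aestronglyMeasurable]
  rw [integral_prod (fun p : (ι → X) × (ι → X) => f (glue J p.2 p.1))]
  apply integrable_bdd (hf.comp (meas_glue J))
  obtain ⟨K, hK⟩ := hb
  exact ⟨K, fun ω => hK _⟩

namespace PkgF

variable {ι Tm X : Type} [DecidableEq ι] [DecidableEq Tm] [MeasurableSpace X]
  (S : Sys ι Tm X) (μ : Measure X) [IsProbabilityMeasure μ]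

theorem W_pos (Λ : Finset Pl) (ω : ι → X) : 0 < S.W Λ ω :=
  Finset.prod_pos fun τ _ => S.w_pos τ ω

theorem W_le (Λ : Finset Pl) (ω : ι → X) : S.W Λ ω ≤ 1 :=
  Finset.prod_le_one (fun τ _ => (S.w_pos τ ω).le) fun τ _ => S.w_le τ ω

theorem W_meas (Λ : Finset Pl) : Measurable (S.W Λ) :=
  Finset.measurable_prod _ fun τ _ => S.w_meas τ

theorem fW_meas (Λ : Finset Pl) {f : (ι → X) → ℝ} (hf : Measurable f) (η : ι → X) :
    Measurable (fun ξ => f (glue (S.Fr Λ) ξ η) * S.W Λ (glue (S.Fr Λ) ξ η)) :=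
  (hf.comp (meas_glue_left _ η)).mul ((W_meas S Λ).comp (meas_glue_left _ η))

theorem fW_bdd (Λ : Finset Pl) {f : (ι → X) → ℝ} (hb : ∃ K, ∀ ω, |f ω| ≤ K) (η : ι → X) :
    ∃ K, ∀ ξ, |f (glue (S.Fr Λ) ξ η) * S.W Λ (glue (S.Fr Λ) ξ η)| ≤ K := by
  obtain ⟨K, hK⟩ := hb
  refine ⟨K, fun ξ => ?_⟩
  rw [abs_mul, abs_of_pos (W_pos S Λ _)]
  have h1 := hK (glue (S.Fr Λ) ξ η)
  have h2 := W_le S Λ (glue (S.Fr Λ) ξ η)
  have h3 := W_pos S Λ (glue (S.Fr Λ) ξ η)
  have h4 := abs_nonneg (f (glue (S.Fr Λ) ξ η))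
  nlinarith

theorem fW_int (Λ : Finset Pl) {f : (ι → X) → ℝ} (hf : Measurable f) (hb : ∃ K, ∀ ω, |f ω| ≤ K)
    (η : ι → X) : Integrable (fun ξ => f (glue (S.Fr Λ) ξ η) * S.W Λ (glue (S.Fr Λ) ξ η))
      (Measure.infinitePi fun _ : ι => μ) :=
  integrable_bdd (fW_meas S Λ hf η) (fW_bdd S Λ hb η)

theorem bdd_one : ∃ K : ℝ, ∀ ω : ι → X, |(fun _ : ι → X => (1 : ℝ)) ω| ≤ K :=
  ⟨1, fun _ => by simp⟩

theorem num_pos (Λ : Finset Pl) (η : ι → X) : 0 < S.num μ Λ (fun _ => 1) η := by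
  unfold Sys.num
  rw [integral_pos_iff_support_of_nonneg]
  · have : Function.support (fun ξ : ι → X => (1 : ℝ) * S.W Λ (glue (S.Fr Λ) ξ η)) = Set.univ := by
      ext ξ
      simp only [one_mul, Function.mem_support, Set.mem_univ, iff_true]
      exact (W_pos S Λ _).ne'
    rw [this, measure_univ]
    exact one_pos
  · intro ξ
    simp only [one_mul, Pi.zero_apply]
    exact (W_pos S Λ _).le
  · exact fW_int S μ Λ (f := fun _ => 1) measurable_const bdd_one η

theorem num_const_mul (Λ : Finset Pl) (c : ℝ) (f : (ι → X) → ℝ) (η : ι → X) :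
    S.num μ Λ (fun ω => c * f ω) η = c * S.num μ Λ f η := by
  unfold Sys.num
  rw [← integral_const_mul]
  congr 1
  funext ξ
  ring

theorem ker_const (Λ : Finset Pl) (c : ℝ) (η : ι → X) : S.ker μ Λ (fun _ => c) η = c := by
  unfold Sys.ker
  have h1 : S.num μ Λ (fun _ => c) η = c * S.num μ Λ (fun _ => 1) η := by
    rw [← num_const_mul]
    simp only [mul_one]
  rw [h1, mul_div_assoc, div_self (num_pos S μ Λ η).ne', mul_one]

theorem ker_mono (Λ : Finset Pl) {f g : (ι → X) → ℝ} (hf : Measurable f)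
    (hfb : ∃ K, ∀ ω, |f ω| ≤ K) (hg : Measurable g) (hgb : ∃ K, ∀ ω, |g ω| ≤ K) (η : ι → X)
    (h : ∀ ξ, f (glue (S.Fr Λ) ξ η) ≤ g (glue (S.Fr Λ) ξ η)) :
    S.ker μ Λ f η ≤ S.ker μ Λ g η := by
  unfold Sys.ker
  apply div_le_div_of_nonneg_right _ (num_pos S μ Λ η).le
  unfold Sys.num
  apply integral_mono (fW_int S μ Λ hf hfb η) (fW_int S μ Λ hg hgb η)
  intro ξ
  exact mul_le_mul_of_nonneg_right (h ξ) (W_pos S Λ _).le

theorem ker_add (Λ : Finset Pl) {f g : (ι → X) → ℝ} (hf : Measurable f)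
    (hfb : ∃ K, ∀ ω, |f ω| ≤ K) (hg : Measurable g) (hgb : ∃ K, ∀ ω, |g ω| ≤ K) (η : ι → X) :
    S.ker μ Λ (fun ω => f ω + g ω) η = S.ker μ Λ f η + S.ker μ Λ g η := by
  unfold Sys.ker
  rw [← add_div]
  congr 1
  unfold Sys.num
  rw [← integral_add (fW_int S μ Λ hf hfb η) (fW_int S μ Λ hg hgb η)]
  congr 1
  funext ξ
  ring

theorem ker_const_mul (Λ : Finset Pl) (c : ℝ) (f : (ι → X) → ℝ) (η : ι → X) :
    S.ker μ Λ (fun ω => c * f ω) η = c * S.ker μ Λ f η := by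
  unfold Sys.ker
  rw [num_const_mul, mul_div_assoc]

theorem num_meas (Λ : Finset Pl) {f : (ι → X) → ℝ} (hf : Measurable f) :
    Measurable (S.num μ Λ f) := by
  unfold Sys.num
  have h1 : Measurable (fun p : (ι → X) × (ι → X) =>
      f (glue (S.Fr Λ) p.2 p.1) * S.W Λ (glue (S.Fr Λ) p.2 p.1)) :=
    (hf.comp (meas_glue _)).mul ((W_meas S Λ).comp (meas_glue _))
  exact (StronglyMeasurable.integral_prod_right
    (f := fun η ξ => f (glue (S.Fr Λ) ξ η) * S.W Λ (glue (S.Fr Λ) ξ η))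
    h1.stronglyMeasurable).measurable

theorem ker_meas (Λ : Finset Pl) {f : (ι → X) → ℝ} (hf : Measurable f) :
    Measurable (S.ker μ Λ f) :=
  (num_meas S μ Λ hf).div (num_meas S μ Λ measurable_const)

theorem ker_bdd (Λ : Finset Pl) (K : ℝ) {f : (ι → X) → ℝ} (hf : Measurable f)
    (hb : ∀ ω, |f ω| ≤ K) (η : ι → X) : |S.ker μ Λ f η| ≤ K := by
  have hcb : ∀ c : ℝ, ∃ K', ∀ ω : ι → X, |(fun _ : ι → X => c) ω| ≤ K' := fun c => ⟨|c|, fun _ => le_rfl⟩
  rw [abs_le]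
  constructor
  · have h := ker_mono S μ Λ (f := fun _ => -K) measurable_const (hcb _) hf ⟨K, hb⟩ η
      (fun ξ => (abs_le.1 (hb _)).1)
    rwa [ker_const] at h
  · have h := ker_mono S μ Λ hf ⟨K, hb⟩ (g := fun _ => K) measurable_const (hcb _) η
      (fun ξ => (abs_le.1 (hb _)).2)
    rwa [ker_const] at h

theorem dep_glue {J : Finset ι} {h : (ι → X) → ℝ} (hd : Sys.dep {i | i ∉ J} h) (ξ η : ι → X) :
    h (glue J ξ η) = h η := by
  apply hd
  intro i hi
  unfold glue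
  rw [if_neg hi]

theorem num_mul (Λ : Finset Pl) (f h : (ι → X) → ℝ) (hd : Sys.dep {i | i ∉ S.Fr Λ} h) (η : ι → X) :
    S.num μ Λ (fun ω => h ω * f ω) η = h η * S.num μ Λ f η := by
  unfold Sys.num
  rw [← integral_const_mul]
  congr 1
  funext ξ
  beta_reduce
  rw [dep_glue hd]
  ring

theorem ker_mul (Λ : Finset Pl) (f h : (ι → X) → ℝ) (hd : Sys.dep {i | i ∉ S.Fr Λ} h) (η : ι → X) :
    S.ker μ Λ (fun ω => h ω * f ω) η = h η * S.ker μ Λ f η := by
  unfold Sys.ker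
  rw [num_mul S μ Λ f h hd, mul_div_assoc]

theorem num_dep (Λ : Finset Pl) (A : Set ι) (f : (ι → X) → ℝ) (hf : Sys.dep A f) :
    Sys.dep {i | i ∉ S.Fr Λ ∧ (i ∈ A ∨ ∃ τ ∈ S.tms Λ, i ∈ S.sp τ)} (S.num μ Λ f) := by
  intro ω ω' h
  unfold Sys.num
  congr 1
  funext ξ
  have h1 : f (glue (S.Fr Λ) ξ ω) = f (glue (S.Fr Λ) ξ ω') := by
    apply hf
    intro i hi
    unfold glue
    split_ifs with hF
    · rfl
    · exact h i ⟨hF, Or.inl hi⟩
  have h2 : S.W Λ (glue (S.Fr Λ) ξ ω) = S.W Λ (glue (S.Fr Λ) ξ ω') := by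
    unfold Sys.W
    refine Finset.prod_congr rfl fun τ hτ => ?_
    apply S.w_loc
    intro i hi
    unfold glue
    split_ifs with hF
    · rfl
    · exact h i ⟨hF, Or.inr ⟨τ, hτ, hi⟩⟩
  rw [h1, h2]

theorem ker_dep (Λ : Finset Pl) (A : Set ι) (f : (ι → X) → ℝ) (hf : Sys.dep A f) :
    Sys.dep {i | i ∉ S.Fr Λ ∧ (i ∈ A ∨ ∃ τ ∈ S.tms Λ, i ∈ S.sp τ)} (S.ker μ Λ f) := by
  intro ω ω' h
  unfold Sys.ker
  rw [num_dep S μ Λ A f hf ω ω' h]
  congr 1
  have h0 : Sys.dep (∅ : Set ι) (fun _ : ι → X => (1 : ℝ)) := fun _ _ _ => rfl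
  refine num_dep S μ Λ ∅ _ h0 ω ω' fun i hi => h i ⟨hi.1, ?_⟩
  rcases hi.2 with h' | h'
  · exact absurd h' (Set.notMem_empty i)
  · exact Or.inr h'

/-- `ker f` does not depend on the free variables -/
theorem ker_dep' (Λ : Finset Pl) (f : (ι → X) → ℝ) : Sys.dep {i | i ∉ S.Fr Λ} (S.ker μ Λ f) := by
  intro ω ω' h
  refine ker_dep S μ Λ Set.univ f (fun a b hab => ?_) ω ω' fun i hi => h i hi.1
  congr 1
  funext i
  exact hab i (Set.mem_univ i)

/-- the other terms do not depend on the free variables -/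
theorem rest_dep {Δ : Finset Pl} {T : Finset Tm} :
    Sys.dep {i | i ∉ S.Fr Δ} (fun ω => ∏ τ ∈ T \ S.tms Δ, S.w τ ω) := by
  intro ω ω' h
  refine Finset.prod_congr rfl fun τ hτ => ?_
  apply S.w_loc
  intro i hi
  apply h
  intro hF
  rw [S.mem_Fr] at hF
  obtain ⟨a, ha, haΔ⟩ := hF
  rw [Finset.mem_sdiff] at hτ
  apply hτ.2
  rw [S.mem_tms]
  exact ⟨a, (S.bt_iff τ a).2 ⟨i, hi, ha⟩, haΔ⟩

theorem split_W {Δ : Finset Pl} {T : Finset Tm} (hT : S.tms Δ ⊆ T) (ω : ι → X) :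
    ∏ τ ∈ T, S.w τ ω = (∏ τ ∈ T \ S.tms Δ, S.w τ ω) * S.W Δ ω := by
  unfold Sys.W
  rw [Finset.prod_sdiff hT]

theorem glue_glue {J I : Finset ι} (h : J ⊆ I) (ξ ζ η : ι → X) :
    glue I (glue J ξ ζ) η = glue J ξ (glue I ζ η) := by
  funext i
  unfold glue
  by_cases h1 : i ∈ J
  · rw [if_pos (h h1), if_pos h1, if_pos h1]
  · by_cases h2 : i ∈ I
    · rw [if_pos h2, if_neg h1, if_neg h1, if_pos h2]
    · rw [if_neg h2, if_neg h1, if_neg h2]

theorem num_ker (Δ : Finset Pl) (f : (ι → X) → ℝ) (ω : ι → X) :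
    S.num μ Δ (S.ker μ Δ f) ω = S.num μ Δ f ω := by
  have h1 : S.num μ Δ (S.ker μ Δ f) ω = S.num μ Δ (fun ω => S.ker μ Δ f ω * (fun _ => 1) ω) ω := by
    simp only [mul_one]
  rw [h1, num_mul S μ Δ (fun _ => 1) (S.ker μ Δ f) (ker_dep' S μ Δ f)]
  unfold Sys.ker
  rw [div_mul_cancel₀]
  exact (num_pos S μ Δ ω).ne'

end PkgF

theorem pF5 : S_F5 := by
  intro ι Tm X _ _ _ S μ _ Λ
  refine ⟨num_pos S μ Λ, fun c η => ker_const S μ Λ c η, ?_, fun f hf _ => ker_meas S μ Λ hf,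
    fun K f hf hb η => ker_bdd S μ Λ K hf hb η, fun f h hd η => ker_mul S μ Λ f h hd η,
    fun A f hf => ker_dep S μ Λ A f hf⟩
  intro f g hf hfb hg hgb η
  exact ⟨fun h => ker_mono S μ Λ hf hfb hg hgb η h, ker_add S μ Λ hf hfb hg hgb η,
    fun c => ker_const_mul S μ Λ c f η⟩

theorem pF3 : S_F3 := by
  intro ι Tm X _ _ _ S μ _ Δ Λ hΔ f hf hfb h hh hhb hd η
  have hFr : S.Fr Δ ⊆ S.Fr Λ := by
    intro i hi
    rw [S.mem_Fr] at hi ⊢
    obtain ⟨a, ha, haΔ⟩ := hi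
    exact ⟨a, ha, hΔ haΔ⟩
  have htm : S.tms Δ ⊆ S.tms Λ := by
    intro i hi
    rw [S.mem_tms] at hi ⊢
    obtain ⟨a, ha, haΔ⟩ := hi
    exact ⟨a, ha, hΔ haΔ⟩
  have key : ∀ g : (ι → X) → ℝ, Measurable g → (∃ K, ∀ ω, |g ω| ≤ K) →
      S.num μ Λ (fun ω => h ω * g ω) η =
        ∫ ζ, h (glue (S.Fr Λ) ζ η) * (∏ τ ∈ S.tms Λ \ S.tms Δ, S.w τ (glue (S.Fr Λ) ζ η)) *
          S.num μ Δ g (glue (S.Fr Λ) ζ η) ∂(Measure.infinitePi fun _ : ι => μ) := by
    intro g hg hgb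
    have hhg : ∃ K, ∀ ω, |h ω * g ω| ≤ K := by
      obtain ⟨K1, h1⟩ := hhb
      obtain ⟨K2, h2⟩ := hgb
      refine ⟨K1 * K2, fun ω => ?_⟩
      rw [abs_mul]
      exact mul_le_mul (h1 ω) (h2 ω) (abs_nonneg _) ((abs_nonneg _).trans (h1 ω))
    have e := pF2 ι X μ (S.Fr Δ)
      (fun ξ => (h (glue (S.Fr Λ) ξ η) * g (glue (S.Fr Λ) ξ η)) * S.W Λ (glue (S.Fr Λ) ξ η))
      (fW_meas S Λ (hh.mul hg) η) (fW_bdd S Λ hhg η)
    unfold Sys.num
    rw [e]
    congr 1
    funext ζ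
    rw [← integral_const_mul]
    congr 1
    funext ξ
    rw [glue_glue hFr]
    generalize glue (S.Fr Λ) ζ η = ω
    rw [dep_glue hd]
    have e2 : S.W Λ (glue (S.Fr Δ) ξ ω) =
        (∏ τ ∈ S.tms Λ \ S.tms Δ, S.w τ ω) * S.W Δ (glue (S.Fr Δ) ξ ω) := by
      have e3 := split_W S htm (glue (S.Fr Δ) ξ ω)
      have e4 := dep_glue (rest_dep S (Δ := Δ) (T := S.tms Λ)) ξ ω
      rw [e4] at e3
      exact e3
    rw [e2]
    ring
  have hkb : ∃ K, ∀ ω, |S.ker μ Δ f ω| ≤ K := by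
    obtain ⟨K, hK⟩ := hfb
    exact ⟨K, fun ω => ker_bdd S μ Δ K hf hK ω⟩
  unfold Sys.ker
  congr 1
  rw [key f hf hfb]
  have e5 := key (S.ker μ Δ f) (ker_meas S μ Δ hf) hkb
  simp only [num_ker] at e5
  rw [← e5]
  rfl

theorem pF4 : S_F4 := by
  intro ι Tm X _ _ _ S μ _ Δ T hT f hf hfb h hh hhb hd
  have key : ∀ g : (ι → X) → ℝ, Measurable g → (∃ K, ∀ ω, |g ω| ≤ K) →
      ∫ ω, (h ω * g ω) * ∏ τ ∈ T, S.w τ ω ∂(Measure.infinitePi fun _ : ι => μ) =
        ∫ ω, h ω * (∏ τ ∈ T \ S.tms Δ, S.w τ ω) *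
          S.num μ Δ g ω ∂(Measure.infinitePi fun _ : ι => μ) := by
    intro g hg hgb
    have hmP : Measurable (fun ω : ι → X => ∏ τ ∈ T, S.w τ ω) :=
      Finset.measurable_prod _ fun τ _ => S.w_meas τ
    have e := pF2 ι X μ (S.Fr Δ) (fun ω => (h ω * g ω) * ∏ τ ∈ T, S.w τ ω)
      ((hh.mul hg).mul hmP) (by
        obtain ⟨K1, h1⟩ := hhb
        obtain ⟨K2, h2⟩ := hgb
        refine ⟨K1 * K2, fun ω => ?_⟩
        rw [abs_mul, abs_mul]
        have h3 : |∏ τ ∈ T, S.w τ ω| ≤ 1 := by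
          rw [abs_of_pos (Finset.prod_pos fun τ _ => S.w_pos τ ω)]
          exact Finset.prod_le_one (fun τ _ => (S.w_pos τ ω).le) fun τ _ => S.w_le τ ω
        have h4 : |h ω| * |g ω| ≤ K1 * K2 :=
          mul_le_mul (h1 ω) (h2 ω) (abs_nonneg _) ((abs_nonneg _).trans (h1 ω))
        calc |h ω| * |g ω| * |∏ τ ∈ T, S.w τ ω| ≤ |h ω| * |g ω| * 1 :=
              mul_le_mul_of_nonneg_left h3 (by positivity)
          _ ≤ K1 * K2 := by rw [mul_one]; exact h4)
    rw [e]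
    congr 1
    funext ω
    unfold Sys.num
    rw [← integral_const_mul]
    congr 1
    funext ξ
    rw [dep_glue hd]
    have e2 : ∏ τ ∈ T, S.w τ (glue (S.Fr Δ) ξ ω) =
        (∏ τ ∈ T \ S.tms Δ, S.w τ ω) * S.W Δ (glue (S.Fr Δ) ξ ω) := by
      have e3 := split_W S hT (glue (S.Fr Δ) ξ ω)
      have e4 := dep_glue (rest_dep S (Δ := Δ) (T := T)) ξ ω
      rw [e4] at e3
      exact e3
    rw [e2]
    ring
  have hkb : ∃ K, ∀ ω, |S.ker μ Δ f ω| ≤ K := by
    obtain ⟨K, hK⟩ := hfb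
    exact ⟨K, fun ω => ker_bdd S μ Δ K hf hK ω⟩
  unfold Sys.ex
  congr 1
  rw [key f hf hfb]
  have e5 := key (S.ker μ Δ f) (ker_meas S μ Δ hf) hkb
  simp only [num_ker] at e5
  rw [← e5]

end T2H02.TT
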