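import Pool.Agent.T2H02.TT.Stm3

/-!
# Package SY: symmetries of the Wilson expectation
-/

set_option autoImplicit false
set_option linter.unusedSectionVars false

noncomputable section

open MeasureTheory Matrix
open scoped Matrix.Norms.Frobenius

namespace T2H02.TT

namespace PkgSY

variable {N L : ℕ} [NeZero L]

/-- the product measure is invariant under permutations of the links -/
lemma int_perm (σ : Lk L ≃ Lk L) (Φ : Cf N L → ℝ) :
    ∫ X, Φ (fun l => X (σ l)) ∂(pm N L) = ∫ X, Φ X ∂(pm N L) := by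
  have h := Measure.infinitePi_map_piCongrLeft (X := fun _ : Lk L => SU N) (fun _ : Lk L => hm N)
    σ.symm
  have h2 : ∀ X : Cf N L, (MeasurableEquiv.piCongrLeft (fun _ : Lk L => SU N) σ.symm) X =
      fun l => X (σ l) := by
    intro X
    funext l
    obtain ⟨l', rfl⟩ := σ.symm.surjective l
    rw [MeasurableEquiv.coe_piCongrLeft]
    have := Equiv.piCongrLeft_apply_apply (fun _ : Lk L => SU N) σ.symm X l'
    rw [this, Equiv.apply_symm_apply]
  have h3 : ∫ X, Φ X ∂(pm N L) = ∫ X, Φ X ∂(Measure.map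
      (MeasurableEquiv.piCongrLeft (fun _ : Lk L => SU N) σ.symm)
      (Measure.infinitePi fun _ : Lk L => hm N)) := by rw [h]
  rw [h3, integral_map_equiv]
  refine integral_congr_ae (Filter.Eventually.of_forall fun X => ?_)
  simp only
  rw [h2]

/-- translation of links -/
def tr (L : ℕ) (v : Pl) : Lk L ≃ Lk L where
  toFun l := ((l.1.1 + v, l.1.2), l.2)
  invFun l := ((l.1.1 - v, l.1.2), l.2)
  left_inv l := by simp
  right_inv l := by simp

/-- exchange of the directions `0`, `1` -/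
def s01 (i : Fin 4) : Fin 4 := if i = 0 then 1 else if i = 1 then 0 else i

lemma s01_s01 (i : Fin 4) : s01 (s01 i) = i := by
  revert i; decide

/-- reflection of links -/
def rf (L : ℕ) : Lk L ≃ Lk L where
  toFun l := ((l.1.1.swap, l.1.2), s01 l.2)
  invFun l := ((l.1.1.swap, l.1.2), s01 l.2)
  left_inv l := by simp [s01_s01]
  right_inv l := by simp [s01_s01]

lemma swp_eq (X : Cf N L) : swp X = fun l => X (rf L l) := rfl

lemma shf_eq (v : Pl) (X : Cf N L) : shf v X = fun l => X (tr L v l) := rfl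

/-- the general principle -/
lemma wex_of (k : ℕ) (β : ℝ) (R R' : Finset Pl) (σ : Lk L ≃ Lk L) (f : Cf N L → ℝ)
    (h : ∀ X : Cf N L, wact k R' X = wact k R (fun l => X (σ l))) :
    wex N L k β R' (fun X => f (fun l => X (σ l))) = wex N L k β R f := by
  unfold wex
  congr 1
  · rw [← int_perm σ (fun X => f X * Real.exp (-β * wact k R X))]
    simp only [h]
  · rw [← int_perm σ (fun X => Real.exp (-β * wact k R X))]
    simp only [h]

lemma nx_tr (v x : Pl) (y : Tor L) (i : Fin 4) :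
    nx (x + v, y) i = ((nx (x, y) i).1 + v, (nx (x, y) i).2) := by
  unfold nx
  simp only [Prod.mk.injEq]
  exact ⟨by abel, trivial⟩

lemma plq_tr (v x : Pl) (y : Tor L) (i j : Fin 4) (X : Cf N L) :
    plq X (x + v, y) i j = plq (fun l => X (tr L v l)) (x, y) i j := by
  unfold plq tr
  simp only [Equiv.coe_fn_mk, nx_tr]

lemma wact_tr (k : ℕ) (v : Pl) (R : Finset Pl) (X : Cf N L) :
    wact k (R.image (fun x => x + v)) X = wact k R (fun l => X (tr L v l)) := by
  unfold wact
  have hinj : Function.Injective (fun x : Pl => x + v) := add_left_injective v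
  rw [Finset.sum_image (fun a _ b _ h => hinj h)]
  have hm : ∀ x u : Pl, x + v + u ∈ R.image (fun x => x + v) ↔ x + u ∈ R := by
    intro x u
    rw [show x + v + u = (fun x : Pl => x + v) (x + u) by simp only; abel,
      hinj.mem_finset_image]
  have hm2 : ∀ x u w : Pl, x + v + u + w ∈ R.image (fun x => x + v) ↔ x + u + w ∈ R := by
    intro x u w
    rw [add_assoc, hm, add_assoc]
  refine Finset.sum_congr rfl fun x _ => Finset.sum_congr rfl fun y _ =>
    Finset.sum_congr rfl fun i _ => Finset.sum_congr rfl fun j _ => ?_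
  have htw : twf N k (x + v, y) i j = twf N k (x, y) i j := rfl
  simp only [hm, hm2, plq_tr, htw]

/-- exchange of the kinds of terms -/
def sk (i : Fin 4) : Fin 4 := if i = 1 then 2 else if i = 2 then 1 else i

lemma sk_sk (i : Fin 4) : sk (sk i) = i := by revert i; decide

lemma cor_sk (x : Pl) (i : Fin 4) (a : Pl) : a ∈ cor (x.swap, sk i) ↔ a.swap ∈ cor (x, i) := by
  obtain ⟨x1, x2⟩ := x
  obtain ⟨a1, a2⟩ := a
  fin_cases i
  · change (a1, a2) ∈ cor ((x2, x1), 0) ↔ (a2, a1) ∈ cor ((x1, x2), 0)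
    rw [mem_cor0, mem_cor0]
    simp only [Prod.mk.injEq]
    tauto
  · change (a1, a2) ∈ cor ((x2, x1), 2) ↔ (a2, a1) ∈ cor ((x1, x2), 1)
    rw [mem_cor1, mem_cor2]
    simp only [Prod.mk.injEq, Prod.mk_add_mk]
    tauto
  · change (a1, a2) ∈ cor ((x2, x1), 1) ↔ (a2, a1) ∈ cor ((x1, x2), 2)
    rw [mem_cor1, mem_cor2]
    simp only [Prod.mk.injEq, Prod.mk_add_mk]
    tauto
  · change (a1, a2) ∈ cor ((x2, x1), 3) ↔ (a2, a1) ∈ cor ((x1, x2), 3)
    rw [mem_cor3, mem_cor3]
    simp only [Prod.mk.injEq, Prod.mk_add_mk]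
    tauto

lemma sw10 (x : Pl) : (x + (1, 0)).swap = x.swap + (0, 1) := rfl
lemma sw01 (x : Pl) : (x + (0, 1)).swap = x.swap + (1, 0) := rfl

lemma en1_sk (k : ℕ) (X : Cf N L) (x : Pl) (i : Fin 4) :
    en1 k X (x.swap, sk i) = en1 k (fun l => X (rf L l)) (x, i) := by
  have hs0 : s01 0 = 1 := rfl
  have hs1 : s01 1 = 0 := rfl
  have hs2 : s01 2 = 2 := rfl
  have hs3 : s01 3 = 3 := rfl
  fin_cases i
  · change eV k X x.swap = eV k _ x
    unfold eV df
    simp only [nx2, nx3, rf, Equiv.coe_fn_mk, hs2, hs3]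
  · change eK X x.swap 1 = eK _ x 0
    unfold eK df
    simp only [nx0, nx1, nx2, nx3, rf, Equiv.coe_fn_mk, hs0, hs2, hs3, sw10]
  · change eK X x.swap 0 = eK _ x 1
    unfold eK df
    simp only [nx0, nx1, nx2, nx3, rf, Equiv.coe_fn_mk, hs1, hs2, hs3, sw01]
  · change eP X 1 x.swap = eP _ 1 x
    unfold eP df
    simp only [nx0, nx1, rf, Equiv.coe_fn_mk, hs0, hs1, sw01, sw10, one_smul]
    refine Finset.sum_congr rfl fun y _ => ?_
    rw [norm_sub_rev]

lemma wact_rf (k : ℕ) (R : Finset Pl) (X : Cf N L) :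
    wact k (R.image Prod.swap) X = wact k R (fun l => X (rf L l)) := by
  rw [wact_eq, wact_eq]
  have hsw : ∀ a : Pl, a ∈ R.image Prod.swap ↔ a.swap ∈ R := by
    intro a
    rw [Finset.mem_image]
    constructor
    · rintro ⟨b, hb, rfl⟩
      rwa [Prod.swap_swap]
    · intro h
      exact ⟨a.swap, h, Prod.swap_swap a⟩
  refine Finset.sum_nbij' (fun τ => (τ.1.swap, sk τ.2)) (fun τ => (τ.1.swap, sk τ.2))
    ?_ ?_ ?_ ?_ ?_
  · intro τ hτ
    rw [mem_tin] at hτ ⊢
    intro a ha
    rw [cor_sk τ.1 τ.2] at ha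
    have := hτ _ ha
    rwa [hsw, Prod.swap_swap] at this
  · intro τ hτ
    rw [mem_tin] at hτ ⊢
    intro a ha
    rw [cor_sk τ.1 τ.2] at ha
    rw [hsw]
    exact hτ _ ha
  · intro τ _
    simp [sk_sk]
  · intro τ _
    simp [sk_sk]
  · intro τ _
    have := en1_sk k X τ.1.swap (sk τ.2)
    rwa [Prod.swap_swap, sk_sk] at this

end PkgSY

open PkgSY in
theorem pSY : S_SY := by
  intro N k L _ _ β R f _ _
  refine ⟨fun v => ?_, ?_⟩
  · exact wex_of k β R _ (tr L v) f (wact_tr k v R)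
  · exact wex_of k β R _ (rf L) f (wact_rf k R)

end T2H02.TT
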