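import Pool.Agent.T2H02.TT.Stm4

/-!
# Package ZL: algebra of the centre-projected links and loops
-/

set_option autoImplicit false
set_option linter.unusedSectionVars false

noncomputable section

open MeasureTheory Matrix
open scoped Matrix.Norms.Frobenius

namespace T2H02.TT

namespace PkgZL

variable {N L : ℕ} [NeZero L]

/-! ### roots of unity -/

lemma om_norm (N m : ℕ) : ‖om N m‖ = 1 := by
  have h : om N m = Complex.exp (((2 * Real.pi * m / N : ℝ) : ℂ) * Complex.I) := by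
    rw [om]
    congr 1
    push_cast
    ring
  rw [h, Complex.norm_exp_ofReal_mul_I]

lemma om_add (N a b : ℕ) : om N (a + b) = om N a * om N b := by
  unfold om
  rw [← Complex.exp_add]
  congr 1
  push_cast
  ring

lemma om_mul_self {N : ℕ} (hN : N ≠ 0) (q : ℕ) : om N (N * q) = 1 := by
  have h : (2 * (Real.pi : ℂ) * Complex.I * ((N * q : ℕ) : ℂ) / N) =
      q * (2 * Real.pi * Complex.I) := by
    have : (N : ℂ) ≠ 0 := Nat.cast_ne_zero.2 hN
    push_cast
    field_simp
  unfold om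
  rw [h, Complex.exp_nat_mul_two_pi_mul_I]

lemma om_mod {N : ℕ} (hN : N ≠ 0) (t : ℕ) : om N (t % N) = om N t := by
  conv_rhs => rw [← Nat.mod_add_div t N]
  rw [om_add, om_mul_self hN, mul_one]

lemma om_star (N m : ℕ) : star (om N m) * om N m = 1 := by
  rw [Complex.star_def, ← Complex.normSq_eq_conj_mul_self, Complex.normSq_eq_norm_sq, om_norm]
  norm_num

lemma om_star' (N m : ℕ) : om N m * star (om N m) = 1 := by rw [mul_comm, om_star]

/-! ### the nearest root -/

lemma nrt_norm (t : ℂ) : ‖nrt N t‖ ≤ 1 := by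
  classical
  unfold nrt
  by_cases h : ∃ m : Fin N, ∀ m' : Fin N, m' ≠ m → (star (om N m') * t).re < (star (om N m) * t).re
  · obtain ⟨m, hm⟩ := h
    rw [Finset.sum_eq_single m]
    · rw [if_pos hm, om_norm]
    · intro m' _ hne
      rw [if_neg]
      intro h'
      exact lt_irrefl _ ((h' m hne.symm).trans (hm m' hne))
    · intro h'
      exact absurd (Finset.mem_univ m) h'
  · rw [Finset.sum_eq_zero]
    · simp
    · intro m _
      rw [if_neg]
      intro h'
      exact h ⟨m, h'⟩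

lemma nrt_meas : Measurable (nrt N) := by
  unfold nrt
  refine Finset.measurable_sum _ fun m _ => Measurable.ite ?_ measurable_const measurable_const
  have h : {t : ℂ | ∀ m' : Fin N, m' ≠ m → (star (om N m') * t).re < (star (om N m) * t).re} =
      ⋂ m' : Fin N, ⋂ _ : m' ≠ m, {t : ℂ | (star (om N m') * t).re < (star (om N m) * t).re} := by
    ext t
    simp
  rw [h]
  refine MeasurableSet.iInter fun m' => MeasurableSet.iInter fun _ => ?_
  refine measurableSet_lt ?_ ?_
  · exact Complex.measurable_re.comp (measurable_const.mul measurable_id)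
  · exact Complex.measurable_re.comp (measurable_const.mul measurable_id)

lemma nrt_mul_om (hN : N ≠ 0) (n : ℕ) (t : ℂ) : nrt N (om N n * t) = om N n * nrt N t := by
  have : NeZero N := ⟨hN⟩
  set σ : Fin N ≃ Fin N := Equiv.addRight (Fin.ofNat N n) with hσ
  have h : ∀ m : Fin N, om N (σ m) = om N n * om N m := by
    intro m
    have h1 : ((σ m : Fin N) : ℕ) = ((m : ℕ) + n % N) % N := by
      rw [hσ, Equiv.coe_addRight, Fin.val_add]
      rfl
    rw [h1, om_mod hN, om_add, om_mod hN, mul_comm]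
  have h2 : ∀ m : Fin N, star (om N (σ m)) * (om N n * t) = star (om N m) * t := by
    intro m
    rw [h, star_mul]
    linear_combination star (om N m) * t * om_star N n
  unfold nrt
  rw [Finset.mul_sum, ← Equiv.sum_comp σ]
  refine Finset.sum_congr rfl fun m _ => ?_
  have h3 : (∀ m' : Fin N, m' ≠ σ m →
      (star (om N m') * (om N n * t)).re < (star (om N (σ m)) * (om N n * t)).re) ↔
      ∀ m' : Fin N, m' ≠ m → (star (om N m') * t).re < (star (om N m) * t).re := by
    constructor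
    · intro h4 m' hne
      have h5 := h4 (σ m') (fun h6 => hne (σ.injective h6))
      rwa [h2, h2] at h5
    · intro h4 m' hne
      obtain ⟨m'', rfl⟩ := σ.surjective m'
      have h5 := h4 m'' (fun h6 => hne (by rw [h6]))
      rwa [h2, h2]
  simp only [h3, mul_ite, mul_zero]
  rw [h]

lemma nrt_star (hN : N ≠ 0) (t : ℂ) : nrt N (star t) = star (nrt N t) := by
  have : NeZero N := ⟨hN⟩
  set σ : Fin N ≃ Fin N := Equiv.neg (Fin N) with hσ
  have h : ∀ m : Fin N, om N (σ m) = star (om N m) := by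
    intro m
    have h1 : ((σ m : Fin N) : ℕ) = (N - (m : ℕ)) % N := by
      rw [hσ, Equiv.neg_apply, Fin.val_neg']
    have h2 : om N (N - (m : ℕ)) * om N m = 1 := by
      rw [← om_add, Nat.sub_add_cancel m.2.le]
      have := om_mul_self hN 1
      rwa [mul_one] at this
    rw [h1, om_mod hN]
    calc om N (N - (m : ℕ)) = om N (N - (m : ℕ)) * (om N m * star (om N m)) := by rw [om_star', mul_one]
      _ = star (om N m) := by rw [← mul_assoc, h2, one_mul]
  have h2 : ∀ m : Fin N, (star (om N (σ m)) * star t).re = (star (om N m) * t).re := by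
    intro m
    rw [h, ← star_mul', Complex.star_def, Complex.conj_re]
  unfold nrt
  rw [star_sum, ← Equiv.sum_comp σ]
  refine Finset.sum_congr rfl fun m _ => ?_
  have h3 : (∀ m' : Fin N, m' ≠ σ m →
      (star (om N m') * star t).re < (star (om N (σ m)) * star t).re) ↔
      ∀ m' : Fin N, m' ≠ m → (star (om N m') * t).re < (star (om N m) * t).re := by
    constructor
    · intro h4 m' hne
      have h5 := h4 (σ m') (fun h6 => hne (σ.injective h6))
      rwa [h2, h2] at h5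
    · intro h4 m' hne
      obtain ⟨m'', rfl⟩ := σ.surjective m'
      have h5 := h4 m'' (fun h6 => hne (by rw [h6]))
      rwa [h2, h2]
  simp only [h3]
  rw [h]
  split_ifs
  · rfl
  · simp

/-! ### links -/

/-- the trace sum -/
def tr (G : Ph N L → Tor L → SU N) (X : Cf N L) (x : Pl) (m : Fin 4) : ℂ :=
  ∑ y : Tor L, ((G (pt X x) y * X ((x, y), m) * (G (pt X (x + pe m)) y)⁻¹ : SU N) : Mt N).trace

lemma zlk_eq (G : Ph N L → Tor L → SU N) (X : Cf N L) (x : Pl) (m : Fin 4) :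
    zlk G X x m = nrt N (tr G X x m) := rfl

lemma cen_mul_coe (n : ℕ) (g : SU N) : ((cen N n * g : SU N) : Mt N) = om N n • (g : Mt N) := by
  show (om N n • (1 : Mt N)) * (g : Mt N) = _
  rw [smul_mul_assoc, one_mul]

lemma trace_cen (n : ℕ) (a g b : SU N) :
    ((a * (cen N n * g) * b : SU N) : Mt N).trace = om N n * ((a * g * b : SU N) : Mt N).trace := by
  have h : ((a * (cen N n * g) * b : SU N) : Mt N) = om N n • ((a * g * b : SU N) : Mt N) := by
    show (a : Mt N) * ((cen N n * g : SU N) : Mt N) * (b : Mt N) = om N n • ((a : Mt N) * (g : Mt N) * (b : Mt N))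
    rw [cen_mul_coe, mul_smul_comm, smul_mul_assoc]
  rw [h, trace_smul, smul_eq_mul]

lemma trace_inv (g : SU N) : ((g⁻¹ : SU N) : Mt N).trace = star ((g : Mt N).trace) := by
  have h : ((g⁻¹ : SU N) : Mt N) = (g : Mt N)ᴴ := rfl
  rw [h, trace_conjTranspose]

lemma pt_mvh (x' : Pl) (n : ℕ) (X : Cf N L) (x : Pl) : pt (mvh x' n X) x = pt X x := by
  funext y j
  have h : ¬ ((if j = 0 then 2 else 3 : Fin 4) = 0) := by
    split_ifs <;> decide
  exact if_neg fun h' => h h'.1

lemma zlk_mvh (hN : N ≠ 0) (G : Ph N L → Tor L → SU N) (x' : Pl) (n : ℕ) (X : Cf N L) (x : Pl) (m : Fin 4) :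
    zlk G (mvh x' n X) x m = (if m = 0 ∧ x = x' then om N n else 1) * zlk G X x m := by
  rw [zlk_eq, zlk_eq]
  unfold tr
  simp only [pt_mvh]
  unfold mvh
  split_ifs with h
  · have h1 : ∀ y : Tor L, (if (((x, y), m) : Lk L).2 = 0 ∧ (((x, y), m) : Lk L).1.1 = x' then
        cen N n * X ((x, y), m) else X ((x, y), m)) = cen N n * X ((x, y), m) := fun y => if_pos h
    simp only [trace_cen]
    rw [← Finset.mul_sum, nrt_mul_om hN]
  · have h1 : ∀ y : Tor L, (if (((x, y), m) : Lk L).2 = 0 ∧ (((x, y), m) : Lk L).1.1 = x' then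
        cen N n * X ((x, y), m) else X ((x, y), m)) = X ((x, y), m) := fun y => if_neg h
    simp only [one_mul]

lemma pt_rf (X : Cf N L) (x : Pl) : pt (rf X) x = pt X (-x.1, x.2) := by
  funext y j
  have h : ¬ ((if j = 0 then 2 else 3 : Fin 4) = 0) := by
    split_ifs <;> decide
  exact if_neg h

lemma zlk_rf0 (hN : N ≠ 0) (G : Ph N L → Tor L → SU N) (X : Cf N L) (x : Pl) :
    zlk G (rf X) x 0 = star (zlk G X (-x.1 - 1, x.2) 0) := by
  rw [zlk_eq, zlk_eq, ← nrt_star hN]
  congr 1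
  unfold tr
  rw [star_sum]
  refine Finset.sum_congr rfl fun y _ => ?_
  rw [pt_rf, pt_rf, ← trace_inv]
  have h1 : rf X ((x, y), 0) = (X (((-x.1 - 1, x.2), y), 0))⁻¹ := if_pos rfl
  have h2 : (-(x + pe 0).1, (x + pe 0).2) = (-x.1 - 1, x.2) := by
    ext <;> simp [pe]
    ring
  have h3 : ((-x.1 - 1, x.2) + pe 0 : Pl) = (-x.1, x.2) := by
    ext <;> simp [pe]
  rw [h1, h2, h3]
  congr 2
  group

lemma zlk_rf1 (G : Ph N L → Tor L → SU N) (X : Cf N L) (x : Pl) :
    zlk G (rf X) x 1 = zlk G X (-x.1, x.2) 1 := by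
  rw [zlk_eq, zlk_eq]
  congr 1
  unfold tr
  refine Finset.sum_congr rfl fun y _ => ?_
  rw [pt_rf, pt_rf]
  have h1 : rf X ((x, y), 1) = X (((-x.1, x.2), y), 1) :=
    if_neg (show ¬ ((1 : Fin 4) = 0) by decide)
  have h2 : (-(x + pe 1).1, (x + pe 1).2) = ((-x.1, x.2) + pe 1 : Pl) := by
    ext <;> simp [pe]
  rw [h1, h2]

lemma zlk_shf (G : Ph N L → Tor L → SU N) (v : Pl) (X : Cf N L) (x : Pl) (m : Fin 4) :
    zlk G (shf v X) x m = zlk G X (x + v) m := by
  have h : ∀ x, pt (shf v X) x = pt X (x + v) := fun x => rfl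
  rw [zlk_eq, zlk_eq]
  unfold tr
  rw [h, h, add_right_comm]
  rfl

lemma pt_swp (X : Cf N L) (x : Pl) : pt (swp X) x = pt X x.swap := by
  funext y j
  unfold pt swp
  by_cases hj : j = 0
  · simp [hj]
  · simp [hj]

lemma zlk_swp0 (G : Ph N L → Tor L → SU N) (X : Cf N L) (x : Pl) :
    zlk G (swp X) x 0 = zlk G X x.swap 1 := by
  rw [zlk_eq, zlk_eq]
  unfold tr
  rw [pt_swp, pt_swp]
  have h : (x + pe 0).swap = x.swap + pe 1 := by
    ext <;> simp [pe]
  rw [h]
  rfl

lemma zlk_swp1 (G : Ph N L → Tor L → SU N) (X : Cf N L) (x : Pl) :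
    zlk G (swp X) x 1 = zlk G X x.swap 0 := by
  rw [zlk_eq, zlk_eq]
  unfold tr
  rw [pt_swp, pt_swp]
  have h : (x + pe 1).swap = x.swap + pe 0 := by
    ext <;> simp [pe]
  rw [h]
  rfl

lemma zlk_loc (G : Ph N L → Tor L → SU N) (X Y : Cf N L) (S : Finset Pl)
    (h : ∀ l : Lk L, (∀ c ∈ st l, c ∈ S) → X l = Y l) (x : Pl) (m : Fin 4) (hx : x ∈ S) (hm : x + pe m ∈ S) :
    zlk G X x m = zlk G Y x m := by
  have hp : ∀ z ∈ S, pt X z = pt Y z := by
    intro z hz
    funext y j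
    unfold pt
    refine h _ fun c hc => ?_
    rw [mem_st] at hc
    have hpe : pe (if j = 0 then 2 else 3) = 0 := by
      split_ifs <;> simp [pe, h00]
    rw [hpe, add_zero, or_self] at hc
    rw [hc]
    exact hz
  rw [zlk_eq, zlk_eq]
  unfold tr
  rw [hp x hx, hp _ hm]
  congr 1
  refine Finset.sum_congr rfl fun y _ => ?_
  rw [h ((x, y), m)]
  intro c hc
  rw [mem_st] at hc
  rcases hc with hc | hc
  · rw [hc]; exact hx
  · rw [hc]; exact hm

lemma zlk_meas (G : Ph N L → Tor L → SU N) (hG : Measurable G) (x : Pl) (m : Fin 4) :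
    Measurable fun X : Cf N L => zlk G X x m := by
  have hpt : ∀ z : Pl, Measurable fun X : Cf N L => pt X z := by
    intro z
    refine measurable_pi_lambda _ fun y => measurable_pi_lambda _ fun j => ?_
    exact measurable_pi_apply _
  have hGy : ∀ (z : Pl) (y : Tor L), Measurable fun X : Cf N L => G (pt X z) y := by
    intro z y
    exact (measurable_pi_apply y).comp (hG.comp (hpt z))
  refine nrt_meas.comp (Finset.measurable_sum _ fun y _ => ?_)
  have h1 : Measurable fun X : Cf N L => (G (pt X x) y * X ((x, y), m) * (G (pt X (x + pe m)) y)⁻¹ : SU N) :=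
    ((hGy x y).mul (measurable_pi_apply _)).mul (hGy _ y).inv
  have h2 : Continuous fun g : SU N => (g : Mt N).trace := Continuous.matrix_trace continuous_subtype_val
  exact h2.measurable.comp h1

/-! ### loops -/

lemma prod_top (x x' : Pl) (a : ℕ) (c : ℤ) (u : ℂ) :
    (∏ i ∈ Finset.range a, if x + ((i : ℤ), c) = x' + (0, 1) then u else 1) =
      if x.1 ≤ x'.1 ∧ x'.1 < x.1 + a ∧ x'.2 + 1 = x.2 + c then u else 1 := by
  have hiff : ∀ i : ℕ, x + ((i : ℤ), c) = x' + (0, 1) ↔ x.1 + i = x'.1 ∧ x.2 + c = x'.2 + 1 := by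
    intro i
    rw [Prod.ext_iff]
    simp
  simp only [hiff]
  split_ifs with h
  · obtain ⟨h1, h2, h3⟩ := h
    obtain ⟨k, hk⟩ := Int.eq_ofNat_of_zero_le (sub_nonneg.2 h1)
    have hka : k < a := by omega
    rw [Finset.prod_eq_single k]
    · rw [if_pos]
      exact ⟨by omega, h3.symm⟩
    · intro i _ hi
      rw [if_neg]
      rintro ⟨h4, -⟩
      exact hi (by omega)
    · intro hk'
      exact absurd (Finset.mem_range.2 hka) hk'
  · refine Finset.prod_eq_one fun i hi => ?_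
    rw [if_neg]
    rintro ⟨h4, h5⟩
    rw [Finset.mem_range] at hi
    exact h ⟨by omega, by omega, h5.symm⟩

lemma mem_rct (x z : Pl) (a b : ℕ) :
    z ∈ rct x a b ↔ (x.1 ≤ z.1 ∧ z.1 ≤ x.1 + a) ∧ x.2 ≤ z.2 ∧ z.2 ≤ x.2 + b := by
  simp only [rct, Finset.mem_product, Finset.mem_Icc]

lemma pe0 : pe 0 = (1, 0) := rfl

lemma pe1 : pe 1 = (0, 1) := rfl

lemma plo_loc (G : Ph N L → Tor L → SU N) (x : Pl) (a b : ℕ) (X Y : Cf N L)
    (h : ∀ l : Lk L, (∀ c ∈ st l, c ∈ rct x a b) → X l = Y l) : plo G X x a b = plo G Y x a b := by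
  have hz := zlk_loc G X Y (rct x a b) h
  have e1 : ∀ j ∈ Finset.range b, zlk G X (x + (0, (j : ℤ))) 1 = zlk G Y (x + (0, (j : ℤ))) 1 := by
    intro j hj
    rw [Finset.mem_range] at hj
    apply hz
    · simp only [mem_rct, Prod.fst_add, Prod.snd_add]; omega
    · simp only [mem_rct, pe1, Prod.fst_add, Prod.snd_add]; omega
  have e2 : ∀ i ∈ Finset.range a, zlk G X (x + ((i : ℤ), (b : ℤ))) 0 = zlk G Y (x + ((i : ℤ), (b : ℤ))) 0 := by
    intro j hj
    rw [Finset.mem_range] at hj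
    apply hz
    · simp only [mem_rct, Prod.fst_add, Prod.snd_add]; omega
    · simp only [mem_rct, pe0, Prod.fst_add, Prod.snd_add]; omega
  have e3 : ∀ j ∈ Finset.range b, zlk G X (x + ((a : ℤ), (j : ℤ))) 1 = zlk G Y (x + ((a : ℤ), (j : ℤ))) 1 := by
    intro j hj
    rw [Finset.mem_range] at hj
    apply hz
    · simp only [mem_rct, Prod.fst_add, Prod.snd_add]; omega
    · simp only [mem_rct, pe1, Prod.fst_add, Prod.snd_add]; omega
  have e4 : ∀ i ∈ Finset.range a, zlk G X (x + ((i : ℤ), 0)) 0 = zlk G Y (x + ((i : ℤ), 0)) 0 := by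
    intro j hj
    rw [Finset.mem_range] at hj
    apply hz
    · simp only [mem_rct, Prod.fst_add, Prod.snd_add]; omega
    · simp only [mem_rct, pe0, Prod.fst_add, Prod.snd_add]; omega
  unfold plo
  rw [Finset.prod_congr rfl e1, Finset.prod_congr rfl e2, Finset.prod_congr rfl e3, Finset.prod_congr rfl e4]

lemma hlo_loc (G : Ph N L → Tor L → SU N) (a b : ℕ) (X Y : Cf N L)
    (h : ∀ l : Lk L, (∀ c ∈ st l, c ∈ rct 0 a b) → X l = Y l) : hlo G X a b = hlo G Y a b := by
  have hz := zlk_loc G X Y (rct 0 a b) h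
  have e2 : ∀ i ∈ Finset.range a, zlk G X ((i : ℤ), (b : ℤ)) 0 = zlk G Y ((i : ℤ), (b : ℤ)) 0 := by
    intro j hj
    rw [Finset.mem_range] at hj
    apply hz
    · simp only [mem_rct, Prod.fst_zero, Prod.snd_zero]; omega
    · simp only [mem_rct, pe0, Prod.fst_add, Prod.snd_add, Prod.fst_zero, Prod.snd_zero]; omega
  have e3 : ∀ j ∈ Finset.range b, zlk G X ((a : ℤ), (j : ℤ)) 1 = zlk G Y ((a : ℤ), (j : ℤ)) 1 := by
    intro j hj
    rw [Finset.mem_range] at hj
    apply hz
    · simp only [mem_rct, Prod.fst_zero, Prod.snd_zero]; omega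
    · simp only [mem_rct, pe1, Prod.fst_add, Prod.snd_add, Prod.fst_zero, Prod.snd_zero]; omega
  have e4 : ∀ i ∈ Finset.range a, zlk G X ((i : ℤ), 0) 0 = zlk G Y ((i : ℤ), 0) 0 := by
    intro j hj
    rw [Finset.mem_range] at hj
    apply hz
    · simp only [mem_rct, Prod.fst_zero, Prod.snd_zero]; omega
    · simp only [mem_rct, pe0, Prod.fst_add, Prod.snd_add, Prod.fst_zero, Prod.snd_zero]; omega
  unfold hlo
  rw [Finset.prod_congr rfl e2, Finset.prod_congr rfl e3, Finset.prod_congr rfl e4]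

lemma alg1 (A B C D u v : ℂ) : A * (u * B) * star C * star (v * D) = u * star v * (A * B * star C * star D) := by
  rw [star_mul']
  ring

lemma expo (u : ℂ) (hu : u * star u = 1) (x x' : Pl) (a b : ℕ) :
    (if x.1 ≤ x'.1 ∧ x'.1 < x.1 + a ∧ x'.2 + 1 = x.2 + b then u else 1) *
        star (if x.1 ≤ x'.1 ∧ x'.1 < x.1 + a ∧ x'.2 + 1 = x.2 + 0 then u else 1) =
      u ^ (if x.1 ≤ x'.1 ∧ x'.1 < x.1 + a ∧ x.2 ≤ x'.2 ∧ x'.2 < x.2 + b then 1 else 0) *
        (star u) ^ (if x.1 ≤ x'.1 ∧ x'.1 < x.1 + a ∧ x.2 ≤ x'.2 + 1 ∧ x'.2 + 1 < x.2 + b then 1 else 0) := by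
  by_cases hA : x.1 ≤ x'.1 ∧ x'.1 < x.1 + a
  · simp only [hA.1, hA.2, true_and]
    by_cases h1 : x'.2 + 1 = x.2 + b
    · by_cases h2 : x'.2 + 1 = x.2 + 0
      · rw [if_pos h1, if_pos h2, if_neg (by omega), if_neg (by omega), pow_zero, pow_zero, hu, one_mul]
      · rw [if_pos h1, if_neg h2]
        by_cases h3 : x.2 ≤ x'.2 ∧ x'.2 < x.2 + b
        · rw [if_pos h3, if_neg (by omega), pow_one, pow_zero, star_one]
        · exfalso; omega
    · by_cases h2 : x'.2 + 1 = x.2 + 0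
      · rw [if_neg h1, if_pos h2, if_neg (by omega), if_pos (by omega), pow_zero, pow_one]
      · rw [if_neg h1, if_neg h2, star_one]
        by_cases h3 : x.2 ≤ x'.2 ∧ x'.2 < x.2 + b
        · rw [if_pos h3, if_pos (by omega), pow_one, pow_one, hu, one_mul]
        · rw [if_neg h3, if_neg (by omega), pow_zero, pow_zero]
  · rw [if_neg (by tauto), if_neg (by tauto), if_neg (by tauto), if_neg (by tauto), star_one, pow_zero, pow_zero]

lemma plo_mvh (hN : N ≠ 0) (G : Ph N L → Tor L → SU N) (x : Pl) (a b : ℕ) (x' : Pl) (n : ℕ) (X : Cf N L) :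
    plo G (mvh (x' + (0, 1)) n X) x a b =
      om N n ^ (if x.1 ≤ x'.1 ∧ x'.1 < x.1 + a ∧ x.2 ≤ x'.2 ∧ x'.2 < x.2 + b then 1 else 0) *
      (star (om N n)) ^ (if x.1 ≤ x'.1 ∧ x'.1 < x.1 + a ∧ x.2 ≤ x'.2 + 1 ∧ x'.2 + 1 < x.2 + b then 1 else 0) *
      plo G X x a b := by
  have e1 : ∀ z : Pl, zlk G (mvh (x' + (0, 1)) n X) z 1 = zlk G X z 1 := by
    intro z
    rw [zlk_mvh hN, if_neg (fun h => absurd h.1 (by decide)), one_mul]
  have e0 : ∀ z : Pl, zlk G (mvh (x' + (0, 1)) n X) z 0 = (if z = x' + (0, 1) then om N n else 1) * zlk G X z 0 := by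
    intro z
    rw [zlk_mvh hN]
    congr 1
    by_cases h : z = x' + (0, 1)
    · rw [if_pos h, if_pos ⟨rfl, h⟩]
    · rw [if_neg h, if_neg fun h' => h h'.2]
  rw [← expo (om N n) (om_star' N n) x x' a b, ← prod_top, ← prod_top]
  unfold plo
  simp only [e1, e0]
  rw [Finset.prod_mul_distrib, Finset.prod_mul_distrib]
  exact alg1 _ _ _ _ _ _

lemma alg2 (A B C D E F : ℂ) : A * (B * C) * star D * star (E * F) =
    star (star B * star A * star (star E)) * (C * star D * star F) := by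
  simp only [star_mul', star_star]
  ring

lemma plo_refl (hN : N ≠ 0) (G : Ph N L → Tor L → SU N) (a a' b : ℕ) (X : Cf N L) :
    plo G X (-(a : ℤ), 0) (a + a') b = star (hlo G (rf X) a b) * hlo G X a' b := by
  have h0 : ∀ c : ℤ, ∏ i ∈ Finset.range a, zlk G (rf X) ((i : ℤ), c) 0 =
      star (∏ i ∈ Finset.range a, zlk G X (-(i : ℤ) - 1, c) 0) := by
    intro c
    rw [star_prod]
    exact Finset.prod_congr rfl fun i _ => zlk_rf0 hN G X _
  have h1 : ∏ j ∈ Finset.range b, zlk G (rf X) ((a : ℤ), (j : ℤ)) 1 =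
      ∏ j ∈ Finset.range b, zlk G X (-(a : ℤ), (j : ℤ)) 1 :=
    Finset.prod_congr rfl fun j _ => zlk_rf1 G X _
  have hs : ∀ c : ℤ, ∏ i ∈ Finset.range (a + a'), zlk G X ((-(a : ℤ), 0) + ((i : ℤ), c)) 0 =
      (∏ i ∈ Finset.range a, zlk G X (-(i : ℤ) - 1, c) 0) *
        ∏ i ∈ Finset.range a', zlk G X ((i : ℤ), c) 0 := by
    intro c
    rw [Finset.prod_range_add, ← Finset.prod_range_reflect]
    refine congrArg₂ (· * ·) ?_ ?_
    · refine Finset.prod_congr rfl fun i hi => ?_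
      rw [Finset.mem_range] at hi
      have e : ((-(a : ℤ), 0) + (((a - 1 - i : ℕ) : ℤ), c) : Pl) = (-(i : ℤ) - 1, c) := by
        ext
        · simp only [Prod.fst_add]
          omega
        · simp
      rw [e]
    · refine Finset.prod_congr rfl fun i _ => ?_
      have e : ((-(a : ℤ), 0) + (((a + i : ℕ) : ℤ), c) : Pl) = ((i : ℤ), c) := by
        ext
        · simp only [Prod.fst_add]
          omega
        · simp
      rw [e]
  have e1 : ∏ j ∈ Finset.range b, zlk G X ((-(a : ℤ), 0) + (0, (j : ℤ))) 1 =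
      ∏ j ∈ Finset.range b, zlk G X (-(a : ℤ), (j : ℤ)) 1 := by
    refine Finset.prod_congr rfl fun j _ => ?_
    have e : ((-(a : ℤ), 0) + (0, (j : ℤ)) : Pl) = (-(a : ℤ), (j : ℤ)) := by
      ext <;> simp
    rw [e]
  have e2 : ∏ j ∈ Finset.range b, zlk G X ((-(a : ℤ), 0) + (((a + a' : ℕ) : ℤ), (j : ℤ))) 1 =
      ∏ j ∈ Finset.range b, zlk G X ((a' : ℤ), (j : ℤ)) 1 := by
    refine Finset.prod_congr rfl fun j _ => ?_
    have e : ((-(a : ℤ), 0) + (((a + a' : ℕ) : ℤ), (j : ℤ)) : Pl) = ((a' : ℤ), (j : ℤ)) := by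
      ext
      · simp only [Prod.fst_add]
        omega
      · simp
    rw [e]
  unfold plo hlo
  rw [hs, hs, e1, e2, h0, h0, h1]
  exact alg2 _ _ _ _ _ _

lemma plo_shf (G : Ph N L → Tor L → SU N) (v x : Pl) (a b : ℕ) (X : Cf N L) :
    plo G (shf v X) x a b = plo G X (x + v) a b := by
  have e : ∀ (w : Pl) (m : Fin 4), zlk G (shf v X) (x + w) m = zlk G X (x + v + w) m := by
    intro w m
    rw [zlk_shf, add_right_comm]
  unfold plo
  simp only [e]

lemma alg3 (A B C D : ℂ) : A * B * star C * star D = star (D * C * star B * star A) := by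
  rw [star_mul', star_mul', star_mul', star_star, star_star]
  ring

lemma plo_swp (G : Ph N L → Tor L → SU N) (x : Pl) (a b : ℕ) (X : Cf N L) :
    plo G (swp X) x a b = star (plo G X x.swap b a) := by
  have e0 : ∀ u v : ℤ, zlk G (swp X) (x + (u, v)) 0 = zlk G X (x.swap + (v, u)) 1 := fun u v => zlk_swp0 G X _
  have e1 : ∀ u v : ℤ, zlk G (swp X) (x + (u, v)) 1 = zlk G X (x.swap + (v, u)) 0 := fun u v => zlk_swp1 G X _
  unfold plo
  simp only [e0, e1]
  exact alg3 _ _ _ _

end PkgZL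

open PkgZL in
theorem pZL : S_ZL := by
  intro N L _ hN2 G hG
  have hN : N ≠ 0 := by omega
  exact ⟨fun X x m => nrt_norm _, fun x m => zlk_meas G hG x m, plo_loc G, hlo_loc G, plo_mvh hN G,
    plo_refl hN G, plo_shf G, plo_swp G⟩

end T2H02.TT
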