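import Pool.Agent.T2H02.TT.Stm2

/-! Package OA: centre sums with charges. -/

set_option autoImplicit false
set_option linter.unusedSectionVars false

noncomputable section

open MeasureTheory Matrix
open scoped Matrix.Norms.Frobenius

namespace T2H02.TT

namespace PkgOA

variable {N L : ℕ} [NeZero L]

lemma om_norm (N m : ℕ) : ‖om N m‖ = 1 := by
  rw [om, show 2 * (Real.pi : ℂ) * Complex.I * m / N = ((2 * Real.pi * m / N : ℝ) : ℂ) * Complex.I by
    push_cast; ring, Complex.norm_exp_ofReal_mul_I]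

lemma om_star_mul (N m : ℕ) : star (om N m) * om N m = 1 := by
  rw [Complex.star_def, ← Complex.normSq_eq_conj_mul_self, Complex.normSq_eq_norm_sq, om_norm]
  norm_num

lemma om_add (N a b : ℕ) : om N (a + b) = om N a * om N b := by
  rw [om, om, om, ← Complex.exp_add]
  congr 1
  push_cast
  ring

lemma om_zero (N : ℕ) : om N 0 = 1 := by simp [om]

lemma om_self (N : ℕ) (hN : 0 < N) : om N N = 1 := by
  have h : (N : ℂ) ≠ 0 := by exact_mod_cast hN.ne'
  rw [om, mul_div_assoc, div_self h, mul_one, Complex.exp_two_pi_mul_I]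

lemma om_mul_self (N : ℕ) (hN : 0 < N) (q : ℕ) : om N (N * q) = 1 := by
  induction q with
  | zero => simp [om_zero]
  | succ q ih => rw [mul_add, om_add, ih, mul_one, om_self N hN, one_mul]

lemma om_mod (N : ℕ) (hN : 0 < N) (a : ℕ) : om N (a % N) = om N a := by
  conv_rhs => rw [← Nat.mod_add_div a N, om_add, om_mul_self N hN, mul_one]

/-- sums over the centre can be shifted -/
lemma sum_shift (N : ℕ) (hN : 0 < N) (n : ℕ) {M : Type} [AddCommMonoid M] (F : ℂ → M) :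
    ∑ m : Fin N, F (om N m * om N n) = ∑ m : Fin N, F (om N m) := by
  have : NeZero N := ⟨hN.ne'⟩
  refine Fintype.sum_equiv (Equiv.addRight (Fin.ofNat N n)) _ _ fun m => ?_
  congr 1
  rw [Equiv.coe_addRight, Fin.val_add, om_mod N hN, om_add, Fin.val_ofNat, om_mod N hN]

lemma sum_shift_star (N : ℕ) (hN : 0 < N) (n : ℕ) {M : Type} [AddCommMonoid M] (F : ℂ → M) :
    ∑ m : Fin N, F (om N m * star (om N n)) = ∑ m : Fin N, F (om N m) := by
  rw [← sum_shift N hN n (fun z => F (z * star (om N n)))]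
  refine Finset.sum_congr rfl fun m _ => ?_
  congr 1
  rw [mul_assoc, mul_comm (om N n), om_star_mul, mul_one]

lemma cen_coe (N n : ℕ) (g : SU N) : ((cen N n * g : SU N) : Mt N) = om N n • (g : Mt N) := by
  change (om N n • (1 : Mt N)) * (g : Mt N) = _
  rw [smul_mul_assoc, one_mul]

lemma mvh_ne (x : Pl) (n : ℕ) (X : Cf N L) (p : Pt L) (i : Fin 4) (h : ¬ (i = 0 ∧ p.1 = x)) :
    mvh x n X (p, i) = X (p, i) := by
  unfold mvh
  rw [if_neg h]

lemma mvh_eq (x : Pl) (n : ℕ) (X : Cf N L) (y : Tor L) :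
    ((mvh x n X ((x, y), 0) : SU N) : Mt N) = om N n • (X ((x, y), 0) : Mt N) := by
  unfold mvh
  rw [if_pos ⟨rfl, rfl⟩, cen_coe]

lemma norm_unit_smul (z : ℂ) (hz : ‖z‖ = 1) (A : Mt N) : ‖z • A‖ = ‖A‖ := by
  rw [norm_smul, hz, one_mul]

/-- torus terms do not see the move -/
lemma eV_mvh (k : ℕ) (x x' : Pl) (n : ℕ) (X : Cf N L) : eV k (mvh x n X) x' = eV k X x' := by
  unfold eV df
  refine Finset.sum_congr rfl fun y _ => ?_
  rw [mvh_ne, mvh_ne, mvh_ne, mvh_ne] <;> simp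

lemma eK1_mvh (x x' : Pl) (n : ℕ) (X : Cf N L) : eK (mvh x n X) x' 1 = eK X x' 1 := by
  unfold eK df
  refine Finset.sum_congr rfl fun y _ => ?_
  rw [nx1, nx2, nx3, mvh_ne _ _ _ (x', y) 1 (by simp), mvh_ne _ _ _ _ 2 (by simp),
    mvh_ne _ _ _ _ 2 (by simp), mvh_ne _ _ _ _ 3 (by simp), mvh_ne _ _ _ _ 3 (by simp),
    mvh_ne _ _ _ (x', tsh y 0) 1 (by simp), mvh_ne _ _ _ (x', tsh y 1) 1 (by simp)]

lemma eK0_mvh (x x' : Pl) (n : ℕ) (X : Cf N L) : eK (mvh x n X) x' 0 = eK X x' 0 := by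
  by_cases hx : x' = x
  · subst hx
    unfold eK
    refine Finset.sum_congr rfl fun y _ => ?_
    have h2 : df (mvh x' n X) 1 (x', y) 0 2 = om N n • df X 1 (x', y) 0 2 := by
      unfold df
      rw [nx0, nx2, mvh_eq, mvh_eq, mvh_ne _ _ _ _ 2 (by simp), mvh_ne _ _ _ _ 2 (by simp)]
      rw [smul_mul_assoc, mul_smul_comm, one_smul, one_smul, smul_sub]
    have h3 : df (mvh x' n X) 1 (x', y) 0 3 = om N n • df X 1 (x', y) 0 3 := by
      unfold df
      rw [nx0, nx3, mvh_eq, mvh_eq, mvh_ne _ _ _ _ 3 (by simp), mvh_ne _ _ _ _ 3 (by simp)]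
      rw [smul_mul_assoc, mul_smul_comm, one_smul, one_smul, smul_sub]
    rw [h2, h3, norm_unit_smul _ (om_norm N n), norm_unit_smul _ (om_norm N n)]
  · unfold eK df
    refine Finset.sum_congr rfl fun y _ => ?_
    rw [nx2, nx3, mvh_ne _ _ _ _ 0 (by simp [hx]), mvh_ne _ _ _ _ 2 (by simp),
      mvh_ne _ _ _ _ 2 (by simp), mvh_ne _ _ _ _ 3 (by simp), mvh_ne _ _ _ _ 3 (by simp),
      mvh_ne _ _ _ _ 0 (by simp [hx]), mvh_ne _ _ _ _ 0 (by simp [hx])]

lemma en1_mvh (k : ℕ) (x : Pl) (n : ℕ) (X : Cf N L) (τ : Tm) (hτ : τ.2 ≠ 3) :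
    en1 k (mvh x n X) τ = en1 k X τ := by
  unfold en1
  split_ifs with h0 h1 h2
  · exact eV_mvh _ _ _ _ _
  · exact eK0_mvh _ _ _ _
  · exact eK1_mvh _ _ _ _
  · exfalso
    obtain ⟨x', i⟩ := τ
    fin_cases i <;> simp_all

/-- plane terms: neither edge is moved -/
lemma eP_mvh_ne (x x' : Pl) (n : ℕ) (X : Cf N L) (z : ℂ) (h1 : x' ≠ x) (h2 : x' + (0, 1) ≠ x) :
    eP (mvh x n X) z x' = eP X z x' := by
  unfold eP df
  refine Finset.sum_congr rfl fun y _ => ?_
  rw [nx0, nx1, mvh_ne _ _ _ _ 0 (by simp [h1]), mvh_ne _ _ _ _ 0 (by simp [h2]),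
    mvh_ne _ _ _ _ 1 (by simp), mvh_ne _ _ _ _ 1 (by simp)]

lemma ne_up (x : Pl) : x ≠ x + (0, 1) := by
  intro h
  have := congrArg Prod.snd h
  simp at this

/-- plane terms: the top edge is moved -/
lemma eP_mvh_top (x : Pl) (n : ℕ) (X : Cf N L) (z : ℂ) :
    eP (mvh (x + (0, 1)) n X) z x = eP X (z * om N n) x := by
  unfold eP df
  refine Finset.sum_congr rfl fun y _ => ?_
  rw [nx0, nx1, mvh_ne _ _ _ (x, y) 0 (by simp only [true_and]; exact ne_up x), mvh_eq,
    mvh_ne _ _ _ _ 1 (by simp), mvh_ne _ _ _ _ 1 (by simp), mul_smul_comm, smul_smul]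

/-- plane terms: the bottom edge is moved -/
lemma eP_mvh_bot (x : Pl) (n : ℕ) (X : Cf N L) (z : ℂ) :
    eP (mvh x n X) z x = eP X (z * star (om N n)) x := by
  unfold eP
  refine Finset.sum_congr rfl fun y _ => ?_
  have h : df (mvh x n X) z (x, y) 0 1 = om N n • df X (z * star (om N n)) (x, y) 0 1 := by
    unfold df
    rw [nx0, nx1, mvh_eq, mvh_ne _ _ _ _ 1 (by simp), mvh_ne _ _ _ _ 1 (by simp),
      mvh_ne _ _ _ (x + (0, 1), y) 0 (by simp only [true_and]; exact (ne_up x).symm),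
      smul_sub, smul_smul, smul_mul_assoc]
    rw [show om N n * (z * star (om N n)) = z by
      rw [mul_comm (om N n), mul_assoc, om_star_mul, mul_one]]
  rw [h, norm_unit_smul _ (om_norm N n)]

lemma wch_mvh_ne (β : ℝ) (s : ℕ) (x x' : Pl) (n : ℕ) (X : Cf N L) (h1 : x' ≠ x)
    (h2 : x' + (0, 1) ≠ x) : wch N β s x' (mvh x n X) = wch N β s x' X := by
  unfold wch
  rw [Finset.sum_congr rfl fun m _ => by rw [eP_mvh_ne _ _ _ _ _ h1 h2]]

lemma wch_mvh_bot (hN : 0 < N) (β : ℝ) (s : ℕ) (x : Pl) (n : ℕ) (X : Cf N L) :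
    wch N β s x (mvh x n X) = om N n ^ s * wch N β s x X := by
  unfold wch
  rw [← sum_shift_star N hN n (fun z : ℂ => z ^ s * (Real.exp (-β * eP X z x) : ℂ)), ← mul_div_assoc,
    Finset.mul_sum]
  refine congrArg (fun t : ℂ => t / (N : ℂ)) ?_
  refine Finset.sum_congr rfl fun m _ => ?_
  rw [eP_mvh_bot, ← mul_assoc, ← mul_pow, mul_comm (om N n), mul_assoc (om N m), om_star_mul, mul_one]

lemma mvh_meas (x : Pl) (n : ℕ) : Measurable (mvh x n : Cf N L → Cf N L) := by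
  rw [measurable_pi_iff]
  intro l
  unfold mvh
  by_cases h : l.2 = 0 ∧ l.1.1 = x
  · simp only [if_pos h]
    exact (measurable_const_mul (cen N n)).comp (measurable_pi_apply l)
  · simp only [if_neg h]
    exact measurable_pi_apply l

lemma mvh_map (x : Pl) (n : ℕ) : (pm N L).map (mvh x n) = pm N L := by
  have hf : ∀ l : Lk L, Measurable
      (fun g : SU N => if l.2 = 0 ∧ l.1.1 = x then cen N n * g else g) := by
    intro l
    by_cases h : l.2 = 0 ∧ l.1.1 = x
    · simp only [if_pos h]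
      exact measurable_const_mul (cen N n)
    · simp only [if_neg h]
      exact measurable_id
  have h := Measure.infinitePi_map_pi (μ := fun _ : Lk L => hm N) hf
  have h2 : (fun X : Cf N L => fun l => if l.2 = 0 ∧ l.1.1 = x then cen N n * X l else X l) =
      mvh x n := rfl
  rw [h2] at h
  rw [h]
  congr 1
  funext l
  by_cases h : l.2 = 0 ∧ l.1.1 = x
  · simp only [if_pos h]
    exact map_mul_left_eq_self (hm N) (cen N n)
  · simp only [if_neg h]
    exact Measure.map_id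

lemma integral_mvh (x : Pl) (n : ℕ) (F : Cf N L → ℂ) (hF : Measurable F) :
    ∫ X, F (mvh x n X) ∂(pm N L) = ∫ X, F X ∂(pm N L) := by
  conv_rhs => rw [← mvh_map (N := N) (L := L) x n]
  rw [integral_map (mvh_meas x n).aemeasurable hF.aestronglyMeasurable]

lemma exp_eP_meas (β : ℝ) (z : ℂ) (x : Pl) :
    Measurable fun X : Cf N L => (Real.exp (-β * eP X z x) : ℂ) :=
  (Complex.continuous_ofReal.comp ((continuous_const.mul (eP_cont z x)).rexp)).measurable

lemma exp_norm_le {β e : ℝ} (hβ : 0 ≤ β) (he : 0 ≤ e) : ‖(Real.exp (-β * e) : ℂ)‖ ≤ 1 := by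
  rw [Complex.norm_real, Real.norm_eq_abs, abs_of_pos (Real.exp_pos _)]
  exact Real.exp_le_one_iff.2 (by nlinarith)

lemma wch_meas (β : ℝ) (s : ℕ) (x : Pl) : Measurable fun X : Cf N L => wch N β s x X := by
  unfold wch
  exact (Finset.measurable_sum _ fun m _ => (exp_eP_meas β _ x).const_mul _).div_const _

lemma wch_norm_le (hN : 0 < N) {β : ℝ} (hβ : 0 ≤ β) (s : ℕ) (x : Pl) (X : Cf N L) :
    ‖wch N β s x X‖ ≤ 1 := by
  unfold wch
  have hN' : (0 : ℝ) < N := by exact_mod_cast hN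
  rw [norm_div, Complex.norm_natCast, div_le_one hN']
  refine (norm_sum_le _ _).trans ?_
  calc ∑ m : Fin N, ‖om N m ^ s * (Real.exp (-β * eP X (om N m) x) : ℂ)‖ ≤ ∑ m : Fin N, (1 : ℝ) := by
        refine Finset.sum_le_sum fun m _ => ?_
        rw [norm_mul, norm_pow, om_norm, one_pow, one_mul]
        exact exp_norm_le hβ (eP_nonneg _ _ _)
    _ = N := by simp

lemma prod_norm_le {α : Type} (S : Finset α) (f : α → ℂ) (h : ∀ a ∈ S, ‖f a‖ ≤ 1) :
    ‖∏ a ∈ S, f a‖ ≤ 1 := by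
  rw [norm_prod]
  exact Finset.prod_le_one (fun _ _ => norm_nonneg _) h

/-- the integrand with unprocessed terms `Un` and processed terms `Pr` -/
def Ig (β : ℝ) (s : Pl → ℕ) (H : Cf N L → ℂ) (Un Pr : Finset Pl) (X : Cf N L) : ℂ :=
  H X * (∏ x ∈ Un, (Real.exp (-β * eP X 1 x) : ℂ)) * ∏ x ∈ Pr, wch N β (s x) x X

lemma Ig_meas (β : ℝ) (s : Pl → ℕ) (H : Cf N L → ℂ) (hH : Measurable H) (Un Pr : Finset Pl) :
    Measurable (Ig β s H Un Pr) := by
  unfold Ig
  exact (hH.mul (Finset.measurable_prod _ fun x _ => exp_eP_meas β 1 x)).mul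
    (Finset.measurable_prod _ fun x _ => wch_meas β (s x) x)

lemma Ig_bdd (hN : 0 < N) {β : ℝ} (hβ : 0 ≤ β) (s : Pl → ℕ) (H : Cf N L → ℂ) (K : ℝ)
    (hK : ∀ X, ‖H X‖ ≤ K) (Un Pr : Finset Pl) (X : Cf N L) : ‖Ig β s H Un Pr X‖ ≤ K := by
  unfold Ig
  rw [norm_mul, norm_mul]
  have h1 := prod_norm_le Un (fun x => (Real.exp (-β * eP X 1 x) : ℂ))
    fun x _ => exp_norm_le hβ (eP_nonneg _ _ _)
  have h2 := prod_norm_le Pr (fun x => wch N β (s x) x X) fun x _ => wch_norm_le hN hβ _ _ _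
  have h0 := hK X
  have hK0 : 0 ≤ K := (norm_nonneg _).trans h0
  calc ‖H X‖ * ‖∏ x ∈ Un, (Real.exp (-β * eP X 1 x) : ℂ)‖ * ‖∏ x ∈ Pr, wch N β (s x) x X‖
      ≤ K * 1 * 1 := by gcongr
    _ = K := by ring

/-- the effect of moving the top edge of `x` -/
lemma Ig_mvh (hN : 0 < N) (β : ℝ) (s : Pl → ℕ) (H : Cf N L → ℂ)
    (hs : ∀ (x : Pl) (n : ℕ) (X : Cf N L), H (mvh (x + (0, 1)) n X) =
      om N n ^ s x * (star (om N n)) ^ s (x + (0, 1)) * H X) (Un Pr : Finset Pl)
    (hd : Disjoint Un Pr) (h0 : ∀ x, x ∉ Un → x ∉ Pr → s x = 0) (x : Pl) (hx : x ∈ Un)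
    (hx' : x + (0, 1) ∉ Un) (n : ℕ) (X : Cf N L) :
    Ig β s H Un Pr (mvh (x + (0, 1)) n X) =
      om N n ^ s x * (Real.exp (-β * eP X (om N n) x) : ℂ) * Ig β s H (Un.erase x) Pr X := by
  unfold Ig
  rw [hs, ← Finset.mul_prod_erase Un _ hx, eP_mvh_top, one_mul]
  have hxPr : x ∉ Pr := fun h => (Finset.disjoint_left.1 hd) hx h
  have e1 : ∏ x' ∈ Un.erase x, (Real.exp (-β * eP (mvh (x + (0, 1)) n X) 1 x') : ℂ) =
      ∏ x' ∈ Un.erase x, (Real.exp (-β * eP X 1 x') : ℂ) := by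
    refine Finset.prod_congr rfl fun x' hx1 => ?_
    rw [Finset.mem_erase] at hx1
    rw [eP_mvh_ne]
    · rintro rfl
      exact hx' hx1.2
    · intro h
      exact hx1.1 (add_right_cancel h)
  have e2 : ∏ x' ∈ Pr, wch N β (s x') x' (mvh (x + (0, 1)) n X) =
      om N n ^ s (x + (0, 1)) * ∏ x' ∈ Pr, wch N β (s x') x' X := by
    by_cases hp : x + (0, 1) ∈ Pr
    · rw [← Finset.mul_prod_erase Pr _ hp, ← Finset.mul_prod_erase Pr _ hp, wch_mvh_bot hN,
        ← mul_assoc]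
      refine congrArg (fun t : ℂ => om N n ^ s (x + (0, 1)) * wch N β (s (x + (0, 1))) (x + (0, 1)) X * t) ?_
      refine Finset.prod_congr rfl fun x' hx1 => ?_
      rw [Finset.mem_erase] at hx1
      rw [wch_mvh_ne _ _ _ _ _ _ hx1.1]
      intro h
      exact hxPr ((add_right_cancel h) ▸ hx1.2)
    · rw [h0 _ hx' hp, pow_zero, one_mul]
      refine Finset.prod_congr rfl fun x' hx1 => ?_
      rw [wch_mvh_ne]
      · rintro rfl
        exact hp hx1
      · intro h
        exact hxPr ((add_right_cancel h) ▸ hx1)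
  rw [e1, e2]
  have e3 : star (om N n) ^ s (x + (0, 1)) * om N n ^ s (x + (0, 1)) = 1 := by
    rw [← mul_pow, om_star_mul, one_pow]
  linear_combination (om N n ^ s x * H X * (Real.exp (-β * eP X (om N n) x) : ℂ) *
    (∏ x' ∈ Un.erase x, (Real.exp (-β * eP X 1 x') : ℂ)) * ∏ x' ∈ Pr, wch N β (s x') x' X) * e3

lemma step (hN : 0 < N) {β : ℝ} (hβ : 0 ≤ β) (s : Pl → ℕ) (H : Cf N L → ℂ) (hH : Measurable H)
    (K : ℝ) (hK : ∀ X, ‖H X‖ ≤ K)
    (hs : ∀ (x : Pl) (n : ℕ) (X : Cf N L), H (mvh (x + (0, 1)) n X) =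
      om N n ^ s x * (star (om N n)) ^ s (x + (0, 1)) * H X) (Un Pr : Finset Pl)
    (hd : Disjoint Un Pr) (h0 : ∀ x, x ∉ Un → x ∉ Pr → s x = 0) (x : Pl) (hx : x ∈ Un)
    (hx' : x + (0, 1) ∉ Un) :
    ∫ X, Ig β s H Un Pr X ∂(pm N L) = ∫ X, Ig β s H (Un.erase x) (insert x Pr) X ∂(pm N L) := by
  have hNC : (N : ℂ) ≠ 0 := by exact_mod_cast hN.ne'
  have hxPr : x ∉ Pr := fun h => (Finset.disjoint_left.1 hd) hx h
  have h1 : ∀ n : Fin N, ∫ X, Ig β s H Un Pr X ∂(pm N L) =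
      ∫ X, om N n ^ s x * (Real.exp (-β * eP X (om N n) x) : ℂ) *
        Ig β s H (Un.erase x) Pr X ∂(pm N L) := by
    intro n
    rw [← integral_mvh (x + (0, 1)) n _ (Ig_meas β s H hH Un Pr)]
    exact integral_congr_ae (Filter.Eventually.of_forall fun X =>
      Ig_mvh hN β s H hs Un Pr hd h0 x hx hx' n X)
  have h2 : (N : ℂ) * ∫ X, Ig β s H Un Pr X ∂(pm N L) =
      ∫ X, ∑ n : Fin N, om N n ^ s x * (Real.exp (-β * eP X (om N n) x) : ℂ) *
        Ig β s H (Un.erase x) Pr X ∂(pm N L) := by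
    rw [integral_finsetSum]
    · rw [← Finset.sum_congr rfl fun n _ => h1 n]
      simp
    · intro n _
      refine Integrable.of_bound (C := K) ?_ (Filter.Eventually.of_forall fun X => ?_)
      · exact (((exp_eP_meas β _ x).const_mul _).mul
          (Ig_meas β s H hH _ _)).aestronglyMeasurable
      · rw [norm_mul, norm_mul, norm_pow, om_norm, one_pow, one_mul]
        have a1 := exp_norm_le hβ (eP_nonneg X (om N n) x)
        have a2 := Ig_bdd hN hβ s H K hK (Un.erase x) Pr X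
        have hK0 : 0 ≤ K := (norm_nonneg _).trans (hK X)
        calc _ ≤ 1 * K := by gcongr
          _ = K := one_mul K
  have h3 : ∀ X : Cf N L, ∑ n : Fin N, om N n ^ s x * (Real.exp (-β * eP X (om N n) x) : ℂ) *
        Ig β s H (Un.erase x) Pr X = N * Ig β s H (Un.erase x) (insert x Pr) X := by
    intro X
    rw [← Finset.sum_mul]
    unfold Ig
    rw [Finset.prod_insert hxPr]
    have : (N : ℂ) * wch N β (s x) x X =
        ∑ n : Fin N, om N n ^ s x * (Real.exp (-β * eP X (om N n) x) : ℂ) := by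
      unfold wch
      field_simp
    rw [← this]
    ring
  rw [integral_congr_ae (Filter.Eventually.of_forall h3), integral_const_mul] at h2
  exact mul_left_cancel₀ hNC h2

lemma all (hN : 0 < N) {β : ℝ} (hβ : 0 ≤ β) (s : Pl → ℕ) (H : Cf N L → ℂ) (hH : Measurable H)
    (K : ℝ) (hK : ∀ X, ‖H X‖ ≤ K)
    (hs : ∀ (x : Pl) (n : ℕ) (X : Cf N L), H (mvh (x + (0, 1)) n X) =
      om N n ^ s x * (star (om N n)) ^ s (x + (0, 1)) * H X) :
    ∀ (m : ℕ) (Un Pr : Finset Pl), Un.card = m → Disjoint Un Pr →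
      (∀ x, x ∉ Un → x ∉ Pr → s x = 0) →
      ∫ X, Ig β s H Un Pr X ∂(pm N L) = ∫ X, Ig β s H ∅ (Un ∪ Pr) X ∂(pm N L) := by
  intro m
  induction m with
  | zero =>
    intro Un Pr hc _ _
    rw [Finset.card_eq_zero] at hc
    subst hc
    rw [Finset.empty_union]
  | succ m ih =>
    intro Un Pr hc hd h0
    have hne : Un.Nonempty := Finset.card_pos.1 (by omega)
    obtain ⟨x, hx, hmax⟩ := Finset.exists_max_image Un (fun x => x.2) hne
    have hx' : x + (0, 1) ∉ Un := by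
      intro h
      have := hmax _ h
      simp at this
    rw [step hN hβ s H hH K hK hs Un Pr hd h0 x hx hx']
    have hxPr : x ∉ Pr := fun h => (Finset.disjoint_left.1 hd) hx h
    rw [ih (Un.erase x) (insert x Pr) (by rw [Finset.card_erase_of_mem hx]; omega)]
    · have hset : Un.erase x ∪ insert x Pr = Un ∪ Pr := by
        ext a
        simp only [Finset.mem_union, Finset.mem_erase, Finset.mem_insert]
        by_cases ha : a = x
        · subst ha; simp [hx]
        · simp [ha]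
      rw [hset]
    · rw [Finset.disjoint_left]
      intro a ha
      rw [Finset.mem_erase] at ha
      rw [Finset.mem_insert]
      rintro (h | h)
      · exact ha.1 h
      · exact (Finset.disjoint_left.1 hd) ha.2 h
    · intro a h1 h2
      rw [Finset.mem_insert, not_or] at h2
      refine h0 a (fun h => h1 (Finset.mem_erase.2 ⟨h2.1, h⟩)) h2.2

lemma eP_le (z : ℂ) (hz : ‖z‖ = 1) (x : Pl) (X : Cf N L) : eP X z x ≤ 2 * N * L ^ 2 := by
  unfold eP
  have h : ∀ y : Tor L, ‖df X z (x, y) 0 1‖ ^ 2 / 2 ≤ 2 * N := by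
    intro y
    have h1 : ‖df X z (x, y) 0 1‖ ≤ 2 * Real.sqrt N := by
      unfold df
      refine (norm_sub_le _ _).trans ?_
      rw [norm_unit_smul z hz]
      have e1 : ∀ a b : SU N, ‖(a : Mt N) * (b : Mt N)‖ = Real.sqrt N := fun a b => norm_su N (a * b)
      rw [e1, e1]
      linarith
    have h2 : ‖df X z (x, y) 0 1‖ ^ 2 ≤ (2 * Real.sqrt N) ^ 2 :=
      pow_le_pow_left₀ (norm_nonneg _) h1 2
    rw [mul_pow, Real.sq_sqrt (Nat.cast_nonneg N)] at h2
    linarith
  refine (Finset.sum_le_sum fun y _ => h y).trans ?_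
  rw [Finset.sum_const, nsmul_eq_mul]
  have : (Finset.univ : Finset (Tor L)).card = L ^ 2 := by
    rw [Finset.card_univ, Fintype.card_prod, ZMod.card]
    ring
  rw [this]
  push_cast
  linarith

lemma om_one_ne (hN : 2 ≤ N) : om N 1 ≠ 1 := by
  intro h
  rw [om, Complex.exp_eq_one_iff] at h
  obtain ⟨n, hn⟩ := h
  have hN' : (N : ℂ) ≠ 0 := by
    have : N ≠ 0 := by omega
    exact_mod_cast this
  have hpi : (2 * (Real.pi : ℂ) * Complex.I) ≠ 0 := Complex.two_pi_I_ne_zero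
  have h2 : (1 : ℂ) = N * n := by
    have h3 : (2 * (Real.pi : ℂ) * Complex.I) * 1 = (2 * (Real.pi : ℂ) * Complex.I) * (N * n) := by
      field_simp at hn
      linear_combination (2 * (Real.pi : ℂ) * Complex.I) * hn
    exact mul_left_cancel₀ hpi h3
  have h4 : (1 : ℤ) = N * n := by exact_mod_cast h2
  have h5 : (N : ℤ) ∣ 1 := ⟨n, h4⟩
  have h6 : N ∣ 1 := by exact_mod_cast h5
  have := Nat.le_of_dvd one_pos h6
  omega

lemma sum_om (hN : 2 ≤ N) : ∑ m : Fin N, om N m = 0 := by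
  have h := sum_shift N (by omega) 1 (fun z : ℂ => z)
  rw [← Finset.sum_mul] at h
  have h1 : (∑ m : Fin N, om N m) * (om N 1 - 1) = 0 := by
    rw [mul_sub, mul_one, h, sub_self]
  rcases mul_eq_zero.1 h1 with h2 | h2
  · exact h2
  · exact absurd (sub_eq_zero.1 h2) (om_one_ne hN)

lemma wch_one_le (hN : 2 ≤ N) (k : ℕ) {β : ℝ} (hβ : 0 ≤ β) (x : Pl) (X : Cf N L) :
    ‖wch N β 1 x X‖ ≤ (1 - Real.exp (-2 * N * L ^ 2 * β)) * wt k β (x, 3) X := by
  have hN' : (0 : ℝ) < N := by exact_mod_cast (by omega : 0 < N)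
  have hw : wt k β (x, 3) X = (∑ m : Fin N, Real.exp (-β * eP X (om N m) x)) / N := by
    unfold wt
    rw [if_pos rfl]
  set c : ℝ := Real.exp (-2 * N * L ^ 2 * β) with hc
  set a : Fin N → ℝ := fun m => Real.exp (-β * eP X (om N m) x) with ha
  have ha1 : ∀ m, a m ≤ 1 := fun m => Real.exp_le_one_iff.2 (by
    have := eP_nonneg X (om N m) x
    nlinarith)
  have hac : ∀ m, c ≤ a m := by
    intro m
    rw [hc, ha]
    apply Real.exp_le_exp.2
    have := eP_le (om N m) (om_norm N m) x X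
    nlinarith
  have hc0 : 0 ≤ c := (Real.exp_pos _).le
  rw [hw]
  unfold wch
  rw [norm_div, Complex.norm_natCast, ← mul_div_assoc]
  refine div_le_div_of_nonneg_right ?_ hN'.le
  have e1 : ∑ m : Fin N, om N m ^ 1 * (Real.exp (-β * eP X (om N m) x) : ℂ) =
      ∑ m : Fin N, om N m * ((a m - c : ℝ) : ℂ) := by
    have : ∑ m : Fin N, om N m * ((a m - c : ℝ) : ℂ) =
        ∑ m : Fin N, om N m * ((a m : ℝ) : ℂ) - (∑ m : Fin N, om N m) * c := by
      rw [Finset.sum_mul, ← Finset.sum_sub_distrib]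
      refine Finset.sum_congr rfl fun m _ => ?_
      push_cast
      ring
    rw [this, sum_om hN, zero_mul, sub_zero]
    refine Finset.sum_congr rfl fun m _ => ?_
    rw [pow_one]
  rw [e1]
  refine (norm_sum_le _ _).trans ?_
  calc ∑ m : Fin N, ‖om N m * ((a m - c : ℝ) : ℂ)‖ = ∑ m : Fin N, (a m - c) := by
        refine Finset.sum_congr rfl fun m _ => ?_
        rw [norm_mul, om_norm, one_mul, Complex.norm_real, Real.norm_eq_abs, abs_of_nonneg]
        linarith [hac m]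
    _ ≤ ∑ m : Fin N, (1 - c) * a m := by
        refine Finset.sum_le_sum fun m _ => ?_
        nlinarith [ha1 m, hc0]
    _ = (1 - c) * ∑ m : Fin N, Real.exp (-β * eP X (om N m) x) := by
        rw [Finset.mul_sum]

lemma en1_cont (k : ℕ) (τ : Tm) : Continuous fun X : Cf N L => en1 k X τ := by
  unfold en1
  split_ifs
  · exact eV_cont _ _
  · exact eK_cont _ _
  · exact eK_cont _ _
  · exact eP_cont _ _

lemma en1_nonneg (k : ℕ) (X : Cf N L) (τ : Tm) : 0 ≤ en1 k X τ := by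
  unfold en1
  split_ifs
  · exact eV_nonneg _ _ _
  · exact eK_nonneg _ _ _
  · exact eK_nonneg _ _ _
  · exact eP_nonneg _ _ _

end PkgOA

open PkgOA

theorem pOA : S_OA := by
  intro N k L _ hN β hβ T s G hG hGb hs0 hs
  refine ⟨?_, fun x X => wch_one_le hN k hβ x X⟩
  obtain ⟨K, hK⟩ := hGb
  have hN0 : 0 < N := by omega
  -- the factor without plane terms
  set H : Cf N L → ℂ := fun X => G X *
    ∏ τ ∈ T.filter (fun τ => τ.2 ≠ 3), (Real.exp (-β * en1 k X τ) : ℂ) with hH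
  have hHm : Measurable H := by
    refine hG.mul (Finset.measurable_prod _ fun τ _ => ?_)
    exact (Complex.continuous_ofReal.comp ((continuous_const.mul (en1_cont k τ)).rexp)).measurable
  have hHb : ∀ X, ‖H X‖ ≤ K := by
    intro X
    rw [hH]
    simp only
    rw [norm_mul]
    have h1 := prod_norm_le (T.filter (fun τ => τ.2 ≠ 3))
      (fun τ => (Real.exp (-β * en1 k X τ) : ℂ)) fun τ _ => exp_norm_le hβ (en1_nonneg k X τ)
    have h0 := hK X
    have hK0 : 0 ≤ K := (norm_nonneg _).trans h0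
    calc _ ≤ K * 1 := by gcongr
      _ = K := mul_one K
  have hHs : ∀ (x : Pl) (n : ℕ) (X : Cf N L), H (mvh (x + (0, 1)) n X) =
      om N n ^ s x * (star (om N n)) ^ s (x + (0, 1)) * H X := by
    intro x n X
    rw [hH]
    simp only
    rw [hs, Finset.prod_congr rfl fun τ hτ => by
      rw [en1_mvh k (x + (0, 1)) n X τ (Finset.mem_filter.1 hτ).2]]
    ring
  set Un : Finset Pl := (T.filter (fun τ => τ.2 = 3)).image Prod.fst with hUn
  have hinj : Set.InjOn Prod.fst (T.filter (fun τ : Tm => τ.2 = 3) : Set Tm) := by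
    intro a ha b hb hab
    have h1 := (Finset.mem_filter.1 (Finset.mem_coe.1 ha)).2
    have h2 := (Finset.mem_filter.1 (Finset.mem_coe.1 hb)).2
    exact Prod.ext hab (h1.trans h2.symm)
  have hUnm : ∀ x, x ∉ Un → s x = 0 := by
    intro x hx
    apply hs0
    intro h
    exact hx (Finset.mem_image.2 ⟨(x, 3), Finset.mem_filter.2 ⟨h, rfl⟩, rfl⟩)
  have key := all hN0 hβ s H hHm K hHb hHs Un.card Un ∅ rfl (Finset.disjoint_empty_right _)
    (fun x h _ => hUnm x h)
  have e1 : ∀ X : Cf N L, Ig β s H Un ∅ X = G X * ∏ τ ∈ T, (Real.exp (-β * en1 k X τ) : ℂ) := by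
    intro X
    unfold Ig
    rw [Finset.prod_empty, mul_one, hUn, Finset.prod_image hinj, hH]
    simp only
    have e3 : ∏ τ ∈ T.filter (fun τ : Tm => τ.2 = 3), (Real.exp (-β * eP X 1 τ.1) : ℂ) =
        ∏ τ ∈ T.filter (fun τ : Tm => τ.2 = 3), (Real.exp (-β * en1 k X τ) : ℂ) := by
      refine Finset.prod_congr rfl fun τ hτ => ?_
      have h3 := (Finset.mem_filter.1 hτ).2
      have : en1 k X τ = eP X 1 τ.1 := by
        unfold en1
        rw [h3]
        rfl
      rw [this]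
    rw [e3, ← Finset.prod_filter_mul_prod_filter_not T (fun τ : Tm => τ.2 = 3)]
    ring
  have e2 : ∀ X : Cf N L, Ig β s H ∅ (Un ∪ ∅) X =
      G X * (∏ τ ∈ T.filter (fun τ => τ.2 ≠ 3), (Real.exp (-β * en1 k X τ) : ℂ)) *
        ∏ τ ∈ T.filter (fun τ => τ.2 = 3), wch N β (s τ.1) τ.1 X := by
    intro X
    unfold Ig
    rw [Finset.prod_empty, mul_one, Finset.union_empty, hUn, Finset.prod_image hinj]
  rw [integral_congr_ae (Filter.Eventually.of_forall e1),
    integral_congr_ae (Filter.Eventually.of_forall e2)] at key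
  exact key

end T2H02.TT
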