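import Pool.Agent.T2H02.TT.Stm3

/-!
# Assembly: infinite volume limit and exponential clustering
-/

set_option autoImplicit false
set_option linter.unusedSectionVars false

noncomputable section

open MeasureTheory Matrix Filter Topology
open scoped Matrix.Norms.Frobenius

namespace T2H02.TT

variable {N L : ℕ} [NeZero L]

lemma en1_cont (k : ℕ) (τ : Tm) : Continuous fun X : Cf N L => en1 k X τ := by
  unfold en1
  split_ifs
  · exact eV_cont _ _
  · exact eK_cont _ _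
  · exact eK_cont _ _
  · exact eP_cont _ _

lemma en1_loc (k : ℕ) (τ : Tm) (X Y : Cf N L) (h : ∀ l ∈ (spt τ : Finset (Lk L)), X l = Y l) :
    en1 k X τ = en1 k Y τ := by
  obtain ⟨x, i⟩ := τ
  fin_cases i
  · exact eV_loc k x X Y h
  · exact eK0_loc x X Y h
  · exact eK1_loc x X Y h
  · exact eP_loc _ x X Y h

lemma en1_nonneg (k : ℕ) (X : Cf N L) (τ : Tm) : 0 ≤ en1 k X τ := by
  unfold en1
  split_ifs
  · exact eV_nonneg _ _ _
  · exact eK_nonneg _ _ _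
  · exact eK_nonneg _ _ _
  · exact eP_nonneg _ _ _

/-- the centre averaged observable -/
def hat (k : ℕ) (β : ℝ) (A : Finset Pl) (f : Cf N L → ℝ) (X : Cf N L) : ℝ :=
  f X * ∏ τ ∈ (tin A).filter (fun τ => τ.2 = 3), (Real.exp (-β * en1 k X τ) / wt k β τ X)

lemma hat_meas (hN : 2 ≤ N) (k : ℕ) (β : ℝ) (A : Finset Pl) (f : Cf N L → ℝ) (hf : Measurable f) :
    Measurable (hat k β A f) := by
  unfold hat
  refine hf.mul ?_
  refine Continuous.measurable ?_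
  refine continuous_finsetProd _ fun τ _ => ?_
  exact (continuous_const.mul (en1_cont k τ)).rexp.div (wt_cont k β τ)
    fun X => (wt_pos k β τ X (by omega)).ne'

lemma ratio_bd (hN : 2 ≤ N) (k : ℕ) (β : ℝ) (τ : Tm) (h3 : τ.2 = 3) (X : Cf N L) :
    0 ≤ Real.exp (-β * en1 k X τ) / wt k β τ X ∧ Real.exp (-β * en1 k X τ) / wt k β τ X ≤ N := by
  have hw := wt_pos k β τ X (by omega : 0 < N)
  refine ⟨by positivity, ?_⟩
  rw [div_le_iff₀ hw]
  have hN0 : (0 : ℝ) < N := by exact_mod_cast (by omega : 0 < N)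
  have h0 : (1 : ℂ) = om N ((⟨0, by omega⟩ : Fin N) : ℕ) := by simp [om]
  have h1 : en1 k X τ = eP X 1 τ.1 := by simp [en1, h3]
  rw [wt, if_pos h3, mul_div_cancel₀ _ hN0.ne', h1, h0]
  exact Finset.single_le_sum (f := fun m : Fin N => Real.exp (-β * eP X (om N m) τ.1))
    (fun _ _ => (Real.exp_pos _).le) (Finset.mem_univ _)

lemma card_plq (A : Finset Pl) : ((tin A).filter (fun τ => τ.2 = 3)).card ≤ A.card := by
  refine Finset.card_le_card_of_injOn (fun τ => τ.1) ?_ ?_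
  · intro τ hτ
    rw [Finset.mem_coe, Finset.mem_filter, mem_tin] at hτ
    refine hτ.1 _ ?_
    obtain ⟨x, i⟩ := τ
    obtain rfl : i = 3 := hτ.2
    exact (mem_cor3 x x).2 (Or.inl rfl)
  · intro τ hτ τ' hτ' h
    rw [Finset.mem_coe, Finset.mem_filter] at hτ hτ'
    exact Prod.ext h (hτ.2.trans hτ'.2.symm)

lemma prod_bd (hN : 2 ≤ N) (k : ℕ) (β : ℝ) (A : Finset Pl) (X : Cf N L) :
    0 ≤ ∏ τ ∈ (tin A).filter (fun τ => τ.2 = 3), (Real.exp (-β * en1 k X τ) / wt k β τ X) ∧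
    ∏ τ ∈ (tin A).filter (fun τ => τ.2 = 3), (Real.exp (-β * en1 k X τ) / wt k β τ X) ≤
      (N : ℝ) ^ A.card := by
  have hN1 : (1 : ℝ) ≤ N := by exact_mod_cast (by omega : 1 ≤ N)
  constructor
  · exact Finset.prod_nonneg fun τ hτ => (ratio_bd hN k β τ (Finset.mem_filter.1 hτ).2 X).1
  · calc _ ≤ ∏ τ ∈ (tin A).filter (fun τ => τ.2 = 3), (N : ℝ) :=
          Finset.prod_le_prod (fun τ hτ => (ratio_bd hN k β τ (Finset.mem_filter.1 hτ).2 X).1)
            fun τ hτ => (ratio_bd hN k β τ (Finset.mem_filter.1 hτ).2 X).2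
      _ = (N : ℝ) ^ ((tin A).filter (fun τ => τ.2 = 3)).card := by rw [Finset.prod_const]
      _ ≤ (N : ℝ) ^ A.card := pow_le_pow_right₀ hN1 (card_plq A)

lemma hat_bd (hN : 2 ≤ N) (k : ℕ) (β : ℝ) (A : Finset Pl) (f : Cf N L → ℝ) (hf : ∀ X, |f X| ≤ 1)
    (X : Cf N L) : |hat k β A f X| ≤ (N : ℝ) ^ A.card := by
  unfold hat
  rw [abs_mul, abs_of_nonneg (prod_bd hN k β A X).1]
  calc _ ≤ 1 * (N : ℝ) ^ A.card := mul_le_mul (hf X) (prod_bd hN k β A X).2 (prod_bd hN k β A X).1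
        zero_le_one
    _ = _ := one_mul _

lemma hat_dep (k : ℕ) (β : ℝ) (A : Finset Pl) (f : Cf N L → ℝ)
    (hf : Sys.dep {l | ∀ a ∈ st l, a ∈ A} f) : Sys.dep {l : Lk L | ∀ a ∈ st l, a ∈ A} (hat k β A f) := by
  intro X Y h
  have h2 : ∀ τ ∈ (tin A).filter (fun τ => τ.2 = 3), Real.exp (-β * en1 k X τ) / wt k β τ X =
      Real.exp (-β * en1 k Y τ) / wt k β τ Y := by
    intro τ hτ
    have hl : ∀ l ∈ (spt τ : Finset (Lk L)), X l = Y l := by
      intro l hl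
      refine h l fun a ha => ?_
      exact (mem_tin A τ).1 (Finset.mem_filter.1 hτ).1 a ((cor_iff τ a).2 ⟨l, hl, ha⟩)
    rw [en1_loc k τ X Y hl, wt_loc k β τ X Y hl]
  unfold hat
  rw [hf X Y h, Finset.prod_congr rfl h2]

/-- column convex sets -/
def ccv (A : Finset Pl) : Prop :=
  ∀ a ∈ A, ∀ b ∈ A, a.1 = b.1 → ∀ c, a.2 ≤ c → c ≤ b.2 → (a.1, c) ∈ A

lemma exp_wact (k : ℕ) (β : ℝ) (R : Finset Pl) (X : Cf N L) :
    Real.exp (-β * wact k R X) = ∏ τ ∈ tin R, Real.exp (-β * en1 k X τ) := by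
  rw [wact_eq, Finset.mul_sum, Real.exp_sum]

lemma self_cor (τ : Tm) : τ.1 ∈ cor τ := by
  obtain ⟨x, i⟩ := τ
  fin_cases i
  · exact (mem_cor0 x x).2 rfl
  · exact (mem_cor1 x x).2 (Or.inl rfl)
  · exact (mem_cor2 x x).2 (Or.inl rfl)
  · exact (mem_cor3 x x).2 (Or.inl rfl)

lemma tin_empty : tin (∅ : Finset Pl) = ∅ := by
  refine Finset.eq_empty_of_forall_notMem fun τ hτ => ?_
  exact Finset.notMem_empty _ ((mem_tin _ τ).1 hτ τ.1 (self_cor τ))

lemma tin_mono (A R : Finset Pl) (h : A ⊆ R) : tin A ⊆ tin R :=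
  fun τ hτ => (mem_tin R τ).2 fun a ha => h ((mem_tin A τ).1 hτ a ha)

lemma wex_num (hO : S_O) (hN : 2 ≤ N) (k : ℕ) (β : ℝ) (A R : Finset Pl) (hA : ccv A)
    (hAR : A ⊆ R) (f : Cf N L → ℝ) (hf : Measurable f) (hb : ∀ X, |f X| ≤ 1)
    (hd : Sys.dep {l | ∀ a ∈ st l, a ∈ A} f) :
    ∫ X, f X * Real.exp (-β * wact k R X) ∂(Measure.infinitePi fun _ : Lk L => hm N) =
      ∫ X, hat k β A f X * ∏ τ ∈ tin R, wt k β τ X ∂(Measure.infinitePi fun _ : Lk L => hm N) := by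
  have h1 := hO N k L hN β A hA (tin R) (tin_mono A R hAR) f hf ⟨1, hb⟩ hd
  simp only [exp_wact]
  exact h1

lemma wex_den (hO : S_O) (hN : 2 ≤ N) (k : ℕ) (β : ℝ) (R : Finset Pl) :
    ∫ X, Real.exp (-β * wact k R X) ∂(Measure.infinitePi fun _ : Lk L => hm N) =
      ∫ X, ∏ τ ∈ tin R, wt k β τ X ∂(Measure.infinitePi fun _ : Lk L => hm N) := by
  have h := wex_num (L := L) hO hN k β ∅ R (by intro a ha; exact absurd ha (Finset.notMem_empty _))
    (Finset.empty_subset _) (fun _ => (1 : ℝ)) measurable_const (fun _ => by simp)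
    (fun _ _ _ => rfl)
  simp only [one_mul] at h
  rw [h]
  refine integral_congr_ae (Filter.Eventually.of_forall fun X => ?_)
  show hat k β ∅ (fun _ => (1 : ℝ)) X * _ = _
  rw [hat, tin_empty]
  simp

lemma wex_ex (hO : S_O) (hN : 2 ≤ N) (k : ℕ) (β : ℝ) (hβ : 0 ≤ β) (A R : Finset Pl) (hA : ccv A)
    (hAR : A ⊆ R) (f : Cf N L → ℝ) (hf : Measurable f) (hb : ∀ X, |f X| ≤ 1)
    (hd : Sys.dep {l | ∀ a ∈ st l, a ∈ A} f) :
    wex N L k β R f = (sysS N L k β hN hβ).ex (hm N) (tin R) (hat k β A f) := by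
  unfold wex Sys.ex
  rw [wex_num hO hN k β A R hA hAR f hf hb hd, wex_den hO hN k β R]
  rfl

end T2H02.TT
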