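import Pool.Agent.T2H02.TT.Stm2

/-!
# Package JM : invariance of the product measure under gauge and centre transformations and under
the change of variables `TM`
-/

set_option autoImplicit false
set_option linter.unusedSectionVars false

noncomputable section

open MeasureTheory Matrix
open scoped Matrix.Norms.Frobenius

namespace T2H02.TT.PkgJM

section abs

variable {ι X : Type} [DecidableEq ι] [MeasurableSpace X] (μ : Measure X) [IsProbabilityMeasure μ]

/-- apply `f l` to the variables in `T` -/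
def app (T : Finset ι) (f : ι → (ι → X) → X → X) (Y : ι → X) : ι → X :=
  fun l => if l ∈ T then f l Y (Y l) else Y l

omit [MeasurableSpace X] in
theorem glue_update {J : Finset ι} {s : ι} (hs : s ∈ J) (ξ η : ι → X) (x : X) :
    glue J (Function.update ξ s x) η = Function.update (glue J ξ η) s x := by
  funext i
  by_cases h : i = s
  · subst h
    simp [glue, hs]
  · simp [glue, Function.update_of_ne h]

theorem meas_glue_left (J : Finset ι) (η : ι → X) : Measurable (fun ξ : ι → X => glue J ξ η) := by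
  rw [measurable_pi_iff]
  intro i
  unfold glue
  split_ifs
  · exact measurable_pi_apply i
  · exact measurable_const

theorem meas_upd (s : ι) : Measurable (fun p : (ι → X) × X => Function.update p.1 s p.2) := by
  rw [measurable_pi_iff]
  intro i
  by_cases h : i = s
  · subst h
    simp only [Function.update_self]
    exact measurable_snd
  · simp only [Function.update_of_ne h]
    exact (measurable_pi_apply i).comp measurable_fst

/-- the map `Y ↦ update Y s (a Y (Y s))` is measurable -/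
theorem meas_map {a : (ι → X) → X → X} (ha : Measurable fun p : (ι → X) × X => a p.1 p.2) (s : ι) :
    Measurable fun Y : ι → X => Function.update Y s (a Y (Y s)) :=
  (meas_upd s).comp (measurable_id.prodMk (ha.comp (measurable_id.prodMk (measurable_pi_apply s))))

theorem one_step (hF1 : S_F1) {J : Finset ι} {s : ι} (hs : s ∈ J) {a : (ι → X) → X → X}
    (ha : Measurable fun p : (ι → X) × X => a p.1 p.2)
    (hind : ∀ Y x, a (Function.update Y s x) = a Y)
    (hinv : ∀ (Y : ι → X) (φ : X → ℝ), Measurable φ → ∫ x, φ (a Y x) ∂μ = ∫ x, φ x ∂μ)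
    {Φ : (ι → X) → ℝ} (hΦ : Measurable Φ) (hb : ∃ K, ∀ X, |Φ X| ≤ K) (η : ι → X) :
    ∫ ξ, Φ (Function.update (glue J ξ η) s (a (glue J ξ η) (glue J ξ η s)))
      ∂(Measure.infinitePi fun _ : ι => μ) =
      ∫ ξ, Φ (glue J ξ η) ∂(Measure.infinitePi fun _ : ι => μ) := by
  obtain ⟨K, hK⟩ := hb
  rw [hF1 ι X μ s (fun ξ => Φ (Function.update (glue J ξ η) s (a (glue J ξ η) (glue J ξ η s))))
    (hΦ.comp ((meas_map ha s).comp (meas_glue_left J η))) ⟨K, fun _ => hK _⟩,
    hF1 ι X μ s (fun ξ => Φ (glue J ξ η)) (hΦ.comp (meas_glue_left J η)) ⟨K, fun _ => hK _⟩]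
  refine integral_congr_ae (Filter.Eventually.of_forall fun ξ => ?_)
  beta_reduce
  simp only [glue_update hs, Function.update_self, Function.update_idem, hind]
  exact hinv (glue J ξ η) (fun x => Φ (Function.update (glue J ξ η) s x))
    (hΦ.comp (measurable_update _))

theorem multi (hF1 : S_F1) {J : Finset ι} (A : Set ι) {f : ι → (ι → X) → X → X} (T : Finset ι)
    (hT : T ⊆ J) (hTA : ∀ s ∈ T, s ∈ A)
    (ha : ∀ s ∈ T, Measurable fun p : (ι → X) × X => f s p.1 p.2)
    (hind : ∀ s ∈ T, ∀ Y Y' : ι → X, (∀ i, i ∉ A → Y i = Y' i) → f s Y = f s Y')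
    (hinv : ∀ s ∈ T, ∀ (Y : ι → X) (φ : X → ℝ), Measurable φ →
      ∫ x, φ (f s Y x) ∂μ = ∫ x, φ x ∂μ) :
    ∀ {Φ : (ι → X) → ℝ}, Measurable Φ → (∃ K, ∀ X, |Φ X| ≤ K) → ∀ η : ι → X,
    ∫ ξ, Φ (app T f (glue J ξ η)) ∂(Measure.infinitePi fun _ : ι => μ) =
      ∫ ξ, Φ (glue J ξ η) ∂(Measure.infinitePi fun _ : ι => μ) := by
  induction T using Finset.induction_on with
  | empty =>
    intro Φ _ _ η
    have h : ∀ Y : ι → X, app ∅ f Y = Y := fun Y => by
      funext l
      simp [app]
    simp only [h]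
  | insert s T hsT ih =>
    intro Φ hΦ hb η
    have hss : s ∈ insert s T := Finset.mem_insert_self _ _
    have hTT : ∀ i ∈ T, i ∈ insert s T := fun i hi => Finset.mem_insert_of_mem hi
    have key : ∀ Y : ι → X, app (insert s T) f Y =
        Function.update (app T f Y) s (f s (app T f Y) (app T f Y s)) := by
      intro Y
      have h1 : f s (app T f Y) = f s Y := by
        refine hind s hss _ _ fun i hi => ?_
        have : i ∉ T := fun h => hi (hTA i (hTT i h))
        simp [app, this]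
      funext l
      by_cases hl : l = s
      · subst hl
        rw [Function.update_self, h1]
        simp [app, hsT]
      · rw [Function.update_of_ne hl]
        simp [app, hl]
    have h1 := ih (fun i hi => hT (hTT i hi)) (fun i hi => hTA i (hTT i hi))
      (fun i hi => ha i (hTT i hi)) (fun i hi => hind i (hTT i hi)) (fun i hi => hinv i (hTT i hi))
      (Φ := fun Y => Φ (Function.update Y s (f s Y (Y s))))
      (hΦ.comp (meas_map (ha s hss) s)) (by
        obtain ⟨K, hK⟩ := hb
        exact ⟨K, fun _ => hK _⟩) η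
    simp only [key]
    rw [h1]
    exact one_step μ hF1 (hT hss) (ha s hss) (fun Y x => hind s hss _ _ fun i hi => by
      rw [Function.update_of_ne]
      rintro rfl
      exact hi (hTA _ hss)) (hinv s hss) hΦ hb η

end abs

/-! ### the Haar measure -/

instance hm_right (N : ℕ) : (hm N).IsMulRightInvariant where
  map_mul_right_eq_self g := by
    have h1 : (Measure.map (· * g) (hm N)).IsHaarMeasure := inferInstance
    have h2 : IsProbabilityMeasure (Measure.map (· * g) (hm N)) :=
      Measure.isProbabilityMeasure_map (measurable_mul_const g).aemeasurable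
    exact Measure.isHaarMeasure_eq_of_isProbabilityMeasure _ _

theorem hm_inv {N : ℕ} (a b : SU N) (φ : SU N → ℝ) :
    ∫ x, φ (a * x * b) ∂(hm N) = ∫ x, φ x ∂(hm N) := by
  have h1 := integral_mul_left_eq_self (μ := hm N) (fun x => φ (x * b)) a
  have h2 := integral_mul_right_eq_self (μ := hm N) φ b
  exact h1.trans h2

/-! ### gauge and centre transformations -/

variable {N L : ℕ} [NeZero L]

theorem gauge_part (hF1 : S_F1) (J : Finset (Lk L)) (Φ : Cf N L → ℝ) (hΦ : Measurable Φ)
    (hb : ∃ K, ∀ X, |Φ X| ≤ K) (η : Cf N L) (g : Pt L → SU N) (z : Pl → Fin 4 → ℕ) :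
    ∫ ξ, Φ (gau g (cmv z (glue J ξ η))) ∂(pm N L) =
      ∫ ξ, Φ (glue J ξ (gau g (cmv z η))) ∂(pm N L) := by
  have h1 := multi (hm N) hF1 (J := J) Set.univ
    (f := fun l _ x => (g l.1 * (if l.2 = 0 ∨ l.2 = 1 then cen N (z l.1.1 l.2) else 1)) * x *
      (g (nx l.1 l.2))⁻¹) J (Finset.Subset.refl _) (fun _ _ => Set.mem_univ _)
    (fun s _ => (Continuous.measurable (by fun_prop :
      Continuous fun x : SU N => (g s.1 * (if s.2 = 0 ∨ s.2 = 1 then cen N (z s.1.1 s.2) else 1)) *
        x * (g (nx s.1 s.2))⁻¹)).comp measurable_snd)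
    (fun _ _ _ _ _ => rfl) (fun s _ _ φ _ => hm_inv _ _ φ) hΦ hb (gau g (cmv z η))
  rw [← h1]
  refine integral_congr_ae (Filter.Eventually.of_forall fun ξ => ?_)
  beta_reduce
  congr 1
  funext l
  by_cases hl : l ∈ J
  · by_cases hp : l.2 = 0 ∨ l.2 = 1
    · simp [app, gau, cmv, glue, hl, hp, mul_assoc]
    · simp [app, gau, cmv, glue, hl, hp]
  · simp [app, gau, cmv, glue, hl]

/-! ### the change of variables -/

theorem stage (hF1 : S_F1) (J : Finset (Lk L)) (A : Set (Lk L)) (c : Lk L → Cf N L → SU N)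
    (hc : ∀ l, Measurable (c l)) (hc1 : ∀ l ∈ A, l ∉ J → ∀ X, c l X = 1)
    (hind : ∀ l ∈ A, ∀ X Y : Cf N L, (∀ i, i ∉ A → X i = Y i) → c l X = c l Y)
    (Φ : Cf N L → ℝ) (hΦ : Measurable Φ) (hb : ∃ K, ∀ X, |Φ X| ≤ K) (η : Cf N L) :
    ∫ ξ, Φ (stg A c (glue J ξ η)) ∂(pm N L) = ∫ ξ, Φ (glue J ξ η) ∂(pm N L) := by
  classical
  have h1 := multi (hm N) hF1 (J := J) A (f := fun l Y x => c l Y * x) (J.filter (· ∈ A))
    (Finset.filter_subset _ _) (fun s hs => (Finset.mem_filter.1 hs).2)
    (fun s _ => ((hc s).comp measurable_fst).mul measurable_snd)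
    (fun s hs Y Y' h => by
      funext x
      rw [hind s (Finset.mem_filter.1 hs).2 Y Y' h])
    (fun s _ Y φ _ => by
      have := hm_inv (c s Y) 1 φ
      simpa using this) hΦ hb η
  rw [← h1]
  refine integral_congr_ae (Filter.Eventually.of_forall fun ξ => ?_)
  beta_reduce
  congr 1
  funext l
  unfold stg app
  by_cases hl : l ∈ J
  · by_cases hA : l ∈ A
    · simp [hl, hA]
    · simp [hA]
  · by_cases hA : l ∈ A
    · simp [hl, hA, hc1 l hA hl]
    · simp [hA]

theorem meas_stg (A : Set (Lk L)) (c : Lk L → Cf N L → SU N) (hc : ∀ l, Measurable (c l)) :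
    Measurable (stg A c : Cf N L → Cf N L) := by
  rw [measurable_pi_iff]
  intro l
  unfold stg
  split_ifs
  · exact (hc l).mul (measurable_pi_apply l)
  · exact measurable_pi_apply l

theorem Adj_cont {α : Type} [TopologicalSpace α] (a : α → SU N) (b : α → Mt N) (ha : Continuous a)
    (hb : Continuous b) : Continuous fun x => Adj (a x) (b x) := by
  have h1 : Continuous fun x => ((a x : SU N) : Mt N) := continuous_subtype_val.comp ha
  have h2 : Continuous fun x => (((a x)⁻¹ : SU N) : Mt N) :=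
    continuous_subtype_val.comp (continuous_inv.comp ha)
  exact (h1.mul hb).mul h2

theorem pt_cont (x : Pl) : Continuous fun X : Cf N L => pt X x := by
  unfold pt
  refine continuous_pi fun y => continuous_pi fun j => ?_
  exact continuous_apply _

theorem fr_zero (P Q : SU N) (φ : Ph N L) (y : Tor L) : fr P Q φ y 0 = 0 := by
  unfold fr
  simp

theorem cT_cont (hE3 : S_E3) (hN : 2 ≤ N) (P Q : SU N) (E : Mt N → SU N) (hE : Continuous E)
    (h : Lk L → Mt N) (l : Lk L) : Continuous (cT P Q E h l) := by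
  obtain ⟨_, _, _, _, h3⟩ := hE3 N L hN P Q
  have h4 : Continuous fun X : Cf N L => X (l.1, 0) := continuous_apply (l.1, 0)
  have h5 : Continuous fun X : Cf N L => fr P Q (pt X (l.1.1 + (1, 0))) l.1.2 (h l) :=
    (h3 l.1.2 (h l)).comp (pt_cont (l.1.1 + (1, 0)))
  exact hE.comp (Adj_cont _ _ h4 h5)

theorem cU_cont (hE3 : S_E3) (hN : 2 ≤ N) (P Q : SU N) (E : Mt N → SU N) (hE : Continuous E)
    (h : Lk L → Mt N) (l : Lk L) : Continuous (cU P Q E h l) := by
  obtain ⟨_, _, _, _, h3⟩ := hE3 N L hN P Q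
  exact hE.comp ((h3 l.1.2 (h l)).comp (pt_cont l.1.1))

theorem cT_one (P Q : SU N) (E : Mt N → SU N) (hE0 : E 0 = 1)
    (h : Lk L → Mt N) (l : Lk L) (hl : h l = 0) (X : Cf N L) : cT P Q E h l X = 1 := by
  unfold cT
  rw [hl, fr_zero]
  unfold Adj
  rw [mul_zero, zero_mul, hE0]

theorem cU_one (P Q : SU N) (E : Mt N → SU N) (hE0 : E 0 = 1)
    (h : Lk L → Mt N) (l : Lk L) (hl : h l = 0) (X : Cf N L) : cU P Q E h l X = 1 := by
  unfold cU
  rw [hl, fr_zero, hE0]

theorem cT_ind (P Q : SU N) (E : Mt N → SU N) (h : Lk L → Mt N) (l : Lk L) {X Y : Cf N L}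
    (h0 : X (l.1, 0) = Y (l.1, 0)) (h1 : pt X (l.1.1 + (1, 0)) = pt Y (l.1.1 + (1, 0))) :
    cT P Q E h l X = cT P Q E h l Y := by
  unfold cT
  rw [h0, h1]

theorem cU_ind (P Q : SU N) (E : Mt N → SU N) (h : Lk L → Mt N) (l : Lk L) {X Y : Cf N L}
    (h1 : pt X l.1.1 = pt Y l.1.1) :
    cU P Q E h l X = cU P Q E h l Y := by
  unfold cU
  rw [h1]

theorem change_part (hF1 : S_F1) (hE3 : S_E3) (hN : 2 ≤ N) (J : Finset (Lk L)) (Φ : Cf N L → ℝ)
    (hΦ : Measurable Φ) (hb : ∃ K, ∀ X, |Φ X| ≤ K) (η : Cf N L) (P Q : SU N) (E : Mt N → SU N)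
    (h : Lk L → Mt N) (hE : Continuous E) (hE0 : E 0 = 1) (hJ : ∀ l, l ∉ J → h l = 0) :
    ∫ ξ, Φ (TM P Q E h (glue J ξ η)) ∂(pm N L) = ∫ ξ, Φ (glue J ξ η) ∂(pm N L) := by
  have mT : ∀ l, Measurable (cT P Q E h l : Cf N L → SU N) := fun l =>
    (cT_cont hE3 hN P Q E hE h l).measurable
  have mU : ∀ l, Measurable (cU P Q E h l : Cf N L → SU N) := fun l =>
    (cU_cont hE3 hN P Q E hE h l).measurable
  obtain ⟨K, hK⟩ := hb
  have s1 := stage hF1 J (Jev L) (cT P Q E h) mT (fun l _ hl X => cT_one P Q E hE0 h l (hJ l hl) X)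
    (by
      intro l hl X Y hXY
      refine cT_ind P Q E h l (hXY _ ?_) ?_
      · rintro ⟨h1, -⟩
        simp at h1
      · funext y j
        refine hXY _ ?_
        rintro ⟨-, h2⟩
        have h3 := hl.2
        simp only [Prod.fst_add] at h2
        rw [Int.even_add_one] at h2
        exact h2 h3)
    (fun X => Φ (stg (Jpl L) (cU P Q E h) (stg (Jod L) (cT P Q E h) X)))
    (hΦ.comp ((meas_stg _ _ mU).comp (meas_stg _ _ mT))) ⟨K, fun _ => hK _⟩ η
  have s2 := stage hF1 J (Jod L) (cT P Q E h) mT (fun l _ hl X => cT_one P Q E hE0 h l (hJ l hl) X)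
    (by
      intro l hl X Y hXY
      refine cT_ind P Q E h l (hXY _ ?_) ?_
      · rintro ⟨h1, -⟩
        simp at h1
      · funext y j
        refine hXY _ ?_
        rintro ⟨-, h2⟩
        have h3 := hl.2
        simp only [Prod.fst_add] at h2
        rw [Int.even_add_one] at h2
        exact h2 h3)
    (fun X => Φ (stg (Jpl L) (cU P Q E h) X))
    (hΦ.comp (meas_stg _ _ mU)) ⟨K, fun _ => hK _⟩ η
  have s3 := stage hF1 J (Jpl L) (cU P Q E h) mU (fun l _ hl X => cU_one P Q E hE0 h l (hJ l hl) X)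
    (by
      intro l hl X Y hXY
      refine cU_ind P Q E h l ?_
      funext y j
      refine hXY _ ?_
      intro h1
      change (if j = 0 then (2 : Fin 4) else 3) = 0 ∨ (if j = 0 then (2 : Fin 4) else 3) = 1 at h1
      split_ifs at h1 <;> revert h1 <;> decide) Φ hΦ ⟨K, fun _ => hK _⟩ η
  unfold TM
  exact s1.trans (s2.trans s3)

end T2H02.TT.PkgJM

namespace T2H02.TT

open PkgJM

theorem pJM (hF1 : S_F1) (hE3 : S_E3) : S_JM := by
  intro N L _ hN J Φ hΦ hb η
  exact ⟨fun g z => gauge_part hF1 J Φ hΦ hb η g z,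
    fun P Q E h hE hE0 hJ => change_part hF1 hE3 hN J Φ hΦ hb η P Q E h hE hE0 hJ⟩

end T2H02.TT
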