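import Pool.Agent.T2H02.TT.Stm4
import Pool.Agent.T2H02.TT.F
import Pool.Agent.T2H02.TT.JM
import Pool.Agent.T2H02.TT.Fin2

/-!
# Package RP: reflection positivity in finite volume
-/

set_option autoImplicit false
set_option linter.unusedSectionVars false

noncomputable section

open MeasureTheory Matrix
open scoped Matrix.Norms.Frobenius

namespace T2H02.TT

namespace PkgRP

open PkgJM PkgF

variable {N L : ℕ} [NeZero L]

/-! ### the reflection of the links and of the terms -/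

/-- reflection of links -/
def lr (L : ℕ) (l : Lk L) : Lk L :=
  if l.2 = 0 then (((-l.1.1.1 - 1, l.1.1.2), l.1.2), 0) else (((-l.1.1.1, l.1.1.2), l.1.2), l.2)

lemma lr_lr (l : Lk L) : lr L (lr L l) = l := by
  obtain ⟨⟨⟨x1, x2⟩, y⟩, i⟩ := l
  unfold lr
  by_cases h : i = 0
  · subst h
    simp
  · simp [h]

lemma lr_snd (l : Lk L) : (lr L l).2 = l.2 := by
  unfold lr
  split_ifs with h
  · exact h.symm
  · rfl

lemma rf_eq (X : Cf N L) (l : Lk L) :
    rf X l = if l.2 = 0 then (X (lr L l))⁻¹ else X (lr L l) := by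
  unfold rf lr
  split_ifs with h
  · rfl
  · rfl

lemma rf_rf (X : Cf N L) : rf (rf X) = X := by
  funext l
  rw [rf_eq, rf_eq, lr_lr, lr_snd]
  split_ifs with h
  · rw [inv_inv]
  · rfl

lemma mem_st_lr (l : Lk L) (a : Pl) : a ∈ st (lr L l) ↔ (-a.1, a.2) ∈ st l := by
  obtain ⟨⟨⟨x1, x2⟩, y⟩, i⟩ := l
  obtain ⟨a1, a2⟩ := a
  rw [mem_st, mem_st]
  fin_cases i
  · simp only [lr, pe]
    simp
    omega
  · simp only [lr, pe]
    simp
    omega
  · simp only [lr, pe]
    simp
    omega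
  · simp only [lr, pe]
    simp
    omega

lemma rf_meas : Measurable (rf : Cf N L → Cf N L) := by
  rw [measurable_pi_iff]
  intro l
  by_cases h : l.2 = 0
  · have : (fun X : Cf N L => rf X l) = fun X => (X (lr L l))⁻¹ := by
      funext X; rw [rf_eq, if_pos h]
    rw [this]
    exact (measurable_pi_apply _).inv
  · have : (fun X : Cf N L => rf X l) = fun X => X (lr L l) := by
      funext X; rw [rf_eq, if_neg h]
    rw [this]
    exact measurable_pi_apply _

/-! ### invariance of the measure -/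

/-- inversion invariance of the Haar measure of the compact group -/
theorem hm_invm (N : ℕ) : (hm N).inv = hm N := by
  have h0 : (hm N).inv Set.univ = 1 := by
    rw [Measure.inv_apply, Set.inv_univ, measure_univ]
  have h1 : ((hm N).inv).IsHaarMeasure :=
    Measure.isHaarMeasure_of_isCompact_nonempty_interior _ Set.univ isCompact_univ
      (by rw [interior_univ]; exact Set.univ_nonempty) (by rw [h0]; exact one_ne_zero)
      (by rw [h0]; exact ENNReal.one_ne_top)
  have h2 : IsProbabilityMeasure ((hm N).inv) := ⟨h0⟩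
  exact Measure.isHaarMeasure_eq_of_isProbabilityMeasure _ _

lemma map_rf : (pm N L).map (rf : Cf N L → Cf N L) = pm N L := by
  apply Measure.eq_infinitePi
  intro s t ht
  rw [Measure.map_apply rf_meas (MeasurableSet.pi s.countable_toSet (fun i _ => ht i))]
  have h1 : (rf : Cf N L → Cf N L) ⁻¹' (Set.pi s t) = Set.pi (s.image (lr L) : Finset (Lk L))
      (fun l => if l.2 = 0 then (t (lr L l))⁻¹ else t (lr L l)) := by
    ext X
    simp only [Set.mem_preimage, Set.mem_pi, Finset.mem_coe, Finset.mem_image]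
    constructor
    · rintro h l ⟨l', hl', rfl⟩
      have := h l' hl'
      rw [rf_eq] at this
      rw [lr_snd, lr_lr]
      split_ifs with h0
      · rw [if_pos h0] at this
        exact this
      · rw [if_neg h0] at this
        exact this
    · intro h l hl
      have := h (lr L l) ⟨l, hl, rfl⟩
      rw [lr_snd, lr_lr] at this
      rw [rf_eq]
      split_ifs with h0
      · rw [if_pos h0] at this
        exact this
      · rw [if_neg h0] at this
        exact this
  rw [h1, Measure.infinitePi_pi]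
  · rw [Finset.prod_image (fun a _ b _ h => by rw [← lr_lr a, h, lr_lr])]
    refine Finset.prod_congr rfl fun l _ => ?_
    rw [lr_snd, lr_lr]
    split_ifs with h0
    · rw [← Measure.inv_apply, hm_invm]
    · rfl
  · intro l _
    split_ifs with h0
    · exact (ht _).inv
    · exact ht _

/-- the reflection as a measurable equivalence -/
def erf (N L : ℕ) [NeZero L] : Cf N L ≃ᵐ Cf N L where
  toFun := rf
  invFun := rf
  left_inv := rf_rf
  right_inv := rf_rf
  measurable_toFun := rf_meas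
  measurable_invFun := rf_meas

lemma int_rf (Φ : Cf N L → ℝ) : ∫ X, Φ (rf X) ∂(pm N L) = ∫ X, Φ X ∂(pm N L) := by
  have h := integral_map_equiv (μ := pm N L) (erf N L) Φ
  have h2 : (pm N L).map (erf N L) = pm N L := map_rf
  rw [h2] at h
  exact h.symm

/-! ### the action -/

/-- reflection of terms -/
def rt (τ : Tm) : Tm :=
  if τ.2 = 1 ∨ τ.2 = 3 then ((-τ.1.1 - 1, τ.1.2), τ.2) else ((-τ.1.1, τ.1.2), τ.2)

lemma rt_rt (τ : Tm) : rt (rt τ) = τ := by
  obtain ⟨⟨x1, x2⟩, i⟩ := τ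
  unfold rt
  by_cases h : i = 1 ∨ i = 3
  · simp [h]
  · simp [h]

lemma mem_cor_rt (τ : Tm) (a : Pl) : a ∈ cor (rt τ) ↔ (-a.1, a.2) ∈ cor τ := by
  obtain ⟨⟨x1, x2⟩, i⟩ := τ
  obtain ⟨a1, a2⟩ := a
  fin_cases i
  · change (a1, a2) ∈ cor ((-x1, x2), 0) ↔ (-a1, a2) ∈ cor ((x1, x2), 0)
    rw [mem_cor0, mem_cor0]
    simp only [Prod.mk.injEq]
    omega
  · change (a1, a2) ∈ cor ((-x1 - 1, x2), 1) ↔ (-a1, a2) ∈ cor ((x1, x2), 1)
    rw [mem_cor1, mem_cor1]
    simp only [Prod.mk.injEq, Prod.mk_add_mk]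
    omega
  · change (a1, a2) ∈ cor ((-x1, x2), 2) ↔ (-a1, a2) ∈ cor ((x1, x2), 2)
    rw [mem_cor2, mem_cor2]
    simp only [Prod.mk.injEq, Prod.mk_add_mk]
    omega
  · change (a1, a2) ∈ cor ((-x1 - 1, x2), 3) ↔ (-a1, a2) ∈ cor ((x1, x2), 3)
    rw [mem_cor3, mem_cor3]
    simp only [Prod.mk.injEq, Prod.mk_add_mk]
    omega

lemma nrm_mul_left (A : SU N) (M : Mt N) : ‖(A : Mt N) * M‖ = ‖M‖ := by
  have h : ‖(A : Mt N) * M‖ ^ 2 = ‖M‖ ^ 2 := by
    rw [← ip_self, ← ip_self, ip, ip, Matrix.conjTranspose_mul, Matrix.mul_assoc,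
      ← Matrix.mul_assoc _ (A : Mt N), su_mul, Matrix.one_mul]
  exact (pow_left_inj₀ (norm_nonneg _) (norm_nonneg _) two_ne_zero).1 h

lemma nrm_mul_right (A : SU N) (M : Mt N) : ‖M * (A : Mt N)‖ = ‖M‖ := by
  have h : ‖M * (A : Mt N)‖ ^ 2 = ‖M‖ ^ 2 := by
    rw [← ip_self, ← ip_self, ip, ip, Matrix.conjTranspose_mul, Matrix.mul_assoc,
      Matrix.trace_mul_comm, Matrix.mul_assoc, Matrix.mul_assoc, su_mul', Matrix.mul_one]
  exact (pow_left_inj₀ (norm_nonneg _) (norm_nonneg _) two_ne_zero).1 h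

lemma nrm_swap (A B C D : SU N) :
    ‖((A⁻¹ : SU N) : Mt N) * (C : Mt N) - (B : Mt N) * ((D⁻¹ : SU N) : Mt N)‖ =
      ‖(A : Mt N) * (B : Mt N) - (C : Mt N) * (D : Mt N)‖ := by
  rw [← nrm_mul_left A, ← nrm_mul_right D, norm_sub_rev]
  congr 1
  rw [su_inv, su_inv, Matrix.mul_sub, Matrix.sub_mul, ← Matrix.mul_assoc, su_mul', Matrix.one_mul,
    Matrix.mul_assoc (A : Mt N), Matrix.mul_assoc (B : Mt N), su_mul, Matrix.mul_one]

lemma df_rf (X : Cf N L) (x1 x2 : ℤ) (y : Tor L) (j : Fin 4) (hj : j ≠ 0) :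
    ‖df (rf X) 1 ((x1, x2), y) 0 j‖ = ‖df X 1 ((-x1 - 1, x2), y) 0 j‖ := by
  have a1 : rf X (((x1, x2), y), 0) = (X (((-x1 - 1, x2), y), 0))⁻¹ := by
    rw [rf_eq, if_pos rfl]; simp [lr]
  have a2 : rf X (nx ((x1, x2), y) 0, j) = X (((-x1 - 1, x2), y), j) := by
    rw [rf_eq, if_neg hj, nx0]
    simp only [lr, hj, if_false, Prod.mk_add_mk]
    rw [show (-(x1 + 1) : ℤ) = -x1 - 1 by ring, add_zero]
  have a3 : rf X (((x1, x2), y), j) = X (nx ((-x1 - 1, x2), y) 0, j) := by
    rw [rf_eq, if_neg hj, nx0]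
    simp only [lr, hj, if_false, Prod.mk_add_mk]
    rw [show (-x1 - 1 + 1 : ℤ) = -x1 by ring, add_zero]
  have a4 : rf X (nx ((x1, x2), y) j, 0) = (X (nx ((-x1 - 1, x2), y) j, 0))⁻¹ := by
    rw [rf_eq, if_pos rfl]
    congr 2
    fin_cases j
    · exact absurd rfl hj
    · simp [lr, nx, pe]
    · simp [lr, nx, pe]
    · simp [lr, nx, pe]
  unfold df
  rw [a1, a2, a3, a4, one_smul, one_smul]
  exact nrm_swap _ _ _ _

lemma en1_rf (k : ℕ) (X : Cf N L) (τ : Tm) : en1 k (rf X) τ = en1 k X (rt τ) := by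
  obtain ⟨⟨x1, x2⟩, i⟩ := τ
  fin_cases i
  · change eV k (rf X) (x1, x2) = eV k X (-x1, x2)
    unfold eV df
    refine Finset.sum_congr rfl fun y _ => ?_
    simp only [nx2, nx3, rf]
    rfl
  · change eK (rf X) (x1, x2) 0 = eK X (-x1 - 1, x2) 0
    unfold eK
    refine Finset.sum_congr rfl fun y _ => ?_
    rw [df_rf X x1 x2 y 2 (by decide), df_rf X x1 x2 y 3 (by decide)]
  · change eK (rf X) (x1, x2) 1 = eK X (-x1, x2) 1
    unfold eK df
    refine Finset.sum_congr rfl fun y _ => ?_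
    simp only [nx1, nx2, nx3, rf, Prod.mk_add_mk, add_zero]
    rfl
  · change eP (rf X) 1 (x1, x2) = eP X 1 (-x1 - 1, x2)
    unfold eP
    refine Finset.sum_congr rfl fun y _ => ?_
    rw [df_rf X x1 x2 y 1 (by decide)]

/-- share of a term in the half plane `x.1 ≥ 0` -/
def sh (τ : Tm) : ℝ :=
  if τ.2 = 1 ∨ τ.2 = 3 then (if 0 ≤ τ.1.1 then 1 else 0)
  else (if τ.1.1 = 0 then 1 / 2 else if 0 < τ.1.1 then 1 else 0)

lemma sh_nonneg (τ : Tm) : 0 ≤ sh τ := by
  unfold sh
  split_ifs <;> norm_num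

lemma sh_add (τ : Tm) : sh τ + sh (rt τ) = 1 := by
  obtain ⟨⟨x1, x2⟩, i⟩ := τ
  unfold sh rt
  by_cases h : i = 1 ∨ i = 3
  · simp only [h, if_true]
    by_cases h1 : 0 ≤ x1
    · rw [if_pos h1, if_neg (by omega)]; norm_num
    · rw [if_neg h1, if_pos (by omega)]; norm_num
  · simp only [h, if_false]
    rcases lt_trichotomy x1 0 with h1 | h1 | h1
    · rw [if_neg (by omega), if_neg (by omega), if_neg (by omega), if_pos (by omega)]; norm_num
    · rw [if_pos h1, if_pos (by omega)]; norm_num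
    · rw [if_neg (by omega), if_pos (by omega), if_neg (by omega), if_neg (by omega)]; norm_num

lemma sh_cor (τ : Tm) (h : sh τ ≠ 0) : ∀ a ∈ cor τ, 0 ≤ a.1 := by
  obtain ⟨⟨x1, x2⟩, i⟩ := τ
  rintro ⟨a1, a2⟩ ha
  have h0 : 0 ≤ x1 := by
    by_contra hc
    apply h
    unfold sh
    simp only
    rw [if_neg hc, if_neg (by omega : ¬ x1 = 0), if_neg (by omega : ¬ 0 < x1), ite_self]
  fin_cases i
  · have := (mem_cor0 _ _).1 ha
    simp only [Prod.mk.injEq] at this
    show 0 ≤ a1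
    omega
  · have := (mem_cor1 _ _).1 ha
    simp only [Prod.mk.injEq, Prod.mk_add_mk] at this
    show 0 ≤ a1
    omega
  · have := (mem_cor2 _ _).1 ha
    simp only [Prod.mk.injEq, Prod.mk_add_mk] at this
    show 0 ≤ a1
    omega
  · have := (mem_cor3 _ _).1 ha
    simp only [Prod.mk.injEq, Prod.mk_add_mk] at this
    show 0 ≤ a1
    omega

/-- half of the action -/
def SP (k : ℕ) (R : Finset Pl) (X : Cf N L) : ℝ := ∑ τ ∈ tin R, sh τ * en1 k X τ

lemma SP_nonneg (k : ℕ) (R : Finset Pl) (X : Cf N L) : 0 ≤ SP k R X := by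
  refine Finset.sum_nonneg fun τ _ => mul_nonneg (sh_nonneg τ) ?_
  unfold en1
  split_ifs
  · exact eV_nonneg _ _ _
  · exact eK_nonneg _ _ _
  · exact eK_nonneg _ _ _
  · exact eP_nonneg _ _ _

lemma SP_meas (k : ℕ) (R : Finset Pl) : Measurable (SP k R : Cf N L → ℝ) :=
  (continuous_finsetSum _ fun τ _ => continuous_const.mul (en1_cont k τ)).measurable

lemma wact_split (k : ℕ) (R : Finset Pl) (hR : R.image (fun a => (-a.1, a.2)) = R) (X : Cf N L) :
    wact k R X = SP k R X + SP k R (rf X) := by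
  have hm : ∀ a : Pl, (-a.1, a.2) ∈ R ↔ a ∈ R := by
    intro a
    constructor
    · intro h
      rw [← hR]
      exact Finset.mem_image.2 ⟨_, h, by simp⟩
    · intro h
      rw [← hR]
      exact Finset.mem_image.2 ⟨_, h, rfl⟩
  have ht : ∀ τ : Tm, rt τ ∈ tin R ↔ τ ∈ tin R := by
    intro τ
    rw [mem_tin, mem_tin]
    constructor
    · intro h a ha
      have := h (-a.1, a.2) ((mem_cor_rt _ _).2 (by simpa using ha))
      exact (hm a).1 this
    · intro h a ha
      exact (hm a).1 (h _ ((mem_cor_rt _ _).1 ha))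
  have h2 : SP k R (rf X) = ∑ τ ∈ tin R, sh (rt τ) * en1 k X τ := by
    unfold SP
    refine Finset.sum_nbij' rt rt ?_ ?_ ?_ ?_ ?_
    · intro τ h; exact (ht τ).2 h
    · intro τ h; exact (ht τ).2 h
    · intro τ _; exact rt_rt τ
    · intro τ _; exact rt_rt τ
    · intro τ _; rw [rt_rt, en1_rf]
  rw [h2, wact_eq, SP, ← Finset.sum_add_distrib]
  refine Finset.sum_congr rfl fun τ _ => ?_
  rw [← add_mul, sh_add, one_mul]

lemma wact_rf (k : ℕ) (R : Finset Pl) (hR : R.image (fun a => (-a.1, a.2)) = R) (X : Cf N L) :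
    wact k R (rf X) = wact k R X := by
  rw [wact_split k R hR, wact_split k R hR, rf_rf, add_comm]

/-! ### the two halves -/

/-- links over `B` in `x.1 ≥ 0`, not in `x.1 = 0` -/
def Jp (L : ℕ) [NeZero L] (B : Finset Pl) : Finset (Lk L) :=
  (Frl L B).filter fun l => (∀ a ∈ st l, 0 ≤ a.1) ∧ ∃ a ∈ st l, 0 < a.1

/-- the mirror image of `Jp` -/
def Jm (L : ℕ) [NeZero L] (B : Finset Pl) : Finset (Lk L) := (Jp L B).image (lr L)

lemma mem_Jm (B : Finset Pl) (l : Lk L) : lr L l ∈ Jm L B ↔ l ∈ Jp L B := by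
  rw [Jm, Finset.mem_image]
  constructor
  · rintro ⟨l', h, h2⟩
    rw [← lr_lr l, ← h2, lr_lr]
    exact h
  · intro h
    exact ⟨l, h, rfl⟩

lemma Jm_neg (B : Finset Pl) (l : Lk L) (h : l ∈ Jm L B) : ∃ a ∈ st l, a.1 < 0 := by
  rw [← lr_lr l, mem_Jm, Jp, Finset.mem_filter] at h
  obtain ⟨_, _, a, ha, ha0⟩ := h
  rw [mem_st_lr] at ha
  exact ⟨_, ha, by simpa using ha0⟩

lemma rf_zero (X : Cf N L) (l : Lk L) (h : ∀ a ∈ st l, a.1 = 0) : rf X l = X l := by
  obtain ⟨⟨⟨x1, x2⟩, y⟩, i⟩ := l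
  have h1 : x1 = 0 := h (x1, x2) ((mem_st _ _).2 (Or.inl rfl))
  subst h1
  by_cases h0 : i = 0
  · exfalso
    subst h0
    have := h ((0, x2) + pe 0) ((mem_st _ _).2 (Or.inr rfl))
    simp [pe] at this
  · rw [rf_eq]
    simp [lr, h0]

lemma rf_glue (B : Finset Pl) (ξ η : Cf N L) :
    rf (glue (Jm L B) ξ η) = glue (Jp L B) (rf ξ) (rf η) := by
  funext l
  rw [rf_eq]
  unfold glue
  simp only [mem_Jm]
  rw [rf_eq, rf_eq]
  split_ifs <;> rfl

/-- `F` depends only on `Jp` and on the links over `x.1 = 0` -/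
def hdep (B : Finset Pl) (F : Cf N L → ℝ) : Prop :=
  ∀ X Y : Cf N L, (∀ l ∈ Jp L B, X l = Y l) → (∀ l : Lk L, (∀ a ∈ st l, a.1 = 0) → X l = Y l) →
    F X = F Y

lemma hdep_of (B : Finset Pl) (F : Cf N L → ℝ)
    (h : ∀ X Y : Cf N L, (∀ l, (∀ a ∈ st l, 0 ≤ a.1 ∧ a ∈ B) → X l = Y l) → F X = F Y) :
    hdep B F := by
  intro X Y h1 h2
  refine h X Y fun l hl => ?_
  by_cases h0 : ∃ a ∈ st l, 0 < a.1
  · refine h1 l ?_
    rw [Jp, Finset.mem_filter, mem_Frl]
    have h3 : l.1.1 ∈ st l := (mem_st _ _).2 (Or.inl rfl)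
    exact ⟨⟨_, h3, (hl _ h3).2⟩, fun a ha => (hl a ha).1, h0⟩
  · refine h2 l fun a ha => ?_
    have h3 := (hl a ha).1
    by_contra hc
    exact h0 ⟨a, ha, by omega⟩

/-- the core of reflection positivity -/
theorem core (B : Finset Pl) (F : Cf N L → ℝ) (hF : Measurable F) (hb : ∀ X, |F X| ≤ 1)
    (hd : hdep B F) : 0 ≤ ∫ X, F (rf X) * F X ∂(pm N L) := by
  classical
  set K : Cf N L → ℝ := fun η => ∫ ξ, F (glue (Jp L B) ξ η) ∂(pm N L) with hK
  have hKm : Measurable K := by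
    have h1 : Measurable (fun p : Cf N L × Cf N L => F (glue (Jp L B) p.2 p.1)) :=
      hF.comp (meas_glue _)
    exact (StronglyMeasurable.integral_prod_right (f := fun η ξ : Cf N L =>
      F (glue (Jp L B) ξ η)) h1.stronglyMeasurable).measurable
  have hKb : ∀ η, |K η| ≤ 1 := by
    intro η
    have := norm_integral_le_of_norm_le_const (μ := pm N L)
      (f := fun ξ => F (glue (Jp L B) ξ η)) (C := 1)
      (Filter.Eventually.of_forall fun ξ => by rw [Real.norm_eq_abs]; exact hb _)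
    rw [Real.norm_eq_abs] at this
    simpa using this
  have hZ : ∀ l : Lk L, (∀ a ∈ st l, a.1 = 0) → l ∉ Jp L B := by
    intro l hl h
    rw [Jp, Finset.mem_filter] at h
    obtain ⟨_, _, a, ha, h0⟩ := h
    rw [hl a ha] at h0
    exact lt_irrefl _ h0
  have hZ' : ∀ l : Lk L, (∀ a ∈ st l, 0 ≤ a.1) → l ∉ Jm L B := by
    intro l hl h
    obtain ⟨a, ha, h0⟩ := Jm_neg B l h
    exact absurd (hl a ha) (not_le.2 h0)
  -- first step
  have e1 : ∫ X, F (rf X) * F X ∂(pm N L) = ∫ η, K η * F η ∂(pm N L) := by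
    have h1 := pF2 (Lk L) (SU N) (hm N) (Jm L B) (fun X => F (rf X) * F X)
      ((hF.comp rf_meas).mul hF) ⟨1, fun X => by
        rw [abs_mul]
        exact mul_le_one₀ (hb _) (abs_nonneg _) (hb _)⟩
    refine h1.trans ?_
    refine integral_congr_ae (Filter.Eventually.of_forall fun η => ?_)
    show ∫ ξ, F (rf (glue (Jm L B) ξ η)) * F (glue (Jm L B) ξ η) ∂(pm N L) = K η * F η
    have h2 : ∀ ξ : Cf N L, F (glue (Jm L B) ξ η) = F η := by
      intro ξ
      refine hd _ _ (fun l hl => ?_) (fun l hl => ?_)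
      · unfold glue
        rw [if_neg]
        refine hZ' l ?_
        rw [Jp, Finset.mem_filter] at hl
        exact hl.2.1
      · unfold glue
        rw [if_neg]
        exact hZ' l fun a ha => (hl a ha).ge
    have h3 : ∀ ξ : Cf N L, F (rf (glue (Jm L B) ξ η)) = F (glue (Jp L B) (rf ξ) η) := by
      intro ξ
      rw [rf_glue]
      refine hd _ _ (fun l hl => ?_) (fun l hl => ?_)
      · unfold glue
        rw [if_pos hl, if_pos hl]
      · unfold glue
        rw [if_neg (hZ l hl), if_neg (hZ l hl)]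
        exact rf_zero η l hl
    simp only [h2, h3]
    rw [integral_mul_const, int_rf (fun ξ => F (glue (Jp L B) ξ η))]
  -- second step
  have e2 : ∫ η, K η * F η ∂(pm N L) = ∫ η, K η * K η ∂(pm N L) := by
    have h1 := pF2 (Lk L) (SU N) (hm N) (Jp L B) (fun X => K X * F X) (hKm.mul hF) ⟨1, fun X => by
        rw [abs_mul]
        exact mul_le_one₀ (hKb _) (abs_nonneg _) (hb _)⟩
    refine h1.trans ?_
    refine integral_congr_ae (Filter.Eventually.of_forall fun η => ?_)
    show ∫ ξ, K (glue (Jp L B) ξ η) * F (glue (Jp L B) ξ η) ∂(pm N L) = K η * K η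
    have h2 : ∀ ξ : Cf N L, K (glue (Jp L B) ξ η) = K η := by
      intro ξ
      rw [hK]
      refine integral_congr_ae (Filter.Eventually.of_forall fun ξ' => ?_)
      show F (glue (Jp L B) ξ' (glue (Jp L B) ξ η)) = F (glue (Jp L B) ξ' η)
      congr 1
      funext l
      unfold glue
      split_ifs <;> rfl
    simp only [h2]
    rw [integral_const_mul]
  rw [e1, e2]
  exact integral_nonneg fun η => mul_self_nonneg _

end PkgRP

open PkgRP in
theorem pRP : S_RP := by
  intro N k L _ _ β R hβ hR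
  refine ⟨fun F _ _ => ?_, fun A hA f hf => ?_⟩
  · unfold wex
    congr 1
    rw [← int_rf (fun X => F X * Real.exp (-β * wact k R X))]
    simp only [wact_rf k R hR]
  · obtain ⟨hfm, hfb, hfd⟩ := hf
    unfold wex
    refine div_nonneg ?_ (integral_nonneg fun X => (Real.exp_pos _).le)
    have h1 : ∀ X : Cf N L, f (rf X) * f X * Real.exp (-β * wact k R X) =
        (f (rf X) * Real.exp (-β * SP k R (rf X))) * (f X * Real.exp (-β * SP k R X)) := by
      intro X
      rw [wact_split k R hR, mul_add, Real.exp_add]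
      ring
    simp only [h1]
    refine core (A ∪ R) (fun X => f X * Real.exp (-β * SP k R X)) ?_ ?_ ?_
    · exact hfm.mul ((measurable_const.mul (SP_meas k R)).exp)
    · intro X
      rw [abs_mul, Real.abs_exp]
      refine mul_le_one₀ (hfb X) (Real.exp_pos _).le (Real.exp_le_one_iff.2 ?_)
      have := SP_nonneg k R X
      nlinarith
    · refine hdep_of _ _ fun X Y h => ?_
      have h2 : f X = f Y := by
        refine hfd X Y fun l hl => h l fun a ha => ?_
        exact ⟨hA a (hl a ha), Finset.mem_union_left _ (hl a ha)⟩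
      have h3 : SP k R X = SP k R Y := by
        unfold SP
        refine Finset.sum_congr rfl fun τ hτ => ?_
        by_cases h0 : sh τ = 0
        · rw [h0, zero_mul, zero_mul]
        · rw [en1_loc k τ X Y]
          intro l hl
          refine h l fun a ha => ?_
          have hc : a ∈ cor τ := (cor_iff τ a).2 ⟨l, hl, ha⟩
          exact ⟨sh_cor τ h0 a hc, Finset.mem_union_right _ ((mem_tin R τ).1 hτ a hc)⟩
      show f X * Real.exp (-β * SP k R X) = f Y * Real.exp (-β * SP k R Y)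
      rw [h2, h3]

end T2H02.TT
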