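import Pool.Agent.T2H02.TT.Stm

/-!
# Package E : frames, the projection on `su(N)` and the exponential
-/

set_option autoImplicit false

noncomputable section

open MeasureTheory Matrix
open scoped Matrix.Norms.Frobenius

namespace T2H02.TT

namespace PkgE

variable {N : ℕ}

/-! ### the Frobenius norm -/

lemma coe_inv (g : SU N) : ((g⁻¹ : SU N) : Mt N) = (g : Mt N)ᴴ := rfl

lemma mul_ct (g : SU N) : (g : Mt N) * (g : Mt N)ᴴ = 1 := by
  exact congrArg (fun x : SU N => (x : Mt N)) (mul_inv_cancel g)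

lemma ct_mul (g : SU N) : (g : Mt N)ᴴ * (g : Mt N) = 1 := by
  exact congrArg (fun x : SU N => (x : Mt N)) (inv_mul_cancel g)

lemma nsq (M : Mt N) : ‖M‖ ^ 2 = ∑ i, ∑ j, ‖M i j‖ ^ 2 := by
  rw [frobenius_norm_def]
  rw [← Real.sqrt_eq_rpow, Real.sq_sqrt]
  · simp
  · exact Finset.sum_nonneg fun i _ => Finset.sum_nonneg fun j _ => by positivity

lemma nsq_tr (M : Mt N) : ((‖M‖ ^ 2 : ℝ) : ℂ) = (M * Mᴴ).trace := by
  rw [nsq, Matrix.trace]
  push_cast
  refine Finset.sum_congr rfl fun i _ => ?_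
  rw [Matrix.diag_apply, Matrix.mul_apply]
  refine Finset.sum_congr rfl fun j _ => ?_
  rw [conjTranspose_apply]
  exact (Complex.mul_conj' _).symm

lemma norm_eq_of_tr {M M' : Mt N} (h : (M * Mᴴ).trace = (M' * M'ᴴ).trace) : ‖M‖ = ‖M'‖ := by
  rw [← nsq_tr, ← nsq_tr] at h
  have h1 : ‖M‖ ^ 2 = ‖M'‖ ^ 2 := by exact_mod_cast h
  exact (pow_left_inj₀ (norm_nonneg _) (norm_nonneg _) two_ne_zero).mp h1

lemma norm_mul_su (M : Mt N) (g : SU N) : ‖M * (g : Mt N)‖ = ‖M‖ := by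
  apply norm_eq_of_tr
  rw [conjTranspose_mul, Matrix.mul_assoc, ← Matrix.mul_assoc (g : Mt N), mul_ct, Matrix.one_mul]

lemma norm_ct (M : Mt N) : ‖Mᴴ‖ = ‖M‖ := frobenius_norm_conjTranspose M

lemma norm_su_mul (g : SU N) (M : Mt N) : ‖(g : Mt N) * M‖ = ‖M‖ := by
  rw [← norm_ct, conjTranspose_mul, ← coe_inv, norm_mul_su, norm_ct]

lemma norm_adj (g : SU N) (M : Mt N) : ‖Adj g M‖ = ‖M‖ := by
  unfold Adj
  rw [norm_mul_su, norm_su_mul]

lemma norm_one_mt : ‖(1 : Mt N)‖ = Real.sqrt N := by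
  rw [← Real.sqrt_sq (norm_nonneg (1 : Mt N)), nsq]
  congr 1
  simp [Matrix.one_apply, apply_ite (fun x : ℂ => ‖x‖ ^ 2)]

lemma norm_su (g : SU N) : ‖(g : Mt N)‖ = Real.sqrt N := by
  rw [← norm_one_mt, ← norm_su_mul g 1, Matrix.mul_one]

lemma norm_entry (M : Mt N) (i j : Fin N) : ‖M i j‖ ≤ ‖M‖ := by
  apply le_of_sq_le_sq _ (norm_nonneg _) |> fun h => h
  rw [nsq]
  calc ‖M i j‖ ^ 2 ≤ ∑ j, ‖M i j‖ ^ 2 :=
        Finset.single_le_sum (f := fun j => ‖M i j‖ ^ 2) (fun j _ => by positivity) (Finset.mem_univ j)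
    _ ≤ _ := Finset.single_le_sum (f := fun i => ∑ j, ‖M i j‖ ^ 2)
        (fun i _ => Finset.sum_nonneg fun j _ => by positivity) (Finset.mem_univ i)

lemma norm_trace (M : Mt N) : ‖M.trace‖ ≤ N * ‖M‖ := by
  rw [Matrix.trace]
  calc ‖∑ i, M.diag i‖ ≤ ∑ i : Fin N, ‖M.diag i‖ := norm_sum_le _ _
    _ ≤ ∑ _i : Fin N, ‖M‖ := Finset.sum_le_sum fun i _ => norm_entry M i i
    _ = N * ‖M‖ := by simp

/-! ### E2 -/

/-- `n` steps in the direction `j` -/
def stp {L : ℕ} (j : Fin 2) (n : ℕ) (y : Tor L) : Tor L :=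
  if j = 0 then (y.1 + n, y.2) else (y.1, y.2 + n)

lemma stp_zero {L : ℕ} (j : Fin 2) (y : Tor L) : stp j 0 y = y := by
  unfold stp; split_ifs <;> simp

lemma stp_succ {L : ℕ} (j : Fin 2) (n : ℕ) (y : Tor L) : stp j (n + 1) y = stp j n (tsh y j) := by
  unfold stp tsh
  split_ifs
  · refine Prod.ext ?_ rfl
    push_cast
    ring
  · refine Prod.ext rfl ?_
    push_cast
    ring

lemma stp_L {L : ℕ} (j : Fin 2) (y : Tor L) : stp j L y = y := by
  unfold stp; split_ifs <;> simp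

lemma hol_act {L : ℕ} [NeZero L] (φ : Ph N L) (g : Tor L → SU N) (j : Fin 2) (n : ℕ) :
    ∀ y : Tor L, hol (act g φ) j n y = g y * hol φ j n y * (g (stp j n y))⁻¹ := by
  induction n with
  | zero => intro y; simp [hol, stp_zero]
  | succ n ih =>
    intro y
    rw [hol, hol, ih, stp_succ, act]
    group

lemma conj_pow (g U : SU N) (a : ℕ) :
    ((g * U * g⁻¹ : SU N) : Mt N) ^ a = (g : Mt N) * (U : Mt N) ^ a * ((g⁻¹ : SU N) : Mt N) := by
  have h : (g * U * g⁻¹) ^ a = g * U ^ a * g⁻¹ := _root_.conj_pow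
  exact congrArg (fun x : SU N => (x : Mt N)) h

theorem E2_proof : S_E2 := by
  intro N L _ _ P Q φ g y M
  unfold fr
  have h0 : hol (act g φ) 0 L y = g y * hol φ 0 L y * (g y)⁻¹ := by rw [hol_act, stp_L]
  have h1 : hol (act g φ) 1 L y = g y * hol φ 1 L y * (g y)⁻¹ := by rw [hol_act, stp_L]
  have hk : ((g y)⁻¹ : SU N) * (g y : Mt N) = (1 : Mt N) := ct_mul (g y)
  unfold Adj
  rw [h0, h1, Matrix.mul_smul, Matrix.smul_mul]
  congr 1
  rw [Finset.mul_sum, Finset.sum_mul]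
  refine Finset.sum_congr rfl fun a _ => ?_
  rw [Finset.mul_sum, Finset.sum_mul]
  refine Finset.sum_congr rfl fun b _ => ?_
  rw [Matrix.mul_smul, Matrix.smul_mul, conj_pow, conj_pow]
  congr 1
  calc _ = (g y : Mt N) * (hol φ 0 L y : Mt N) ^ (a : ℕ) * (((g y)⁻¹ : SU N) * (g y : Mt N)) *
        (hol φ 1 L y : Mt N) ^ (b : ℕ) * (((g y)⁻¹ : SU N) : Mt N) := by
        simp only [Matrix.mul_assoc]
    _ = _ := by rw [hk, Matrix.mul_one]; simp only [Matrix.mul_assoc]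

/-! ### E3 -/

lemma norm_mul_sub (U U' V V' : SU N) :
    ‖((U * V : SU N) : Mt N) - ((U' * V' : SU N) : Mt N)‖ ≤
      ‖(U : Mt N) - (U' : Mt N)‖ + ‖(V : Mt N) - (V' : Mt N)‖ := by
  have h : ((U * V : SU N) : Mt N) - ((U' * V' : SU N) : Mt N) =
      ((U : Mt N) - (U' : Mt N)) * (V : Mt N) + (U' : Mt N) * ((V : Mt N) - (V' : Mt N)) := by
    show (U : Mt N) * (V : Mt N) - (U' : Mt N) * (V' : Mt N) = _
    rw [Matrix.sub_mul, Matrix.mul_sub]
    abel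
  rw [h]
  refine (norm_add_le _ _).trans ?_
  rw [norm_mul_su, norm_su_mul]

lemma norm_pow_sub (U V : SU N) (a : ℕ) :
    ‖((U ^ a : SU N) : Mt N) - ((V ^ a : SU N) : Mt N)‖ ≤ a * ‖(U : Mt N) - (V : Mt N)‖ := by
  induction a with
  | zero => simp
  | succ a ih =>
    rw [pow_succ, pow_succ]
    refine (norm_mul_sub _ _ _ _).trans ?_
    rw [Nat.cast_succ]
    linarith

lemma link_le {L : ℕ} [NeZero L] (φ ψ : Ph N L) (y : Tor L) (j : Fin 2) :
    ‖(φ y j : Mt N) - (ψ y j : Mt N)‖ ≤ Real.sqrt (dst φ ψ) := by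
  apply Real.le_sqrt_of_sq_le
  unfold dst
  calc ‖(φ y j : Mt N) - (ψ y j : Mt N)‖ ^ 2
      ≤ ∑ j, ‖(φ y j : Mt N) - (ψ y j : Mt N)‖ ^ 2 :=
        Finset.single_le_sum (f := fun j => ‖(φ y j : Mt N) - (ψ y j : Mt N)‖ ^ 2)
          (fun j _ => by positivity) (Finset.mem_univ j)
    _ ≤ _ := Finset.single_le_sum (f := fun y => ∑ j, ‖(φ y j : Mt N) - (ψ y j : Mt N)‖ ^ 2)
        (fun i _ => Finset.sum_nonneg fun j _ => by positivity) (Finset.mem_univ y)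

lemma hol_sub {L : ℕ} [NeZero L] (φ ψ : Ph N L) (j : Fin 2) (n : ℕ) : ∀ y : Tor L,
    ‖(hol φ j n y : Mt N) - (hol ψ j n y : Mt N)‖ ≤ n * Real.sqrt (dst φ ψ) := by
  induction n with
  | zero => intro y; simp [hol]
  | succ n ih =>
    intro y
    rw [hol, hol]
    refine (norm_mul_sub _ _ _ _).trans ?_
    have h1 := link_le φ ψ y j
    have h2 := ih (tsh y j)
    rw [Nat.cast_succ]
    linarith

/-- coefficient of the frame -/
def cf (P Q : SU N) (M : Mt N) (a b : ℕ) : ℂ := (M * ((P : Mt N) ^ a * (Q : Mt N) ^ b)ᴴ).trace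

lemma norm_cf (P Q : SU N) (M : Mt N) (a b : ℕ) : ‖cf P Q M a b‖ ≤ N * ‖M‖ := by
  unfold cf
  refine (norm_trace _).trans ?_
  have h : ((P : Mt N) ^ a * (Q : Mt N) ^ b)ᴴ = (((P ^ a * Q ^ b)⁻¹ : SU N) : Mt N) := rfl
  rw [h, norm_mul_su]

/-- product of powers of holonomies -/
def hh {L : ℕ} [NeZero L] (φ : Ph N L) (y : Tor L) (a b : ℕ) : SU N :=
  (hol φ 0 L y) ^ a * (hol φ 1 L y) ^ b

lemma fr_eq {L : ℕ} [NeZero L] (P Q : SU N) (φ : Ph N L) (y : Tor L) (M : Mt N) :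
    fr P Q φ y M = (1 / N : ℂ) • ∑ a : Fin N, ∑ b : Fin N, cf P Q M a b • (hh φ y a b : Mt N) := rfl

lemma hh_sub {L : ℕ} [NeZero L] (φ ψ : Ph N L) (y : Tor L) (a b : ℕ) :
    ‖(hh φ y a b : Mt N) - (hh ψ y a b : Mt N)‖ ≤ (a + b) * (L * Real.sqrt (dst φ ψ)) := by
  unfold hh
  refine (norm_mul_sub _ _ _ _).trans ?_
  have h1 := norm_pow_sub (hol φ 0 L y) (hol ψ 0 L y) a
  have h2 := norm_pow_sub (hol φ 1 L y) (hol ψ 1 L y) b
  have h3 := mul_le_mul_of_nonneg_left (hol_sub φ ψ 0 L y) (Nat.cast_nonneg' (α := ℝ) a)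
  have h4 := mul_le_mul_of_nonneg_left (hol_sub φ ψ 1 L y) (Nat.cast_nonneg' (α := ℝ) b)
  linarith

lemma cont_hol {L : ℕ} [NeZero L] (j : Fin 2) (n : ℕ) : ∀ y : Tor L,
    Continuous fun φ : Ph N L => hol φ j n y := by
  induction n with
  | zero => intro y; exact continuous_const
  | succ n ih =>
    intro y
    simp only [hol]
    have h1 : Continuous fun φ : Ph N L => φ y j := by fun_prop
    exact h1.mul (ih (tsh y j))

lemma cont_fr {L : ℕ} [NeZero L] (P Q : SU N) (y : Tor L) (M : Mt N) :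
    Continuous fun φ : Ph N L => fr P Q φ y M := by
  simp only [fr_eq]
  have h0 : ∀ a b : ℕ, Continuous fun φ : Ph N L => (hh φ y a b : Mt N) := fun a b =>
    continuous_subtype_val.comp (((cont_hol 0 L y).pow a).mul ((cont_hol 1 L y).pow b))
  have h1 : Continuous fun φ : Ph N L => ∑ a : Fin N, ∑ b : Fin N, cf P Q M a b • (hh φ y a b : Mt N) :=
    continuous_finsetSum _ fun a _ => continuous_finsetSum _ fun b _ =>
      (h0 a b).const_smul (cf P Q M a b)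
  exact h1.const_smul (1 / N : ℂ)

theorem E3_proof : S_E3 := by
  intro N L _ hN P Q
  have hN0 : (0 : ℝ) < N := by positivity
  have hL0 : (0 : ℝ) < L := by
    have := NeZero.pos L
    positivity
  have hs : 0 ≤ Real.sqrt N := Real.sqrt_nonneg _
  refine ⟨N ^ 2 * (2 * N * L) + N ^ 2 * Real.sqrt N, by positivity, ?_, ?_, ?_⟩
  · intro φ ψ y M
    have hd := Real.sqrt_nonneg (dst φ ψ)
    have hM := norm_nonneg M
    rw [fr_eq, fr_eq, ← smul_sub, norm_smul, ← Finset.sum_sub_distrib]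
    have h1 : ∀ a ∈ (Finset.univ : Finset (Fin N)), ‖(∑ b : Fin N, cf P Q M a b • (hh φ y a b : Mt N)) -
        ∑ b : Fin N, cf P Q M a b • (hh ψ y a b : Mt N)‖ ≤
        N * (N * ‖M‖ * (2 * N * (L * Real.sqrt (dst φ ψ)))) := by
      intro a _
      rw [← Finset.sum_sub_distrib]
      refine (norm_sum_le_of_le (n := fun _ => N * ‖M‖ * (2 * N * (L * Real.sqrt (dst φ ψ)))) _
        (fun b _ => ?_)).trans (le_of_eq ?_)
      · rw [← smul_sub, norm_smul]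
        refine mul_le_mul (norm_cf _ _ _ _ _) ?_ (norm_nonneg _) (by positivity)
        refine (hh_sub φ ψ y a b).trans ?_
        refine mul_le_mul_of_nonneg_right ?_ (by positivity)
        have ha : ((a : ℕ) : ℝ) ≤ N := by exact_mod_cast a.2.le
        have hb : ((b : ℕ) : ℝ) ≤ N := by exact_mod_cast b.2.le
        linarith
      · simp
    have h2 := norm_sum_le_of_le _ h1
    rw [Finset.sum_const, Finset.card_univ, Fintype.card_fin, nsmul_eq_mul] at h2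
    have h3 : ‖(1 / N : ℂ)‖ = 1 / N := by simp
    rw [h3]
    calc 1 / (N : ℝ) * _ ≤ 1 / (N : ℝ) * (N * (N * (N * ‖M‖ * (2 * N * (L * Real.sqrt (dst φ ψ)))))) :=
          mul_le_mul_of_nonneg_left h2 (by positivity)
      _ = (N ^ 2 * (2 * N * L)) * Real.sqrt (dst φ ψ) * ‖M‖ := by field_simp
      _ ≤ _ := by
        refine mul_le_mul_of_nonneg_right ?_ hM
        refine mul_le_mul_of_nonneg_right ?_ hd
        have : 0 ≤ N ^ 2 * Real.sqrt N := by positivity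
        linarith
  · intro φ y M
    have hM := norm_nonneg M
    rw [fr_eq, norm_smul]
    have h1 : ∀ a ∈ (Finset.univ : Finset (Fin N)), ‖∑ b : Fin N, cf P Q M a b • (hh φ y a b : Mt N)‖ ≤
        N * (N * ‖M‖ * Real.sqrt N) := by
      intro a _
      refine (norm_sum_le_of_le (n := fun _ => N * ‖M‖ * Real.sqrt N) _
        (fun b _ => ?_)).trans (le_of_eq ?_)
      · rw [norm_smul, norm_su]
        exact mul_le_mul_of_nonneg_right (norm_cf _ _ _ _ _) hs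
      · simp
    have h2 := norm_sum_le_of_le _ h1
    rw [Finset.sum_const, Finset.card_univ, Fintype.card_fin, nsmul_eq_mul] at h2
    have h3 : ‖(1 / N : ℂ)‖ = 1 / N := by simp
    rw [h3]
    calc 1 / (N : ℝ) * _ ≤ 1 / (N : ℝ) * (N * (N * (N * ‖M‖ * Real.sqrt N))) :=
          mul_le_mul_of_nonneg_left h2 (by positivity)
      _ = (N ^ 2 * Real.sqrt N) * ‖M‖ := by field_simp
      _ ≤ _ := by
        refine mul_le_mul_of_nonneg_right ?_ hM
        have : 0 ≤ (N : ℝ) ^ 2 * (2 * N * L) := by positivity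
        linarith
  · exact fun y M => cont_fr P Q y M

/-! ### E1 -/

lemma hol_vac0 {L : ℕ} [NeZero L] (P Q : SU N) (n : ℕ) (hn : n ≤ L) : ∀ y : Tor L,
    hol (vac P Q) 0 n y = if ∃ m < n, y.1 + (m : ZMod L) = -1 then P else 1 := by
  induction n with
  | zero => intro y; simp [hol]
  | succ n ih =>
    intro y
    rw [hol, ih (by omega)]
    have ht : (tsh y 0).1 = y.1 + 1 := by simp [tsh]
    rw [ht]
    by_cases h0 : y.1 = -1
    · have h1 : ¬ ∃ m < n, y.1 + 1 + (m : ZMod L) = -1 := by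
        rintro ⟨m, hm, h⟩
        rw [h0, neg_add_cancel, zero_add] at h
        have h2 : ((m + 1 : ℕ) : ZMod L) = 0 := by push_cast; rw [h]; ring
        rw [ZMod.natCast_eq_zero_iff] at h2
        exact absurd (Nat.le_of_dvd (by omega) h2) (by omega)
      have h2 : ∃ m < n + 1, y.1 + (m : ZMod L) = -1 := ⟨0, by omega, by simp [h0]⟩
      rw [if_neg h1, if_pos h2]
      simp [vac, h0]
    · have h3 : (∃ m < n + 1, y.1 + (m : ZMod L) = -1) ↔ ∃ m < n, y.1 + 1 + (m : ZMod L) = -1 := by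
        constructor
        · rintro ⟨m, hm, h⟩
          rcases m with _ | m
          · simp at h; exact absurd h h0
          · refine ⟨m, by omega, ?_⟩
            rw [← h]; push_cast; ring
        · rintro ⟨m, hm, h⟩
          refine ⟨m + 1, by omega, ?_⟩
          rw [← h]; push_cast; ring
      simp only [h3]
      simp [vac, h0]

lemma hol_vac1 {L : ℕ} [NeZero L] (P Q : SU N) (n : ℕ) (hn : n ≤ L) : ∀ y : Tor L,
    hol (vac P Q) 1 n y = if ∃ m < n, y.2 + (m : ZMod L) = -1 then Q else 1 := by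
  induction n with
  | zero => intro y; simp [hol]
  | succ n ih =>
    intro y
    rw [hol, ih (by omega)]
    have ht : (tsh y 1).2 = y.2 + 1 := by simp [tsh]
    rw [ht]
    by_cases h0 : y.2 = -1
    · have h1 : ¬ ∃ m < n, y.2 + 1 + (m : ZMod L) = -1 := by
        rintro ⟨m, hm, h⟩
        rw [h0, neg_add_cancel, zero_add] at h
        have h2 : ((m + 1 : ℕ) : ZMod L) = 0 := by push_cast; rw [h]; ring
        rw [ZMod.natCast_eq_zero_iff] at h2
        exact absurd (Nat.le_of_dvd (by omega) h2) (by omega)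
      have h2 : ∃ m < n + 1, y.2 + (m : ZMod L) = -1 := ⟨0, by omega, by simp [h0]⟩
      rw [if_neg h1, if_pos h2]
      simp [vac, h0]
    · have h3 : (∃ m < n + 1, y.2 + (m : ZMod L) = -1) ↔ ∃ m < n, y.2 + 1 + (m : ZMod L) = -1 := by
        constructor
        · rintro ⟨m, hm, h⟩
          rcases m with _ | m
          · simp at h; exact absurd h h0
          · refine ⟨m, by omega, ?_⟩
            rw [← h]; push_cast; ring
        · rintro ⟨m, hm, h⟩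
          refine ⟨m + 1, by omega, ?_⟩
          rw [← h]; push_cast; ring
      simp only [h3]
      simp [vac, h0]

lemma exists_step {L : ℕ} [NeZero L] (x : ZMod L) : ∃ m < L, x + (m : ZMod L) = -1 := by
  refine ⟨(-1 - x).val, ZMod.val_lt _, ?_⟩
  rw [ZMod.natCast_zmod_val]
  ring

lemma hol_vac_L0 {L : ℕ} [NeZero L] (P Q : SU N) (y : Tor L) : hol (vac P Q) 0 L y = P := by
  rw [hol_vac0 P Q L le_rfl y, if_pos (exists_step y.1)]

lemma hol_vac_L1 {L : ℕ} [NeZero L] (P Q : SU N) (y : Tor L) : hol (vac P Q) 1 L y = Q := by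
  rw [hol_vac1 P Q L le_rfl y, if_pos (exists_step y.2)]

lemma om_prim {k : ℕ} (hN : 2 ≤ N) (hk : Nat.Coprime k N) : IsPrimitiveRoot (om N k) N := by
  have h := Complex.isPrimitiveRoot_exp_of_coprime k N (by omega) hk
  have h1 : om N k = Complex.exp (2 * Real.pi * Complex.I * (k / N)) := by
    unfold om
    congr 1
    ring
  rw [h1]; exact h

lemma PQ_pow {k : ℕ} {P Q : SU N} (h : PQ k P Q) (b : ℕ) :
    (P : Mt N) * (Q : Mt N) ^ b = om N k ^ b • ((Q : Mt N) ^ b * (P : Mt N)) := by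
  induction b with
  | zero => simp
  | succ b ih =>
    rw [pow_succ, ← Matrix.mul_assoc, ih, Matrix.smul_mul, Matrix.mul_assoc, h, Matrix.mul_smul,
      smul_smul, Matrix.mul_assoc, pow_succ]

lemma PQ_pow' {k : ℕ} {P Q : SU N} (h : PQ k P Q) (a : ℕ) :
    (P : Mt N) ^ a * (Q : Mt N) = om N k ^ a • ((Q : Mt N) * (P : Mt N) ^ a) := by
  induction a with
  | zero => simp
  | succ a ih =>
    rw [pow_succ, Matrix.mul_assoc, h, Matrix.mul_smul, ← Matrix.mul_assoc, ih, Matrix.smul_mul,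
      smul_smul, Matrix.mul_assoc, pow_succ, mul_comm (om N k)]

lemma tr0 (X : SU N) (D : Mt N) (z w : ℂ) (h : z • ((X : Mt N) * D) = w • (D * (X : Mt N)))
    (hzw : z ≠ w) : D.trace = 0 := by
  have h1 : z * D.trace = w * D.trace := by
    have h2 := congrArg (fun Y : Mt N => (Y * (X : Mt N)ᴴ).trace) h
    simp only [Matrix.smul_mul, Matrix.trace_smul, smul_eq_mul] at h2
    rw [Matrix.mul_assoc D, mul_ct, Matrix.mul_one, Matrix.trace_mul_comm, ← Matrix.mul_assoc, ct_mul,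
      Matrix.one_mul] at h2
    exact h2
  have h3 : (z - w) * D.trace = 0 := by rw [sub_mul, h1, sub_self]
  rcases mul_eq_zero.mp h3 with h4 | h4
  · exact absurd (sub_eq_zero.mp h4) hzw
  · exact h4

lemma pw_ct (P : SU N) (a : ℕ) : (P : Mt N) ^ a * ((P : Mt N) ^ a)ᴴ = 1 := mul_ct (P ^ a)

lemma ct_pw (P : SU N) (a : ℕ) : ((P : Mt N) ^ a)ᴴ * (P : Mt N) ^ a = 1 := ct_mul (P ^ a)

/-- `P (Q^b)ᴴ` -/
lemma PQ_ct {k : ℕ} {P Q : SU N} (h : PQ k P Q) (b : ℕ) :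
    om N k ^ b • ((P : Mt N) * ((Q : Mt N) ^ b)ᴴ) = ((Q : Mt N) ^ b)ᴴ * (P : Mt N) := by
  have h1 := PQ_pow h b
  calc om N k ^ b • ((P : Mt N) * ((Q : Mt N) ^ b)ᴴ)
      = om N k ^ b • ((((Q : Mt N) ^ b)ᴴ * (Q : Mt N) ^ b) * (P : Mt N) * ((Q : Mt N) ^ b)ᴴ) := by
        rw [ct_pw, Matrix.one_mul]
    _ = ((Q : Mt N) ^ b)ᴴ * (om N k ^ b • ((Q : Mt N) ^ b * (P : Mt N))) * ((Q : Mt N) ^ b)ᴴ := by
        rw [Matrix.mul_smul, Matrix.smul_mul]; simp only [Matrix.mul_assoc]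
    _ = ((Q : Mt N) ^ b)ᴴ * (P : Mt N) * ((Q : Mt N) ^ b * ((Q : Mt N) ^ b)ᴴ) := by
        rw [← h1]; simp only [Matrix.mul_assoc]
    _ = _ := by rw [pw_ct, Matrix.mul_one]

lemma PQ_ct' {k : ℕ} {P Q : SU N} (h : PQ k P Q) (a : ℕ) :
    om N k ^ a • (((P : Mt N) ^ a)ᴴ * (Q : Mt N)) = (Q : Mt N) * ((P : Mt N) ^ a)ᴴ := by
  have h1 := PQ_pow' h a
  calc om N k ^ a • (((P : Mt N) ^ a)ᴴ * (Q : Mt N))
      = om N k ^ a • (((P : Mt N) ^ a)ᴴ * (Q : Mt N) * ((P : Mt N) ^ a * ((P : Mt N) ^ a)ᴴ)) := by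
        rw [pw_ct, Matrix.mul_one]
    _ = ((P : Mt N) ^ a)ᴴ * (om N k ^ a • ((Q : Mt N) * (P : Mt N) ^ a)) * ((P : Mt N) ^ a)ᴴ := by
        rw [Matrix.mul_smul, Matrix.smul_mul]; simp only [Matrix.mul_assoc]
    _ = (((P : Mt N) ^ a)ᴴ * (P : Mt N) ^ a) * (Q : Mt N) * ((P : Mt N) ^ a)ᴴ := by
        rw [← h1]; simp only [Matrix.mul_assoc]
    _ = _ := by rw [ct_pw, Matrix.one_mul]

lemma orth {k : ℕ} (hN : 2 ≤ N) (hk : Nat.Coprime k N) {P Q : SU N} (h : PQ k P Q)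
    (a b a' b' : Fin N) (hne : (a, b) ≠ (a', b')) :
    (((P : Mt N) ^ (a : ℕ) * (Q : Mt N) ^ (b : ℕ)) *
      ((P : Mt N) ^ (a' : ℕ) * (Q : Mt N) ^ (b' : ℕ))ᴴ).trace = 0 := by
  have hp := om_prim hN hk
  rw [conjTranspose_mul]
  by_cases hb : b = b'
  · subst hb
    have ha : a ≠ a' := fun h => hne (by rw [h])
    have e : (P : Mt N) ^ (a : ℕ) * (Q : Mt N) ^ (b : ℕ) *
        (((Q : Mt N) ^ (b : ℕ))ᴴ * ((P : Mt N) ^ (a' : ℕ))ᴴ) =
        (P : Mt N) ^ (a : ℕ) * ((P : Mt N) ^ (a' : ℕ))ᴴ := by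
      rw [Matrix.mul_assoc, ← Matrix.mul_assoc ((Q : Mt N) ^ (b : ℕ)), pw_ct, Matrix.one_mul]
    rw [e]
    refine tr0 Q _ (om N k ^ (a : ℕ)) (om N k ^ (a' : ℕ)) ?_ ?_
    · calc om N k ^ (a : ℕ) • ((Q : Mt N) * ((P : Mt N) ^ (a : ℕ) * ((P : Mt N) ^ (a' : ℕ))ᴴ))
          = (om N k ^ (a : ℕ) • ((Q : Mt N) * (P : Mt N) ^ (a : ℕ))) * ((P : Mt N) ^ (a' : ℕ))ᴴ := by
            rw [Matrix.smul_mul, Matrix.mul_assoc]
        _ = (P : Mt N) ^ (a : ℕ) * ((Q : Mt N) * ((P : Mt N) ^ (a' : ℕ))ᴴ) := by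
            rw [← PQ_pow' h, Matrix.mul_assoc]
        _ = _ := by rw [← PQ_ct' h, Matrix.mul_smul, Matrix.mul_assoc]
    · intro h1
      exact ha (Fin.ext (hp.pow_inj a.2 a'.2 h1))
  · refine tr0 P _ (om N k ^ (b' : ℕ)) (om N k ^ (b : ℕ)) ?_ ?_
    · have e1 : (P : Mt N) * (P : Mt N) ^ (a : ℕ) = (P : Mt N) ^ (a : ℕ) * (P : Mt N) :=
        (pow_mul_comm' _ _).symm
      have e2 : ((P : Mt N) ^ (a' : ℕ))ᴴ * (P : Mt N) = (P : Mt N) * ((P : Mt N) ^ (a' : ℕ))ᴴ := by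
        have h3 : (P ^ (a' : ℕ))⁻¹ * P = P * (P ^ (a' : ℕ))⁻¹ := by group
        exact congrArg (fun x : SU N => (x : Mt N)) h3
      calc om N k ^ (b' : ℕ) • ((P : Mt N) * ((P : Mt N) ^ (a : ℕ) * (Q : Mt N) ^ (b : ℕ) *
            (((Q : Mt N) ^ (b' : ℕ))ᴴ * ((P : Mt N) ^ (a' : ℕ))ᴴ)))
          = om N k ^ (b' : ℕ) • ((((P : Mt N) * (P : Mt N) ^ (a : ℕ)) * (Q : Mt N) ^ (b : ℕ)) *
            ((Q : Mt N) ^ (b' : ℕ))ᴴ * ((P : Mt N) ^ (a' : ℕ))ᴴ) := by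
            simp only [Matrix.mul_assoc]
        _ = om N k ^ (b' : ℕ) • (((P : Mt N) ^ (a : ℕ) * ((P : Mt N) * (Q : Mt N) ^ (b : ℕ))) *
            ((Q : Mt N) ^ (b' : ℕ))ᴴ * ((P : Mt N) ^ (a' : ℕ))ᴴ) := by
            rw [e1]; simp only [Matrix.mul_assoc]
        _ = om N k ^ (b : ℕ) • ((P : Mt N) ^ (a : ℕ) * (Q : Mt N) ^ (b : ℕ) *
            (om N k ^ (b' : ℕ) • ((P : Mt N) * ((Q : Mt N) ^ (b' : ℕ))ᴴ)) *
            ((P : Mt N) ^ (a' : ℕ))ᴴ) := by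
            rw [PQ_pow h]
            simp only [Matrix.mul_smul, Matrix.smul_mul, Matrix.mul_assoc, smul_smul]
            rw [mul_comm]
        _ = om N k ^ (b : ℕ) • ((P : Mt N) ^ (a : ℕ) * (Q : Mt N) ^ (b : ℕ) *
            ((Q : Mt N) ^ (b' : ℕ))ᴴ * (((P : Mt N) ^ (a' : ℕ))ᴴ * (P : Mt N))) := by
            rw [PQ_ct h, e2]; simp only [Matrix.mul_assoc]
        _ = _ := by simp only [Matrix.mul_assoc]
    · intro h1
      exact hb (Fin.ext (hp.pow_inj b'.2 b.2 h1)).symm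

lemma orth1 (P Q : SU N) (a b : ℕ) :
    (((P : Mt N) ^ a * (Q : Mt N) ^ b) * ((P : Mt N) ^ a * (Q : Mt N) ^ b)ᴴ).trace = N := by
  have h : ((P : Mt N) ^ a * (Q : Mt N) ^ b) * ((P : Mt N) ^ a * (Q : Mt N) ^ b)ᴴ = 1 :=
    mul_ct (P ^ a * Q ^ b)
  rw [h]; simp

/-- `P^a Q^b` -/
def bs (P Q : SU N) (i : Fin N × Fin N) : Mt N := (P : Mt N) ^ (i.1 : ℕ) * (Q : Mt N) ^ (i.2 : ℕ)

lemma tr_sum {k : ℕ} (hN : 2 ≤ N) (hk : Nat.Coprime k N) {P Q : SU N} (h : PQ k P Q)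
    (c : Fin N × Fin N → ℂ) (j : Fin N × Fin N) :
    ((∑ i, c i • bs P Q i) * (bs P Q j)ᴴ).trace = N * c j := by
  rw [Finset.sum_mul, Matrix.trace_sum, Finset.sum_eq_single j]
  · rw [Matrix.smul_mul, Matrix.trace_smul]
    have := orth1 P Q (j.1 : ℕ) (j.2 : ℕ)
    unfold bs
    rw [this, smul_eq_mul, mul_comm]
  · intro i _ hij
    rw [Matrix.smul_mul, Matrix.trace_smul]
    have := orth hN hk h i.1 i.2 j.1 j.2 (fun h => hij (by
      rw [Prod.mk.injEq] at h; exact Prod.ext h.1 h.2))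
    unfold bs
    rw [this, smul_zero]
  · intro h; exact absurd (Finset.mem_univ j) h

lemma span_top {k : ℕ} (hN : 2 ≤ N) (hk : Nat.Coprime k N) {P Q : SU N} (h : PQ k P Q) (M : Mt N) :
    ∃ c : Fin N × Fin N → ℂ, ∑ i, c i • bs P Q i = M := by
  have hN0 : (N : ℂ) ≠ 0 := by exact_mod_cast (by omega : N ≠ 0)
  have hli : LinearIndependent ℂ (bs P Q) := by
    rw [Fintype.linearIndependent_iff]
    intro c hc j
    have h1 := tr_sum hN hk h c j
    rw [hc, Matrix.zero_mul, Matrix.trace_zero] at h1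
    rcases mul_eq_zero.mp h1.symm with h2 | h2
    · exact absurd h2 hN0
    · exact h2
  have : Nonempty (Fin N × Fin N) := ⟨(⟨0, by omega⟩, ⟨0, by omega⟩)⟩
  have hs := hli.span_eq_top_of_card_eq_finrank' (by
    rw [Module.finrank_matrix]; simp)
  have hM : M ∈ Submodule.span ℂ (Set.range (bs P Q)) := by rw [hs]; trivial
  exact (Submodule.mem_span_range_iff_exists_fun ℂ).mp hM

theorem E1_proof : S_E1 := by
  intro N k L _ hN hk P Q h y M
  have hN0 : (N : ℂ) ≠ 0 := by exact_mod_cast (by omega : N ≠ 0)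
  unfold fr
  rw [hol_vac_L0, hol_vac_L1]
  obtain ⟨c, hc⟩ := span_top hN hk h M
  have h1 : ∀ a b : Fin N, (M * ((P : Mt N) ^ (a : ℕ) * (Q : Mt N) ^ (b : ℕ))ᴴ).trace = N * c (a, b) := by
    intro a b
    rw [← hc]
    exact tr_sum hN hk h c (a, b)
  simp only [h1]
  rw [Finset.smul_sum]
  simp only [Finset.smul_sum, smul_smul]
  have h2 : ∀ a b : Fin N, 1 / (N : ℂ) * (N * c (a, b)) = c (a, b) := by
    intro a b; field_simp
  simp only [h2]
  rw [← hc, Fintype.sum_prod_type]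
  rfl

/-! ### E4 : the projection -/

lemma pr_trace (hN : 2 ≤ N) (M : Mt N) : (pr M).trace = 0 := by
  have hN0 : (N : ℂ) ≠ 0 := by exact_mod_cast (by omega : N ≠ 0)
  unfold pr
  rw [Matrix.trace_sub, Matrix.trace_smul, Matrix.trace_smul, Matrix.trace_one, Fintype.card_fin,
    smul_eq_mul, smul_eq_mul]
  field_simp
  ring

lemma pr_ct (M : Mt N) : (pr M)ᴴ = - pr M := by
  unfold pr
  have h1 : star ((1 / 2 : ℂ) * (M - Mᴴ).trace / N) = - ((1 / 2 : ℂ) * (M - Mᴴ).trace / N) := by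
    rw [Matrix.trace_sub, Matrix.trace_conjTranspose]
    simp only [star_div₀, star_mul', star_sub, star_star, star_natCast]
    have h2 : star (1 / 2 : ℂ) = 1 / 2 := by
      simp
    rw [star_one, star_ofNat]
    ring
  rw [conjTranspose_sub, conjTranspose_smul, conjTranspose_smul, h1, conjTranspose_sub,
    conjTranspose_conjTranspose, conjTranspose_one]
  have h2 : star (1 / 2 : ℂ) = 1 / 2 := by simp
  rw [h2]
  rw [neg_smul, smul_sub, smul_sub]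
  abel

lemma pr_mem (hN : 2 ≤ N) (M : Mt N) : pr M ∈ su N := ⟨pr_ct M, pr_trace hN M⟩

lemma pr_su (M : Mt N) (h : M ∈ su N) : pr M = M := by
  unfold pr
  rw [h.1, sub_neg_eq_add, Matrix.trace_add, h.2, add_zero, mul_zero, zero_div, zero_smul, sub_zero,
    ← two_smul ℂ M, smul_smul]
  norm_num

lemma adj_ct (g : SU N) (M : Mt N) : (Adj g M)ᴴ = Adj g Mᴴ := by
  unfold Adj
  rw [coe_inv, conjTranspose_mul, conjTranspose_mul, conjTranspose_conjTranspose, Matrix.mul_assoc]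

lemma adj_trace (g : SU N) (M : Mt N) : (Adj g M).trace = M.trace := by
  unfold Adj
  rw [coe_inv, Matrix.trace_mul_comm, ← Matrix.mul_assoc, ct_mul, Matrix.one_mul]

lemma adj_sub (g : SU N) (M M' : Mt N) : Adj g (M - M') = Adj g M - Adj g M' := by
  unfold Adj
  rw [Matrix.mul_sub, Matrix.sub_mul]

lemma adj_smul (g : SU N) (c : ℂ) (M : Mt N) : Adj g (c • M) = c • Adj g M := by
  unfold Adj
  rw [Matrix.mul_smul, Matrix.smul_mul]

lemma adj_one (g : SU N) : Adj g (1 : Mt N) = 1 := by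
  unfold Adj
  rw [Matrix.mul_one, coe_inv, mul_ct]

lemma pr_adj (g : SU N) (M : Mt N) : pr (Adj g M) = Adj g (pr M) := by
  unfold pr
  rw [adj_ct, ← adj_sub, adj_trace, adj_sub g (_ • _), adj_smul, adj_smul, adj_one]

/-- subtracting the trace part does not increase the norm -/
lemma norm_sub_tr (M : Mt N) : ‖M - (M.trace / N) • (1 : Mt N)‖ ≤ ‖M‖ := by
  rcases Nat.eq_zero_or_pos N with h0 | hN
  · subst h0
    simp
  have hN0 : (N : ℂ) ≠ 0 := by exact_mod_cast hN.ne'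
  have hN1 : (N : ℝ) ≠ 0 := by exact_mod_cast hN.ne'
  apply le_of_sq_le_sq _ (norm_nonneg _)
  have h1 : ((‖M - (M.trace / N) • (1 : Mt N)‖ ^ 2 : ℝ) : ℂ) =
      ((‖M‖ ^ 2 - ‖M.trace‖ ^ 2 / N : ℝ) : ℂ) := by
    rw [nsq_tr, conjTranspose_sub, conjTranspose_smul, conjTranspose_one, Matrix.sub_mul,
      Matrix.mul_sub, Matrix.mul_sub, Matrix.smul_mul, Matrix.mul_smul, Matrix.mul_one,
      Matrix.one_mul, Matrix.smul_mul, Matrix.one_mul]
    rw [Matrix.trace_sub, Matrix.trace_sub, Matrix.trace_sub, Matrix.trace_smul, Matrix.trace_smul,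
      Matrix.trace_smul, Matrix.trace_smul, Matrix.trace_one, Matrix.trace_conjTranspose, ← nsq_tr]
    push_cast
    have h2 : ((‖M.trace‖ : ℂ)) ^ 2 = M.trace * star M.trace := (Complex.mul_conj' _).symm
    rw [h2]
    simp only [smul_eq_mul, star_div₀, star_natCast, Fintype.card_fin]
    field_simp
    ring
  have h3 : ‖M - (M.trace / N) • (1 : Mt N)‖ ^ 2 = ‖M‖ ^ 2 - ‖M.trace‖ ^ 2 / N := by
    exact_mod_cast h1
  rw [h3]
  have : 0 ≤ ‖M.trace‖ ^ 2 / N := by positivity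
  linarith

lemma norm_pr (M : Mt N) : ‖pr M‖ ≤ ‖M‖ := by
  have h1 : pr M = (1 / 2 : ℂ) • (M - Mᴴ) - (((1 / 2 : ℂ) • (M - Mᴴ)).trace / N) • (1 : Mt N) := by
    unfold pr
    rw [Matrix.trace_smul, smul_eq_mul]
  rw [h1]
  refine (norm_sub_tr _).trans ?_
  rw [norm_smul]
  have h2 : ‖M - Mᴴ‖ ≤ ‖M‖ + ‖M‖ := (norm_sub_le _ _).trans (by rw [norm_ct])
  have h3 : ‖(1 / 2 : ℂ)‖ = 1 / 2 := by norm_num
  rw [h3]
  linarith

/-! ### E4 : the trace of `g - 1` -/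

lemma prod_lin (R : ℝ) (hR : 0 ≤ R) (s : Finset (Fin N)) : ∃ K : ℝ, 0 ≤ K ∧
    ∀ (a : Fin N → ℂ) (m : ℝ), 0 ≤ m → m ≤ R → (∀ i, ‖a i‖ ≤ m) →
      ‖∏ i ∈ s, (1 + a i) - 1 - ∑ i ∈ s, a i‖ ≤ K * m ^ 2 := by
  classical
  induction s using Finset.induction_on with
  | empty => exact ⟨0, le_rfl, fun a m _ _ _ => by simp⟩
  | insert x s hx ih =>
    obtain ⟨K, hK, h⟩ := ih
    refine ⟨s.card + (1 + R) * K, by positivity, fun a m hm hmR ha => ?_⟩
    rw [Finset.prod_insert hx, Finset.sum_insert hx]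
    have h1 : (1 + a x) * ∏ i ∈ s, (1 + a i) - 1 - (a x + ∑ i ∈ s, a i) =
        a x * ∑ i ∈ s, a i + (1 + a x) * (∏ i ∈ s, (1 + a i) - 1 - ∑ i ∈ s, a i) := by ring
    rw [h1]
    have h2 : ‖∑ i ∈ s, a i‖ ≤ s.card * m := by
      refine (norm_sum_le_of_le s fun i _ => ha i).trans (le_of_eq ?_)
      simp
    have h3 : ‖1 + a x‖ ≤ 1 + R := by
      refine (norm_add_le _ _).trans ?_
      have := ha x
      rw [norm_one]
      linarith
    calc _ ≤ ‖a x * ∑ i ∈ s, a i‖ + ‖(1 + a x) * (∏ i ∈ s, (1 + a i) - 1 - ∑ i ∈ s, a i)‖ :=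
          norm_add_le _ _
      _ ≤ m * (s.card * m) + (1 + R) * (K * m ^ 2) := by
          rw [norm_mul, norm_mul]
          exact add_le_add (mul_le_mul (ha x) h2 (norm_nonneg _) hm)
            (mul_le_mul h3 (h a m hm hmR ha) (norm_nonneg _) (by positivity))
      _ = _ := by ring

lemma perm_term (R : ℝ) (X : Mt N) (hX : ‖X‖ ≤ R) (σ : Equiv.Perm (Fin N)) (hσ : σ ≠ 1) :
    ‖∏ i, (1 + X) (σ i) i‖ ≤ (1 + R) ^ N * ‖X‖ ^ 2 := by
  have hR : 0 ≤ R := (norm_nonneg _).trans hX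
  obtain ⟨i, hi⟩ : ∃ i, σ i ≠ i := by
    by_contra hc
    push Not at hc
    exact hσ (Equiv.ext hc)
  have hi' : σ (σ i) ≠ σ i := fun h => hi (σ.injective h)
  have hb : ∀ j, ‖(1 + X) (σ j) j‖ ≤ 1 + R := by
    intro j
    rw [Matrix.add_apply]
    refine (norm_add_le _ _).trans ?_
    have h1 : ‖(1 : Mt N) (σ j) j‖ ≤ 1 := by
      rw [Matrix.one_apply]; split_ifs <;> simp
    have h2 := (norm_entry X (σ j) j).trans hX
    linarith
  have hm : ∀ j, σ j ≠ j → ‖(1 + X) (σ j) j‖ ≤ ‖X‖ := by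
    intro j hj
    rw [Matrix.add_apply, Matrix.one_apply_ne hj, zero_add]
    exact norm_entry X _ _
  rw [norm_prod, ← Finset.mul_prod_erase _ _ (Finset.mem_univ i),
    ← Finset.mul_prod_erase _ _ (Finset.mem_erase.mpr ⟨hi, Finset.mem_univ (σ i)⟩)]
  have h3 : ∏ j ∈ (Finset.univ.erase i).erase (σ i), ‖(1 + X) (σ j) j‖ ≤ (1 + R) ^ N := by
    calc _ ≤ ∏ j ∈ (Finset.univ.erase i).erase (σ i), (1 + R) :=
          Finset.prod_le_prod (fun _ _ => norm_nonneg _) fun j _ => hb j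
      _ = (1 + R) ^ ((Finset.univ.erase i).erase (σ i)).card := by rw [Finset.prod_const]
      _ ≤ (1 + R) ^ N := by
          refine pow_le_pow_right₀ (by linarith) ?_
          refine (Finset.card_le_univ _).trans ?_
          simp
  have h4 : 0 ≤ ∏ j ∈ (Finset.univ.erase i).erase (σ i), ‖(1 + X) (σ j) j‖ :=
    Finset.prod_nonneg fun _ _ => norm_nonneg _
  calc _ ≤ ‖X‖ * (‖X‖ * (1 + R) ^ N) := by
        refine mul_le_mul (hm i hi) ?_ (by positivity) (norm_nonneg _)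
        exact mul_le_mul (hm _ hi') h3 h4 (norm_nonneg _)
    _ = _ := by ring

lemma det_lin (R : ℝ) (hR : 0 ≤ R) : ∃ K : ℝ, 0 ≤ K ∧ ∀ X : Mt N, ‖X‖ ≤ R →
    ‖(1 + X).det - 1 - X.trace‖ ≤ K * ‖X‖ ^ 2 := by
  classical
  obtain ⟨K, hK, h⟩ := prod_lin (N := N) R hR Finset.univ
  refine ⟨K + (Finset.univ.erase (1 : Equiv.Perm (Fin N))).card * (1 + R) ^ N, by positivity,
    fun X hX => ?_⟩
  rw [Matrix.det_apply', ← Finset.add_sum_erase _ _ (Finset.mem_univ (1 : Equiv.Perm (Fin N)))]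
  have h1 : ‖∏ i, (1 + X i i) - 1 - ∑ i, X i i‖ ≤ K * ‖X‖ ^ 2 :=
    h (fun i => X i i) ‖X‖ (norm_nonneg _) hX (fun i => norm_entry X i i)
  have h2 : ‖∑ σ ∈ Finset.univ.erase (1 : Equiv.Perm (Fin N)),
      ((Equiv.Perm.sign σ : ℤ) : ℂ) * ∏ i, (1 + X) (σ i) i‖ ≤
      (Finset.univ.erase (1 : Equiv.Perm (Fin N))).card * ((1 + R) ^ N * ‖X‖ ^ 2) := by
    refine (norm_sum_le_of_le (n := fun _ => (1 + R) ^ N * ‖X‖ ^ 2) _ fun σ hσ => ?_).trans
      (le_of_eq ?_)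
    · rw [norm_mul]
      have h3 : ‖((Equiv.Perm.sign σ : ℤ) : ℂ)‖ = 1 := by
        rcases Int.units_eq_one_or (Equiv.Perm.sign σ) with h | h <;> rw [h] <;> simp
      rw [h3, one_mul]
      exact perm_term R X hX σ (Finset.ne_of_mem_erase hσ)
    · rw [Finset.sum_const, nsmul_eq_mul]
  have h4 : ((Equiv.Perm.sign (1 : Equiv.Perm (Fin N)) : ℤ) : ℂ) *
      ∏ i, (1 + X) ((1 : Equiv.Perm (Fin N)) i) i = ∏ i, (1 + X i i) := by
    simp [Matrix.add_apply]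
  rw [h4]
  have h5 : X.trace = ∑ i, X i i := rfl
  rw [h5]
  calc _ = ‖(∏ i, (1 + X i i) - 1 - ∑ i, X i i) + ∑ σ ∈ Finset.univ.erase (1 : Equiv.Perm (Fin N)),
      ((Equiv.Perm.sign σ : ℤ) : ℂ) * ∏ i, (1 + X) (σ i) i‖ := by congr 1; ring
    _ ≤ _ := (norm_add_le _ _).trans (add_le_add h1 h2)
    _ = _ := by ring

lemma det_su (g : SU N) : (g : Mt N).det = 1 := (Matrix.mem_specialUnitaryGroup_iff.mp g.2).2

lemma su_sub_pr (hN : 2 ≤ N) : ∃ C : ℝ, 0 < C ∧ ∀ g : SU N,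
    ‖((g : Mt N) - 1) - pr ((g : Mt N) - 1)‖ ≤ C * ‖(g : Mt N) - 1‖ ^ 2 := by
  obtain ⟨K, hK, h⟩ := det_lin (N := N) (2 * Real.sqrt N) (by positivity)
  have hNr : (0 : ℝ) < N := by positivity
  refine ⟨1 / 2 + K / N * Real.sqrt N, by positivity, fun g => ?_⟩
  set X : Mt N := (g : Mt N) - 1 with hXdef
  have hg : (g : Mt N) = 1 + X := by rw [hXdef]; abel
  have hXn : ‖X‖ ≤ 2 * Real.sqrt N := by
    refine (norm_sub_le _ _).trans ?_
    rw [norm_su, norm_one_mt]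
    linarith
  have h1 : ‖X.trace‖ ≤ K * ‖X‖ ^ 2 := by
    have h2 := h X hXn
    rw [← hg, det_su, sub_self, zero_sub, norm_neg] at h2
    exact h2
  have h3 : X + Xᴴ = - (X * Xᴴ) := by
    have h4 := mul_ct g
    rw [hg, conjTranspose_add, conjTranspose_one] at h4
    have h5 : X + Xᴴ + X * Xᴴ = 0 := by
      have h7 : X + Xᴴ + X * Xᴴ = (1 + X) * (1 + Xᴴ) - 1 := by noncomm_ring
      rw [h7, h4, sub_self]
    exact eq_neg_of_add_eq_zero_left h5
  have h4 : X - pr X = (1 / 2 : ℂ) • (X + Xᴴ) + ((1 / 2 : ℂ) * (X - Xᴴ).trace / N) • (1 : Mt N) := by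
    unfold pr
    have h5 : X = (1 / 2 : ℂ) • X + (1 / 2 : ℂ) • X := by
      rw [← add_smul]; norm_num
    rw [smul_sub, smul_add]
    nth_rewrite 1 [h5]
    abel
  rw [h4]
  have h5 : ‖(1 / 2 : ℂ) • (X + Xᴴ)‖ ≤ 1 / 2 * ‖X‖ ^ 2 := by
    rw [norm_smul, h3, norm_neg]
    have h6 : ‖(1 / 2 : ℂ)‖ = 1 / 2 := by norm_num
    rw [h6]
    refine mul_le_mul_of_nonneg_left ?_ (by norm_num)
    refine (norm_mul_le _ _).trans ?_
    rw [norm_ct, sq]
  have h6 : ‖((1 / 2 : ℂ) * (X - Xᴴ).trace / N) • (1 : Mt N)‖ ≤ K * ‖X‖ ^ 2 / N * Real.sqrt N := by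
    rw [norm_smul, norm_one_mt]
    refine mul_le_mul_of_nonneg_right ?_ (Real.sqrt_nonneg _)
    rw [norm_div, norm_mul, Matrix.trace_sub, Matrix.trace_conjTranspose, Complex.norm_natCast]
    have h6 : ‖(1 / 2 : ℂ)‖ = 1 / 2 := by norm_num
    rw [h6]
    refine div_le_div_of_nonneg_right ?_ hNr.le
    have h7 : ‖X.trace - star X.trace‖ ≤ ‖X.trace‖ + ‖X.trace‖ :=
      (norm_sub_le _ _).trans (by rw [norm_star])
    linarith
  refine (norm_add_le _ _).trans ((add_le_add h5 h6).trans (le_of_eq ?_))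
  ring

/-! ### E4 : the exponential -/

lemma exp_unit {A : Mt N} (hA : Aᴴ = -A) : NormedSpace.exp A * (NormedSpace.exp A)ᴴ = 1 := by
  have hc : Commute A (-A) := (Commute.refl A).neg_right
  rw [← Matrix.exp_conjTranspose, hA, ← Matrix.exp_add_of_commute _ _ hc,
    add_neg_cancel, NormedSpace.exp_zero]

lemma exp_det {A : Mt N} (hA : Aᴴ = -A) (ht : A.trace = 0) : (NormedSpace.exp A).det = 1 := by
  set H : Mt N := (-Complex.I) • A with hH
  have hH1 : H.IsHermitian := by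
    show ((-Complex.I) • A)ᴴ = (-Complex.I) • A
    rw [conjTranspose_smul, hA]
    simp
  have hA1 : A = Complex.I • H := by
    rw [hH, smul_smul]; simp
  set U : Mt N := (hH1.eigenvectorUnitary : Mt N) with hU
  have hUU : U * Uᴴ = 1 := by
    have := Unitary.coe_mul_star_self hH1.eigenvectorUnitary
    exact this
  have hUU' : Uᴴ * U = 1 := by
    have := Unitary.coe_star_mul_self hH1.eigenvectorUnitary
    exact this
  have hsp : H = U * diagonal (fun i => (hH1.eigenvalues i : ℂ)) * Uᴴ := by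
    conv_lhs => rw [hH1.spectral_theorem, Unitary.conjStarAlgAut_apply]
    rfl
  have hA2 : A = U * diagonal (fun i => Complex.I * (hH1.eigenvalues i : ℂ)) * Uᴴ := by
    rw [hA1]
    conv_lhs => rw [hsp]
    rw [← Matrix.smul_mul, ← Matrix.mul_smul, ← Matrix.diagonal_smul]
    rfl
  let u : (Mt N)ˣ := ⟨U, Uᴴ, hUU, hUU'⟩
  have h1 : NormedSpace.exp A = U * NormedSpace.exp (diagonal (fun i => Complex.I * (hH1.eigenvalues i : ℂ)))
      * Uᴴ := by
    conv_lhs => rw [hA2]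
    exact Matrix.exp_units_conj u _
  rw [h1, Matrix.exp_diagonal, Matrix.det_mul, Matrix.det_mul, Matrix.det_diagonal]
  have h2 : U.det * Uᴴ.det = 1 := by rw [← Matrix.det_mul, hUU, Matrix.det_one]
  have h3 : ∏ i, NormedSpace.exp (fun i => Complex.I * (hH1.eigenvalues i : ℂ)) i = 1 := by
    have h4 : ∀ i, NormedSpace.exp (fun i => Complex.I * (hH1.eigenvalues i : ℂ)) i =
        Complex.exp (Complex.I * (hH1.eigenvalues i : ℂ)) := by
      intro i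
      rw [Pi.coe_exp, Complex.exp_eq_exp_ℂ]
    simp only [h4]
    rw [← Complex.exp_sum, ← Finset.mul_sum]
    have h5 : ∑ i, (hH1.eigenvalues i : ℂ) = 0 := by
      have h6 := hH1.trace_eq_sum_eigenvalues
      have h7 : H.trace = 0 := by rw [hH, Matrix.trace_smul, ht, smul_zero]
      rw [h7] at h6
      exact h6.symm
    rw [h5, mul_zero, Complex.exp_zero]
  rw [h3, mul_one, h2]

/-- the exponential of the projection -/
def EE (hN : 2 ≤ N) (M : Mt N) : SU N :=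
  ⟨NormedSpace.exp (pr M), Matrix.mem_specialUnitaryGroup_iff.mpr
    ⟨Matrix.mem_unitaryGroup_iff.mpr (exp_unit (pr_ct M)), exp_det (pr_ct M) (pr_trace hN M)⟩⟩

lemma cont_pr : Continuous (pr : Mt N → Mt N) := by
  unfold pr
  have h1 : Continuous fun M : Mt N => M - Mᴴ := continuous_id.sub continuous_id.matrix_conjTranspose
  have h2 : Continuous fun M : Mt N => (1 / 2 : ℂ) * (M - Mᴴ).trace / N :=
    (continuous_const.mul h1.matrix_trace).div_const _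
  exact (h1.const_smul (1 / 2 : ℂ)).sub (h2.smul continuous_const)

lemma cont_EE (hN : 2 ≤ N) : Continuous (EE hN) := by
  refine Continuous.subtype_mk ?_ _
  exact NormedSpace.exp_continuous.comp cont_pr

lemma exp_sub (A : Mt N) : ‖NormedSpace.exp A - 1 - A‖ ≤ ‖A‖ ^ 2 * Real.exp ‖A‖ := by
  have h1 := NormedSpace.exp_series_hasSum_exp' (𝕂 := ℂ) A
  have h2 := (hasSum_nat_add_iff' 2).mpr h1
  have h3 : ∑ i ∈ Finset.range 2, ((i.factorial : ℂ)⁻¹) • A ^ i = 1 + A := by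
    rw [Finset.sum_range_succ, Finset.sum_range_one]
    simp
  rw [h3] at h2
  have h4 : HasSum (fun n : ℕ => ‖A‖ ^ 2 * (‖A‖ ^ n / n.factorial)) (‖A‖ ^ 2 * Real.exp ‖A‖) := by
    have h5 := NormedSpace.expSeries_div_hasSum_exp (𝔸 := ℝ) ‖A‖
    rw [← Real.exp_eq_exp_ℝ] at h5
    exact h5.mul_left _
  have h6 : NormedSpace.exp A - 1 - A = NormedSpace.exp A - (1 + A) := by abel
  rw [h6]
  refine h2.norm_le_of_bounded h4 fun n => ?_
  rw [norm_smul, norm_inv, Complex.norm_natCast]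
  have h7 : ‖A ^ (n + 2)‖ ≤ ‖A‖ ^ (n + 2) := norm_pow_le' A (by omega)
  have h8 : ((n.factorial : ℕ) : ℝ) ≤ ((n + 2).factorial : ℕ) := by
    exact_mod_cast Nat.factorial_le (by omega)
  have h9 : (0 : ℝ) < (n.factorial : ℕ) := by exact_mod_cast Nat.factorial_pos n
  calc (((n + 2).factorial : ℕ) : ℝ)⁻¹ * ‖A ^ (n + 2)‖ ≤ ((n.factorial : ℕ) : ℝ)⁻¹ * ‖A‖ ^ (n + 2) := by
        refine mul_le_mul ?_ h7 (norm_nonneg _) (by positivity)
        exact inv_anti₀ h9 h8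
    _ = _ := by rw [pow_add]; ring

lemma EE_bound (hN : 2 ≤ N) : ∃ C : ℝ, 0 < C ∧
    ∀ M : Mt N, ‖(EE hN M : Mt N) - 1 - pr M‖ ≤ C * ‖M‖ ^ 2 := by
  have hs := Real.sqrt_nonneg (N : ℝ)
  refine ⟨Real.exp 1 + (2 * Real.sqrt N + 1), by positivity, fun M => ?_⟩
  have hE : (EE hN M : Mt N) = NormedSpace.exp (pr M) := rfl
  have hp := norm_pr M
  rcases le_or_gt ‖M‖ 1 with h1 | h1
  · have h2 := exp_sub (pr M)
    have h3 : Real.exp ‖pr M‖ ≤ Real.exp 1 := Real.exp_le_exp.mpr (hp.trans h1)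
    rw [hE]
    have h4 : ‖pr M‖ ^ 2 ≤ ‖M‖ ^ 2 := pow_le_pow_left₀ (norm_nonneg _) hp 2
    calc _ ≤ ‖pr M‖ ^ 2 * Real.exp ‖pr M‖ := h2
      _ ≤ ‖M‖ ^ 2 * Real.exp 1 := mul_le_mul h4 h3 (by positivity) (by positivity)
      _ ≤ _ := by
        have : 0 ≤ (2 * Real.sqrt N + 1) * ‖M‖ ^ 2 := by positivity
        linarith
  · have h2 : ‖(EE hN M : Mt N) - 1 - pr M‖ ≤ Real.sqrt N + Real.sqrt N + ‖M‖ := by
      refine (norm_sub_le _ _).trans (add_le_add ((norm_sub_le _ _).trans ?_) hp)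
      rw [norm_su, norm_one_mt]
    have h3 : 1 ≤ ‖M‖ ^ 2 := by nlinarith
    have h4 : ‖M‖ ≤ ‖M‖ ^ 2 := by nlinarith
    have h5 : 0 ≤ Real.exp 1 * ‖M‖ ^ 2 := by positivity
    have h6 : 2 * Real.sqrt N * 1 ≤ 2 * Real.sqrt N * ‖M‖ ^ 2 :=
      mul_le_mul_of_nonneg_left h3 (by positivity)
    calc _ ≤ _ := h2
      _ ≤ _ := by linarith

lemma EE_zero (hN : 2 ≤ N) : EE hN 0 = 1 := by
  apply Subtype.ext
  show NormedSpace.exp (pr (0 : Mt N)) = 1
  have h : pr (0 : Mt N) = 0 := by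
    apply pr_su
    exact ⟨by simp, by simp⟩
  rw [h, NormedSpace.exp_zero]

lemma EE_adj (hN : 2 ≤ N) (g : SU N) (M : Mt N) : EE hN (Adj g M) = g * EE hN M * g⁻¹ := by
  apply Subtype.ext
  show NormedSpace.exp (pr (Adj g M)) = (g : Mt N) * NormedSpace.exp (pr M) * (g : Mt N)ᴴ
  rw [pr_adj]
  let u : (Mt N)ˣ := ⟨(g : Mt N), (g : Mt N)ᴴ, mul_ct g, ct_mul g⟩
  exact Matrix.exp_units_conj u (pr M)

theorem E4_proof : S_E4 := by
  intro N hN
  refine ⟨pr_mem hN, fun M h => pr_su M h, pr_adj, norm_pr, norm_adj, su_sub_pr hN, ?_⟩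
  obtain ⟨C, hC, h⟩ := EE_bound hN
  exact ⟨EE hN, C, hC, cont_EE hN, EE_zero hN, EE_adj hN, h⟩

end PkgE

theorem pE1 : S_E1 := PkgE.E1_proof

theorem pE2 : S_E2 := PkgE.E2_proof

theorem pE3 : S_E3 := PkgE.E3_proof

theorem pE4 : S_E4 := PkgE.E4_proof

end T2H02.TT
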