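import Pool.Agent.T2H02.TT.Stm2

/-!
# Package G1: a competitor configuration

Outside `Λ` the torus links are moved near the vacuum by a gauge transformation `g` (D1), `g = 1` on
`Λ`. The competitor is, up to the gauge transformation, the vacuum on the links touching `Λ`.
-/

set_option autoImplicit false
set_option linter.unusedSectionVars false

noncomputable section

open MeasureTheory Matrix
open scoped Matrix.Norms.Frobenius

namespace T2H02.TT

namespace PkgG1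

variable {N L : ℕ} [NeZero L]

/-! ### norms -/

lemma su1 (g : SU N) : (g : Mt N)ᴴ * (g : Mt N) = 1 := by
  have := Matrix.mem_unitaryGroup_iff'.1 (Matrix.specialUnitaryGroup_le_unitaryGroup g.2)
  rwa [star_eq_conjTranspose] at this

lemma su2 (g : SU N) : (g : Mt N) * (g : Mt N)ᴴ = 1 := by
  have := Matrix.mem_unitaryGroup_iff.1 (Matrix.specialUnitaryGroup_le_unitaryGroup g.2)
  rwa [star_eq_conjTranspose] at this

lemma fr_sq (A : Mt N) : ‖A‖ ^ 2 = (trace (Aᴴ * A)).re := by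
  rw [Matrix.frobenius_norm_def, ← Real.sqrt_eq_rpow, Real.sq_sqrt (by positivity)]
  simp only [trace, diag_apply, Matrix.mul_apply, conjTranspose_apply]
  rw [Complex.re_sum, Finset.sum_comm]
  refine Finset.sum_congr rfl fun i _ => ?_
  rw [Complex.re_sum]
  refine Finset.sum_congr rfl fun j _ => ?_
  have h : (star (A j i) * A j i) = ((‖A j i‖ ^ 2 : ℝ) : ℂ) := by
    rw [← Complex.normSq_eq_norm_sq, Complex.star_def, mul_comm, Complex.mul_conj]
  rw [h, Complex.ofReal_re]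
  norm_num

lemma nr (g : SU N) (A : Mt N) : ‖A * (g : Mt N)‖ = ‖A‖ := by
  have h : ‖A * (g : Mt N)‖ ^ 2 = ‖A‖ ^ 2 := by
    rw [fr_sq, fr_sq, conjTranspose_mul, trace_mul_comm, Matrix.mul_assoc,
      ← Matrix.mul_assoc (g : Mt N), su2, Matrix.one_mul, trace_mul_comm]
  exact (sq_eq_sq₀ (norm_nonneg _) (norm_nonneg _)).1 h

lemma om_norm (N m : ℕ) : ‖om N m‖ = 1 := by
  have h : om N m = Complex.exp (((2 * Real.pi * m / N : ℝ) : ℂ) * Complex.I) := by
    rw [om]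
    congr 1
    push_cast
    ring
  rw [h, Complex.norm_exp_ofReal_mul_I]

lemma om_add (N a b : ℕ) : om N (a + b) = om N a * om N b := by
  unfold om
  rw [← Complex.exp_add]
  congr 1
  push_cast
  ring

lemma om_zero (N : ℕ) : om N 0 = 1 := by
  unfold om
  simp

lemma om_mul_self {N : ℕ} (hN : N ≠ 0) (q : ℕ) : om N (N * q) = 1 := by
  have h : (2 * (Real.pi : ℂ) * Complex.I * ((N * q : ℕ) : ℂ) / N) =
      q * (2 * Real.pi * Complex.I) := by
    have : (N : ℂ) ≠ 0 := Nat.cast_ne_zero.2 hN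
    push_cast
    field_simp
  unfold om
  rw [h, Complex.exp_nat_mul_two_pi_mul_I]

lemma om_mod {N : ℕ} (hN : N ≠ 0) (t : ℕ) : om N (t % N) = om N t := by
  conv_rhs => rw [← Nat.mod_add_div t N]
  rw [om_add, om_mul_self hN, mul_one]

lemma exists_om {N : ℕ} (hN : N ≠ 0) (a b c d : Fin N) :
    ∃ m : Fin N, om N a * om N b = om N m * (om N c * om N d) := by
  refine ⟨⟨((a : ℕ) + b + (N - c) + (N - d)) % N, Nat.mod_lt _ (Nat.pos_of_ne_zero hN)⟩, ?_⟩
  simp only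
  rw [om_mod hN, ← om_add, ← om_add, ← om_add]
  have hc := c.2
  have hd := d.2
  have : (a : ℕ) + b + (N - c) + (N - d) + (c + d) = a + b + N * 2 := by omega
  rw [this, om_add _ _ (N * 2), om_mul_self hN, mul_one]

lemma plaq_le (A B C D : SU N) (a b c d z : ℂ) (ha : ‖a‖ = 1) (hc : ‖c‖ = 1) (hz : ‖z‖ = 1)
    (h : a * b = z * (c * d)) :
    ‖(A : Mt N) * (B : Mt N) - z • ((C : Mt N) * (D : Mt N))‖ ^ 2 / 2 ≤
      2 * (‖(A : Mt N) - a • (1 : Mt N)‖ ^ 2 + ‖(B : Mt N) - b • (1 : Mt N)‖ ^ 2 +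
        ‖(C : Mt N) - c • (1 : Mt N)‖ ^ 2 + ‖(D : Mt N) - d • (1 : Mt N)‖ ^ 2) := by
  have e : (A : Mt N) * (B : Mt N) - z • ((C : Mt N) * (D : Mt N)) =
      ((A : Mt N) - a • (1 : Mt N)) * (B : Mt N) + a • ((B : Mt N) - b • (1 : Mt N)) -
        z • (((C : Mt N) - c • (1 : Mt N)) * (D : Mt N)) -
        (z * c) • ((D : Mt N) - d • (1 : Mt N)) := by
    simp only [sub_mul, smul_sub, smul_mul_assoc, one_mul, smul_smul]
    rw [h, show z * (c * d) = z * c * d by ring]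
    abel
  have h1 : ‖(A : Mt N) * (B : Mt N) - z • ((C : Mt N) * (D : Mt N))‖ ≤
      ‖(A : Mt N) - a • (1 : Mt N)‖ + ‖(B : Mt N) - b • (1 : Mt N)‖ +
        ‖(C : Mt N) - c • (1 : Mt N)‖ + ‖(D : Mt N) - d • (1 : Mt N)‖ := by
    rw [e]
    refine (norm_sub_le _ _).trans (add_le_add ((norm_sub_le _ _).trans (add_le_add
      ((norm_add_le _ _).trans (add_le_add ?_ ?_)) ?_)) ?_)
    · rw [nr]
    · rw [norm_smul, ha, one_mul]
    · rw [norm_smul, hz, one_mul, nr]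
    · rw [norm_smul, norm_mul, hz, hc, one_mul, one_mul]
  have h0 := norm_nonneg ((A : Mt N) * (B : Mt N) - z • ((C : Mt N) * (D : Mt N)))
  generalize ‖(A : Mt N) * (B : Mt N) - z • ((C : Mt N) * (D : Mt N))‖ = t at *
  generalize ‖(A : Mt N) - a • (1 : Mt N)‖ = p at *
  generalize ‖(B : Mt N) - b • (1 : Mt N)‖ = q at *
  generalize ‖(C : Mt N) - c • (1 : Mt N)‖ = r at *
  generalize ‖(D : Mt N) - d • (1 : Mt N)‖ = s at *
  have h2 : t ^ 2 ≤ (p + q + r + s) ^ 2 := pow_le_pow_left₀ h0 h1 2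
  nlinarith [sq_nonneg (p - q), sq_nonneg (p - r), sq_nonneg (p - s), sq_nonneg (q - r),
    sq_nonneg (q - s), sq_nonneg (r - s)]

/-! ### torus links -/

lemma eV_eq (k : ℕ) (X : Cf N L) (x : Pl) : eV k X x = VV k (pt X x) := by
  unfold eV VV df pt
  refine Finset.sum_congr rfl fun y _ => ?_
  rw [nx2, nx3]
  simp

lemma pt_gau (g : Pt L → SU N) (X : Cf N L) (x : Pl) :
    pt (gau g X) x = act (fun y => g (x, y)) (pt X x) := by
  funext y j
  unfold pt act gau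
  fin_cases j
  · simp [nx2]
  · simp [nx3]

lemma pt_vc (P Q : SU N) (x : Pl) : pt (vc P Q : Cf N L) x = vac P Q := by
  funext y j
  unfold pt vc
  fin_cases j <;> simp

lemma mem_Frl_torus (Λ : Finset Pl) (x : Pl) (y : Tor L) (i : Fin 4) (hi : i = 2 ∨ i = 3) :
    ((x, y), i) ∈ Frl L Λ ↔ x ∈ Λ := by
  rw [mem_Frl]
  have hp : pe i = 0 := by rcases hi with rfl | rfl <;> simp [pe, h00]
  constructor
  · rintro ⟨a, ha, haΛ⟩
    rw [mem_st, hp, add_zero, or_self] at ha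
    rw [ha] at haΛ
    exact haΛ
  · intro h
    exact ⟨x, (mem_st _ _).2 (Or.inl rfl), h⟩

lemma mem_Frl_plane (Λ : Finset Pl) (x : Pl) (y : Tor L) (i : Fin 4) :
    ((x, y), i) ∈ Frl L Λ ↔ (x ∈ Λ ∨ x + pe i ∈ Λ) := by
  rw [mem_Frl]
  constructor
  · rintro ⟨a, ha, haΛ⟩
    rw [mem_st] at ha
    rcases ha with rfl | rfl
    · exact Or.inl haΛ
    · exact Or.inr haΛ
  · rintro (h | h)
    · exact ⟨x, (mem_st _ _).2 (Or.inl rfl), h⟩
    · exact ⟨_, (mem_st _ _).2 (Or.inr rfl), h⟩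

lemma dst_nonneg (φ ψ : Ph N L) : 0 ≤ dst φ ψ :=
  Finset.sum_nonneg fun _ _ => Finset.sum_nonneg fun _ _ => by positivity

lemma dst_self (φ : Ph N L) : dst φ φ = 0 := by
  unfold dst
  simp

/-- a mixed term whose plane links are trivial -/
lemma eK_le (Y : Cf N L) (x : Pl) (m : Fin 4) (hm : m = 0 ∨ m = 1) (v : Ph N L)
    (h1 : ∀ y, Y ((x, y), m) = 1) :
    eK Y x m ≤ dst (pt Y x) v + dst (pt Y (x + pe m)) v := by
  have hnx : ∀ y : Tor L, nx (x, y) m = (x + pe m, y) := by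
    intro y
    rcases hm with rfl | rfl <;> simp [nx]
  have key : ∀ a b c : Mt N, ‖a - b‖ ^ 2 / 2 ≤ ‖b - c‖ ^ 2 + ‖a - c‖ ^ 2 := by
    intro a b c
    have h2 : ‖a - b‖ ≤ ‖b - c‖ + ‖a - c‖ := by
      have := norm_sub_le_norm_sub_add_norm_sub a c b
      rw [norm_sub_rev c b] at this
      linarith
    have h3 := norm_nonneg (a - b)
    have h4 : ‖a - b‖ ^ 2 ≤ (‖b - c‖ + ‖a - c‖) ^ 2 := pow_le_pow_left₀ h3 h2 2
    nlinarith [sq_nonneg (‖b - c‖ - ‖a - c‖)]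
  unfold eK dst
  rw [← Finset.sum_add_distrib]
  refine Finset.sum_le_sum fun y _ => ?_
  rw [Fin.sum_univ_two, Fin.sum_univ_two]
  unfold df
  rw [hnx, nx2, nx3, h1 y, h1 (tsh y 0), h1 (tsh y 1)]
  simp only [OneMemClass.coe_one, one_mul, mul_one, one_smul]
  have e0 := key (pt Y (x + pe m) y 0 : Mt N) (pt Y x y 0 : Mt N) (v y 0 : Mt N)
  have e1 := key (pt Y (x + pe m) y 1 : Mt N) (pt Y x y 1 : Mt N) (v y 1 : Mt N)
  simp only [pt, if_true, one_ne_zero, if_false] at e0 e1 ⊢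
  linarith

/-- the sum in J is twice the energy of the mixed term -/
lemma eK_J (X : Cf N L) (x : Pl) (m : Fin 4) (hm : m = 0 ∨ m = 1) :
    ∑ y, ∑ j, ‖(X ((x, y), m) : Mt N) * (pt X (x + pe m) y j : Mt N) -
      (pt X x y j : Mt N) * (X ((x, tsh y j), m) : Mt N)‖ ^ 2 = 2 * eK X x m := by
  have hnx : ∀ y : Tor L, nx (x, y) m = (x + pe m, y) := by
    intro y
    rcases hm with rfl | rfl <;> simp [nx]
  unfold eK
  rw [Finset.mul_sum]
  refine Finset.sum_congr rfl fun y _ => ?_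
  rw [Fin.sum_univ_two]
  unfold df
  rw [hnx, nx2, nx3]
  simp only [pt, if_true, one_ne_zero, if_false, one_smul]
  ring

/-- the kind of the mixed term of a plane link -/
def tk (m : Fin 4) : Fin 4 := if m = 0 then 1 else 2

lemma en_tk (k : ℕ) (X : Cf N L) (x : Pl) (m : Fin 4) (hm : m = 0 ∨ m = 1) :
    en k X (x, tk m) = eK X x m := by
  rcases hm with rfl | rfl <;> simp [en, tk]

lemma cor_tk (x a : Pl) (m : Fin 4) (hm : m = 0 ∨ m = 1) :
    a ∈ cor (x, tk m) ↔ a = x ∨ a = x + pe m := by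
  rcases hm with rfl | rfl
  · simp [tk, pe, mem_cor1]
  · simp [tk, pe, mem_cor2]

/-! ### terms -/

/-- the terms of `rng Λ` inside the corners of `τ` -/
def Sg (Λ : Finset Pl) (τ : Tm) : Finset Tm := (rng Λ).filter fun σ => cor σ ⊆ cor τ

lemma mem_pls (Λ : Finset Pl) (τ : Tm) (hτ : τ ∈ tml Λ) {a : Pl} (ha : a ∈ cor τ) :
    a ∈ pls Λ := by
  obtain ⟨b, hb, hbΛ⟩ := (mem_tml Λ τ).1 hτ
  have h := diam_cor τ a ha b hb
  unfold near at h
  rw [abs_le, abs_le] at h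
  unfold pls
  rw [Finset.mem_biUnion]
  refine ⟨b, hbΛ, ?_⟩
  unfold Nb
  rw [Finset.mem_product, Finset.mem_Icc, Finset.mem_Icc]
  push_cast
  constructor <;> constructor <;> linarith [h.1.1, h.1.2, h.2.1, h.2.2]

lemma mem_Sg (Λ : Finset Pl) (τ σ : Tm) (hτ : τ ∈ tml Λ) (hs : cor σ ⊆ cor τ)
    (hσ : ∀ a ∈ cor σ, a ∉ Λ) (hne : (cor σ).Nonempty) : σ ∈ Sg Λ τ := by
  unfold Sg rng
  rw [Finset.mem_filter, Finset.mem_filter, mem_tml]
  obtain ⟨a, ha⟩ := hne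
  exact ⟨⟨⟨a, ha, mem_pls Λ τ hτ (hs ha)⟩, fun b hb => ⟨mem_pls Λ τ hτ (hs hb), hσ b hb⟩⟩, hs⟩

/-- the energy around -/
def Eg (k : ℕ) (Λ : Finset Pl) (η : Cf N L) (τ : Tm) : ℝ := ∑ σ ∈ Sg Λ τ, en k η σ

lemma Eg_nonneg (k : ℕ) (Λ : Finset Pl) (η : Cf N L) (τ : Tm) : 0 ≤ Eg k Λ η τ :=
  Finset.sum_nonneg fun _ _ => en_nonneg _ _ _

lemma le_Eg (k : ℕ) (Λ : Finset Pl) (η : Cf N L) (τ σ : Tm) (h : σ ∈ Sg Λ τ) :
    en k η σ ≤ Eg k Λ η τ :=
  Finset.single_le_sum (f := fun σ => en k η σ) (fun _ _ => en_nonneg _ _ _) h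

lemma self_cor (σ : Tm) : σ.1 ∈ cor σ := by
  obtain ⟨x, i⟩ := σ
  fin_cases i
  · exact (mem_cor0 x x).2 rfl
  · exact (mem_cor1 x x).2 (Or.inl rfl)
  · exact (mem_cor2 x x).2 (Or.inl rfl)
  · exact (mem_cor3 x x).2 (Or.inl rfl)

lemma of_cor (τ : Tm) {a : Pl} (h : a ∈ cor τ) : a = τ.1 ∨ a = τ.1 + (1, 0) ∨
    a = τ.1 + (0, 1) ∨ a = τ.1 + (1, 1) := by
  obtain ⟨x, i⟩ := τ
  fin_cases i
  · exact Or.inl ((mem_cor0 x a).1 h)
  · rcases (mem_cor1 x a).1 h with h | h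
    · exact Or.inl h
    · exact Or.inr (Or.inl h)
  · rcases (mem_cor2 x a).1 h with h | h
    · exact Or.inl h
    · exact Or.inr (Or.inr (Or.inl h))
  · exact (mem_cor3 x a).1 h

lemma card_around (Λ : Finset Pl) (σ : Tm) :
    ((tml Λ).filter fun τ => cor σ ⊆ cor τ).card ≤ 16 := by
  have h : ((tml Λ).filter fun τ => cor σ ⊆ cor τ) ⊆
      ({σ.1, σ.1 - (1, 0), σ.1 - (0, 1), σ.1 - (1, 1)} : Finset Pl) ×ˢ
        (Finset.univ : Finset (Fin 4)) := by
    intro τ hτ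
    have h1 := of_cor τ ((Finset.mem_filter.1 hτ).2 (self_cor σ))
    rw [Finset.mem_product]
    refine ⟨?_, Finset.mem_univ _⟩
    simp only [Finset.mem_insert, Finset.mem_singleton]
    rcases h1 with h | h | h | h <;> rw [h]
    · exact Or.inl rfl
    · exact Or.inr (Or.inl (by rw [add_sub_cancel_right]))
    · exact Or.inr (Or.inr (Or.inl (by rw [add_sub_cancel_right])))
    · exact Or.inr (Or.inr (Or.inr (by rw [add_sub_cancel_right])))
  refine (Finset.card_le_card h).trans ?_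
  rw [Finset.card_product, Finset.card_univ, Fintype.card_fin]
  have := Finset.card_le_four (a := σ.1) (b := σ.1 - (1, 0)) (c := σ.1 - (0, 1))
    (d := σ.1 - (1, 1))
  omega

lemma sum_Eg (k : ℕ) (Λ : Finset Pl) (η : Cf N L) :
    ∑ τ ∈ tml Λ, Eg k Λ η τ ≤ 16 * ∑ σ ∈ rng Λ, en k η σ := by
  have h : ∑ τ ∈ tml Λ, Eg k Λ η τ =
      ∑ σ ∈ rng Λ, (((tml Λ).filter fun τ => cor σ ⊆ cor τ).card : ℝ) * en k η σ := by
    unfold Eg Sg
    simp only [Finset.sum_filter]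
    rw [Finset.sum_comm]
    refine Finset.sum_congr rfl fun σ _ => ?_
    rw [← Finset.sum_filter, Finset.sum_const, nsmul_eq_mul]
  rw [h, Finset.mul_sum]
  refine Finset.sum_le_sum fun σ _ => mul_le_mul_of_nonneg_right ?_ (en_nonneg _ _ _)
  exact_mod_cast card_around Λ σ

end PkgG1

open PkgG1 in
theorem pG1 (hA1 : S_A1) (hB0 : S_B0) (hD1 : S_D1) (hJ : S_J) (hJI : S_JI) : S_G1 := by
  intro N k L _ hN hk
  have hN0 : N ≠ 0 := by omega
  obtain ⟨P, Q, hPQ⟩ := hA1 N k hN hk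
  obtain ⟨C1, hC1, hD⟩ := hD1 N k L hN hk P Q hPQ
  obtain ⟨CJ, hCJ, hJ⟩ := hJ N k L hN hk P Q hPQ
  have hB := hB0 N k L hN hk P Q hPQ
  choose G hG using hD
  refine ⟨(2 * C1 + 8 * CJ * (2 * C1 + 2)) * 16, by positivity, ?_⟩
  intro Λ η
  let g : Pt L → SU N := fun p => if p.1 ∈ Λ then 1 else G (pt η p.1) p.2
  let η' : Cf N L := gau g η
  let Y : Cf N L := fun l => if l ∈ Frl L Λ then vc P Q l else η' l
  let X : Cf N L := fun l => if l ∈ Frl L Λ then (g l.1)⁻¹ * vc P Q l * g (nx l.1 l.2) else η l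
  have hgX : gau g X = Y := by
    funext l
    simp only [gau, X, Y, η']
    split_ifs
    · group
    · rfl
  have heY : ∀ τ, en k X τ = en k Y τ := fun τ => by
    rw [← hgX]
    exact (((hJI N k L hN g (fun _ _ => 0) X).1 τ).1).symm
  have heη : ∀ τ, en k η' τ = en k η τ := fun τ => ((hJI N k L hN g (fun _ _ => 0) η).1 τ).1
  -- torus links
  have ptY : ∀ x, pt Y x = if x ∈ Λ then vac P Q else pt η' x := by
    intro x
    split_ifs with hx
    · funext y j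
      have h1 : ((x, y), (if j = 0 then 2 else 3 : Fin 4)) ∈ Frl L Λ :=
        (mem_Frl_torus Λ x y _ (by fin_cases j <;> simp)).2 hx
      have h2 : pt Y x y j = vc P Q ((x, y), (if j = 0 then 2 else 3 : Fin 4)) := if_pos h1
      rw [h2]
      exact congrFun (congrFun (pt_vc P Q x) y) j
    · funext y j
      have h1 : ((x, y), (if j = 0 then 2 else 3 : Fin 4)) ∉ Frl L Λ := fun h =>
        hx ((mem_Frl_torus Λ x y _ (by fin_cases j <;> simp)).1 h)
      exact if_neg h1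
  have dη : ∀ x, x ∉ Λ → dst (pt η' x) (vac P Q) ≤ C1 * en k η (x, 0) := by
    intro x hx
    have h1 : pt η' x = act (G (pt η x)) (pt η x) := by
      rw [pt_gau]
      congr 1
      funext y
      exact if_neg hx
    have h2 : en k η (x, 0) = VV k (pt η x) := by
      rw [← eV_eq]
      simp [en]
    rw [h1, h2]
    exact hG _
  have dY : ∀ τ ∈ tml Λ, ∀ x ∈ cor τ, dst (pt Y x) (vac P Q) ≤ C1 * Eg k Λ η τ := by
    intro τ hτ x hx
    rw [ptY]
    split_ifs with hxΛ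
    · rw [dst_self]
      exact mul_nonneg hC1.le (Eg_nonneg _ _ _ _)
    · refine (dη x hxΛ).trans (mul_le_mul_of_nonneg_left (le_Eg k Λ η τ (x, 0) ?_) hC1.le)
      refine mem_Sg Λ τ (x, 0) hτ ?_ ?_ ⟨x, (mem_cor0 x x).2 rfl⟩
      · intro a ha
        rw [mem_cor0] at ha
        rwa [ha]
      · intro a ha
        rw [mem_cor0] at ha
        rwa [ha]
  -- plane links
  have pl1 : ∀ (x : Pl) (m : Fin 4), (m = 0 ∨ m = 1) → (x ∈ Λ ∨ x + pe m ∈ Λ) →
      ∀ y : Tor L, Y ((x, y), m) = 1 := by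
    intro x m hm hx y
    have h1 : ((x, y), m) ∈ Frl L Λ := (mem_Frl_plane Λ x y m).2 hx
    have h2 : Y ((x, y), m) = vc P Q ((x, y), m) := if_pos h1
    rw [h2]
    rcases hm with rfl | rfl <;> simp [vc]
  have pl : ∀ τ ∈ tml Λ, ∀ (x : Pl) (m : Fin 4), (m = 0 ∨ m = 1) → x ∈ cor τ →
      x + pe m ∈ cor τ → ∃ c : Fin N, ∑ y : Tor L, ‖(Y ((x, y), m) : Mt N) -
        om N c • (1 : Mt N)‖ ^ 2 ≤ CJ * ((2 * C1 + 2) * Eg k Λ η τ) := by
    intro τ hτ x m hm hx hxm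
    have hE := Eg_nonneg k Λ η τ
    by_cases hF : x ∈ Λ ∨ x + pe m ∈ Λ
    · refine ⟨⟨0, by omega⟩, ?_⟩
      have h1 : ∀ y : Tor L, ‖(Y ((x, y), m) : Mt N) -
          om N ((⟨0, by omega⟩ : Fin N) : ℕ) • (1 : Mt N)‖ ^ 2 = 0 := by
        intro y
        rw [pl1 x m hm hF y]
        simp only [om_zero, one_smul, OneMemClass.coe_one, sub_self, norm_zero]
        norm_num
      rw [Finset.sum_congr rfl fun y _ => h1 y, Finset.sum_const_zero]
      positivity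
    · rw [not_or] at hF
      have hY : ∀ y : Tor L, Y ((x, y), m) = η' ((x, y), m) := by
        intro y
        refine if_neg fun h => ?_
        rcases (mem_Frl_plane Λ x y m).1 h with h | h
        · exact hF.1 h
        · exact hF.2 h
      have h1 := dY τ hτ x hx
      have h2 := dY τ hτ _ hxm
      rw [ptY, if_neg hF.1] at h1
      rw [ptY, if_neg hF.2] at h2
      have h3 : eK η' x m ≤ Eg k Λ η τ := by
        rw [← en_tk k η' x m hm, heη]
        refine le_Eg k Λ η τ _ (mem_Sg Λ τ _ hτ ?_ ?_ ⟨x, (cor_tk x x m hm).2 (Or.inl rfl)⟩)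
        · intro a ha
          rcases (cor_tk x a m hm).1 ha with rfl | rfl
          · exact hx
          · exact hxm
        · intro a ha
          rcases (cor_tk x a m hm).1 ha with rfl | rfl
          · exact hF.1
          · exact hF.2
      obtain ⟨c, hc⟩ := hJ (pt η' x) (pt η' (x + pe m)) (fun y => η' ((x, y), m))
        ((2 * C1 + 2) * Eg k Λ η τ) (by nlinarith) (by nlinarith) (by
          rw [eK_J η' x m hm]
          nlinarith)
      refine ⟨c, ?_⟩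
      simp only [hY]
      exact hc
  -- one term
  have key : ∀ τ ∈ tml Λ, en k X τ ≤ (2 * C1 + 8 * CJ * (2 * C1 + 2)) * Eg k Λ η τ := by
    intro τ hτ
    have hE := Eg_nonneg k Λ η τ
    have hE2 : 0 ≤ 8 * CJ * (2 * C1 + 2) * Eg k Λ η τ := by positivity
    have hmix : ∀ m : Fin 4, (m = 0 ∨ m = 1) → τ.2 = tk m → en k Y τ ≤
        (2 * C1 + 8 * CJ * (2 * C1 + 2)) * Eg k Λ η τ := by
      intro m hm h
      obtain ⟨x, i⟩ := τ
      simp only at h
      subst h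
      rw [en_tk k Y x m hm]
      have hF : x ∈ Λ ∨ x + pe m ∈ Λ := by
        obtain ⟨a, ha, haΛ⟩ := (mem_tml Λ _).1 hτ
        rcases (cor_tk x a m hm).1 ha with rfl | rfl
        · exact Or.inl haΛ
        · exact Or.inr haΛ
      have h1 := eK_le Y x m hm (vac P Q) (pl1 x m hm hF)
      have h2 := dY _ hτ x ((cor_tk x x m hm).2 (Or.inl rfl))
      have h3 := dY _ hτ (x + pe m) ((cor_tk x _ m hm).2 (Or.inr rfl))
      linarith
    rw [heY]
    obtain ⟨x, i⟩ := τ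
    have hi : ∀ i : Fin 4, i = 0 ∨ i = 1 ∨ i = 2 ∨ i = 3 := by decide
    rcases hi i with rfl | rfl | rfl | rfl
    · have hx : x ∈ Λ := by
        obtain ⟨a, ha, haΛ⟩ := (mem_tml Λ _).1 hτ
        rw [mem_cor0] at ha
        rwa [← ha]
      have h1 : en k Y (x, 0) = eV k Y x := by simp [en]
      rw [h1, eV_eq, ptY, if_pos hx, hB]
      positivity
    · exact hmix 0 (Or.inl rfl) rfl
    · exact hmix 1 (Or.inr rfl) rfl
    · have hp0 : pe 0 = (1, 0) := by simp [pe]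
      have hp1 : pe 1 = (0, 1) := by simp [pe]
      have c0 : x ∈ cor (x, 3) := (mem_cor3 x x).2 (Or.inl rfl)
      have c1 : x + (1, 0) ∈ cor (x, 3) := (mem_cor3 x _).2 (Or.inr (Or.inl rfl))
      have c2 : x + (0, 1) ∈ cor (x, 3) := (mem_cor3 x _).2 (Or.inr (Or.inr (Or.inl rfl)))
      have c3 : x + (1, 1) ∈ cor (x, 3) := (mem_cor3 x _).2 (Or.inr (Or.inr (Or.inr rfl)))
      obtain ⟨a, ha⟩ := pl _ hτ x 0 (Or.inl rfl) c0 (by rw [hp0]; exact c1)
      obtain ⟨b, hb⟩ := pl _ hτ (x + (1, 0)) 1 (Or.inr rfl) c1 (by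
        rw [hp1, add_assoc]; exact c3)
      obtain ⟨c, hc⟩ := pl _ hτ x 1 (Or.inr rfl) c0 (by rw [hp1]; exact c2)
      obtain ⟨d, hd⟩ := pl _ hτ (x + (0, 1)) 0 (Or.inl rfl) c2 (by
        rw [hp0, add_assoc]; exact c3)
      obtain ⟨m, hm⟩ := exists_om hN0 a b c d
      have h1 : en k Y (x, 3) ≤ eP Y (om N m) x := by
        have h2 : en k Y (x, 3) = ⨅ m : Fin N, eP Y (om N m) x := by simp [en]
        rw [h2]
        exact ciInf_le ⟨0, by rintro _ ⟨m, rfl⟩; exact eP_nonneg _ _ _⟩ m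
      have h2 : eP Y (om N m) x ≤ 2 * (∑ y : Tor L, ‖(Y ((x, y), 0) : Mt N) -
          om N a • (1 : Mt N)‖ ^ 2 + ∑ y : Tor L, ‖(Y ((x + (1, 0), y), 1) : Mt N) -
          om N b • (1 : Mt N)‖ ^ 2 + ∑ y : Tor L, ‖(Y ((x, y), 1) : Mt N) -
          om N c • (1 : Mt N)‖ ^ 2 + ∑ y : Tor L, ‖(Y ((x + (0, 1), y), 0) : Mt N) -
          om N d • (1 : Mt N)‖ ^ 2) := by
        unfold eP df
        rw [← Finset.sum_add_distrib, ← Finset.sum_add_distrib, ← Finset.sum_add_distrib,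
          Finset.mul_sum]
        refine Finset.sum_le_sum fun y _ => ?_
        rw [nx0, nx1]
        exact plaq_le _ _ _ _ _ _ _ _ _ (om_norm _ _) (om_norm _ _) (om_norm _ _) hm
      have h3 : (2 * C1) * Eg k Λ η (x, 3) ≥ 0 := by positivity
      linarith
  refine ⟨X, fun l hl => if_neg hl, ?_⟩
  calc ∑ τ ∈ tml Λ, en k X τ ≤
      ∑ τ ∈ tml Λ, (2 * C1 + 8 * CJ * (2 * C1 + 2)) * Eg k Λ η τ := Finset.sum_le_sum key
    _ = (2 * C1 + 8 * CJ * (2 * C1 + 2)) * ∑ τ ∈ tml Λ, Eg k Λ η τ := by rw [Finset.mul_sum]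
    _ ≤ (2 * C1 + 8 * CJ * (2 * C1 + 2)) * (16 * ∑ σ ∈ rng Λ, en k η σ) :=
        mul_le_mul_of_nonneg_left (sum_Eg k Λ η) (by positivity)
    _ = _ := by ring

end T2H02.TT
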