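import Pool.Agent.T2H02.TT.Stm

/-!
# Package D : quadratic lower bounds for the twisted torus energy
-/

set_option autoImplicit false
set_option linter.unusedSectionVars false
set_option linter.unusedVariables false

noncomputable section

open MeasureTheory Matrix
open scoped Matrix.Norms.Frobenius

namespace T2H02.TT.PkgD

open T2H02.TT

variable {N L : ℕ}

/-! ### basic facts on `SU N` -/

lemma su1 (g : SU N) : (g : Mt N)ᴴ * (g : Mt N) = 1 := by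
  have := Matrix.mem_unitaryGroup_iff'.1 (Matrix.specialUnitaryGroup_le_unitaryGroup g.2)
  rwa [star_eq_conjTranspose] at this

lemma su2 (g : SU N) : (g : Mt N) * (g : Mt N)ᴴ = 1 := by
  have := Matrix.mem_unitaryGroup_iff.1 (Matrix.specialUnitaryGroup_le_unitaryGroup g.2)
  rwa [star_eq_conjTranspose] at this

lemma cinv (g : SU N) : ((g⁻¹ : SU N) : Mt N) = (g : Mt N)ᴴ := rfl

lemma cmul (g h : SU N) : ((g * h : SU N) : Mt N) = (g : Mt N) * (h : Mt N) := rfl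

lemma cone : ((1 : SU N) : Mt N) = 1 := rfl

lemma gi (g : SU N) : (g : Mt N) * ((g⁻¹ : SU N) : Mt N) = 1 := su2 g

lemma ig (g : SU N) : ((g⁻¹ : SU N) : Mt N) * (g : Mt N) = 1 := su1 g

lemma gi' (g : SU N) (M : Mt N) : (g : Mt N) * (((g⁻¹ : SU N) : Mt N) * M) = M := by
  rw [← Matrix.mul_assoc, gi, Matrix.one_mul]

lemma ig' (g : SU N) (M : Mt N) : ((g⁻¹ : SU N) : Mt N) * ((g : Mt N) * M) = M := by
  rw [← Matrix.mul_assoc, ig, Matrix.one_mul]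

lemma fr_sq (A : Mt N) : ‖A‖ ^ 2 = (trace (Aᴴ * A)).re := by
  rw [Matrix.frobenius_norm_def, ← Real.sqrt_eq_rpow, Real.sq_sqrt (by positivity)]
  simp only [trace, diag_apply, Matrix.mul_apply, conjTranspose_apply]
  rw [Complex.re_sum, Finset.sum_comm]
  refine Finset.sum_congr rfl fun i _ => ?_
  rw [Complex.re_sum]
  refine Finset.sum_congr rfl fun j _ => ?_
  have h : (star (A j i) * A j i) = ((‖A j i‖ ^ 2 : ℝ) : ℂ) := by
    rw [← Complex.normSq_eq_norm_sq, Complex.star_def, mul_comm, Complex.mul_conj]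
  rw [h, Complex.ofReal_re]
  norm_num

lemma nl (g : SU N) (A : Mt N) : ‖(g : Mt N) * A‖ = ‖A‖ := by
  have h : ‖(g : Mt N) * A‖ ^ 2 = ‖A‖ ^ 2 := by
    rw [fr_sq, fr_sq, conjTranspose_mul, Matrix.mul_assoc, ← Matrix.mul_assoc ((g : Mt N)ᴴ), su1,
      Matrix.one_mul]
  exact (sq_eq_sq₀ (norm_nonneg _) (norm_nonneg _)).1 h

lemma nr (g : SU N) (A : Mt N) : ‖A * (g : Mt N)‖ = ‖A‖ := by
  have h : ‖A * (g : Mt N)‖ ^ 2 = ‖A‖ ^ 2 := by
    rw [fr_sq, fr_sq, conjTranspose_mul, trace_mul_comm, Matrix.mul_assoc,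
      ← Matrix.mul_assoc (g : Mt N), su2, Matrix.one_mul, trace_mul_comm]
  exact (sq_eq_sq₀ (norm_nonneg _) (norm_nonneg _)).1 h

lemma nadj (g : SU N) (A : Mt N) : ‖Adj g A‖ = ‖A‖ := by
  rw [Adj, nr, nl]

lemma adj_add (g : SU N) (A B : Mt N) : Adj g (A + B) = Adj g A + Adj g B := by
  simp only [Adj, Matrix.mul_add, Matrix.add_mul]

lemma adj_sub (g : SU N) (A B : Mt N) : Adj g (A - B) = Adj g A - Adj g B := by
  simp only [Adj, Matrix.mul_sub, Matrix.sub_mul]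

lemma adj_neg (g : SU N) (A : Mt N) : Adj g (-A) = -Adj g A := by
  simp only [Adj, Matrix.mul_neg, Matrix.neg_mul]

instance : CompactSpace (SU N) := by
  have h0 : IsCompact ((Matrix.specialUnitaryGroup (Fin N) ℂ : Submonoid (Mt N)) : Set (Mt N)) := ?_
  · exact isCompact_iff_compactSpace.1 h0
  refine Metric.isCompact_of_isClosed_isBounded ?_ ?_
  · have h : ((Matrix.specialUnitaryGroup (Fin N) ℂ : Submonoid (Mt N)) : Set (Mt N)) =
        {A : Mt N | star A * A = 1} ∩ {A : Mt N | A.det = 1} := by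
      ext A
      simp only [SetLike.mem_coe, Set.mem_inter_iff, Set.mem_ofPred_eq]
      rw [Matrix.mem_specialUnitaryGroup_iff, Matrix.mem_unitaryGroup_iff']
    rw [h]
    exact (isClosed_eq (continuous_star.mul continuous_id) continuous_const).inter
      (isClosed_eq (Continuous.matrix_det continuous_id) continuous_const)
  · refine (isBounded_iff_forall_norm_le).2 ⟨Real.sqrt N, fun A hA => ?_⟩
    have h := su1 (⟨A, hA⟩ : SU N)
    refine Real.le_sqrt_of_sq_le ?_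
    rw [fr_sq]
    have h' : Aᴴ * A = 1 := h
    rw [h', trace_one, Complex.natCast_re, Fintype.card_fin]

lemma cont_coe : Continuous fun g : SU N => (g : Mt N) := continuous_subtype_val

lemma cont_inv : Continuous fun g : SU N => ((g⁻¹ : SU N) : Mt N) :=
  cont_coe.matrix_conjTranspose

/-! ### the gauge action -/

lemma act_act (g h : Tor L → SU N) (φ : Ph N L) :
    act h (act g φ) = act (fun y => h y * g y) φ := by
  funext y j
  simp only [act, _root_.mul_inv_rev, mul_assoc]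

lemma act_one (φ : Ph N L) : act (fun _ => 1) φ = φ := by
  funext y j
  simp [act]

lemma tsh_comm (y : Tor L) : tsh (tsh y 1) 0 = tsh (tsh y 0) 1 := by
  simp [tsh]

variable [NeZero L]

lemma dst_nonneg (φ ψ : Ph N L) : 0 ≤ dst φ ψ :=
  Finset.sum_nonneg fun _ _ => Finset.sum_nonneg fun _ _ => by positivity

lemma dst_self (φ : Ph N L) : dst φ φ = 0 := by
  simp [dst]

lemma eq_of_dst {φ ψ : Ph N L} (h : dst φ ψ = 0) : φ = ψ := by
  funext y j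
  have h1 := (Finset.sum_eq_zero_iff_of_nonneg (fun y _ => Finset.sum_nonneg fun j _ => by
    positivity)).1 h y (Finset.mem_univ y)
  have h2 := (Finset.sum_eq_zero_iff_of_nonneg (fun j _ => by positivity)).1 h1 j
    (Finset.mem_univ j)
  have h3 : ‖(φ y j : Mt N) - (ψ y j : Mt N)‖ = 0 := by
    simpa using h2
  exact Subtype.ext (sub_eq_zero.1 (norm_eq_zero.1 h3))

lemma le_dst (φ ψ : Ph N L) (y : Tor L) (j : Fin 2) :
    ‖(φ y j : Mt N) - (ψ y j : Mt N)‖ ^ 2 ≤ dst φ ψ := by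
  refine le_trans ?_ (Finset.single_le_sum (f := fun y => ∑ j : Fin 2,
    ‖(φ y j : Mt N) - (ψ y j : Mt N)‖ ^ 2) (fun y _ => Finset.sum_nonneg fun j _ => by
    positivity) (Finset.mem_univ y))
  exact Finset.single_le_sum (f := fun j => ‖(φ y j : Mt N) - (ψ y j : Mt N)‖ ^ 2)
    (fun j _ => by positivity) (Finset.mem_univ j)

lemma VV_nonneg (k : ℕ) (φ : Ph N L) : 0 ≤ VV k φ :=
  Finset.sum_nonneg fun _ _ => by positivity

/-- plaquette defect -/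
def pq (k : ℕ) (φ : Ph N L) (y : Tor L) : Mt N :=
  (φ y 0 : Mt N) * (φ (tsh y 0) 1 : Mt N) -
    tw N k y • ((φ y 1 : Mt N) * (φ (tsh y 1) 0 : Mt N))

lemma VV_eq (k : ℕ) (φ : Ph N L) : VV k φ = ∑ y : Tor L, ‖pq k φ y‖ ^ 2 / 2 := rfl

lemma pq_act (k : ℕ) (g : Tor L → SU N) (φ : Ph N L) (y : Tor L) :
    pq k (act g φ) y = (g y : Mt N) * pq k φ y * ((g (tsh (tsh y 0) 1) : SU N)⁻¹ : SU N) := by
  simp only [pq, act, tsh_comm, Matrix.mul_sub, Matrix.sub_mul, cmul, Matrix.mul_smul,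
    Matrix.smul_mul, Matrix.mul_assoc, ig']

lemma VV_act (k : ℕ) (g : Tor L → SU N) (φ : Ph N L) : VV k (act g φ) = VV k φ := by
  rw [VV_eq, VV_eq]
  refine Finset.sum_congr rfl fun y _ => ?_
  rw [pq_act, nr, nl]

lemma cont_VV (k : ℕ) : Continuous fun φ : Ph N L => VV k φ := by
  have hc : ∀ (y : Tor L) (j : Fin 2), Continuous fun φ : Ph N L => (φ y j : Mt N) := fun y j =>
    cont_coe.comp ((continuous_apply j).comp (continuous_apply y))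
  refine continuous_finsetSum _ fun y _ => ?_
  refine Continuous.div_const ?_ _
  refine Continuous.pow ?_ _
  refine Continuous.norm ?_
  refine Continuous.sub ((hc y 0).mul (hc _ 1)) ?_
  have h : Continuous fun φ : Ph N L => (φ y 1 : Mt N) * (φ (tsh y 1) 0 : Mt N) :=
    (hc y 1).mul (hc _ 0)
  exact h.const_smul (tw N k y)

lemma cont_dst_act {X : Type} [TopologicalSpace X] (ψ : Ph N L) (a : X → Tor L → SU N)
    (b : X → Ph N L) (ha : ∀ y, Continuous fun x => a x y)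
    (hb : ∀ y j, Continuous fun x => b x y j) :
    Continuous fun x => dst (act (a x) (b x)) ψ := by
  have hc : ∀ (y : Tor L) (j : Fin 2), Continuous fun x => (b x y j : Mt N) := fun y j =>
    cont_coe.comp (hb y j)
  have hg : ∀ (y : Tor L), Continuous fun x => (a x y : Mt N) := fun y => cont_coe.comp (ha y)
  have hi : ∀ (y : Tor L), Continuous fun x => (((a x y)⁻¹ : SU N) : Mt N) := fun y =>
    cont_inv.comp (ha y)
  refine continuous_finsetSum _ fun y _ => continuous_finsetSum _ fun j _ => ?_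
  refine Continuous.pow ?_ _
  refine Continuous.norm ?_
  refine Continuous.sub ?_ continuous_const
  exact ((hg y).mul (hc y j)).mul (hi _)

lemma exists_min (φ ψ : Ph N L) :
    ∃ g : Tor L → SU N, ∀ h, dst (act g φ) ψ ≤ dst (act h φ) ψ := by
  have hc : Continuous fun h : Tor L → SU N => dst (act h φ) ψ :=
    cont_dst_act ψ (fun h => h) (fun _ => φ) (fun y => continuous_apply y)
      (fun _ _ => continuous_const)
  obtain ⟨g, -, hg⟩ := isCompact_univ.exists_isMinOn (Set.univ_nonempty) hc.continuousOn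
  exact ⟨g, fun h => hg (Set.mem_univ h)⟩

lemma bdd (ψ : Ph N L) : ∃ B : ℝ, 0 < B ∧ ∀ φ : Ph N L, dst φ ψ ≤ B := by
  have hc : Continuous fun φ : Ph N L => dst (act (fun _ => 1) φ) ψ :=
    cont_dst_act ψ (fun _ _ => 1) (fun φ => φ) (fun _ => continuous_const)
      (fun y j => (continuous_apply j).comp (continuous_apply y))
  obtain ⟨B, hB⟩ := (isCompact_range hc).bddAbove
  refine ⟨max B 1, by positivity, fun φ => ?_⟩
  have := hB (Set.mem_range_self φ)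
  simp only [act_one] at this
  exact this.trans (le_max_left _ _)

/-! ### far configurations -/

lemma far1 {k : ℕ} {P Q : SU N}
    (hB1 : ∀ φ : Ph N L, VV k φ = 0 → ∃ g : Tor L → SU N, φ = act g (vac P Q)) {ρ : ℝ}
    (hρ : 0 < ρ) : ∃ C : ℝ, 0 < C ∧ ∀ φ : Ph N L, (∀ g, ρ ≤ dst (act g φ) (vac P Q)) →
      ∀ g, dst (act g φ) (vac P Q) ≤ C * VV k φ := by
  obtain ⟨B, hB0, hB⟩ := bdd (vac P Q : Ph N L)
  have hcl : IsClosed {φ : Ph N L | ∀ g, ρ ≤ dst (act g φ) (vac P Q)} := by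
    have : {φ : Ph N L | ∀ g, ρ ≤ dst (act g φ) (vac P Q)} =
        ⋂ g, {φ : Ph N L | ρ ≤ dst (act g φ) (vac P Q)} := by
      ext φ
      simp
    rw [this]
    refine isClosed_iInter fun g => isClosed_le continuous_const ?_
    exact cont_dst_act (vac P Q) (fun _ => g) (fun φ => φ) (fun _ => continuous_const)
      (fun y j => (continuous_apply j).comp (continuous_apply y))
  have hpos : ∀ φ ∈ {φ : Ph N L | ∀ g, ρ ≤ dst (act g φ) (vac P Q)}, 0 < VV k φ := by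
    intro φ hφ
    rcases (VV_nonneg k φ).lt_or_eq with h | h
    · exact h
    · obtain ⟨g, hg⟩ := hB1 φ h.symm
      have h1 := hφ fun y => (g y)⁻¹
      rw [hg, act_act] at h1
      simp only [inv_mul_cancel] at h1
      rw [act_one, dst_self] at h1
      linarith
  obtain ⟨m, hm0, hm⟩ := (hcl.isCompact).exists_forall_le' (cont_VV k).continuousOn hpos
  refine ⟨B / m, by positivity, fun φ hφ g => ?_⟩
  calc dst (act g φ) (vac P Q) ≤ B := hB _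
    _ = B / m * m := by field_simp
    _ ≤ B / m * VV k φ := by
        have := hm φ hφ
        gcongr

/-! ### near configurations -/

lemma mul_le_T {x y T : ℝ} (hx : x ^ 2 ≤ T) (hy : y ^ 2 ≤ T) : x * y ≤ T := by
  nlinarith [sq_nonneg (x - y)]

lemma sq_add_le {x y z : ℝ} (hz : 0 ≤ z) (h : z ≤ x + y) : z ^ 2 ≤ 2 * x ^ 2 + 2 * y ^ 2 := by
  nlinarith [sq_nonneg (x - y)]

lemma nmul (A B : Mt N) : ‖A * B‖ ≤ ‖A‖ * ‖B‖ := norm_mul_le A B

lemma triple (x1 x2 x3 : Mt N) {T : ℝ} (h1 : ‖x1‖ ^ 2 ≤ T) (h2 : ‖x2‖ ^ 2 ≤ T)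
    (h3 : ‖x3‖ ^ 2 ≤ T) :
    ‖(1 + x1) * (1 + x2) * (1 + x3) - 1 - (x1 + x2 + x3)‖ ≤ T * (4 + T) := by
  have hT : 0 ≤ T := le_trans (by positivity) h1
  have e : (1 + x1) * (1 + x2) * (1 + x3) - 1 - (x1 + x2 + x3) =
      x1 * x2 + x1 * x3 + x2 * x3 + x1 * x2 * x3 := by
    noncomm_ring
  have a12 := (nmul x1 x2).trans (mul_le_T h1 h2)
  have a13 := (nmul x1 x3).trans (mul_le_T h1 h3)
  have a23 := (nmul x2 x3).trans (mul_le_T h2 h3)
  have b3 : ‖x3‖ ≤ 1 + T := by nlinarith [sq_nonneg (‖x3‖ - 1), norm_nonneg x3]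
  have a123 : ‖x1 * x2 * x3‖ ≤ T * (1 + T) := by
    refine (nmul _ _).trans ?_
    exact mul_le_mul a12 b3 (norm_nonneg _) hT
  rw [e]
  calc ‖x1 * x2 + x1 * x3 + x2 * x3 + x1 * x2 * x3‖
      ≤ ‖x1 * x2‖ + ‖x1 * x3‖ + ‖x2 * x3‖ + ‖x1 * x2 * x3‖ := by
        refine (norm_add_le _ _).trans ?_
        gcongr
        refine (norm_add_le _ _).trans ?_
        gcongr
        exact norm_add_le _ _
    _ ≤ T + T + T + T * (1 + T) := by gcongr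
    _ = T * (4 + T) := by ring

/-- defect of the link -/
def lk (V ψ : Ph N L) (y : Tor L) (j : Fin 2) : Mt N :=
  (ψ y j : Mt N) * (((V y j)⁻¹ : SU N) : Mt N) - 1

lemma lk_eq (V ψ : Ph N L) (y : Tor L) (j : Fin 2) :
    (ψ y j : Mt N) = (1 + lk V ψ y j) * (V y j : Mt N) := by
  simp only [lk, add_sub_cancel, Matrix.mul_assoc, ig, Matrix.mul_one]

lemma lk_norm (V ψ : Ph N L) (y : Tor L) (j : Fin 2) :
    ‖lk V ψ y j‖ = ‖(ψ y j : Mt N) - (V y j : Mt N)‖ := by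
  have h : (ψ y j : Mt N) - (V y j : Mt N) = lk V ψ y j * (V y j : Mt N) := by
    rw [lk_eq V ψ y j, Matrix.add_mul, Matrix.one_mul, add_sub_cancel_left]
  rw [h, nr]

lemma sum_lk (V ψ : Ph N L) : dst ψ V = ∑ y, ∑ j, ‖lk V ψ y j‖ ^ 2 := by
  simp only [lk_norm, dst]

lemma plaq (V0 V1 W0 W1 : SU N) (z : ℂ) (a0 a1 b0 b1 : Mt N)
    (hW : (V0 : Mt N) * (V1 : Mt N) = z • ((W0 : Mt N) * (W1 : Mt N))) :
    (1 + a0) * (V0 : Mt N) * ((1 + a1) * (V1 : Mt N)) -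
      z • ((1 + b0) * (W0 : Mt N) * ((1 + b1) * (W1 : Mt N))) =
    (a0 + Adj V0 a1 - b0 - Adj W0 b1 + a0 * Adj V0 a1 - b0 * Adj W0 b1) *
      ((V0 : Mt N) * (V1 : Mt N)) := by
  have e : (a0 + Adj V0 a1 - b0 - Adj W0 b1 + a0 * Adj V0 a1 - b0 * Adj W0 b1) *
      ((V0 : Mt N) * (V1 : Mt N)) =
      (1 + a0 + Adj V0 a1 + a0 * Adj V0 a1) * ((V0 : Mt N) * (V1 : Mt N)) -
        (1 + b0 + Adj W0 b1 + b0 * Adj W0 b1) * ((V0 : Mt N) * (V1 : Mt N)) := by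
    rw [← Matrix.sub_mul]
    congr 1
    abel
  rw [e]
  congr 1
  · simp only [Adj, Matrix.mul_add, Matrix.add_mul, Matrix.mul_assoc, ig', Matrix.one_mul]
    abel
  · rw [hW]
    simp only [Adj, Matrix.mul_add, Matrix.add_mul, Matrix.mul_assoc, ig', Matrix.one_mul,
      Matrix.mul_smul, smul_add]
    abel

lemma stepB {k : ℕ} {V : Ph N L} (hV : ∀ y, pq k V y = 0) (ψ : Ph N L)
    (ξ : Tor L → Fin 2 → Mt N) {S C : ℝ} (hA : ∀ y j, ‖lk V ψ y j‖ ^ 2 ≤ S)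
    (hξ : ∀ y j, ‖lk V ψ y j - ξ y j‖ ≤ C * S) (y : Tor L) :
    ‖crl V ξ y‖ ≤ ‖pq k ψ y‖ + (2 + 4 * C) * S := by
  have hW : (V y 0 : Mt N) * (V (tsh y 0) 1 : Mt N) =
      tw N k y • ((V y 1 : Mt N) * (V (tsh y 1) 0 : Mt N)) := sub_eq_zero.1 (hV y)
  set a := lk V ψ with ha
  have h1 : pq k ψ y = (a y 0 + Adj (V y 0) (a (tsh y 0) 1) - a y 1 - Adj (V y 1) (a (tsh y 1) 0) +
      a y 0 * Adj (V y 0) (a (tsh y 0) 1) - a y 1 * Adj (V y 1) (a (tsh y 1) 0)) *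
      ((V y 0 : Mt N) * (V (tsh y 0) 1 : Mt N)) := by
    rw [← plaq _ _ _ _ _ _ _ _ _ hW, pq, lk_eq V ψ y 0, lk_eq V ψ y 1, lk_eq V ψ (tsh y 0) 1,
      lk_eq V ψ (tsh y 1) 0]
  set X := a y 0 + Adj (V y 0) (a (tsh y 0) 1) - a y 1 - Adj (V y 1) (a (tsh y 1) 0) +
      a y 0 * Adj (V y 0) (a (tsh y 0) 1) - a y 1 * Adj (V y 1) (a (tsh y 1) 0) with hX
  have h2 : ‖pq k ψ y‖ = ‖X‖ := by
    rw [h1, ← cmul, nr]
  have h3 : crl V ξ y = X - a y 0 * Adj (V y 0) (a (tsh y 0) 1) +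
      a y 1 * Adj (V y 1) (a (tsh y 1) 0) - (a y 0 - ξ y 0) -
      Adj (V y 0) (a (tsh y 0) 1 - ξ (tsh y 0) 1) + (a y 1 - ξ y 1) +
      Adj (V y 1) (a (tsh y 1) 0 - ξ (tsh y 1) 0) := by
    rw [hX, crl, adj_sub, adj_sub]
    abel
  have p1 : ‖a y 0 * Adj (V y 0) (a (tsh y 0) 1)‖ ≤ S := by
    refine (nmul _ _).trans (mul_le_T (hA _ _) ?_)
    rw [nadj]
    exact hA _ _
  have p2 : ‖a y 1 * Adj (V y 1) (a (tsh y 1) 0)‖ ≤ S := by
    refine (nmul _ _).trans (mul_le_T (hA _ _) ?_)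
    rw [nadj]
    exact hA _ _
  have p3 := hξ y 0
  have p4 : ‖Adj (V y 0) (a (tsh y 0) 1 - ξ (tsh y 0) 1)‖ ≤ C * S := by
    rw [nadj]
    exact hξ _ _
  have p5 := hξ y 1
  have p6 : ‖Adj (V y 1) (a (tsh y 1) 0 - ξ (tsh y 1) 0)‖ ≤ C * S := by
    rw [nadj]
    exact hξ _ _
  rw [h3, h2]
  have q6 := norm_add_le (X - a y 0 * Adj (V y 0) (a (tsh y 0) 1) +
      a y 1 * Adj (V y 1) (a (tsh y 1) 0) - (a y 0 - ξ y 0) -
      Adj (V y 0) (a (tsh y 0) 1 - ξ (tsh y 0) 1) + (a y 1 - ξ y 1))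
      (Adj (V y 1) (a (tsh y 1) 0 - ξ (tsh y 1) 0))
  have q5 := norm_add_le (X - a y 0 * Adj (V y 0) (a (tsh y 0) 1) +
      a y 1 * Adj (V y 1) (a (tsh y 1) 0) - (a y 0 - ξ y 0) -
      Adj (V y 0) (a (tsh y 0) 1 - ξ (tsh y 0) 1)) (a y 1 - ξ y 1)
  have q4 := norm_sub_le (X - a y 0 * Adj (V y 0) (a (tsh y 0) 1) +
      a y 1 * Adj (V y 1) (a (tsh y 1) 0) - (a y 0 - ξ y 0))
      (Adj (V y 0) (a (tsh y 0) 1 - ξ (tsh y 0) 1))
  have q3 := norm_sub_le (X - a y 0 * Adj (V y 0) (a (tsh y 0) 1) +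
      a y 1 * Adj (V y 1) (a (tsh y 1) 0)) (a y 0 - ξ y 0)
  have q2 := norm_add_le (X - a y 0 * Adj (V y 0) (a (tsh y 0) 1))
      (a y 1 * Adj (V y 1) (a (tsh y 1) 0))
  have q1 := norm_sub_le X (a y 0 * Adj (V y 0) (a (tsh y 0) 1))
  linarith

lemma crude {V : Ph N L} (ξ : Tor L → Fin 2 → Mt N) {S : ℝ} (hξ : ∀ y j, ‖ξ y j‖ ^ 2 ≤ S)
    (y : Tor L) : ‖crl V ξ y‖ ^ 2 ≤ 16 * S := by
  have h1 : ‖crl V ξ y‖ ≤ ‖ξ y 0‖ + ‖ξ (tsh y 0) 1‖ + ‖ξ y 1‖ + ‖ξ (tsh y 1) 0‖ := by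
    rw [crl]
    refine (norm_sub_le _ _).trans ?_
    rw [nadj]
    gcongr
    refine (norm_sub_le _ _).trans ?_
    gcongr
    refine (norm_add_le _ _).trans ?_
    rw [nadj]
  have a := hξ y 0
  have b := hξ (tsh y 0) 1
  have c := hξ y 1
  have d := hξ (tsh y 1) 0
  have h2 : ‖crl V ξ y‖ ^ 2 ≤ (‖ξ y 0‖ + ‖ξ (tsh y 0) 1‖ + ‖ξ y 1‖ + ‖ξ (tsh y 1) 0‖) ^ 2 := by
    gcongr
  nlinarith [sq_nonneg (‖ξ y 0‖ - ‖ξ (tsh y 0) 1‖), sq_nonneg (‖ξ y 0‖ - ‖ξ y 1‖),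
    sq_nonneg (‖ξ y 0‖ - ‖ξ (tsh y 1) 0‖), sq_nonneg (‖ξ (tsh y 0) 1‖ - ‖ξ y 1‖),
    sq_nonneg (‖ξ (tsh y 0) 1‖ - ‖ξ (tsh y 1) 0‖), sq_nonneg (‖ξ y 1‖ - ‖ξ (tsh y 1) 0‖)]

lemma stepE (g g' ψ V : SU N) (lam lam' ξ : Mt N) {S C1 C6 E : ℝ} (hS : 0 ≤ S) (hS1 : S ≤ 1)
    (h6 : 0 ≤ C6)
    (x1 : ‖(g : Mt N) - 1‖ ^ 2 ≤ C6 * S) (x3 : ‖(g' : Mt N) - 1‖ ^ 2 ≤ C6 * S)
    (x2 : ‖(ψ : Mt N) * ((V⁻¹ : SU N) : Mt N) - 1‖ ^ 2 ≤ C6 * S)
    (e1 : ‖(g : Mt N) - 1 + lam‖ ≤ E * S)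
    (e2 : ‖(ψ : Mt N) * ((V⁻¹ : SU N) : Mt N) - 1 - ξ‖ ≤ C1 * S)
    (e3 : ‖((g'⁻¹ : SU N) : Mt N) - 1 - lam'‖ ≤ E * S) :
    ‖((g * ψ * g'⁻¹ : SU N) : Mt N) - (V : Mt N)‖ ≤ ‖ξ - (lam - Adj V lam')‖ +
      (2 * E + C1 + C6 * (4 + C6)) * S := by
  set y1 : Mt N := (g : Mt N) - 1 with hy1
  set y2 : Mt N := (ψ : Mt N) * ((V⁻¹ : SU N) : Mt N) - 1 with hy2
  set y3 : Mt N := Adj V (((g'⁻¹ : SU N) : Mt N) - 1) with hy3
  have f1 : 1 + y1 = (g : Mt N) := by rw [hy1]; abel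
  have f2 : 1 + y2 = (ψ : Mt N) * ((V⁻¹ : SU N) : Mt N) := by rw [hy2]; abel
  have f3 : 1 + y3 = (V : Mt N) * ((g'⁻¹ : SU N) : Mt N) * ((V⁻¹ : SU N) : Mt N) := by
    rw [hy3, adj_sub]
    simp only [Adj, Matrix.mul_one, gi]
    abel
  have hk : ((g * ψ * g'⁻¹ : SU N) : Mt N) - (V : Mt N) =
      ((1 + y1) * (1 + y2) * (1 + y3) - 1) * (V : Mt N) := by
    rw [f1, f2, f3, Matrix.sub_mul, Matrix.one_mul]
    simp only [cmul, Matrix.mul_assoc, ig, ig', Matrix.mul_one]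
  have n3 : ‖y3‖ ^ 2 ≤ C6 * S := by
    rw [hy3, nadj]
    have : ((g'⁻¹ : SU N) : Mt N) - 1 = ((g' : Mt N) - 1)ᴴ := by
      rw [conjTranspose_sub, conjTranspose_one, cinv]
    rw [this, Matrix.frobenius_norm_conjTranspose]
    exact x3
  have ht := triple y1 y2 y3 x1 x2 n3
  have hT : C6 * S * (4 + C6 * S) ≤ C6 * (4 + C6) * S := by
    have h1 : C6 * S ≤ C6 := by nlinarith
    have h2 : 0 ≤ C6 * S := by positivity
    nlinarith
  have h4 : (1 + y1) * (1 + y2) * (1 + y3) - 1 = (ξ - (lam - Adj V lam')) + (y1 + lam) +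
      (y2 - ξ) + Adj V (((g'⁻¹ : SU N) : Mt N) - 1 - lam') +
      ((1 + y1) * (1 + y2) * (1 + y3) - 1 - (y1 + y2 + y3)) := by
    rw [adj_sub (A := ((g'⁻¹ : SU N) : Mt N) - 1), ← hy3]
    abel
  rw [hk, nr, h4]
  have q4 := norm_add_le ((ξ - (lam - Adj V lam')) + (y1 + lam) +
      (y2 - ξ) + Adj V (((g'⁻¹ : SU N) : Mt N) - 1 - lam'))
      ((1 + y1) * (1 + y2) * (1 + y3) - 1 - (y1 + y2 + y3))
  have q3 := norm_add_le ((ξ - (lam - Adj V lam')) + (y1 + lam) + (y2 - ξ))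
      (Adj V (((g'⁻¹ : SU N) : Mt N) - 1 - lam'))
  have q2 := norm_add_le ((ξ - (lam - Adj V lam')) + (y1 + lam)) (y2 - ξ)
  have q1 := norm_add_le (ξ - (lam - Adj V lam')) (y1 + lam)
  rw [nadj] at q3
  linarith

lemma sum2_le (f : Tor L → Fin 2 → ℝ) {c : ℝ} (h : ∀ y j, f y j ≤ c) :
    ∑ y, ∑ j, f y j ≤ 2 * (Fintype.card (Tor L) : ℝ) * c := by
  calc ∑ y, ∑ j, f y j ≤ ∑ y : Tor L, ∑ j : Fin 2, c :=
        Finset.sum_le_sum fun y _ => Finset.sum_le_sum fun j _ => h y j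
    _ = 2 * (Fintype.card (Tor L) : ℝ) * c := by
        simp only [Finset.sum_const, Finset.card_univ, Fintype.card_fin, nsmul_eq_mul]
        push_cast
        ring

lemma sum1_le (f : Tor L → ℝ) {c : ℝ} (h : ∀ y, f y ≤ c) :
    ∑ y, f y ≤ (Fintype.card (Tor L) : ℝ) * c := by
  calc ∑ y, f y ≤ ∑ y : Tor L, c := Finset.sum_le_sum fun y _ => h y
    _ = (Fintype.card (Tor L) : ℝ) * c := by
        simp only [Finset.sum_const, Finset.card_univ, nsmul_eq_mul]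

lemma sq_le_self {S : ℝ} (h0 : 0 ≤ S) (h1 : S ≤ 1) : S ^ 2 ≤ S := by nlinarith

lemma last_le {S K : ℝ} (h0 : 0 ≤ S) (h : S * (2 * (K + 1)) ≤ 1) : K * S ^ 2 ≤ S / 2 := by
  nlinarith [mul_le_mul_of_nonneg_left h h0, sq_nonneg S]

lemma su_neg {M : Mt N} (h : M ∈ su N) : -M ∈ su N := by
  obtain ⟨h1, h2⟩ := h
  exact ⟨by rw [conjTranspose_neg, h1], by rw [trace_neg, h2, neg_zero]⟩

theorem near1 {k : ℕ} {P Q : SU N} {C1 C2 C3 C5 : ℝ} (c1 : 0 < C1) (c2 : 0 < C2) (c3 : 0 < C3)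
    (c5 : 0 < C5) (hB0 : VV k (vac P Q : Ph N L) = 0)
    (p1 : ∀ M : Mt N, pr M ∈ su N) (p2 : ∀ M : Mt N, M ∈ su N → pr M = M)
    (p4 : ∀ M : Mt N, ‖pr M‖ ≤ ‖M‖)
    (p6 : ∀ g : SU N, ‖((g : Mt N) - 1) - pr ((g : Mt N) - 1)‖ ≤ C1 * ‖(g : Mt N) - 1‖ ^ 2)
    (E : Mt N → SU N) (p7 : ∀ M : Mt N, ‖(E M : Mt N) - 1 - pr M‖ ≤ C5 * ‖M‖ ^ 2)
    (hC1 : ∀ lam : Tor L → Mt N, (∀ y, (lam y).trace = 0) →
      ∑ y, ‖lam y‖ ^ 2 ≤ C3 * ∑ y, ∑ j, ‖dd (vac P Q) lam y j‖ ^ 2)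
    (hC2 : ∀ a : Tor L → Fin 2 → Mt N, (∀ y j, a y j ∈ su N) →
      ∃ lam : Tor L → Mt N, (∀ y, lam y ∈ su N) ∧
        ∑ y, ∑ j, ‖a y j - dd (vac P Q) lam y j‖ ^ 2 ≤ C2 * ∑ y, ‖crl (vac P Q) a y‖ ^ 2) :
    ∃ ρ K : ℝ, 0 < ρ ∧ 0 < K ∧ ∀ ψ : Ph N L,
      (∀ h, dst ψ (vac P Q) ≤ dst (act h ψ) (vac P Q)) → dst ψ (vac P Q) ≤ ρ →
      dst ψ (vac P Q) ≤ K * VV k ψ := by
  set V : Ph N L := vac P Q with hVdef
  set n : ℝ := (Fintype.card (Tor L) : ℝ) with hn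
  have n0 : 0 ≤ n := by positivity
  have hV : ∀ y, pq k V y = 0 := by
    intro y
    rw [VV_eq] at hB0
    have h1 := (Finset.sum_eq_zero_iff_of_nonneg (fun y _ => by positivity)).1 hB0 y
      (Finset.mem_univ y)
    have h2 : ‖pq k V y‖ = 0 := by simpa using h1
    exact norm_eq_zero.1 h2
  -- constants
  set C4 : ℝ := 2 * C3 + 32 * C3 * C2 * n with hC4
  have c4 : 0 ≤ C4 := by positivity
  set C6 : ℝ := 1 + 2 * C4 + 2 * (C5 * C4) ^ 2 with hC6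
  have c6 : 0 ≤ C6 := by positivity
  set Kt : ℝ := 2 * (C5 * C4) + C1 + C6 * (4 + C6) with hKt
  have kt : 0 ≤ Kt := by positivity
  set K1 : ℝ := 8 * C2 with hK1
  set K2 : ℝ := 4 * C2 * n * (2 + 4 * C1) ^ 2 + 4 * n * Kt ^ 2 with hK2
  have k2 : 0 ≤ K2 := by positivity
  refine ⟨min 1 (1 / (2 * (K2 + 1))), 2 * K1, by positivity, by positivity, fun ψ hmin hρ => ?_⟩
  set S : ℝ := dst ψ V with hS
  have S0 : 0 ≤ S := dst_nonneg _ _
  have S1 : S ≤ 1 := hρ.trans (min_le_left _ _)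
  have S2 : S * (2 * (K2 + 1)) ≤ 1 := by
    have := hρ.trans (min_le_right _ _)
    rwa [le_div_iff₀ (by positivity)] at this
  -- the su part of the defect
  have hA : ∀ y j, ‖lk V ψ y j‖ ^ 2 ≤ S := fun y j => by
    rw [lk_norm]
    exact le_dst _ _ _ _
  set ξ : Tor L → Fin 2 → Mt N := fun y j => pr (lk V ψ y j) with hξdef
  have hAξ : ∀ y j, ‖lk V ψ y j - ξ y j‖ ≤ C1 * S := fun y j => by
    have h1 := p6 (ψ y j * (V y j)⁻¹)
    have h2 : (((ψ y j * (V y j)⁻¹ : SU N) : Mt N) - 1) = lk V ψ y j := rfl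
    rw [h2] at h1
    refine h1.trans ?_
    gcongr
    exact hA y j
  have hξ : ∀ y j, ‖ξ y j‖ ^ 2 ≤ S := fun y j => by
    refine le_trans ?_ (hA y j)
    have := p4 (lk V ψ y j)
    gcongr
  have hξS : ∑ y, ∑ j, ‖ξ y j‖ ^ 2 ≤ S := by
    rw [hS, sum_lk]
    refine Finset.sum_le_sum fun y _ => Finset.sum_le_sum fun j _ => ?_
    have := p4 (lk V ψ y j)
    gcongr
  -- the curl
  have hcrl : ∑ y, ‖crl V ξ y‖ ^ 2 ≤ 4 * VV k ψ + n * (2 * ((2 + 4 * C1) * S) ^ 2) := by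
    have h1 : ∀ y, ‖crl V ξ y‖ ^ 2 ≤ 2 * ‖pq k ψ y‖ ^ 2 + 2 * ((2 + 4 * C1) * S) ^ 2 := fun y =>
      sq_add_le (norm_nonneg _) (stepB hV ψ ξ hA hAξ y)
    calc ∑ y, ‖crl V ξ y‖ ^ 2 ≤ ∑ y : Tor L, (2 * ‖pq k ψ y‖ ^ 2 + 2 * ((2 + 4 * C1) * S) ^ 2) :=
          Finset.sum_le_sum fun y _ => h1 y
      _ = 4 * VV k ψ + n * (2 * ((2 + 4 * C1) * S) ^ 2) := by
          rw [Finset.sum_add_distrib, VV_eq, Finset.mul_sum, Finset.sum_const, Finset.card_univ,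
            nsmul_eq_mul]
          congr 1
          refine Finset.sum_congr rfl fun y _ => ?_
          ring
  have hcrude : ∑ y, ‖crl V ξ y‖ ^ 2 ≤ n * (16 * S) := sum1_le _ fun y => crude ξ hξ y
  obtain ⟨lam, hlam, hl2⟩ := hC2 ξ fun y j => p1 _
  -- bound for lam
  have hdd : ∑ y, ∑ j, ‖dd V lam y j‖ ^ 2 ≤ 2 * S + 2 * (C2 * (n * (16 * S))) := by
    have h1 : ∀ y j, ‖dd V lam y j‖ ^ 2 ≤ 2 * ‖ξ y j‖ ^ 2 + 2 * ‖ξ y j - dd V lam y j‖ ^ 2 :=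
      fun y j => by
        refine sq_add_le (norm_nonneg _) ?_
        have : dd V lam y j = ξ y j - (ξ y j - dd V lam y j) := by abel
        calc ‖dd V lam y j‖ = ‖ξ y j - (ξ y j - dd V lam y j)‖ := by rw [← this]
          _ ≤ _ := norm_sub_le _ _
    calc ∑ y, ∑ j, ‖dd V lam y j‖ ^ 2
        ≤ ∑ y, ∑ j, (2 * ‖ξ y j‖ ^ 2 + 2 * ‖ξ y j - dd V lam y j‖ ^ 2) :=
          Finset.sum_le_sum fun y _ => Finset.sum_le_sum fun j _ => h1 y j
      _ = 2 * (∑ y, ∑ j, ‖ξ y j‖ ^ 2) + 2 * ∑ y, ∑ j, ‖ξ y j - dd V lam y j‖ ^ 2 := by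
          simp only [Finset.sum_add_distrib, Finset.mul_sum]
      _ ≤ 2 * S + 2 * (C2 * (n * (16 * S))) := by
          have := hl2.trans (mul_le_mul_of_nonneg_left hcrude c2.le)
          linarith
  have hlS : ∑ y, ‖lam y‖ ^ 2 ≤ C4 * S := by
    refine (hC1 lam fun y => (hlam y).2).trans ?_
    calc C3 * ∑ y, ∑ j, ‖dd V lam y j‖ ^ 2 ≤ C3 * (2 * S + 2 * (C2 * (n * (16 * S)))) := by
          gcongr
      _ = C4 * S := by rw [hC4]; ring
  have hlam1 : ∀ y, ‖lam y‖ ^ 2 ≤ C4 * S := fun y =>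
    (Finset.single_le_sum (f := fun y => ‖lam y‖ ^ 2) (fun y _ => by positivity)
      (Finset.mem_univ y)).trans hlS
  -- the test gauge transformation
  set h : Tor L → SU N := fun y => E (-lam y) with hh
  have e1 : ∀ y, ‖(h y : Mt N) - 1 + lam y‖ ≤ C5 * C4 * S := fun y => by
    have h1 := p7 (-lam y)
    rw [p2 _ (su_neg (hlam y)), sub_neg_eq_add, norm_neg] at h1
    refine h1.trans ?_
    have := hlam1 y
    calc C5 * ‖lam y‖ ^ 2 ≤ C5 * (C4 * S) := by gcongr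
      _ = C5 * C4 * S := by ring
  have e3 : ∀ y, ‖(((h y)⁻¹ : SU N) : Mt N) - 1 - lam y‖ ≤ C5 * C4 * S := fun y => by
    have h1 : (((h y)⁻¹ : SU N) : Mt N) - 1 - lam y = ((h y : Mt N) - 1 + lam y)ᴴ := by
      rw [conjTranspose_add, conjTranspose_sub, conjTranspose_one, cinv, (hlam y).1]
      abel
    rw [h1, Matrix.frobenius_norm_conjTranspose]
    exact e1 y
  have x1 : ∀ y, ‖(h y : Mt N) - 1‖ ^ 2 ≤ C6 * S := fun y => by
    have h1 : ‖(h y : Mt N) - 1‖ ≤ ‖lam y‖ + C5 * C4 * S := by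
      have h2 : (h y : Mt N) - 1 = ((h y : Mt N) - 1 + lam y) - lam y := by abel
      rw [h2]
      refine (norm_sub_le _ _).trans ?_
      rw [add_comm]
      gcongr
      exact e1 y
    have h3 := sq_add_le (norm_nonneg _) h1
    have h4 := hlam1 y
    have h5 : (C5 * C4 * S) ^ 2 ≤ (C5 * C4) ^ 2 * S := by
      have h6 : S ^ 2 ≤ S := sq_le_self S0 S1
      calc (C5 * C4 * S) ^ 2 = (C5 * C4) ^ 2 * S ^ 2 := by ring
        _ ≤ (C5 * C4) ^ 2 * S := by gcongr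
    calc ‖(h y : Mt N) - 1‖ ^ 2 ≤ 2 * (C4 * S) + 2 * ((C5 * C4) ^ 2 * S) := by linarith
      _ ≤ S + (2 * (C4 * S) + 2 * ((C5 * C4) ^ 2 * S)) := le_add_of_nonneg_left S0
      _ = C6 * S := by rw [hC6]; ring
  have x2 : ∀ y j, ‖lk V ψ y j‖ ^ 2 ≤ C6 * S := fun y j => by
    refine (hA y j).trans ?_
    have : 1 ≤ C6 := by
      have : 0 ≤ 2 * C4 + 2 * (C5 * C4) ^ 2 := by positivity
      linarith
    exact le_mul_of_one_le_left S0 this
  have htest : ∀ y j, ‖((act h ψ y j : SU N) : Mt N) - (V y j : Mt N)‖ ^ 2 ≤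
      2 * ‖ξ y j - dd V lam y j‖ ^ 2 + 2 * (Kt * S) ^ 2 := fun y j => by
    refine sq_add_le (norm_nonneg _) ?_
    exact stepE (h y) (h (tsh y j)) (ψ y j) (V y j) (lam y) (lam (tsh y j)) (ξ y j) S0 S1 c6
      (x1 y) (x1 _) (x2 y j) (e1 y) (hAξ y j) (e3 _)
  have hfin : S ≤ 2 * (C2 * (4 * VV k ψ + n * (2 * ((2 + 4 * C1) * S) ^ 2))) +
      2 * n * (2 * (Kt * S) ^ 2) := by
    refine (hmin h).trans ?_
    calc dst (act h ψ) V ≤ ∑ y, ∑ j, (2 * ‖ξ y j - dd V lam y j‖ ^ 2 + 2 * (Kt * S) ^ 2) :=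
          Finset.sum_le_sum fun y _ => Finset.sum_le_sum fun j _ => htest y j
      _ = 2 * (∑ y, ∑ j, ‖ξ y j - dd V lam y j‖ ^ 2) + ∑ y : Tor L, ∑ j : Fin 2, 2 * (Kt * S) ^ 2 := by
          simp only [Finset.sum_add_distrib, Finset.mul_sum]
      _ ≤ 2 * (C2 * (4 * VV k ψ + n * (2 * ((2 + 4 * C1) * S) ^ 2))) +
          2 * n * (2 * (Kt * S) ^ 2) := by
          have h1 := hl2.trans (mul_le_mul_of_nonneg_left hcrl c2.le)
          have h2 := sum2_le (L := L) (fun _ _ => 2 * (Kt * S) ^ 2) (c := 2 * (Kt * S) ^ 2)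
            (fun _ _ => le_rfl)
          linarith
  have hfin2 : S ≤ K1 * VV k ψ + K2 * S ^ 2 := by
    calc S ≤ _ := hfin
      _ = K1 * VV k ψ + K2 * S ^ 2 := by rw [hK1, hK2]; ring
  have hlast : K2 * S ^ 2 ≤ S / 2 := last_le S0 S2
  linarith

/-! ### the centre and D2 -/

omit [NeZero L] in
lemma om_eq (N m : ℕ) : om N m = Complex.exp (((2 * Real.pi * m / N : ℝ) : ℂ) * Complex.I) := by
  rw [om]
  congr 1
  push_cast
  ring

omit [NeZero L] in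
lemma om_norm (N m : ℕ) : ‖om N m‖ = 1 := by
  rw [om_eq, Complex.norm_exp_ofReal_mul_I]

omit [NeZero L] in
lemma om_pow {N : ℕ} (hN : N ≠ 0) (m : ℕ) : om N m ^ N = 1 := by
  rw [om, ← Complex.exp_nat_mul]
  have h : (N : ℂ) * (2 * Real.pi * Complex.I * m / N) = m * (2 * Real.pi * Complex.I) := by
    have : (N : ℂ) ≠ 0 := Nat.cast_ne_zero.2 hN
    field_simp
  rw [h, Complex.exp_nat_mul_two_pi_mul_I]

/-- central element of `SU N` -/
def zc (hN : N ≠ 0) (m : ℕ) : SU N := ⟨om N m • (1 : Mt N), by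
  rw [Matrix.mem_specialUnitaryGroup_iff, Matrix.mem_unitaryGroup_iff']
  constructor
  · rw [star_smul, star_one, Matrix.smul_mul, Matrix.one_mul, smul_smul, Complex.star_def,
      ← Complex.normSq_eq_conj_mul_self, Complex.normSq_eq_norm_sq, om_norm]
    norm_num
  · rw [Matrix.det_smul, Matrix.det_one, mul_one, Fintype.card_fin, om_pow hN]⟩

lemma zc_coe (hN : N ≠ 0) (m : ℕ) : (zc hN m : Mt N) = om N m • (1 : Mt N) := rfl

lemma zc_comm (hN : N ≠ 0) (m : ℕ) (g : SU N) : zc hN m * g = g * zc hN m := by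
  apply Subtype.ext
  rw [cmul, cmul, zc_coe, Matrix.smul_mul, Matrix.one_mul, Matrix.mul_smul, Matrix.mul_one]

lemma zc_comm' (hN : N ≠ 0) (m : ℕ) (g : SU N) : (zc hN m)⁻¹ * g = g * (zc hN m)⁻¹ := by
  have h := zc_comm hN m g
  rw [inv_mul_eq_iff_eq_mul, ← mul_assoc, h, mul_assoc, mul_inv_cancel, mul_one]

lemma act_zc (hN : N ≠ 0) (m : ℕ) (U : Tor L → SU N) (φ : Ph N L) :
    act (fun y => (zc hN m)⁻¹ * U y) φ = act U φ := by
  funext y j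
  simp only [act, _root_.mul_inv_rev, inv_inv]
  rw [mul_assoc (zc hN m)⁻¹, mul_assoc (zc hN m)⁻¹, zc_comm' hN m]
  simp only [mul_assoc, mul_inv_cancel, mul_one]

lemma norm_zc (hN : N ≠ 0) (m : ℕ) (g : SU N) :
    ‖(((zc hN m)⁻¹ * g : SU N) : Mt N) - 1‖ = ‖(g : Mt N) - om N m • (1 : Mt N)‖ := by
  have h : (((zc hN m)⁻¹ * g : SU N) : Mt N) - 1 =
      (((zc hN m)⁻¹ : SU N) : Mt N) * ((g : Mt N) - om N m • (1 : Mt N)) := by
    rw [← zc_coe hN m, Matrix.mul_sub, ig, cmul]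
  rw [h, nl]

lemma dact (u u' V : SU N) : ((u * V * u'⁻¹ : SU N) : Mt N) - (V : Mt N) =
    (((u : Mt N) - 1) - Adj V ((u' : Mt N) - 1)) * ((V * u'⁻¹ : SU N) : Mt N) := by
  rw [adj_sub]
  simp only [Adj, Matrix.mul_one, gi, cmul, Matrix.sub_mul, Matrix.mul_assoc, ig', ig, gi, gi',
    Matrix.one_mul]
  abel

theorem near2 {P Q : SU N} {C1 C3 : ℝ} (c1 : 0 < C1) (c3 : 0 < C3)
    (p1 : ∀ M : Mt N, pr M ∈ su N)
    (p6 : ∀ g : SU N, ‖((g : Mt N) - 1) - pr ((g : Mt N) - 1)‖ ≤ C1 * ‖(g : Mt N) - 1‖ ^ 2)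
    (hC1 : ∀ lam : Tor L → Mt N, (∀ y, (lam y).trace = 0) →
      ∑ y, ‖lam y‖ ^ 2 ≤ C3 * ∑ y, ∑ j, ‖dd (vac P Q) lam y j‖ ^ 2) :
    ∃ ρ K : ℝ, 0 < ρ ∧ 0 < K ∧ ∀ u : Tor L → SU N, ∑ y, ‖(u y : Mt N) - 1‖ ^ 2 ≤ ρ →
      ∑ y, ‖(u y : Mt N) - 1‖ ^ 2 ≤ K * dst (act u (vac P Q)) (vac P Q) := by
  set V : Ph N L := vac P Q with hVdef
  set n : ℝ := (Fintype.card (Tor L) : ℝ) with hn
  have n0 : 0 ≤ n := by positivity
  set K2 : ℝ := 32 * C3 * n * C1 ^ 2 + 2 * n * C1 ^ 2 with hK2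
  have k2 : 0 ≤ K2 := by positivity
  refine ⟨1 / (2 * (K2 + 1)), 2 * (4 * C3), by positivity, by positivity, fun u hu => ?_⟩
  set S : ℝ := ∑ y, ‖(u y : Mt N) - 1‖ ^ 2 with hS
  have S0 : 0 ≤ S := Finset.sum_nonneg fun _ _ => by positivity
  have S2 : S * (2 * (K2 + 1)) ≤ 1 := by
    rwa [le_div_iff₀ (by positivity)] at hu
  have hA : ∀ y, ‖(u y : Mt N) - 1‖ ^ 2 ≤ S := fun y =>
    Finset.single_le_sum (f := fun y => ‖(u y : Mt N) - 1‖ ^ 2) (fun y _ => by positivity)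
      (Finset.mem_univ y)
  set lam : Tor L → Mt N := fun y => pr ((u y : Mt N) - 1) with hlam
  have he : ∀ y, ‖((u y : Mt N) - 1) - lam y‖ ≤ C1 * S := fun y => by
    refine (p6 (u y)).trans ?_
    gcongr
    exact hA y
  have hd : ∀ y j, ‖((act u V y j : SU N) : Mt N) - (V y j : Mt N)‖ =
      ‖((u y : Mt N) - 1) - Adj (V y j) ((u (tsh y j) : Mt N) - 1)‖ := fun y j => by
    rw [act, dact, nr]
  have hl : ∀ y j, ‖dd V lam y j‖ ^ 2 ≤
      2 * ‖((act u V y j : SU N) : Mt N) - (V y j : Mt N)‖ ^ 2 + 2 * (2 * C1 * S) ^ 2 :=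
    fun y j => by
      refine sq_add_le (norm_nonneg _) ?_
      have h1 : dd V lam y j = (((u y : Mt N) - 1) - Adj (V y j) ((u (tsh y j) : Mt N) - 1)) -
          (((u y : Mt N) - 1) - lam y) +
          Adj (V y j) (((u (tsh y j) : Mt N) - 1) - lam (tsh y j)) := by
        rw [dd, adj_sub (A := (u (tsh y j) : Mt N) - 1)]
        abel
      rw [h1, hd]
      refine (norm_add_le _ _).trans ?_
      rw [nadj]
      have h2 := norm_sub_le (((u y : Mt N) - 1) - Adj (V y j) ((u (tsh y j) : Mt N) - 1))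
        (((u y : Mt N) - 1) - lam y)
      have h3 := he y
      have h4 := he (tsh y j)
      linarith
  have hs1 : ∑ y, ∑ j, ‖dd V lam y j‖ ^ 2 ≤ 2 * dst (act u V) V + 2 * n * (2 * (2 * C1 * S) ^ 2) := by
    calc ∑ y, ∑ j, ‖dd V lam y j‖ ^ 2
        ≤ ∑ y : Tor L, ∑ j : Fin 2, (2 * ‖((act u V y j : SU N) : Mt N) - (V y j : Mt N)‖ ^ 2 +
            2 * (2 * C1 * S) ^ 2) :=
          Finset.sum_le_sum fun y _ => Finset.sum_le_sum fun j _ => hl y j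
      _ = 2 * dst (act u V) V + ∑ y : Tor L, ∑ j : Fin 2, 2 * (2 * C1 * S) ^ 2 := by
          simp only [Finset.sum_add_distrib, Finset.mul_sum, dst]
      _ ≤ 2 * dst (act u V) V + 2 * n * (2 * (2 * C1 * S) ^ 2) := by
          have h2 := sum2_le (L := L) (fun _ _ => 2 * (2 * C1 * S) ^ 2)
            (c := 2 * (2 * C1 * S) ^ 2) (fun _ _ => le_rfl)
          linarith
  have hs2 := hC1 lam fun y => (p1 _).2
  have hs3 : S ≤ 2 * (∑ y, ‖lam y‖ ^ 2) + n * (2 * (C1 * S) ^ 2) := by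
    have h1 : ∀ y, ‖(u y : Mt N) - 1‖ ^ 2 ≤ 2 * ‖lam y‖ ^ 2 + 2 * (C1 * S) ^ 2 := fun y => by
      refine sq_add_le (norm_nonneg _) ?_
      have h2 : (u y : Mt N) - 1 = lam y + (((u y : Mt N) - 1) - lam y) := by abel
      calc ‖(u y : Mt N) - 1‖ = ‖lam y + (((u y : Mt N) - 1) - lam y)‖ := by rw [← h2]
        _ ≤ ‖lam y‖ + ‖((u y : Mt N) - 1) - lam y‖ := norm_add_le _ _
        _ ≤ ‖lam y‖ + C1 * S := by
            gcongr
            exact he y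
    calc S ≤ ∑ y : Tor L, (2 * ‖lam y‖ ^ 2 + 2 * (C1 * S) ^ 2) :=
          Finset.sum_le_sum fun y _ => h1 y
      _ = 2 * (∑ y, ‖lam y‖ ^ 2) + n * (2 * (C1 * S) ^ 2) := by
          rw [Finset.sum_add_distrib, ← Finset.mul_sum, Finset.sum_const, Finset.card_univ,
            nsmul_eq_mul]
  have hfin : S ≤ 4 * C3 * dst (act u V) V + K2 * S ^ 2 := by
    have h1 := hs2.trans (mul_le_mul_of_nonneg_left hs1 c3.le)
    calc S ≤ 2 * (C3 * (2 * dst (act u V) V + 2 * n * (2 * (2 * C1 * S) ^ 2))) +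
          n * (2 * (C1 * S) ^ 2) := by linarith
      _ = 4 * C3 * dst (act u V) V + K2 * S ^ 2 := by rw [hK2]; ring
  have hlast : K2 * S ^ 2 ≤ S / 2 := last_le S0 S2
  linarith

lemma far2 {P Q : SU N} (hN : N ≠ 0)
    (hB2 : ∀ U : Tor L → SU N, act U (vac P Q) = vac P Q →
      ∃ m : Fin N, ∀ y, (U y : Mt N) = om N m • (1 : Mt N)) {ρ : ℝ} (hρ : 0 < ρ) :
    ∃ C : ℝ, 0 < C ∧ ∀ U : Tor L → SU N,
      (∀ m : Fin N, ρ ≤ ∑ y, ‖(U y : Mt N) - om N m • (1 : Mt N)‖ ^ 2) →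
      ∀ m : Fin N, ∑ y, ‖(U y : Mt N) - om N m • (1 : Mt N)‖ ^ 2 ≤
        C * dst (act U (vac P Q)) (vac P Q) := by
  have hcm : ∀ m : Fin N, Continuous fun U : Tor L → SU N =>
      ∑ y, ‖(U y : Mt N) - om N m • (1 : Mt N)‖ ^ 2 := fun m => by
    refine continuous_finsetSum _ fun y _ => ?_
    refine Continuous.pow ?_ _
    refine Continuous.norm ?_
    exact (cont_coe.comp (continuous_apply y)).sub continuous_const
  have hcd : Continuous fun U : Tor L → SU N => dst (act U (vac P Q)) (vac P Q : Ph N L) :=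
    cont_dst_act (vac P Q) (fun h => h) (fun _ => vac P Q) (fun y => continuous_apply y)
      (fun _ _ => continuous_const)
  have hB : ∃ B : ℝ, 0 < B ∧ ∀ (m : Fin N) (U : Tor L → SU N),
      ∑ y, ‖(U y : Mt N) - om N m • (1 : Mt N)‖ ^ 2 ≤ B := by
    have h1 : ∀ m : Fin N, ∃ B : ℝ, ∀ U : Tor L → SU N,
        ∑ y, ‖(U y : Mt N) - om N m • (1 : Mt N)‖ ^ 2 ≤ B := fun m => by
      obtain ⟨B, hB⟩ := (isCompact_range (hcm m)).bddAbove
      exact ⟨B, fun U => hB (Set.mem_range_self U)⟩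
    choose B hB using h1
    refine ⟨1 + ∑ m, |B m|, by positivity, fun m U => (hB m U).trans ?_⟩
    have h2 := Finset.single_le_sum (f := fun m => |B m|) (fun m _ => abs_nonneg _)
      (Finset.mem_univ m)
    have h3 := le_abs_self (B m)
    linarith
  obtain ⟨B, hB0, hB⟩ := hB
  have hcl : IsClosed {U : Tor L → SU N |
      ∀ m : Fin N, ρ ≤ ∑ y, ‖(U y : Mt N) - om N m • (1 : Mt N)‖ ^ 2} := by
    have : {U : Tor L → SU N | ∀ m : Fin N, ρ ≤ ∑ y, ‖(U y : Mt N) - om N m • (1 : Mt N)‖ ^ 2} =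
        ⋂ m : Fin N, {U : Tor L → SU N | ρ ≤ ∑ y, ‖(U y : Mt N) - om N m • (1 : Mt N)‖ ^ 2} := by
      ext φ
      simp
    rw [this]
    exact isClosed_iInter fun m => isClosed_le continuous_const (hcm m)
  have hpos : ∀ U ∈ {U : Tor L → SU N |
      ∀ m : Fin N, ρ ≤ ∑ y, ‖(U y : Mt N) - om N m • (1 : Mt N)‖ ^ 2},
      0 < dst (act U (vac P Q)) (vac P Q : Ph N L) := by
    intro U hU
    rcases (dst_nonneg (act U (vac P Q)) (vac P Q : Ph N L)).lt_or_eq with h | h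
    · exact h
    · obtain ⟨m, hm⟩ := hB2 U (eq_of_dst h.symm)
      have h1 := hU m
      have h2 : ∑ y, ‖(U y : Mt N) - om N m • (1 : Mt N)‖ ^ 2 = 0 :=
        Finset.sum_eq_zero fun y _ => by rw [hm y]; simp
      rw [h2] at h1
      linarith
  obtain ⟨c, hc0, hc⟩ := (hcl.isCompact).exists_forall_le' hcd.continuousOn hpos
  refine ⟨B / c, by positivity, fun U hU m => ?_⟩
  calc ∑ y, ‖(U y : Mt N) - om N m • (1 : Mt N)‖ ^ 2 ≤ B := hB m U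
    _ = B / c * c := by field_simp
    _ ≤ B / c * dst (act U (vac P Q)) (vac P Q) := by
        have := hc U hU
        gcongr

end T2H02.TT.PkgD

namespace T2H02.TT

open PkgD

theorem pD1 (hB0 : S_B0) (hB1 : S_B1) (hC1 : S_C1) (hC2 : S_C2) (hE4 : S_E4) : S_D1 := by
  intro N k L _ hN hk P Q hPQ
  obtain ⟨p1, p2, -, p4, -, ⟨C1, c1, p6⟩, E, C5, c5, -, -, -, p7⟩ := hE4 N hN
  obtain ⟨C3, c3, h3⟩ := hC1 N k L hN hk P Q hPQ
  obtain ⟨C2, c2, h2⟩ := hC2 N k L hN hk P Q hPQ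
  obtain ⟨ρ, K, r0, k0, hnear⟩ := near1 (k := k) c1 c2 c3 c5 (hB0 N k L hN hk P Q hPQ) p1 p2 p4
    p6 E p7 h3 h2
  obtain ⟨C, c0, hfar⟩ := far1 (hB1 N k L hN hk P Q hPQ) r0
  refine ⟨max K C, by positivity, fun φ => ?_⟩
  obtain ⟨g, hg⟩ := exists_min φ (vac P Q : Ph N L)
  refine ⟨g, ?_⟩
  have hV := VV_nonneg k φ
  rcases le_total (dst (act g φ) (vac P Q)) ρ with h | h
  · have h1 := hnear (act g φ) (fun h => by rw [act_act]; exact hg _) h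
    rw [VV_act] at h1
    refine h1.trans ?_
    gcongr
    exact le_max_left _ _
  · have h1 := hfar φ (fun g' => h.trans (hg g')) g
    refine h1.trans ?_
    gcongr
    exact le_max_right _ _

theorem pD2 (hB2 : S_B2) (hC1 : S_C1) (hE4 : S_E4) : S_D2 := by
  intro N k L _ hN hk P Q hPQ
  have hN0 : N ≠ 0 := by omega
  obtain ⟨p1, -, -, -, -, ⟨C1, c1, p6⟩, -⟩ := hE4 N hN
  obtain ⟨C3, c3, h3⟩ := hC1 N k L hN hk P Q hPQ
  obtain ⟨ρ, K, r0, k0, hnear⟩ := near2 c1 c3 p1 p6 h3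
  obtain ⟨C, c0, hfar⟩ := far2 (L := L) hN0 (hB2 N k L hN hk P Q hPQ) r0
  refine ⟨max K C, by positivity, fun U => ?_⟩
  have hV := dst_nonneg (act U (vac P Q)) (vac P Q : Ph N L)
  by_cases h : ∃ m : Fin N, ∑ y, ‖(U y : Mt N) - om N m • (1 : Mt N)‖ ^ 2 ≤ ρ
  · obtain ⟨m, hm⟩ := h
    refine ⟨m, ?_⟩
    have h1 := hnear (fun y => (zc hN0 m)⁻¹ * U y)
    simp only [norm_zc, act_zc] at h1
    refine (h1 hm).trans ?_
    gcongr
    exact le_max_left _ _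
  · push Not at h
    refine ⟨⟨0, by omega⟩, ?_⟩
    refine (hfar U (fun m => (h m).le) _).trans ?_
    gcongr
    exact le_max_right _ _

end T2H02.TT
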