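import Pool.Agent.T2H02.TT.Stm2
import Pool.Agent.T2H02.TT.D

/-!
# Package J : plane links near the centre, gauge and centre invariance
-/

set_option autoImplicit false
set_option linter.unusedSectionVars false
set_option linter.unusedVariables false

noncomputable section

open MeasureTheory Matrix
open scoped Matrix.Norms.Frobenius

namespace T2H02.TT.PkgJ

open T2H02.TT T2H02.TT.PkgD

variable {N L : ℕ} [NeZero L]

lemma dst_act (U : Tor L → SU N) (φ ψ : Ph N L) : dst (act U φ) (act U ψ) = dst φ ψ := by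
  unfold dst
  refine Finset.sum_congr rfl fun y _ => Finset.sum_congr rfl fun j _ => ?_
  have h : ((act U φ y j : SU N) : Mt N) - ((act U ψ y j : SU N) : Mt N) =
      (U y : Mt N) * ((φ y j : Mt N) - (ψ y j : Mt N)) * (((U (tsh y j))⁻¹ : SU N) : Mt N) := by
    simp only [act, cmul]
    rw [Matrix.mul_sub, Matrix.sub_mul]
  rw [h, nr, nl]

lemma dst_act_eq (U : Tor L → SU N) (φ ψ : Ph N L) : dst (act U ψ) φ =
    ∑ y, ∑ j, ‖(U y : Mt N) * (ψ y j : Mt N) - (φ y j : Mt N) * (U (tsh y j) : Mt N)‖ ^ 2 := by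
  unfold dst
  refine Finset.sum_congr rfl fun y _ => Finset.sum_congr rfl fun j _ => ?_
  have h : ((act U ψ y j : SU N) : Mt N) - (φ y j : Mt N) =
      ((U y : Mt N) * (ψ y j : Mt N) - (φ y j : Mt N) * (U (tsh y j) : Mt N)) *
        (((U (tsh y j))⁻¹ : SU N) : Mt N) := by
    simp only [act, cmul]
    rw [Matrix.sub_mul, Matrix.mul_assoc (φ y j : Mt N), gi, Matrix.mul_one]
  rw [h, nr]

lemma dst_symm (φ ψ : Ph N L) : dst φ ψ = dst ψ φ := by
  unfold dst
  refine Finset.sum_congr rfl fun y _ => Finset.sum_congr rfl fun j _ => ?_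
  rw [norm_sub_rev]

lemma dst_tri3 (a b c d : Ph N L) : dst a d ≤ 3 * (dst a b + dst b c + dst c d) := by
  unfold dst
  rw [← Finset.sum_add_distrib, ← Finset.sum_add_distrib, Finset.mul_sum]
  refine Finset.sum_le_sum fun y _ => ?_
  rw [← Finset.sum_add_distrib, ← Finset.sum_add_distrib, Finset.mul_sum]
  refine Finset.sum_le_sum fun j _ => ?_
  have h : (a y j : Mt N) - (d y j : Mt N) = ((a y j : Mt N) - (b y j : Mt N)) +
      ((b y j : Mt N) - (c y j : Mt N)) + ((c y j : Mt N) - (d y j : Mt N)) := by abel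
  have h1 : ‖(a y j : Mt N) - (d y j : Mt N)‖ ≤ ‖(a y j : Mt N) - (b y j : Mt N)‖ +
      ‖(b y j : Mt N) - (c y j : Mt N)‖ + ‖(c y j : Mt N) - (d y j : Mt N)‖ := by
    rw [h]
    exact norm_add₃_le
  have h2 := norm_nonneg ((a y j : Mt N) - (d y j : Mt N))
  have h3 := norm_nonneg ((a y j : Mt N) - (b y j : Mt N))
  have h4 := norm_nonneg ((b y j : Mt N) - (c y j : Mt N))
  have h5 := norm_nonneg ((c y j : Mt N) - (d y j : Mt N))
  nlinarith [sq_nonneg (‖(a y j : Mt N) - (b y j : Mt N)‖ - ‖(b y j : Mt N) - (c y j : Mt N)‖),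
    sq_nonneg (‖(a y j : Mt N) - (b y j : Mt N)‖ - ‖(c y j : Mt N) - (d y j : Mt N)‖),
    sq_nonneg (‖(b y j : Mt N) - (c y j : Mt N)‖ - ‖(c y j : Mt N) - (d y j : Mt N)‖)]

end T2H02.TT.PkgJ

namespace T2H02.TT

open PkgD PkgJ

theorem pJ (hD2 : S_D2) : S_J := by
  intro N k L _ hN hk P Q hPQ
  obtain ⟨C, hC, h⟩ := hD2 N k L hN hk P Q hPQ
  refine ⟨9 * C, by positivity, fun φ ψ U e h1 h2 h3 => ?_⟩
  obtain ⟨m, hm⟩ := h U
  refine ⟨m, hm.trans ?_⟩
  rw [← dst_act_eq] at h3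
  have h4 := dst_tri3 (act U (vac P Q)) (act U ψ) φ (vac P Q)
  rw [dst_act, dst_symm (vac P Q) ψ] at h4
  have h5 : dst (act U (vac P Q)) (vac P Q) ≤ 9 * e := by linarith
  calc _ ≤ C * (9 * e) := mul_le_mul_of_nonneg_left h5 hC.le
    _ = _ := by ring

end T2H02.TT

namespace T2H02.TT.PkgJ

open T2H02.TT T2H02.TT.PkgD

variable {N L : ℕ} [NeZero L]

/-! ### gauge invariance -/

lemma nx_comm (p : Pt L) (i j : Fin 4) : nx (nx p i) j = nx (nx p j) i := by
  obtain ⟨x, y⟩ := p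
  have ht : tsh (tsh y 1) 0 = tsh (tsh y 0) 1 := PkgD.tsh_comm y
  have hx : x + pe i + pe j = x + pe j + pe i := by abel
  unfold nx
  simp only [hx]
  congr 1
  fin_cases i <;> fin_cases j <;> simp [ht]

lemma df_gau (g : Pt L → SU N) (X : Cf N L) (z : ℂ) (p : Pt L) (i j : Fin 4) :
    df (gau g X) z p i j =
      (g p : Mt N) * df X z p i j * (((g (nx (nx p i) j))⁻¹ : SU N) : Mt N) := by
  unfold df gau
  simp only [cmul]
  rw [nx_comm p j i]
  simp only [Matrix.mul_sub, Matrix.sub_mul, Matrix.mul_smul, Matrix.smul_mul, Matrix.mul_assoc, ig']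

lemma norm_df_gau (g : Pt L → SU N) (X : Cf N L) (z : ℂ) (p : Pt L) (i j : Fin 4) :
    ‖df (gau g X) z p i j‖ = ‖df X z p i j‖ := by
  rw [df_gau, nr, nl]

lemma eV_gau (k : ℕ) (g : Pt L → SU N) (X : Cf N L) (x : Pl) : eV k (gau g X) x = eV k X x := by
  unfold eV
  simp only [norm_df_gau]

lemma eK_gau (g : Pt L → SU N) (X : Cf N L) (x : Pl) (m : Fin 4) :
    eK (gau g X) x m = eK X x m := by
  unfold eK
  simp only [norm_df_gau]

lemma eP_gau (g : Pt L → SU N) (X : Cf N L) (z : ℂ) (x : Pl) :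
    eP (gau g X) z x = eP X z x := by
  unfold eP
  simp only [norm_df_gau]

lemma en_gau (k : ℕ) (g : Pt L → SU N) (X : Cf N L) (τ : Tm) : en k (gau g X) τ = en k X τ := by
  unfold en
  simp only [eV_gau, eK_gau, eP_gau]

lemma wt_gau (k : ℕ) (β : ℝ) (g : Pt L → SU N) (X : Cf N L) (τ : Tm) :
    wt k β τ (gau g X) = wt k β τ X := by
  unfold wt
  simp only [en_gau, eP_gau]

/-! ### centre invariance -/

lemma cen_coe (m : ℕ) : (cen N m : Mt N) = om N m • (1 : Mt N) := rfl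

lemma cen_comm (m : ℕ) (g : SU N) : cen N m * g = g * cen N m := by
  apply Subtype.ext
  rw [cmul, cmul, cen_coe, Matrix.smul_mul, Matrix.one_mul, Matrix.mul_smul, Matrix.mul_one]

lemma om_add (hN : N ≠ 0) (a b : ℕ) : om N (a + b) = om N a * om N b := by
  unfold om
  rw [← Complex.exp_add]
  congr 1
  push_cast
  ring

lemma om_mulN (hN : N ≠ 0) (a : ℕ) : om N (N * a) = 1 := by
  unfold om
  have h : (2 * Real.pi * Complex.I * ((N * a : ℕ) : ℂ) / N : ℂ) = a * (2 * Real.pi * Complex.I) := by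
    have : (N : ℂ) ≠ 0 := Nat.cast_ne_zero.2 hN
    push_cast
    field_simp
  rw [h, Complex.exp_nat_mul_two_pi_mul_I]

lemma om_mod (hN : N ≠ 0) (a : ℕ) : om N (a % N) = om N a := by
  conv_rhs => rw [← Nat.mod_add_div a N]
  rw [om_add hN, om_mulN hN, mul_one]

lemma om_inv (hN : N ≠ 0) (a : ℕ) : om N a * om N ((N - 1) * a) = 1 := by
  rw [← om_add hN]
  have : a + (N - 1) * a = N * a := by
    obtain ⟨n, rfl⟩ := Nat.exists_eq_succ_of_ne_zero hN
    simp only [Nat.succ_sub_one]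
    rw [Nat.succ_mul]
    ring
  rw [this, om_mulN hN]

lemma pe_torus {i : Fin 4} (h : i = 2 ∨ i = 3) : pe i = 0 := by
  rcases h with rfl | rfl <;> rfl

lemma cmv_plane (z : Pl → Fin 4 → ℕ) (X : Cf N L) (p : Pt L) {i : Fin 4} (h : i = 0 ∨ i = 1) :
    cmv z X (p, i) = cen N (z p.1 i) * X (p, i) := by
  unfold cmv
  exact if_pos h

lemma cmv_torus (z : Pl → Fin 4 → ℕ) (X : Cf N L) (p : Pt L) {i : Fin 4} (h : i = 2 ∨ i = 3) :
    cmv z X (p, i) = X (p, i) := by
  unfold cmv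
  apply if_neg
  rcases h with rfl | rfl <;> simp

lemma eV_cmv (k : ℕ) (z : Pl → Fin 4 → ℕ) (X : Cf N L) (x : Pl) :
    eV k (cmv z X) x = eV k X x := by
  unfold eV
  refine Finset.sum_congr rfl fun y _ => ?_
  have : df (cmv z X) (tw N k y) (x, y) 2 3 = df X (tw N k y) (x, y) 2 3 := by
    unfold df
    rw [cmv_torus z X _ (Or.inl rfl), cmv_torus z X _ (Or.inr rfl), cmv_torus z X _ (Or.inr rfl),
      cmv_torus z X _ (Or.inl rfl)]
  rw [this]

lemma df_cmv_mixed (z : Pl → Fin 4 → ℕ) (X : Cf N L) (ζ : ℂ) (p : Pt L) {m j : Fin 4}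
    (hm : m = 0 ∨ m = 1) (hj : j = 2 ∨ j = 3) :
    ‖df (cmv z X) ζ p m j‖ = ‖df X ζ p m j‖ := by
  have h1 : (nx p j).1 = p.1 := by
    unfold nx
    rw [pe_torus hj]
    simp
  have : df (cmv z X) ζ p m j = (cen N (z p.1 m) : Mt N) * df X ζ p m j := by
    unfold df
    rw [cmv_plane z X _ hm, cmv_torus z X _ hj, cmv_torus z X _ hj, cmv_plane z X _ hm, h1,
      Matrix.mul_sub, Matrix.mul_smul, cmul, cmul, Matrix.mul_assoc, ← Matrix.mul_assoc (X (p, j) : Mt N),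
      ← Matrix.mul_assoc (cen N (z p.1 m) : Mt N) (X (p, j) : Mt N), ← cmul (cen N (z p.1 m)),
      cen_comm, cmul]
  rw [this, nl]

lemma eK_cmv (z : Pl → Fin 4 → ℕ) (X : Cf N L) (x : Pl) {m : Fin 4} (hm : m = 0 ∨ m = 1) :
    eK (cmv z X) x m = eK X x m := by
  unfold eK
  simp only [df_cmv_mixed z X 1 _ hm (Or.inl rfl), df_cmv_mixed z X 1 _ hm (Or.inr rfl)]

/-- the shift of the centre label at a plane plaquette -/
def tsf (N : ℕ) (z : Pl → Fin 4 → ℕ) (x : Pl) : ℕ :=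
  (z x 1 + z (x + (0, 1)) 0) + (N - 1) * (z x 0 + z (x + (1, 0)) 1)

lemma eP_cmv (hN : N ≠ 0) (z : Pl → Fin 4 → ℕ) (X : Cf N L) (x : Pl) (m : ℕ) :
    eP (cmv z X) (om N m) x = eP X (om N (m + tsf N z x)) x := by
  unfold eP
  refine Finset.sum_congr rfl fun y _ => ?_
  have : df (cmv z X) (om N m) (x, y) 0 1 = (cen N (z x 0 + z (x + (1, 0)) 1) : Mt N) *
      df X (om N (m + tsf N z x)) (x, y) 0 1 := by
    unfold df
    rw [cmv_plane z X _ (Or.inl rfl), cmv_plane z X _ (Or.inr rfl), cmv_plane z X _ (Or.inr rfl),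
      cmv_plane z X _ (Or.inl rfl), nx0, nx1]
    simp only [cmul, cen_coe, Matrix.smul_mul, Matrix.one_mul, Matrix.mul_smul, Matrix.mul_sub,
      smul_smul]
    congr 1
    · congr 1
      rw [om_add hN, mul_comm]
    · congr 1
      unfold tsf
      have h1 := om_inv hN (z x 0 + z (x + (1, 0)) 1)
      rw [om_add hN m, om_add hN (z x 1 + z (x + (0, 1)) 0), om_add hN (z x 1)]
      calc _ = om N m * (om N (z x 1) * om N (z (x + (0, 1)) 0)) := by ring
        _ = (om N (z x 0 + z (x + (1, 0)) 1) * om N ((N - 1) * (z x 0 + z (x + (1, 0)) 1))) *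
            (om N m * (om N (z x 1) * om N (z (x + (0, 1)) 0))) := by rw [h1, one_mul]
        _ = _ := by ring
  rw [this, nl]

/-- shifting the label -/
def shE (hN : N ≠ 0) (t : ℕ) : Fin N ≃ Fin N :=
  haveI : NeZero N := ⟨hN⟩
  Equiv.addRight (Fin.ofNat N t)

lemma om_shE (hN : N ≠ 0) (t : ℕ) (m : Fin N) : om N (shE hN t m : ℕ) = om N (m + t) := by
  have : NeZero N := ⟨hN⟩
  have h : ((shE hN t m : Fin N) : ℕ) = (m + t) % N := by
    unfold shE
    rw [Equiv.coe_addRight, Fin.val_add, Fin.val_ofNat, Nat.add_mod_mod]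
  rw [h, om_mod hN]

lemma en_cmv (hN : N ≠ 0) (k : ℕ) (z : Pl → Fin 4 → ℕ) (X : Cf N L) (τ : Tm) :
    en k (cmv z X) τ = en k X τ := by
  unfold en
  rw [eV_cmv, eK_cmv z X _ (Or.inl rfl), eK_cmv z X _ (Or.inr rfl)]
  have : (⨅ m : Fin N, eP (cmv z X) (om N m) τ.1) = ⨅ m : Fin N, eP X (om N m) τ.1 := by
    simp only [eP_cmv hN]
    rw [← (shE hN (tsf N z τ.1)).iInf_comp (g := fun m : Fin N => eP X (om N m) τ.1)]
    simp only [om_shE]
  rw [this]

lemma wt_cmv (hN : N ≠ 0) (k : ℕ) (β : ℝ) (z : Pl → Fin 4 → ℕ) (X : Cf N L) (τ : Tm) :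
    wt k β τ (cmv z X) = wt k β τ X := by
  unfold wt
  rw [en_cmv hN]
  have : ∑ m : Fin N, Real.exp (-β * eP (cmv z X) (om N m) τ.1) =
      ∑ m : Fin N, Real.exp (-β * eP X (om N m) τ.1) := by
    simp only [eP_cmv hN]
    rw [← (shE hN (tsf N z τ.1)).sum_comp (fun m : Fin N => Real.exp (-β * eP X (om N m) τ.1))]
    simp only [om_shE]
  rw [this]

/-! ### equivariance of the change of variables -/

lemma stg_gau (J : Set (Lk L)) (c : Lk L → Cf N L → SU N) (g : Pt L → SU N) (X : Cf N L)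
    (h : ∀ l ∈ J, c l (gau g X) = g l.1 * c l X * (g l.1)⁻¹) :
    stg J c (gau g X) = gau g (stg J c X) := by
  funext l
  unfold stg
  by_cases hl : l ∈ J
  · simp only [if_pos hl]
    rw [h l hl]
    simp only [gau, if_pos hl, mul_assoc, inv_mul_cancel_left]
  · simp only [if_neg hl, gau]

lemma stg_cmv (J : Set (Lk L)) (c : Lk L → Cf N L → SU N) (z : Pl → Fin 4 → ℕ) (X : Cf N L)
    (h : ∀ l ∈ J, c l (cmv z X) = c l X) :
    stg J c (cmv z X) = cmv z (stg J c X) := by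
  funext l
  unfold stg
  by_cases hl : l ∈ J
  · simp only [if_pos hl, cmv]
    rw [h l hl]
    split_ifs
    · rw [← mul_assoc, ← cen_comm, mul_assoc]
    · rfl
  · simp only [if_neg hl, cmv]

lemma pt_gau (g : Pt L → SU N) (X : Cf N L) (x : Pl) :
    pt (gau g X) x = act (fun y => g (x, y)) (pt X x) := by
  funext y j
  fin_cases j
  · simp [pt, gau, act, nx2]
  · simp [pt, gau, act, nx3]

lemma pt_cmv (z : Pl → Fin 4 → ℕ) (X : Cf N L) (x : Pl) : pt (cmv z X) x = pt X x := by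
  funext y j
  fin_cases j
  · exact cmv_torus z X _ (Or.inl rfl)
  · exact cmv_torus z X _ (Or.inr rfl)

lemma Adj_mul (g h : SU N) (M : Mt N) : Adj (g * h) M = Adj g (Adj h M) := by
  unfold Adj
  rw [_root_.mul_inv_rev]
  simp only [cmul, Matrix.mul_assoc]

lemma Adj_cen (m : ℕ) (g : SU N) (M : Mt N) : Adj (cen N m * g) M = Adj g M := by
  rw [cen_comm, Adj_mul]
  congr 1
  unfold Adj
  have h : (cen N m : Mt N) * M = M * (cen N m : Mt N) := by
    rw [cen_coe, Matrix.smul_mul, Matrix.one_mul, Matrix.mul_smul, Matrix.mul_one]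
  rw [h, Matrix.mul_assoc, gi, Matrix.mul_one]

end T2H02.TT.PkgJ

namespace T2H02.TT

open PkgD PkgJ

theorem pJI (hE2 : S_E2) : S_JI := by
  intro N k L _ hN g z X
  have hN0 : N ≠ 0 := by omega
  refine ⟨fun τ => ⟨en_gau k g X τ, en_cmv hN0 k z X τ⟩,
    fun β τ => ⟨wt_gau k β g X τ, wt_cmv hN0 k β z X τ⟩, fun P Q E h hE => ⟨?_, ?_⟩⟩
  · have hT : ∀ (Y : Cf N L) (l : Lk L), cT P Q E h l (gau g Y) = g l.1 * cT P Q E h l Y * (g l.1)⁻¹ := by
      intro Y l
      unfold cT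
      obtain ⟨⟨x, y⟩, i⟩ := l
      simp only
      rw [pt_gau, hE2 N L hN P Q, ← hE, ← Adj_mul, ← Adj_mul]
      congr 2
      simp only [gau, nx0, mul_assoc, inv_mul_cancel, mul_one]
    have hU : ∀ (Y : Cf N L) (l : Lk L), cU P Q E h l (gau g Y) = g l.1 * cU P Q E h l Y * (g l.1)⁻¹ := by
      intro Y l
      unfold cU
      rw [pt_gau, hE2 N L hN P Q, ← hE]
    unfold TM
    rw [stg_gau _ _ g X (fun l _ => hT X l), stg_gau _ _ g _ (fun l _ => hT _ l),
      stg_gau _ _ g _ (fun l _ => hU _ l)]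
  · have hT : ∀ (Y : Cf N L) (l : Lk L), cT P Q E h l (cmv z Y) = cT P Q E h l Y := by
      intro Y l
      unfold cT
      rw [pt_cmv, cmv_plane z Y _ (Or.inl rfl), Adj_cen]
    have hU : ∀ (Y : Cf N L) (l : Lk L), cU P Q E h l (cmv z Y) = cU P Q E h l Y := by
      intro Y l
      unfold cU
      rw [pt_cmv]
    unfold TM
    rw [stg_cmv _ _ z X (fun l _ => hT X l), stg_cmv _ _ z _ (fun l _ => hT _ l),
      stg_cmv _ _ z _ (fun l _ => hU _ l)]

end T2H02.TT
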