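import Pool.Agent.T2H02.TT.Stm2
import Pool.Agent.T2H02.TT.D

/-!
# Package LL : expansions near the vacuum
-/

set_option autoImplicit false
set_option linter.unusedSectionVars false
set_option linter.unusedVariables false

noncomputable section

open MeasureTheory Matrix
open scoped Matrix.Norms.Frobenius

namespace T2H02.TT.PkgLL

open T2H02.TT T2H02.TT.PkgD

variable {N L : ℕ} [NeZero L]

/-! ### general facts -/

lemma ip_self (A : Mt N) : ip A A = ‖A‖ ^ 2 := (fr_sq A).symm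

lemma ip_comm (A B : Mt N) : ip A B = ip B A := by
  unfold ip
  have h : (Aᴴ * B).trace = star ((Bᴴ * A).trace) := by
    rw [← trace_conjTranspose, conjTranspose_mul, conjTranspose_conjTranspose]
  rw [h, Complex.star_def, Complex.conj_re]

lemma ip_add (A B C : Mt N) : ip (A + B) C = ip A C + ip B C := by
  unfold ip
  rw [conjTranspose_add, Matrix.add_mul, trace_add, Complex.add_re]

lemma norm_entry' (M : Mt N) (i j : Fin N) : ‖M i j‖ ≤ ‖M‖ := by
  have h : ‖M i j‖ ^ 2 ≤ ‖M‖ ^ 2 := by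
    rw [Matrix.frobenius_norm_def, ← Real.sqrt_eq_rpow, Real.sq_sqrt (by positivity)]
    have h1 : ‖M i j‖ ^ 2 = ‖M i j‖ ^ (2 : ℝ) := by norm_num
    rw [h1]
    have h2 : ‖M i j‖ ^ (2 : ℝ) ≤ ∑ j, ‖M i j‖ ^ (2 : ℝ) :=
      Finset.single_le_sum (f := fun j => ‖M i j‖ ^ (2 : ℝ)) (fun _ _ => by positivity)
        (Finset.mem_univ j)
    have h3 : ∑ j, ‖M i j‖ ^ (2 : ℝ) ≤ ∑ i, ∑ j, ‖M i j‖ ^ (2 : ℝ) :=
      Finset.single_le_sum (f := fun i => ∑ j, ‖M i j‖ ^ (2 : ℝ))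
        (fun _ _ => Finset.sum_nonneg fun _ _ => by positivity) (Finset.mem_univ i)
    exact h2.trans h3
  exact (sq_le_sq₀ (norm_nonneg _) (norm_nonneg _)).1 h

lemma abs_ip (A B : Mt N) : |ip A B| ≤ N * (‖A‖ * ‖B‖) := by
  unfold ip
  refine (Complex.abs_re_le_norm _).trans ?_
  have h1 : ‖(Aᴴ * B).trace‖ ≤ ∑ i : Fin N, ‖(Aᴴ * B)‖ := by
    unfold trace
    refine (norm_sum_le _ _).trans (Finset.sum_le_sum fun i _ => ?_)
    rw [diag_apply]
    exact norm_entry' _ _ _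
  refine h1.trans ?_
  rw [Finset.sum_const, Finset.card_univ, Fintype.card_fin, nsmul_eq_mul]
  have h2 : ‖Aᴴ * B‖ ≤ ‖A‖ * ‖B‖ := by
    refine (norm_mul_le _ _).trans ?_
    rw [frobenius_norm_conjTranspose]
  gcongr

lemma cu_add (P Q : SU N) (a b : Lk L → Mt N) (p : Pt L) (i j : Fin 4) :
    cu P Q (fun l => a l + b l) p i j = cu P Q a p i j + cu P Q b p i j := by
  simp only [cu, adj_add]
  abel

lemma norm_cu (P Q : SU N) (a : Lk L → Mt N) (p : Pt L) (i j : Fin 4) {r : ℝ}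
    (h1 : ‖a (p, i)‖ ≤ r) (h2 : ‖a (nx p i, j)‖ ≤ r) (h3 : ‖a (p, j)‖ ≤ r)
    (h4 : ‖a (nx p j, i)‖ ≤ r) : ‖cu P Q a p i j‖ ≤ 4 * r := by
  unfold cu
  calc _ ≤ ‖a (p, i)‖ + ‖Adj (vc P Q (p, i)) (a (nx p i, j))‖ + ‖a (p, j)‖ +
        ‖Adj (vc P Q (p, j)) (a (nx p j, i))‖ := by
        refine (norm_sub_le _ _).trans ?_
        gcongr
        refine (norm_sub_le _ _).trans ?_
        gcongr
        exact norm_add_le _ _
    _ ≤ r + r + r + r := by
        rw [nadj, nadj]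
        gcongr
    _ = 4 * r := by ring

/-- the links of a plaquette -/
def plk (p : Pt L) (i j : Fin 4) : List (Lk L) := [(p, i), (nx p i, j), (p, j), (nx p j, i)]

/-- the plaquettes of a term belong to the term -/
lemma lk0 (x : Pl) (y : Tor L) : ∀ l ∈ plk (x, y) 2 3, l ∈ (spt (x, 0) : Finset (Lk L)) := by
  intro l hl
  simp only [plk, nx2, nx3, List.mem_cons, List.not_mem_nil, or_false] at hl
  rw [mem_spt0]
  rcases hl with rfl | rfl | rfl | rfl <;> simp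

lemma lk1a (x : Pl) (y : Tor L) : ∀ l ∈ plk (x, y) 0 2, l ∈ (spt (x, 1) : Finset (Lk L)) := by
  intro l hl
  simp only [plk, nx0, nx2, nx3, List.mem_cons, List.not_mem_nil, or_false] at hl
  rw [mem_spt1]
  rcases hl with rfl | rfl | rfl | rfl
  · exact ⟨y, by simp⟩
  · exact ⟨y, by simp⟩
  · exact ⟨y, by simp⟩
  · exact ⟨tsh y 0, by simp⟩

lemma lk1b (x : Pl) (y : Tor L) : ∀ l ∈ plk (x, y) 0 3, l ∈ (spt (x, 1) : Finset (Lk L)) := by
  intro l hl
  simp only [plk, nx0, nx2, nx3, List.mem_cons, List.not_mem_nil, or_false] at hl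
  rw [mem_spt1]
  rcases hl with rfl | rfl | rfl | rfl
  · exact ⟨y, by simp⟩
  · exact ⟨y, by simp⟩
  · exact ⟨y, by simp⟩
  · exact ⟨tsh y 1, by simp⟩

lemma lk2a (x : Pl) (y : Tor L) : ∀ l ∈ plk (x, y) 1 2, l ∈ (spt (x, 2) : Finset (Lk L)) := by
  intro l hl
  simp only [plk, nx1, nx2, nx3, List.mem_cons, List.not_mem_nil, or_false] at hl
  rw [mem_spt2]
  rcases hl with rfl | rfl | rfl | rfl
  · exact ⟨y, by simp⟩
  · exact ⟨y, by simp⟩
  · exact ⟨y, by simp⟩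
  · exact ⟨tsh y 0, by simp⟩

lemma lk2b (x : Pl) (y : Tor L) : ∀ l ∈ plk (x, y) 1 3, l ∈ (spt (x, 2) : Finset (Lk L)) := by
  intro l hl
  simp only [plk, nx1, nx2, nx3, List.mem_cons, List.not_mem_nil, or_false] at hl
  rw [mem_spt2]
  rcases hl with rfl | rfl | rfl | rfl
  · exact ⟨y, by simp⟩
  · exact ⟨y, by simp⟩
  · exact ⟨y, by simp⟩
  · exact ⟨tsh y 1, by simp⟩

lemma lk3 (x : Pl) (y : Tor L) : ∀ l ∈ plk (x, y) 0 1, l ∈ (spt (x, 3) : Finset (Lk L)) := by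
  intro l hl
  simp only [plk, nx0, nx1, List.mem_cons, List.not_mem_nil, or_false] at hl
  rw [mem_spt3]
  rcases hl with rfl | rfl | rfl | rfl
  · exact ⟨y, by simp⟩
  · exact ⟨y, by simp⟩
  · exact ⟨y, by simp⟩
  · exact ⟨y, by simp⟩

/-! ### flatness of the vacuum -/

/-- the vacuum is flat on the plaquette -/
def flat (P Q : SU N) (z : ℂ) (p : Pt L) (i j : Fin 4) : Prop :=
  (vc P Q (p, i) : Mt N) * (vc P Q (nx p i, j) : Mt N) =
    z • ((vc P Q (p, j) : Mt N) * (vc P Q (nx p j, i) : Mt N))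

lemma vc0 (P Q : SU N) (p : Pt L) : (vc P Q (p, 0) : SU N) = 1 := by simp [vc]
lemma vc1 (P Q : SU N) (p : Pt L) : (vc P Q (p, 1) : SU N) = 1 := by simp [vc]
lemma vc2 (P Q : SU N) (p : Pt L) : (vc P Q (p, 2) : SU N) = vac P Q p.2 0 := by simp [vc]
lemma vc3 (P Q : SU N) (p : Pt L) : (vc P Q (p, 3) : SU N) = vac P Q p.2 1 := by simp [vc]

lemma flat23 {k : ℕ} {P Q : SU N} (h : VV k (vac P Q : Ph N L) = 0) (x : Pl) (y : Tor L) :
    flat P Q (tw N k y) (x, y) 2 3 := by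
  unfold flat
  rw [nx2, nx3, vc2, vc3, vc3, vc2]
  have h1 := (Finset.sum_eq_zero_iff_of_nonneg (fun _ _ => by positivity)).1 h y (Finset.mem_univ _)
  have h2 : ‖(vac P Q y 0 : Mt N) * (vac P Q (tsh y 0) 1 : Mt N) -
    tw N k y • ((vac P Q y 1 : Mt N) * (vac P Q (tsh y 1) 0 : Mt N))‖ = 0 := by
    have h3 : ‖(vac P Q y 0 : Mt N) * (vac P Q (tsh y 0) 1 : Mt N) -
      tw N k y • ((vac P Q y 1 : Mt N) * (vac P Q (tsh y 1) 0 : Mt N))‖ ^ 2 = 0 := by linarith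
    exact pow_eq_zero_iff (two_ne_zero) |>.1 h3
  exact sub_eq_zero.1 (norm_eq_zero.1 h2)

lemma flat02 (P Q : SU N) (x : Pl) (y : Tor L) : flat P Q 1 (x, y) 0 2 := by
  unfold flat
  rw [nx0, nx2, vc0, vc2, vc2, vc0, cone, one_smul, Matrix.one_mul, Matrix.mul_one]

lemma flat03 (P Q : SU N) (x : Pl) (y : Tor L) : flat P Q 1 (x, y) 0 3 := by
  unfold flat
  rw [nx0, nx3, vc0, vc3, vc3, vc0, cone, one_smul, Matrix.one_mul, Matrix.mul_one]

lemma flat12 (P Q : SU N) (x : Pl) (y : Tor L) : flat P Q 1 (x, y) 1 2 := by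
  unfold flat
  rw [nx1, nx2, vc1, vc2, vc2, vc1, cone, one_smul, Matrix.one_mul, Matrix.mul_one]

lemma flat13 (P Q : SU N) (x : Pl) (y : Tor L) : flat P Q 1 (x, y) 1 3 := by
  unfold flat
  rw [nx1, nx3, vc1, vc3, vc3, vc1, cone, one_smul, Matrix.one_mul, Matrix.mul_one]

lemma flat01 (P Q : SU N) (x : Pl) (y : Tor L) : flat P Q 1 (x, y) 0 1 := by
  unfold flat
  rw [nx0, nx1, vc0, vc1, vc1, vc0, cone, one_smul]

/-! ### one plaquette -/

/-- the defect of a link -/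
def dl (P Q : SU N) (X : Cf N L) (l : Lk L) : Mt N :=
  (X l : Mt N) * (((vc P Q l)⁻¹ : SU N) : Mt N) - 1

lemma dl_eq (P Q : SU N) (X : Cf N L) (l : Lk L) :
    (X l : Mt N) = (1 + dl P Q X l) * (vc P Q l : Mt N) := by
  simp only [dl, add_sub_cancel, Matrix.mul_assoc, ig, Matrix.mul_one]

lemma dl_sub (P Q : SU N) (X : Cf N L) (l : Lk L) (a : Mt N) :
    ‖dl P Q X l - a‖ = ‖(X l : Mt N) - (1 + a) * (vc P Q l : Mt N)‖ := by
  have h : (X l : Mt N) - (1 + a) * (vc P Q l : Mt N) = (dl P Q X l - a) * (vc P Q l : Mt N) := by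
    conv_lhs => rw [dl_eq P Q X l]
    rw [← Matrix.sub_mul]
    congr 1
    abel
  rw [h, nr]

lemma df_eq (P Q : SU N) (X : Cf N L) (z : ℂ) (p : Pt L) (i j : Fin 4) (hf : flat P Q z p i j) :
    ‖df X z p i j‖ = ‖cu P Q (dl P Q X) p i j +
      dl P Q X (p, i) * Adj (vc P Q (p, i)) (dl P Q X (nx p i, j)) -
      dl P Q X (p, j) * Adj (vc P Q (p, j)) (dl P Q X (nx p j, i))‖ := by
  have h := plaq (vc P Q (p, i)) (vc P Q (nx p i, j)) (vc P Q (p, j)) (vc P Q (nx p j, i)) z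
    (dl P Q X (p, i)) (dl P Q X (nx p i, j)) (dl P Q X (p, j)) (dl P Q X (nx p j, i)) hf
  rw [← dl_eq, ← dl_eq, ← dl_eq, ← dl_eq] at h
  unfold df
  rw [h, ← cmul, nr]
  rfl

lemma plq_est (P Q : SU N) (X : Cf N L) (a : Lk L → Mt N) (z : ℂ) (p : Pt L) (i j : Fin 4)
    (hf : flat P Q z p i j) {ρ : ℝ} (h0 : 0 ≤ ρ) (h1 : ρ ≤ 1)
    (hl : ∀ l ∈ plk p i j, ‖a l‖ ≤ ρ ∧ ‖(X l : Mt N) - (1 + a l) * (vc P Q l : Mt N)‖ ≤ ρ ^ 2) :
    |‖df X z p i j‖ ^ 2 / 2 - ip (cu P Q a p i j) (cu P Q a p i j) / 2| ≤ 120 * ρ ^ 3 := by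
  have hb : ∀ l ∈ plk p i j, ‖a l‖ ≤ ρ ∧ ‖dl P Q X l - a l‖ ≤ ρ ^ 2 ∧ ‖dl P Q X l‖ ≤ 2 * ρ := by
    intro l hl'
    obtain ⟨c1, c2⟩ := hl l hl'
    rw [← dl_sub] at c2
    refine ⟨c1, c2, ?_⟩
    calc ‖dl P Q X l‖ = ‖(dl P Q X l - a l) + a l‖ := by rw [sub_add_cancel]
      _ ≤ ‖dl P Q X l - a l‖ + ‖a l‖ := norm_add_le _ _
      _ ≤ ρ ^ 2 + ρ := add_le_add c2 c1
      _ ≤ 2 * ρ := by nlinarith
  obtain ⟨a1, b1, c1⟩ := hb (p, i) (by simp [plk])
  obtain ⟨a2, b2, c2⟩ := hb (nx p i, j) (by simp [plk])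
  obtain ⟨a3, b3, c3⟩ := hb (p, j) (by simp [plk])
  obtain ⟨a4, b4, c4⟩ := hb (nx p j, i) (by simp [plk])
  rw [df_eq P Q X z p i j hf, ip_self]
  set b := dl P Q X with hbdef
  set Y := cu P Q b p i j + b (p, i) * Adj (vc P Q (p, i)) (b (nx p i, j)) -
      b (p, j) * Adj (vc P Q (p, j)) (b (nx p j, i)) with hY
  have q1 : ‖b (p, i) * Adj (vc P Q (p, i)) (b (nx p i, j))‖ ≤ 4 * ρ ^ 2 := by
    refine (nmul _ _).trans ?_
    rw [nadj]
    calc ‖b (p, i)‖ * ‖b (nx p i, j)‖ ≤ (2 * ρ) * (2 * ρ) :=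
          mul_le_mul c1 c2 (norm_nonneg _) (by positivity)
      _ = 4 * ρ ^ 2 := by ring
  have q2 : ‖b (p, j) * Adj (vc P Q (p, j)) (b (nx p j, i))‖ ≤ 4 * ρ ^ 2 := by
    refine (nmul _ _).trans ?_
    rw [nadj]
    calc ‖b (p, j)‖ * ‖b (nx p j, i)‖ ≤ (2 * ρ) * (2 * ρ) :=
          mul_le_mul c3 c4 (norm_nonneg _) (by positivity)
      _ = 4 * ρ ^ 2 := by ring
  have q3 : ‖cu P Q b p i j - cu P Q a p i j‖ ≤ 4 * ρ ^ 2 := by
    have e : cu P Q b p i j - cu P Q a p i j = cu P Q (fun l => b l - a l) p i j := by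
      simp only [cu, adj_sub]
      abel
    rw [e]
    exact norm_cu P Q _ p i j b1 b2 b3 b4
  have q4 : ‖Y - cu P Q a p i j‖ ≤ 12 * ρ ^ 2 := by
    have e : Y - cu P Q a p i j = (cu P Q b p i j - cu P Q a p i j) +
        b (p, i) * Adj (vc P Q (p, i)) (b (nx p i, j)) -
        b (p, j) * Adj (vc P Q (p, j)) (b (nx p j, i)) := by
      rw [hY]
      abel
    rw [e]
    calc _ ≤ ‖cu P Q b p i j - cu P Q a p i j‖ +
          ‖b (p, i) * Adj (vc P Q (p, i)) (b (nx p i, j))‖ +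
          ‖b (p, j) * Adj (vc P Q (p, j)) (b (nx p j, i))‖ := by
          refine (norm_sub_le _ _).trans ?_
          gcongr
          exact norm_add_le _ _
      _ ≤ 4 * ρ ^ 2 + 4 * ρ ^ 2 + 4 * ρ ^ 2 := by gcongr
      _ = 12 * ρ ^ 2 := by ring
  have q5 : ‖cu P Q a p i j‖ ≤ 4 * ρ := norm_cu P Q a p i j a1 a2 a3 a4
  have q6 : ‖Y‖ ≤ 16 * ρ := by
    calc ‖Y‖ = ‖(Y - cu P Q a p i j) + cu P Q a p i j‖ := by rw [sub_add_cancel]
      _ ≤ 12 * ρ ^ 2 + 4 * ρ := (norm_add_le _ _).trans (add_le_add q4 q5)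
      _ ≤ 16 * ρ := by nlinarith
  have q7 : |‖Y‖ - ‖cu P Q a p i j‖| ≤ 12 * ρ ^ 2 := (abs_norm_sub_norm_le _ _).trans q4
  have q8 : ‖Y‖ ^ 2 / 2 - ‖cu P Q a p i j‖ ^ 2 / 2 =
      (‖Y‖ - ‖cu P Q a p i j‖) * ((‖Y‖ + ‖cu P Q a p i j‖) / 2) := by ring
  rw [q8, abs_mul, abs_of_nonneg (show 0 ≤ (‖Y‖ + ‖cu P Q a p i j‖) / 2 by positivity)]
  calc _ ≤ (12 * ρ ^ 2) * ((16 * ρ + 4 * ρ) / 2) := by gcongr
    _ = 120 * ρ ^ 3 := by ring

/-! ### L1 -/

lemma card_Tor : (Fintype.card (Tor L) : ℝ) = (L : ℝ) ^ 2 := by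
  rw [Fintype.card_prod, ZMod.card]
  push_cast
  ring

lemma sum_est (f g : Tor L → ℝ) {c : ℝ} (h : ∀ y, |f y - g y| ≤ c) :
    |∑ y, f y - ∑ y, g y| ≤ (L : ℝ) ^ 2 * c := by
  rw [← Finset.sum_sub_distrib]
  refine (Finset.abs_sum_le_sum_abs _ _).trans ?_
  refine (Finset.sum_le_sum fun y _ => h y).trans ?_
  rw [Finset.sum_const, Finset.card_univ, nsmul_eq_mul, card_Tor]

lemma sum_le' (f : Tor L → ℝ) {c : ℝ} (h : ∀ y, |f y| ≤ c) :
    |∑ y, f y| ≤ (L : ℝ) ^ 2 * c := by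
  refine (Finset.abs_sum_le_sum_abs _ _).trans ?_
  refine (Finset.sum_le_sum fun y _ => h y).trans ?_
  rw [Finset.sum_const, Finset.card_univ, nsmul_eq_mul, card_Tor]

theorem L1 (hB0 : S_B0) : S_L1 := by
  intro N k L _ hN hk P Q hPQ
  have hvac : VV k (vac P Q : Ph N L) = 0 := hB0 N k L hN hk P Q hPQ
  have hL : (1 : ℝ) ≤ (L : ℝ) ^ 2 := by
    have : (1 : ℝ) ≤ L := by exact_mod_cast Nat.one_le_iff_ne_zero.2 (NeZero.ne L)
    nlinarith
  refine ⟨240 * (L : ℝ) ^ 2, by nlinarith, ?_⟩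
  intro τ X a ρ h0 h1 hl
  obtain ⟨x, i⟩ := τ
  have hρ : 0 ≤ ρ ^ 3 := by positivity
  have two : ∀ u v u' v' c : ℝ, |u / 2 - u' / 2| ≤ c → |v / 2 - v' / 2| ≤ c →
      |(u / 2 + v / 2) - (u' + v') / 2| ≤ 2 * c := by
    intro u v u' v' c hu hv
    rw [abs_le] at hu hv ⊢
    constructor <;> linarith [hu.1, hu.2, hv.1, hv.2]
  fin_cases i
  · change |eV k X x - bf P Q (x, 0) a a / 2| ≤ _
    have e : bf P Q (x, 0) a a / 2 = ∑ y : Tor L, ip (cu P Q a (x, y) 2 3) (cu P Q a (x, y) 2 3) / 2 := by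
      unfold bf
      rw [Finset.sum_div]
      rfl
    rw [e]
    unfold eV
    refine (sum_est _ _ fun y => plq_est P Q X a _ (x, y) 2 3 (flat23 hvac x y) h0 h1
      fun l hl' => hl l (lk0 x y l hl')).trans ?_
    nlinarith
  · change |eK X x 0 - bf P Q (x, 1) a a / 2| ≤ _
    have e : bf P Q (x, 1) a a / 2 = ∑ y : Tor L, (ip (cu P Q a (x, y) 0 2) (cu P Q a (x, y) 0 2) +
        ip (cu P Q a (x, y) 0 3) (cu P Q a (x, y) 0 3)) / 2 := by
      unfold bf
      rw [Finset.sum_div]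
      rfl
    rw [e]
    unfold eK
    refine (sum_est _ _ fun y => two _ _ _ _ _ (plq_est P Q X a 1 (x, y) 0 2 (flat02 P Q x y) h0 h1
      fun l hl' => hl l (lk1a x y l hl')) (plq_est P Q X a 1 (x, y) 0 3 (flat03 P Q x y) h0 h1
      fun l hl' => hl l (lk1b x y l hl'))).trans ?_
    nlinarith
  · change |eK X x 1 - bf P Q (x, 2) a a / 2| ≤ _
    have e : bf P Q (x, 2) a a / 2 = ∑ y : Tor L, (ip (cu P Q a (x, y) 1 2) (cu P Q a (x, y) 1 2) +
        ip (cu P Q a (x, y) 1 3) (cu P Q a (x, y) 1 3)) / 2 := by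
      unfold bf
      rw [Finset.sum_div]
      rfl
    rw [e]
    unfold eK
    refine (sum_est _ _ fun y => two _ _ _ _ _ (plq_est P Q X a 1 (x, y) 1 2 (flat12 P Q x y) h0 h1
      fun l hl' => hl l (lk2a x y l hl')) (plq_est P Q X a 1 (x, y) 1 3 (flat13 P Q x y) h0 h1
      fun l hl' => hl l (lk2b x y l hl'))).trans ?_
    nlinarith
  · change |eP X 1 x - bf P Q (x, 3) a a / 2| ≤ _
    have e : bf P Q (x, 3) a a / 2 = ∑ y : Tor L, ip (cu P Q a (x, y) 0 1) (cu P Q a (x, y) 0 1) / 2 := by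
      unfold bf
      rw [Finset.sum_div]
      rfl
    rw [e]
    unfold eP
    refine (sum_est _ _ fun y => plq_est P Q X a _ (x, y) 0 1 (flat01 P Q x y) h0 h1
      fun l hl' => hl l (lk3 x y l hl')).trans ?_
    nlinarith

/-! ### L3 -/

lemma bf0 (P Q : SU N) (x : Pl) (a b : Lk L → Mt N) : bf P Q (x, 0) a b =
    ∑ y : Tor L, ip (cu P Q a (x, y) 2 3) (cu P Q b (x, y) 2 3) := rfl
lemma bf1 (P Q : SU N) (x : Pl) (a b : Lk L → Mt N) : bf P Q (x, 1) a b =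
    ∑ y : Tor L, (ip (cu P Q a (x, y) 0 2) (cu P Q b (x, y) 0 2) +
      ip (cu P Q a (x, y) 0 3) (cu P Q b (x, y) 0 3)) := rfl
lemma bf2 (P Q : SU N) (x : Pl) (a b : Lk L → Mt N) : bf P Q (x, 2) a b =
    ∑ y : Tor L, (ip (cu P Q a (x, y) 1 2) (cu P Q b (x, y) 1 2) +
      ip (cu P Q a (x, y) 1 3) (cu P Q b (x, y) 1 3)) := rfl
lemma bf3 (P Q : SU N) (x : Pl) (a b : Lk L → Mt N) : bf P Q (x, 3) a b =
    ∑ y : Tor L, ip (cu P Q a (x, y) 0 1) (cu P Q b (x, y) 0 1) := rfl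

lemma ip_cu (P Q : SU N) (a b : Lk L → Mt N) (p : Pt L) (i j : Fin 4) {r s : ℝ} (hr : 0 ≤ r)
    (hs : 0 ≤ s) (h : ∀ l ∈ plk p i j, ‖a l‖ ≤ r ∧ ‖b l‖ ≤ s) :
    |ip (cu P Q a p i j) (cu P Q b p i j)| ≤ 16 * N * (r * s) := by
  have h1 := h (p, i) (by simp [plk])
  have h2 := h (nx p i, j) (by simp [plk])
  have h3 := h (p, j) (by simp [plk])
  have h4 := h (nx p j, i) (by simp [plk])
  refine (abs_ip _ _).trans ?_
  have ha := norm_cu P Q a p i j h1.1 h2.1 h3.1 h4.1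
  have hb := norm_cu P Q b p i j h1.2 h2.2 h3.2 h4.2
  calc (N : ℝ) * (‖cu P Q a p i j‖ * ‖cu P Q b p i j‖) ≤ N * ((4 * r) * (4 * s)) := by gcongr
    _ = 16 * N * (r * s) := by ring

theorem L3 : S_L3 := by
  intro N L _ hN P Q
  have hL : (1 : ℝ) ≤ (L : ℝ) ^ 2 := by
    have : (1 : ℝ) ≤ L := by exact_mod_cast Nat.one_le_iff_ne_zero.2 (NeZero.ne L)
    nlinarith
  have hN' : (2 : ℝ) ≤ N := by exact_mod_cast hN
  have hNL : (1 : ℝ) ≤ N * (L : ℝ) ^ 2 := by nlinarith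
  refine ⟨32 * (N * (L : ℝ) ^ 2), by linarith, ?_, ?_⟩
  · intro τ a b r s hr hs h
    obtain ⟨x, i⟩ := τ
    have hrs : 0 ≤ r * s := mul_nonneg hr hs
    have hc : 0 ≤ (L : ℝ) ^ 2 * (16 * N * (r * s)) := by positivity
    fin_cases i
    · change |bf P Q (x, 0) a b| ≤ _
      rw [bf0]
      refine (sum_le' _ fun y => ip_cu P Q a b (x, y) 2 3 hr hs
        fun l hl => h l (lk0 x y l hl)).trans ?_
      nlinarith
    · change |bf P Q (x, 1) a b| ≤ _
      rw [bf1]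
      refine (sum_le' _ fun y => (abs_add_le _ _).trans (add_le_add
        (ip_cu P Q a b (x, y) 0 2 hr hs fun l hl => h l (lk1a x y l hl))
        (ip_cu P Q a b (x, y) 0 3 hr hs fun l hl => h l (lk1b x y l hl)))).trans ?_
      nlinarith
    · change |bf P Q (x, 2) a b| ≤ _
      rw [bf2]
      refine (sum_le' _ fun y => (abs_add_le _ _).trans (add_le_add
        (ip_cu P Q a b (x, y) 1 2 hr hs fun l hl => h l (lk2a x y l hl))
        (ip_cu P Q a b (x, y) 1 3 hr hs fun l hl => h l (lk2b x y l hl)))).trans ?_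
      nlinarith
    · change |bf P Q (x, 3) a b| ≤ _
      rw [bf3]
      refine (sum_le' _ fun y => ip_cu P Q a b (x, y) 0 1 hr hs
        fun l hl => h l (lk3 x y l hl)).trans ?_
      nlinarith
  · intro τ a b c
    constructor
    · unfold bf
      rw [← Finset.sum_add_distrib]
      refine Finset.sum_congr rfl fun y _ => ?_
      simp only [cu_add, ip_add]
      split_ifs <;> ring
    · unfold bf
      refine Finset.sum_congr rfl fun y _ => ?_
      split_ifs <;> simp only [ip_comm]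

/-! ### L2 -/

lemma om_zero (N : ℕ) : om N 0 = 1 := by simp [om]

lemma om_ne_one {m : ℕ} (hN : 2 ≤ N) (h0 : m ≠ 0) (hm : m < N) : om N m ≠ 1 := by
  have h1 : om N m = Complex.exp (2 * Real.pi * Complex.I / N) ^ m := by
    rw [om, ← Complex.exp_nat_mul]
    congr 1
    ring
  rw [h1]
  have hp := Complex.isPrimitiveRoot_exp N (by omega)
  intro h
  have h2 := (hp.pow_eq_one_iff_dvd m).1 h
  exact absurd (Nat.le_of_dvd (Nat.pos_of_ne_zero h0) h2) (by omega)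

lemma exists_gap (hN : 2 ≤ N) : ∃ c : ℝ, 0 < c ∧ c ≤ 1 ∧ ∀ m : Fin N, (m : ℕ) ≠ 0 →
    c ≤ ‖1 - om N m‖ := by
  have hpos : ∀ m : Fin N, (m : ℕ) ≠ 0 → 0 < ‖1 - om N m‖ := fun m hm =>
    norm_pos_iff.2 (sub_ne_zero.2 (om_ne_one hN hm m.2).symm)
  set S := Finset.univ.filter fun m : Fin N => (m : ℕ) ≠ 0 with hS
  have hne : S.Nonempty := ⟨⟨1, by omega⟩, by simp [hS]⟩
  obtain ⟨m0, hm0, hmin⟩ := S.exists_min_image (fun m => ‖1 - om N m‖) hne
  have hm0' : (m0 : ℕ) ≠ 0 := (Finset.mem_filter.1 hm0).2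
  refine ⟨min 1 ‖1 - om N m0‖, lt_min one_pos (hpos m0 hm0'), min_le_left _ _, fun m hm => ?_⟩
  exact (min_le_right _ _).trans (hmin m (Finset.mem_filter.2 ⟨Finset.mem_univ _, hm⟩))

lemma norm_om (m : ℕ) : ‖om N m‖ = 1 := by
  rw [om, show 2 * (Real.pi : ℂ) * Complex.I * m / N = ((2 * Real.pi * m / N : ℝ) : ℂ) * Complex.I by
    push_cast; ring, Complex.norm_exp_ofReal_mul_I]

lemma prod_near (U V : SU N) {ε : ℝ} (hU : ‖(U : Mt N) - 1‖ ≤ ε) (hV : ‖(V : Mt N) - 1‖ ≤ ε) :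
    ‖(U : Mt N) * (V : Mt N) - 1‖ ≤ 2 * ε := by
  have e : (U : Mt N) * (V : Mt N) - 1 = ((U : Mt N) - 1) * (V : Mt N) + ((V : Mt N) - 1) := by
    rw [Matrix.sub_mul, Matrix.one_mul]
    abel
  rw [e]
  refine (norm_add_le _ _).trans ?_
  rw [nr]
  linarith

theorem L2 : S_L2 := by
  intro N k L _ hN P Q
  obtain ⟨c, hc0, hc1, hc⟩ := exists_gap hN
  have hN' : (2 : ℝ) ≤ N := by exact_mod_cast hN
  have hL : (1 : ℝ) ≤ (L : ℝ) ^ 2 := by
    have : (1 : ℝ) ≤ L := by exact_mod_cast Nat.one_le_iff_ne_zero.2 (NeZero.ne L)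
    nlinarith
  have hC : (1 : ℝ) ≤ 32 / c ^ 2 := by
    rw [le_div_iff₀ (by positivity)]
    nlinarith
  refine ⟨32 / c ^ 2, hC, ?_⟩
  intro τ X hX β hβ
  by_cases h3 : τ.2 = 3
  · obtain ⟨x, i⟩ := τ
    simp only at h3
    subst h3
    have hen : en1 k X (x, 3) = eP X 1 x := rfl
    have hwt : wt k β (x, 3) X = (∑ m : Fin N, Real.exp (-β * eP X (om N m) x)) / N := rfl
    rw [hen, hwt, if_pos rfl]
    set ε : ℝ := 1 / (32 / c ^ 2) with hε
    have hεc : ε = c ^ 2 / 32 := by rw [hε, one_div_div]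
    have hε0 : 0 ≤ ε := by positivity
    have hlk : ∀ y : Tor L, ∀ l ∈ plk (x, y) 0 1, ‖(X l : Mt N) - 1‖ ≤ ε := by
      intro y l hl
      have h4 := hX l (lk3 x y l hl)
      have h5 : (vc P Q l : SU N) = 1 := by
        simp only [plk, nx0, nx1, List.mem_cons, List.not_mem_nil, or_false] at hl
        rcases hl with rfl | rfl | rfl | rfl <;> simp [vc]
      rw [h5] at h4
      exact h4
    have hprod : ∀ y : Tor L, ‖(X ((x, y), 0) : Mt N) * (X (nx (x, y) 0, 1) : Mt N) - 1‖ ≤ 2 * ε ∧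
        ‖(X ((x, y), 1) : Mt N) * (X (nx (x, y) 1, 0) : Mt N) - 1‖ ≤ 2 * ε := fun y =>
      ⟨prod_near _ _ (hlk y _ (by simp [plk])) (hlk y _ (by simp [plk])),
        prod_near _ _ (hlk y _ (by simp [plk])) (hlk y _ (by simp [plk]))⟩
    have hdf1 : ∀ y : Tor L, ‖df X 1 (x, y) 0 1‖ ≤ 4 * ε := by
      intro y
      obtain ⟨h5, h6⟩ := hprod y
      have e : df X 1 (x, y) 0 1 = ((X ((x, y), 0) : Mt N) * (X (nx (x, y) 0, 1) : Mt N) - 1) -
          ((X ((x, y), 1) : Mt N) * (X (nx (x, y) 1, 0) : Mt N) - 1) := by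
        unfold df
        rw [one_smul]
        abel
      rw [e]
      refine (norm_sub_le _ _).trans ?_
      linarith
    have hdfz : ∀ (y : Tor L) (m : Fin N), (m : ℕ) ≠ 0 → c - 4 * ε ≤ ‖df X (om N m) (x, y) 0 1‖ := by
      intro y m hm
      obtain ⟨h5, h6⟩ := hprod y
      have e : (1 - om N m) • (1 : Mt N) = df X (om N m) (x, y) 0 1 -
          ((X ((x, y), 0) : Mt N) * (X (nx (x, y) 0, 1) : Mt N) - 1) +
          om N m • ((X ((x, y), 1) : Mt N) * (X (nx (x, y) 1, 0) : Mt N) - 1) := by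
        unfold df
        rw [smul_sub, sub_smul, one_smul]
        abel
      have h7 : c ≤ ‖(1 - om N m) • (1 : Mt N)‖ := by
        have h8 := norm_entry' ((1 - om N m) • (1 : Mt N)) ⟨0, by omega⟩ ⟨0, by omega⟩
        rw [Matrix.smul_apply, Matrix.one_apply_eq, smul_eq_mul, mul_one] at h8
        exact (hc m hm).trans h8
      rw [e] at h7
      have h9 := (norm_add_le (df X (om N m) (x, y) 0 1 -
          ((X ((x, y), 0) : Mt N) * (X (nx (x, y) 0, 1) : Mt N) - 1))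
          (om N m • ((X ((x, y), 1) : Mt N) * (X (nx (x, y) 1, 0) : Mt N) - 1)))
      have h10 := norm_sub_le (df X (om N m) (x, y) 0 1)
        ((X ((x, y), 0) : Mt N) * (X (nx (x, y) 0, 1) : Mt N) - 1)
      rw [norm_smul, norm_om, one_mul] at h9
      linarith
    have hP1 : eP X 1 x ≤ (L : ℝ) ^ 2 * (8 * ε ^ 2) := by
      unfold eP
      calc _ ≤ ∑ y : Tor L, 8 * ε ^ 2 := Finset.sum_le_sum fun y _ => by
            have := hdf1 y
            have h0 := norm_nonneg (df X 1 (x, y) 0 1)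
            nlinarith
        _ = _ := by rw [Finset.sum_const, Finset.card_univ, nsmul_eq_mul, card_Tor]
    have hPz : ∀ m : Fin N, (m : ℕ) ≠ 0 → (L : ℝ) ^ 2 * (c ^ 2 / 8) ≤ eP X (om N m) x := by
      intro m hm
      unfold eP
      calc _ = ∑ y : Tor L, c ^ 2 / 8 := by
            rw [Finset.sum_const, Finset.card_univ, nsmul_eq_mul, card_Tor]
        _ ≤ _ := Finset.sum_le_sum fun y _ => by
            have h5 := hdfz y m hm
            have h6 : c / 2 ≤ c - 4 * ε := by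
              rw [hεc]
              nlinarith
            have h7 := h6.trans h5
            have h8 : (c / 2) ^ 2 ≤ ‖df X (om N m) (x, y) 0 1‖ ^ 2 := by gcongr
            nlinarith
    have hgap : ∀ m : Fin N, (m : ℕ) ≠ 0 → ε + eP X 1 x ≤ eP X (om N m) x := by
      intro m hm
      have h5 := hPz m hm
      have h6 : ε + (L : ℝ) ^ 2 * (8 * ε ^ 2) ≤ (L : ℝ) ^ 2 * (c ^ 2 / 8) := by
        rw [hεc]
        have h7 : c ^ 2 ≤ 1 := by nlinarith
        have h8 : 0 < c ^ 2 := by positivity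
        nlinarith [mul_nonneg (sub_nonneg.2 hL) h8.le, mul_nonneg (sub_nonneg.2 h7)
          (mul_nonneg (le_trans zero_le_one hL) h8.le)]
      linarith
    have hNpos : (0 : ℝ) < N := by linarith
    have hm0 : (⟨0, by omega⟩ : Fin N) ∈ (Finset.univ : Finset (Fin N)) := Finset.mem_univ _
    constructor
    · rw [one_div, inv_mul_eq_div]
      gcongr
      have h5 := Finset.single_le_sum (f := fun m : Fin N => Real.exp (-β * eP X (om N m) x))
        (fun _ _ => (Real.exp_pos _).le) hm0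
      simp only [om_zero] at h5
      exact h5
    · have h5 : ∑ m : Fin N, Real.exp (-β * eP X (om N m) x) ≤
          Real.exp (-β * eP X 1 x) * (1 + N * Real.exp (-β / (32 / c ^ 2))) := by
        rw [← Finset.add_sum_erase _ _ hm0]
        simp only [om_zero]
        rw [mul_add, mul_one]
        gcongr
        calc _ ≤ ∑ m ∈ (Finset.univ : Finset (Fin N)).erase ⟨0, by omega⟩,
              Real.exp (-β * eP X 1 x) * Real.exp (-β / (32 / c ^ 2)) := by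
              refine Finset.sum_le_sum fun m hm => ?_
              have hm' : (m : ℕ) ≠ 0 := by
                intro h
                apply (Finset.mem_erase.1 hm).1
                exact Fin.ext h
              rw [← Real.exp_add]
              apply Real.exp_le_exp.2
              have h6 := mul_le_mul_of_nonneg_left (hgap m hm') hβ
              have h7 : -β / (32 / c ^ 2) = -(β * ε) := by
                rw [hε]
                ring
              rw [h7]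
              nlinarith
          _ ≤ _ := by
              rw [Finset.sum_const, nsmul_eq_mul]
              have h6 : (((Finset.univ : Finset (Fin N)).erase ⟨0, by omega⟩).card : ℝ) ≤ N := by
                have := Finset.card_le_card (Finset.erase_subset (⟨0, by omega⟩ : Fin N)
                  (Finset.univ : Finset (Fin N)))
                rw [Finset.card_univ, Fintype.card_fin] at this
                exact_mod_cast this
              have h7 : 0 ≤ Real.exp (-β * eP X 1 x) * Real.exp (-β / (32 / c ^ 2)) := by positivity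
              calc _ ≤ (N : ℝ) * (Real.exp (-β * eP X 1 x) * Real.exp (-β / (32 / c ^ 2))) :=
                    mul_le_mul_of_nonneg_right h6 h7
                _ = _ := by ring
      calc _ ≤ (Real.exp (-β * eP X 1 x) * (1 + N * Real.exp (-β / (32 / c ^ 2)))) / N := by gcongr
        _ = _ := by ring
  · rw [if_neg h3]
    have hw : wt k β τ X = Real.exp (-β * en k X τ) := by
      unfold wt
      rw [if_neg h3]
    have he : en1 k X τ = en k X τ := by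
      obtain ⟨x, i⟩ := τ
      fin_cases i
      · rfl
      · rfl
      · rfl
      · exact absurd rfl h3
    rw [hw, he, one_mul]
    refine ⟨le_rfl, ?_⟩
    have h4 : 0 < Real.exp (-β * en k X τ) := Real.exp_pos _
    have h5 : 0 ≤ (N : ℝ) * Real.exp (-β / (32 / c ^ 2)) := by positivity
    nlinarith

end T2H02.TT.PkgLL

namespace T2H02.TT

theorem pL1 (hB0 : S_B0) : S_L1 := PkgLL.L1 hB0

theorem pL2 : S_L2 := PkgLL.L2

theorem pL3 : S_L3 := PkgLL.L3

end T2H02.TT
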