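import Pool.Agent.T2H02.TT.Stm4
import Pool.Agent.T2H02.TT.J
import Pool.Agent.T2H02.TT.E
import Pool.Agent.T2H02.TT.G1
import Pool.Agent.T2H02.TT.LL

/-!
# Package DT : no flux through good plaquettes
-/

set_option autoImplicit false
set_option linter.unusedSectionVars false

noncomputable section

open MeasureTheory Matrix
open scoped Matrix.Norms.Frobenius

namespace T2H02.TT.PkgDT

open T2H02.TT T2H02.TT.PkgD T2H02.TT.PkgJ

variable {N L : ℕ} [NeZero L]

/-! ### roots of unity -/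

lemma star_om (hN : N ≠ 0) (b : ℕ) : star (om N b) = om N ((N - 1) * b) := by
  have h1 := PkgJ.om_inv hN b
  have h2 : star (om N b) * om N b = 1 := by
    rw [Complex.star_def, ← Complex.normSq_eq_conj_mul_self, Complex.normSq_eq_norm_sq, PkgD.om_norm]
    norm_num
  calc star (om N b) = star (om N b) * (om N b * om N ((N - 1) * b)) := by rw [h1, mul_one]
    _ = _ := by rw [← mul_assoc, h2, one_mul]

lemma om_star (b : ℕ) : om N b * star (om N b) = 1 := by
  rw [Complex.star_def, Complex.mul_conj, Complex.normSq_eq_norm_sq, PkgD.om_norm]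
  norm_num

lemma re_unit (z : ℂ) (hz : ‖z‖ = 1) : 1 - z.re = ‖1 - z‖ ^ 2 / 2 := by
  have h1 : ‖1 - z‖ ^ 2 = (1 - z.re) ^ 2 + z.im ^ 2 := by
    rw [← Complex.normSq_eq_norm_sq, Complex.normSq_apply]
    simp
    ring
  have h2 : z.re ^ 2 + z.im ^ 2 = 1 := by
    have := Complex.normSq_eq_norm_sq z
    rw [hz, Complex.normSq_apply] at this
    linarith
  rw [h1]
  linarith

lemma gap (hN : 2 ≤ N) : ∃ c : ℝ, 0 < c ∧ c ≤ 1 ∧ ∀ a b : ℕ, om N a ≠ om N b →
    (star (om N b) * om N a).re ≤ 1 - c ∧ c ≤ ‖om N a - om N b‖ := by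
  obtain ⟨c, hc, hc1, h⟩ := PkgLL.exists_gap hN
  have hN0 : N ≠ 0 := by omega
  refine ⟨c ^ 2 / 2, by positivity, by nlinarith, fun a b hab => ?_⟩
  have h1 : star (om N b) * om N a = om N (((N - 1) * b + a) % N) := by
    rw [star_om hN0, PkgJ.om_mod hN0, PkgJ.om_add hN0]
  have h2 : om N (((N - 1) * b + a) % N) ≠ 1 := by
    rw [← h1]
    intro h3
    apply hab
    calc om N a = (om N b * star (om N b)) * om N a := by rw [om_star, one_mul]
      _ = om N b * (star (om N b) * om N a) := by ring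
      _ = om N b := by rw [h3, mul_one]
  have h3 : ((N - 1) * b + a) % N ≠ 0 := by
    intro h4
    rw [h4] at h2
    exact h2 (PkgLL.om_zero N)
  have h4 := h ⟨((N - 1) * b + a) % N, Nat.mod_lt _ (by omega)⟩ h3
  simp only at h4
  have h5 : ‖om N a - om N b‖ = ‖1 - om N (((N - 1) * b + a) % N)‖ := by
    rw [← h1]
    have : om N a - om N b = om N b * -(1 - star (om N b) * om N a) := by
      have := om_star (N := N) b
      linear_combination (-om N a) * this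
    rw [this, norm_mul, PkgD.om_norm, one_mul, norm_neg]
  have h6 := re_unit (star (om N b) * om N a) (by
    rw [norm_mul, norm_star, PkgD.om_norm, PkgD.om_norm, one_mul])
  rw [h1] at h6 ⊢
  constructor
  · nlinarith
  · rw [h5]
    nlinarith

lemma om_inj (hN : 2 ≤ N) (a b : Fin N) (h : om N a = om N b) : a = b := by
  have hN0 : N ≠ 0 := by omega
  by_contra hab
  have h1 : om N (((N - 1) * b + a) % N) = 1 := by
    rw [PkgJ.om_mod hN0, PkgJ.om_add hN0, ← star_om hN0, h, mul_comm, om_star]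
  have h2 : ((N - 1) * (b : ℕ) + a) % N ≠ 0 := by
    intro h3
    apply hab
    have h4 : N ∣ (N - 1) * (b : ℕ) + a := Nat.dvd_of_mod_eq_zero h3
    have h5 : (N : ℤ) ∣ ((a : ℕ) : ℤ) - ((b : ℕ) : ℤ) := by
      have h6 : (N : ℤ) ∣ (((N - 1) * (b : ℕ) + a : ℕ) : ℤ) := by exact_mod_cast h4
      have h7 : ((((N - 1) * (b : ℕ) + a : ℕ)) : ℤ) = N * b + (a - b) := by
        push_cast [Nat.cast_sub (show 1 ≤ N by omega)]
        ring
      rw [h7] at h6
      exact (Int.dvd_add_right (Dvd.intro _ rfl)).1 h6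
    have ha := a.2
    have hb := b.2
    have h8 : ((a : ℕ) : ℤ) - ((b : ℕ) : ℤ) = 0 := by
      refine Int.eq_zero_of_abs_lt_dvd h5 ?_
      rw [abs_lt]
      constructor <;> omega
    exact Fin.ext (by omega)
  exact PkgLL.om_ne_one hN h2 (Nat.mod_lt _ (by omega)) h1

lemma nrt_eq (hN : 2 ≤ N) {c : ℝ} (h : ∀ a b : ℕ, om N a ≠ om N b →
    (star (om N b) * om N a).re ≤ 1 - c) (m : Fin N) (T : ℂ) (r δ : ℝ) (hr : 0 ≤ r)
    (hT : ‖T - r * om N m‖ ≤ δ) (hδ : 2 * δ < r * c) : nrt N T = om N m := by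
  have key : ∀ m' : Fin N, m' ≠ m → (star (om N m') * T).re < (star (om N m) * T).re := by
    intro m' hm
    have h1 : om N m ≠ om N m' := fun h2 => hm (om_inj hN m' m h2.symm)
    have h2 := h m m' h1
    have e1 : star (om N m') * T = r * (star (om N m') * om N m) + star (om N m') * (T - r * om N m) := by
      ring
    have e2 : star (om N m) * T = r + star (om N m) * (T - r * om N m) := by
      have := om_star (N := N) m
      linear_combination (r : ℂ) * this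
    have b1 : (star (om N m') * (T - r * om N m)).re ≤ δ := by
      refine (Complex.re_le_norm _).trans ?_
      rw [norm_mul, norm_star, PkgD.om_norm, one_mul]
      exact hT
    have b2 : -δ ≤ (star (om N m) * (T - r * om N m)).re := by
      have b3 := Complex.abs_re_le_norm (star (om N m) * (T - r * om N m))
      rw [norm_mul, norm_star, PkgD.om_norm, one_mul] at b3
      have := neg_abs_le (star (om N m) * (T - r * om N m)).re
      linarith
    rw [e1, e2, Complex.add_re, Complex.add_re, Complex.re_ofReal_mul, Complex.ofReal_re]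
    nlinarith
  unfold nrt
  rw [Finset.sum_eq_single m]
  · rw [if_pos key]
  · intro m' _ hm
    rw [if_neg]
    intro h1
    have h2 := h1 m (Ne.symm hm)
    have h3 := key m' hm
    linarith
  · intro h1
    exact absurd (Finset.mem_univ m) h1

/-! ### gauge fixed plane links -/

/-- gauge fixed plane link -/
def gl (G : Ph N L → Tor L → SU N) (X : Cf N L) (x : Pl) (m : Fin 4) (y : Tor L) : SU N :=
  G (pt X x) y * X ((x, y), m) * (G (pt X (x + pe m)) y)⁻¹

lemma zlk_eq (G : Ph N L → Tor L → SU N) (X : Cf N L) (x : Pl) (m : Fin 4) :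
    zlk G X x m = nrt N (∑ y : Tor L, ((gl G X x m y : SU N) : Mt N).trace) := rfl

lemma norm_conj (g h a b : SU N) : ‖((g * a * h : SU N) : Mt N) - ((g * b * h : SU N) : Mt N)‖ =
    ‖(a : Mt N) - (b : Mt N)‖ := by
  have h1 : ((g * a * h : SU N) : Mt N) - ((g * b * h : SU N) : Mt N) =
      (g : Mt N) * ((a : Mt N) - (b : Mt N)) * (h : Mt N) := by
    simp only [cmul]
    rw [Matrix.mul_sub, Matrix.sub_mul]
  rw [h1, nr, nl]

lemma nxm {m : Fin 4} (hm : m = 0 ∨ m = 1) (x : Pl) (y : Tor L) : nx (x, y) m = (x + pe m, y) := by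
  rcases hm with rfl | rfl <;> simp [nx]

lemma eK_sum (G : Ph N L → Tor L → SU N) (X : Cf N L) (x : Pl) {m : Fin 4} (hm : m = 0 ∨ m = 1) :
    ∑ y, ∑ j, ‖(gl G X x m y : Mt N) * (act (G (pt X (x + pe m))) (pt X (x + pe m)) y j : Mt N) -
      (act (G (pt X x)) (pt X x) y j : Mt N) * (gl G X x m (tsh y j) : Mt N)‖ ^ 2 = 2 * eK X x m := by
  unfold eK
  rw [Finset.mul_sum]
  refine Finset.sum_congr rfl fun y _ => ?_
  have key : ∀ (j : Fin 2) (i : Fin 4), i = (if j = 0 then 2 else 3) →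
      ‖(gl G X x m y : Mt N) * (act (G (pt X (x + pe m))) (pt X (x + pe m)) y j : Mt N) -
      (act (G (pt X x)) (pt X x) y j : Mt N) * (gl G X x m (tsh y j) : Mt N)‖ =
      ‖df X 1 (x, y) m i‖ := by
    intro j i hi
    have e1 : (gl G X x m y : Mt N) * (act (G (pt X (x + pe m))) (pt X (x + pe m)) y j : Mt N) =
        ((G (pt X x) y * (X ((x, y), m) * X ((x + pe m, y), i)) *
          (G (pt X (x + pe m)) (tsh y j))⁻¹ : SU N) : Mt N) := by
      rw [← cmul]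
      congr 1
      simp only [gl, act, pt, hi]
      group
    have e2 : (act (G (pt X x)) (pt X x) y j : Mt N) * (gl G X x m (tsh y j) : Mt N) =
        ((G (pt X x) y * (X ((x, y), i) * X ((x, tsh y j), m)) *
          (G (pt X (x + pe m)) (tsh y j))⁻¹ : SU N) : Mt N) := by
      rw [← cmul]
      congr 1
      simp only [gl, act, pt, hi]
      group
    rw [e1, e2, norm_conj]
    unfold df
    rw [nxm hm, one_smul]
    have e3 : nx (x, y) i = (x, tsh y j) := by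
      subst hi
      fin_cases j <;> simp [nx, pe, h00]
    rw [e3]
    simp only [cmul]
  rw [Fin.sum_univ_two, key 0 2 (by simp), key 1 3 (by simp)]
  ring

lemma link {k : ℕ} {P Q : SU N} {C1 C2 ε : ℝ} (hC1 : 0 < C1) (hε : 0 < ε)
    (h1 : ∀ φ : Ph N L, ∃ g : Tor L → SU N, dst (act g φ) (vac P Q) ≤ C1 * VV k φ)
    (h2 : ∀ (φ ψ : Ph N L) (U : Tor L → SU N) (e : ℝ), dst φ (vac P Q) ≤ e →
      dst ψ (vac P Q) ≤ e →
      ∑ y, ∑ j, ‖(U y : Mt N) * (ψ y j : Mt N) - (φ y j : Mt N) * (U (tsh y j) : Mt N)‖ ^ 2 ≤ e →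
      ∃ m : Fin N, ∑ y, ‖(U y : Mt N) - om N m • (1 : Mt N)‖ ^ 2 ≤ C2 * e)
    (G : Ph N L → Tor L → SU N) (hG : GF P Q ε G) (X : Cf N L) (x : Pl) {m : Fin 4}
    (hm : m = 0 ∨ m = 1) (a1 : eV k X x ≤ ε) (a2 : eV k X (x + pe m) ≤ ε) (a3 : eK X x m ≤ ε) :
    ∃ n : Fin N, ∑ y, ‖(gl G X x m y : Mt N) - om N n • (1 : Mt N)‖ ^ 2 ≤ C2 * ((C1 + 2) * ε) := by
  have b : ∀ z : Pl, eV k X z ≤ ε → dst (act (G (pt X z)) (pt X z)) (vac P Q) ≤ (C1 + 2) * ε := by
    intro z hz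
    rw [PkgG1.eV_eq] at hz
    obtain ⟨g, hg⟩ := h1 (pt X z)
    have := hG.2 (pt X z) g
    nlinarith
  refine h2 _ _ (gl G X x m) _ (b x a1) (b _ a2) ?_
  rw [eK_sum G X x hm]
  nlinarith

lemma zlk_val (hN : 2 ≤ N) {c : ℝ} (h : ∀ a b : ℕ, om N a ≠ om N b →
    (star (om N b) * om N a).re ≤ 1 - c) (G : Ph N L → Tor L → SU N) (X : Cf N L) (x : Pl)
    (m : Fin 4) (n : Fin N) {s : ℝ} (hs : 2 * s < c)
    (hn : ∀ y, ‖(gl G X x m y : Mt N) - om N n • (1 : Mt N)‖ ≤ s) : zlk G X x m = om N n := by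
  rw [zlk_eq]
  have hK : (0 : ℝ) < (Fintype.card (Tor L) : ℝ) := by exact_mod_cast Fintype.card_pos
  have hN0 : (0 : ℝ) < N := by exact_mod_cast (by omega : 0 < N)
  refine nrt_eq hN h n _ ((Fintype.card (Tor L) : ℝ) * N) ((Fintype.card (Tor L) : ℝ) * (N * s))
    (by positivity) ?_ ?_
  · have e : (∑ y : Tor L, ((gl G X x m y : SU N) : Mt N).trace) -
        (((Fintype.card (Tor L) : ℝ) * N : ℝ) : ℂ) * om N n =
        ∑ y : Tor L, ((gl G X x m y : Mt N) - om N n • (1 : Mt N)).trace := by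
      simp only [Matrix.trace_sub, Matrix.trace_smul, Matrix.trace_one, Fintype.card_fin,
        Finset.sum_sub_distrib, Finset.sum_const, Finset.card_univ, nsmul_eq_mul, smul_eq_mul]
      push_cast
      ring
    rw [e]
    refine (norm_sum_le _ _).trans ?_
    calc _ ≤ ∑ _y : Tor L, (N * s : ℝ) := Finset.sum_le_sum fun y _ =>
          (PkgE.norm_trace _).trans (mul_le_mul_of_nonneg_left (hn y) hN0.le)
      _ = _ := by rw [Finset.sum_const, Finset.card_univ, nsmul_eq_mul]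
  · nlinarith [mul_pos hK hN0]

lemma norm_smul_one_ge (hN : 2 ≤ N) (z : ℂ) : ‖z‖ ≤ ‖z • (1 : Mt N)‖ := by
  rw [norm_smul, PkgE.norm_one_mt]
  have : (1 : ℝ) ≤ Real.sqrt N := by
    rw [Real.one_le_sqrt]
    exact_mod_cast (by omega : 1 ≤ N)
  nlinarith [norm_nonneg z]

lemma four (hN : 2 ≤ N) (A B C D : SU N) (a b c d : ℂ) (ha : ‖a‖ = 1) (hc : ‖c‖ = 1) {s t : ℝ}
    (h1 : ‖(A : Mt N) - a • (1 : Mt N)‖ ≤ s) (h2 : ‖(B : Mt N) - b • (1 : Mt N)‖ ≤ s)
    (h3 : ‖(C : Mt N) - c • (1 : Mt N)‖ ≤ s) (h4 : ‖(D : Mt N) - d • (1 : Mt N)‖ ≤ s)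
    (h5 : ‖((A * B : SU N) : Mt N) - ((C * D : SU N) : Mt N)‖ ≤ t) : ‖a * b - c * d‖ ≤ t + 4 * s := by
  refine (norm_smul_one_ge hN _).trans ?_
  have e : (a * b - c * d) • (1 : Mt N) = (((A * B : SU N) : Mt N) - ((C * D : SU N) : Mt N)) -
      (((A : Mt N) - a • (1 : Mt N)) * (B : Mt N) + a • ((B : Mt N) - b • (1 : Mt N))) +
      (((C : Mt N) - c • (1 : Mt N)) * (D : Mt N) + c • ((D : Mt N) - d • (1 : Mt N))) := by
    simp only [cmul, sub_mul, smul_sub, smul_mul_assoc, one_mul, smul_smul, sub_smul]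
    abel
  rw [e]
  have k1 : ‖((A : Mt N) - a • (1 : Mt N)) * (B : Mt N) + a • ((B : Mt N) - b • (1 : Mt N))‖ ≤ 2 * s := by
    refine (norm_add_le _ _).trans ?_
    rw [nr, norm_smul, ha, one_mul]
    linarith
  have k2 : ‖((C : Mt N) - c • (1 : Mt N)) * (D : Mt N) + c • ((D : Mt N) - d • (1 : Mt N))‖ ≤ 2 * s := by
    refine (norm_add_le _ _).trans ?_
    rw [nr, norm_smul, hc, one_mul]
    linarith
  refine (norm_add_le _ _).trans ?_
  have k3 := norm_sub_le (((A * B : SU N) : Mt N) - ((C * D : SU N) : Mt N))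
    (((A : Mt N) - a • (1 : Mt N)) * (B : Mt N) + a • ((B : Mt N) - b • (1 : Mt N)))
  linarith

lemma plaq_eq (hN : 2 ≤ N) {c s ε : ℝ} (h : ∀ a b : ℕ, om N a ≠ om N b → c ≤ ‖om N a - om N b‖)
    (G : Ph N L → Tor L → SU N) (X : Cf N L) (x : Pl) (hs : Real.sqrt (2 * ε) + 4 * s < c)
    (n1 n2 n3 n4 : ℕ)
    (h1 : ∀ y, ‖(gl G X x 0 y : Mt N) - om N n1 • (1 : Mt N)‖ ≤ s)
    (h2 : ∀ y, ‖(gl G X (x + pe 0) 1 y : Mt N) - om N n2 • (1 : Mt N)‖ ≤ s)
    (h3 : ∀ y, ‖(gl G X x 1 y : Mt N) - om N n3 • (1 : Mt N)‖ ≤ s)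
    (h4 : ∀ y, ‖(gl G X (x + pe 1) 0 y : Mt N) - om N n4 • (1 : Mt N)‖ ≤ s)
    (h5 : eP X 1 x ≤ ε) : om N n1 * om N n2 = om N n3 * om N n4 := by
  have hN0 : N ≠ 0 := by omega
  have hy := four hN (gl G X x 0 0) (gl G X (x + pe 0) 1 0) (gl G X x 1 0) (gl G X (x + pe 1) 0 0)
    (om N n1) (om N n2) (om N n3) (om N n4) (PkgD.om_norm _ _) (PkgD.om_norm _ _) (h1 0) (h2 0)
    (h3 0) (h4 0) (t := Real.sqrt (2 * ε)) (by
      have e1 : gl G X x 0 0 * gl G X (x + pe 0) 1 0 =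
          G (pt X x) 0 * (X ((x, 0), 0) * X ((x + pe 0, 0), 1)) *
            (G (pt X (x + pe 0 + pe 1)) 0)⁻¹ := by
        simp only [gl]
        group
      have e2 : gl G X x 1 0 * gl G X (x + pe 1) 0 0 =
          G (pt X x) 0 * (X ((x, 0), 1) * X ((x + pe 1, 0), 0)) *
            (G (pt X (x + pe 0 + pe 1)) 0)⁻¹ := by
        rw [show x + pe 0 + pe 1 = x + pe 1 + pe 0 by abel]
        simp only [gl]
        group
      rw [e1, e2, norm_conj]
      have e3 : ((X ((x, 0), 0) * X ((x + pe 0, 0), 1) : SU N) : Mt N) -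
          ((X ((x, 0), 1) * X ((x + pe 1, 0), 0) : SU N) : Mt N) = df X 1 (x, 0) 0 1 := by
        unfold df
        rw [nxm (Or.inl rfl), nxm (Or.inr rfl), one_smul]
        simp only [cmul]
      rw [e3]
      apply Real.le_sqrt_of_sq_le
      have e4 : ‖df X 1 (x, 0) 0 1‖ ^ 2 / 2 ≤ eP X 1 x := by
        unfold eP
        exact Finset.single_le_sum (f := fun y : Tor L => ‖df X 1 (x, y) 0 1‖ ^ 2 / 2)
          (fun y _ => by positivity) (Finset.mem_univ 0)
      linarith)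
  by_contra hne
  rw [← PkgJ.om_add hN0, ← PkgJ.om_add hN0] at hne hy
  have := h _ _ hne
  linarith

/-! ### the terms -/

lemma mem_N (a : Pl) : a ∈ Nb 1 0 ↔ |a.1| ≤ 1 ∧ |a.2| ≤ 1 := by
  unfold Nb
  rw [Finset.mem_product, Finset.mem_Icc, Finset.mem_Icc, abs_le, abs_le]
  simp

end T2H02.TT.PkgDT

namespace T2H02.TT

open PkgDT

theorem pDT (hD1 : S_D1) (hJ : S_J) : S_DT := by
  intro N k L _ hN hk P Q hPQ
  obtain ⟨C1, hC1, h1⟩ := hD1 N k L hN hk P Q hPQ
  obtain ⟨C2, hC2, h2⟩ := hJ N k L hN hk P Q hPQ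
  obtain ⟨c, hc, hc1, hgap⟩ := gap hN
  set K : ℝ := C2 * (C1 + 2) + 2 with hK
  have hK0 : 0 < K := by positivity
  set s : ℝ := c / 6 with hs
  set ε : ℝ := s ^ 2 / K with hε
  have hs0 : 0 < s := by positivity
  have hε0 : 0 < ε := by positivity
  have hKε : K * ε = s ^ 2 := by rw [hε]; field_simp
  refine ⟨ε, hε0, fun G hG X hX => ?_⟩
  have hs2 : Real.sqrt (2 * ε) ≤ s := by
    rw [Real.sqrt_le_left hs0.le]
    nlinarith [mul_pos hC2 (show 0 < C1 + 2 by linarith), mul_pos (mul_pos hC2 (show 0 < C1 + 2 by linarith)) hε0]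
  have hT : ∀ τ : Tm, (∀ a ∈ cor τ, a ∈ Nb 1 0) → en1 k X τ ≤ ε := fun τ hτ =>
    hX τ ((mem_tin _ _).2 hτ)
  have hV : ∀ x, x ∈ Nb 1 0 → eV k X x ≤ ε := by
    intro x hx
    have := hT (x, 0) (fun a ha => by rw [mem_cor0] at ha; rw [ha]; exact hx)
    simpa [en1] using this
  have hKK : ∀ x (m : Fin 4), m = 0 ∨ m = 1 → x ∈ Nb 1 0 → x + pe m ∈ Nb 1 0 → eK X x m ≤ ε := by
    intro x m hm hx hx'
    rcases hm with rfl | rfl
    · have := hT (x, 1) (fun a ha => by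
        rw [mem_cor1] at ha
        rcases ha with rfl | rfl
        · exact hx
        · simpa [pe] using hx')
      simpa [en1] using this
    · have := hT (x, 2) (fun a ha => by
        rw [mem_cor2] at ha
        rcases ha with rfl | rfl
        · exact hx
        · simpa [pe] using hx')
      simpa [en1] using this
  have hz : ∀ x (m : Fin 4), m = 0 ∨ m = 1 → x ∈ Nb 1 0 → x + pe m ∈ Nb 1 0 →
      ∃ n : Fin N, zlk G X x m = om N n ∧
        ∀ y, ‖(gl G X x m y : Mt N) - om N n • (1 : Mt N)‖ ≤ s := by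
    intro x m hm hx hx'
    obtain ⟨n, hn⟩ := link hC1 hε0 h1 h2 G hG X x hm (hV x hx) (hV _ hx') (hKK x m hm hx hx')
    have hn2 : ∀ y, ‖(gl G X x m y : Mt N) - om N n • (1 : Mt N)‖ ≤ s := by
      intro y
      have h3 : ‖(gl G X x m y : Mt N) - om N n • (1 : Mt N)‖ ^ 2 ≤ s ^ 2 := by
        refine (Finset.single_le_sum (f := fun y => ‖(gl G X x m y : Mt N) - om N n • (1 : Mt N)‖ ^ 2)
          (fun y _ => by positivity) (Finset.mem_univ y)).trans (hn.trans ?_)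
        rw [← hKε, hK]
        nlinarith
      exact (sq_le_sq₀ (norm_nonneg _) hs0.le).1 h3
    exact ⟨n, zlk_val hN (fun a b h => (hgap a b h).1) G X x m n (by rw [hs]; linarith) hn2, hn2⟩
  have hp : ∀ x, x ∈ Nb 1 0 → x + pe 0 ∈ Nb 1 0 → x + pe 1 ∈ Nb 1 0 → x + pe 0 + pe 1 ∈ Nb 1 0 →
      zlk G X x 0 * zlk G X (x + pe 0) 1 = zlk G X x 1 * zlk G X (x + pe 1) 0 := by
    intro x c1 c2 c3 c4
    obtain ⟨n1, e1, f1⟩ := hz x 0 (Or.inl rfl) c1 c2
    obtain ⟨n2, e2, f2⟩ := hz (x + pe 0) 1 (Or.inr rfl) c2 c4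
    obtain ⟨n3, e3, f3⟩ := hz x 1 (Or.inr rfl) c1 c3
    obtain ⟨n4, e4, f4⟩ := hz (x + pe 1) 0 (Or.inl rfl) c3 (by
      rwa [show x + pe 1 + pe 0 = x + pe 0 + pe 1 by abel])
    rw [e1, e2, e3, e4]
    refine plaq_eq hN (fun a b h => (hgap a b h).2) G X x (s := s) (ε := ε) ?_ n1 n2 n3 n4 f1 f2 f3
      f4 ?_
    · rw [hs] at hs2 ⊢
      linarith
    · have := hT (x, 3) (fun a ha => by
        rw [mem_cor3] at ha
        rcases ha with rfl | rfl | rfl | rfl
        · exact c1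
        · simpa [pe] using c2
        · simpa [pe] using c3
        · have e : x + pe 0 + pe 1 = x + (1, 1) := by
            simp [pe, add_assoc]
          rwa [e] at c4)
      simpa [en1] using this
  have hn : ∀ x (m : Fin 4), m = 0 ∨ m = 1 → x ∈ Nb 1 0 → x + pe m ∈ Nb 1 0 →
      zlk G X x m * star (zlk G X x m) = 1 := by
    intro x m hm hx hx'
    obtain ⟨n, e, _⟩ := hz x m hm hx hx'
    rw [e]
    exact PkgDT.om_star _
  have p0 : pe 0 = ((1 : ℤ), (0 : ℤ)) := by simp [pe]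
  have p1 : pe 1 = ((0 : ℤ), (1 : ℤ)) := by simp [pe]
  rw [p0, p1] at hp
  have q1 := hp (-1, -1) (by simp [mem_N]) (by simp [mem_N]) (by simp [mem_N]) (by simp [mem_N])
  have q2 := hp (0, -1) (by simp [mem_N]) (by simp [mem_N]) (by simp [mem_N]) (by simp [mem_N])
  have q3 := hp (-1, 0) (by simp [mem_N]) (by simp [mem_N]) (by simp [mem_N]) (by simp [mem_N])
  have q4 := hp (0, 0) (by simp [mem_N]) (by simp [mem_N]) (by simp [mem_N]) (by simp [mem_N])
  have r1 := hn (1, -1) 1 (Or.inr rfl) (by simp [mem_N]) (by simp [mem_N, p1])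
  have r2 := hn (1, 0) 1 (Or.inr rfl) (by simp [mem_N]) (by simp [mem_N, p1])
  have r3 := hn (-1, -1) 0 (Or.inl rfl) (by simp [mem_N]) (by simp [mem_N, p0])
  have r4 := hn (0, -1) 0 (Or.inl rfl) (by simp [mem_N]) (by simp [mem_N, p0])
  simp only [Prod.mk_add_mk, neg_add_cancel, add_zero, zero_add] at q1 q2 q3 q4
  unfold plo
  simp only [Finset.prod_range_succ, Finset.prod_range_zero, one_mul, Nat.cast_zero, Nat.cast_one,
    Prod.mk_add_mk, add_zero, neg_add_cancel, Nat.cast_ofNat, StarMul.star_mul]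
  rw [show (-1 : ℤ) + 2 = 1 by norm_num]
  have key : zlk G X (-1, -1) 1 * zlk G X (-1, 0) 1 * (zlk G X (-1, 1) 0 * zlk G X (0, 1) 0) =
      zlk G X (-1, -1) 0 * zlk G X (0, -1) 0 * zlk G X (1, -1) 1 * zlk G X (1, 0) 1 := by
    linear_combination (-zlk G X (-1, -1) 1 * zlk G X (0, 1) 0) * q3 +
      (-zlk G X (0, 0) 1 * zlk G X (0, 1) 0) * q1 +
      (-zlk G X (-1, -1) 0 * zlk G X (0, -1) 1) * q4 +
      (-zlk G X (-1, -1) 0 * zlk G X (1, 0) 1) * q2
  rw [key]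
  calc _ = (zlk G X (1, -1) 1 * star (zlk G X (1, -1) 1)) * (zlk G X (1, 0) 1 * star (zlk G X (1, 0) 1)) *
        (zlk G X (-1, -1) 0 * star (zlk G X (-1, -1) 0)) *
        (zlk G X (0, -1) 0 * star (zlk G X (0, -1) 0)) := by ring
    _ = 1 := by rw [r1, r2, r3, r4]; norm_num

end T2H02.TT
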