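import Pool.Agent.T2H02.TT.Def2

/-!
# The twisted Wilson action on `ℤ² × (ℤ/L)²` with free boundary conditions in the plane
-/

set_option autoImplicit false
set_option linter.unusedSectionVars false

noncomputable section

open MeasureTheory Matrix
open scoped Matrix.Norms.Frobenius

namespace T2H02.TT

section model

variable {N L : ℕ} [NeZero L]

/-- plaquette variable from `p` in the directions `i`, `j` -/
def plq (X : Cf N L) (p : Pt L) (i j : Fin 4) : SU N :=
  X (p, i) * X (nx p i, j) * (X (nx p j, i))⁻¹ * (X (p, j))⁻¹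

/-- 't Hooft twist: `exp (2 π i k / N)` for the plaquettes in the directions `2, 3` at the corner
`(-1,-1)` of the torus, `1` otherwise -/
def twf (N k : ℕ) {L : ℕ} (p : Pt L) (i j : Fin 4) : ℂ :=
  if i = 2 ∧ j = 3 ∧ p.2 = (-1, -1) then om N k else 1

/-- Wilson action of the plaquettes whose corners lie over the finite set `R` of the plane -/
def wact (k : ℕ) (R : Finset Pl) (X : Cf N L) : ℝ :=
  ∑ x ∈ R, ∑ y : Tor L, ∑ i : Fin 4, ∑ j : Fin 4,
    if i < j ∧ x + pe i ∈ R ∧ x + pe j ∈ R ∧ x + pe i + pe j ∈ R then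
      (N : ℝ) - (star (twf N k (x, y) i j) * (plq X (x, y) i j : Mt N).trace).re
    else 0

/-- expectation with the Wilson action in `R` (free boundary conditions), coupling `β` -/
def wex (N L : ℕ) [NeZero L] (k : ℕ) (β : ℝ) (R : Finset Pl) (f : Cf N L → ℝ) : ℝ :=
  (∫ X, f X * Real.exp (-β * wact k R X) ∂(Measure.infinitePi fun _ : Lk L => hm N)) /
    ∫ X, Real.exp (-β * wact k R X) ∂(Measure.infinitePi fun _ : Lk L => hm N)

/-- the same for complex functions -/
def wexC (N L : ℕ) [NeZero L] (k : ℕ) (β : ℝ) (R : Finset Pl) (f : Cf N L → ℂ) : ℂ :=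
  (∫ X, f X * Real.exp (-β * wact k R X) ∂(Measure.infinitePi fun _ : Lk L => hm N)) /
    ((∫ X, Real.exp (-β * wact k R X) ∂(Measure.infinitePi fun _ : Lk L => hm N) : ℝ) : ℂ)

/-- `f` is measurable, bounded by one and depends only on the links over the finite set `A` -/
def Loc (A : Finset Pl) (f : Cf N L → ℝ) : Prop :=
  Measurable f ∧ (∀ X, |f X| ≤ 1) ∧ ∀ X Y : Cf N L, (∀ l, (∀ a ∈ st l, a ∈ A) → X l = Y l) → f X = f Y

/-- translation of configurations by `v` -/
def shf (v : Pl) (X : Cf N L) : Cf N L := fun l => X ((l.1.1 + v, l.1.2), l.2)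

/-- ordered product of `n` links in the direction `i` from `p` -/
def lin (X : Cf N L) (i : Fin 4) : ℕ → Pt L → SU N
  | 0, _ => 1
  | n + 1, p => X (p, i) * lin X i n (nx p i)

/-- rectangular Wilson loop: `a` steps in the direction `0`, `b` steps in the direction `1` -/
def loo (X : Cf N L) (x : Pl) (y : Tor L) (a b : ℕ) : SU N :=
  lin X 1 b (x, y) * lin X 0 a (x + (0, (b : ℤ)), y) * (lin X 1 b (x + ((a : ℤ), 0), y))⁻¹ *
    (lin X 0 a (x, y))⁻¹

/-- normalised trace of a Wilson loop -/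
def wlp (X : Cf N L) (x : Pl) (y : Tor L) (a b : ℕ) : ℂ := (loo X x y a b : Mt N).trace / N

end model

lemma ip_self {N : ℕ} (A : Mt N) : ip A A = ‖A‖ ^ 2 := by
  rw [ip, Matrix.frobenius_norm_def, ← Real.sqrt_eq_rpow, Real.sq_sqrt (by positivity), Matrix.trace,
    Complex.re_sum, Finset.sum_comm]
  refine Finset.sum_congr rfl fun j _ => ?_
  rw [Matrix.diag_apply, Matrix.mul_apply, Complex.re_sum]
  refine Finset.sum_congr rfl fun i _ => ?_
  rw [Matrix.conjTranspose_apply, Complex.star_def, ← Complex.normSq_eq_conj_mul_self,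
    Complex.ofReal_re, Complex.normSq_eq_norm_sq]
  norm_num

lemma su_mul {N : ℕ} (g : SU N) : ((g : Mt N))ᴴ * (g : Mt N) = 1 := by
  have := g.2
  rw [Matrix.mem_specialUnitaryGroup_iff, Matrix.mem_unitaryGroup_iff'] at this
  exact this.1

lemma su_mul' {N : ℕ} (g : SU N) : (g : Mt N) * ((g : Mt N))ᴴ = 1 := by
  have := g.2
  rw [Matrix.mem_specialUnitaryGroup_iff, Matrix.mem_unitaryGroup_iff] at this
  exact this.1

lemma su_inv {N : ℕ} (g : SU N) : ((g⁻¹ : SU N) : Mt N) = ((g : Mt N))ᴴ := rfl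

lemma om_star (N m : ℕ) : star (om N m) * om N m = 1 := by
  rw [Complex.star_def, ← Complex.normSq_eq_conj_mul_self, Complex.normSq_eq_norm_sq, om,
    show 2 * (Real.pi : ℂ) * Complex.I * m / N = ((2 * Real.pi * m / N : ℝ) : ℂ) * Complex.I by
      push_cast; ring, Complex.norm_exp_ofReal_mul_I]
  norm_num

/-- energy of a plaquette in terms of its holonomy -/
lemma df_plq {N L : ℕ} [NeZero L] (X : Cf N L) (z : ℂ) (hz : star z * z = 1) (p : Pt L)
    (i j : Fin 4) : ‖df X z p i j‖ ^ 2 / 2 = N - (star z * (plq X p i j : Mt N).trace).re := by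
  rw [← ip_self, ip, df, plq]
  set A := X (p, i)
  set B := X (nx p i, j)
  set C := X (p, j)
  set D := X (nx p j, i)
  have h1 : (((A * B * D⁻¹ * C⁻¹ : SU N)) : Mt N) = (A : Mt N) * B * (D : Mt N)ᴴ * (C : Mt N)ᴴ := rfl
  rw [h1]
  have h2 : ((A : Mt N) * (B : Mt N) - z • ((C : Mt N) * (D : Mt N)))ᴴ *
      ((A : Mt N) * (B : Mt N) - z • ((C : Mt N) * (D : Mt N))) =
      (2 : ℂ) • (1 : Mt N) - (z • (((B : Mt N)ᴴ * (A : Mt N)ᴴ) * ((C : Mt N) * D)) +
        star z • (((D : Mt N)ᴴ * (C : Mt N)ᴴ) * ((A : Mt N) * B))) := by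
    have e1 : ((B : Mt N)ᴴ * (A : Mt N)ᴴ) * ((A : Mt N) * B) = 1 := by
      rw [Matrix.mul_assoc, ← Matrix.mul_assoc _ (A : Mt N), su_mul, Matrix.one_mul, su_mul]
    have e2 : ((D : Mt N)ᴴ * (C : Mt N)ᴴ) * ((C : Mt N) * D) = 1 := by
      rw [Matrix.mul_assoc, ← Matrix.mul_assoc _ (C : Mt N), su_mul, Matrix.one_mul, su_mul]
    rw [Matrix.conjTranspose_sub, Matrix.conjTranspose_smul, Matrix.conjTranspose_mul,
      Matrix.conjTranspose_mul, Matrix.sub_mul, Matrix.mul_sub, Matrix.mul_sub, e1,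
      Matrix.smul_mul, Matrix.smul_mul, Matrix.mul_smul, Matrix.mul_smul, e2, smul_smul, hz,
      one_smul, two_smul]
    abel
  rw [h2, Matrix.trace_sub, Matrix.trace_add, Matrix.trace_smul, Matrix.trace_smul,
    Matrix.trace_smul, Matrix.trace_one]
  have h3 : (((D : Mt N)ᴴ * (C : Mt N)ᴴ) * ((A : Mt N) * B)).trace =
      ((A : Mt N) * B * (D : Mt N)ᴴ * (C : Mt N)ᴴ).trace := by
    rw [Matrix.trace_mul_comm, Matrix.mul_assoc, Matrix.mul_assoc, Matrix.mul_assoc]
  have h4 : (((B : Mt N)ᴴ * (A : Mt N)ᴴ) * ((C : Mt N) * D)).trace =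
      star (((D : Mt N)ᴴ * (C : Mt N)ᴴ) * ((A : Mt N) * B)).trace := by
    rw [← Matrix.trace_conjTranspose, Matrix.conjTranspose_mul, Matrix.conjTranspose_mul,
      Matrix.conjTranspose_mul, Matrix.conjTranspose_conjTranspose,
      Matrix.conjTranspose_conjTranspose]
  rw [h4, h3]
  simp only [smul_eq_mul, Complex.sub_re, Complex.add_re, Complex.mul_re, Complex.star_def,
    Complex.conj_re, Complex.conj_im, Fintype.card_fin, Complex.natCast_re, Complex.natCast_im]
  norm_num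
  ring

end T2H02.TT
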