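import Pool.Agent.T2H02.TT.Stm2

/-!
# Package H : small energies inside
-/

set_option autoImplicit false

noncomputable section

open MeasureTheory Matrix
open scoped Matrix.Norms.Frobenius

namespace T2H02.TT

namespace PkgH

/-! ### combinatorics of balls and terms -/

lemma mem_bal (r : ℕ) (B : Finset Pl) (a : Pl) :
    a ∈ bal r B ↔ ∃ b ∈ B, |a.1 - b.1| ≤ r ∧ |a.2 - b.2| ≤ r := by
  simp only [bal, Nb, Finset.mem_biUnion, Finset.mem_product, Finset.mem_Icc, abs_le]
  constructor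
  · rintro ⟨b, hb, ⟨h1, h2⟩, h3, h4⟩
    exact ⟨b, hb, ⟨by linarith, by linarith⟩, by linarith, by linarith⟩
  · rintro ⟨b, hb, ⟨h1, h2⟩, h3, h4⟩
    exact ⟨b, hb, ⟨by linarith, by linarith⟩, by linarith, by linarith⟩

lemma mem_pls (U : Finset Pl) (a : Pl) :
    a ∈ pls U ↔ ∃ b ∈ U, |a.1 - b.1| ≤ 1 ∧ |a.2 - b.2| ≤ 1 := by
  have h := mem_bal 1 U a
  simpa [pls, bal] using h

lemma bal_zero (B : Finset Pl) : bal 0 B = B := by
  ext a
  rw [mem_bal]
  constructor
  · rintro ⟨b, hb, h1, h2⟩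
    have e1 : a.1 - b.1 = 0 := by simpa using h1
    have e2 : a.2 - b.2 = 0 := by simpa using h2
    have : a = b := Prod.ext (by linarith) (by linarith)
    rw [this]
    exact hb
  · intro ha
    exact ⟨a, ha, by simp, by simp⟩

lemma bal_mono {r s : ℕ} (h : r ≤ s) (B : Finset Pl) : bal r B ⊆ bal s B := by
  intro a ha
  rw [mem_bal] at ha ⊢
  obtain ⟨b, hb, h1, h2⟩ := ha
  have : (r : ℤ) ≤ s := by exact_mod_cast h
  exact ⟨b, hb, h1.trans this, h2.trans this⟩

lemma pls_bal (r : ℕ) (B Λ : Finset Pl) : pls (bal r B ∩ Λ) ⊆ bal (r + 1) B := by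
  intro a ha
  rw [mem_pls] at ha
  obtain ⟨c, hc, h1, h2⟩ := ha
  obtain ⟨b, hb, h3, h4⟩ := (mem_bal _ _ _).1 (Finset.mem_inter.1 hc).1
  rw [mem_bal]
  refine ⟨b, hb, ?_, ?_⟩
  · have := abs_add_le (a.1 - c.1) (c.1 - b.1)
    rw [show a.1 - c.1 + (c.1 - b.1) = a.1 - b.1 by ring] at this
    push_cast
    linarith
  · have := abs_add_le (a.2 - c.2) (c.2 - b.2)
    rw [show a.2 - c.2 + (c.2 - b.2) = a.2 - b.2 by ring] at this
    push_cast
    linarith

lemma fst_mem_cor (τ : Tm) : τ.1 ∈ cor τ := by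
  unfold cor
  split_ifs <;> simp

lemma card_tml (U : Finset Pl) : (tml U).card ≤ 16 * U.card := by
  unfold tml
  refine (Finset.card_filter_le _ _).trans ?_
  rw [Finset.card_product]
  have h1 : (U ∪ U.image (fun x => x - (1, 0)) ∪ U.image (fun x => x - (0, 1)) ∪
    U.image (fun x => x - (1, 1))).card ≤ U.card + U.card + U.card + U.card := by
    refine (Finset.card_union_le _ _).trans (add_le_add ?_ Finset.card_image_le)
    refine (Finset.card_union_le _ _).trans (add_le_add ?_ Finset.card_image_le)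
    exact (Finset.card_union_le _ _).trans (add_le_add le_rfl Finset.card_image_le)
  have h2 : (Finset.univ : Finset (Fin 4)).card = 4 := by simp
  rw [h2]
  omega

lemma card_inside (T : Finset Tm) (P : Finset Pl) (h : ∀ τ ∈ T, ∀ a ∈ cor τ, a ∈ P) :
    T.card ≤ 4 * P.card := by
  have h1 : T ⊆ P ×ˢ (Finset.univ : Finset (Fin 4)) := fun τ hτ =>
    Finset.mem_product.2 ⟨h τ hτ _ (fst_mem_cor τ), Finset.mem_univ _⟩
  have h2 := Finset.card_le_card h1
  rw [Finset.card_product] at h2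
  have h3 : (Finset.univ : Finset (Fin 4)).card = 4 := by simp
  rw [h3] at h2
  omega

variable {N L : ℕ} [NeZero L]

/-- **the deterministic step** -/
lemma det_step (k : ℕ) (Λ B : Finset Pl) (R r : ℕ) (hr : r ≤ R) (e : ℝ) (he : 0 ≤ e)
    (X : Cf N L)
    (hX : ∀ τ : Tm, (∀ a ∈ cor τ, a ∈ bal (R + 1) B ∧ a ∉ Λ) → en k X τ ≤ e) :
    ∑ τ ∈ rng (bal r B ∩ Λ), en k X τ ≤
      (∑ τ ∈ tml (bal (r + 1) B ∩ Λ), en k X τ - ∑ τ ∈ tml (bal r B ∩ Λ), en k X τ) +
        4 * (bal (R + 1) B).card * e := by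
  classical
  have hsub : tml (bal r B ∩ Λ) ⊆ tml (bal (r + 1) B ∩ Λ) := by
    intro τ hτ
    rw [mem_tml] at hτ ⊢
    obtain ⟨a, ha, h⟩ := hτ
    rw [Finset.mem_inter] at h
    exact ⟨a, ha, Finset.mem_inter.2 ⟨bal_mono (Nat.le_succ r) B h.1, h.2⟩⟩
  have hcor : ∀ τ ∈ rng (bal r B ∩ Λ), ∀ a ∈ cor τ, a ∈ bal (r + 1) B ∧ a ∉ bal r B ∩ Λ := by
    intro τ hτ a ha
    have h1 := (Finset.mem_filter.1 hτ).2 a ha
    exact ⟨pls_bal r B Λ h1.1, h1.2⟩
  rw [← Finset.sum_filter_add_sum_filter_not (rng (bal r B ∩ Λ)) (fun τ => ∃ a ∈ cor τ, a ∈ Λ)]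
  refine add_le_add ?_ ?_
  · rw [← Finset.sum_sdiff_eq_sub hsub]
    refine Finset.sum_le_sum_of_subset_of_nonneg ?_ fun τ _ _ => en_nonneg k X τ
    intro τ hτ
    obtain ⟨h1, a, ha, haΛ⟩ := Finset.mem_filter.1 hτ
    rw [Finset.mem_sdiff, mem_tml, mem_tml]
    refine ⟨⟨a, ha, Finset.mem_inter.2 ⟨(hcor τ h1 a ha).1, haΛ⟩⟩, ?_⟩
    rintro ⟨b, hb, hb2⟩
    exact (hcor τ h1 b hb).2 hb2
  · have h1 : ∀ τ ∈ (rng (bal r B ∩ Λ)).filter (fun τ => ¬ ∃ a ∈ cor τ, a ∈ Λ), en k X τ ≤ e := by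
      intro τ hτ
      obtain ⟨h2, h3⟩ := Finset.mem_filter.1 hτ
      refine hX τ fun a ha => ⟨bal_mono (by omega) B (hcor τ h2 a ha).1, fun haΛ => h3 ⟨a, ha, haΛ⟩⟩
    refine (Finset.sum_le_card_nsmul _ _ e h1).trans ?_
    rw [nsmul_eq_mul]
    refine mul_le_mul_of_nonneg_right ?_ he
    have h4 := card_inside ((rng (bal r B ∩ Λ)).filter (fun τ => ¬ ∃ a ∈ cor τ, a ∈ Λ))
      (bal (R + 1) B) (by
        intro τ hτ a ha
        exact bal_mono (by omega) B (hcor τ (Finset.mem_filter.1 hτ).1 a ha).1)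
    exact_mod_cast h4

/-- the recursion -/
lemma recursion (R : ℕ) (E : ℕ → ℝ) (θ K C : ℝ) (hθ : 0 ≤ θ) (hK : θ * C + 1 ≤ C)
    (hK0 : 0 ≤ K) (hC : 1 ≤ C)
    (h : ∀ r ≤ R, E r < θ * E (r + 1) + K) : ∀ j ≤ R, E (R - j) < θ ^ (j + 1) * E (R + 1) + K * C := by
  intro j
  induction j with
  | zero =>
    intro _
    have h1 := h R le_rfl
    rw [Nat.sub_zero, zero_add, pow_one]
    have h2 : K ≤ K * C := le_mul_of_one_le_right hK0 hC
    linarith
  | succ j ih =>
    intro hj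
    have h1 := ih (by omega)
    have h2 := h (R - (j + 1)) (by omega)
    rw [show R - (j + 1) + 1 = R - j by omega] at h2
    have h3 : θ * E (R - j) ≤ θ * (θ ^ (j + 1) * E (R + 1) + K * C) :=
      mul_le_mul_of_nonneg_left h1.le hθ
    have h4 : K * (θ * C + 1) ≤ K * C := mul_le_mul_of_nonneg_left hK hK0
    rw [pow_succ θ (j + 1)]
    nlinarith

/-! ### kernels -/

lemma ker_sum (h5 : S_F5) {ι T X : Type} [DecidableEq ι] [DecidableEq T] [MeasurableSpace X]
    (S : Sys ι T X) (μ : Measure X) [IsProbabilityMeasure μ] (Λ : Finset Pl)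
    (g : ℕ → (ι → X) → ℝ) (hg : ∀ r, Measurable (g r)) (hb : ∀ r ω, |g r ω| ≤ 1) (n : ℕ)
    (η : ι → X) :
    S.ker μ Λ (fun ω => ∑ r ∈ Finset.range n, g r ω) η =
      ∑ r ∈ Finset.range n, S.ker μ Λ (g r) η := by
  induction n with
  | zero =>
    simp only [Finset.range_zero, Finset.sum_empty]
    exact (h5 ι T X S μ Λ).2.1 0 η
  | succ n ih =>
    simp only [Finset.sum_range_succ]
    rw [← ih]
    refine ((h5 ι T X S μ Λ).2.2.1 (fun ω => ∑ r ∈ Finset.range n, g r ω) (g n)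
      (Finset.measurable_sum _ fun r _ => hg r) ⟨n, fun ω => ?_⟩ (hg n) ⟨1, hb n⟩ η).2.1
    refine (Finset.abs_sum_le_sum_abs _ _).trans ?_
    refine (Finset.sum_le_card_nsmul _ _ 1 fun r _ => hb r ω).trans ?_
    simp

lemma ind_meas {Ω : Type} [MeasurableSpace Ω] (f g : Ω → ℝ) (hf : Measurable f)
    (hg : Measurable g) : Measurable fun X => ind (f X ≤ g X) := by
  unfold ind
  exact Measurable.ite (measurableSet_le hf hg) measurable_const measurable_const

lemma ind_abs (p : Prop) : |ind p| ≤ 1 := by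
  unfold ind
  split_ifs <;> simp

lemma ind_nonneg (p : Prop) : 0 ≤ ind p := by
  unfold ind
  split_ifs <;> simp

lemma ind_true {p : Prop} (hp : p) : ind p = 1 := by
  unfold ind
  rw [if_pos hp]

lemma ind_le_one (p : Prop) : ind p ≤ 1 := by
  unfold ind
  split_ifs <;> simp

lemma en_meas (k : ℕ) (hN : 2 ≤ N) (T : Finset Tm) :
    Measurable fun X : Cf N L => ∑ τ ∈ T, en k X τ :=
  Finset.measurable_sum _ fun τ _ => (en_cont k τ (by omega)).measurable

end PkgH

open PkgH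

/-- **Package H.** -/
theorem pH (h3 : S_F3) (h5 : S_F5) (hG : S_G) (hG3 : S_G3) : S_H := by
  intro N k L _ hN hk
  obtain ⟨C₁, D₁, hC₁, hG'⟩ := hG N k L hN hk
  obtain ⟨C₃, hC₃, -, hen, -⟩ := hG3 N k L hN
  refine ⟨16 * C₃ + 4 * (1 + C₁), C₁ / (1 + C₁), D₁, by linarith, by positivity, ?_, ?_⟩
  · rw [div_lt_one (by linarith)]
    linarith
  intro β hβ hβ1 Λ B R e t he ht η hη
  set S := sysS N L k β hN hβ with hS
  set θ := C₁ / (1 + C₁) with hθ
  set n : ℝ := ((bal (R + 1) B).card : ℝ) with hn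
  have hn0 : 0 ≤ n := by positivity
  have hθ0 : 0 < θ := by positivity
  have hθ1 : θ < 1 := by
    rw [hθ, div_lt_one (by linarith)]
    linarith
  set U : ℕ → Finset Pl := fun r => bal r B ∩ Λ with hU
  set g : ℕ → Cf N L → ℝ := fun r X =>
    ind (C₁ * ∑ τ ∈ rng (U r), en k X τ + t ≤ ∑ τ ∈ tml (U r), en k X τ) with hg
  have hgm : ∀ r, Measurable (g r) := fun r => ind_meas _ _
    (((en_meas k hN _).const_mul C₁).add_const t) (en_meas k hN _)
  have hgb : ∀ r X, |g r X| ≤ 1 := fun r X => ind_abs _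
  set p : ℝ := Real.exp (-β * t) *
    ((16 * C₃ + 4 * (1 + C₁)) * β) ^ (D₁ * (bal (R + 1) B).card) with hp
  -- each event is rare
  have hrare : ∀ r ∈ Finset.range (R + 1), S.ker (hm N) Λ (g r) η ≤ p := by
    intro r hr
    have hr' : r ≤ R := by
      have := Finset.mem_range.1 hr
      omega
    have e1 := h3 (Lk L) Tm (SU N) S (hm N) (U r) Λ Finset.inter_subset_right (g r) (hgm r)
      ⟨1, hgb r⟩ (fun _ => 1) measurable_const ⟨1, fun _ => by simp⟩ (fun _ _ _ => rfl) η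
    simp only [one_mul] at e1
    have e1' : S.ker (hm N) Λ (g r) η = S.ker (hm N) Λ (S.ker (hm N) (U r) (g r)) η := e1
    rw [e1']
    have e2 : ∀ ω, S.ker (hm N) (U r) (g r) ω ≤ p := by
      intro ω
      refine (hG' β hβ hβ1 (U r) t ht ω).trans ?_
      refine mul_le_mul_of_nonneg_left ?_ (Real.exp_pos _).le
      have a1 : 1 ≤ C₁ * β := by nlinarith
      have a2 : C₁ * β ≤ (16 * C₃ + 4 * (1 + C₁)) * β :=
        mul_le_mul_of_nonneg_right (by linarith) hβ
      calc (C₁ * β) ^ (D₁ * (U r).card) ≤ (C₁ * β) ^ (D₁ * (bal (R + 1) B).card) := by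
            refine pow_le_pow_right₀ a1 (Nat.mul_le_mul_left _ (Finset.card_le_card ?_))
            exact Finset.inter_subset_left.trans (bal_mono (by omega) B)
        _ ≤ _ := pow_le_pow_left₀ (by linarith) a2 _
    have e3 := (h5 (Lk L) Tm (SU N) S (hm N) Λ).2.2.1 (S.ker (hm N) (U r) (g r)) (fun _ => p)
      ((h5 (Lk L) Tm (SU N) S (hm N) (U r)).2.2.2.1 (g r) (hgm r) ⟨1, hgb r⟩)
      ⟨1, (h5 (Lk L) Tm (SU N) S (hm N) (U r)).2.2.2.2.1 1 (g r) (hgm r) (hgb r)⟩
      measurable_const ⟨|p|, fun _ => le_rfl⟩ η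
    refine (e3.1 fun ξ => e2 _).trans (le_of_eq ?_)
    exact (h5 (Lk L) Tm (SU N) S (hm N) Λ).2.1 p η
  -- the event is contained in the union
  have hmain : S.ker (hm N) Λ (fun X =>
      ind (θ ^ R * (16 * C₃ + 4 * (1 + C₁)) * n + (16 * C₃ + 4 * (1 + C₁)) * n * e +
        (16 * C₃ + 4 * (1 + C₁)) * t ≤ ∑ τ ∈ tml (B ∩ Λ), en k X τ)) η ≤
      S.ker (hm N) Λ (fun X => ∑ r ∈ Finset.range (R + 1), g r X) η := by
    refine ((h5 (Lk L) Tm (SU N) S (hm N) Λ).2.2.1 _ _
      (ind_meas _ _ measurable_const (en_meas k hN _)) ⟨1, fun _ => ind_abs _⟩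
      (Finset.measurable_sum _ fun r _ => hgm r) ⟨(R + 1 : ℕ), fun ω => ?_⟩ η).1 fun ξ => ?_
    · refine (Finset.abs_sum_le_sum_abs _ _).trans ?_
      refine (Finset.sum_le_card_nsmul _ _ 1 fun r _ => hgb r ω).trans ?_
      simp
    · set X : Cf N L := glue (S.Fr Λ) ξ η with hX
      by_cases hall : ∃ r ∈ Finset.range (R + 1),
          C₁ * ∑ τ ∈ rng (U r), en k X τ + t ≤ ∑ τ ∈ tml (U r), en k X τ
      · obtain ⟨r, hr, hr2⟩ := hall
        refine (ind_le_one _).trans ?_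
        have e4 : g r X = 1 := ind_true hr2
        rw [← e4]
        exact Finset.single_le_sum (f := fun r => g r X) (fun i _ => ind_nonneg _) hr
      · push Not at hall
        have hXe : ∀ τ : Tm, (∀ a ∈ cor τ, a ∈ bal (R + 1) B ∧ a ∉ Λ) → en k X τ ≤ e := by
          intro τ hτ
          have e5 : en k X τ = en k η τ := by
            refine en_loc k τ X η fun l hl => ?_
            rw [hX]
            unfold glue
            rw [if_neg]
            intro hl2
            obtain ⟨a, ha, haΛ⟩ := (mem_Frl Λ l).1 hl2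
            exact (hτ a ((cor_iff τ a).2 ⟨l, hl, ha⟩)).2 haΛ
          rw [e5]
          exact hη τ hτ
        have hrec : ∀ r ≤ R, ∑ τ ∈ tml (U r), en k X τ <
            θ * ∑ τ ∈ tml (U (r + 1)), en k X τ + (4 * n * e + t) := by
          intro r hr
          have f1 := hall r (Finset.mem_range.2 (by omega))
          have f2 := det_step k Λ B R r hr e he X hXe
          change ∑ τ ∈ rng (U r), en k X τ ≤ (∑ τ ∈ tml (U (r + 1)), en k X τ -
            ∑ τ ∈ tml (U r), en k X τ) + 4 * n * e at f2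
          set E0 := ∑ τ ∈ tml (U r), en k X τ
          set E1 := ∑ τ ∈ tml (U (r + 1)), en k X τ
          have f3 : C₁ * ∑ τ ∈ rng (U r), en k X τ ≤ C₁ * ((E1 - E0) + 4 * n * e) :=
            mul_le_mul_of_nonneg_left f2 (by linarith)
          have f4 : (1 + C₁) * E0 < C₁ * E1 + C₁ * (4 * n * e) + t := by linarith
          have f5 : E0 < (C₁ * E1 + C₁ * (4 * n * e) + t) / (1 + C₁) := by
            rw [lt_div_iff₀ (by linarith)]
            linarith
          have f6 : (C₁ * E1 + C₁ * (4 * n * e) + t) / (1 + C₁) =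
              θ * E1 + (C₁ * (4 * n * e) + t) / (1 + C₁) := by
            rw [hθ]
            ring
          have f7 : (C₁ * (4 * n * e) + t) / (1 + C₁) ≤ 4 * n * e + t := by
            rw [div_le_iff₀ (by linarith)]
            nlinarith [mul_nonneg hn0 he, mul_nonneg (by linarith : (0 : ℝ) ≤ C₁) ht]
          linarith
        have h6 := recursion R (fun r => ∑ τ ∈ tml (U r), en k X τ) θ (4 * n * e + t) (1 + C₁)
          hθ0.le (by
            rw [hθ]
            rw [div_mul_cancel₀ _ (by linarith : (1 : ℝ) + C₁ ≠ 0)]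
            linarith) (by nlinarith [mul_nonneg hn0 he]) (by linarith) hrec R le_rfl
        simp only [Nat.sub_self] at h6
        have h7 : ∑ τ ∈ tml (U (R + 1)), en k X τ ≤ 16 * C₃ * n := by
          refine (Finset.sum_le_card_nsmul _ _ C₃ fun τ _ => hen X τ).trans ?_
          rw [nsmul_eq_mul]
          have a1 : ((tml (U (R + 1))).card : ℝ) ≤ 16 * n := by
            have a2 := card_tml (U (R + 1))
            have a3 : (U (R + 1)).card ≤ (bal (R + 1) B).card :=
              Finset.card_le_card Finset.inter_subset_left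
            rw [hn]
            exact_mod_cast a2.trans (Nat.mul_le_mul_left _ a3)
          nlinarith
        have hU0 : U 0 = B ∩ Λ := by rw [hU]; simp only [bal_zero]
        rw [hU0] at h6
        have hfalse : ¬ (θ ^ R * (16 * C₃ + 4 * (1 + C₁)) * n +
            (16 * C₃ + 4 * (1 + C₁)) * n * e +
            (16 * C₃ + 4 * (1 + C₁)) * t ≤ ∑ τ ∈ tml (B ∩ Λ), en k X τ) := by
          push Not
          refine h6.trans_le ?_
          have b1 : θ ^ (R + 1) * ∑ τ ∈ tml (U (R + 1)), en k X τ ≤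
              θ ^ R * (16 * C₃ + 4 * (1 + C₁)) * n := by
            calc θ ^ (R + 1) * ∑ τ ∈ tml (U (R + 1)), en k X τ ≤ θ ^ (R + 1) * (16 * C₃ * n) :=
                  mul_le_mul_of_nonneg_left h7 (by positivity)
              _ ≤ θ ^ R * (16 * C₃ * n) := by
                  refine mul_le_mul_of_nonneg_right ?_ (by positivity)
                  exact pow_le_pow_of_le_one hθ0.le hθ1.le (Nat.le_succ R)
              _ ≤ θ ^ R * ((16 * C₃ + 4 * (1 + C₁)) * n) := by
                  refine mul_le_mul_of_nonneg_left ?_ (by positivity)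
                  nlinarith
              _ = _ := by ring
          nlinarith [mul_nonneg hn0 he, mul_nonneg hC₃.le ht,
            mul_nonneg hC₃.le (mul_nonneg hn0 he), mul_nonneg (by linarith : (0 : ℝ) ≤ C₁) ht]
        have e6 : ind (θ ^ R * (16 * C₃ + 4 * (1 + C₁)) * n +
            (16 * C₃ + 4 * (1 + C₁)) * n * e +
            (16 * C₃ + 4 * (1 + C₁)) * t ≤ ∑ τ ∈ tml (B ∩ Λ), en k X τ) = 0 := by
          unfold ind
          rw [if_neg hfalse]
        rw [e6]
        exact Finset.sum_nonneg fun i _ => ind_nonneg _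
  refine hmain.trans ?_
  rw [ker_sum h5 S (hm N) Λ g hgm hgb (R + 1) η]
  refine (Finset.sum_le_card_nsmul _ _ p hrare).trans (le_of_eq ?_)
  rw [Finset.card_range, nsmul_eq_mul]
  push_cast
  rfl

end T2H02.TT
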