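import Pool.Agent.T2H02.TT.Stm

/-!
# Package A: Stone-von Neumann for `SU(N)`
-/

set_option autoImplicit false

noncomputable section

open MeasureTheory Matrix
open scoped Matrix.Norms.Frobenius

namespace T2H02.TT.PkgA

variable {N : ℕ}

/-- `om N k` is a primitive root of unity -/
lemma om_prim {k : ℕ} (hN : 2 ≤ N) (hk : Nat.Coprime k N) : IsPrimitiveRoot (om N k) N := by
  have h := Complex.isPrimitiveRoot_exp_of_coprime k N (by omega) hk
  unfold om
  convert h using 2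
  ring

lemma om_ne {k : ℕ} : om N k ≠ 0 := Complex.exp_ne_zero _

lemma om_pow {k : ℕ} (hN : 2 ≤ N) (hk : Nat.Coprime k N) : om N k ^ N = 1 :=
  (om_prim hN hk).pow_eq_one

/-- the commutation relation `P X = z X P` -/
def Cm (P X : Mt N) (z : ℂ) : Prop := P * X = z • (X * P)

lemma Cm.mul {P X Y : Mt N} {z w : ℂ} (h : Cm P X z) (h' : Cm P Y w) : Cm P (X * Y) (z * w) := by
  unfold Cm at *
  rw [← mul_assoc, h, smul_mul_assoc, mul_assoc, h', mul_smul_comm, smul_smul, mul_assoc]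

lemma Cm.self (P : Mt N) : Cm P P 1 := by
  unfold Cm; rw [one_smul]

lemma Cm.one (P : Mt N) : Cm P 1 1 := by
  unfold Cm; rw [one_smul, mul_one, one_mul]

lemma Cm.pow {P X : Mt N} {z : ℂ} (h : Cm P X z) (n : ℕ) : Cm P (X ^ n) (z ^ n) := by
  induction n with
  | zero => simpa using Cm.one P
  | succ n ih =>
    rw [pow_succ, pow_succ]
    exact ih.mul h

lemma Cm.inv {P X : Mt N} {z : ℂ} (h : Cm P X z) (hz : z ≠ 0) (h1 : X * Xᴴ = 1)
    (h2 : Xᴴ * X = 1) : Cm P Xᴴ z⁻¹ := by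
  unfold Cm at *
  have e : P = z • (X * P * Xᴴ) := by
    rw [← smul_mul_assoc, ← h, mul_assoc, h1, mul_one]
  have e2 : Xᴴ * P = z • (P * Xᴴ) := by
    conv_lhs => rw [e]
    rw [mul_smul_comm, mul_assoc, ← mul_assoc Xᴴ, h2, one_mul]
  rw [e2, smul_smul, inv_mul_cancel₀ hz, one_smul]

lemma Cm.trace {P X : Mt N} {z : ℂ} (h : Cm P X z) (hz : z ≠ 1) (h1 : P * Pᴴ = 1)
    (h2 : Pᴴ * P = 1) : X.trace = 0 := by
  unfold Cm at h
  have e : X.trace = z * X.trace := by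
    calc X.trace = (Pᴴ * (P * X)).trace := by rw [← mul_assoc, h2, one_mul]
      _ = z * X.trace := by
        rw [h, mul_smul_comm, trace_smul, trace_mul_comm, mul_assoc, h1, mul_one, smul_eq_mul]
  have e2 : (1 - z) * X.trace = 0 := by linear_combination e
  rcases mul_eq_zero.1 e2 with h3 | h3
  · exact absurd (sub_eq_zero.1 h3).symm hz
  · exact h3

/-- a pair of unitary matrices with `P Q = z Q P` -/
structure Pr (P Q : Mt N) (z : ℂ) : Prop where
  p1 : P * Pᴴ = 1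
  p2 : Pᴴ * P = 1
  q1 : Q * Qᴴ = 1
  q2 : Qᴴ * Q = 1
  c : Cm P Q z

lemma su_unit (P : SU N) : (P : Mt N) * (P : Mt N)ᴴ = 1 ∧ (P : Mt N)ᴴ * (P : Mt N) = 1 := by
  have h := (mem_specialUnitaryGroup_iff.1 P.2).1
  rw [mem_unitaryGroup_iff] at h
  have h' := (mem_specialUnitaryGroup_iff.1 P.2).1
  rw [mem_unitaryGroup_iff'] at h'
  exact ⟨h, h'⟩

lemma su_det (P : SU N) : (P : Mt N).det = 1 := (mem_specialUnitaryGroup_iff.1 P.2).2

lemma pr_of {k : ℕ} {P Q : SU N} (h : PQ k P Q) : Pr (P : Mt N) (Q : Mt N) (om N k) :=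
  ⟨(su_unit P).1, (su_unit P).2, (su_unit Q).1, (su_unit Q).2, h⟩

section pair

variable {P Q : Mt N} {z : ℂ} (h : Pr P Q z) (hz : z ≠ 0)

include h hz in
lemma Pr.c' : Cm Q P z⁻¹ := by
  unfold Cm
  have := h.c
  unfold Cm at this
  rw [this, smul_smul, inv_mul_cancel₀ hz, one_smul]

include h in
lemma Pr.cp (a b : ℕ) : Cm P (P ^ a * Q ^ b) (z ^ b) := by
  have := ((Cm.self P).pow a).mul (h.c.pow b)
  rwa [one_pow, one_mul] at this

include h hz in
lemma Pr.cq (a b : ℕ) : Cm Q (P ^ a * Q ^ b) (z⁻¹ ^ a) := by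
  have := ((h.c' hz).pow a).mul ((Cm.self Q).pow b)
  rwa [one_pow, mul_one] at this

lemma pow_unit {P : Mt N} (h : P * Pᴴ = 1) (a : ℕ) : P ^ a * (P ^ a)ᴴ = 1 := by
  induction a with
  | zero => simp
  | succ a ih =>
    rw [pow_succ, conjTranspose_mul, mul_assoc, ← mul_assoc P, h, one_mul, ih]

include h in
lemma Pr.un (a b : ℕ) : (P ^ a * Q ^ b) * (P ^ a * Q ^ b)ᴴ = 1 := by
  rw [conjTranspose_mul, mul_assoc, ← mul_assoc (Q ^ b), pow_unit h.q1, one_mul, pow_unit h.p1]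

include h in
lemma Pr.un' (a b : ℕ) : (P ^ a * Q ^ b)ᴴ * (P ^ a * Q ^ b) = 1 := mul_eq_one_comm.1 (h.un a b)

include h in
/-- traces -/
lemma Pr.tr (hp : IsPrimitiveRoot z N) (hN : N ≠ 0) {a b : ℕ} (hab : ¬(N ∣ a ∧ N ∣ b)) :
    (P ^ a * Q ^ b).trace = 0 := by
  have hz : z ≠ 0 := hp.ne_zero hN
  by_cases hb : N ∣ b
  · have ha : ¬N ∣ a := fun ha => hab ⟨ha, hb⟩
    refine (h.cq hz a b).trace ?_ h.q1 h.q2
    intro h1
    rw [inv_pow, inv_eq_one] at h1
    exact ha ((hp.pow_eq_one_iff_dvd a).1 h1)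
  · refine (h.cp a b).trace ?_ h.p1 h.p2
    intro h1
    exact hb ((hp.pow_eq_one_iff_dvd b).1 h1)

/-- traces of products with adjoints -/
lemma Pr.tr2 (h : Pr P Q z) (hp : IsPrimitiveRoot z N) (hN : N ≠ 0) {a b a' b' : ℕ} (ha : a < N)
    (hb : b < N) (ha' : a' < N) (hb' : b' < N) :
    ((P ^ a * Q ^ b) * (P ^ a' * Q ^ b')ᴴ).trace = if a = a' ∧ b = b' then (N : ℂ) else 0 := by
  have hz : z ≠ 0 := hp.ne_zero hN
  have hzi : z⁻¹ ≠ 0 := inv_ne_zero hz
  split_ifs with hc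
  · obtain ⟨rfl, rfl⟩ := hc
    rw [h.un, trace_one, Fintype.card_fin]
  · by_cases hbb : b = b'
    · have haa : a ≠ a' := fun h1 => hc ⟨h1, hbb⟩
      refine ((h.cq hz a b).mul ((h.cq hz a' b').inv (pow_ne_zero _ hzi) (h.un a' b')
        (h.un' a' b'))).trace ?_ h.q1 h.q2
      intro h1
      have h2 : z ^ a = z ^ a' := by
        have h3 : z ^ a ≠ 0 := pow_ne_zero _ hz
        have h4 : z ^ a' ≠ 0 := pow_ne_zero _ hz
        rw [inv_pow, inv_pow, inv_inv] at h1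
        field_simp at h1
        exact h1.symm
      exact haa (hp.pow_inj ha ha' h2)
    · refine ((h.cp a b).mul ((h.cp a' b').inv (pow_ne_zero _ hz) (h.un a' b')
        (h.un' a' b'))).trace ?_ h.p1 h.p2
      intro h1
      have h2 : z ^ b = z ^ b' := by
        have h4 : z ^ b' ≠ 0 := pow_ne_zero _ hz
        field_simp at h1
        exact h1
      exact hbb (hp.pow_inj hb hb' h2)


/-- completeness of the monomials -/
lemma Pr.compl (h : Pr P Q z) (hp : IsPrimitiveRoot z N) (hN : N ≠ 0) (i j k l : Fin N) :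
    ∑ ab : Fin N × Fin N, starRingEnd ℂ ((P ^ (ab.1 : ℕ) * Q ^ (ab.2 : ℕ)) i j) *
      (P ^ (ab.1 : ℕ) * Q ^ (ab.2 : ℕ)) k l = if i = k ∧ j = l then (N : ℂ) else 0 := by
  have hN' : (N : ℂ) ≠ 0 := by exact_mod_cast hN
  let K : Matrix (Fin N × Fin N) (Fin N × Fin N) ℂ :=
    Matrix.of fun ab ij => (P ^ (ab.1 : ℕ) * Q ^ (ab.2 : ℕ)) ij.1 ij.2
  have h1 : K * ((N : ℂ)⁻¹ • Kᴴ) = 1 := by
    ext ab cd
    rw [mul_smul_comm, Matrix.smul_apply, mul_apply]
    have h2 := h.tr2 hp hN ab.1.2 ab.2.2 cd.1.2 cd.2.2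
    have h3 : ∑ ij : Fin N × Fin N, K ab ij * Kᴴ ij cd =
        ((P ^ (ab.1 : ℕ) * Q ^ (ab.2 : ℕ)) * (P ^ (cd.1 : ℕ) * Q ^ (cd.2 : ℕ))ᴴ).trace := by
      rw [Fintype.sum_prod_type, Matrix.trace]
      refine Finset.sum_congr rfl fun i _ => ?_
      rw [diag_apply, mul_apply]
      rfl
    rw [h3, h2, smul_eq_mul]
    by_cases hc : ab = cd
    · subst hc
      simp [hN']
    · have : ¬((ab.1 : ℕ) = (cd.1 : ℕ) ∧ (ab.2 : ℕ) = (cd.2 : ℕ)) := by
        rintro ⟨q1, q2⟩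
        exact hc (Prod.ext (Fin.ext q1) (Fin.ext q2))
      rw [if_neg this, one_apply_ne hc, mul_zero]
  have h4 : ((N : ℂ)⁻¹ • Kᴴ) * K = 1 := mul_eq_one_comm.1 h1
  have h5 := congrFun (congrFun h4 (i, j)) (k, l)
  rw [smul_mul_assoc, Matrix.smul_apply, mul_apply, smul_eq_mul] at h5
  have h6 : ∑ ab : Fin N × Fin N, starRingEnd ℂ ((P ^ (ab.1 : ℕ) * Q ^ (ab.2 : ℕ)) i j) *
      (P ^ (ab.1 : ℕ) * Q ^ (ab.2 : ℕ)) k l =
      ∑ ab : Fin N × Fin N, Kᴴ (i, j) ab * K ab (k, l) := rfl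
  rw [h6]
  have h7 : ∑ ab : Fin N × Fin N, Kᴴ (i, j) ab * K ab (k, l) =
      N * (1 : Matrix (Fin N × Fin N) (Fin N × Fin N) ℂ) (i, j) (k, l) := by
    rw [← h5, ← mul_assoc, mul_inv_cancel₀ hN', one_mul]
  rw [h7, one_apply]
  by_cases hc : i = k ∧ j = l
  · obtain ⟨rfl, rfl⟩ := hc; simp
  · rw [if_neg hc, if_neg (fun hh => hc (Prod.mk.inj hh)), mul_zero]

/-- the commutant -/
lemma Pr.comm (h : Pr P Q z) (hp : IsPrimitiveRoot z N) (hN : N ≠ 0) {M : Mt N}
    (hP : M * P = P * M) (hQ : M * Q = Q * M) : M = (M.trace / N) • (1 : Mt N) := by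
  have hN' : (N : ℂ) ≠ 0 := by exact_mod_cast hN
  have hc : ∀ a b : ℕ, M * (P ^ a * Q ^ b) = (P ^ a * Q ^ b) * M := by
    intro a b
    have h1 : Commute M P := hP
    have h2 : Commute M Q := hQ
    exact (h1.pow_right a).mul_right (h2.pow_right b)
  have hs : ∑ ab : Fin N × Fin N, (P ^ (ab.1 : ℕ) * Q ^ (ab.2 : ℕ)) * M *
      (P ^ (ab.1 : ℕ) * Q ^ (ab.2 : ℕ))ᴴ = ((N : ℂ) ^ 2) • M := by
    have e : ∀ ab : Fin N × Fin N, (P ^ (ab.1 : ℕ) * Q ^ (ab.2 : ℕ)) * M *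
      (P ^ (ab.1 : ℕ) * Q ^ (ab.2 : ℕ))ᴴ = M := by
      intro ab
      rw [← hc, mul_assoc, h.un, mul_one]
    rw [Finset.sum_congr rfl fun ab _ => e ab, Finset.sum_const, Finset.card_univ,
      Fintype.card_prod, Fintype.card_fin, ← Nat.cast_smul_eq_nsmul ℂ]
    push_cast
    rw [pow_two]
  have ht : ∑ ab : Fin N × Fin N, (P ^ (ab.1 : ℕ) * Q ^ (ab.2 : ℕ)) * M *
      (P ^ (ab.1 : ℕ) * Q ^ (ab.2 : ℕ))ᴴ = ((N : ℂ) * M.trace) • (1 : Mt N) := by
    ext i l
    rw [Matrix.sum_apply]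
    have e : ∀ ab : Fin N × Fin N, ((P ^ (ab.1 : ℕ) * Q ^ (ab.2 : ℕ)) * M *
        (P ^ (ab.1 : ℕ) * Q ^ (ab.2 : ℕ))ᴴ) i l = ∑ k, ∑ j, M j k *
          (starRingEnd ℂ ((P ^ (ab.1 : ℕ) * Q ^ (ab.2 : ℕ)) l k) *
            (P ^ (ab.1 : ℕ) * Q ^ (ab.2 : ℕ)) i j) := by
      intro ab
      rw [mul_apply]
      refine Finset.sum_congr rfl fun k _ => ?_
      rw [mul_apply, Finset.sum_mul]
      refine Finset.sum_congr rfl fun j _ => ?_
      rw [conjTranspose_apply]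
      simp only [RCLike.star_def]
      ring
    rw [Finset.sum_congr rfl fun ab _ => e ab, Finset.sum_comm]
    have e2 : ∀ k : Fin N, ∑ ab : Fin N × Fin N, ∑ j, M j k *
          (starRingEnd ℂ ((P ^ (ab.1 : ℕ) * Q ^ (ab.2 : ℕ)) l k) *
            (P ^ (ab.1 : ℕ) * Q ^ (ab.2 : ℕ)) i j) = if l = i then M k k * N else 0 := by
      intro k
      rw [Finset.sum_comm]
      have e3 : ∀ j : Fin N, ∑ ab : Fin N × Fin N, M j k *
          (starRingEnd ℂ ((P ^ (ab.1 : ℕ) * Q ^ (ab.2 : ℕ)) l k) *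
            (P ^ (ab.1 : ℕ) * Q ^ (ab.2 : ℕ)) i j) =
          if j = k then (if l = i then M k k * N else 0) else 0 := by
        intro j
        rw [← Finset.mul_sum, h.compl hp hN]
        by_cases h1 : j = k
        · subst h1
          by_cases h2 : l = i
          · subst h2; simp
          · simp [h2]
        · have h1' : ¬(k = j) := fun hh => h1 hh.symm
          simp [h1, h1']
      rw [Finset.sum_congr rfl fun j _ => e3 j]
      simp
    rw [Finset.sum_congr rfl fun k _ => e2 k, Matrix.smul_apply, smul_eq_mul, one_apply]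
    by_cases h2 : l = i
    · subst h2
      simp only [if_true, mul_one]
      rw [← Finset.sum_mul, mul_comm]
      rfl
    · have h2' : ¬(i = l) := fun hh => h2 hh.symm
      simp [h2, h2']
  have h1 := hs.symm.trans ht
  have h2 : M = (((N : ℂ) ^ 2)⁻¹ * ((N : ℂ) * M.trace)) • (1 : Mt N) := by
    rw [← smul_smul, ← h1, smul_smul, inv_mul_cancel₀ (pow_ne_zero 2 hN'), one_smul]
  conv_lhs => rw [h2]
  congr 1
  field_simp

open Polynomial in
/-- the `N`-th power -/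
lemma Pr.powN (h : Pr P Q z) (hp : IsPrimitiveRoot z N) (hN : N ≠ 0) (hd : P.det = 1) :
    P ^ N = (-1 : ℂ) ^ (N + 1) • (1 : Mt N) := by
  have hz : z ≠ 0 := hp.ne_zero hN
  have hc : P.charpoly.comp (C z * X) = P.charpoly := by
    apply Polynomial.funext
    intro x
    rw [eval_comp, eval_mul, eval_C, eval_X, eval_charpoly, eval_charpoly]
    have h1 : Qᴴ * (scalar (Fin N) (z * x) - P) * Q = z • (scalar (Fin N) x - P) := by
      have h2 : Qᴴ * P * Q = z • P := by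
        have := h.c
        unfold Cm at this
        rw [mul_assoc, this, mul_smul_comm, ← mul_assoc, h.q2, one_mul]
      rw [mul_sub, sub_mul, h2, scalar_apply, scalar_apply, ← smul_one_eq_diagonal,
        ← smul_one_eq_diagonal, mul_smul_comm, mul_one, smul_mul_assoc, h.q2, smul_sub, smul_smul]
    have h3 := congrArg Matrix.det h1
    rw [det_mul, det_mul, det_smul, Fintype.card_fin, hp.pow_eq_one, one_mul] at h3
    rw [← h3]
    have h4 : Qᴴ.det * Q.det = 1 := by rw [← det_mul, h.q2, det_one]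
    linear_combination (-(scalar (Fin N) (z * x) - P).det) * h4
  have hcoef : ∀ n, 0 < n → n < N → P.charpoly.coeff n = 0 := by
    intro n hn hnN
    have h1 := congrArg (fun p => Polynomial.coeff p n) hc
    simp only [comp_C_mul_X_coeff] at h1
    have h2 : z ^ n ≠ 1 := by
      intro h3
      have := Nat.le_of_dvd hn ((hp.pow_eq_one_iff_dvd n).1 h3)
      omega
    have h3 : P.charpoly.coeff n * (z ^ n - 1) = 0 := by linear_combination h1
    exact (mul_eq_zero.1 h3).resolve_right (sub_ne_zero.2 h2)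
  have hdeg : P.charpoly.natDegree = N := by
    rw [charpoly_natDegree_eq_dim, Fintype.card_fin]
  have h0 : P.charpoly.coeff 0 = (-1) ^ N := by
    have h1 := det_eq_sign_charpoly_coeff P
    rw [hd, Fintype.card_fin] at h1
    have h2 : ((-1 : ℂ) ^ N) * (-1) ^ N = 1 := by rw [← mul_pow]; simp
    linear_combination (-(-1 : ℂ) ^ N) * h1 + (-P.charpoly.coeff 0) * h2
  have hchar : P.charpoly = X ^ N + C ((-1 : ℂ) ^ N) := by
    ext n
    rw [coeff_add, coeff_X_pow, coeff_C]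
    rcases Nat.eq_zero_or_pos n with rfl | hn
    · rw [h0, if_neg (by omega), if_pos rfl, zero_add]
    · rcases lt_trichotomy n N with h1 | h1 | h1
      · rw [hcoef n hn h1, if_neg (by omega), if_neg (by omega), add_zero]
      · rw [h1, if_pos rfl, if_neg (by omega), add_zero]
        have h2 := charpoly_monic P
        unfold Monic leadingCoeff at h2
        rwa [hdeg] at h2
      · rw [coeff_eq_zero_of_natDegree_lt (by rw [hdeg]; exact h1), if_neg (by omega),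
          if_neg (by omega), add_zero]
  have h1 := aeval_self_charpoly P
  rw [hchar] at h1
  simp only [map_add, map_pow, aeval_X, aeval_C] at h1
  rw [Algebra.algebraMap_eq_smul_one, _root_.smul_pow, one_pow] at h1
  rw [pow_succ, mul_neg, mul_one, neg_smul]
  exact eq_neg_of_add_eq_zero_left h1

end pair

/-- cyclic shift of a sum -/
lemma sum_shift {M : Type*} [AddCommGroup M] (f : ℕ → M) (n : ℕ) (h : f n = f 0) :
    ∑ i ∈ Finset.range n, f (i + 1) = ∑ i ∈ Finset.range n, f i := by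
  have h1 := Finset.sum_range_succ' f n
  have h2 := Finset.sum_range_succ f n
  rw [h2, h] at h1
  exact (add_right_cancel h1).symm

section two

variable {P Q A B : Mt N} {z : ℂ}

/-- the intertwiner -/
def Gm (P Q A B M : Mt N) : Mt N := ∑ a ∈ Finset.range N, ∑ b ∈ Finset.range N,
  A ^ a * B ^ b * M * (P ^ a * Q ^ b)ᴴ

lemma conj_prim (hp : IsPrimitiveRoot z N) (hN : N ≠ 0) : starRingEnd ℂ z = z⁻¹ := by
  have h1 : ‖z‖ = 1 := hp.norm'_eq_one hN
  rw [Complex.inv_def, Complex.normSq_eq_norm_sq, h1]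
  simp

lemma eps2 (N : ℕ) : ((-1 : ℂ) ^ (N + 1)) * (-1 : ℂ) ^ (N + 1) = 1 := by
  rw [← mul_pow]; simp

lemma Gm_A (h : Pr P Q z) (h' : Pr A B z) (hp : IsPrimitiveRoot z N) (hN : N ≠ 0)
    (hd : P.det = 1) (hd' : A.det = 1) (M : Mt N) : A * Gm P Q A B M = Gm P Q A B M * P := by
  unfold Gm
  rw [Finset.mul_sum, Finset.sum_mul]
  have e1 : ∀ a ∈ Finset.range N, A * ∑ b ∈ Finset.range N,
      A ^ a * B ^ b * M * (P ^ a * Q ^ b)ᴴ =
      (fun a => (∑ b ∈ Finset.range N, A ^ a * B ^ b * M * (P ^ a * Q ^ b)ᴴ) * P) (a + 1) := by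
    intro a _
    simp only
    rw [Finset.mul_sum, Finset.sum_mul]
    refine Finset.sum_congr rfl fun b _ => ?_
    have e2 : (P ^ (a + 1) * Q ^ b)ᴴ * P = (P ^ a * Q ^ b)ᴴ := by
      rw [pow_succ', mul_assoc, conjTranspose_mul, mul_assoc, h.p2, mul_one]
    rw [mul_assoc (A ^ (a + 1) * B ^ b * M), e2, pow_succ']
    simp only [mul_assoc]
  rw [Finset.sum_congr rfl e1]
  refine sum_shift (fun a => (∑ b ∈ Finset.range N, A ^ a * B ^ b * M * (P ^ a * Q ^ b)ᴴ) * P)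
    N ?_
  congr 1
  refine Finset.sum_congr rfl fun b _ => ?_
  rw [h.powN hp hN hd, h'.powN hp hN hd', pow_zero, pow_zero, one_mul, one_mul]
  simp only [smul_mul_assoc, one_mul, conjTranspose_smul, mul_smul_comm, smul_smul]
  rw [star_pow, star_neg, star_one, eps2, one_smul]

lemma Pr.swap (h : Pr P Q z) (hz : z ≠ 0) : Pr Q P z⁻¹ :=
  ⟨h.q1, h.q2, h.p1, h.p2, h.c' hz⟩

lemma Gm_B (h : Pr P Q z) (h' : Pr A B z) (hp : IsPrimitiveRoot z N) (hN : N ≠ 0)
    (hd : Q.det = 1) (hd' : B.det = 1) (M : Mt N) : B * Gm P Q A B M = Gm P Q A B M * Q := by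
  have hz : z ≠ 0 := hp.ne_zero hN
  have hp' : IsPrimitiveRoot z⁻¹ N := hp.inv
  unfold Gm
  rw [Finset.mul_sum, Finset.sum_mul]
  refine Finset.sum_congr rfl fun a _ => ?_
  rw [Finset.mul_sum, Finset.sum_mul]
  have e1 : ∀ b ∈ Finset.range N, B * (A ^ a * B ^ b * M * (P ^ a * Q ^ b)ᴴ) =
      (fun b => A ^ a * B ^ b * M * (P ^ a * Q ^ b)ᴴ * Q) (b + 1) := by
    intro b _
    simp only
    have c1 : B * A ^ a = z⁻¹ ^ a • (A ^ a * B) := (h'.c' hz).pow a
    have c2 : Q * P ^ a = z⁻¹ ^ a • (P ^ a * Q) := (h.c' hz).pow a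
    have e3 : (P ^ a * Q ^ b)ᴴ = star (z⁻¹ ^ a) • ((P ^ a * Q ^ (b + 1))ᴴ * Q) := by
      have e4 : Q * (P ^ a * Q ^ b) = z⁻¹ ^ a • (P ^ a * Q ^ (b + 1)) := by
        rw [← mul_assoc, c2, smul_mul_assoc, mul_assoc, ← pow_succ']
      have e5 := congrArg (fun X : Mt N => Xᴴ * Q) e4
      simp only [conjTranspose_mul Q, conjTranspose_smul] at e5
      rw [mul_assoc, h.q2, mul_one, smul_mul_assoc] at e5
      exact e5
    rw [e3, mul_smul_comm, mul_smul_comm, ← mul_assoc, ← mul_assoc, ← mul_assoc, ← mul_assoc, c1]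
    simp only [smul_mul_assoc, smul_smul]
    have e6 : star (z⁻¹ ^ a) * z⁻¹ ^ a = 1 := by
      rw [star_pow, ← mul_pow]
      have : star z⁻¹ * z⁻¹ = 1 := by
        have e7 : star z⁻¹ = z := by
          rw [RCLike.star_def, map_inv₀, conj_prim hp hN, inv_inv]
        rw [e7, mul_inv_cancel₀ hz]
      rw [this, one_pow]
    rw [e6, one_smul, pow_succ' B b]
    simp only [mul_assoc]
  rw [Finset.sum_congr rfl e1]
  refine sum_shift (fun b => A ^ a * B ^ b * M * (P ^ a * Q ^ b)ᴴ * Q) N ?_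
  rw [(h.swap hz).powN hp' hN hd, (h'.swap hz).powN hp' hN hd', pow_zero, pow_zero]
  simp only [smul_mul_assoc, one_mul, conjTranspose_smul, mul_smul_comm, smul_smul, mul_one]
  rw [star_pow, star_neg, star_one, eps2, one_smul]

lemma Gm_ne (h' : Pr A B z) (hp : IsPrimitiveRoot z N) (hN : N ≠ 0) :
    ∃ M, Gm P Q A B M ≠ 0 := by
  by_contra hcon
  push Not at hcon
  have : NeZero N := ⟨hN⟩
  have h1 : ∀ i : Fin N, (Gm P Q A B (Matrix.single i 0 1)) i 0 = 0 := by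
    intro i; rw [hcon]; rfl
  have h2 : ∀ i : Fin N, (Gm P Q A B (Matrix.single i 0 1)) i 0 =
      ∑ a ∈ Finset.range N, ∑ b ∈ Finset.range N,
        (A ^ a * B ^ b) i i * (P ^ a * Q ^ b)ᴴ 0 0 := by
    intro i
    unfold Gm
    rw [Matrix.sum_apply]
    refine Finset.sum_congr rfl fun a _ => ?_
    rw [Matrix.sum_apply]
    refine Finset.sum_congr rfl fun b _ => ?_
    rw [mul_apply, Finset.sum_eq_single (0 : Fin N)]
    · rw [mul_single_apply_same, mul_one]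
    · intro j _ hj
      rw [mul_single_apply_of_ne _ _ _ _ _ hj, zero_mul]
    · intro h3; exact absurd (Finset.mem_univ _) h3
  have h3 : ∑ i : Fin N, ∑ a ∈ Finset.range N, ∑ b ∈ Finset.range N,
        (A ^ a * B ^ b) i i * (P ^ a * Q ^ b)ᴴ 0 0 = 0 :=
    Finset.sum_eq_zero fun i _ => by rw [← h2, h1]
  rw [Finset.sum_comm] at h3
  have h4 : ∀ a ∈ Finset.range N, ∑ i : Fin N, ∑ b ∈ Finset.range N,
        (A ^ a * B ^ b) i i * (P ^ a * Q ^ b)ᴴ 0 0 = if a = 0 then (N : ℂ) else 0 := by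
    intro a ha
    rw [Finset.sum_comm]
    have h5 : ∀ b ∈ Finset.range N, ∑ i : Fin N, (A ^ a * B ^ b) i i * (P ^ a * Q ^ b)ᴴ 0 0 =
        if b = 0 then (if a = 0 then (N : ℂ) else 0) else 0 := by
      intro b hb
      rw [← Finset.sum_mul]
      have h6 : ∑ i : Fin N, (A ^ a * B ^ b) i i = (A ^ a * B ^ b).trace := rfl
      rw [h6]
      rw [Finset.mem_range] at ha hb
      by_cases hab : a = 0 ∧ b = 0
      · obtain ⟨rfl, rfl⟩ := hab
        simp
      · rw [h'.tr hp hN, zero_mul]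
        · by_cases hb0 : b = 0
          · rw [if_pos hb0, if_neg (fun h => hab ⟨h, hb0⟩)]
          · rw [if_neg hb0]
        · rintro ⟨d1, d2⟩
          exact hab ⟨Nat.eq_zero_of_dvd_of_lt d1 ha, Nat.eq_zero_of_dvd_of_lt d2 hb⟩
    rw [Finset.sum_congr rfl h5, Finset.sum_ite_eq' (Finset.range N) 0,
      if_pos (Finset.mem_range.2 (Nat.pos_of_ne_zero hN))]
  rw [Finset.sum_congr rfl h4, Finset.sum_ite_eq' (Finset.range N) 0,
    if_pos (Finset.mem_range.2 (Nat.pos_of_ne_zero hN))] at h3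
  exact hN (by exact_mod_cast h3)

end two

/-- multiply a unitary matrix by a scalar to get determinant one -/
lemma exists_su (hN : N ≠ 0) {U : Mt N} (hU : U * Uᴴ = 1) :
    ∃ (c : ℂ) (g : SU N), c ≠ 0 ∧ (g : Mt N) = c • U := by
  have hd : ‖U.det‖ = 1 := by
    have h1 := congrArg Matrix.det hU
    rw [det_mul, det_conjTranspose, det_one] at h1
    have h2 : ‖U.det * star U.det‖ = 1 := by rw [h1]; simp
    rw [norm_mul, norm_star] at h2
    nlinarith [norm_nonneg U.det]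
  have hd0 : U.det ≠ 0 := by
    intro h; rw [h] at hd; simp at hd
  obtain ⟨c, hc⟩ := IsAlgClosed.exists_pow_nat_eq (U.det)⁻¹ (Nat.pos_of_ne_zero hN)
  have hcn : ‖c‖ = 1 := by
    have h1 : ‖c‖ ^ N = 1 := by rw [← norm_pow, hc, norm_inv, hd, inv_one]
    exact (pow_eq_one_iff_of_nonneg (norm_nonneg c) hN).1 h1
  have hc0 : c ≠ 0 := by
    intro h; rw [h] at hcn; simp at hcn
  refine ⟨c, ⟨c • U, ?_⟩, hc0, rfl⟩
  rw [mem_specialUnitaryGroup_iff, mem_unitaryGroup_iff]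
  constructor
  · rw [star_eq_conjTranspose, conjTranspose_smul, smul_mul_assoc, mul_smul_comm, hU, smul_smul]
    have : c * star c = 1 := by
      rw [RCLike.star_def, Complex.mul_conj, Complex.normSq_eq_norm_sq, hcn]
      simp
    rw [this, one_smul]
  · rw [det_smul, Fintype.card_fin, hc, inv_mul_cancel₀ hd0]

lemma exists_conj {P Q A B : Mt N} {z : ℂ} (h : Pr P Q z) (h' : Pr A B z)
    (hp : IsPrimitiveRoot z N) (hN : N ≠ 0) (hd1 : P.det = 1) (hd2 : Q.det = 1)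
    (hd3 : A.det = 1) (hd4 : B.det = 1) :
    ∃ g : SU N, A * (g : Mt N) = (g : Mt N) * P ∧ B * (g : Mt N) = (g : Mt N) * Q := by
  obtain ⟨M, hM⟩ := Gm_ne (P := P) (Q := Q) h' hp hN
  obtain ⟨G, hG⟩ : ∃ G, G = Gm P Q A B M := ⟨_, rfl⟩
  have gA : A * G = G * P := by rw [hG]; exact Gm_A h h' hp hN hd1 hd3 M
  have gB : B * G = G * Q := by rw [hG]; exact Gm_B h h' hp hN hd2 hd4 M
  rw [← hG] at hM
  have key : ∀ X Y : Mt N, Xᴴ * X = 1 → Y * Yᴴ = 1 → X * G = G * Y →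
      Gᴴ * G * Y = Y * (Gᴴ * G) := by
    intro X Y hX hY hXY
    have h1 : Yᴴ * Gᴴ = Gᴴ * Xᴴ := by
      rw [← conjTranspose_mul, ← conjTranspose_mul, hXY]
    have h2 : Gᴴ * X = Y * Gᴴ := by
      calc Gᴴ * X = (Y * Yᴴ) * Gᴴ * X := by rw [hY, one_mul]
        _ = Y * (Gᴴ * Xᴴ) * X := by rw [← h1]; simp only [mul_assoc]
        _ = Y * Gᴴ := by rw [mul_assoc, mul_assoc, hX, mul_one]
    rw [mul_assoc, ← hXY, ← mul_assoc, h2, mul_assoc]
  have hc := h.comm hp hN (M := Gᴴ * G) (key A P h'.p2 h.p1 gA) (key B Q h'.q2 h.q1 gB)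
  have htr : (Gᴴ * G).trace = ((∑ i, ∑ j, ‖G i j‖ ^ 2 : ℝ) : ℂ) := by
    rw [Matrix.trace]
    push_cast
    rw [Finset.sum_comm]
    refine Finset.sum_congr rfl fun i _ => ?_
    rw [diag_apply, mul_apply]
    refine Finset.sum_congr rfl fun j _ => ?_
    rw [conjTranspose_apply, RCLike.star_def, mul_comm, Complex.mul_conj,
      Complex.normSq_eq_norm_sq]
    push_cast
    rfl
  obtain ⟨S, hS⟩ : ∃ S : ℝ, S = ∑ i, ∑ j, ‖G i j‖ ^ 2 := ⟨_, rfl⟩
  have hSpos : 0 < S := by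
    rw [hS]
    obtain ⟨i, j, hij⟩ : ∃ i j, G i j ≠ 0 := by
      by_contra hcon
      push Not at hcon
      exact hM (by ext i j; exact hcon i j)
    have h1 : 0 < ‖G i j‖ ^ 2 := by positivity
    refine lt_of_lt_of_le h1 ?_
    refine le_trans ?_ (Finset.single_le_sum (f := fun i => ∑ j, ‖G i j‖ ^ 2)
      (fun i _ => Finset.sum_nonneg fun j _ => sq_nonneg _) (Finset.mem_univ i))
    exact Finset.single_le_sum (f := fun j => ‖G i j‖ ^ 2) (fun j _ => sq_nonneg _)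
      (Finset.mem_univ j)
  have hNr : (0 : ℝ) < N := by exact_mod_cast Nat.pos_of_ne_zero hN
  obtain ⟨r, hr⟩ : ∃ r : ℝ, r = Real.sqrt (S / N) := ⟨_, rfl⟩
  have hr0 : 0 < r := by rw [hr]; exact Real.sqrt_pos.2 (div_pos hSpos hNr)
  have hr2 : r * r = S / N := by rw [hr]; exact Real.mul_self_sqrt (div_pos hSpos hNr).le
  rw [htr, ← hS] at hc
  have hU : ((r⁻¹ : ℝ) : ℂ) • G * (((r⁻¹ : ℝ) : ℂ) • G)ᴴ = 1 := by
    apply mul_eq_one_comm.1
    rw [conjTranspose_smul, smul_mul_assoc, mul_smul_comm, hc, smul_smul, smul_smul]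
    have : star ((r⁻¹ : ℝ) : ℂ) * ((r⁻¹ : ℝ) : ℂ) * ((S : ℂ) / N) = 1 := by
      rw [RCLike.star_def, Complex.conj_ofReal]
      have h1 : (r⁻¹ * r⁻¹ * (S / N) : ℝ) = 1 := by
        rw [← hr2]; field_simp
      exact_mod_cast h1
    rw [this, one_smul]
  obtain ⟨c, g, hc0, hg⟩ := exists_su hN hU
  refine ⟨g, ?_, ?_⟩
  · rw [hg, mul_smul_comm, mul_smul_comm, gA, smul_mul_assoc, smul_mul_assoc]
  · rw [hg, mul_smul_comm, mul_smul_comm, gB, smul_mul_assoc, smul_mul_assoc]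

/-- the clock matrix -/
def Zm (N : ℕ) (z : ℂ) : Mt N := Matrix.diagonal fun i => z ^ (i : ℕ)

/-- the shift matrix -/
def Xm (N : ℕ) [NeZero N] : Mt N := Matrix.of fun i j => if i = j + 1 then 1 else 0

lemma Zm_unit {z : ℂ} (hz : ‖z‖ = 1) : Zm N z * (Zm N z)ᴴ = 1 := by
  unfold Zm
  rw [diagonal_conjTranspose, diagonal_mul_diagonal, ← diagonal_one]
  congr 1
  funext i
  show z ^ (i : ℕ) * star (z ^ (i : ℕ)) = 1
  rw [RCLike.star_def, Complex.mul_conj, Complex.normSq_eq_norm_sq, norm_pow, hz]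
  simp

lemma Xm_unit [NeZero N] : Xm N * (Xm N)ᴴ = 1 := by
  unfold Xm
  ext i j
  rw [mul_apply, one_apply]
  have e : ∀ k : Fin N, (Matrix.of fun i j : Fin N => if i = j + 1 then (1 : ℂ) else 0) i k *
      (Matrix.of fun i j : Fin N => if i = j + 1 then (1 : ℂ) else 0)ᴴ k j =
      if k = i - 1 then (if i = j then 1 else 0) else 0 := by
    intro k
    rw [conjTranspose_apply, of_apply, of_apply]
    by_cases hk : k = i - 1
    · subst hk
      rw [if_pos rfl, if_pos (by rw [sub_add_cancel]), sub_add_cancel]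
      by_cases hij : i = j
      · subst hij; simp
      · have : ¬(j = i) := fun h => hij h.symm
        simp [hij, this]
    · rw [if_neg hk, if_neg, zero_mul]
      intro h
      exact hk (by rw [h, add_sub_cancel_right])
  rw [Finset.sum_congr rfl fun k _ => e k]
  simp

lemma ZX [NeZero N] {z : ℂ} (hz : z ^ N = 1) : Cm (Zm N z) (Xm N) z := by
  unfold Cm Zm Xm
  ext i j
  rw [diagonal_mul, Matrix.smul_apply, mul_diagonal, of_apply]
  by_cases h : i = j + 1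
  · rw [if_pos h, mul_one, one_mul, smul_eq_mul, h]
    have h1 : ((j + 1 : Fin N) : ℕ) = ((j : ℕ) + 1) % N := by
      rw [Fin.val_add, Fin.val_one', Nat.add_mod_mod]
    rw [h1, ← pow_eq_pow_mod _ hz, pow_succ']
  · rw [if_neg h, mul_zero, zero_mul, smul_zero]

end T2H02.TT.PkgA

namespace T2H02.TT

open PkgA

theorem pA1 : S_A1 := by
  intro N k hN hk
  have hN0 : N ≠ 0 := by omega
  have : NeZero N := ⟨hN0⟩
  have hp := om_prim hN hk
  obtain ⟨c, P, hc, hP⟩ := exists_su hN0 (Zm_unit (N := N) (hp.norm'_eq_one hN0))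
  obtain ⟨d, Q, hd, hQ⟩ := exists_su hN0 (Xm_unit (N := N))
  refine ⟨P, Q, ?_⟩
  unfold PQ
  have h := ZX (N := N) (z := om N k) hp.pow_eq_one
  unfold Cm at h
  rw [hP, hQ]
  simp only [smul_mul_assoc, mul_smul_comm, smul_smul]
  rw [h, smul_smul]
  congr 1
  ring

theorem pA2 : S_A2 := by
  intro N k hN hk P Q A B h h'
  obtain ⟨g, h1, h2⟩ := exists_conj (pr_of h) (pr_of h') (om_prim hN hk) (by omega)
    (su_det P) (su_det Q) (su_det A) (su_det B)
  refine ⟨g, ?_, ?_⟩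
  · rw [eq_mul_inv_iff_mul_eq]
    exact Subtype.ext h1
  · rw [eq_mul_inv_iff_mul_eq]
    exact Subtype.ext h2

theorem pA3 : S_A3 := by
  intro N k hN hk P Q h M hP hQ
  exact ⟨_, (pr_of h).comm (om_prim hN hk) (by omega) hP hQ⟩

theorem pA4 : S_A4 := by
  intro N k hN hk P Q h a b hab
  exact (pr_of h).tr (om_prim hN hk) (by omega) hab

end T2H02.TT
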