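import Pool.Agent.T2H02.TT.Stm2
import Pool.Agent.T2H02.TT.E

/-!
# Package G2 : volume of balls, Lipschitz bounds
-/

set_option autoImplicit false
set_option linter.unusedSectionVars false

noncomputable section

open MeasureTheory Matrix
open scoped Matrix.Norms.Frobenius

namespace T2H02.TT

namespace PkgG2

open PkgE (norm_mul_su norm_su_mul norm_mul_sub nsq norm_entry)

variable {N : ℕ}

/-! ### G2 -/

lemma entry_le (g : SU N) (i j : Fin N) : ‖(g : Mt N) i j‖ ≤ 1 := by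
  have h : (g : Mt N) * (g : Mt N)ᴴ = 1 := PkgE.mul_ct g
  have h1 := congrFun (congrFun h i) i
  rw [Matrix.mul_apply, Matrix.one_apply_eq] at h1
  have h2 : ∑ j, ‖(g : Mt N) i j‖ ^ 2 = 1 := by
    have h3 : ((∑ j, ‖(g : Mt N) i j‖ ^ 2 : ℝ) : ℂ) = 1 := by
      rw [← h1]
      push_cast
      refine Finset.sum_congr rfl fun j _ => ?_
      rw [conjTranspose_apply]
      exact (Complex.mul_conj' _).symm
    exact_mod_cast h3
  have h3 : ‖(g : Mt N) i j‖ ^ 2 ≤ 1 := by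
    rw [← h2]
    exact Finset.single_le_sum (f := fun j => ‖(g : Mt N) i j‖ ^ 2) (fun j _ => by positivity)
      (Finset.mem_univ j)
  nlinarith [norm_nonneg ((g : Mt N) i j)]

/-- the cell of a matrix -/
def cell (s : ℝ) (g : SU N) : Fin N × Fin N → ℤ × ℤ := fun ij =>
  (⌊((g : Mt N) ij.1 ij.2).re / s⌋, ⌊((g : Mt N) ij.1 ij.2).im / s⌋)

lemma floor_mem {s x : ℝ} (hs : 0 < s) (hx : |x| ≤ 1) :
    ⌊x / s⌋ ∈ Finset.Icc (-(⌈1 / s⌉₊ : ℤ)) (⌈1 / s⌉₊ : ℤ) := by
  rw [abs_le] at hx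
  have h1 : (1 : ℝ) / s ≤ ⌈1 / s⌉₊ := Nat.le_ceil _
  rw [Finset.mem_Icc]
  constructor
  · rw [Int.le_floor]
    push_cast
    have : -(1 / s) ≤ x / s := by
      rw [← neg_div]
      exact div_le_div_of_nonneg_right hx.1 hs.le
    linarith
  · have h2 : x / s ≤ 1 / s := div_le_div_of_nonneg_right hx.2 hs.le
    have h3 : (⌊x / s⌋ : ℝ) ≤ ((⌈1 / s⌉₊ : ℤ) : ℝ) := by
      push_cast
      linarith [Int.floor_le (x / s)]
    exact_mod_cast h3

lemma cell_mem {s : ℝ} (hs : 0 < s) (g : SU N) :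
    cell s g ∈ Fintype.piFinset fun _ : Fin N × Fin N =>
      Finset.Icc (-(⌈1 / s⌉₊ : ℤ)) (⌈1 / s⌉₊ : ℤ) ×ˢ Finset.Icc (-(⌈1 / s⌉₊ : ℤ)) (⌈1 / s⌉₊ : ℤ) := by
  rw [Fintype.mem_piFinset]
  intro ij
  rw [Finset.mem_product]
  have h1 := entry_le g ij.1 ij.2
  exact ⟨floor_mem hs ((Complex.abs_re_le_norm _).trans h1),
    floor_mem hs ((Complex.abs_im_le_norm _).trans h1)⟩

lemma floor_eq_abs {s x y : ℝ} (hs : 0 < s) (h : ⌊x / s⌋ = ⌊y / s⌋) : |x - y| ≤ s := by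
  have h1 := Int.abs_sub_lt_one_of_floor_eq_floor h
  rw [← sub_div, abs_div, abs_of_pos hs, div_lt_one hs] at h1
  exact h1.le

lemma cell_eq {s : ℝ} (hs : 0 < s) {g g' : SU N} (h : cell s g = cell s g') :
    ‖(g : Mt N) - (g' : Mt N)‖ ≤ 2 * N * s := by
  have h1 : ∀ i j, ‖((g : Mt N) - (g' : Mt N)) i j‖ ≤ 2 * s := by
    intro i j
    have h2 := congrFun h (i, j)
    unfold cell at h2
    rw [Prod.mk.injEq] at h2
    have h3 := floor_eq_abs hs h2.1
    have h4 := floor_eq_abs hs h2.2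
    rw [Matrix.sub_apply]
    calc ‖(g : Mt N) i j - (g' : Mt N) i j‖ ≤
          |((g : Mt N) i j - (g' : Mt N) i j).re| + |((g : Mt N) i j - (g' : Mt N) i j).im| :=
          Complex.norm_le_abs_re_add_abs_im _
      _ ≤ 2 * s := by
          rw [Complex.sub_re, Complex.sub_im]
          linarith
  have h2 : ‖(g : Mt N) - (g' : Mt N)‖ ^ 2 ≤ (2 * N * s) ^ 2 := by
    rw [nsq]
    calc ∑ i, ∑ j, ‖((g : Mt N) - (g' : Mt N)) i j‖ ^ 2 ≤ ∑ _i : Fin N, ∑ _j : Fin N, (2 * s) ^ 2 :=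
          Finset.sum_le_sum fun i _ => Finset.sum_le_sum fun j _ =>
            pow_le_pow_left₀ (norm_nonneg _) (h1 i j) 2
      _ = (2 * N * s) ^ 2 := by
          simp
          ring
  exact (pow_le_pow_iff_left₀ (norm_nonneg _) (by positivity) two_ne_zero).1 h2

lemma ball_meas (r : ℝ) (g₀ g₁ : SU N) :
    hm N {g : SU N | ‖(g : Mt N) - (g₁ : Mt N)‖ ≤ r} =
      hm N {g : SU N | ‖(g : Mt N) - (g₀ : Mt N)‖ ≤ r} := by
  have h1 : {g : SU N | ‖(g : Mt N) - (g₀ : Mt N)‖ ≤ r} =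
      (fun g => (g₁ * g₀⁻¹) * g) ⁻¹' {g : SU N | ‖(g : Mt N) - (g₁ : Mt N)‖ ≤ r} := by
    ext g
    rw [Set.mem_preimage, Set.mem_ofPred_eq, Set.mem_ofPred_eq]
    have h2 : ((g₁ * g₀⁻¹ * g : SU N) : Mt N) - (g₁ : Mt N) =
        ((g₁ * g₀⁻¹ : SU N) : Mt N) * ((g : Mt N) - (g₀ : Mt N)) := by
      rw [Matrix.mul_sub]
      congr 1
      change (g₁ : Mt N) = ((g₁ * g₀⁻¹ * g₀ : SU N) : Mt N)
      rw [inv_mul_cancel_right]
    rw [h2, norm_su_mul]
  rw [h1, measure_preimage_mul]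

theorem pG2 : S_G2 := by
  intro N hN
  have hN0 : (0 : ℝ) < N := by exact_mod_cast (by omega : 0 < N)
  refine ⟨((4 * N + 3) ^ (2 * (N * N)))⁻¹, 2 * (N * N), by positivity, ?_, ?_⟩
  · exact inv_le_one_of_one_le₀ (one_le_pow₀ (by linarith))
  intro r g₀ hr hr1
  obtain ⟨s, hs⟩ : ∃ s : ℝ, s = r / (2 * N) := ⟨_, rfl⟩
  have hs0 : 0 < s := by rw [hs]; positivity
  have hsr : 2 * N * s = r := by rw [hs]; field_simp
  obtain ⟨K, hK⟩ : ∃ K : ℕ, K = ⌈1 / s⌉₊ := ⟨_, rfl⟩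
  obtain ⟨P, hP⟩ : ∃ P : Finset (Fin N × Fin N → ℤ × ℤ), P = Fintype.piFinset
    fun _ : Fin N × Fin N => Finset.Icc (-(K : ℤ)) (K : ℤ) ×ˢ Finset.Icc (-(K : ℤ)) (K : ℤ) := ⟨_, rfl⟩
  have hPc : P.card = (2 * K + 1) ^ (2 * (N * N)) := by
    rw [hP, Fintype.card_piFinset]
    simp only [Finset.card_product, Int.card_Icc, Finset.prod_const, Finset.card_univ,
      Fintype.card_prod, Fintype.card_fin]
    have h1 : ((K : ℤ) + 1 - (-(K : ℤ))).toNat = 2 * K + 1 := by omega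
    rw [h1, ← sq, ← pow_mul]
  have hcov : (Set.univ : Set (SU N)) ⊆ ⋃ c ∈ P, {g : SU N | cell s g = c} := by
    intro g _
    rw [Set.mem_iUnion₂]
    refine ⟨cell s g, ?_, rfl⟩
    rw [hP, hK]
    exact cell_mem hs0 g
  have h1 : (1 : ENNReal) ≤ ∑ c ∈ P, hm N {g : SU N | cell s g = c} := by
    rw [← measure_univ (μ := hm N)]
    exact (measure_mono hcov).trans (measure_biUnion_finset_le _ _)
  have h2 : ∀ c ∈ P, hm N {g : SU N | cell s g = c} ≤
      hm N {g : SU N | ‖(g : Mt N) - (g₀ : Mt N)‖ ≤ r} := by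
    intro c _
    rcases Set.eq_empty_or_nonempty {g : SU N | cell s g = c} with h0 | ⟨g₁, hg₁⟩
    · rw [h0, measure_empty]
      exact zero_le
    · rw [← ball_meas r g₀ g₁]
      refine measure_mono fun g hg => ?_
      have h3 : cell s g = cell s g₁ := by
        rw [Set.mem_ofPred_eq] at hg hg₁
        rw [hg, hg₁]
      have h4 := cell_eq hs0 h3
      rw [hsr] at h4
      exact h4
  have h3 : (1 : ENNReal) ≤ P.card * hm N {g : SU N | ‖(g : Mt N) - (g₀ : Mt N)‖ ≤ r} := by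
    refine h1.trans ((Finset.sum_le_sum h2).trans (le_of_eq ?_))
    rw [Finset.sum_const, nsmul_eq_mul]
  have h4 : (1 : ℝ) ≤ P.card * (hm N).real {g : SU N | ‖(g : Mt N) - (g₀ : Mt N)‖ ≤ r} := by
    have h5 := ENNReal.toReal_mono (ENNReal.mul_ne_top (ENNReal.natCast_ne_top _)
      (measure_ne_top _ _)) h3
    rw [ENNReal.toReal_one, ENNReal.toReal_mul, ENNReal.toReal_natCast] at h5
    exact h5
  have hKr : (2 * K + 1 : ℝ) * r ≤ 4 * N + 3 := by
    have h5 : (K : ℝ) < 1 / s + 1 := by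
      rw [hK]
      exact Nat.ceil_lt_add_one (by positivity)
    have h6 : 1 / s = 2 * N / r := by
      rw [hs]
      field_simp
    rw [h6] at h5
    have h7 : (K : ℝ) * r ≤ 2 * N + r := by
      have h8 := mul_le_mul_of_nonneg_right h5.le hr.le
      rw [add_mul, div_mul_cancel₀ _ hr.ne', one_mul] at h8
      exact h8
    linarith
  have h5 : (P.card : ℝ) * r ^ (2 * (N * N)) ≤ (4 * N + 3) ^ (2 * (N * N)) := by
    rw [hPc]
    push_cast
    rw [← mul_pow]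
    exact pow_le_pow_left₀ (by positivity) hKr _
  have h6 : (0 : ℝ) < (4 * N + 3) ^ (2 * (N * N)) := by positivity
  rw [inv_mul_le_iff₀ h6]
  have h7 : 0 ≤ (hm N).real {g : SU N | ‖(g : Mt N) - (g₀ : Mt N)‖ ≤ r} := measureReal_nonneg
  have hrp : 0 ≤ r ^ (2 * (N * N)) := by positivity
  calc r ^ (2 * (N * N)) = r ^ (2 * (N * N)) * 1 := (mul_one _).symm
    _ ≤ r ^ (2 * (N * N)) * (P.card * (hm N).real {g : SU N | ‖(g : Mt N) - (g₀ : Mt N)‖ ≤ r}) :=
        mul_le_mul_of_nonneg_left h4 hrp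
    _ = (P.card * r ^ (2 * (N * N))) *
        (hm N).real {g : SU N | ‖(g : Mt N) - (g₀ : Mt N)‖ ≤ r} := by ring
    _ ≤ _ := mul_le_mul_of_nonneg_right h5 h7

/-! ### G3 -/

variable {L : ℕ} [NeZero L]

lemma om_norm (N m : ℕ) : ‖om N m‖ = 1 := by
  rw [om, show 2 * (Real.pi : ℂ) * Complex.I * m / N = ((2 * Real.pi * m / N : ℝ) : ℂ) * Complex.I by
    push_cast; ring, Complex.norm_exp_ofReal_mul_I]

lemma tw_norm (N k : ℕ) (y : Tor L) : ‖tw N k y‖ = 1 := by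
  unfold tw
  split_ifs
  · exact om_norm N k
  · exact norm_one

lemma df_sub (X Y : Cf N L) {z : ℂ} (hz : ‖z‖ = 1) (p : Pt L) (i j : Fin 4) {r : ℝ}
    (h1 : ‖(X (p, i) : Mt N) - (Y (p, i) : Mt N)‖ ≤ r)
    (h2 : ‖(X (nx p i, j) : Mt N) - (Y (nx p i, j) : Mt N)‖ ≤ r)
    (h3 : ‖(X (p, j) : Mt N) - (Y (p, j) : Mt N)‖ ≤ r)
    (h4 : ‖(X (nx p j, i) : Mt N) - (Y (nx p j, i) : Mt N)‖ ≤ r) :
    ‖df Y z p i j‖ ^ 2 ≤ 2 * ‖df X z p i j‖ ^ 2 + 32 * r ^ 2 := by
  have h5 : df Y z p i j = df X z p i j -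
      ((((X (p, i) * X (nx p i, j) : SU N) : Mt N) - ((Y (p, i) * Y (nx p i, j) : SU N) : Mt N)) -
        z • (((X (p, j) * X (nx p j, i) : SU N) : Mt N) -
          ((Y (p, j) * Y (nx p j, i) : SU N) : Mt N))) := by
    unfold df
    change _ = _ - (((X (p, i) : Mt N) * (X (nx p i, j) : Mt N) -
      (Y (p, i) : Mt N) * (Y (nx p i, j) : Mt N)) - z • ((X (p, j) : Mt N) * (X (nx p j, i) : Mt N) -
      (Y (p, j) : Mt N) * (Y (nx p j, i) : Mt N)))
    rw [smul_sub]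
    abel
  have h6 := norm_mul_sub (X (p, i)) (Y (p, i)) (X (nx p i, j)) (Y (nx p i, j))
  have h7 := norm_mul_sub (X (p, j)) (Y (p, j)) (X (nx p j, i)) (Y (nx p j, i))
  have h8 : ‖df Y z p i j‖ ≤ ‖df X z p i j‖ + 4 * r := by
    rw [h5]
    refine (norm_sub_le _ _).trans ?_
    have h9 := norm_sub_le (((X (p, i) * X (nx p i, j) : SU N) : Mt N) -
      ((Y (p, i) * Y (nx p i, j) : SU N) : Mt N)) (z • (((X (p, j) * X (nx p j, i) : SU N) : Mt N) -
          ((Y (p, j) * Y (nx p j, i) : SU N) : Mt N)))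
    rw [norm_smul, hz, one_mul] at h9
    linarith
  have h9 := norm_nonneg (df Y z p i j)
  have h10 := norm_nonneg (df X z p i j)
  nlinarith [sq_nonneg (‖df X z p i j‖ - 4 * r)]

lemma df_le (X : Cf N L) {z : ℂ} (hz : ‖z‖ = 1) (p : Pt L) (i j : Fin 4) :
    ‖df X z p i j‖ ^ 2 ≤ 4 * N := by
  have h1 : ‖df X z p i j‖ ≤ 2 * Real.sqrt N := by
    unfold df
    refine (norm_sub_le _ _).trans ?_
    rw [norm_smul, hz, one_mul, norm_mul_su, norm_mul_su, norm_su, norm_su]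
    linarith
  have h2 := Real.sq_sqrt (Nat.cast_nonneg (α := ℝ) N)
  have h3 := Real.sqrt_nonneg (N : ℝ)
  nlinarith [norm_nonneg (df X z p i j)]

lemma exp_min (hN : 0 < N) (X : Cf N L) (x : Pl) :
    ∃ m : Fin N, (⨅ m : Fin N, eP X (om N m) x) = eP X (om N m) x := by
  have : Nonempty (Fin N) := ⟨⟨0, hN⟩⟩
  obtain ⟨m, hm⟩ := exists_eq_ciInf_of_finite (f := fun m : Fin N => eP X (om N m) x)
  exact ⟨m, hm.symm⟩

lemma inf_le (X : Cf N L) (x : Pl) (m : Fin N) :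
    (⨅ m : Fin N, eP X (om N m) x) ≤ eP X (om N m) x :=
  ciInf_le (Set.finite_range _).bddBelow m

theorem pG3 : S_G3 := by
  intro N k L _ hN
  have hN0 : 0 < N := by omega
  have hNr : (0 : ℝ) < N := by exact_mod_cast hN0
  have hT : (1 : ℝ) ≤ Fintype.card (Tor L) := by
    exact_mod_cast Nat.succ_le_of_lt (Fintype.card_pos)
  have hsum : ∀ (f g : Tor L → ℝ) (c : ℝ), (∀ y, f y ≤ 2 * g y + c) →
      ∑ y, f y ≤ 2 * ∑ y, g y + Fintype.card (Tor L) * c := by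
    intro f g c h
    calc ∑ y, f y ≤ ∑ y, (2 * g y + c) := Finset.sum_le_sum fun y _ => h y
      _ = _ := by
        rw [Finset.sum_add_distrib, ← Finset.mul_sum, Finset.sum_const, Finset.card_univ,
          nsmul_eq_mul]
  have hsum' : ∀ (f : Tor L → ℝ) (c : ℝ), (∀ y, f y ≤ c) →
      ∑ y, f y ≤ Fintype.card (Tor L) * c := by
    intro f c h
    calc ∑ y, f y ≤ ∑ _y : Tor L, c := Finset.sum_le_sum fun y _ => h y
      _ = _ := by rw [Finset.sum_const, Finset.card_univ, nsmul_eq_mul]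
  refine ⟨Fintype.card (Tor L) * (32 + 4 * N), by positivity, ?_, ?_, ?_⟩
  · intro X Y τ r hr h
    obtain ⟨x, i⟩ := τ
    have hr2 : 0 ≤ r ^ 2 := by positivity
    have hbig : ∀ c : ℝ, c ≤ 32 * r ^ 2 →
        (Fintype.card (Tor L) : ℝ) * c ≤ Fintype.card (Tor L) * (32 + 4 * N) * r ^ 2 := by
      intro c hc
      rw [mul_assoc]
      refine mul_le_mul_of_nonneg_left (hc.trans ?_) (by positivity)
      nlinarith
    fin_cases i
    · change eV k Y x ≤ 2 * eV k X x + _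
      have hm := fun (l : Lk L) hl => h l ((mem_spt0 x l).2 hl)
      refine (hsum _ _ (16 * r ^ 2) fun y => ?_).trans (add_le_add le_rfl (hbig _ (by nlinarith)))
      have := df_sub X Y (tw_norm N k y) (x, y) 2 3 (r := r) (hm _ ⟨y, Or.inl rfl⟩)
        (by rw [nx2]; exact hm _ ⟨_, Or.inr rfl⟩) (hm _ ⟨y, Or.inr rfl⟩)
        (by rw [nx3]; exact hm _ ⟨_, Or.inl rfl⟩)
      linarith
    · change eK Y x 0 ≤ 2 * eK X x 0 + _
      have hm := fun (l : Lk L) hl => h l ((mem_spt1 x l).2 hl)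
      refine (hsum _ _ (32 * r ^ 2) fun y => ?_).trans (add_le_add le_rfl (hbig _ le_rfl))
      have h1 := df_sub X Y (norm_one) (x, y) 0 2 (r := r) (hm _ ⟨y, by simp⟩)
        (by rw [nx0]; exact hm _ ⟨y, by simp⟩) (hm _ ⟨y, by simp⟩)
        (by rw [nx2]; exact hm _ ⟨_, Or.inl rfl⟩)
      have h2 := df_sub X Y (norm_one) (x, y) 0 3 (r := r) (hm _ ⟨y, by simp⟩)
        (by rw [nx0]; exact hm _ ⟨y, by simp⟩) (hm _ ⟨y, by simp⟩)
        (by rw [nx3]; exact hm _ ⟨_, Or.inl rfl⟩)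
      linarith
    · change eK Y x 1 ≤ 2 * eK X x 1 + _
      have hm := fun (l : Lk L) hl => h l ((mem_spt2 x l).2 hl)
      refine (hsum _ _ (32 * r ^ 2) fun y => ?_).trans (add_le_add le_rfl (hbig _ le_rfl))
      have h1 := df_sub X Y (norm_one) (x, y) 1 2 (r := r) (hm _ ⟨y, by simp⟩)
        (by rw [nx1]; exact hm _ ⟨y, by simp⟩) (hm _ ⟨y, by simp⟩)
        (by rw [nx2]; exact hm _ ⟨_, Or.inl rfl⟩)
      have h2 := df_sub X Y (norm_one) (x, y) 1 3 (r := r) (hm _ ⟨y, by simp⟩)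
        (by rw [nx1]; exact hm _ ⟨y, by simp⟩) (hm _ ⟨y, by simp⟩)
        (by rw [nx3]; exact hm _ ⟨_, Or.inl rfl⟩)
      linarith
    · change (⨅ m : Fin N, eP Y (om N m) x) ≤ 2 * (⨅ m : Fin N, eP X (om N m) x) + _
      have hm := fun (l : Lk L) hl => h l ((mem_spt3 x l).2 hl)
      obtain ⟨m, hm'⟩ := exp_min hN0 X x
      rw [hm']
      refine (inf_le Y x m).trans ?_
      refine (hsum _ _ (16 * r ^ 2) fun y => ?_).trans (add_le_add le_rfl (hbig _ (by nlinarith)))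
      have := df_sub X Y (om_norm N m) (x, y) 0 1 (r := r) (hm _ ⟨y, by simp⟩)
        (by rw [nx0]; exact hm _ ⟨y, by simp⟩) (hm _ ⟨y, by simp⟩)
        (by rw [nx1]; exact hm _ ⟨y, by simp⟩)
      linarith
  · intro X τ
    obtain ⟨x, i⟩ := τ
    have hbig : ∀ c : ℝ, c ≤ 4 * N →
        (Fintype.card (Tor L) : ℝ) * c ≤ Fintype.card (Tor L) * (32 + 4 * N) := by
      intro c hc
      refine mul_le_mul_of_nonneg_left (hc.trans ?_) (by positivity)
      linarith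
    fin_cases i
    · change eV k X x ≤ _
      refine (hsum' _ (4 * N) fun y => ?_).trans (hbig _ le_rfl)
      have := df_le X (tw_norm N k y) (x, y) 2 3
      linarith
    · change eK X x 0 ≤ _
      refine (hsum' _ (4 * N) fun y => ?_).trans (hbig _ le_rfl)
      have h1 := df_le X (norm_one) (x, y) 0 2
      have h2 := df_le X (norm_one) (x, y) 0 3
      linarith
    · change eK X x 1 ≤ _
      refine (hsum' _ (4 * N) fun y => ?_).trans (hbig _ le_rfl)
      have h1 := df_le X (norm_one) (x, y) 1 2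
      have h2 := df_le X (norm_one) (x, y) 1 3
      linarith
    · change (⨅ m : Fin N, eP X (om N m) x) ≤ _
      refine (inf_le X x ⟨0, hN0⟩).trans ?_
      refine (hsum' _ (4 * N) fun y => ?_).trans (hbig _ le_rfl)
      have := df_le X (om_norm N (⟨0, hN0⟩ : Fin N)) (x, y) 0 1
      linarith
  · intro β X τ hβ
    obtain ⟨x, i⟩ := τ
    by_cases hi : i = 3
    · subst hi
      have e1 : en k X (x, 3) = ⨅ m : Fin N, eP X (om N m) x := rfl
      have e2 : wt k β (x, 3) X = (∑ m : Fin N, Real.exp (-β * eP X (om N m) x)) / N := rfl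
      rw [e1, e2]
      constructor
      · refine div_le_div_of_nonneg_right ?_ hNr.le
        obtain ⟨m, hm'⟩ := exp_min hN0 X x
        rw [hm']
        exact Finset.single_le_sum (f := fun m : Fin N => Real.exp (-β * eP X (om N m) x))
          (fun m _ => (Real.exp_pos _).le) (Finset.mem_univ m)
      · rw [div_le_iff₀ hNr]
        calc ∑ m : Fin N, Real.exp (-β * eP X (om N m) x) ≤
              ∑ _m : Fin N, Real.exp (-β * ⨅ m : Fin N, eP X (om N m) x) := by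
              refine Finset.sum_le_sum fun m _ => Real.exp_le_exp.2 ?_
              have := mul_le_mul_of_nonneg_left (inf_le X x m) hβ
              linarith
          _ = _ := by
              rw [Finset.sum_const, Finset.card_univ, Fintype.card_fin, nsmul_eq_mul, mul_comm]
    · have e2 : wt k β (x, i) X = Real.exp (-β * en k X (x, i)) := by
        unfold wt
        rw [if_neg hi]
      rw [e2]
      refine ⟨?_, le_rfl⟩
      exact div_le_self (Real.exp_pos _).le (by exact_mod_cast hN0)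

end PkgG2

theorem pG2 : S_G2 := PkgG2.pG2

theorem pG3 : S_G3 := PkgG2.pG3

end T2H02.TT
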