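import Pool.Agent.T2H02.TT.Stm3

/-! Package AR: area law. -/

set_option autoImplicit false
set_option linter.unusedSectionVars false

noncomputable section

open MeasureTheory Matrix
open scoped Matrix.Norms.Frobenius

namespace T2H02.TT

namespace PkgAR

variable {N L : ℕ} [NeZero L]

/-! ### central elements -/

lemma cen_coe (m : ℕ) : ((cen N m : SU N) : Mt N) = om N m • (1 : Mt N) := rfl

lemma cen_mul_coe (m : ℕ) (g : SU N) : ((cen N m * g : SU N) : Mt N) = om N m • (g : Mt N) := by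
  rw [Submonoid.coe_mul, cen_coe, smul_mul_assoc, one_mul]

lemma cen_comm (m : ℕ) (g : SU N) : cen N m * g = g * cen N m := by
  apply Subtype.ext
  rw [cen_mul_coe, Submonoid.coe_mul, cen_coe, mul_smul_comm, mul_one]

lemma cen_inv_mul_coe (m : ℕ) (g : SU N) :
    (((cen N m)⁻¹ * g : SU N) : Mt N) = star (om N m) • (g : Mt N) := by
  rw [Submonoid.coe_mul, su_inv, cen_coe, conjTranspose_smul, conjTranspose_one, smul_mul_assoc,
    one_mul]

/-! ### lines -/

lemma nx_zero (p : Pt L) : nx p 0 = (p.1 + (1, 0), p.2) := by simp [nx, pe]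

lemma lin_mvh_one (v : Pl) (n : ℕ) (X : Cf N L) (b : ℕ) :
    ∀ p : Pt L, lin (mvh v n X) 1 b p = lin X 1 b p := by
  induction b with
  | zero => intro p; rfl
  | succ b ih =>
    intro p
    unfold lin
    rw [ih]
    congr 1

lemma lin_mvh_zero (v : Pl) (n : ℕ) (X : Cf N L) (a : ℕ) :
    ∀ p : Pt L, lin (mvh v n X) 0 a p =
      (if v.2 = p.1.2 ∧ p.1.1 ≤ v.1 ∧ v.1 < p.1.1 + a then cen N n else 1) * lin X 0 a p := by
  induction a with
  | zero =>
    intro p
    rw [if_neg]
    · rw [one_mul]; rfl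
    · rintro ⟨_, h1, h2⟩
      push_cast at h2
      omega
  | succ a ih =>
    intro p
    unfold lin
    rw [ih, nx_zero]
    have h1 : mvh v n X (p, 0) = (if p.1 = v then cen N n else 1) * X (p, 0) := by
      unfold mvh
      by_cases h : p.1 = v
      · rw [if_pos ⟨rfl, h⟩, if_pos h]
      · rw [if_neg (fun hh => h hh.2), if_neg h, one_mul]
    rw [h1]
    obtain ⟨⟨p1, p2⟩, y⟩ := p
    obtain ⟨v1, v2⟩ := v
    simp only [Prod.mk.injEq, Prod.mk_add_mk, add_zero]
    push_cast
    by_cases h2 : v2 = p2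
    · subst h2
      simp only [and_true, true_and]
      by_cases h3 : p1 = v1
      · subst h3
        rw [if_pos rfl, if_neg (by omega), if_pos (by omega), one_mul, mul_assoc]
      · rw [if_neg h3, one_mul]
        by_cases h4 : p1 + 1 ≤ v1 ∧ v1 < p1 + 1 + a
        · rw [if_pos h4, if_pos (by omega), ← mul_assoc, ← cen_comm, mul_assoc]
        · rw [if_neg h4, if_neg (by omega), one_mul, one_mul]
    · rw [if_neg (by tauto), if_neg (by tauto), if_neg (by tauto)]
      simp

lemma alg (A B C D c₁ c₂ : SU N) (h1 : ∀ g : SU N, c₁ * g = g * c₁)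
    (h2 : ∀ g : SU N, c₂ * g = g * c₂) :
    A * (c₁ * B) * C * (c₂ * D)⁻¹ = c₁ * (c₂⁻¹ * (A * B * C * D⁻¹)) := by
  have e1 : A * (c₁ * B) = c₁ * (A * B) := by
    rw [← mul_assoc, ← h1, mul_assoc]
  have e2 : (c₂ * D)⁻¹ = D⁻¹ * c₂⁻¹ := by group
  have e3 : A * B * C * D⁻¹ * c₂⁻¹ = c₂⁻¹ * (A * B * C * D⁻¹) := by
    rw [eq_inv_mul_iff_mul_eq, ← mul_assoc, h2, mul_assoc, mul_inv_cancel, mul_one]
  rw [e1, e2, ← e3]
  simp only [mul_assoc]

lemma loo_mvh (v : Pl) (n : ℕ) (X : Cf N L) (x : Pl) (y : Tor L) (a b : ℕ) :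
    loo (mvh v n X) x y a b =
      (if v.2 = x.2 + b ∧ x.1 ≤ v.1 ∧ v.1 < x.1 + a then cen N n else 1) *
      ((if v.2 = x.2 ∧ x.1 ≤ v.1 ∧ v.1 < x.1 + a then cen N n else 1)⁻¹ * loo X x y a b) := by
  unfold loo
  rw [lin_mvh_one, lin_mvh_one, lin_mvh_zero, lin_mvh_zero]
  have hx : (x + ((0 : ℤ), (b : ℤ))).1 = x.1 := by simp
  have hx2 : (x + ((0 : ℤ), (b : ℤ))).2 = x.2 + b := by simp
  simp only [hx, hx2]
  have hc : ∀ (c : Prop) [Decidable c] (g : SU N),
      (if c then cen N n else 1) * g = g * (if c then cen N n else 1) := by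
    intro c _ g
    split_ifs
    · exact cen_comm n g
    · rw [one_mul, mul_one]
  exact alg _ _ _ _ _ _ (hc _) (hc _)

/-! ### the loop as a function -/

lemma lin_cont (i : Fin 4) (n : ℕ) : ∀ p : Pt L, Continuous fun X : Cf N L => lin X i n p := by
  induction n with
  | zero => intro p; exact continuous_const
  | succ n ih =>
    intro p
    exact (continuous_apply (p, i)).mul (ih _)

lemma wlp_cont (x : Pl) (y : Tor L) (a b : ℕ) : Continuous fun X : Cf N L => wlp X x y a b := by
  have h : Continuous fun X : Cf N L => loo X x y a b := by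
    unfold loo
    exact (((lin_cont 1 b _).mul (lin_cont 0 a _)).mul (lin_cont 1 b _).inv).mul
      (lin_cont 0 a _).inv
  unfold wlp
  exact ((continuous_subtype_val.comp h).matrix_trace).div_const _

lemma wlp_le (X : Cf N L) (x : Pl) (y : Tor L) (a b : ℕ) : ‖wlp X x y a b‖ ≤ 1 := by
  unfold wlp
  rw [norm_div]
  have h1 : ‖(loo X x y a b : Mt N).trace‖ ≤ N := by
    have hU : (loo X x y a b : Mt N) ∈ Matrix.unitaryGroup (Fin N) ℂ :=
      (Matrix.mem_specialUnitaryGroup_iff.1 (loo X x y a b).2).1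
    unfold Matrix.trace
    refine (norm_sum_le _ _).trans ?_
    calc ∑ i : Fin N, ‖Matrix.diag (loo X x y a b : Mt N) i‖ ≤ ∑ _i : Fin N, (1 : ℝ) :=
          Finset.sum_le_sum fun i _ => entry_norm_bound_of_unitary hU i i
      _ = N := by simp
  rw [Complex.norm_natCast]
  exact div_le_one_of_le₀ h1 (Nat.cast_nonneg _)

/-- the charges -/
def chg (x : Pl) (a b : ℕ) (v : Pl) : ℕ :=
  if (x.1 ≤ v.1 ∧ v.1 < x.1 + a) ∧ (x.2 ≤ v.2 ∧ v.2 < x.2 + b) then 1 else 0

lemma wlp_mvh (v : Pl) (n : ℕ) (X : Cf N L) (x : Pl) (y : Tor L) (a b : ℕ) :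
    wlp (mvh (v + (0, 1)) n X) x y a b =
      om N n ^ chg x a b v * (star (om N n)) ^ chg x a b (v + (0, 1)) * wlp X x y a b := by
  unfold wlp
  rw [loo_mvh]
  obtain ⟨v1, v2⟩ := v
  obtain ⟨x1, x2⟩ := x
  unfold chg
  simp only [Prod.mk_add_mk, add_zero]
  have h1 : ∀ g : SU N, ((cen N n * g : SU N) : Mt N).trace = om N n * (g : Mt N).trace := by
    intro g
    rw [cen_mul_coe, trace_smul, smul_eq_mul]
  have h2 : ∀ g : SU N, (((cen N n)⁻¹ * g : SU N) : Mt N).trace =
      star (om N n) * (g : Mt N).trace := by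
    intro g
    rw [cen_inv_mul_coe, trace_smul, smul_eq_mul]
  have h3 : om N n * star (om N n) = 1 := by rw [mul_comm]; exact om_star N n
  by_cases hr : x1 ≤ v1 ∧ v1 < x1 + a
  · simp only [hr, true_and, and_true]
    by_cases ht : v2 + 1 = x2 + b
    · by_cases hb : v2 + 1 = x2
      · rw [if_pos ht, if_pos hb, if_neg (by omega), if_neg (by omega), h1, h2, ← mul_assoc, h3]
        simp
      · rw [if_pos ht, if_neg hb, if_pos (by omega), if_neg (by omega), h1]
        simp
        ring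
    · by_cases hb : v2 + 1 = x2
      · rw [if_neg ht, if_pos hb, if_neg (by omega), if_pos (by omega), one_mul, h2]
        simp
        ring
      · rw [if_neg ht, if_neg hb, inv_one, one_mul, one_mul]
        by_cases hm : x2 ≤ v2 ∧ v2 < x2 + b
        · rw [if_pos hm, if_pos (by omega), pow_one, pow_one, h3, one_mul]
        · rw [if_neg hm, if_neg (by omega), pow_zero, pow_zero, one_mul, one_mul]
  · rw [if_neg (by tauto), if_neg (by tauto), if_neg (by tauto), if_neg (by tauto)]
    simp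

end PkgAR

open PkgAR in
/-- package AR -/
theorem pAR (hOA : S_OA) : S_AR := by
  intro N k L _ hN β hβ R x y a b hR
  set T := tin R with hT
  set δ : ℝ := Real.exp (-2 * N * L ^ 2 * β) with hδ
  have hδ0 : 0 < δ := Real.exp_pos _
  have hδ1 : δ ≤ 1 := by
    rw [hδ, Real.exp_le_one_iff]
    have : 0 ≤ 2 * (N : ℝ) * L ^ 2 * β := by positivity
    linarith
  -- the charges vanish outside
  have hs : ∀ x', (x', (3 : Fin 4)) ∉ T → chg x a b x' = 0 := by
    intro x' hx'
    unfold chg
    rw [if_neg]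
    rintro ⟨⟨h1, h2⟩, h3, h4⟩
    apply hx'
    rw [hT, mem_tin]
    obtain ⟨i, hi⟩ := Int.eq_ofNat_of_zero_le (show 0 ≤ x'.1 - x.1 by omega)
    obtain ⟨j, hj⟩ := Int.eq_ofNat_of_zero_le (show 0 ≤ x'.2 - x.2 by omega)
    have key : ∀ u v : ℕ, u ≤ 1 → v ≤ 1 → x' + ((u : ℤ), (v : ℤ)) ∈ R := by
      intro u v hu hv
      have := hR (i + u) (j + v) (by omega) (by omega)
      convert this using 1
      ext
      · simp only [Prod.fst_add]
        push_cast
        omega
      · simp only [Prod.snd_add]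
        push_cast
        omega
    intro c hc
    rcases (mem_cor3 _ _).1 hc with rfl | rfl | rfl | rfl
    · have := key 0 0 (by omega) (by omega)
      simpa [h00] using this
    · simpa using key 1 0 (by omega) (by omega)
    · simpa using key 0 1 (by omega) (by omega)
    · simpa using key 1 1 (by omega) (by omega)
  obtain ⟨hnum, hch⟩ := hOA N k L hN β hβ T (chg x a b) (fun X => wlp X x y a b)
    (wlp_cont x y a b).measurable ⟨1, fun X => wlp_le X x y a b⟩ hs
    (fun v n X => wlp_mvh v n X x y a b)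
  obtain ⟨hden, -⟩ := hOA N k L hN β hβ T (fun _ => 0) (fun _ => 1) measurable_const
    ⟨1, fun X => by simp⟩ (fun _ _ => rfl) (fun v n X => by simp)
  -- the real weight
  set w : Cf N L → ℝ := fun X => (∏ τ ∈ T.filter (fun τ => τ.2 ≠ 3), Real.exp (-β * en1 k X τ)) *
    ∏ τ ∈ T.filter (fun τ => τ.2 = 3), wt k β τ X with hw
  have hN0 : 0 < N := by omega
  have hwt0 : ∀ τ X, 0 < wt (N := N) (L := L) k β τ X := fun τ X => wt_pos k β τ X hN0
  have hen1 : ∀ (τ : Tm), τ.2 ≠ 3 → ∀ X : Cf N L, Real.exp (-β * en1 k X τ) = wt k β τ X := by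
    intro τ hτ X
    unfold wt en en1
    obtain ⟨v, i⟩ := τ
    fin_cases i
    · simp
    · simp
    · simp
    · exact absurd rfl hτ
  have hw2 : ∀ X, w X = ∏ τ ∈ T, wt k β τ X := by
    intro X
    rw [hw]
    simp only
    rw [Finset.prod_congr rfl (fun τ hτ => hen1 τ (Finset.mem_filter.1 hτ).2 X), mul_comm,
      Finset.prod_filter_mul_prod_filter_not]
  have hw0 : ∀ X, 0 < w X := fun X => by
    rw [hw2]
    exact Finset.prod_pos fun τ _ => hwt0 τ X
  have hw1 : ∀ X, w X ≤ 1 := fun X => by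
    rw [hw2]
    exact Finset.prod_le_one (fun τ _ => (hwt0 τ X).le) fun τ _ => wt_le k β hβ τ X hN0
  have hwm : Measurable w := by
    have : w = fun X => ∏ τ ∈ T, wt k β τ X := funext hw2
    rw [this]
    exact Finset.measurable_prod _ fun τ _ => (wt_cont k β τ).measurable
  have hwi : Integrable w (pm N L) :=
    Integrable.of_bound hwm.aestronglyMeasurable 1 (Filter.Eventually.of_forall fun X => by
      rw [Real.norm_eq_abs, abs_of_pos (hw0 X)]
      exact hw1 X)
  have hch0 : ∀ (v : Pl) (X : Cf N L), wch N β 0 v X = ((wt k β (v, 3) X : ℝ) : ℂ) := by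
    intro v X
    unfold wch wt
    simp
  -- the denominator
  have hexp : ∀ X : Cf N L, Real.exp (-β * wact k R X) = ∏ τ ∈ T, Real.exp (-β * en1 k X τ) := by
    intro X
    rw [wact_eq, Finset.mul_sum, Real.exp_sum]
  have hD : ((∫ X, Real.exp (-β * wact k R X) ∂(pm N L) : ℝ) : ℂ) = ((∫ X, w X ∂(pm N L) : ℝ) : ℂ) := by
    rw [← integral_complex_ofReal, ← integral_complex_ofReal]
    have e1 : (∫ X, ((Real.exp (-β * wact k R X) : ℝ) : ℂ) ∂(pm N L)) =
        ∫ X, (1 : ℂ) * ∏ τ ∈ T, (Real.exp (-β * en1 k X τ) : ℂ) ∂(pm N L) := by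
      refine integral_congr_ae (Filter.Eventually.of_forall fun X => ?_)
      simp only
      rw [hexp, one_mul]
      push_cast
      rfl
    rw [e1, hden]
    refine integral_congr_ae (Filter.Eventually.of_forall fun X => ?_)
    simp only
    rw [one_mul, hw]
    push_cast
    congr 1
    refine Finset.prod_congr rfl fun τ hτ => ?_
    obtain ⟨v, i⟩ := τ
    have : i = 3 := (Finset.mem_filter.1 hτ).2
    subst this
    exact hch0 v X
  -- the numerator
  have hcount : a * b ≤ ((T.filter (fun τ => τ.2 = 3)).filter (fun τ => chg x a b τ.1 = 1)).card := by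
    have h1 : ((Finset.range a ×ˢ Finset.range b).image
        fun s : ℕ × ℕ => ((x + ((s.1 : ℤ), (s.2 : ℤ)), 3) : Tm)).card = a * b := by
      rw [Finset.card_image_of_injective, Finset.card_product, Finset.card_range,
        Finset.card_range]
      intro s s' h
      simp only [Prod.mk.injEq, and_true, add_right_inj] at h
      ext
      · exact_mod_cast h.1
      · exact_mod_cast h.2
    rw [← h1]
    refine Finset.card_le_card fun τ hτ => ?_
    rw [Finset.mem_image] at hτ
    obtain ⟨s, hs', rfl⟩ := hτ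
    rw [Finset.mem_product, Finset.mem_range, Finset.mem_range] at hs'
    have h2 : chg x a b (x + ((s.1 : ℤ), (s.2 : ℤ))) = 1 := by
      unfold chg
      rw [if_pos]
      simp only [Prod.fst_add, Prod.snd_add]
      omega
    rw [Finset.mem_filter, Finset.mem_filter]
    refine ⟨⟨?_, rfl⟩, h2⟩
    by_contra hc
    have := hs _ hc
    omega
  have hbound : ∀ X : Cf N L,
      ‖wlp X x y a b * (∏ τ ∈ T.filter (fun τ => τ.2 ≠ 3), (Real.exp (-β * en1 k X τ) : ℂ)) *
        ∏ τ ∈ T.filter (fun τ => τ.2 = 3), wch N β (chg x a b τ.1) τ.1 X‖ ≤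
      (1 - δ) ^ (a * b) * w X := by
    intro X
    rw [norm_mul, norm_mul, norm_prod, norm_prod]
    have e1 : ∏ τ ∈ T.filter (fun τ => τ.2 ≠ 3), ‖(Real.exp (-β * en1 k X τ) : ℂ)‖ =
        ∏ τ ∈ T.filter (fun τ => τ.2 ≠ 3), Real.exp (-β * en1 k X τ) :=
      Finset.prod_congr rfl fun τ _ => by
        rw [Complex.norm_real, Real.norm_eq_abs, abs_of_pos (Real.exp_pos _)]
    rw [e1]
    have e2 : ∏ τ ∈ T.filter (fun τ => τ.2 = 3), ‖wch N β (chg x a b τ.1) τ.1 X‖ ≤
        (1 - δ) ^ (a * b) * ∏ τ ∈ T.filter (fun τ => τ.2 = 3), wt k β τ X := by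
      calc ∏ τ ∈ T.filter (fun τ => τ.2 = 3), ‖wch N β (chg x a b τ.1) τ.1 X‖ ≤
          ∏ τ ∈ T.filter (fun τ => τ.2 = 3),
            ((if chg x a b τ.1 = 1 then (1 - δ) else 1) * wt k β τ X) := by
            refine Finset.prod_le_prod (fun _ _ => norm_nonneg _) fun τ hτ => ?_
            obtain ⟨v, i⟩ := τ
            have : i = 3 := (Finset.mem_filter.1 hτ).2
            subst this
            simp only
            by_cases hc : chg x a b v = 1
            · rw [if_pos hc, hc]
              exact hch v X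
            · have hc0 : chg x a b v = 0 := by
                unfold chg at hc ⊢
                by_cases hcc : (x.1 ≤ v.1 ∧ v.1 < x.1 + a) ∧ (x.2 ≤ v.2 ∧ v.2 < x.2 + b)
                · rw [if_pos hcc] at hc
                  exact absurd rfl hc
                · rw [if_neg hcc]
              rw [if_neg hc, hc0, hch0, one_mul, Complex.norm_real, Real.norm_eq_abs,
                abs_of_pos (hwt0 _ X)]
        _ = (1 - δ) ^ ((T.filter (fun τ => τ.2 = 3)).filter
              (fun τ => chg x a b τ.1 = 1)).card *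
            ∏ τ ∈ T.filter (fun τ => τ.2 = 3), wt k β τ X := by
            rw [Finset.prod_mul_distrib, Finset.prod_ite, Finset.prod_const, Finset.prod_const_one,
              mul_one]
        _ ≤ _ := by
            refine mul_le_mul_of_nonneg_right ?_ (Finset.prod_nonneg fun τ _ => (hwt0 τ X).le)
            exact pow_le_pow_of_le_one (by linarith) (by linarith) hcount
    have h0 : 0 ≤ ∏ τ ∈ T.filter (fun τ => τ.2 ≠ 3), Real.exp (-β * en1 k X τ) :=
      Finset.prod_nonneg fun _ _ => (Real.exp_pos _).le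
    calc ‖wlp X x y a b‖ * (∏ τ ∈ T.filter (fun τ => τ.2 ≠ 3), Real.exp (-β * en1 k X τ)) *
          ∏ τ ∈ T.filter (fun τ => τ.2 = 3), ‖wch N β (chg x a b τ.1) τ.1 X‖ ≤
        1 * (∏ τ ∈ T.filter (fun τ => τ.2 ≠ 3), Real.exp (-β * en1 k X τ)) *
          ((1 - δ) ^ (a * b) * ∏ τ ∈ T.filter (fun τ => τ.2 = 3), wt k β τ X) := by
          refine mul_le_mul (mul_le_mul_of_nonneg_right (wlp_le X x y a b) h0) e2
            (Finset.prod_nonneg fun _ _ => norm_nonneg _) (by positivity)
      _ = _ := by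
          rw [hw]
          ring
  have hnum2 : ‖∫ X, wlp X x y a b * ((Real.exp (-β * wact k R X) : ℝ) : ℂ) ∂(pm N L)‖ ≤
      (1 - δ) ^ (a * b) * ∫ X, w X ∂(pm N L) := by
    have e1 : (∫ X, wlp X x y a b * ((Real.exp (-β * wact k R X) : ℝ) : ℂ) ∂(pm N L)) =
        ∫ X, wlp X x y a b * ∏ τ ∈ T, (Real.exp (-β * en1 k X τ) : ℂ) ∂(pm N L) := by
      refine integral_congr_ae (Filter.Eventually.of_forall fun X => ?_)
      simp only
      rw [hexp]
      push_cast
      rfl
    rw [e1, hnum, ← integral_const_mul]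
    refine (norm_integral_le_integral_norm _).trans ?_
    refine integral_mono_of_nonneg (Filter.Eventually.of_forall fun X => norm_nonneg _)
      (hwi.const_mul _) (Filter.Eventually.of_forall hbound)
  unfold wexC
  change ‖(∫ X, wlp X x y a b * ((Real.exp (-β * wact k R X) : ℝ) : ℂ) ∂(pm N L)) /
    ((∫ X, Real.exp (-β * wact k R X) ∂(pm N L) : ℝ) : ℂ)‖ ≤ _
  rw [hD, norm_div, Complex.norm_real, Real.norm_eq_abs,
    abs_of_nonneg (integral_nonneg fun X => (hw0 X).le)]
  have h0 : 0 ≤ ∫ X, w X ∂(pm N L) := integral_nonneg fun X => (hw0 X).le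
  have hp : 0 ≤ (1 - δ) ^ (a * b) := pow_nonneg (by linarith) _
  exact div_le_of_le_mul₀ h0 hp hnum2

end T2H02.TT
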