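import Pool.Agent.T2H02.TT.Stm2

/-!
# Package Z: choice of the parameters
-/

set_option autoImplicit false

noncomputable section

open MeasureTheory Matrix Filter

namespace T2H02.TT

namespace PkgZ

theorem core {C b L : ℝ} {D M : ℕ} {T : ℝ} (hC : 1 ≤ C) (hCb : C ≤ b) (hD : (2 * D + 8 : ℝ) ≤ b)
    (hb : 48 ≤ b) (hL0 : 1 ≤ L) (hL : L ≤ b) (hM1 : 8 ≤ M) (hM : (M : ℝ) ≤ b) (hT0 : 0 ≤ T)
    (hT : T ≤ 1 / b ^ 800) (hL' : Real.exp L = b ^ 200)
    (hexp : Real.exp (-(b ^ 200) / C) ≤ 1 / b ^ 600) :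
    let t := (2 * D + 8 : ℝ) * M ^ 2 * L / b ^ 200
    let r := C * M ^ 8 * (T + t)
    let q := 1 / b ^ 30
    0 ≤ t ∧ 0 < q ∧ 48 * q ≤ 1 / 2 ∧ 48 * q ≤ 1 / b ^ 20 ∧ r ≤ 1 / C ∧
      M * (Real.exp (-(b ^ 200) * t) * (C * b ^ 200) ^ (D * M ^ 2)) ≤ q ^ 32 ∧
      C * M ^ 2 * (b ^ 200 * (r * Real.sqrt r + T * r) + Real.exp (-(b ^ 200) / C)) +
        4 * M * (Real.exp (-(b ^ 200) * t) * (C * b ^ 200) ^ (D * M ^ 2)) ≤ q ^ 2 := by
  intro t r q
  have b0 : (0 : ℝ) < b := by linarith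
  have b1 : (1 : ℝ) ≤ b := by linarith
  have hM0 : (1 : ℝ) ≤ M := by exact_mod_cast le_trans (by norm_num) hM1
  have hMn : (0 : ℝ) ≤ M := by linarith
  have hD0 : (0 : ℝ) ≤ 2 * D + 8 := by positivity
  have ht0 : 0 ≤ t := by positivity
  -- bounds of t
  have ht : t ≤ b ^ 4 / b ^ 200 := by
    have : (2 * D + 8 : ℝ) * M ^ 2 * L ≤ b * b ^ 2 * b := by gcongr
    calc t ≤ (b * b ^ 2 * b) / b ^ 200 := by
          simp only [t]
          gcongr
      _ = b ^ 4 / b ^ 200 := by ring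
  have hT' : T ≤ b ^ 4 / b ^ 200 := by
    refine hT.trans ?_
    rw [div_le_div_iff₀ (by positivity) (by positivity), one_mul, ← pow_add]
    exact pow_le_pow_right₀ b1 (by norm_num)
  have hTt : T + t ≤ b ^ 5 / b ^ 200 := by
    have : b ^ 4 / b ^ 200 + b ^ 4 / b ^ 200 ≤ b ^ 5 / b ^ 200 := by
      rw [← add_div]
      gcongr
      nlinarith [pow_pos b0 4]
    linarith
  have hr0 : 0 ≤ r := by
    have : 0 ≤ T + t := by positivity
    positivity
  have hr : r ≤ b ^ 14 / b ^ 200 := by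
    calc r ≤ b * b ^ 8 * (b ^ 5 / b ^ 200) := by
          simp only [r]
          gcongr
      _ = b ^ 14 / b ^ 200 := by ring
  have hr1 : r ≤ 1 / C := by
    refine hr.trans ?_
    have h1 : 1 / b ≤ 1 / C := one_div_le_one_div_of_le (by linarith) hCb
    refine le_trans ?_ h1
    rw [div_le_div_iff₀ (by positivity) b0, one_mul, ← pow_succ]
    exact pow_le_pow_right₀ b1 (by norm_num)
  have hsr : Real.sqrt r ≤ b ^ 7 / b ^ 100 := by
    rw [Real.sqrt_le_left (by positivity)]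
    refine hr.trans (le_of_eq ?_)
    rw [div_pow, ← pow_mul, ← pow_mul]
  -- the probability
  have hP : Real.exp (-(b ^ 200) * t) * (C * b ^ 200) ^ (D * M ^ 2) ≤ 1 / b ^ 1600 := by
    have e1 : Real.exp (-(b ^ 200) * t) = 1 / (b ^ 200) ^ ((2 * D + 8) * M ^ 2) := by
      have : -(b ^ 200) * t = -(((2 * D + 8) * M ^ 2 : ℕ) * L) := by
        simp only [t]
        push_cast
        field_simp
      rw [this, Real.exp_neg, Real.exp_nat_mul, hL', one_div]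
    have e2 : (C * b ^ 200) ^ (D * M ^ 2) ≤ (b ^ 200) ^ (2 * (D * M ^ 2)) := by
      rw [pow_mul (b ^ 200) 2]
      refine pow_le_pow_left₀ (by positivity) ?_ _
      rw [sq]
      gcongr
      refine hCb.trans ?_
      calc b = b ^ 1 := (pow_one b).symm
        _ ≤ b ^ 200 := pow_le_pow_right₀ b1 (by norm_num)
    have e3 : (2 * D + 8) * M ^ 2 = 2 * (D * M ^ 2) + 8 * M ^ 2 := by ring
    calc Real.exp (-(b ^ 200) * t) * (C * b ^ 200) ^ (D * M ^ 2)
        ≤ 1 / (b ^ 200) ^ ((2 * D + 8) * M ^ 2) * (b ^ 200) ^ (2 * (D * M ^ 2)) := by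
          rw [e1]
          gcongr
      _ = 1 / (b ^ 200) ^ (8 * M ^ 2) := by
          rw [e3, pow_add (b ^ 200)]
          field_simp
      _ ≤ 1 / b ^ 1600 := by
          rw [← pow_mul]
          refine one_div_le_one_div_of_le (by positivity) (pow_le_pow_right₀ b1 ?_)
          nlinarith [hM1]
  have hP0 : 0 ≤ Real.exp (-(b ^ 200) * t) * (C * b ^ 200) ^ (D * M ^ 2) := by positivity
  refine ⟨ht0, by positivity, ?_, ?_, hr1, ?_, ?_⟩
  · have h1 : b ^ 2 ≤ b ^ 30 := pow_le_pow_right₀ b1 (by norm_num)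
    have h2 : (96 : ℝ) ≤ b ^ 2 := by nlinarith
    simp only [q]
    rw [mul_one_div, div_le_div_iff₀ (by positivity) (by norm_num)]
    linarith
  · simp only [q]
    rw [mul_one_div, div_le_div_iff₀ (by positivity) (by positivity), one_mul]
    have h1 : b ^ 30 = b ^ 10 * b ^ 20 := by rw [← pow_add]
    rw [h1]
    gcongr
    calc (48 : ℝ) ≤ b := hb
      _ = b ^ 1 := (pow_one b).symm
      _ ≤ b ^ 10 := pow_le_pow_right₀ b1 (by norm_num)
  · have h1 : M * (Real.exp (-(b ^ 200) * t) * (C * b ^ 200) ^ (D * M ^ 2)) ≤ b * (1 / b ^ 1600) := by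
      gcongr
    refine h1.trans ?_
    simp only [q]
    rw [div_pow, one_pow, ← pow_mul, mul_one_div, div_le_div_iff₀ (by positivity) (by positivity),
      one_mul, ← pow_succ']
    exact pow_le_pow_right₀ b1 (by norm_num)
  · have a1 : b ^ 200 * (r * Real.sqrt r) ≤ b ^ 21 / b ^ 100 := by
      calc b ^ 200 * (r * Real.sqrt r) ≤ b ^ 200 * (b ^ 14 / b ^ 200 * (b ^ 7 / b ^ 100)) := by
            gcongr
        _ = b ^ 21 / b ^ 100 := by
            field_simp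
    have a2 : b ^ 200 * (T * r) ≤ b ^ 21 / b ^ 100 := by
      calc b ^ 200 * (T * r) ≤ b ^ 200 * (1 / b ^ 800 * (b ^ 14 / b ^ 200)) := by
            gcongr
        _ = b ^ 14 / b ^ 800 := by
            field_simp
        _ ≤ b ^ 21 / b ^ 100 := by
            rw [div_le_div_iff₀ (by positivity) (by positivity), ← pow_add, ← pow_add]
            exact pow_le_pow_right₀ b1 (by norm_num)
    have a3 : Real.exp (-(b ^ 200) / C) ≤ b ^ 21 / b ^ 100 := by
      refine hexp.trans ?_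
      rw [div_le_div_iff₀ (by positivity) (by positivity), ← pow_add, one_mul]
      exact pow_le_pow_right₀ b1 (by norm_num)
    have a4 : b ^ 200 * (r * Real.sqrt r + T * r) + Real.exp (-(b ^ 200) / C)
        ≤ 3 * (b ^ 21 / b ^ 100) := by
      rw [mul_add]
      linarith
    have a4' : 0 ≤ b ^ 200 * (r * Real.sqrt r + T * r) + Real.exp (-(b ^ 200) / C) := by positivity
    have a5 : C * M ^ 2 * (b ^ 200 * (r * Real.sqrt r + T * r) + Real.exp (-(b ^ 200) / C))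
        ≤ b * b ^ 2 * (3 * (b ^ 21 / b ^ 100)) := by gcongr
    have a6 : 4 * M * (Real.exp (-(b ^ 200) * t) * (C * b ^ 200) ^ (D * M ^ 2))
        ≤ 4 * b * (1 / b ^ 1600) := by gcongr
    have a7 : 4 * b * (1 / b ^ 1600) ≤ b ^ 24 / b ^ 100 := by
      rw [mul_one_div, div_le_div_iff₀ (by positivity) (by positivity)]
      have : (4 : ℝ) * b * b ^ 100 ≤ b * b * b ^ 100 := by gcongr; linarith
      refine this.trans ?_
      have e : b * b * b ^ 100 = b ^ 102 := by ring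
      rw [e, ← pow_add]
      exact pow_le_pow_right₀ b1 (by norm_num)
    have a8 : b * b ^ 2 * (3 * (b ^ 21 / b ^ 100)) = 3 * (b ^ 24 / b ^ 100) := by ring
    have a9 : 4 * (b ^ 24 / b ^ 100) ≤ q ^ 2 := by
      simp only [q]
      rw [div_pow, one_pow, ← pow_mul, ← mul_div_assoc, div_le_div_iff₀ (by positivity) (by positivity),
        one_mul]
      calc 4 * b ^ 24 * b ^ (30 * 2) ≤ b * b ^ 24 * b ^ (30 * 2) := by gcongr; linarith
        _ = b ^ 85 := by ring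
        _ ≤ b ^ 100 := pow_le_pow_right₀ b1 (by norm_num)
    linarith

theorem params {C θ : ℝ} (D : ℕ) (hC : 1 ≤ C) (h0 : 0 < θ) (h1 : θ < 1) :
    ∃ K β₀ : ℝ, 1 ≤ K ∧ 1 < β₀ ∧ ∀ β : ℝ, β₀ ≤ β → ∃ (M : ℕ) (b : ℝ),
      β = b ^ 200 ∧ β ^ (-(1 / 10) : ℝ) = 1 / b ^ 20 ∧ (M : ℝ) ≤ K * Real.log β ∧ C ≤ b ∧
      (2 * D + 8 : ℝ) ≤ b ∧ 48 ≤ b ∧ 1 ≤ Real.log β ∧ Real.log β ≤ b ∧ 8 ≤ M ∧ (M : ℝ) ≤ b ∧
      θ ^ M ≤ 1 / b ^ 800 ∧ Real.exp (Real.log β) = b ^ 200 ∧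
      Real.exp (-(b ^ 200) / C) ≤ 1 / b ^ 600 := by
  have hlog : Real.log θ < 0 := Real.log_neg h0 h1
  obtain ⟨K₀, hK0, hK1⟩ : ∃ K₀ : ℝ, 8 ≤ K₀ ∧ 4 ≤ K₀ * (-Real.log θ) := by
    refine ⟨max 8 (4 / (-Real.log θ)), le_max_left _ _, ?_⟩
    calc (4 : ℝ) = 4 / (-Real.log θ) * (-Real.log θ) := by
          rw [div_mul_cancel₀]
          linarith
      _ ≤ _ := by
          gcongr
          · linarith
          · exact le_max_right _ _
  have e1 : ∀ᶠ β : ℝ in atTop, 1 ≤ Real.log β :=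
    Real.tendsto_log_atTop.eventually (eventually_ge_atTop 1)
  have e2 : ∀ᶠ β : ℝ in atTop, max (max C (2 * D + 8)) 48 ≤ β ^ (1 / 200 : ℝ) :=
    (tendsto_rpow_atTop (by norm_num)).eventually (eventually_ge_atTop _)
  have e3 : ∀ᶠ β : ℝ in atTop, (K₀ + 1) * Real.log β ≤ β ^ (1 / 200 : ℝ) := by
    have h := (isLittleO_log_rpow_atTop (show (0 : ℝ) < 1 / 200 by norm_num)).def
      (show (0 : ℝ) < 1 / (K₀ + 1) by positivity)
    filter_upwards [h, e1, eventually_ge_atTop 0] with β h2 h3 h4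
    rw [Real.norm_of_nonneg (by linarith), Real.norm_of_nonneg (Real.rpow_nonneg h4 _)] at h2
    rw [one_div, ← div_eq_inv_mul, le_div_iff₀ (by linarith)] at h2
    linarith
  have e4 : ∀ᶠ β : ℝ in atTop, Real.exp (-β / C) ≤ 1 / β ^ 3 := by
    have h : Tendsto (fun x : ℝ => x ^ 3 * Real.exp (-x)) atTop (nhds 0) :=
      Real.tendsto_pow_mul_exp_neg_atTop_nhds_zero 3
    have h2 : Tendsto (fun β : ℝ => β / C) atTop atTop :=
      tendsto_id.atTop_div_const (by linarith)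
    have h3 := (h.comp h2).eventually (ge_mem_nhds (show (0 : ℝ) < 1 / C ^ 3 by positivity))
    filter_upwards [h3, eventually_gt_atTop 0] with β h4 h5
    simp only [Function.comp] at h4
    rw [le_div_iff₀ (by positivity)]
    have h6 : (β / C) ^ 3 * Real.exp (-(β / C)) * C ^ 3 ≤ 1 / C ^ 3 * C ^ 3 := by gcongr
    have h7 : (β / C) ^ 3 * Real.exp (-(β / C)) * C ^ 3 = Real.exp (-β / C) * β ^ 3 := by
      rw [neg_div]
      field_simp
    rw [h7, one_div, inv_mul_cancel₀ (by positivity)] at h6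
    exact h6
  obtain ⟨β₁, hβ₁⟩ := eventually_atTop.1 ((e1.and e2).and (e3.and e4))
  refine ⟨K₀ + 1, max β₁ 2, by linarith, lt_of_lt_of_le (by norm_num) (le_max_right _ _),
    fun β hβ => ?_⟩
  obtain ⟨⟨g1, g2⟩, g3, g4⟩ := hβ₁ β ((le_max_left _ _).trans hβ)
  have hβ2 : 2 ≤ β := (le_max_right _ _).trans hβ
  have hβ0 : 0 ≤ β := by linarith
  have hβp : 0 < β := by linarith
  set b := β ^ (1 / 200 : ℝ) with hb
  have hb200 : β = b ^ 200 := by
    rw [hb, ← Real.rpow_natCast, ← Real.rpow_mul hβ0]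
    norm_num
  have hb20 : β ^ (-(1 / 10) : ℝ) = 1 / b ^ 20 := by
    rw [hb, ← Real.rpow_natCast, ← Real.rpow_mul hβ0, Real.rpow_neg hβ0, one_div]
    norm_num
  have hM : ((⌈K₀ * Real.log β⌉₊ : ℕ) : ℝ) ≤ (K₀ + 1) * Real.log β := by
    have := (Nat.ceil_lt_add_one (show 0 ≤ K₀ * Real.log β by positivity)).le
    refine this.trans ?_
    rw [add_mul, one_mul]
    linarith
  refine ⟨⌈K₀ * Real.log β⌉₊, b, hb200, hb20, hM, ?_, ?_, ?_, g1, ?_, ?_, hM.trans g3, ?_, ?_, ?_⟩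
  · exact (le_max_left _ _).trans ((le_max_left _ _).trans g2)
  · exact (le_max_right _ _).trans ((le_max_left _ _).trans g2)
  · exact (le_max_right _ _).trans g2
  · refine le_trans ?_ g3
    nlinarith
  · have h8 : (8 : ℝ) ≤ ⌈K₀ * Real.log β⌉₊ := by
      refine le_trans ?_ (Nat.le_ceil _)
      nlinarith
    exact_mod_cast h8
  · have h5 : θ ^ ⌈K₀ * Real.log β⌉₊ = Real.exp (⌈K₀ * Real.log β⌉₊ * Real.log θ) := by
      rw [Real.exp_nat_mul, Real.exp_log h0]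
    have h6 : (⌈K₀ * Real.log β⌉₊ : ℝ) * Real.log θ ≤ -(4 * Real.log β) := by
      have h7 : K₀ * Real.log β ≤ ⌈K₀ * Real.log β⌉₊ := Nat.le_ceil _
      have h8 : K₀ * Real.log β * (-Real.log θ) ≤ ⌈K₀ * Real.log β⌉₊ * (-Real.log θ) := by
        gcongr
        linarith
      have h9 : 4 * Real.log β ≤ K₀ * (-Real.log θ) * Real.log β := by
        gcongr
      nlinarith
    rw [h5]
    refine (Real.exp_le_exp.2 h6).trans (le_of_eq ?_)
    have h10 : Real.exp (4 * Real.log β) = b ^ 800 := by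
      have := Real.exp_nat_mul (Real.log β) 4
      push_cast at this
      rw [this, Real.exp_log hβp, hb200, ← pow_mul]
    rw [Real.exp_neg, h10, one_div]
  · rw [Real.exp_log hβp, ← hb200]
  · rw [← hb200]
    refine g4.trans (le_of_eq ?_)
    rw [hb200, ← pow_mul]

end PkgZ

theorem pZ (hZ1 : S_Z1) : S_Z := by
  intro N k L _ hN hk
  obtain ⟨C, θ, D, hC, h0, h1, H⟩ := hZ1 N k L hN hk
  obtain ⟨K, β₀, hK, hβ₀, hpar⟩ := PkgZ.params D hC h0 h1
  refine ⟨1 / 10, K, β₀, by norm_num, hK, hβ₀, fun β hβ hβ1 => ?_⟩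
  obtain ⟨M, b, e1, e2, g1, g2, g3, g4, g5, g6, g7, g8, g9, g10, g11⟩ := hpar β hβ1
  have hM : 0 < M := by omega
  obtain ⟨r1, r2, r3, r4, r5, r6, r7⟩ := PkgZ.core (D := D) (M := M) (T := θ ^ M) hC g2 g3 g4 g5 g6
    g7 g8 (by positivity) g9 g10 g11
  set t := (2 * D + 8 : ℝ) * M ^ 2 * Real.log β / b ^ 200 with ht
  have hβ1' : 1 ≤ β := by linarith
  obtain ⟨H1, H2⟩ := H β hβ hβ1' M hM t (C * M ^ 2 * (θ ^ M + t)) (C * M ^ 8 * (θ ^ M + t)) g7 r1
    rfl rfl r5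
  rw [← e1] at r6 r7
  refine ⟨M, hM, C * M ^ 2 * (θ ^ M + t), (1 / b ^ 30) ^ 32, (1 / b ^ 30) ^ 2, 1 / b ^ 30, g1,
    by positivity, by positivity, r2, le_rfl, le_rfl, r3, ?_, ?_, ?_⟩
  · rw [e2]
    exact r4
  · intro b' η
    exact (H1 b' η).trans r6
  · intro b' Λ hΛ hb' η η' h3 h4 F hF hF1 hdep
    refine (H2 b' Λ hΛ hb' η η' h3 h4 F hF hF1 hdep).trans ?_
    gcongr

end T2H02.TT
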