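import Pool.Agent.T2H02.TT.Stm2

/-!
# Package Z1 : the hypotheses of the coupling theorem on the block lattice
-/

set_option autoImplicit false
set_option linter.unusedSectionVars false
set_option linter.unusedVariables false

noncomputable section

open MeasureTheory Matrix
open scoped Matrix.Norms.Frobenius

namespace T2H02.TT.PkgZ1

open T2H02.TT

/-! ### geometry of the plane -/

lemma mem_Nb (r : ℕ) (a b : Pl) : a ∈ Nb r b ↔ |a.1 - b.1| ≤ r ∧ |a.2 - b.2| ≤ r := by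
  unfold Nb
  rw [Finset.mem_product, Finset.mem_Icc, Finset.mem_Icc, abs_le, abs_le]
  constructor
  · rintro ⟨⟨h1, h2⟩, h3, h4⟩
    exact ⟨⟨by linarith, by linarith⟩, by linarith, by linarith⟩
  · rintro ⟨⟨h1, h2⟩, h3, h4⟩
    exact ⟨⟨by linarith, by linarith⟩, by linarith, by linarith⟩

lemma mem_bal (R : ℕ) (B : Finset Pl) (a : Pl) : a ∈ bal R B ↔ ∃ b ∈ B, a ∈ Nb R b := by
  simp [bal]

lemma mem_pls (U : Finset Pl) (a : Pl) : a ∈ pls U ↔ ∃ b ∈ U, a ∈ Nb 1 b := by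
  simp [pls]

lemma Nb_self (r : ℕ) (a : Pl) : a ∈ Nb r a := by
  rw [mem_Nb]
  simp

lemma Nb_Nb {r s : ℕ} {a b c : Pl} (h1 : a ∈ Nb r b) (h2 : b ∈ Nb s c) : a ∈ Nb (r + s) c := by
  rw [mem_Nb] at *
  obtain ⟨h1, h3⟩ := h1
  obtain ⟨h2, h4⟩ := h2
  push_cast
  constructor
  · calc |a.1 - c.1| = |(a.1 - b.1) + (b.1 - c.1)| := by ring_nf
      _ ≤ |a.1 - b.1| + |b.1 - c.1| := abs_add_le _ _
      _ ≤ r + s := by linarith
  · calc |a.2 - c.2| = |(a.2 - b.2) + (b.2 - c.2)| := by ring_nf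
      _ ≤ |a.2 - b.2| + |b.2 - c.2| := abs_add_le _ _
      _ ≤ r + s := by linarith

lemma Nb_mono {r s : ℕ} (h : r ≤ s) {a b : Pl} (h1 : a ∈ Nb r b) : a ∈ Nb s b := by
  rw [mem_Nb] at *
  have : (r : ℤ) ≤ s := by exact_mod_cast h
  exact ⟨h1.1.trans this, h1.2.trans this⟩

lemma sub_bal (R : ℕ) (B : Finset Pl) : B ⊆ bal R B := fun a ha =>
  (mem_bal R B a).2 ⟨a, ha, Nb_self R a⟩

lemma bal_bal (R R' : ℕ) (B : Finset Pl) : bal R (bal R' B) ⊆ bal (R + R') B := fun a ha => by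
  obtain ⟨b, hb, hab⟩ := (mem_bal _ _ _).1 ha
  obtain ⟨c, hc, hbc⟩ := (mem_bal _ _ _).1 hb
  exact (mem_bal _ _ _).2 ⟨c, hc, Nb_Nb hab hbc⟩

lemma bal_mono {R S : ℕ} (h : R ≤ S) (B : Finset Pl) : bal R B ⊆ bal S B := fun a ha => by
  obtain ⟨b, hb, hab⟩ := (mem_bal _ _ _).1 ha
  exact (mem_bal _ _ _).2 ⟨b, hb, Nb_mono h hab⟩

lemma blk_Nb {M : ℕ} (hM : 0 < M) {a c : Pl} (h : a ∈ Nb M c) : blk M a ∈ Nb 1 (blk M c) := by
  have hM' : (0 : ℤ) < M := by exact_mod_cast hM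
  have key : ∀ u v : ℤ, |u - v| ≤ M → |u / M - v / M| ≤ ((1 : ℕ) : ℤ) := by
    intro u v h
    rw [abs_le] at h ⊢
    have a1 := Int.emod_nonneg u hM'.ne'
    have a2 := Int.emod_lt_of_pos u hM'
    have a3 := Int.emod_add_mul_ediv u M
    have b1 := Int.emod_nonneg v hM'.ne'
    have b2 := Int.emod_lt_of_pos v hM'
    have b3 := Int.emod_add_mul_ediv v M
    push_cast
    constructor
    · by_contra hc
      push Not at hc
      have : u / M - v / M ≤ -2 := by omega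
      nlinarith
    · by_contra hc
      push Not at hc
      have : 2 ≤ u / M - v / M := by omega
      nlinarith
  rw [mem_Nb] at h ⊢
  exact ⟨key _ _ h.1, key _ _ h.2⟩

lemma bal_sit {M : ℕ} (hM : 0 < M) (r : ℕ) (b : Pl) :
    bal M (sit M (Nb r b)) ⊆ sit M (Nb (r + 1) b) := fun a ha => by
  obtain ⟨c, hc, hac⟩ := (mem_bal _ _ _).1 ha
  rw [mem_sit M hM] at hc ⊢
  have := Nb_Nb (blk_Nb hM hac) hc
  rwa [add_comm] at this

lemma bal_sit1 {M : ℕ} (hM : 0 < M) (b : Pl) : bal M (sit M {b}) ⊆ sit M (Nb 1 b) := fun a ha => by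
  obtain ⟨c, hc, hac⟩ := (mem_bal _ _ _).1 ha
  rw [mem_sit M hM] at hc ⊢
  rw [Finset.mem_singleton] at hc
  rw [← hc]
  exact blk_Nb hM hac

lemma sit_mono {M : ℕ} (hM : 0 < M) {Λ Λ' : Finset Pl} (h : Λ ⊆ Λ') : sit M Λ ⊆ sit M Λ' :=
  fun a ha => by
    rw [mem_sit M hM] at ha ⊢
    exact h ha

lemma card_Nb (r : ℕ) (b : Pl) : (Nb r b).card = (2 * r + 1) ^ 2 := by
  unfold Nb
  rw [Finset.card_product, Int.card_Icc, Int.card_Icc]
  have h1 : (b.1 + (r : ℤ) + 1 - (b.1 - r)).toNat = 2 * r + 1 := by omega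
  have h2 : (b.2 + (r : ℤ) + 1 - (b.2 - r)).toNat = 2 * r + 1 := by omega
  rw [h1, h2, sq]

lemma card_sit (M : ℕ) (Λ : Finset Pl) : (sit M Λ).card ≤ Λ.card * M ^ 2 := by
  unfold sit
  refine (Finset.card_biUnion_le).trans ?_
  refine (Finset.sum_le_card_nsmul _ _ (M ^ 2) fun b _ => ?_).trans (by simp)
  rw [Finset.card_product, Int.card_Ico, Int.card_Ico]
  have h1 : ∀ x : ℤ, ((M : ℤ) * x + M - M * x).toNat = M := fun x => by
    have : (M : ℤ) * x + M - M * x = M := by ring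
    rw [this]
    simp
  rw [h1, h1, sq]

lemma cor_ne (τ : Tm) : ∃ a, a ∈ cor τ := by
  refine ⟨τ.1, ?_⟩
  unfold cor
  split_ifs <;> simp

lemma card_sit_Nb {M : ℕ} (r : ℕ) (b : Pl) {B : Finset Pl} (h : B ⊆ sit M (Nb r b)) :
    B.card ≤ (2 * r + 1) ^ 2 * M ^ 2 := by
  refine (Finset.card_le_card h).trans ((card_sit M _).trans ?_)
  rw [card_Nb]

/-! ### indicators -/

lemma ind_true {p : Prop} (h : p) : ind p = 1 := by
  unfold ind
  rw [if_pos h]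

lemma ind_false {p : Prop} (h : ¬ p) : ind p = 0 := by
  unfold ind
  rw [if_neg h]

lemma ind_nonneg (p : Prop) : 0 ≤ ind p := by
  by_cases h : p
  · rw [ind_true h]; norm_num
  · rw [ind_false h]

lemma ind_le (p : Prop) : ind p ≤ 1 := by
  by_cases h : p
  · rw [ind_true h]
  · rw [ind_false h]; norm_num

lemma ind_mono {p q : Prop} (h : p → q) : ind p ≤ ind q := by
  by_cases hp : p
  · rw [ind_true hp, ind_true (h hp)]
  · rw [ind_false hp]; exact ind_nonneg q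

lemma ind_meas {Y : Type} [MeasurableSpace Y] {p : Y → Prop} (h : MeasurableSet {x | p x}) :
    Measurable fun x => ind (p x) := by
  classical
  have : (fun x => ind (p x)) = Set.indicator {x | p x} (fun _ => (1 : ℝ)) := by
    funext x
    by_cases hx : p x
    · rw [ind_true hx, Set.indicator_of_mem (s := {x | p x}) hx]
    · rw [ind_false hx, Set.indicator_of_notMem (s := {x | p x}) hx]
  rw [this]
  exact measurable_const.indicator h

lemma ind_bdd (p : Prop) : |ind p| ≤ 1 := by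
  rw [abs_of_nonneg (ind_nonneg p)]
  exact ind_le p

/-! ### comparison of two kernels through a good event -/

lemma compare (hF5 : S_F5) {ι Tm X : Type} [DecidableEq ι] [DecidableEq Tm] [MeasurableSpace X]
    (S : Sys ι Tm X) (μ : Measure X) [IsProbabilityMeasure μ] (Λ : Finset Pl)
    (G : (ι → X) → ℝ) (hG : Measurable G) (hG0 : ∀ ω, 0 ≤ G ω ∧ G ω ≤ 1)
    (bad : (ι → X) → Prop) (hbad : MeasurableSet {ω | bad ω}) {p δ : ℝ} (hδ : 0 ≤ δ)
    (η η' : ι → X) (h1 : S.ker μ Λ (fun ω => ind (bad ω)) η ≤ p)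
    (h2 : S.ker μ Λ (fun ω => ind (bad ω)) η' ≤ p)
    (h3 : ∀ ξ ξ' : ι → X, ¬ bad (glue (S.Fr Λ) ξ η) → ¬ bad (glue (S.Fr Λ) ξ' η') →
      G (glue (S.Fr Λ) ξ η) ≤ G (glue (S.Fr Λ) ξ' η') + δ) :
    S.ker μ Λ G η ≤ S.ker μ Λ G η' + (2 * p + δ) := by
  obtain ⟨-, hc, hlin, -, -, -, -⟩ := hF5 ι Tm X S μ Λ
  set A : Set ℝ := {x | ∃ ξ : ι → X, ¬ bad (glue (S.Fr Λ) ξ η) ∧ x = G (glue (S.Fr Λ) ξ η)} with hA
  set s : ℝ := sSup A with hs
  have hs0 : 0 ≤ s := Real.sSup_nonneg (by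
    rintro x ⟨ξ, -, rfl⟩
    exact (hG0 _).1)
  have hs1 : s ≤ 1 := Real.sSup_le (by
    rintro x ⟨ξ, -, rfl⟩
    exact (hG0 _).2) zero_le_one
  have hbA : BddAbove A := ⟨1, by
    rintro x ⟨ξ, -, rfl⟩
    exact (hG0 _).2⟩
  have hm := ind_meas hbad
  have hGb : ∃ K, ∀ ω, |G ω| ≤ K := ⟨1, fun ω => by
    rw [abs_of_nonneg (hG0 ω).1]
    exact (hG0 ω).2⟩
  have hib : ∃ K, ∀ ω : ι → X, |ind (bad ω)| ≤ K := ⟨1, fun ω => ind_bdd _⟩
  have hcb : ∀ c : ℝ, ∃ K, ∀ ω : ι → X, |(fun _ : ι → X => c) ω| ≤ K := fun c =>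
    ⟨|c|, fun _ => le_rfl⟩
  -- upper bound
  have hup : S.ker μ Λ G η ≤ s + p := by
    have hsum : Measurable fun ω : ι → X => s + ind (bad ω) := measurable_const.add hm
    have hsb : ∃ K, ∀ ω : ι → X, |s + ind (bad ω)| ≤ K := ⟨|s| + 1, fun ω =>
      (abs_add_le _ _).trans (by have := ind_bdd (bad ω); linarith)⟩
    have a := (hlin G (fun ω => s + ind (bad ω)) hG hGb hsum hsb η).1 (fun ξ => by
      by_cases hb : bad (glue (S.Fr Λ) ξ η)
      · rw [ind_true hb]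
        have := (hG0 (glue (S.Fr Λ) ξ η)).2
        linarith
      · rw [ind_false hb]
        have := le_csSup hbA (show G (glue (S.Fr Λ) ξ η) ∈ A from ⟨ξ, hb, rfl⟩)
        linarith)
    have b := (hlin (fun _ => s) (fun ω => ind (bad ω)) measurable_const (hcb s) hm hib η).2.1
    rw [b, hc] at a
    linarith
  -- lower bound
  have hlo : s ≤ S.ker μ Λ G η' + δ + p := by
    have hgm : Measurable fun ω : ι → X => G ω + δ := hG.add measurable_const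
    have hgb : ∃ K, ∀ ω : ι → X, |G ω + δ| ≤ K := ⟨1 + |δ|, fun ω =>
      (abs_add_le _ _).trans (by
        have := abs_of_nonneg (hG0 ω).1
        have := (hG0 ω).2
        linarith)⟩
    have hsum : Measurable fun ω : ι → X => (G ω + δ) + ind (bad ω) := hgm.add hm
    have hsb : ∃ K, ∀ ω : ι → X, |(G ω + δ) + ind (bad ω)| ≤ K := by
      obtain ⟨K, hK⟩ := hgb
      exact ⟨K + 1, fun ω => (abs_add_le _ _).trans (by
        have := ind_bdd (bad ω)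
        have := hK ω
        linarith)⟩
    have a := (hlin (fun _ => s) (fun ω => (G ω + δ) + ind (bad ω)) measurable_const (hcb s) hsum
      hsb η').1 (fun ξ => by
      by_cases hb : bad (glue (S.Fr Λ) ξ η')
      · rw [ind_true hb]
        have := (hG0 (glue (S.Fr Λ) ξ η')).1
        linarith
      · rw [ind_false hb, add_zero]
        refine Real.sSup_le ?_ (by have := (hG0 (glue (S.Fr Λ) ξ η')).1; linarith)
        rintro x ⟨ξ₀, h₀, rfl⟩
        exact h3 ξ₀ ξ h₀ hb)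
    have b := (hlin (fun ω => G ω + δ) (fun ω => ind (bad ω)) hgm hgb hm hib η').2.1
    have c := (hlin G (fun _ => δ) hG hGb measurable_const (hcb δ) η').2.1
    rw [hc, b, c, hc] at a
    linarith
  linarith

lemma ker_congr {ι Tm X : Type} [DecidableEq ι] [DecidableEq Tm] [MeasurableSpace X]
    (S : Sys ι Tm X) (μ : Measure X) (Λ : Finset Pl) (f g : (ι → X) → ℝ) (η : ι → X)
    (h : ∀ ξ, f (glue (S.Fr Λ) ξ η) = g (glue (S.Fr Λ) ξ η)) :
    S.ker μ Λ f η = S.ker μ Λ g η := by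
  unfold Sys.ker Sys.num
  simp only [h]

lemma ker_cons (hF3 : S_F3) {ι Tm X : Type} [DecidableEq ι] [DecidableEq Tm] [MeasurableSpace X]
    (S : Sys ι Tm X) (μ : Measure X) [IsProbabilityMeasure μ] {Δ Λ : Finset Pl} (hΔ : Δ ⊆ Λ)
    (f : (ι → X) → ℝ) (hf : Measurable f) (hfb : ∃ K, ∀ ω, |f ω| ≤ K) (η : ι → X) :
    S.ker μ Λ f η = S.ker μ Λ (S.ker μ Δ f) η := by
  have := hF3 _ _ _ S μ Δ Λ hΔ f hf hfb (fun _ => 1)
    measurable_const ⟨1, fun _ => by simp⟩ (fun _ _ _ => rfl) η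
  simpa only [one_mul] using this

/-! ### the parameters -/

/-- the rate -/
def th (a b : ℝ) : ℝ := max (Real.sqrt a) (Real.sqrt b)

lemma sqrt_pow_two_mul {a : ℝ} (ha : 0 ≤ a) (n : ℕ) : Real.sqrt a ^ (2 * n) = a ^ n := by
  rw [pow_mul, Real.sq_sqrt ha]

lemma sqrt_lt_one' {a : ℝ} (h1 : a < 1) : Real.sqrt a < 1 := by
  rw [Real.sqrt_lt' one_pos]
  simpa using h1

lemma pow_bound1 {a b : ℝ} (ha : 0 < a) (h1 : a < 1) {M R : ℕ} (h : M ≤ 2 * (R + 3)) :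
    a ^ R ≤ th a b ^ M / a ^ 3 := by
  rw [le_div_iff₀ (by positivity), ← pow_add, ← sqrt_pow_two_mul ha.le]
  have h2 := sqrt_lt_one' h1
  refine (pow_le_pow_of_le_one (Real.sqrt_nonneg _) h2.le h).trans ?_
  exact pow_le_pow_left₀ (Real.sqrt_nonneg _) (le_max_left _ _) _

lemma pow_bound2 {a b : ℝ} (hb : 0 < b) (h1 : b < 1) {M R : ℕ} (h : M ≤ 2 * R + 1) :
    b ^ R ≤ th a b ^ M / Real.sqrt b := by
  rw [le_div_iff₀ (Real.sqrt_pos.2 hb), ← sqrt_pow_two_mul hb.le, ← pow_succ]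
  have h2 := sqrt_lt_one' h1
  refine (pow_le_pow_of_le_one (Real.sqrt_nonneg _) h2.le h).trans ?_
  exact pow_le_pow_left₀ (Real.sqrt_nonneg _) (le_max_right _ _) _

lemma pow_bound3 {a b : ℝ} (ha : 0 < a) (h1 : a < 1) {M : ℕ} (h : 1 ≤ M) :
    a ^ (M - 1) ≤ th a b ^ M / a := by
  rw [le_div_iff₀ ha, ← pow_succ, Nat.sub_add_cancel h]
  refine pow_le_pow_left₀ ha.le (le_trans ?_ (le_max_left _ _)) _
  rw [Real.le_sqrt' ha]
  nlinarith

lemma pow_le_aux {a c : ℝ} (ha : 1 ≤ a) (hac : a ≤ c) {m n : ℕ} (hmn : m ≤ n) : a ^ m ≤ c ^ n :=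
  (pow_le_pow_right₀ ha hmn).trans (pow_le_pow_left₀ (by linarith) hac n)

/-- first constant -/
def K1c (CH tH : ℝ) : ℝ := 9 * CH / tH ^ 3 + 9 * CH + 1 + CH

/-- second constant -/
def K2c (CH tH CM : ℝ) : ℝ := 9 * CM * (9 * K1c CH tH + 1)

/-- third constant -/
def K3c (CH tH CM tM : ℝ) : ℝ :=
  K2c CH tH CM * Real.sqrt (K2c CH tH CM) + K2c CH tH CM / Real.sqrt tM + 1

/-- the constant -/
def Cc (CH tH CM tM : ℝ) : ℝ :=
  25 * CH / tH + K2c CH tH CM * CM + 9 * CM * K3c CH tH CM tM + CH + CM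

section constants

variable {CH tH CM tM : ℝ} (hCH : 1 ≤ CH) (htH : 0 < tH) (hCM : 1 ≤ CM) (htM : 0 < tM)

include hCH htH in
lemma K1_pos : 0 < K1c CH tH := by
  unfold K1c
  have : 0 < CH := by linarith
  positivity

include hCH htH hCM in
lemma K2_pos : 0 < K2c CH tH CM := by
  unfold K2c
  have := K1_pos hCH htH
  positivity

include hCH htH hCM htM in
lemma K3_one : 1 ≤ K3c CH tH CM tM := by
  unfold K3c
  have := K2_pos hCH htH hCM
  have h2 := Real.sqrt_pos.2 htM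
  have h3 : 0 ≤ K2c CH tH CM * Real.sqrt (K2c CH tH CM) := by positivity
  have h4 : 0 ≤ K2c CH tH CM / Real.sqrt tM := by positivity
  linarith

include hCH htH hCM htM in
lemma Cc_ge : CH + 25 * CH / tH ≤ Cc CH tH CM tM ∧ CM ≤ Cc CH tH CM tM ∧
    K2c CH tH CM * CM ≤ Cc CH tH CM tM ∧ 9 * CM * K3c CH tH CM tM ≤ Cc CH tH CM tM := by
  unfold Cc
  have h0 : 0 < CH := by linarith
  have h1 := K2_pos hCH htH hCM
  have h2 := K3_one hCH htH hCM htM
  have a1 : 0 ≤ 25 * CH / tH := by positivity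
  have a2 : 0 ≤ K2c CH tH CM * CM := by positivity
  have a3 : 0 ≤ 9 * CM * K3c CH tH CM tM := by
    have : 0 ≤ K3c CH tH CM tM := by linarith
    positivity
  refine ⟨by linarith, by linarith, by linarith, by linarith⟩

end constants

lemma num1 {CH tH C x t W P c : ℝ} (hCH : 1 ≤ CH) (htH : 0 < tH) (hC : CH + 25 * CH / tH ≤ C)
    (hx : 1 ≤ x) (ht : 0 ≤ t) (hW : 0 ≤ W) (hP : P ≤ W / tH) (hP0 : 0 ≤ P) (hc0 : 0 ≤ c)
    (hc : c ≤ 25 * x ^ 2) : P * CH * c + CH * c * 0 + CH * t ≤ C * x ^ 2 * (W + t) := by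
  have hC0 : 0 < CH := by linarith
  have hx2 : 1 ≤ x ^ 2 := by nlinarith
  have a1 : P * CH * c ≤ W / tH * CH * (25 * x ^ 2) := by gcongr
  have a2 : CH * t ≤ CH * x ^ 2 * (W + t) := by
    have h : t ≤ x ^ 2 * (W + t) := by nlinarith
    nlinarith
  have a3 : W / tH * CH * (25 * x ^ 2) ≤ 25 * CH / tH * x ^ 2 * (W + t) := by
    have h : W / tH * CH * (25 * x ^ 2) = 25 * CH / tH * x ^ 2 * W := by ring
    rw [h]
    gcongr
    linarith
  have a4 : (CH + 25 * CH / tH) * x ^ 2 * (W + t) ≤ C * x ^ 2 * (W + t) := by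
    have : 0 ≤ W + t := by linarith
    gcongr
  nlinarith

lemma num2 {CH tH C x t W P c ε : ℝ} (hCH : 1 ≤ CH) (htH : 0 < tH) (hC : 1 ≤ C)
    (hx : 1 ≤ x) (ht : 0 ≤ t) (hW : 0 ≤ W) (hP : P ≤ W / tH ^ 3) (hP0 : 0 ≤ P) (hc0 : 0 ≤ c)
    (hc : c ≤ 9 * x ^ 2) (hε : ε = C * x ^ 2 * (W + t)) :
    P * CH * c + CH * c * ε + CH * t + ε ≤ K1c CH tH * (C * x ^ 4 * (W + t)) := by
  have hC0 : 0 < CH := by linarith
  have hT : 0 ≤ W + t := by linarith
  have hx2 : 1 ≤ x ^ 2 := by nlinarith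
  have hε0 : 0 ≤ ε := by rw [hε]; positivity
  have y3 : C * x ^ 2 * (W + t) ≤ C * x ^ 4 * (W + t) := by
    have : x ^ 2 ≤ x ^ 4 := by nlinarith
    gcongr
  have y2 : x ^ 2 * (W + t) ≤ C * x ^ 4 * (W + t) := by
    refine le_trans ?_ y3
    have : 0 ≤ x ^ 2 * (W + t) := by positivity
    nlinarith
  have y1 : (W + t) ≤ C * x ^ 4 * (W + t) := by
    refine le_trans ?_ y2
    nlinarith
  have a1 : P * CH * c ≤ 9 * CH / tH ^ 3 * (C * x ^ 4 * (W + t)) := by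
    calc P * CH * c ≤ W / tH ^ 3 * CH * (9 * x ^ 2) := by gcongr
      _ = 9 * CH / tH ^ 3 * (x ^ 2 * W) := by ring
      _ ≤ 9 * CH / tH ^ 3 * (x ^ 2 * (W + t)) := by
          gcongr
          linarith
      _ ≤ 9 * CH / tH ^ 3 * (C * x ^ 4 * (W + t)) := by gcongr
  have a2 : CH * c * ε ≤ 9 * CH * (C * x ^ 4 * (W + t)) := by
    calc CH * c * ε ≤ CH * (9 * x ^ 2) * ε := by gcongr
      _ = 9 * CH * (C * x ^ 4 * (W + t)) := by rw [hε]; ring
  have a3 : CH * t ≤ CH * (C * x ^ 4 * (W + t)) := by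
    have : t ≤ C * x ^ 4 * (W + t) := by linarith
    gcongr
  have a4 : ε ≤ C * x ^ 4 * (W + t) := by rw [hε]; exact y3
  unfold K1c
  linarith

lemma num3 {CH tH CM C x t T e c : ℝ} (hCH : 1 ≤ CH) (htH : 0 < tH) (hCM : 1 ≤ CM) (hC : 1 ≤ C)
    (hx : 1 ≤ x) (hT : 0 ≤ T) (ht : 0 ≤ t) (htT : t ≤ T) (he0 : 0 ≤ e)
    (he : e ≤ K1c CH tH * (C * x ^ 4 * T)) (hc0 : 0 ≤ c) (hc : c ≤ 9 * x ^ 2) :
    CM * c * (c * e + t) ≤ K2c CH tH CM * (C * x ^ 8 * T) := by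
  have hK1 := K1_pos hCH htH
  have hx2 : 1 ≤ x ^ 2 := by nlinarith
  have hx4 : 1 ≤ x ^ 4 := by nlinarith
  have hx6 : 1 ≤ x ^ 6 := by nlinarith
  have y0 : 0 ≤ C * x ^ 6 * T := by positivity
  have y1 : t ≤ C * x ^ 6 * T := by
    have : T ≤ C * x ^ 6 * T := by
      have : 1 ≤ C * x ^ 6 := by nlinarith
      nlinarith
    linarith
  have y2 : c * e ≤ 9 * K1c CH tH * (C * x ^ 6 * T) := by
    calc c * e ≤ (9 * x ^ 2) * (K1c CH tH * (C * x ^ 4 * T)) := by gcongr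
      _ = 9 * K1c CH tH * (C * x ^ 6 * T) := by ring
  calc CM * c * (c * e + t) ≤ CM * (9 * x ^ 2) * (9 * K1c CH tH * (C * x ^ 6 * T) +
        C * x ^ 6 * T) := by gcongr
    _ = K2c CH tH CM * (C * x ^ 8 * T) := by unfold K2c; ring

lemma num4 {CM K2 K3 sM C β x r r' W Q c : ℝ} (hCM : 1 ≤ CM) (hK2 : 0 < K2) (hsM : 0 < sM)
    (hK3 : K3 = K2 * Real.sqrt K2 + K2 / sM + 1) (hC : 9 * CM * K3 ≤ C) (hCC : CM ≤ C)
    (hβ : 0 ≤ β) (hr0 : 0 ≤ r) (hr'0 : 0 ≤ r') (hr : r' ≤ K2 * r) (hW : 0 ≤ W) (hQ0 : 0 ≤ Q)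
    (hQ : Q ≤ W / sM) (hc0 : 0 ≤ c) (hc : c ≤ 9 * x ^ 2) :
    CM * c * (β * (r' * Real.sqrt r' + Q * r') + Real.exp (-β / CM)) ≤
      C * x ^ 2 * (β * (r * Real.sqrt r + W * r) + Real.exp (-β / C)) := by
  have hC0 : 0 < C := by linarith
  have a1 : r' * Real.sqrt r' ≤ K2 * Real.sqrt K2 * (r * Real.sqrt r) := by
    calc r' * Real.sqrt r' ≤ (K2 * r) * Real.sqrt (K2 * r) := by
          gcongr
      _ = K2 * Real.sqrt K2 * (r * Real.sqrt r) := by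
          rw [Real.sqrt_mul hK2.le]
          ring
  have a2 : Q * r' ≤ K2 / sM * (W * r) := by
    calc Q * r' ≤ W / sM * (K2 * r) := by gcongr
      _ = K2 / sM * (W * r) := by ring
  have a3 : Real.exp (-β / CM) ≤ Real.exp (-β / C) := by
    rw [Real.exp_le_exp, neg_div, neg_div, neg_le_neg_iff]
    gcongr
  have k1 : 0 ≤ K2 * Real.sqrt K2 := by positivity
  have k2 : 0 ≤ K2 / sM := by positivity
  have k3 : 1 ≤ K3 := by rw [hK3]; linarith
  have z1 : 0 ≤ r * Real.sqrt r := by positivity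
  have z2 : 0 ≤ W * r := by positivity
  have z3 := Real.exp_pos (-β / C)
  have a4 : r' * Real.sqrt r' + Q * r' ≤ K3 * (r * Real.sqrt r + W * r) := by
    have b1 : K2 * Real.sqrt K2 * (r * Real.sqrt r) ≤ K3 * (r * Real.sqrt r) := by
      have : K2 * Real.sqrt K2 ≤ K3 := by rw [hK3]; linarith
      gcongr
    have b2 : K2 / sM * (W * r) ≤ K3 * (W * r) := by
      have : K2 / sM ≤ K3 := by rw [hK3]; linarith
      gcongr
    calc r' * Real.sqrt r' + Q * r' ≤ K3 * (r * Real.sqrt r) + K3 * (W * r) := by linarith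
      _ = K3 * (r * Real.sqrt r + W * r) := by ring
  have a5 : β * (r' * Real.sqrt r' + Q * r') + Real.exp (-β / CM) ≤
      K3 * (β * (r * Real.sqrt r + W * r) + Real.exp (-β / C)) := by
    have b1 : β * (r' * Real.sqrt r' + Q * r') ≤ β * (K3 * (r * Real.sqrt r + W * r)) := by gcongr
    have b2 : Real.exp (-β / C) ≤ K3 * Real.exp (-β / C) := by nlinarith
    calc β * (r' * Real.sqrt r' + Q * r') + Real.exp (-β / CM) ≤
          β * (K3 * (r * Real.sqrt r + W * r)) + K3 * Real.exp (-β / C) := by linarith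
      _ = K3 * (β * (r * Real.sqrt r + W * r) + Real.exp (-β / C)) := by ring
  have z4 : 0 ≤ β * (r * Real.sqrt r + W * r) + Real.exp (-β / C) := by positivity
  calc CM * c * (β * (r' * Real.sqrt r' + Q * r') + Real.exp (-β / CM))
      ≤ CM * (9 * x ^ 2) * (K3 * (β * (r * Real.sqrt r + W * r) + Real.exp (-β / C))) := by
        gcongr
    _ = 9 * CM * K3 * (x ^ 2 * (β * (r * Real.sqrt r + W * r) + Real.exp (-β / C))) := by ring
    _ ≤ C * (x ^ 2 * (β * (r * Real.sqrt r + W * r) + Real.exp (-β / C))) := by gcongr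
    _ = C * x ^ 2 * (β * (r * Real.sqrt r + W * r) + Real.exp (-β / C)) := by ring

/-! ### the two properties -/

section main

variable {N L : ℕ} [NeZero L]

lemma st_sub_cor {τ : Tm} {l : Lk L} (hl : l ∈ (spt τ : Finset (Lk L))) {a : Pl}
    (ha : a ∈ st l) : a ∈ cor τ := (cor_iff τ a).2 ⟨l, hl, ha⟩

lemma en_meas (hN : 0 < N) (k : ℕ) (τ : Tm) : Measurable fun X : Cf N L => en k X τ :=
  (en_cont k τ hN).measurable

lemma sum_en_meas (hN : 0 < N) (k : ℕ) (T : Finset Tm) :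
    Measurable fun X : Cf N L => ∑ τ ∈ T, en k X τ :=
  Finset.measurable_sum _ fun τ _ => en_meas hN k τ

lemma thr_meas (hN : 0 < N) (k : ℕ) (T : Finset Tm) (c : ℝ) :
    MeasurableSet {X : Cf N L | c ≤ ∑ τ ∈ T, en k X τ} :=
  measurableSet_le measurable_const (sum_en_meas hN k T)

lemma bad_meas (hN : 0 < N) (k : ℕ) {S : Sys (Lk L) Tm (SU N)} (ε : ℝ) (b : Pl) :
    MeasurableSet {X : Cf N L | Bad S (fun τ X => en k X τ ≤ ε) b X} := by
  have h : {X : Cf N L | Bad S (fun τ X => en k X τ ≤ ε) b X} =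
      ⋃ τ ∈ S.tms (Nb 1 b), {X : Cf N L | (∀ a ∈ S.bt τ, a ∈ Nb 1 b) ∧ ¬ en k X τ ≤ ε} := by
    ext X
    simp only [Bad, Set.mem_ofPred_eq, Set.mem_iUnion, exists_prop]
  rw [h]
  refine Finset.measurableSet_biUnion _ fun τ _ => ?_
  by_cases hh : ∀ a ∈ S.bt τ, a ∈ Nb 1 b
  · have : {X : Cf N L | (∀ a ∈ S.bt τ, a ∈ Nb 1 b) ∧ ¬ en k X τ ≤ ε} =
        {X : Cf N L | en k X τ ≤ ε}ᶜ := by
      ext X
      simp only [Set.mem_ofPred_eq, Set.mem_compl_iff]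
      exact ⟨fun h => h.2, fun h => ⟨hh, h⟩⟩
    rw [this]
    exact (measurableSet_le (en_meas hN k τ) measurable_const).compl
  · have : {X : Cf N L | (∀ a ∈ S.bt τ, a ∈ Nb 1 b) ∧ ¬ en k X τ ≤ ε} = ∅ := by
      ext X
      simp only [Set.mem_ofPred_eq, Set.mem_empty_iff_false, iff_false]
      exact fun h => hh h.1
    rw [this]
    exact MeasurableSet.empty

/-- first part: bad squares are rare -/
theorem part1 (hF5 : S_F5) {k : ℕ} (hN : 2 ≤ N) {CH tH : ℝ} {DH : ℕ} (hCH : 1 ≤ CH) (htH : 0 < tH)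
    (htH1 : tH < 1) {β : ℝ} (hβ : 0 ≤ β) (hβ1 : 1 ≤ β)
    (hH : ∀ (Λ B : Finset Pl) (R : ℕ) (e t : ℝ), 0 ≤ e → 0 ≤ t → ∀ η : Cf N L,
      (∀ τ : Tm, (∀ a ∈ cor τ, a ∈ bal (R + 1) B ∧ a ∉ Λ) → en k η τ ≤ e) →
      (sysS N L k β hN hβ).ker (hm N) Λ (fun X =>
        ind (tH ^ R * CH * (bal (R + 1) B).card + CH * (bal (R + 1) B).card * e + CH * t ≤
          ∑ τ ∈ tml (B ∩ Λ), en k X τ)) η ≤
        (R + 1) * (Real.exp (-β * t) * (CH * β) ^ (DH * (bal (R + 1) B).card)))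
    {C θ : ℝ} {D : ℕ} (hC : CH + 25 * CH / tH ≤ C) {tM : ℝ} (hθ : θ = th tH tM) (hD : 25 * DH ≤ D)
    (M : ℕ) (hM : 0 < M) (t : ℝ) (ht : 0 ≤ t) (b : Pl) (η : Cf N L) :
    (coa (sysS N L k β hN hβ) M hM).ker (hm N) (Nb 2 b)
      (fun ω => ind (Bad (coa (sysS N L k β hN hβ) M hM)
        (fun τ X => en k X τ ≤ C * M ^ 2 * (θ ^ M + t)) b ω)) η ≤
        M * (Real.exp (-β * t) * (C * β) ^ (D * M ^ 2)) := by
  rw [coa_ker]
  set S := sysS N L k β hN hβ with hS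
  set B : Finset Pl := sit M (Nb 1 b) with hB
  set Λ : Finset Pl := sit M (Nb 2 b) with hΛ
  have hBΛ : B ⊆ Λ := sit_mono hM fun a ha => Nb_mono (by norm_num) ha
  have hM1 : M - 1 + 1 = M := Nat.sub_add_cancel hM
  have hbal : bal M B ⊆ Λ := bal_sit hM 1 b
  have hcard : (bal M B).card ≤ 25 * M ^ 2 := by
    have := card_sit_Nb 2 b hbal
    norm_num at this
    exact this
  have hx : (1 : ℝ) ≤ M := by exact_mod_cast hM
  have hcard' : ((bal M B).card : ℝ) ≤ 25 * (M : ℝ) ^ 2 := by exact_mod_cast hcard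
  have hθ0 : 0 ≤ θ := by
    rw [hθ]
    exact (Real.sqrt_nonneg _).trans (le_max_left _ _)
  have hHb := hH Λ B (M - 1) 0 t le_rfl ht η (fun τ hτ => by
    obtain ⟨a, ha⟩ := cor_ne τ
    rw [hM1] at hτ
    exact absurd (hbal (hτ a ha).1) (hτ a ha).2)
  rw [hM1] at hHb
  obtain ⟨-, -, hlin, -, -, -, -⟩ := hF5 _ _ _ S (hm N) Λ
  have hthr := thr_meas (L := L) (show 0 < N by omega) k (tml (B ∩ Λ))
    (tH ^ (M - 1) * CH * (bal M B).card + CH * (bal M B).card * 0 + CH * t)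
  have hbm := bad_meas (L := L) (show 0 < N by omega) k (S := coa S M hM)
    (C * M ^ 2 * (θ ^ M + t)) b
  have hmono := (hlin _ _ (ind_meas hbm) ⟨1, fun ω => ind_bdd _⟩ (ind_meas hthr)
    ⟨1, fun ω => ind_bdd _⟩ η).1 (fun ξ => ind_mono (fun hbad => by
      obtain ⟨τ, hτ, hcor, hgt⟩ := hbad
      have hτ' : τ ∈ tml (B ∩ Λ) := by
        rw [Finset.inter_eq_left.2 hBΛ]
        exact hτ
      have h1 : tH ^ (M - 1) * CH * (bal M B).card + CH * (bal M B).card * 0 + CH * t ≤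
          C * M ^ 2 * (θ ^ M + t) := by
        refine num1 hCH htH hC hx ht (pow_nonneg hθ0 _) ?_ (by positivity) (by positivity) hcard'
        rw [hθ]
        exact pow_bound3 htH htH1 hM
      refine h1.trans ((not_le.1 hgt).le.trans ?_)
      exact Finset.single_le_sum (f := fun τ => en k (glue (S.Fr Λ) ξ η) τ)
        (fun τ _ => en_nonneg _ _ _) hτ'))
  refine hmono.trans (hHb.trans ?_)
  have hcast : (((M - 1 : ℕ) : ℝ) + 1) = M := by exact_mod_cast hM1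
  rw [hcast]
  have hCHβ : 1 ≤ CH * β := by nlinarith
  have hCC : CH ≤ C := by
    have : 0 ≤ 25 * CH / tH := by
      have : 0 < CH := by linarith
      positivity
    linarith
  have hpow : (CH * β) ^ (DH * (bal M B).card) ≤ (C * β) ^ (D * M ^ 2) := by
    refine pow_le_aux hCHβ (by gcongr) ?_
    calc DH * (bal M B).card ≤ DH * (25 * M ^ 2) := Nat.mul_le_mul_left _ hcard
      _ = 25 * DH * M ^ 2 := by ring
      _ ≤ D * M ^ 2 := Nat.mul_le_mul_right _ hD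
  have he := Real.exp_pos (-β * t)
  gcongr

/-- replace the variables inside `Nb 2 b` off `Λ` by those of `η` -/
def md (M : ℕ) (b : Pl) (Λ : Finset Pl) (η X : Cf N L) : Cf N L := fun l =>
  if ∀ a ∈ st l, blk M a ∈ Nb 2 b ∧ blk M a ∉ Λ then η l else X l

lemma md_meas (M : ℕ) (b : Pl) (Λ : Finset Pl) (η : Cf N L) :
    Measurable fun X : Cf N L => md M b Λ η X := by
  rw [measurable_pi_iff]
  intro l
  unfold md
  split_ifs with h
  · exact measurable_const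
  · exact measurable_pi_apply l

lemma md_dep {M : ℕ} (hM : 0 < M) {R : ℕ} (hR : 1 ≤ R) {b : Pl} {Λ : Finset Pl} (η : Cf N L)
    {F : Cf N L → ℝ}
    (hF : Sys.dep {i : Lk L | ∀ a ∈ st i, (blk M a ∈ Nb 2 b ∧ blk M a ∉ Λ) ∨ blk M a = b} F) :
    Sys.dep {l : Lk L | ∀ a ∈ st l, (a ∈ bal R (sit M {b}) ∧ a ∉ sit M Λ ∩ bal R (sit M {b})) ∨
      a ∈ sit M {b}} (fun X => F (md M b Λ η X)) := by
  intro ω ω' h
  refine hF _ _ fun i hi => ?_
  unfold md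
  split_ifs with h0
  · rfl
  · refine h i ?_
    push Not at h0
    obtain ⟨a₀, ha₀, hb₀⟩ := h0
    have hb0 : blk M a₀ = b := by
      rcases hi a₀ ha₀ with h1 | h1
      · exact absurd (hb₀ h1.1) h1.2
      · exact h1
    have ha0 : a₀ ∈ sit M {b} := by
      rw [mem_sit M hM, Finset.mem_singleton]
      exact hb0
    intro a ha
    rcases hi a ha with h1 | h1
    · left
      have hn : a ∈ Nb 1 a₀ := by
        rw [mem_Nb]
        exact diam_st i a ha a₀ ha₀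
      refine ⟨(mem_bal _ _ _).2 ⟨a₀, ha0, Nb_mono hR hn⟩, fun hc => ?_⟩
      have := (Finset.mem_inter.1 hc).1
      rw [mem_sit M hM] at this
      exact h1.2 this
    · right
      rw [mem_sit M hM, Finset.mem_singleton]
      exact h1

/-- agreement off the free links -/
def agr (Λ : Finset Pl) (X η : Cf N L) : Prop := ∀ l, l ∉ Frl L Λ → X l = η l

lemma agr_glue (Λ : Finset Pl) (ξ η : Cf N L) : agr Λ (glue (Frl L Λ) ξ η) η := fun l hl => by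
  unfold glue
  rw [if_neg hl]

lemma not_Frl {Λ : Finset Pl} {l : Lk L} (h : ∀ a ∈ st l, a ∉ Λ) : l ∉ Frl L Λ := fun hl => by
  obtain ⟨a, ha, haΛ⟩ := (mem_Frl Λ l).1 hl
  exact h a ha haΛ

lemma en_agr {k : ℕ} {Λ : Finset Pl} {X η : Cf N L} (h : agr Λ X η) {τ : Tm}
    (hτ : ∀ a ∈ cor τ, a ∉ Λ) : en k X τ = en k η τ :=
  en_loc k τ X η fun l hl => h l (not_Frl fun a ha => hτ a (st_sub_cor hl ha))

/-- second part: insensitivity -/
theorem part2 (hF3 : S_F3) (hF5 : S_F5) {k : ℕ} (hN : 2 ≤ N) {CH tH CM tM : ℝ} {DH DM : ℕ}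
    (hCH : 1 ≤ CH) (htH : 0 < tH) (htH1 : tH < 1) (hCM : 1 ≤ CM) (htM : 0 < tM) (htM1 : tM < 1)
    {β : ℝ} (hβ : 0 ≤ β) (hβ1 : 1 ≤ β)
    (hH : ∀ (Λ B : Finset Pl) (R : ℕ) (e t : ℝ), 0 ≤ e → 0 ≤ t → ∀ η : Cf N L,
      (∀ τ : Tm, (∀ a ∈ cor τ, a ∈ bal (R + 1) B ∧ a ∉ Λ) → en k η τ ≤ e) →
      (sysS N L k β hN hβ).ker (hm N) Λ (fun X =>
        ind (tH ^ R * CH * (bal (R + 1) B).card + CH * (bal (R + 1) B).card * e + CH * t ≤
          ∑ τ ∈ tml (B ∩ Λ), en k X τ)) η ≤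
        (R + 1) * (Real.exp (-β * t) * (CH * β) ^ (DH * (bal (R + 1) B).card)))
    (hMM : ∀ (Λ B : Finset Pl) (R : ℕ) (e t r : ℝ), 0 ≤ e → 0 ≤ t → B ⊆ Λ → Λ ⊆ bal R B →
      r = CM * Λ.card * (Λ.card * e + t) → r ≤ 1 / CM →
      ∀ η η' : Cf N L, (∀ l, l ∉ Frl L Λ → (∀ a ∈ st l, a ∈ bal R B) → η l = η' l) →
      (∀ τ ∈ rng Λ, en k η τ ≤ e ∧ en k η' τ ≤ e) →
      ∀ F : Cf N L → ℝ, Measurable F → (∀ X, 0 ≤ F X ∧ F X ≤ 1) →
      Sys.dep {l | ∀ a ∈ st l, (a ∈ bal R B ∧ a ∉ Λ) ∨ a ∈ B} F →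
      (sysS N L k β hN hβ).ker (hm N) Λ F η ≤ (sysS N L k β hN hβ).ker (hm N) Λ F η' +
        CM * Λ.card * (β * (r * Real.sqrt r + tM ^ R * r) + Real.exp (-β / CM)) +
        2 * (Real.exp (-β * t) * (CM * β) ^ (DM * Λ.card)))
    {C θ : ℝ} {D : ℕ} (hC : C = Cc CH tH CM tM) (hθ : θ = th tH tM) (hD : D = 25 * (DH + DM))
    (M : ℕ) (hM : 0 < M) (h8 : 8 ≤ M) (t ε r : ℝ) (ht : 0 ≤ t)
    (hε : ε = C * M ^ 2 * (θ ^ M + t)) (hr : r = C * M ^ 8 * (θ ^ M + t)) (hr1 : r ≤ 1 / C)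
    (b : Pl) (Λ : Finset Pl) (hΛ : Λ ⊆ Nb 2 b) (hb : b ∈ Λ) (η η' : Cf N L)
    (hag : ∀ i : Lk L, (∀ a ∈ st i, blk M a ∈ Nb 2 b ∧ blk M a ∉ Λ) → η i = η' i)
    (hgd : ∀ τ ∈ tml (sit M (Nb 1 b)), (∀ a ∈ cor τ, blk M a ∈ Nb 1 b ∧ blk M a ∉ Λ) →
      en k η τ ≤ ε)
    (F : Cf N L → ℝ) (hF : Measurable F) (hF1 : ∀ ω, 0 ≤ F ω ∧ F ω ≤ 1)
    (hFd : Sys.dep {i : Lk L | ∀ a ∈ st i, (blk M a ∈ Nb 2 b ∧ blk M a ∉ Λ) ∨ blk M a = b} F) :
    (sysS N L k β hN hβ).ker (hm N) (sit M Λ) F η ≤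
      (sysS N L k β hN hβ).ker (hm N) (sit M Λ) F η' +
        (C * M ^ 2 * (β * (r * Real.sqrt r + θ ^ M * r) + Real.exp (-β / C)) +
          4 * M * (Real.exp (-β * t) * (C * β) ^ (D * M ^ 2))) := by
  obtain ⟨hC1, hC2, hC3, hC4⟩ := Cc_ge hCH htH hCM htM
  rw [← hC] at hC1 hC2 hC3 hC4
  have hK2 := K2_pos hCH htH hCM
  set S := sysS N L k β hN hβ with hS
  set Λs : Finset Pl := sit M Λ with hΛs
  set B : Finset Pl := sit M {b} with hB
  set R₁ : ℕ := M / 2 with hR₁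
  set R : ℕ := M - R₁ - 3 with hR
  set Λ2 : Finset Pl := Λs ∩ bal R₁ B with hΛ2
  set B' : Finset Pl := bal (R₁ + 2) B with hB'
  have hR1' : 1 ≤ R₁ := by omega
  have hRR : R + 1 + (R₁ + 2) = M := by omega
  have hBΛ : B ⊆ Λs := sit_mono hM (Finset.singleton_subset_iff.2 hb)
  have hbalM : bal M B ⊆ sit M (Nb 1 b) := bal_sit1 hM b
  have hbal' : bal (R + 1) B' ⊆ sit M (Nb 1 b) := by
    refine (bal_bal _ _ _).trans ?_
    rw [hRR]
    exact hbalM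
  have hx : (1 : ℝ) ≤ M := by exact_mod_cast hM
  have hθ0 : 0 ≤ θ := by
    rw [hθ]
    exact (Real.sqrt_nonneg _).trans (le_max_left _ _)
  have hW : 0 ≤ θ ^ M := pow_nonneg hθ0 _
  have hC0 : 1 ≤ C := hCM.trans hC2
  have hε0 : 0 ≤ ε := by rw [hε]; positivity
  have hc9 : (bal (R + 1) B').card ≤ 9 * M ^ 2 := by
    have := card_sit_Nb 1 b hbal'
    norm_num at this
    exact this
  have hc9' : ((bal (R + 1) B').card : ℝ) ≤ 9 * (M : ℝ) ^ 2 := by exact_mod_cast hc9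
  have hL2 : Λ2 ⊆ sit M (Nb 1 b) :=
    Finset.inter_subset_right.trans ((bal_mono (by omega) B).trans hbalM)
  have hc2 : Λ2.card ≤ 9 * M ^ 2 := by
    have := card_sit_Nb 1 b hL2
    norm_num at this
    exact this
  have hc2' : (Λ2.card : ℝ) ≤ 9 * (M : ℝ) ^ 2 := by exact_mod_cast hc2
  -- the modified function
  set F' : Cf N L → ℝ := fun X => F (md M b Λ η X) with hF'
  have hF'm : Measurable F' := hF.comp (md_meas M b Λ η)
  have hF'1 : ∀ ω, 0 ≤ F' ω ∧ F' ω ≤ 1 := fun ω => hF1 _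
  have hF'b : ∃ K, ∀ ω, |F' ω| ≤ K := ⟨1, fun ω => by
    rw [abs_of_nonneg (hF'1 ω).1]
    exact (hF'1 ω).2⟩
  have hmod : ∀ X : Cf N L, agr Λs X η ∨ agr Λs X η' → F' X = F X := by
    intro X hX
    change F (md M b Λ η X) = F X
    congr 1
    funext l
    unfold md
    split_ifs with h0
    · have hl : l ∉ Frl L Λs := not_Frl fun a ha hc => by
        rw [hΛs, mem_sit M hM] at hc
        exact (h0 a ha).2 hc
      rcases hX with h1 | h1
      · exact (h1 l hl).symm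
      · rw [hag l h0]
        exact (h1 l hl).symm
    · rfl
  have hk1 : S.ker (hm N) Λs F η = S.ker (hm N) Λs F' η :=
    ker_congr _ _ _ _ _ _ fun ξ => (hmod _ (Or.inl (agr_glue Λs ξ η))).symm
  have hk2 : S.ker (hm N) Λs F η' = S.ker (hm N) Λs F' η' :=
    ker_congr _ _ _ _ _ _ fun ξ => (hmod _ (Or.inr (agr_glue Λs ξ η'))).symm
  -- consistency
  set G : Cf N L → ℝ := S.ker (hm N) Λ2 F' with hG
  have hcons : ∀ ζ : Cf N L, S.ker (hm N) Λs F' ζ = S.ker (hm N) Λs G ζ := fun ζ =>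
    ker_cons hF3 S (hm N) Finset.inter_subset_left F' hF'm hF'b ζ
  obtain ⟨-, hc0, hlin2, hmeas2, -, -, -⟩ := hF5 _ _ _ S (hm N) Λ2
  have hGm : Measurable G := hmeas2 F' hF'm hF'b
  have hG1 : ∀ ω, 0 ≤ G ω ∧ G ω ≤ 1 := fun ω => by
    constructor
    · have := (hlin2 (fun _ => 0) F' measurable_const ⟨0, fun _ => by simp⟩ hF'm hF'b ω).1
        (fun ξ => (hF'1 _).1)
      rwa [hc0] at this
    · have := (hlin2 F' (fun _ => 1) hF'm hF'b measurable_const ⟨1, fun _ => by simp⟩ ω).1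
        (fun ξ => (hF'1 _).2)
      rwa [hc0] at this
  -- the bad event
  set T : Finset Tm := tml (B' ∩ Λs) with hT
  set thr : ℝ := tH ^ R * CH * (bal (R + 1) B').card + CH * (bal (R + 1) B').card * ε + CH * t
    with hthr
  have hbad := thr_meas (L := L) (show 0 < N by omega) k T thr
  set e₁ : ℝ := thr + ε with he₁
  have hthr0 : 0 ≤ thr := by
    have : 0 < CH := by linarith
    positivity
  have he₁0 : 0 ≤ e₁ := by linarith
  have he₁b : e₁ ≤ K1c CH tH * (C * M ^ 4 * (θ ^ M + t)) :=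
    num2 hCH htH hC0 hx ht hW (by rw [hθ]; exact pow_bound1 htH htH1 (by omega)) (by positivity)
      (by positivity) hc9' hε
  set p₁ : ℝ := M * (Real.exp (-β * t) * (C * β) ^ (D * M ^ 2)) with hp₁
  have hE0 := Real.exp_pos (-β * t)
  have hCCH : CH ≤ C := by
    have : 0 ≤ 25 * CH / tH := by
      have : 0 < CH := by linarith
      positivity
    linarith
  have hp : ∀ ζ : Cf N L, (∀ τ : Tm, (∀ a ∈ cor τ, a ∈ bal (R + 1) B' ∧ a ∉ Λs) → en k ζ τ ≤ ε) →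
      S.ker (hm N) Λs (fun X => ind (thr ≤ ∑ τ ∈ T, en k X τ)) ζ ≤ p₁ := by
    intro ζ hζ
    refine (hH Λs B' R ε t hε0 ht ζ hζ).trans ?_
    have hR' : ((R : ℝ) + 1) ≤ M := by
      have : R + 1 ≤ M := by omega
      exact_mod_cast this
    have hpow : (CH * β) ^ (DH * (bal (R + 1) B').card) ≤ (C * β) ^ (D * M ^ 2) := by
      refine pow_le_aux (one_le_mul_of_one_le_of_one_le hCH hβ1) (by gcongr) ?_
      calc DH * (bal (R + 1) B').card ≤ DH * (9 * M ^ 2) := Nat.mul_le_mul_left _ hc9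
        _ = 9 * DH * M ^ 2 := by ring
        _ ≤ D * M ^ 2 := Nat.mul_le_mul_right _ (by omega)
    have : 0 ≤ (CH * β) ^ (DH * (bal (R + 1) B').card) := by
      have : 0 < CH := by linarith
      positivity
    rw [hp₁]
    gcongr
  have hfix : ∀ τ : Tm, (∀ a ∈ cor τ, a ∈ sit M (Nb 1 b) ∧ a ∉ Λs) →
      en k η τ ≤ ε ∧ en k η' τ ≤ ε := by
    intro τ hτ
    have h1 : en k η τ ≤ ε := by
      obtain ⟨a, ha⟩ := cor_ne τ
      refine hgd τ ((mem_tml _ _).2 ⟨a, ha, (hτ a ha).1⟩) fun a ha => ⟨?_, fun hc => ?_⟩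
      · exact (mem_sit M hM _ _).1 (hτ a ha).1
      · exact (hτ a ha).2 ((mem_sit M hM _ _).2 hc)
    refine ⟨h1, ?_⟩
    have h2 : en k η τ = en k η' τ := en_loc k τ η η' fun l hl => hag l fun a ha => by
      have h3 := hτ a (st_sub_cor hl ha)
      exact ⟨Nb_mono (by norm_num) ((mem_sit M hM _ _).1 h3.1),
        fun hc => h3.2 ((mem_sit M hM _ _).2 hc)⟩
    rw [← h2]
    exact h1
  have hp1 := hp η fun τ hτ => (hfix τ fun a ha => ⟨hbal' (hτ a ha).1, (hτ a ha).2⟩).1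
  have hp2 := hp η' fun τ hτ => (hfix τ fun a ha => ⟨hbal' (hτ a ha).1, (hτ a ha).2⟩).2
  -- energies around `Λ2`
  have hrng : ∀ X : Cf N L, (agr Λs X η ∨ agr Λs X η') → ¬ (thr ≤ ∑ τ ∈ T, en k X τ) →
      ∀ τ ∈ rng Λ2, en k X τ ≤ e₁ := by
    intro X hX hnb τ hτ
    rw [rng, Finset.mem_filter] at hτ
    obtain ⟨-, hτ⟩ := hτ
    have hsub : ∀ a ∈ cor τ, a ∈ bal (R₁ + 1) B := fun a ha => by
      obtain ⟨c, hc, hac⟩ := (mem_pls _ _).1 (hτ a ha).1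
      obtain ⟨d, hd, hcd⟩ := (mem_bal _ _ _).1 (Finset.mem_inter.1 hc).2
      have := Nb_Nb hac hcd
      rw [add_comm] at this
      exact (mem_bal _ _ _).2 ⟨d, hd, this⟩
    by_cases htouch : ∃ a ∈ cor τ, a ∈ Λs
    · obtain ⟨a, ha, haΛ⟩ := htouch
      have h1 : τ ∈ T := (mem_tml _ _).2 ⟨a, ha, Finset.mem_inter.2
        ⟨bal_mono (by omega) B (hsub a ha), haΛ⟩⟩
      have h2 := Finset.single_le_sum (f := fun τ => en k X τ) (fun τ _ => en_nonneg _ _ _) h1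
      have h3 := not_le.1 hnb
      linarith
    · push Not at htouch
      have h1 : ∀ a ∈ cor τ, a ∈ sit M (Nb 1 b) ∧ a ∉ Λs := fun a ha =>
        ⟨hbalM (bal_mono (by omega) B (hsub a ha)), htouch a ha⟩
      have h2 := hfix τ h1
      rcases hX with h3 | h3
      · rw [en_agr h3 htouch]
        linarith [h2.1]
      · rw [en_agr h3 htouch]
        linarith [h2.2]
  -- the comparison inside
  set r' : ℝ := CM * Λ2.card * (Λ2.card * e₁ + t) with hr'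
  have hr'0 : 0 ≤ r' := by
    have : 0 < CM := by linarith
    positivity
  have hr0 : 0 ≤ r := by rw [hr]; positivity
  have hr'r : r' ≤ K2c CH tH CM * r := by
    rw [hr]
    exact num3 hCH htH hCM hC0 hx (by linarith) ht (by linarith) he₁0 he₁b (by positivity) hc2'
  have hr'1 : r' ≤ 1 / CM := by
    have h0 : 0 < CM := by linarith
    have h1 : 0 < C := by linarith
    refine hr'r.trans ?_
    calc K2c CH tH CM * r ≤ K2c CH tH CM * (1 / C) := by gcongr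
      _ = K2c CH tH CM / C := by ring
      _ ≤ 1 / CM := by
          rw [div_le_div_iff₀ h1 h0]
          linarith
  set δ' : ℝ := CM * Λ2.card * (β * (r' * Real.sqrt r' + tM ^ R₁ * r') + Real.exp (-β / CM)) +
        2 * (Real.exp (-β * t) * (CM * β) ^ (DM * Λ2.card)) with hδ'
  have hδ'0 : 0 ≤ δ' := by
    have h0 : 0 < CM := by linarith
    positivity
  have hBΛ2 : B ⊆ Λ2 := Finset.subset_inter hBΛ (sub_bal _ _)
  have hloc : ∀ l : Lk L, l ∉ Frl L Λ2 → (∀ a ∈ st l, a ∈ bal R₁ B) →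
      (l ∉ Frl L Λs ∧ η l = η' l) := by
    intro l hl hl2
    have h1 : ∀ a ∈ st l, a ∉ Λs := fun a ha hc =>
      hl ((mem_Frl _ _).2 ⟨a, ha, Finset.mem_inter.2 ⟨hc, hl2 a ha⟩⟩)
    refine ⟨not_Frl h1, hag l fun a ha => ⟨?_, fun hc => ?_⟩⟩
    · refine Nb_mono (r := 1) (by norm_num) ((mem_sit M hM _ _).1 (hbalM ?_))
      exact bal_mono (by omega) B (hl2 a ha)
    · exact h1 a ha ((mem_sit M hM _ _).2 hc)
  have hFd' := md_dep hM hR1' η hFd
  have hcmp : ∀ ξ ξ' : Cf N L, ¬ (thr ≤ ∑ τ ∈ T, en k (glue (S.Fr Λs) ξ η) τ) →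
      ¬ (thr ≤ ∑ τ ∈ T, en k (glue (S.Fr Λs) ξ' η') τ) →
      G (glue (S.Fr Λs) ξ η) ≤ G (glue (S.Fr Λs) ξ' η') + δ' := by
    intro ξ ξ' h1 h2
    have := hMM Λ2 B R₁ e₁ t r' he₁0 ht hBΛ2 Finset.inter_subset_right rfl hr'1
      (glue (S.Fr Λs) ξ η) (glue (S.Fr Λs) ξ' η') (fun l hl hl2 => by
        obtain ⟨h3, h4⟩ := hloc l hl hl2
        exact (agr_glue Λs ξ η l h3).trans (h4.trans (agr_glue Λs ξ' η' l h3).symm))
      (fun τ hτ => ⟨hrng _ (Or.inl (agr_glue Λs ξ η)) h1 τ hτ,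
        hrng _ (Or.inr (agr_glue Λs ξ' η')) h2 τ hτ⟩) F' hF'm hF'1 hFd'
    rw [hδ', ← add_assoc]
    exact this
  have hfin := compare hF5 S (hm N) Λs G hGm hG1 (fun X => thr ≤ ∑ τ ∈ T, en k X τ) hbad hδ'0
    η η' hp1 hp2 hcmp
  rw [hk1, hk2, hcons, hcons]
  refine hfin.trans ?_
  have hn4 := num4 (K3 := K3c CH tH CM tM) (sM := Real.sqrt tM) (x := (M : ℝ)) (Q := tM ^ R₁)
    (c := (Λ2.card : ℝ)) hCM hK2 (Real.sqrt_pos.2 htM) rfl hC4 hC2 hβ hr0 hr'0 hr'r hW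
    (by positivity) (by rw [hθ]; exact pow_bound2 htM htM1 (by omega)) (by positivity) hc2'
  have hpow2 : Real.exp (-β * t) * (CM * β) ^ (DM * Λ2.card) ≤ p₁ := by
    have h1 : (CM * β) ^ (DM * Λ2.card) ≤ (C * β) ^ (D * M ^ 2) := by
      refine pow_le_aux (one_le_mul_of_one_le_of_one_le hCM hβ1) (by gcongr) ?_
      calc DM * Λ2.card ≤ DM * (9 * M ^ 2) := Nat.mul_le_mul_left _ hc2
        _ = 9 * DM * M ^ 2 := by ring
        _ ≤ D * M ^ 2 := Nat.mul_le_mul_right _ (by omega)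
    have h2 : 0 ≤ Real.exp (-β * t) * (C * β) ^ (D * M ^ 2) := by
      have : 0 < C := by linarith
      positivity
    calc Real.exp (-β * t) * (CM * β) ^ (DM * Λ2.card) ≤
          Real.exp (-β * t) * (C * β) ^ (D * M ^ 2) := by gcongr
      _ ≤ M * (Real.exp (-β * t) * (C * β) ^ (D * M ^ 2)) := le_mul_of_one_le_left h2 hx
  have h4p : 4 * (M : ℝ) * (Real.exp (-β * t) * (C * β) ^ (D * M ^ 2)) = 4 * p₁ := by
    rw [hp₁]
    ring
  rw [h4p]
  linarith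

end main

end T2H02.TT.PkgZ1

namespace T2H02.TT

open PkgZ1

theorem pZ1 (hF3 : S_F3) (hF5 : S_F5) (hH : S_H) (hM : S_M) : S_Z1 := by
  intro N k L _ hN hk
  obtain ⟨CH, tH, DH, hCH, htH, htH1, hH⟩ := hH N k L hN hk
  obtain ⟨CM, tM, DM, hCM, htM, htM1, hMM⟩ := hM N k L hN hk
  obtain ⟨hC1, hC2, hC3, hC4⟩ := Cc_ge hCH htH hCM htM
  refine ⟨Cc CH tH CM tM, th tH tM, 25 * (DH + DM), hCM.trans hC2, ?_, ?_,
    fun β hβ hβ1 M hM t ε r h8 ht hε hr hr1 => ⟨fun b η => ?_, ?_⟩⟩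
  · exact lt_of_lt_of_le (Real.sqrt_pos.2 htH) (le_max_left _ _)
  · exact max_lt (sqrt_lt_one' htH1) (sqrt_lt_one' htM1)
  · rw [hε]
    exact part1 hF5 hN hCH htH htH1 hβ hβ1 (hH β hβ hβ1) hC1 rfl (by omega) M hM t ht b η
  · intro b Λ hΛ hb η η' hag hgd F hF hF1 hFd
    rw [coa_ker, coa_ker]
    refine part2 hF3 hF5 hN hCH htH htH1 hCM htM htM1 hβ hβ1 (hH β hβ hβ1) (hMM β hβ hβ1) rfl rfl
      rfl M hM h8 t ε r ht hε hr hr1 b Λ hΛ hb η η' (fun i hi => hag i ?_)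
      (fun τ hτ hτ2 => hgd τ hτ ?_) F hF hF1 ?_
    · exact Finset.forall_mem_image.2 hi
    · exact Finset.forall_mem_image.2 hτ2
    · intro ω ω' hω
      refine hFd ω ω' fun i hi => hω i ?_
      exact fun a ha => hi (blk M a) (Finset.mem_image_of_mem _ ha)

end T2H02.TT
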