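import Pool.Agent.T2H02.TT.Stm

/-!
# Package B: zero energy configurations of the twisted torus (tree gauge)
-/

set_option autoImplicit false

noncomputable section

open MeasureTheory Matrix
open scoped Matrix.Norms.Frobenius

namespace T2H02.TT

namespace PkgB

variable {N L : ℕ} [NeZero L]

theorem succ_lt {a : ZMod L} (h : a ≠ -1) : a.val + 1 < L := by
  have h1 := ZMod.val_lt a
  rcases Nat.lt_or_ge (a.val + 1) L with h2 | h2
  · exact h2
  · exfalso
    apply h
    have h3 : a.val + 1 = L := by omega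
    have h4 : ((a.val + 1 : ℕ) : ZMod L) = 0 := by rw [h3]; exact ZMod.natCast_self L
    push_cast at h4
    rw [ZMod.natCast_zmod_val] at h4
    exact eq_neg_of_add_eq_zero_left h4

theorem val_succ {a : ZMod L} (h : a ≠ -1) : (a + 1).val = a.val + 1 := by
  have h1 := succ_lt h
  rw [ZMod.val_add, ZMod.val_one_eq_one_mod, Nat.add_mod, Nat.mod_mod, ← Nat.add_mod,
    Nat.mod_eq_of_lt h1]

theorem cyc {α : Type*} (f : ZMod L → α) (h : ∀ a, a ≠ -1 → f a = f (a + 1)) (a : ZMod L) :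
    f a = f 0 := by
  have key : ∀ n : ℕ, n < L → f (n : ZMod L) = f 0 := by
    intro n
    induction n with
    | zero => intro _; simp
    | succ n ih =>
      intro hn
      have h1 := ih (by omega)
      have h2 : ((n : ℕ) : ZMod L) ≠ -1 := by
        intro e
        have e2 : ((n + 1 : ℕ) : ZMod L) = 0 := by
          push_cast
          rw [e]
          ring
        rw [ZMod.natCast_eq_zero_iff] at e2
        exact absurd (Nat.le_of_dvd (by omega) e2) (by omega)
      rw [← h1, h _ h2]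
      push_cast
      rfl
  have := key a.val (ZMod.val_lt a)
  rwa [ZMod.natCast_zmod_val] at this

theorem coe_inv_mul (g : SU N) : ((g⁻¹ : SU N) : Mt N) * (g : Mt N) = 1 := by
  have h : ((g⁻¹ * g : SU N) : Mt N) = 1 := by rw [inv_mul_cancel]; rfl
  exact h

theorem coe_mul_inv (g : SU N) : (g : Mt N) * ((g⁻¹ : SU N) : Mt N) = 1 := by
  have h : ((g * g⁻¹ : SU N) : Mt N) = 1 := by rw [mul_inv_cancel]; rfl
  exact h

theorem comm_of_adj {g : SU N} {M : Mt N} (h : M = Adj g M) :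
    M * (g : Mt N) = (g : Mt N) * M := by
  calc M * (g : Mt N) = Adj g M * (g : Mt N) := by rw [← h]
    _ = (g : Mt N) * M * (((g⁻¹ : SU N) : Mt N) * (g : Mt N)) := by
      rw [Adj, mul_assoc]
    _ = _ := by rw [coe_inv_mul, mul_one]

theorem adj_one (M : Mt N) : Adj (1 : SU N) M = M := by
  simp [Adj]

omit [NeZero L] in
theorem act_act (g h : Tor L → SU N) (φ : Ph N L) : act g (act h φ) = act (fun y => g y * h y) φ := by
  funext y j
  simp only [act]
  group

theorem plaq {k : ℕ} {φ : Ph N L} (h : VV k φ = 0) (y : Tor L) :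
    (φ y 0 : Mt N) * (φ (tsh y 0) 1 : Mt N) =
      tw N k y • ((φ y 1 : Mt N) * (φ (tsh y 1) 0 : Mt N)) := by
  have h1 := (Finset.sum_eq_zero_iff_of_nonneg (fun y _ => by positivity)).mp h y
    (Finset.mem_univ _)
  have h2 : ‖(φ y 0 : Mt N) * (φ (tsh y 0) 1 : Mt N) -
      tw N k y • ((φ y 1 : Mt N) * (φ (tsh y 1) 0 : Mt N))‖ ^ 2 = 0 := by linarith
  have h3 := pow_eq_zero_iff (two_ne_zero) |>.mp h2
  exact sub_eq_zero.mp (norm_eq_zero.mp h3)

omit [NeZero L] in
theorem tsh_comm (y : Tor L) : tsh (tsh y 0) 1 = tsh (tsh y 1) 0 := by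
  simp [tsh]

theorem plaq_act {k : ℕ} {φ : Ph N L} (g : Tor L → SU N) (h : VV k φ = 0) (y : Tor L) :
    (act g φ y 0 : Mt N) * (act g φ (tsh y 0) 1 : Mt N) =
      tw N k y • ((act g φ y 1 : Mt N) * (act g φ (tsh y 1) 0 : Mt N)) := by
  have e1 : (act g φ y 0 : Mt N) * (act g φ (tsh y 0) 1 : Mt N) =
      (g y : Mt N) * ((φ y 0 : Mt N) * (φ (tsh y 0) 1 : Mt N)) *
        (((g (tsh (tsh y 0) 1))⁻¹ : SU N) : Mt N) := by
    have : act g φ y 0 * act g φ (tsh y 0) 1 =
        g y * (φ y 0 * φ (tsh y 0) 1) * (g (tsh (tsh y 0) 1))⁻¹ := by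
      simp only [act]
      group
    simpa using congrArg (Subtype.val : SU N → Mt N) this
  have e2 : (act g φ y 1 : Mt N) * (act g φ (tsh y 1) 0 : Mt N) =
      (g y : Mt N) * ((φ y 1 : Mt N) * (φ (tsh y 1) 0 : Mt N)) *
        (((g (tsh (tsh y 1) 0))⁻¹ : SU N) : Mt N) := by
    have : act g φ y 1 * act g φ (tsh y 1) 0 =
        g y * (φ y 1 * φ (tsh y 1) 0) * (g (tsh (tsh y 1) 0))⁻¹ := by
      simp only [act]
      group
    simpa using congrArg (Subtype.val : SU N → Mt N) this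
  rw [e1, e2, plaq h y, tsh_comm]
  simp only [mul_smul_comm, smul_mul_assoc]

/-- product along the row `y.2 = 0` -/
def rowp (φ : Ph N L) : ℕ → SU N
  | 0 => 1
  | n + 1 => rowp φ n * φ ((n : ZMod L), 0) 0

/-- product along a column -/
def colp (φ : Ph N L) (a : ZMod L) : ℕ → SU N
  | 0 => 1
  | n + 1 => colp φ a n * φ (a, (n : ZMod L)) 1

/-- the tree gauge -/
def tg (φ : Ph N L) (y : Tor L) : SU N := rowp φ y.1.val * colp φ y.1 y.2.val

theorem tg_col (φ : Ph N L) (y : Tor L) (h : y.2 ≠ -1) : act (tg φ) φ y 1 = 1 := by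
  have e : tg φ (tsh y 1) = tg φ y * φ y 1 := by
    have : tsh y 1 = (y.1, y.2 + 1) := by simp [tsh]
    rw [this]
    simp only [tg, val_succ h, colp, ZMod.natCast_zmod_val]
    rw [mul_assoc]
  rw [act, e]
  group

theorem tg_row (φ : Ph N L) (a : ZMod L) (h : a ≠ -1) : act (tg φ) φ (a, 0) 0 = 1 := by
  have e : tg φ (tsh (a, 0) 0) = tg φ (a, 0) * φ (a, 0) 0 := by
    have : tsh ((a, 0) : Tor L) 0 = (a + 1, 0) := by simp [tsh]
    rw [this]
    simp only [tg, val_succ h, rowp, ZMod.val_zero, colp, mul_one, ZMod.natCast_zmod_val]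
  rw [act, e]
  group

/-- flat configurations in tree gauge are `vac A B` -/
theorem tree {k : ℕ} (φ : Ph N L) (h : VV k φ = 0) :
    ∃ A B : SU N, PQ k A B ∧ act (tg φ) φ = vac A B := by
  set ψ := act (tg φ) φ with hψ
  have hp : ∀ y, (ψ y 0 : Mt N) * (ψ (tsh y 0) 1 : Mt N) =
      tw N k y • ((ψ y 1 : Mt N) * (ψ (tsh y 1) 0 : Mt N)) := fun y => plaq_act _ h y
  have h1 : ∀ y : Tor L, y.2 ≠ -1 → ψ y 1 = 1 := fun y hy => tg_col φ y hy
  have h0 : ∀ a : ZMod L, a ≠ -1 → ψ (a, 0) 0 = 1 := fun a ha => tg_row φ a ha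
  have t0 : ∀ a b : ZMod L, tsh ((a, b) : Tor L) 0 = (a + 1, b) := fun a b => by simp [tsh]
  have t1 : ∀ a b : ZMod L, tsh ((a, b) : Tor L) 1 = (a, b + 1) := fun a b => by simp [tsh]
  have hcol : ∀ a b : ZMod L, ψ (a, b) 0 = ψ (a, 0) 0 := by
    intro a b
    refine cyc (fun b => ψ (a, b) 0) (fun b hb => ?_) b
    have e := hp (a, b)
    rw [t0, t1, h1 (a + 1, b) hb, h1 (a, b) hb] at e
    have e2 : tw N k ((a, b) : Tor L) = 1 := by
      rw [tw, if_neg]
      intro e3
      exact hb (congrArg Prod.snd e3)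
    rw [e2, one_smul] at e
    apply Subtype.ext
    simpa using e
  have hrow : ∀ a : ZMod L, ψ (a, -1) 1 = ψ (0, -1) 1 := by
    intro a
    refine cyc (fun a => ψ (a, -1) 1) (fun a ha => ?_) a
    have e := hp (a, -1)
    rw [t0, t1, hcol a (-1), h0 a ha, show (-1 : ZMod L) + 1 = 0 by ring, h0 a ha] at e
    have e2 : tw N k ((a, -1) : Tor L) = 1 := by
      rw [tw, if_neg]
      intro e3
      exact ha (congrArg Prod.fst e3)
    rw [e2, one_smul] at e
    apply Subtype.ext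
    simpa using e.symm
  refine ⟨ψ (-1, 0) 0, ψ (0, -1) 1, ?_, ?_⟩
  · have e := hp (-1, -1)
    rw [t0, t1, hcol (-1) (-1), show (-1 : ZMod L) + 1 = 0 by ring, hrow (-1)] at e
    have e2 : tw N k ((-1, -1) : Tor L) = om N k := by
      rw [tw, if_pos rfl]
    rw [e2] at e
    exact e
  · funext y j
    obtain ⟨a, b⟩ := y
    by_cases hj : j = 0
    · subst hj
      rw [vac, if_pos rfl, hcol]
      by_cases ha : a = -1
      · subst ha
        rw [if_pos rfl]
      · rw [if_neg ha, h0 a ha]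
    · have hj1 : j = 1 := by omega
      subst hj1
      rw [vac, if_neg (by decide)]
      by_cases hb : b = -1
      · subst hb
        rw [if_pos rfl, hrow]
      · rw [if_neg hb, h1 (a, b) hb]

omit [NeZero L] in
theorem vac_conj (P Q g : SU N) :
    (vac (g * P * g⁻¹) (g * Q * g⁻¹) : Ph N L) = act (fun _ => g) (vac P Q) := by
  funext y j
  simp only [vac, act]
  split_ifs <;> group

end PkgB

open PkgB

theorem pB0 : S_B0 := by
  intro N k L _ _ _ P Q hPQ
  rw [VV]
  refine Finset.sum_eq_zero fun y _ => ?_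
  obtain ⟨a, b⟩ := y
  have e : (vac P Q : Ph N L) (a, b) 0 = if a = -1 then P else 1 := by simp [vac]
  have e' : (vac P Q : Ph N L) (tsh (a, b) 1) 0 = if a = -1 then P else 1 := by simp [vac, tsh]
  have f : (vac P Q : Ph N L) (a, b) 1 = if b = -1 then Q else 1 := by simp [vac]
  have f' : (vac P Q : Ph N L) (tsh (a, b) 0) 1 = if b = -1 then Q else 1 := by simp [vac, tsh]
  rw [e, e', f, f', tw]
  have key : ((if a = -1 then P else 1 : SU N) : Mt N) * ((if b = -1 then Q else 1 : SU N) : Mt N) =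
      (if ((a, b) : Tor L) = (-1, -1) then om N k else 1) •
        (((if b = -1 then Q else 1 : SU N) : Mt N) * ((if a = -1 then P else 1 : SU N) : Mt N)) := by
    by_cases ha : a = -1
    · by_cases hb : b = -1
      · subst ha hb
        simp only [if_true]
        exact hPQ
      · rw [if_neg hb, if_neg (fun h => hb (congrArg Prod.snd h))]
        simp
    · rw [if_neg ha, if_neg (fun h => ha (congrArg Prod.fst h))]
      simp
  rw [key, sub_self, norm_zero]
  norm_num

theorem pB1 (hA2 : S_A2) : S_B1 := by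
  intro N k L _ hN hk P Q hPQ φ hφ
  obtain ⟨A, B, hAB, e⟩ := tree φ hφ
  obtain ⟨g, hgA, hgB⟩ := hA2 N k hN hk P Q A B hPQ hAB
  refine ⟨fun y => (tg φ y)⁻¹ * g, ?_⟩
  have e2 : act (tg φ) φ = act (fun _ => g) (vac P Q) := by
    rw [e, hgA, hgB, vac_conj]
  have e3 : φ = act (fun y => (tg φ y)⁻¹) (act (tg φ) φ) := by
    rw [act_act]
    funext y j
    simp [act]
  rw [e2, act_act] at e3
  exact e3

theorem pB3 (hA3 : S_A3) : S_B3 := by
  intro N k L _ hN hk P Q hPQ lam hlam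
  have h0 : ∀ a b : ZMod L, lam (a, b) = Adj (if a = -1 then P else 1) (lam (a + 1, b)) := by
    intro a b
    have := hlam (a, b) 0
    simpa [dd, vac, tsh, sub_eq_zero] using this
  have h1 : ∀ a b : ZMod L, lam (a, b) = Adj (if b = -1 then Q else 1) (lam (a, b + 1)) := by
    intro a b
    have := hlam (a, b) 1
    simpa [dd, vac, tsh, sub_eq_zero] using this
  have c0 : ∀ a b : ZMod L, lam (a, b) = lam (0, b) := fun a b => by
    refine cyc (fun a => lam (a, b)) (fun a ha => ?_) a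
    have := h0 a b
    rwa [if_neg ha, adj_one] at this
  have c1 : ∀ a b : ZMod L, lam (a, b) = lam (a, 0) := fun a b => by
    refine cyc (fun b => lam (a, b)) (fun b hb => ?_) b
    have := h1 a b
    rwa [if_neg hb, adj_one] at this
  have c : ∀ y : Tor L, lam y = lam (0, 0) := fun y => by
    obtain ⟨a, b⟩ := y
    rw [c0, c1]
  have hP : lam (0, 0) = Adj P (lam (0, 0)) := by
    have := h0 (-1) 0
    rwa [if_pos rfl, c (-1, 0), c (-1 + 1, 0)] at this
  have hQ : lam (0, 0) = Adj Q (lam (0, 0)) := by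
    have := h1 0 (-1)
    rwa [if_pos rfl, c (0, -1), c (0, -1 + 1)] at this
  obtain ⟨z, hz⟩ := hA3 N k hN hk P Q hPQ (lam (0, 0)) (comm_of_adj hP) (comm_of_adj hQ)
  exact ⟨z, fun y => by rw [c y, hz]⟩

theorem pB2 (hA3 : S_A3) : S_B2 := by
  intro N k L _ hN hk P Q hPQ U hU
  have h : ∀ y j, U y * (vac P Q : Ph N L) y j * (U (tsh y j))⁻¹ = (vac P Q : Ph N L) y j :=
    fun y j => congrFun (congrFun hU y) j
  obtain ⟨c, hc⟩ := pB3 hA3 N k L hN hk P Q hPQ (fun y => (U y : Mt N)) (fun y j => by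
    have e := h y j
    have e2 : U y = (vac P Q : Ph N L) y j * U (tsh y j) * ((vac P Q : Ph N L) y j)⁻¹ :=
      eq_mul_inv_of_mul_eq (mul_inv_eq_iff_eq_mul.mp e)
    have e3 : (U y : Mt N) = Adj ((vac P Q : Ph N L) y j) (U (tsh y j) : Mt N) := by
      conv_lhs => rw [e2]
      rfl
    rw [dd, ← e3, sub_self])
  have hN0 : N ≠ 0 := by omega
  haveI : NeZero N := ⟨hN0⟩
  have hdet : c ^ N = 1 := by
    have h1 : (U 0 : Mt N).det = 1 := (Matrix.mem_specialUnitaryGroup_iff.mp (U 0).2).2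
    have h2 : (U 0 : Mt N) = c • (1 : Mt N) := hc 0
    rw [h2, Matrix.det_smul, Matrix.det_one, Fintype.card_fin, mul_one] at h1
    exact h1
  obtain ⟨i, hi, e⟩ := (Complex.isPrimitiveRoot_exp N hN0).eq_pow_of_pow_eq_one hdet
  refine ⟨⟨i, hi⟩, fun y => ?_⟩
  have h3 : (U y : Mt N) = c • (1 : Mt N) := hc y
  rw [h3, ← e, om, ← Complex.exp_nat_mul]
  congr 2
  ring

end T2H02.TT
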