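import Pool.Agent.T2H02.TT.Stm

/-!
# Package C : linear estimates around the vacuum of the twisted torus
-/

set_option autoImplicit false

noncomputable section

open MeasureTheory Matrix
open scoped Matrix.Norms.Frobenius

namespace T2H02.TT.PkgC

section lin

variable {K V : Type*} [Field K] [AddCommGroup V] [Module K V] [FiniteDimensional K V]

/-- exactness in the middle of the Koszul complex of two commuting operators without common
kernel -/
theorem koszul (A B : V →ₗ[K] V) (hc : ∀ v, A (B v) = B (A v))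
    (hk : ∀ v, A v = 0 → B v = 0 → v = 0) (a b : V) (h : B a = A b) :
    ∃ v, A v = a ∧ B v = b := by
  obtain ⟨n, hn1, hn⟩ := ((Filter.eventually_ge_atTop 1).and
    (LinearMap.eventually_isCompl_ker_pow_range_pow A)).exists
  have hAn : ∀ (m : ℕ) (v : V), (A ^ m) (B v) = B ((A ^ m) v) := by
    intro m
    induction m with
    | zero => intro v; simp
    | succ m ih => intro v; rw [pow_succ', Module.End.mul_apply, Module.End.mul_apply, ih, hc]
  have hAA : ∀ (m : ℕ) (v : V), (A ^ m) (A v) = A ((A ^ m) v) := by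
    intro m v
    rw [← Module.End.mul_apply, ← Module.End.mul_apply, ← pow_succ, ← pow_succ']
  obtain ⟨V₀, hV₀⟩ : ∃ V₀, V₀ = LinearMap.ker (A ^ n) := ⟨_, rfl⟩
  obtain ⟨V₁, hV₁⟩ : ∃ V₁, V₁ = LinearMap.range (A ^ n) := ⟨_, rfl⟩
  rw [← hV₀, ← hV₁] at hn
  have hA0 : ∀ v ∈ V₀, A v ∈ V₀ := by
    intro v hv
    rw [hV₀, LinearMap.mem_ker] at hv ⊢
    rw [hAA, hv, map_zero]
  have hB0 : ∀ v ∈ V₀, B v ∈ V₀ := by
    intro v hv
    rw [hV₀, LinearMap.mem_ker] at hv ⊢
    rw [hAn, hv, map_zero]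
  have hA1 : ∀ v ∈ V₁, A v ∈ V₁ := by
    rw [hV₁]
    rintro v ⟨w, rfl⟩
    exact ⟨A w, hAA n w⟩
  have hB1 : ∀ v ∈ V₁, B v ∈ V₁ := by
    rw [hV₁]
    rintro v ⟨w, rfl⟩
    exact ⟨B w, hAn n w⟩
  have hdis : ∀ v, v ∈ V₀ → v ∈ V₁ → v = 0 := by
    intro v h0 h1
    have := hn.disjoint
    rw [Submodule.disjoint_def] at this
    exact this v h0 h1
  have hsum : ∀ v : V, ∃ x ∈ V₀, ∃ y ∈ V₁, x + y = v := by
    intro v
    have : v ∈ V₀ ⊔ V₁ := by rw [hn.sup_eq_top]; trivial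
    exact Submodule.mem_sup.1 this
  -- `A` is injective on `V₁`
  have hAinj : ∀ v ∈ V₁, A v = 0 → v = 0 := by
    intro v hv h0
    apply hdis v _ hv
    rw [hV₀, LinearMap.mem_ker]
    obtain ⟨m, rfl⟩ := Nat.exists_eq_succ_of_ne_zero (by omega : n ≠ 0)
    rw [pow_succ, Module.End.mul_apply, h0, map_zero]
  -- `B` is injective on `V₀`
  have hBinj : ∀ v ∈ V₀, B v = 0 → v = 0 := by
    intro v hv h0
    have key : ∀ m : ℕ, (A ^ m) v = 0 → v = 0 := by
      intro m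
      induction m with
      | zero => intro h; simpa using h
      | succ m ih =>
        intro h
        apply ih
        apply hk
        · rw [← Module.End.mul_apply, ← pow_succ']; exact h
        · rw [← hAn, h0, map_zero]
    rw [hV₀, LinearMap.mem_ker] at hv
    exact key n hv
  have hAsur : ∀ w ∈ V₁, ∃ v ∈ V₁, A v = w := by
    intro w hw
    have hi : Function.Injective (A.restrict hA1) := by
      rw [← LinearMap.ker_eq_bot, LinearMap.ker_eq_bot']
      rintro ⟨v, hv⟩ h0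
      have : A v = 0 := congrArg Subtype.val h0
      exact Subtype.ext (hAinj v hv this)
    obtain ⟨⟨v, hv⟩, h1⟩ := (LinearMap.injective_iff_surjective.1 hi) ⟨w, hw⟩
    exact ⟨v, hv, congrArg Subtype.val h1⟩
  have hBsur : ∀ w ∈ V₀, ∃ v ∈ V₀, B v = w := by
    intro w hw
    have hi : Function.Injective (B.restrict hB0) := by
      rw [← LinearMap.ker_eq_bot, LinearMap.ker_eq_bot']
      rintro ⟨v, hv⟩ h0
      have : B v = 0 := congrArg Subtype.val h0
      exact Subtype.ext (hBinj v hv this)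
    obtain ⟨⟨v, hv⟩, h1⟩ := (LinearMap.injective_iff_surjective.1 hi) ⟨w, hw⟩
    exact ⟨v, hv, congrArg Subtype.val h1⟩
  obtain ⟨a₀, ha₀, a₁, ha₁, rfl⟩ := hsum a
  obtain ⟨b₀, hb₀, b₁, hb₁, rfl⟩ := hsum b
  have h' : B a₀ - A b₀ = A b₁ - B a₁ := by
    rw [map_add, map_add] at h
    rw [sub_eq_sub_iff_add_eq_add, h]
    abel
  have h0 : B a₀ - A b₀ = 0 := by
    apply hdis
    · exact V₀.sub_mem (hB0 _ ha₀) (hA0 _ hb₀)
    · rw [h']; exact V₁.sub_mem (hA1 _ hb₁) (hB1 _ ha₁)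
  have h1 : A b₁ - B a₁ = 0 := by rw [← h', h0]
  obtain ⟨v₁, hv₁, e1⟩ := hAsur a₁ ha₁
  obtain ⟨v₀, hv₀, e0⟩ := hBsur b₀ hb₀
  have e1' : B v₁ = b₁ := by
    rw [← sub_eq_zero]
    apply hAinj _ (V₁.sub_mem (hB1 _ hv₁) hb₁)
    rw [map_sub, hc, e1, ← neg_sub, h1, neg_zero]
  have e0' : A v₀ = a₀ := by
    rw [← sub_eq_zero]
    apply hBinj _ (V₀.sub_mem (hA0 _ hv₀) ha₀)
    rw [map_sub, ← hc, e0, ← neg_sub, h0, neg_zero]
  exact ⟨v₀ + v₁, by rw [map_add, e0', e1], by rw [map_add, e0, e1']⟩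

/-- bounded section of a linear map of a finite dimensional space on its range -/
theorem sect {E F : Type*} [NormedAddCommGroup E] [NormedSpace ℝ E] [FiniteDimensional ℝ E]
    [NormedAddCommGroup F] [NormedSpace ℝ F] (T : E →ₗ[ℝ] F) :
    ∃ C : ℝ, 0 < C ∧ ∀ a, ∃ a', T a' = T a ∧ ‖a'‖ ≤ C * ‖T a‖ := by
  obtain ⟨s, hs⟩ := LinearMap.exists_rightInverse_of_surjective T.rangeRestrict
    T.range_rangeRestrict
  refine ⟨‖LinearMap.toContinuousLinearMap s‖ + 1, by positivity, fun a => ?_⟩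
  refine ⟨s (T.rangeRestrict a), ?_, ?_⟩
  · have := congrArg (fun f => f (T.rangeRestrict a)) hs
    simp only [LinearMap.coe_comp, Function.comp_apply, LinearMap.id_coe, id_eq] at this
    exact congrArg Subtype.val this
  · have h1 := (LinearMap.toContinuousLinearMap s).le_opNorm (T.rangeRestrict a)
    have h2 : ‖T.rangeRestrict a‖ = ‖T a‖ := rfl
    rw [h2] at h1
    have h3 : LinearMap.toContinuousLinearMap s (T.rangeRestrict a) = s (T.rangeRestrict a) := rfl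
    rw [h3] at h1
    nlinarith [norm_nonneg (T a)]

end lin

section vacuum

variable {N L : ℕ} [NeZero L]

/-- `su N` as a real subspace -/
def suS (N : ℕ) : Submodule ℝ (Mt N) where
  carrier := su N
  add_mem' := by
    rintro a b ⟨ha1, ha2⟩ ⟨hb1, hb2⟩
    refine ⟨?_, ?_⟩
    · rw [conjTranspose_add, ha1, hb1]; abel
    · rw [trace_add, ha2, hb2, add_zero]
  zero_mem' := ⟨by simp, by simp⟩
  smul_mem' := by
    rintro c a ⟨ha1, ha2⟩
    refine ⟨?_, ?_⟩
    · rw [conjTranspose_smul, ha1]; simp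
    · rw [trace_smul, ha2, smul_zero]

theorem mem_suS {M : Mt N} : M ∈ suS N ↔ M ∈ su N := Iff.rfl

theorem inv_val (g : SU N) : ((g⁻¹ : SU N) : Mt N) = (g : Mt N)ᴴ := rfl

theorem mul_conj (g : SU N) : (g : Mt N) * (g : Mt N)ᴴ = 1 := by
  have : ((g * g⁻¹ : SU N) : Mt N) = 1 := by rw [mul_inv_cancel]; rfl
  exact this

theorem conj_mul (g : SU N) : (g : Mt N)ᴴ * (g : Mt N) = 1 := by
  have : ((g⁻¹ * g : SU N) : Mt N) = 1 := by rw [inv_mul_cancel]; rfl
  exact this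

theorem adj_trace (g : SU N) (M : Mt N) : (Adj g M).trace = M.trace := by
  rw [Adj, inv_val, trace_mul_cycle, conj_mul, one_mul]

theorem adj_add (g : SU N) (M M' : Mt N) : Adj g (M + M') = Adj g M + Adj g M' := by
  simp [Adj, mul_add, add_mul]

theorem adj_smulR (g : SU N) (c : ℝ) (M : Mt N) : Adj g (c • M) = c • Adj g M := by
  simp [Adj]

theorem adj_smulC (g : SU N) (c : ℂ) (M : Mt N) : Adj g (c • M) = c • Adj g M := by
  simp [Adj]

theorem adj_one (M : Mt N) : Adj 1 M = M := by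
  simp [Adj]

theorem adj_mem (g : SU N) {M : Mt N} (h : M ∈ su N) : Adj g M ∈ su N := by
  refine ⟨?_, ?_⟩
  · rw [Adj, inv_val, conjTranspose_mul, conjTranspose_mul, conjTranspose_conjTranspose, h.1]
    simp [mul_assoc]
  · rw [adj_trace, h.2]

theorem adj_adj (g h : SU N) (M : Mt N) :
    Adj g (Adj h M) = ((g : Mt N) * (h : Mt N)) * M * ((g : Mt N) * (h : Mt N))ᴴ := by
  simp only [Adj, inv_val, conjTranspose_mul, mul_assoc]

theorem om_star (k : ℕ) : om N k * star (om N k) = 1 := by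
  have h : om N k = Complex.exp (((2 * Real.pi * k / N : ℝ) : ℂ) * Complex.I) := by
    rw [om]
    congr 1
    push_cast
    ring
  rw [Complex.star_def, Complex.mul_conj, Complex.normSq_eq_norm_sq, h,
    Complex.norm_exp_ofReal_mul_I]
  simp

theorem adj_comm {k : ℕ} {P Q : SU N} (h : PQ k P Q) (M : Mt N) :
    Adj P (Adj Q M) = Adj Q (Adj P M) := by
  rw [adj_adj, adj_adj, h, conjTranspose_smul, smul_mul_assoc, smul_mul_assoc, mul_smul_comm,
    smul_smul, om_star, one_smul]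

theorem tsh_comm (y : Tor L) : tsh (tsh y 0) 1 = tsh (tsh y 1) 0 := by
  simp [tsh]

theorem vac_flat {k : ℕ} {P Q : SU N} (h : PQ k P Q) (y : Tor L) (M : Mt N) :
    Adj ((vac P Q : Ph N L) y 0) (Adj ((vac P Q : Ph N L) (tsh y 0) 1) M) =
      Adj ((vac P Q : Ph N L) y 1) (Adj ((vac P Q : Ph N L) (tsh y 1) 0) M) := by
  have e1 : (vac P Q : Ph N L) y 0 = if y.1 = -1 then P else 1 := by simp [vac]
  have e2 : (vac P Q : Ph N L) (tsh y 0) 1 = if y.2 = -1 then Q else 1 := by simp [vac, tsh]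
  have e3 : (vac P Q : Ph N L) y 1 = if y.2 = -1 then Q else 1 := by simp [vac]
  have e4 : (vac P Q : Ph N L) (tsh y 1) 0 = if y.1 = -1 then P else 1 := by simp [vac, tsh]
  rw [e1, e2, e3, e4]
  by_cases h1 : y.1 = -1 <;> by_cases h2 : y.2 = -1 <;> simp [h1, h2, adj_one, adj_comm h]

/-- the covariant difference operator on `su N` valued functions -/
def Dop (P Q : SU N) (j : Fin 2) : (Tor L → suS N) →ₗ[ℝ] (Tor L → suS N) where
  toFun lam y := ⟨dd (vac P Q) (fun z => (lam z : Mt N)) y j, by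
    have h1 : (lam y : Mt N) ∈ suS N := (lam y).2
    have h2 : Adj ((vac P Q : Ph N L) y j) (lam (tsh y j) : Mt N) ∈ suS N :=
      adj_mem _ (lam (tsh y j)).2
    exact (suS N).sub_mem h1 h2⟩
  map_add' a b := by
    funext y
    apply Subtype.ext
    simp only [dd, Pi.add_apply, Submodule.coe_add, adj_add]
    abel
  map_smul' c a := by
    funext y
    apply Subtype.ext
    simp only [dd, Pi.smul_apply, Submodule.coe_smul, adj_smulR, smul_sub, RingHom.id_apply]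

theorem Dop_val (P Q : SU N) (j : Fin 2) (lam : Tor L → suS N) (y : Tor L) :
    (Dop P Q j lam y : Mt N) = (lam y : Mt N) -
      Adj ((vac P Q : Ph N L) y j) (lam (tsh y j) : Mt N) := rfl

theorem adj_sub (g : SU N) (M M' : Mt N) : Adj g (M - M') = Adj g M - Adj g M' := by
  simp [Adj, mul_sub, sub_mul]

theorem Dop_comm {k : ℕ} {P Q : SU N} (h : PQ k P Q) (lam : Tor L → suS N) :
    Dop P Q 0 (Dop P Q 1 lam) = Dop P Q 1 (Dop P Q 0 lam) := by
  funext y
  apply Subtype.ext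
  simp only [Dop_val, adj_sub]
  rw [vac_flat h, tsh_comm]
  abel

/-- the curl -/
def Cop (P Q : SU N) : (Tor L → Fin 2 → suS N) →ₗ[ℝ] (Tor L → Mt N) where
  toFun a y := crl (vac P Q) (fun z j => (a z j : Mt N)) y
  map_add' a b := by
    funext y
    simp only [crl, Pi.add_apply, Submodule.coe_add, adj_add]
    abel
  map_smul' c a := by
    funext y
    simp only [crl, Pi.smul_apply, Submodule.coe_smul, adj_smulR, smul_sub, smul_add,
      RingHom.id_apply]

theorem Cop_val (P Q : SU N) (a : Tor L → Fin 2 → suS N) (y : Tor L) :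
    Cop P Q a y = (Dop P Q 1 (fun z => a z 0) y : Mt N) - (Dop P Q 0 (fun z => a z 1) y : Mt N) := by
  simp only [Dop_val]
  change crl (vac P Q) (fun z j => (a z j : Mt N)) y = _
  simp only [crl]
  abel

/-- trace zero matrices as a real subspace -/
def trS (N : ℕ) : Submodule ℝ (Mt N) where
  carrier := {M | M.trace = 0}
  add_mem' := by
    intro a b ha hb
    change (a + b).trace = 0
    rw [trace_add, show a.trace = 0 from ha, show b.trace = 0 from hb, add_zero]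
  zero_mem' := trace_zero _ _
  smul_mem' := by
    intro c a ha
    change (c • a).trace = 0
    rw [trace_smul, show a.trace = 0 from ha, smul_zero]

/-- the gradient on trace zero functions -/
def Gop (P Q : SU N) : (Tor L → trS N) →ₗ[ℝ] (Tor L → Fin 2 → Mt N) where
  toFun lam y j := dd (vac P Q) (fun z => (lam z : Mt N)) y j
  map_add' a b := by
    funext y j
    simp only [dd, Pi.add_apply, Submodule.coe_add, adj_add]
    abel
  map_smul' c a := by
    funext y j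
    simp only [dd, Pi.smul_apply, Submodule.coe_smul, adj_smulR, smul_sub, RingHom.id_apply]

/-- norms on finite products -/
theorem sum_le_sup {ι E : Type*} [Fintype ι] [SeminormedAddCommGroup E] (f : ι → E) :
    ∑ i, ‖f i‖ ^ 2 ≤ Fintype.card ι * ‖f‖ ^ 2 := by
  have h : ∀ i ∈ Finset.univ, ‖f i‖ ^ 2 ≤ ‖f‖ ^ 2 := fun i _ =>
    pow_le_pow_left₀ (norm_nonneg _) (norm_le_pi_norm f i) 2
  have := Finset.sum_le_card_nsmul _ _ _ h
  simpa using this

theorem sup_le_sum {ι E : Type*} [Fintype ι] [SeminormedAddCommGroup E] (f : ι → E) :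
    ‖f‖ ^ 2 ≤ ∑ i, ‖f i‖ ^ 2 := by
  have h0 : 0 ≤ ∑ i, ‖f i‖ ^ 2 := Finset.sum_nonneg fun i _ => by positivity
  have h : ‖f‖ ≤ Real.sqrt (∑ i, ‖f i‖ ^ 2) := by
    rw [pi_norm_le_iff_of_nonneg (Real.sqrt_nonneg _)]
    intro i
    apply Real.le_sqrt_of_sq_le
    exact Finset.single_le_sum (f := fun i => ‖f i‖ ^ 2) (fun i _ => by positivity)
      (Finset.mem_univ i)
  calc ‖f‖ ^ 2 ≤ Real.sqrt (∑ i, ‖f i‖ ^ 2) ^ 2 := pow_le_pow_left₀ (norm_nonneg _) h 2
    _ = _ := Real.sq_sqrt h0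

theorem exact {k : ℕ} (hB3 : S_B3) (hN : 2 ≤ N) (hk : Nat.Coprime k N) {P Q : SU N}
    (hPQ : PQ k P Q) (a : Tor L → Fin 2 → suS N) (ha : Cop P Q a = 0) :
    ∃ lam : Tor L → suS N, ∀ y j, (a y j : Mt N) = dd (vac P Q) (fun z => (lam z : Mt N)) y j := by
  obtain ⟨lam, h0, h1⟩ := koszul (K := ℝ) (Dop (L := L) P Q 0) (Dop P Q 1) (Dop_comm hPQ) (by
    intro v hv0 hv1
    obtain ⟨c, hc⟩ := hB3 N k L hN hk P Q hPQ (fun y => (v y : Mt N)) (by
      intro y j
      fin_cases j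
      · exact congrArg Subtype.val (congrFun hv0 y)
      · exact congrArg Subtype.val (congrFun hv1 y))
    funext y
    apply Subtype.ext
    have h1 : ((v y : Mt N)).trace = 0 := (v y).2.2
    have h2 : (v y : Mt N) = c • (1 : Mt N) := hc y
    rw [h2, trace_smul, trace_one, Fintype.card_fin, smul_eq_mul, mul_eq_zero] at h1
    have h3 : c = 0 := by
      rcases h1 with h1 | h1
      · exact h1
      · exfalso
        have : N = 0 := by exact_mod_cast h1
        omega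
    rw [h2, h3, zero_smul]
    rfl) (fun z => a z 0) (fun z => a z 1) (by
      funext y
      apply Subtype.ext
      have := congrFun ha y
      rw [Cop_val] at this
      exact sub_eq_zero.1 this)
  refine ⟨lam, fun y j => ?_⟩
  fin_cases j
  · exact (congrArg Subtype.val (congrFun h0 y)).symm
  · exact (congrArg Subtype.val (congrFun h1 y)).symm

end vacuum

end PkgC

open PkgC

theorem pC2 (hB3 : S_B3) : S_C2 := by
  intro N k L _ hN hk P Q hPQ
  obtain ⟨C, hC, h⟩ := sect (Cop (L := L) P Q)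
  refine ⟨Fintype.card (Tor L) * (2 * C ^ 2) , by positivity, fun a ha => ?_⟩
  let a1 : Tor L → Fin 2 → suS N := fun y j => ⟨a y j, ha y j⟩
  obtain ⟨a2, h1, h2⟩ := h a1
  obtain ⟨lam, hlam⟩ := exact hB3 hN hk hPQ (a1 - a2) (by rw [map_sub, h1, sub_self])
  refine ⟨fun y => (lam y : Mt N), fun y => (lam y).2, ?_⟩
  have e1 : ∀ y j, a y j - dd (vac P Q) (fun z => (lam z : Mt N)) y j = (a2 y j : Mt N) := by
    intro y j
    rw [← hlam]
    change a y j - (a y j - (a2 y j : Mt N)) = _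
    rw [sub_sub_cancel]
  have e2 : ∀ y, ∑ j : Fin 2, ‖(a2 y j : Mt N)‖ ^ 2 ≤ 2 * ‖a2 y‖ ^ 2 := by
    intro y
    have h5 := sum_le_sup (a2 y)
    rw [Fintype.card_fin] at h5
    exact_mod_cast h5
  have e3 : ∑ y, ‖a2 y‖ ^ 2 ≤ Fintype.card (Tor L) * ‖a2‖ ^ 2 := sum_le_sup a2
  have e4 : ‖Cop P Q a1‖ ^ 2 ≤ ∑ y, ‖crl (vac P Q) a y‖ ^ 2 := sup_le_sum (Cop P Q a1)
  calc ∑ y, ∑ j : Fin 2, ‖a y j - dd (vac P Q) (fun z => (lam z : Mt N)) y j‖ ^ 2
        = ∑ y, ∑ j : Fin 2, ‖(a2 y j : Mt N)‖ ^ 2 :=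
        Finset.sum_congr rfl fun y _ => Finset.sum_congr rfl fun j _ => by rw [e1]
    _ ≤ ∑ y, 2 * ‖a2 y‖ ^ 2 :=
        Finset.sum_le_sum fun y _ => e2 y
    _ = 2 * ∑ y, ‖a2 y‖ ^ 2 := by rw [Finset.mul_sum]
    _ ≤ 2 * (Fintype.card (Tor L) * ‖a2‖ ^ 2) := by linarith
    _ ≤ 2 * (Fintype.card (Tor L) * (C * ‖Cop P Q a1‖) ^ 2) := by gcongr
    _ = Fintype.card (Tor L) * (2 * C ^ 2) * ‖Cop P Q a1‖ ^ 2 := by ring
    _ ≤ _ := by gcongr

theorem pC1 (hB3 : S_B3) : S_C1 := by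
  intro N k L _ hN hk P Q hPQ
  obtain ⟨C, hC, h⟩ := sect (Gop (L := L) P Q)
  refine ⟨Fintype.card (Tor L) * C ^ 2, by positivity, fun lam hlam => ?_⟩
  let l1 : Tor L → trS N := fun y => ⟨lam y, hlam y⟩
  obtain ⟨l2, h1, h2⟩ := h l1
  have h3 : l2 = l1 := by
    rw [← sub_eq_zero]
    obtain ⟨c, hc⟩ := hB3 N k L hN hk P Q hPQ (fun y => ((l2 - l1) y : Mt N)) (by
      intro y j
      have h4 : Gop P Q (l2 - l1) = 0 := by rw [map_sub, h1, sub_self]
      exact congrFun (congrFun h4 y) j)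
    funext y
    apply Subtype.ext
    have h1 : (((l2 - l1) y : Mt N)).trace = 0 := ((l2 - l1) y).2
    have h2 : ((l2 - l1) y : Mt N) = c • (1 : Mt N) := hc y
    rw [h2, trace_smul, trace_one, Fintype.card_fin, smul_eq_mul, mul_eq_zero] at h1
    have h3 : c = 0 := by
      rcases h1 with h1 | h1
      · exact h1
      · exfalso
        have : N = 0 := by exact_mod_cast h1
        omega
    rw [h2, h3, zero_smul]
    rfl
  rw [h3] at h2
  have e3 : ∑ y, ‖lam y‖ ^ 2 ≤ Fintype.card (Tor L) * ‖l1‖ ^ 2 := sum_le_sup l1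
  have e4 : ‖Gop P Q l1‖ ^ 2 ≤ ∑ y, ‖Gop P Q l1 y‖ ^ 2 := sup_le_sum _
  have e5 : ∀ y, ‖Gop P Q l1 y‖ ^ 2 ≤ ∑ j, ‖dd (vac P Q) lam y j‖ ^ 2 := fun y => sup_le_sum _
  calc ∑ y, ‖lam y‖ ^ 2 ≤ Fintype.card (Tor L) * ‖l1‖ ^ 2 := e3
    _ ≤ Fintype.card (Tor L) * (C * ‖Gop P Q l1‖) ^ 2 := by gcongr
    _ = Fintype.card (Tor L) * C ^ 2 * ‖Gop P Q l1‖ ^ 2 := by ring
    _ ≤ Fintype.card (Tor L) * C ^ 2 * ∑ y, ‖Gop P Q l1 y‖ ^ 2 := by gcongr
    _ ≤ _ := by
      gcongr with y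
      exact e5 y

end T2H02.TT
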