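import Pool.Agent.T2H02.TT.StmU
import Pool.Agent.T2H02.TT.C
import Pool.Agent.T2H02.TT.E

/-!
# Package C1u : the linear estimates on the torus with constants `C L²`
-/

set_option autoImplicit false

noncomputable section

open MeasureTheory Matrix
open scoped Matrix.Norms.Frobenius

namespace T2H02.TT

namespace PkgC1u

open PkgC

variable {N : ℕ}

/-! ### the inner product -/

theorem ip_add_right (A B C : Mt N) : ip A (B + C) = ip A B + ip A C := by
  simp [ip, mul_add, trace_add]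

theorem ip_add_left (A B C : Mt N) : ip (A + B) C = ip A C + ip B C := by
  simp [ip, conjTranspose_add, add_mul, trace_add]

theorem ip_smul_right (c : ℝ) (A B : Mt N) : ip A (c • B) = c * ip A B := by
  simp [ip, trace_smul]

theorem ip_smul_left (c : ℝ) (A B : Mt N) : ip (c • A) B = c * ip A B := by
  simp [ip, conjTranspose_smul, trace_smul]

theorem ip_self (A : Mt N) : ip A A = ‖A‖ ^ 2 := by
  have h := PkgE.nsq_tr A
  rw [trace_mul_comm] at h
  have h2 := congrArg Complex.re h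
  rw [Complex.ofReal_re] at h2
  exact h2.symm

theorem ip_adj (g : SU N) (A B : Mt N) : ip (Adj g A) (Adj g B) = ip A B := by
  have h : (Adj g A)ᴴ * Adj g B = Adj g (Aᴴ * B) := by
    simp only [Adj, inv_val, conjTranspose_mul, conjTranspose_conjTranspose]
    calc (g : Mt N) * (Aᴴ * (g : Mt N)ᴴ) * ((g : Mt N) * B * (g : Mt N)ᴴ)
        = (g : Mt N) * Aᴴ * ((g : Mt N)ᴴ * (g : Mt N)) * B * (g : Mt N)ᴴ := by
          simp only [mul_assoc]
      _ = (g : Mt N) * (Aᴴ * B) * (g : Mt N)ᴴ := by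
          rw [conj_mul, mul_one]
          simp only [mul_assoc]
  rw [ip, h, adj_trace, ip]

/-! ### sums over the torus -/

section torus

variable {L : ℕ} [NeZero L]

theorem sum_tsh {M : Type*} [AddCommMonoid M] (f : Tor L → M) (j : Fin 2) :
    ∑ y, f (tsh y j) = ∑ y, f y := by
  have h : ∀ y : Tor L, tsh y j = Equiv.addRight (if j = 0 then ((1, 0) : Tor L) else (0, 1)) y := by
    intro y
    simp only [tsh, Equiv.coe_addRight]
    split_ifs <;> simp [Prod.ext_iff]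
  simp only [h]
  exact Equiv.sum_comp _ f

theorem sum_stp {M : Type*} [AddCommMonoid M] (f : Tor L → M) (j : Fin 2) (n : ℕ) :
    ∑ y, f (PkgE.stp j n y) = ∑ y, f y := by
  induction n with
  | zero => simp only [PkgE.stp_zero]
  | succ n ih =>
    simp only [PkgE.stp_succ]
    rw [sum_tsh (fun y => f (PkgE.stp j n y)) j, ih]

theorem tele (φ : Ph N L) (lam : Tor L → Mt N) (j : Fin 2) (n : ℕ) : ∀ y : Tor L,
    ‖lam y - Adj (hol φ j n y) (lam (PkgE.stp j n y))‖ ≤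
      ∑ i ∈ Finset.range n, ‖dd φ lam (PkgE.stp j i y) j‖ := by
  induction n with
  | zero =>
    intro y
    rw [PkgE.stp_zero, hol, adj_one, sub_self, norm_zero, Finset.sum_range_zero]
  | succ n ih =>
    intro y
    have e : lam y - Adj (hol φ j (n + 1) y) (lam (PkgE.stp j (n + 1) y)) =
        dd φ lam y j + Adj (φ y j) (lam (tsh y j) -
          Adj (hol φ j n (tsh y j)) (lam (PkgE.stp j n (tsh y j)))) := by
      rw [adj_sub, dd, hol, PkgE.stp_succ, adj_adj]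
      have h : Adj (φ y j * hol φ j n (tsh y j)) (lam (PkgE.stp j n (tsh y j))) =
          ((φ y j : Mt N) * (hol φ j n (tsh y j) : Mt N)) * lam (PkgE.stp j n (tsh y j)) *
            ((φ y j : Mt N) * (hol φ j n (tsh y j) : Mt N))ᴴ := rfl
      rw [h]
      abel
    rw [e, Finset.sum_range_succ']
    refine (norm_add_le _ _).trans ?_
    rw [PkgE.norm_adj, PkgE.stp_zero, add_comm]
    refine add_le_add ?_ le_rfl
    have h := ih (tsh y j)
    simp only [PkgE.stp_succ]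
    exact h

theorem tele2 (φ : Ph N L) (lam : Tor L → Mt N) (j : Fin 2) :
    ∑ y, ‖lam y - Adj (hol φ j L y) (lam y)‖ ^ 2 ≤ (L : ℝ) ^ 2 * ∑ y, ‖dd φ lam y j‖ ^ 2 := by
  have h1 : ∀ y : Tor L, ‖lam y - Adj (hol φ j L y) (lam y)‖ ^ 2 ≤
      L * ∑ i ∈ Finset.range L, ‖dd φ lam (PkgE.stp j i y) j‖ ^ 2 := by
    intro y
    have h := tele φ lam j L y
    rw [PkgE.stp_L] at h
    calc ‖lam y - Adj (hol φ j L y) (lam y)‖ ^ 2
        ≤ (∑ i ∈ Finset.range L, ‖dd φ lam (PkgE.stp j i y) j‖) ^ 2 :=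
          pow_le_pow_left₀ (norm_nonneg _) h 2
      _ ≤ (Finset.range L).card * ∑ i ∈ Finset.range L, ‖dd φ lam (PkgE.stp j i y) j‖ ^ 2 :=
          sq_sum_le_card_mul_sum_sq
      _ = _ := by rw [Finset.card_range]
  calc ∑ y, ‖lam y - Adj (hol φ j L y) (lam y)‖ ^ 2
      ≤ ∑ y, L * ∑ i ∈ Finset.range L, ‖dd φ lam (PkgE.stp j i y) j‖ ^ 2 :=
        Finset.sum_le_sum fun y _ => h1 y
    _ = L * ∑ i ∈ Finset.range L, ∑ y, ‖dd φ lam (PkgE.stp j i y) j‖ ^ 2 := by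
        rw [← Finset.mul_sum, Finset.sum_comm]
    _ = L * ∑ i ∈ Finset.range L, ∑ y, ‖dd φ lam y j‖ ^ 2 := by
        congr 1
        exact Finset.sum_congr rfl fun i _ => sum_stp (fun y => ‖dd φ lam y j‖ ^ 2) j i
    _ = _ := by
        rw [Finset.sum_const, Finset.card_range, nsmul_eq_mul]
        ring

end torus

theorem one_site (hB3 : S_B3) {k : ℕ} (hN : 2 ≤ N) (hk : Nat.Coprime k N) {P Q : SU N}
    (h : PQ k P Q) : ∃ C : ℝ, 1 ≤ C ∧ ∀ M : Mt N, M.trace = 0 →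
      ‖M‖ ^ 2 ≤ C * (‖M - Adj P M‖ ^ 2 + ‖M - Adj Q M‖ ^ 2) := by
  obtain ⟨C, hC, h1⟩ := pC1 hB3 N k 1 hN hk P Q h
  refine ⟨C + 1, by linarith, fun M hM => ?_⟩
  have h2 := h1 (fun _ => M) (fun _ => hM)
  have h3 : ∀ y : Tor 1, ∑ j, ‖dd (vac P Q) (fun _ => M) y j‖ ^ 2 =
      ‖M - Adj P M‖ ^ 2 + ‖M - Adj Q M‖ ^ 2 := by
    intro y
    have e0 : (vac P Q : Ph N 1) y 0 = P := by
      simp [vac, Subsingleton.elim y.1 (-1)]
    have e1 : (vac P Q : Ph N 1) y 1 = Q := by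
      simp [vac, Subsingleton.elim y.2 (-1)]
    rw [Fin.sum_univ_two, dd, dd, e0, e1]
  simp only [h3, Finset.sum_const, Finset.card_univ, nsmul_eq_mul] at h2
  have hc : (Fintype.card (Tor 1) : ℝ) = 1 := by
    norm_num [Fintype.card_prod]
  rw [hc, one_mul, one_mul] at h2
  have h4 : 0 ≤ ‖M - Adj P M‖ ^ 2 + ‖M - Adj Q M‖ ^ 2 := by positivity
  linarith

/-! ### C2u -/

section vacuum

variable {L : ℕ} [NeZero L]

/-- transport -/
def Sj (P Q : SU N) (j : Fin 2) (lam : Tor L → Mt N) (y : Tor L) : Mt N :=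
  Adj ((vac P Q : Ph N L) y j) (lam (tsh y j))

/-- inner product of matrix fields -/
def bi (u v : Tor L → Mt N) : ℝ := ∑ y, ip (u y) (v y)

theorem bi_S (P Q : SU N) (j : Fin 2) (u v : Tor L → Mt N) :
    bi (Sj P Q j u) (Sj P Q j v) = bi u v := by
  simp only [bi, Sj, ip_adj]
  exact sum_tsh (fun y => ip (u y) (v y)) j

theorem bi_add_left (u v w : Tor L → Mt N) : bi (u + v) w = bi u w + bi v w := by
  simp only [bi, Pi.add_apply, ip_add_left, Finset.sum_add_distrib]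

theorem bi_add_right (u v w : Tor L → Mt N) : bi u (v + w) = bi u v + bi u w := by
  simp only [bi, Pi.add_apply, ip_add_right, Finset.sum_add_distrib]

theorem bi_smul_left (c : ℝ) (u v : Tor L → Mt N) : bi (c • u) v = c * bi u v := by
  simp only [bi, Pi.smul_apply, ip_smul_left, Finset.mul_sum]

theorem bi_smul_right (c : ℝ) (u v : Tor L → Mt N) : bi u (c • v) = c * bi u v := by
  simp only [bi, Pi.smul_apply, ip_smul_right, Finset.mul_sum]

theorem bi_sub_left (u v w : Tor L → Mt N) : bi (u - v) w = bi u w - bi v w := by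
  rw [sub_eq_add_neg, bi_add_left, ← neg_one_smul ℝ v, bi_smul_left]
  ring

theorem bi_sub_right (u v w : Tor L → Mt N) : bi u (v - w) = bi u v - bi u w := by
  rw [sub_eq_add_neg, bi_add_right, ← neg_one_smul ℝ w, bi_smul_right]
  ring

theorem ip_comm (A B : Mt N) : ip A B = ip B A := by
  have h : (Bᴴ * A) = (Aᴴ * B)ᴴ := by
    rw [conjTranspose_mul, conjTranspose_conjTranspose]
  rw [ip, ip, h, trace_conjTranspose]
  rfl

theorem bi_comm (u v : Tor L → Mt N) : bi u v = bi v u := by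
  simp only [bi, ip_comm]

theorem bi_self (u : Tor L → Mt N) : bi u u = ∑ y, ‖u y‖ ^ 2 := by
  simp only [bi, ip_self]

theorem Sj_comm {k : ℕ} {P Q : SU N} (h : PQ k P Q) (u : Tor L → Mt N) :
    Sj P Q 0 (Sj P Q 1 u) = Sj P Q 1 (Sj P Q 0 u) := by
  funext y
  simp only [Sj]
  rw [vac_flat h, tsh_comm]

theorem Sj_sub (P Q : SU N) (j : Fin 2) (u v : Tor L → Mt N) :
    Sj P Q j (u - v) = Sj P Q j u - Sj P Q j v := by
  funext y
  simp only [Sj, Pi.sub_apply, adj_sub]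

/-- the identity `‖A₁ b₀ - A₀ b₁‖² + ‖G‖² = ∑ ‖A_j b_i‖²` -/
theorem key {k : ℕ} {P Q : SU N} (h : PQ k P Q) (b0 b1 : Tor L → Mt N) :
    bi ((b0 - Sj P Q 1 b0) - (b1 - Sj P Q 0 b1)) ((b0 - Sj P Q 1 b0) - (b1 - Sj P Q 0 b1)) +
      bi (Sj P Q 1 (b0 - Sj P Q 0 b0) + Sj P Q 0 (b1 - Sj P Q 1 b1))
        (Sj P Q 1 (b0 - Sj P Q 0 b0) + Sj P Q 0 (b1 - Sj P Q 1 b1)) =
    bi (b0 - Sj P Q 0 b0) (b0 - Sj P Q 0 b0) + bi (b0 - Sj P Q 1 b0) (b0 - Sj P Q 1 b0) +
      bi (b1 - Sj P Q 0 b1) (b1 - Sj P Q 0 b1) + bi (b1 - Sj P Q 1 b1) (b1 - Sj P Q 1 b1) := by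
  have e1 : bi (Sj P Q 1 (b0 - Sj P Q 0 b0)) (Sj P Q 0 (b1 - Sj P Q 1 b1)) =
      bi (b0 - Sj P Q 1 b0) (b1 - Sj P Q 0 b1) := by
    rw [Sj_sub, Sj_sub]
    simp only [bi_sub_left, bi_sub_right]
    have a1 : bi (Sj P Q 1 b0) (Sj P Q 0 (Sj P Q 1 b1)) = bi b0 (Sj P Q 0 b1) := by
      rw [Sj_comm h, bi_S]
    have a2 : bi (Sj P Q 1 (Sj P Q 0 b0)) (Sj P Q 0 b1) = bi (Sj P Q 1 b0) b1 := by
      rw [← Sj_comm h, bi_S]
    have a3 : bi (Sj P Q 1 (Sj P Q 0 b0)) (Sj P Q 0 (Sj P Q 1 b1)) = bi b0 b1 := by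
      rw [Sj_comm h b1, bi_S, bi_S]
    rw [a1, a2, a3]
    ring
  have e2 := bi_S P Q 1 (b0 - Sj P Q 0 b0) (b0 - Sj P Q 0 b0)
  have e3 := bi_S P Q 0 (b1 - Sj P Q 1 b1) (b1 - Sj P Q 1 b1)
  have e4 : ∀ u v : Tor L → Mt N, bi (u - v) (u - v) = bi u u + bi v v - 2 * bi u v := by
    intro u v
    simp only [bi_sub_left, bi_sub_right]
    rw [bi_comm v u]
    ring
  have e5 : ∀ u v : Tor L → Mt N, bi (u + v) (u + v) = bi u u + bi v v + 2 * bi u v := by
    intro u v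
    simp only [bi_add_left, bi_add_right]
    rw [bi_comm v u]
    ring
  rw [e4 (b0 - Sj P Q 1 b0) (b1 - Sj P Q 0 b1),
    e5 (Sj P Q 1 (b0 - Sj P Q 0 b0)) (Sj P Q 0 (b1 - Sj P Q 1 b1)), e1, e2, e3]
  ring

/-- the inner product on `su N` valued fields -/
def bil : (Tor L → suS N) →ₗ[ℝ] (Tor L → suS N) →ₗ[ℝ] ℝ :=
  LinearMap.mk₂ ℝ (fun u v => bi (fun y => (u y : Mt N)) (fun y => (v y : Mt N)))
    (fun _ _ _ => bi_add_left _ _ _) (fun c _ _ => bi_smul_left c _ _)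
    (fun _ _ _ => bi_add_right _ _ _) (fun c _ _ => bi_smul_right c _ _)

theorem bil_apply (u v : Tor L → suS N) :
    bil u v = bi (fun y => (u y : Mt N)) (fun y => (v y : Mt N)) := rfl

theorem bil_zero {u : Tor L → suS N} (h : bil u u = 0) : u = 0 := by
  rw [bil_apply, bi_self] at h
  funext y
  apply Subtype.ext
  have h1 := (Finset.sum_eq_zero_iff_of_nonneg fun y _ => by positivity).1 h y (Finset.mem_univ y)
  have h2 : ‖(u y : Mt N)‖ = 0 := by
    simpa using h1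
  exact norm_eq_zero.1 h2

theorem dd_eq (P Q : SU N) (lam : Tor L → Mt N) (j : Fin 2) :
    (fun y => dd (vac P Q) lam y j) = lam - Sj P Q j lam := rfl

/-- the transport on `su N` valued fields -/
def Sop (P Q : SU N) (j : Fin 2) : (Tor L → suS N) →ₗ[ℝ] (Tor L → suS N) :=
  LinearMap.id - Dop P Q j

theorem Sop_val (P Q : SU N) (j : Fin 2) (u : Tor L → suS N) :
    (fun y => ((Sop P Q j u) y : Mt N)) = Sj P Q j (fun y => (u y : Mt N)) := by
  funext y
  change ((u y : Mt N) - ((u y : Mt N) -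
      Adj ((vac P Q : Ph N L) y j) (u (tsh y j) : Mt N))) = _
  rw [sub_sub_cancel]
  rfl

theorem Sop_bil (P Q : SU N) (j : Fin 2) (u v : Tor L → suS N) :
    bil (Sop P Q j u) (Sop P Q j v) = bil u v := by
  rw [bil_apply, bil_apply, Sop_val, Sop_val, bi_S]

theorem Sop_surj (P Q : SU N) (j : Fin 2) : Function.Surjective (Sop (L := L) P Q j) := by
  apply LinearMap.surjective_of_injective
  rw [← LinearMap.ker_eq_bot, LinearMap.ker_eq_bot']
  intro u hu
  apply bil_zero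
  rw [← Sop_bil P Q j, hu, map_zero]

/-- orthogonality to all gradients gives `G = 0` -/
theorem G_zero {k : ℕ} {P Q : SU N} (h : PQ k P Q) (b0 b1 : Tor L → suS N)
    (ho : ∀ mu : Tor L → suS N, bil b0 (Dop P Q 0 mu) + bil b1 (Dop P Q 1 mu) = 0) :
    bi (Sj P Q 1 ((fun y => (b0 y : Mt N)) - Sj P Q 0 (fun y => (b0 y : Mt N))) +
        Sj P Q 0 ((fun y => (b1 y : Mt N)) - Sj P Q 1 (fun y => (b1 y : Mt N))))
      (Sj P Q 1 ((fun y => (b0 y : Mt N)) - Sj P Q 0 (fun y => (b0 y : Mt N))) +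
        Sj P Q 0 ((fun y => (b1 y : Mt N)) - Sj P Q 1 (fun y => (b1 y : Mt N)))) = 0 := by
  obtain ⟨m1, hm1⟩ := Sop_surj (L := L) P Q 0
    (Sop P Q 1 (Dop P Q 0 b0) + Sop P Q 0 (Dop P Q 1 b1))
  obtain ⟨mu, hmu⟩ := Sop_surj (L := L) P Q 1 m1
  set u0 : Tor L → Mt N := fun y => (b0 y : Mt N) with hu0
  set u1 : Tor L → Mt N := fun y => (b1 y : Mt N) with hu1
  set w : Tor L → Mt N := fun y => (mu y : Mt N) with hw
  have eG : Sj P Q 1 (u0 - Sj P Q 0 u0) + Sj P Q 0 (u1 - Sj P Q 1 u1) = Sj P Q 0 (Sj P Q 1 w) := by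
    have h1 : (fun y => ((Sop P Q 1 (Dop P Q 0 b0) + Sop P Q 0 (Dop P Q 1 b1) : Tor L → suS N) y : Mt N))
        = Sj P Q 1 (u0 - Sj P Q 0 u0) + Sj P Q 0 (u1 - Sj P Q 1 u1) := by
      change (fun y => ((Sop P Q 1 (Dop P Q 0 b0)) y : Mt N)) +
        (fun y => ((Sop P Q 0 (Dop P Q 1 b1)) y : Mt N)) = _
      rw [Sop_val, Sop_val]
      rfl
    rw [← h1, ← hm1, Sop_val, ← hmu, Sop_val]
  have e1 : bi (Sj P Q 1 (u0 - Sj P Q 0 u0)) (Sj P Q 0 (Sj P Q 1 w)) = - bi u0 (w - Sj P Q 0 w) := by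
    rw [Sj_comm h, bi_S]
    rw [bi_sub_left, bi_S, bi_sub_right]
    ring
  have e2 : bi (Sj P Q 0 (u1 - Sj P Q 1 u1)) (Sj P Q 0 (Sj P Q 1 w)) = - bi u1 (w - Sj P Q 1 w) := by
    rw [bi_S, bi_sub_left, bi_S, bi_sub_right]
    ring
  have e3 : bi u0 (w - Sj P Q 0 w) + bi u1 (w - Sj P Q 1 w) = 0 := ho mu
  have e4 : bi (Sj P Q 1 (u0 - Sj P Q 0 u0) + Sj P Q 0 (u1 - Sj P Q 1 u1))
      (Sj P Q 0 (Sj P Q 1 w)) = 0 := by
    rw [bi_add_left, e1, e2]
    linarith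
  rw [← eG] at e4
  exact e4

/-- the least squares problem -/
theorem lsq (hB3 : S_B3) {k : ℕ} (hN : 2 ≤ N) (hk : Nat.Coprime k N) {P Q : SU N}
    (h : PQ k P Q) (a0 a1 : Tor L → suS N) : ∃ lam : Tor L → suS N, ∀ mu : Tor L → suS N,
      bil (a0 - Dop P Q 0 lam) (Dop P Q 0 mu) + bil (a1 - Dop P Q 1 lam) (Dop P Q 1 mu) = 0 := by
  let T : (Tor L → suS N) →ₗ[ℝ] Module.Dual ℝ (Tor L → suS N) :=
    (bil.compl₁₂ (Dop P Q 0) (Dop P Q 0)) + (bil.compl₁₂ (Dop P Q 1) (Dop P Q 1))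
  have hT : ∀ x z, T x z = bil (Dop P Q 0 x) (Dop P Q 0 z) + bil (Dop P Q 1 x) (Dop P Q 1 z) :=
    fun _ _ => rfl
  have hinj : Function.Injective T := by
    rw [← LinearMap.ker_eq_bot, LinearMap.ker_eq_bot']
    intro x hx
    have h1 : T x x = 0 := by rw [hx]; rfl
    rw [hT] at h1
    have n0 : 0 ≤ bil (Dop P Q 0 x) (Dop P Q 0 x) := by
      rw [bil_apply, bi_self]; positivity
    have n1 : 0 ≤ bil (Dop P Q 1 x) (Dop P Q 1 x) := by
      rw [bil_apply, bi_self]; positivity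
    have z0 := bil_zero (u := Dop P Q 0 x) (by linarith)
    have z1 := bil_zero (u := Dop P Q 1 x) (by linarith)
    obtain ⟨c, hc⟩ := hB3 N k L hN hk P Q h (fun y => (x y : Mt N)) (by
      intro y j
      fin_cases j
      · exact congrArg Subtype.val (congrFun z0 y)
      · exact congrArg Subtype.val (congrFun z1 y))
    funext y
    apply Subtype.ext
    have h1 : ((x y : Mt N)).trace = 0 := (x y).2.2
    have h2 : (x y : Mt N) = c • (1 : Mt N) := hc y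
    rw [h2, trace_smul, trace_one, Fintype.card_fin, smul_eq_mul, mul_eq_zero] at h1
    have h3 : c = 0 := by
      rcases h1 with h1 | h1
      · exact h1
      · exfalso
        have : N = 0 := by exact_mod_cast h1
        omega
    rw [h2, h3, zero_smul]
    rfl
  have hsurj : Function.Surjective T :=
    (LinearMap.injective_iff_surjective_of_finrank_eq_finrank
      (Subspace.dual_finrank_eq (K := ℝ) (V := Tor L → suS N)).symm).1 hinj
  let l : Module.Dual ℝ (Tor L → suS N) :=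
    (bil a0).comp (Dop P Q 0) + (bil a1).comp (Dop P Q 1)
  obtain ⟨lam, hlam⟩ := hsurj l
  refine ⟨lam, fun mu => ?_⟩
  have h1 : T lam mu = l mu := by rw [hlam]
  rw [hT] at h1
  have h2 : l mu = bil a0 (Dop P Q 0 mu) + bil a1 (Dop P Q 1 mu) := rfl
  rw [map_sub, map_sub, LinearMap.sub_apply, LinearMap.sub_apply]
  linarith

end vacuum

end PkgC1u

open PkgC PkgC1u

theorem pC1u (hB3 : S_B3) : S_C1u := by
  intro N k hN hk P Q h
  obtain ⟨C, hC, h1⟩ := one_site hB3 hN hk h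
  refine ⟨C, hC, fun L _ lam hlam => ?_⟩
  have h2 : ∑ y, ‖lam y‖ ^ 2 ≤
      C * (∑ y, ‖lam y - Adj P (lam y)‖ ^ 2 + ∑ y, ‖lam y - Adj Q (lam y)‖ ^ 2) := by
    rw [← Finset.sum_add_distrib, Finset.mul_sum]
    exact Finset.sum_le_sum fun y _ => h1 (lam y) (hlam y)
  have h3 := tele2 (vac P Q : Ph N L) lam 0
  have h4 := tele2 (vac P Q : Ph N L) lam 1
  simp only [PkgE.hol_vac_L0] at h3
  simp only [PkgE.hol_vac_L1] at h4
  have h5 : ∑ y, ∑ j, ‖dd (vac P Q) lam y j‖ ^ 2 =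
      ∑ y, ‖dd (vac P Q) lam y 0‖ ^ 2 + ∑ y, ‖dd (vac P Q) lam y 1‖ ^ 2 := by
    rw [← Finset.sum_add_distrib]
    exact Finset.sum_congr rfl fun y _ => Fin.sum_univ_two _
  rw [h5]
  have hC0 : (0 : ℝ) ≤ C := by linarith
  nlinarith [mul_le_mul_of_nonneg_left (add_le_add h3 h4) hC0]

theorem pC2u (hB3 : S_B3) : S_C2u := by
  intro N k hN hk P Q h
  obtain ⟨C, hC, h1⟩ := pC1u hB3 N k hN hk P Q h
  refine ⟨C, hC, fun L _ a ha => ?_⟩
  let a0 : Tor L → suS N := fun y => ⟨a y 0, ha y 0⟩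
  let a1 : Tor L → suS N := fun y => ⟨a y 1, ha y 1⟩
  obtain ⟨lam, hlam⟩ := lsq hB3 hN hk h a0 a1
  set b0 : Tor L → suS N := a0 - Dop P Q 0 lam with hb0
  set b1 : Tor L → suS N := a1 - Dop P Q 1 lam with hb1
  have v0 : ∀ y, (b0 y : Mt N) = a y 0 - dd (vac P Q) (fun z => (lam z : Mt N)) y 0 := fun _ => rfl
  have v1 : ∀ y, (b1 y : Mt N) = a y 1 - dd (vac P Q) (fun z => (lam z : Mt N)) y 1 := fun _ => rfl
  refine ⟨fun y => (lam y : Mt N), fun y => (lam y).2, ?_, ?_⟩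
  · intro mu hmu
    have h2 := hlam (fun y => ⟨mu y, hmu y⟩)
    rw [bil_apply, bil_apply, bi, bi, ← Finset.sum_add_distrib] at h2
    rw [← h2]
    refine Finset.sum_congr rfl fun y _ => ?_
    rw [Fin.sum_univ_two]
    rfl
  · have hG := G_zero h b0 b1 hlam
    have hk2 := key h (fun y => (b0 y : Mt N)) (fun y => (b1 y : Mt N))
    rw [hG, add_zero] at hk2
    have c0 := h1 L (fun y => (b0 y : Mt N)) (fun y => (b0 y).2.2)
    have c1 := h1 L (fun y => (b1 y : Mt N)) (fun y => (b1 y).2.2)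
    have ecrl : ((fun y => (b0 y : Mt N)) - Sj P Q 1 (fun y => (b0 y : Mt N))) -
        ((fun y => (b1 y : Mt N)) - Sj P Q 0 (fun y => (b1 y : Mt N))) =
        fun y => crl (vac P Q) a y := by
      have h3 : Dop P Q 1 b0 - Dop P Q 0 b1 = Dop P Q 1 a0 - Dop P Q 0 a1 := by
        rw [hb0, hb1, map_sub, map_sub, Dop_comm h lam]
        abel
      funext y
      have h4 := congrArg Subtype.val (congrFun h3 y)
      have h5 : ((Dop P Q 1 a0 - Dop P Q 0 a1 : Tor L → suS N) y : Mt N) =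
          crl (vac P Q) a y := by
        change (a y 0 - Adj ((vac P Q : Ph N L) y 1) (a (tsh y 1) 0)) -
          (a y 1 - Adj ((vac P Q : Ph N L) y 0) (a (tsh y 0) 1)) = _
        simp only [crl]
        abel
      rw [← h5]
      exact h4
    rw [ecrl, bi_self] at hk2
    have s0 : ∀ b : Tor L → suS N, ∑ y, ∑ j, ‖dd (vac P Q) (fun z => (b z : Mt N)) y j‖ ^ 2 =
        bi ((fun y => (b y : Mt N)) - Sj P Q 0 (fun y => (b y : Mt N)))
          ((fun y => (b y : Mt N)) - Sj P Q 0 (fun y => (b y : Mt N))) +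
        bi ((fun y => (b y : Mt N)) - Sj P Q 1 (fun y => (b y : Mt N)))
          ((fun y => (b y : Mt N)) - Sj P Q 1 (fun y => (b y : Mt N))) := by
      intro b
      rw [bi_self, bi_self, ← Finset.sum_add_distrib]
      refine Finset.sum_congr rfl fun y _ => ?_
      rw [Fin.sum_univ_two]
      rfl
    rw [s0] at c0 c1
    have hL : ∑ y, ∑ j, ‖a y j - dd (vac P Q) (fun z => (lam z : Mt N)) y j‖ ^ 2 =
        ∑ y, ‖(b0 y : Mt N)‖ ^ 2 + ∑ y, ‖(b1 y : Mt N)‖ ^ 2 := by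
      rw [← Finset.sum_add_distrib]
      refine Finset.sum_congr rfl fun y _ => ?_
      rw [Fin.sum_univ_two, v0, v1]
    rw [hL, hk2]
    refine (add_le_add c0 c1).trans (le_of_eq ?_)
    ring

end T2H02.TT
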