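import Pool.Agent.T2H02.TT.StmU
import Pool.Agent.T2H02.TT.D
import Pool.Agent.T2H02.TT.B

/-!
# Package D1u : quadratic lower bounds with constants polynomial in `L`
-/

set_option autoImplicit false
set_option linter.unusedSectionVars false
set_option linter.unusedVariables false

noncomputable section

open MeasureTheory Matrix
open scoped Matrix.Norms.Frobenius

namespace T2H02.TT.PkgD1u

open T2H02.TT

variable {N L : ℕ} [NeZero L]

/-- a chain of small steps -/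
theorem cycq {E : Type*} [SeminormedAddCommGroup E] (f : ZMod L → E) {v : ℝ} (hv : 0 ≤ v)
    (h : ∀ a, a ≠ -1 → ‖f a - f (a + 1)‖ ≤ v) (a : ZMod L) : ‖f a - f 0‖ ≤ L * v := by
  have key : ∀ n : ℕ, n < L → ‖f (n : ZMod L) - f 0‖ ≤ n * v := by
    intro n
    induction n with
    | zero => intro _; simp
    | succ n ih =>
      intro hn
      have h1 := ih (by omega)
      have h2 : ((n : ℕ) : ZMod L) ≠ -1 := by
        intro e
        have e2 : ((n + 1 : ℕ) : ZMod L) = 0 := by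
          push_cast
          rw [e]
          ring
        rw [ZMod.natCast_eq_zero_iff] at e2
        exact absurd (Nat.le_of_dvd (by omega) e2) (by omega)
      have h3 := h _ h2
      push_cast
      calc ‖f ((n : ZMod L) + 1) - f 0‖ =
            ‖(f (n : ZMod L) - f 0) - (f (n : ZMod L) - f ((n : ZMod L) + 1))‖ := by
            congr 1; abel
        _ ≤ ‖f (n : ZMod L) - f 0‖ + ‖f (n : ZMod L) - f ((n : ZMod L) + 1)‖ := norm_sub_le _ _
        _ ≤ n * v + v := add_le_add h1 h3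
        _ = (n + 1) * v := by ring
  have h1 := key a.val (ZMod.val_lt a)
  rw [ZMod.natCast_zmod_val] at h1
  refine h1.trans ?_
  have : (a.val : ℝ) ≤ L := by exact_mod_cast (ZMod.val_lt a).le
  gcongr

lemma one_le_L : (1 : ℝ) ≤ L := by exact_mod_cast Nat.pos_of_ne_zero (NeZero.ne L)

lemma t0 (a b : ZMod L) : tsh ((a, b) : Tor L) 0 = (a + 1, b) := by simp [tsh]

lemma t1 (a b : ZMod L) : tsh ((a, b) : Tor L) 1 = (a, b + 1) := by simp [tsh]

/-- plaquettes are small -/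
lemma pq_le (k : ℕ) (φ : Ph N L) (y : Tor L) : ‖PkgD.pq k φ y‖ ≤ Real.sqrt (2 * VV k φ) := by
  apply Real.le_sqrt_of_sq_le
  have h := Finset.single_le_sum (f := fun y => ‖PkgD.pq k φ y‖ ^ 2 / 2) (fun y _ => by positivity)
    (Finset.mem_univ y)
  rw [← PkgD.VV_eq] at h
  linarith

section tree

variable {k : ℕ} (φ : Ph N L)

/-- the configuration in tree gauge -/
def ps (φ : Ph N L) : Ph N L := act (PkgB.tg φ) φ

/-- the size of the plaquettes -/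
def ww (k : ℕ) (φ : Ph N L) : ℝ := Real.sqrt (2 * VV k φ)

lemma ww_nonneg : 0 ≤ ww k φ := Real.sqrt_nonneg _

lemma ww_sq : ww k φ ^ 2 = 2 * VV k φ := by
  rw [ww, Real.sq_sqrt]
  have := PkgD.VV_nonneg k φ
  linarith

lemma pq_ps (y : Tor L) : ‖PkgD.pq k (ps φ) y‖ ≤ ww k φ := by
  have h := pq_le k (ps φ) y
  rwa [ps, PkgD.VV_act] at h

lemma ps1 (a b : ZMod L) (h : b ≠ -1) : ps φ (a, b) 1 = 1 := PkgB.tg_col φ (a, b) h

lemma ps0 (a : ZMod L) (h : a ≠ -1) : ps φ (a, 0) 0 = 1 := PkgB.tg_row φ a h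

lemma col (a b : ZMod L) :
    ‖(ps φ (a, b) 0 : Mt N) - (ps φ (a, 0) 0 : Mt N)‖ ≤ L * ww k φ := by
  refine cycq (fun b => (ps φ (a, b) 0 : Mt N)) (ww_nonneg φ) (fun b hb => ?_) b
  have h := pq_ps (k := k) φ (a, b)
  have e2 : tw N k ((a, b) : Tor L) = 1 := by
    rw [tw, if_neg]
    intro e3
    exact hb (congrArg Prod.snd e3)
  rw [PkgD.pq, t0, t1, ps1 φ (a + 1) b hb, ps1 φ a b hb, e2, one_smul, PkgD.cone, Matrix.mul_one,
    Matrix.one_mul] at h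
  exact h

lemma near_one (a b : ZMod L) (ha : a ≠ -1) : ‖(ps φ (a, b) 0 : Mt N) - 1‖ ≤ L * ww k φ := by
  have h := col (k := k) φ a b
  rwa [ps0 φ a ha, PkgD.cone] at h

lemma row (a : ZMod L) :
    ‖(ps φ (a, -1) 1 : Mt N) - (ps φ (0, -1) 1 : Mt N)‖ ≤ L * (2 * L * ww k φ) := by
  have hL := one_le_L (L := L)
  have hw := ww_nonneg (k := k) φ
  refine cycq (fun a => (ps φ (a, -1) 1 : Mt N)) (by positivity) (fun a ha => ?_) a
  have h := pq_ps (k := k) φ (a, -1)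
  have e2 : tw N k ((a, -1) : Tor L) = 1 := by
    rw [tw, if_neg]
    intro e3
    exact ha (congrArg Prod.fst e3)
  rw [PkgD.pq, t0, t1, show (-1 : ZMod L) + 1 = 0 by ring, ps0 φ a ha, e2, one_smul, PkgD.cone,
    Matrix.mul_one] at h
  have h1 := near_one (k := k) φ a (-1) ha
  have e : (ps φ (a, -1) 1 : Mt N) - (ps φ (a + 1, -1) 1 : Mt N) =
      ((ps φ (a, -1) 0 : Mt N) - 1) * (ps φ (a + 1, -1) 1 : Mt N) -
      ((ps φ (a, -1) 0 : Mt N) * (ps φ (a + 1, -1) 1 : Mt N) - (ps φ (a, -1) 1 : Mt N)) := by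
    rw [Matrix.sub_mul, Matrix.one_mul]
    abel
  show ‖(ps φ (a, -1) 1 : Mt N) - (ps φ (a + 1, -1) 1 : Mt N)‖ ≤ 2 * L * ww k φ
  rw [e]
  refine (norm_sub_le _ _).trans ?_
  rw [PkgD.nr]
  have h2 : ww k φ ≤ L * ww k φ := le_mul_of_one_le_left hw hL
  linarith

lemma corner :
    ‖(ps φ (-1, 0) 0 : Mt N) * (ps φ (0, -1) 1 : Mt N) -
      om N k • ((ps φ (0, -1) 1 : Mt N) * (ps φ (-1, 0) 0 : Mt N))‖ ≤ 4 * (L : ℝ) ^ 2 * ww k φ := by
  have hL := one_le_L (L := L)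
  have hw := ww_nonneg (k := k) φ
  have h := pq_ps (k := k) φ (-1, -1)
  have e2 : tw N k ((-1, -1) : Tor L) = om N k := by
    rw [tw, if_pos rfl]
  rw [PkgD.pq, t0, t1, show (-1 : ZMod L) + 1 = 0 by ring, e2] at h
  have h1 := col (k := k) φ (-1) (-1)
  have h2 := row (k := k) φ (-1)
  have e : (ps φ (-1, 0) 0 : Mt N) * (ps φ (0, -1) 1 : Mt N) -
      om N k • ((ps φ (0, -1) 1 : Mt N) * (ps φ (-1, 0) 0 : Mt N)) =
      ((ps φ (-1, -1) 0 : Mt N) * (ps φ (0, -1) 1 : Mt N) -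
        om N k • ((ps φ (-1, -1) 1 : Mt N) * (ps φ (-1, 0) 0 : Mt N))) -
      ((ps φ (-1, -1) 0 : Mt N) - (ps φ (-1, 0) 0 : Mt N)) * (ps φ (0, -1) 1 : Mt N) +
      om N k • (((ps φ (-1, -1) 1 : Mt N) - (ps φ (0, -1) 1 : Mt N)) *
        (ps φ (-1, 0) 0 : Mt N)) := by
    rw [Matrix.sub_mul, Matrix.sub_mul, smul_sub]
    abel
  rw [e]
  have h3 : ‖om N k • (((ps φ (-1, -1) 1 : Mt N) - (ps φ (0, -1) 1 : Mt N)) *
        (ps φ (-1, 0) 0 : Mt N))‖ ≤ L * (2 * L * ww k φ) := by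
    rw [norm_smul, PkgD.om_norm, one_mul, PkgD.nr]
    exact h2
  have h4 : ‖((ps φ (-1, -1) 0 : Mt N) - (ps φ (-1, 0) 0 : Mt N)) *
      (ps φ (0, -1) 1 : Mt N)‖ ≤ L * ww k φ := by
    rw [PkgD.nr]
    exact h1
  refine (norm_add_le _ _).trans ?_
  have h5 := norm_sub_le ((ps φ (-1, -1) 0 : Mt N) * (ps φ (0, -1) 1 : Mt N) -
        om N k • ((ps φ (-1, -1) 1 : Mt N) * (ps φ (-1, 0) 0 : Mt N)))
      (((ps φ (-1, -1) 0 : Mt N) - (ps φ (-1, 0) 0 : Mt N)) * (ps φ (0, -1) 1 : Mt N))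
  have h6 : (L : ℝ) * ww k φ ≤ (L : ℝ) ^ 2 * ww k φ := by
    have : (L : ℝ) ≤ (L : ℝ) ^ 2 := by nlinarith
    gcongr
  have h7 : ww k φ ≤ L * ww k φ := le_mul_of_one_le_left hw hL
  nlinarith

end tree

/-! ### the torus with one point -/

lemma sub1 : Subsingleton (ZMod 1) := ZMod.subsingleton_iff.2 rfl

/-- two holonomies as a configuration on the torus with one point -/
def p1 (A B : SU N) : Ph N 1 := fun _ j => if j = 0 then A else B

lemma VV_p1 (k : ℕ) (A B : SU N) : VV k (p1 A B) =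
    ‖(A : Mt N) * (B : Mt N) - om N k • ((B : Mt N) * (A : Mt N))‖ ^ 2 / 2 := by
  have := sub1
  have hy : ∀ y : Tor 1, y = 0 := fun y => Subsingleton.elim _ _
  rw [VV, Finset.sum_eq_single (0 : Tor 1) (fun y _ h => absurd (hy y) h)
    (fun h => absurd (Finset.mem_univ _) h)]
  have e2 : tw N k (0 : Tor 1) = om N k := by
    rw [tw, if_pos (Subsingleton.elim _ _)]
  rw [e2]
  simp [p1]

lemma vac1 (P Q : SU N) (y : Tor 1) (j : Fin 2) :
    (vac P Q : Ph N 1) y j = if j = 0 then P else Q := by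
  have := sub1
  have h1 : y.1 = -1 := Subsingleton.elim _ _
  have h2 : y.2 = -1 := Subsingleton.elim _ _
  rw [vac, if_pos h1, if_pos h2]

lemma act1 (g : Tor 1 → SU N) (φ : Ph N 1) (j : Fin 2) :
    act g φ 0 j = g 0 * φ 0 j * (g 0)⁻¹ := by
  have := sub1
  rw [act, Subsingleton.elim (tsh (0 : Tor 1) j) 0]

lemma dst1 (P Q : SU N) (g : Tor 1 → SU N) (A B : SU N) :
    ‖((g 0 * A * (g 0)⁻¹ : SU N) : Mt N) - (P : Mt N)‖ ^ 2 ≤
      dst (act g (p1 A B)) (vac P Q : Ph N 1) ∧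
    ‖((g 0 * B * (g 0)⁻¹ : SU N) : Mt N) - (Q : Mt N)‖ ^ 2 ≤
      dst (act g (p1 A B)) (vac P Q : Ph N 1) := by
  constructor
  · have h := PkgD.le_dst (act g (p1 A B)) (vac P Q : Ph N 1) 0 0
    rw [act1, vac1, if_pos rfl] at h
    exact h
  · have h := PkgD.le_dst (act g (p1 A B)) (vac P Q : Ph N 1) 0 1
    rw [act1, vac1, if_neg (by decide)] at h
    exact h

lemma conj_dist (g A P : SU N) (X : SU N) :
    ‖((g * X * g⁻¹ : SU N) : Mt N) - (P : Mt N)‖ ≤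
      ‖(X : Mt N) - (A : Mt N)‖ + ‖((g * A * g⁻¹ : SU N) : Mt N) - (P : Mt N)‖ := by
  have e : ((g * X * g⁻¹ : SU N) : Mt N) - (P : Mt N) =
      (((g * X * g⁻¹ : SU N) : Mt N) - ((g * A * g⁻¹ : SU N) : Mt N)) +
        (((g * A * g⁻¹ : SU N) : Mt N) - (P : Mt N)) := by abel
  have e2 : ((g * X * g⁻¹ : SU N) : Mt N) - ((g * A * g⁻¹ : SU N) : Mt N) =
      (g : Mt N) * ((X : Mt N) - (A : Mt N)) * ((g⁻¹ : SU N) : Mt N) := by
    simp only [PkgD.cmul, Matrix.mul_sub, Matrix.sub_mul]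
  rw [e]
  refine (norm_add_le _ _).trans ?_
  rw [e2, PkgD.nr, PkgD.nl]

lemma sum_dst (φ ψ : Ph N L) {c : ℝ} (h : ∀ y j, ‖(φ y j : Mt N) - (ψ y j : Mt N)‖ ^ 2 ≤ c) :
    dst φ ψ ≤ 2 * (L : ℝ) ^ 2 * c := by
  have hc : Fintype.card (Tor L) = L ^ 2 := by
    rw [Fintype.card_prod, ZMod.card, sq]
  calc dst φ ψ ≤ ∑ y : Tor L, ∑ j : Fin 2, c :=
        Finset.sum_le_sum fun y _ => Finset.sum_le_sum fun j _ => h y j
    _ = 2 * (L : ℝ) ^ 2 * c := by
        rw [Finset.sum_const, Finset.sum_const, Finset.card_univ, Finset.card_univ, hc,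
          Fintype.card_fin, nsmul_eq_mul, nsmul_eq_mul]
        push_cast
        ring

end T2H02.TT.PkgD1u

namespace T2H02.TT

open PkgD1u

theorem pD1u (hD1 : S_D1) : S_D1u := by
  intro N k hN hk P Q hPQ
  obtain ⟨C1, hC1, h1⟩ := hD1 N k 1 hN hk P Q hPQ
  refine ⟨32 + 64 * C1, 6, by linarith, fun L _ φ => ?_⟩
  have hL := one_le_L (L := L)
  have hw := ww_nonneg (k := k) φ
  have hw2 := ww_sq (k := k) φ
  have hV := PkgD.VV_nonneg k φ
  obtain ⟨g1, hg1⟩ := h1 (p1 (ps φ (-1, 0) 0) (ps φ (0, -1) 1))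
  set g : SU N := g1 0 with hg
  set A : SU N := ps φ (-1, 0) 0 with hA
  set B : SU N := ps φ (0, -1) 1 with hB
  obtain ⟨hP1, hQ1⟩ := dst1 P Q g1 A B
  rw [VV_p1] at hg1
  have hc := corner (k := k) φ
  rw [← hA, ← hB] at hc
  have hE : C1 * (‖(A : Mt N) * (B : Mt N) - om N k • ((B : Mt N) * (A : Mt N))‖ ^ 2 / 2) ≤
      16 * C1 * (L : ℝ) ^ 4 * VV k φ := by
    have h2 : ‖(A : Mt N) * (B : Mt N) - om N k • ((B : Mt N) * (A : Mt N))‖ ^ 2 ≤
        (4 * (L : ℝ) ^ 2 * ww k φ) ^ 2 := pow_le_pow_left₀ (norm_nonneg _) hc 2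
    have h3 : (4 * (L : ℝ) ^ 2 * ww k φ) ^ 2 = 32 * (L : ℝ) ^ 4 * VV k φ := by
      rw [mul_pow, hw2]
      ring
    rw [h3] at h2
    calc _ ≤ C1 * (32 * (L : ℝ) ^ 4 * VV k φ / 2) := by gcongr
      _ = _ := by ring
  set D : ℝ := 16 * C1 * (L : ℝ) ^ 4 * VV k φ with hD
  have hPD : ‖((g * A * g⁻¹ : SU N) : Mt N) - (P : Mt N)‖ ^ 2 ≤ D := hP1.trans (hg1.trans hE)
  have hQD : ‖((g * B * g⁻¹ : SU N) : Mt N) - (Q : Mt N)‖ ^ 2 ≤ D := hQ1.trans (hg1.trans hE)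
  have hD0 : 0 ≤ D := by positivity
  have hmain : ∀ (X Y R : SU N), ‖(X : Mt N) - (Y : Mt N)‖ ≤ L * (2 * L * ww k φ) →
      ‖((g * Y * g⁻¹ : SU N) : Mt N) - (R : Mt N)‖ ^ 2 ≤ D →
      ‖((g * X * g⁻¹ : SU N) : Mt N) - (R : Mt N)‖ ^ 2 ≤ 16 * (L : ℝ) ^ 4 * VV k φ + 2 * D := by
    intro X Y R hXY hY
    have h2 := PkgD.sq_add_le (norm_nonneg _) (conj_dist g Y R X)
    have h3 : ‖(X : Mt N) - (Y : Mt N)‖ ^ 2 ≤ (L * (2 * L * ww k φ)) ^ 2 :=
      pow_le_pow_left₀ (norm_nonneg _) hXY 2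
    have h4 : ((L : ℝ) * (2 * L * ww k φ)) ^ 2 = 8 * (L : ℝ) ^ 4 * VV k φ := by
      have : ((L : ℝ) * (2 * L * ww k φ)) ^ 2 = 4 * (L : ℝ) ^ 4 * ww k φ ^ 2 := by ring
      rw [this, hw2]
      ring
    rw [h4] at h3
    linarith
  refine ⟨fun y => g * PkgB.tg φ y, ?_⟩
  have hact : act (fun y => g * PkgB.tg φ y) φ = act (fun _ => g) (ps φ) := by
    rw [ps, PkgD.act_act]
  rw [hact]
  have hpoint : ∀ y j, ‖(act (fun _ => g) (ps φ) y j : Mt N) - (vac P Q y j : Mt N)‖ ^ 2 ≤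
      16 * (L : ℝ) ^ 4 * VV k φ + 2 * D := by
    intro y j
    obtain ⟨a, b⟩ := y
    have hbig : (L : ℝ) * ww k φ ≤ L * (2 * L * ww k φ) := by
      have : ww k φ ≤ 2 * L * ww k φ := le_mul_of_one_le_left hw (by linarith)
      gcongr
    have hone : ‖((g * (1 : SU N) * g⁻¹ : SU N) : Mt N) - ((1 : SU N) : Mt N)‖ ^ 2 ≤ D := by
      have : (g * (1 : SU N) * g⁻¹ : SU N) = 1 := by group
      rw [this, sub_self, norm_zero]
      simpa using hD0
    by_cases hj : j = 0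
    · subst hj
      rw [vac, if_pos rfl]
      by_cases ha : a = -1
      · rw [if_pos ha]
        refine hmain (ps φ (a, b) 0) A P ?_ hPD
        rw [ha]
        exact (col (k := k) φ (-1) b).trans hbig
      · rw [if_neg ha]
        refine hmain (ps φ (a, b) 0) 1 1 ?_ hone
        exact (near_one (k := k) φ a b ha).trans hbig
    · have hj1 : j = 1 := by omega
      subst hj1
      rw [vac, if_neg (by decide)]
      by_cases hb : b = -1
      · rw [if_pos hb]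
        refine hmain (ps φ (a, b) 1) B Q ?_ hQD
        rw [hb]
        exact row (k := k) φ a
      · rw [if_neg hb]
        refine hmain (ps φ (a, b) 1) 1 1 ?_ hone
        rw [ps1 φ a b hb, sub_self, norm_zero]
        positivity
  refine (sum_dst _ _ hpoint).trans ?_
  rw [hD]
  apply le_of_eq
  ring

theorem pD2u (hD2 : S_D2) : S_D2u := by
  intro N k hN hk P Q hPQ
  obtain ⟨C1, hC1, h1⟩ := hD2 N k 1 hN hk P Q hPQ
  refine ⟨8 + 36 * C1, 4, by linarith, fun L _ U => ?_⟩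
  have hL := one_le_L (L := L)
  set e : ℝ := dst (act U (vac P Q)) (vac P Q) with he
  have he0 : 0 ≤ e := PkgD.dst_nonneg _ _
  set w : ℝ := Real.sqrt e with hw
  have hw0 : 0 ≤ w := Real.sqrt_nonneg _
  have hw2 : w ^ 2 = e := Real.sq_sqrt he0
  -- one link
  have hlink : ∀ (y : Tor L) (j : Fin 2),
      ‖(U y : Mt N) * ((vac P Q : Ph N L) y j : Mt N) -
        ((vac P Q : Ph N L) y j : Mt N) * (U (tsh y j) : Mt N)‖ ≤ w := by
    intro y j
    apply Real.le_sqrt_of_sq_le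
    refine le_trans (le_of_eq ?_) (PkgD.le_dst (act U (vac P Q)) (vac P Q : Ph N L) y j)
    have h2 : ((act U (vac P Q : Ph N L) y j : SU N) : Mt N) - ((vac P Q : Ph N L) y j : Mt N) =
        ((U y : Mt N) * ((vac P Q : Ph N L) y j : Mt N) -
        ((vac P Q : Ph N L) y j : Mt N) * (U (tsh y j) : Mt N)) *
          (((U (tsh y j))⁻¹ : SU N) : Mt N) := by
      rw [act, PkgD.cmul, PkgD.cmul, Matrix.sub_mul, Matrix.mul_assoc ((vac P Q : Ph N L) y j : Mt N),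
        PkgD.gi, Matrix.mul_one]
    rw [h2, PkgD.nr]
  have hx : ∀ a b : ZMod L, a ≠ -1 → ‖(U (a, b) : Mt N) - (U (a + 1, b) : Mt N)‖ ≤ w := by
    intro a b ha
    have h := hlink (a, b) 0
    rw [t0, vac, if_pos rfl, if_neg ha, PkgD.cone, Matrix.mul_one, Matrix.one_mul] at h
    exact h
  have hy : ∀ a b : ZMod L, b ≠ -1 → ‖(U (a, b) : Mt N) - (U (a, b + 1) : Mt N)‖ ≤ w := by
    intro a b hb
    have h := hlink (a, b) 1
    rw [t1, vac, if_neg (by decide), if_neg hb, PkgD.cone, Matrix.mul_one, Matrix.one_mul] at h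
    exact h
  have hU : ∀ a b : ZMod L, ‖(U (a, b) : Mt N) - (U (0, 0) : Mt N)‖ ≤ 2 * L * w := by
    intro a b
    have h2 := cycq (fun a => (U (a, b) : Mt N)) hw0 (fun a ha => hx a b ha) a
    have h3 := cycq (fun b => (U (0, b) : Mt N)) hw0 (fun b hb => hy 0 b hb) b
    have h4 : (U (a, b) : Mt N) - (U (0, 0) : Mt N) =
        ((U (a, b) : Mt N) - (U (0, b) : Mt N)) + ((U (0, b) : Mt N) - (U (0, 0) : Mt N)) := by abel
    rw [h4]
    refine (norm_add_le _ _).trans ?_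
    linarith
  -- the commutators
  set V : SU N := U (0, 0) with hV
  have hcomm : ∀ (X Y R : SU N), ‖(X : Mt N) * (R : Mt N) - (R : Mt N) * (Y : Mt N)‖ ≤ w →
      Y = V → ‖(X : Mt N) - (V : Mt N)‖ ≤ 2 * L * w →
      ‖(V : Mt N) * (R : Mt N) - (R : Mt N) * (V : Mt N)‖ ^ 2 ≤ 9 * (L : ℝ) ^ 2 * e := by
    intro X Y R h2 hYV h3
    subst hYV
    have h4 : (V : Mt N) * (R : Mt N) - (R : Mt N) * (V : Mt N) =
        ((X : Mt N) * (R : Mt N) - (R : Mt N) * (V : Mt N)) -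
          ((X : Mt N) - (V : Mt N)) * (R : Mt N) := by
      rw [Matrix.sub_mul]
      abel
    have h5 : ‖(V : Mt N) * (R : Mt N) - (R : Mt N) * (V : Mt N)‖ ≤ 3 * L * w := by
      rw [h4]
      refine (norm_sub_le _ _).trans ?_
      rw [PkgD.nr]
      have : w ≤ L * w := le_mul_of_one_le_left hw0 hL
      linarith
    calc _ ≤ (3 * L * w) ^ 2 := pow_le_pow_left₀ (norm_nonneg _) h5 2
      _ = 9 * (L : ℝ) ^ 2 * w ^ 2 := by ring
      _ = 9 * (L : ℝ) ^ 2 * e := by rw [hw2]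
  have hcP : ‖(V : Mt N) * (P : Mt N) - (P : Mt N) * (V : Mt N)‖ ^ 2 ≤ 9 * (L : ℝ) ^ 2 * e := by
    have h2 := hlink (-1, 0) 0
    rw [t0, vac, if_pos rfl, if_pos rfl, show (-1 : ZMod L) + 1 = 0 by ring] at h2
    exact hcomm (U (-1, 0)) (U (0, 0)) P h2 rfl (hU _ _)
  have hcQ : ‖(V : Mt N) * (Q : Mt N) - (Q : Mt N) * (V : Mt N)‖ ^ 2 ≤ 9 * (L : ℝ) ^ 2 * e := by
    have h2 := hlink (0, -1) 1
    rw [t1, vac, if_neg (by decide), if_pos rfl, show (-1 : ZMod L) + 1 = 0 by ring] at h2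
    exact hcomm (U (0, -1)) (U (0, 0)) Q h2 rfl (hU _ _)
  -- one point
  obtain ⟨m, hm⟩ := h1 (fun _ => V)
  have hd1 : dst (act (fun _ => V) (vac P Q)) (vac P Q : Ph N 1) ≤ 18 * (L : ℝ) ^ 2 * e := by
    have hpt : ∀ R : SU N, ‖((V * R * V⁻¹ : SU N) : Mt N) - (R : Mt N)‖ =
        ‖(V : Mt N) * (R : Mt N) - (R : Mt N) * (V : Mt N)‖ := by
      intro R
      have h2 : ((V * R * V⁻¹ : SU N) : Mt N) - (R : Mt N) =
          ((V : Mt N) * (R : Mt N) - (R : Mt N) * (V : Mt N)) * ((V⁻¹ : SU N) : Mt N) := by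
        rw [PkgD.cmul, PkgD.cmul, Matrix.sub_mul, Matrix.mul_assoc (R : Mt N), PkgD.gi,
          Matrix.mul_one]
      rw [h2, PkgD.nr]
    have h3 : ∀ y j, ‖(act (fun _ => V) (vac P Q : Ph N 1) y j : Mt N) -
        ((vac P Q : Ph N 1) y j : Mt N)‖ ^ 2 ≤ 9 * (L : ℝ) ^ 2 * e := by
      intro y j
      rw [act, vac1]
      by_cases hj : j = 0
      · rw [if_pos hj, hpt]
        exact hcP
      · rw [if_neg hj, hpt]
        exact hcQ
    have h4 := sum_dst _ _ h3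
    simp only [Nat.cast_one, one_pow, mul_one] at h4
    linarith
  have hm2 : ‖(V : Mt N) - om N m • (1 : Mt N)‖ ^ 2 ≤ 18 * C1 * (L : ℝ) ^ 2 * e := by
    have h2 := Finset.single_le_sum (f := fun y : Tor 1 => ‖(V : Mt N) - om N m • (1 : Mt N)‖ ^ 2)
      (fun y _ => by positivity) (Finset.mem_univ (0 : Tor 1))
    calc _ ≤ _ := h2
      _ ≤ C1 * dst (act (fun _ => V) (vac P Q)) (vac P Q : Ph N 1) := hm
      _ ≤ C1 * (18 * (L : ℝ) ^ 2 * e) := by gcongr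
      _ = _ := by ring
  refine ⟨m, ?_⟩
  have hpt : ∀ y : Tor L, ‖(U y : Mt N) - om N m • (1 : Mt N)‖ ^ 2 ≤
      (8 + 36 * C1) * (L : ℝ) ^ 2 * e := by
    intro y
    obtain ⟨a, b⟩ := y
    have h2 : (U (a, b) : Mt N) - om N m • (1 : Mt N) =
        ((U (a, b) : Mt N) - (V : Mt N)) + ((V : Mt N) - om N m • (1 : Mt N)) := by abel
    have h3 : ‖(U (a, b) : Mt N) - om N m • (1 : Mt N)‖ ≤
        ‖(U (a, b) : Mt N) - (V : Mt N)‖ + ‖(V : Mt N) - om N m • (1 : Mt N)‖ := by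
      rw [h2]
      exact norm_add_le _ _
    have h4 := PkgD.sq_add_le (norm_nonneg _) h3
    have h5 : ‖(U (a, b) : Mt N) - (V : Mt N)‖ ^ 2 ≤ (2 * L * w) ^ 2 :=
      pow_le_pow_left₀ (norm_nonneg _) (hU a b) 2
    have h6 : (2 * (L : ℝ) * w) ^ 2 = 4 * (L : ℝ) ^ 2 * e := by
      rw [← hw2]
      ring
    rw [h6] at h5
    linarith
  have hc : (Fintype.card (Tor L) : ℝ) = (L : ℝ) ^ 2 := by
    rw [Fintype.card_prod, ZMod.card]
    push_cast
    ring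
  calc ∑ y, ‖(U y : Mt N) - om N m • (1 : Mt N)‖ ^ 2 ≤
        ∑ _y : Tor L, (8 + 36 * C1) * (L : ℝ) ^ 2 * e := Finset.sum_le_sum fun y _ => hpt y
    _ = (8 + 36 * C1) * (L : ℝ) ^ 4 * e := by
        rw [Finset.sum_const, Finset.card_univ, nsmul_eq_mul, hc]
        ring

end T2H02.TT
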