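import Pool.Agent.T2H02.TT.StmU
import Pool.Agent.T2H02.TT.E

/-!
# Package E3u : the Lipschitz bound of the frames with a constant that does not depend on `L`
-/

set_option autoImplicit false

noncomputable section

open MeasureTheory Matrix
open scoped Matrix.Norms.Frobenius

namespace T2H02.TT

namespace PkgE3u

open PkgE

variable {N : ℕ}

theorem main : S_E3u := by
  intro N hN P Q
  have hN0 : (0 : ℝ) < N := by positivity
  have hN1 : (1 : ℝ) ≤ N := by exact_mod_cast (by omega : 1 ≤ N)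
  have hs : 0 ≤ Real.sqrt N := Real.sqrt_nonneg _
  have hp : (1 : ℝ) ≤ (N : ℝ) ^ 2 := one_le_pow₀ hN1
  refine ⟨N ^ 2 * (2 * N) + N ^ 2 * Real.sqrt N, ?_, ?_⟩
  · have h1 : (1 : ℝ) ≤ (N : ℝ) ^ 2 * (2 * N) := one_le_mul_of_one_le_of_one_le hp (by linarith)
    have h2 : (0 : ℝ) ≤ (N : ℝ) ^ 2 * Real.sqrt N := by positivity
    linarith
  intro L _
  have hL0 : (0 : ℝ) < L := by
    have := NeZero.pos L
    positivity
  refine ⟨?_, ?_⟩
  · intro φ ψ y M
    have hd := Real.sqrt_nonneg (dst φ ψ)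
    have hM := norm_nonneg M
    rw [fr_eq, fr_eq, ← smul_sub, norm_smul, ← Finset.sum_sub_distrib]
    have h1 : ∀ a ∈ (Finset.univ : Finset (Fin N)), ‖(∑ b : Fin N, cf P Q M a b • (hh φ y a b : Mt N)) -
        ∑ b : Fin N, cf P Q M a b • (hh ψ y a b : Mt N)‖ ≤
        N * (N * ‖M‖ * (2 * N * (L * Real.sqrt (dst φ ψ)))) := by
      intro a _
      rw [← Finset.sum_sub_distrib]
      refine (norm_sum_le_of_le (n := fun _ => N * ‖M‖ * (2 * N * (L * Real.sqrt (dst φ ψ)))) _
        (fun b _ => ?_)).trans (le_of_eq ?_)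
      · rw [← smul_sub, norm_smul]
        refine mul_le_mul (norm_cf _ _ _ _ _) ?_ (norm_nonneg _) (by positivity)
        refine (hh_sub φ ψ y a b).trans ?_
        refine mul_le_mul_of_nonneg_right ?_ (by positivity)
        have ha : ((a : ℕ) : ℝ) ≤ N := by exact_mod_cast a.2.le
        have hb : ((b : ℕ) : ℝ) ≤ N := by exact_mod_cast b.2.le
        linarith
      · simp
    have h2 := norm_sum_le_of_le _ h1
    rw [Finset.sum_const, Finset.card_univ, Fintype.card_fin, nsmul_eq_mul] at h2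
    have h3 : ‖(1 / N : ℂ)‖ = 1 / N := by simp
    rw [h3]
    calc 1 / (N : ℝ) * _ ≤ 1 / (N : ℝ) * (N * (N * (N * ‖M‖ * (2 * N * (L * Real.sqrt (dst φ ψ)))))) :=
          mul_le_mul_of_nonneg_left h2 (by positivity)
      _ = (N ^ 2 * (2 * N)) * L * Real.sqrt (dst φ ψ) * ‖M‖ := by field_simp
      _ ≤ _ := by
        refine mul_le_mul_of_nonneg_right ?_ hM
        refine mul_le_mul_of_nonneg_right ?_ hd
        refine mul_le_mul_of_nonneg_right ?_ hL0.le
        have : 0 ≤ (N : ℝ) ^ 2 * Real.sqrt N := by positivity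
        linarith
  · intro φ y M
    have hM := norm_nonneg M
    rw [fr_eq, norm_smul]
    have h1 : ∀ a ∈ (Finset.univ : Finset (Fin N)), ‖∑ b : Fin N, cf P Q M a b • (hh φ y a b : Mt N)‖ ≤
        N * (N * ‖M‖ * Real.sqrt N) := by
      intro a _
      refine (norm_sum_le_of_le (n := fun _ => N * ‖M‖ * Real.sqrt N) _
        (fun b _ => ?_)).trans (le_of_eq ?_)
      · rw [norm_smul, norm_su]
        exact mul_le_mul_of_nonneg_right (norm_cf _ _ _ _ _) hs
      · simp
    have h2 := norm_sum_le_of_le _ h1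
    rw [Finset.sum_const, Finset.card_univ, Fintype.card_fin, nsmul_eq_mul] at h2
    have h3 : ‖(1 / N : ℂ)‖ = 1 / N := by simp
    rw [h3]
    calc 1 / (N : ℝ) * _ ≤ 1 / (N : ℝ) * (N * (N * (N * ‖M‖ * Real.sqrt N))) :=
          mul_le_mul_of_nonneg_left h2 (by positivity)
      _ = (N ^ 2 * Real.sqrt N) * ‖M‖ := by field_simp
      _ ≤ _ := by
        refine mul_le_mul_of_nonneg_right ?_ hM
        have : 0 ≤ (N : ℝ) ^ 2 * (2 * N) := by positivity
        linarith

end PkgE3u

theorem pE3u : S_E3u := PkgE3u.main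

end T2H02.TT
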