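import Pool.Agent.T2H02.TT.Stm4

/-!
# Package EG: existence of measurable gauge fixings
-/

set_option autoImplicit false
set_option linter.unusedSectionVars false

noncomputable section

open MeasureTheory Matrix
open scoped Matrix.Norms.Frobenius

namespace T2H02.TT

namespace PkgEG

variable {N L : ℕ} [NeZero L]

theorem d1 (φ : Ph N L) (y : Tor L) (j : Fin 2) : Continuous fun g : Tor L → SU N =>
    act g φ y j := by
  have h1 : Continuous fun g : Tor L → SU N => g y := continuous_apply y
  have h2 : Continuous fun g : Tor L → SU N => (g (tsh y j))⁻¹ :=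
    (su_contInv N).continuous_inv.comp (continuous_apply (tsh y j))
  have h3 : Continuous fun _ : Tor L → SU N => φ y j := continuous_const
  exact (h1.mul h3).mul h2

theorem d2 (g : Tor L → SU N) (y : Tor L) (j : Fin 2) : Continuous fun φ : Ph N L =>
    act g φ y j := by
  have h1 : Continuous fun φ : Ph N L => φ y j := (continuous_apply j).comp (continuous_apply y)
  have h2 : Continuous fun _ : Ph N L => g y := continuous_const
  have h3 : Continuous fun _ : Ph N L => (g (tsh y j))⁻¹ := continuous_const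
  exact (h2.mul h1).mul h3

/-- the function to be minimised -/
def FF (P Q : SU N) (g : Tor L → SU N) (φ : Ph N L) : ℝ := dst (act g φ) (vac P Q)

theorem ff_eq (P Q : SU N) (g : Tor L → SU N) (φ : Ph N L) : FF P Q g φ =
    ∑ y : Tor L, ∑ j : Fin 2, ‖(act g φ y j : Mt N) - ((vac P Q : Ph N L) y j : Mt N)‖ ^ 2 := rfl

theorem ff1 (P Q : SU N) (φ : Ph N L) : Continuous fun g : Tor L → SU N => FF P Q g φ := by
  simp only [ff_eq]
  refine continuous_finsetSum _ fun y _ => continuous_finsetSum _ fun j _ => ?_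
  have h1 : Continuous fun g : Tor L → SU N => (act g φ y j : Mt N) :=
    continuous_subtype_val.comp (d1 φ y j)
  exact (h1.sub continuous_const).norm.pow 2

theorem ff2 (P Q : SU N) (g : Tor L → SU N) : Continuous fun φ : Ph N L => FF P Q g φ := by
  simp only [ff_eq]
  refine continuous_finsetSum _ fun y _ => continuous_finsetSum _ fun j _ => ?_
  have h1 : Continuous fun φ : Ph N L => (act g φ y j : Mt N) :=
    continuous_subtype_val.comp (d2 g y j)
  exact (h1.sub continuous_const).norm.pow 2

/-- an abstract selection lemma -/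
theorem select {K Φ : Type*} [TopologicalSpace K] [CompactSpace K] [SecondCountableTopology K]
    [Nonempty K] [MeasurableSpace K] [TopologicalSpace Φ] [MeasurableSpace Φ]
    [OpensMeasurableSpace Φ] (F : K → Φ → ℝ) (h1 : ∀ φ, Continuous fun g => F g φ)
    (h2 : ∀ g, Continuous fun φ => F g φ) {ε : ℝ} (hε : 0 < ε) :
    ∃ G : Φ → K, Measurable G ∧ ∀ φ g, F (G φ) φ ≤ F g φ + ε := by
  classical
  obtain ⟨d, hd⟩ := TopologicalSpace.exists_dense_seq K
  have hex : ∀ φ : Φ, ∃ n : ℕ, ∀ g, F (d n) φ ≤ F g φ + ε := by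
    intro φ
    obtain ⟨g₀, _, hg₀⟩ := IsCompact.exists_isMinOn (isCompact_univ (X := K)) Set.univ_nonempty
      (h1 φ).continuousOn
    have hopen : IsOpen {g | F g φ < F g₀ φ + ε} := isOpen_lt (h1 φ) continuous_const
    obtain ⟨n, hn⟩ := hd.exists_mem_open hopen ⟨g₀, by
      show F g₀ φ < F g₀ φ + ε
      linarith⟩
    refine ⟨n, fun g => ?_⟩
    have e1 : F (d n) φ < F g₀ φ + ε := hn
    have e2 : F g₀ φ ≤ F g φ := hg₀ (Set.mem_univ g)
    linarith
  refine ⟨fun φ => d (Nat.find (hex φ)), ?_, fun φ => Nat.find_spec (hex φ)⟩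
  refine Measurable.find (f := fun n _ => d n) (fun n => measurable_const) (fun n => ?_) hex
  have : {φ : Φ | ∀ g, F (d n) φ ≤ F g φ + ε} = ⋂ g, {φ | F (d n) φ ≤ F g φ + ε} := by
    ext φ; simp
  rw [this]
  apply IsClosed.measurableSet
  exact isClosed_iInter fun g => isClosed_le (h2 _) ((h2 g).add continuous_const)

end PkgEG

open PkgEG in
/-- **EG.** -/
theorem pEG : S_EG := by
  intro N L _ hN P Q ε hε
  obtain ⟨G, hG, h⟩ := select (K := Tor L → SU N) (Φ := Ph N L) (FF P Q) (ff1 P Q) (ff2 P Q) hε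
  exact ⟨G, hG, fun φ g => h φ g⟩

end T2H02.TT
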