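import Pool.Agent.T2H02.TT.StmU
import Pool.Agent.T2H02.TT.G1

/-!
# Package G1u: a competitor configuration, constants polynomial in `L`
-/

set_option autoImplicit false
set_option linter.unusedSectionVars false

noncomputable section

open MeasureTheory Matrix
open scoped Matrix.Norms.Frobenius

namespace T2H02.TT

namespace PkgG1u

open PkgG1

lemma core (hJI : S_JI) {N k L : ℕ} [NeZero L] (hN : 2 ≤ N) (P Q : SU N)
    (hB : VV k (vac P Q : Ph N L) = 0) (C1 : ℝ) (hC1 : 0 < C1)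
    (hD : ∀ φ : Ph N L, ∃ g : Tor L → SU N, dst (act g φ) (vac P Q) ≤ C1 * VV k φ)
    (CJ : ℝ) (hCJ : 0 < CJ)
    (hJ : ∀ (φ ψ : Ph N L) (U : Tor L → SU N) (e : ℝ), dst φ (vac P Q) ≤ e →
      dst ψ (vac P Q) ≤ e →
      ∑ y, ∑ j, ‖(U y : Mt N) * (ψ y j : Mt N) - (φ y j : Mt N) * (U (tsh y j) : Mt N)‖ ^ 2 ≤ e →
      ∃ m : Fin N, ∑ y, ‖(U y : Mt N) - om N m • (1 : Mt N)‖ ^ 2 ≤ CJ * e)
    (Λ : Finset Pl) (η : Cf N L) : ∃ X : Cf N L, (∀ l, l ∉ Frl L Λ → X l = η l) ∧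
    ∑ τ ∈ tml Λ, en k X τ ≤ (2 * C1 + 8 * CJ * (2 * C1 + 2)) * 16 * ∑ τ ∈ rng Λ, en k η τ := by
  have hN0 : N ≠ 0 := by omega
  choose G hG using hD
  let g : Pt L → SU N := fun p => if p.1 ∈ Λ then 1 else G (pt η p.1) p.2
  let η' : Cf N L := gau g η
  let Y : Cf N L := fun l => if l ∈ Frl L Λ then vc P Q l else η' l
  let X : Cf N L := fun l => if l ∈ Frl L Λ then (g l.1)⁻¹ * vc P Q l * g (nx l.1 l.2) else η l
  have hgX : gau g X = Y := by
    funext l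
    simp only [gau, X, Y, η']
    split_ifs
    · group
    · rfl
  have heY : ∀ τ, en k X τ = en k Y τ := fun τ => by
    rw [← hgX]
    exact (((hJI N k L hN g (fun _ _ => 0) X).1 τ).1).symm
  have heη : ∀ τ, en k η' τ = en k η τ := fun τ => ((hJI N k L hN g (fun _ _ => 0) η).1 τ).1
  -- torus links
  have ptY : ∀ x, pt Y x = if x ∈ Λ then vac P Q else pt η' x := by
    intro x
    split_ifs with hx
    · funext y j
      have h1 : ((x, y), (if j = 0 then 2 else 3 : Fin 4)) ∈ Frl L Λ :=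
        (mem_Frl_torus Λ x y _ (by fin_cases j <;> simp)).2 hx
      have h2 : pt Y x y j = vc P Q ((x, y), (if j = 0 then 2 else 3 : Fin 4)) := if_pos h1
      rw [h2]
      exact congrFun (congrFun (pt_vc P Q x) y) j
    · funext y j
      have h1 : ((x, y), (if j = 0 then 2 else 3 : Fin 4)) ∉ Frl L Λ := fun h =>
        hx ((mem_Frl_torus Λ x y _ (by fin_cases j <;> simp)).1 h)
      exact if_neg h1
  have dη : ∀ x, x ∉ Λ → dst (pt η' x) (vac P Q) ≤ C1 * en k η (x, 0) := by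
    intro x hx
    have h1 : pt η' x = act (G (pt η x)) (pt η x) := by
      rw [pt_gau]
      congr 1
      funext y
      exact if_neg hx
    have h2 : en k η (x, 0) = VV k (pt η x) := by
      rw [← eV_eq]
      simp [en]
    rw [h1, h2]
    exact hG _
  have dY : ∀ τ ∈ tml Λ, ∀ x ∈ cor τ, dst (pt Y x) (vac P Q) ≤ C1 * Eg k Λ η τ := by
    intro τ hτ x hx
    rw [ptY]
    split_ifs with hxΛ
    · rw [dst_self]
      exact mul_nonneg hC1.le (Eg_nonneg _ _ _ _)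
    · refine (dη x hxΛ).trans (mul_le_mul_of_nonneg_left (le_Eg k Λ η τ (x, 0) ?_) hC1.le)
      refine mem_Sg Λ τ (x, 0) hτ ?_ ?_ ⟨x, (mem_cor0 x x).2 rfl⟩
      · intro a ha
        rw [mem_cor0] at ha
        rwa [ha]
      · intro a ha
        rw [mem_cor0] at ha
        rwa [ha]
  -- plane links
  have pl1 : ∀ (x : Pl) (m : Fin 4), (m = 0 ∨ m = 1) → (x ∈ Λ ∨ x + pe m ∈ Λ) →
      ∀ y : Tor L, Y ((x, y), m) = 1 := by
    intro x m hm hx y
    have h1 : ((x, y), m) ∈ Frl L Λ := (mem_Frl_plane Λ x y m).2 hx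
    have h2 : Y ((x, y), m) = vc P Q ((x, y), m) := if_pos h1
    rw [h2]
    rcases hm with rfl | rfl <;> simp [vc]
  have pl : ∀ τ ∈ tml Λ, ∀ (x : Pl) (m : Fin 4), (m = 0 ∨ m = 1) → x ∈ cor τ →
      x + pe m ∈ cor τ → ∃ c : Fin N, ∑ y : Tor L, ‖(Y ((x, y), m) : Mt N) -
        om N c • (1 : Mt N)‖ ^ 2 ≤ CJ * ((2 * C1 + 2) * Eg k Λ η τ) := by
    intro τ hτ x m hm hx hxm
    have hE := Eg_nonneg k Λ η τ
    by_cases hF : x ∈ Λ ∨ x + pe m ∈ Λ
    · refine ⟨⟨0, by omega⟩, ?_⟩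
      have h1 : ∀ y : Tor L, ‖(Y ((x, y), m) : Mt N) -
          om N ((⟨0, by omega⟩ : Fin N) : ℕ) • (1 : Mt N)‖ ^ 2 = 0 := by
        intro y
        rw [pl1 x m hm hF y]
        simp only [om_zero, one_smul, OneMemClass.coe_one, sub_self, norm_zero]
        norm_num
      rw [Finset.sum_congr rfl fun y _ => h1 y, Finset.sum_const_zero]
      positivity
    · rw [not_or] at hF
      have hY : ∀ y : Tor L, Y ((x, y), m) = η' ((x, y), m) := by
        intro y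
        refine if_neg fun h => ?_
        rcases (mem_Frl_plane Λ x y m).1 h with h | h
        · exact hF.1 h
        · exact hF.2 h
      have h1 := dY τ hτ x hx
      have h2 := dY τ hτ _ hxm
      rw [ptY, if_neg hF.1] at h1
      rw [ptY, if_neg hF.2] at h2
      have h3 : eK η' x m ≤ Eg k Λ η τ := by
        rw [← en_tk k η' x m hm, heη]
        refine le_Eg k Λ η τ _ (mem_Sg Λ τ _ hτ ?_ ?_ ⟨x, (cor_tk x x m hm).2 (Or.inl rfl)⟩)
        · intro a ha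
          rcases (cor_tk x a m hm).1 ha with rfl | rfl
          · exact hx
          · exact hxm
        · intro a ha
          rcases (cor_tk x a m hm).1 ha with rfl | rfl
          · exact hF.1
          · exact hF.2
      obtain ⟨c, hc⟩ := hJ (pt η' x) (pt η' (x + pe m)) (fun y => η' ((x, y), m))
        ((2 * C1 + 2) * Eg k Λ η τ) (by nlinarith) (by nlinarith) (by
          rw [eK_J η' x m hm]
          nlinarith)
      refine ⟨c, ?_⟩
      simp only [hY]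
      exact hc
  -- one term
  have key : ∀ τ ∈ tml Λ, en k X τ ≤ (2 * C1 + 8 * CJ * (2 * C1 + 2)) * Eg k Λ η τ := by
    intro τ hτ
    have hE := Eg_nonneg k Λ η τ
    have hE2 : 0 ≤ 8 * CJ * (2 * C1 + 2) * Eg k Λ η τ := by positivity
    have hmix : ∀ m : Fin 4, (m = 0 ∨ m = 1) → τ.2 = tk m → en k Y τ ≤
        (2 * C1 + 8 * CJ * (2 * C1 + 2)) * Eg k Λ η τ := by
      intro m hm h
      obtain ⟨x, i⟩ := τ
      simp only at h
      subst h
      rw [en_tk k Y x m hm]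
      have hF : x ∈ Λ ∨ x + pe m ∈ Λ := by
        obtain ⟨a, ha, haΛ⟩ := (mem_tml Λ _).1 hτ
        rcases (cor_tk x a m hm).1 ha with rfl | rfl
        · exact Or.inl haΛ
        · exact Or.inr haΛ
      have h1 := eK_le Y x m hm (vac P Q) (pl1 x m hm hF)
      have h2 := dY _ hτ x ((cor_tk x x m hm).2 (Or.inl rfl))
      have h3 := dY _ hτ (x + pe m) ((cor_tk x _ m hm).2 (Or.inr rfl))
      linarith
    rw [heY]
    obtain ⟨x, i⟩ := τ
    have hi : ∀ i : Fin 4, i = 0 ∨ i = 1 ∨ i = 2 ∨ i = 3 := by decide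
    rcases hi i with rfl | rfl | rfl | rfl
    · have hx : x ∈ Λ := by
        obtain ⟨a, ha, haΛ⟩ := (mem_tml Λ _).1 hτ
        rw [mem_cor0] at ha
        rwa [← ha]
      have h1 : en k Y (x, 0) = eV k Y x := by simp [en]
      rw [h1, eV_eq, ptY, if_pos hx, hB]
      positivity
    · exact hmix 0 (Or.inl rfl) rfl
    · exact hmix 1 (Or.inr rfl) rfl
    · have hp0 : pe 0 = (1, 0) := by simp [pe]
      have hp1 : pe 1 = (0, 1) := by simp [pe]
      have c0 : x ∈ cor (x, 3) := (mem_cor3 x x).2 (Or.inl rfl)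
      have c1 : x + (1, 0) ∈ cor (x, 3) := (mem_cor3 x _).2 (Or.inr (Or.inl rfl))
      have c2 : x + (0, 1) ∈ cor (x, 3) := (mem_cor3 x _).2 (Or.inr (Or.inr (Or.inl rfl)))
      have c3 : x + (1, 1) ∈ cor (x, 3) := (mem_cor3 x _).2 (Or.inr (Or.inr (Or.inr rfl)))
      obtain ⟨a, ha⟩ := pl _ hτ x 0 (Or.inl rfl) c0 (by rw [hp0]; exact c1)
      obtain ⟨b, hb⟩ := pl _ hτ (x + (1, 0)) 1 (Or.inr rfl) c1 (by
        rw [hp1, add_assoc]; exact c3)
      obtain ⟨c, hc⟩ := pl _ hτ x 1 (Or.inr rfl) c0 (by rw [hp1]; exact c2)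
      obtain ⟨d, hd⟩ := pl _ hτ (x + (0, 1)) 0 (Or.inl rfl) c2 (by
        rw [hp0, add_assoc]; exact c3)
      obtain ⟨m, hm⟩ := exists_om hN0 a b c d
      have h1 : en k Y (x, 3) ≤ eP Y (om N m) x := by
        have h2 : en k Y (x, 3) = ⨅ m : Fin N, eP Y (om N m) x := by simp [en]
        rw [h2]
        exact ciInf_le ⟨0, by rintro _ ⟨m, rfl⟩; exact eP_nonneg _ _ _⟩ m
      have h2 : eP Y (om N m) x ≤ 2 * (∑ y : Tor L, ‖(Y ((x, y), 0) : Mt N) -
          om N a • (1 : Mt N)‖ ^ 2 + ∑ y : Tor L, ‖(Y ((x + (1, 0), y), 1) : Mt N) -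
          om N b • (1 : Mt N)‖ ^ 2 + ∑ y : Tor L, ‖(Y ((x, y), 1) : Mt N) -
          om N c • (1 : Mt N)‖ ^ 2 + ∑ y : Tor L, ‖(Y ((x + (0, 1), y), 0) : Mt N) -
          om N d • (1 : Mt N)‖ ^ 2) := by
        unfold eP df
        rw [← Finset.sum_add_distrib, ← Finset.sum_add_distrib, ← Finset.sum_add_distrib,
          Finset.mul_sum]
        refine Finset.sum_le_sum fun y _ => ?_
        rw [nx0, nx1]
        exact plaq_le _ _ _ _ _ _ _ _ _ (om_norm _ _) (om_norm _ _) (om_norm _ _) hm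
      have h3 : (2 * C1) * Eg k Λ η (x, 3) ≥ 0 := by positivity
      linarith
  refine ⟨X, fun l hl => if_neg hl, ?_⟩
  calc ∑ τ ∈ tml Λ, en k X τ ≤
      ∑ τ ∈ tml Λ, (2 * C1 + 8 * CJ * (2 * C1 + 2)) * Eg k Λ η τ := Finset.sum_le_sum key
    _ = (2 * C1 + 8 * CJ * (2 * C1 + 2)) * ∑ τ ∈ tml Λ, Eg k Λ η τ := by rw [Finset.mul_sum]
    _ ≤ (2 * C1 + 8 * CJ * (2 * C1 + 2)) * (16 * ∑ σ ∈ rng Λ, en k η σ) :=
        mul_le_mul_of_nonneg_left (sum_Eg k Λ η) (by positivity)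
    _ = _ := by ring

end PkgG1u

open PkgG1u in
theorem pG1u (hA1 : S_A1) (hB0 : S_B0) (hD1 : S_D1u) (hJ : S_Ju) (hJI : S_JI) : S_G1u := by
  intro N k hN hk
  obtain ⟨P, Q, hPQ⟩ := hA1 N k hN hk
  obtain ⟨CD, KD, hCD, hD⟩ := hD1 N k hN hk P Q hPQ
  obtain ⟨CJ, KJ, hCJ, hJ⟩ := hJ N k hN hk P Q hPQ
  refine ⟨544 * CD * CJ, KD + KJ, ?_, ?_⟩
  · nlinarith
  intro L _ Λ η
  have hB := hB0 N k L hN hk P Q hPQ
  have hL1 : (1 : ℝ) ≤ L := by exact_mod_cast Nat.one_le_iff_ne_zero.2 (NeZero.ne L)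
  have hLD : (1 : ℝ) ≤ (L : ℝ) ^ KD := one_le_pow₀ hL1
  have hLJ : (1 : ℝ) ≤ (L : ℝ) ^ KJ := one_le_pow₀ hL1
  obtain ⟨C1, hC1⟩ : ∃ C1, C1 = CD * (L : ℝ) ^ KD := ⟨_, rfl⟩
  obtain ⟨C2, hC2⟩ : ∃ C2, C2 = CJ * (L : ℝ) ^ KJ := ⟨_, rfl⟩
  have h1 : 1 ≤ C1 := by rw [hC1]; exact one_le_mul_of_one_le_of_one_le hCD hLD
  have h2 : 1 ≤ C2 := by rw [hC2]; exact one_le_mul_of_one_le_of_one_le hCJ hLJ
  obtain ⟨X, hX1, hX2⟩ := core hJI hN P Q hB C1 (by linarith)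
    (by rw [hC1]; exact hD L) C2 (by linarith) (by
      intro φ ψ U e a1 a2 a3
      rw [hC2]
      exact hJ L φ ψ U e a1 a2 a3) Λ η
  refine ⟨X, hX1, hX2.trans ?_⟩
  have hE : 0 ≤ ∑ τ ∈ rng Λ, en k η τ := Finset.sum_nonneg fun τ _ => en_nonneg _ _ _
  refine mul_le_mul_of_nonneg_right ?_ hE
  have h3 : C1 ≤ C1 * C2 := le_mul_of_one_le_right (by linarith) h2
  have h4 : C2 ≤ C1 * C2 := le_mul_of_one_le_left (by linarith) h1
  have h5 : 544 * CD * CJ * (L : ℝ) ^ (KD + KJ) = 544 * (C1 * C2) := by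
    rw [hC1, hC2, pow_add]
    ring
  rw [h5]
  nlinarith

end T2H02.TT
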