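import Pool.Agent.T2H02.TT.StmU
import Pool.Agent.T2H02.TT.G2

/-!
# Package G3u : Lipschitz bounds, constants polynomial in `L`
-/

set_option autoImplicit false
set_option linter.unusedSectionVars false

noncomputable section

open MeasureTheory Matrix
open scoped Matrix.Norms.Frobenius

namespace T2H02.TT

namespace PkgG3u

open PkgG2

lemma card_Tor (L : ℕ) [NeZero L] : Fintype.card (Tor L) = L ^ 2 := by
  rw [Fintype.card_prod, ZMod.card, sq]

theorem pG3u : S_G3u := by
  intro N k hN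
  have hN0 : 0 < N := by omega
  have hNr : (0 : ℝ) < N := by exact_mod_cast hN0
  refine ⟨32 + 4 * N, 2, by linarith, ?_⟩
  intro L _
  have hcard : (32 + 4 * N : ℝ) * (L : ℝ) ^ 2 = Fintype.card (Tor L) * (32 + 4 * N) := by
    rw [card_Tor]
    push_cast
    ring
  rw [hcard]
  have hsum : ∀ (f g : Tor L → ℝ) (c : ℝ), (∀ y, f y ≤ 2 * g y + c) →
      ∑ y, f y ≤ 2 * ∑ y, g y + Fintype.card (Tor L) * c := by
    intro f g c h
    calc ∑ y, f y ≤ ∑ y, (2 * g y + c) := Finset.sum_le_sum fun y _ => h y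
      _ = _ := by
        rw [Finset.sum_add_distrib, ← Finset.mul_sum, Finset.sum_const, Finset.card_univ,
          nsmul_eq_mul]
  have hsum' : ∀ (f : Tor L → ℝ) (c : ℝ), (∀ y, f y ≤ c) →
      ∑ y, f y ≤ Fintype.card (Tor L) * c := by
    intro f c h
    calc ∑ y, f y ≤ ∑ _y : Tor L, c := Finset.sum_le_sum fun y _ => h y
      _ = _ := by rw [Finset.sum_const, Finset.card_univ, nsmul_eq_mul]
  refine ⟨?_, ?_, ?_⟩
  · intro X Y τ r hr h
    obtain ⟨x, i⟩ := τ
    have hr2 : 0 ≤ r ^ 2 := by positivity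
    have hbig : ∀ c : ℝ, c ≤ 32 * r ^ 2 →
        (Fintype.card (Tor L) : ℝ) * c ≤ Fintype.card (Tor L) * (32 + 4 * N) * r ^ 2 := by
      intro c hc
      rw [mul_assoc]
      refine mul_le_mul_of_nonneg_left (hc.trans ?_) (by positivity)
      nlinarith
    fin_cases i
    · change eV k Y x ≤ 2 * eV k X x + _
      have hm := fun (l : Lk L) hl => h l ((mem_spt0 x l).2 hl)
      refine (hsum _ _ (16 * r ^ 2) fun y => ?_).trans (add_le_add le_rfl (hbig _ (by nlinarith)))
      have := df_sub X Y (tw_norm N k y) (x, y) 2 3 (r := r) (hm _ ⟨y, Or.inl rfl⟩)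
        (by rw [nx2]; exact hm _ ⟨_, Or.inr rfl⟩) (hm _ ⟨y, Or.inr rfl⟩)
        (by rw [nx3]; exact hm _ ⟨_, Or.inl rfl⟩)
      linarith
    · change eK Y x 0 ≤ 2 * eK X x 0 + _
      have hm := fun (l : Lk L) hl => h l ((mem_spt1 x l).2 hl)
      refine (hsum _ _ (32 * r ^ 2) fun y => ?_).trans (add_le_add le_rfl (hbig _ le_rfl))
      have h1 := df_sub X Y (norm_one) (x, y) 0 2 (r := r) (hm _ ⟨y, by simp⟩)
        (by rw [nx0]; exact hm _ ⟨y, by simp⟩) (hm _ ⟨y, by simp⟩)
        (by rw [nx2]; exact hm _ ⟨_, Or.inl rfl⟩)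
      have h2 := df_sub X Y (norm_one) (x, y) 0 3 (r := r) (hm _ ⟨y, by simp⟩)
        (by rw [nx0]; exact hm _ ⟨y, by simp⟩) (hm _ ⟨y, by simp⟩)
        (by rw [nx3]; exact hm _ ⟨_, Or.inl rfl⟩)
      linarith
    · change eK Y x 1 ≤ 2 * eK X x 1 + _
      have hm := fun (l : Lk L) hl => h l ((mem_spt2 x l).2 hl)
      refine (hsum _ _ (32 * r ^ 2) fun y => ?_).trans (add_le_add le_rfl (hbig _ le_rfl))
      have h1 := df_sub X Y (norm_one) (x, y) 1 2 (r := r) (hm _ ⟨y, by simp⟩)
        (by rw [nx1]; exact hm _ ⟨y, by simp⟩) (hm _ ⟨y, by simp⟩)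
        (by rw [nx2]; exact hm _ ⟨_, Or.inl rfl⟩)
      have h2 := df_sub X Y (norm_one) (x, y) 1 3 (r := r) (hm _ ⟨y, by simp⟩)
        (by rw [nx1]; exact hm _ ⟨y, by simp⟩) (hm _ ⟨y, by simp⟩)
        (by rw [nx3]; exact hm _ ⟨_, Or.inl rfl⟩)
      linarith
    · change (⨅ m : Fin N, eP Y (om N m) x) ≤ 2 * (⨅ m : Fin N, eP X (om N m) x) + _
      have hm := fun (l : Lk L) hl => h l ((mem_spt3 x l).2 hl)
      obtain ⟨m, hm'⟩ := exp_min hN0 X x
      rw [hm']
      refine (inf_le Y x m).trans ?_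
      refine (hsum _ _ (16 * r ^ 2) fun y => ?_).trans (add_le_add le_rfl (hbig _ (by nlinarith)))
      have := df_sub X Y (om_norm N m) (x, y) 0 1 (r := r) (hm _ ⟨y, by simp⟩)
        (by rw [nx0]; exact hm _ ⟨y, by simp⟩) (hm _ ⟨y, by simp⟩)
        (by rw [nx1]; exact hm _ ⟨y, by simp⟩)
      linarith
  · intro X τ
    obtain ⟨x, i⟩ := τ
    have hbig : ∀ c : ℝ, c ≤ 4 * N →
        (Fintype.card (Tor L) : ℝ) * c ≤ Fintype.card (Tor L) * (32 + 4 * N) := by
      intro c hc
      refine mul_le_mul_of_nonneg_left (hc.trans ?_) (by positivity)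
      linarith
    fin_cases i
    · change eV k X x ≤ _
      refine (hsum' _ (4 * N) fun y => ?_).trans (hbig _ le_rfl)
      have := df_le X (tw_norm N k y) (x, y) 2 3
      linarith
    · change eK X x 0 ≤ _
      refine (hsum' _ (4 * N) fun y => ?_).trans (hbig _ le_rfl)
      have h1 := df_le X (norm_one) (x, y) 0 2
      have h2 := df_le X (norm_one) (x, y) 0 3
      linarith
    · change eK X x 1 ≤ _
      refine (hsum' _ (4 * N) fun y => ?_).trans (hbig _ le_rfl)
      have h1 := df_le X (norm_one) (x, y) 1 2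
      have h2 := df_le X (norm_one) (x, y) 1 3
      linarith
    · change (⨅ m : Fin N, eP X (om N m) x) ≤ _
      refine (inf_le X x ⟨0, hN0⟩).trans ?_
      refine (hsum' _ (4 * N) fun y => ?_).trans (hbig _ le_rfl)
      have := df_le X (om_norm N (⟨0, hN0⟩ : Fin N)) (x, y) 0 1
      linarith
  · intro β X τ hβ
    obtain ⟨x, i⟩ := τ
    by_cases hi : i = 3
    · subst hi
      have e1 : en k X (x, 3) = ⨅ m : Fin N, eP X (om N m) x := rfl
      have e2 : wt k β (x, 3) X = (∑ m : Fin N, Real.exp (-β * eP X (om N m) x)) / N := rfl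
      rw [e1, e2]
      constructor
      · refine div_le_div_of_nonneg_right ?_ hNr.le
        obtain ⟨m, hm'⟩ := exp_min hN0 X x
        rw [hm']
        exact Finset.single_le_sum (f := fun m : Fin N => Real.exp (-β * eP X (om N m) x))
          (fun m _ => (Real.exp_pos _).le) (Finset.mem_univ m)
      · rw [div_le_iff₀ hNr]
        calc ∑ m : Fin N, Real.exp (-β * eP X (om N m) x) ≤
              ∑ _m : Fin N, Real.exp (-β * ⨅ m : Fin N, eP X (om N m) x) := by
              refine Finset.sum_le_sum fun m _ => Real.exp_le_exp.2 ?_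
              have := mul_le_mul_of_nonneg_left (inf_le X x m) hβ
              linarith
          _ = _ := by
              rw [Finset.sum_const, Finset.card_univ, Fintype.card_fin, nsmul_eq_mul, mul_comm]
    · have e2 : wt k β (x, i) X = Real.exp (-β * en k X (x, i)) := by
        unfold wt
        rw [if_neg hi]
      rw [e2]
      refine ⟨?_, le_rfl⟩
      exact div_le_self (Real.exp_pos _).le (by exact_mod_cast hN0)

end PkgG3u

theorem pG3u : S_G3u := PkgG3u.pG3u

end T2H02.TT
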