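import Pool.Agent.T2H02.TT.Fin4

/-!
# Uniform versions: all constants are polynomial in `L`, the decay rate is `c / L`

The aim: for `β ≥ C L^K` the spectral gap is at least `c / L` (the mass gap in physical units, for a
torus of side one and lattice spacing `1 / L`, is bounded below uniformly in the spacing).

Package `Y` (for instance `C1u`) proves `theorem pY : S_Y` in `Pool/Agent/T2H02/TT/Y.lean`, from other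
`S_...` as hypotheses; auxiliary lemmas in the namespace `T2H02.TT.PkgY`. Most packages are a port of
the file of the same name without `u`: copy it, follow the constants. All statements of `Stm.lean`,
`Stm2.lean` with constants that do not depend on `L` (A, B, E1, E2, E4, F, G2, JI, JM, O) are reused.
`(L : ℝ) ≥ 1` always; powers of `L` can be enlarged at will.
-/

set_option autoImplicit false

noncomputable section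

open MeasureTheory Matrix
open scoped Matrix.Norms.Frobenius

namespace T2H02.TT

/-! ### C1u, C2u (uses A3, B0, B3)

C1u. `(1 - Ad P) (lam y)` is a telescoping sum of `L` transported terms `dd lam y' 0` along the circle
through `y` in the direction `0` (transport = `Ad` of products of vacuum links; `Ad P` after the full
turn), so `∑_y ‖lam y - Ad P (lam y)‖² ≤ L² ∑_y ‖dd lam y 0‖²`; the same for `Q` in the direction `1`.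
For traceless `M`: `‖M‖² ≤ C (‖M - Ad P M‖² + ‖M - Ad Q M‖²)` by A3 and compactness (no `L`).
C2u. Let `lam` minimise `∑ ‖a - dd lam‖²` over `lam y ∈ su N` (finite-dimensional orthogonal projection),
`b = a - dd lam`: `∑ ip b (dd mu) = 0` for all `mu`. With `S_j lam y = Ad (vac y j) (lam (tsh y j))`
(commuting orthogonal operators, B0), `A_j = 1 - S_j` (normal, `A_0` commutes with `A_1` and `A_1*`):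
`‖A_1 b_0 - A_0 b_1‖² + ‖A_0* b_0 + A_1* b_1‖² = ∑_{i,j} ‖A_j b_i‖²` (the cross terms cancel), where
`A_1 b_0 - A_0 b_1 = crl b = crl a` up to the sign and `A_0* b_0 + A_1* b_1 = 0`; apply C1u to
`b_0` and `b_1`. -/

def S_C1u : Prop := ∀ N k : ℕ, 2 ≤ N → Nat.Coprime k N → ∀ P Q : SU N, PQ k P Q →
  ∃ C : ℝ, 1 ≤ C ∧ ∀ (L : ℕ) [NeZero L] (lam : Tor L → Mt N), (∀ y, (lam y).trace = 0) →
    ∑ y, ‖lam y‖ ^ 2 ≤ C * (L : ℝ) ^ 2 * ∑ y, ∑ j, ‖dd (vac P Q) lam y j‖ ^ 2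

def S_C2u : Prop := ∀ N k : ℕ, 2 ≤ N → Nat.Coprime k N → ∀ P Q : SU N, PQ k P Q →
  ∃ C : ℝ, 1 ≤ C ∧ ∀ (L : ℕ) [NeZero L] (a : Tor L → Fin 2 → Mt N), (∀ y j, a y j ∈ su N) →
    ∃ lam : Tor L → Mt N, (∀ y, lam y ∈ su N) ∧
      (∀ mu : Tor L → Mt N, (∀ y, mu y ∈ su N) →
        ∑ y, ∑ j, ip (a y j - dd (vac P Q) lam y j) (dd (vac P Q) mu y j) = 0) ∧
      ∑ y, ∑ j, ‖a y j - dd (vac P Q) lam y j‖ ^ 2 ≤ C * (L : ℝ) ^ 2 * ∑ y, ‖crl (vac P Q) a y‖ ^ 2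

/-! ### D1u, D2u (uses D1, D2 at `L = 1`)

D1u. If `VV k φ ≥ c L^(-K)` the bound is trivial (`dst ≤ 8 N L²`). In general tree gauge as in B1:
`φ' = act h φ` with `φ' y 1 = 1` for `y.2 ≠ -1` and `φ' y 0 = 1` for `y.2 = 0`, `y.1 ≠ -1`. With
`v_y` = norm of the plaquette defect at `y`, `∑ v_y² = 2 VV`: plaquettes with `y.2 ≠ -1` give
`‖φ' (i,j+1) 0 - φ' (i,j) 0‖ ≤ v`, so `φ' (i,j) 0` is within `√L √(2 VV)` of `φ' (i,0) 0`, which is `1` for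
`i ≠ -1`, and `=: A` for `i = -1`. Plaquettes with `y.2 = -1`, `y.1 ≠ -1` give that all `φ' (i,-1) 1` are
within `C L^2 √VV` of one of them, `=: B`, and the corner gives `‖A B - om • B A‖ ≤ C L^2 √VV`. D1 for
`L = 1` (the torus with one point: `VV k φ = ‖A B - om B A‖² / 2`) gives `g ∈ SU N` with
`‖g A g⁻¹ - P‖² + ‖g B g⁻¹ - Q‖² ≤ C ‖A B - om B A‖²`; use `g h`. D2u. Telescoping:
`‖U y P - P U y‖² ≤ L e`, `e = dst (act U vac) vac`, the same for `Q`; D2 for `L = 1` gives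
`m_y` with `‖U y - om^(m_y)‖² ≤ C L e`; if `e ≥ c / L²` the claim is trivial, otherwise neighbouring
`m_y` are equal. -/

def S_D1u : Prop := ∀ N k : ℕ, 2 ≤ N → Nat.Coprime k N → ∀ P Q : SU N, PQ k P Q →
  ∃ (C : ℝ) (K : ℕ), 1 ≤ C ∧ ∀ (L : ℕ) [NeZero L] (φ : Ph N L), ∃ g : Tor L → SU N,
    dst (act g φ) (vac P Q) ≤ C * (L : ℝ) ^ K * VV k φ

def S_D2u : Prop := ∀ N k : ℕ, 2 ≤ N → Nat.Coprime k N → ∀ P Q : SU N, PQ k P Q →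
  ∃ (C : ℝ) (K : ℕ), 1 ≤ C ∧ ∀ (L : ℕ) [NeZero L] (U : Tor L → SU N), ∃ m : Fin N,
    ∑ y, ‖(U y : Mt N) - om N m • (1 : Mt N)‖ ^ 2 ≤
      C * (L : ℝ) ^ K * dst (act U (vac P Q)) (vac P Q)

/-! ### E3u, Ju, Ku : ports of E3, J, K -/

def S_E3u : Prop := ∀ N : ℕ, 2 ≤ N → ∀ P Q : SU N, ∃ C : ℝ, 1 ≤ C ∧ ∀ (L : ℕ) [NeZero L],
  (∀ (φ ψ : Ph N L) (y : Tor L) (M : Mt N),
    ‖fr P Q φ y M - fr P Q ψ y M‖ ≤ C * L * Real.sqrt (dst φ ψ) * ‖M‖) ∧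
  (∀ (φ : Ph N L) (y : Tor L) (M : Mt N), ‖fr P Q φ y M‖ ≤ C * ‖M‖)

def S_Ju : Prop := ∀ N k : ℕ, 2 ≤ N → Nat.Coprime k N → ∀ P Q : SU N, PQ k P Q →
  ∃ (C : ℝ) (K : ℕ), 1 ≤ C ∧ ∀ (L : ℕ) [NeZero L] (φ ψ : Ph N L) (U : Tor L → SU N) (e : ℝ),
    dst φ (vac P Q) ≤ e → dst ψ (vac P Q) ≤ e →
    ∑ y, ∑ j, ‖(U y : Mt N) * (ψ y j : Mt N) - (φ y j : Mt N) * (U (tsh y j) : Mt N)‖ ^ 2 ≤ e →
    ∃ m : Fin N, ∑ y, ‖(U y : Mt N) - om N m • (1 : Mt N)‖ ^ 2 ≤ C * (L : ℝ) ^ K * e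

def S_Ku : Prop := ∀ N k : ℕ, 2 ≤ N → Nat.Coprime k N → ∀ P Q : SU N, PQ k P Q →
  ∀ (E : Mt N → SU N) (C₀ : ℝ), Continuous E → E 0 = 1 →
    (∀ M : Mt N, ‖(E M : Mt N) - 1 - pr M‖ ≤ C₀ * ‖M‖ ^ 2) →
  ∃ (C : ℝ) (K : ℕ), 1 ≤ C ∧ ∀ (L : ℕ) [NeZero L] (h : Lk L → Mt N) (ρ : ℝ) (X : Cf N L),
    0 ≤ ρ → ρ ≤ 1 → (∀ l, h l ∈ su N ∧ ‖h l‖ ≤ ρ) →
    (∀ l, h l = 0 → TM P Q E h X l = X l) ∧
    (∀ l : Lk L, (∀ y j, ‖(pt X l.1.1 y j : Mt N) - (vac P Q y j : Mt N)‖ ≤ ρ) →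
      (l.2 = 2 ∨ l.2 = 3 → ‖(X (l.1, 0) : Mt N) - 1‖ ≤ ρ ∧
        ∀ y j, ‖(pt X (l.1.1 + (1, 0)) y j : Mt N) - (vac P Q y j : Mt N)‖ ≤ ρ) →
      ‖(TM P Q E h X l : Mt N) - (1 + h l) * (X l : Mt N)‖ ≤ C * (L : ℝ) ^ K * ρ ^ 2)

/-! ### G1u, G3u, Gu, Hu : ports of G1, G3, G, H

Gu: `#Fr U ≤ C L² #U`. Hu: `θ = C_G / (1 + C_G) ≤ exp (-1 / (1 + C_G))` with `C_G = C L^K`,
`1 / (1 - θ) = 1 + C_G`. -/

def S_G1u : Prop := ∀ N k : ℕ, 2 ≤ N → Nat.Coprime k N → ∃ (C : ℝ) (K : ℕ), 1 ≤ C ∧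
  ∀ (L : ℕ) [NeZero L] (U : Finset Pl) (η : Cf N L), ∃ X : Cf N L,
    (∀ l, l ∉ Frl L U → X l = η l) ∧
    ∑ τ ∈ tml U, en k X τ ≤ C * (L : ℝ) ^ K * ∑ τ ∈ rng U, en k η τ

def S_G3u : Prop := ∀ N k : ℕ, 2 ≤ N → ∃ (C : ℝ) (K : ℕ), 1 ≤ C ∧ ∀ (L : ℕ) [NeZero L],
  (∀ (X Y : Cf N L) (τ : Tm) (r : ℝ), 0 ≤ r →
    (∀ l ∈ (spt τ : Finset (Lk L)), ‖(X l : Mt N) - (Y l : Mt N)‖ ≤ r) →
    en k Y τ ≤ 2 * en k X τ + C * (L : ℝ) ^ K * r ^ 2) ∧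
  (∀ (X : Cf N L) (τ : Tm), en k X τ ≤ C * (L : ℝ) ^ K) ∧
  (∀ (β : ℝ) (X : Cf N L) (τ : Tm), 0 ≤ β →
    Real.exp (-β * en k X τ) / N ≤ wt k β τ X ∧ wt k β τ X ≤ Real.exp (-β * en k X τ))

def S_Gu : Prop := ∀ (N k : ℕ) (hN : 2 ≤ N), Nat.Coprime k N → ∃ (C : ℝ) (K D : ℕ), 1 ≤ C ∧
  ∀ (L : ℕ) [NeZero L] (β : ℝ) (hβ : 0 ≤ β), 1 ≤ β → ∀ (U : Finset Pl) (t : ℝ), 0 ≤ t →
  ∀ η : Cf N L, (sysS N L k β hN hβ).ker (hm N) U (fun X =>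
      ind (C * (L : ℝ) ^ K * ∑ τ ∈ rng U, en k X τ + t ≤ ∑ τ ∈ tml U, en k X τ)) η ≤
      Real.exp (-β * t) * (C * (L : ℝ) ^ K * β) ^ (D * L ^ 2 * U.card)

def S_Hu : Prop := ∀ (N k : ℕ) (hN : 2 ≤ N), Nat.Coprime k N → ∃ (C : ℝ) (K D : ℕ), 1 ≤ C ∧
  ∀ (L : ℕ) [NeZero L] (β : ℝ) (hβ : 0 ≤ β), 1 ≤ β →
  ∀ (Λ B : Finset Pl) (R : ℕ) (e t : ℝ), 0 ≤ e → 0 ≤ t → ∀ η : Cf N L,
    (∀ τ : Tm, (∀ a ∈ cor τ, a ∈ bal (R + 1) B ∧ a ∉ Λ) → en k η τ ≤ e) →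
    (sysS N L k β hN hβ).ker (hm N) Λ (fun X =>
      ind (C * (L : ℝ) ^ K * ((bal (R + 1) B).card * (Real.exp (-R / (C * (L : ℝ) ^ K)) + e) + t) ≤
        ∑ τ ∈ tml (B ∩ Λ), en k X τ)) η ≤
      (R + 1) * (Real.exp (-β * t) * (C * (L : ℝ) ^ K * β) ^ (D * L ^ 2 * (bal (R + 1) B).card))

/-! ### I1u, Iu : the linear problem with the sharp rate (uses B0 C1u C2u)

I1u. As I1, with C2u for the gauge fixing at every site of `Λ` (Coulomb gauge). For torus links: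
`∑ ‖h‖² ≤ C L² bf (x,0) h h` at `x ∈ Λ` (C2u; `crl = cu` in the directions `2, 3`). For plane links at
`(x, m)`: `cu h (x,y) m (j+2) = dd vac (h ((x,·),m)) y j + (h ((x+e_m,y),j+2) - h ((x,y),j+2))`; if both
ends are in the Coulomb gauge (`x, x + e_m ∈ Λ`, or the boundary values at the end outside `Λ` vanish)
the second part is orthogonal to the first, so `‖dd (h m)‖² ≤ bf (x, m+1) h h`, and C1u. In general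
`‖dd (h m)‖² ≤ 2 bf + 2 ‖h (x+e_m) - h x‖²`, giving the last estimate (with `L^4`).
Iu. `e_r = ∑_{tml (Λ ∩ bal r B)} bf h h`. Let `χ : Pl → [0,1]` vanish on `bal (r+1) B`, be `1` outside
`bal (r + 1 + L) B`, with differences at most `1/L` between neighbours. For `r + L + 4 ≤ R` compare `h`
with `h' ((x,y),i) = χ x • h ((x,y),i)` (admissible: the boundary values vanish on the links inside
`bal R B`, and `χ = 1` at both ends of all others, as `r + L + 2 ≤ R`):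
`∑_{tml Λ} bf h h ≤ ∑_{tml Λ} bf h' h'`, and per plaquette
`cu h' = χ x • cu h + (difference of χ) • h` terms, e.g. `cu h' (x,y) m (j+2) = χ x cu h +
(χ (x+e_m) - χ x) h ((x+e_m,y),j+2)`, `cu h' (x,y) 0 1 = χ x cu h + (χ (x+e_0) - χ x) h ((x+e_0,y),1) -
(χ (x+e_1) - χ x) h ((x+e_1,y),0)`. The terms where `χ = 1` are equal, those where `χ = 0` vanish, for the
others `bf h' h' ≤ 2 bf h h + 4 L^(-2) ∑ ‖h l‖²` with `‖h l‖² ≤ C L² bf` of nearby terms by I1u (boundary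
values vanish there). So `e_r ≤ C (e_(r+L+4) - e_r)` with `C` independent of `L`, hence
`e_0 ≤ exp (-2 c R / L) C' e_R`. -/

def S_I1u : Prop := ∀ N k : ℕ, 2 ≤ N → Nat.Coprime k N → ∀ P Q : SU N, PQ k P Q →
  ∃ C : ℝ, 1 ≤ C ∧ ∀ (L : ℕ) [NeZero L] (Λ : Finset Pl) (kk : Lk L → Mt N), (∀ l, kk l ∈ su N) →
    ∃ h : Lk L → Mt N, (∀ l, h l ∈ su N) ∧ (∀ l, l ∉ Frl L Λ → h l = kk l) ∧
      (∀ a : Lk L → Mt N, (∀ l, a l ∈ su N) → (∀ l, l ∉ Frl L Λ → a l = 0) →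
        ∑ τ ∈ tml Λ, bf P Q τ a h = 0) ∧
      (∀ x ∈ Λ, ∑ y : Tor L, (‖h ((x, y), 2)‖ ^ 2 + ‖h ((x, y), 3)‖ ^ 2) ≤
        C * (L : ℝ) ^ 2 * bf P Q (x, 0) h h) ∧
      (∀ (x : Pl) (i : Fin 4) (τ : Tm), (i = 0 ∧ τ = (x, 1)) ∨ (i = 1 ∧ τ = (x, 2)) →
        (x ∈ Λ ∨ x + pe i ∈ Λ) →
        (∀ (z : Pl) (y : Tor L), (z = x ∨ z = x + pe i) → z ∉ Λ →
          kk ((z, y), 2) = 0 ∧ kk ((z, y), 3) = 0) →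
        ∑ y : Tor L, ‖h ((x, y), i)‖ ^ 2 ≤ C * (L : ℝ) ^ 2 * bf P Q τ h h) ∧
      (∀ l ∈ Frl L Λ, ‖h l‖ ^ 2 ≤ C * (L : ℝ) ^ 4 *
        (∑ τ ∈ (tml Λ).filter (fun τ => cor τ ⊆ st l), bf P Q τ h h +
          ∑ l' ∈ (bdl L Λ).filter (fun l' => st l' ⊆ st l), ‖kk l'‖ ^ 2))

def S_Iu : Prop := ∀ N k : ℕ, 2 ≤ N → Nat.Coprime k N → ∀ P Q : SU N, PQ k P Q →
  ∃ (C c : ℝ) (K : ℕ), 1 ≤ C ∧ 0 < c ∧ ∀ (L : ℕ) [NeZero L] (Λ : Finset Pl) (kk : Lk L → Mt N),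
    (∀ l, kk l ∈ su N) →
    ∃ h : Lk L → Mt N, (∀ l, h l ∈ su N) ∧ (∀ l, l ∉ Frl L Λ → h l = kk l) ∧
      (∀ a : Lk L → Mt N, (∀ l, a l ∈ su N) → (∀ l, l ∉ Frl L Λ → a l = 0) →
        ∑ τ ∈ tml Λ, bf P Q τ a h = 0) ∧
      (∀ l ∈ Frl L Λ, ‖h l‖ ^ 2 ≤ C * (L : ℝ) ^ K * ∑ l' ∈ bdl L Λ, ‖kk l'‖ ^ 2) ∧
      ∀ (B : Finset Pl) (R : ℕ), B ⊆ Λ →
        (∀ l, l ∉ Frl L Λ → (∀ a ∈ st l, a ∈ bal R B) → kk l = 0) →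
        ∀ l ∈ Frl L B, ‖h l‖ ^ 2 ≤
          C * (L : ℝ) ^ K * Real.exp (-c * R / L) * ∑ l' ∈ bdl L Λ, ‖kk l'‖ ^ 2

/-! ### LLu : L1u, L2u, L3u : ports of L1, L2, L3 -/

def S_L1u : Prop := ∀ N k : ℕ, 2 ≤ N → Nat.Coprime k N → ∀ P Q : SU N, PQ k P Q →
  ∃ (C : ℝ) (K : ℕ), 1 ≤ C ∧ ∀ (L : ℕ) [NeZero L] (τ : Tm) (X : Cf N L) (a : Lk L → Mt N) (ρ : ℝ),
    0 ≤ ρ → ρ ≤ 1 →
    (∀ l ∈ (spt τ : Finset (Lk L)), ‖a l‖ ≤ ρ ∧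
      ‖(X l : Mt N) - (1 + a l) * (vc P Q l : Mt N)‖ ≤ ρ ^ 2) →
    |en1 k X τ - bf P Q τ a a / 2| ≤ C * (L : ℝ) ^ K * ρ ^ 3

def S_L2u : Prop := ∀ N k : ℕ, 2 ≤ N → ∀ P Q : SU N,
  ∃ C : ℝ, 1 ≤ C ∧ ∀ (L : ℕ) [NeZero L] (τ : Tm) (X : Cf N L),
    (∀ l ∈ (spt τ : Finset (Lk L)), ‖(X l : Mt N) - (vc P Q l : Mt N)‖ ≤ 1 / C) →
    ∀ β : ℝ, 0 ≤ β →
      (if τ.2 = 3 then (1 / N : ℝ) else 1) * Real.exp (-β * en1 k X τ) ≤ wt k β τ X ∧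
      wt k β τ X ≤ (if τ.2 = 3 then (1 / N : ℝ) else 1) * Real.exp (-β * en1 k X τ) *
        (1 + N * Real.exp (-β / C))

def S_L3u : Prop := ∀ N : ℕ, 2 ≤ N → ∀ P Q : SU N, ∃ (C : ℝ) (K : ℕ), 1 ≤ C ∧
  ∀ (L : ℕ) [NeZero L] (τ : Tm) (a b : Lk L → Mt N) (r s : ℝ), 0 ≤ r → 0 ≤ s →
    (∀ l ∈ (spt τ : Finset (Lk L)), ‖a l‖ ≤ r ∧ ‖b l‖ ≤ s) →
      |bf P Q τ a b| ≤ C * (L : ℝ) ^ K * r * s

/-! ### M0u, M1u, Mu : ports of M0, M1, M -/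

def S_M0u : Prop := ∀ N k : ℕ, 2 ≤ N → Nat.Coprime k N → ∀ P Q : SU N, PQ k P Q →
  ∀ (E : Mt N → SU N) (C₀ : ℝ), GE N E C₀ → ∃ (C c : ℝ) (K : ℕ), 1 ≤ C ∧ 0 < c ∧
  ∀ (L : ℕ) [NeZero L] (Λ B : Finset Pl) (R : ℕ) (ρ : ℝ) (σ σ' : Cf N L), B ⊆ Λ → Λ ⊆ bal R B →
    0 ≤ ρ → C * (L : ℝ) ^ K * Λ.card * ρ ^ 2 ≤ 1 →
    (∀ l, l ∉ Frl L Λ → (∀ a ∈ st l, a ∈ pls Λ) →
      ‖(σ l : Mt N) - (vc P Q l : Mt N)‖ ≤ ρ ∧ ‖(σ' l : Mt N) - (vc P Q l : Mt N)‖ ≤ ρ) →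
    (∀ l, l ∉ Frl L Λ → (∀ a ∈ st l, a ∈ bal R B) → σ l = σ' l) →
    ∃ (h : Lk L → Mt N) (c' : ℝ), (∀ l, l ∉ Frl L Λ ∨ l ∈ Frl L B → h l = 0) ∧
      (∀ X : Cf N L, (∀ l, l ∉ Frl L Λ → X l = σ l) →
        (∀ l, (∀ a ∈ st l, a ∈ pls Λ) → ‖(X l : Mt N) - (vc P Q l : Mt N)‖ ≤ ρ) →
        (∀ l, (∀ a ∈ st l, a ∈ pls Λ) →
          ‖((glue (Frl L Λ) (TM P Q E h X) σ' l : SU N) : Mt N) - (vc P Q l : Mt N)‖ ^ 2 ≤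
            C * (L : ℝ) ^ K * Λ.card * ρ ^ 2) ∧
        |∑ τ ∈ tml Λ, (en1 k (glue (Frl L Λ) (TM P Q E h X) σ') τ - en1 k X τ) - c'| ≤
          C * (L : ℝ) ^ K * Λ.card * (Λ.card * ρ ^ 2) *
            (Real.sqrt (Λ.card * ρ ^ 2) + Real.exp (-c * R / L))) ∧
      (∀ X : Cf N L, (∀ l, l ∉ Frl L Λ → X l = σ' l) →
        (∀ l, (∀ a ∈ st l, a ∈ pls Λ) → ‖(X l : Mt N) - (vc P Q l : Mt N)‖ ≤ ρ) →
        (∀ l, (∀ a ∈ st l, a ∈ pls Λ) →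
          ‖((glue (Frl L Λ) (TM P Q E (fun l => - h l) X) σ l : SU N) : Mt N) -
            (vc P Q l : Mt N)‖ ^ 2 ≤ C * (L : ℝ) ^ K * Λ.card * ρ ^ 2) ∧
        |∑ τ ∈ tml Λ, (en1 k (glue (Frl L Λ) (TM P Q E (fun l => - h l) X) σ) τ - en1 k X τ) + c'| ≤
          C * (L : ℝ) ^ K * Λ.card * (Λ.card * ρ ^ 2) *
            (Real.sqrt (Λ.card * ρ ^ 2) + Real.exp (-c * R / L)))

def S_M1u : Prop := ∀ (N k : ℕ) (hN : 2 ≤ N), Nat.Coprime k N → ∀ P Q : SU N, PQ k P Q →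
  ∃ (C c : ℝ) (K D : ℕ), 1 ≤ C ∧ 0 < c ∧ ∀ (L : ℕ) [NeZero L] (β : ℝ) (hβ : 0 ≤ β), 1 ≤ β →
  ∀ (Λ B : Finset Pl) (R : ℕ) (e t r : ℝ), 0 ≤ e → 0 ≤ t → B ⊆ Λ → Λ ⊆ bal R B →
    r = C * (L : ℝ) ^ K * Λ.card * (Λ.card * e + t) → r ≤ 1 / C →
  ∀ σ σ' : Cf N L, (∀ l, l ∉ Frl L Λ → (∀ a ∈ st l, a ∈ bal R B) → σ l = σ' l) →
    (∀ l, l ∉ Frl L Λ → (∀ a ∈ st l, a ∈ pls Λ) →
      ‖(σ l : Mt N) - (vc P Q l : Mt N)‖ ^ 2 ≤ e ∧ ‖(σ' l : Mt N) - (vc P Q l : Mt N)‖ ^ 2 ≤ e) →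
    ∀ F : Cf N L → ℝ, Measurable F → (∀ X, 0 ≤ F X ∧ F X ≤ 1) →
      Sys.dep {l | ∀ a ∈ st l, (a ∈ bal R B ∧ a ∉ Λ) ∨ a ∈ B} F →
      (sysS N L k β hN hβ).ker (hm N) Λ F σ ≤ (sysS N L k β hN hβ).ker (hm N) Λ F σ' +
        C * (L : ℝ) ^ K * Λ.card *
          (β * (r * Real.sqrt r + Real.exp (-c * R / L) * r) + Real.exp (-β / C)) +
        2 * (Real.exp (-β * t) * (C * (L : ℝ) ^ K * β) ^ (D * L ^ 2 * Λ.card))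

def S_Mu : Prop := ∀ (N k : ℕ) (hN : 2 ≤ N), Nat.Coprime k N →
  ∃ (C c : ℝ) (K D : ℕ), 1 ≤ C ∧ 0 < c ∧ ∀ (L : ℕ) [NeZero L] (β : ℝ) (hβ : 0 ≤ β), 1 ≤ β →
  ∀ (Λ B : Finset Pl) (R : ℕ) (e t r : ℝ), 0 ≤ e → 0 ≤ t → B ⊆ Λ → Λ ⊆ bal R B →
    r = C * (L : ℝ) ^ K * Λ.card * (Λ.card * e + t) → r ≤ 1 / C →
  ∀ η η' : Cf N L, (∀ l, l ∉ Frl L Λ → (∀ a ∈ st l, a ∈ bal R B) → η l = η' l) →
    (∀ τ ∈ rng Λ, en k η τ ≤ e ∧ en k η' τ ≤ e) →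
    ∀ F : Cf N L → ℝ, Measurable F → (∀ X, 0 ≤ F X ∧ F X ≤ 1) →
      Sys.dep {l | ∀ a ∈ st l, (a ∈ bal R B ∧ a ∉ Λ) ∨ a ∈ B} F →
      (sysS N L k β hN hβ).ker (hm N) Λ F η ≤ (sysS N L k β hN hβ).ker (hm N) Λ F η' +
        C * (L : ℝ) ^ K * Λ.card *
          (β * (r * Real.sqrt r + Real.exp (-c * R / L) * r) + Real.exp (-β / C)) +
        2 * (Real.exp (-β * t) * (C * (L : ℝ) ^ K * β) ^ (D * L ^ 2 * Λ.card))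

/-! ### Xu : the coupling theorem with a radius `s`

As X, but a site `b` is called bad (for `ω`) if some term inside `Nb s b` is not good, and the
insensitivity is assumed only if the fixed terms inside `Nb s b` are good for BOTH configurations.
Chains `(b_i, l_i)` with three labels: `a` (bad for `η`), `a'` (bad for `η'`), `c`. Weight of a chain in
the state `(Λ, η, η')`: `G = δ^(#c/3) (ker Λ (∏_{l_i = a} Bad_{b_i}) η)^(1/3)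
(ker Λ (∏_{l_i = a'} Bad_{b_i}) η')^(1/3)`. Let `Λ₀` be the set of the theorem,
`Λ₁ = {b ∈ Λ₀ : Nb (2 s) b ⊆ Λ₀}`, `C₀` = complement of `Λ₁`; all chains have their sites in `Λ₁`, and
`S(Λ, C, η, η')` is the sum over the chains from `C` (steps as in X: distance exactly 3, last site within
2 of `A`, sites distinct).
CLAIM: for `Λ ⊆ Λ₁`, `C` disjoint from `Λ` with `C₀ ⊆ C`, and `η, η'` that agree on all variables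
`i ∉ Fr Λ` with `bl i ∩ C = ∅`: `|ker Λ f η - ker Λ f η'| ≤ 2 S(Λ, C, η, η')`. Induction on `#Λ` as in X.
Case (iii): under the maximal coupling of `ρ_η, ρ_η'` (total mass `κ` of disagreement) write the
difference as before. Chains from `C`: their weights contribute
`δ^(#c/3) E [u(ξ)^(1/3) v(ξ')^(1/3)] ≤ δ^(#c/3) (E u)^(1/3) (E v)^(1/3) = G` (Hoelder, exponents
`3, 3, 3`; `E u = ker Λ (∏ Bad) η` by F3, as the marginals are `ρ_η`, `ρ_η'`). Chains from the new `b`: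
`E [u^(1/3) v^(1/3) 1_{disagree}] ≤ (E u)^(1/3) (E v)^(1/3) κ^(1/3)`, and `κ ≤ δ` if the fixed terms
inside `Nb s b` are good for both (label `c`); if one is bad for `η` the indicator `Bad_b = 1` can be
inserted in `u` (label `a`); if one is bad for `η'`, in `v` (label `a'`).
Start: `|ker Λ₀ f η - ker Λ₀ f η'| ≤ ∬ |ker Λ₁ f ω - ker Λ₁ f ω'|` over the product of the two kernels
(F3), the CLAIM for `(Λ₁, C₀, ω, ω')` and Hoelder again give `≤ 2 S(Λ₀-expectations)`.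
Product bound: sites with pairwise distance `≥ 4 s + 2` in some coordinate... use classes modulo
`4 s + 4` in both coordinates (`(4s+4)²` classes): for `b_i` in one class the sets `Nb (2s) b_i` are
disjoint with distance `≥ 3`, contained in `Λ₀`; `ker Λ₀ (∏ Bad) ≤ p^m`; in general
`≤ p^(m/(4s+4)²)`, whose cube root is `≤ q^m`. Counting: `25 #A 24^(k-1) 3^k q^k`. -/

/-- some term inside the square of radius `s` around `b` is not good -/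
def Bads {ι Tm X : Type} [DecidableEq ι] [DecidableEq Tm] [MeasurableSpace X]
    (S : Sys ι Tm X) (g : Tm → (ι → X) → Prop) (s : ℕ) (b : Pl) (ω : ι → X) : Prop :=
  ∃ τ ∈ S.tms (Nb s b), (∀ a ∈ S.bt τ, a ∈ Nb s b) ∧ ¬ g τ ω

def S_Xu : Prop := ∀ (ι Tm X : Type) [DecidableEq ι] [DecidableEq Tm] [MeasurableSpace X]
  (S : Sys ι Tm X) (μ : Measure X) [IsProbabilityMeasure μ] (g : Tm → (ι → X) → Prop) (s : ℕ)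
  (p δ q : ℝ), 1 ≤ s →
  (∀ τ, MeasurableSet {ω | g τ ω}) →
  (∀ τ ω ω', (∀ i ∈ S.sp τ, ω i = ω' i) → (g τ ω ↔ g τ ω')) →
  (∀ b η, S.ker μ (Nb (2 * s) b) (fun ω => ind (Bads S g s b ω)) η ≤ p) →
  (∀ b, ∀ Λ : Finset Pl, b ∈ Λ → ∀ η η' : ι → X,
    (∀ i, (∀ a ∈ S.bl i, a ∈ Nb 2 b ∧ a ∉ Λ) → η i = η' i) →
    (∀ τ ∈ S.tms (Nb s b), (∀ a ∈ S.bt τ, a ∈ Nb s b ∧ a ∉ Λ) → g τ η ∧ g τ η') →
    ∀ F : (ι → X) → ℝ, Measurable F → (∀ ω, 0 ≤ F ω ∧ F ω ≤ 1) →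
      Sys.dep {i | ∀ a ∈ S.bl i, (a ∈ Nb 2 b ∧ a ∉ Λ) ∨ a = b} F →
      S.ker μ Λ F η ≤ S.ker μ Λ F η' + δ) →
  0 < p → 0 < δ → 0 < q → δ ≤ q ^ 3 → p ≤ q ^ (3 * (4 * s + 4) ^ 2) → 72 * q ≤ 1 / 2 →
  ∀ (A Λ : Finset Pl) (n : ℕ), (∀ a ∈ A, Nb (n + 2 * s) a ⊆ Λ) →
    ∀ f : (ι → X) → ℝ, Measurable f → (∀ ω, |f ω| ≤ 1) → Sys.dep {i | ∀ a ∈ S.bl i, a ∈ A} f →
      ∀ η η' : ι → X, |S.ker μ Λ f η - S.ker μ Λ f η'| ≤ 6 * A.card * (72 * q) ^ (n / 3)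

/-! ### Z1u, Zu, P1u : ports of Z1, Z, P1

Z1u: `B = sit M {b}`, `R₁ = ⌊M/2⌋`, `Λ'' = Λ_s ∩ bal R₁ B`; Hu with depth up to the boundary of
`sit M (Nb s b) = bal (s M) B`: `R + 1 + (R₁ + 2) = s M`, `R ≥ s M / 8`. The fixed terms inside
`sit M (Nb s b) \ Λ_s` have energy `≤ ε` for `η` and for `η'`. Rare bad squares: `Λ = sit M (Nb (2 s) b)`,
`B = sit M (Nb s b)`, `R = s M - 1`, at most `25 s² M²` sites.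
Zu: `M = ⌈K₂ L log β⌉`, `s` = a large power of `L`, `t = K₄ L^K₅ (log β)^3 / β`, `q = β^(-1/15)` etc.,
`β ≥ C₀ L^K₀`.
P1u: as P1 with Xu; for `n < (2 s + 2) M` trivial bound; `κ` may depend on `β` and `L`. -/

def S_Z1u : Prop := ∀ (N k : ℕ) (hN : 2 ≤ N), Nat.Coprime k N →
  ∃ (C c : ℝ) (K D : ℕ), 1 ≤ C ∧ 0 < c ∧ ∀ (L : ℕ) [NeZero L] (β : ℝ) (hβ : 0 ≤ β), 1 ≤ β →
  ∀ (M s : ℕ) (hM : 0 < M) (t ε r : ℝ), 8 ≤ M → 1 ≤ s → 0 ≤ t →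
    ε = C * (L : ℝ) ^ K * (s * M : ℝ) ^ 2 * (Real.exp (-(s * M) / (C * (L : ℝ) ^ K)) + t) →
    r = C * (L : ℝ) ^ K * (s * M : ℝ) ^ 8 * (Real.exp (-(s * M) / (C * (L : ℝ) ^ K)) + t) →
    r ≤ 1 / C →
    (∀ b η, (coa (sysS N L k β hN hβ) M hM).ker (hm N) (Nb (2 * s) b)
      (fun ω => ind (Bads (coa (sysS N L k β hN hβ) M hM) (fun τ X => en k X τ ≤ ε) s b ω)) η ≤
        s * M * (Real.exp (-β * t) * (C * (L : ℝ) ^ K * β) ^ (D * L ^ 2 * (s * M) ^ 2))) ∧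
    (∀ b, ∀ Λ : Finset Pl, b ∈ Λ → ∀ η η' : Cf N L,
      (∀ i, (∀ a ∈ (coa (sysS N L k β hN hβ) M hM).bl i, a ∈ Nb 2 b ∧ a ∉ Λ) → η i = η' i) →
      (∀ τ ∈ (coa (sysS N L k β hN hβ) M hM).tms (Nb s b),
        (∀ a ∈ (coa (sysS N L k β hN hβ) M hM).bt τ, a ∈ Nb s b ∧ a ∉ Λ) →
          en k η τ ≤ ε ∧ en k η' τ ≤ ε) →
      ∀ F : Cf N L → ℝ, Measurable F → (∀ ω, 0 ≤ F ω ∧ F ω ≤ 1) →
        Sys.dep {i | ∀ a ∈ (coa (sysS N L k β hN hβ) M hM).bl i, (a ∈ Nb 2 b ∧ a ∉ Λ) ∨ a = b} F →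
        (coa (sysS N L k β hN hβ) M hM).ker (hm N) Λ F η ≤
          (coa (sysS N L k β hN hβ) M hM).ker (hm N) Λ F η' +
          (C * (L : ℝ) ^ K * M ^ 2 *
              (β * (r * Real.sqrt r + Real.exp (-c * M / L) * r) + Real.exp (-β / C)) +
            4 * s * M * (Real.exp (-β * t) * (C * (L : ℝ) ^ K * β) ^ (D * L ^ 2 * (s * M) ^ 2))))

def S_Zu : Prop := ∀ (N k : ℕ) (hN : 2 ≤ N), Nat.Coprime k N →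
  ∃ (c C₀ : ℝ) (K₀ : ℕ), 0 < c ∧ 2 ≤ C₀ ∧ ∀ (L : ℕ) [NeZero L] (β : ℝ) (hβ : 0 ≤ β),
  C₀ * (L : ℝ) ^ K₀ ≤ β →
  ∃ (M s : ℕ) (hM : 0 < M) (ε p δ q : ℝ), 1 ≤ s ∧ (M : ℝ) ≤ C₀ * L * Real.log β ∧
    0 < p ∧ 0 < δ ∧ 0 < q ∧ δ ≤ q ^ 3 ∧ p ≤ q ^ (3 * (4 * s + 4) ^ 2) ∧ 72 * q ≤ 1 / 2 ∧
    72 * q ≤ β ^ (-c) ∧
    (∀ b η, (coa (sysS N L k β hN hβ) M hM).ker (hm N) (Nb (2 * s) b)
      (fun ω => ind (Bads (coa (sysS N L k β hN hβ) M hM) (fun τ X => en k X τ ≤ ε) s b ω)) η ≤ p) ∧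
    (∀ b, ∀ Λ : Finset Pl, b ∈ Λ → ∀ η η' : Cf N L,
      (∀ i, (∀ a ∈ (coa (sysS N L k β hN hβ) M hM).bl i, a ∈ Nb 2 b ∧ a ∉ Λ) → η i = η' i) →
      (∀ τ ∈ (coa (sysS N L k β hN hβ) M hM).tms (Nb s b),
        (∀ a ∈ (coa (sysS N L k β hN hβ) M hM).bt τ, a ∈ Nb s b ∧ a ∉ Λ) →
          en k η τ ≤ ε ∧ en k η' τ ≤ ε) →
      ∀ F : Cf N L → ℝ, Measurable F → (∀ ω, 0 ≤ F ω ∧ F ω ≤ 1) →
        Sys.dep {i | ∀ a ∈ (coa (sysS N L k β hN hβ) M hM).bl i, (a ∈ Nb 2 b ∧ a ∉ Λ) ∨ a = b} F →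
        (coa (sysS N L k β hN hβ) M hM).ker (hm N) Λ F η ≤
          (coa (sysS N L k β hN hβ) M hM).ker (hm N) Λ F η' + δ)

def S_P1u : Prop := ∀ (N k : ℕ) (hN : 2 ≤ N), Nat.Coprime k N →
  ∃ (c C₀ : ℝ) (K₀ : ℕ), 0 < c ∧ 2 ≤ C₀ ∧ ∀ (L : ℕ) [NeZero L] (β : ℝ) (hβ : 0 ≤ β),
  C₀ * (L : ℝ) ^ K₀ ≤ β → ∃ κ : ℝ, 0 ≤ κ ∧ Dec N L k hN β hβ (c / L) κ

end T2H02.TT
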