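import Pool.Agent.T2H02.TT.G
import Pool.Agent.T2H02.TT.StmU

/-!
# Package Gu : the energy estimate, constants polynomial in `L`
-/

set_option autoImplicit false
set_option linter.unusedSectionVars false

noncomputable section

open MeasureTheory Matrix
open scoped Matrix.Norms.Frobenius

namespace T2H02.TT.PkgGu

open PkgG

/-- arithmetic at the end: `b = β Λ`, `CL ≥ Λ C` -/
lemma fin_ar {C CL c β Lam q1 E0 C1 t : ℝ} {D2 m n M1 M2 : ℕ} (hc0 : 0 < c) (hC1 : 1 ≤ C)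
    (hLam : 1 ≤ Lam) (hCL : C * Lam ≤ CL)
    (hCc : 1 / c ≤ C) (hCC : 2 * C1 ≤ CL) (hE0 : 0 ≤ E0) (hβ : 1 ≤ β) (hq : 0 < q1)
    (hq1 : 1 ≤ q1 * C) (hm : m ≤ M1) (hn : n ≤ M2) :
    Real.exp (-β * (CL * E0 + t)) ≤ Real.exp (-β * t) * (CL * β) ^ (M1 + M2 * (D2 + 1)) *
      (Real.exp (-2 * β * (C1 * E0)) * q1 ^ m * (c * (1 / (β * Lam)) ^ D2) ^ n) := by
  have hβ0 : 0 < β := by linarith
  have hLam0 : 0 < Lam := by linarith
  have hC0 : 0 < C := by linarith
  have hCCL : C ≤ CL := by nlinarith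
  have hCL0 : 0 < CL := by linarith
  have hCL1 : 1 ≤ CL := by linarith
  have hLCL : Lam ≤ CL := by nlinarith
  have hb : 1 ≤ CL * β := one_le_mul_of_one_le_of_one_le hCL1 hβ
  have e1 : Real.exp (-β * (CL * E0 + t)) ≤ Real.exp (-β * t) * Real.exp (-2 * β * (C1 * E0)) := by
    rw [← Real.exp_add]
    refine Real.exp_le_exp.2 ?_
    have : 0 ≤ β * E0 * (CL - 2 * C1) := by
      have : 0 ≤ CL - 2 * C1 := by linarith
      positivity
    nlinarith
  have e2 : (CL * β) ^ m * ((CL * β) ^ (D2 + 1)) ^ n ≤ (CL * β) ^ (M1 + M2 * (D2 + 1)) := by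
    rw [← pow_mul, ← pow_add]
    refine pow_le_pow_right₀ hb ?_
    have : (D2 + 1) * n ≤ M2 * (D2 + 1) := by
      rw [mul_comm]
      exact Nat.mul_le_mul_right _ hn
    omega
  have e3 : 1 ≤ (q1 * (CL * β)) ^ m := by
    refine one_le_pow₀ ?_
    calc (1 : ℝ) ≤ q1 * C * 1 := by linarith
      _ ≤ q1 * C * β := mul_le_mul_of_nonneg_left hβ (by positivity)
      _ ≤ q1 * CL * β := by gcongr
      _ = q1 * (CL * β) := by ring
  have e4 : 1 ≤ (c * (1 / (β * Lam)) ^ D2 * (CL * β) ^ (D2 + 1)) ^ n := by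
    refine one_le_pow₀ ?_
    have h1 : c * (1 / (β * Lam)) ^ D2 * (CL * β) ^ (D2 + 1) = (c * CL) * (CL / Lam) ^ D2 * β := by
      rw [one_div, inv_pow, mul_pow, mul_pow, pow_succ, pow_succ, div_pow]
      have : β ^ D2 ≠ 0 := by positivity
      have : Lam ^ D2 ≠ 0 := by positivity
      field_simp
    rw [h1]
    have h2 : 1 ≤ c * CL := by
      rw [div_le_iff₀ hc0] at hCc
      calc (1 : ℝ) ≤ C * c := hCc
        _ ≤ CL * c := by gcongr
        _ = c * CL := mul_comm _ _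
    have h3 : 1 ≤ (CL / Lam) ^ D2 := one_le_pow₀ ((one_le_div hLam0).2 hLCL)
    calc (1 : ℝ) ≤ (c * CL) * (CL / Lam) ^ D2 := one_le_mul_of_one_le_of_one_le h2 h3
      _ ≤ (c * CL) * (CL / Lam) ^ D2 * β := le_mul_of_one_le_right (by positivity) hβ
  calc Real.exp (-β * (CL * E0 + t)) ≤ Real.exp (-β * t) * Real.exp (-2 * β * (C1 * E0)) := e1
    _ ≤ Real.exp (-β * t) * Real.exp (-2 * β * (C1 * E0)) *
        ((q1 * (CL * β)) ^ m * (c * (1 / (β * Lam)) ^ D2 * (CL * β) ^ (D2 + 1)) ^ n) :=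
        le_mul_of_one_le_right (by positivity) (one_le_mul_of_one_le_of_one_le e3 e4)
    _ = Real.exp (-β * t) * ((CL * β) ^ m * ((CL * β) ^ (D2 + 1)) ^ n) *
        (Real.exp (-2 * β * (C1 * E0)) * q1 ^ m * (c * (1 / (β * Lam)) ^ D2) ^ n) := by
        rw [mul_pow, mul_pow (c * (1 / (β * Lam)) ^ D2)]
        ring
    _ ≤ _ := by
        refine mul_le_mul_of_nonneg_right (mul_le_mul_of_nonneg_left e2 (by positivity)) ?_
        positivity

theorem pG (h1 : S_G1u) (h2 : S_G2) (h3 : S_G3u) : S_Gu := by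
  intro N k hN hk
  obtain ⟨C1, K1, hC1, H1⟩ := h1 N k hN hk
  obtain ⟨c, D2, hc0, hc1, H2⟩ := h2 N hN
  obtain ⟨C3, K3, hC3, H3⟩ := h3 N k hN
  have hN0 : (0 : ℝ) < N := by exact_mod_cast (by omega : 0 < N)
  obtain ⟨C, hCa, hCb, hCc, hCd⟩ : ∃ C : ℝ, 1 ≤ C ∧ 2 * C1 ≤ C ∧ N * Real.exp C3 ≤ C ∧
      1 / c ≤ C :=
    ⟨max (max 1 (2 * C1)) (max (N * Real.exp C3) (1 / c)),
      (le_max_left _ _).trans (le_max_left _ _), (le_max_right _ _).trans (le_max_left _ _),
      (le_max_left _ _).trans (le_max_right _ _), (le_max_right _ _).trans (le_max_right _ _)⟩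
  refine ⟨C, K1 + K3, 16 + 12 * (D2 + 1), hCa, fun L _ β hβ hβ1 U t ht η => ?_⟩
  obtain ⟨H3a, H3b, H3c⟩ := H3 L
  have hL1 : (1 : ℝ) ≤ L := by exact_mod_cast (Nat.one_le_iff_ne_zero.2 (NeZero.ne L))
  obtain ⟨Lam, hLam⟩ : ∃ Lam : ℝ, Lam = (L : ℝ) ^ K3 := ⟨_, rfl⟩
  have hLam1 : 1 ≤ Lam := by rw [hLam]; exact one_le_pow₀ hL1
  have hLam0 : 0 < Lam := by linarith
  have hLK1 : (1 : ℝ) ≤ (L : ℝ) ^ K1 := one_le_pow₀ hL1
  obtain ⟨CL, hCLd⟩ : ∃ CL : ℝ, CL = C * (L : ℝ) ^ (K1 + K3) := ⟨_, rfl⟩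
  have hCL : C * Lam ≤ CL := by
    rw [hCLd, hLam, pow_add]
    calc C * (L : ℝ) ^ K3 = C * (1 * (L : ℝ) ^ K3) := by ring
      _ ≤ C * ((L : ℝ) ^ K1 * (L : ℝ) ^ K3) := by gcongr
  have hCL1 : 2 * (C1 * (L : ℝ) ^ K1) ≤ CL := by
    rw [hCLd, pow_add]
    calc 2 * (C1 * (L : ℝ) ^ K1) = (2 * C1) * ((L : ℝ) ^ K1 * 1) := by ring
      _ ≤ C * ((L : ℝ) ^ K1 * (L : ℝ) ^ K3) := by
        gcongr
        exact one_le_pow₀ hL1
  have hCL0 : 0 ≤ CL := by nlinarith
  rw [← hCLd]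
  have hβ0 : 0 < β := by linarith
  have hbl : 1 ≤ β * Lam := one_le_mul_of_one_le_of_one_le hβ1 hLam1
  have hbl0 : 0 < β * Lam := by linarith
  obtain ⟨X0, hX0, hE⟩ := H1 L U η
  obtain ⟨E0, hE0d⟩ : ∃ E0, E0 = ∑ τ ∈ rng U, en k η τ := ⟨_, rfl⟩
  have hE0 : 0 ≤ E0 := hE0d ▸ Finset.sum_nonneg fun τ _ => en_nonneg k η τ
  rw [← hE0d] at hE
  have hrng : ∀ ξ, ∑ τ ∈ rng U, en k (glue (Frl L U) ξ η) τ = E0 := fun ξ => by
    rw [hE0d]
    exact Finset.sum_congr rfl fun τ hτ => rng_en k U ξ η τ hτ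
  have hWle : ∀ X : Cf N L, ∏ τ ∈ tml U, wt k β τ X ≤ Real.exp (-β * ∑ τ ∈ tml U, en k X τ) := by
    intro X
    calc ∏ τ ∈ tml U, wt k β τ X ≤ ∏ τ ∈ tml U, Real.exp (-β * en k X τ) :=
          Finset.prod_le_prod (fun τ _ => (wt_pos k β τ X (by omega)).le)
            fun τ _ => (H3c β X τ hβ).2
      _ = Real.exp (-β * ∑ τ ∈ tml U, en k X τ) := by
          rw [← Real.exp_sum, Finset.mul_sum]
  have hWpos : ∀ X : Cf N L, 0 < ∏ τ ∈ tml U, wt k β τ X := fun X =>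
    Finset.prod_pos fun τ _ => wt_pos k β τ X (by omega)
  -- the numerator
  have hnum : (sysS N L k β hN hβ).num (hm N) U (fun X =>
      ind (CL * ∑ τ ∈ rng U, en k X τ + t ≤ ∑ τ ∈ tml U, en k X τ)) η ≤
      Real.exp (-β * (CL * E0 + t)) := by
    unfold Sys.num
    calc _ ≤ ∫ _ξ : Cf N L, Real.exp (-β * (CL * E0 + t)) ∂(pm N L) := by
          refine integral_mono_of_nonneg (Filter.Eventually.of_forall fun ξ => ?_)
            (integrable_const _) (Filter.Eventually.of_forall fun ξ => ?_)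
          · refine mul_nonneg ?_ (hWpos _).le
            change 0 ≤ ind (CL * ∑ τ ∈ rng U, en k (glue (Frl L U) ξ η) τ + t ≤
              ∑ τ ∈ tml U, en k (glue (Frl L U) ξ η) τ)
            unfold ind
            split_ifs <;> norm_num
          · change ind (CL * ∑ τ ∈ rng U, en k (glue (Frl L U) ξ η) τ + t ≤
              ∑ τ ∈ tml U, en k (glue (Frl L U) ξ η) τ) *
              ∏ τ ∈ tml U, wt k β τ (glue (Frl L U) ξ η) ≤ _
            rw [hrng]
            unfold ind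
            split_ifs with h
            · rw [one_mul]
              refine (hWle _).trans (Real.exp_le_exp.2 ?_)
              nlinarith
            · rw [zero_mul]
              exact (Real.exp_pos _).le
      _ = Real.exp (-β * (CL * E0 + t)) := by simp
  -- the denominator
  obtain ⟨q1, hq1d⟩ : ∃ q1 : ℝ, q1 = Real.exp (-C3) / N := ⟨_, rfl⟩
  have hq1 : 0 < q1 := by rw [hq1d]; positivity
  have hq1C : 1 ≤ q1 * C := by
    calc (1 : ℝ) = q1 * (N * Real.exp C3) := by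
          rw [hq1d, Real.exp_neg]
          field_simp
      _ ≤ q1 * C := mul_le_mul_of_nonneg_left hCc hq1.le
  obtain ⟨w0, hw0d⟩ : ∃ w0 : ℝ, w0 = Real.exp (-2 * β * (C1 * (L : ℝ) ^ K1 * E0)) * q1 ^ (tml U).card := ⟨_, rfl⟩
  have hw0 : 0 < w0 := by rw [hw0d]; positivity
  let box : Set (Cf N L) := Set.pi (Frl L U : Set (Lk L)) fun l =>
    {g : SU N | ‖(g : Mt N) - (X0 l : Mt N)‖ ≤ 1 / (β * Lam)}
  have hballm : ∀ l : Lk L, MeasurableSet {g : SU N | ‖(g : Mt N) - (X0 l : Mt N)‖ ≤ 1 / (β * Lam)} := by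
    intro l
    refine (isClosed_le ?_ continuous_const).measurableSet
    exact (continuous_subtype_val.sub continuous_const).norm
  have hboxm : MeasurableSet box := MeasurableSet.pi (Finset.countable_toSet _) fun l _ => hballm l
  have hlow : ∀ ξ ∈ box, w0 ≤ ∏ τ ∈ tml U, wt k β τ (glue (Frl L U) ξ η) := by
    intro ξ hξ
    have hr : ∀ l, ‖(X0 l : Mt N) - ((glue (Frl L U) ξ η l : SU N) : Mt N)‖ ≤ 1 / (β * Lam) := by
      intro l
      unfold glue
      split_ifs with h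
      · rw [norm_sub_rev]
        exact hξ l h
      · rw [hX0 l h, sub_self, norm_zero]
        positivity
    have h4 : ∀ τ, Real.exp (-2 * β * en k X0 τ) * q1 ≤ wt k β τ (glue (Frl L U) ξ η) := by
      intro τ
      refine le_trans ?_ (H3c β _ τ hβ).1
      rw [hq1d, ← mul_div_assoc]
      refine div_le_div_of_nonneg_right ?_ hN0.le
      rw [← Real.exp_add]
      refine Real.exp_le_exp.2 ?_
      have h5 := H3a X0 (glue (Frl L U) ξ η) τ (1 / (β * Lam)) (by positivity) fun l _ => hr l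
      have h6 : β * (C3 * (L : ℝ) ^ K3 * (1 / (β * Lam)) ^ 2) ≤ C3 := by
        rw [← hLam]
        have : β * (C3 * Lam * (1 / (β * Lam)) ^ 2) = C3 * (1 / (β * Lam)) := by field_simp
        rw [this]
        exact mul_le_of_le_one_right (by linarith) ((div_le_one hbl0).2 hbl)
      have h7 := mul_le_mul_of_nonneg_left h5 hβ
      nlinarith
    calc w0 ≤ Real.exp (-2 * β * ∑ τ ∈ tml U, en k X0 τ) * q1 ^ (tml U).card := by
          rw [hw0d]
          refine mul_le_mul_of_nonneg_right (Real.exp_le_exp.2 ?_) (by positivity)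
          nlinarith
      _ = ∏ τ ∈ tml U, (Real.exp (-2 * β * en k X0 τ) * q1) := by
          rw [Finset.prod_mul_distrib, ← Real.exp_sum, Finset.mul_sum, Finset.prod_const]
      _ ≤ _ := Finset.prod_le_prod (fun τ _ => by positivity) fun τ _ => h4 τ
  have hmeas : Measurable fun ξ : Cf N L => ∏ τ ∈ tml U, wt k β τ (glue (Frl L U) ξ η) :=
    Finset.measurable_prod _ fun τ _ =>
      ((sysS N L k β hN hβ).w_meas τ).comp (glue_meas (Frl L U) η)
  have hint : Integrable (fun ξ : Cf N L => ∏ τ ∈ tml U, wt k β τ (glue (Frl L U) ξ η))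
      (pm N L) := by
    refine Integrable.of_bound hmeas.aestronglyMeasurable 1 (Filter.Eventually.of_forall fun ξ => ?_)
    rw [Real.norm_eq_abs, abs_of_pos (hWpos _)]
    exact Finset.prod_le_one (fun τ _ => (wt_pos k β τ _ (by omega)).le)
      fun τ _ => wt_le k β hβ τ _ (by omega)
  have hboxv : (c * (1 / (β * Lam)) ^ D2) ^ (Frl L U).card ≤ (pm N L).real box := by
    have h5 : (pm N L).real box = ∏ l ∈ Frl L U,
        (hm N).real {g : SU N | ‖(g : Mt N) - (X0 l : Mt N)‖ ≤ 1 / (β * Lam)} := by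
      unfold Measure.real
      rw [show pm N L box = _ from Measure.infinitePi_pi (fun _ : Lk L => hm N)
        fun l _ => hballm l, ENNReal.toReal_prod]
    rw [h5, ← Finset.prod_const]
    refine Finset.prod_le_prod (fun l _ => by positivity) fun l _ => ?_
    exact H2 (1 / (β * Lam)) (X0 l) (by positivity) ((div_le_one hbl0).2 hbl)
  have hden : w0 * (c * (1 / (β * Lam)) ^ D2) ^ (Frl L U).card ≤
      (sysS N L k β hN hβ).num (hm N) U (fun _ => 1) η := by
    unfold Sys.num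
    calc w0 * (c * (1 / (β * Lam)) ^ D2) ^ (Frl L U).card ≤ w0 * (pm N L).real box :=
          mul_le_mul_of_nonneg_left hboxv hw0.le
      _ = ∫ ξ : Cf N L, box.indicator (fun _ => w0) ξ ∂(pm N L) := by
          rw [integral_indicator_const _ hboxm, smul_eq_mul, mul_comm]
      _ ≤ ∫ ξ : Cf N L, ∏ τ ∈ tml U, wt k β τ (glue (Frl L U) ξ η) ∂(pm N L) := by
          refine integral_mono_of_nonneg (Filter.Eventually.of_forall fun ξ => ?_) hint
            (Filter.Eventually.of_forall fun ξ => ?_)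
          · exact Set.indicator_nonneg (fun _ _ => hw0.le) ξ
          · by_cases hξ : ξ ∈ box
            · simp only [Set.indicator_of_mem hξ]
              exact hlow ξ hξ
            · simp only [Set.indicator_of_notMem hξ]
              exact (hWpos _).le
      _ = _ := by
          refine integral_congr_ae (Filter.Eventually.of_forall fun ξ => ?_)
          change _ = 1 * ∏ τ ∈ tml U, wt k β τ (glue (Frl L U) ξ η)
          rw [one_mul]
  have hdpos : 0 < (sysS N L k β hN hβ).num (hm N) U (fun _ => 1) η :=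
    lt_of_lt_of_le (by positivity) hden
  unfold Sys.ker
  rw [div_le_iff₀ hdpos]
  refine hnum.trans ?_
  have key := fin_ar (C := C) (CL := CL) (c := c) (β := β) (Lam := Lam) (q1 := q1) (E0 := E0)
    (C1 := C1 * (L : ℝ) ^ K1) (t := t) (D2 := D2) hc0 hCa hLam1 hCL hCd hCL1 hE0 hβ1 hq1 hq1C
    (card_tml U) (card_Frl (L := L) U)
  refine key.trans ?_
  rw [← hw0d]
  have hCLb : 1 ≤ CL * β := by nlinarith
  have hLn : 1 ≤ L := Nat.one_le_iff_ne_zero.2 (NeZero.ne L)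
  have e : 16 * U.card + 12 * L ^ 2 * U.card * (D2 + 1) ≤
      (16 + 12 * (D2 + 1)) * L ^ 2 * U.card := by
    have h1 : 1 ≤ L ^ 2 := Nat.one_le_pow _ _ hLn
    have h2 : 16 * U.card * 1 ≤ 16 * U.card * L ^ 2 := Nat.mul_le_mul_left _ h1
    nlinarith
  refine mul_le_mul (mul_le_mul_of_nonneg_left (pow_le_pow_right₀ hCLb e) (Real.exp_pos _).le)
    hden (by positivity) (by positivity)

end T2H02.TT.PkgGu

namespace T2H02.TT

theorem pGu (_h5 : S_F5) (h1 : S_G1u) (h2 : S_G2) (h3 : S_G3u) : S_Gu := PkgGu.pG h1 h2 h3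

end T2H02.TT
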