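import Pool.Agent.T2H02.TT.StmU
import Pool.Agent.T2H02.TT.H

/-!
# Package Hu : small energies inside, constants polynomial in `L`
-/

set_option autoImplicit false
set_option maxHeartbeats 4000000

noncomputable section

open MeasureTheory Matrix
open scoped Matrix.Norms.Frobenius

namespace T2H02.TT

namespace PkgHu

lemma theta_pow (G : ℝ) (hG : 1 ≤ G) (R : ℕ) (M : ℝ) (hM : 1 + G ≤ M) :
    (G / (1 + G)) ^ R ≤ Real.exp (-R / M) := by
  have h1 : G / (1 + G) ≤ Real.exp (-(1 / (1 + G))) := by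
    have h2 := Real.add_one_le_exp (-(1 / (1 + G)))
    have h3 : G / (1 + G) = -(1 / (1 + G)) + 1 := by
      have : (1 + G) ≠ 0 := by linarith
      field_simp
      ring
    rw [h3]; exact h2
  have h4 : (G / (1 + G)) ^ R ≤ (Real.exp (-(1 / (1 + G)))) ^ R :=
    pow_le_pow_left₀ (by positivity) h1 R
  refine h4.trans ?_
  rw [← Real.exp_nat_mul]
  refine Real.exp_le_exp.2 ?_
  have h5 : (1 : ℝ) / M ≤ 1 / (1 + G) := one_div_le_one_div_of_le (by linarith) hM
  have h6 : (R : ℝ) * (1 / M) ≤ R * (1 / (1 + G)) := mul_le_mul_of_nonneg_left h5 (Nat.cast_nonneg R)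
  have h7 : -(R : ℝ) / M = -(R * (1 / M)) := by ring
  have h8 : (R : ℝ) * -(1 / (1 + G)) = -(R * (1 / (1 + G))) := by ring
  rw [h7, h8]
  linarith

end PkgHu

open PkgH PkgHu

/-- **Package Hu.** -/
theorem pHu (h3 : S_F3) (h5 : S_F5) (hG : S_Gu) (hG3 : S_G3u) : S_Hu := by
  intro N k hN hk
  obtain ⟨Cg, K₁, D₁, hCg, hG'⟩ := hG N k hN hk
  obtain ⟨Ce, K₃, hCe, hG3'⟩ := hG3 N k hN
  refine ⟨16 * Ce + 4 * (1 + Cg), K₁ + K₃, D₁, by linarith, ?_⟩
  intro L _ β hβ hβ1 Λ B R e t he ht η hη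
  have hL1 : (1 : ℝ) ≤ L := by exact_mod_cast (NeZero.one_le : 1 ≤ L)
  have hLK1 : (1 : ℝ) ≤ (L : ℝ) ^ K₁ := one_le_pow₀ hL1
  have hLK3 : (1 : ℝ) ≤ (L : ℝ) ^ K₃ := one_le_pow₀ hL1
  have hLK : (L : ℝ) ^ (K₁ + K₃) = (L : ℝ) ^ K₁ * (L : ℝ) ^ K₃ := pow_add _ _ _
  set C₁ : ℝ := Cg * (L : ℝ) ^ K₁ with hC₁d
  set C₃ : ℝ := Ce * (L : ℝ) ^ K₃ with hC₃d
  set M : ℝ := (16 * Ce + 4 * (1 + Cg)) * (L : ℝ) ^ (K₁ + K₃) with hMd
  have hC₁ : 1 ≤ C₁ := by rw [hC₁d]; nlinarith
  have hC₃ : 0 < C₃ := by rw [hC₃d]; positivity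
  have hCg0 : 0 ≤ Cg := by linarith
  have hCe0 : 0 ≤ Ce := by linarith
  have hMM : 16 * C₃ + 4 * (1 + C₁) ≤ M := by
    rw [hMd, hC₁d, hC₃d, hLK]
    have g1 : (L : ℝ) ^ K₃ ≤ (L : ℝ) ^ K₁ * (L : ℝ) ^ K₃ := le_mul_of_one_le_left (by positivity) hLK1
    have g2 : (L : ℝ) ^ K₁ ≤ (L : ℝ) ^ K₁ * (L : ℝ) ^ K₃ := le_mul_of_one_le_right (by positivity) hLK3
    have g3 : (1 : ℝ) ≤ (L : ℝ) ^ K₁ * (L : ℝ) ^ K₃ := hLK3.trans g1
    have g4 := mul_le_mul_of_nonneg_left g1 hCe0
    have g5 := mul_le_mul_of_nonneg_left g2 hCg0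
    nlinarith
  have hM0 : 0 < M := by linarith
  have hen : ∀ (X : Cf N L) (τ : Tm), en k X τ ≤ C₃ := fun X τ => (hG3' L).2.1 X τ
  set S := sysS N L k β hN hβ with hS
  set θ := C₁ / (1 + C₁) with hθ
  set n : ℝ := ((bal (R + 1) B).card : ℝ) with hn
  have hn0 : 0 ≤ n := by positivity
  have hθ0 : 0 < θ := by positivity
  have hθ1 : θ < 1 := by
    rw [hθ, div_lt_one (by linarith)]
    linarith
  have hθR : θ ^ R ≤ Real.exp (-R / M) := theta_pow C₁ hC₁ R M (by linarith)
  set U : ℕ → Finset Pl := fun r => bal r B ∩ Λ with hU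
  set g : ℕ → Cf N L → ℝ := fun r X =>
    ind (C₁ * ∑ τ ∈ rng (U r), en k X τ + t ≤ ∑ τ ∈ tml (U r), en k X τ) with hg
  have hgm : ∀ r, Measurable (g r) := fun r => ind_meas _ _
    (((en_meas k hN _).const_mul C₁).add_const t) (en_meas k hN _)
  have hgb : ∀ r X, |g r X| ≤ 1 := fun r X => ind_abs _
  set p : ℝ := Real.exp (-β * t) *
    (M * β) ^ (D₁ * L ^ 2 * (bal (R + 1) B).card) with hp
  -- each event is rare
  have hrare : ∀ r ∈ Finset.range (R + 1), S.ker (hm N) Λ (g r) η ≤ p := by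
    intro r hr
    have hr' : r ≤ R := by
      have := Finset.mem_range.1 hr
      omega
    have e1 := h3 (Lk L) Tm (SU N) S (hm N) (U r) Λ Finset.inter_subset_right (g r) (hgm r)
      ⟨1, hgb r⟩ (fun _ => 1) measurable_const ⟨1, fun _ => by simp⟩ (fun _ _ _ => rfl) η
    simp only [one_mul] at e1
    have e1' : S.ker (hm N) Λ (g r) η = S.ker (hm N) Λ (S.ker (hm N) (U r) (g r)) η := e1
    rw [e1']
    have e2 : ∀ ω, S.ker (hm N) (U r) (g r) ω ≤ p := by
      intro ω
      refine (hG' L β hβ hβ1 (U r) t ht ω).trans ?_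
      refine mul_le_mul_of_nonneg_left ?_ (Real.exp_pos _).le
      have a1 : 1 ≤ C₁ * β := by nlinarith
      have a2 : C₁ * β ≤ M * β :=
        mul_le_mul_of_nonneg_right (by linarith) hβ
      calc (C₁ * β) ^ (D₁ * L ^ 2 * (U r).card) ≤ (C₁ * β) ^ (D₁ * L ^ 2 * (bal (R + 1) B).card) := by
            refine pow_le_pow_right₀ a1 (Nat.mul_le_mul_left _ (Finset.card_le_card ?_))
            exact Finset.inter_subset_left.trans (bal_mono (by omega) B)
        _ ≤ _ := pow_le_pow_left₀ (by linarith) a2 _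
    have e3 := (h5 (Lk L) Tm (SU N) S (hm N) Λ).2.2.1 (S.ker (hm N) (U r) (g r)) (fun _ => p)
      ((h5 (Lk L) Tm (SU N) S (hm N) (U r)).2.2.2.1 (g r) (hgm r) ⟨1, hgb r⟩)
      ⟨1, (h5 (Lk L) Tm (SU N) S (hm N) (U r)).2.2.2.2.1 1 (g r) (hgm r) (hgb r)⟩
      measurable_const ⟨|p|, fun _ => le_rfl⟩ η
    refine (e3.1 fun ξ => e2 _).trans (le_of_eq ?_)
    exact (h5 (Lk L) Tm (SU N) S (hm N) Λ).2.1 p η
  -- the event is contained in the union
  have hmain : S.ker (hm N) Λ (fun X =>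
      ind (M * (n * (Real.exp (-R / M) + e) + t) ≤ ∑ τ ∈ tml (B ∩ Λ), en k X τ)) η ≤
      S.ker (hm N) Λ (fun X => ∑ r ∈ Finset.range (R + 1), g r X) η := by
    refine ((h5 (Lk L) Tm (SU N) S (hm N) Λ).2.2.1 _ _
      (ind_meas _ _ measurable_const (en_meas k hN _)) ⟨1, fun _ => ind_abs _⟩
      (Finset.measurable_sum _ fun r _ => hgm r) ⟨(R + 1 : ℕ), fun ω => ?_⟩ η).1 fun ξ => ?_
    · refine (Finset.abs_sum_le_sum_abs _ _).trans ?_
      refine (Finset.sum_le_card_nsmul _ _ 1 fun r _ => hgb r ω).trans ?_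
      simp
    · set X : Cf N L := glue (S.Fr Λ) ξ η with hX
      by_cases hall : ∃ r ∈ Finset.range (R + 1),
          C₁ * ∑ τ ∈ rng (U r), en k X τ + t ≤ ∑ τ ∈ tml (U r), en k X τ
      · obtain ⟨r, hr, hr2⟩ := hall
        refine (ind_le_one _).trans ?_
        have e4 : g r X = 1 := ind_true hr2
        rw [← e4]
        exact Finset.single_le_sum (f := fun r => g r X) (fun i _ => ind_nonneg _) hr
      · push Not at hall
        have hXe : ∀ τ : Tm, (∀ a ∈ cor τ, a ∈ bal (R + 1) B ∧ a ∉ Λ) → en k X τ ≤ e := by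
          intro τ hτ
          have e5 : en k X τ = en k η τ := by
            refine en_loc k τ X η fun l hl => ?_
            rw [hX]
            unfold glue
            rw [if_neg]
            intro hl2
            obtain ⟨a, ha, haΛ⟩ := (mem_Frl Λ l).1 hl2
            exact (hτ a ((cor_iff τ a).2 ⟨l, hl, ha⟩)).2 haΛ
          rw [e5]
          exact hη τ hτ
        have hrec : ∀ r ≤ R, ∑ τ ∈ tml (U r), en k X τ <
            θ * ∑ τ ∈ tml (U (r + 1)), en k X τ + (4 * n * e + t) := by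
          intro r hr
          have f1 := hall r (Finset.mem_range.2 (by omega))
          have f2 := det_step k Λ B R r hr e he X hXe
          change ∑ τ ∈ rng (U r), en k X τ ≤ (∑ τ ∈ tml (U (r + 1)), en k X τ -
            ∑ τ ∈ tml (U r), en k X τ) + 4 * n * e at f2
          set E0 := ∑ τ ∈ tml (U r), en k X τ
          set E1 := ∑ τ ∈ tml (U (r + 1)), en k X τ
          have f3 : C₁ * ∑ τ ∈ rng (U r), en k X τ ≤ C₁ * ((E1 - E0) + 4 * n * e) :=
            mul_le_mul_of_nonneg_left f2 (by linarith)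
          have f4 : (1 + C₁) * E0 < C₁ * E1 + C₁ * (4 * n * e) + t := by linarith
          have f5 : E0 < (C₁ * E1 + C₁ * (4 * n * e) + t) / (1 + C₁) := by
            rw [lt_div_iff₀ (by linarith)]
            linarith
          have f6 : (C₁ * E1 + C₁ * (4 * n * e) + t) / (1 + C₁) =
              θ * E1 + (C₁ * (4 * n * e) + t) / (1 + C₁) := by
            rw [hθ]
            ring
          have f7 : (C₁ * (4 * n * e) + t) / (1 + C₁) ≤ 4 * n * e + t := by
            rw [div_le_iff₀ (by linarith)]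
            nlinarith [mul_nonneg hn0 he, mul_nonneg (by linarith : (0 : ℝ) ≤ C₁) ht]
          linarith
        have h6 := recursion R (fun r => ∑ τ ∈ tml (U r), en k X τ) θ (4 * n * e + t) (1 + C₁)
          hθ0.le (by
            rw [hθ]
            rw [div_mul_cancel₀ _ (by linarith : (1 : ℝ) + C₁ ≠ 0)]
            linarith) (by nlinarith [mul_nonneg hn0 he]) (by linarith) hrec R le_rfl
        simp only [Nat.sub_self] at h6
        have h7 : ∑ τ ∈ tml (U (R + 1)), en k X τ ≤ 16 * C₃ * n := by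
          refine (Finset.sum_le_card_nsmul _ _ C₃ fun τ _ => hen X τ).trans ?_
          rw [nsmul_eq_mul]
          have a1 : ((tml (U (R + 1))).card : ℝ) ≤ 16 * n := by
            have a2 := card_tml (U (R + 1))
            have a3 : (U (R + 1)).card ≤ (bal (R + 1) B).card :=
              Finset.card_le_card Finset.inter_subset_left
            rw [hn]
            exact_mod_cast a2.trans (Nat.mul_le_mul_left _ a3)
          nlinarith
        have hU0 : U 0 = B ∩ Λ := by rw [hU]; simp only [bal_zero]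
        rw [hU0] at h6
        have hfalse : ¬ (M * (n * (Real.exp (-R / M) + e) + t) ≤
            ∑ τ ∈ tml (B ∩ Λ), en k X τ) := by
          push Not
          refine h6.trans_le ?_
          have b1 : θ ^ (R + 1) * ∑ τ ∈ tml (U (R + 1)), en k X τ ≤ M * (n * Real.exp (-R / M)) := by
            calc θ ^ (R + 1) * ∑ τ ∈ tml (U (R + 1)), en k X τ ≤ θ ^ (R + 1) * (16 * C₃ * n) :=
                  mul_le_mul_of_nonneg_left h7 (by positivity)
              _ ≤ θ ^ R * (16 * C₃ * n) := by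
                  refine mul_le_mul_of_nonneg_right ?_ (by positivity)
                  exact pow_le_pow_of_le_one hθ0.le hθ1.le (Nat.le_succ R)
              _ ≤ Real.exp (-R / M) * (M * n) := by
                  refine mul_le_mul hθR ?_ (by positivity) (Real.exp_pos _).le
                  exact mul_le_mul_of_nonneg_right (by linarith) hn0
              _ = _ := by ring
          have b2 : (4 * n * e + t) * (1 + C₁) ≤ M * (n * e) + M * t := by
            have c1 : 4 * (1 + C₁) * (n * e) ≤ M * (n * e) :=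
              mul_le_mul_of_nonneg_right (by linarith) (mul_nonneg hn0 he)
            have c2 : (1 + C₁) * t ≤ M * t := mul_le_mul_of_nonneg_right (by linarith) ht
            nlinarith
          have b3 : M * (n * (Real.exp (-R / M) + e) + t) =
              M * (n * Real.exp (-R / M)) + (M * (n * e) + M * t) := by ring
          rw [b3]
          linarith
        have e6 : ind (M * (n * (Real.exp (-R / M) + e) + t) ≤
            ∑ τ ∈ tml (B ∩ Λ), en k X τ) = 0 := by
          unfold ind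
          rw [if_neg hfalse]
        rw [e6]
        exact Finset.sum_nonneg fun i _ => ind_nonneg _
  refine hmain.trans ?_
  rw [ker_sum h5 S (hm N) Λ g hgm hgb (R + 1) η]
  refine (Finset.sum_le_card_nsmul _ _ p hrare).trans (le_of_eq ?_)
  rw [Finset.card_range, nsmul_eq_mul]
  push_cast
  rfl

end T2H02.TT
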