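import Pool.Agent.T2H02.TT.Stm2
import Pool.Agent.T2H02.TT.C

/-!
# Package I1 : the linear problem
-/

set_option autoImplicit false
set_option linter.unusedSectionVars false

noncomputable section

open MeasureTheory Matrix
open scoped Matrix.Norms.Frobenius

namespace T2H02.TT.PkgI1

open PkgC

/-- projection for a positive semidefinite form -/
theorem exists_proj {W : Type*} [AddCommGroup W] [Module ℝ W] (B : W →ₗ[ℝ] W →ₗ[ℝ] ℝ)
    (hs : ∀ x y, B x y = B y x) (hp : ∀ x, 0 ≤ B x x) (E : Submodule ℝ W) [FiniteDimensional ℝ E]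
    (f : W) : ∃ e ∈ E, ∀ x ∈ E, B x (f - e) = 0 := by
  let φ : E →ₗ[ℝ] Module.Dual ℝ E := B.domRestrict₁₂ E E
  let ψ : Module.Dual ℝ E := (B f).domRestrict E
  have hψ : ψ ∈ LinearMap.range φ.dualMap := by
    rw [LinearMap.range_dualMap_eq_dualAnnihilator_ker, Submodule.mem_dualAnnihilator]
    intro w hw
    have h1 : B (w : W) (w : W) = 0 := by
      have : φ w = 0 := hw
      exact congrArg (fun g => g w) this
    change B f (w : W) = 0
    by_contra hne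
    have h2 := hp (f + (-(B f f + 1) / (2 * B f (w : W))) • (w : W))
    simp only [map_add, map_smul, LinearMap.add_apply, LinearMap.smul_apply, smul_eq_mul] at h2
    rw [h1, hs (w : W) f] at h2
    have h3 : B f f + -(B f f + 1) / (2 * B f (w : W)) * B f (w : W) +
        (-(B f f + 1) / (2 * B f (w : W)) * (B f (w : W) +
          -(B f f + 1) / (2 * B f (w : W)) * 0)) = -1 := by
      field_simp
      ring
    have h4 : B f f + -(B f f + 1) / (2 * B f (w : W)) * B f (w : W) +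
        (-(B f f + 1) / (2 * B f (w : W)) * (B f (w : W)) +
          -(B f f + 1) / (2 * B f (w : W)) * (-(B f f + 1) / (2 * B f (w : W)) * 0)) = -1 := by
      rw [← h3]; ring
    linarith
  obtain ⟨g, hg⟩ := hψ
  obtain ⟨e, rfl⟩ := (Module.evalEquiv ℝ E).surjective g
  refine ⟨e, e.2, fun x hx => ?_⟩
  have h1 : B x (e : W) = B f x := congrArg (fun g => g (⟨x, hx⟩ : E)) hg
  rw [map_sub, h1, hs, sub_self]

section

variable {N L : ℕ} [NeZero L]

lemma fr_sq (A : Mt N) : ‖A‖ ^ 2 = ip A A := by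
  unfold ip
  rw [Matrix.frobenius_norm_def, ← Real.sqrt_eq_rpow, Real.sq_sqrt (by positivity)]
  simp only [trace, diag_apply, Matrix.mul_apply, conjTranspose_apply]
  rw [Complex.re_sum, Finset.sum_comm]
  refine Finset.sum_congr rfl fun i _ => ?_
  rw [Complex.re_sum]
  refine Finset.sum_congr rfl fun j _ => ?_
  have h : (star (A j i) * A j i) = ((‖A j i‖ ^ 2 : ℝ) : ℂ) := by
    rw [← Complex.normSq_eq_norm_sq, Complex.star_def, mul_comm, Complex.mul_conj]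
  rw [h, Complex.ofReal_re]
  norm_num

lemma ip_nonneg (A : Mt N) : 0 ≤ ip A A := by
  rw [← fr_sq]; positivity

lemma ip_comm (A B : Mt N) : ip A B = ip B A := by
  unfold ip
  have h : (Aᴴ * B).trace = star ((Bᴴ * A).trace) := by
    rw [← Matrix.trace_conjTranspose, conjTranspose_mul, conjTranspose_conjTranspose]
  rw [h, Complex.star_def, Complex.conj_re]

lemma ip_add (A B C : Mt N) : ip A (B + C) = ip A B + ip A C := by
  simp [ip, Matrix.mul_add]

lemma ip_smul (c : ℝ) (A B : Mt N) : ip A (c • B) = c * ip A B := by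
  simp [ip]

lemma cu_add (P Q : SU N) (a b : Lk L → Mt N) (p : Pt L) (i j : Fin 4) :
    cu P Q (a + b) p i j = cu P Q a p i j + cu P Q b p i j := by
  simp only [cu, Pi.add_apply, adj_add]
  abel

lemma cu_smul (P Q : SU N) (c : ℝ) (a : Lk L → Mt N) (p : Pt L) (i j : Fin 4) :
    cu P Q (c • a) p i j = c • cu P Q a p i j := by
  simp only [cu, Pi.smul_apply, adj_smulR, smul_sub, smul_add]

lemma cu_sub (P Q : SU N) (a b : Lk L → Mt N) (p : Pt L) (i j : Fin 4) :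
    cu P Q (a - b) p i j = cu P Q a p i j - cu P Q b p i j := by
  simp only [cu, Pi.sub_apply, adj_sub]
  abel

lemma bf_comm (P Q : SU N) (τ : Tm) (a b : Lk L → Mt N) : bf P Q τ a b = bf P Q τ b a := by
  unfold bf
  refine Finset.sum_congr rfl fun y _ => ?_
  split_ifs <;> simp only [ip_comm]

lemma bf_add (P Q : SU N) (τ : Tm) (a b c : Lk L → Mt N) :
    bf P Q τ a (b + c) = bf P Q τ a b + bf P Q τ a c := by
  unfold bf
  rw [← Finset.sum_add_distrib]
  refine Finset.sum_congr rfl fun y _ => ?_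
  split_ifs <;> simp only [cu_add, ip_add] <;> ring

lemma bf_smul (P Q : SU N) (τ : Tm) (c : ℝ) (a b : Lk L → Mt N) :
    bf P Q τ a (c • b) = c * bf P Q τ a b := by
  unfold bf
  rw [Finset.mul_sum]
  refine Finset.sum_congr rfl fun y _ => ?_
  split_ifs <;> simp only [cu_smul, ip_smul] <;> ring

lemma bf_nonneg (P Q : SU N) (τ : Tm) (a : Lk L → Mt N) : 0 ≤ bf P Q τ a a := by
  unfold bf
  refine Finset.sum_nonneg fun y _ => ?_
  split_ifs
  · exact ip_nonneg _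
  · exact add_nonneg (ip_nonneg _) (ip_nonneg _)
  · exact add_nonneg (ip_nonneg _) (ip_nonneg _)
  · exact ip_nonneg _

/-- the total form -/
def Bf (P Q : SU N) (T : Finset Tm) : (Lk L → Mt N) →ₗ[ℝ] (Lk L → Mt N) →ₗ[ℝ] ℝ :=
  LinearMap.mk₂ ℝ (fun a b => ∑ τ ∈ T, bf P Q τ a b)
    (fun a a' b => by
      rw [← Finset.sum_add_distrib]
      refine Finset.sum_congr rfl fun τ _ => ?_
      rw [bf_comm, bf_add, bf_comm P Q τ b a, bf_comm P Q τ b a'])
    (fun c a b => by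
      rw [smul_eq_mul, Finset.mul_sum]
      refine Finset.sum_congr rfl fun τ _ => ?_
      rw [bf_comm, bf_smul, bf_comm])
    (fun a b b' => by
      rw [← Finset.sum_add_distrib]
      exact Finset.sum_congr rfl fun τ _ => bf_add _ _ _ _ _ _)
    (fun c a b => by
      rw [smul_eq_mul, Finset.mul_sum]
      exact Finset.sum_congr rfl fun τ _ => bf_smul _ _ _ _ _ _)

lemma Bf_apply (P Q : SU N) (T : Finset Tm) (a b : Lk L → Mt N) :
    Bf P Q T a b = ∑ τ ∈ T, bf P Q τ a b := rfl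

/-- the free fields -/
def EE (F : Finset (Lk L)) : Submodule ℝ (Lk L → Mt N) where
  carrier := {a | (∀ l, a l ∈ su N) ∧ ∀ l, l ∉ F → a l = 0}
  add_mem' := by
    rintro a b ⟨h1, h2⟩ ⟨h3, h4⟩
    exact ⟨fun l => (suS N).add_mem (h1 l) (h3 l), fun l hl => by
      rw [Pi.add_apply, h2 l hl, h4 l hl, add_zero]⟩
  zero_mem' := ⟨fun l => (suS N).zero_mem, fun l _ => rfl⟩
  smul_mem' := by
    rintro c a ⟨h1, h2⟩
    exact ⟨fun l => (suS N).smul_mem c (h1 l), fun l hl => by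
      rw [Pi.smul_apply, h2 l hl, smul_zero]⟩

instance (F : Finset (Lk L)) : FiniteDimensional ℝ (EE F : Submodule ℝ (Lk L → Mt N)) := by
  let T : (EE F : Submodule ℝ (Lk L → Mt N)) →ₗ[ℝ] (F → Mt N) :=
    { toFun := fun a l => (a : Lk L → Mt N) l
      map_add' := fun a b => rfl
      map_smul' := fun c a => rfl }
  refine FiniteDimensional.of_injective T ?_
  rw [← LinearMap.ker_eq_bot, LinearMap.ker_eq_bot']
  intro a ha
  apply Subtype.ext
  funext l
  by_cases hl : l ∈ F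
  · exact congrFun ha ⟨l, hl⟩
  · exact a.2.2 l hl

/-- pure gauge -/
def Gg (P Q : SU N) (lam : Pl → Tor L → Mt N) : Lk L → Mt N := fun l =>
  lam l.1.1 l.1.2 - Adj (vc P Q l) (lam (nx l.1 l.2).1 (nx l.1 l.2).2)

lemma nx_comm (p : Pt L) (i j : Fin 4) : nx (nx p i) j = nx (nx p j) i := by
  obtain ⟨x, y⟩ := p
  unfold nx
  ext
  · simp only; rw [Prod.fst_add, Prod.fst_add, Prod.fst_add, Prod.fst_add]; ring
  · simp only; rw [Prod.snd_add, Prod.snd_add, Prod.snd_add, Prod.snd_add]; ring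
  · fin_cases i <;> fin_cases j <;> simp [tsh]
  · fin_cases i <;> fin_cases j <;> simp [tsh]

lemma vc0 (P Q : SU N) (p : Pt L) : vc P Q (p, 0) = 1 := by simp [vc]
lemma vc1 (P Q : SU N) (p : Pt L) : vc P Q (p, 1) = 1 := by simp [vc]
lemma vc2 (P Q : SU N) (p : Pt L) : vc P Q (p, 2) = vac P Q p.2 0 := by simp [vc]
lemma vc3 (P Q : SU N) (p : Pt L) : vc P Q (p, 3) = vac P Q p.2 1 := by simp [vc]

/-- the vacuum is flat -/
lemma flat {k : ℕ} {P Q : SU N} (h : PQ k P Q) (p : Pt L) (i j : Fin 4) (M : Mt N) :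
    Adj (vc P Q (p, i)) (Adj (vc P Q (nx p i, j)) M) =
      Adj (vc P Q (p, j)) (Adj (vc P Q (nx p j, i)) M) := by
  obtain ⟨x, y⟩ := p
  have h23 := vac_flat h y M
  fin_cases i <;> fin_cases j <;>
    simp [vc0, vc1, vc2, vc3, nx0, nx1, nx2, nx3, adj_one, h23]

lemma cu_Gg {k : ℕ} {P Q : SU N} (h : PQ k P Q) (lam : Pl → Tor L → Mt N) (p : Pt L)
    (i j : Fin 4) : cu P Q (Gg P Q lam) p i j = 0 := by
  unfold cu Gg
  simp only [adj_sub]
  rw [flat h p i j, nx_comm p i j]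
  abel

lemma bf_eq_of_cu (P Q : SU N) (τ : Tm) {a b b' : Lk L → Mt N}
    (h : ∀ p i j, cu P Q b p i j = cu P Q b' p i j) : bf P Q τ a b = bf P Q τ a b' := by
  unfold bf
  simp only [h]

lemma bf0 (P Q : SU N) (x : Pl) (a : Lk L → Mt N) :
    bf P Q (x, 0) a a = ∑ y, ‖cu P Q a (x, y) 2 3‖ ^ 2 := by
  unfold bf
  refine Finset.sum_congr rfl fun y _ => ?_
  rw [if_pos rfl, fr_sq]

lemma bf1 (P Q : SU N) (x : Pl) (a : Lk L → Mt N) :
    bf P Q (x, 1) a a = ∑ y, (‖cu P Q a (x, y) 0 2‖ ^ 2 + ‖cu P Q a (x, y) 0 3‖ ^ 2) := by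
  unfold bf
  refine Finset.sum_congr rfl fun y _ => ?_
  simp [fr_sq]

lemma bf2 (P Q : SU N) (x : Pl) (a : Lk L → Mt N) :
    bf P Q (x, 2) a a = ∑ y, (‖cu P Q a (x, y) 1 2‖ ^ 2 + ‖cu P Q a (x, y) 1 3‖ ^ 2) := by
  unfold bf
  refine Finset.sum_congr rfl fun y _ => ?_
  simp [fr_sq]

/-- the torus components at `x` -/
def ta (h : Lk L → Mt N) (x : Pl) : Tor L → Fin 2 → Mt N := fun y j =>
  h ((x, y), if j = 0 then 2 else 3)

lemma ta0 (h : Lk L → Mt N) (x : Pl) (y : Tor L) : ta h x y 0 = h ((x, y), 2) := by simp [ta]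
lemma ta1 (h : Lk L → Mt N) (x : Pl) (y : Tor L) : ta h x y 1 = h ((x, y), 3) := by simp [ta]

lemma crl_ta (P Q : SU N) (h : Lk L → Mt N) (x : Pl) (y : Tor L) :
    crl (vac P Q) (ta h x) y = cu P Q h (x, y) 2 3 := by
  unfold crl cu
  rw [ta0, ta1, ta1, ta0, vc2, vc3, nx2, nx3]

lemma su_sub {A B : Mt N} (hA : A ∈ su N) (hB : B ∈ su N) : A - B ∈ su N :=
  (suS N).sub_mem hA hB

lemma su_zero : (0 : Mt N) ∈ su N := (suS N).zero_mem

/-- the torus links at `x` -/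
def tor (h : Lk L → Mt N) (x : Pl) : ℝ :=
  ∑ y : Tor L, (‖h ((x, y), 2)‖ ^ 2 + ‖h ((x, y), 3)‖ ^ 2)

lemma three (A B C : Mt N) : ‖A - B + C‖ ^ 2 ≤ 3 * (‖A‖ ^ 2 + ‖B‖ ^ 2 + ‖C‖ ^ 2) := by
  have h1 : ‖A - B + C‖ ≤ ‖A‖ + ‖B‖ + ‖C‖ :=
    (norm_add_le _ _).trans (add_le_add_left (norm_sub_le _ _) _)
  have h2 := norm_nonneg A
  have h3 := norm_nonneg B
  have h4 := norm_nonneg C
  have h5 : ‖A - B + C‖ ^ 2 ≤ (‖A‖ + ‖B‖ + ‖C‖) ^ 2 :=
    pow_le_pow_left₀ (norm_nonneg _) h1 2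
  nlinarith [sq_nonneg (‖A‖ - ‖B‖), sq_nonneg (‖A‖ - ‖C‖), sq_nonneg (‖B‖ - ‖C‖)]

lemma plane {P Q : SU N} {C₁ : ℝ} (h0 : 0 < C₁)
    (hC : ∀ lam : Tor L → Mt N, (∀ y, (lam y).trace = 0) →
      ∑ y, ‖lam y‖ ^ 2 ≤ C₁ * ∑ y, ∑ j, ‖dd (vac P Q) lam y j‖ ^ 2)
    {h : Lk L → Mt N} (hsu : ∀ l, h l ∈ su N) (x : Pl) (i : Fin 4) (hi : i = 0 ∨ i = 1) :
    ∑ y, ‖h ((x, y), i)‖ ^ 2 ≤ 3 * C₁ * (∑ y, (‖cu P Q h (x, y) i 2‖ ^ 2 +
      ‖cu P Q h (x, y) i 3‖ ^ 2) + tor h x + tor h (x + pe i)) := by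
  have hnx : ∀ y : Tor L, nx (x, y) i = (x + pe i, y) := by
    intro y
    rcases hi with rfl | rfl
    · rw [nx0]; rfl
    · rw [nx1]; rfl
  have hvc : ∀ y : Tor L, vc P Q ((x, y), i) = 1 := by
    intro y
    rcases hi with rfl | rfl
    · exact vc0 _ _ _
    · exact vc1 _ _ _
  have h1 := hC (fun y => h ((x, y), i)) fun y => (hsu _).2
  have e0 : ∀ y, dd (vac P Q) (fun y => h ((x, y), i)) y 0 =
      cu P Q h (x, y) i 2 - h ((x + pe i, y), 2) + h ((x, y), 2) := by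
    intro y
    unfold dd cu
    rw [hvc, adj_one, hnx, vc2, nx2]
    abel
  have e1 : ∀ y, dd (vac P Q) (fun y => h ((x, y), i)) y 1 =
      cu P Q h (x, y) i 3 - h ((x + pe i, y), 3) + h ((x, y), 3) := by
    intro y
    unfold dd cu
    rw [hvc, adj_one, hnx, vc3, nx3]
    abel
  have h2 : ∑ y, ∑ j, ‖dd (vac P Q) (fun y => h ((x, y), i)) y j‖ ^ 2 ≤
      3 * (∑ y, (‖cu P Q h (x, y) i 2‖ ^ 2 + ‖cu P Q h (x, y) i 3‖ ^ 2) + tor h x +
        tor h (x + pe i)) := by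
    unfold tor
    rw [← Finset.sum_add_distrib, ← Finset.sum_add_distrib, Finset.mul_sum]
    refine Finset.sum_le_sum fun y _ => ?_
    rw [Fin.sum_univ_two, e0, e1]
    have a1 := three (cu P Q h (x, y) i 2) (h ((x + pe i, y), 2)) (h ((x, y), 2))
    have a2 := three (cu P Q h (x, y) i 3) (h ((x + pe i, y), 3)) (h ((x, y), 3))
    linarith
  calc _ ≤ _ := h1
    _ ≤ C₁ * (3 * _) := mul_le_mul_of_nonneg_left h2 h0.le
    _ = _ := by ring

end

end PkgI1

open PkgC PkgI1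

theorem pI1 (hC1 : S_C1) (hC2 : S_C2) : S_I1 := by
  intro N k L _ hN hk P Q hPQ
  obtain ⟨C₁, hC1p, c1⟩ := hC1 N k L hN hk P Q hPQ
  obtain ⟨C₂, hC2p, c2⟩ := hC2 N k L hN hk P Q hPQ
  refine ⟨3 * C₁ * (3 + 2 * C₂) + C₂ + 1, by nlinarith [mul_pos hC1p hC2p],
    fun Λ kk hkk => ?_⟩
  classical
  let kk' : Lk L → Mt N := fun l => if l ∈ Frl L Λ then 0 else kk l
  obtain ⟨e, he, hproj⟩ := exists_proj (Bf P Q (tml Λ))
    (fun a b => by
      rw [Bf_apply, Bf_apply]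
      exact Finset.sum_congr rfl fun τ _ => bf_comm _ _ _ _ _)
    (fun a => by
      rw [Bf_apply]
      exact Finset.sum_nonneg fun τ _ => bf_nonneg _ _ _ _) (EE (Frl L Λ)) kk'
  obtain ⟨h0, hh0⟩ : ∃ h0 : Lk L → Mt N, h0 = kk' - e := ⟨_, rfl⟩
  rw [← hh0] at hproj
  have h0su : ∀ l, h0 l ∈ su N := by
    intro l
    rw [hh0, Pi.sub_apply]
    refine su_sub ?_ (he.1 l)
    by_cases hl : l ∈ Frl L Λ
    · simp only [kk', if_pos hl]
      exact su_zero
    · simp only [kk', if_neg hl]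
      exact hkk l
  have h0off : ∀ l, l ∉ Frl L Λ → h0 l = kk l := by
    intro l hl
    rw [hh0, Pi.sub_apply, he.2 l hl, sub_zero]
    simp only [kk', if_neg hl]
  have hx : ∀ x : Pl, ∃ lam : Tor L → Mt N, (∀ y, lam y ∈ su N) ∧ (x ∉ Λ → ∀ y, lam y = 0) ∧
      (x ∈ Λ → ∑ y, ∑ j, ‖ta h0 x y j - dd (vac P Q) lam y j‖ ^ 2 ≤
        C₂ * ∑ y, ‖crl (vac P Q) (ta h0 x) y‖ ^ 2) := by
    intro x
    by_cases hxΛ : x ∈ Λ
    · obtain ⟨lam, hl1, hl2⟩ := c2 (ta h0 x) fun y j => h0su _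
      exact ⟨lam, hl1, fun h => absurd hxΛ h, fun _ => hl2⟩
    · exact ⟨fun _ => 0, fun y => su_zero, fun _ y => rfl, fun h => absurd h hxΛ⟩
  choose lam hlsu hloff hlam using hx
  obtain ⟨h, hh⟩ : ∃ h : Lk L → Mt N, h = h0 - Gg P Q lam := ⟨_, rfl⟩
  have hcu : ∀ p i j, cu P Q h p i j = cu P Q h0 p i j := by
    intro p i j
    rw [hh, cu_sub, cu_Gg hPQ, sub_zero]
  have hsu : ∀ l, h l ∈ su N := by
    intro l
    rw [hh, Pi.sub_apply, Gg]
    exact su_sub (h0su l) (su_sub (hlsu _ _) (adj_mem _ (hlsu _ _)))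
  have hoff : ∀ l, l ∉ Frl L Λ → h l = kk l := by
    intro l hl
    rw [mem_Frl] at hl
    push Not at hl
    have a1 : l.1.1 ∉ Λ := hl _ ((mem_st l _).2 (Or.inl rfl))
    have a2 : (nx l.1 l.2).1 ∉ Λ := hl _ ((mem_st l _).2 (Or.inr rfl))
    rw [hh, Pi.sub_apply, Gg, hloff _ a1, hloff _ a2, h0off l (by
      rw [mem_Frl]; push Not; exact hl)]
    simp [Adj]
  -- the torus links
  have htor : ∀ x ∈ Λ, tor h x ≤ C₂ * bf P Q (x, 0) h h := by
    intro x hxΛ
    have h1 := hlam x hxΛ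
    have e1 : ∑ y, ‖crl (vac P Q) (ta h0 x) y‖ ^ 2 = bf P Q (x, 0) h h := by
      rw [bf0]
      exact Finset.sum_congr rfl fun y _ => by rw [hcu, crl_ta]
    rw [e1] at h1
    refine le_trans (le_of_eq ?_) h1
    unfold tor
    refine Finset.sum_congr rfl fun y _ => ?_
    rw [Fin.sum_univ_two]
    have e2 : h ((x, y), 2) = ta h0 x y 0 - dd (vac P Q) (lam x) y 0 := by
      rw [hh, Pi.sub_apply, Gg, dd, vc2, nx2, ta0]
    have e3 : h ((x, y), 3) = ta h0 x y 1 - dd (vac P Q) (lam x) y 1 := by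
      rw [hh, Pi.sub_apply, Gg, dd, vc3, nx3, ta1]
    rw [← e2, ← e3]
  refine ⟨h, hsu, hoff, fun a ha1 ha2 => ?_, fun l hl => ?_⟩
  · have h1 := hproj a ⟨ha1, ha2⟩
    rw [Bf_apply] at h1
    rw [← h1]
    exact Finset.sum_congr rfl fun τ _ => bf_eq_of_cu _ _ _ hcu
  · obtain ⟨S₁, hS1⟩ : ∃ S₁, S₁ = ∑ τ ∈ (tml Λ).filter (fun τ => cor τ ⊆ st l),
      bf P Q τ h h := ⟨_, rfl⟩
    obtain ⟨S₂, hS2⟩ : ∃ S₂, S₂ = ∑ l' ∈ (bdl L Λ).filter (fun l' => st l' ⊆ st l),
      ‖kk l'‖ ^ 2 := ⟨_, rfl⟩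
    rw [← hS1, ← hS2]
    have b1 : ∀ τ ∈ tml Λ, cor τ ⊆ st l → bf P Q τ h h ≤ S₁ := by
      intro τ hτ hc
      rw [hS1]
      exact Finset.single_le_sum (f := fun τ => bf P Q τ h h) (fun τ _ => bf_nonneg _ _ _ _)
        (Finset.mem_filter.2 ⟨hτ, hc⟩)
    have n1 : 0 ≤ S₁ := by
      rw [hS1]; exact Finset.sum_nonneg fun τ _ => bf_nonneg _ _ _ _
    have n2 : 0 ≤ S₂ := by
      rw [hS2]; exact Finset.sum_nonneg fun τ _ => by positivity
    have hst : ∀ (x' : Pl) (y : Tor L) (j : Fin 4), j = 2 ∨ j = 3 →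
        (st (((x', y), j) : Lk L)) = {x'} := by
      intro x' y j hj
      rcases hj with rfl | rfl <;> simp [st, pe, h00]
    have b2 : ∀ x' ∈ st l, x' ∈ Λ → tor h x' ≤ C₂ * S₁ := by
      intro x' hx' hx'Λ
      refine (htor x' hx'Λ).trans (mul_le_mul_of_nonneg_left (b1 _ ?_ ?_) hC2p.le)
      · exact (mem_tml _ _).2 ⟨x', (mem_cor0 _ _).2 rfl, hx'Λ⟩
      · intro a ha
        rw [(mem_cor0 _ _).1 ha]
        exact hx'
    obtain ⟨⟨x, y⟩, i⟩ := l
    by_cases hi : i = 0 ∨ i = 1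
    · -- plane links
      have hτ : ∃ τ : Tm, cor τ = st (((x, y), i) : Lk L) ∧ bf P Q τ h h =
          ∑ y, (‖cu P Q h (x, y) i 2‖ ^ 2 + ‖cu P Q h (x, y) i 3‖ ^ 2) ∧
          ∀ x' ∈ st (((x, y), i) : Lk L), ∀ (y' : Tor L) (j : Fin 4), j = 2 ∨ j = 3 →
            (((x', y'), j) : Lk L) ∈ (spt τ : Finset (Lk L)) := by
        rcases hi with rfl | rfl
        · refine ⟨(x, 1), ?_, bf1 _ _ _ _, ?_⟩
          · ext a
            rw [mem_cor1, mem_st]
            simp [pe]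
          · intro x' hx' y' j hj
            rw [mem_spt1]
            rw [mem_st] at hx'
            refine ⟨y', ?_⟩
            rcases hx' with rfl | rfl <;> rcases hj with rfl | rfl <;> simp [pe]
        · refine ⟨(x, 2), ?_, bf2 _ _ _ _, ?_⟩
          · ext a
            rw [mem_cor2, mem_st]
            simp [pe]
          · intro x' hx' y' j hj
            rw [mem_spt2]
            rw [mem_st] at hx'
            refine ⟨y', ?_⟩
            rcases hx' with rfl | rfl <;> rcases hj with rfl | rfl <;> simp [pe]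
      obtain ⟨τ, hτ1, hτ2, hτ3⟩ := hτ
      have hτm : τ ∈ tml Λ := by
        rw [mem_tml, hτ1]
        exact (mem_Frl _ _).1 hl
      have b3 : ∀ x' ∈ st (((x, y), i) : Lk L), tor h x' ≤ C₂ * S₁ + S₂ := by
        intro x' hx'
        by_cases hx'Λ : x' ∈ Λ
        · have := b2 x' hx' hx'Λ
          linarith
        · have c0 : ∀ (y' : Tor L) (j : Fin 4), j = 2 ∨ j = 3 →
              (((x', y'), j) : Lk L) ∉ Frl L Λ := by
            intro y' j hj
            rw [mem_Frl, hst x' y' j hj]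
            simpa using hx'Λ
          have c3 : ∀ (y' : Tor L) (j : Fin 4), j = 2 ∨ j = 3 →
              (((x', y'), j) : Lk L) ∈ (bdl L Λ).filter (fun l' => st l' ⊆ st ((x, y), i)) := by
            intro y' j hj
            rw [Finset.mem_filter, bdl, Finset.mem_sdiff, Finset.mem_biUnion]
            refine ⟨⟨⟨τ, hτm, hτ3 x' hx' y' j hj⟩, c0 y' j hj⟩, ?_⟩
            rw [hst x' y' j hj]
            simpa using hx'
          have c4 : tor h x' ≤ S₂ := by
            have c5 : tor h x' = ∑ l' ∈ (Finset.univ : Finset (Tor L × Fin 2)).image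
                (fun q => (((x', q.1), if q.2 = 0 then 2 else 3) : Lk L)), ‖kk l'‖ ^ 2 := by
              rw [Finset.sum_image]
              · rw [← Finset.univ_product_univ, Finset.sum_product]
                unfold tor
                refine Finset.sum_congr rfl fun y' _ => ?_
                rw [Fin.sum_univ_two, hoff _ (c0 y' 2 (Or.inl rfl)), hoff _ (c0 y' 3 (Or.inr rfl))]
                simp
              · rintro ⟨y1, j1⟩ _ ⟨y2, j2⟩ _ hq
                simp only [Prod.mk.injEq, true_and] at hq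
                obtain ⟨rfl, hq⟩ := hq
                fin_cases j1 <;> fin_cases j2 <;> simp_all
            rw [c5, hS2]
            refine Finset.sum_le_sum_of_subset_of_nonneg ?_ fun _ _ _ => by positivity
            intro l' hl'
            obtain ⟨⟨y', j'⟩, -, rfl⟩ := Finset.mem_image.1 hl'
            refine c3 y' _ ?_
            simp only
            split_ifs
            · exact Or.inl rfl
            · exact Or.inr rfl
          have := mul_nonneg hC2p.le n1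
          linarith
      have d1 := b3 x ((mem_st _ _).2 (Or.inl rfl))
      have d2 := b3 (x + pe i) ((mem_st _ _).2 (Or.inr rfl))
      have d3 := b1 τ hτm hτ1.subset
      rw [hτ2] at d3
      have d4 := plane hC1p c1 hsu x i hi
      have d5 : ‖h ((x, y), i)‖ ^ 2 ≤ ∑ y, ‖h ((x, y), i)‖ ^ 2 :=
        Finset.single_le_sum (f := fun y => ‖h ((x, y), i)‖ ^ 2) (fun _ _ => by positivity)
          (Finset.mem_univ y)
      have d6 : 3 * C₁ * (∑ y, (‖cu P Q h (x, y) i 2‖ ^ 2 + ‖cu P Q h (x, y) i 3‖ ^ 2) +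
          tor h x + tor h (x + pe i)) ≤ 3 * C₁ * (S₁ + (C₂ * S₁ + S₂) + (C₂ * S₁ + S₂)) := by
        gcongr
      have d7 : 3 * C₁ * (S₁ + (C₂ * S₁ + S₂) + (C₂ * S₁ + S₂)) ≤
          3 * C₁ * (3 + 2 * C₂) * (S₁ + S₂) := by
        have a1 := mul_nonneg hC1p.le n1
        have a2 := mul_nonneg hC1p.le n2
        have a3 := mul_nonneg (mul_nonneg hC1p.le hC2p.le) n2
        nlinarith
      have d8 : 0 ≤ (C₂ + 1) * (S₁ + S₂) := by positivity
      calc ‖h ((x, y), i)‖ ^ 2 ≤ 3 * C₁ * (3 + 2 * C₂) * (S₁ + S₂) := by linarith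
        _ ≤ _ := by linarith
    · -- torus links
      have hi' : i = 2 ∨ i = 3 :=
        (by decide : ∀ i : Fin 4, ¬ (i = 0 ∨ i = 1) → i = 2 ∨ i = 3) i hi
      have hxΛ : x ∈ Λ := by
        rw [mem_Frl, hst x y i hi'] at hl
        simpa using hl
      have d1 := b2 x ((mem_st _ _).2 (Or.inl rfl)) hxΛ
      have d2 : ‖h ((x, y), i)‖ ^ 2 ≤ tor h x := by
        have d3 : ‖h ((x, y), i)‖ ^ 2 ≤ ‖h ((x, y), 2)‖ ^ 2 + ‖h ((x, y), 3)‖ ^ 2 := by
          rcases hi' with rfl | rfl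
          · nlinarith [sq_nonneg ‖h ((x, y), 3)‖]
          · nlinarith [sq_nonneg ‖h ((x, y), 2)‖]
        refine d3.trans ?_
        unfold tor
        exact Finset.single_le_sum (f := fun y => ‖h ((x, y), 2)‖ ^ 2 + ‖h ((x, y), 3)‖ ^ 2)
          (fun _ _ => by positivity) (Finset.mem_univ y)
      have d8 : 0 ≤ 3 * C₁ * (3 + 2 * C₂) * (S₁ + S₂) := by positivity
      have d9 := mul_nonneg hC2p.le n2
      nlinarith

end T2H02.TT
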