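import Pool.Agent.T2H02.TT.Stm2
import Pool.Agent.T2H02.TT.E

/-!
# Package I : energy bound and exponential decay for the linear problem
-/

set_option autoImplicit false
set_option linter.unusedSectionVars false

noncomputable section

open MeasureTheory Matrix
open scoped Matrix.Norms.Frobenius

namespace T2H02.TT

namespace PkgI

variable {N L : ℕ} [NeZero L]

/-! ### the forms -/

lemma ip_self (A : Mt N) : ip A A = ‖A‖ ^ 2 := by
  unfold ip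
  rw [Matrix.trace_mul_comm, ← PkgE.nsq_tr, Complex.ofReal_re]

lemma ip_comm (A B : Mt N) : ip A B = ip B A := by
  unfold ip
  have h : Bᴴ * A = (Aᴴ * B)ᴴ := by
    rw [conjTranspose_mul, conjTranspose_conjTranspose]
  rw [h, trace_conjTranspose, Complex.star_def, Complex.conj_re]

lemma ip_add_left (A B C : Mt N) : ip (A + B) C = ip A C + ip B C := by
  unfold ip
  rw [conjTranspose_add, Matrix.add_mul, trace_add, Complex.add_re]

lemma Adj_add (g : SU N) (A B : Mt N) : Adj g (A + B) = Adj g A + Adj g B := by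
  unfold Adj
  rw [Matrix.mul_add, Matrix.add_mul]

lemma cu_add (P Q : SU N) (a b : Lk L → Mt N) (p : Pt L) (i j : Fin 4) :
    cu P Q (a + b) p i j = cu P Q a p i j + cu P Q b p i j := by
  unfold cu
  simp only [Pi.add_apply, Adj_add]
  abel

/-- the plaquettes of a term -/
def pq (τ : Tm) : Finset (Fin 4 × Fin 4) :=
  if τ.2 = 0 then {(2, 3)} else if τ.2 = 1 then {(0, 2), (0, 3)}
  else if τ.2 = 2 then {(1, 2), (1, 3)} else {(0, 1)}

lemma pq_card (τ : Tm) : (pq τ).card ≤ 2 := by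
  unfold pq
  split_ifs <;> decide

lemma bf_eq (P Q : SU N) (τ : Tm) (a b : Lk L → Mt N) : bf P Q τ a b =
    ∑ y : Tor L, ∑ ij ∈ pq τ,
      ip (cu P Q a (τ.1, y) ij.1 ij.2) (cu P Q b (τ.1, y) ij.1 ij.2) := by
  unfold bf pq
  refine Finset.sum_congr rfl fun y _ => ?_
  split_ifs
  · rw [Finset.sum_singleton]
  · rw [Finset.sum_pair (by decide)]
  · rw [Finset.sum_pair (by decide)]
  · rw [Finset.sum_singleton]

lemma pq_mem (τ : Tm) (y : Tor L) (ij : Fin 4 × Fin 4) (h : ij ∈ pq τ) :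
    ((τ.1, y), ij.1) ∈ (spt τ : Finset (Lk L)) ∧
    (nx (τ.1, y) ij.1, ij.2) ∈ (spt τ : Finset (Lk L)) ∧
    ((τ.1, y), ij.2) ∈ (spt τ : Finset (Lk L)) ∧
    (nx (τ.1, y) ij.2, ij.1) ∈ (spt τ : Finset (Lk L)) := by
  obtain ⟨x, i⟩ := τ
  fin_cases i
  · have h1 : ij = (2, 3) := by simpa [pq] using h
    subst h1
    simp only [nx2, nx3]
    exact ⟨(mem_spt0 _ _).2 ⟨y, Or.inl rfl⟩, (mem_spt0 _ _).2 ⟨_, Or.inr rfl⟩,
      (mem_spt0 _ _).2 ⟨y, Or.inr rfl⟩, (mem_spt0 _ _).2 ⟨_, Or.inl rfl⟩⟩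
  · have h1 : ij = (0, 2) ∨ ij = (0, 3) := by simpa [pq] using h
    rcases h1 with h1 | h1
    · subst h1
      simp only [nx0, nx2]
      exact ⟨(mem_spt1 _ _).2 ⟨y, by simp⟩, (mem_spt1 _ _).2 ⟨y, by simp⟩,
        (mem_spt1 _ _).2 ⟨y, by simp⟩, (mem_spt1 _ _).2 ⟨_, Or.inl rfl⟩⟩
    · subst h1
      simp only [nx0, nx3]
      exact ⟨(mem_spt1 _ _).2 ⟨y, by simp⟩, (mem_spt1 _ _).2 ⟨y, by simp⟩,
        (mem_spt1 _ _).2 ⟨y, by simp⟩, (mem_spt1 _ _).2 ⟨_, Or.inl rfl⟩⟩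
  · have h1 : ij = (1, 2) ∨ ij = (1, 3) := by simpa [pq] using h
    rcases h1 with h1 | h1
    · subst h1
      simp only [nx1, nx2]
      exact ⟨(mem_spt2 _ _).2 ⟨y, by simp⟩, (mem_spt2 _ _).2 ⟨y, by simp⟩,
        (mem_spt2 _ _).2 ⟨y, by simp⟩, (mem_spt2 _ _).2 ⟨_, Or.inl rfl⟩⟩
    · subst h1
      simp only [nx1, nx3]
      exact ⟨(mem_spt2 _ _).2 ⟨y, by simp⟩, (mem_spt2 _ _).2 ⟨y, by simp⟩,
        (mem_spt2 _ _).2 ⟨y, by simp⟩, (mem_spt2 _ _).2 ⟨_, Or.inl rfl⟩⟩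
  · have h1 : ij = (0, 1) := by simpa [pq] using h
    subst h1
    simp only [nx0, nx1]
    exact ⟨(mem_spt3 _ _).2 ⟨y, by simp⟩, (mem_spt3 _ _).2 ⟨y, by simp⟩,
      (mem_spt3 _ _).2 ⟨y, by simp⟩, (mem_spt3 _ _).2 ⟨y, by simp⟩⟩

lemma bf_add_left (P Q : SU N) (τ : Tm) (a b c : Lk L → Mt N) :
    bf P Q τ (a + b) c = bf P Q τ a c + bf P Q τ b c := by
  simp only [bf_eq, cu_add, ip_add_left, Finset.sum_add_distrib]

lemma bf_comm (P Q : SU N) (τ : Tm) (a b : Lk L → Mt N) : bf P Q τ a b = bf P Q τ b a := by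
  simp only [bf_eq]
  exact Finset.sum_congr rfl fun y _ => Finset.sum_congr rfl fun ij _ => ip_comm _ _

lemma bf_nonneg (P Q : SU N) (τ : Tm) (a : Lk L → Mt N) : 0 ≤ bf P Q τ a a := by
  rw [bf_eq]
  refine Finset.sum_nonneg fun y _ => Finset.sum_nonneg fun ij _ => ?_
  rw [ip_self]
  positivity

lemma bf_sq (P Q : SU N) (τ : Tm) (h a : Lk L → Mt N) :
    bf P Q τ (h + a) (h + a) = bf P Q τ h h + 2 * bf P Q τ a h + bf P Q τ a a := by
  rw [bf_add_left, bf_comm P Q τ h (h + a), bf_comm P Q τ a (h + a), bf_add_left, bf_add_left,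
    bf_comm P Q τ h a]
  ring

lemma cu_congr (P Q : SU N) (τ : Tm) (a b : Lk L → Mt N)
    (h : ∀ l ∈ (spt τ : Finset (Lk L)), a l = b l) (y : Tor L) (ij : Fin 4 × Fin 4)
    (hij : ij ∈ pq τ) : cu P Q a (τ.1, y) ij.1 ij.2 = cu P Q b (τ.1, y) ij.1 ij.2 := by
  obtain ⟨h1, h2, h3, h4⟩ := pq_mem τ y ij hij
  unfold cu
  rw [h _ h1, h _ h2, h _ h3, h _ h4]

lemma bf_congr (P Q : SU N) (τ : Tm) (a b : Lk L → Mt N)
    (h : ∀ l ∈ (spt τ : Finset (Lk L)), a l = b l) : bf P Q τ a a = bf P Q τ b b := by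
  rw [bf_eq, bf_eq]
  refine Finset.sum_congr rfl fun y _ => Finset.sum_congr rfl fun ij hij => ?_
  rw [cu_congr P Q τ a b h y ij hij]

lemma cu_le (P Q : SU N) (a : Lk L → Mt N) (p : Pt L) (i j : Fin 4) (c : ℝ)
    (h1 : ‖a (p, i)‖ ^ 2 ≤ c) (h2 : ‖a (nx p i, j)‖ ^ 2 ≤ c) (h3 : ‖a (p, j)‖ ^ 2 ≤ c)
    (h4 : ‖a (nx p j, i)‖ ^ 2 ≤ c) : ‖cu P Q a p i j‖ ^ 2 ≤ 16 * c := by
  have e1 : ‖cu P Q a p i j‖ ≤ ‖a (p, i)‖ + ‖a (nx p i, j)‖ + ‖a (p, j)‖ + ‖a (nx p j, i)‖ := by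
    unfold cu
    refine (norm_sub_le _ _).trans ?_
    have e2 := norm_sub_le (a (p, i) + Adj (vc P Q (p, i)) (a (nx p i, j))) (a (p, j))
    have e3 := norm_add_le (a (p, i)) (Adj (vc P Q (p, i)) (a (nx p i, j)))
    rw [PkgE.norm_adj] at e3
    rw [PkgE.norm_adj]
    linarith
  have e2 := pow_le_pow_left₀ (norm_nonneg _) e1 2
  nlinarith [sq_nonneg (‖a (p, i)‖ - ‖a (nx p i, j)‖), sq_nonneg (‖a (p, i)‖ - ‖a (p, j)‖),
    sq_nonneg (‖a (p, i)‖ - ‖a (nx p j, i)‖), sq_nonneg (‖a (nx p i, j)‖ - ‖a (p, j)‖),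
    sq_nonneg (‖a (nx p i, j)‖ - ‖a (nx p j, i)‖), sq_nonneg (‖a (p, j)‖ - ‖a (nx p j, i)‖)]

lemma bf_bound (P Q : SU N) (τ : Tm) (a : Lk L → Mt N) : bf P Q τ a a ≤
    32 * Fintype.card (Tor L) * ∑ l ∈ (spt τ : Finset (Lk L)), ‖a l‖ ^ 2 := by
  obtain ⟨s, hs⟩ : ∃ s, s = ∑ l ∈ (spt τ : Finset (Lk L)), ‖a l‖ ^ 2 := ⟨_, rfl⟩
  have hs0 : 0 ≤ s := by rw [hs]; positivity
  have h1 : ∀ l ∈ (spt τ : Finset (Lk L)), ‖a l‖ ^ 2 ≤ s := by
    intro l hl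
    rw [hs]
    exact Finset.single_le_sum (f := fun l => ‖a l‖ ^ 2) (fun _ _ => by positivity) hl
  rw [← hs, bf_eq]
  calc ∑ y : Tor L, ∑ ij ∈ pq τ, ip (cu P Q a (τ.1, y) ij.1 ij.2) (cu P Q a (τ.1, y) ij.1 ij.2)
      ≤ ∑ _y : Tor L, ∑ _ij ∈ pq τ, 16 * s := by
        refine Finset.sum_le_sum fun y _ => Finset.sum_le_sum fun ij hij => ?_
        obtain ⟨g1, g2, g3, g4⟩ := pq_mem τ y ij hij
        rw [ip_self]
        exact cu_le P Q a _ _ _ s (h1 _ g1) (h1 _ g2) (h1 _ g3) (h1 _ g4)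
    _ = Fintype.card (Tor L) * ((pq τ).card * (16 * s)) := by
        simp only [Finset.sum_const, Finset.card_univ, nsmul_eq_mul]
    _ ≤ Fintype.card (Tor L) * (2 * (16 * s)) := by
        refine mul_le_mul_of_nonneg_left (mul_le_mul_of_nonneg_right ?_ (by positivity))
          (by positivity)
        exact_mod_cast pq_card τ
    _ = _ := by ring

/-! ### counting -/

lemma fst_cor (τ : Tm) : τ.1 ∈ cor τ := by
  obtain ⟨x, i⟩ := τ
  fin_cases i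
  · exact (mem_cor0 x x).2 rfl
  · exact (mem_cor1 x x).2 (Or.inl rfl)
  · exact (mem_cor2 x x).2 (Or.inl rfl)
  · exact (mem_cor3 x x).2 (Or.inl rfl)

lemma st_sub {τ : Tm} {l : Lk L} (h : l ∈ (spt τ : Finset (Lk L))) : st l ⊆ cor τ :=
  fun a ha => (cor_iff (L := L) τ a).2 ⟨l, h, ha⟩

lemma tml_card (x : Pl) : (tml {x}).card ≤ 16 := by
  unfold tml
  refine (Finset.card_filter_le _ _).trans ?_
  rw [Finset.card_product, Finset.card_univ, Fintype.card_fin]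
  have h1 := Finset.card_union_le ({x} ∪ Finset.image (fun x => x - (1, 0)) {x} ∪
    Finset.image (fun x => x - (0, 1)) {x}) (Finset.image (fun x => x - (1, 1)) ({x} : Finset Pl))
  have h2 := Finset.card_union_le ({x} ∪ Finset.image (fun x => x - (1, 0)) {x})
    (Finset.image (fun x => x - (0, 1)) ({x} : Finset Pl))
  have h3 := Finset.card_union_le ({x} : Finset Pl)
    (Finset.image (fun x => x - (1, 0)) ({x} : Finset Pl))
  simp only [Finset.image_singleton, Finset.card_singleton] at h1 h2 h3 ⊢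
  omega

lemma Frl_card (x : Pl) : (Frl L {x}).card ≤ 12 * Fintype.card (Tor L) := by
  unfold Frl
  refine (Finset.card_filter_le _ _).trans ?_
  rw [Finset.card_product, Finset.card_product, Finset.card_univ, Finset.card_univ,
    Fintype.card_fin]
  have h2 := Finset.card_union_le ({x} ∪ Finset.image (fun x => x - (1, 0)) {x})
    (Finset.image (fun x => x - (0, 1)) ({x} : Finset Pl))
  have h3 := Finset.card_union_le ({x} : Finset Pl)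
    (Finset.image (fun x => x - (1, 0)) ({x} : Finset Pl))
  simp only [Finset.image_singleton, Finset.card_singleton] at h2 h3 ⊢
  have h4 := Nat.mul_le_mul_right (Fintype.card (Tor L)) (h2.trans (Nat.add_le_add_right h3 1))
  omega

lemma dc {α β : Type*} (A : Finset α) (T : Finset β) (r : α → β → Prop)
    [∀ a, DecidablePred (r a)] [∀ b, DecidablePred fun a => r a b] (f : β → ℝ)
    (hf : ∀ b ∈ T, 0 ≤ f b) (m : ℝ)
    (hm : ∀ b ∈ T, ((A.filter fun a => r a b).card : ℝ) ≤ m) :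
    ∑ a ∈ A, ∑ b ∈ T.filter (r a), f b ≤ m * ∑ b ∈ T, f b := by
  simp only [Finset.sum_filter]
  rw [Finset.sum_comm, Finset.mul_sum]
  refine Finset.sum_le_sum fun b hb => ?_
  have h1 : ∑ a ∈ A, (if r a b then f b else 0) = ((A.filter fun a => r a b).card : ℝ) * f b := by
    rw [← Finset.sum_filter, Finset.sum_const, nsmul_eq_mul]
  rw [h1]
  exact mul_le_mul_of_nonneg_right (hm b hb) (hf b hb)

lemma cnt_tm (T : Finset Tm) (l : Lk L) :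
    ((T.filter fun τ => l ∈ (spt τ : Finset (Lk L))).card : ℝ) ≤ 16 := by
  have h1 : (T.filter fun τ => l ∈ (spt τ : Finset (Lk L))) ⊆ tml {l.1.1} := by
    intro τ hτ
    rw [Finset.mem_filter] at hτ
    rw [mem_tml]
    exact ⟨l.1.1, st_sub hτ.2 ((mem_st l _).2 (Or.inl rfl)), Finset.mem_singleton_self _⟩
  exact_mod_cast (Finset.card_le_card h1).trans (tml_card _)

lemma cnt_lk (T : Finset (Lk L)) (τ : Tm) :
    ((T.filter fun l => cor τ ⊆ st l).card : ℝ) ≤ 12 * Fintype.card (Tor L) := by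
  have h1 : (T.filter fun l => cor τ ⊆ st l) ⊆ Frl L {τ.1} := by
    intro l hl
    rw [Finset.mem_filter] at hl
    rw [mem_Frl]
    exact ⟨τ.1, hl.2 (fst_cor τ), Finset.mem_singleton_self _⟩
  exact_mod_cast (Finset.card_le_card h1).trans (Frl_card _)

lemma tml_mono {A B : Finset Pl} (h : A ⊆ B) : tml A ⊆ tml B := by
  intro τ hτ
  rw [mem_tml] at hτ ⊢
  obtain ⟨a, ha, hA⟩ := hτ
  exact ⟨a, ha, h hA⟩

lemma Frl_mono {A B : Finset Pl} (h : A ⊆ B) : Frl L A ⊆ Frl L B := by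
  intro l hl
  rw [mem_Frl] at hl ⊢
  obtain ⟨a, ha, hA⟩ := hl
  exact ⟨a, ha, h hA⟩

lemma mem_bal {r : ℕ} {B : Finset Pl} {a : Pl} :
    a ∈ bal r B ↔ ∃ b ∈ B, |b.1 - a.1| ≤ r ∧ |b.2 - a.2| ≤ r := by
  unfold bal Nb
  rw [Finset.mem_biUnion]
  refine exists_congr fun b => and_congr_right fun _ => ?_
  rw [Finset.mem_product, Finset.mem_Icc, Finset.mem_Icc, abs_le, abs_le]
  constructor
  · rintro ⟨⟨h1, h2⟩, h3, h4⟩
    refine ⟨⟨?_, ?_⟩, ?_, ?_⟩ <;> linarith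
  · rintro ⟨⟨h1, h2⟩, h3, h4⟩
    refine ⟨⟨?_, ?_⟩, ?_, ?_⟩ <;> linarith

lemma bal_mono {r s : ℕ} (h : r ≤ s) (B : Finset Pl) : bal r B ⊆ bal s B := by
  intro a ha
  rw [mem_bal] at ha ⊢
  obtain ⟨b, hb, h1, h2⟩ := ha
  have : (r : ℤ) ≤ s := by exact_mod_cast h
  exact ⟨b, hb, h1.trans this, h2.trans this⟩

lemma bal_step {r : ℕ} {B : Finset Pl} {a c : Pl} (ha : a ∈ bal r B) (h : near 1 a c) :
    c ∈ bal (r + 1) B := by
  rw [mem_bal] at ha ⊢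
  obtain ⟨b, hb, h1, h2⟩ := ha
  refine ⟨b, hb, ?_, ?_⟩
  · calc |b.1 - c.1| = |(b.1 - a.1) + (a.1 - c.1)| := by ring_nf
      _ ≤ |b.1 - a.1| + |a.1 - c.1| := abs_add_le _ _
      _ ≤ _ := by
        push_cast
        linarith [h.1]
  · calc |b.2 - c.2| = |(b.2 - a.2) + (a.2 - c.2)| := by ring_nf
      _ ≤ |b.2 - a.2| + |a.2 - c.2| := abs_add_le _ _
      _ ≤ _ := by
        push_cast
        linarith [h.2]

lemma sub_bal1 {B : Finset Pl} {a c : Pl} (ha : a ∈ B) (h : near 1 a c) : c ∈ bal 1 B := by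
  rw [mem_bal]
  exact ⟨a, ha, h.1, h.2⟩

lemma su_zero : (0 : Mt N) ∈ su N := by
  unfold su
  simp

lemma su_neg {M : Mt N} (h : M ∈ su N) : -M ∈ su N := by
  unfold su at h ⊢
  rw [Set.mem_ofPred_eq] at h ⊢
  rw [conjTranspose_neg, h.1, trace_neg, h.2, neg_zero]
  exact ⟨rfl, rfl⟩

/-! ### the variational inequality -/

lemma var_ineq (P Q : SU N) (Λ S : Finset Pl) (hS : S ⊆ Λ) (h : Lk L → Mt N)
    (hsu : ∀ l, h l ∈ su N)
    (hfo : ∀ a : Lk L → Mt N, (∀ l, a l ∈ su N) → (∀ l, l ∉ Frl L Λ → a l = 0) →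
        ∑ τ ∈ tml Λ, bf P Q τ a h = 0) :
    ∑ τ ∈ tml S, bf P Q τ h h ≤ 32 * Fintype.card (Tor L) * ∑ τ ∈ tml S,
      ∑ l ∈ (spt τ : Finset (Lk L)).filter (fun l => l ∉ Frl L S), ‖h l‖ ^ 2 := by
  obtain ⟨a, ha⟩ : ∃ a : Lk L → Mt N, a = fun l => if l ∈ Frl L S then - h l else 0 := ⟨_, rfl⟩
  have ha1 : ∀ l, l ∈ Frl L S → (h + a) l = 0 := by
    intro l hl
    rw [Pi.add_apply, ha]
    simp only [if_pos hl, add_neg_cancel]
  have ha2 : ∀ l, l ∉ Frl L S → (h + a) l = h l := by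
    intro l hl
    rw [Pi.add_apply, ha]
    simp only [if_neg hl, add_zero]
  have h0 := hfo a (by
    intro l
    rw [ha]
    simp only
    split_ifs
    · exact su_neg (hsu l)
    · exact su_zero) (by
    intro l hl
    rw [ha]
    simp only
    rw [if_neg fun h1 => hl (Frl_mono hS h1)])
  have h1 : ∑ τ ∈ tml Λ, bf P Q τ h h ≤ ∑ τ ∈ tml Λ, bf P Q τ (h + a) (h + a) := by
    have e1 : ∑ τ ∈ tml Λ, bf P Q τ (h + a) (h + a) = ∑ τ ∈ tml Λ, bf P Q τ h h +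
        2 * ∑ τ ∈ tml Λ, bf P Q τ a h + ∑ τ ∈ tml Λ, bf P Q τ a a := by
      rw [Finset.mul_sum, ← Finset.sum_add_distrib, ← Finset.sum_add_distrib]
      exact Finset.sum_congr rfl fun τ _ => bf_sq P Q τ h a
    have e2 : 0 ≤ ∑ τ ∈ tml Λ, bf P Q τ a a := Finset.sum_nonneg fun τ _ => bf_nonneg P Q τ a
    rw [e1, h0]
    linarith
  have h2 : ∑ τ ∈ tml Λ \ tml S, bf P Q τ (h + a) (h + a) = ∑ τ ∈ tml Λ \ tml S, bf P Q τ h h := by
    refine Finset.sum_congr rfl fun τ hτ => bf_congr P Q τ _ _ fun l hl => ha2 l fun h3 => ?_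
    rw [Finset.mem_sdiff] at hτ
    apply hτ.2
    rw [mem_Frl] at h3
    obtain ⟨c, hc, hcS⟩ := h3
    rw [mem_tml]
    exact ⟨c, st_sub hl hc, hcS⟩
  have h3 := Finset.sum_sdiff (f := fun τ => bf P Q τ h h) (tml_mono hS)
  have h4 := Finset.sum_sdiff (f := fun τ => bf P Q τ (h + a) (h + a)) (tml_mono hS)
  have h5 : ∑ τ ∈ tml S, bf P Q τ h h ≤ ∑ τ ∈ tml S, bf P Q τ (h + a) (h + a) := by
    linarith
  refine h5.trans ?_
  rw [Finset.mul_sum]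
  refine Finset.sum_le_sum fun τ _ => (bf_bound P Q τ _).trans (le_of_eq ?_)
  congr 1
  rw [Finset.sum_filter]
  refine Finset.sum_congr rfl fun l _ => ?_
  by_cases hl : l ∈ Frl L S
  · rw [ha1 l hl, if_neg (not_not.2 hl)]
    simp
  · rw [ha2 l hl, if_pos hl]

lemma energy_total (P Q : SU N) (Λ : Finset Pl) (h kk : Lk L → Mt N)
    (hsu : ∀ l, h l ∈ su N) (hkk : ∀ l, l ∉ Frl L Λ → h l = kk l)
    (hfo : ∀ a : Lk L → Mt N, (∀ l, a l ∈ su N) → (∀ l, l ∉ Frl L Λ → a l = 0) →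
        ∑ τ ∈ tml Λ, bf P Q τ a h = 0) :
    ∑ τ ∈ tml Λ, bf P Q τ h h ≤
      32 * Fintype.card (Tor L) * (16 * ∑ l ∈ bdl L Λ, ‖kk l‖ ^ 2) := by
  refine (var_ineq P Q Λ Λ subset_rfl h hsu hfo).trans ?_
  refine mul_le_mul_of_nonneg_left ?_ (by positivity)
  have h1 : ∀ τ ∈ tml Λ, ∑ l ∈ (spt τ : Finset (Lk L)).filter (fun l => l ∉ Frl L Λ), ‖h l‖ ^ 2 =
      ∑ l ∈ (bdl L Λ).filter (fun l => l ∈ (spt τ : Finset (Lk L))), ‖kk l‖ ^ 2 := by
    intro τ hτ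
    refine Finset.sum_congr ?_ ?_
    · ext l
      rw [Finset.mem_filter, Finset.mem_filter]
      unfold bdl
      rw [Finset.mem_sdiff, Finset.mem_biUnion]
      constructor
      · rintro ⟨h1, h2⟩
        exact ⟨⟨⟨τ, hτ, h1⟩, h2⟩, h1⟩
      · rintro ⟨⟨-, h2⟩, h1⟩
        exact ⟨h1, h2⟩
    · intro l hl
      rw [Finset.mem_filter] at hl
      unfold bdl at hl
      rw [Finset.mem_sdiff] at hl
      rw [hkk l hl.1.2]
  rw [Finset.sum_congr rfl h1]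
  exact dc (tml Λ) (bdl L Λ) (fun τ l => l ∈ (spt τ : Finset (Lk L))) (fun l => ‖kk l‖ ^ 2)
    (fun l _ => sq_nonneg ‖kk l‖) 16 fun l _ => cnt_tm _ l

/-- one step of the decay -/
lemma energy_step (P Q : SU N) (Λ B : Finset Pl) (R r : ℕ) (hr : r + 1 ≤ R)
    (h kk : Lk L → Mt N) (C : ℝ) (hC : 0 ≤ C)
    (hsu : ∀ l, h l ∈ su N) (hkk : ∀ l, l ∉ Frl L Λ → h l = kk l)
    (hfo : ∀ a : Lk L → Mt N, (∀ l, a l ∈ su N) → (∀ l, l ∉ Frl L Λ → a l = 0) →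
        ∑ τ ∈ tml Λ, bf P Q τ a h = 0)
    (hle : ∀ l ∈ Frl L Λ, ‖h l‖ ^ 2 ≤
      C * (∑ τ ∈ (tml Λ).filter (fun τ => cor τ ⊆ st l), bf P Q τ h h +
        ∑ l' ∈ (bdl L Λ).filter (fun l' => st l' ⊆ st l), ‖kk l'‖ ^ 2))
    (hz : ∀ l, l ∉ Frl L Λ → (∀ a ∈ st l, a ∈ bal R B) → kk l = 0) :
    ∑ τ ∈ tml (Λ ∩ bal r B), bf P Q τ h h ≤
      32 * Fintype.card (Tor L) * (16 * (C * (12 * Fintype.card (Tor L)))) *
        (∑ τ ∈ tml (Λ ∩ bal (r + 1) B), bf P Q τ h h -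
          ∑ τ ∈ tml (Λ ∩ bal r B), bf P Q τ h h) := by
  obtain ⟨S, hS⟩ : ∃ S, S = Λ ∩ bal r B := ⟨_, rfl⟩
  obtain ⟨S', hS'⟩ : ∃ S', S' = Λ ∩ bal (r + 1) B := ⟨_, rfl⟩
  rw [← hS, ← hS']
  have hSΛ : S ⊆ Λ := by rw [hS]; exact Finset.inter_subset_left
  have hSS : S ⊆ S' := by
    rw [hS, hS']
    exact Finset.inter_subset_inter_left (bal_mono (Nat.le_succ r) B)
  have hD := Finset.sum_sdiff (f := fun τ => bf P Q τ h h) (tml_mono hSS)
  obtain ⟨D, hDd⟩ : ∃ D, D = tml S' \ tml S := ⟨_, rfl⟩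
  rw [← hDd] at hD
  have e0 : ∑ τ ∈ tml S', bf P Q τ h h - ∑ τ ∈ tml S, bf P Q τ h h = ∑ τ ∈ D, bf P Q τ h h := by
    linarith
  rw [e0]
  refine (var_ineq P Q Λ S hSΛ h hsu hfo).trans ?_
  refine le_trans (mul_le_mul_of_nonneg_left ?_ (by positivity)) (le_of_eq (mul_assoc _ _ _).symm)
  -- sites of the links
  have hsite : ∀ τ ∈ tml S, ∀ l ∈ (spt τ : Finset (Lk L)), ∀ c ∈ st l, c ∈ bal (r + 1) B := by
    intro τ hτ l hl c hc
    rw [mem_tml] at hτ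
    obtain ⟨a, ha, haS⟩ := hτ
    rw [hS, Finset.mem_inter] at haS
    exact bal_step haS.2 (diam_cor τ a ha c (st_sub hl hc))
  obtain ⟨LL, hLL⟩ : ∃ LL : Finset (Lk L), LL = ((tml S).biUnion spt).filter
    (fun l => l ∉ Frl L S ∧ l ∈ Frl L Λ) := ⟨_, rfl⟩
  obtain ⟨g, hg⟩ : ∃ g : Lk L → ℝ, g = fun l => C * ∑ τ ∈ D.filter (fun τ => cor τ ⊆ st l),
    bf P Q τ h h := ⟨_, rfl⟩
  have hg0 : ∀ l, 0 ≤ g l := by
    intro l
    rw [hg]
    exact mul_nonneg hC (Finset.sum_nonneg fun τ _ => bf_nonneg P Q τ h)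
  have h1 : ∀ τ ∈ tml S, ∑ l ∈ (spt τ : Finset (Lk L)).filter (fun l => l ∉ Frl L S), ‖h l‖ ^ 2 ≤
      ∑ l ∈ LL.filter (fun l => l ∈ (spt τ : Finset (Lk L))), g l := by
    intro τ hτ
    have h2 : ∑ l ∈ (spt τ : Finset (Lk L)).filter (fun l => l ∉ Frl L S), ‖h l‖ ^ 2 =
        ∑ l ∈ LL.filter (fun l => l ∈ (spt τ : Finset (Lk L))), ‖h l‖ ^ 2 := by
      symm
      refine Finset.sum_subset ?_ ?_
      · intro l hl
        rw [hLL, Finset.mem_filter, Finset.mem_filter] at hl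
        rw [Finset.mem_filter]
        exact ⟨hl.2, hl.1.2.1⟩
      · intro l hl hl'
        rw [Finset.mem_filter] at hl
        have h3 : l ∉ Frl L Λ := by
          intro h4
          apply hl'
          rw [hLL, Finset.mem_filter, Finset.mem_filter, Finset.mem_biUnion]
          exact ⟨⟨⟨τ, hτ, hl.1⟩, hl.2, h4⟩, hl.1⟩
        rw [hkk l h3, hz l h3 fun a ha => bal_mono hr B (hsite τ hτ l hl.1 a ha)]
        simp
    rw [h2]
    refine Finset.sum_le_sum fun l hl => ?_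
    rw [hLL, Finset.mem_filter, Finset.mem_filter] at hl
    obtain ⟨⟨-, hlS, hlΛ⟩, hlτ⟩ := hl
    refine (hle l hlΛ).trans ?_
    rw [hg]
    refine mul_le_mul_of_nonneg_left ?_ hC
    have h4 : ∑ l' ∈ (bdl L Λ).filter (fun l' => st l' ⊆ st l), ‖kk l'‖ ^ 2 = 0 := by
      refine Finset.sum_eq_zero fun l' hl' => ?_
      rw [Finset.mem_filter] at hl'
      unfold bdl at hl'
      rw [Finset.mem_sdiff] at hl'
      rw [hz l' hl'.1.2 fun a ha => bal_mono hr B (hsite τ hτ l hlτ a (hl'.2 ha))]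
      simp
    rw [h4, add_zero]
    refine Finset.sum_le_sum_of_subset_of_nonneg ?_ fun τ' _ _ => bf_nonneg P Q τ' h
    intro τ' hτ'
    rw [Finset.mem_filter] at hτ' ⊢
    refine ⟨?_, hτ'.2⟩
    rw [hDd, Finset.mem_sdiff]
    constructor
    · have h5 := hτ'.1
      rw [mem_tml] at h5 ⊢
      obtain ⟨c, hc, hcΛ⟩ := h5
      refine ⟨c, hc, ?_⟩
      rw [hS', Finset.mem_inter]
      exact ⟨hcΛ, hsite τ hτ l hlτ c (hτ'.2 hc)⟩
    · intro h5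
      rw [mem_tml] at h5
      obtain ⟨c, hc, hcS⟩ := h5
      exact hlS ((mem_Frl S l).2 ⟨c, hτ'.2 hc, hcS⟩)
  refine (Finset.sum_le_sum h1).trans ?_
  refine (dc (tml S) LL (fun τ l => l ∈ (spt τ : Finset (Lk L))) g (fun l _ => hg0 l) 16
    fun l _ => cnt_tm _ l).trans ?_
  rw [mul_assoc 16]
  refine mul_le_mul_of_nonneg_left ?_ (by norm_num)
  rw [hg, ← Finset.mul_sum, mul_assoc]
  refine mul_le_mul_of_nonneg_left ?_ hC
  exact dc LL D (fun l τ => cor τ ⊆ st l) (fun τ => bf P Q τ h h)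
    (fun τ _ => bf_nonneg P Q τ h) _ fun τ _ => cnt_lk _ τ

end PkgI

open PkgI in
theorem pI : S_I1 → S_I := by
  intro hI1 N k L _ hN hk P Q hPQ
  obtain ⟨C, hC1, hC⟩ := hI1 N k L hN hk P Q hPQ
  have hC0 : 0 < C := by linarith
  have hT : (1 : ℝ) ≤ Fintype.card (Tor L) := by
    exact_mod_cast Nat.succ_le_of_lt (Fintype.card_pos)
  obtain ⟨T, hTd⟩ : ∃ T : ℝ, T = Fintype.card (Tor L) := ⟨_, rfl⟩
  rw [← hTd] at hT
  obtain ⟨c₂, hc₂⟩ : ∃ c₂ : ℝ, c₂ = 32 * T * 16 := ⟨_, rfl⟩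
  have hc₂0 : 0 < c₂ := by rw [hc₂]; positivity
  obtain ⟨C₁, hC₁⟩ : ∃ C₁ : ℝ, C₁ = 32 * T * (16 * (C * (12 * T))) := ⟨_, rfl⟩
  have hC₁0 : 0 < C₁ := by rw [hC₁]; positivity
  obtain ⟨θ, hθ⟩ : ∃ θ : ℝ, θ = C₁ / (1 + C₁) := ⟨_, rfl⟩
  have hθ0 : 0 < θ := by rw [hθ]; positivity
  have hθ1 : θ < 1 := by
    rw [hθ, div_lt_one (by positivity)]
    linarith
  refine ⟨C * (c₂ + 1) / θ, θ, ?_, hθ0, hθ1, ?_⟩
  · rw [le_div_iff₀ hθ0]
    nlinarith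
  intro Λ kk hkks
  obtain ⟨h, h1, h2, h3, h4⟩ := hC Λ kk hkks
  obtain ⟨K, hK⟩ : ∃ K : ℝ, K = ∑ l' ∈ bdl L Λ, ‖kk l'‖ ^ 2 := ⟨_, rfl⟩
  have hK0 : 0 ≤ K := by rw [hK]; positivity
  have hE : ∑ τ ∈ tml Λ, bf P Q τ h h ≤ c₂ * K := by
    have := energy_total P Q Λ h kk h1 h2 h3
    rw [← hK, ← hTd] at this
    rw [hc₂]
    linarith
  have hbd : ∀ l ∈ Frl L Λ, ‖h l‖ ^ 2 ≤ C * (c₂ + 1) * K := by
    intro l hl
    refine (h4 l hl).trans ?_
    rw [mul_assoc]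
    refine mul_le_mul_of_nonneg_left ?_ hC0.le
    have e1 : ∑ τ ∈ (tml Λ).filter (fun τ => cor τ ⊆ st l), bf P Q τ h h ≤ c₂ * K :=
      (Finset.sum_le_sum_of_subset_of_nonneg (Finset.filter_subset _ _)
        fun τ _ _ => bf_nonneg P Q τ h).trans hE
    have e2 : ∑ l' ∈ (bdl L Λ).filter (fun l' => st l' ⊆ st l), ‖kk l'‖ ^ 2 ≤ K := by
      rw [hK]
      exact Finset.sum_le_sum_of_subset_of_nonneg (Finset.filter_subset _ _)
        fun l _ _ => by positivity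
    linarith
  have hCθ : C * (c₂ + 1) ≤ C * (c₂ + 1) / θ := by
    rw [le_div_iff₀ hθ0]
    have : 0 < C * (c₂ + 1) := by positivity
    nlinarith
  refine ⟨h, h1, h2, h3, ?_, ?_⟩
  · intro l hl
    rw [← hK]
    exact (hbd l hl).trans (mul_le_mul_of_nonneg_right hCθ hK0)
  intro B R hBΛ hz l hl
  rw [← hK]
  rcases Nat.eq_zero_or_pos R with h0 | hR
  · rw [h0, pow_zero, mul_one]
    exact (hbd l (Frl_mono hBΛ hl)).trans (mul_le_mul_of_nonneg_right hCθ hK0)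
  -- decay
  have hstep : ∀ r, r + 1 ≤ R → ∑ τ ∈ tml (Λ ∩ bal r B), bf P Q τ h h ≤
      θ * ∑ τ ∈ tml (Λ ∩ bal (r + 1) B), bf P Q τ h h := by
    intro r hr
    have := energy_step P Q Λ B R r hr h kk C hC0.le h1 h2 h3 h4 hz
    rw [← hTd, ← hC₁] at this
    rw [hθ, div_mul_eq_mul_div, le_div_iff₀ (by positivity)]
    linarith
  have hdec : ∀ n, 1 + n ≤ R → ∑ τ ∈ tml (Λ ∩ bal 1 B), bf P Q τ h h ≤
      θ ^ n * ∑ τ ∈ tml (Λ ∩ bal (1 + n) B), bf P Q τ h h := by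
    intro n
    induction n with
    | zero => intro _; simp
    | succ n ih =>
      intro hn
      refine (ih (by omega)).trans ?_
      rw [pow_succ, mul_assoc]
      exact mul_le_mul_of_nonneg_left (hstep (1 + n) (by omega)) (by positivity)
  obtain ⟨n, hn⟩ : ∃ n, R = 1 + n := ⟨R - 1, by omega⟩
  have hE1 : ∑ τ ∈ tml (Λ ∩ bal 1 B), bf P Q τ h h ≤ θ ^ n * (c₂ * K) := by
    refine (hdec n (by omega)).trans (mul_le_mul_of_nonneg_left (le_trans ?_ hE) (by positivity))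
    exact Finset.sum_le_sum_of_subset_of_nonneg (tml_mono Finset.inter_subset_left)
      fun τ _ _ => bf_nonneg P Q τ h
  have hsite : ∀ c ∈ st l, c ∈ bal 1 B := by
    intro c hc
    rw [mem_Frl] at hl
    obtain ⟨a, ha, haB⟩ := hl
    exact sub_bal1 haB (diam_st l a ha c hc)
  have hfin : ‖h l‖ ^ 2 ≤ C * (θ ^ n * (c₂ * K)) := by
    refine (h4 l (Frl_mono hBΛ hl)).trans (mul_le_mul_of_nonneg_left ?_ hC0.le)
    have e2 : ∑ l' ∈ (bdl L Λ).filter (fun l' => st l' ⊆ st l), ‖kk l'‖ ^ 2 = 0 := by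
      refine Finset.sum_eq_zero fun l' hl' => ?_
      rw [Finset.mem_filter] at hl'
      unfold bdl at hl'
      rw [Finset.mem_sdiff] at hl'
      rw [hz l' hl'.1.2 fun a ha => bal_mono hR B (hsite a (hl'.2 ha))]
      simp
    rw [e2, add_zero]
    refine le_trans ?_ hE1
    refine Finset.sum_le_sum_of_subset_of_nonneg ?_ fun τ _ _ => bf_nonneg P Q τ h
    intro τ hτ
    rw [Finset.mem_filter] at hτ
    have h5 := hτ.1
    rw [mem_tml] at h5 ⊢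
    obtain ⟨c, hc, hcΛ⟩ := h5
    exact ⟨c, hc, Finset.mem_inter.2 ⟨hcΛ, hsite c (hτ.2 hc)⟩⟩
  refine hfin.trans ?_
  have e3 : C * (c₂ + 1) / θ * θ ^ R = C * (c₂ + 1) * θ ^ n := by
    rw [hn, pow_add, pow_one]
    field_simp
  rw [e3]
  have e4 : C * (θ ^ n * (c₂ * K)) = C * c₂ * θ ^ n * K := by ring
  rw [e4]
  refine mul_le_mul_of_nonneg_right ?_ hK0
  refine mul_le_mul_of_nonneg_right ?_ (by positivity)
  nlinarith

end T2H02.TT
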