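import Pool.Agent.T2H02.TT.StmU
import Pool.Agent.T2H02.TT.I

/-!
# Package Iu : exponential decay for the linear problem with the sharp rate `c / L`
-/

set_option autoImplicit false
set_option linter.unusedSectionVars false

noncomputable section

open MeasureTheory Matrix
open scoped Matrix.Norms.Frobenius

namespace T2H02.TT

namespace PkgIu

open PkgI

variable {N L : ℕ} [NeZero L]

/-! ### the cutoff function -/

/-- cutoff: `0` on `bal (r + 1) B`, `1` outside `bal (r + L) B` -/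
def chi (L r : ℕ) (B : Finset Pl) (x : Pl) : ℝ :=
  1 - (((Finset.range L).filter fun s => x ∈ bal (r + 1 + s) B).card : ℝ) / L

lemma Lpos (L : ℕ) [NeZero L] : (0 : ℝ) < L := by
  exact_mod_cast Nat.pos_of_ne_zero (NeZero.ne L)

lemma chi_zero (L r : ℕ) [NeZero L] (B : Finset Pl) {x : Pl} (h : x ∈ bal (r + 1) B) :
    chi L r B x = 0 := by
  unfold chi
  rw [Finset.filter_true_of_mem fun s _ => bal_mono (Nat.le_add_right _ _) B h, Finset.card_range,
    div_self (Lpos L).ne', sub_self]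

lemma chi_one (L r : ℕ) [NeZero L] (B : Finset Pl) {x : Pl} (h : x ∉ bal (r + L) B) :
    chi L r B x = 1 := by
  unfold chi
  rw [Finset.filter_false_of_mem, Finset.card_empty, Nat.cast_zero, zero_div, sub_zero]
  intro s hs h1
  rw [Finset.mem_range] at hs
  exact h (bal_mono (by omega) B h1)

lemma chi_nonneg (L r : ℕ) [NeZero L] (B : Finset Pl) (x : Pl) : 0 ≤ chi L r B x := by
  unfold chi
  rw [sub_nonneg, div_le_one (Lpos L)]
  have := Finset.card_filter_le (Finset.range L) fun s => x ∈ bal (r + 1 + s) B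
  rw [Finset.card_range] at this
  exact_mod_cast this

lemma chi_le (L r : ℕ) [NeZero L] (B : Finset Pl) (x : Pl) : chi L r B x ≤ 1 := by
  unfold chi
  have := Lpos L
  have : (0 : ℝ) ≤ (((Finset.range L).filter fun s => x ∈ bal (r + 1 + s) B).card : ℝ) / L := by
    positivity
  linarith

lemma chi_step (L r : ℕ) [NeZero L] (B : Finset Pl) {x z : Pl} (h : near 1 x z) :
    chi L r B z - chi L r B x ≤ 1 / L := by
  unfold chi
  have h1 : ((Finset.range L).filter fun s => x ∈ bal (r + 1 + s) B).card ≤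
      ((Finset.range L).filter fun s => z ∈ bal (r + 1 + s) B).card + 1 := by
    rw [← Finset.card_image_of_injective _ (add_left_injective 1)]
    have h2 : ((Finset.range L).filter fun s => x ∈ bal (r + 1 + s) B).image (fun s => s + 1) ⊆
        insert L ((Finset.range L).filter fun s => z ∈ bal (r + 1 + s) B) := by
      intro t ht
      rw [Finset.mem_image] at ht
      obtain ⟨s, hs, rfl⟩ := ht
      rw [Finset.mem_filter, Finset.mem_range] at hs
      rw [Finset.mem_insert, Finset.mem_filter, Finset.mem_range]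
      by_cases h3 : s + 1 = L
      · exact Or.inl h3
      · refine Or.inr ⟨by omega, ?_⟩
        have := bal_step hs.2 h
        rwa [add_assoc] at this
    exact (Finset.card_le_card h2).trans (Finset.card_insert_le _ _)
  have h2 : (((Finset.range L).filter fun s => x ∈ bal (r + 1 + s) B).card : ℝ) ≤
      ((Finset.range L).filter fun s => z ∈ bal (r + 1 + s) B).card + 1 := by
    exact_mod_cast h1
  have hL := Lpos L
  have h3 := div_le_div_of_nonneg_right h2 hL.le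
  rw [add_div] at h3
  linarith

lemma near_symm {x z : Pl} (h : near 1 x z) : near 1 z x := by
  unfold near at h ⊢
  rw [abs_sub_comm z.1, abs_sub_comm z.2]
  exact h

lemma chi_diff (L r : ℕ) [NeZero L] (B : Finset Pl) {x z : Pl} (h : near 1 x z) :
    |chi L r B z - chi L r B x| ≤ 1 / L := by
  rw [abs_le]
  constructor
  · have := chi_step L r B (near_symm h)
    linarith
  · exact chi_step L r B h

/-! ### multiplication by a function -/

/-- `χ h` -/
def mulc (χ : Pl → ℝ) (h : Lk L → Mt N) : Lk L → Mt N := fun l => χ l.1.1 • h l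

lemma Adj_smul (g : SU N) (c : ℝ) (A : Mt N) : Adj g (c • A) = c • Adj g A := by
  unfold Adj
  rw [Matrix.mul_smul, Matrix.smul_mul]

lemma su_smul (c : ℝ) {M : Mt N} (h : M ∈ su N) : c • M ∈ su N := by
  unfold su at h ⊢
  rw [Set.mem_ofPred_eq] at h ⊢
  refine ⟨?_, ?_⟩
  · rw [conjTranspose_smul, h.1, star_trivial, smul_neg]
  · rw [trace_smul, h.2, smul_zero]

lemma cu_mulc (P Q : SU N) (χ : Pl → ℝ) (h : Lk L → Mt N) (p : Pt L) (i j : Fin 4) :
    cu P Q (mulc χ h) p i j = χ p.1 • cu P Q h p i j +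
      (χ (nx p i).1 - χ p.1) • Adj (vc P Q (p, i)) (h (nx p i, j)) -
      (χ (nx p j).1 - χ p.1) • Adj (vc P Q (p, j)) (h (nx p j, i)) := by
  unfold cu mulc
  simp only [Adj_smul, smul_sub, smul_add, sub_smul]
  abel

lemma cu_mulc_sq (P Q : SU N) (χ : Pl → ℝ) (hχ0 : ∀ a, 0 ≤ χ a) (hχ1 : ∀ a, χ a ≤ 1)
    (h : Lk L → Mt N) (p : Pt L) (i j : Fin 4) :
    ‖cu P Q (mulc χ h) p i j‖ ^ 2 ≤ 2 * ‖cu P Q h p i j‖ ^ 2 +
      4 * (χ (nx p i).1 - χ p.1) ^ 2 * ‖h (nx p i, j)‖ ^ 2 +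
      4 * (χ (nx p j).1 - χ p.1) ^ 2 * ‖h (nx p j, i)‖ ^ 2 := by
  obtain ⟨u, hu⟩ : ∃ u, u = |χ (nx p i).1 - χ p.1| * ‖h (nx p i, j)‖ := ⟨_, rfl⟩
  obtain ⟨v, hv⟩ : ∃ v, v = |χ (nx p j).1 - χ p.1| * ‖h (nx p j, i)‖ := ⟨_, rfl⟩
  have hu0 : 0 ≤ u := by rw [hu]; positivity
  have hv0 : 0 ≤ v := by rw [hv]; positivity
  have h1 : ‖cu P Q (mulc χ h) p i j‖ ≤ ‖cu P Q h p i j‖ + u + v := by
    rw [cu_mulc]
    refine (norm_sub_le _ _).trans (add_le_add ((norm_add_le _ _).trans (add_le_add ?_ ?_)) ?_)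
    · rw [norm_smul, Real.norm_eq_abs, abs_of_nonneg (hχ0 _)]
      exact mul_le_of_le_one_left (norm_nonneg _) (hχ1 _)
    · rw [norm_smul, Real.norm_eq_abs, PkgE.norm_adj, hu]
    · rw [norm_smul, Real.norm_eq_abs, PkgE.norm_adj, hv]
  have h2 := pow_le_pow_left₀ (norm_nonneg _) h1 2
  have h3 : u ^ 2 = (χ (nx p i).1 - χ p.1) ^ 2 * ‖h (nx p i, j)‖ ^ 2 := by
    rw [hu, mul_pow, sq_abs]
  have h4 : v ^ 2 = (χ (nx p j).1 - χ p.1) ^ 2 * ‖h (nx p j, i)‖ ^ 2 := by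
    rw [hv, mul_pow, sq_abs]
  rw [mul_assoc 4, mul_assoc 4, ← h3, ← h4]
  nlinarith [sq_nonneg (‖cu P Q h p i j‖ - (u + v)), sq_nonneg (u - v)]

lemma bf_self (P Q : SU N) (τ : Tm) (a : Lk L → Mt N) : bf P Q τ a a =
    ∑ y : Tor L, ∑ ij ∈ pq τ, ‖cu P Q a (τ.1, y) ij.1 ij.2‖ ^ 2 := by
  rw [bf_eq]
  exact Finset.sum_congr rfl fun y _ => Finset.sum_congr rfl fun ij _ => ip_self _

lemma fst_mem {τ : Tm} {l : Lk L} (h : l ∈ (spt τ : Finset (Lk L))) : l.1.1 ∈ cor τ :=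
  st_sub h ((mem_st l _).2 (Or.inl rfl))

lemma cu_smul (P Q : SU N) (c : ℝ) (h : Lk L → Mt N) (p : Pt L) (i j : Fin 4) :
    cu P Q (fun l => c • h l) p i j = c • cu P Q h p i j := by
  unfold cu
  simp only [Adj_smul, smul_sub, smul_add]

lemma bf_const (P Q : SU N) (τ : Tm) (χ : Pl → ℝ) (h : Lk L → Mt N) (c : ℝ)
    (hc : ∀ a ∈ cor τ, χ a = c) : bf P Q τ (mulc χ h) (mulc χ h) = c ^ 2 * bf P Q τ h h := by
  rw [bf_congr P Q τ (mulc χ h) (fun l => c • h l) fun l hl => by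
    unfold mulc
    rw [hc _ (fst_mem hl)]]
  rw [bf_self, bf_self, Finset.mul_sum]
  refine Finset.sum_congr rfl fun y _ => ?_
  rw [Finset.mul_sum]
  refine Finset.sum_congr rfl fun ij _ => ?_
  rw [cu_smul, norm_smul, mul_pow, Real.norm_eq_abs, sq_abs]

/-- the energy of a term after the cutoff -/
lemma cut_term (P Q : SU N) (τ : Tm) (χ : Pl → ℝ) (hχ0 : ∀ a, 0 ≤ χ a) (hχ1 : ∀ a, χ a ≤ 1)
    (hχd : ∀ a b, near 1 a b → |χ b - χ a| ≤ 1 / L) (h : Lk L → Mt N) (M : ℝ) (hM : 0 ≤ M)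
    (hT : ∀ z ∈ cor τ, ∑ y : Tor L, (‖h ((z, y), 2)‖ ^ 2 + ‖h ((z, y), 3)‖ ^ 2) ≤ (L : ℝ) ^ 2 * M)
    (hP : ∀ (z : Pl) (i : Fin 4), i = 0 ∨ i = 1 → z ∈ cor τ → z + pe i ∈ cor τ →
      ∑ y : Tor L, ‖h ((z, y), i)‖ ^ 2 ≤ (L : ℝ) ^ 2 * M) :
    bf P Q τ (mulc χ h) (mulc χ h) ≤ 2 * bf P Q τ h h + 8 * M := by
  have hL := Lpos L
  have hd : ∀ a b, near 1 a b → (χ b - χ a) ^ 2 * (L : ℝ) ^ 2 ≤ 1 := by
    intro a b hab
    have h1 := hχd a b hab
    rw [← sq_abs, ← mul_pow]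
    have h2 : |χ b - χ a| * L ≤ 1 := by
      rwa [le_div_iff₀ hL] at h1
    exact pow_le_one₀ (by positivity) h2
  have hbig : ∀ (d s : ℝ), d ^ 2 * (L : ℝ) ^ 2 ≤ 1 → s ≤ (L : ℝ) ^ 2 * M → 4 * d ^ 2 * s ≤ 4 * M := by
    intro d s h1 h2
    calc 4 * d ^ 2 * s ≤ 4 * d ^ 2 * ((L : ℝ) ^ 2 * M) := mul_le_mul_of_nonneg_left h2 (by positivity)
      _ = 4 * (d ^ 2 * (L : ℝ) ^ 2) * M := by ring
      _ ≤ 4 * 1 * M := by
        refine mul_le_mul_of_nonneg_right ?_ hM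
        linarith
      _ = 4 * M := by ring
  obtain ⟨x, i⟩ := τ
  rw [bf_self, bf_self]
  fin_cases i
  · -- torus
    have e : pq ((x, ⟨0, by norm_num⟩) : Tm) = {(2, 3)} := rfl
    simp only [e, Finset.sum_singleton]
    have h1 : ∑ y : Tor L, ‖cu P Q (mulc χ h) (x, y) 2 3‖ ^ 2 ≤
        ∑ y : Tor L, 2 * ‖cu P Q h (x, y) 2 3‖ ^ 2 := by
      refine Finset.sum_le_sum fun y _ => ?_
      have := cu_mulc_sq P Q χ hχ0 hχ1 h (x, y) 2 3
      rw [nx2, nx3, sub_self] at this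
      simpa using this
    rw [← Finset.mul_sum] at h1
    linarith
  · have e : pq ((x, ⟨1, by norm_num⟩) : Tm) = {(0, 2), (0, 3)} := rfl
    simp only [e]
    have h1 : ∀ y : Tor L, ∑ ij ∈ ({(0, 2), (0, 3)} : Finset (Fin 4 × Fin 4)),
        ‖cu P Q (mulc χ h) (x, y) ij.1 ij.2‖ ^ 2 ≤
        2 * ∑ ij ∈ ({(0, 2), (0, 3)} : Finset (Fin 4 × Fin 4)), ‖cu P Q h (x, y) ij.1 ij.2‖ ^ 2 +
        4 * (χ (x + (1, 0)) - χ x) ^ 2 *
          (‖h ((x + (1, 0), y), 2)‖ ^ 2 + ‖h ((x + (1, 0), y), 3)‖ ^ 2) := by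
      intro y
      rw [Finset.sum_pair (by decide), Finset.sum_pair (by decide)]
      have a1 := cu_mulc_sq P Q χ hχ0 hχ1 h (x, y) 0 2
      have a2 := cu_mulc_sq P Q χ hχ0 hχ1 h (x, y) 0 3
      rw [nx0, nx2, sub_self] at a1
      rw [nx0, nx3, sub_self] at a2
      simp only at a1 a2 ⊢
      nlinarith
    refine (Finset.sum_le_sum fun y _ => h1 y).trans ?_
    rw [Finset.sum_add_distrib, ← Finset.mul_sum, ← Finset.mul_sum]
    have h2 := hbig _ _ (hd x (x + (1, 0)) (by unfold near; simp))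
      (hT (x + (1, 0)) ((mem_cor1 x _).2 (Or.inr rfl)))
    linarith
  · have e : pq ((x, ⟨2, by norm_num⟩) : Tm) = {(1, 2), (1, 3)} := rfl
    simp only [e]
    have h1 : ∀ y : Tor L, ∑ ij ∈ ({(1, 2), (1, 3)} : Finset (Fin 4 × Fin 4)),
        ‖cu P Q (mulc χ h) (x, y) ij.1 ij.2‖ ^ 2 ≤
        2 * ∑ ij ∈ ({(1, 2), (1, 3)} : Finset (Fin 4 × Fin 4)), ‖cu P Q h (x, y) ij.1 ij.2‖ ^ 2 +
        4 * (χ (x + (0, 1)) - χ x) ^ 2 *
          (‖h ((x + (0, 1), y), 2)‖ ^ 2 + ‖h ((x + (0, 1), y), 3)‖ ^ 2) := by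
      intro y
      rw [Finset.sum_pair (by decide), Finset.sum_pair (by decide)]
      have a1 := cu_mulc_sq P Q χ hχ0 hχ1 h (x, y) 1 2
      have a2 := cu_mulc_sq P Q χ hχ0 hχ1 h (x, y) 1 3
      rw [nx1, nx2, sub_self] at a1
      rw [nx1, nx3, sub_self] at a2
      simp only at a1 a2 ⊢
      nlinarith
    refine (Finset.sum_le_sum fun y _ => h1 y).trans ?_
    rw [Finset.sum_add_distrib, ← Finset.mul_sum, ← Finset.mul_sum]
    have h2 := hbig _ _ (hd x (x + (0, 1)) (by unfold near; simp))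
      (hT (x + (0, 1)) ((mem_cor2 x _).2 (Or.inr rfl)))
    linarith
  · have e : pq ((x, ⟨3, by norm_num⟩) : Tm) = {(0, 1)} := rfl
    simp only [e, Finset.sum_singleton]
    have h1 : ∑ y : Tor L, ‖cu P Q (mulc χ h) (x, y) 0 1‖ ^ 2 ≤
        ∑ y : Tor L, (2 * ‖cu P Q h (x, y) 0 1‖ ^ 2 +
          4 * (χ (x + (1, 0)) - χ x) ^ 2 * ‖h ((x + (1, 0), y), 1)‖ ^ 2 +
          4 * (χ (x + (0, 1)) - χ x) ^ 2 * ‖h ((x + (0, 1), y), 0)‖ ^ 2) := by
      refine Finset.sum_le_sum fun y _ => ?_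
      have := cu_mulc_sq P Q χ hχ0 hχ1 h (x, y) 0 1
      rwa [nx0, nx1] at this
    refine h1.trans ?_
    rw [Finset.sum_add_distrib, Finset.sum_add_distrib, ← Finset.mul_sum, ← Finset.mul_sum,
      ← Finset.mul_sum]
    have e3 : ((1, 0) : Pl) + pe 1 = (1, 1) := by simp [pe]
    have e4 : ((0, 1) : Pl) + pe 0 = (1, 1) := by simp [pe]
    have h2 := hbig _ _ (hd x (x + (1, 0)) (by unfold near; simp))
      (hP (x + (1, 0)) 1 (Or.inr rfl) ((mem_cor3 x _).2 (Or.inr (Or.inl rfl)))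
        ((mem_cor3 x _).2 (Or.inr (Or.inr (Or.inr (by rw [add_assoc, e3]))))))
    have h3 := hbig _ _ (hd x (x + (0, 1)) (by unfold near; simp))
      (hP (x + (0, 1)) 0 (Or.inl rfl) ((mem_cor3 x _).2 (Or.inr (Or.inr (Or.inl rfl))))
        ((mem_cor3 x _).2 (Or.inr (Or.inr (Or.inr (by rw [add_assoc, e4]))))))
    linarith

/-- one step of the decay: `L + 2` sites -/
lemma energy_stepU (P Q : SU N) (Λ B : Finset Pl) (R r : ℕ) (hr : r + L + 2 ≤ R)
    (h kk : Lk L → Mt N) (C : ℝ) (hC : 0 ≤ C)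
    (hsu : ∀ l, h l ∈ su N) (hkk : ∀ l, l ∉ Frl L Λ → h l = kk l)
    (hfo : ∀ a : Lk L → Mt N, (∀ l, a l ∈ su N) → (∀ l, l ∉ Frl L Λ → a l = 0) →
        ∑ τ ∈ tml Λ, bf P Q τ a h = 0)
    (h4 : ∀ x ∈ Λ, ∑ y : Tor L, (‖h ((x, y), 2)‖ ^ 2 + ‖h ((x, y), 3)‖ ^ 2) ≤
        C * (L : ℝ) ^ 2 * bf P Q (x, 0) h h)
    (h5 : ∀ (x : Pl) (i : Fin 4) (τ : Tm), (i = 0 ∧ τ = (x, 1)) ∨ (i = 1 ∧ τ = (x, 2)) →
        (x ∈ Λ ∨ x + pe i ∈ Λ) →
        (∀ (z : Pl) (y : Tor L), (z = x ∨ z = x + pe i) → z ∉ Λ →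
          kk ((z, y), 2) = 0 ∧ kk ((z, y), 3) = 0) →
        ∑ y : Tor L, ‖h ((x, y), i)‖ ^ 2 ≤ C * (L : ℝ) ^ 2 * bf P Q τ h h)
    (hz : ∀ l, l ∉ Frl L Λ → (∀ a ∈ st l, a ∈ bal R B) → kk l = 0) :
    ∑ τ ∈ tml (Λ ∩ bal r B), bf P Q τ h h ≤ (2 + 128 * C) *
        (∑ τ ∈ tml (Λ ∩ bal (r + L + 2) B), bf P Q τ h h -
          ∑ τ ∈ tml (Λ ∩ bal r B), bf P Q τ h h) := by
  have hL := Lpos L
  obtain ⟨χ, hχ⟩ : ∃ χ, χ = chi L r B := ⟨_, rfl⟩
  have hχ0 : ∀ a, 0 ≤ χ a := fun a => by rw [hχ]; exact chi_nonneg L r B a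
  have hχ1 : ∀ a, χ a ≤ 1 := fun a => by rw [hχ]; exact chi_le L r B a
  have hχd : ∀ a b, near 1 a b → |χ b - χ a| ≤ 1 / L := fun a b hab => by
    rw [hχ]; exact chi_diff L r B hab
  have hχz : ∀ a ∈ bal (r + 1) B, χ a = 0 := fun a ha => by rw [hχ]; exact chi_zero L r B ha
  have hχo : ∀ a, a ∉ bal (r + L) B → χ a = 1 := fun a ha => by rw [hχ]; exact chi_one L r B ha
  obtain ⟨S, hS⟩ : ∃ S, S = Λ ∩ bal r B := ⟨_, rfl⟩
  obtain ⟨S', hS'⟩ : ∃ S', S' = Λ ∩ bal (r + L + 2) B := ⟨_, rfl⟩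
  rw [← hS, ← hS']
  have hSΛ' : S' ⊆ Λ := by rw [hS']; exact Finset.inter_subset_left
  have hSS : S ⊆ S' := by
    rw [hS, hS']
    exact Finset.inter_subset_inter_left (bal_mono (by omega) B)
  have hD := Finset.sum_sdiff (f := fun τ => bf P Q τ h h) (tml_mono hSS)
  obtain ⟨D, hDd⟩ : ∃ D, D = tml S' \ tml S := ⟨_, rfl⟩
  rw [← hDd] at hD
  have e0 : ∑ τ ∈ tml S', bf P Q τ h h - ∑ τ ∈ tml S, bf P Q τ h h = ∑ τ ∈ D, bf P Q τ h h := by
    linarith
  rw [e0]
  -- the comparison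
  obtain ⟨h', hh'⟩ : ∃ h', h' = mulc χ h := ⟨_, rfl⟩
  have hcmp : ∑ τ ∈ tml Λ, bf P Q τ h h ≤ ∑ τ ∈ tml Λ, bf P Q τ h' h' := by
    have e := hfo (h' - h) (by
      intro l
      have : (h' - h) l = (χ l.1.1 - 1) • h l := by
        rw [Pi.sub_apply, hh']
        unfold mulc
        rw [sub_smul, one_smul]
      rw [this]
      exact su_smul _ (hsu l)) (by
      intro l hl
      have : (h' - h) l = (χ l.1.1 - 1) • h l := by
        rw [Pi.sub_apply, hh']
        unfold mulc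
        rw [sub_smul, one_smul]
      rw [this]
      by_cases hb : l.1.1 ∈ bal (r + L) B
      · rw [hkk l hl, hz l hl, smul_zero]
        intro a ha
        have h1 := bal_step hb (diam_st l l.1.1 ((mem_st l _).2 (Or.inl rfl)) a ha)
        exact bal_mono (by omega) B h1
      · rw [hχo _ hb, sub_self, zero_smul])
    have e1 : ∑ τ ∈ tml Λ, bf P Q τ h' h' = ∑ τ ∈ tml Λ, bf P Q τ h h +
        2 * ∑ τ ∈ tml Λ, bf P Q τ (h' - h) h + ∑ τ ∈ tml Λ, bf P Q τ (h' - h) (h' - h) := by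
      rw [Finset.mul_sum, ← Finset.sum_add_distrib, ← Finset.sum_add_distrib]
      refine Finset.sum_congr rfl fun τ _ => ?_
      have := bf_sq P Q τ h (h' - h)
      rwa [add_sub_cancel] at this
    have e2 : 0 ≤ ∑ τ ∈ tml Λ, bf P Q τ (h' - h) (h' - h) :=
      Finset.sum_nonneg fun τ _ => bf_nonneg P Q τ _
    rw [e1, e]
    linarith
  -- outside `tml S'` nothing changes
  have hout : ∑ τ ∈ tml Λ \ tml S', bf P Q τ h' h' = ∑ τ ∈ tml Λ \ tml S', bf P Q τ h h := by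
    refine Finset.sum_congr rfl fun τ hτ => ?_
    rw [Finset.mem_sdiff, mem_tml, mem_tml] at hτ
    obtain ⟨⟨c, hc, hcΛ⟩, hn⟩ := hτ
    have h1 : ∀ a ∈ cor τ, χ a = 1 := by
      intro a ha
      apply hχo
      intro hb
      apply hn
      refine ⟨c, hc, ?_⟩
      rw [hS', Finset.mem_inter]
      exact ⟨hcΛ, bal_mono (by omega) B (bal_step hb (diam_cor τ a ha c hc))⟩
    rw [hh', bf_const P Q τ χ h 1 h1]
    ring
  -- inside `tml S` the new configuration vanishes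
  have hin : ∑ τ ∈ tml S, bf P Q τ h' h' = 0 := by
    refine Finset.sum_eq_zero fun τ hτ => ?_
    rw [mem_tml] at hτ
    obtain ⟨c, hc, hcS⟩ := hτ
    rw [hS, Finset.mem_inter] at hcS
    rw [hh', bf_const P Q τ χ h 0 fun a ha => hχz a (bal_step hcS.2 (diam_cor τ c hc a ha))]
    ring
  have hdec : ∑ τ ∈ tml S, bf P Q τ h h ≤ ∑ τ ∈ D, bf P Q τ h' h' := by
    have a1 := Finset.sum_sdiff (f := fun τ => bf P Q τ h h) (tml_mono hSΛ')
    have a2 := Finset.sum_sdiff (f := fun τ => bf P Q τ h' h') (tml_mono hSΛ')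
    have a3 := Finset.sum_sdiff (f := fun τ => bf P Q τ h' h') (tml_mono hSS)
    rw [← hDd] at a3
    have a4 : 0 ≤ ∑ τ ∈ D, bf P Q τ h h := Finset.sum_nonneg fun τ _ => bf_nonneg P Q τ h
    linarith
  refine hdec.trans ?_
  -- the terms of `D`
  have hterm : ∀ τ ∈ D, bf P Q τ h' h' ≤ 2 * bf P Q τ h h +
      8 * (C * ∑ τ' ∈ D.filter (fun τ' => cor τ' ⊆ cor τ), bf P Q τ' h h) := by
    intro τ hτ
    have hW0 : 0 ≤ ∑ τ' ∈ D.filter (fun τ' => cor τ' ⊆ cor τ), bf P Q τ' h h :=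
      Finset.sum_nonneg fun τ' _ => bf_nonneg P Q τ' h
    by_cases hcon : ∀ a ∈ cor τ, χ a = χ τ.1
    · rw [hh', bf_const P Q τ χ h _ hcon]
      have h1 : χ τ.1 ^ 2 ≤ 1 := pow_le_one₀ (hχ0 _) (hχ1 _)
      have h2 := bf_nonneg P Q τ h
      have h3 : 0 ≤ C * ∑ τ' ∈ D.filter (fun τ' => cor τ' ⊆ cor τ), bf P Q τ' h h :=
        mul_nonneg hC hW0
      nlinarith
    · push Not at hcon
      obtain ⟨b, hb, hbne⟩ := hcon
      -- no corner in `bal r B`
      have hfar : ∀ a ∈ cor τ, a ∉ bal r B := by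
        intro a ha har
        apply hbne
        rw [hχz b (bal_step har (diam_cor τ a ha b hb)),
          hχz _ (bal_step har (diam_cor τ a ha _ (fst_cor τ)))]
      -- all corners in `bal (r + L + 1) B`
      have hnear : ∀ a ∈ cor τ, a ∈ bal (r + L + 1) B := by
        intro a ha
        have h1 : b ∈ bal (r + L) B ∨ τ.1 ∈ bal (r + L) B := by
          by_contra hcon
          push Not at hcon
          exact hbne (by rw [hχo _ hcon.1, hχo _ hcon.2])
        rcases h1 with h1 | h1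
        · exact bal_step h1 (diam_cor τ b hb a ha)
        · exact bal_step h1 (diam_cor τ _ (fst_cor τ) a ha)
      have hR : ∀ a ∈ cor τ, a ∈ bal R B := fun a ha => bal_mono (by omega) B (hnear a ha)
      have hD' : ∀ τ' : Tm, cor τ' ⊆ cor τ → (∃ c ∈ cor τ', c ∈ Λ) →
          bf P Q τ' h h ≤ ∑ τ' ∈ D.filter (fun τ' => cor τ' ⊆ cor τ), bf P Q τ' h h := by
        intro τ' hsub hc
        obtain ⟨c, hc, hcΛ⟩ := hc
        refine Finset.single_le_sum (f := fun τ' => bf P Q τ' h h)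
          (fun τ' _ => bf_nonneg P Q τ' h) ?_
        rw [Finset.mem_filter]
        refine ⟨?_, hsub⟩
        rw [hDd, Finset.mem_sdiff, mem_tml, mem_tml]
        refine ⟨⟨c, hc, ?_⟩, ?_⟩
        · rw [hS', Finset.mem_inter]
          exact ⟨hcΛ, bal_mono (by omega) B (hnear c (hsub hc))⟩
        · rintro ⟨d, hd, hdS⟩
          rw [hS, Finset.mem_inter] at hdS
          exact hfar d (hsub hd) hdS.2
      rw [hh']
      refine cut_term P Q τ χ hχ0 hχ1 hχd h _ (mul_nonneg hC hW0) ?_ ?_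
      · intro z hz'
        by_cases hzΛ : z ∈ Λ
        · refine (h4 z hzΛ).trans ?_
          have h1 := hD' (z, 0) (by
            intro a ha
            rw [(mem_cor0 z a).1 ha]
            exact hz') ⟨z, (mem_cor0 z z).2 rfl, hzΛ⟩
          calc C * (L : ℝ) ^ 2 * bf P Q (z, 0) h h ≤ C * (L : ℝ) ^ 2 *
                ∑ τ' ∈ D.filter (fun τ' => cor τ' ⊆ cor τ), bf P Q τ' h h :=
                mul_le_mul_of_nonneg_left h1 (by positivity)
            _ = _ := by ring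
        · have h1 : ∀ (y : Tor L) (i : Fin 4), i = 2 ∨ i = 3 → h ((z, y), i) = 0 := by
            intro y i hi
            have h2 : ∀ a ∈ st ((z, y), i), a = z := by
              intro a ha
              rw [mem_st] at ha
              have h00 : z + ((0, 0) : Pl) = z := by ext <;> simp
              rcases hi with rfl | rfl <;> simpa [pe, h00] using ha
            have h3 : ((z, y), i) ∉ Frl L Λ := by
              intro h4
              rw [mem_Frl] at h4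
              obtain ⟨a, ha, haΛ⟩ := h4
              rw [h2 a ha] at haΛ
              exact hzΛ haΛ
            rw [hkk _ h3, hz _ h3]
            intro a ha
            rw [h2 a ha]
            exact hR z hz'
          have h2 : ∑ y : Tor L, (‖h ((z, y), 2)‖ ^ 2 + ‖h ((z, y), 3)‖ ^ 2) = 0 := by
            refine Finset.sum_eq_zero fun y _ => ?_
            rw [h1 y 2 (Or.inl rfl), h1 y 3 (Or.inr rfl)]
            simp
          rw [h2]
          exact mul_nonneg (by positivity) (mul_nonneg hC hW0)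
      · intro z i hi hz1 hz2
        by_cases hzΛ : z ∈ Λ ∨ z + pe i ∈ Λ
        · obtain ⟨τ', hτ', hcor⟩ : ∃ τ' : Tm, ((i = 0 ∧ τ' = (z, 1)) ∨ (i = 1 ∧ τ' = (z, 2))) ∧
              ∀ a, a ∈ cor τ' ↔ a = z ∨ a = z + pe i := by
            rcases hi with rfl | rfl
            · refine ⟨(z, 1), Or.inl ⟨rfl, rfl⟩, fun a => ?_⟩
              rw [mem_cor1]
              rfl
            · refine ⟨(z, 2), Or.inr ⟨rfl, rfl⟩, fun a => ?_⟩
              rw [mem_cor2]
              rfl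
          have h1 := hD' τ' (by
            intro a ha
            rcases (hcor a).1 ha with rfl | rfl
            · exact hz1
            · exact hz2) (by
            rcases hzΛ with h1 | h1
            · exact ⟨z, (hcor z).2 (Or.inl rfl), h1⟩
            · exact ⟨z + pe i, (hcor _).2 (Or.inr rfl), h1⟩)
          refine (h5 z i τ' hτ' hzΛ ?_).trans ?_
          · intro w y hw hwΛ
            have hwR : w ∈ bal R B := by
              rcases hw with rfl | rfl
              · exact hR _ hz1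
              · exact hR _ hz2
            have h2 : ∀ j : Fin 4, j = 2 ∨ j = 3 → kk ((w, y), j) = 0 := by
              intro j hj
              have h2 : ∀ a ∈ st ((w, y), j), a = w := by
                intro a ha
                rw [mem_st] at ha
                have h00 : w + ((0, 0) : Pl) = w := by ext <;> simp
                rcases hj with rfl | rfl <;> simpa [pe, h00] using ha
              refine hz _ ?_ ?_
              · intro h4
                rw [mem_Frl] at h4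
                obtain ⟨a, ha, haΛ⟩ := h4
                rw [h2 a ha] at haΛ
                exact hwΛ haΛ
              · intro a ha
                rw [h2 a ha]
                exact hwR
            exact ⟨h2 2 (Or.inl rfl), h2 3 (Or.inr rfl)⟩
          · calc C * (L : ℝ) ^ 2 * bf P Q τ' h h ≤ C * (L : ℝ) ^ 2 *
                  ∑ τ' ∈ D.filter (fun τ' => cor τ' ⊆ cor τ), bf P Q τ' h h :=
                  mul_le_mul_of_nonneg_left h1 (by positivity)
              _ = _ := by ring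
        · push Not at hzΛ
          have h2 : ∑ y : Tor L, ‖h ((z, y), i)‖ ^ 2 = 0 := by
            refine Finset.sum_eq_zero fun y _ => ?_
            have h3 : ((z, y), i) ∉ Frl L Λ := by
              intro h4
              rw [mem_Frl] at h4
              obtain ⟨a, ha, haΛ⟩ := h4
              rw [mem_st] at ha
              rcases ha with rfl | rfl
              · exact hzΛ.1 haΛ
              · exact hzΛ.2 haΛ
            rw [hkk _ h3, hz _ h3]
            · simp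
            · intro a ha
              rw [mem_st] at ha
              rcases ha with rfl | rfl
              · exact hR _ hz1
              · exact hR _ hz2
          rw [h2]
          exact mul_nonneg (by positivity) (mul_nonneg hC hW0)
  refine (Finset.sum_le_sum hterm).trans ?_
  rw [Finset.sum_add_distrib, ← Finset.mul_sum, ← Finset.mul_sum, ← Finset.mul_sum]
  have hcount := dc D D (fun τ τ' => cor τ' ⊆ cor τ) (fun τ => bf P Q τ h h)
    (fun τ _ => bf_nonneg P Q τ h) 16 (by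
      intro τ' _
      have h1 : (D.filter fun τ => cor τ' ⊆ cor τ) ⊆ tml {τ'.1} := by
        intro τ hτ
        rw [Finset.mem_filter] at hτ
        rw [mem_tml]
        exact ⟨τ'.1, hτ.2 (fst_cor τ'), Finset.mem_singleton_self _⟩
      exact_mod_cast (Finset.card_le_card h1).trans (tml_card _))
  have := mul_le_mul_of_nonneg_left hcount hC
  linarith

end PkgIu

open PkgI PkgIu in
theorem pIu : S_I1u → S_Iu := by
  intro hI1 N k hN hk P Q hPQ
  obtain ⟨C, hC1, hC⟩ := hI1 N k hN hk P Q hPQ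
  have hC0 : 0 < C := by linarith
  obtain ⟨C₁, hC₁⟩ : ∃ C₁ : ℝ, C₁ = 2 + 128 * C := ⟨_, rfl⟩
  have hC₁0 : 0 < C₁ := by rw [hC₁]; positivity
  obtain ⟨θ, hθ⟩ : ∃ θ : ℝ, θ = C₁ / (1 + C₁) := ⟨_, rfl⟩
  have hθ0 : 0 < θ := by rw [hθ]; positivity
  have hθ1 : θ < 1 := by
    rw [hθ, div_lt_one (by positivity)]
    linarith
  obtain ⟨lam, hlam⟩ : ∃ lam : ℝ, lam = -Real.log θ := ⟨_, rfl⟩
  have hlam0 : 0 < lam := by
    rw [hlam]
    linarith [Real.log_neg hθ0 hθ1]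
  refine ⟨513 * C * Real.exp (2 * lam), lam / 3, 6, ?_, by positivity, ?_⟩
  · have : 1 ≤ Real.exp (2 * lam) := Real.one_le_exp (by positivity)
    nlinarith
  intro L _ Λ kk hkks
  have hL := Lpos L
  have hL1 : (1 : ℝ) ≤ L := by
    exact_mod_cast Nat.one_le_iff_ne_zero.2 (NeZero.ne L)
  obtain ⟨h, h1, h2, h3, h4, h5, h6⟩ := hC L Λ kk hkks
  obtain ⟨K, hK⟩ : ∃ K : ℝ, K = ∑ l' ∈ bdl L Λ, ‖kk l'‖ ^ 2 := ⟨_, rfl⟩
  have hK0 : 0 ≤ K := by rw [hK]; positivity
  have hcard : (Fintype.card (Tor L) : ℝ) = (L : ℝ) ^ 2 := by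
    rw [Fintype.card_prod, ZMod.card]
    push_cast
    ring
  have hE : ∑ τ ∈ tml Λ, bf P Q τ h h ≤ 512 * (L : ℝ) ^ 2 * K := by
    have := energy_total P Q Λ h kk h1 h2 h3
    rw [← hK, hcard] at this
    linarith
  have hL2 : (1 : ℝ) ≤ (L : ℝ) ^ 2 := one_le_pow₀ hL1
  have hbd : ∀ l ∈ Frl L Λ, ‖h l‖ ^ 2 ≤ 513 * C * (L : ℝ) ^ 6 * K := by
    intro l hl
    refine (h6 l hl).trans ?_
    have e1 : ∑ τ ∈ (tml Λ).filter (fun τ => cor τ ⊆ st l), bf P Q τ h h ≤ 512 * (L : ℝ) ^ 2 * K :=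
      (Finset.sum_le_sum_of_subset_of_nonneg (Finset.filter_subset _ _)
        fun τ _ _ => bf_nonneg P Q τ h).trans hE
    have e2 : ∑ l' ∈ (bdl L Λ).filter (fun l' => st l' ⊆ st l), ‖kk l'‖ ^ 2 ≤ K := by
      rw [hK]
      exact Finset.sum_le_sum_of_subset_of_nonneg (Finset.filter_subset _ _)
        fun l _ _ => by positivity
    have e3 : K ≤ (L : ℝ) ^ 2 * K := le_mul_of_one_le_left hK0 hL2
    calc C * (L : ℝ) ^ 4 * (∑ τ ∈ (tml Λ).filter (fun τ => cor τ ⊆ st l), bf P Q τ h h +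
          ∑ l' ∈ (bdl L Λ).filter (fun l' => st l' ⊆ st l), ‖kk l'‖ ^ 2)
        ≤ C * (L : ℝ) ^ 4 * (513 * (L : ℝ) ^ 2 * K) :=
          mul_le_mul_of_nonneg_left (by linarith) (by positivity)
      _ = _ := by ring
  have hexp1 : 1 ≤ Real.exp (2 * lam) := Real.one_le_exp (by positivity)
  have hCL0 : 0 ≤ 513 * C * (L : ℝ) ^ 6 * K := by positivity
  refine ⟨h, h1, h2, h3, ?_, ?_⟩
  · intro l hl
    rw [← hK]
    refine (hbd l hl).trans ?_
    calc 513 * C * (L : ℝ) ^ 6 * K = 1 * (513 * C * (L : ℝ) ^ 6 * K) := (one_mul _).symm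
      _ ≤ Real.exp (2 * lam) * (513 * C * (L : ℝ) ^ 6 * K) :=
          mul_le_mul_of_nonneg_right hexp1 hCL0
      _ = _ := by ring
  intro B R hBΛ hz l hl
  rw [← hK]
  -- it suffices to have `‖h l‖² ≤ C (L^6) θ^n` with `R ≤ 3 L (n + 2)`
  have hsuff : ∀ n : ℕ, (R : ℝ) ≤ 3 * L * (n + 2) →
      ‖h l‖ ^ 2 ≤ 513 * C * (L : ℝ) ^ 6 * K * θ ^ n →
      ‖h l‖ ^ 2 ≤ 513 * C * Real.exp (2 * lam) * (L : ℝ) ^ 6 * Real.exp (-(lam / 3) * R / L) * K := by
    intro n hn hb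
    refine hb.trans ?_
    have e1 : θ ^ n ≤ Real.exp (2 * lam) * Real.exp (-(lam / 3) * R / L) := by
      rw [← Real.exp_add]
      have e2 : θ ^ n = Real.exp (-lam * n) := by
        rw [hlam, neg_neg, mul_comm, Real.exp_nat_mul, Real.exp_log hθ0]
      rw [e2, Real.exp_le_exp]
      have e3 : (R : ℝ) / L ≤ 3 * (n + 2) := by
        rw [div_le_iff₀ hL]
        linarith
      have e4 : -(lam / 3) * R / L = -(lam / 3) * (R / L) := by ring
      rw [e4]
      nlinarith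
    calc 513 * C * (L : ℝ) ^ 6 * K * θ ^ n ≤ 513 * C * (L : ℝ) ^ 6 * K *
          (Real.exp (2 * lam) * Real.exp (-(lam / 3) * R / L)) :=
          mul_le_mul_of_nonneg_left e1 hCL0
      _ = _ := by ring
  rcases Nat.eq_zero_or_pos R with h0 | hR
  · refine hsuff 0 ?_ ?_
    · rw [h0]
      push_cast
      positivity
    · rw [pow_zero, mul_one]
      exact hbd l (Frl_mono hBΛ hl)
  -- decay
  have hstep : ∀ r, r + L + 2 ≤ R → ∑ τ ∈ tml (Λ ∩ bal r B), bf P Q τ h h ≤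
      θ * ∑ τ ∈ tml (Λ ∩ bal (r + L + 2) B), bf P Q τ h h := by
    intro r hr
    have := energy_stepU P Q Λ B R r hr h kk C hC0.le h1 h2 h3 h4 h5 hz
    rw [← hC₁] at this
    rw [hθ, div_mul_eq_mul_div, le_div_iff₀ (by positivity)]
    linarith
  have hdec : ∀ n, 1 + n * (L + 2) ≤ R → ∑ τ ∈ tml (Λ ∩ bal 1 B), bf P Q τ h h ≤
      θ ^ n * ∑ τ ∈ tml (Λ ∩ bal (1 + n * (L + 2)) B), bf P Q τ h h := by
    intro n
    induction n with
    | zero => intro _; simp
    | succ n ih =>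
      intro hn
      have e1 : 1 + (n + 1) * (L + 2) = 1 + n * (L + 2) + L + 2 := by ring
      refine (ih (by omega)).trans ?_
      rw [pow_succ, mul_assoc, e1]
      exact mul_le_mul_of_nonneg_left (hstep (1 + n * (L + 2)) (by omega)) (by positivity)
  obtain ⟨n, hn⟩ : ∃ n, n = (R - 1) / (L + 2) := ⟨_, rfl⟩
  have hn1 : 1 + n * (L + 2) ≤ R := by
    have := Nat.div_mul_le_self (R - 1) (L + 2)
    rw [← hn] at this
    omega
  have hn2 : R ≤ (n + 1) * (L + 2) := by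
    have := Nat.lt_div_mul_add (a := R - 1) (b := L + 2) (by omega)
    rw [← hn] at this
    have e : (n + 1) * (L + 2) = n * (L + 2) + (L + 2) := by ring
    omega
  refine hsuff n ?_ ?_
  · have e1 : (R : ℝ) ≤ (n + 1) * (L + 2) := by exact_mod_cast hn2
    have e2 : ((n : ℝ) + 1) * (L + 2) ≤ (n + 1) * (3 * L) :=
      mul_le_mul_of_nonneg_left (by linarith) (by positivity)
    have e3 : ((n : ℝ) + 1) * (3 * L) ≤ 3 * L * (n + 2) := by nlinarith
    linarith
  have hE1 : ∑ τ ∈ tml (Λ ∩ bal 1 B), bf P Q τ h h ≤ θ ^ n * (512 * (L : ℝ) ^ 2 * K) := by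
    refine (hdec n hn1).trans (mul_le_mul_of_nonneg_left (le_trans ?_ hE) (by positivity))
    exact Finset.sum_le_sum_of_subset_of_nonneg (tml_mono Finset.inter_subset_left)
      fun τ _ _ => bf_nonneg P Q τ h
  have hsite : ∀ c ∈ st l, c ∈ bal 1 B := by
    intro c hc
    rw [mem_Frl] at hl
    obtain ⟨a, ha, haB⟩ := hl
    exact sub_bal1 haB (diam_st l a ha c hc)
  refine (h6 l (Frl_mono hBΛ hl)).trans ?_
  have e2 : ∑ l' ∈ (bdl L Λ).filter (fun l' => st l' ⊆ st l), ‖kk l'‖ ^ 2 = 0 := by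
    refine Finset.sum_eq_zero fun l' hl' => ?_
    rw [Finset.mem_filter] at hl'
    unfold bdl at hl'
    rw [Finset.mem_sdiff] at hl'
    rw [hz l' hl'.1.2 fun a ha => bal_mono hR B (hsite a (hl'.2 ha))]
    simp
  rw [e2, add_zero]
  have e3 : ∑ τ ∈ (tml Λ).filter (fun τ => cor τ ⊆ st l), bf P Q τ h h ≤
      ∑ τ ∈ tml (Λ ∩ bal 1 B), bf P Q τ h h := by
    refine Finset.sum_le_sum_of_subset_of_nonneg ?_ fun τ _ _ => bf_nonneg P Q τ h
    intro τ hτ
    rw [Finset.mem_filter] at hτ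
    have h7 := hτ.1
    rw [mem_tml] at h7 ⊢
    obtain ⟨c, hc, hcΛ⟩ := h7
    exact ⟨c, hc, Finset.mem_inter.2 ⟨hcΛ, hsite c (hτ.2 hc)⟩⟩
  have hθn : 0 < θ ^ n := by positivity
  calc C * (L : ℝ) ^ 4 * ∑ τ ∈ (tml Λ).filter (fun τ => cor τ ⊆ st l), bf P Q τ h h
      ≤ C * (L : ℝ) ^ 4 * (θ ^ n * (512 * (L : ℝ) ^ 2 * K)) :=
        mul_le_mul_of_nonneg_left (e3.trans hE1) (by positivity)
    _ = 512 * (C * (L : ℝ) ^ 6 * K * θ ^ n) := by ring
    _ ≤ 513 * (C * (L : ℝ) ^ 6 * K * θ ^ n) :=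
        mul_le_mul_of_nonneg_right (by norm_num) (by positivity)
    _ = _ := by ring

end T2H02.TT
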