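import Pool.Agent.T2H02.TT.Stm2

/-!
# Package K: the change of variables near the vacuum
-/

set_option autoImplicit false

noncomputable section

open MeasureTheory Matrix
open scoped Matrix.Norms.Frobenius

namespace T2H02.TT

namespace PkgK

variable {N L : ℕ} [NeZero L]

lemma su_mul_inv (g : SU N) : (g : Mt N) * ((g⁻¹ : SU N) : Mt N) = 1 :=
  congrArg (fun x : SU N => (x : Mt N)) (mul_inv_cancel g)

lemma Adj_zero (g : SU N) : Adj g (0 : Mt N) = 0 := by simp [Adj]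

lemma Adj_one (M : Mt N) : Adj (1 : SU N) M = M := by simp [Adj]

omit [NeZero L] in
lemma fr_zero (P Q : SU N) (φ : Ph N L) (y : Tor L) : fr P Q φ y 0 = 0 := by simp [fr]

lemma pr_sub (A B : Mt N) : pr (A - B) = pr A - pr B := by
  unfold pr
  rw [Matrix.conjTranspose_sub, show A - B - (Aᴴ - Bᴴ) = (A - Aᴴ) - (B - Bᴴ) by abel,
    Matrix.trace_sub, smul_sub, mul_sub, sub_div, sub_smul]
  abel

lemma norm_mul_su (A : Mt N) (g : SU N) : ‖A * (g : Mt N)‖ ≤ ‖A‖ * Real.sqrt N := by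
  rw [← norm_su N g]
  exact norm_mul_le _ _

lemma Adj_near (g : SU N) (A : Mt N) :
    ‖Adj g A - A‖ ≤ 2 * Real.sqrt N * ‖(g : Mt N) - 1‖ * ‖A‖ := by
  have h1 : Adj g A - A = (((g : Mt N) - 1) * A - A * ((g : Mt N) - 1)) * ((g⁻¹ : SU N) : Mt N) := by
    unfold Adj
    have h2 := su_mul_inv g
    have h3 : ((g : Mt N) - 1) * A - A * ((g : Mt N) - 1) = (g : Mt N) * A - A * (g : Mt N) := by
      rw [sub_mul, one_mul, mul_sub, mul_one]
      abel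
    rw [h3, sub_mul, Matrix.mul_assoc A, h2, mul_one]
  rw [h1]
  refine (norm_mul_su _ _).trans ?_
  have h3 : ‖((g : Mt N) - 1) * A - A * ((g : Mt N) - 1)‖ ≤ 2 * (‖(g : Mt N) - 1‖ * ‖A‖) := by
    refine (norm_sub_le _ _).trans ?_
    have h4 := norm_mul_le ((g : Mt N) - 1) A
    have h5 := norm_mul_le A ((g : Mt N) - 1)
    linarith
  have h6 := Real.sqrt_nonneg (N : ℝ)
  nlinarith

lemma sqrt_dst (φ ψ : Ph N L) (s : ℝ) (hs : 0 ≤ s)
    (h : ∀ y j, ‖(φ y j : Mt N) - (ψ y j : Mt N)‖ ≤ s) :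
    Real.sqrt (dst φ ψ) ≤ Real.sqrt (Fintype.card (Tor L) * 2) * s := by
  have h1 : dst φ ψ ≤ (Fintype.card (Tor L) * 2) * s ^ 2 := by
    unfold dst
    calc ∑ y : Tor L, ∑ j : Fin 2, ‖(φ y j : Mt N) - (ψ y j : Mt N)‖ ^ 2
        ≤ ∑ y : Tor L, ∑ j : Fin 2, s ^ 2 :=
          Finset.sum_le_sum fun y _ => Finset.sum_le_sum fun j _ =>
            pow_le_pow_left₀ (norm_nonneg _) (h y j) 2
      _ = (Fintype.card (Tor L) * 2) * s ^ 2 := by
          simp only [Finset.sum_const, Finset.card_univ, Fintype.card_fin, nsmul_eq_mul]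
          push_cast
          ring
  refine (Real.sqrt_le_sqrt h1).trans ?_
  rw [Real.sqrt_mul (by positivity), Real.sqrt_sq hs]

/-- the exponential is near `1` -/
lemma E_near {E : Mt N → SU N} {C₀ : ℝ}
    (hE : ∀ M : Mt N, ‖(E M : Mt N) - 1 - pr M‖ ≤ C₀ * ‖M‖ ^ 2)
    (hpr : ∀ M : Mt N, ‖pr M‖ ≤ ‖M‖) {C ρ : ℝ} (hρ : 0 ≤ ρ) (hρ1 : ρ ≤ 1) (M : Mt N)
    (hM : ‖M‖ ≤ C * ρ) : ‖(E M : Mt N) - 1‖ ≤ (C + |C₀| * C ^ 2) * ρ := by
  have h1 : ‖(E M : Mt N) - 1‖ ≤ ‖(E M : Mt N) - 1 - pr M‖ + ‖pr M‖ := by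
    have := norm_add_le ((E M : Mt N) - 1 - pr M) (pr M)
    rwa [sub_add_cancel] at this
  have h2 := hE M
  have h3 := hpr M
  have h4 : ‖M‖ ^ 2 ≤ (C * ρ) ^ 2 := pow_le_pow_left₀ (norm_nonneg _) hM 2
  have h5 : C₀ * ‖M‖ ^ 2 ≤ |C₀| * (C * ρ) ^ 2 :=
    mul_le_mul (le_abs_self _) h4 (by positivity) (abs_nonneg _)
  have h6 : |C₀| * (C * ρ) ^ 2 ≤ |C₀| * C ^ 2 * ρ := by
    have h7 : ρ ^ 2 ≤ ρ := by nlinarith
    have h8 : 0 ≤ |C₀| * C ^ 2 := by positivity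
    nlinarith
  nlinarith

lemma E_step {E : Mt N → SU N} {C₀ : ℝ}
    (hE : ∀ M : Mt N, ‖(E M : Mt N) - 1 - pr M‖ ≤ C₀ * ‖M‖ ^ 2)
    (hpr : ∀ M : Mt N, ‖pr M‖ ≤ ‖M‖) {C C' ρ : ℝ} (M H : Mt N)
    (hH : pr H = H) (hM : ‖M‖ ≤ C * ρ) (hMH : ‖M - H‖ ≤ C' * ρ ^ 2) :
    ‖(E M : Mt N) - (1 + H)‖ ≤ (|C₀| * C ^ 2 + C') * ρ ^ 2 := by
  have h1 : (E M : Mt N) - (1 + H) = ((E M : Mt N) - 1 - pr M) + pr (M - H) := by
    rw [pr_sub, hH]
    abel
  have h2 := hE M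
  have h3 := hpr (M - H)
  have h4 : ‖M‖ ^ 2 ≤ (C * ρ) ^ 2 := pow_le_pow_left₀ (norm_nonneg _) hM 2
  have h5 : C₀ * ‖M‖ ^ 2 ≤ |C₀| * (C * ρ) ^ 2 :=
    mul_le_mul (le_abs_self _) h4 (by positivity) (abs_nonneg _)
  rw [h1]
  refine (norm_add_le _ _).trans ?_
  nlinarith

lemma coe_mul' (g x : SU N) : ((g * x : SU N) : Mt N) = (g : Mt N) * (x : Mt N) := rfl

end PkgK

open PkgK in
theorem pK (hE1 : S_E1) (hE3 : S_E3) (hE4 : S_E4) : S_K := by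
  intro N k L _ hN hk P Q hPQ E C₀ hEc hE0 hE
  obtain ⟨C, hC, hC1, hC2, -⟩ := hE3 N L hN P Q
  obtain ⟨-, hpr, -, hprn, hAdj, -, -⟩ := hE4 N hN
  set K : ℝ := Real.sqrt (Fintype.card (Tor L) * 2) with hK
  set n : ℝ := Real.sqrt N with hn
  have hK0 : 0 ≤ K := Real.sqrt_nonneg _
  have hn0 : 0 ≤ n := Real.sqrt_nonneg _
  set C₁ : ℝ := C + |C₀| * C ^ 2 with hC₁
  have hC₁0 : 0 ≤ C₁ := by positivity
  set C₄ : ℝ := C₁ * n + 1 with hC₄
  have hC₄0 : 0 ≤ C₄ := by positivity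
  set Cz : ℝ := (|C₀| * C ^ 2 + (2 * n * C + C * K * C₄)) * n + 1 with hCz
  have hCz0 : 0 < Cz := by positivity
  -- the key estimate
  have key : ∀ (φ : Ph N L) (g : SU N) (y : Tor L) (H : Mt N) (x : SU N) (ρ : ℝ), 0 ≤ ρ →
      H ∈ su N → ‖H‖ ≤ ρ →
      (∀ y j, ‖(φ y j : Mt N) - (vac P Q y j : Mt N)‖ ≤ C₄ * ρ) → ‖(g : Mt N) - 1‖ ≤ ρ →
      ‖((E (Adj g (fr P Q φ y H)) * x : SU N) : Mt N) - (1 + H) * (x : Mt N)‖ ≤ Cz * ρ ^ 2 := by
    intro φ g y H x ρ hρ hH hHρ hφ hg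
    have hF : ‖fr P Q φ y H‖ ≤ C * ρ :=
      (hC2 φ y H).trans (mul_le_mul_of_nonneg_left hHρ hC.le)
    have hM : ‖Adj g (fr P Q φ y H)‖ ≤ C * ρ := by rw [hAdj]; exact hF
    have h1 : ‖Adj g (fr P Q φ y H) - fr P Q φ y H‖ ≤ 2 * n * C * ρ ^ 2 := by
      refine (Adj_near g _).trans ?_
      have h2 : ‖(g : Mt N) - 1‖ * ‖fr P Q φ y H‖ ≤ ρ * (C * ρ) :=
        mul_le_mul hg hF (norm_nonneg _) hρ
      have h3 : 2 * n * (‖(g : Mt N) - 1‖ * ‖fr P Q φ y H‖) ≤ 2 * n * (ρ * (C * ρ)) :=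
        mul_le_mul_of_nonneg_left h2 (by positivity)
      calc 2 * n * ‖(g : Mt N) - 1‖ * ‖fr P Q φ y H‖
          = 2 * n * (‖(g : Mt N) - 1‖ * ‖fr P Q φ y H‖) := by ring
        _ ≤ 2 * n * (ρ * (C * ρ)) := h3
        _ = 2 * n * C * ρ ^ 2 := by ring
    have h4 : ‖fr P Q φ y H - H‖ ≤ C * K * C₄ * ρ ^ 2 := by
      have h5 := hC1 φ (vac P Q) y H
      rw [hE1 N k L hN hk P Q hPQ y H] at h5
      have h6 := sqrt_dst φ (vac P Q) (C₄ * ρ) (by positivity) hφ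
      refine h5.trans ?_
      calc C * Real.sqrt (dst φ (vac P Q)) * ‖H‖ ≤ C * (K * (C₄ * ρ)) * ρ :=
            mul_le_mul (mul_le_mul_of_nonneg_left h6 hC.le) hHρ (norm_nonneg _) (by positivity)
        _ = C * K * C₄ * ρ ^ 2 := by ring
    have h7 : ‖Adj g (fr P Q φ y H) - H‖ ≤ (2 * n * C + C * K * C₄) * ρ ^ 2 := by
      have h8 : Adj g (fr P Q φ y H) - H =
          (Adj g (fr P Q φ y H) - fr P Q φ y H) + (fr P Q φ y H - H) := by abel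
      rw [h8]
      refine (norm_add_le _ _).trans ?_
      nlinarith
    have h9 := E_step hE hprn _ H (hpr H hH) hM h7
    rw [coe_mul', ← sub_mul]
    refine (norm_mul_su _ _).trans ?_
    have h10 := mul_le_mul_of_nonneg_right h9 hn0
    refine h10.trans ?_
    rw [hCz]
    nlinarith [sq_nonneg ρ]
  refine ⟨Cz, hCz0, ?_⟩
  intro h ρ X hρ hρ1 hh
  -- the torus links do not move much
  have near1 : ∀ (Y : Cf N L) (l : Lk L), ‖(cT P Q E h l Y : Mt N) - 1‖ ≤ C₁ * ρ := by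
    intro Y l
    refine E_near hE hprn hρ hρ1 _ ?_
    rw [hAdj]
    exact (hC2 _ _ _).trans (mul_le_mul_of_nonneg_left (hh l).2 hC.le)
  have near2 : ∀ (Y : Cf N L) (l : Lk L) (x : SU N),
      ‖((cT P Q E h l Y * x : SU N) : Mt N) - (x : Mt N)‖ ≤ C₁ * ρ * n := by
    intro Y l x
    have h1 : ((cT P Q E h l Y * x : SU N) : Mt N) - (x : Mt N) =
        ((cT P Q E h l Y : Mt N) - 1) * (x : Mt N) := by
      rw [coe_mul', sub_mul, one_mul]
    rw [h1]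
    exact (norm_mul_su _ _).trans (mul_le_mul_of_nonneg_right (near1 Y l) hn0)
  set S1 : Cf N L := stg (Jev L) (cT P Q E h) X with hS1
  set S2 : Cf N L := stg (Jod L) (cT P Q E h) S1 with hS2
  have hTM : TM P Q E h X = stg (Jpl L) (cU P Q E h) S2 := rfl
  have s1in : ∀ l, l ∈ Jev L → S1 l = cT P Q E h l X * X l := fun l hl => by
    rw [hS1, stg, if_pos hl]
  have s1out : ∀ l, l ∉ Jev L → S1 l = X l := fun l hl => by rw [hS1, stg, if_neg hl]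
  have s2in : ∀ l, l ∈ Jod L → S2 l = cT P Q E h l S1 * S1 l := fun l hl => by
    rw [hS2, stg, if_pos hl]
  have s2out : ∀ l, l ∉ Jod L → S2 l = S1 l := fun l hl => by rw [hS2, stg, if_neg hl]
  have s3in : ∀ l, l ∈ Jpl L → TM P Q E h X l = cU P Q E h l S2 * S2 l := fun l hl => by
    rw [hTM, stg, if_pos hl]
  have s3out : ∀ l, l ∉ Jpl L → TM P Q E h X l = S2 l := fun l hl => by rw [hTM, stg, if_neg hl]
  have jeo : ∀ l : Lk L, l ∈ Jod L → l ∉ Jev L := fun l h1 h2 => h1.2 h2.2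
  have jep : ∀ l : Lk L, l ∈ Jpl L → l ∉ Jev L := by
    rintro l (h1 | h1) ⟨h2 | h2, -⟩ <;> rw [h1] at h2 <;> revert h2 <;> decide
  have jop : ∀ l : Lk L, l ∈ Jpl L → l ∉ Jod L := by
    rintro l (h1 | h1) ⟨h2 | h2, -⟩ <;> rw [h1] at h2 <;> revert h2 <;> decide
  have hpos : (0 : ℝ) ≤ C₁ * ρ * n := by positivity
  have n1 : ∀ l, ‖(S1 l : Mt N) - (X l : Mt N)‖ ≤ C₁ * ρ * n := by
    intro l
    by_cases hl : l ∈ Jev L
    · rw [s1in l hl]
      exact near2 _ _ _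
    · rw [s1out l hl, sub_self, norm_zero]
      exact hpos
  have n2 : ∀ l, ‖(S2 l : Mt N) - (X l : Mt N)‖ ≤ C₁ * ρ * n := by
    intro l
    by_cases hl : l ∈ Jod L
    · rw [s2in l hl, s1out l (jeo l hl)]
      exact near2 _ _ _
    · rw [s2out l hl]
      exact n1 l
  have ptn : ∀ (Y : Cf N L) (x : Pl), (∀ l, ‖(Y l : Mt N) - (X l : Mt N)‖ ≤ C₁ * ρ * n) →
      (∀ y j, ‖(pt X x y j : Mt N) - (vac P Q y j : Mt N)‖ ≤ ρ) →
      ∀ y j, ‖(pt Y x y j : Mt N) - (vac P Q y j : Mt N)‖ ≤ C₄ * ρ := by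
    intro Y x hY hX y j
    have h1 : (pt Y x y j : Mt N) - (vac P Q y j : Mt N) =
        ((pt Y x y j : Mt N) - (pt X x y j : Mt N)) +
          ((pt X x y j : Mt N) - (vac P Q y j : Mt N)) := by abel
    rw [h1]
    refine (norm_add_le _ _).trans ?_
    have h2 := hY ((x, y), if j = 0 then 2 else 3)
    have h3 := hX y j
    have h4 : ‖(pt Y x y j : Mt N) - (pt X x y j : Mt N)‖ ≤ C₁ * ρ * n := h2
    rw [hC₄]
    nlinarith
  have zc : ∀ (Y : Cf N L) (l : Lk L), h l = 0 → cT P Q E h l Y = 1 := by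
    intro Y l hl
    rw [cT, hl, fr_zero, Adj_zero, hE0]
  have zu : ∀ (Y : Cf N L) (l : Lk L), h l = 0 → cU P Q E h l Y = 1 := by
    intro Y l hl
    rw [cU, hl, fr_zero, hE0]
  refine ⟨?_, ?_⟩
  · intro l hl
    have e1 : S1 l = X l := by
      by_cases h1 : l ∈ Jev L
      · rw [s1in l h1, zc X l hl, one_mul]
      · exact s1out l h1
    have e2 : S2 l = X l := by
      by_cases h1 : l ∈ Jod L
      · rw [s2in l h1, zc S1 l hl, one_mul, e1]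
      · rw [s2out l h1, e1]
    by_cases h1 : l ∈ Jpl L
    · rw [s3in l h1, zu S2 l hl, one_mul, e2]
    · rw [s3out l h1, e2]
  · intro l hx ht
    by_cases hp : l ∈ Jpl L
    · -- plane links
      have e2 : S2 l = X l := by rw [s2out l (jop l hp), s1out l (jep l hp)]
      rw [s3in l hp, e2, cU]
      have h1 := key (pt S2 l.1.1) 1 l.1.2 (h l) (X l) ρ hρ (hh l).1 (hh l).2
        (ptn S2 l.1.1 n2 hx) (by
          have : ((1 : SU N) : Mt N) - 1 = 0 := sub_self _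
          rw [this, norm_zero]; exact hρ)
      rwa [Adj_one] at h1
    · rw [s3out l hp]
      have ht2 : l.2 = 2 ∨ l.2 = 3 := by
        by_contra hcon
        apply hp
        show l.2 = 0 ∨ l.2 = 1
        have : ∀ i : Fin 4, ¬ (i = 2 ∨ i = 3) → i = 0 ∨ i = 1 := by decide
        exact this _ hcon
      obtain ⟨hg, hx1⟩ := ht ht2
      have hno : ((l.1, 0) : Lk L) ∉ Jev L := by
        apply jep
        exact Or.inl rfl
      by_cases hev : Even l.1.1.1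
      · have hl : l ∈ Jev L := ⟨ht2, hev⟩
        have hl2 : l ∉ Jod L := fun h1 => h1.2 hev
        rw [s2out l hl2, s1in l hl, cT]
        refine key _ _ _ _ _ ρ hρ (hh l).1 (hh l).2 ?_ hg
        refine ptn X _ (fun l => ?_) hx1
        rw [sub_self, norm_zero]
        exact hpos
      · have hl : l ∈ Jod L := ⟨ht2, hev⟩
        rw [s2in l hl, s1out l (jeo l hl), cT]
        refine key _ _ _ _ _ ρ hρ (hh l).1 (hh l).2 (ptn S1 _ n1 hx1) ?_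
        rw [s1out _ hno]
        exact hg

end T2H02.TT
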