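import Pool.Agent.T2H02.TT.StmU
import Pool.Agent.T2H02.TT.K

/-!
# Package Ku: the change of variables near the vacuum, constants polynomial in `L`
-/

set_option autoImplicit false

noncomputable section

open MeasureTheory Matrix
open scoped Matrix.Norms.Frobenius

namespace T2H02.TT

open PkgK in
theorem pKu (hE1 : S_E1) (hE3 : S_E3u) (hE4 : S_E4) : S_Ku := by
  intro N k hN hk P Q hPQ E C₀ hEc hE0 hE
  obtain ⟨C, hC1', hCL⟩ := hE3 N hN P Q
  have hC : 0 < C := lt_of_lt_of_le one_pos hC1'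
  obtain ⟨-, hpr, -, hprn, hAdj, -, -⟩ := hE4 N hN
  set n : ℝ := Real.sqrt N with hn
  have hn0 : 0 ≤ n := Real.sqrt_nonneg _
  set C₁ : ℝ := C + |C₀| * C ^ 2 with hC₁
  have hC₁0 : 0 ≤ C₁ := by positivity
  set C₄ : ℝ := C₁ * n + 1 with hC₄
  have hC₄0 : 0 ≤ C₄ := by positivity
  set Cz : ℝ := (|C₀| * C ^ 2 + (2 * n * C + 2 * C * C₄)) * n + 1 with hCz
  have hCz0 : 0 < Cz := by positivity
  refine ⟨Cz, 2, le_add_of_nonneg_left (by positivity), ?_⟩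
  intro L _
  obtain ⟨hC1, hC2⟩ := hCL L
  have hL1 : (1 : ℝ) ≤ L := by exact_mod_cast NeZero.one_le
  have hL2 : (1 : ℝ) ≤ (L : ℝ) ^ 2 := one_le_pow₀ hL1
  set K : ℝ := Real.sqrt (Fintype.card (Tor L) * 2) with hK
  have hK0 : 0 ≤ K := Real.sqrt_nonneg _
  have hKL : K ≤ 2 * L := by
    rw [hK]
    apply Real.sqrt_le_iff.2
    constructor
    · positivity
    · rw [Fintype.card_prod, ZMod.card]
      push_cast
      nlinarith
  -- the key estimate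
  have key : ∀ (φ : Ph N L) (g : SU N) (y : Tor L) (H : Mt N) (x : SU N) (ρ : ℝ), 0 ≤ ρ →
      H ∈ su N → ‖H‖ ≤ ρ →
      (∀ y j, ‖(φ y j : Mt N) - (vac P Q y j : Mt N)‖ ≤ C₄ * ρ) → ‖(g : Mt N) - 1‖ ≤ ρ →
      ‖((E (Adj g (fr P Q φ y H)) * x : SU N) : Mt N) - (1 + H) * (x : Mt N)‖ ≤ Cz * (L : ℝ) ^ 2 * ρ ^ 2 := by
    intro φ g y H x ρ hρ hH hHρ hφ hg
    have hF : ‖fr P Q φ y H‖ ≤ C * ρ :=
      (hC2 φ y H).trans (mul_le_mul_of_nonneg_left hHρ hC.le)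
    have hM : ‖Adj g (fr P Q φ y H)‖ ≤ C * ρ := by rw [hAdj]; exact hF
    have h1 : ‖Adj g (fr P Q φ y H) - fr P Q φ y H‖ ≤ 2 * n * C * ρ ^ 2 := by
      refine (Adj_near g _).trans ?_
      have h2 : ‖(g : Mt N) - 1‖ * ‖fr P Q φ y H‖ ≤ ρ * (C * ρ) :=
        mul_le_mul hg hF (norm_nonneg _) hρ
      have h3 : 2 * n * (‖(g : Mt N) - 1‖ * ‖fr P Q φ y H‖) ≤ 2 * n * (ρ * (C * ρ)) :=
        mul_le_mul_of_nonneg_left h2 (by positivity)
      calc 2 * n * ‖(g : Mt N) - 1‖ * ‖fr P Q φ y H‖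
          = 2 * n * (‖(g : Mt N) - 1‖ * ‖fr P Q φ y H‖) := by ring
        _ ≤ 2 * n * (ρ * (C * ρ)) := h3
        _ = 2 * n * C * ρ ^ 2 := by ring
    have h4 : ‖fr P Q φ y H - H‖ ≤ 2 * C * C₄ * (L : ℝ) ^ 2 * ρ ^ 2 := by
      have h5 := hC1 φ (vac P Q) y H
      rw [hE1 N k L hN hk P Q hPQ y H] at h5
      have h6 := sqrt_dst φ (vac P Q) (C₄ * ρ) (by positivity) hφ
      have h6' : Real.sqrt (dst φ (vac P Q)) ≤ 2 * L * (C₄ * ρ) :=
        h6.trans (mul_le_mul_of_nonneg_right hKL (by positivity))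
      refine h5.trans ?_
      calc C * L * Real.sqrt (dst φ (vac P Q)) * ‖H‖ ≤ C * L * (2 * L * (C₄ * ρ)) * ρ :=
            mul_le_mul (mul_le_mul_of_nonneg_left h6' (by positivity)) hHρ (norm_nonneg _) (by positivity)
        _ = 2 * C * C₄ * (L : ℝ) ^ 2 * ρ ^ 2 := by ring
    have h7 : ‖Adj g (fr P Q φ y H) - H‖ ≤ (2 * n * C + 2 * C * C₄ * (L : ℝ) ^ 2) * ρ ^ 2 := by
      have h8 : Adj g (fr P Q φ y H) - H =
          (Adj g (fr P Q φ y H) - fr P Q φ y H) + (fr P Q φ y H - H) := by abel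
      rw [h8]
      refine (norm_add_le _ _).trans ?_
      nlinarith
    have h9 := E_step hE hprn _ H (hpr H hH) hM h7
    rw [coe_mul', ← sub_mul]
    refine (norm_mul_su _ _).trans ?_
    have h10 := mul_le_mul_of_nonneg_right h9 hn0
    refine h10.trans ?_
    have h11 : |C₀| * C ^ 2 + (2 * n * C + 2 * C * C₄ * (L : ℝ) ^ 2) ≤
        (|C₀| * C ^ 2 + (2 * n * C + 2 * C * C₄)) * (L : ℝ) ^ 2 := by
      have h12 : 0 ≤ |C₀| * C ^ 2 + 2 * n * C := by positivity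
      nlinarith
    calc (|C₀| * C ^ 2 + (2 * n * C + 2 * C * C₄ * (L : ℝ) ^ 2)) * ρ ^ 2 * n
        ≤ (|C₀| * C ^ 2 + (2 * n * C + 2 * C * C₄)) * (L : ℝ) ^ 2 * ρ ^ 2 * n := by gcongr
      _ ≤ (|C₀| * C ^ 2 + (2 * n * C + 2 * C * C₄)) * (L : ℝ) ^ 2 * ρ ^ 2 * n +
          (L : ℝ) ^ 2 * ρ ^ 2 := le_add_of_nonneg_right (by positivity)
      _ = Cz * (L : ℝ) ^ 2 * ρ ^ 2 := by rw [hCz]; ring
  intro h ρ X hρ hρ1 hh
  -- the torus links do not move much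
  have near1 : ∀ (Y : Cf N L) (l : Lk L), ‖(cT P Q E h l Y : Mt N) - 1‖ ≤ C₁ * ρ := by
    intro Y l
    refine E_near hE hprn hρ hρ1 _ ?_
    rw [hAdj]
    exact (hC2 _ _ _).trans (mul_le_mul_of_nonneg_left (hh l).2 hC.le)
  have near2 : ∀ (Y : Cf N L) (l : Lk L) (x : SU N),
      ‖((cT P Q E h l Y * x : SU N) : Mt N) - (x : Mt N)‖ ≤ C₁ * ρ * n := by
    intro Y l x
    have h1 : ((cT P Q E h l Y * x : SU N) : Mt N) - (x : Mt N) =
        ((cT P Q E h l Y : Mt N) - 1) * (x : Mt N) := by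
      rw [coe_mul', sub_mul, one_mul]
    rw [h1]
    exact (norm_mul_su _ _).trans (mul_le_mul_of_nonneg_right (near1 Y l) hn0)
  set S1 : Cf N L := stg (Jev L) (cT P Q E h) X with hS1
  set S2 : Cf N L := stg (Jod L) (cT P Q E h) S1 with hS2
  have hTM : TM P Q E h X = stg (Jpl L) (cU P Q E h) S2 := rfl
  have s1in : ∀ l, l ∈ Jev L → S1 l = cT P Q E h l X * X l := fun l hl => by
    rw [hS1, stg, if_pos hl]
  have s1out : ∀ l, l ∉ Jev L → S1 l = X l := fun l hl => by rw [hS1, stg, if_neg hl]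
  have s2in : ∀ l, l ∈ Jod L → S2 l = cT P Q E h l S1 * S1 l := fun l hl => by
    rw [hS2, stg, if_pos hl]
  have s2out : ∀ l, l ∉ Jod L → S2 l = S1 l := fun l hl => by rw [hS2, stg, if_neg hl]
  have s3in : ∀ l, l ∈ Jpl L → TM P Q E h X l = cU P Q E h l S2 * S2 l := fun l hl => by
    rw [hTM, stg, if_pos hl]
  have s3out : ∀ l, l ∉ Jpl L → TM P Q E h X l = S2 l := fun l hl => by rw [hTM, stg, if_neg hl]
  have jeo : ∀ l : Lk L, l ∈ Jod L → l ∉ Jev L := fun l h1 h2 => h1.2 h2.2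
  have jep : ∀ l : Lk L, l ∈ Jpl L → l ∉ Jev L := by
    rintro l (h1 | h1) ⟨h2 | h2, -⟩ <;> rw [h1] at h2 <;> revert h2 <;> decide
  have jop : ∀ l : Lk L, l ∈ Jpl L → l ∉ Jod L := by
    rintro l (h1 | h1) ⟨h2 | h2, -⟩ <;> rw [h1] at h2 <;> revert h2 <;> decide
  have hpos : (0 : ℝ) ≤ C₁ * ρ * n := by positivity
  have n1 : ∀ l, ‖(S1 l : Mt N) - (X l : Mt N)‖ ≤ C₁ * ρ * n := by
    intro l
    by_cases hl : l ∈ Jev L
    · rw [s1in l hl]
      exact near2 _ _ _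
    · rw [s1out l hl, sub_self, norm_zero]
      exact hpos
  have n2 : ∀ l, ‖(S2 l : Mt N) - (X l : Mt N)‖ ≤ C₁ * ρ * n := by
    intro l
    by_cases hl : l ∈ Jod L
    · rw [s2in l hl, s1out l (jeo l hl)]
      exact near2 _ _ _
    · rw [s2out l hl]
      exact n1 l
  have ptn : ∀ (Y : Cf N L) (x : Pl), (∀ l, ‖(Y l : Mt N) - (X l : Mt N)‖ ≤ C₁ * ρ * n) →
      (∀ y j, ‖(pt X x y j : Mt N) - (vac P Q y j : Mt N)‖ ≤ ρ) →
      ∀ y j, ‖(pt Y x y j : Mt N) - (vac P Q y j : Mt N)‖ ≤ C₄ * ρ := by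
    intro Y x hY hX y j
    have h1 : (pt Y x y j : Mt N) - (vac P Q y j : Mt N) =
        ((pt Y x y j : Mt N) - (pt X x y j : Mt N)) +
          ((pt X x y j : Mt N) - (vac P Q y j : Mt N)) := by abel
    rw [h1]
    refine (norm_add_le _ _).trans ?_
    have h2 := hY ((x, y), if j = 0 then 2 else 3)
    have h3 := hX y j
    have h4 : ‖(pt Y x y j : Mt N) - (pt X x y j : Mt N)‖ ≤ C₁ * ρ * n := h2
    rw [hC₄]
    nlinarith
  have zc : ∀ (Y : Cf N L) (l : Lk L), h l = 0 → cT P Q E h l Y = 1 := by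
    intro Y l hl
    rw [cT, hl, fr_zero, Adj_zero, hE0]
  have zu : ∀ (Y : Cf N L) (l : Lk L), h l = 0 → cU P Q E h l Y = 1 := by
    intro Y l hl
    rw [cU, hl, fr_zero, hE0]
  refine ⟨?_, ?_⟩
  · intro l hl
    have e1 : S1 l = X l := by
      by_cases h1 : l ∈ Jev L
      · rw [s1in l h1, zc X l hl, one_mul]
      · exact s1out l h1
    have e2 : S2 l = X l := by
      by_cases h1 : l ∈ Jod L
      · rw [s2in l h1, zc S1 l hl, one_mul, e1]
      · rw [s2out l h1, e1]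
    by_cases h1 : l ∈ Jpl L
    · rw [s3in l h1, zu S2 l hl, one_mul, e2]
    · rw [s3out l h1, e2]
  · intro l hx ht
    by_cases hp : l ∈ Jpl L
    · -- plane links
      have e2 : S2 l = X l := by rw [s2out l (jop l hp), s1out l (jep l hp)]
      rw [s3in l hp, e2, cU]
      have h1 := key (pt S2 l.1.1) 1 l.1.2 (h l) (X l) ρ hρ (hh l).1 (hh l).2
        (ptn S2 l.1.1 n2 hx) (by
          have : ((1 : SU N) : Mt N) - 1 = 0 := sub_self _
          rw [this, norm_zero]; exact hρ)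
      rwa [Adj_one] at h1
    · rw [s3out l hp]
      have ht2 : l.2 = 2 ∨ l.2 = 3 := by
        by_contra hcon
        apply hp
        show l.2 = 0 ∨ l.2 = 1
        have : ∀ i : Fin 4, ¬ (i = 2 ∨ i = 3) → i = 0 ∨ i = 1 := by decide
        exact this _ hcon
      obtain ⟨hg, hx1⟩ := ht ht2
      have hno : ((l.1, 0) : Lk L) ∉ Jev L := by
        apply jep
        exact Or.inl rfl
      by_cases hev : Even l.1.1.1
      · have hl : l ∈ Jev L := ⟨ht2, hev⟩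
        have hl2 : l ∉ Jod L := fun h1 => h1.2 hev
        rw [s2out l hl2, s1in l hl, cT]
        refine key _ _ _ _ _ ρ hρ (hh l).1 (hh l).2 ?_ hg
        refine ptn X _ (fun l => ?_) hx1
        rw [sub_self, norm_zero]
        exact hpos
      · have hl : l ∈ Jod L := ⟨ht2, hev⟩
        rw [s2in l hl, s1out l (jeo l hl), cT]
        refine key _ _ _ _ _ ρ hρ (hh l).1 (hh l).2 (ptn S1 _ n1 hx1) ?_
        rw [s1out _ hno]
        exact hg

end T2H02.TT
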