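import Pool.Agent.T2H02.TT.StmU
import Pool.Agent.T2H02.TT.LL

/-!
# Package LLu : expansions near the vacuum, constants polynomial in `L` (helper13)
-/

set_option autoImplicit false
set_option linter.unusedSectionVars false
set_option linter.unusedVariables false

noncomputable section

open MeasureTheory Matrix
open scoped Matrix.Norms.Frobenius

namespace T2H02.TT.PkgLLu

open T2H02.TT T2H02.TT.PkgD T2H02.TT.PkgLL

theorem L1u (hB0 : S_B0) : S_L1u := by
  intro N k hN hk P Q hPQ
  refine ⟨240, 2, by norm_num, ?_⟩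
  intro L _
  have hvac : VV k (vac P Q : Ph N L) = 0 := hB0 N k L hN hk P Q hPQ
  have hL : (1 : ℝ) ≤ (L : ℝ) ^ 2 := by
    have : (1 : ℝ) ≤ L := by exact_mod_cast Nat.one_le_iff_ne_zero.2 (NeZero.ne L)
    nlinarith
  intro τ X a ρ h0 h1 hl
  obtain ⟨x, i⟩ := τ
  have hρ : 0 ≤ ρ ^ 3 := by positivity
  have two : ∀ u v u' v' c : ℝ, |u / 2 - u' / 2| ≤ c → |v / 2 - v' / 2| ≤ c →
      |(u / 2 + v / 2) - (u' + v') / 2| ≤ 2 * c := by
    intro u v u' v' c hu hv
    rw [abs_le] at hu hv ⊢
    constructor <;> linarith [hu.1, hu.2, hv.1, hv.2]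
  fin_cases i
  · change |eV k X x - bf P Q (x, 0) a a / 2| ≤ _
    have e : bf P Q (x, 0) a a / 2 = ∑ y : Tor L, ip (cu P Q a (x, y) 2 3) (cu P Q a (x, y) 2 3) / 2 := by
      unfold bf
      rw [Finset.sum_div]
      rfl
    rw [e]
    unfold eV
    refine (sum_est _ _ fun y => plq_est P Q X a _ (x, y) 2 3 (flat23 hvac x y) h0 h1
      fun l hl' => hl l (lk0 x y l hl')).trans ?_
    nlinarith
  · change |eK X x 0 - bf P Q (x, 1) a a / 2| ≤ _
    have e : bf P Q (x, 1) a a / 2 = ∑ y : Tor L, (ip (cu P Q a (x, y) 0 2) (cu P Q a (x, y) 0 2) +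
        ip (cu P Q a (x, y) 0 3) (cu P Q a (x, y) 0 3)) / 2 := by
      unfold bf
      rw [Finset.sum_div]
      rfl
    rw [e]
    unfold eK
    refine (sum_est _ _ fun y => two _ _ _ _ _ (plq_est P Q X a 1 (x, y) 0 2 (flat02 P Q x y) h0 h1
      fun l hl' => hl l (lk1a x y l hl')) (plq_est P Q X a 1 (x, y) 0 3 (flat03 P Q x y) h0 h1
      fun l hl' => hl l (lk1b x y l hl'))).trans ?_
    nlinarith
  · change |eK X x 1 - bf P Q (x, 2) a a / 2| ≤ _
    have e : bf P Q (x, 2) a a / 2 = ∑ y : Tor L, (ip (cu P Q a (x, y) 1 2) (cu P Q a (x, y) 1 2) +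
        ip (cu P Q a (x, y) 1 3) (cu P Q a (x, y) 1 3)) / 2 := by
      unfold bf
      rw [Finset.sum_div]
      rfl
    rw [e]
    unfold eK
    refine (sum_est _ _ fun y => two _ _ _ _ _ (plq_est P Q X a 1 (x, y) 1 2 (flat12 P Q x y) h0 h1
      fun l hl' => hl l (lk2a x y l hl')) (plq_est P Q X a 1 (x, y) 1 3 (flat13 P Q x y) h0 h1
      fun l hl' => hl l (lk2b x y l hl'))).trans ?_
    nlinarith
  · change |eP X 1 x - bf P Q (x, 3) a a / 2| ≤ _
    have e : bf P Q (x, 3) a a / 2 = ∑ y : Tor L, ip (cu P Q a (x, y) 0 1) (cu P Q a (x, y) 0 1) / 2 := by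
      unfold bf
      rw [Finset.sum_div]
      rfl
    rw [e]
    unfold eP
    refine (sum_est _ _ fun y => plq_est P Q X a _ (x, y) 0 1 (flat01 P Q x y) h0 h1
      fun l hl' => hl l (lk3 x y l hl')).trans ?_
    nlinarith

theorem L3u : S_L3u := by
  intro N hN P Q
  have hN'' : (2 : ℝ) ≤ N := by exact_mod_cast hN
  refine ⟨32 * N, 2, by linarith, ?_⟩
  intro L _
  have hL : (1 : ℝ) ≤ (L : ℝ) ^ 2 := by
    have : (1 : ℝ) ≤ L := by exact_mod_cast Nat.one_le_iff_ne_zero.2 (NeZero.ne L)
    nlinarith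
  have hN' : (2 : ℝ) ≤ N := by exact_mod_cast hN
  have hNL : (1 : ℝ) ≤ N * (L : ℝ) ^ 2 := by nlinarith
  · intro τ a b r s hr hs h
    obtain ⟨x, i⟩ := τ
    have hrs : 0 ≤ r * s := mul_nonneg hr hs
    have hc : 0 ≤ (L : ℝ) ^ 2 * (16 * N * (r * s)) := by positivity
    fin_cases i
    · change |bf P Q (x, 0) a b| ≤ _
      rw [bf0]
      refine (sum_le' _ fun y => ip_cu P Q a b (x, y) 2 3 hr hs
        fun l hl => h l (lk0 x y l hl)).trans ?_
      nlinarith
    · change |bf P Q (x, 1) a b| ≤ _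
      rw [bf1]
      refine (sum_le' _ fun y => (abs_add_le _ _).trans (add_le_add
        (ip_cu P Q a b (x, y) 0 2 hr hs fun l hl => h l (lk1a x y l hl))
        (ip_cu P Q a b (x, y) 0 3 hr hs fun l hl => h l (lk1b x y l hl)))).trans ?_
      nlinarith
    · change |bf P Q (x, 2) a b| ≤ _
      rw [bf2]
      refine (sum_le' _ fun y => (abs_add_le _ _).trans (add_le_add
        (ip_cu P Q a b (x, y) 1 2 hr hs fun l hl => h l (lk2a x y l hl))
        (ip_cu P Q a b (x, y) 1 3 hr hs fun l hl => h l (lk2b x y l hl)))).trans ?_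
      nlinarith
    · change |bf P Q (x, 3) a b| ≤ _
      rw [bf3]
      refine (sum_le' _ fun y => ip_cu P Q a b (x, y) 0 1 hr hs
        fun l hl => h l (lk3 x y l hl)).trans ?_
      nlinarith


theorem L2u : S_L2u := by
  intro N k hN P Q
  obtain ⟨c, hc0, hc1, hc⟩ := exists_gap hN
  have hN' : (2 : ℝ) ≤ N := by exact_mod_cast hN
  have hC : (1 : ℝ) ≤ 32 / c ^ 2 := by
    rw [le_div_iff₀ (by positivity)]
    nlinarith
  refine ⟨32 / c ^ 2, hC, ?_⟩
  intro L _ τ X hX β hβ
  have hL : (1 : ℝ) ≤ (L : ℝ) ^ 2 := by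
    have : (1 : ℝ) ≤ L := by exact_mod_cast Nat.one_le_iff_ne_zero.2 (NeZero.ne L)
    nlinarith
  by_cases h3 : τ.2 = 3
  · obtain ⟨x, i⟩ := τ
    simp only at h3
    subst h3
    have hen : en1 k X (x, 3) = eP X 1 x := rfl
    have hwt : wt k β (x, 3) X = (∑ m : Fin N, Real.exp (-β * eP X (om N m) x)) / N := rfl
    rw [hen, hwt, if_pos rfl]
    set ε : ℝ := 1 / (32 / c ^ 2) with hε
    have hεc : ε = c ^ 2 / 32 := by rw [hε, one_div_div]
    have hε0 : 0 ≤ ε := by positivity
    have hlk : ∀ y : Tor L, ∀ l ∈ plk (x, y) 0 1, ‖(X l : Mt N) - 1‖ ≤ ε := by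
      intro y l hl
      have h4 := hX l (lk3 x y l hl)
      have h5 : (vc P Q l : SU N) = 1 := by
        simp only [plk, nx0, nx1, List.mem_cons, List.not_mem_nil, or_false] at hl
        rcases hl with rfl | rfl | rfl | rfl <;> simp [vc]
      rw [h5] at h4
      exact h4
    have hprod : ∀ y : Tor L, ‖(X ((x, y), 0) : Mt N) * (X (nx (x, y) 0, 1) : Mt N) - 1‖ ≤ 2 * ε ∧
        ‖(X ((x, y), 1) : Mt N) * (X (nx (x, y) 1, 0) : Mt N) - 1‖ ≤ 2 * ε := fun y =>
      ⟨prod_near _ _ (hlk y _ (by simp [plk])) (hlk y _ (by simp [plk])),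
        prod_near _ _ (hlk y _ (by simp [plk])) (hlk y _ (by simp [plk]))⟩
    have hdf1 : ∀ y : Tor L, ‖df X 1 (x, y) 0 1‖ ≤ 4 * ε := by
      intro y
      obtain ⟨h5, h6⟩ := hprod y
      have e : df X 1 (x, y) 0 1 = ((X ((x, y), 0) : Mt N) * (X (nx (x, y) 0, 1) : Mt N) - 1) -
          ((X ((x, y), 1) : Mt N) * (X (nx (x, y) 1, 0) : Mt N) - 1) := by
        unfold df
        rw [one_smul]
        abel
      rw [e]
      refine (norm_sub_le _ _).trans ?_
      linarith
    have hdfz : ∀ (y : Tor L) (m : Fin N), (m : ℕ) ≠ 0 → c - 4 * ε ≤ ‖df X (om N m) (x, y) 0 1‖ := by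
      intro y m hm
      obtain ⟨h5, h6⟩ := hprod y
      have e : (1 - om N m) • (1 : Mt N) = df X (om N m) (x, y) 0 1 -
          ((X ((x, y), 0) : Mt N) * (X (nx (x, y) 0, 1) : Mt N) - 1) +
          om N m • ((X ((x, y), 1) : Mt N) * (X (nx (x, y) 1, 0) : Mt N) - 1) := by
        unfold df
        rw [smul_sub, sub_smul, one_smul]
        abel
      have h7 : c ≤ ‖(1 - om N m) • (1 : Mt N)‖ := by
        have h8 := norm_entry' ((1 - om N m) • (1 : Mt N)) ⟨0, by omega⟩ ⟨0, by omega⟩
        rw [Matrix.smul_apply, Matrix.one_apply_eq, smul_eq_mul, mul_one] at h8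
        exact (hc m hm).trans h8
      rw [e] at h7
      have h9 := (norm_add_le (df X (om N m) (x, y) 0 1 -
          ((X ((x, y), 0) : Mt N) * (X (nx (x, y) 0, 1) : Mt N) - 1))
          (om N m • ((X ((x, y), 1) : Mt N) * (X (nx (x, y) 1, 0) : Mt N) - 1)))
      have h10 := norm_sub_le (df X (om N m) (x, y) 0 1)
        ((X ((x, y), 0) : Mt N) * (X (nx (x, y) 0, 1) : Mt N) - 1)
      rw [norm_smul, norm_om, one_mul] at h9
      linarith
    have hP1 : eP X 1 x ≤ (L : ℝ) ^ 2 * (8 * ε ^ 2) := by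
      unfold eP
      calc _ ≤ ∑ y : Tor L, 8 * ε ^ 2 := Finset.sum_le_sum fun y _ => by
            have := hdf1 y
            have h0 := norm_nonneg (df X 1 (x, y) 0 1)
            nlinarith
        _ = _ := by rw [Finset.sum_const, Finset.card_univ, nsmul_eq_mul, card_Tor]
    have hPz : ∀ m : Fin N, (m : ℕ) ≠ 0 → (L : ℝ) ^ 2 * (c ^ 2 / 8) ≤ eP X (om N m) x := by
      intro m hm
      unfold eP
      calc _ = ∑ y : Tor L, c ^ 2 / 8 := by
            rw [Finset.sum_const, Finset.card_univ, nsmul_eq_mul, card_Tor]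
        _ ≤ _ := Finset.sum_le_sum fun y _ => by
            have h5 := hdfz y m hm
            have h6 : c / 2 ≤ c - 4 * ε := by
              rw [hεc]
              nlinarith
            have h7 := h6.trans h5
            have h8 : (c / 2) ^ 2 ≤ ‖df X (om N m) (x, y) 0 1‖ ^ 2 := by gcongr
            nlinarith
    have hgap : ∀ m : Fin N, (m : ℕ) ≠ 0 → ε + eP X 1 x ≤ eP X (om N m) x := by
      intro m hm
      have h5 := hPz m hm
      have h6 : ε + (L : ℝ) ^ 2 * (8 * ε ^ 2) ≤ (L : ℝ) ^ 2 * (c ^ 2 / 8) := by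
        rw [hεc]
        have h7 : c ^ 2 ≤ 1 := by nlinarith
        have h8 : 0 < c ^ 2 := by positivity
        nlinarith [mul_nonneg (sub_nonneg.2 hL) h8.le, mul_nonneg (sub_nonneg.2 h7)
          (mul_nonneg (le_trans zero_le_one hL) h8.le)]
      linarith
    have hNpos : (0 : ℝ) < N := by linarith
    have hm0 : (⟨0, by omega⟩ : Fin N) ∈ (Finset.univ : Finset (Fin N)) := Finset.mem_univ _
    constructor
    · rw [one_div, inv_mul_eq_div]
      gcongr
      have h5 := Finset.single_le_sum (f := fun m : Fin N => Real.exp (-β * eP X (om N m) x))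
        (fun _ _ => (Real.exp_pos _).le) hm0
      simp only [om_zero] at h5
      exact h5
    · have h5 : ∑ m : Fin N, Real.exp (-β * eP X (om N m) x) ≤
          Real.exp (-β * eP X 1 x) * (1 + N * Real.exp (-β / (32 / c ^ 2))) := by
        rw [← Finset.add_sum_erase _ _ hm0]
        simp only [om_zero]
        rw [mul_add, mul_one]
        gcongr
        calc _ ≤ ∑ m ∈ (Finset.univ : Finset (Fin N)).erase ⟨0, by omega⟩,
              Real.exp (-β * eP X 1 x) * Real.exp (-β / (32 / c ^ 2)) := by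
              refine Finset.sum_le_sum fun m hm => ?_
              have hm' : (m : ℕ) ≠ 0 := by
                intro h
                apply (Finset.mem_erase.1 hm).1
                exact Fin.ext h
              rw [← Real.exp_add]
              apply Real.exp_le_exp.2
              have h6 := mul_le_mul_of_nonneg_left (hgap m hm') hβ
              have h7 : -β / (32 / c ^ 2) = -(β * ε) := by
                rw [hε]
                ring
              rw [h7]
              nlinarith
          _ ≤ _ := by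
              rw [Finset.sum_const, nsmul_eq_mul]
              have h6 : (((Finset.univ : Finset (Fin N)).erase ⟨0, by omega⟩).card : ℝ) ≤ N := by
                have := Finset.card_le_card (Finset.erase_subset (⟨0, by omega⟩ : Fin N)
                  (Finset.univ : Finset (Fin N)))
                rw [Finset.card_univ, Fintype.card_fin] at this
                exact_mod_cast this
              have h7 : 0 ≤ Real.exp (-β * eP X 1 x) * Real.exp (-β / (32 / c ^ 2)) := by positivity
              calc _ ≤ (N : ℝ) * (Real.exp (-β * eP X 1 x) * Real.exp (-β / (32 / c ^ 2))) :=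
                    mul_le_mul_of_nonneg_right h6 h7
                _ = _ := by ring
      calc _ ≤ (Real.exp (-β * eP X 1 x) * (1 + N * Real.exp (-β / (32 / c ^ 2)))) / N := by gcongr
        _ = _ := by ring
  · rw [if_neg h3]
    have hw : wt k β τ X = Real.exp (-β * en k X τ) := by
      unfold wt
      rw [if_neg h3]
    have he : en1 k X τ = en k X τ := by
      obtain ⟨x, i⟩ := τ
      fin_cases i
      · rfl
      · rfl
      · rfl
      · exact absurd rfl h3
    rw [hw, he, one_mul]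
    refine ⟨le_rfl, ?_⟩
    have h4 : 0 < Real.exp (-β * en k X τ) := Real.exp_pos _
    have h5 : 0 ≤ (N : ℝ) * Real.exp (-β / (32 / c ^ 2)) := by positivity
    nlinarith

end T2H02.TT.PkgLLu

namespace T2H02.TT

theorem pL1u (hB0 : S_B0) : S_L1u := PkgLLu.L1u hB0

theorem pL2u : S_L2u := PkgLLu.L2u

theorem pL3u : S_L3u := PkgLLu.L3u

end T2H02.TT
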