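import Pool.Agent.T2H02.TT.Stm2
import Pool.Agent.T2H02.TT.E

/-!
# Package M0 : the deterministic comparison
-/

set_option autoImplicit false

noncomputable section

open MeasureTheory Matrix
open scoped Matrix.Norms.Frobenius

namespace T2H02.TT

namespace PkgM0

variable {N L : ℕ} [NeZero L]

/-! ### finite geometry -/

lemma card_tml (Λ : Finset Pl) : (tml Λ).card ≤ 16 * Λ.card := by
  unfold tml
  refine (Finset.card_filter_le _ _).trans ?_
  rw [Finset.card_product, Finset.card_univ, Fintype.card_fin]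
  have key : ∀ A B C D : Finset Pl, A.card ≤ Λ.card → B.card ≤ Λ.card → C.card ≤ Λ.card →
      D.card ≤ Λ.card → (((A ∪ B) ∪ C) ∪ D).card * 4 ≤ 16 * Λ.card := by
    intro A B C D hA hB hC hD
    have a1 := Finset.card_union_le A B
    have a2 := Finset.card_union_le (A ∪ B) C
    have a3 := Finset.card_union_le ((A ∪ B) ∪ C) D
    omega
  exact key _ _ _ _ le_rfl Finset.card_image_le Finset.card_image_le Finset.card_image_le

lemma card_spt (τ : Tm) : (spt τ : Finset (Lk L)).card ≤ 5 * Fintype.card (Tor L) := by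
  unfold spt
  rw [mul_comm, ← Finset.card_univ]
  refine Finset.card_biUnion_le_card_mul _ _ _ fun y _ => ?_
  split_ifs
  · exact Finset.card_le_two.trans (by norm_num)
  · exact Finset.card_le_five
  · exact Finset.card_le_five
  · exact Finset.card_le_four.trans (by norm_num)

lemma card_bdl (Λ : Finset Pl) :
    (bdl L Λ).card ≤ 80 * Fintype.card (Tor L) * Λ.card := by
  unfold bdl
  refine (Finset.card_le_card Finset.sdiff_subset).trans ?_
  refine (Finset.card_biUnion_le_card_mul _ _ _ fun τ _ => card_spt τ).trans ?_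
  have := card_tml Λ
  calc (tml Λ).card * (5 * Fintype.card (Tor L)) ≤ (16 * Λ.card) * (5 * Fintype.card (Tor L)) :=
        Nat.mul_le_mul_right _ this
    _ = _ := by ring

lemma mem_bdl (Λ : Finset Pl) (l : Lk L) :
    l ∈ bdl L Λ ↔ (∃ τ ∈ tml Λ, l ∈ (spt τ : Finset (Lk L))) ∧ l ∉ Frl L Λ := by
  unfold bdl
  rw [Finset.mem_sdiff, Finset.mem_biUnion]

lemma near_pls {Λ : Finset Pl} {a b : Pl} (hb : b ∈ Λ) (h : near 1 a b) : a ∈ pls Λ := by
  unfold pls
  rw [Finset.mem_biUnion]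
  refine ⟨b, hb, ?_⟩
  unfold near at h
  rw [abs_le, abs_le] at h
  unfold Nb
  rw [Finset.mem_product, Finset.mem_Icc, Finset.mem_Icc]
  push_cast
  refine ⟨⟨?_, ?_⟩, ?_, ?_⟩ <;> linarith [h.1.1, h.1.2, h.2.1, h.2.2]

lemma spt_pls {Λ : Finset Pl} {τ : Tm} (hτ : τ ∈ tml Λ) {l : Lk L}
    (hl : l ∈ (spt τ : Finset (Lk L))) : ∀ a ∈ st l, a ∈ pls Λ := by
  intro a ha
  obtain ⟨b, hb, hbΛ⟩ := (mem_tml Λ τ).1 hτ
  exact near_pls hbΛ (diam_cor τ a ((cor_iff τ a).2 ⟨l, hl, ha⟩) b hb)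

lemma bdl_pls {Λ : Finset Pl} {l : Lk L} (hl : l ∈ bdl L Λ) : ∀ a ∈ st l, a ∈ pls Λ := by
  obtain ⟨⟨τ, hτ, h⟩, -⟩ := (mem_bdl Λ l).1 hl
  exact spt_pls hτ h

lemma Frl_pls {Λ : Finset Pl} {l : Lk L} (hl : l ∈ Frl L Λ) : ∀ a ∈ st l, a ∈ pls Λ := by
  intro a ha
  obtain ⟨b, hb, hbΛ⟩ := (mem_Frl Λ l).1 hl
  exact near_pls hbΛ (diam_st l a ha b hb)

lemma Frl_mono {B Λ : Finset Pl} (h : B ⊆ Λ) {l : Lk L} (hl : l ∈ Frl L B) : l ∈ Frl L Λ := by
  obtain ⟨b, hb, hbB⟩ := (mem_Frl B l).1 hl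
  exact (mem_Frl Λ l).2 ⟨b, hb, h hbB⟩

/-! ### the linearised variable -/

/-- the linearised link variable -/
def xi (P Q : SU N) (X : Cf N L) (l : Lk L) : Mt N :=
  pr ((X l : Mt N) * (((vc P Q l)⁻¹ : SU N) : Mt N) - 1)

lemma mul_inv_norm (X V : SU N) : ‖(X : Mt N) * ((V⁻¹ : SU N) : Mt N) - 1‖ = ‖(X : Mt N) - (V : Mt N)‖ := by
  rw [← PkgE.norm_mul_su _ V, sub_mul, Matrix.mul_assoc, PkgE.coe_inv, PkgE.ct_mul, Matrix.mul_one,
    Matrix.one_mul]

lemma su_zero : (0 : Mt N) ∈ su N := by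
  constructor <;> simp

lemma su_add {A B : Mt N} (hA : A ∈ su N) (hB : B ∈ su N) : A + B ∈ su N := by
  refine ⟨?_, ?_⟩
  · rw [conjTranspose_add, hA.1, hB.1]; abel
  · rw [trace_add, hA.2, hB.2, add_zero]

lemma su_neg {A : Mt N} (hA : A ∈ su N) : -A ∈ su N := by
  refine ⟨?_, ?_⟩
  · rw [conjTranspose_neg, hA.1]
  · rw [trace_neg, hA.2, neg_zero]

lemma su_sub {A B : Mt N} (hA : A ∈ su N) (hB : B ∈ su N) : A - B ∈ su N := by
  rw [sub_eq_add_neg]
  exact su_add hA (su_neg hB)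

omit [NeZero L] in
lemma xi_norm (hEn : ∀ M : Mt N, ‖pr M‖ ≤ ‖M‖) (P Q : SU N) (X : Cf N L) (l : Lk L) :
    ‖xi P Q X l‖ ≤ ‖(X l : Mt N) - (vc P Q l : Mt N)‖ := by
  unfold xi
  exact (hEn _).trans (mul_inv_norm _ _).le

omit [NeZero L] in
lemma xi_err {CE : ℝ}
    (hEe : ∀ g : SU N, ‖((g : Mt N) - 1) - pr ((g : Mt N) - 1)‖ ≤ CE * ‖(g : Mt N) - 1‖ ^ 2)
    (P Q : SU N) (X : Cf N L) (l : Lk L) :
    ‖(X l : Mt N) - (1 + xi P Q X l) * (vc P Q l : Mt N)‖ ≤
      CE * ‖(X l : Mt N) - (vc P Q l : Mt N)‖ ^ 2 := by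
  have h := hEe (X l * (vc P Q l)⁻¹)
  have e : ((X l * (vc P Q l)⁻¹ : SU N) : Mt N) = (X l : Mt N) * (((vc P Q l)⁻¹ : SU N) : Mt N) := rfl
  rw [e, mul_inv_norm] at h
  have e2 : (X l : Mt N) - (1 + xi P Q X l) * (vc P Q l : Mt N) =
      ((X l : Mt N) * (((vc P Q l)⁻¹ : SU N) : Mt N) - 1 -
        pr ((X l : Mt N) * (((vc P Q l)⁻¹ : SU N) : Mt N) - 1)) * (vc P Q l : Mt N) := by
    unfold xi
    rw [sub_mul, sub_mul, add_mul, Matrix.mul_assoc, PkgE.coe_inv, PkgE.ct_mul, Matrix.mul_one,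
      Matrix.one_mul]
    abel
  rw [e2, PkgE.norm_mul_su]
  exact h

/-! ### bilinear forms -/

/-- the properties of the form which are used -/
structure Frm (P Q : SU N) (L : ℕ) [NeZero L] (C3 : ℝ) : Prop where
  bd : ∀ (τ : Tm) (a b : Lk L → Mt N) (r s : ℝ), 0 ≤ r → 0 ≤ s →
    (∀ l ∈ (spt τ : Finset (Lk L)), ‖a l‖ ≤ r ∧ ‖b l‖ ≤ s) → |bf P Q τ a b| ≤ C3 * r * s
  add : ∀ (τ : Tm) (a b c : Lk L → Mt N),
    bf P Q τ (fun l => a l + b l) c = bf P Q τ a c + bf P Q τ b c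
  comm : ∀ (τ : Tm) (a b : Lk L → Mt N), bf P Q τ a b = bf P Q τ b a

variable {P Q : SU N} {C3 : ℝ}

lemma Frm.add' (H : Frm P Q L C3) (τ : Tm) (a b c : Lk L → Mt N) :
    bf P Q τ c (fun l => a l + b l) = bf P Q τ c a + bf P Q τ c b := by
  rw [H.comm, H.add, H.comm τ a, H.comm τ b]

lemma Frm.loc (H : Frm P Q L C3) (τ : Tm) (a b : Lk L → Mt N)
    (h : ∀ l ∈ (spt τ : Finset (Lk L)), a l = 0) : bf P Q τ a b = 0 := by
  have h1 := H.bd τ a b 0 (∑ l ∈ (spt τ : Finset (Lk L)), ‖b l‖) le_rfl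
    (Finset.sum_nonneg fun _ _ => norm_nonneg _) fun l hl =>
      ⟨by rw [h l hl, norm_zero],
        Finset.single_le_sum (f := fun l => ‖b l‖) (fun _ _ => norm_nonneg _) hl⟩
  rw [mul_zero, zero_mul] at h1
  exact abs_nonpos_iff.1 h1

lemma Frm.neg (H : Frm P Q L C3) (τ : Tm) (a c : Lk L → Mt N) :
    bf P Q τ (fun l => - a l) c = - bf P Q τ a c := by
  have h1 := H.add τ a (fun l => - a l) c
  have h2 : bf P Q τ (fun l => a l + - a l) c = 0 := H.loc τ _ _ fun l _ => by simp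
  rw [h2] at h1
  linarith

lemma Frm.neg' (H : Frm P Q L C3) (τ : Tm) (a c : Lk L → Mt N) :
    bf P Q τ c (fun l => - a l) = - bf P Q τ c a := by
  rw [H.comm, H.neg, H.comm]

lemma Frm.congr (H : Frm P Q L C3) (τ : Tm) (a a' b : Lk L → Mt N)
    (h : ∀ l ∈ (spt τ : Finset (Lk L)), a l = a' l) : bf P Q τ a b = bf P Q τ a' b := by
  have h1 := H.add τ a' (fun l => a l - a' l) b
  have h2 : bf P Q τ (fun l => a l - a' l) b = 0 := H.loc τ _ _ fun l hl => by
    rw [h l hl, sub_self]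
  have h3 : (fun l => a' l + (a l - a' l)) = a := by
    funext l; abel
  rw [h3, h2, add_zero] at h1
  exact h1

/-! ### the comparison for one pair of boundary values -/

/-- the shift -/
def sh (Λ B : Finset Pl) (hI : Lk L → Mt N) (l : Lk L) : Mt N :=
  if l ∈ Frl L Λ ∧ l ∉ Frl L B then hI l else 0

/-- the boundary values -/
def x0 (P Q : SU N) (Λ : Finset Pl) (σ : Cf N L) (l : Lk L) : Mt N :=
  if l ∈ Frl L Λ then 0 else xi P Q σ l

/-- the energy difference -/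
def cst (P Q : SU N) (Λ : Finset Pl) (σ : Cf N L) (hI : Lk L → Mt N) : ℝ :=
  ∑ τ ∈ tml Λ, (bf P Q τ (x0 P Q Λ σ) hI + bf P Q τ hI hI / 2)

theorem core {k : ℕ} {E : Mt N → SU N} {CE CK CL K1 : ℝ} (hCE : 0 ≤ CE) (hCK : 0 ≤ CK)
    (hEm : ∀ M : Mt N, pr M ∈ su N) (hEn : ∀ M : Mt N, ‖pr M‖ ≤ ‖M‖)
    (hEe : ∀ g : SU N, ‖((g : Mt N) - 1) - pr ((g : Mt N) - 1)‖ ≤ CE * ‖(g : Mt N) - 1‖ ^ 2)
    (hK : ∀ (h : Lk L → Mt N) (ρ : ℝ) (X : Cf N L), 0 ≤ ρ → ρ ≤ 1 →
      (∀ l, h l ∈ su N ∧ ‖h l‖ ≤ ρ) →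
      (∀ l, h l = 0 → TM P Q E h X l = X l) ∧
      (∀ l : Lk L, (∀ y j, ‖(pt X l.1.1 y j : Mt N) - (vac P Q y j : Mt N)‖ ≤ ρ) →
        (l.2 = 2 ∨ l.2 = 3 → ‖(X (l.1, 0) : Mt N) - 1‖ ≤ ρ ∧
          ∀ y j, ‖(pt X (l.1.1 + (1, 0)) y j : Mt N) - (vac P Q y j : Mt N)‖ ≤ ρ) →
        ‖(TM P Q E h X l : Mt N) - (1 + h l) * (X l : Mt N)‖ ≤ CK * ρ ^ 2))
    (hL1 : ∀ (τ : Tm) (X : Cf N L) (a : Lk L → Mt N) (ρ : ℝ), 0 ≤ ρ → ρ ≤ 1 →
      (∀ l ∈ (spt τ : Finset (Lk L)), ‖a l‖ ≤ ρ ∧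
        ‖(X l : Mt N) - (1 + a l) * (vc P Q l : Mt N)‖ ≤ ρ ^ 2) →
      |en1 k X τ - bf P Q τ a a / 2| ≤ CL * ρ ^ 3)
    (H : Frm P Q L C3) (hK1 : 3 ≤ K1) (hK1' : CK + 1 + 2 * CE ≤ K1)
    {Λ B : Finset Pl} (hBΛ : B ⊆ Λ) {ρ ρ1 t : ℝ} (hρ : 0 ≤ ρ) (hρ1 : ρ ≤ ρ1) (hsm : K1 * ρ1 ≤ 1)
    (ht0 : 0 ≤ t) (ht1 : t ≤ 1) {hI : Lk L → Mt N} (hIm : ∀ l, hI l ∈ su N)
    (hI1 : ∀ l ∈ Frl L Λ, ‖hI l‖ ≤ ρ1) (hI2 : ∀ l ∈ bdl L Λ, ‖hI l‖ ≤ ρ1)
    (hI3 : ∀ l ∈ Frl L B, ‖hI l‖ ≤ t * ρ1)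
    (hfo : ∀ a : Lk L → Mt N, (∀ l, a l ∈ su N) → (∀ l, l ∉ Frl L Λ → a l = 0) →
      ∑ τ ∈ tml Λ, bf P Q τ a hI = 0)
    {σ σ' : Cf N L} (hbd : ∀ l ∈ bdl L Λ, hI l = xi P Q σ' l - xi P Q σ l)
    (hσ' : ∀ l, l ∉ Frl L Λ → (∀ a ∈ st l, a ∈ pls Λ) → ‖(σ' l : Mt N) - (vc P Q l : Mt N)‖ ≤ ρ)
    {X : Cf N L} (hX1 : ∀ l, l ∉ Frl L Λ → X l = σ l)
    (hX2 : ∀ l, (∀ a ∈ st l, a ∈ pls Λ) → ‖(X l : Mt N) - (vc P Q l : Mt N)‖ ≤ ρ) :
    (∀ l, (∀ a ∈ st l, a ∈ pls Λ) →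
      ‖((glue (Frl L Λ) (TM P Q E (sh Λ B hI) X) σ' l : SU N) : Mt N) - (vc P Q l : Mt N)‖ ≤
        (CK + 2) * ρ1) ∧
    |∑ τ ∈ tml Λ, (en1 k (glue (Frl L Λ) (TM P Q E (sh Λ B hI) X) σ') τ - en1 k X τ) -
      cst P Q Λ σ hI| ≤ (tml Λ).card * (2 * (CL * (K1 * ρ1) ^ 3) + 5 / 2 * (C3 * (t * ρ1 ^ 2))) := by
  have hρ1' : 0 ≤ ρ1 := hρ.trans hρ1
  have hρ11 : ρ1 ≤ 1 := by nlinarith
  have htρ : t * ρ1 ≤ ρ1 := by nlinarith
  have hshm : ∀ l, sh Λ B hI l ∈ su N := by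
    intro l
    unfold sh
    split_ifs
    · exact hIm l
    · exact su_zero
  have hshn : ∀ l, ‖sh Λ B hI l‖ ≤ ρ1 := by
    intro l
    unfold sh
    split_ifs with h
    · exact hI1 l h.1
    · rw [norm_zero]; exact hρ1'
  obtain ⟨-, hK2⟩ := hK (sh Λ B hI) ρ1 X hρ1' hρ11 fun l => ⟨hshm l, hshn l⟩
  -- the torus links at sites of `pls Λ`
  have hpt : ∀ x ∈ pls Λ, ∀ y j, ‖(pt X x y j : Mt N) - (vac P Q y j : Mt N)‖ ≤ ρ1 := by
    intro x hx y j
    have h1 : ∀ i : Fin 4, (i = 2 ∨ i = 3) → ∀ a ∈ st (((x, y), i) : Lk L), a ∈ pls Λ := by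
      intro i hi a ha
      rw [mem_st] at ha
      have hpe : pe i = 0 := by rcases hi with rfl | rfl <;> simp [pe, h00]
      rw [hpe, add_zero, or_self] at ha
      rw [ha]
      exact hx
    fin_cases j
    · have := (hX2 ((x, y), 2) (h1 2 (Or.inl rfl))).trans hρ1
      simpa [pt, vc] using this
    · have := (hX2 ((x, y), 3) (h1 3 (Or.inr rfl))).trans hρ1
      simpa [pt, vc] using this
  have hTM : ∀ l ∈ Frl L Λ,
      ‖(TM P Q E (sh Λ B hI) X l : Mt N) - (1 + sh Λ B hI l) * (X l : Mt N)‖ ≤ CK * ρ1 ^ 2 := by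
    intro l hl
    have hpl := Frl_pls hl
    refine hK2 l (hpt _ (hpl _ ((mem_st l _).2 (Or.inl rfl)))) fun h23 => ?_
    have hpe : pe l.2 = 0 := by rcases h23 with h | h <;> rw [h] <;> simp [pe, h00]
    have hx : l.1.1 ∈ Λ := by
      obtain ⟨a, ha, haΛ⟩ := (mem_Frl Λ l).1 hl
      rw [mem_st, hpe, add_zero, or_self] at ha
      rwa [← ha]
    have hx1 : l.1.1 + (1, 0) ∈ pls Λ := near_pls hx (by unfold near; simp)
    have hx0 : l.1.1 ∈ pls Λ := near_pls hx (by unfold near; simp)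
    refine ⟨?_, hpt _ hx1⟩
    have h1 : ∀ a ∈ st ((l.1, 0) : Lk L), a ∈ pls Λ := by
      intro a ha
      rw [mem_st] at ha
      rcases ha with rfl | rfl
      · exact hx0
      · simpa [pe] using hx1
    have := (hX2 (l.1, 0) h1).trans hρ1
    simpa [vc] using this
  -- auxiliary functions
  set Y : Cf N L := glue (Frl L Λ) (TM P Q E (sh Λ B hI) X) σ' with hY
  have hYF : ∀ l ∈ Frl L Λ, Y l = TM P Q E (sh Λ B hI) X l := fun l hl => by
    rw [hY]; unfold glue; rw [if_pos hl]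
  have hYN : ∀ l, l ∉ Frl L Λ → Y l = σ' l := fun l hl => by
    rw [hY]; unfold glue; rw [if_neg hl]
  set w : Lk L → Mt N := fun l => if l ∈ Frl L B then - hI l else 0 with hw
  have hwn : ∀ l, ‖w l‖ ≤ t * ρ1 := by
    intro l
    rw [hw]
    simp only
    split_ifs with h
    · rw [norm_neg]; exact hI3 l h
    · rw [norm_zero]; positivity
  set aY : Lk L → Mt N := fun l => (xi P Q X l + hI l) + w l with haY
  have hshw : ∀ l ∈ Frl L Λ, hI l + w l = sh Λ B hI l := by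
    intro l hl
    rw [hw]
    unfold sh
    simp only
    by_cases hB : l ∈ Frl L B
    · rw [if_pos hB, if_neg (fun h => h.2 hB)]; abel
    · rw [if_neg hB, if_pos ⟨hl, hB⟩, add_zero]
  have hxn : ∀ l, (∀ a ∈ st l, a ∈ pls Λ) → ‖xi P Q X l‖ ≤ ρ := fun l hl =>
    (xi_norm hEn P Q X l).trans (hX2 l hl)
  have hxe : ∀ l, (∀ a ∈ st l, a ∈ pls Λ) →
      ‖(X l : Mt N) - (1 + xi P Q X l) * (vc P Q l : Mt N)‖ ≤ CE * ρ ^ 2 := fun l hl =>
    (xi_err hEe P Q X l).trans (mul_le_mul_of_nonneg_left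
      (pow_le_pow_left₀ (norm_nonneg _) (hX2 l hl) 2) hCE)
  have hρsq : ρ ^ 2 ≤ ρ1 ^ 2 := pow_le_pow_left₀ hρ hρ1 2
  have hK1sq : CK + 1 + 2 * CE ≤ K1 ^ 2 := by
    have : K1 * 1 ≤ K1 * K1 := mul_le_mul_of_nonneg_left (by linarith) (by linarith)
    rw [sq]
    linarith
  have h3K : 3 * ρ1 ≤ K1 * ρ1 := mul_le_mul_of_nonneg_right hK1 hρ1'
  have hρ1sq0 : 0 ≤ ρ1 ^ 2 := sq_nonneg _
  refine ⟨fun l hl => ?_, ?_⟩
  · by_cases hF : l ∈ Frl L Λ
    · rw [hYF l hF]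
      have e : (TM P Q E (sh Λ B hI) X l : Mt N) - (vc P Q l : Mt N) =
          ((TM P Q E (sh Λ B hI) X l : Mt N) - (1 + sh Λ B hI l) * (X l : Mt N)) +
          (sh Λ B hI l * (X l : Mt N) + ((X l : Mt N) - (vc P Q l : Mt N))) := by
        rw [add_mul, Matrix.one_mul]; abel
      rw [e]
      have h1 := hTM l hF
      have h2 : ‖sh Λ B hI l * (X l : Mt N)‖ ≤ ρ1 := by
        rw [PkgE.norm_mul_su]; exact hshn l
      have h3 := hX2 l hl
      have h4 : CK * ρ1 ^ 2 ≤ CK * ρ1 := by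
        refine mul_le_mul_of_nonneg_left ?_ hCK
        nlinarith
      calc _ ≤ CK * ρ1 ^ 2 + (ρ1 + ρ) :=
            (norm_add_le _ _).trans (add_le_add h1 ((norm_add_le _ _).trans (add_le_add h2 h3)))
        _ ≤ (CK + 2) * ρ1 := by nlinarith
    · rw [hYN l hF]
      refine (hσ' l hF hl).trans ?_
      nlinarith
  · -- the energies
    have hcase : ∀ τ ∈ tml Λ, ∀ l ∈ (spt τ : Finset (Lk L)), l ∈ Frl L Λ ∨ l ∈ bdl L Λ := by
      intro τ hτ l hl
      by_cases hF : l ∈ Frl L Λ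
      · exact Or.inl hF
      · exact Or.inr ((mem_bdl Λ l).2 ⟨⟨τ, hτ, hl⟩, hF⟩)
    have hIn : ∀ τ ∈ tml Λ, ∀ l ∈ (spt τ : Finset (Lk L)), ‖hI l‖ ≤ ρ1 := by
      intro τ hτ l hl
      rcases hcase τ hτ l hl with h | h
      · exact hI1 l h
      · exact hI2 l h
    have hKρ0 : 0 ≤ K1 * ρ1 := by positivity
    have hmain : ∀ τ ∈ tml Λ, |(en1 k Y τ - en1 k X τ) - (bf P Q τ (xi P Q X) hI +
        bf P Q τ hI hI / 2)| ≤ 2 * (CL * (K1 * ρ1) ^ 3) + 5 / 2 * (C3 * (t * ρ1 ^ 2)) := by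
      intro τ hτ
      have hpl : ∀ l ∈ (spt τ : Finset (Lk L)), ∀ a ∈ st l, a ∈ pls Λ := fun l hl => spt_pls hτ hl
      -- first order expansions
      have hA : |en1 k X τ - bf P Q τ (xi P Q X) (xi P Q X) / 2| ≤ CL * (K1 * ρ1) ^ 3 := by
        refine hL1 τ X _ _ hKρ0 hsm fun l hl => ⟨?_, ?_⟩
        · have := hxn l (hpl l hl)
          linarith
        · refine (hxe l (hpl l hl)).trans ?_
          rw [mul_pow]
          have h1 : CE * ρ ^ 2 ≤ CE * ρ1 ^ 2 := mul_le_mul_of_nonneg_left hρsq hCE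
          have h2 : CE * ρ1 ^ 2 ≤ K1 ^ 2 * ρ1 ^ 2 :=
            mul_le_mul_of_nonneg_right (by linarith) hρ1sq0
          linarith
      have hB : |en1 k Y τ - bf P Q τ aY aY / 2| ≤ CL * (K1 * ρ1) ^ 3 := by
        refine hL1 τ Y _ _ hKρ0 hsm fun l hl => ⟨?_, ?_⟩
        · have h1 := hxn l (hpl l hl)
          have h2 := hIn τ hτ l hl
          have h3 := hwn l
          rw [haY]
          calc ‖(xi P Q X l + hI l) + w l‖ ≤ (ρ + ρ1) + t * ρ1 :=
                (norm_add_le _ _).trans (add_le_add ((norm_add_le _ _).trans (add_le_add h1 h2)) h3)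
            _ ≤ K1 * ρ1 := by linarith
        · rw [mul_pow]
          have hce : CE * ρ ^ 2 ≤ CE * ρ1 ^ 2 := mul_le_mul_of_nonneg_left hρsq hCE
          rcases hcase τ hτ l hl with hF | hb
          · rw [hYF l hF]
            have ea : aY l = xi P Q X l + sh Λ B hI l := by
              rw [haY, ← hshw l hF]; simp only; abel
            have e : (TM P Q E (sh Λ B hI) X l : Mt N) - (1 + aY l) * (vc P Q l : Mt N) =
                ((TM P Q E (sh Λ B hI) X l : Mt N) - (1 + sh Λ B hI l) * (X l : Mt N)) +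
                ((((X l : Mt N) - (1 + xi P Q X l) * (vc P Q l : Mt N)) +
                sh Λ B hI l * ((X l : Mt N) - (1 + xi P Q X l) * (vc P Q l : Mt N))) +
                sh Λ B hI l * xi P Q X l * (vc P Q l : Mt N)) := by
              rw [ea]
              noncomm_ring
            rw [e]
            have h1 := hTM l hF
            have h2 := hxe l (hpl l hl)
            have h3 : ‖sh Λ B hI l * ((X l : Mt N) - (1 + xi P Q X l) * (vc P Q l : Mt N))‖ ≤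
                CE * ρ ^ 2 := by
              refine (norm_mul_le _ _).trans ?_
              calc _ ≤ 1 * (CE * ρ ^ 2) := mul_le_mul ((hshn l).trans hρ11) h2 (norm_nonneg _)
                    zero_le_one
                _ = _ := one_mul _
            have h4 : ‖sh Λ B hI l * xi P Q X l * (vc P Q l : Mt N)‖ ≤ ρ1 ^ 2 := by
              rw [PkgE.norm_mul_su]
              refine (norm_mul_le _ _).trans ?_
              rw [sq]
              exact mul_le_mul (hshn l) ((hxn l (hpl l hl)).trans hρ1) (norm_nonneg _) hρ1'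
            calc _ ≤ CK * ρ1 ^ 2 + ((CE * ρ ^ 2 + CE * ρ ^ 2) + ρ1 ^ 2) :=
                  (norm_add_le _ _).trans (add_le_add h1 ((norm_add_le _ _).trans
                    (add_le_add ((norm_add_le _ _).trans (add_le_add h2 h3)) h4)))
              _ ≤ (CK + 1 + 2 * CE) * ρ1 ^ 2 := by
                  have : (CK + 1 + 2 * CE) * ρ1 ^ 2 =
                    CK * ρ1 ^ 2 + ((CE * ρ1 ^ 2 + CE * ρ1 ^ 2) + ρ1 ^ 2) := by ring
                  rw [this]
                  linarith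
              _ ≤ K1 ^ 2 * ρ1 ^ 2 := mul_le_mul_of_nonneg_right hK1sq hρ1sq0
          · have hF : l ∉ Frl L Λ := ((mem_bdl Λ l).1 hb).2
            have hnB : l ∉ Frl L B := fun h => hF (Frl_mono hBΛ h)
            rw [hYN l hF]
            have ea : aY l = xi P Q σ' l := by
              rw [haY]
              simp only
              rw [hbd l hb, hw]
              simp only
              rw [if_neg hnB]
              have : xi P Q X l = xi P Q σ l := by unfold xi; rw [hX1 l hF]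
              rw [this]; abel
            rw [ea]
            have h1 := xi_err hEe P Q σ' l
            have h2 := hσ' l hF (hpl l hl)
            have h3 : ‖(σ' l : Mt N) - (vc P Q l : Mt N)‖ ^ 2 ≤ ρ ^ 2 :=
              pow_le_pow_left₀ (norm_nonneg _) h2 2
            have h4 : CE * ‖(σ' l : Mt N) - (vc P Q l : Mt N)‖ ^ 2 ≤ CE * ρ ^ 2 :=
              mul_le_mul_of_nonneg_left h3 hCE
            have h5 : CE * ρ1 ^ 2 ≤ K1 ^ 2 * ρ1 ^ 2 :=
              mul_le_mul_of_nonneg_right (by linarith) hρ1sq0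
            linarith
      -- the bilinear form
      have e1 : bf P Q τ aY aY = bf P Q τ (xi P Q X) (xi P Q X) + 2 * bf P Q τ (xi P Q X) hI +
          bf P Q τ hI hI + 2 * bf P Q τ (xi P Q X) w + 2 * bf P Q τ hI w + bf P Q τ w w := by
        rw [haY]
        rw [H.add τ (fun l => xi P Q X l + hI l) w, H.add' τ (fun l => xi P Q X l + hI l) w,
          H.add' τ (fun l => xi P Q X l + hI l) w, H.add τ (xi P Q X) hI, H.add τ (xi P Q X) hI,
          H.add' τ (xi P Q X) hI, H.add' τ (xi P Q X) hI, H.add' τ (xi P Q X) hI,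
          H.comm τ hI (xi P Q X), H.comm τ w (xi P Q X), H.comm τ w hI]
        ring
      have b1 : |bf P Q τ (xi P Q X) w| ≤ C3 * (t * ρ1 ^ 2) := by
        have := H.bd τ (xi P Q X) w ρ1 (t * ρ1) hρ1' (by positivity) fun l hl =>
          ⟨(hxn l (hpl l hl)).trans hρ1, hwn l⟩
        refine this.trans (le_of_eq ?_)
        ring
      have b2 : |bf P Q τ hI w| ≤ C3 * (t * ρ1 ^ 2) := by
        have := H.bd τ hI w ρ1 (t * ρ1) hρ1' (by positivity) fun l hl => ⟨hIn τ hτ l hl, hwn l⟩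
        refine this.trans (le_of_eq ?_)
        ring
      have b3 : |bf P Q τ w w| ≤ C3 * (t * ρ1 ^ 2) := by
        have := H.bd τ w w ρ1 (t * ρ1) hρ1' (by positivity) fun l hl =>
          ⟨(hwn l).trans htρ, hwn l⟩
        refine this.trans (le_of_eq ?_)
        ring
      rw [abs_le] at hA hB b1 b2 b3 ⊢
      constructor <;> linarith [hA.1, hA.2, hB.1, hB.2, b1.1, b1.2, b2.1, b2.2, b3.1, b3.2]
    -- first order condition
    have hsplit : ∑ τ ∈ tml Λ, bf P Q τ (xi P Q X) hI = ∑ τ ∈ tml Λ, bf P Q τ (x0 P Q Λ σ) hI := by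
      have e : xi P Q X = fun l => (if l ∈ Frl L Λ then xi P Q X l else 0) + x0 P Q Λ σ l := by
        funext l
        unfold x0
        by_cases hF : l ∈ Frl L Λ
        · rw [if_pos hF, if_pos hF, add_zero]
        · rw [if_neg hF, if_neg hF, zero_add]
          unfold xi
          rw [hX1 l hF]
      have h0 := hfo (fun l => if l ∈ Frl L Λ then xi P Q X l else 0)
        (fun l => by
          try simp only
          split_ifs
          · exact hEm _
          · exact su_zero)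
        (fun l hl => if_neg hl)
      calc ∑ τ ∈ tml Λ, bf P Q τ (xi P Q X) hI
          = ∑ τ ∈ tml Λ, (bf P Q τ (fun l => if l ∈ Frl L Λ then xi P Q X l else 0) hI +
            bf P Q τ (x0 P Q Λ σ) hI) := by
            refine Finset.sum_congr rfl fun τ _ => ?_
            rw [← H.add]
            exact congrArg (fun f => bf P Q τ f hI) e
        _ = _ := by rw [Finset.sum_add_distrib, h0, zero_add]
    have hfin : ∑ τ ∈ tml Λ, (en1 k Y τ - en1 k X τ) - cst P Q Λ σ hI =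
        ∑ τ ∈ tml Λ, ((en1 k Y τ - en1 k X τ) - (bf P Q τ (xi P Q X) hI + bf P Q τ hI hI / 2)) := by
      unfold cst
      rw [Finset.sum_sub_distrib (f := fun τ => en1 k Y τ - en1 k X τ), Finset.sum_add_distrib,
        Finset.sum_add_distrib, hsplit]
    rw [hfin]
    refine (Finset.abs_sum_le_sum_abs _ _).trans ?_
    rw [← nsmul_eq_mul]
    exact Finset.sum_le_card_nsmul _ _ _ hmain

end PkgM0

open PkgM0 in
theorem pM0 (hE4 : S_E4) (hI : S_I) (hK : S_K) (hL1 : S_L1) (hL3 : S_L3) : S_M0 := by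
  intro N k L _ hN hk P Q hPQ E C₀ hGE
  obtain ⟨hEm, -, -, hEn, -, ⟨CE, hCE, hEe⟩, -⟩ := hE4 N hN
  obtain ⟨hC0, hEc, hE0, hEa, hEp⟩ := hGE
  obtain ⟨CK, hCK, hK'⟩ := hK N k L hN hk P Q hPQ E C₀ hEc hE0 hEp
  obtain ⟨CL, hCL, hL1'⟩ := hL1 N k L hN hk P Q hPQ
  obtain ⟨C3, hC3, hL3a, hL3b⟩ := hL3 N L hN P Q
  obtain ⟨CI, θI, hCI, hθ0, hθ1, hI'⟩ := hI N k L hN hk P Q hPQ
  have H : Frm P Q L C3 := ⟨hL3a, fun τ a b c => (hL3b τ a b c).1, fun τ a b => (hL3b τ a b a).2⟩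
  -- constants
  set D : ℝ := 80 * Fintype.card (Tor L) with hD
  have hD0 : 0 ≤ D := by positivity
  set C' : ℝ := 4 * CI * D + 4 with hC'
  have hC'4 : 4 ≤ C' := by
    have : 0 ≤ 4 * CI * D := by positivity
    linarith
  set K1 : ℝ := 3 + CK + 1 + 2 * CE with hK1
  have hK13 : 3 ≤ K1 := by linarith
  set C : ℝ := K1 ^ 2 * C' + (CK + 2) ^ 2 * C' + 16 * (2 * CL * K1 ^ 3 * C' ^ 2 + 5 / 2 * C3 * C') + 1
    with hC
  have p1 : 0 ≤ K1 ^ 2 * C' := by positivity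
  have p2 : 0 ≤ (CK + 2) ^ 2 * C' := by positivity
  have p3 : 0 ≤ 2 * CL * K1 ^ 3 * C' ^ 2 := by positivity
  have p4 : 0 ≤ 5 / 2 * C3 * C' := by positivity
  have hC1 : 1 ≤ C := by linarith
  refine ⟨C, Real.sqrt θI, hC1, Real.sqrt_pos.2 hθ0, by
    rw [Real.sqrt_lt' one_pos]; linarith, ?_⟩
  intro Λ B R ρ σ σ' hBΛ hΛB hρ hsmall hnear hagree
  rcases Finset.eq_empty_or_nonempty Λ with hΛ | hΛ
  · -- empty set
    subst hΛ
    have ht : tml (∅ : Finset Pl) = ∅ := by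
      ext τ
      rw [mem_tml]
      simp
    have hp : ∀ l : Lk L, ¬ ∀ a ∈ st l, a ∈ pls (∅ : Finset Pl) := by
      intro l h
      have := h l.1.1 ((mem_st l _).2 (Or.inl rfl))
      simp [pls] at this
    refine ⟨fun _ => 0, 0, fun _ _ => rfl, fun X _ _ => ⟨fun l hl => absurd hl (hp l), ?_⟩,
      fun X _ _ => ⟨fun l hl => absurd hl (hp l), ?_⟩⟩
    · rw [ht]; simp
    · rw [ht]; simp
  · -- main case
    have hn1 : (1 : ℝ) ≤ Λ.card := by
      exact_mod_cast Finset.one_le_card.2 hΛ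
    set n : ℝ := ((Λ.card : ℕ) : ℝ) with hn
    have hn0 : 0 ≤ n := by linarith
    set s : ℝ := n * ρ ^ 2 with hs
    have hs0 : 0 ≤ s := by positivity
    set ρ1 : ℝ := Real.sqrt (C' * s) with hρ1
    have hρ1n : 0 ≤ ρ1 := Real.sqrt_nonneg _
    have hρ1sq : ρ1 ^ 2 = C' * s := Real.sq_sqrt (by positivity)
    have hsq1 : 4 * ρ ^ 2 ≤ ρ1 ^ 2 := by
      rw [hρ1sq]
      have e1 : ρ ^ 2 ≤ s := by
        have := mul_le_mul_of_nonneg_right hn1 (sq_nonneg ρ)
        rw [one_mul] at this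
        exact this
      exact mul_le_mul hC'4 e1 (sq_nonneg _) (by linarith)
    have h2ρ : 2 * ρ ≤ ρ1 := by
      refine le_of_sq_le_sq ?_ hρ1n
      rw [mul_pow]; linarith
    have hρρ1 : ρ ≤ ρ1 := by linarith
    have hCs : C * s ≤ 1 := by rw [hs]; rw [← mul_assoc]; exact hsmall
    have hKρ : K1 * ρ1 ≤ 1 := by
      refine le_of_sq_le_sq ?_ zero_le_one
      rw [mul_pow, hρ1sq, one_pow]
      have : K1 ^ 2 * (C' * s) = (K1 ^ 2 * C') * s := by ring
      rw [this]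
      refine le_trans (mul_le_mul_of_nonneg_right ?_ hs0) hCs
      linarith
    -- the boundary data
    classical
    set kk : Lk L → Mt N := fun l => if l ∈ bdl L Λ then xi P Q σ' l - xi P Q σ l else 0 with hkk
    have hkm : ∀ l, kk l ∈ su N := by
      intro l
      rw [hkk]
      simp only
      split_ifs
      · exact su_sub (hEm _) (hEm _)
      · exact su_zero
    have hkn : ∀ l ∈ bdl L Λ, ‖kk l‖ ≤ 2 * ρ := by
      intro l hl
      have hF : l ∉ Frl L Λ := ((mem_bdl Λ l).1 hl).2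
      obtain ⟨h1, h2⟩ := hnear l hF (bdl_pls hl)
      rw [hkk]
      simp only
      rw [if_pos hl]
      refine (norm_sub_le _ _).trans ?_
      have h3 := (xi_norm hEn P Q σ' l).trans h2
      have h4 := (xi_norm hEn P Q σ l).trans h1
      linarith
    obtain ⟨g, hgm, hgk, hgfo, hgb, hgd⟩ := hI' Λ kk hkm
    have hksum : ∑ l' ∈ bdl L Λ, ‖kk l'‖ ^ 2 ≤ 4 * D * s := by
      calc ∑ l' ∈ bdl L Λ, ‖kk l'‖ ^ 2 ≤ ∑ l' ∈ bdl L Λ, (2 * ρ) ^ 2 :=
            Finset.sum_le_sum fun l hl => pow_le_pow_left₀ (norm_nonneg _) (hkn l hl) 2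
        _ = (bdl L Λ).card * (2 * ρ) ^ 2 := by rw [Finset.sum_const, nsmul_eq_mul]
        _ ≤ (D * n) * (2 * ρ) ^ 2 := by
            refine mul_le_mul_of_nonneg_right ?_ (sq_nonneg _)
            rw [hD, hn]
            exact_mod_cast card_bdl (L := L) Λ
        _ = 4 * D * s := by rw [hs]; ring
    have hCIs : CI * ∑ l' ∈ bdl L Λ, ‖kk l'‖ ^ 2 ≤ ρ1 ^ 2 := by
      rw [hρ1sq]
      calc CI * ∑ l' ∈ bdl L Λ, ‖kk l'‖ ^ 2 ≤ CI * (4 * D * s) :=
            mul_le_mul_of_nonneg_left hksum (by linarith)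
        _ ≤ C' * s := by
            have e1 : C' * s = CI * (4 * D * s) + 4 * s := by rw [hC']; ring
            rw [e1]
            linarith
    have hg1 : ∀ l ∈ Frl L Λ, ‖g l‖ ≤ ρ1 := fun l hl =>
      le_of_sq_le_sq ((hgb l hl).trans hCIs) hρ1n
    have hgbd : ∀ l ∈ bdl L Λ, g l = xi P Q σ' l - xi P Q σ l := by
      intro l hl
      rw [hgk l ((mem_bdl Λ l).1 hl).2, hkk]
      simp only
      rw [if_pos hl]
    have hg2 : ∀ l ∈ bdl L Λ, ‖g l‖ ≤ ρ1 := by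
      intro l hl
      rw [hgk l ((mem_bdl Λ l).1 hl).2]
      exact (hkn l hl).trans h2ρ
    set t : ℝ := Real.sqrt θI ^ R with ht
    have ht0 : 0 ≤ t := by positivity
    have hst1 : Real.sqrt θI ≤ 1 := by
      have := Real.sqrt_le_sqrt hθ1.le
      rwa [Real.sqrt_one] at this
    have ht1 : t ≤ 1 := pow_le_one₀ (Real.sqrt_nonneg _) hst1
    have htsq : t ^ 2 = θI ^ R := by
      rw [ht, ← pow_mul, mul_comm R 2, pow_mul, Real.sq_sqrt hθ0.le]
    have hk0 : ∀ l, l ∉ Frl L Λ → (∀ a ∈ st l, a ∈ bal R B) → kk l = 0 := by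
      intro l hF hb
      rw [hkk]
      simp only
      split_ifs
      · unfold xi
        rw [hagree l hF hb, sub_self]
      · rfl
    have hg3 : ∀ l ∈ Frl L B, ‖g l‖ ≤ t * ρ1 := by
      intro l hl
      refine le_of_sq_le_sq ?_ (by positivity)
      rw [mul_pow, htsq]
      refine (hgd B R hBΛ hk0 l hl).trans ?_
      have : CI * θI ^ R * ∑ l' ∈ bdl L Λ, ‖kk l'‖ ^ 2 =
          θI ^ R * (CI * ∑ l' ∈ bdl L Λ, ‖kk l'‖ ^ 2) := by ring
      rw [this]
      exact mul_le_mul_of_nonneg_left hCIs (by positivity)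
    -- the error term
    have hcardn : ((tml Λ).card : ℝ) ≤ 16 * n := by
      rw [hn]; exact_mod_cast card_tml Λ
    have hρ1le : ρ1 ≤ C' * Real.sqrt s := by
      rw [hρ1, Real.sqrt_mul (by positivity)]
      refine mul_le_mul_of_nonneg_right ?_ (Real.sqrt_nonneg _)
      rw [Real.sqrt_le_left (by positivity), sq]
      have : C' * 1 ≤ C' * C' := mul_le_mul_of_nonneg_left (by linarith) (by linarith)
      linarith
    have hcube : ρ1 ^ 3 ≤ C' ^ 2 * (s * Real.sqrt s) := by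
      have e1 : ρ1 ^ 3 = ρ1 ^ 2 * ρ1 := by ring
      rw [e1, hρ1sq]
      calc C' * s * ρ1 ≤ C' * s * (C' * Real.sqrt s) :=
            mul_le_mul_of_nonneg_left hρ1le (by positivity)
        _ = _ := by ring
    have herr : (tml Λ).card * (2 * (CL * (K1 * ρ1) ^ 3) + 5 / 2 * (C3 * (t * ρ1 ^ 2))) ≤
        C * n * s * (Real.sqrt s + t) := by
      have hs' : 0 ≤ s * Real.sqrt s := by positivity
      have i1 : 2 * (CL * (K1 * ρ1) ^ 3) ≤ 2 * CL * K1 ^ 3 * C' ^ 2 * (s * Real.sqrt s) := by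
        have : 2 * (CL * (K1 * ρ1) ^ 3) = 2 * CL * K1 ^ 3 * ρ1 ^ 3 := by ring
        rw [this]
        calc 2 * CL * K1 ^ 3 * ρ1 ^ 3 ≤ 2 * CL * K1 ^ 3 * (C' ^ 2 * (s * Real.sqrt s)) :=
              mul_le_mul_of_nonneg_left hcube (by positivity)
          _ = _ := by ring
      have i2 : 5 / 2 * (C3 * (t * ρ1 ^ 2)) = 5 / 2 * C3 * C' * (s * t) := by
        rw [hρ1sq]; ring
      have hst : 0 ≤ s * t := by positivity
      have i3 : 2 * (CL * (K1 * ρ1) ^ 3) + 5 / 2 * (C3 * (t * ρ1 ^ 2)) ≤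
          (2 * CL * K1 ^ 3 * C' ^ 2 + 5 / 2 * C3 * C') * (s * (Real.sqrt s + t)) := by
        rw [i2]
        have j1 : 0 ≤ 2 * CL * K1 ^ 3 * C' ^ 2 * (s * t) := mul_nonneg p3 hst
        have j2 : 0 ≤ 5 / 2 * C3 * C' * (s * Real.sqrt s) := mul_nonneg p4 hs'
        have j3 : (2 * CL * K1 ^ 3 * C' ^ 2 + 5 / 2 * C3 * C') * (s * (Real.sqrt s + t)) =
            2 * CL * K1 ^ 3 * C' ^ 2 * (s * Real.sqrt s) + 2 * CL * K1 ^ 3 * C' ^ 2 * (s * t) +
            5 / 2 * C3 * C' * (s * Real.sqrt s) + 5 / 2 * C3 * C' * (s * t) := by ring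
        rw [j3]
        linarith
      have j0 : 0 ≤ s * (Real.sqrt s + t) := by positivity
      calc _ ≤ (16 * n) * ((2 * CL * K1 ^ 3 * C' ^ 2 + 5 / 2 * C3 * C') *
            (s * (Real.sqrt s + t))) := by
            refine mul_le_mul hcardn i3 (by positivity) (by positivity)
        _ = (16 * (2 * CL * K1 ^ 3 * C' ^ 2 + 5 / 2 * C3 * C')) * (n * (s * (Real.sqrt s + t))) := by
            ring
        _ ≤ C * (n * (s * (Real.sqrt s + t))) := by
            refine mul_le_mul_of_nonneg_right ?_ (by positivity)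
            linarith
        _ = _ := by ring
    have hfar : ∀ Z : SU N, ∀ l : Lk L, ‖(Z : Mt N) - (vc P Q l : Mt N)‖ ≤ (CK + 2) * ρ1 →
        ‖(Z : Mt N) - (vc P Q l : Mt N)‖ ^ 2 ≤ C * n * ρ ^ 2 := by
      intro Z l h
      calc ‖(Z : Mt N) - (vc P Q l : Mt N)‖ ^ 2 ≤ ((CK + 2) * ρ1) ^ 2 :=
            pow_le_pow_left₀ (norm_nonneg _) h 2
        _ = ((CK + 2) ^ 2 * C') * s := by rw [mul_pow, hρ1sq]; ring
        _ ≤ C * s := mul_le_mul_of_nonneg_right (by linarith) hs0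
        _ = _ := by rw [hs]; ring
    refine ⟨sh Λ B g, cst P Q Λ σ g, ?_, ?_, ?_⟩
    · intro l hl
      unfold sh
      rw [if_neg]
      rintro ⟨h1, h2⟩
      rcases hl with h | h
      · exact h h1
      · exact h2 h
    · intro X hX1 hX2
      obtain ⟨r1, r2⟩ := core hCE.le hCK.le hEm hEn hEe hK' hL1' H hK13
        (by linarith) hBΛ hρ hρρ1 hKρ ht0 ht1 hgm hg1 hg2 hg3 hgfo hgbd
        (fun l h1 h2 => (hnear l h1 h2).2) hX1 hX2
      refine ⟨fun l hl => hfar _ l (r1 l hl), r2.trans ?_⟩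
      exact herr
    · intro X hX1 hX2
      have hneg : (fun l => - sh Λ B g l) = sh Λ B (fun l => - g l) := by
        funext l
        unfold sh
        split_ifs
        · rfl
        · exact neg_zero
      have hgm' : ∀ l, - g l ∈ su N := fun l => su_neg (hgm l)
      have hgfo' : ∀ a : Lk L → Mt N, (∀ l, a l ∈ su N) → (∀ l, l ∉ Frl L Λ → a l = 0) →
          ∑ τ ∈ tml Λ, bf P Q τ a (fun l => - g l) = 0 := by
        intro a h1 h2
        rw [Finset.sum_congr rfl fun τ _ => H.neg' τ g a, Finset.sum_neg_distrib, hgfo a h1 h2,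
          neg_zero]
      obtain ⟨r1, r2⟩ := core (σ := σ') (σ' := σ) (hI := fun l => - g l) hCE.le hCK.le hEm hEn hEe hK' hL1' H hK13
        (by linarith) hBΛ hρ hρρ1 hKρ ht0 ht1 hgm' (fun l hl => by rw [norm_neg]; exact hg1 l hl)
        (fun l hl => by rw [norm_neg]; exact hg2 l hl)
        (fun l hl => by rw [norm_neg]; exact hg3 l hl) hgfo'
        (fun l hl => by rw [hgbd l hl]; abel)
        (fun l h1 h2 => (hnear l h1 h2).1) hX1 hX2
      rw [hneg]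
      refine ⟨fun l hl => hfar _ l (r1 l hl), ?_⟩
      -- the two constants are opposite
      have hc : cst P Q Λ σ' (fun l => - g l) = - cst P Q Λ σ g := by
        have e1 : cst P Q Λ σ' (fun l => - g l) + cst P Q Λ σ g = 0 := by
          unfold cst
          rw [← Finset.sum_add_distrib]
          have h0 := hgfo (fun l => if l ∈ Frl L Λ then g l else 0)
            (fun l => by
              try simp only
              split_ifs
              · exact hgm l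
              · exact su_zero)
            (fun l hl => if_neg hl)
          rw [← h0]
          refine Finset.sum_congr rfl fun τ hτ => ?_
          rw [H.neg' τ g, H.neg' τ g, H.neg τ g, neg_neg]
          have e2 : bf P Q τ (x0 P Q Λ σ') g = bf P Q τ (x0 P Q Λ σ) g +
              bf P Q τ (fun l => if l ∈ Frl L Λ then 0 else g l) g := by
            rw [← H.add]
            refine H.congr τ _ _ _ fun l hl => ?_
            unfold x0
            by_cases hF : l ∈ Frl L Λ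
            · rw [if_pos hF, if_pos hF, if_pos hF, add_zero]
            · rw [if_neg hF, if_neg hF, if_neg hF, hgbd l ((mem_bdl Λ l).2 ⟨⟨τ, hτ, hl⟩, hF⟩)]
              abel
          have e3 : bf P Q τ g g = bf P Q τ (fun l => if l ∈ Frl L Λ then g l else 0) g +
              bf P Q τ (fun l => if l ∈ Frl L Λ then 0 else g l) g := by
            rw [← H.add]
            refine H.congr τ _ _ _ fun l _ => ?_
            split_ifs
            · rw [add_zero]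
            · rw [zero_add]
          rw [e2]
          linarith
        linarith
      rw [hc, sub_neg_eq_add] at r2
      exact r2.trans herr

end T2H02.TT
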