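import Pool.Agent.T2H02.TT.StmU
import Pool.Agent.T2H02.TT.M0
import Pool.Agent.T2H02.TT.LL

/-!
# Package M0u : the deterministic comparison with constants polynomial in `L`
-/

set_option autoImplicit false

noncomputable section

open MeasureTheory Matrix
open scoped Matrix.Norms.Frobenius

namespace T2H02.TT

namespace PkgM0u

open PkgM0

variable {N L : ℕ} [NeZero L]

theorem fixedL {k : ℕ} {P Q : SU N} {E : Mt N → SU N} {CE CK CL C3 CI C' K1 D C : ℝ} {T : ℕ → ℝ}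
    (hCE : 0 < CE) (hCK : 0 < CK) (hCL : 1 ≤ CL) (hC3 : 1 ≤ C3) (hCI : 1 ≤ CI)
    (hEm : ∀ M : Mt N, pr M ∈ su N) (hEn : ∀ M : Mt N, ‖pr M‖ ≤ ‖M‖)
    (hEe : ∀ g : SU N, ‖((g : Mt N) - 1) - pr ((g : Mt N) - 1)‖ ≤ CE * ‖(g : Mt N) - 1‖ ^ 2)
    (hK' : ∀ (h : Lk L → Mt N) (ρ : ℝ) (X : Cf N L), 0 ≤ ρ → ρ ≤ 1 →
      (∀ l, h l ∈ su N ∧ ‖h l‖ ≤ ρ) →
      (∀ l, h l = 0 → TM P Q E h X l = X l) ∧
      (∀ l : Lk L, (∀ y j, ‖(pt X l.1.1 y j : Mt N) - (vac P Q y j : Mt N)‖ ≤ ρ) →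
        (l.2 = 2 ∨ l.2 = 3 → ‖(X (l.1, 0) : Mt N) - 1‖ ≤ ρ ∧
          ∀ y j, ‖(pt X (l.1.1 + (1, 0)) y j : Mt N) - (vac P Q y j : Mt N)‖ ≤ ρ) →
        ‖(TM P Q E h X l : Mt N) - (1 + h l) * (X l : Mt N)‖ ≤ CK * ρ ^ 2))
    (hL1' : ∀ (τ : Tm) (X : Cf N L) (a : Lk L → Mt N) (ρ : ℝ), 0 ≤ ρ → ρ ≤ 1 →
      (∀ l ∈ (spt τ : Finset (Lk L)), ‖a l‖ ≤ ρ ∧
        ‖(X l : Mt N) - (1 + a l) * (vc P Q l : Mt N)‖ ≤ ρ ^ 2) →
      |en1 k X τ - bf P Q τ a a / 2| ≤ CL * ρ ^ 3)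
    (H : Frm P Q L C3)
    (hT0 : ∀ R, 0 ≤ T R) (hT1 : ∀ R, T R ≤ 1)
    (hI' : ∀ (Λ : Finset Pl) (kk : Lk L → Mt N), (∀ l, kk l ∈ su N) →
      ∃ h : Lk L → Mt N, (∀ l, h l ∈ su N) ∧ (∀ l, l ∉ Frl L Λ → h l = kk l) ∧
      (∀ a : Lk L → Mt N, (∀ l, a l ∈ su N) → (∀ l, l ∉ Frl L Λ → a l = 0) →
        ∑ τ ∈ tml Λ, bf P Q τ a h = 0) ∧
      (∀ l ∈ Frl L Λ, ‖h l‖ ^ 2 ≤ CI * ∑ l' ∈ bdl L Λ, ‖kk l'‖ ^ 2) ∧
      ∀ (B : Finset Pl) (R : ℕ), B ⊆ Λ →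
        (∀ l, l ∉ Frl L Λ → (∀ a ∈ st l, a ∈ bal R B) → kk l = 0) →
        ∀ l ∈ Frl L B, ‖h l‖ ^ 2 ≤ CI * T R ^ 2 * ∑ l' ∈ bdl L Λ, ‖kk l'‖ ^ 2)
    (hD : D = 80 * Fintype.card (Tor L)) (hC' : C' = 4 * CI * D + 4) (hK1 : K1 = 3 + CK + 1 + 2 * CE)
    (hC : K1 ^ 2 * C' + (CK + 2) ^ 2 * C' + 16 * (2 * CL * K1 ^ 3 * C' ^ 2 + 5 / 2 * C3 * C') + 1 ≤ C)
    (Λ B : Finset Pl) (R : ℕ) (ρ : ℝ) (σ σ' : Cf N L) (hBΛ : B ⊆ Λ) (hρ : 0 ≤ ρ)
    (hsmall : C * Λ.card * ρ ^ 2 ≤ 1)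
    (hnear : ∀ l, l ∉ Frl L Λ → (∀ a ∈ st l, a ∈ pls Λ) →
      ‖(σ l : Mt N) - (vc P Q l : Mt N)‖ ≤ ρ ∧ ‖(σ' l : Mt N) - (vc P Q l : Mt N)‖ ≤ ρ)
    (hagree : ∀ l, l ∉ Frl L Λ → (∀ a ∈ st l, a ∈ bal R B) → σ l = σ' l) :
    ∃ (h : Lk L → Mt N) (c' : ℝ), (∀ l, l ∉ Frl L Λ ∨ l ∈ Frl L B → h l = 0) ∧
      (∀ X : Cf N L, (∀ l, l ∉ Frl L Λ → X l = σ l) →
        (∀ l, (∀ a ∈ st l, a ∈ pls Λ) → ‖(X l : Mt N) - (vc P Q l : Mt N)‖ ≤ ρ) →
        (∀ l, (∀ a ∈ st l, a ∈ pls Λ) →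
          ‖((glue (Frl L Λ) (TM P Q E h X) σ' l : SU N) : Mt N) - (vc P Q l : Mt N)‖ ^ 2 ≤
            C * Λ.card * ρ ^ 2) ∧
        |∑ τ ∈ tml Λ, (en1 k (glue (Frl L Λ) (TM P Q E h X) σ') τ - en1 k X τ) - c'| ≤
          C * Λ.card * (Λ.card * ρ ^ 2) *
            (Real.sqrt (Λ.card * ρ ^ 2) + T R)) ∧
      (∀ X : Cf N L, (∀ l, l ∉ Frl L Λ → X l = σ' l) →
        (∀ l, (∀ a ∈ st l, a ∈ pls Λ) → ‖(X l : Mt N) - (vc P Q l : Mt N)‖ ≤ ρ) →
        (∀ l, (∀ a ∈ st l, a ∈ pls Λ) →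
          ‖((glue (Frl L Λ) (TM P Q E (fun l => - h l) X) σ l : SU N) : Mt N) -
            (vc P Q l : Mt N)‖ ^ 2 ≤ C * Λ.card * ρ ^ 2) ∧
        |∑ τ ∈ tml Λ, (en1 k (glue (Frl L Λ) (TM P Q E (fun l => - h l) X) σ) τ - en1 k X τ) + c'| ≤
          C * Λ.card * (Λ.card * ρ ^ 2) *
            (Real.sqrt (Λ.card * ρ ^ 2) + T R)) := by
  have hD0 : 0 ≤ D := by rw [hD]; positivity
  have hC'4 : 4 ≤ C' := by
    have : 0 ≤ 4 * CI * D := by positivity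
    linarith
  have hK13 : 3 ≤ K1 := by linarith
  have p1 : 0 ≤ K1 ^ 2 * C' := by positivity
  have p2 : 0 ≤ (CK + 2) ^ 2 * C' := by positivity
  have p3 : 0 ≤ 2 * CL * K1 ^ 3 * C' ^ 2 := by positivity
  have p4 : 0 ≤ 5 / 2 * C3 * C' := by positivity
  have hC1 : 1 ≤ C := by linarith
  rcases Finset.eq_empty_or_nonempty Λ with hΛ | hΛ
  · -- empty set
    subst hΛ
    have ht : tml (∅ : Finset Pl) = ∅ := by
      ext τ
      rw [mem_tml]
      simp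
    have hp : ∀ l : Lk L, ¬ ∀ a ∈ st l, a ∈ pls (∅ : Finset Pl) := by
      intro l h
      have := h l.1.1 ((mem_st l _).2 (Or.inl rfl))
      simp [pls] at this
    refine ⟨fun _ => 0, 0, fun _ _ => rfl, fun X _ _ => ⟨fun l hl => absurd hl (hp l), ?_⟩,
      fun X _ _ => ⟨fun l hl => absurd hl (hp l), ?_⟩⟩
    · rw [ht]; simp
    · rw [ht]; simp
  · -- main case
    have hn1 : (1 : ℝ) ≤ Λ.card := by
      exact_mod_cast Finset.one_le_card.2 hΛ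
    set n : ℝ := ((Λ.card : ℕ) : ℝ) with hn
    have hn0 : 0 ≤ n := by linarith
    set s : ℝ := n * ρ ^ 2 with hs
    have hs0 : 0 ≤ s := by positivity
    set ρ1 : ℝ := Real.sqrt (C' * s) with hρ1
    have hρ1n : 0 ≤ ρ1 := Real.sqrt_nonneg _
    have hρ1sq : ρ1 ^ 2 = C' * s := Real.sq_sqrt (by positivity)
    have hsq1 : 4 * ρ ^ 2 ≤ ρ1 ^ 2 := by
      rw [hρ1sq]
      have e1 : ρ ^ 2 ≤ s := by
        have := mul_le_mul_of_nonneg_right hn1 (sq_nonneg ρ)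
        rw [one_mul] at this
        exact this
      exact mul_le_mul hC'4 e1 (sq_nonneg _) (by linarith)
    have h2ρ : 2 * ρ ≤ ρ1 := by
      refine le_of_sq_le_sq ?_ hρ1n
      rw [mul_pow]; linarith
    have hρρ1 : ρ ≤ ρ1 := by linarith
    have hCs : C * s ≤ 1 := by rw [hs]; rw [← mul_assoc]; exact hsmall
    have hKρ : K1 * ρ1 ≤ 1 := by
      refine le_of_sq_le_sq ?_ zero_le_one
      rw [mul_pow, hρ1sq, one_pow]
      have : K1 ^ 2 * (C' * s) = (K1 ^ 2 * C') * s := by ring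
      rw [this]
      refine le_trans (mul_le_mul_of_nonneg_right ?_ hs0) hCs
      linarith
    -- the boundary data
    classical
    set kk : Lk L → Mt N := fun l => if l ∈ bdl L Λ then xi P Q σ' l - xi P Q σ l else 0 with hkk
    have hkm : ∀ l, kk l ∈ su N := by
      intro l
      rw [hkk]
      simp only
      split_ifs
      · exact su_sub (hEm _) (hEm _)
      · exact su_zero
    have hkn : ∀ l ∈ bdl L Λ, ‖kk l‖ ≤ 2 * ρ := by
      intro l hl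
      have hF : l ∉ Frl L Λ := ((mem_bdl Λ l).1 hl).2
      obtain ⟨h1, h2⟩ := hnear l hF (bdl_pls hl)
      rw [hkk]
      simp only
      rw [if_pos hl]
      refine (norm_sub_le _ _).trans ?_
      have h3 := (xi_norm hEn P Q σ' l).trans h2
      have h4 := (xi_norm hEn P Q σ l).trans h1
      linarith
    obtain ⟨g, hgm, hgk, hgfo, hgb, hgd⟩ := hI' Λ kk hkm
    have hksum : ∑ l' ∈ bdl L Λ, ‖kk l'‖ ^ 2 ≤ 4 * D * s := by
      calc ∑ l' ∈ bdl L Λ, ‖kk l'‖ ^ 2 ≤ ∑ l' ∈ bdl L Λ, (2 * ρ) ^ 2 :=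
            Finset.sum_le_sum fun l hl => pow_le_pow_left₀ (norm_nonneg _) (hkn l hl) 2
        _ = (bdl L Λ).card * (2 * ρ) ^ 2 := by rw [Finset.sum_const, nsmul_eq_mul]
        _ ≤ (D * n) * (2 * ρ) ^ 2 := by
            refine mul_le_mul_of_nonneg_right ?_ (sq_nonneg _)
            rw [hD, hn]
            exact_mod_cast card_bdl (L := L) Λ
        _ = 4 * D * s := by rw [hs]; ring
    have hCIs : CI * ∑ l' ∈ bdl L Λ, ‖kk l'‖ ^ 2 ≤ ρ1 ^ 2 := by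
      rw [hρ1sq]
      calc CI * ∑ l' ∈ bdl L Λ, ‖kk l'‖ ^ 2 ≤ CI * (4 * D * s) :=
            mul_le_mul_of_nonneg_left hksum (by linarith)
        _ ≤ C' * s := by
            have e1 : C' * s = CI * (4 * D * s) + 4 * s := by rw [hC']; ring
            rw [e1]
            linarith
    have hg1 : ∀ l ∈ Frl L Λ, ‖g l‖ ≤ ρ1 := fun l hl =>
      le_of_sq_le_sq ((hgb l hl).trans hCIs) hρ1n
    have hgbd : ∀ l ∈ bdl L Λ, g l = xi P Q σ' l - xi P Q σ l := by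
      intro l hl
      rw [hgk l ((mem_bdl Λ l).1 hl).2, hkk]
      simp only
      rw [if_pos hl]
    have hg2 : ∀ l ∈ bdl L Λ, ‖g l‖ ≤ ρ1 := by
      intro l hl
      rw [hgk l ((mem_bdl Λ l).1 hl).2]
      exact (hkn l hl).trans h2ρ
    set t : ℝ := T R with ht
    have ht0 : 0 ≤ t := hT0 R
    have ht1 : t ≤ 1 := hT1 R
    have hk0 : ∀ l, l ∉ Frl L Λ → (∀ a ∈ st l, a ∈ bal R B) → kk l = 0 := by
      intro l hF hb
      rw [hkk]
      simp only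
      split_ifs
      · unfold xi
        rw [hagree l hF hb, sub_self]
      · rfl
    have hg3 : ∀ l ∈ Frl L B, ‖g l‖ ≤ t * ρ1 := by
      intro l hl
      refine le_of_sq_le_sq ?_ (by positivity)
      rw [mul_pow]
      refine (hgd B R hBΛ hk0 l hl).trans ?_
      have : CI * t ^ 2 * ∑ l' ∈ bdl L Λ, ‖kk l'‖ ^ 2 =
          t ^ 2 * (CI * ∑ l' ∈ bdl L Λ, ‖kk l'‖ ^ 2) := by ring
      rw [this]
      exact mul_le_mul_of_nonneg_left hCIs (by positivity)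
    -- the error term
    have hcardn : ((tml Λ).card : ℝ) ≤ 16 * n := by
      rw [hn]; exact_mod_cast card_tml Λ
    have hρ1le : ρ1 ≤ C' * Real.sqrt s := by
      rw [hρ1, Real.sqrt_mul (by positivity)]
      refine mul_le_mul_of_nonneg_right ?_ (Real.sqrt_nonneg _)
      rw [Real.sqrt_le_left (by positivity), sq]
      have : C' * 1 ≤ C' * C' := mul_le_mul_of_nonneg_left (by linarith) (by linarith)
      linarith
    have hcube : ρ1 ^ 3 ≤ C' ^ 2 * (s * Real.sqrt s) := by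
      have e1 : ρ1 ^ 3 = ρ1 ^ 2 * ρ1 := by ring
      rw [e1, hρ1sq]
      calc C' * s * ρ1 ≤ C' * s * (C' * Real.sqrt s) :=
            mul_le_mul_of_nonneg_left hρ1le (by positivity)
        _ = _ := by ring
    have herr : (tml Λ).card * (2 * (CL * (K1 * ρ1) ^ 3) + 5 / 2 * (C3 * (t * ρ1 ^ 2))) ≤
        C * n * s * (Real.sqrt s + t) := by
      have hs' : 0 ≤ s * Real.sqrt s := by positivity
      have i1 : 2 * (CL * (K1 * ρ1) ^ 3) ≤ 2 * CL * K1 ^ 3 * C' ^ 2 * (s * Real.sqrt s) := by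
        have : 2 * (CL * (K1 * ρ1) ^ 3) = 2 * CL * K1 ^ 3 * ρ1 ^ 3 := by ring
        rw [this]
        calc 2 * CL * K1 ^ 3 * ρ1 ^ 3 ≤ 2 * CL * K1 ^ 3 * (C' ^ 2 * (s * Real.sqrt s)) :=
              mul_le_mul_of_nonneg_left hcube (by positivity)
          _ = _ := by ring
      have i2 : 5 / 2 * (C3 * (t * ρ1 ^ 2)) = 5 / 2 * C3 * C' * (s * t) := by
        rw [hρ1sq]; ring
      have hst : 0 ≤ s * t := by positivity
      have i3 : 2 * (CL * (K1 * ρ1) ^ 3) + 5 / 2 * (C3 * (t * ρ1 ^ 2)) ≤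
          (2 * CL * K1 ^ 3 * C' ^ 2 + 5 / 2 * C3 * C') * (s * (Real.sqrt s + t)) := by
        rw [i2]
        have j1 : 0 ≤ 2 * CL * K1 ^ 3 * C' ^ 2 * (s * t) := mul_nonneg p3 hst
        have j2 : 0 ≤ 5 / 2 * C3 * C' * (s * Real.sqrt s) := mul_nonneg p4 hs'
        have j3 : (2 * CL * K1 ^ 3 * C' ^ 2 + 5 / 2 * C3 * C') * (s * (Real.sqrt s + t)) =
            2 * CL * K1 ^ 3 * C' ^ 2 * (s * Real.sqrt s) + 2 * CL * K1 ^ 3 * C' ^ 2 * (s * t) +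
            5 / 2 * C3 * C' * (s * Real.sqrt s) + 5 / 2 * C3 * C' * (s * t) := by ring
        rw [j3]
        linarith
      have j0 : 0 ≤ s * (Real.sqrt s + t) := by positivity
      calc _ ≤ (16 * n) * ((2 * CL * K1 ^ 3 * C' ^ 2 + 5 / 2 * C3 * C') *
            (s * (Real.sqrt s + t))) := by
            refine mul_le_mul hcardn i3 (by positivity) (by positivity)
        _ = (16 * (2 * CL * K1 ^ 3 * C' ^ 2 + 5 / 2 * C3 * C')) * (n * (s * (Real.sqrt s + t))) := by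
            ring
        _ ≤ C * (n * (s * (Real.sqrt s + t))) := by
            refine mul_le_mul_of_nonneg_right ?_ (by positivity)
            linarith
        _ = _ := by ring
    have hfar : ∀ Z : SU N, ∀ l : Lk L, ‖(Z : Mt N) - (vc P Q l : Mt N)‖ ≤ (CK + 2) * ρ1 →
        ‖(Z : Mt N) - (vc P Q l : Mt N)‖ ^ 2 ≤ C * n * ρ ^ 2 := by
      intro Z l h
      calc ‖(Z : Mt N) - (vc P Q l : Mt N)‖ ^ 2 ≤ ((CK + 2) * ρ1) ^ 2 :=
            pow_le_pow_left₀ (norm_nonneg _) h 2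
        _ = ((CK + 2) ^ 2 * C') * s := by rw [mul_pow, hρ1sq]; ring
        _ ≤ C * s := mul_le_mul_of_nonneg_right (by linarith) hs0
        _ = _ := by rw [hs]; ring
    refine ⟨sh Λ B g, cst P Q Λ σ g, ?_, ?_, ?_⟩
    · intro l hl
      unfold sh
      rw [if_neg]
      rintro ⟨h1, h2⟩
      rcases hl with h | h
      · exact h h1
      · exact h2 h
    · intro X hX1 hX2
      obtain ⟨r1, r2⟩ := core hCE.le hCK.le hEm hEn hEe hK' hL1' H hK13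
        (by linarith) hBΛ hρ hρρ1 hKρ ht0 ht1 hgm hg1 hg2 hg3 hgfo hgbd
        (fun l h1 h2 => (hnear l h1 h2).2) hX1 hX2
      refine ⟨fun l hl => hfar _ l (r1 l hl), r2.trans ?_⟩
      exact herr
    · intro X hX1 hX2
      have hneg : (fun l => - sh Λ B g l) = sh Λ B (fun l => - g l) := by
        funext l
        unfold sh
        split_ifs
        · rfl
        · exact neg_zero
      have hgm' : ∀ l, - g l ∈ su N := fun l => su_neg (hgm l)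
      have hgfo' : ∀ a : Lk L → Mt N, (∀ l, a l ∈ su N) → (∀ l, l ∉ Frl L Λ → a l = 0) →
          ∑ τ ∈ tml Λ, bf P Q τ a (fun l => - g l) = 0 := by
        intro a h1 h2
        rw [Finset.sum_congr rfl fun τ _ => H.neg' τ g a, Finset.sum_neg_distrib, hgfo a h1 h2,
          neg_zero]
      obtain ⟨r1, r2⟩ := core (σ := σ') (σ' := σ) (hI := fun l => - g l) hCE.le hCK.le hEm hEn hEe hK' hL1' H hK13
        (by linarith) hBΛ hρ hρρ1 hKρ ht0 ht1 hgm' (fun l hl => by rw [norm_neg]; exact hg1 l hl)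
        (fun l hl => by rw [norm_neg]; exact hg2 l hl)
        (fun l hl => by rw [norm_neg]; exact hg3 l hl) hgfo'
        (fun l hl => by rw [hgbd l hl]; abel)
        (fun l h1 h2 => (hnear l h1 h2).1) hX1 hX2
      rw [hneg]
      refine ⟨fun l hl => hfar _ l (r1 l hl), ?_⟩
      -- the two constants are opposite
      have hc : cst P Q Λ σ' (fun l => - g l) = - cst P Q Λ σ g := by
        have e1 : cst P Q Λ σ' (fun l => - g l) + cst P Q Λ σ g = 0 := by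
          unfold cst
          rw [← Finset.sum_add_distrib]
          have h0 := hgfo (fun l => if l ∈ Frl L Λ then g l else 0)
            (fun l => by
              try simp only
              split_ifs
              · exact hgm l
              · exact su_zero)
            (fun l hl => if_neg hl)
          rw [← h0]
          refine Finset.sum_congr rfl fun τ hτ => ?_
          rw [H.neg' τ g, H.neg' τ g, H.neg τ g, neg_neg]
          have e2 : bf P Q τ (x0 P Q Λ σ') g = bf P Q τ (x0 P Q Λ σ) g +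
              bf P Q τ (fun l => if l ∈ Frl L Λ then 0 else g l) g := by
            rw [← H.add]
            refine H.congr τ _ _ _ fun l hl => ?_
            unfold x0
            by_cases hF : l ∈ Frl L Λ
            · rw [if_pos hF, if_pos hF, if_pos hF, add_zero]
            · rw [if_neg hF, if_neg hF, if_neg hF, hgbd l ((mem_bdl Λ l).2 ⟨⟨τ, hτ, hl⟩, hF⟩)]
              abel
          have e3 : bf P Q τ g g = bf P Q τ (fun l => if l ∈ Frl L Λ then g l else 0) g +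
              bf P Q τ (fun l => if l ∈ Frl L Λ then 0 else g l) g := by
            rw [← H.add]
            refine H.congr τ _ _ _ fun l _ => ?_
            split_ifs
            · rw [add_zero]
            · rw [zero_add]
          rw [e2]
          linarith
        linarith
      rw [hc, sub_neg_eq_add] at r2
      exact r2.trans herr


lemma arith {CK CL C3 A1 A2 K1 C' a b l d : ℝ} (hCK : 0 ≤ CK) (hCL : 0 ≤ CL) (hC3 : 0 ≤ C3)
    (hA1 : 0 ≤ A1) (hA2 : 0 ≤ A2) (hK0 : 0 ≤ K1) (hC0 : 0 ≤ C') (hK1 : K1 ≤ A1 * a)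
    (hC' : C' ≤ A2 * b) (ha : 1 ≤ a) (hb : 1 ≤ b) (hl : 1 ≤ l) (hd : 1 ≤ d) :
    K1 ^ 2 * C' + (CK * a + 2) ^ 2 * C' +
        16 * (2 * (CL * l) * K1 ^ 3 * C' ^ 2 + 5 / 2 * (C3 * d) * C') + 1 ≤
      (A1 ^ 2 * A2 + (CK + 2) ^ 2 * A2 + 16 * (2 * CL * A1 ^ 3 * A2 ^ 2 + 5 / 2 * C3 * A2) + 1) *
        (a ^ 3 * b ^ 2 * l * d) := by
  have ha0 : 0 ≤ a := by linarith
  have hb0 : 0 ≤ b := by linarith
  have hl0 : 0 ≤ l := by linarith
  have hd0 : 0 ≤ d := by linarith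
  set W : ℝ := a ^ 3 * b ^ 2 * l * d with hW
  have one : ∀ x y : ℝ, 1 ≤ x → 1 ≤ y → 1 ≤ x * y := fun x y hx hy =>
    one_le_mul_of_one_le_of_one_le hx hy
  have hW1 : 1 ≤ W := one _ _ (one _ _ (one _ _ (one_le_pow₀ ha) (one_le_pow₀ hb)) hl) hd
  have w1 : a ^ 2 * b ≤ W := by
    have e : W = (a ^ 2 * b) * (((a * b) * l) * d) := by rw [hW]; ring
    rw [e]
    exact le_mul_of_one_le_right (by positivity) (one _ _ (one _ _ (one _ _ ha hb) hl) hd)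
  have w2 : a ^ 3 * b ^ 2 * l ≤ W := by
    rw [hW]
    exact le_mul_of_one_le_right (by positivity) hd
  have w3 : b * d ≤ W := by
    have e : W = (b * d) * ((a ^ 3 * b) * l) := by rw [hW]; ring
    rw [e]
    exact le_mul_of_one_le_right (by positivity) (one _ _ (one _ _ (one_le_pow₀ ha) hb) hl)
  have t1 : K1 ^ 2 * C' ≤ A1 ^ 2 * A2 * W := by
    calc K1 ^ 2 * C' ≤ (A1 * a) ^ 2 * (A2 * b) :=
          mul_le_mul (pow_le_pow_left₀ hK0 hK1 2) hC' hC0 (sq_nonneg _)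
      _ = A1 ^ 2 * A2 * (a ^ 2 * b) := by ring
      _ ≤ _ := mul_le_mul_of_nonneg_left w1 (by positivity)
  have t2 : (CK * a + 2) ^ 2 * C' ≤ (CK + 2) ^ 2 * A2 * W := by
    have h : CK * a + 2 ≤ (CK + 2) * a := by linarith
    calc (CK * a + 2) ^ 2 * C' ≤ ((CK + 2) * a) ^ 2 * (A2 * b) :=
          mul_le_mul (pow_le_pow_left₀ (by positivity) h 2) hC' hC0 (sq_nonneg _)
      _ = (CK + 2) ^ 2 * A2 * (a ^ 2 * b) := by ring
      _ ≤ _ := mul_le_mul_of_nonneg_left w1 (by positivity)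
  have t3 : 2 * (CL * l) * K1 ^ 3 * C' ^ 2 ≤ 2 * CL * A1 ^ 3 * A2 ^ 2 * W := by
    calc 2 * (CL * l) * K1 ^ 3 * C' ^ 2 ≤ 2 * (CL * l) * (A1 * a) ^ 3 * (A2 * b) ^ 2 := by
          refine mul_le_mul (mul_le_mul_of_nonneg_left (pow_le_pow_left₀ hK0 hK1 3) (by positivity))
            (pow_le_pow_left₀ hC0 hC' 2) (sq_nonneg _) (by positivity)
      _ = 2 * CL * A1 ^ 3 * A2 ^ 2 * (a ^ 3 * b ^ 2 * l) := by ring
      _ ≤ _ := mul_le_mul_of_nonneg_left w2 (by positivity)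
  have t4 : 5 / 2 * (C3 * d) * C' ≤ 5 / 2 * C3 * A2 * W := by
    calc 5 / 2 * (C3 * d) * C' ≤ 5 / 2 * (C3 * d) * (A2 * b) :=
          mul_le_mul_of_nonneg_left hC' (by positivity)
      _ = 5 / 2 * C3 * A2 * (b * d) := by ring
      _ ≤ _ := mul_le_mul_of_nonneg_left w3 (by positivity)
  have e : (A1 ^ 2 * A2 + (CK + 2) ^ 2 * A2 + 16 * (2 * CL * A1 ^ 3 * A2 ^ 2 + 5 / 2 * C3 * A2) + 1) *
      W = A1 ^ 2 * A2 * W + (CK + 2) ^ 2 * A2 * W + 16 * (2 * CL * A1 ^ 3 * A2 ^ 2 * W +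
      5 / 2 * C3 * A2 * W) + W := by ring
  rw [e]
  linarith

lemma card_tor : (Fintype.card (Tor L) : ℝ) = (L : ℝ) ^ 2 := by
  simp [Tor, Fintype.card_prod, sq]

end PkgM0u

open PkgM0 PkgM0u in
theorem pM0u (hE4 : S_E4) (hI : S_Iu) (hK : S_Ku) (hL1 : S_L1u) (hL3 : S_L3u) : S_M0u := by
  intro N k hN hk P Q hPQ E C₀ hGE
  obtain ⟨hEm, -, -, hEn, -, ⟨CE, hCE, hEe⟩, -⟩ := hE4 N hN
  obtain ⟨hC0, hEc, hE0, hEa, hEp⟩ := hGE
  obtain ⟨CK, KK, hCK, hK'⟩ := hK N k hN hk P Q hPQ E C₀ hEc hE0 hEp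
  obtain ⟨CL, KL, hCL, hL1'⟩ := hL1 N k hN hk P Q hPQ
  obtain ⟨C3, K3, hC3, hL3a⟩ := hL3 N hN P Q
  obtain ⟨CI, cI, KI, hCI, hcI, hI'⟩ := hI N k hN hk P Q hPQ
  have hCK0 : 0 ≤ CK := by linarith
  have hCL0 : 0 ≤ CL := by linarith
  have hC30 : 0 ≤ C3 := by linarith
  have hCI0 : 0 ≤ CI := by linarith
  refine ⟨(4 + CK + 2 * CE) ^ 2 * (320 * CI + 4) + (CK + 2) ^ 2 * (320 * CI + 4) +
    16 * (2 * CL * (4 + CK + 2 * CE) ^ 3 * (320 * CI + 4) ^ 2 + 5 / 2 * C3 * (320 * CI + 4)) + 1,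
    cI / 2, 3 * KK + 2 * (KI + 2) + KL + K3, ?_, by positivity, ?_⟩
  · have : 0 ≤ (4 + CK + 2 * CE) ^ 2 * (320 * CI + 4) + (CK + 2) ^ 2 * (320 * CI + 4) +
        16 * (2 * CL * (4 + CK + 2 * CE) ^ 3 * (320 * CI + 4) ^ 2 +
          5 / 2 * C3 * (320 * CI + 4)) := by positivity
    linarith
  intro L _ Λ B R ρ σ σ' hBΛ hΛB hρ hsmall hnear hagree
  have hL1r : (1 : ℝ) ≤ L := by exact_mod_cast Nat.one_le_iff_ne_zero.2 (NeZero.ne L)
  have hL0 : (0 : ℝ) < L := by linarith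
  have hpow : ∀ n : ℕ, (1 : ℝ) ≤ (L : ℝ) ^ n := fun n => one_le_pow₀ hL1r
  obtain ⟨-, -, -, hL3b⟩ := pL3 N L hN P Q
  have H : Frm P Q L (C3 * (L : ℝ) ^ K3) :=
    ⟨fun τ a b r s hr hs h => hL3a L τ a b r s hr hs h,
      fun τ a b c => (hL3b τ a b c).1, fun τ a b => (hL3b τ a b a).2⟩
  have hT : ∀ R : ℕ, 0 ≤ cI / 2 * R / L := fun R => by positivity
  have harith := arith (CK := CK) (CL := CL) (C3 := C3) (A1 := 4 + CK + 2 * CE) (A2 := 320 * CI + 4)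
    (K1 := 3 + CK * (L : ℝ) ^ KK + 1 + 2 * CE)
    (C' := 4 * (CI * (L : ℝ) ^ KI) * (80 * Fintype.card (Tor L)) + 4)
    (a := (L : ℝ) ^ KK) (b := (L : ℝ) ^ (KI + 2)) (l := (L : ℝ) ^ KL) (d := (L : ℝ) ^ K3)
    hCK0 hCL0 hC30 (by positivity) (by positivity) (by positivity) (by positivity)
    (by
      have h1 := hpow KK
      have h2 : 2 * CE * 1 ≤ 2 * CE * (L : ℝ) ^ KK := mul_le_mul_of_nonneg_left h1 (by positivity)
      nlinarith)
    (by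
      rw [card_tor]
      have h1 := hpow (KI + 2)
      have e : 4 * (CI * (L : ℝ) ^ KI) * (80 * (L : ℝ) ^ 2) = 320 * CI * (L : ℝ) ^ (KI + 2) := by
        rw [pow_add]; ring
      rw [e]
      nlinarith)
    (hpow _) (hpow _) (hpow _) (hpow _)
  have hW : ((L : ℝ) ^ KK) ^ 3 * ((L : ℝ) ^ (KI + 2)) ^ 2 * (L : ℝ) ^ KL * (L : ℝ) ^ K3 =
      (L : ℝ) ^ (3 * KK + 2 * (KI + 2) + KL + K3) := by
    rw [← pow_mul, ← pow_mul, ← pow_add, ← pow_add, ← pow_add]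
    congr 1
    ring
  rw [hW] at harith
  exact fixedL (T := fun R : ℕ => Real.exp (-(cI / 2) * R / L)) hCE
    (CK := CK * (L : ℝ) ^ KK) (CL := CL * (L : ℝ) ^ KL) (C3 := C3 * (L : ℝ) ^ K3)
    (CI := CI * (L : ℝ) ^ KI) (by positivity)
    (by nlinarith [hpow KL]) (by nlinarith [hpow K3]) (by nlinarith [hpow KI])
    hEm hEn hEe (fun h ρ X h1 h2 h3 => hK' L h ρ X h1 h2 h3)
    (fun τ X a ρ h1 h2 h3 => hL1' L τ X a ρ h1 h2 h3) H
    (fun R => (Real.exp_pos _).le)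
    (fun R => by
      rw [Real.exp_le_one_iff]
      have := hT R
      have e : -(cI / 2) * (R : ℝ) / L = -(cI / 2 * R / L) := by ring
      rw [e]
      linarith)
    (fun Λ kk hkk => by
      obtain ⟨h, h1, h2, h3, h4, h5⟩ := hI' L Λ kk hkk
      refine ⟨h, h1, h2, h3, h4, fun B R hB h6 l hl => (h5 B R hB h6 l hl).trans (le_of_eq ?_)⟩
      have e : Real.exp (-(cI / 2) * R / L) ^ 2 = Real.exp (-cI * R / L) := by
        rw [← Real.exp_nat_mul]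
        congr 1
        push_cast
        ring
      rw [e])
    rfl rfl rfl harith Λ B R ρ σ σ' hBΛ hρ hsmall hnear hagree

end T2H02.TT
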