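import Pool.Agent.T2H02.TT.Stm2
import Pool.Agent.T2H02.TT.D
import Pool.Agent.T2H02.TT.F

/-!
# Package M1 : comparison of kernels, boundary values near the vacuum
-/

set_option autoImplicit false
set_option linter.unusedSectionVars false
set_option linter.unusedVariables false
set_option linter.unusedSimpArgs false

noncomputable section

open MeasureTheory Matrix
open scoped Matrix.Norms.Frobenius

namespace T2H02.TT.PkgM1

open T2H02.TT

variable {N L : ℕ} [NeZero L]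

/-! ### geometry -/

lemma mem_Nb1 (a b : Pl) : a ∈ Nb 1 b ↔ near 1 a b := by
  unfold Nb near
  rw [Finset.mem_product, Finset.mem_Icc, Finset.mem_Icc, abs_le, abs_le]
  push_cast
  constructor
  · rintro ⟨⟨h1, h2⟩, h3, h4⟩
    exact ⟨⟨by linarith, by linarith⟩, by linarith, by linarith⟩
  · rintro ⟨⟨h1, h2⟩, h3, h4⟩
    exact ⟨⟨by linarith, by linarith⟩, by linarith, by linarith⟩

lemma mem_pls (U : Finset Pl) (a : Pl) : a ∈ pls U ↔ ∃ b ∈ U, near 1 a b := by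
  unfold pls
  rw [Finset.mem_biUnion]
  simp only [mem_Nb1]

lemma sub_pls_of_Frl {Λ : Finset Pl} {l : Lk L} (h : l ∈ Frl L Λ) : ∀ a ∈ st l, a ∈ pls Λ := by
  obtain ⟨b, hb, hbΛ⟩ := (mem_Frl Λ l).1 h
  intro a ha
  exact (mem_pls _ _).2 ⟨b, hbΛ, diam_st l a ha b hb⟩

lemma sub_pls_of_tml {Λ : Finset Pl} {τ : Tm} (h : τ ∈ tml Λ) {l : Lk L}
    (hl : l ∈ (spt τ : Finset (Lk L))) : ∀ a ∈ st l, a ∈ pls Λ := by
  obtain ⟨b, hb, hbΛ⟩ := (mem_tml Λ τ).1 h
  intro a ha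
  exact (mem_pls _ _).2 ⟨b, hbΛ, diam_cor τ a ((cor_iff τ a).2 ⟨l, hl, ha⟩) b hb⟩

lemma rng_links {Λ : Finset Pl} {τ : Tm} (h : τ ∈ rng Λ) {l : Lk L}
    (hl : l ∈ (spt τ : Finset (Lk L))) : l ∉ Frl L Λ ∧ ∀ a ∈ st l, a ∈ pls Λ := by
  unfold rng at h
  rw [Finset.mem_filter] at h
  have h1 : ∀ a ∈ st l, a ∈ pls Λ ∧ a ∉ Λ := fun a ha => h.2 a ((cor_iff τ a).2 ⟨l, hl, ha⟩)
  refine ⟨fun h2 => ?_, fun a ha => (h1 a ha).1⟩
  obtain ⟨a, ha, haΛ⟩ := (mem_Frl Λ l).1 h2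
  exact (h1 a ha).2 haΛ

lemma card_tml (U : Finset Pl) : (tml U).card ≤ 16 * U.card := by
  unfold tml
  refine (Finset.card_filter_le _ _).trans ?_
  rw [Finset.card_product, Finset.card_univ, Fintype.card_fin]
  have h1 : ∀ v : Pl, (U.image (fun x => x - v)).card ≤ U.card := fun v => Finset.card_image_le
  have h2 := Finset.card_union_le (U ∪ U.image (fun x => x - (1, 0)) ∪ U.image (fun x => x - (0, 1)))
    (U.image (fun x => x - (1, 1)))
  have h3 := Finset.card_union_le (U ∪ U.image (fun x => x - (1, 0))) (U.image (fun x => x - (0, 1)))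
  have h4 := Finset.card_union_le U (U.image (fun x => x - (1, 0)))
  have h5 := h1 (1, 0)
  have h6 := h1 (0, 1)
  have h7 := h1 (1, 1)
  omega

lemma card_pls (U : Finset Pl) : (pls U).card ≤ 9 * U.card := by
  unfold pls
  rw [mul_comm]
  refine Finset.card_biUnion_le_card_mul _ _ _ fun b _ => ?_
  unfold Nb
  rw [Finset.card_product, Int.card_Icc, Int.card_Icc]
  have h1 : (b.1 + ((1 : ℕ) : ℤ) + 1 - (b.1 - ((1 : ℕ) : ℤ))).toNat = 3 := by
    have : (b.1 + ((1 : ℕ) : ℤ) + 1 - (b.1 - ((1 : ℕ) : ℤ))) = 3 := by push_cast; ring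
    rw [this]; rfl
  have h2 : (b.2 + ((1 : ℕ) : ℤ) + 1 - (b.2 - ((1 : ℕ) : ℤ))).toNat = 3 := by
    have : (b.2 + ((1 : ℕ) : ℤ) + 1 - (b.2 - ((1 : ℕ) : ℤ))) = 3 := by push_cast; ring
    rw [this]; rfl
  rw [h1, h2]

lemma card_rng (U : Finset Pl) : (rng U).card ≤ 144 * U.card := by
  unfold rng
  refine (Finset.card_filter_le _ _).trans ?_
  have h1 := card_tml (pls U)
  have h2 := card_pls U
  omega

/-! ### the vacuum -/

lemma om_zero : om N 0 = 1 := by simp [om]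

lemma en_vc (hB0 : S_B0) {k : ℕ} (hN : 2 ≤ N) (hk : Nat.Coprime k N) {P Q : SU N} (h : PQ k P Q)
    (τ : Tm) : en k (vc P Q : Cf N L) τ = 0 := by
  have h0 : ∀ x, eV k (vc P Q : Cf N L) x = 0 := by
    intro x
    have h1 := hB0 N k L hN hk P Q h
    rw [← h1]
    unfold eV VV df
    refine Finset.sum_congr rfl fun y _ => ?_
    simp only [nx2, nx3, vc]
    simp
  have h1 : ∀ x (m : Fin 4), (m = 0 ∨ m = 1) → eK (vc P Q : Cf N L) x m = 0 := by
    intro x m hm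
    unfold eK df
    refine Finset.sum_eq_zero fun y _ => ?_
    rcases hm with rfl | rfl <;> simp [nx0, nx1, nx2, nx3, vc, vac, tsh]
  obtain ⟨x, i⟩ := τ
  fin_cases i
  · simpa [en] using h0 x
  · simpa [en] using h1 x 0 (Or.inl rfl)
  · simpa [en] using h1 x 1 (Or.inr rfl)
  · refine le_antisymm ?_ (en_nonneg _ _ _)
    have hne : NeZero N := ⟨by omega⟩
    have h2 : eP (vc P Q : Cf N L) (om N ((0 : Fin N) : ℕ)) x = 0 := by
      unfold eP df
      refine Finset.sum_eq_zero fun y _ => ?_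
      simp [nx0, nx1, vc, om_zero]
    have h3 : en k (vc P Q : Cf N L) (x, 3) = ⨅ m : Fin N, eP (vc P Q : Cf N L) (om N m) x := by
      simp [en]
    change en k (vc P Q : Cf N L) (x, 3) ≤ 0
    rw [h3, ← h2]
    exact ciInf_le (Set.finite_range _).bddBelow _

/-! ### the change of variables where `h = 0` -/

lemma fr_zero (P Q : SU N) (φ : Ph N L) (y : Tor L) : fr P Q φ y 0 = 0 := by
  simp [fr]

lemma Adj_zero (g : SU N) : Adj g (0 : Mt N) = 0 := by simp [Adj]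

lemma stg_eq {J : Set (Lk L)} {c : Lk L → Cf N L → SU N} {X : Cf N L} {l : Lk L} (h : c l X = 1) :
    stg J c X l = X l := by
  unfold stg
  split_ifs
  · rw [h, one_mul]
  · rfl

lemma TM_eq (P Q : SU N) {E : Mt N → SU N} (hE : E 0 = 1) (h : Lk L → Mt N) (X : Cf N L) (l : Lk L)
    (hl : h l = 0) : TM P Q E h X l = X l := by
  have h1 : ∀ X : Cf N L, cT P Q E h l X = 1 := fun X => by
    rw [cT, hl, fr_zero, Adj_zero, hE]
  have h2 : ∀ X : Cf N L, cU P Q E h l X = 1 := fun X => by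
    rw [cU, hl, fr_zero, hE]
  rw [TM, stg_eq (h2 _), stg_eq (h1 _), stg_eq (h1 _)]

/-! ### gauge and centre moves -/

lemma cen_coe (m : ℕ) : (cen N m : Mt N) = om N m • (1 : Mt N) := rfl

lemma cen_zero : cen N 0 = 1 := by
  apply Subtype.ext
  rw [cen_coe, om_zero, one_smul]
  rfl

lemma cen_comm (m : ℕ) (g : SU N) : cen N m * g = g * cen N m := by
  apply Subtype.ext
  rw [PkgD.cmul, PkgD.cmul, cen_coe, Matrix.smul_mul, Matrix.one_mul, Matrix.mul_smul,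
    Matrix.mul_one]

lemma om_add (a b : ℕ) : om N (a + b) = om N a * om N b := by
  rw [om, om, om, ← Complex.exp_add]
  congr 1
  push_cast
  ring

lemma om_self (hN : 2 ≤ N) : om N N = 1 := by
  have : (N : ℂ) ≠ 0 := by
    have : N ≠ 0 := by omega
    exact_mod_cast this
  rw [om, show 2 * (Real.pi : ℂ) * Complex.I * (N : ℂ) / (N : ℂ) = 2 * Real.pi * Complex.I by
    field_simp]
  exact Complex.exp_two_pi_mul_I

/-- distance to the centre after multiplication with the inverse central element -/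
lemma cen_norm (hN : 2 ≤ N) (m : Fin N) (g : SU N) :
    ‖((cen N (N - m) * g : SU N) : Mt N) - 1‖ = ‖(g : Mt N) - om N m • (1 : Mt N)‖ := by
  have h1 : om N (N - (m : ℕ)) * om N m = 1 := by
    rw [← om_add, Nat.sub_add_cancel m.2.le, om_self hN]
  have h2 : ((cen N (N - m) * g : SU N) : Mt N) - 1 =
      (cen N (N - m) : Mt N) * ((g : Mt N) - om N m • (1 : Mt N)) := by
    rw [PkgD.cmul, Matrix.mul_sub, cen_coe, Matrix.smul_mul, Matrix.smul_mul, Matrix.one_mul,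
      Matrix.one_mul, smul_smul, h1, one_smul]
  rw [h2, PkgD.nl]

lemma pt_gau (g : Pt L → SU N) (X : Cf N L) (x : Pl) :
    pt (gau g X) x = act (fun y => g (x, y)) (pt X x) := by
  funext y j
  fin_cases j <;> simp [pt, gau, act, nx2, nx3]

lemma pt_cmv (z : Pl → Fin 4 → ℕ) (X : Cf N L) (x : Pl) : pt (cmv z X) x = pt X x := by
  funext y j
  fin_cases j <;> simp [pt, cmv]

lemma eV_pt (k : ℕ) (X : Cf N L) (x : Pl) : eV k X x = VV k (pt X x) := by
  unfold eV VV df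
  refine Finset.sum_congr rfl fun y _ => ?_
  simp [nx2, nx3, pt]

lemma eK_pt (X : Cf N L) (x : Pl) (m : Fin 4) (hm : m = 0 ∨ m = 1) :
    ∑ y : Tor L, ∑ j : Fin 2, ‖(X ((x, y), m) : Mt N) * (pt X (x + pe m) y j : Mt N) -
      (pt X x y j : Mt N) * (X ((x, tsh y j), m) : Mt N)‖ ^ 2 = 2 * eK X x m := by
  unfold eK df
  rw [Finset.mul_sum]
  refine Finset.sum_congr rfl fun y _ => ?_
  rw [Fin.sum_univ_two]
  rcases hm with rfl | rfl
  · simp only [nx0, nx2, nx3, pt, one_smul]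
    simp [pe]
    ring
  · simp only [nx1, nx2, nx3, pt, one_smul]
    simp [pe]
    ring

lemma cmv_gau (g : Pt L → SU N) (z : Pl → Fin 4 → ℕ) (X : Cf N L) :
    gau g (cmv z X) = cmv z (gau g X) := by
  funext l
  unfold gau cmv
  split_ifs
  · rw [← mul_assoc, ← cen_comm]
    simp only [mul_assoc]
  · rfl



lemma gfix (hD1 : S_D1) (hJ : S_J) (hJI : S_JI) {k : ℕ} (hN : 2 ≤ N) (hk : Nat.Coprime k N)
    {P Q : SU N} (hPQ : PQ k P Q) : ∃ C : ℝ, 1 ≤ C ∧ ∀ (Λ : Finset Pl) (e e₂ : ℝ) (X : Cf N L),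
    0 ≤ e → 0 ≤ e₂ →
    (∀ l, l ∉ Frl L Λ → (∀ a ∈ st l, a ∈ pls Λ) → ‖(X l : Mt N) - (vc P Q l : Mt N)‖ ^ 2 ≤ e) →
    (∀ τ ∈ tml Λ, en k X τ ≤ e₂) →
    ∃ (g : Pt L → SU N) (z : Pl → Fin 4 → ℕ), (∀ p, p.1 ∉ Λ → g p = 1) ∧
      (∀ x m, x ∉ Λ → x + pe m ∉ Λ → z x m = 0) ∧
      ∀ l : Lk L, (∀ a ∈ st l, a ∈ pls Λ) →
        ‖((gau g (cmv z X) l : SU N) : Mt N) - (vc P Q l : Mt N)‖ ^ 2 ≤ C * (e₂ + e) := by
  obtain ⟨CD, hCD, HD⟩ := hD1 N k L hN hk P Q hPQ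
  obtain ⟨CJ, hCJ, HJ⟩ := hJ N k L hN hk P Q hPQ
  obtain ⟨M, hM⟩ : ∃ M : ℝ, M = CD + 2 * (L : ℝ) ^ 2 + 2 := ⟨_, rfl⟩
  have hL0 : (0 : ℝ) ≤ 2 * (L : ℝ) ^ 2 := by positivity
  have hM0 : 2 ≤ M := by rw [hM]; linarith
  refine ⟨(CJ + 1) * M, by nlinarith, ?_⟩
  intro Λ e e₂ X he he₂ hbd hen
  choose G hG using fun x : Pl => HD (pt X x)
  obtain ⟨g, hg⟩ : ∃ g : Pt L → SU N, g = fun p => if p.1 ∈ Λ then G p.1 p.2 else 1 := ⟨_, rfl⟩
  have hg1 : ∀ p, p.1 ∉ Λ → g p = 1 := fun p hp => by rw [hg]; simp [hp]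
  obtain ⟨X', hX'⟩ : ∃ X' : Cf N L, X' = gau g X := ⟨_, rfl⟩
  have hen' : ∀ τ, en k X' τ = en k X τ := fun τ => by
    rw [hX']; exact ((hJI N k L hN g (fun _ _ => 0) X).1 τ).1
  obtain ⟨e', he'⟩ : ∃ e' : ℝ, e' = M * (e₂ + e) := ⟨_, rfl⟩
  have hMe : 0 ≤ M * e := by positivity
  have hMe2 : 0 ≤ M * e₂ := by positivity
  -- torus links
  have hA : ∀ x ∈ pls Λ, dst (pt X' x) (vac P Q) ≤ e' := by
    intro x hx
    by_cases hxΛ : x ∈ Λ
    · have h1 : pt X' x = act (G x) (pt X x) := by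
        rw [hX', pt_gau]
        congr 1
        funext y
        rw [hg]; simp [hxΛ]
      rw [h1]
      refine (hG x).trans ?_
      rw [← eV_pt]
      have h2 : en k X (x, 0) ≤ e₂ := hen _ ((mem_tml _ _).2 ⟨x, (mem_cor0 _ _).2 rfl, hxΛ⟩)
      have h3 : en k X (x, 0) = eV k X x := by simp [en]
      rw [h3] at h2
      calc CD * eV k X x ≤ CD * e₂ := mul_le_mul_of_nonneg_left h2 hCD.le
        _ ≤ M * e₂ := mul_le_mul_of_nonneg_right (by rw [hM]; linarith) he₂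
        _ ≤ e' := by rw [he']; linarith
    · have h1 : pt X' x = pt X x := by
        rw [hX', pt_gau]
        have : (fun y => g (x, y)) = fun _ => 1 := by
          funext y
          exact hg1 _ hxΛ
        rw [this, PkgD.act_one]
      rw [h1]
      have h2 : ∀ y j, ‖(pt X x y j : Mt N) - (vac P Q y j : Mt N)‖ ^ 2 ≤ e := by
        intro y j
        have h3 : ∀ i : Fin 4, (i = 2 ∨ i = 3) →
            ‖(X ((x, y), i) : Mt N) - (vc P Q ((x, y), i) : Mt N)‖ ^ 2 ≤ e := by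
          intro i hi
          have hst : ∀ a ∈ st (((x, y), i) : Lk L), a = x := by
            intro a ha
            rw [mem_st] at ha
            rcases hi with rfl | rfl <;> simpa [pe, h00] using ha
          refine hbd _ (fun h => ?_) (fun a ha => by rw [hst a ha]; exact hx)
          obtain ⟨a, ha, haΛ⟩ := (mem_Frl _ _).1 h
          rw [hst a ha] at haΛ
          exact hxΛ haΛ
        fin_cases j
        · have := h3 2 (Or.inl rfl)
          simpa [pt, vc] using this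
        · have := h3 3 (Or.inr rfl)
          simpa [pt, vc] using this
      calc dst (pt X x) (vac P Q) ≤ ∑ y : Tor L, ∑ j : Fin 2, e :=
            Finset.sum_le_sum fun y _ => Finset.sum_le_sum fun j _ => h2 y j
        _ = 2 * (L : ℝ) ^ 2 * e := by
            simp only [Finset.sum_const, Finset.card_univ, Fintype.card_prod, ZMod.card,
              Fintype.card_fin, nsmul_eq_mul]
            push_cast
            ring
        _ ≤ M * e := mul_le_mul_of_nonneg_right (by rw [hM]; linarith) he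
        _ ≤ e' := by rw [he']; linarith
  -- plane links
  have hpls : ∀ x (m : Fin 4), (m = 0 ∨ m = 1) → (x ∈ Λ ∨ x + pe m ∈ Λ) →
      x ∈ pls Λ ∧ x + pe m ∈ pls Λ := by
    intro x m hm hx
    have h1 : (((x, 0), m) : Lk L) ∈ Frl L Λ := by
      rw [mem_Frl]
      rcases hx with h | h
      · exact ⟨x, (mem_st _ _).2 (Or.inl rfl), h⟩
      · exact ⟨x + pe m, (mem_st _ _).2 (Or.inr rfl), h⟩
    exact ⟨sub_pls_of_Frl h1 _ ((mem_st _ _).2 (Or.inl rfl)),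
      sub_pls_of_Frl h1 _ ((mem_st _ _).2 (Or.inr rfl))⟩
  have hB : ∀ (x : Pl) (m : Fin 4), ∃ n : Fin N, (m = 0 ∨ m = 1) → (x ∈ Λ ∨ x + pe m ∈ Λ) →
      ∑ y : Tor L, ‖(X' ((x, y), m) : Mt N) - om N n • (1 : Mt N)‖ ^ 2 ≤ CJ * e' := by
    intro x m
    by_cases hc : (m = 0 ∨ m = 1) ∧ (x ∈ Λ ∨ x + pe m ∈ Λ)
    · obtain ⟨h1, h2⟩ := hpls x m hc.1 hc.2
      have h3 : eK X' x m ≤ e₂ := by
        rcases hc with ⟨rfl | rfl, hx⟩
        · have h4 : (x, (1 : Fin 4)) ∈ tml Λ := by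
            rw [mem_tml]
            rcases hx with h | h
            · exact ⟨x, (mem_cor1 _ _).2 (Or.inl rfl), h⟩
            · exact ⟨x + (1, 0), (mem_cor1 _ _).2 (Or.inr rfl), h⟩
          have h5 := hen _ h4
          rw [← hen'] at h5
          simpa [en] using h5
        · have h4 : (x, (2 : Fin 4)) ∈ tml Λ := by
            rw [mem_tml]
            rcases hx with h | h
            · exact ⟨x, (mem_cor2 _ _).2 (Or.inl rfl), h⟩
            · exact ⟨x + (0, 1), (mem_cor2 _ _).2 (Or.inr rfl), h⟩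
          have h5 := hen _ h4
          rw [← hen'] at h5
          simpa [en] using h5
      obtain ⟨n, hn⟩ := HJ (pt X' x) (pt X' (x + pe m)) (fun y => X' ((x, y), m)) e' (hA _ h1)
        (hA _ h2) (by
          rw [eK_pt X' x m hc.1]
          have : 2 * e₂ ≤ M * e₂ := mul_le_mul_of_nonneg_right hM0 he₂
          rw [he']; linarith)
      exact ⟨n, fun _ _ => hn⟩
    · exact ⟨⟨0, by omega⟩, fun h1 h2 => absurd ⟨h1, h2⟩ hc⟩
  choose n hn using hB
  refine ⟨g, fun x m => if (m = 0 ∨ m = 1) ∧ (x ∈ Λ ∨ x + pe m ∈ Λ) then N - n x m else 0, hg1,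
    fun x m h1 h2 => if_neg (fun h => by tauto), ?_⟩
  rintro ⟨⟨x, y⟩, i⟩ hl
  rw [cmv_gau, ← hX']
  have hxp : x ∈ pls Λ := hl x ((mem_st _ _).2 (Or.inl rfl))
  have hfin : e' ≤ (CJ + 1) * M * (e₂ + e) := by
    rw [he']
    have : 0 ≤ CJ * (M * (e₂ + e)) := by positivity
    linarith
  have hfin2 : CJ * e' ≤ (CJ + 1) * M * (e₂ + e) := by
    rw [he']
    have : 0 ≤ (M * (e₂ + e)) := by positivity
    linarith
  have htor : ∀ j : Fin 2, ‖(pt X' x y j : Mt N) - (vac P Q y j : Mt N)‖ ^ 2 ≤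
      (CJ + 1) * M * (e₂ + e) := fun j => (PkgD.le_dst _ _ _ _).trans ((hA x hxp).trans hfin)
  have hpl : ∀ m : Fin 4, (m = 0 ∨ m = 1) → i = m →
      ‖((cmv (fun x m => if (m = 0 ∨ m = 1) ∧ (x ∈ Λ ∨ x + pe m ∈ Λ) then N - n x m else 0) X'
        ((x, y), m) : SU N) : Mt N) - (vc P Q ((x, y), m) : Mt N)‖ ^ 2 ≤
        (CJ + 1) * M * (e₂ + e) := by
    intro m hm him
    subst him
    have hv : (vc P Q (((x, y), i) : Lk L) : Mt N) = 1 := by
      rcases hm with rfl | rfl <;> simp [vc]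
    rw [hv]
    have hcm : ∀ z : Pl → Fin 4 → ℕ, cmv z X' ((x, y), i) = cen N (z x i) * X' ((x, y), i) := by
      intro z
      unfold cmv
      rw [if_pos hm]
    rw [hcm]
    by_cases hx : x ∈ Λ ∨ x + pe i ∈ Λ
    · rw [if_pos ⟨hm, hx⟩, cen_norm hN]
      refine le_trans ?_ ((hn x i hm hx).trans hfin2)
      exact Finset.single_le_sum (f := fun y => ‖(X' ((x, y), i) : Mt N) -
        om N (n x i) • (1 : Mt N)‖ ^ 2) (fun _ _ => by positivity) (Finset.mem_univ y)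
    · rw [if_neg (fun h => hx h.2), cen_zero, one_mul]
      push Not at hx
      have h1 : X' ((x, y), i) = X ((x, y), i) := by
        rw [hX']
        unfold gau
        rw [hg1 (x, y) hx.1, hg1 (nx (x, y) i) hx.2]
        simp
      rw [h1]
      have h2 := hbd ((x, y), i) (fun h => by
        obtain ⟨a, ha, haΛ⟩ := (mem_Frl _ _).1 h
        rcases (mem_st _ _).1 ha with rfl | rfl
        · exact hx.1 haΛ
        · exact hx.2 haΛ) hl
      rw [hv] at h2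
      refine h2.trans (le_trans ?_ hfin)
      rw [he']
      have : 1 * e ≤ M * e := mul_le_mul_of_nonneg_right (by linarith) he
      linarith
  fin_cases i
  · exact hpl 0 (Or.inl rfl) rfl
  · exact hpl 1 (Or.inr rfl) rfl
  · have := htor 0
    simpa [pt, vc, cmv] using this
  · have := htor 1
    simpa [pt, vc, cmv] using this

/-! ### weights -/

lemma wprod {k : ℕ} {P Q : SU N} (hN : 2 ≤ N) {CL : ℝ}
    (HL : ∀ (τ : Tm) (X : Cf N L),
      (∀ l ∈ (spt τ : Finset (Lk L)), ‖(X l : Mt N) - (vc P Q l : Mt N)‖ ≤ 1 / CL) →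
      ∀ β : ℝ, 0 ≤ β →
        (if τ.2 = 3 then (1 / N : ℝ) else 1) * Real.exp (-β * en1 k X τ) ≤ wt k β τ X ∧
        wt k β τ X ≤ (if τ.2 = 3 then (1 / N : ℝ) else 1) * Real.exp (-β * en1 k X τ) *
          (1 + N * Real.exp (-β / CL)))
    {β : ℝ} (hβ : 0 ≤ β) (Λ : Finset Pl) (X Y : Cf N L)
    (hX : ∀ l : Lk L, (∀ a ∈ st l, a ∈ pls Λ) → ‖(X l : Mt N) - (vc P Q l : Mt N)‖ ≤ 1 / CL)
    (hY : ∀ l : Lk L, (∀ a ∈ st l, a ∈ pls Λ) → ‖(Y l : Mt N) - (vc P Q l : Mt N)‖ ≤ 1 / CL)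
    (c err : ℝ) (hc : |∑ τ ∈ tml Λ, (en1 k Y τ - en1 k X τ) - c| ≤ err) :
    Real.exp (-β * c - (β * err + 16 * Λ.card * N * Real.exp (-β / CL))) *
      ∏ τ ∈ tml Λ, wt k β τ X ≤ ∏ τ ∈ tml Λ, wt k β τ Y := by
  obtain ⟨w0, hw0⟩ : ∃ w0 : Tm → ℝ, w0 = fun τ => if τ.2 = 3 then (1 / N : ℝ) else 1 := ⟨_, rfl⟩
  have hNp : (0 : ℝ) < N := by
    have : 0 < N := by omega
    exact_mod_cast this
  have hw0p : ∀ τ, 0 < w0 τ := by
    intro τ
    rw [hw0]
    dsimp only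
    split_ifs
    · positivity
    · exact one_pos
  obtain ⟨q, hq⟩ : ∃ q : ℝ, q = N * Real.exp (-β / CL) := ⟨_, rfl⟩
  have hq0 : 0 ≤ q := by rw [hq]; positivity
  have h1 : ∏ τ ∈ tml Λ, wt k β τ X ≤
      (∏ τ ∈ tml Λ, w0 τ) * Real.exp (-β * ∑ τ ∈ tml Λ, en1 k X τ) * (1 + q) ^ (tml Λ).card := by
    have h2 : ∏ τ ∈ tml Λ, wt k β τ X ≤
        ∏ τ ∈ tml Λ, (w0 τ * Real.exp (-β * en1 k X τ) * (1 + q)) := by
      refine Finset.prod_le_prod (fun τ _ => (wt_pos k β τ X (by omega)).le) fun τ hτ => ?_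
      have := (HL τ X (fun l hl => hX l (sub_pls_of_tml hτ hl)) β hβ).2
      rw [hw0, hq]
      exact this
    refine h2.trans (le_of_eq ?_)
    rw [Finset.prod_mul_distrib, Finset.prod_mul_distrib, Finset.prod_const, Finset.mul_sum,
      Real.exp_sum]
  have h3 : (∏ τ ∈ tml Λ, w0 τ) * Real.exp (-β * ∑ τ ∈ tml Λ, en1 k Y τ) ≤
      ∏ τ ∈ tml Λ, wt k β τ Y := by
    have h2 : ∏ τ ∈ tml Λ, (w0 τ * Real.exp (-β * en1 k Y τ)) ≤ ∏ τ ∈ tml Λ, wt k β τ Y := by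
      refine Finset.prod_le_prod (fun τ _ => (mul_pos (hw0p τ) (Real.exp_pos _)).le) fun τ hτ => ?_
      have := (HL τ Y (fun l hl => hY l (sub_pls_of_tml hτ hl)) β hβ).1
      rw [hw0]
      exact this
    refine le_trans (le_of_eq ?_) h2
    rw [Finset.prod_mul_distrib, Finset.mul_sum, Real.exp_sum]
  have h4 : (1 + q) ^ (tml Λ).card ≤ Real.exp (16 * Λ.card * q) := by
    calc (1 + q) ^ (tml Λ).card ≤ (Real.exp q) ^ (tml Λ).card := by
          refine pow_le_pow_left₀ (by linarith) ?_ _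
          have := Real.add_one_le_exp q
          linarith
      _ = Real.exp ((tml Λ).card * q) := by rw [← Real.exp_nat_mul]
      _ ≤ Real.exp (16 * Λ.card * q) := by
          apply Real.exp_le_exp.2
          have := card_tml Λ
          have h5 : ((tml Λ).card : ℝ) ≤ 16 * Λ.card := by exact_mod_cast this
          exact mul_le_mul_of_nonneg_right h5 hq0
  have hW : 0 < ∏ τ ∈ tml Λ, w0 τ := Finset.prod_pos fun τ _ => hw0p τ
  have h6 : ∑ τ ∈ tml Λ, en1 k Y τ ≤ ∑ τ ∈ tml Λ, en1 k X τ + c + err := by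
    have := (abs_le.1 hc).2
    rw [Finset.sum_sub_distrib] at this
    linarith
  calc Real.exp (-β * c - (β * err + 16 * Λ.card * N * Real.exp (-β / CL))) *
        ∏ τ ∈ tml Λ, wt k β τ X
      ≤ Real.exp (-β * c - (β * err + 16 * Λ.card * N * Real.exp (-β / CL))) *
        ((∏ τ ∈ tml Λ, w0 τ) * Real.exp (-β * ∑ τ ∈ tml Λ, en1 k X τ) *
          Real.exp (16 * Λ.card * q)) := by
        refine mul_le_mul_of_nonneg_left (h1.trans ?_) (Real.exp_pos _).le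
        exact mul_le_mul_of_nonneg_left h4 (by positivity)
    _ = (∏ τ ∈ tml Λ, w0 τ) * Real.exp (-β * (∑ τ ∈ tml Λ, en1 k X τ + c + err)) := by
        have : Real.exp (-β * (∑ τ ∈ tml Λ, en1 k X τ + c + err)) =
            Real.exp (-β * c - (β * err + 16 * Λ.card * N * Real.exp (-β / CL))) *
            Real.exp (-β * ∑ τ ∈ tml Λ, en1 k X τ) * Real.exp (16 * Λ.card * q) := by
          rw [← Real.exp_add, ← Real.exp_add, hq]
          congr 1
          ring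
        rw [this]
        ring
    _ ≤ (∏ τ ∈ tml Λ, w0 τ) * Real.exp (-β * ∑ τ ∈ tml Λ, en1 k Y τ) := by
        refine mul_le_mul_of_nonneg_left (Real.exp_le_exp.2 ?_) hW.le
        have := mul_le_mul_of_nonneg_left h6 hβ
        linarith
    _ ≤ _ := h3

/-! ### one direction of the comparison of the numerators -/

lemma glue_self {J : Finset (Lk L)} (ξ σ σ' : Cf N L) : glue J (glue J ξ σ) σ' = glue J ξ σ' := by
  funext l
  unfold glue
  split_ifs <;> rfl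

lemma glue_off {J : Finset (Lk L)} (ξ σ : Cf N L) (l : Lk L) (h : l ∉ J) : glue J ξ σ l = σ l := by
  unfold glue
  rw [if_neg h]

lemma onedir (hJM : S_JM) {k : ℕ} (hN : 2 ≤ N) {β : ℝ} (hβ : 0 ≤ β) (Λ : Finset Pl)
    (P Q : SU N) {E : Mt N → SU N} (hEc : Continuous E) (hE0 : E 0 = 1) (h : Lk L → Mt N)
    (hh : ∀ l, l ∉ Frl L Λ → h l = 0) (a : ℝ) (ha0 : 0 ≤ a) (σ σ' : Cf N L) (F : Cf N L → ℝ)
    (hFm : Measurable F) (hF : ∀ X, 0 ≤ F X ∧ F X ≤ 1) (bad : Cf N L → Prop)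
    (hbm : Measurable fun X => ind (bad X))
    (ha : ∀ X : Cf N L, (∀ l, l ∉ Frl L Λ → X l = σ l) → ¬ bad X →
      a * (sysS N L k β hN hβ).W Λ X ≤
        (sysS N L k β hN hβ).W Λ (glue (Frl L Λ) (TM P Q E h X) σ'))
    (hb : ∀ X : Cf N L, (∀ l, l ∉ Frl L Λ → X l = σ l) →
      F (glue (Frl L Λ) (TM P Q E h X) σ') = F X) :
    a * ((sysS N L k β hN hβ).num (hm N) Λ F σ -
      (sysS N L k β hN hβ).num (hm N) Λ (fun X => ind (bad X)) σ) ≤
      (sysS N L k β hN hβ).num (hm N) Λ F σ' := by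
  obtain ⟨S, hS⟩ : ∃ S : Sys (Lk L) Tm (SU N), S = sysS N L k β hN hβ := ⟨_, rfl⟩
  have hSF : S.Fr Λ = Frl L Λ := by rw [hS]; rfl
  rw [← hS] at ha ⊢
  have hind : ∀ X, 0 ≤ ind (bad X) ∧ ind (bad X) ≤ 1 := by
    intro X
    unfold ind
    split_ifs <;> norm_num
  have hbF : ∃ K, ∀ X, |F X| ≤ K := ⟨1, fun X => by
    rw [abs_of_nonneg (hF X).1]; exact (hF X).2⟩
  have hbI : ∃ K, ∀ X, |ind (bad X)| ≤ K := ⟨1, fun X => by
    rw [abs_of_nonneg (hind X).1]; exact (hind X).2⟩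
  have hWm := PkgF.W_meas S Λ
  have hWp := PkgF.W_pos S Λ
  have hWl := PkgF.W_le S Λ
  have key : ∀ G : Cf N L → ℝ, Measurable G → (∃ K, ∀ X, |G X| ≤ K) →
      ∫ ξ, G (glue (Frl L Λ) (TM P Q E h (glue (Frl L Λ) ξ σ)) σ') *
        S.W Λ (glue (Frl L Λ) (TM P Q E h (glue (Frl L Λ) ξ σ)) σ') ∂(pm N L) =
      S.num (hm N) Λ G σ' := by
    intro G hG hGb
    have h1 := PkgF.fW_meas S Λ hG σ'
    have h2 := PkgF.fW_bdd S Λ hGb σ'
    rw [hSF] at h1 h2
    have h3 := (hJM N L hN (Frl L Λ) (fun X => G (glue (Frl L Λ) X σ') *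
      S.W Λ (glue (Frl L Λ) X σ')) h1 h2 σ).2 P Q E h hEc hE0 hh
    rw [h3]
    unfold Sys.num
    rw [hSF]
    simp only [glue_self]
  have hint1 : ∀ G : Cf N L → ℝ, Measurable G → (∃ K, ∀ X, |G X| ≤ K) → (∀ X, 1 ≤ G X) →
      Integrable (fun ξ => G (glue (Frl L Λ) (TM P Q E h (glue (Frl L Λ) ξ σ)) σ') *
        S.W Λ (glue (Frl L Λ) (TM P Q E h (glue (Frl L Λ) ξ σ)) σ')) (pm N L) := by
    intro G hG hGb hG1
    by_contra hc
    have h1 := key G hG hGb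
    rw [integral_undef hc] at h1
    have h2 : S.num (hm N) Λ (fun _ => 1) σ' ≤ S.num (hm N) Λ G σ' := by
      unfold Sys.num
      refine integral_mono (PkgF.fW_int S (hm N) Λ (f := fun _ => 1) measurable_const
        PkgF.bdd_one σ') (PkgF.fW_int S (hm N) Λ hG hGb σ') fun ξ => ?_
      exact mul_le_mul_of_nonneg_right (hG1 _) (hWp _).le
    have h3 := PkgF.num_pos S (hm N) Λ σ'
    linarith
  have hintF : Integrable (fun ξ => F (glue (Frl L Λ) (TM P Q E h (glue (Frl L Λ) ξ σ)) σ') *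
        S.W Λ (glue (Frl L Λ) (TM P Q E h (glue (Frl L Λ) ξ σ)) σ')) (pm N L) := by
    have h1 := hint1 (fun X => F X + 1) (hFm.add_const 1) ⟨2, fun X => by
      have := hF X
      rw [abs_of_nonneg (by linarith)]; linarith⟩ (fun X => by have := hF X; linarith)
    have h2 := hint1 (fun _ => 1) measurable_const ⟨1, fun X => by simp⟩ (fun _ => le_rfl)
    have h3 := h1.sub h2
    refine h3.congr (Filter.Eventually.of_forall fun ξ => ?_)
    simp only [Pi.sub_apply]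
    ring
  rw [← key F hFm hbF]
  have hr1 : Integrable (fun ξ => F (glue (Frl L Λ) ξ σ) * S.W Λ (glue (Frl L Λ) ξ σ)) (pm N L) := by
    have := PkgF.fW_int S (hm N) Λ hFm hbF σ
    rwa [hSF] at this
  have hr2 : Integrable (fun ξ => ind (bad (glue (Frl L Λ) ξ σ)) * S.W Λ (glue (Frl L Λ) ξ σ))
      (pm N L) := by
    have := PkgF.fW_int S (hm N) Λ hbm hbI σ
    rwa [hSF] at this
  have heq : a * (S.num (hm N) Λ F σ - S.num (hm N) Λ (fun X => ind (bad X)) σ) =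
      ∫ ξ, a * (F (glue (Frl L Λ) ξ σ) * S.W Λ (glue (Frl L Λ) ξ σ) -
        ind (bad (glue (Frl L Λ) ξ σ)) * S.W Λ (glue (Frl L Λ) ξ σ)) ∂(pm N L) := by
    rw [integral_const_mul, integral_sub hr1 hr2]
    unfold Sys.num
    rw [hSF]
  rw [heq]
  refine integral_mono ((hr1.sub hr2).const_mul a) hintF fun ξ => ?_
  dsimp only
  have hoff : ∀ l, l ∉ Frl L Λ → glue (Frl L Λ) ξ σ l = σ l := fun l hl => glue_off _ _ l hl
  rw [hb _ hoff]
  have hF1 := hF (glue (Frl L Λ) ξ σ)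
  have hWY := hWp (glue (Frl L Λ) (TM P Q E h (glue (Frl L Λ) ξ σ)) σ')
  have hWX := hWp (glue (Frl L Λ) ξ σ)
  by_cases hbad : bad (glue (Frl L Λ) ξ σ)
  · have h1 : ind (bad (glue (Frl L Λ) ξ σ)) = 1 := by
      unfold ind; rw [if_pos hbad]
    rw [h1]
    have h2 : a * (F (glue (Frl L Λ) ξ σ) * S.W Λ (glue (Frl L Λ) ξ σ) -
        1 * S.W Λ (glue (Frl L Λ) ξ σ)) ≤ 0 := by
      apply mul_nonpos_of_nonneg_of_nonpos ha0
      nlinarith
    refine h2.trans ?_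
    exact mul_nonneg hF1.1 hWY.le
  · have h1 : ind (bad (glue (Frl L Λ) ξ σ)) = 0 := by
      unfold ind; rw [if_neg hbad]
    rw [h1]
    have h2 := ha _ hoff hbad
    calc a * (F (glue (Frl L Λ) ξ σ) * S.W Λ (glue (Frl L Λ) ξ σ) -
          0 * S.W Λ (glue (Frl L Λ) ξ σ))
        = F (glue (Frl L Λ) ξ σ) * (a * S.W Λ (glue (Frl L Λ) ξ σ)) := by ring
      _ ≤ _ := mul_le_mul_of_nonneg_left h2 hF1.1

/-! ### comparison of the weights of `X` and of its transform -/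

lemma wcomp (hJI : S_JI) {k : ℕ} {P Q : SU N} (hN : 2 ≤ N) {CL CM : ℝ}
    (hCL : 0 < CL)
    (HL : ∀ (τ : Tm) (X : Cf N L),
      (∀ l ∈ (spt τ : Finset (Lk L)), ‖(X l : Mt N) - (vc P Q l : Mt N)‖ ≤ 1 / CL) →
      ∀ β : ℝ, 0 ≤ β →
        (if τ.2 = 3 then (1 / N : ℝ) else 1) * Real.exp (-β * en1 k X τ) ≤ wt k β τ X ∧
        wt k β τ X ≤ (if τ.2 = 3 then (1 / N : ℝ) else 1) * Real.exp (-β * en1 k X τ) *
          (1 + N * Real.exp (-β / CL)))
    {E : Mt N → SU N} (hE : ∀ (g : SU N) (M : Mt N), E (Adj g M) = g * E M * g⁻¹)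
    {β : ℝ} (hβ : 0 ≤ β) (Λ : Finset Pl) (σ σ' : Cf N L) (h : Lk L → Mt N) (c err ρ : ℝ)
    (hM : ∀ X : Cf N L, (∀ l, l ∉ Frl L Λ → X l = σ l) →
      (∀ l, (∀ a ∈ st l, a ∈ pls Λ) → ‖(X l : Mt N) - (vc P Q l : Mt N)‖ ≤ ρ) →
      (∀ l, (∀ a ∈ st l, a ∈ pls Λ) →
        ‖((glue (Frl L Λ) (TM P Q E h X) σ' l : SU N) : Mt N) - (vc P Q l : Mt N)‖ ^ 2 ≤
          CM * Λ.card * ρ ^ 2) ∧
      |∑ τ ∈ tml Λ, (en1 k (glue (Frl L Λ) (TM P Q E h X) σ') τ - en1 k X τ) - c| ≤ err)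
    (hρ : ρ ≤ 1 / CL) (hρ2 : CM * Λ.card * ρ ^ 2 ≤ (1 / CL) ^ 2)
    (X : Cf N L) (hX : ∀ l, l ∉ Frl L Λ → X l = σ l)
    (g : Pt L → SU N) (z : Pl → Fin 4 → ℕ) (hg : ∀ p, p.1 ∉ Λ → g p = 1)
    (hz : ∀ x m, x ∉ Λ → x + pe m ∉ Λ → z x m = 0)
    (hgz : ∀ l : Lk L, (∀ a ∈ st l, a ∈ pls Λ) →
        ‖((gau g (cmv z X) l : SU N) : Mt N) - (vc P Q l : Mt N)‖ ≤ ρ) :
    Real.exp (-β * c - (β * err + 16 * Λ.card * N * Real.exp (-β / CL))) *
      (sysS N L k β hN hβ).W Λ X ≤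
        (sysS N L k β hN hβ).W Λ (glue (Frl L Λ) (TM P Q E h X) σ') := by
  have hWeq : ∀ X : Cf N L, (sysS N L k β hN hβ).W Λ X = ∏ τ ∈ tml Λ, wt k β τ X := fun X => rfl
  rw [hWeq, hWeq]
  -- off `Frl Λ` the transformation is the identity
  have hoff : ∀ (W : Cf N L) (l : Lk L), l ∉ Frl L Λ → gau g (cmv z W) l = W l := by
    intro W l hl
    have h1 : l.1.1 ∉ Λ := fun h1 => hl ((mem_Frl _ _).2 ⟨_, (mem_st _ _).2 (Or.inl rfl), h1⟩)
    have h2 : l.1.1 + pe l.2 ∉ Λ :=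
      fun h2 => hl ((mem_Frl _ _).2 ⟨_, (mem_st _ _).2 (Or.inr rfl), h2⟩)
    unfold gau
    rw [hg l.1 h1, hg (nx l.1 l.2) h2, one_mul, inv_one, mul_one]
    unfold cmv
    split_ifs
    · rw [hz _ _ h1 h2, cen_zero, one_mul]
    · rfl
  have hX' : ∀ l, l ∉ Frl L Λ → gau g (cmv z X) l = σ l := fun l hl => by
    rw [hoff _ l hl, hX l hl]
  obtain ⟨h1, h2⟩ := hM (gau g (cmv z X)) hX' hgz
  have hY : glue (Frl L Λ) (TM P Q E h (gau g (cmv z X))) σ' =
      gau g (cmv z (glue (Frl L Λ) (TM P Q E h X) σ')) := by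
    rw [((hJI N k L hN g z (cmv z X)).2.2 P Q E h hE).1, ((hJI N k L hN g z X).2.2 P Q E h hE).2]
    funext l
    by_cases hl : l ∈ Frl L Λ
    · have e1 : ∀ ξ : Cf N L, glue (Frl L Λ) ξ σ' l = ξ l := fun ξ => by
        unfold glue; rw [if_pos hl]
      rw [e1]
      unfold gau cmv
      rw [e1]
    · rw [hoff _ l hl]
      have e1 : ∀ ξ : Cf N L, glue (Frl L Λ) ξ σ' l = σ' l := fun ξ => glue_off _ _ l hl
      rw [e1, e1]
  have hwX : ∏ τ ∈ tml Λ, wt k β τ (gau g (cmv z X)) = ∏ τ ∈ tml Λ, wt k β τ X := by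
    refine Finset.prod_congr rfl fun τ _ => ?_
    rw [((hJI N k L hN g z (cmv z X)).2.1 β τ).1, ((hJI N k L hN g z X).2.1 β τ).2]
  have hwY : ∏ τ ∈ tml Λ, wt k β τ (glue (Frl L Λ) (TM P Q E h (gau g (cmv z X))) σ') =
      ∏ τ ∈ tml Λ, wt k β τ (glue (Frl L Λ) (TM P Q E h X) σ') := by
    rw [hY]
    refine Finset.prod_congr rfl fun τ _ => ?_
    rw [((hJI N k L hN g z (cmv z _)).2.1 β τ).1, ((hJI N k L hN g z _).2.1 β τ).2]
  rw [← hwX, ← hwY]
  refine wprod hN HL hβ Λ _ _ (fun l hl => (hgz l hl).trans hρ) (fun l hl => ?_) c err h2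
  have h3 := (h1 l hl).trans hρ2
  exact (sq_le_sq₀ (norm_nonneg _) (by positivity)).1 h3

/-! ### elementary inequality -/

lemma fin_ineq {A A' Z Z' p s u : ℝ} (hZ : 0 < Z) (hZ' : 0 < Z') (hA : 0 ≤ A) (hAZ : A ≤ Z)
    (hA' : 0 ≤ A') (hp : 0 ≤ p) (hs : 0 ≤ s) (h1 : Real.exp (-u - s) * (A - p * Z) ≤ A')
    (h2 : Real.exp (u - s) * ((1 - p) * Z') ≤ Z) : A / Z ≤ A' / Z' + (2 * s + 2 * p) := by
  have hb : 0 ≤ A' / Z' := by positivity
  have ha1 : A / Z ≤ 1 := (div_le_one hZ).2 hAZ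
  by_cases hp1 : 1 ≤ p
  · linarith
  by_cases hap : A / Z ≤ p
  · linarith
  push Not at hp1 hap
  obtain ⟨a, haa⟩ : ∃ a, a = A / Z := ⟨_, rfl⟩
  rw [← haa] at ha1 hap ⊢
  have hAa : A = a * Z := by rw [haa]; field_simp
  have h3 : Real.exp (-u - s) * (a - p) * (Real.exp (u - s) * ((1 - p) * Z')) ≤ A' := by
    calc Real.exp (-u - s) * (a - p) * (Real.exp (u - s) * ((1 - p) * Z'))
        ≤ Real.exp (-u - s) * (a - p) * Z :=
          mul_le_mul_of_nonneg_left h2 (mul_nonneg (Real.exp_pos _).le (by linarith))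
      _ = Real.exp (-u - s) * (A - p * Z) := by rw [hAa]; ring
      _ ≤ A' := h1
  have h4 : Real.exp (-u - s) * Real.exp (u - s) = Real.exp (-(2 * s)) := by
    rw [← Real.exp_add]; congr 1; ring
  have h5 : Real.exp (-(2 * s)) * ((a - p) * (1 - p)) * Z' ≤ A' := by
    calc Real.exp (-(2 * s)) * ((a - p) * (1 - p)) * Z' =
          Real.exp (-u - s) * (a - p) * (Real.exp (u - s) * ((1 - p) * Z')) := by
          rw [← h4]; ring
      _ ≤ A' := h3
  have h6 : Real.exp (-(2 * s)) * ((a - p) * (1 - p)) ≤ A' / Z' := (le_div_iff₀ hZ').2 h5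
  have h7 : 1 - 2 * s ≤ Real.exp (-(2 * s)) := by
    have := Real.add_one_le_exp (-(2 * s))
    linarith
  have h8 : 0 ≤ (a - p) * (1 - p) := mul_nonneg (by linarith) (by linarith)
  have h9 : (a - p) * (1 - p) ≤ 1 := by nlinarith
  have h10 : (1 - 2 * s) * ((a - p) * (1 - p)) ≤ A' / Z' :=
    (mul_le_mul_of_nonneg_right h7 h8).trans h6
  nlinarith

end T2H02.TT.PkgM1

namespace T2H02.TT

open PkgM1

theorem pM1 (hB0 : S_B0) (hD1 : S_D1) (hE4 : S_E4) (hG : S_G) (hG3 : S_G3) (hJ : S_J)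
    (hJI : S_JI) (hJM : S_JM) (hL2 : S_L2) (hM0 : S_M0) : S_M1 := by
  intro N k L _ hN hk P Q hPQ
  obtain ⟨-, -, -, -, -, -, E, C₀, hC₀, hEc, hE0, hEa, hEb⟩ := hE4 N hN
  obtain ⟨CG, D, hCG, HG⟩ := hG N k L hN hk
  obtain ⟨C3, hC3, HG3, -, -⟩ := hG3 N k L hN
  obtain ⟨C6, hC6, H6⟩ := gfix (L := L) hD1 hJ hJI hN hk hPQ
  obtain ⟨CL, hCL, HL⟩ := hL2 N k L hN P Q
  obtain ⟨CM, θ, hCM, hθ0, hθ1, HM⟩ := hM0 N k L hN hk P Q hPQ E C₀ ⟨hC₀, hEc, hE0, hEa, hEb⟩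
  obtain ⟨C7, hC7⟩ : ∃ C7 : ℝ, C7 = C6 * (144 * CG * C3 + 1) := ⟨_, rfl⟩
  have hC7p : 0 ≤ C7 := by
    rw [hC7]
    have : 0 ≤ C6 := by linarith
    have : 0 ≤ CG := by linarith
    positivity
  obtain ⟨C, hC⟩ : ∃ C : ℝ, C = C7 + 2 * CM + 32 * N + CL ^ 2 + CM * CL ^ 2 + CL + CG := ⟨_, rfl⟩
  have hNp : (0 : ℝ) ≤ N := Nat.cast_nonneg N
  have hCL2 : 0 ≤ CL ^ 2 := by positivity
  have hCMCL : 0 ≤ CM * CL ^ 2 := mul_nonneg (by linarith) hCL2
  have hC1 : 1 ≤ C := by rw [hC]; linarith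
  have hCp : 0 < C := by linarith
  refine ⟨C, θ, D, hC1, hθ0, hθ1, ?_⟩
  intro β hβ hβ1 Λ B R e t r he ht hBΛ hΛB hr hrC σ σ' hσσ hnear F hFm hF hdep
  obtain ⟨S, hS⟩ : ∃ S : Sys (Lk L) Tm (SU N), S = sysS N L k β hN hβ := ⟨_, rfl⟩
  rw [← hS]
  obtain ⟨n, hn⟩ : ∃ n : ℝ, n = (Λ.card : ℝ) := ⟨_, rfl⟩
  rw [← hn] at hr ⊢
  have hn0 : 0 ≤ n := by rw [hn]; positivity
  have hrnn : 0 ≤ r := by rw [hr]; positivity
  have hθR : 0 ≤ θ ^ R := by positivity
  -- the empty set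
  rcases Finset.eq_empty_or_nonempty Λ with hΛ | hΛ
  · have hBe : B = ∅ := by
      rw [hΛ] at hBΛ
      exact Finset.subset_empty.1 hBΛ
    have hFc : F = fun _ => F σ := by
      funext X
      refine hdep X σ fun l hl => ?_
      exfalso
      have h1 := hl l.1.1 ((mem_st _ _).2 (Or.inl rfl))
      rw [hBe] at h1
      simp [bal] at h1
    have h1 : ∀ η, S.ker (hm N) Λ F η = F σ := by
      intro η
      rw [hFc]
      exact PkgF.ker_const S (hm N) Λ (F σ) η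
    rw [h1, h1]
    have h2 : 0 ≤ C * n * (β * (r * Real.sqrt r + θ ^ R * r) + Real.exp (-β / C)) := by positivity
    have h3 : 0 ≤ 2 * (Real.exp (-β * t) * (C * β) ^ (D * Λ.card)) := by positivity
    linarith
  have hn1 : 1 ≤ n := by
    rw [hn]
    exact_mod_cast hΛ.card_pos
  -- the parameters
  obtain ⟨e₂, he₂⟩ : ∃ e₂ : ℝ, e₂ = CG * (144 * n * (C3 * e)) + t := ⟨_, rfl⟩
  have hCG0 : 0 ≤ CG := by linarith
  have he₂0 : 0 ≤ e₂ := by rw [he₂]; positivity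
  obtain ⟨ρ, hρ⟩ : ∃ ρ : ℝ, ρ = Real.sqrt (C6 * (e₂ + e)) := ⟨_, rfl⟩
  have hC60 : 0 ≤ C6 := by linarith
  have hρ0 : 0 ≤ ρ := by rw [hρ]; exact Real.sqrt_nonneg _
  have hρs : ρ ^ 2 = C6 * (e₂ + e) := by rw [hρ]; exact Real.sq_sqrt (by positivity)
  have hne : 0 ≤ n * e := by positivity
  have hρle : ρ ^ 2 ≤ C7 * (n * e + t) := by
    rw [hρs, hC7, he₂]
    have h1 : e ≤ n * e := le_mul_of_one_le_left he hn1
    have h2 : 0 ≤ C6 * (144 * CG * C3 * t) := by positivity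
    have h3 : C6 * e ≤ C6 * (n * e) := mul_le_mul_of_nonneg_left h1 hC60
    have h4 : C6 * (144 * CG * C3 + 1) * (n * e + t) - C6 * (CG * (144 * n * (C3 * e)) + t + e) =
        C6 * (144 * CG * C3 * t) + (C6 * (n * e) - C6 * e) := by ring
    linarith
  have hnρ : n * ρ ^ 2 ≤ r := by
    calc n * ρ ^ 2 ≤ n * (C7 * (n * e + t)) := mul_le_mul_of_nonneg_left hρle hn0
      _ = C7 * (n * (n * e + t)) := by ring
      _ ≤ C * (n * (n * e + t)) := by
          refine mul_le_mul_of_nonneg_right ?_ (by positivity)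
          rw [hC]; linarith
      _ = r := by rw [hr]; ring
  have hnρ0 : 0 ≤ n * ρ ^ 2 := by positivity
  have hρr : ρ ^ 2 ≤ r := by
    refine le_trans ?_ hnρ
    have : 0 ≤ ρ ^ 2 := by positivity
    exact le_mul_of_one_le_left this hn1
  have hCr : C * r ≤ 1 := by
    have := mul_le_mul_of_nonneg_left hrC hCp.le
    rwa [mul_one_div, div_self hCp.ne'] at this
  have hcond1 : CM * Λ.card * ρ ^ 2 ≤ 1 := by
    rw [← hn, mul_assoc]
    calc CM * (n * ρ ^ 2) ≤ CM * r := mul_le_mul_of_nonneg_left hnρ (by linarith)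
      _ ≤ C * r := mul_le_mul_of_nonneg_right (by rw [hC]; linarith) hrnn
      _ ≤ 1 := hCr
  have hCLp : 0 < CL := by linarith
  have hcond2 : CM * Λ.card * ρ ^ 2 ≤ (1 / CL) ^ 2 := by
    rw [← hn, mul_assoc, div_pow, one_pow, le_div_iff₀ (by positivity)]
    calc CM * (n * ρ ^ 2) * CL ^ 2 = CM * CL ^ 2 * (n * ρ ^ 2) := by ring
      _ ≤ CM * CL ^ 2 * r := mul_le_mul_of_nonneg_left hnρ hCMCL
      _ ≤ C * r := mul_le_mul_of_nonneg_right (by rw [hC]; linarith) hrnn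
      _ ≤ 1 := hCr
  have hcond3 : ρ ≤ 1 / CL := by
    refine (sq_le_sq₀ hρ0 (by positivity)).1 ?_
    rw [div_pow, one_pow, le_div_iff₀ (by positivity)]
    calc ρ ^ 2 * CL ^ 2 = CL ^ 2 * ρ ^ 2 := by ring
      _ ≤ CL ^ 2 * r := mul_le_mul_of_nonneg_left hρr hCL2
      _ ≤ C * r := mul_le_mul_of_nonneg_right (by rw [hC]; linarith) hrnn
      _ ≤ 1 := hCr
  have heρ : ∀ M : Mt N, ‖M‖ ^ 2 ≤ e → ‖M‖ ≤ ρ := by
    intro M hM
    refine (sq_le_sq₀ (norm_nonneg _) hρ0).1 (hM.trans ?_)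
    rw [hρs, mul_add]
    have : 0 ≤ C6 * e₂ := by positivity
    have h2 : e ≤ C6 * e := le_mul_of_one_le_left he hC6
    linarith
  -- the deterministic comparison
  obtain ⟨h, c, hh0, HM1, HM2⟩ := HM Λ B R ρ σ σ' hBΛ hΛB hρ0 hcond1
    (fun l hl hl2 => ⟨heρ _ (hnear l hl hl2).1, heρ _ (hnear l hl hl2).2⟩) hσσ
  obtain ⟨err, herr⟩ : ∃ err : ℝ, err = CM * Λ.card * (Λ.card * ρ ^ 2) *
    (Real.sqrt (Λ.card * ρ ^ 2) + θ ^ R) := ⟨_, rfl⟩
  rw [← herr] at HM1 HM2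
  obtain ⟨bad, hbad⟩ : ∃ bad : Cf N L → Prop, bad = fun X =>
    CG * ∑ τ ∈ rng Λ, en k X τ + t ≤ ∑ τ ∈ tml Λ, en k X τ := ⟨_, rfl⟩
  have hbm : Measurable fun X => ind (bad X) := by
    have h1 : MeasurableSet {X : Cf N L | bad X} := by
      rw [hbad]
      refine measurableSet_le ?_ ?_
      · refine Continuous.measurable ?_
        exact ((continuous_finsetSum _ fun τ _ => en_cont k τ (by omega)).const_mul CG).add
          continuous_const
      · refine Continuous.measurable ?_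
        exact continuous_finsetSum _ fun τ _ => en_cont k τ (by omega)
    unfold ind
    exact Measurable.ite h1 measurable_const measurable_const
  obtain ⟨p, hp⟩ : ∃ p : ℝ, p = Real.exp (-β * t) * (CG * β) ^ (D * Λ.card) := ⟨_, rfl⟩
  have hp0 : 0 ≤ p := by rw [hp]; positivity
  have hZpos : ∀ η, 0 < S.num (hm N) Λ (fun _ => 1) η := PkgF.num_pos S (hm N) Λ
  have hprob : ∀ η, S.num (hm N) Λ (fun X => ind (bad X)) η ≤
      p * S.num (hm N) Λ (fun _ => 1) η := by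
    intro η
    have h1 := HG β hβ hβ1 Λ t ht η
    rw [← hS, ← hp] at h1
    unfold Sys.ker at h1
    rw [div_le_iff₀ (hZpos η)] at h1
    rw [hbad]
    exact h1
  -- the comparison for good configurations
  have hgood : ∀ (σ : Cf N L), (∀ l, l ∉ Frl L Λ → (∀ a ∈ st l, a ∈ pls Λ) →
      ‖(σ l : Mt N) - (vc P Q l : Mt N)‖ ^ 2 ≤ e) →
      ∀ X : Cf N L, (∀ l, l ∉ Frl L Λ → X l = σ l) → ¬ bad X →
      ∃ (g : Pt L → SU N) (z : Pl → Fin 4 → ℕ), (∀ p, p.1 ∉ Λ → g p = 1) ∧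
      (∀ x m, x ∉ Λ → x + pe m ∉ Λ → z x m = 0) ∧
      ∀ l : Lk L, (∀ a ∈ st l, a ∈ pls Λ) →
        ‖((gau g (cmv z X) l : SU N) : Mt N) - (vc P Q l : Mt N)‖ ≤ ρ := by
    intro σ hσ X hX hnb
    rw [hbad] at hnb
    push Not at hnb
    have h1 : ∀ τ ∈ rng Λ, en k X τ ≤ C3 * e := by
      intro τ hτ
      have h2 := HG3 (vc P Q) X τ (Real.sqrt e) (Real.sqrt_nonneg e) (fun l hl => by
        obtain ⟨h3, h4⟩ := rng_links hτ hl
        rw [hX l h3, norm_sub_rev]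
        exact Real.le_sqrt_of_sq_le (hσ l h3 h4))
      rwa [en_vc hB0 hN hk hPQ, mul_zero, zero_add, Real.sq_sqrt he] at h2
    have h2 : ∑ τ ∈ rng Λ, en k X τ ≤ 144 * n * (C3 * e) := by
      calc ∑ τ ∈ rng Λ, en k X τ ≤ ∑ τ ∈ rng Λ, C3 * e := Finset.sum_le_sum h1
        _ = (rng Λ).card * (C3 * e) := by rw [Finset.sum_const, nsmul_eq_mul]
        _ ≤ 144 * n * (C3 * e) := by
            refine mul_le_mul_of_nonneg_right ?_ (by positivity)
            have := card_rng Λ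
            rw [hn]
            exact_mod_cast this
    have h3 : ∀ τ ∈ tml Λ, en k X τ ≤ e₂ := by
      intro τ hτ
      refine (Finset.single_le_sum (f := fun τ => en k X τ) (fun τ _ => en_nonneg k X τ) hτ).trans ?_
      refine hnb.le.trans ?_
      rw [he₂]
      have := mul_le_mul_of_nonneg_left h2 hCG0
      linarith
    obtain ⟨g, z, hg, hz, hgz⟩ := H6 Λ e e₂ X he he₂0 (fun l hl hl2 => by
      rw [hX l hl]; exact hσ l hl hl2) h3
    refine ⟨g, z, hg, hz, fun l hl => ?_⟩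
    rw [hρ]
    exact Real.le_sqrt_of_sq_le (hgz l hl)
  obtain ⟨s, hs⟩ : ∃ s : ℝ, s = β * err + 16 * Λ.card * N * Real.exp (-β / CL) := ⟨_, rfl⟩
  have herr0 : 0 ≤ err := by rw [herr]; positivity
  have hs0 : 0 ≤ s := by rw [hs]; positivity
  -- first direction
  have hdir1 : Real.exp (-β * c - s) * (S.num (hm N) Λ F σ -
      S.num (hm N) Λ (fun X => ind (bad X)) σ) ≤ S.num (hm N) Λ F σ' := by
    rw [hS]
    refine onedir hJM hN hβ Λ P Q hEc hE0 h (fun l hl => hh0 l (Or.inl hl)) _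
      (Real.exp_pos _).le σ σ' F hFm hF bad hbm ?_ ?_
    · intro X hX hnb
      obtain ⟨g, z, hg, hz, hgz⟩ := hgood σ (fun l hl hl2 => (hnear l hl hl2).1) X hX hnb
      rw [hs]
      exact wcomp hJI hN hCLp HL hEa hβ Λ σ σ' h c err ρ HM1 hcond3 hcond2 X hX g z hg hz hgz
    · intro X hX
      refine hdep _ _ fun l hl => ?_
      by_cases hl2 : l ∈ Frl L Λ
      · have e1 : glue (Frl L Λ) (TM P Q E h X) σ' l = TM P Q E h X l := by
          unfold glue; rw [if_pos hl2]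
        rw [e1]
        refine TM_eq P Q hE0 h X l (hh0 l (Or.inr ?_))
        obtain ⟨a, ha, haΛ⟩ := (mem_Frl _ _).1 hl2
        rcases hl a ha with h1 | h1
        · exact absurd haΛ h1.2
        · exact (mem_Frl _ _).2 ⟨a, ha, h1⟩
      · rw [glue_off _ _ l hl2, hX l hl2]
        refine (hσσ l hl2 fun a ha => ?_).symm
        rcases hl a ha with h1 | h1
        · exact h1.1
        · exact absurd ((mem_Frl _ _).2 ⟨a, ha, hBΛ h1⟩) hl2
  -- second direction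
  have hdir2 : Real.exp (-β * (-c) - s) * (S.num (hm N) Λ (fun _ => 1) σ' -
      S.num (hm N) Λ (fun X => ind (bad X)) σ') ≤ S.num (hm N) Λ (fun _ => 1) σ := by
    rw [hS]
    refine onedir hJM hN hβ Λ P Q hEc hE0 (fun l => - h l)
      (fun l hl => by rw [hh0 l (Or.inl hl), neg_zero]) _
      (Real.exp_pos _).le σ' σ (fun _ => 1) measurable_const (fun _ => ⟨zero_le_one, le_rfl⟩)
      bad hbm ?_ (fun _ _ => rfl)
    intro X hX hnb
    obtain ⟨g, z, hg, hz, hgz⟩ := hgood σ' (fun l hl hl2 => (hnear l hl hl2).2) X hX hnb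
    rw [hs]
    refine wcomp hJI hN hCLp HL hEa hβ Λ σ' σ (fun l => - h l) (-c) err ρ (fun X h1 h2 => ?_)
      hcond3 hcond2 X hX g z hg hz hgz
    have h3 := HM2 X h1 h2
    rwa [← sub_neg_eq_add] at h3
  -- conclusion
  have hnF0 : ∀ η, 0 ≤ S.num (hm N) Λ F η := fun η =>
    integral_nonneg fun ξ => mul_nonneg (hF _).1 (PkgF.W_pos S Λ _).le
  have hnF1 : ∀ η, S.num (hm N) Λ F η ≤ S.num (hm N) Λ (fun _ => 1) η := by
    intro η
    refine integral_mono (PkgF.fW_int S (hm N) Λ hFm ⟨1, fun X => by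
      rw [abs_of_nonneg (hF X).1]; exact (hF X).2⟩ η)
      (PkgF.fW_int S (hm N) Λ (f := fun _ => 1) measurable_const PkgF.bdd_one η) fun ξ => ?_
    exact mul_le_mul_of_nonneg_right (hF _).2 (PkgF.W_pos S Λ _).le
  have hconc : S.ker (hm N) Λ F σ ≤ S.ker (hm N) Λ F σ' + (2 * s + 2 * p) := by
    unfold Sys.ker
    refine fin_ineq (u := β * c) (hZpos σ) (hZpos σ') (hnF0 σ) (hnF1 σ) (hnF0 σ') hp0 hs0 ?_ ?_
    · refine le_trans ?_ hdir1
      rw [show -(β * c) - s = -β * c - s by ring]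
      refine mul_le_mul_of_nonneg_left ?_ (Real.exp_pos _).le
      have := hprob σ
      linarith
    · refine le_trans ?_ hdir2
      rw [show -β * (-c) - s = β * c - s by ring]
      refine mul_le_mul_of_nonneg_left ?_ (Real.exp_pos _).le
      have := hprob σ'
      linarith
  refine hconc.trans ?_
  have hsfin : 2 * s ≤ C * n * (β * (r * Real.sqrt r + θ ^ R * r) + Real.exp (-β / C)) := by
    have h1 : err ≤ CM * n * (r * Real.sqrt r + θ ^ R * r) := by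
      rw [herr, ← hn]
      calc CM * n * (n * ρ ^ 2) * (Real.sqrt (n * ρ ^ 2) + θ ^ R)
          ≤ CM * n * r * (Real.sqrt r + θ ^ R) := by
            refine mul_le_mul ?_ ?_ (by positivity) (by positivity)
            · exact mul_le_mul_of_nonneg_left hnρ (by positivity)
            · have := Real.sqrt_le_sqrt hnρ
              linarith
        _ = CM * n * (r * Real.sqrt r + θ ^ R * r) := by ring
    have h2 : Real.exp (-β / CL) ≤ Real.exp (-β / C) := by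
      apply Real.exp_le_exp.2
      have h3 : β / C ≤ β / CL := by
        refine div_le_div_of_nonneg_left hβ hCLp ?_
        rw [hC]; linarith
      rw [neg_div, neg_div]
      linarith
    obtain ⟨v, hv⟩ : ∃ v : ℝ, v = r * Real.sqrt r + θ ^ R * r := ⟨_, rfl⟩
    rw [← hv] at h1 ⊢
    have hv0 : 0 ≤ v := by rw [hv]; positivity
    obtain ⟨w, hw⟩ : ∃ w : ℝ, w = Real.exp (-β / C) := ⟨_, rfl⟩
    rw [← hw] at h2 ⊢
    have hw0 : 0 ≤ w := by rw [hw]; positivity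
    rw [hs, ← hn]
    have h4 : β * err ≤ β * (CM * n * v) := mul_le_mul_of_nonneg_left h1 hβ
    have h5 : 16 * n * N * Real.exp (-β / CL) ≤ 16 * n * N * w :=
      mul_le_mul_of_nonneg_left h2 (by positivity)
    have h6 : 2 * CM * (n * (β * v)) ≤ C * (n * (β * v)) :=
      mul_le_mul_of_nonneg_right (by rw [hC]; linarith) (by positivity)
    have h7 : 32 * (N : ℝ) * (n * w) ≤ C * (n * w) :=
      mul_le_mul_of_nonneg_right (by rw [hC]; linarith) (by positivity)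
    have h8 : C * n * (β * v + w) = C * (n * (β * v)) + C * (n * w) := by ring
    have h9 : 2 * (β * (CM * n * v)) = 2 * CM * (n * (β * v)) := by ring
    have h10 : 2 * (16 * n * N * w) = 32 * (N : ℝ) * (n * w) := by ring
    linarith
  have hpfin : p ≤ Real.exp (-β * t) * (C * β) ^ (D * Λ.card) := by
    rw [hp]
    refine mul_le_mul_of_nonneg_left ?_ (Real.exp_pos _).le
    refine pow_le_pow_left₀ (by positivity) ?_ _
    refine mul_le_mul_of_nonneg_right ?_ hβ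
    rw [hC]; linarith
  linarith

end T2H02.TT
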