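import Pool.Agent.T2H02.TT.StmU
import Pool.Agent.T2H02.TT.M1

/-!
# Package M1u : comparison of kernels, boundary values near the vacuum, constants polynomial in `L`
-/

set_option autoImplicit false
set_option linter.unusedSectionVars false
set_option linter.unusedVariables false
set_option linter.unusedSimpArgs false

noncomputable section

open MeasureTheory Matrix
open scoped Matrix.Norms.Frobenius

namespace T2H02.TT.PkgM1u

open T2H02.TT T2H02.TT.PkgM1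

variable {N L : ℕ} [NeZero L]

lemma gfixu (hJI : S_JI) {k : ℕ} (hN : 2 ≤ N) {P Q : SU N} {CD CJ : ℝ} (hCD : 0 ≤ CD) (hCJ : 0 ≤ CJ)
    (HD : ∀ φ : Ph N L, ∃ g : Tor L → SU N, dst (act g φ) (vac P Q) ≤ CD * VV k φ)
    (HJ : ∀ (φ ψ : Ph N L) (U : Tor L → SU N) (e : ℝ),
      dst φ (vac P Q) ≤ e → dst ψ (vac P Q) ≤ e →
      ∑ y, ∑ j, ‖(U y : Mt N) * (ψ y j : Mt N) - (φ y j : Mt N) * (U (tsh y j) : Mt N)‖ ^ 2 ≤ e →
      ∃ m : Fin N, ∑ y, ‖(U y : Mt N) - om N m • (1 : Mt N)‖ ^ 2 ≤ CJ * e) :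
    ∀ (Λ : Finset Pl) (e e₂ : ℝ) (X : Cf N L),
    0 ≤ e → 0 ≤ e₂ →
    (∀ l, l ∉ Frl L Λ → (∀ a ∈ st l, a ∈ pls Λ) → ‖(X l : Mt N) - (vc P Q l : Mt N)‖ ^ 2 ≤ e) →
    (∀ τ ∈ tml Λ, en k X τ ≤ e₂) →
    ∃ (g : Pt L → SU N) (z : Pl → Fin 4 → ℕ), (∀ p, p.1 ∉ Λ → g p = 1) ∧
      (∀ x m, x ∉ Λ → x + pe m ∉ Λ → z x m = 0) ∧
      ∀ l : Lk L, (∀ a ∈ st l, a ∈ pls Λ) →
        ‖((gau g (cmv z X) l : SU N) : Mt N) - (vc P Q l : Mt N)‖ ^ 2 ≤
          (CJ + 1) * (CD + 2 * (L : ℝ) ^ 2 + 2) * (e₂ + e) := by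
  obtain ⟨M, hM⟩ : ∃ M : ℝ, M = CD + 2 * (L : ℝ) ^ 2 + 2 := ⟨_, rfl⟩
  have hL0 : (0 : ℝ) ≤ 2 * (L : ℝ) ^ 2 := by positivity
  have hM0 : 2 ≤ M := by rw [hM]; linarith
  rw [← hM]
  intro Λ e e₂ X he he₂ hbd hen
  choose G hG using fun x : Pl => HD (pt X x)
  obtain ⟨g, hg⟩ : ∃ g : Pt L → SU N, g = fun p => if p.1 ∈ Λ then G p.1 p.2 else 1 := ⟨_, rfl⟩
  have hg1 : ∀ p, p.1 ∉ Λ → g p = 1 := fun p hp => by rw [hg]; simp [hp]
  obtain ⟨X', hX'⟩ : ∃ X' : Cf N L, X' = gau g X := ⟨_, rfl⟩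
  have hen' : ∀ τ, en k X' τ = en k X τ := fun τ => by
    rw [hX']; exact ((hJI N k L hN g (fun _ _ => 0) X).1 τ).1
  obtain ⟨e', he'⟩ : ∃ e' : ℝ, e' = M * (e₂ + e) := ⟨_, rfl⟩
  have hMe : 0 ≤ M * e := by positivity
  have hMe2 : 0 ≤ M * e₂ := by positivity
  -- torus links
  have hA : ∀ x ∈ pls Λ, dst (pt X' x) (vac P Q) ≤ e' := by
    intro x hx
    by_cases hxΛ : x ∈ Λ
    · have h1 : pt X' x = act (G x) (pt X x) := by
        rw [hX', pt_gau]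
        congr 1
        funext y
        rw [hg]; simp [hxΛ]
      rw [h1]
      refine (hG x).trans ?_
      rw [← eV_pt]
      have h2 : en k X (x, 0) ≤ e₂ := hen _ ((mem_tml _ _).2 ⟨x, (mem_cor0 _ _).2 rfl, hxΛ⟩)
      have h3 : en k X (x, 0) = eV k X x := by simp [en]
      rw [h3] at h2
      calc CD * eV k X x ≤ CD * e₂ := mul_le_mul_of_nonneg_left h2 hCD
        _ ≤ M * e₂ := mul_le_mul_of_nonneg_right (by rw [hM]; linarith) he₂
        _ ≤ e' := by rw [he']; linarith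
    · have h1 : pt X' x = pt X x := by
        rw [hX', pt_gau]
        have : (fun y => g (x, y)) = fun _ => 1 := by
          funext y
          exact hg1 _ hxΛ
        rw [this, PkgD.act_one]
      rw [h1]
      have h2 : ∀ y j, ‖(pt X x y j : Mt N) - (vac P Q y j : Mt N)‖ ^ 2 ≤ e := by
        intro y j
        have h3 : ∀ i : Fin 4, (i = 2 ∨ i = 3) →
            ‖(X ((x, y), i) : Mt N) - (vc P Q ((x, y), i) : Mt N)‖ ^ 2 ≤ e := by
          intro i hi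
          have hst : ∀ a ∈ st (((x, y), i) : Lk L), a = x := by
            intro a ha
            rw [mem_st] at ha
            rcases hi with rfl | rfl <;> simpa [pe, h00] using ha
          refine hbd _ (fun h => ?_) (fun a ha => by rw [hst a ha]; exact hx)
          obtain ⟨a, ha, haΛ⟩ := (mem_Frl _ _).1 h
          rw [hst a ha] at haΛ
          exact hxΛ haΛ
        fin_cases j
        · have := h3 2 (Or.inl rfl)
          simpa [pt, vc] using this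
        · have := h3 3 (Or.inr rfl)
          simpa [pt, vc] using this
      calc dst (pt X x) (vac P Q) ≤ ∑ y : Tor L, ∑ j : Fin 2, e :=
            Finset.sum_le_sum fun y _ => Finset.sum_le_sum fun j _ => h2 y j
        _ = 2 * (L : ℝ) ^ 2 * e := by
            simp only [Finset.sum_const, Finset.card_univ, Fintype.card_prod, ZMod.card,
              Fintype.card_fin, nsmul_eq_mul]
            push_cast
            ring
        _ ≤ M * e := mul_le_mul_of_nonneg_right (by rw [hM]; linarith) he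
        _ ≤ e' := by rw [he']; linarith
  -- plane links
  have hpls : ∀ x (m : Fin 4), (m = 0 ∨ m = 1) → (x ∈ Λ ∨ x + pe m ∈ Λ) →
      x ∈ pls Λ ∧ x + pe m ∈ pls Λ := by
    intro x m hm hx
    have h1 : (((x, 0), m) : Lk L) ∈ Frl L Λ := by
      rw [mem_Frl]
      rcases hx with h | h
      · exact ⟨x, (mem_st _ _).2 (Or.inl rfl), h⟩
      · exact ⟨x + pe m, (mem_st _ _).2 (Or.inr rfl), h⟩
    exact ⟨sub_pls_of_Frl h1 _ ((mem_st _ _).2 (Or.inl rfl)),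
      sub_pls_of_Frl h1 _ ((mem_st _ _).2 (Or.inr rfl))⟩
  have hB : ∀ (x : Pl) (m : Fin 4), ∃ n : Fin N, (m = 0 ∨ m = 1) → (x ∈ Λ ∨ x + pe m ∈ Λ) →
      ∑ y : Tor L, ‖(X' ((x, y), m) : Mt N) - om N n • (1 : Mt N)‖ ^ 2 ≤ CJ * e' := by
    intro x m
    by_cases hc : (m = 0 ∨ m = 1) ∧ (x ∈ Λ ∨ x + pe m ∈ Λ)
    · obtain ⟨h1, h2⟩ := hpls x m hc.1 hc.2
      have h3 : eK X' x m ≤ e₂ := by
        rcases hc with ⟨rfl | rfl, hx⟩
        · have h4 : (x, (1 : Fin 4)) ∈ tml Λ := by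
            rw [mem_tml]
            rcases hx with h | h
            · exact ⟨x, (mem_cor1 _ _).2 (Or.inl rfl), h⟩
            · exact ⟨x + (1, 0), (mem_cor1 _ _).2 (Or.inr rfl), h⟩
          have h5 := hen _ h4
          rw [← hen'] at h5
          simpa [en] using h5
        · have h4 : (x, (2 : Fin 4)) ∈ tml Λ := by
            rw [mem_tml]
            rcases hx with h | h
            · exact ⟨x, (mem_cor2 _ _).2 (Or.inl rfl), h⟩
            · exact ⟨x + (0, 1), (mem_cor2 _ _).2 (Or.inr rfl), h⟩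
          have h5 := hen _ h4
          rw [← hen'] at h5
          simpa [en] using h5
      obtain ⟨n, hn⟩ := HJ (pt X' x) (pt X' (x + pe m)) (fun y => X' ((x, y), m)) e' (hA _ h1)
        (hA _ h2) (by
          rw [eK_pt X' x m hc.1]
          have : 2 * e₂ ≤ M * e₂ := mul_le_mul_of_nonneg_right hM0 he₂
          rw [he']; linarith)
      exact ⟨n, fun _ _ => hn⟩
    · exact ⟨⟨0, by omega⟩, fun h1 h2 => absurd ⟨h1, h2⟩ hc⟩
  choose n hn using hB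
  refine ⟨g, fun x m => if (m = 0 ∨ m = 1) ∧ (x ∈ Λ ∨ x + pe m ∈ Λ) then N - n x m else 0, hg1,
    fun x m h1 h2 => if_neg (fun h => by tauto), ?_⟩
  rintro ⟨⟨x, y⟩, i⟩ hl
  rw [cmv_gau, ← hX']
  have hxp : x ∈ pls Λ := hl x ((mem_st _ _).2 (Or.inl rfl))
  have hfin : e' ≤ (CJ + 1) * M * (e₂ + e) := by
    rw [he']
    have : 0 ≤ CJ * (M * (e₂ + e)) := by positivity
    linarith
  have hfin2 : CJ * e' ≤ (CJ + 1) * M * (e₂ + e) := by
    rw [he']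
    have : 0 ≤ (M * (e₂ + e)) := by positivity
    linarith
  have htor : ∀ j : Fin 2, ‖(pt X' x y j : Mt N) - (vac P Q y j : Mt N)‖ ^ 2 ≤
      (CJ + 1) * M * (e₂ + e) := fun j => (PkgD.le_dst _ _ _ _).trans ((hA x hxp).trans hfin)
  have hpl : ∀ m : Fin 4, (m = 0 ∨ m = 1) → i = m →
      ‖((cmv (fun x m => if (m = 0 ∨ m = 1) ∧ (x ∈ Λ ∨ x + pe m ∈ Λ) then N - n x m else 0) X'
        ((x, y), m) : SU N) : Mt N) - (vc P Q ((x, y), m) : Mt N)‖ ^ 2 ≤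
        (CJ + 1) * M * (e₂ + e) := by
    intro m hm him
    subst him
    have hv : (vc P Q (((x, y), i) : Lk L) : Mt N) = 1 := by
      rcases hm with rfl | rfl <;> simp [vc]
    rw [hv]
    have hcm : ∀ z : Pl → Fin 4 → ℕ, cmv z X' ((x, y), i) = cen N (z x i) * X' ((x, y), i) := by
      intro z
      unfold cmv
      rw [if_pos hm]
    rw [hcm]
    by_cases hx : x ∈ Λ ∨ x + pe i ∈ Λ
    · rw [if_pos ⟨hm, hx⟩, cen_norm hN]
      refine le_trans ?_ ((hn x i hm hx).trans hfin2)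
      exact Finset.single_le_sum (f := fun y => ‖(X' ((x, y), i) : Mt N) -
        om N (n x i) • (1 : Mt N)‖ ^ 2) (fun _ _ => by positivity) (Finset.mem_univ y)
    · rw [if_neg (fun h => hx h.2), cen_zero, one_mul]
      push Not at hx
      have h1 : X' ((x, y), i) = X ((x, y), i) := by
        rw [hX']
        unfold gau
        rw [hg1 (x, y) hx.1, hg1 (nx (x, y) i) hx.2]
        simp
      rw [h1]
      have h2 := hbd ((x, y), i) (fun h => by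
        obtain ⟨a, ha, haΛ⟩ := (mem_Frl _ _).1 h
        rcases (mem_st _ _).1 ha with rfl | rfl
        · exact hx.1 haΛ
        · exact hx.2 haΛ) hl
      rw [hv] at h2
      refine h2.trans (le_trans ?_ hfin)
      rw [he']
      have : 1 * e ≤ M * e := mul_le_mul_of_nonneg_right (by linarith) he
      linarith
  fin_cases i
  · exact hpl 0 (Or.inl rfl) rfl
  · exact hpl 1 (Or.inr rfl) rfl
  · have := htor 0
    simpa [pt, vc, cmv] using this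
  · have := htor 1
    simpa [pt, vc, cmv] using this

/-! ### the comparison for fixed `L` -/

theorem core {k : ℕ} (hN : 2 ≤ N) (hk : Nat.Coprime k N) {P Q : SU N} (hPQ : PQ k P Q)
    (hB0 : S_B0) (hJI : S_JI) (hJM : S_JM)
    {E : Mt N → SU N} (hEc : Continuous E) (hE0 : E 0 = 1)
    (hEa : ∀ (g : SU N) (M : Mt N), E (Adj g M) = g * E M * g⁻¹)
    {CG C3 C6 CL CM : ℝ} {D : ℕ} (hCG : 1 ≤ CG) (hC3 : 1 ≤ C3) (hC6 : 1 ≤ C6) (hCL : 1 ≤ CL)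
    (hCM : 1 ≤ CM)
    (HG : ∀ (β : ℝ) (hβ : 0 ≤ β), 1 ≤ β → ∀ (U : Finset Pl) (t : ℝ), 0 ≤ t →
      ∀ η : Cf N L, (sysS N L k β hN hβ).ker (hm N) U (fun X =>
        ind (CG * ∑ τ ∈ rng U, en k X τ + t ≤ ∑ τ ∈ tml U, en k X τ)) η ≤
        Real.exp (-β * t) * (CG * β) ^ (D * U.card))
    (HG3 : ∀ (X Y : Cf N L) (τ : Tm) (r : ℝ), 0 ≤ r →
      (∀ l ∈ (spt τ : Finset (Lk L)), ‖(X l : Mt N) - (Y l : Mt N)‖ ≤ r) →
      en k Y τ ≤ 2 * en k X τ + C3 * r ^ 2)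
    (H6 : ∀ (Λ : Finset Pl) (e e₂ : ℝ) (X : Cf N L),
      0 ≤ e → 0 ≤ e₂ →
      (∀ l, l ∉ Frl L Λ → (∀ a ∈ st l, a ∈ pls Λ) → ‖(X l : Mt N) - (vc P Q l : Mt N)‖ ^ 2 ≤ e) →
      (∀ τ ∈ tml Λ, en k X τ ≤ e₂) →
      ∃ (g : Pt L → SU N) (z : Pl → Fin 4 → ℕ), (∀ p, p.1 ∉ Λ → g p = 1) ∧
        (∀ x m, x ∉ Λ → x + pe m ∉ Λ → z x m = 0) ∧
        ∀ l : Lk L, (∀ a ∈ st l, a ∈ pls Λ) →
          ‖((gau g (cmv z X) l : SU N) : Mt N) - (vc P Q l : Mt N)‖ ^ 2 ≤ C6 * (e₂ + e))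
    (HL : ∀ (τ : Tm) (X : Cf N L),
      (∀ l ∈ (spt τ : Finset (Lk L)), ‖(X l : Mt N) - (vc P Q l : Mt N)‖ ≤ 1 / CL) →
      ∀ β : ℝ, 0 ≤ β →
        (if τ.2 = 3 then (1 / N : ℝ) else 1) * Real.exp (-β * en1 k X τ) ≤ wt k β τ X ∧
        wt k β τ X ≤ (if τ.2 = 3 then (1 / N : ℝ) else 1) * Real.exp (-β * en1 k X τ) *
          (1 + N * Real.exp (-β / CL)))
    (T : ℕ → ℝ) (hT : ∀ R, 0 ≤ T R)
    (HM : ∀ (Λ B : Finset Pl) (R : ℕ) (ρ : ℝ) (σ σ' : Cf N L), B ⊆ Λ → Λ ⊆ bal R B →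
      0 ≤ ρ → CM * Λ.card * ρ ^ 2 ≤ 1 →
      (∀ l, l ∉ Frl L Λ → (∀ a ∈ st l, a ∈ pls Λ) →
        ‖(σ l : Mt N) - (vc P Q l : Mt N)‖ ≤ ρ ∧ ‖(σ' l : Mt N) - (vc P Q l : Mt N)‖ ≤ ρ) →
      (∀ l, l ∉ Frl L Λ → (∀ a ∈ st l, a ∈ bal R B) → σ l = σ' l) →
      ∃ (h : Lk L → Mt N) (c' : ℝ), (∀ l, l ∉ Frl L Λ ∨ l ∈ Frl L B → h l = 0) ∧
        (∀ X : Cf N L, (∀ l, l ∉ Frl L Λ → X l = σ l) →
          (∀ l, (∀ a ∈ st l, a ∈ pls Λ) → ‖(X l : Mt N) - (vc P Q l : Mt N)‖ ≤ ρ) →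
          (∀ l, (∀ a ∈ st l, a ∈ pls Λ) →
            ‖((glue (Frl L Λ) (TM P Q E h X) σ' l : SU N) : Mt N) - (vc P Q l : Mt N)‖ ^ 2 ≤
              CM * Λ.card * ρ ^ 2) ∧
          |∑ τ ∈ tml Λ, (en1 k (glue (Frl L Λ) (TM P Q E h X) σ') τ - en1 k X τ) - c'| ≤
            CM * Λ.card * (Λ.card * ρ ^ 2) *
              (Real.sqrt (Λ.card * ρ ^ 2) + T R)) ∧
        (∀ X : Cf N L, (∀ l, l ∉ Frl L Λ → X l = σ' l) →
          (∀ l, (∀ a ∈ st l, a ∈ pls Λ) → ‖(X l : Mt N) - (vc P Q l : Mt N)‖ ≤ ρ) →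
          (∀ l, (∀ a ∈ st l, a ∈ pls Λ) →
            ‖((glue (Frl L Λ) (TM P Q E (fun l => - h l) X) σ l : SU N) : Mt N) -
              (vc P Q l : Mt N)‖ ^ 2 ≤ CM * Λ.card * ρ ^ 2) ∧
          |∑ τ ∈ tml Λ, (en1 k (glue (Frl L Λ) (TM P Q E (fun l => - h l) X) σ) τ -
            en1 k X τ) + c'| ≤
            CM * Λ.card * (Λ.card * ρ ^ 2) *
              (Real.sqrt (Λ.card * ρ ^ 2) + T R)))
    {C₁ C C7 : ℝ} (hC7 : C7 = C6 * (144 * CG * C3 + 1)) (hC1 : 1 ≤ C₁) (hk1 : C7 ≤ C)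
    (hk2 : (CM + CM * CL ^ 2 + CL ^ 2) * C7 ≤ C₁ * C) (hk3 : 2 * CM ≤ C) (hk4 : 32 * (N : ℝ) ≤ C)
    (hk5 : CL ≤ C₁) (hk6 : CG ≤ C) :
    ∀ (β : ℝ) (hβ : 0 ≤ β), 1 ≤ β →
    ∀ (Λ B : Finset Pl) (R : ℕ) (e t r : ℝ), 0 ≤ e → 0 ≤ t → B ⊆ Λ → Λ ⊆ bal R B →
      r = C * Λ.card * (Λ.card * e + t) → r ≤ 1 / C₁ →
    ∀ σ σ' : Cf N L, (∀ l, l ∉ Frl L Λ → (∀ a ∈ st l, a ∈ bal R B) → σ l = σ' l) →
      (∀ l, l ∉ Frl L Λ → (∀ a ∈ st l, a ∈ pls Λ) →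
        ‖(σ l : Mt N) - (vc P Q l : Mt N)‖ ^ 2 ≤ e ∧ ‖(σ' l : Mt N) - (vc P Q l : Mt N)‖ ^ 2 ≤ e) →
      ∀ F : Cf N L → ℝ, Measurable F → (∀ X, 0 ≤ F X ∧ F X ≤ 1) →
        Sys.dep {l | ∀ a ∈ st l, (a ∈ bal R B ∧ a ∉ Λ) ∨ a ∈ B} F →
        (sysS N L k β hN hβ).ker (hm N) Λ F σ ≤ (sysS N L k β hN hβ).ker (hm N) Λ F σ' +
          C * Λ.card * (β * (r * Real.sqrt r + T R * r) + Real.exp (-β / C₁)) +
          2 * (Real.exp (-β * t) * (C * β) ^ (D * Λ.card)) := by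
  have hCG0' : 0 ≤ CG := by linarith
  have hC60' : 0 ≤ C6 := by linarith
  have hC30' : 0 ≤ C3 := by linarith
  have hC7p : 0 ≤ C7 := by
    rw [hC7]
    positivity
  have hNp : (0 : ℝ) ≤ N := Nat.cast_nonneg N
  have hCL2 : 0 ≤ CL ^ 2 := by positivity
  have hCMCL : 0 ≤ CM * CL ^ 2 := mul_nonneg (by linarith) hCL2
  have hCp : 0 < C := by linarith
  have hC1p : 0 < C₁ := by linarith
  intro β hβ hβ1 Λ B R e t r he ht hBΛ hΛB hr hrC σ σ' hσσ hnear F hFm hF hdep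
  obtain ⟨S, hS⟩ : ∃ S : Sys (Lk L) Tm (SU N), S = sysS N L k β hN hβ := ⟨_, rfl⟩
  rw [← hS]
  obtain ⟨n, hn⟩ : ∃ n : ℝ, n = (Λ.card : ℝ) := ⟨_, rfl⟩
  rw [← hn] at hr ⊢
  have hn0 : 0 ≤ n := by rw [hn]; positivity
  have hrnn : 0 ≤ r := by rw [hr]; positivity
  have hθR : 0 ≤ T R := hT R
  -- the empty set
  rcases Finset.eq_empty_or_nonempty Λ with hΛ | hΛ
  · have hBe : B = ∅ := by
      rw [hΛ] at hBΛ
      exact Finset.subset_empty.1 hBΛ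
    have hFc : F = fun _ => F σ := by
      funext X
      refine hdep X σ fun l hl => ?_
      exfalso
      have h1 := hl l.1.1 ((mem_st _ _).2 (Or.inl rfl))
      rw [hBe] at h1
      simp [bal] at h1
    have h1 : ∀ η, S.ker (hm N) Λ F η = F σ := by
      intro η
      rw [hFc]
      exact PkgF.ker_const S (hm N) Λ (F σ) η
    rw [h1, h1]
    have h2 : 0 ≤ C * n * (β * (r * Real.sqrt r + T R * r) + Real.exp (-β / C₁)) := by positivity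
    have h3 : 0 ≤ 2 * (Real.exp (-β * t) * (C * β) ^ (D * Λ.card)) := by positivity
    linarith
  have hn1 : 1 ≤ n := by
    rw [hn]
    exact_mod_cast hΛ.card_pos
  -- the parameters
  obtain ⟨e₂, he₂⟩ : ∃ e₂ : ℝ, e₂ = CG * (144 * n * (C3 * e)) + t := ⟨_, rfl⟩
  have hCG0 : 0 ≤ CG := by linarith
  have he₂0 : 0 ≤ e₂ := by rw [he₂]; positivity
  obtain ⟨ρ, hρ⟩ : ∃ ρ : ℝ, ρ = Real.sqrt (C6 * (e₂ + e)) := ⟨_, rfl⟩
  have hC60 : 0 ≤ C6 := by linarith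
  have hρ0 : 0 ≤ ρ := by rw [hρ]; exact Real.sqrt_nonneg _
  have hρs : ρ ^ 2 = C6 * (e₂ + e) := by rw [hρ]; exact Real.sq_sqrt (by positivity)
  have hne : 0 ≤ n * e := by positivity
  have hρle : ρ ^ 2 ≤ C7 * (n * e + t) := by
    rw [hρs, hC7, he₂]
    have h1 : e ≤ n * e := le_mul_of_one_le_left he hn1
    have h2 : 0 ≤ C6 * (144 * CG * C3 * t) := by positivity
    have h3 : C6 * e ≤ C6 * (n * e) := mul_le_mul_of_nonneg_left h1 hC60
    have h4 : C6 * (144 * CG * C3 + 1) * (n * e + t) - C6 * (CG * (144 * n * (C3 * e)) + t + e) =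
        C6 * (144 * CG * C3 * t) + (C6 * (n * e) - C6 * e) := by ring
    linarith
  have hnρ : n * ρ ^ 2 ≤ r := by
    calc n * ρ ^ 2 ≤ n * (C7 * (n * e + t)) := mul_le_mul_of_nonneg_left hρle hn0
      _ = C7 * (n * (n * e + t)) := by ring
      _ ≤ C * (n * (n * e + t)) := mul_le_mul_of_nonneg_right hk1 (by positivity)
      _ = r := by rw [hr]; ring
  have hnρ0 : 0 ≤ n * ρ ^ 2 := by positivity
  have hρr : ρ ^ 2 ≤ r := by
    refine le_trans ?_ hnρ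
    have : 0 ≤ ρ ^ 2 := by positivity
    exact le_mul_of_one_le_left this hn1
  have hnρ7 : n * ρ ^ 2 ≤ C7 * (n * (n * e + t)) := by
    calc n * ρ ^ 2 ≤ n * (C7 * (n * e + t)) := mul_le_mul_of_nonneg_left hρle hn0
      _ = C7 * (n * (n * e + t)) := by ring
  have hw0 : 0 ≤ n * (n * e + t) := by positivity
  have hCr : C₁ * C * (n * (n * e + t)) ≤ 1 := by
    have := mul_le_mul_of_nonneg_left hrC hC1p.le
    rw [mul_one_div, div_self hC1p.ne', hr] at this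
    calc C₁ * C * (n * (n * e + t)) = C₁ * (C * n * (n * e + t)) := by ring
      _ ≤ 1 := this
  have hsmall : ∀ a : ℝ, 0 ≤ a → a ≤ CM + CM * CL ^ 2 + CL ^ 2 → a * (n * ρ ^ 2) ≤ 1 := by
    intro a ha0 ha
    calc a * (n * ρ ^ 2) ≤ a * (C7 * (n * (n * e + t))) := mul_le_mul_of_nonneg_left hnρ7 ha0
      _ ≤ (CM + CM * CL ^ 2 + CL ^ 2) * (C7 * (n * (n * e + t))) :=
          mul_le_mul_of_nonneg_right ha (by positivity)
      _ = ((CM + CM * CL ^ 2 + CL ^ 2) * C7) * (n * (n * e + t)) := by ring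
      _ ≤ C₁ * C * (n * (n * e + t)) := mul_le_mul_of_nonneg_right hk2 hw0
      _ ≤ 1 := hCr
  have hcond1 : CM * Λ.card * ρ ^ 2 ≤ 1 := by
    rw [← hn, mul_assoc]
    exact hsmall CM (by linarith) (by linarith)
  have hCLp : 0 < CL := by linarith
  have hcond2 : CM * Λ.card * ρ ^ 2 ≤ (1 / CL) ^ 2 := by
    rw [← hn, mul_assoc, div_pow, one_pow, le_div_iff₀ (by positivity)]
    calc CM * (n * ρ ^ 2) * CL ^ 2 = CM * CL ^ 2 * (n * ρ ^ 2) := by ring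
      _ ≤ 1 := hsmall _ hCMCL (by linarith)
  have hcond3 : ρ ≤ 1 / CL := by
    refine (sq_le_sq₀ hρ0 (by positivity)).1 ?_
    rw [div_pow, one_pow, le_div_iff₀ (by positivity)]
    have hρn : ρ ^ 2 ≤ n * ρ ^ 2 := le_mul_of_one_le_left (by positivity) hn1
    calc ρ ^ 2 * CL ^ 2 = CL ^ 2 * ρ ^ 2 := by ring
      _ ≤ CL ^ 2 * (n * ρ ^ 2) := mul_le_mul_of_nonneg_left hρn hCL2
      _ ≤ 1 := hsmall _ hCL2 (by linarith)
  have heρ : ∀ M : Mt N, ‖M‖ ^ 2 ≤ e → ‖M‖ ≤ ρ := by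
    intro M hM
    refine (sq_le_sq₀ (norm_nonneg _) hρ0).1 (hM.trans ?_)
    rw [hρs, mul_add]
    have : 0 ≤ C6 * e₂ := by positivity
    have h2 : e ≤ C6 * e := le_mul_of_one_le_left he hC6
    linarith
  -- the deterministic comparison
  obtain ⟨h, c, hh0, HM1, HM2⟩ := HM Λ B R ρ σ σ' hBΛ hΛB hρ0 hcond1
    (fun l hl hl2 => ⟨heρ _ (hnear l hl hl2).1, heρ _ (hnear l hl hl2).2⟩) hσσ
  obtain ⟨err, herr⟩ : ∃ err : ℝ, err = CM * Λ.card * (Λ.card * ρ ^ 2) *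
    (Real.sqrt (Λ.card * ρ ^ 2) + T R) := ⟨_, rfl⟩
  rw [← herr] at HM1 HM2
  obtain ⟨bad, hbad⟩ : ∃ bad : Cf N L → Prop, bad = fun X =>
    CG * ∑ τ ∈ rng Λ, en k X τ + t ≤ ∑ τ ∈ tml Λ, en k X τ := ⟨_, rfl⟩
  have hbm : Measurable fun X => ind (bad X) := by
    have h1 : MeasurableSet {X : Cf N L | bad X} := by
      rw [hbad]
      refine measurableSet_le ?_ ?_
      · refine Continuous.measurable ?_
        exact ((continuous_finsetSum _ fun τ _ => en_cont k τ (by omega)).const_mul CG).add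
          continuous_const
      · refine Continuous.measurable ?_
        exact continuous_finsetSum _ fun τ _ => en_cont k τ (by omega)
    unfold ind
    exact Measurable.ite h1 measurable_const measurable_const
  obtain ⟨p, hp⟩ : ∃ p : ℝ, p = Real.exp (-β * t) * (CG * β) ^ (D * Λ.card) := ⟨_, rfl⟩
  have hp0 : 0 ≤ p := by rw [hp]; positivity
  have hZpos : ∀ η, 0 < S.num (hm N) Λ (fun _ => 1) η := PkgF.num_pos S (hm N) Λ
  have hprob : ∀ η, S.num (hm N) Λ (fun X => ind (bad X)) η ≤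
      p * S.num (hm N) Λ (fun _ => 1) η := by
    intro η
    have h1 := HG β hβ hβ1 Λ t ht η
    rw [← hS, ← hp] at h1
    unfold Sys.ker at h1
    rw [div_le_iff₀ (hZpos η)] at h1
    rw [hbad]
    exact h1
  -- the comparison for good configurations
  have hgood : ∀ (σ : Cf N L), (∀ l, l ∉ Frl L Λ → (∀ a ∈ st l, a ∈ pls Λ) →
      ‖(σ l : Mt N) - (vc P Q l : Mt N)‖ ^ 2 ≤ e) →
      ∀ X : Cf N L, (∀ l, l ∉ Frl L Λ → X l = σ l) → ¬ bad X →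
      ∃ (g : Pt L → SU N) (z : Pl → Fin 4 → ℕ), (∀ p, p.1 ∉ Λ → g p = 1) ∧
      (∀ x m, x ∉ Λ → x + pe m ∉ Λ → z x m = 0) ∧
      ∀ l : Lk L, (∀ a ∈ st l, a ∈ pls Λ) →
        ‖((gau g (cmv z X) l : SU N) : Mt N) - (vc P Q l : Mt N)‖ ≤ ρ := by
    intro σ hσ X hX hnb
    rw [hbad] at hnb
    push Not at hnb
    have h1 : ∀ τ ∈ rng Λ, en k X τ ≤ C3 * e := by
      intro τ hτ
      have h2 := HG3 (vc P Q) X τ (Real.sqrt e) (Real.sqrt_nonneg e) (fun l hl => by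
        obtain ⟨h3, h4⟩ := rng_links hτ hl
        rw [hX l h3, norm_sub_rev]
        exact Real.le_sqrt_of_sq_le (hσ l h3 h4))
      rwa [en_vc hB0 hN hk hPQ, mul_zero, zero_add, Real.sq_sqrt he] at h2
    have h2 : ∑ τ ∈ rng Λ, en k X τ ≤ 144 * n * (C3 * e) := by
      calc ∑ τ ∈ rng Λ, en k X τ ≤ ∑ τ ∈ rng Λ, C3 * e := Finset.sum_le_sum h1
        _ = (rng Λ).card * (C3 * e) := by rw [Finset.sum_const, nsmul_eq_mul]
        _ ≤ 144 * n * (C3 * e) := by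
            refine mul_le_mul_of_nonneg_right ?_ (by positivity)
            have := card_rng Λ
            rw [hn]
            exact_mod_cast this
    have h3 : ∀ τ ∈ tml Λ, en k X τ ≤ e₂ := by
      intro τ hτ
      refine (Finset.single_le_sum (f := fun τ => en k X τ) (fun τ _ => en_nonneg k X τ) hτ).trans ?_
      refine hnb.le.trans ?_
      rw [he₂]
      have := mul_le_mul_of_nonneg_left h2 hCG0
      linarith
    obtain ⟨g, z, hg, hz, hgz⟩ := H6 Λ e e₂ X he he₂0 (fun l hl hl2 => by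
      rw [hX l hl]; exact hσ l hl hl2) h3
    refine ⟨g, z, hg, hz, fun l hl => ?_⟩
    rw [hρ]
    exact Real.le_sqrt_of_sq_le (hgz l hl)
  obtain ⟨s, hs⟩ : ∃ s : ℝ, s = β * err + 16 * Λ.card * N * Real.exp (-β / CL) := ⟨_, rfl⟩
  have herr0 : 0 ≤ err := by rw [herr]; positivity
  have hs0 : 0 ≤ s := by rw [hs]; positivity
  -- first direction
  have hdir1 : Real.exp (-β * c - s) * (S.num (hm N) Λ F σ -
      S.num (hm N) Λ (fun X => ind (bad X)) σ) ≤ S.num (hm N) Λ F σ' := by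
    rw [hS]
    refine onedir hJM hN hβ Λ P Q hEc hE0 h (fun l hl => hh0 l (Or.inl hl)) _
      (Real.exp_pos _).le σ σ' F hFm hF bad hbm ?_ ?_
    · intro X hX hnb
      obtain ⟨g, z, hg, hz, hgz⟩ := hgood σ (fun l hl hl2 => (hnear l hl hl2).1) X hX hnb
      rw [hs]
      exact wcomp hJI hN hCLp HL hEa hβ Λ σ σ' h c err ρ HM1 hcond3 hcond2 X hX g z hg hz hgz
    · intro X hX
      refine hdep _ _ fun l hl => ?_
      by_cases hl2 : l ∈ Frl L Λ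
      · have e1 : glue (Frl L Λ) (TM P Q E h X) σ' l = TM P Q E h X l := by
          unfold glue; rw [if_pos hl2]
        rw [e1]
        refine TM_eq P Q hE0 h X l (hh0 l (Or.inr ?_))
        obtain ⟨a, ha, haΛ⟩ := (mem_Frl _ _).1 hl2
        rcases hl a ha with h1 | h1
        · exact absurd haΛ h1.2
        · exact (mem_Frl _ _).2 ⟨a, ha, h1⟩
      · rw [glue_off _ _ l hl2, hX l hl2]
        refine (hσσ l hl2 fun a ha => ?_).symm
        rcases hl a ha with h1 | h1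
        · exact h1.1
        · exact absurd ((mem_Frl _ _).2 ⟨a, ha, hBΛ h1⟩) hl2
  -- second direction
  have hdir2 : Real.exp (-β * (-c) - s) * (S.num (hm N) Λ (fun _ => 1) σ' -
      S.num (hm N) Λ (fun X => ind (bad X)) σ') ≤ S.num (hm N) Λ (fun _ => 1) σ := by
    rw [hS]
    refine onedir hJM hN hβ Λ P Q hEc hE0 (fun l => - h l)
      (fun l hl => by rw [hh0 l (Or.inl hl), neg_zero]) _
      (Real.exp_pos _).le σ' σ (fun _ => 1) measurable_const (fun _ => ⟨zero_le_one, le_rfl⟩)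
      bad hbm ?_ (fun _ _ => rfl)
    intro X hX hnb
    obtain ⟨g, z, hg, hz, hgz⟩ := hgood σ' (fun l hl hl2 => (hnear l hl hl2).2) X hX hnb
    rw [hs]
    refine wcomp hJI hN hCLp HL hEa hβ Λ σ' σ (fun l => - h l) (-c) err ρ (fun X h1 h2 => ?_)
      hcond3 hcond2 X hX g z hg hz hgz
    have h3 := HM2 X h1 h2
    rwa [← sub_neg_eq_add] at h3
  -- conclusion
  have hnF0 : ∀ η, 0 ≤ S.num (hm N) Λ F η := fun η =>
    integral_nonneg fun ξ => mul_nonneg (hF _).1 (PkgF.W_pos S Λ _).le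
  have hnF1 : ∀ η, S.num (hm N) Λ F η ≤ S.num (hm N) Λ (fun _ => 1) η := by
    intro η
    refine integral_mono (PkgF.fW_int S (hm N) Λ hFm ⟨1, fun X => by
      rw [abs_of_nonneg (hF X).1]; exact (hF X).2⟩ η)
      (PkgF.fW_int S (hm N) Λ (f := fun _ => 1) measurable_const PkgF.bdd_one η) fun ξ => ?_
    exact mul_le_mul_of_nonneg_right (hF _).2 (PkgF.W_pos S Λ _).le
  have hconc : S.ker (hm N) Λ F σ ≤ S.ker (hm N) Λ F σ' + (2 * s + 2 * p) := by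
    unfold Sys.ker
    refine fin_ineq (u := β * c) (hZpos σ) (hZpos σ') (hnF0 σ) (hnF1 σ) (hnF0 σ') hp0 hs0 ?_ ?_
    · refine le_trans ?_ hdir1
      rw [show -(β * c) - s = -β * c - s by ring]
      refine mul_le_mul_of_nonneg_left ?_ (Real.exp_pos _).le
      have := hprob σ
      linarith
    · refine le_trans ?_ hdir2
      rw [show -β * (-c) - s = β * c - s by ring]
      refine mul_le_mul_of_nonneg_left ?_ (Real.exp_pos _).le
      have := hprob σ'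
      linarith
  refine hconc.trans ?_
  have hsfin : 2 * s ≤ C * n * (β * (r * Real.sqrt r + T R * r) + Real.exp (-β / C₁)) := by
    have h1 : err ≤ CM * n * (r * Real.sqrt r + T R * r) := by
      rw [herr, ← hn]
      calc CM * n * (n * ρ ^ 2) * (Real.sqrt (n * ρ ^ 2) + T R)
          ≤ CM * n * r * (Real.sqrt r + T R) := by
            refine mul_le_mul ?_ ?_ (by positivity) (by positivity)
            · exact mul_le_mul_of_nonneg_left hnρ (by positivity)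
            · have := Real.sqrt_le_sqrt hnρ
              linarith
        _ = CM * n * (r * Real.sqrt r + T R * r) := by ring
    have h2 : Real.exp (-β / CL) ≤ Real.exp (-β / C₁) := by
      apply Real.exp_le_exp.2
      have h3 : β / C₁ ≤ β / CL := div_le_div_of_nonneg_left hβ hCLp hk5
      rw [neg_div, neg_div]
      linarith
    obtain ⟨v, hv⟩ : ∃ v : ℝ, v = r * Real.sqrt r + T R * r := ⟨_, rfl⟩
    rw [← hv] at h1 ⊢
    have hv0 : 0 ≤ v := by rw [hv]; positivity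
    obtain ⟨w, hw⟩ : ∃ w : ℝ, w = Real.exp (-β / C₁) := ⟨_, rfl⟩
    rw [← hw] at h2 ⊢
    have hw0 : 0 ≤ w := by rw [hw]; positivity
    rw [hs, ← hn]
    have h4 : β * err ≤ β * (CM * n * v) := mul_le_mul_of_nonneg_left h1 hβ
    have h5 : 16 * n * N * Real.exp (-β / CL) ≤ 16 * n * N * w :=
      mul_le_mul_of_nonneg_left h2 (by positivity)
    have h6 : 2 * CM * (n * (β * v)) ≤ C * (n * (β * v)) :=
      mul_le_mul_of_nonneg_right hk3 (by positivity)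
    have h7 : 32 * (N : ℝ) * (n * w) ≤ C * (n * w) :=
      mul_le_mul_of_nonneg_right hk4 (by positivity)
    have h8 : C * n * (β * v + w) = C * (n * (β * v)) + C * (n * w) := by ring
    have h9 : 2 * (β * (CM * n * v)) = 2 * CM * (n * (β * v)) := by ring
    have h10 : 2 * (16 * n * N * w) = 32 * (N : ℝ) * (n * w) := by ring
    linarith
  have hpfin : p ≤ Real.exp (-β * t) * (C * β) ^ (D * Λ.card) := by
    rw [hp]
    refine mul_le_mul_of_nonneg_left ?_ (Real.exp_pos _).le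
    refine pow_le_pow_left₀ (by positivity) ?_ _
    exact mul_le_mul_of_nonneg_right hk6 hβ
  linarith

lemma pw_le {L : ℕ} [NeZero L] {a b : ℕ} (h : a ≤ b) : (L : ℝ) ^ a ≤ (L : ℝ) ^ b := by
  have h1 : (1 : ℝ) ≤ L := by
    have := Nat.one_le_iff_ne_zero.2 (NeZero.ne L)
    exact_mod_cast this
  exact pow_le_pow_right₀ h1 h

lemma pw_one {L : ℕ} [NeZero L] (a : ℕ) : (1 : ℝ) ≤ (L : ℝ) ^ a := by
  have := pw_le (L := L) (Nat.zero_le a)
  rwa [pow_zero] at this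

end T2H02.TT.PkgM1u

namespace T2H02.TT

open PkgM1 PkgM1u

theorem pM1u (hB0 : S_B0) (hD1 : S_D1u) (hE4 : S_E4) (hG : S_Gu) (hG3 : S_G3u) (hJ : S_Ju)
    (hJI : S_JI) (hJM : S_JM) (hL2 : S_L2u) (hM0 : S_M0u) : S_M1u := by
  intro N k hN hk P Q hPQ
  obtain ⟨-, -, -, -, -, -, E, C₀, hC₀, hEc, hE0, hEa, hEb⟩ := hE4 N hN
  obtain ⟨CG, KG, D, hCG, HG⟩ := hG N k hN hk
  obtain ⟨C3, K3, hC3, HG3⟩ := hG3 N k hN
  obtain ⟨CD, KD, hCD, HD⟩ := hD1 N k hN hk P Q hPQ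
  obtain ⟨CJ, KJ, hCJ, HJ⟩ := hJ N k hN hk P Q hPQ
  obtain ⟨CL, hCL, HL⟩ := hL2 N k hN P Q
  obtain ⟨CM, c, KM, hCM, hc, HM⟩ := hM0 N k hN hk P Q hPQ E C₀ ⟨hC₀, hEc, hE0, hEa, hEb⟩
  obtain ⟨a7, ha7⟩ : ∃ a7 : ℝ, a7 = (CJ + 1) * (CD + 4) * (144 * CG * C3 + 1) := ⟨_, rfl⟩
  obtain ⟨k7, hk7⟩ : ∃ k7 : ℕ, k7 = KJ + (KD + 2) + (KG + K3) := ⟨_, rfl⟩
  obtain ⟨aM, haM⟩ : ∃ aM : ℝ, aM = CM + CM * CL ^ 2 + CL ^ 2 := ⟨_, rfl⟩
  have hCG0 : 0 ≤ CG := by linarith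
  have hC30 : 0 ≤ C3 := by linarith
  have hCM0 : 0 ≤ CM := by linarith
  have hCD0 : 0 ≤ CD := by linarith
  have hCJ0 : 0 ≤ CJ := by linarith
  have ha70 : 0 ≤ a7 := by rw [ha7]; positivity
  have haM0 : 0 ≤ aM := by rw [haM]; positivity
  have hN0 : (0 : ℝ) ≤ N := Nat.cast_nonneg N
  obtain ⟨C, hC⟩ : ∃ C : ℝ, C = aM * a7 + a7 + 2 * CM + 32 * N + CL + CG := ⟨_, rfl⟩
  have haMa : 0 ≤ aM * a7 := by positivity
  have hC1 : 1 ≤ C := by rw [hC]; linarith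
  have hCp : 0 < C := by linarith
  refine ⟨C, c, k7 + KM, D, hC1, hc, ?_⟩
  intro L _
  have hpow : ∀ (x : ℝ) (a b : ℕ), 0 ≤ x → a ≤ b → x * (L : ℝ) ^ a ≤ x * (L : ℝ) ^ b :=
    fun x a b hx hab => mul_le_mul_of_nonneg_left (pw_le hab) hx
  have hone : ∀ (x : ℝ) (a : ℕ), 1 ≤ x → 1 ≤ x * (L : ℝ) ^ a := by
    intro x a hx
    have := pw_one (L := L) a
    nlinarith
  have hL0 : ∀ a : ℕ, 0 ≤ (L : ℝ) ^ a := fun a => by positivity
  -- constants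
  obtain ⟨C6, hC6⟩ : ∃ C6 : ℝ, C6 = (CJ * (L : ℝ) ^ KJ + 1) *
    (CD * (L : ℝ) ^ KD + 2 * (L : ℝ) ^ 2 + 2) := ⟨_, rfl⟩
  have h61 : CJ * (L : ℝ) ^ KJ + 1 ≤ (CJ + 1) * (L : ℝ) ^ KJ := by
    have := pw_one (L := L) KJ
    nlinarith
  have h62 : CD * (L : ℝ) ^ KD + 2 * (L : ℝ) ^ 2 + 2 ≤ (CD + 4) * (L : ℝ) ^ (KD + 2) := by
    have e1 := hpow CD KD (KD + 2) hCD0 (by omega)
    have e2 := hpow 2 2 (KD + 2) (by norm_num) (by omega)
    have e3 := pw_one (L := L) (KD + 2)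
    linarith
  have hC6le : C6 ≤ (CJ + 1) * (CD + 4) * (L : ℝ) ^ (KJ + (KD + 2)) := by
    rw [hC6, pow_add]
    calc (CJ * (L : ℝ) ^ KJ + 1) * (CD * (L : ℝ) ^ KD + 2 * (L : ℝ) ^ 2 + 2)
        ≤ ((CJ + 1) * (L : ℝ) ^ KJ) * ((CD + 4) * (L : ℝ) ^ (KD + 2)) :=
          mul_le_mul h61 h62 (by positivity) (by positivity)
      _ = _ := by ring
  have hC61 : 1 ≤ C6 := by
    rw [hC6]
    have e1 : 0 ≤ CJ * (L : ℝ) ^ KJ := by positivity
    have e2 : 0 ≤ CD * (L : ℝ) ^ KD + 2 * (L : ℝ) ^ 2 := by positivity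
    nlinarith
  obtain ⟨C7, hC7⟩ : ∃ C7 : ℝ, C7 = C6 * (144 * (CG * (L : ℝ) ^ KG) * (C3 * (L : ℝ) ^ K3) + 1) :=
    ⟨_, rfl⟩
  have h71 : 144 * (CG * (L : ℝ) ^ KG) * (C3 * (L : ℝ) ^ K3) + 1 ≤
      (144 * CG * C3 + 1) * (L : ℝ) ^ (KG + K3) := by
    have e1 := pw_one (L := L) (KG + K3)
    have e2 : 144 * (CG * (L : ℝ) ^ KG) * (C3 * (L : ℝ) ^ K3) =
      144 * CG * C3 * (L : ℝ) ^ (KG + K3) := by rw [pow_add]; ring
    rw [e2]
    linarith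
  have hC7le : C7 ≤ a7 * (L : ℝ) ^ k7 := by
    rw [hC7, ha7, hk7, pow_add (L : ℝ) (KJ + (KD + 2))]
    calc C6 * (144 * (CG * (L : ℝ) ^ KG) * (C3 * (L : ℝ) ^ K3) + 1)
        ≤ ((CJ + 1) * (CD + 4) * (L : ℝ) ^ (KJ + (KD + 2))) *
          ((144 * CG * C3 + 1) * (L : ℝ) ^ (KG + K3)) :=
          mul_le_mul hC6le h71 (by positivity) (by positivity)
      _ = _ := by ring
  have hC70 : 0 ≤ C7 := by rw [hC7]; positivity
  have hCC : ∀ x : ℝ, 0 ≤ x → x ≤ C → ∀ a, a ≤ k7 + KM → x * (L : ℝ) ^ a ≤ C * (L : ℝ) ^ (k7 + KM) :=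
    fun x hx hxC a ha => mul_le_mul hxC (pw_le ha) (hL0 _) hCp.le
  have g1 : C7 ≤ C * (L : ℝ) ^ (k7 + KM) :=
    hC7le.trans (hCC a7 ha70 (by rw [hC]; linarith) k7 (by omega))
  have g2 : (CM * (L : ℝ) ^ KM + CM * (L : ℝ) ^ KM * CL ^ 2 + CL ^ 2) * C7 ≤
      C * (C * (L : ℝ) ^ (k7 + KM)) := by
    have e1 : CM * (L : ℝ) ^ KM + CM * (L : ℝ) ^ KM * CL ^ 2 + CL ^ 2 ≤ aM * (L : ℝ) ^ KM := by
      have e2 := pw_one (L := L) KM
      have e3 : 0 ≤ CL ^ 2 := by positivity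
      rw [haM]
      nlinarith
    calc (CM * (L : ℝ) ^ KM + CM * (L : ℝ) ^ KM * CL ^ 2 + CL ^ 2) * C7
        ≤ (aM * (L : ℝ) ^ KM) * (a7 * (L : ℝ) ^ k7) :=
          mul_le_mul e1 hC7le hC70 (by positivity)
      _ = (aM * a7) * (L : ℝ) ^ (k7 + KM) := by rw [pow_add]; ring
      _ ≤ C * (L : ℝ) ^ (k7 + KM) := hCC _ haMa (by rw [hC]; linarith) _ le_rfl
      _ ≤ C * (C * (L : ℝ) ^ (k7 + KM)) := by
          have : 0 ≤ C * (L : ℝ) ^ (k7 + KM) := by positivity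
          exact le_mul_of_one_le_left this hC1
  have g3 : 2 * (CM * (L : ℝ) ^ KM) ≤ C * (L : ℝ) ^ (k7 + KM) := by
    rw [← mul_assoc]
    exact hCC _ (by positivity) (by rw [hC]; linarith) _ (by omega)
  have g4 : 32 * (N : ℝ) ≤ C * (L : ℝ) ^ (k7 + KM) := by
    have := hCC (32 * N) (by positivity) (by rw [hC]; linarith) 0 (by omega)
    rwa [pow_zero, mul_one] at this
  have g6 : CG * (L : ℝ) ^ KG ≤ C * (L : ℝ) ^ (k7 + KM) :=
    hCC _ hCG0 (by rw [hC]; linarith) _ (by omega)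
  have H := core (L := L) (CG := CG * (L : ℝ) ^ KG) (C3 := C3 * (L : ℝ) ^ K3) (C6 := C6) (CL := CL)
    (CM := CM * (L : ℝ) ^ KM) (D := D * L ^ 2) hN hk hPQ hB0 hJI hJM hEc hE0 hEa
    (hone _ _ hCG) (hone _ _ hC3) hC61 hCL (hone _ _ hCM)
    (fun β hβ hβ1 U t ht η => HG L β hβ hβ1 U t ht η) (HG3 L).1
    (by
      rw [hC6]
      exact gfixu hJI hN (by positivity) (by positivity) (HD L) (HJ L))
    (HL L) (fun R => Real.exp (-c * R / L)) (fun R => (Real.exp_pos _).le) (HM L)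
    (C₁ := C) (C := C * (L : ℝ) ^ (k7 + KM)) (C7 := C7) hC7 hC1 g1 g2 g3 g4 (by rw [hC]; linarith) g6
  exact H

end T2H02.TT
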