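import Pool.Agent.T2H02.TT.Stm2

/-! Package M: reduction of good boundary values to boundary values near the vacuum. -/

set_option autoImplicit false
set_option linter.unusedSectionVars false

noncomputable section

open MeasureTheory Matrix
open scoped Matrix.Norms.Frobenius

namespace T2H02.TT

namespace PkgM

variable {N L : ℕ} [NeZero L]

/-! ### roots of unity and central elements -/

lemma om_add (hN : N ≠ 0) (m n : ℕ) : om N (m + n) = om N m * om N n := by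
  have hN' : (N : ℂ) ≠ 0 := by exact_mod_cast hN
  unfold om
  rw [← Complex.exp_add]
  congr 1
  push_cast
  ring

lemma om_self (hN : N ≠ 0) (m : ℕ) : om N (N * m) = 1 := by
  have hN' : (N : ℂ) ≠ 0 := by exact_mod_cast hN
  unfold om
  have : 2 * (Real.pi : ℂ) * Complex.I * ((N * m : ℕ) : ℂ) / N = (m : ℂ) * (2 * Real.pi * Complex.I) := by
    push_cast
    field_simp
  rw [this]
  exact Complex.exp_nat_mul_two_pi_mul_I m

lemma norm_om (m : ℕ) : ‖om N m‖ = 1 := by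
  rw [om, show 2 * (Real.pi : ℂ) * Complex.I * m / N =
    ((2 * Real.pi * m / N : ℝ) : ℂ) * Complex.I by push_cast; ring,
    Complex.norm_exp_ofReal_mul_I]

lemma cen_coe (m : ℕ) : ((cen N m : SU N) : Mt N) = om N m • (1 : Mt N) := rfl

lemma cen_mul_coe (m : ℕ) (g : SU N) : ((cen N m * g : SU N) : Mt N) = om N m • (g : Mt N) := by
  rw [Submonoid.coe_mul, cen_coe, smul_mul_assoc, one_mul]

lemma cen_comm (m : ℕ) (g : SU N) : cen N m * g = g * cen N m := by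
  apply Subtype.ext
  rw [cen_mul_coe, Submonoid.coe_mul, cen_coe, mul_smul_comm, mul_one]

lemma cen_mul_cen (hN : N ≠ 0) (m n : ℕ) : cen N m * cen N n = cen N (m + n) := by
  apply Subtype.ext
  rw [cen_mul_coe, cen_coe, cen_coe, smul_smul, om_add hN]

lemma cen_self (hN : N ≠ 0) (m : ℕ) : cen N (N * m) = 1 := by
  apply Subtype.ext
  rw [cen_coe, om_self hN, one_smul]
  rfl

lemma cen_inv (hN : N ≠ 0) (m : ℕ) : cen N ((N - 1) * m) * cen N m = 1 := by
  rw [cen_mul_cen hN, show (N - 1) * m + m = N * m by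
    obtain ⟨n, rfl⟩ := Nat.exists_eq_succ_of_ne_zero hN
    simp
    ring, cen_self hN]

/-! ### the transformation and its inverse -/

/-- the transformation -/
def tr (g : Pt L → SU N) (z : Pl → Fin 4 → ℕ) (X : Cf N L) : Cf N L := gau g (cmv z X)

/-- the factor at one link -/
def ct (z : Pl → Fin 4 → ℕ) (l : Lk L) : SU N :=
  if l.2 = 0 ∨ l.2 = 1 then cen N (z l.1.1 l.2) else 1

lemma ct_comm (z : Pl → Fin 4 → ℕ) (l : Lk L) (g : SU N) : ct z l * g = g * ct z l := by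
  unfold ct
  split_ifs
  · exact cen_comm _ _
  · rw [one_mul, mul_one]

lemma ct_inv (hN : N ≠ 0) (z : Pl → Fin 4 → ℕ) (l : Lk L) :
    (ct (fun x i => (N - 1) * z x i) l : SU N) * ct z l = 1 := by
  unfold ct
  split_ifs
  · exact cen_inv hN _
  · rw [one_mul]

lemma cmv_apply (z : Pl → Fin 4 → ℕ) (X : Cf N L) (l : Lk L) : cmv z X l = ct z l * X l := by
  unfold cmv ct
  split_ifs
  · rfl
  · rw [one_mul]

lemma tr_apply (g : Pt L → SU N) (z : Pl → Fin 4 → ℕ) (X : Cf N L) (l : Lk L) :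
    tr g z X l = ct z l * (g l.1 * X l * (g (nx l.1 l.2))⁻¹) := by
  unfold tr gau
  rw [cmv_apply, ← mul_assoc (g l.1), ← ct_comm, mul_assoc (ct z l), mul_assoc (ct z l)]

/-- the inverse transformation -/
def ti (g : Pt L → SU N) (z : Pl → Fin 4 → ℕ) (X : Cf N L) : Cf N L :=
  tr (fun p => (g p)⁻¹) (fun x i => (N - 1) * z x i) X

lemma ti_apply (g : Pt L → SU N) (z : Pl → Fin 4 → ℕ) (X : Cf N L) (l : Lk L) :
    ti g z X l = ct (fun x i => (N - 1) * z x i) l * ((g l.1)⁻¹ * X l * g (nx l.1 l.2)) := by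
  unfold ti
  rw [tr_apply, inv_inv]

lemma ti_tr (hN : N ≠ 0) (g : Pt L → SU N) (z : Pl → Fin 4 → ℕ) (X : Cf N L) :
    ti g z (tr g z X) = X := by
  funext l
  rw [ti_apply, tr_apply]
  have h1 : (g l.1)⁻¹ * (ct z l * (g l.1 * X l * (g (nx l.1 l.2))⁻¹)) * g (nx l.1 l.2) =
      ct z l * X l := by
    rw [← mul_assoc (g l.1)⁻¹, ← ct_comm]
    group
  rw [h1, ← mul_assoc, ct_inv hN, one_mul]

lemma ti_meas (g : Pt L → SU N) (z : Pl → Fin 4 → ℕ) :
    Measurable (ti g z : Cf N L → Cf N L) := by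
  rw [measurable_pi_iff]
  intro l
  have h : Continuous fun x : SU N =>
      ct (fun x i => (N - 1) * z x i) l * ((g l.1)⁻¹ * x * g (nx l.1 l.2)) := by fun_prop
  have h2 : (fun X : Cf N L => ti g z X l) =
      (fun x : SU N => ct (fun x i => (N - 1) * z x i) l * ((g l.1)⁻¹ * x * g (nx l.1 l.2))) ∘
        fun X : Cf N L => X l := by
    funext X
    exact ti_apply g z X l
  rw [h2]
  exact h.measurable.comp (measurable_pi_apply l)

/-! ### the transformation of the conditional expectations -/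

lemma wt_tr (hN : 2 ≤ N) (hJI : S_JI) (k : ℕ) (β : ℝ) (g : Pt L → SU N) (z : Pl → Fin 4 → ℕ)
    (X : Cf N L) (τ : Tm) : wt k β τ (tr g z X) = wt k β τ X := by
  unfold tr
  rw [((hJI N k L hN g z (cmv z X)).2.1 β τ).1, ((hJI N k L hN g z X).2.1 β τ).2]

lemma W_tr (hN : 2 ≤ N) (hJI : S_JI) (k : ℕ) (β : ℝ) (hβ : 0 ≤ β) (g : Pt L → SU N)
    (z : Pl → Fin 4 → ℕ) (X : Cf N L) (Λ : Finset Pl) :
    (sysS N L k β hN hβ).W Λ (tr g z X) = (sysS N L k β hN hβ).W Λ X := by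
  unfold Sys.W
  exact Finset.prod_congr rfl fun τ _ => wt_tr hN hJI k β g z X τ

lemma num_tr (hN : 2 ≤ N) (hJI : S_JI) (hJM : S_JM) (k : ℕ) (β : ℝ) (hβ : 0 ≤ β)
    (g : Pt L → SU N) (z : Pl → Fin 4 → ℕ) (Λ : Finset Pl) (F : Cf N L → ℝ) (hF : Measurable F)
    (hb : ∀ X, 0 ≤ F X ∧ F X ≤ 1) (η : Cf N L) :
    (sysS N L k β hN hβ).num (hm N) Λ F η =
      (sysS N L k β hN hβ).num (hm N) Λ (fun X => F (ti g z X)) (tr g z η) := by
  set S := sysS N L k β hN hβ with hS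
  have hWm : Measurable (S.W Λ) := by
    unfold Sys.W
    exact Finset.measurable_prod _ fun τ _ => S.w_meas τ
  have hW0 : ∀ X, 0 < S.W Λ X := fun X => Finset.prod_pos fun τ _ => S.w_pos τ X
  have hW1 : ∀ X, S.W Λ X ≤ 1 := fun X =>
    Finset.prod_le_one (fun τ _ => (S.w_pos τ X).le) fun τ _ => S.w_le τ X
  have h1 := (hJM N L hN (Frl L Λ) (fun X => F (ti g z X) * S.W Λ X)
    ((hF.comp (ti_meas g z)).mul hWm) ⟨1, fun X => by
      rw [abs_mul, abs_of_nonneg (hb _).1, abs_of_pos (hW0 X)]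
      exact mul_le_one₀ (hb _).2 (hW0 X).le (hW1 X)⟩ η).1 g z
  change ∫ ξ, F (ti g z (tr g z (glue (Frl L Λ) ξ η))) * S.W Λ (tr g z (glue (Frl L Λ) ξ η))
    ∂(pm N L) = ∫ ξ, F (ti g z (glue (Frl L Λ) ξ (tr g z η))) *
      S.W Λ (glue (Frl L Λ) ξ (tr g z η)) ∂(pm N L) at h1
  unfold Sys.num
  rw [show S.Fr Λ = Frl L Λ from rfl]
  rw [← h1]
  refine integral_congr_ae (Filter.Eventually.of_forall fun ξ => ?_)
  simp only
  rw [ti_tr (by omega), hS, W_tr hN hJI]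

lemma ker_tr (hN : 2 ≤ N) (hJI : S_JI) (hJM : S_JM) (k : ℕ) (β : ℝ) (hβ : 0 ≤ β)
    (g : Pt L → SU N) (z : Pl → Fin 4 → ℕ) (Λ : Finset Pl) (F : Cf N L → ℝ) (hF : Measurable F)
    (hb : ∀ X, 0 ≤ F X ∧ F X ≤ 1) (η : Cf N L) :
    (sysS N L k β hN hβ).ker (hm N) Λ F η =
      (sysS N L k β hN hβ).ker (hm N) Λ (fun X => F (ti g z X)) (tr g z η) := by
  unfold Sys.ker
  rw [num_tr hN hJI hJM k β hβ g z Λ F hF hb η,
    num_tr hN hJI hJM k β hβ g z Λ (fun _ => 1) measurable_const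
      (fun _ => ⟨zero_le_one, le_rfl⟩) η]

/-! ### energies -/

lemma eV_eq (k : ℕ) (X : Cf N L) (x : Pl) : eV k X x = VV k (pt X x) := by
  unfold eV VV df pt
  refine Finset.sum_congr rfl fun y _ => ?_
  simp [nx2, nx3]

lemma pt_gau (g : Pt L → SU N) (X : Cf N L) (x : Pl) :
    pt (gau g X) x = act (fun y => g (x, y)) (pt X x) := by
  funext y j
  fin_cases j <;> simp [pt, gau, act, nx2, nx3]

lemma eK_eq (X : Cf N L) (x : Pl) (m : Fin 4) (hm : m = 0 ∨ m = 1) :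
    ∑ y : Tor L, ∑ j : Fin 2, ‖(X ((x, y), m) : Mt N) * (pt X (x + pe m) y j : Mt N) -
      (pt X x y j : Mt N) * (X ((x, tsh y j), m) : Mt N)‖ ^ 2 = 2 * eK X x m := by
  unfold eK
  rw [Finset.mul_sum]
  refine Finset.sum_congr rfl fun y _ => ?_
  rw [Fin.sum_univ_two]
  unfold df pt
  have h : nx (x, y) m = (x + pe m, y) := by
    rcases hm with rfl | rfl <;> simp [nx, pe]
  rw [h, nx2, nx3, one_smul, one_smul]
  simp
  ring

/-! ### the choice of the centre element -/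

/-- distance of a family to a central element -/
def dc (U : Tor L → SU N) (n : Fin N) : ℝ := ∑ y, ‖(U y : Mt N) - om N n • (1 : Mt N)‖ ^ 2

lemma exists_min (hN : 2 ≤ N) (U : Tor L → SU N) : ∃ n : Fin N, ∀ m : Fin N, dc U n ≤ dc U m := by
  have : Nonempty (Fin N) := ⟨⟨0, by omega⟩⟩
  exact Finite.exists_min (dc U)

/-- a nearest central element -/
def mf (hN : 2 ≤ N) (U : Tor L → SU N) : Fin N := (exists_min hN U).choose

lemma mf_spec (hN : 2 ≤ N) (U : Tor L → SU N) (m : Fin N) : dc U (mf hN U) ≤ dc U m :=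
  (exists_min hN U).choose_spec m

lemma cen_sub (hN : N ≠ 0) (U : Tor L → SU N) (n : Fin N) (y : Tor L) :
    ‖((cen N (N - n) * U y : SU N) : Mt N) - 1‖ ^ 2 ≤ dc U n := by
  have h1 : ((cen N (N - n) * U y : SU N) : Mt N) - 1 =
      om N (N - n) • ((U y : Mt N) - om N n • (1 : Mt N)) := by
    rw [cen_mul_coe, smul_sub, smul_smul, ← om_add hN, Nat.sub_add_cancel n.2.le]
    have := om_self hN 1
    rw [mul_one] at this
    rw [this, one_smul]
  rw [h1, norm_smul, norm_om, one_mul]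
  exact Finset.single_le_sum (f := fun y => ‖(U y : Mt N) - om N n • (1 : Mt N)‖ ^ 2)
    (fun _ _ => by positivity) (Finset.mem_univ y)

/-! ### the gauge and centre transformation attached to a configuration -/

open Classical in
/-- the gauge transformation -/
def gg (G : Ph N L → Tor L → SU N) (Λ : Finset Pl) (η : Cf N L) : Pt L → SU N := fun p =>
  if p.1 ∈ pls Λ ∧ p.1 ∉ Λ then G (pt η p.1) p.2 else 1

open Classical in
/-- the centre transformation -/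
def zz (hN : 2 ≤ N) (G : Ph N L → Tor L → SU N) (Λ : Finset Pl) (η : Cf N L) :
    Pl → Fin 4 → ℕ := fun x i =>
  if (x ∈ pls Λ ∧ x ∉ Λ) ∧ (x + pe i ∈ pls Λ ∧ x + pe i ∉ Λ) then
    N - mf hN (fun y : Tor L => gau (gg G Λ η) η ((x, y), i)) else 0

/-- the transformed configuration -/
def sg (hN : 2 ≤ N) (G : Ph N L → Tor L → SU N) (Λ : Finset Pl) (η : Cf N L) : Cf N L :=
  tr (gg G Λ η) (zz hN G Λ η) η

lemma mem_bal {R : ℕ} {B : Finset Pl} {a : Pl} : a ∈ bal R B ↔ ∃ b ∈ B, a ∈ Nb R b := by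
  unfold bal
  rw [Finset.mem_biUnion]

lemma not_mem_Frl {Λ : Finset Pl} {l : Lk L} : l ∉ Frl L Λ ↔ ∀ a ∈ st l, a ∉ Λ := by
  rw [mem_Frl]
  push Not
  rfl

lemma st_tor (x : Pl) (y : Tor L) (i : Fin 4) (hi : i = 2 ∨ i = 3) (a : Pl)
    (ha : a ∈ st (((x, y), i) : Lk L)) : a = x := by
  rw [mem_st] at ha
  rcases hi with rfl | rfl
  · simpa [pe, h00] using ha
  · simpa [pe, h00] using ha

lemma pt_agree {Λ B : Finset Pl} {R : ℕ} {η η' : Cf N L}
    (h : ∀ l, l ∉ Frl L Λ → (∀ a ∈ st l, a ∈ bal R B) → η l = η' l) {x : Pl} (hx : x ∉ Λ)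
    (hxB : x ∈ bal R B) : pt η x = pt η' x := by
  funext y j
  unfold pt
  apply h
  · rw [not_mem_Frl]
    intro a ha
    rw [st_tor x y _ (by fin_cases j <;> simp) a ha]
    exact hx
  · intro a ha
    rw [st_tor x y _ (by fin_cases j <;> simp) a ha]
    exact hxB

lemma gg_agree {G : Ph N L → Tor L → SU N} {Λ B : Finset Pl} {R : ℕ} {η η' : Cf N L}
    (h : ∀ l, l ∉ Frl L Λ → (∀ a ∈ st l, a ∈ bal R B) → η l = η' l) {p : Pt L}
    (hp : p.1 ∈ Λ ∨ p.1 ∈ bal R B) : gg G Λ η p = gg G Λ η' p := by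
  unfold gg
  by_cases h1 : p.1 ∈ pls Λ ∧ p.1 ∉ Λ
  · rw [if_pos h1, if_pos h1, pt_agree h h1.2 (hp.resolve_left h1.2)]
  · rw [if_neg h1, if_neg h1]

lemma nx_fst (p : Pt L) (i : Fin 4) : (nx p i).1 = p.1 + pe i := rfl

lemma zz_agree (hN : 2 ≤ N) {G : Ph N L → Tor L → SU N} {Λ B : Finset Pl} {R : ℕ} {η η' : Cf N L}
    (h : ∀ l, l ∉ Frl L Λ → (∀ a ∈ st l, a ∈ bal R B) → η l = η' l) {x : Pl} {i : Fin 4}
    (hx : (x ∈ Λ ∨ x + pe i ∈ Λ) ∨ (x ∈ bal R B ∧ x + pe i ∈ bal R B)) :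
    zz hN G Λ η x i = zz hN G Λ η' x i := by
  unfold zz
  by_cases h1 : (x ∈ pls Λ ∧ x ∉ Λ) ∧ (x + pe i ∈ pls Λ ∧ x + pe i ∉ Λ)
  · rw [if_pos h1, if_pos h1]
    rcases hx with hx | hx
    · rcases hx with hx | hx
      · exact absurd hx h1.1.2
      · exact absurd hx h1.2.2
    · have h2 : (fun y : Tor L => gau (gg G Λ η) η ((x, y), i)) =
          fun y : Tor L => gau (gg G Λ η') η' ((x, y), i) := by
        funext y
        unfold gau
        simp only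
        rw [gg_agree h (p := (x, y)) (Or.inr hx.1),
          gg_agree h (p := nx (x, y) i) (Or.inr hx.2), h ((x, y), i)]
        · rw [not_mem_Frl]
          intro a ha
          rw [mem_st] at ha
          rcases ha with rfl | rfl
          · exact h1.1.2
          · exact h1.2.2
        · intro a ha
          rw [mem_st] at ha
          rcases ha with rfl | rfl
          · exact hx.1
          · exact hx.2
      rw [h2]
  · rw [if_neg h1, if_neg h1]

lemma st_left (l : Lk L) : l.1.1 ∈ st l := by rw [mem_st]; exact Or.inl rfl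
lemma st_right (l : Lk L) : l.1.1 + pe l.2 ∈ st l := by rw [mem_st]; exact Or.inr rfl

/-- the two transformations agree on the links which are used -/
lemma tr_agree (hN : 2 ≤ N) {G : Ph N L → Tor L → SU N} {Λ B : Finset Pl} {R : ℕ} {η η' : Cf N L}
    (h : ∀ l, l ∉ Frl L Λ → (∀ a ∈ st l, a ∈ bal R B) → η l = η' l) {l : Lk L}
    (hl : ∀ a ∈ st l, a ∈ Λ ∨ a ∈ bal R B) :
    gg G Λ η l.1 = gg G Λ η' l.1 ∧ gg G Λ η (nx l.1 l.2) = gg G Λ η' (nx l.1 l.2) ∧
      zz hN G Λ η l.1.1 l.2 = zz hN G Λ η' l.1.1 l.2 := by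
  have h1 := hl _ (st_left l)
  have h2 := hl _ (st_right l)
  refine ⟨gg_agree h h1, gg_agree h (by rw [nx_fst]; exact h2), zz_agree hN h ?_⟩
  rcases h1 with h1 | h1
  · exact Or.inl (Or.inl h1)
  · rcases h2 with h2 | h2
    · exact Or.inl (Or.inr h2)
    · exact Or.inr ⟨h1, h2⟩

lemma ct_congr {z z' : Pl → Fin 4 → ℕ} {l : Lk L} (h : z l.1.1 l.2 = z' l.1.1 l.2) :
    (ct z l : SU N) = ct z' l := by
  unfold ct
  rw [h]

lemma sg_agree (hN : 2 ≤ N) {G : Ph N L → Tor L → SU N} {Λ B : Finset Pl} {R : ℕ} {η η' : Cf N L}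
    (h : ∀ l, l ∉ Frl L Λ → (∀ a ∈ st l, a ∈ bal R B) → η l = η' l) {l : Lk L}
    (hl : l ∉ Frl L Λ) (hB : ∀ a ∈ st l, a ∈ bal R B) : sg hN G Λ η l = sg hN G Λ η' l := by
  obtain ⟨h1, h2, h3⟩ := tr_agree (G := G) hN h (l := l) fun a ha => Or.inr (hB a ha)
  unfold sg
  rw [tr_apply, tr_apply, h1, h2, h l hl hB, ct_congr h3]

lemma ti_agree (hN : 2 ≤ N) {G : Ph N L → Tor L → SU N} {Λ B : Finset Pl} {R : ℕ} {η η' : Cf N L}
    (h : ∀ l, l ∉ Frl L Λ → (∀ a ∈ st l, a ∈ bal R B) → η l = η' l) {l : Lk L}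
    (hl : ∀ a ∈ st l, a ∈ Λ ∨ a ∈ bal R B) (X : Cf N L) :
    ti (gg G Λ η) (zz hN G Λ η) X l = ti (gg G Λ η') (zz hN G Λ η') X l := by
  obtain ⟨h1, h2, h3⟩ := tr_agree (G := G) hN h (l := l) hl
  rw [ti_apply, ti_apply, h1, h2, ct_congr (z := fun x i => (N - 1) * zz hN G Λ η x i)
    (z' := fun x i => (N - 1) * zz hN G Λ η' x i) (congrArg (fun n => (N - 1) * n) h3)]

/-! ### the transformed configuration is near the vacuum -/

lemma mem_rng {U : Finset Pl} {τ : Tm} (h : ∀ a ∈ cor τ, a ∈ pls U ∧ a ∉ U)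
    (hne : ∃ a, a ∈ cor τ) : τ ∈ rng U := by
  unfold rng
  rw [Finset.mem_filter, mem_tml]
  obtain ⟨a, ha⟩ := hne
  exact ⟨⟨a, ha, (h a ha).1⟩, h⟩

lemma en0 (k : ℕ) (X : Cf N L) (x : Pl) : en k X (x, 0) = eV k X x := by simp [en]
lemma en1' (k : ℕ) (X : Cf N L) (x : Pl) : en k X (x, 1) = eK X x 0 := by simp [en]
lemma en2 (k : ℕ) (X : Cf N L) (x : Pl) : en k X (x, 2) = eK X x 1 := by simp [en]

lemma dst_tor (P Q : SU N) (X : Cf N L) (x : Pl) (y : Tor L) (i : Fin 4) (hi : i = 2 ∨ i = 3) :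
    ‖(X ((x, y), i) : Mt N) - (vc P Q ((x, y), i) : Mt N)‖ ^ 2 ≤ dst (pt X x) (vac P Q) := by
  have h : ∀ j : Fin 2, ‖(pt X x y j : Mt N) - (vac P Q y j : Mt N)‖ ^ 2 ≤
      dst (pt X x) (vac P Q) := by
    intro j
    unfold dst
    calc ‖(pt X x y j : Mt N) - (vac P Q y j : Mt N)‖ ^ 2 ≤
        ∑ j : Fin 2, ‖(pt X x y j : Mt N) - (vac P Q y j : Mt N)‖ ^ 2 :=
          Finset.single_le_sum (f := fun j => ‖(pt X x y j : Mt N) - (vac P Q y j : Mt N)‖ ^ 2)
            (fun _ _ => by positivity) (Finset.mem_univ j)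
      _ ≤ _ := Finset.single_le_sum
          (f := fun y => ∑ j : Fin 2, ‖(pt X x y j : Mt N) - (vac P Q y j : Mt N)‖ ^ 2)
            (fun _ _ => by positivity) (Finset.mem_univ y)
  rcases hi with rfl | rfl
  · have := h 0
    simpa [pt, vc] using this
  · have := h 1
    simpa [pt, vc] using this

lemma near_vac (hN : 2 ≤ N) (hJI : S_JI) (k : ℕ) (P Q : SU N) {CD CJ : ℝ} (hCD : 0 < CD)
    (hCJ : 0 < CJ) {G : Ph N L → Tor L → SU N}
    (hG : ∀ φ, dst (act (G φ) φ) (vac P Q) ≤ CD * VV k φ)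
    (hJ : ∀ (φ ψ : Ph N L) (U : Tor L → SU N) (e : ℝ), dst φ (vac P Q) ≤ e →
      dst ψ (vac P Q) ≤ e →
      ∑ y, ∑ j, ‖(U y : Mt N) * (ψ y j : Mt N) - (φ y j : Mt N) * (U (tsh y j) : Mt N)‖ ^ 2 ≤ e →
      ∃ m : Fin N, ∑ y, ‖(U y : Mt N) - om N m • (1 : Mt N)‖ ^ 2 ≤ CJ * e)
    {Λ : Finset Pl} {η : Cf N L} {e : ℝ} (he : 0 ≤ e) (hη : ∀ τ ∈ rng Λ, en k η τ ≤ e) {l : Lk L}
    (hl : l ∉ Frl L Λ) (hlp : ∀ a ∈ st l, a ∈ pls Λ) :
    ‖(sg hN G Λ η l : Mt N) - (vc P Q l : Mt N)‖ ^ 2 ≤ (CD + CJ * (CD + 2)) * e := by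
  obtain ⟨⟨x, y⟩, i⟩ := l
  rw [not_mem_Frl] at hl
  have hx1 : x ∈ pls Λ ∧ x ∉ Λ := ⟨hlp _ (st_left _), hl _ (st_left _)⟩
  have hx2 : x + pe i ∈ pls Λ ∧ x + pe i ∉ Λ := ⟨hlp _ (st_right _), hl _ (st_right _)⟩
  have hCJe : 0 ≤ CJ * (CD + 2) * e := by positivity
  have hCDe : 0 ≤ CD * e := by positivity
  -- the torus links
  have htor : ∀ x' : Pl, x' ∈ pls Λ ∧ x' ∉ Λ →
      dst (pt (gau (gg G Λ η) η) x') (vac P Q) ≤ CD * e := by
    intro x' hx'
    rw [pt_gau]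
    have h1 : (fun y : Tor L => gg G Λ η (x', y)) = G (pt η x') := by
      funext y
      unfold gg
      rw [if_pos hx']
    rw [h1]
    refine (hG _).trans (mul_le_mul_of_nonneg_left ?_ hCD.le)
    rw [← eV_eq, ← en0]
    refine hη _ (mem_rng (fun a ha => ?_) ⟨x', by rw [mem_cor0]⟩)
    rw [mem_cor0] at ha
    rw [ha]
    exact hx'
  by_cases hi : i = 2 ∨ i = 3
  · have h1 : sg hN G Λ η ((x, y), i) = gau (gg G Λ η) η ((x, y), i) := by
      unfold sg
      rw [tr_apply]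
      unfold ct gau
      have : ¬ (i = 0 ∨ i = 1) := by
        rcases hi with rfl | rfl <;> decide
      simp only [this, if_false, one_mul]
    rw [h1]
    refine (dst_tor P Q _ x y i hi).trans ((htor x hx1).trans ?_)
    linarith
  · have hi' : i = 0 ∨ i = 1 := by
      revert hi
      fin_cases i <;> simp
    have h1 : sg hN G Λ η ((x, y), i) =
        cen N (N - mf hN (fun y : Tor L => gau (gg G Λ η) η ((x, y), i))) *
          gau (gg G Λ η) η ((x, y), i) := by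
      unfold sg
      rw [tr_apply]
      unfold ct
      simp only [hi', if_true]
      rw [show zz hN G Λ η x i = N - mf hN (fun y : Tor L => gau (gg G Λ η) η ((x, y), i)) by
        unfold zz
        rw [if_pos ⟨hx1, hx2⟩]]
      rfl
    have h2 : (vc P Q ((x, y), i) : Mt N) = 1 := by
      rcases hi' with rfl | rfl <;> simp [vc]
    rw [h1, h2]
    refine (cen_sub (by omega) (fun y : Tor L => gau (gg G Λ η) η ((x, y), i)) _ y).trans ?_
    have h3 : 2 * eK (gau (gg G Λ η) η) x i ≤ 2 * e := by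
      refine mul_le_mul_of_nonneg_left ?_ (by norm_num)
      rcases hi' with rfl | rfl
      · rw [← en1' k, ((hJI N k L hN (gg G Λ η) (fun _ _ => 0) η).1 _).1]
        refine hη _ (mem_rng (fun a ha => ?_) ⟨x, by rw [mem_cor1]; exact Or.inl rfl⟩)
        rw [mem_cor1] at ha
        rcases ha with rfl | rfl
        · exact hx1
        · exact hx2
      · rw [← en2 k, ((hJI N k L hN (gg G Λ η) (fun _ _ => 0) η).1 _).1]
        refine hη _ (mem_rng (fun a ha => ?_) ⟨x, by rw [mem_cor2]; exact Or.inl rfl⟩)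
        rw [mem_cor2] at ha
        rcases ha with rfl | rfl
        · exact hx1
        · exact hx2
    obtain ⟨m, hm⟩ := hJ (pt (gau (gg G Λ η) η) x) (pt (gau (gg G Λ η) η) (x + pe i))
      (fun y : Tor L => gau (gg G Λ η) η ((x, y), i)) ((CD + 2) * e)
      ((htor x hx1).trans (by linarith)) ((htor _ hx2).trans (by linarith))
      (by
        rw [eK_eq _ _ _ hi']
        linarith)
    refine (mf_spec hN _ m).trans (hm.trans ?_)
    linarith

end PkgM

open PkgM in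
/-- package M -/
theorem pM (hA1 : S_A1) (hD1 : S_D1) (hJ : S_J) (hJI : S_JI) (hJM : S_JM) (hM1 : S_M1) :
    S_M := by
  intro N k L _ hN hk
  obtain ⟨P, Q, hPQ⟩ := hA1 N k hN hk
  obtain ⟨CD, hCD, hD⟩ := hD1 N k L hN hk P Q hPQ
  choose G hG using hD
  obtain ⟨CJ, hCJ, hJ'⟩ := hJ N k L hN hk P Q hPQ
  obtain ⟨C₁, θ, D, hC₁, hθ, hθ1, hM⟩ := hM1 N k L hN hk P Q hPQ
  set C' : ℝ := 1 + (CD + CJ * (CD + 2)) with hC'
  have hC'1 : 1 ≤ C' := by
    have : 0 ≤ CD + CJ * (CD + 2) := by positivity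
    linarith
  have hCC : C₁ ≤ C₁ * C' := by nlinarith
  have hC1 : 1 ≤ C₁ * C' := by linarith
  refine ⟨C₁ * C', θ, D, hC1, hθ, hθ1, ?_⟩
  intro β hβ hβ1 Λ B R e t r he ht hBΛ hΛB hr hr1 η η' hηη' hrng F hF hF01 hdep
  set r₁ : ℝ := C₁ * Λ.card * (Λ.card * (C' * e) + t) with hr₁
  have hr₁0 : 0 ≤ r₁ := by positivity
  have hr₁r : r₁ ≤ r := by
    rw [hr, hr₁]
    have h1 : (Λ.card : ℝ) * (C' * e) + t ≤ C' * (Λ.card * e + t) := by
      have : t ≤ C' * t := by nlinarith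
      nlinarith
    calc C₁ * Λ.card * (Λ.card * (C' * e) + t) ≤ C₁ * Λ.card * (C' * (Λ.card * e + t)) :=
          mul_le_mul_of_nonneg_left h1 (by positivity)
      _ = _ := by ring
  have hr0 : 0 ≤ r := hr₁0.trans hr₁r
  have hC₁0 : 0 < C₁ := by linarith
  have hr₁1 : r₁ ≤ 1 / C₁ :=
    hr₁r.trans (hr1.trans (one_div_le_one_div_of_le hC₁0 hCC))
  -- the transformed functions
  set g := gg G Λ η with hg
  set z := zz hN G Λ η with hz
  have hfun : (fun X => F (ti (gg G Λ η') (zz hN G Λ η') X)) = fun X => F (ti g z X) := by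
    funext X
    refine hdep _ _ fun l hl => ?_
    refine (ti_agree hN hηη' (fun a ha => ?_) X).symm
    rcases hl a ha with h | h
    · exact Or.inr h.1
    · exact Or.inl (hBΛ h)
  have h1 := hM β hβ hβ1 Λ B R (C' * e) t r₁ (by positivity) ht hBΛ hΛB hr₁ hr₁1
    (sg hN G Λ η) (sg hN G Λ η') (fun l hl hlB => sg_agree hN hηη' hl hlB)
    (fun l hl hlp => by
      have h2 : (CD + CJ * (CD + 2)) * e ≤ C' * e := by
        rw [hC']
        nlinarith
      exact ⟨(near_vac hN hJI k P Q hCD hCJ hG hJ' he (fun τ hτ => (hrng τ hτ).1) hl hlp).trans h2,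
        (near_vac hN hJI k P Q hCD hCJ hG hJ' he (fun τ hτ => (hrng τ hτ).2) hl hlp).trans h2⟩)
    (fun X => F (ti g z X)) (hF.comp (ti_meas g z)) (fun X => hF01 _) (by
      intro X Y hXY
      refine hdep _ _ fun l hl => ?_
      rw [ti_apply, ti_apply, hXY l hl])
  rw [ker_tr hN hJI hJM k β hβ g z Λ F hF hF01 η,
    ker_tr hN hJI hJM k β hβ (gg G Λ η') (zz hN G Λ η') Λ F hF hF01 η', hfun]
  refine h1.trans ?_
  have hc : (0 : ℝ) ≤ Λ.card := Nat.cast_nonneg _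
  have h2 : C₁ * Λ.card * (β * (r₁ * Real.sqrt r₁ + θ ^ R * r₁) + Real.exp (-β / C₁)) ≤
      C₁ * C' * Λ.card * (β * (r * Real.sqrt r + θ ^ R * r) + Real.exp (-β / (C₁ * C'))) := by
    have h3 : r₁ * Real.sqrt r₁ ≤ r * Real.sqrt r :=
      mul_le_mul hr₁r (Real.sqrt_le_sqrt hr₁r) (Real.sqrt_nonneg _) hr0
    have h4 : θ ^ R * r₁ ≤ θ ^ R * r := mul_le_mul_of_nonneg_left hr₁r (by positivity)
    have h5 : Real.exp (-β / C₁) ≤ Real.exp (-β / (C₁ * C')) := by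
      rw [Real.exp_le_exp, neg_div, neg_div, neg_le_neg_iff]
      exact div_le_div_of_nonneg_left hβ hC₁0 hCC
    refine mul_le_mul (mul_le_mul_of_nonneg_right hCC hc) ?_ (by positivity) (by positivity)
    exact add_le_add (mul_le_mul_of_nonneg_left (add_le_add h3 h4) hβ) h5
  have h6 : Real.exp (-β * t) * (C₁ * β) ^ (D * Λ.card) ≤
      Real.exp (-β * t) * (C₁ * C' * β) ^ (D * Λ.card) := by
    refine mul_le_mul_of_nonneg_left ?_ (Real.exp_pos _).le
    exact pow_le_pow_left₀ (by positivity) (mul_le_mul_of_nonneg_right hCC hβ) _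
  change _ ≤ (sysS N L k β hN hβ).ker (hm N) Λ (fun X => F (ti g z X))
    (tr (gg G Λ η') (zz hN G Λ η') η') + _ + _
  change (sysS N L k β hN hβ).ker (hm N) Λ (fun X => F (ti g z X)) (sg hN G Λ η') + _ + _ ≤
    (sysS N L k β hN hβ).ker (hm N) Λ (fun X => F (ti g z X)) (sg hN G Λ η') + _ + _
  linarith

end T2H02.TT
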