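import Pool.Agent.T2H02.TT.StmX

set_option autoImplicit false
set_option linter.unusedSectionVars false
set_option linter.unusedVariables false

/-!
# Package X: the abstract coupling theorem

Auxiliary lemmas are in the namespace `T2H02.TT.PkgX`; the result is `T2H02.TT.pX`.
-/

noncomputable section

open MeasureTheory

namespace T2H02.TT.PkgX

open T2H02.TT

/-! ### chains -/

/-- the set `A` is within distance two of the sources -/
def emp (A : Finset Pl) (src : Set Pl) : Prop := ∃ a ∈ A, ∃ c ∈ src, near 2 a c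

/-- sup-distance exactly three -/
def d3 (x y : Pl) : Prop := near 3 x y ∧ ¬ near 2 x y

/-- admissible next site of a chain -/
def cnd (ok : Pl → Prop) (src : Set Pl) (b : Pl) : Prop := (∃ c ∈ src, d3 b c) ∧ ok b

open Classical in
/-- sum of the weights of the chains -/
def Ch (A : Finset Pl) (ok : Pl → Prop) :
    ℕ → Finset Pl → Set Pl → (Finset Pl → ℕ → ℝ) → ℝ
  | 0, _, src, Φ => if emp A src then Φ ∅ 0 else 0
  | n+1, Γ, src, Φ => (if emp A src then Φ ∅ 0 else 0) +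
      ∑ b ∈ Γ.filter (cnd ok src), (Ch A ok n (Γ.erase b) {b} (fun s t => Φ (insert b s) t) +
        Ch A ok n (Γ.erase b) {b} (fun s t => Φ s (t+1)))

variable {A : Finset Pl} {ok : Pl → Prop}

/-- weights are compared on the sets which can occur -/
lemma Ch_mono (n : ℕ) : ∀ (Γ : Finset Pl) (src : Set Pl) (Φ Ψ : Finset Pl → ℕ → ℝ),
    (∀ s ⊆ Γ, (∀ x ∈ s, ok x) → ∀ t, Φ s t ≤ Ψ s t) → Ch A ok n Γ src Φ ≤ Ch A ok n Γ src Ψ := by
  classical
  induction n with
  | zero =>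
    intro Γ src Φ Ψ h
    unfold Ch
    split_ifs
    · exact h ∅ (Finset.empty_subset _) (by simp) 0
    · exact le_refl _
  | succ n ih =>
    intro Γ src Φ Ψ h
    unfold Ch
    apply add_le_add
    · split_ifs
      · exact h ∅ (Finset.empty_subset _) (by simp) 0
      · exact le_refl _
    · apply Finset.sum_le_sum
      intro b hb
      rw [Finset.mem_filter] at hb
      apply add_le_add
      · apply ih
        intro s hs hok t
        apply h
        · intro x hx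
          rw [Finset.mem_insert] at hx
          rcases hx with rfl | hx
          · exact hb.1
          · exact Finset.mem_of_mem_erase (hs hx)
        · intro x hx
          rw [Finset.mem_insert] at hx
          rcases hx with rfl | hx
          · exact hb.2.2
          · exact hok x hx
      · apply ih
        intro s hs hok t
        exact h s (fun x hx => Finset.mem_of_mem_erase (hs hx)) hok _

lemma Ch_smul (n : ℕ) : ∀ (Γ : Finset Pl) (src : Set Pl) (Φ : Finset Pl → ℕ → ℝ) (c : ℝ),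
    Ch A ok n Γ src (fun s t => c * Φ s t) = c * Ch A ok n Γ src Φ := by
  classical
  induction n with
  | zero =>
    intro Γ src Φ c
    unfold Ch
    split_ifs <;> simp
  | succ n ih =>
    intro Γ src Φ c
    unfold Ch
    rw [mul_add, Finset.mul_sum]
    congr 1
    · split_ifs <;> simp
    · apply Finset.sum_congr rfl
      intro b _
      rw [ih, ih, mul_add]

lemma Ch_zero (n : ℕ) (Γ : Finset Pl) (src : Set Pl) :
    Ch A ok n Γ src (fun _ _ => 0) = 0 := by
  have := Ch_smul (A := A) (ok := ok) n Γ src (fun _ _ => 0) 0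
  simpa using this

lemma Ch_nonneg (n : ℕ) (Γ : Finset Pl) (src : Set Pl) (Φ : Finset Pl → ℕ → ℝ)
    (h : ∀ s t, 0 ≤ Φ s t) : 0 ≤ Ch A ok n Γ src Φ := by
  rw [← Ch_zero (A := A) (ok := ok) n Γ src]
  exact Ch_mono n Γ src _ _ (fun s _ _ t => h s t)

lemma Ch_Γ (n : ℕ) : ∀ (Γ Γ' : Finset Pl) (src : Set Pl) (Φ : Finset Pl → ℕ → ℝ),
    (∀ s t, 0 ≤ Φ s t) → Γ ⊆ Γ' → Ch A ok n Γ src Φ ≤ Ch A ok n Γ' src Φ := by
  classical
  induction n with
  | zero => intro Γ Γ' src Φ _ _; unfold Ch; exact le_refl _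
  | succ n ih =>
    intro Γ Γ' src Φ h hΓ
    unfold Ch
    apply add_le_add_right
    calc _ ≤ ∑ b ∈ Γ.filter (cnd ok src),
            (Ch A ok n (Γ'.erase b) {b} (fun s t => Φ (insert b s) t) +
              Ch A ok n (Γ'.erase b) {b} (fun s t => Φ s (t+1))) := by
          apply Finset.sum_le_sum
          intro b _
          exact add_le_add
            (ih _ _ _ _ (fun s t => h _ _) (Finset.erase_subset_erase _ hΓ))
            (ih _ _ _ _ (fun s t => h _ _) (Finset.erase_subset_erase _ hΓ))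
      _ ≤ _ := by
          apply Finset.sum_le_sum_of_subset_of_nonneg
          · exact Finset.filter_subset_filter _ hΓ
          · intro b _ _
            exact add_nonneg (Ch_nonneg _ _ _ _ (fun s t => h _ _))
              (Ch_nonneg _ _ _ _ (fun s t => h _ _))

lemma Ch_fuel (n : ℕ) : ∀ (Γ : Finset Pl) (src : Set Pl) (Φ : Finset Pl → ℕ → ℝ),
    (∀ s t, 0 ≤ Φ s t) → Ch A ok n Γ src Φ ≤ Ch A ok (n+1) Γ src Φ := by
  classical
  induction n with
  | zero =>
    intro Γ src Φ h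
    have : Ch A ok 0 Γ src Φ = (if emp A src then Φ ∅ 0 else 0) := by unfold Ch; rfl
    rw [this]
    unfold Ch
    apply le_add_of_nonneg_right
    apply Finset.sum_nonneg
    intro b _
    exact add_nonneg (Ch_nonneg _ _ _ _ (fun s t => h _ _)) (Ch_nonneg _ _ _ _ (fun s t => h _ _))
  | succ n ih =>
    intro Γ src Φ h
    rw [Ch, Ch]
    apply add_le_add_right
    apply Finset.sum_le_sum
    intro b _
    exact add_le_add (ih _ _ _ (fun s t => h _ _)) (ih _ _ _ (fun s t => h _ _))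

lemma emp_mono {src C D : Set Pl} (h : ∀ c ∈ src, c ∈ C ∨ c ∈ D) (he : emp A src) :
    emp A C ∨ emp A D := by
  obtain ⟨a, ha, c, hc, hn⟩ := he
  rcases h c hc with h1 | h1
  · exact Or.inl ⟨a, ha, c, h1, hn⟩
  · exact Or.inr ⟨a, ha, c, h1, hn⟩

lemma cnd_mono {src C D : Set Pl} (h : ∀ c ∈ src, c ∈ C ∨ c ∈ D) {b : Pl}
    (he : cnd ok src b) : cnd ok C b ∨ cnd ok D b := by
  obtain ⟨⟨c, hc, hn⟩, ho⟩ := he
  rcases h c hc with h1 | h1
  · exact Or.inl ⟨⟨c, h1, hn⟩, ho⟩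
  · exact Or.inr ⟨⟨c, h1, hn⟩, ho⟩

lemma Ch_union (n : ℕ) (Γ : Finset Pl) (src C D : Set Pl) (Φ : Finset Pl → ℕ → ℝ)
    (hΦ : ∀ s t, 0 ≤ Φ s t) (h : ∀ c ∈ src, c ∈ C ∨ c ∈ D) :
    Ch A ok n Γ src Φ ≤ Ch A ok n Γ C Φ + Ch A ok n Γ D Φ := by
  classical
  have key : (if emp A src then Φ ∅ 0 else 0) ≤
      (if emp A C then Φ ∅ 0 else 0) + (if emp A D then Φ ∅ 0 else 0) := by
    have h0 := hΦ ∅ 0
    by_cases h1 : emp A src
    · rcases emp_mono h h1 with h2 | h2
      · rw [if_pos h1, if_pos h2]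
        split_ifs <;> linarith
      · rw [if_pos h1, if_pos h2]
        split_ifs <;> linarith
    · rw [if_neg h1]
      split_ifs <;> linarith
  cases n with
  | zero =>
    unfold Ch
    exact key
  | succ n =>
    unfold Ch
    have key2 : ∀ G : Pl → ℝ, (∀ b, 0 ≤ G b) → ∑ b ∈ Γ.filter (cnd ok src), G b ≤
        ∑ b ∈ Γ.filter (cnd ok C), G b + ∑ b ∈ Γ.filter (cnd ok D), G b := by
      intro G hG
      rw [Finset.sum_filter, Finset.sum_filter, Finset.sum_filter, ← Finset.sum_add_distrib]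
      apply Finset.sum_le_sum
      intro b _
      have hGb := hG b
      by_cases h1 : cnd ok src b
      · rcases cnd_mono h h1 with h2 | h2
        · rw [if_pos h1, if_pos h2]
          split_ifs <;> linarith
        · rw [if_pos h1, if_pos h2]
          split_ifs <;> linarith
      · rw [if_neg h1]
        split_ifs <;> linarith
    have := key2 (fun b => Ch A ok n (Γ.erase b) {b} (fun s t => Φ (insert b s) t) +
        Ch A ok n (Γ.erase b) {b} (fun s t => Φ s (t+1)))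
      (fun b => add_nonneg (Ch_nonneg _ _ _ _ (fun s t => hΦ _ _))
        (Ch_nonneg _ _ _ _ (fun s t => hΦ _ _)))
    linarith

lemma Ch_step (n : ℕ) (Γ : Finset Pl) (src : Set Pl) (Φ : Finset Pl → ℕ → ℝ)
    (hΦ : ∀ s t, 0 ≤ Φ s t) (b : Pl) (hb : b ∈ Γ) (hc : cnd ok src b) :
    Ch A ok n (Γ.erase b) src Φ + (Ch A ok n (Γ.erase b) {b} (fun s t => Φ (insert b s) t) +
      Ch A ok n (Γ.erase b) {b} (fun s t => Φ s (t+1))) ≤ Ch A ok (n+1) Γ src Φ := by
  classical
  have h1 := Ch_fuel (A := A) (ok := ok) n (Γ.erase b) src Φ hΦ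
  refine le_trans (add_le_add_left h1 _) ?_
  rw [Ch, Ch]
  rw [add_assoc]
  apply add_le_add_right
  have h2 : Γ.filter (cnd ok src) = insert b ((Γ.erase b).filter (cnd ok src)) := by
    ext x
    simp only [Finset.mem_filter, Finset.mem_insert, Finset.mem_erase]
    constructor
    · rintro ⟨h3, h4⟩
      by_cases h5 : x = b
      · exact Or.inl h5
      · exact Or.inr ⟨⟨h5, h3⟩, h4⟩
    · rintro (rfl | ⟨⟨_, h3⟩, h4⟩)
      · exact ⟨hb, hc⟩
      · exact ⟨h3, h4⟩
  rw [h2, Finset.sum_insert (by simp), add_comm]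
  apply add_le_add_right
  apply Finset.sum_le_sum
  intro b' _
  exact add_le_add
    (Ch_Γ _ _ _ _ _ (fun s t => hΦ _ _) (Finset.erase_subset_erase _ (Finset.erase_subset _ _)))
    (Ch_Γ _ _ _ _ _ (fun s t => hΦ _ _) (Finset.erase_subset_erase _ (Finset.erase_subset _ _)))

/-- chains and integrals commute -/
lemma Ch_integral {Ω : Type} [MeasurableSpace Ω] (ν : Measure Ω) (n : ℕ) :
    ∀ (Γ : Finset Pl) (src : Set Pl) (Φ : Ω → Finset Pl → ℕ → ℝ),
    (∀ s t, Integrable (fun ω => Φ ω s t) ν) →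
    Integrable (fun ω => Ch A ok n Γ src (Φ ω)) ν ∧
    ∫ ω, Ch A ok n Γ src (Φ ω) ∂ν = Ch A ok n Γ src (fun s t => ∫ ω, Φ ω s t ∂ν) := by
  classical
  induction n with
  | zero =>
    intro Γ src Φ h
    unfold Ch
    split_ifs
    · exact ⟨h _ _, rfl⟩
    · exact ⟨integrable_zero _ _ _, by simp⟩
  | succ n ih =>
    intro Γ src Φ h
    have e0 : Integrable (fun ω => if emp A src then Φ ω ∅ 0 else 0) ν ∧
        ∫ ω, (if emp A src then Φ ω ∅ 0 else 0) ∂ν =
          if emp A src then ∫ ω, Φ ω ∅ 0 ∂ν else 0 := by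
      split_ifs
      · exact ⟨h _ _, rfl⟩
      · exact ⟨integrable_zero _ _ _, by simp⟩
    have e1 : ∀ b, Integrable (fun ω => Ch A ok n (Γ.erase b) {b} (fun s t => Φ ω (insert b s) t) +
        Ch A ok n (Γ.erase b) {b} (fun s t => Φ ω s (t+1))) ν ∧
        ∫ ω, (Ch A ok n (Γ.erase b) {b} (fun s t => Φ ω (insert b s) t) +
        Ch A ok n (Γ.erase b) {b} (fun s t => Φ ω s (t+1))) ∂ν =
        Ch A ok n (Γ.erase b) {b} (fun s t => ∫ ω, Φ ω (insert b s) t ∂ν) +
        Ch A ok n (Γ.erase b) {b} (fun s t => ∫ ω, Φ ω s (t+1) ∂ν) := by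
      intro b
      have a1 := ih (Γ.erase b) {b} (fun ω s t => Φ ω (insert b s) t) (fun s t => h _ _)
      have a2 := ih (Γ.erase b) {b} (fun ω s t => Φ ω s (t+1)) (fun s t => h _ _)
      refine ⟨a1.1.add a2.1, ?_⟩
      rw [integral_add a1.1 a2.1, a1.2, a2.2]
    have e2 := integrable_finsetSum (Γ.filter (cnd ok src)) (fun b _ => (e1 b).1)
    unfold Ch
    refine ⟨e0.1.add e2, ?_⟩
    rw [integral_add e0.1 e2, integral_finsetSum _ (fun b _ => (e1 b).1), e0.2]
    congr 1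
    apply Finset.sum_congr rfl
    intro b _
    exact (e1 b).2

end T2H02.TT.PkgX

namespace T2H02.TT.PkgX

open T2H02.TT

variable {A : Finset Pl} {ok : Pl → Prop}

/-! ### counting -/

lemma near_symm {r : ℤ} {a b : Pl} (h : near r a b) : near r b a := by
  unfold near at *
  rw [abs_sub_comm b.1 a.1, abs_sub_comm b.2 a.2]
  exact h

lemma near_trans {r s : ℤ} {a b c : Pl} (h : near r a b) (h' : near s b c) :
    near (r + s) a c := by
  unfold near at *
  constructor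
  · have := abs_sub_le a.1 b.1 c.1
    linarith [h.1, h'.1]
  · have := abs_sub_le a.2 b.2 c.2
    linarith [h.2, h'.2]

lemma near_mono {r s : ℤ} {a b : Pl} (h : near r a b) (hrs : r ≤ s) : near s a b :=
  ⟨le_trans h.1 hrs, le_trans h.2 hrs⟩

lemma mem_Nb {r : ℕ} {a b : Pl} : a ∈ Nb r b ↔ near r b a := by
  unfold Nb near
  simp only [Finset.mem_product, Finset.mem_Icc, abs_le]
  constructor
  · rintro ⟨⟨h1, h2⟩, h3, h4⟩
    exact ⟨⟨by linarith, by linarith⟩, ⟨by linarith, by linarith⟩⟩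
  · rintro ⟨⟨h1, h2⟩, h3, h4⟩
    exact ⟨⟨by linarith, by linarith⟩, ⟨by linarith, by linarith⟩⟩

lemma card_Nb (r : ℕ) (b : Pl) : (Nb r b).card = (2 * r + 1) ^ 2 := by
  unfold Nb
  rw [Finset.card_product, Int.card_Icc, Int.card_Icc]
  have h1 : (b.1 + (r:ℤ) + 1 - (b.1 - r)).toNat = 2 * r + 1 := by
    have : b.1 + (r:ℤ) + 1 - (b.1 - r) = ((2 * r + 1 : ℕ) : ℤ) := by push_cast; ring
    rw [this, Int.toNat_natCast]
  have h2 : (b.2 + (r:ℤ) + 1 - (b.2 - r)).toNat = 2 * r + 1 := by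
    have : b.2 + (r:ℤ) + 1 - (b.2 - r) = ((2 * r + 1 : ℕ) : ℤ) := by push_cast; ring
    rw [this, Int.toNat_natCast]
  rw [h1, h2]; ring

open Classical in
/-- number of walks of length `j` from `b` to the neighbourhood of `A` -/
def wk (A : Finset Pl) (O : Finset Pl) : ℕ → Pl → ℝ
  | 0, b => if emp A {b} then 1 else 0
  | j+1, b => ∑ b' ∈ O.filter (fun b' => d3 b' b), wk A O j b'

lemma wk_nonneg (O : Finset Pl) (j : ℕ) : ∀ b, 0 ≤ wk A O j b := by
  classical
  induction j with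
  | zero => intro b; unfold wk; split_ifs <;> norm_num
  | succ j ih => intro b; unfold wk; exact Finset.sum_nonneg (fun b' _ => ih b')

lemma wk_supp (O : Finset Pl) (j : ℕ) : ∀ b, wk A O j b ≠ 0 →
    ∃ a ∈ A, near (3 * j + 2) a b := by
  classical
  induction j with
  | zero =>
    intro b hb
    unfold wk at hb
    have : emp A {b} := by
      by_contra h
      rw [if_neg h] at hb
      exact hb rfl
    obtain ⟨a, ha, c, hc, hn⟩ := this
    rw [Set.mem_singleton_iff] at hc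
    subst hc
    exact ⟨a, ha, by simpa using hn⟩
  | succ j ih =>
    intro b hb
    unfold wk at hb
    obtain ⟨b', hb', hne⟩ := Finset.exists_ne_zero_of_sum_ne_zero hb
    rw [Finset.mem_filter] at hb'
    obtain ⟨a, ha, hn⟩ := ih b' hne
    refine ⟨a, ha, ?_⟩
    have := near_trans hn hb'.2.1
    refine near_mono this ?_
    push_cast
    linarith

lemma card_d3 (O : Finset Pl) (b' : Pl) [DecidablePred fun b => d3 b' b] :
    (O.filter (fun b => d3 b' b)).card ≤ 24 := by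
  classical
  have h1 : O.filter (fun b => d3 b' b) ⊆ Nb 3 b' \ Nb 2 b' := by
    intro x hx
    rw [Finset.mem_filter] at hx
    rw [Finset.mem_sdiff, mem_Nb, mem_Nb]
    exact hx.2
  refine le_trans (Finset.card_le_card h1) ?_
  rw [Finset.card_sdiff_of_subset, card_Nb, card_Nb]
  · norm_num
  · intro x hx
    rw [mem_Nb] at *
    exact near_mono hx (by norm_num)

lemma wk_sum (O : Finset Pl) (j : ℕ) :
    ∑ b ∈ O, wk A O j b ≤ 25 * A.card * 24 ^ j := by
  classical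
  induction j with
  | zero =>
    unfold wk
    rw [← Finset.sum_filter, Finset.sum_const, nsmul_eq_mul, mul_one, pow_zero, mul_one]
    have h1 : O.filter (fun b => emp A {b}) ⊆ A.biUnion (fun a => Nb 2 a) := by
      intro x hx
      rw [Finset.mem_filter] at hx
      obtain ⟨_, a, ha, c, hc, hn⟩ := hx
      rw [Set.mem_singleton_iff] at hc
      subst hc
      rw [Finset.mem_biUnion]
      exact ⟨a, ha, mem_Nb.2 hn⟩
    have h2 : (O.filter (fun b => emp A {b})).card ≤ A.card * 25 := by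
      refine le_trans (Finset.card_le_card h1) ?_
      refine Finset.card_biUnion_le_card_mul _ _ _ ?_
      intro a _
      rw [card_Nb]
      norm_num
    have : ((O.filter (fun b => emp A {b})).card : ℝ) ≤ ((A.card * 25 : ℕ) : ℝ) := by
      exact_mod_cast h2
    push_cast at this
    linarith
  | succ j ih =>
    have e : ∑ b ∈ O, wk A O (j+1) b = ∑ b' ∈ O, ∑ b ∈ O, if d3 b' b then wk A O j b' else 0 := by
      rw [Finset.sum_comm]
      apply Finset.sum_congr rfl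
      intro b _
      rw [wk, Finset.sum_filter]
    rw [e]
    calc _ ≤ ∑ b' ∈ O, 24 * wk A O j b' := by
          apply Finset.sum_le_sum
          intro b' _
          rw [← Finset.sum_filter, Finset.sum_const, nsmul_eq_mul]
          apply mul_le_mul_of_nonneg_right _ (wk_nonneg O j b')
          exact_mod_cast card_d3 O b'
      _ = 24 * ∑ b' ∈ O, wk A O j b' := by rw [Finset.mul_sum]
      _ ≤ 24 * (25 * A.card * 24 ^ j) := by linarith
      _ = _ := by rw [pow_succ]; ring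

/-- a chain functional started at `b` is bounded by walks -/
lemma Ch_le_wk (q : ℝ) (hq : 0 ≤ q) (O : Finset Pl) (n : ℕ) :
    ∀ (Γ : Finset Pl) (b : Pl) (Φ : Finset Pl → ℕ → ℝ) (K : ℝ), 0 ≤ K →
    (∀ x ∈ Γ, ok x → x ∈ O) →
    (∀ s ⊆ Γ, (∀ x ∈ s, ok x) → ∀ t, Φ s t ≤ K * q ^ (s.card + t)) →
    Ch A ok n Γ {b} Φ ≤ K * ∑ j ∈ Finset.range (n+1), (2 * q) ^ j * wk A O j b := by
  classical
  induction n with
  | zero =>
    intro Γ b Φ K hK hO h
    unfold Ch
    rw [zero_add, Finset.sum_range_one, pow_zero, one_mul]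
    unfold wk
    have := h ∅ (Finset.empty_subset _) (by simp) 0
    simp only [Finset.card_empty, add_zero, pow_zero, mul_one] at this
    split_ifs
    · linarith
    · simp
  | succ n ih =>
    intro Γ b Φ K hK hO h
    have h0 : (if emp A {b} then Φ ∅ 0 else 0) ≤ K * wk A O 0 b := by
      unfold wk
      have := h ∅ (Finset.empty_subset _) (by simp) 0
      simp only [Finset.card_empty, add_zero, pow_zero, mul_one] at this
      split_ifs
      · linarith
      · simp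
    unfold Ch
    rw [Finset.sum_range_succ' _ (n+1)]
    rw [pow_zero, one_mul, mul_add, add_comm]
    refine add_le_add ?_ h0
    have h1 : ∀ b' ∈ Γ.filter (cnd ok {b}),
        (Ch A ok n (Γ.erase b') {b'} (fun s t => Φ (insert b' s) t) +
        Ch A ok n (Γ.erase b') {b'} (fun s t => Φ s (t+1))) ≤
        K * (2 * q) * ∑ j ∈ Finset.range (n+1), (2 * q) ^ j * wk A O j b' := by
      intro b' hb'
      rw [Finset.mem_filter] at hb'
      have a1 := ih (Γ.erase b') b' (fun s t => Φ (insert b' s) t) (K * q) (mul_nonneg hK hq)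
        (fun x hx => hO x (Finset.mem_of_mem_erase hx)) (by
          intro s hs hs' t
          have hb1 : b' ∉ s := fun h3 => (Finset.notMem_erase b' Γ) (hs h3)
          have := h (insert b' s) (by
            intro x hx
            rw [Finset.mem_insert] at hx
            rcases hx with rfl | hx
            · exact hb'.1
            · exact Finset.mem_of_mem_erase (hs hx)) (by
            intro x hx
            rw [Finset.mem_insert] at hx
            rcases hx with rfl | hx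
            · exact hb'.2.2
            · exact hs' x hx) t
          rw [Finset.card_insert_of_notMem hb1] at this
          calc _ ≤ _ := this
            _ = _ := by ring)
      have a2 := ih (Γ.erase b') b' (fun s t => Φ s (t+1)) (K * q) (mul_nonneg hK hq)
        (fun x hx => hO x (Finset.mem_of_mem_erase hx)) (by
          intro s hs hs' t
          have := h s (fun x hx => Finset.mem_of_mem_erase (hs hx)) hs' (t+1)
          calc _ ≤ _ := this
            _ = _ := by ring)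
      calc _ ≤ _ := add_le_add a1 a2
        _ = _ := by ring
    refine le_trans (Finset.sum_le_sum h1) ?_
    have h2 : Γ.filter (cnd ok {b}) ⊆ O.filter (fun b' => d3 b' b) := by
      intro x hx
      rw [Finset.mem_filter] at *
      obtain ⟨hx1, ⟨c, hc, hd⟩, hx3⟩ := hx
      rw [Set.mem_singleton_iff] at hc
      subst hc
      exact ⟨hO x hx1 hx3, hd⟩
    refine le_trans (Finset.sum_le_sum_of_subset_of_nonneg h2 ?_) ?_
    · intro x _ _
      apply mul_nonneg (by positivity)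
      exact Finset.sum_nonneg (fun j _ => mul_nonneg (by positivity) (wk_nonneg O j x))
    · rw [← Finset.mul_sum, Finset.sum_comm]
      rw [mul_assoc]
      apply mul_le_mul_of_nonneg_left _ hK
      rw [Finset.mul_sum]
      apply Finset.sum_le_sum
      intro j _
      rw [← Finset.mul_sum]
      conv_rhs => rw [wk]
      rw [pow_succ]
      apply le_of_eq
      ring

/-- a partial geometric sum -/
lemma geo (x : ℝ) (hx : 0 < x) (hx2 : x ≤ 1 / 2) (m : ℕ) (hm : 1 ≤ m) (N : ℕ) :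
    (∑ j ∈ Finset.range N, if m ≤ j + 1 then x ^ (j+1) else 0) + 2 * x ^ (max m (N+1)) ≤
      2 * x ^ m := by
  induction N with
  | zero => simp [hm]
  | succ N ih =>
    rw [Finset.sum_range_succ]
    by_cases h : m ≤ N + 1
    · rw [if_pos h, max_eq_right (by omega)]
      rw [max_eq_right h] at ih
      have h3 : 0 < x ^ (N+1) := pow_pos hx _
      have h4 : x ^ (N+1+1) ≤ x ^ (N+1) * (1/2) := by
        rw [pow_succ]
        exact mul_le_mul_of_nonneg_left hx2 h3.le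
      linarith
    · rw [if_neg h, max_eq_left (by omega)]
      rw [max_eq_left (by omega)] at ih
      linarith

/-- the counting bound for the chains started outside the region `L` -/
lemma Ch_count (q : ℝ) (hq : 0 < q) (hq2 : 48 * q ≤ 1 / 2) (L : Finset Pl) (n : ℕ) (hn : 3 ≤ n)
    (hA : ∀ a ∈ A, Nb n a ⊆ L) (N : ℕ) (Φ : Finset Pl → ℕ → ℝ)
    (h : ∀ s ⊆ L, (∀ x ∈ s, ok x) → ∀ t, Φ s t ≤ q ^ (s.card + t)) :
    Ch A ok N L {c | c ∉ L} Φ ≤ 3 * A.card * (48 * q) ^ (n / 3) := by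
  classical
  have hfar : ∀ a ∈ A, ∀ c, c ∉ L → ¬ near n a c := by
    intro a ha c hc hnn
    exact hc (hA a ha (mem_Nb.2 hnn))
  have hemp : ¬ emp A {c | c ∉ L} := by
    rintro ⟨a, ha, c, hc, hn2⟩
    exact hfar a ha c hc (near_mono hn2 (by exact_mod_cast (by omega : 2 ≤ n)))
  have hR : 0 ≤ 3 * (A.card : ℝ) * (48 * q) ^ (n / 3) := by positivity
  cases N with
  | zero =>
    unfold Ch
    rw [if_neg hemp]
    exact hR
  | succ N =>
    unfold Ch
    rw [if_neg hemp, zero_add]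
    set O : Finset Pl := L.filter ok with hO
    have h1 : ∀ b ∈ L.filter (cnd ok {c | c ∉ L}),
        (Ch A ok N (L.erase b) {b} (fun s t => Φ (insert b s) t) +
        Ch A ok N (L.erase b) {b} (fun s t => Φ s (t+1))) ≤
        ∑ j ∈ Finset.range (N+1), (2 * q) ^ (j+1) * wk A O j b := by
      intro b' hb'
      rw [Finset.mem_filter] at hb'
      have hsub : ∀ x ∈ L.erase b', ok x → x ∈ O := fun x hx hx2 =>
        Finset.mem_filter.2 ⟨Finset.mem_of_mem_erase hx, hx2⟩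
      have a1 := Ch_le_wk (A := A) (ok := ok) q hq.le O N (L.erase b') b'
        (fun s t => Φ (insert b' s) t) q hq.le hsub (by
          intro s hs hs' t
          have hb1 : b' ∉ s := fun h3 => (Finset.notMem_erase b' L) (hs h3)
          have := h (insert b' s) (by
            intro x hx
            rw [Finset.mem_insert] at hx
            rcases hx with rfl | hx
            · exact hb'.1
            · exact Finset.mem_of_mem_erase (hs hx)) (by
            intro x hx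
            rw [Finset.mem_insert] at hx
            rcases hx with rfl | hx
            · exact hb'.2.2
            · exact hs' x hx) t
          rw [Finset.card_insert_of_notMem hb1] at this
          calc _ ≤ _ := this
            _ = _ := by ring)
      have a2 := Ch_le_wk (A := A) (ok := ok) q hq.le O N (L.erase b') b'
        (fun s t => Φ s (t+1)) q hq.le hsub (by
          intro s hs hs' t
          have := h s (fun x hx => Finset.mem_of_mem_erase (hs hx)) hs' (t+1)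
          calc _ ≤ _ := this
            _ = _ := by ring)
      calc _ ≤ _ := add_le_add a1 a2
        _ = 2 * q * ∑ j ∈ Finset.range (N+1), (2 * q) ^ j * wk A O j b' := by ring
        _ = _ := by
            rw [Finset.mul_sum]
            apply Finset.sum_congr rfl
            intro j _
            ring
    refine le_trans (Finset.sum_le_sum h1) ?_
    rw [Finset.sum_comm]
    have h2 : ∀ j ∈ Finset.range (N+1),
        ∑ b ∈ L.filter (cnd ok {c | c ∉ L}), (2 * q) ^ (j+1) * wk A O j b ≤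
        (25 / 24) * A.card * (if n / 3 ≤ j + 1 then (48 * q) ^ (j+1) else 0) := by
      intro j _
      by_cases hj : n / 3 ≤ j + 1
      · rw [if_pos hj, ← Finset.mul_sum]
        have h3 : ∑ b ∈ L.filter (cnd ok {c | c ∉ L}), wk A O j b ≤ ∑ b ∈ O, wk A O j b := by
          apply Finset.sum_le_sum_of_subset_of_nonneg
          · intro x hx
            rw [Finset.mem_filter] at hx
            exact Finset.mem_filter.2 ⟨hx.1, hx.2.2⟩
          · intro x _ _
            exact wk_nonneg O j x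
        have h4 := le_trans h3 (wk_sum O j)
        calc _ ≤ (2 * q) ^ (j+1) * (25 * A.card * 24 ^ j) :=
              mul_le_mul_of_nonneg_left h4 (by positivity)
          _ = _ := by
            have : (48 * q) ^ (j+1) = (2 * q) ^ (j+1) * 24 ^ (j+1) := by
              rw [← mul_pow]; congr 1; ring
            rw [this, pow_succ 24 j]
            ring
      · rw [if_neg hj, mul_zero]
        apply le_of_eq
        apply Finset.sum_eq_zero
        intro b hb
        rw [Finset.mem_filter] at hb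
        obtain ⟨_, ⟨c, hc, hd⟩, _⟩ := hb
        by_cases hw : wk A O j b = 0
        · rw [hw, mul_zero]
        · exfalso
          obtain ⟨a, ha, hn1⟩ := wk_supp O j b hw
          have h5 := near_trans hn1 hd.1
          refine hfar a ha c hc (near_mono h5 ?_)
          have h6 : 3 * j + 5 ≤ n := by omega
          have h7 : ((3 * j + 5 : ℕ) : ℤ) ≤ (n : ℤ) := by exact_mod_cast h6
          push_cast at h7
          linarith
    refine le_trans (Finset.sum_le_sum h2) ?_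
    rw [← Finset.mul_sum]
    have h8 := geo (48 * q) (by positivity) hq2 (n / 3) (by omega) (N+1)
    have h9 : 0 < 2 * (48 * q) ^ (max (n / 3) (N + 1 + 1)) := by positivity
    have h10 : (∑ j ∈ Finset.range (N+1), if n / 3 ≤ j + 1 then (48 * q) ^ (j+1) else 0) ≤
        2 * (48 * q) ^ (n / 3) := by linarith
    have h11 : 0 ≤ (25 / 24) * (A.card : ℝ) := by positivity
    have h12 := mul_le_mul_of_nonneg_left h10 h11
    have h13 : 0 ≤ (A.card : ℝ) * (48 * q) ^ (n / 3) := by positivity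
    nlinarith [h12, h13]

end T2H02.TT.PkgX

namespace T2H02.TT.PkgX

open T2H02.TT

/-! ### two inequalities on a probability space -/

section prob

variable {Ω : Type} [MeasurableSpace Ω] (P : Measure Ω) [IsProbabilityMeasure P]

lemma int_bdd {f : Ω → ℝ} (hf : Measurable f) (hb : ∃ K, ∀ x, |f x| ≤ K) : Integrable f P := by
  obtain ⟨K, hK⟩ := hb
  exact Integrable.of_bound hf.aestronglyMeasurable K (Filter.Eventually.of_forall hK)

lemma int_mul_bdd {a r : Ω → ℝ} (ha : Integrable a P) (hr : Measurable r)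
    (hb : ∃ K, ∀ x, |r x| ≤ K) : Integrable (fun x => a x * r x) P := by
  obtain ⟨K, hK⟩ := hb
  exact ha.mul_bdd (c := K) hr.aestronglyMeasurable (Filter.Eventually.of_forall hK)

/-- one-sided coupling inequality -/
lemma coupling_one (u u' a e ρ ρ' : Ω → ℝ) (hu : Measurable u) (hu' : Measurable u')
    (hub : ∃ K, ∀ x, |u x| ≤ K) (hub' : ∃ K, ∀ x, |u' x| ≤ K) (ha : Integrable a P)
    (he : Integrable e P)
    (hρm : Measurable ρ) (hρm' : Measurable ρ') (hρb : ∃ K, ∀ x, |ρ x| ≤ K)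
    (hρb' : ∃ K, ∀ x, |ρ' x| ≤ K)
    (hρ : ∀ x, 0 ≤ ρ x) (hρ' : ∀ x, 0 ≤ ρ' x) (h1 : ∫ x, ρ x ∂P = 1) (h1' : ∫ x, ρ' x ∂P = 1)
    (hd : ∀ x, |u x - u' x| ≤ 2 * a x) (hd2 : ∀ x y, |u x - u' y| ≤ 2 * (a x + e x)) :
    ∫ x, u x * ρ x ∂P - ∫ x, u' x * ρ' x ∂P ≤
      2 * ∫ x, a x * ρ x ∂P + 2 * ∫ x, e x * (ρ x - min (ρ x) (ρ' x)) ∂P := by
  obtain ⟨R, hR⟩ := hρb
  obtain ⟨R', hR'⟩ := hρb'
  obtain ⟨U, hU⟩ := hub
  obtain ⟨U', hU'⟩ := hub'
  set m : Ω → ℝ := fun x => min (ρ x) (ρ' x) with hm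
  have hmm : Measurable m := hρm.min hρm'
  have hm0 : ∀ x, 0 ≤ m x := fun x => le_min (hρ x) (hρ' x)
  have hmR : ∀ x, |m x| ≤ R := fun x => by
    rw [abs_of_nonneg (hm0 x)]
    exact le_trans (min_le_left _ _) (le_trans (le_abs_self _) (hR x))
  have hr0 : ∀ x, 0 ≤ ρ x - m x := fun x => sub_nonneg.2 (min_le_left _ _)
  have hr0' : ∀ x, 0 ≤ ρ' x - m x := fun x => sub_nonneg.2 (min_le_right _ _)
  have hrm : Measurable (fun x => ρ x - m x) := hρm.sub hmm
  have hrm' : Measurable (fun x => ρ' x - m x) := hρm'.sub hmm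
  have hrR : ∀ x, |ρ x - m x| ≤ R := fun x => by
    rw [abs_of_nonneg (hr0 x)]
    have := hm0 x
    have := le_trans (le_abs_self _) (hR x)
    linarith
  have hrR' : ∀ x, |ρ' x - m x| ≤ R' := fun x => by
    rw [abs_of_nonneg (hr0' x)]
    have := hm0 x
    have := le_trans (le_abs_self _) (hR' x)
    linarith
  have iu : Integrable u P := int_bdd P hu ⟨U, hU⟩
  have iu' : Integrable u' P := int_bdd P hu' ⟨U', hU'⟩
  have iρ : Integrable ρ P := int_bdd P hρm ⟨R, hR⟩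
  have iρ' : Integrable ρ' P := int_bdd P hρm' ⟨R', hR'⟩
  have im : Integrable m P := int_bdd P hmm ⟨R, hmR⟩
  have ir : Integrable (fun x => ρ x - m x) P := iρ.sub im
  have ir' : Integrable (fun x => ρ' x - m x) P := iρ'.sub im
  have ium := int_mul_bdd P iu hmm ⟨R, hmR⟩
  have iu'm := int_mul_bdd P iu' hmm ⟨R, hmR⟩
  have iur := int_mul_bdd P iu hrm ⟨R, hrR⟩
  have iu'r' := int_mul_bdd P iu' hrm' ⟨R', hrR'⟩
  have iam := int_mul_bdd P ha hmm ⟨R, hmR⟩
  have iar := int_mul_bdd P ha hrm ⟨R, hrR⟩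
  have ier := int_mul_bdd P he hrm ⟨R, hrR⟩
  -- the common mass
  set κ : ℝ := ∫ x, (ρ x - m x) ∂P with hκ
  have hκ2 : ∫ x, (ρ' x - m x) ∂P = κ := by
    rw [hκ, integral_sub iρ im, integral_sub iρ' im, h1, h1']
  -- splitting
  have e1 : ∫ x, u x * ρ x ∂P = ∫ x, u x * m x ∂P + ∫ x, u x * (ρ x - m x) ∂P := by
    rw [← integral_add ium iur]
    apply integral_congr_ae
    exact Filter.Eventually.of_forall (fun x => by simp only; ring)
  have e2 : ∫ x, u' x * ρ' x ∂P = ∫ x, u' x * m x ∂P + ∫ x, u' x * (ρ' x - m x) ∂P := by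
    rw [← integral_add iu'm iu'r']
    apply integral_congr_ae
    exact Filter.Eventually.of_forall (fun x => by simp only; ring)
  have e3 : ∫ x, a x * ρ x ∂P = ∫ x, a x * m x ∂P + ∫ x, a x * (ρ x - m x) ∂P := by
    rw [← integral_add iam iar]
    apply integral_congr_ae
    exact Filter.Eventually.of_forall (fun x => by simp only; ring)
  have b1 : ∫ x, u x * m x ∂P ≤ ∫ x, (u' x * m x + 2 * (a x * m x)) ∂P := by
    apply integral_mono ium (iu'm.add (iam.const_mul 2))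
    intro x
    have h2 := le_trans (le_abs_self _) (hd x)
    have h3 := mul_le_mul_of_nonneg_right h2 (hm0 x)
    simp only [Pi.add_apply]
    linarith
  rw [integral_add iu'm (iam.const_mul 2), integral_const_mul] at b1
  -- the barrier
  obtain ⟨x0⟩ : Nonempty Ω := by
    by_contra hne
    rw [not_nonempty_iff] at hne
    have h2 : (P Set.univ) = 0 := by
      rw [Set.univ_eq_empty_iff.2 hne]
      exact measure_empty
    rw [measure_univ] at h2
    exact one_ne_zero h2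
  have : Nonempty Ω := ⟨x0⟩
  set V : ℝ := ⨅ y, u' y with hV
  have hbdd : BddBelow (Set.range u') := ⟨-U', by
    rintro _ ⟨y, rfl⟩
    exact (abs_le.1 (hU' y)).1⟩
  have hV1 : ∀ y, V ≤ u' y := fun y => ciInf_le hbdd y
  have hV2 : ∀ x, u x - 2 * (a x + e x) ≤ V := fun x => by
    apply le_ciInf
    intro y
    have := le_trans (le_abs_self _) (hd2 x y)
    linarith
  have iae : Integrable (fun x => 2 * (a x * (ρ x - m x)) + 2 * (e x * (ρ x - m x))) P :=
    (iar.const_mul 2).add (ier.const_mul 2)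
  have b2 : ∫ x, u x * (ρ x - m x) ∂P ≤
      ∫ x, (V * (ρ x - m x) + (2 * (a x * (ρ x - m x)) + 2 * (e x * (ρ x - m x)))) ∂P := by
    apply integral_mono iur ((ir.const_mul V).add iae)
    intro x
    have h3 := mul_le_mul_of_nonneg_right (hV2 x) (hr0 x)
    simp only [Pi.add_apply]
    linarith
  rw [integral_add (ir.const_mul V) iae,
    integral_add (iar.const_mul 2) (ier.const_mul 2), integral_const_mul, integral_const_mul,
    integral_const_mul] at b2
  have b3 : ∫ x, V * (ρ' x - m x) ∂P ≤ ∫ x, u' x * (ρ' x - m x) ∂P := by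
    apply integral_mono (ir'.const_mul V) iu'r'
    intro x
    exact mul_le_mul_of_nonneg_right (hV1 x) (hr0' x)
  rw [integral_const_mul, hκ2] at b3
  rw [e1, e2, e3]
  linarith

lemma coupling (u u' a e ρ ρ' : Ω → ℝ) (hu : Measurable u) (hu' : Measurable u')
    (hub : ∃ K, ∀ x, |u x| ≤ K) (hub' : ∃ K, ∀ x, |u' x| ≤ K) (ha : Integrable a P)
    (he : Integrable e P)
    (hρm : Measurable ρ) (hρm' : Measurable ρ') (hρb : ∃ K, ∀ x, |ρ x| ≤ K)
    (hρb' : ∃ K, ∀ x, |ρ' x| ≤ K)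
    (hρ : ∀ x, 0 ≤ ρ x) (hρ' : ∀ x, 0 ≤ ρ' x) (h1 : ∫ x, ρ x ∂P = 1) (h1' : ∫ x, ρ' x ∂P = 1)
    (hd : ∀ x, |u x - u' x| ≤ 2 * a x) (hd2 : ∀ x y, |u x - u' y| ≤ 2 * (a x + e x)) :
    |∫ x, u x * ρ x ∂P - ∫ x, u' x * ρ' x ∂P| ≤
      2 * ∫ x, a x * ρ x ∂P + 2 * ∫ x, e x * (ρ x - min (ρ x) (ρ' x)) ∂P := by
  rw [abs_le]
  constructor
  · have := coupling_one P (fun x => -u x) (fun x => -u' x) a e ρ ρ' hu.neg hu'.neg
      (by obtain ⟨K, hK⟩ := hub; exact ⟨K, fun x => by rw [abs_neg]; exact hK x⟩)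
      (by obtain ⟨K, hK⟩ := hub'; exact ⟨K, fun x => by rw [abs_neg]; exact hK x⟩)
      ha he hρm hρm' hρb hρb' hρ hρ' h1 h1'
      (fun x => by
        have : -u x - -u' x = -(u x - u' x) := by ring
        rw [this, abs_neg]; exact hd x)
      (fun x y => by
        have : -u x - -u' y = -(u x - u' y) := by ring
        rw [this, abs_neg]; exact hd2 x y)
    have e1 : ∫ x, -u x * ρ x ∂P = - ∫ x, u x * ρ x ∂P := by
      rw [← integral_neg]; congr 1; funext x; ring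
    have e2 : ∫ x, -u' x * ρ' x ∂P = - ∫ x, u' x * ρ' x ∂P := by
      rw [← integral_neg]; congr 1; funext x; ring
    rw [e1, e2] at this
    linarith
  · exact coupling_one P u u' a e ρ ρ' hu hu' hub hub' ha he hρm hρm' hρb hρb' hρ hρ' h1 h1' hd hd2

/-- Cauchy-Schwarz with a weight -/
lemma cs (φ r : Ω → ℝ) (hφ : Measurable φ) (hφ0 : ∀ x, 0 ≤ φ x) (hφb : ∃ K, ∀ x, |φ x| ≤ K)
    (hr : Measurable r) (hr0 : ∀ x, 0 ≤ r x) (hrb : ∃ K, ∀ x, |r x| ≤ K) :
    ∫ x, Real.sqrt (φ x) * r x ∂P ≤ Real.sqrt (∫ x, r x ∂P) * Real.sqrt (∫ x, φ x * r x ∂P) := by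
  have ir : Integrable r P := int_bdd P hr hrb
  have iφ : Integrable φ P := int_bdd P hφ hφb
  have hsm : Measurable (fun x => Real.sqrt (φ x)) := hφ.sqrt
  have hsb : ∃ K, ∀ x, |Real.sqrt (φ x)| ≤ K := by
    obtain ⟨K, hK⟩ := hφb
    refine ⟨Real.sqrt K, fun x => ?_⟩
    rw [abs_of_nonneg (Real.sqrt_nonneg _)]
    exact Real.sqrt_le_sqrt (le_trans (le_abs_self _) (hK x))
  have is : Integrable (fun x => Real.sqrt (φ x)) P := int_bdd P hsm hsb
  have i1 := int_mul_bdd P is hr hrb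
  have i2 := int_mul_bdd P iφ hr hrb
  have key : ∀ t : ℝ, 0 ≤ (∫ x, φ x * r x ∂P) * (t * t) +
      (-2 * ∫ x, Real.sqrt (φ x) * r x ∂P) * t + ∫ x, r x ∂P := by
    intro t
    have h : 0 ≤ ∫ x, (Real.sqrt (φ x) * t - 1) ^ 2 * r x ∂P :=
      integral_nonneg (fun x => mul_nonneg (sq_nonneg _) (hr0 x))
    have e : ∫ x, (Real.sqrt (φ x) * t - 1) ^ 2 * r x ∂P =
        ∫ x, ((t * t) * (φ x * r x) + ((-2 * t) * (Real.sqrt (φ x) * r x) + r x)) ∂P := by
      congr 1
      funext x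
      have h2 : φ x = Real.sqrt (φ x) ^ 2 := (Real.sq_sqrt (hφ0 x)).symm
      calc _ = Real.sqrt (φ x) ^ 2 * t * t * r x - 2 * t * Real.sqrt (φ x) * r x + r x := by ring
        _ = _ := by rw [← h2]; ring
    have i3 : Integrable (fun x => (-2 * t) * (Real.sqrt (φ x) * r x) + r x) P :=
      (i1.const_mul _).add ir
    rw [e, integral_add (i2.const_mul _) i3,
      integral_add (i1.const_mul _) ir, integral_const_mul, integral_const_mul] at h
    linarith
  have hdisc := discrim_le_zero key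
  unfold discrim at hdisc
  have hM0 : 0 ≤ ∫ x, Real.sqrt (φ x) * r x ∂P :=
    integral_nonneg (fun x => mul_nonneg (Real.sqrt_nonneg _) (hr0 x))
  have hk0 : 0 ≤ ∫ x, r x ∂P := integral_nonneg hr0
  rw [← Real.sqrt_mul hk0]
  apply Real.le_sqrt_of_sq_le
  nlinarith [hdisc]

end prob

/-! ### gluing and densities -/

variable {ι Tm X : Type} [DecidableEq ι] [DecidableEq Tm] [MeasurableSpace X]

lemma glue_mem {J : Finset ι} {ξ η : ι → X} {i : ι} (h : i ∈ J) : glue J ξ η i = ξ i := if_pos h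

lemma glue_notMem {J : Finset ι} {ξ η : ι → X} {i : ι} (h : i ∉ J) : glue J ξ η i = η i := if_neg h

lemma meas_glue (J : Finset ι) :
    Measurable (fun p : (ι → X) × (ι → X) => glue J p.1 p.2) := by
  apply measurable_pi_lambda
  intro i
  by_cases h : i ∈ J
  · simp only [glue, if_pos h]
    exact (measurable_pi_apply i).comp measurable_fst
  · simp only [glue, if_neg h]
    exact (measurable_pi_apply i).comp measurable_snd

lemma meas_glue_left (J : Finset ι) (η : ι → X) : Measurable (fun ξ : ι → X => glue J ξ η) :=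
  (meas_glue J).comp (measurable_id.prodMk measurable_const)

variable (S : Sys ι Tm X) (μ : Measure X)

lemma ker_congr (Λ : Finset Pl) (f f' : (ι → X) → ℝ) (η : ι → X)
    (h : ∀ ξ, f (glue (S.Fr Λ) ξ η) = f' (glue (S.Fr Λ) ξ η)) :
    S.ker μ Λ f η = S.ker μ Λ f' η := by
  unfold Sys.ker Sys.num
  congr 2
  funext ξ
  rw [h ξ]

lemma W_pos (Λ : Finset Pl) (ω : ι → X) : 0 < S.W Λ ω :=
  Finset.prod_pos (fun τ _ => S.w_pos τ ω)

lemma W_le (Λ : Finset Pl) (ω : ι → X) : S.W Λ ω ≤ 1 :=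
  Finset.prod_le_one (fun τ _ => (S.w_pos τ ω).le) (fun τ _ => S.w_le τ ω)

lemma W_meas (Λ : Finset Pl) : Measurable (S.W Λ) :=
  Finset.measurable_fun_prod _ (fun τ _ => S.w_meas τ)

lemma Fr_mono {Λ' Λ : Finset Pl} (h : Λ' ⊆ Λ) : S.Fr Λ' ⊆ S.Fr Λ := by
  intro i hi
  rw [S.mem_Fr] at *
  obtain ⟨a, ha, ha'⟩ := hi
  exact ⟨a, ha, h ha'⟩

lemma tms_mono {Λ' Λ : Finset Pl} (h : Λ' ⊆ Λ) : S.tms Λ' ⊆ S.tms Λ := by
  intro i hi
  rw [S.mem_tms] at *
  obtain ⟨a, ha, ha'⟩ := hi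
  exact ⟨a, ha, h ha'⟩

/-- a term which does not touch `Λ` has no free variable of `Λ` -/
lemma sp_notMem_Fr {Λ : Finset Pl} {τ : Tm} (h : τ ∉ S.tms Λ) {i : ι} (hi : i ∈ S.sp τ) :
    i ∉ S.Fr Λ := by
  intro h2
  apply h
  rw [S.mem_Fr] at h2
  obtain ⟨a, ha, ha'⟩ := h2
  rw [S.mem_tms]
  exact ⟨a, (S.bt_iff τ a).2 ⟨i, hi, ha⟩, ha'⟩

/-- product of the weights of the terms touching `Λ` but not `Λ'` -/
def RR (Λ Λ' : Finset Pl) (ω : ι → X) : ℝ := ∏ τ ∈ S.tms Λ \ S.tms Λ', S.w τ ω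

lemma RR_meas (Λ Λ' : Finset Pl) : Measurable (RR S Λ Λ') :=
  Finset.measurable_fun_prod _ (fun τ _ => S.w_meas τ)

lemma RR_pos (Λ Λ' : Finset Pl) (ω : ι → X) : 0 < RR S Λ Λ' ω :=
  Finset.prod_pos (fun τ _ => S.w_pos τ ω)

lemma RR_le (Λ Λ' : Finset Pl) (ω : ι → X) : RR S Λ Λ' ω ≤ 1 :=
  Finset.prod_le_one (fun τ _ => (S.w_pos τ ω).le) (fun τ _ => S.w_le τ ω)

variable [IsProbabilityMeasure μ]

lemma num_split (hF2 : S_F2) {Λ' Λ : Finset Pl} (h : Λ' ⊆ Λ) (F : (ι → X) → ℝ)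
    (hF : Measurable F) (hFb : ∃ K, ∀ ω, |F ω| ≤ K) (hFd : Sys.dep {i | i ∉ S.Fr Λ'} F)
    (η : ι → X) :
    S.num μ Λ F η = ∫ ξ, F (glue (S.Fr Λ \ S.Fr Λ') ξ η) *
      (RR S Λ Λ' (glue (S.Fr Λ \ S.Fr Λ') ξ η) *
        S.num μ Λ' (fun _ => 1) (glue (S.Fr Λ \ S.Fr Λ') ξ η))
      ∂(Measure.infinitePi fun _ : ι => μ) := by
  obtain ⟨K, hK⟩ := hFb
  have e1 := hF2 ι X μ (S.Fr Λ')
    (fun ξ => F (glue (S.Fr Λ) ξ η) * S.W Λ (glue (S.Fr Λ) ξ η))
    ((hF.comp (meas_glue_left _ η)).mul ((W_meas S Λ).comp (meas_glue_left _ η)))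
    ⟨K, fun ξ => by
      rw [abs_mul, abs_of_pos (W_pos S Λ _)]
      have h1 := hK (glue (S.Fr Λ) ξ η)
      have h2 := W_le S Λ (glue (S.Fr Λ) ξ η)
      have h3 := (W_pos S Λ (glue (S.Fr Λ) ξ η)).le
      calc _ ≤ |F (glue (S.Fr Λ) ξ η)| * 1 := mul_le_mul_of_nonneg_left h2 (abs_nonneg _)
        _ ≤ K := by rw [mul_one]; exact h1⟩
  unfold Sys.num
  rw [e1]
  congr 1
  funext ζ
  have e2 : ∀ ξ : ι → X, glue (S.Fr Λ) (glue (S.Fr Λ') ξ ζ) η =
      glue (S.Fr Λ') ξ (glue (S.Fr Λ \ S.Fr Λ') ζ η) := by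
    intro ξ
    funext i
    by_cases h1 : i ∈ S.Fr Λ'
    · rw [glue_mem (Fr_mono S h h1), glue_mem h1, glue_mem h1]
    · rw [glue_notMem h1]
      by_cases h2 : i ∈ S.Fr Λ
      · rw [glue_mem h2, glue_notMem h1, glue_mem (Finset.mem_sdiff.2 ⟨h2, h1⟩)]
      · rw [glue_notMem h2, glue_notMem (fun h3 => h2 (Finset.mem_sdiff.1 h3).1)]
  rw [← integral_const_mul, ← integral_const_mul]
  congr 1
  funext ξ
  rw [e2 ξ]
  have e3 : F (glue (S.Fr Λ') ξ (glue (S.Fr Λ \ S.Fr Λ') ζ η)) =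
      F (glue (S.Fr Λ \ S.Fr Λ') ζ η) := by
    apply hFd
    intro i hi
    exact glue_notMem hi
  have e4 : RR S Λ Λ' (glue (S.Fr Λ') ξ (glue (S.Fr Λ \ S.Fr Λ') ζ η)) =
      RR S Λ Λ' (glue (S.Fr Λ \ S.Fr Λ') ζ η) := by
    unfold RR
    apply Finset.prod_congr rfl
    intro τ hτ
    apply S.w_loc
    intro i hi
    exact glue_notMem (sp_notMem_Fr S (Finset.mem_sdiff.1 hτ).2 hi)
  have e5 : S.W Λ (glue (S.Fr Λ') ξ (glue (S.Fr Λ \ S.Fr Λ') ζ η)) =
      RR S Λ Λ' (glue (S.Fr Λ') ξ (glue (S.Fr Λ \ S.Fr Λ') ζ η)) *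
      S.W Λ' (glue (S.Fr Λ') ξ (glue (S.Fr Λ \ S.Fr Λ') ζ η)) := by
    unfold RR Sys.W
    rw [Finset.prod_sdiff (tms_mono S h)]
  rw [e3, e5, e4]
  ring

/-- density of the variables of `Fr Λ` outside `Fr Λ'` -/
def dens (Λ Λ' : Finset Pl) (η ξ : ι → X) : ℝ :=
  (RR S Λ Λ' (glue (S.Fr Λ \ S.Fr Λ') ξ η) *
    S.num μ Λ' (fun _ => 1) (glue (S.Fr Λ \ S.Fr Λ') ξ η)) / S.num μ Λ (fun _ => 1) η

lemma num_one_meas (Λ : Finset Pl) : Measurable (S.num μ Λ (fun _ => 1)) := by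
  unfold Sys.num
  have h : Measurable (fun p : (ι → X) × (ι → X) =>
      (1 : ℝ) * S.W Λ (glue (S.Fr Λ) p.2 p.1)) := by
    apply Measurable.mul measurable_const
    exact (W_meas S Λ).comp ((meas_glue (S.Fr Λ)).comp (measurable_snd.prodMk measurable_fst))
  exact (h.stronglyMeasurable.integral_prod_right').measurable

lemma num_one_nonneg (Λ : Finset Pl) (η : ι → X) : 0 ≤ S.num μ Λ (fun _ => 1) η := by
  unfold Sys.num
  apply integral_nonneg
  intro ξ
  simp only [one_mul]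
  exact (W_pos S Λ _).le

lemma num_one_le (Λ : Finset Pl) (η : ι → X) : S.num μ Λ (fun _ => 1) η ≤ 1 := by
  unfold Sys.num
  have h1 : Integrable (fun ξ : ι → X => (1:ℝ) * S.W Λ (glue (S.Fr Λ) ξ η))
      (Measure.infinitePi fun _ : ι => μ) := by
    apply int_bdd
    · exact measurable_const.mul ((W_meas S Λ).comp (meas_glue_left _ η))
    · refine ⟨1, fun ξ => ?_⟩
      rw [one_mul, abs_of_pos (W_pos S Λ _)]
      exact W_le S Λ _
  calc _ ≤ ∫ ξ : ι → X, (1:ℝ) ∂(Measure.infinitePi fun _ : ι => μ) := by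
        apply integral_mono h1 (integrable_const _)
        intro ξ
        simp only [one_mul]
        exact W_le S Λ _
    _ = 1 := by simp

lemma dens_nonneg (Λ Λ' : Finset Pl) (η ξ : ι → X) : 0 ≤ dens S μ Λ Λ' η ξ := by
  unfold dens
  apply div_nonneg _ (num_one_nonneg S μ Λ η)
  exact mul_nonneg (RR_pos S Λ Λ' _).le (num_one_nonneg S μ Λ' _)

lemma dens_meas (Λ Λ' : Finset Pl) (η : ι → X) : Measurable (dens S μ Λ Λ' η) := by
  unfold dens
  apply Measurable.div_const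
  exact ((RR_meas S Λ Λ').comp (meas_glue_left _ η)).mul
    ((num_one_meas S μ Λ').comp (meas_glue_left _ η))

lemma dens_bdd (Λ Λ' : Finset Pl) (η : ι → X) : ∃ K, ∀ ξ, |dens S μ Λ Λ' η ξ| ≤ K := by
  refine ⟨1 / S.num μ Λ (fun _ => 1) η, fun ξ => ?_⟩
  rw [abs_of_nonneg (dens_nonneg S μ Λ Λ' η ξ)]
  unfold dens
  apply div_le_div_of_nonneg_right _ (num_one_nonneg S μ Λ η)
  have h1 := RR_le S Λ Λ' (glue (S.Fr Λ \ S.Fr Λ') ξ η)
  have h2 := (RR_pos S Λ Λ' (glue (S.Fr Λ \ S.Fr Λ') ξ η)).le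
  have h3 := num_one_le S μ Λ' (glue (S.Fr Λ \ S.Fr Λ') ξ η)
  have h4 := num_one_nonneg S μ Λ' (glue (S.Fr Λ \ S.Fr Λ') ξ η)
  exact mul_le_one₀ h1 h4 h3

/-- the conditional expectation through the density -/
lemma ker_dens (hF2 : S_F2) {Λ' Λ : Finset Pl} (h : Λ' ⊆ Λ) (F : (ι → X) → ℝ)
    (hF : Measurable F) (hFb : ∃ K, ∀ ω, |F ω| ≤ K) (hFd : Sys.dep {i | i ∉ S.Fr Λ'} F)
    (η : ι → X) :
    S.ker μ Λ F η = ∫ ξ, F (glue (S.Fr Λ \ S.Fr Λ') ξ η) * dens S μ Λ Λ' η ξ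
      ∂(Measure.infinitePi fun _ : ι => μ) := by
  unfold Sys.ker dens
  rw [num_split S μ hF2 h F hF hFb hFd η, ← integral_div]
  congr 1
  funext ξ
  ring

lemma dens_integral (hF2 : S_F2) (hF5 : S_F5) {Λ' Λ : Finset Pl} (h : Λ' ⊆ Λ) (η : ι → X) :
    ∫ ξ, dens S μ Λ Λ' η ξ ∂(Measure.infinitePi fun _ : ι => μ) = 1 := by
  have e := ker_dens S μ hF2 h (fun _ => 1) measurable_const ⟨1, fun _ => by simp⟩
    (fun _ _ _ => rfl) η
  rw [(hF5 ι Tm X S μ Λ).2.1 1 η] at e
  simpa using e.symm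

/-- the density only depends on the glued variables -/
lemma dens_glue (Λ Λ' : Finset Pl) (η ξ η' : ι → X) :
    dens S μ Λ Λ' η (glue (S.Fr Λ \ S.Fr Λ') ξ η') = dens S μ Λ Λ' η ξ := by
  unfold dens
  have : glue (S.Fr Λ \ S.Fr Λ') (glue (S.Fr Λ \ S.Fr Λ') ξ η') η =
      glue (S.Fr Λ \ S.Fr Λ') ξ η := by
    funext i
    by_cases h1 : i ∈ S.Fr Λ \ S.Fr Λ'
    · rw [glue_mem h1, glue_mem h1, glue_mem h1]
    · rw [glue_notMem h1, glue_notMem h1]
  rw [this]

lemma dens_dep (Λ Λ' : Finset Pl) (η ξ ξ' : ι → X)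
    (h : ∀ i ∈ S.Fr Λ \ S.Fr Λ', ξ i = ξ' i) :
    dens S μ Λ Λ' η ξ = dens S μ Λ Λ' η ξ' := by
  unfold dens
  have : glue (S.Fr Λ \ S.Fr Λ') ξ η = glue (S.Fr Λ \ S.Fr Λ') ξ' η := by
    funext i
    by_cases h1 : i ∈ S.Fr Λ \ S.Fr Λ'
    · rw [glue_mem h1, glue_mem h1, h i h1]
    · rw [glue_notMem h1, glue_notMem h1]
  rw [this]

end T2H02.TT.PkgX

namespace T2H02.TT.PkgX

open T2H02.TT

lemma ind_nonneg (p : Prop) : 0 ≤ ind p := by unfold ind; split_ifs <;> norm_num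

lemma ind_le (p : Prop) : ind p ≤ 1 := by unfold ind; split_ifs <;> norm_num

lemma ind_true {p : Prop} (h : p) : ind p = 1 := by unfold ind; rw [if_pos h]

lemma ind_false {p : Prop} (h : ¬ p) : ind p = 0 := by unfold ind; rw [if_neg h]

variable {ι Tm X : Type} [DecidableEq ι] [DecidableEq Tm] [MeasurableSpace X]

section kerbasic

variable (hF3 : S_F3) (hF5 : S_F5) (S : Sys ι Tm X) (μ : Measure X) [IsProbabilityMeasure μ]

include hF3 in
lemma ker_ker {Δ Λ : Finset Pl} (h : Δ ⊆ Λ) (f : (ι → X) → ℝ) (hf : Measurable f)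
    (hb : ∃ K, ∀ ω, |f ω| ≤ K) (η : ι → X) :
    S.ker μ Λ f η = S.ker μ Λ (S.ker μ Δ f) η := by
  have := hF3 ι Tm X S μ Δ Λ h f hf hb (fun _ => 1) measurable_const ⟨1, fun _ => by simp⟩
    (fun _ _ _ => rfl) η
  simp only [one_mul] at this
  exact this

include hF5

lemma ker_mono {Λ : Finset Pl} (f f' : (ι → X) → ℝ) (hf : Measurable f)
    (hb : ∃ K, ∀ ω, |f ω| ≤ K) (hf' : Measurable f')
    (hb' : ∃ K, ∀ ω, |f' ω| ≤ K) (η : ι → X)
    (h : ∀ ξ, f (glue (S.Fr Λ) ξ η) ≤ f' (glue (S.Fr Λ) ξ η)) :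
    S.ker μ Λ f η ≤ S.ker μ Λ f' η :=
  ((hF5 ι Tm X S μ Λ).2.2.1 f f' hf hb hf' hb' η).1 h

lemma ker_const (Λ : Finset Pl) (c : ℝ) (η : ι → X) : S.ker μ Λ (fun _ => c) η = c :=
  (hF5 ι Tm X S μ Λ).2.1 c η

lemma ker_smul {Λ : Finset Pl} (f : (ι → X) → ℝ) (hf : Measurable f)
    (hb : ∃ K, ∀ ω, |f ω| ≤ K) (η : ι → X) (c : ℝ) :
    S.ker μ Λ (fun ω => c * f ω) η = c * S.ker μ Λ f η :=
  ((hF5 ι Tm X S μ Λ).2.2.1 f f hf hb hf hb η).2.2 c

lemma ker_meas {Λ : Finset Pl} (f : (ι → X) → ℝ) (hf : Measurable f)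
    (hb : ∃ K, ∀ ω, |f ω| ≤ K) : Measurable (S.ker μ Λ f) :=
  (hF5 ι Tm X S μ Λ).2.2.2.1 f hf hb

lemma ker_abs {Λ : Finset Pl} (K : ℝ) (f : (ι → X) → ℝ) (hf : Measurable f)
    (hb : ∀ ω, |f ω| ≤ K) (η : ι → X) : |S.ker μ Λ f η| ≤ K :=
  (hF5 ι Tm X S μ Λ).2.2.2.2.1 K f hf hb η

lemma ker_bdd {Λ : Finset Pl} (f : (ι → X) → ℝ) (hf : Measurable f)
    (hb : ∃ K, ∀ ω, |f ω| ≤ K) : ∃ K, ∀ η, |S.ker μ Λ f η| ≤ K := by
  obtain ⟨K, hK⟩ := hb
  exact ⟨K, ker_abs hF5 S μ K f hf hK⟩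

lemma ker_nonneg {Λ : Finset Pl} (f : (ι → X) → ℝ) (hf : Measurable f)
    (hb : ∃ K, ∀ ω, |f ω| ≤ K) (h0 : ∀ ω, 0 ≤ f ω) (η : ι → X) : 0 ≤ S.ker μ Λ f η := by
  have := ker_mono hF5 S μ (Λ := Λ) (fun _ => 0) f measurable_const ⟨0, fun _ => by simp⟩ hf hb η
    (fun ξ => h0 _)
  rw [ker_const hF5 S μ Λ 0 η] at this
  exact this

lemma ker_dep' {Λ : Finset Pl} (B : Set ι) (f : (ι → X) → ℝ) (h : Sys.dep B f) :
    Sys.dep {i | i ∉ S.Fr Λ ∧ (i ∈ B ∨ ∃ τ ∈ S.tms Λ, i ∈ S.sp τ)} (S.ker μ Λ f) :=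
  (hF5 ι Tm X S μ Λ).2.2.2.2.2.2 B f h

lemma ker_dep_out {Λ : Finset Pl} (f : (ι → X) → ℝ) :
    Sys.dep {i | i ∉ S.Fr Λ} (S.ker μ Λ f) := by
  have h := ker_dep' hF5 S μ (Λ := Λ) Set.univ f (by
    intro ω ω' h
    have : ω = ω' := funext (fun i => h i (Set.mem_univ i))
    rw [this])
  intro ω ω' h2
  apply h
  intro i hi
  exact h2 i hi.1

end kerbasic

/-! ### the bad squares -/

section bad

variable (S : Sys ι Tm X) (g : Tm → (ι → X) → Prop)

/-- product of the indicators of bad squares -/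
def BB (s : Finset Pl) (ω : ι → X) : ℝ := ∏ b ∈ s, ind (Bad S g b ω)

lemma BB_nonneg (s : Finset Pl) (ω : ι → X) : 0 ≤ BB S g s ω :=
  Finset.prod_nonneg (fun _ _ => ind_nonneg _)

lemma BB_le (s : Finset Pl) (ω : ι → X) : BB S g s ω ≤ 1 :=
  Finset.prod_le_one (fun _ _ => ind_nonneg _) (fun _ _ => ind_le _)

lemma BB_abs (s : Finset Pl) (ω : ι → X) : |BB S g s ω| ≤ 1 := by
  rw [abs_of_nonneg (BB_nonneg S g s ω)]
  exact BB_le S g s ω

variable (hgm : ∀ τ, MeasurableSet {ω | g τ ω})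

include hgm in
lemma bad_meas (b : Pl) : Measurable (fun ω => ind (Bad S g b ω)) := by
  unfold ind
  refine Measurable.ite ?_ measurable_const measurable_const
  have : {ω | Bad S g b ω} = ⋃ τ ∈ S.tms (Nb 1 b),
      ({_ω | ∀ a ∈ S.bt τ, a ∈ Nb 1 b} ∩ {ω | g τ ω}ᶜ) := by
    ext ω
    simp only [Bad, Set.mem_ofPred_eq, Set.mem_iUnion, Set.mem_inter_iff, Set.mem_compl_iff,
      exists_prop]
  rw [this]
  apply Finset.measurableSet_biUnion
  intro τ _
  exact (MeasurableSet.const _).inter (hgm τ).compl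

include hgm in
lemma BB_meas (s : Finset Pl) : Measurable (BB S g s) :=
  Finset.measurable_fun_prod _ (fun b _ => bad_meas S g hgm b)

variable (hgl : ∀ τ ω ω', (∀ i ∈ S.sp τ, ω i = ω' i) → (g τ ω ↔ g τ ω'))

include hgl in
lemma bad_dep (b : Pl) (ω ω' : ι → X) (h : ∀ i, (∀ a ∈ S.bl i, a ∈ Nb 1 b) → ω i = ω' i) :
    Bad S g b ω ↔ Bad S g b ω' := by
  unfold Bad
  apply exists_congr
  intro τ
  apply and_congr_right
  intro _
  apply and_congr_right
  intro h2
  apply not_congr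
  apply hgl
  intro i hi
  apply h
  intro a ha
  exact h2 a ((S.bt_iff τ a).2 ⟨i, hi, ha⟩)

variable (hF3 : S_F3) (hF5 : S_F5) (μ : Measure X) [IsProbabilityMeasure μ] (p : ℝ)
  (hp : ∀ b η, S.ker μ (Nb 2 b) (fun ω => ind (Bad S g b ω)) η ≤ p)

include hgm hgl hF3 hF5 hp in
lemma ker_BB_class (hp0 : 0 < p) (L : Finset Pl) (s : Finset Pl) :
    (∀ b ∈ s, Nb 2 b ⊆ L) → (∀ b ∈ s, ∀ b' ∈ s, b ≠ b' → ¬ near 3 b b') →
    ∀ η, S.ker μ L (BB S g s) η ≤ p ^ s.card := by
  classical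
  induction s using Finset.induction_on with
  | empty =>
    intro _ _ η
    have : BB S g ∅ = fun _ => 1 := by
      funext ω
      unfold BB
      rw [Finset.prod_empty]
    rw [this, ker_const hF5 S μ L 1 η]
    simp
  | insert b₀ s hb₀ ih =>
    intro h1 h2 η
    have ih' := ih (fun b hb => h1 b (Finset.mem_insert_of_mem hb))
      (fun b hb b' hb' => h2 b (Finset.mem_insert_of_mem hb) b' (Finset.mem_insert_of_mem hb')) η
    have e1 : BB S g (insert b₀ s) = fun ω => BB S g s ω * ind (Bad S g b₀ ω) := by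
      funext ω
      unfold BB
      rw [Finset.prod_insert hb₀, mul_comm]
    have hdep : Sys.dep {i | i ∉ S.Fr (Nb 2 b₀)} (BB S g s) := by
      intro ω ω' hω
      unfold BB
      apply Finset.prod_congr rfl
      intro b hb
      have : Bad S g b ω ↔ Bad S g b ω' := by
        apply bad_dep S g hgl
        intro i hi
        apply hω
        intro hi2
        rw [S.mem_Fr] at hi2
        obtain ⟨a, ha, ha2⟩ := hi2
        have h3 := hi a ha
        rw [mem_Nb] at ha2 h3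
        have h4 := near_trans ha2 (near_symm h3)
        refine h2 b₀ (Finset.mem_insert_self _ _) b (Finset.mem_insert_of_mem hb) ?_
          (near_mono h4 (by norm_num))
        rintro rfl
        exact hb₀ hb
      simp only [this]
    rw [e1]
    have e2 := hF3 ι Tm X S μ (Nb 2 b₀) L (h1 b₀ (Finset.mem_insert_self _ _))
      (fun ω => ind (Bad S g b₀ ω)) (bad_meas S g hgm b₀)
      ⟨1, fun ω => by rw [abs_of_nonneg (ind_nonneg _)]; exact ind_le _⟩
      (BB S g s) (BB_meas S g hgm s) ⟨1, BB_abs S g s⟩ hdep η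
    rw [e2]
    have hkm := ker_meas hF5 S μ (Λ := Nb 2 b₀) (fun ω => ind (Bad S g b₀ ω))
      (bad_meas S g hgm b₀) ⟨1, fun ω => by rw [abs_of_nonneg (ind_nonneg _)]; exact ind_le _⟩
    have hka := ker_abs hF5 S μ (Λ := Nb 2 b₀) 1 (fun ω => ind (Bad S g b₀ ω))
      (bad_meas S g hgm b₀) (fun ω => by rw [abs_of_nonneg (ind_nonneg _)]; exact ind_le _)
    have e3 : S.ker μ L (fun ω => BB S g s ω * S.ker μ (Nb 2 b₀)
        (fun ω => ind (Bad S g b₀ ω)) ω) η ≤ S.ker μ L (fun ω => p * BB S g s ω) η := by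
      apply ker_mono hF5 S μ
      · exact (BB_meas S g hgm s).mul hkm
      · refine ⟨1, fun ω => ?_⟩
        rw [abs_mul]
        exact mul_le_one₀ (BB_abs S g s ω) (abs_nonneg _) (hka ω)
      · exact measurable_const.mul (BB_meas S g hgm s)
      · refine ⟨|p| * 1, fun ω => ?_⟩
        rw [abs_mul]
        exact mul_le_mul_of_nonneg_left (BB_abs S g s ω) (abs_nonneg _)
      · intro ξ
        rw [mul_comm]
        exact mul_le_mul_of_nonneg_right (hp b₀ _) (BB_nonneg S g s _)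
    refine le_trans e3 ?_
    rw [ker_smul hF5 S μ (BB S g s) (BB_meas S g hgm s) ⟨1, BB_abs S g s⟩ η p,
      Finset.card_insert_of_notMem hb₀, pow_succ, mul_comm]
    exact mul_le_mul_of_nonneg_right ih' hp0.le

include hgm hgl hF3 hF5 hp in
lemma ker_BB (hp0 : 0 < p) (q : ℝ) (hq : 0 < q) (hq1 : q ≤ 1) (hpq : p ≤ q ^ 32)
    (L : Finset Pl) (s : Finset Pl) (hs : ∀ b ∈ s, Nb 2 b ⊆ L) (η : ι → X) :
    S.ker μ L (BB S g s) η ≤ (q ^ s.card) ^ 2 := by
  classical
  set T : Finset (ℤ × ℤ) := Finset.Ico (0:ℤ) 4 ×ˢ Finset.Ico (0:ℤ) 4 with hT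
  set cl : Pl → ℤ × ℤ := fun b => (b.1 % 4, b.2 % 4) with hcl
  have hmaps : ∀ b ∈ s, cl b ∈ T := by
    intro b _
    rw [hT, Finset.mem_product, Finset.mem_Ico, Finset.mem_Ico]
    simp only [hcl]
    refine ⟨⟨?_, ?_⟩, ?_, ?_⟩ <;> omega
  have hTc : T.card = 16 := by
    rw [hT, Finset.card_product, Int.card_Ico]
    rfl
  have hsum := Finset.card_eq_sum_card_fiberwise hmaps
  obtain ⟨y, _, hy⟩ : ∃ y ∈ T, s.card ≤ 16 * (s.filter (fun b => cl b = y)).card := by
    apply Finset.exists_le_of_sum_le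
    · rw [← Finset.card_pos, hTc]; norm_num
    · rw [← Finset.mul_sum, ← hsum, Finset.sum_const, hTc, smul_eq_mul]
  set s' := s.filter (fun b => cl b = y) with hs'
  have h1 : S.ker μ L (BB S g s) η ≤ S.ker μ L (BB S g s') η := by
    apply ker_mono hF5 S μ _ _ (BB_meas S g hgm s) ⟨1, BB_abs S g s⟩ (BB_meas S g hgm s')
      ⟨1, BB_abs S g s'⟩
    intro ξ
    unfold BB
    rw [← Finset.prod_sdiff (Finset.filter_subset (fun b => cl b = y) s)]
    have h5 : ∏ x ∈ s \ s.filter (fun b => cl b = y), ind (Bad S g x (glue (S.Fr L) ξ η)) ≤ 1 :=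
      Finset.prod_le_one (fun _ _ => ind_nonneg _) (fun _ _ => ind_le _)
    have h6 : 0 ≤ ∏ x ∈ s.filter (fun b => cl b = y), ind (Bad S g x (glue (S.Fr L) ξ η)) :=
      Finset.prod_nonneg (fun _ _ => ind_nonneg _)
    calc _ ≤ 1 * ∏ x ∈ s.filter (fun b => cl b = y), ind (Bad S g x (glue (S.Fr L) ξ η)) :=
          mul_le_mul_of_nonneg_right h5 h6
      _ = _ := one_mul _
  have h2 := ker_BB_class S g hgm hgl hF3 hF5 μ p hp hp0 L s'
    (fun b hb => hs b (Finset.mem_filter.1 hb).1) (by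
      intro b hb b' hb' hne hn
      apply hne
      rw [hs', Finset.mem_filter] at hb hb'
      have e := hb.2.trans hb'.2.symm
      simp only [hcl, Prod.mk.injEq] at e
      unfold near at hn
      rw [abs_le, abs_le] at hn
      apply Prod.ext
      · omega
      · omega) η
  refine le_trans h1 (le_trans h2 ?_)
  calc p ^ s'.card ≤ (q ^ 32) ^ s'.card := pow_le_pow_left₀ hp0.le hpq _
    _ = q ^ (32 * s'.card) := by rw [← pow_mul]
    _ ≤ q ^ (s.card * 2) := pow_le_pow_of_le_one hq.le hq1 (by omega)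
    _ = (q ^ s.card) ^ 2 := by rw [pow_mul]

end bad

end T2H02.TT.PkgX

namespace T2H02.TT.PkgX

open T2H02.TT

variable {ι Tm X : Type} [DecidableEq ι] [DecidableEq Tm] [MeasurableSpace X]

section main

variable (hF2 : S_F2) (hF3 : S_F3) (hF5 : S_F5) (S : Sys ι Tm X) (μ : Measure X)
  [IsProbabilityMeasure μ]
  (g : Tm → (ι → X) → Prop) (δ : ℝ)
  (hgm : ∀ τ, MeasurableSet {ω | g τ ω})
  (hgl : ∀ τ ω ω', (∀ i ∈ S.sp τ, ω i = ω' i) → (g τ ω ↔ g τ ω'))
  (hQ : ∀ b, ∀ Λ ⊆ Nb 2 b, b ∈ Λ → ∀ η η' : ι → X,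
    (∀ i, (∀ a ∈ S.bl i, a ∈ Nb 2 b ∧ a ∉ Λ) → η i = η' i) →
    (∀ τ ∈ S.tms (Nb 1 b), (∀ a ∈ S.bt τ, a ∈ Nb 1 b ∧ a ∉ Λ) → g τ η) →
    ∀ F : (ι → X) → ℝ, Measurable F → (∀ ω, 0 ≤ F ω ∧ F ω ≤ 1) →
      Sys.dep {i | ∀ a ∈ S.bl i, (a ∈ Nb 2 b ∧ a ∉ Λ) ∨ a = b} F →
      S.ker μ Λ F η ≤ S.ker μ Λ F η' + δ)

include hF3 hF5 hgl hQ in
/-- the insensitivity hypothesis for all finite regions containing `b` -/
lemma hQ_ext (b : Pl) (Λ K : Finset Pl) (hb : b ∈ Λ) (hK : Nb 2 b ⊆ K) (η η' : ι → X)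
    (hag : ∀ i, i ∉ S.Fr Λ → (∀ a ∈ S.bl i, a ∈ K) → η i = η' i)
    (hgood : ∀ τ ∈ S.tms (Nb 1 b), (∀ a ∈ S.bt τ, a ∈ Nb 1 b ∧ a ∉ Λ) → g τ η)
    (F : (ι → X) → ℝ) (hF : Measurable F) (hF01 : ∀ ω, 0 ≤ F ω ∧ F ω ≤ 1)
    (hFd : Sys.dep {i | ∀ a ∈ S.bl i, (a ∈ Nb 2 b ∧ a ∉ Λ) ∨ a = b} F) :
    S.ker μ Λ F η ≤ S.ker μ Λ F η' + δ := by
  classical
  set Δ : Finset Pl := Λ ∩ Nb 2 b with hΔ
  have hΔΛ : Δ ⊆ Λ := Finset.inter_subset_left
  have hFb : ∃ K, ∀ ω, |F ω| ≤ K := ⟨1, fun ω => by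
    rw [abs_of_nonneg (hF01 ω).1]; exact (hF01 ω).2⟩
  have hkm := ker_meas hF5 S μ (Λ := Δ) F hF hFb
  have hkb := ker_bdd hF5 S μ (Λ := Δ) F hF hFb
  have hbb : b ∈ Nb 2 b := by
    rw [mem_Nb]; unfold near; simp
  rw [ker_ker hF3 S μ hΔΛ F hF hFb η, ker_ker hF3 S μ hΔΛ F hF hFb η']
  have key : ∀ ξ ξ' : ι → X, S.ker μ Δ F (glue (S.Fr Λ) ξ η) ≤
      S.ker μ Δ F (glue (S.Fr Λ) ξ' η') + δ := by
    intro ξ ξ'
    apply hQ b Δ Finset.inter_subset_right (Finset.mem_inter.2 ⟨hb, hbb⟩)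
    · intro i hi
      have hiΛ : i ∉ S.Fr Λ := by
        intro h
        rw [S.mem_Fr] at h
        obtain ⟨a, ha, haΛ⟩ := h
        exact (hi a ha).2 (Finset.mem_inter.2 ⟨haΛ, (hi a ha).1⟩)
      rw [glue_notMem hiΛ, glue_notMem hiΛ]
      exact hag i hiΛ (fun a ha => hK (hi a ha).1)
    · intro τ hτ hτ2
      have h12 : Nb 1 b ⊆ Nb 2 b := by
        intro x hx
        rw [mem_Nb] at *
        exact near_mono hx (by norm_num)
      have hτ3 : ∀ a ∈ S.bt τ, a ∈ Nb 1 b ∧ a ∉ Λ := fun a ha =>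
        ⟨(hτ2 a ha).1, fun h => (hτ2 a ha).2 (Finset.mem_inter.2 ⟨h, h12 (hτ2 a ha).1⟩)⟩
      have hτΛ : τ ∉ S.tms Λ := by
        intro h
        rw [S.mem_tms] at h
        obtain ⟨a, ha, haΛ⟩ := h
        exact (hτ3 a ha).2 haΛ
      have := hgood τ hτ hτ3
      refine (hgl τ _ η (fun i hi => ?_)).2 this
      exact glue_notMem (sp_notMem_Fr S hτΛ hi)
    · exact hF
    · exact hF01
    · intro ω ω' hω
      apply hFd
      intro i hi
      apply hω
      intro a ha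
      rcases hi a ha with h | h
      · exact Or.inl ⟨h.1, fun h2 => h.2 (Finset.mem_inter.1 h2).1⟩
      · exact Or.inr h
  have h1 : ∀ ξ' : ι → X, S.ker μ Λ (S.ker μ Δ F) η ≤ S.ker μ Δ F (glue (S.Fr Λ) ξ' η') + δ := by
    intro ξ'
    have := ker_mono hF5 S μ (Λ := Λ) (S.ker μ Δ F)
      (fun _ => S.ker μ Δ F (glue (S.Fr Λ) ξ' η') + δ) hkm hkb measurable_const
      ⟨_, fun _ => le_refl _⟩ η (fun ξ => key ξ ξ')
    rw [ker_const hF5 S μ] at this
    exact this
  have h2 := ker_mono hF5 S μ (Λ := Λ) (fun _ => S.ker μ Λ (S.ker μ Δ F) η - δ) (S.ker μ Δ F)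
      measurable_const ⟨_, fun _ => le_refl _⟩ hkm hkb η' (fun ξ => by
        have := h1 ξ
        linarith)
  rw [ker_const hF5 S μ] at h2
  linarith

/-- weights of the chains -/
def Phi (Λ : Finset Pl) (η : ι → X) (s : Finset Pl) (t : ℕ) : ℝ :=
  Real.sqrt δ ^ t * Real.sqrt (S.ker μ Λ (BB S g s) η)

lemma Phi_nonneg (Λ : Finset Pl) (η : ι → X) (s : Finset Pl) (t : ℕ) :
    0 ≤ Phi S μ g δ Λ η s t :=
  mul_nonneg (pow_nonneg (Real.sqrt_nonneg _) _) (Real.sqrt_nonneg _)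

include hF2 hF5 in
/-- a density of a region is a probability density -/
lemma int_glue_meas {Λ' : Finset Pl} (J : Finset ι) (η : ι → X) (f : (ι → X) → ℝ)
    (hf : Measurable f) (hb : ∃ K, ∀ ω, |f ω| ≤ K) :
    Measurable (fun ξ => S.ker μ Λ' f (glue J ξ η)) :=
  (ker_meas hF5 S μ f hf hb).comp (meas_glue_left J η)

include hF2 hF5 hgm in
lemma Phi_meas {Λ' : Finset Pl} (J : Finset ι) (η : ι → X) (s : Finset Pl) (t : ℕ) :
    Measurable (fun ξ => Phi S μ g δ Λ' (glue J ξ η) s t) := by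
  unfold Phi
  apply Measurable.const_mul
  exact (int_glue_meas hF2 hF5 S μ J η _ (BB_meas S g hgm s) ⟨1, BB_abs S g s⟩).sqrt

include hF5 hgm in
lemma Phi_bdd {Λ' : Finset Pl} (J : Finset ι) (η : ι → X) (s : Finset Pl) (t : ℕ) :
    ∃ K, ∀ ξ, |Phi S μ g δ Λ' (glue J ξ η) s t| ≤ K := by
  refine ⟨Real.sqrt δ ^ t, fun ξ => ?_⟩
  rw [abs_of_nonneg (Phi_nonneg S μ g δ _ _ _ _)]
  unfold Phi
  have h1 := ker_abs hF5 S μ (Λ := Λ') 1 (BB S g s) (BB_meas S g hgm s) (BB_abs S g s)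
    (glue J ξ η)
  have h2 : Real.sqrt (S.ker μ Λ' (BB S g s) (glue J ξ η)) ≤ 1 := by
    have h3 := Real.sqrt_le_sqrt (le_trans (le_abs_self _) h1)
    rwa [Real.sqrt_one] at h3
  calc _ ≤ Real.sqrt δ ^ t * 1 :=
        mul_le_mul_of_nonneg_left h2 (pow_nonneg (Real.sqrt_nonneg _) _)
    _ = _ := mul_one _

include hF2 hF3 hF5 hgm in
/-- the second factor in the Cauchy-Schwarz inequality -/
lemma ker_BB_int {Λ' Λ : Finset Pl} (h : Λ' ⊆ Λ) (η : ι → X) (s : Finset Pl) :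
    ∫ ξ, S.ker μ Λ' (BB S g s) (glue (S.Fr Λ \ S.Fr Λ') ξ η) * dens S μ Λ Λ' η ξ
      ∂(Measure.infinitePi fun _ : ι => μ) = S.ker μ Λ (BB S g s) η := by
  have hm := BB_meas S g hgm s
  have hb : ∃ K, ∀ ω, |BB S g s ω| ≤ K := ⟨1, BB_abs S g s⟩
  rw [ker_ker hF3 S μ h (BB S g s) hm hb η]
  rw [ker_dens S μ hF2 h (S.ker μ Λ' (BB S g s)) (ker_meas hF5 S μ _ hm hb)
    (ker_bdd hF5 S μ _ hm hb) (ker_dep_out hF5 S μ _) η]

include hF2 hF3 hF5 hgm in
/-- the weight of a chain after integrating against a part `r` of the density -/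
lemma Phi_int {Λ' Λ : Finset Pl} (h : Λ' ⊆ Λ) (η : ι → X) (s : Finset Pl) (t : ℕ)
    (r : (ι → X) → ℝ) (hr : Measurable r) (hr0 : ∀ ξ, 0 ≤ r ξ)
    (hrd : ∀ ξ, r ξ ≤ dens S μ Λ Λ' η ξ) :
    ∫ ξ, Phi S μ g δ Λ' (glue (S.Fr Λ \ S.Fr Λ') ξ η) s t * r ξ
      ∂(Measure.infinitePi fun _ : ι => μ) ≤
    Real.sqrt (∫ ξ, r ξ ∂(Measure.infinitePi fun _ : ι => μ)) * Phi S μ g δ Λ η s t := by
  have hm := BB_meas S g hgm s
  have hb : ∃ K, ∀ ω, |BB S g s ω| ≤ K := ⟨1, BB_abs S g s⟩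
  set J := S.Fr Λ \ S.Fr Λ' with hJ
  obtain ⟨D, hD⟩ := dens_bdd S μ Λ Λ' η
  have hrb : ∃ K, ∀ ξ, |r ξ| ≤ K := ⟨D, fun ξ => by
    rw [abs_of_nonneg (hr0 ξ)]
    exact le_trans (hrd ξ) (le_trans (le_abs_self _) (hD ξ))⟩
  have hφm := int_glue_meas hF2 hF5 S μ (Λ' := Λ') J η (BB S g s) hm hb
  have hφ0 : ∀ ξ : ι → X, 0 ≤ S.ker μ Λ' (BB S g s) (glue J ξ η) := fun ξ =>
    ker_nonneg hF5 S μ _ hm hb (BB_nonneg S g s) _
  have hφb : ∃ K, ∀ ξ : ι → X, |S.ker μ Λ' (BB S g s) (glue J ξ η)| ≤ K :=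
    ⟨1, fun ξ => ker_abs hF5 S μ 1 _ hm (BB_abs S g s) _⟩
  have hcs := cs (Measure.infinitePi fun _ : ι => μ)
    (fun ξ => S.ker μ Λ' (BB S g s) (glue J ξ η)) r hφm hφ0 hφb hr hr0 hrb
  have h3 : ∫ ξ, S.ker μ Λ' (BB S g s) (glue J ξ η) * r ξ
      ∂(Measure.infinitePi fun _ : ι => μ) ≤ S.ker μ Λ (BB S g s) η := by
    rw [← ker_BB_int hF2 hF3 hF5 S μ g hgm h η s]
    apply integral_mono
    · exact int_mul_bdd _ (int_bdd _ hφm hφb) hr hrb
    · exact int_mul_bdd _ (int_bdd _ hφm hφb) (dens_meas S μ Λ Λ' η) ⟨D, hD⟩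
    · intro ξ
      exact mul_le_mul_of_nonneg_left (hrd ξ) (hφ0 ξ)
  have e1 : ∫ ξ, Phi S μ g δ Λ' (glue J ξ η) s t * r ξ ∂(Measure.infinitePi fun _ : ι => μ) =
      Real.sqrt δ ^ t * ∫ ξ, Real.sqrt (S.ker μ Λ' (BB S g s) (glue J ξ η)) * r ξ
        ∂(Measure.infinitePi fun _ : ι => μ) := by
    rw [← integral_const_mul]
    congr 1
    funext ξ
    unfold Phi
    ring
  rw [e1]
  calc _ ≤ Real.sqrt δ ^ t * (Real.sqrt (∫ ξ, r ξ ∂(Measure.infinitePi fun _ : ι => μ)) *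
        Real.sqrt (S.ker μ Λ (BB S g s) η)) := by
        apply mul_le_mul_of_nonneg_left _ (pow_nonneg (Real.sqrt_nonneg _) _)
        refine le_trans hcs ?_
        apply mul_le_mul_of_nonneg_left _ (Real.sqrt_nonneg _)
        exact Real.sqrt_le_sqrt h3
    _ = _ := by unfold Phi; ring

include hF2 hF3 hF5 hgm hgl hQ in
/-- the main estimate -/
theorem claim (hδ : 0 < δ) (Λ₀ A : Finset Pl) (f : (ι → X) → ℝ) (hf : Measurable f)
    (hf1 : ∀ ω, |f ω| ≤ 1) (hfd : Sys.dep {i | ∀ a ∈ S.bl i, a ∈ A} f) (n : ℕ) :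
    ∀ Λ K : Finset Pl, Λ.card ≤ n → Λ ⊆ K → K ⊆ Λ₀ → ∀ η η' : ι → X,
      (∀ i, i ∉ S.Fr Λ → (∀ a ∈ S.bl i, a ∈ K) → η i = η' i) →
      |S.ker μ Λ f η - S.ker μ Λ f η'| ≤
        2 * Ch A (fun b => Nb 2 b ⊆ Λ₀) n Λ {c | c ∉ K} (Phi S μ g δ Λ η) := by
  classical
  have hfb : ∃ K, ∀ ω, |f ω| ≤ K := ⟨1, hf1⟩
  -- the three cases, for a given fuel
  have caseI : ∀ (n : ℕ) (Λ K : Finset Pl) (η η' : ι → X), emp A {c | c ∉ K} →
      |S.ker μ Λ f η - S.ker μ Λ f η'| ≤
        2 * Ch A (fun b => Nb 2 b ⊆ Λ₀) n Λ {c | c ∉ K} (Phi S μ g δ Λ η) := by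
    intro n Λ K η η' he
    have h1 := ker_abs hF5 S μ (Λ := Λ) 1 f hf hf1 η
    have h2 := ker_abs hF5 S μ (Λ := Λ) 1 f hf hf1 η'
    have h3 : |S.ker μ Λ f η - S.ker μ Λ f η'| ≤ 2 := by
      have := abs_sub (S.ker μ Λ f η) (S.ker μ Λ f η')
      linarith
    have h4 : Phi S μ g δ Λ η ∅ 0 = 1 := by
      unfold Phi
      have : BB S g ∅ = fun _ => 1 := by
        funext ω
        unfold BB
        rw [Finset.prod_empty]
      rw [this, ker_const hF5 S μ Λ 1 η]
      simp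
    have h5 : 1 ≤ Ch A (fun b => Nb 2 b ⊆ Λ₀) n Λ {c | c ∉ K} (Phi S μ g δ Λ η) := by
      cases n with
      | zero => unfold Ch; rw [if_pos he, h4]
      | succ n =>
        unfold Ch
        rw [if_pos he, h4]
        apply le_add_of_nonneg_right
        apply Finset.sum_nonneg
        intro b _
        exact add_nonneg (Ch_nonneg _ _ _ _ (fun s t => Phi_nonneg S μ g δ _ _ _ _))
          (Ch_nonneg _ _ _ _ (fun s t => Phi_nonneg S μ g δ _ _ _ _))
    linarith
  have caseII : ∀ (n : ℕ) (Λ K : Finset Pl) (η η' : ι → X), ¬ emp A {c | c ∉ K} →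
      (∀ i, i ∉ S.Fr Λ → (∀ a ∈ S.bl i, a ∈ K) → η i = η' i) →
      (∀ b ∈ Λ, ¬ ((∃ c ∈ {c | c ∉ K}, d3 b c) ∧ Nb 2 b ⊆ K)) →
      |S.ker μ Λ f η - S.ker μ Λ f η'| ≤
        2 * Ch A (fun b => Nb 2 b ⊆ Λ₀) n Λ {c | c ∉ K} (Phi S μ g δ Λ η) := by
    intro n Λ K η η' he hag hno
    set Λ' : Finset Pl := Λ.filter (fun x => Nb 3 x ⊆ K) with hΛ'
    have hΛ'Λ : Λ' ⊆ Λ := Finset.filter_subset _ _
    have hin : ∀ x ∈ Λ, Nb 2 x ⊆ K → x ∈ Λ' := by
      intro x hx hx2
      rw [hΛ', Finset.mem_filter]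
      refine ⟨hx, ?_⟩
      intro c hc
      by_contra hcK
      apply hno x hx
      refine ⟨⟨c, hcK, ?_, ?_⟩, hx2⟩
      · rw [mem_Nb] at hc; exact_mod_cast hc
      · intro hn
        exact hcK (hx2 (mem_Nb.2 (by exact_mod_cast hn)))
    have hself : ∀ (r : ℕ) (x : Pl), x ∈ Nb r x := by
      intro r x
      rw [mem_Nb]; unfold near; simp
    have hconst : ∀ ξ ξ' : ι → X, S.ker μ Λ' f (glue (S.Fr Λ) ξ η) =
        S.ker μ Λ' f (glue (S.Fr Λ) ξ' η') := by
      intro ξ ξ'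
      apply ker_dep' hF5 S μ (Λ := Λ') _ f hfd
      rintro i ⟨hi1, hi2⟩
      have hsites : ∀ a ∈ S.bl i, Nb 2 a ⊆ K := by
        intro a ha
        rcases hi2 with hi2 | ⟨τ, hτ, hi2⟩
        · intro c hc
          by_contra hcK
          exact he ⟨a, hi2 a ha, c, hcK, by rw [mem_Nb] at hc; exact_mod_cast hc⟩
        · rw [S.mem_tms] at hτ
          obtain ⟨a₀, ha₀, ha₀'⟩ := hτ
          rw [hΛ', Finset.mem_filter] at ha₀'
          have h1 : near 1 a₀ a := S.diam_bt τ a₀ ha₀ a ((S.bt_iff τ a).2 ⟨i, hi2, ha⟩)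
          intro c hc
          apply ha₀'.2
          rw [mem_Nb] at hc ⊢
          have := near_trans h1 hc
          exact near_mono this (by norm_num)
      have hiΛ : i ∉ S.Fr Λ := by
        intro h
        rw [S.mem_Fr] at h
        obtain ⟨a, ha, haΛ⟩ := h
        apply hi1
        rw [S.mem_Fr]
        exact ⟨a, ha, hin a haΛ (hsites a ha)⟩
      rw [glue_notMem hiΛ, glue_notMem hiΛ]
      exact hag i hiΛ (fun a ha => hsites a ha (hself 2 a))
    have e1 : S.ker μ Λ f η = S.ker μ Λ' f (glue (S.Fr Λ) η η') := by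
      rw [ker_ker hF3 S μ hΛ'Λ f hf hfb η]
      rw [ker_congr S μ Λ (S.ker μ Λ' f) (fun _ => S.ker μ Λ' f (glue (S.Fr Λ) η η')) η
        (fun ξ => hconst ξ η)]
      exact ker_const hF5 S μ Λ _ η
    have e2 : S.ker μ Λ f η' = S.ker μ Λ' f (glue (S.Fr Λ) η η') := by
      rw [ker_ker hF3 S μ hΛ'Λ f hf hfb η']
      rw [ker_congr S μ Λ (S.ker μ Λ' f) (fun _ => S.ker μ Λ' f (glue (S.Fr Λ) η η')) η'
        (fun ξ => by rw [← hconst η ξ, hconst η η])]
      exact ker_const hF5 S μ Λ _ η'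
    rw [e1, e2, sub_self, abs_zero]
    have := Ch_nonneg (A := A) (ok := fun b => Nb 2 b ⊆ Λ₀) n Λ {c | c ∉ K} (Phi S μ g δ Λ η)
      (fun s t => Phi_nonneg S μ g δ _ _ _ _)
    linarith
  induction n with
  | zero =>
    intro Λ K hcard hΛK hK η η' hag
    have hΛ0 : Λ = ∅ := Finset.card_eq_zero.1 (Nat.le_zero.1 hcard)
    by_cases he : emp A {c | c ∉ K}
    · exact caseI 0 Λ K η η' he
    · apply caseII 0 Λ K η η' he hag
      intro b hb
      rw [hΛ0] at hb
      exact absurd hb (Finset.notMem_empty b)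
  | succ n ih =>
    intro Λ K hcard hΛK hK η η' hag
    by_cases he : emp A {c | c ∉ K}
    · exact caseI (n+1) Λ K η η' he
    by_cases hno : ∀ b ∈ Λ, ¬ ((∃ c ∈ {c | c ∉ K}, d3 b c) ∧ Nb 2 b ⊆ K)
    · exact caseII (n+1) Λ K η η' he hag hno
    push Not at hno
    obtain ⟨b, hb, hd, hbK⟩ := hno
    set Λ' : Finset Pl := Λ.erase b with hΛ'
    have hΛ'Λ : Λ' ⊆ Λ := Finset.erase_subset _ _
    have hcard' : Λ'.card ≤ n := by
      rw [hΛ', Finset.card_erase_of_mem hb]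
      omega
    set J : Finset ι := S.Fr Λ \ S.Fr Λ' with hJ
    set P : Measure (ι → X) := Measure.infinitePi fun _ : ι => μ with hP
    set ok : Pl → Prop := fun b => Nb 2 b ⊆ Λ₀ with hok
    set a : (ι → X) → ℝ := fun ξ => Ch A ok n Λ' {c | c ∉ K} (Phi S μ g δ Λ' (glue J ξ η)) with ha
    set e : (ι → X) → ℝ := fun ξ => Ch A ok n Λ' {b} (Phi S μ g δ Λ' (glue J ξ η)) with he'
    have hPhiI : ∀ s t, Integrable (fun ξ => Phi S μ g δ Λ' (glue J ξ η) s t) P := fun s t =>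
      int_bdd P (Phi_meas hF2 hF5 S μ g δ hgm J η s t) (Phi_bdd hF5 S μ g δ hgm J η s t)
    -- common integral computation
    have hCint : ∀ (src : Set Pl) (r : (ι → X) → ℝ), Measurable r → (∃ K, ∀ ξ, |r ξ| ≤ K) →
        ∫ ξ, Ch A ok n Λ' src (Phi S μ g δ Λ' (glue J ξ η)) * r ξ ∂P =
          Ch A ok n Λ' src (fun s t => ∫ ξ, Phi S μ g δ Λ' (glue J ξ η) s t * r ξ ∂P) := by
      intro src r hr hrb
      have h1 := (Ch_integral (A := A) (ok := ok) P n Λ' src
        (fun ξ s t => r ξ * Phi S μ g δ Λ' (glue J ξ η) s t) (fun s t => by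
          have := int_mul_bdd P (hPhiI s t) hr hrb
          simpa only [mul_comm] using this)).2
      simp only [Ch_smul] at h1
      simp only [mul_comm _ (r _)]
      exact h1
    have hDm := dens_meas S μ Λ Λ' η
    have hDb := dens_bdd S μ Λ Λ' η
    have hD0 := dens_nonneg S μ Λ Λ' η
    have hDm' := dens_meas S μ Λ Λ' η'
    have hDb' := dens_bdd S μ Λ Λ' η'
    have hD0' := dens_nonneg S μ Λ Λ' η'
    have hD1 := dens_integral S μ hF2 hF5 hΛ'Λ η
    have hD1' := dens_integral S μ hF2 hF5 hΛ'Λ η'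
    -- agreement off `b`
    have hJb : ∀ i, i ∉ S.Fr Λ' → b ∉ S.bl i → i ∉ S.Fr Λ := by
      intro i hi hbi h
      rw [S.mem_Fr] at h
      obtain ⟨x, hx, hxΛ⟩ := h
      apply hi
      rw [S.mem_Fr]
      refine ⟨x, hx, Finset.mem_erase.2 ⟨?_, hxΛ⟩⟩
      rintro rfl
      exact hbi hx
    have hcoup := coupling P (fun ξ => S.ker μ Λ' f (glue J ξ η))
      (fun ξ => S.ker μ Λ' f (glue J ξ η')) a e (dens S μ Λ Λ' η) (dens S μ Λ Λ' η')
      (int_glue_meas hF2 hF5 S μ J η f hf hfb) (int_glue_meas hF2 hF5 S μ J η' f hf hfb)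
      ⟨1, fun ξ => ker_abs hF5 S μ 1 f hf hf1 _⟩ ⟨1, fun ξ => ker_abs hF5 S μ 1 f hf hf1 _⟩
      (Ch_integral P n Λ' _ _ hPhiI).1 (Ch_integral P n Λ' _ _ hPhiI).1
      hDm hDm' hDb hDb' hD0 hD0' hD1 hD1'
      (by
        intro ξ
        apply ih Λ' K hcard' (hΛ'Λ.trans hΛK) hK
        intro i hi hiK
        by_cases hiJ : i ∈ J
        · rw [glue_mem hiJ, glue_mem hiJ]
        · rw [glue_notMem hiJ, glue_notMem hiJ]
          apply hag i _ hiK
          intro h
          exact hiJ (Finset.mem_sdiff.2 ⟨h, hi⟩))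
      (by
        intro ξ ξ'
        have h1 := ih Λ' (K.erase b) hcard' (Finset.erase_subset_erase b hΛK)
          ((Finset.erase_subset _ _).trans hK) (glue J ξ η) (glue J ξ' η') (by
            intro i hi hiK
            have h2 : i ∉ S.Fr Λ := by
              apply hJb i hi
              intro h3
              exact (Finset.mem_erase.1 (hiK b h3)).1 rfl
            have h3 : i ∉ J := fun h => h2 (Finset.mem_sdiff.1 h).1
            rw [glue_notMem h3, glue_notMem h3]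
            exact hag i h2 (fun x hx => (Finset.mem_erase.1 (hiK x hx)).2))
        have h2 := Ch_union (A := A) (ok := ok) n Λ' {c | c ∉ K.erase b} {c | c ∉ K} {b}
          (Phi S μ g δ Λ' (glue J ξ η)) (fun s t => Phi_nonneg S μ g δ _ _ _ _) (by
            intro c hc
            by_cases hcb : c = b
            · exact Or.inr hcb
            · left
              intro h
              exact hc (Finset.mem_erase.2 ⟨hcb, h⟩))
        simp only [ha, he']
        linarith)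
    -- identification of the two integrals
    have hker : ∀ ζ : ι → X, S.ker μ Λ f ζ =
        ∫ ξ, S.ker μ Λ' f (glue J ξ ζ) * dens S μ Λ Λ' ζ ξ ∂P := by
      intro ζ
      rw [ker_ker hF3 S μ hΛ'Λ f hf hfb ζ]
      exact ker_dens S μ hF2 hΛ'Λ (S.ker μ Λ' f) (ker_meas hF5 S μ _ hf hfb)
        (ker_bdd hF5 S μ _ hf hfb) (ker_dep_out hF5 S μ _) ζ
    rw [hker η, hker η']
    refine le_trans hcoup ?_
    -- chains from the outside
    have hA1 : ∫ ξ, a ξ * dens S μ Λ Λ' η ξ ∂P ≤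
        Ch A ok n Λ' {c | c ∉ K} (Phi S μ g δ Λ η) := by
      simp only [ha]
      rw [hCint _ _ hDm hDb]
      apply Ch_mono
      intro s _ _ t
      have := Phi_int hF2 hF3 hF5 S μ g δ hgm hΛ'Λ η s t (dens S μ Λ Λ' η) hDm hD0
        (fun ξ => le_refl _)
      rw [hD1, Real.sqrt_one, one_mul] at this
      exact this
    -- chains from `b`
    set r : (ι → X) → ℝ := fun ξ => dens S μ Λ Λ' η ξ - min (dens S μ Λ Λ' η ξ)
      (dens S μ Λ Λ' η' ξ) with hr
    have hrm : Measurable r := hDm.sub (hDm.min hDm')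
    have hr0 : ∀ ξ, 0 ≤ r ξ := fun ξ => sub_nonneg.2 (min_le_left _ _)
    have hrd : ∀ ξ, r ξ ≤ dens S μ Λ Λ' η ξ := fun ξ => by
      have := le_min (hD0 ξ) (hD0' ξ)
      simp only [hr]
      linarith
    have hrb : ∃ K, ∀ ξ, |r ξ| ≤ K := by
      obtain ⟨D, hD⟩ := hDb
      exact ⟨D, fun ξ => by
        rw [abs_of_nonneg (hr0 ξ)]
        exact le_trans (hrd ξ) (le_trans (le_abs_self _) (hD ξ))⟩
    have hr1 : ∫ ξ, r ξ ∂P ≤ 1 := by
      rw [← hD1]
      exact integral_mono (int_bdd P hrm hrb) (int_bdd P hDm hDb) hrd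
    have hB1 : ∫ ξ, e ξ * (dens S μ Λ Λ' η ξ - min (dens S μ Λ Λ' η ξ)
        (dens S μ Λ Λ' η' ξ)) ∂P ≤
        Ch A ok n Λ' {b} (fun s t => Phi S μ g δ Λ η (insert b s) t) +
        Ch A ok n Λ' {b} (fun s t => Phi S μ g δ Λ η s (t+1)) := by
      have e0 : ∫ ξ, e ξ * (dens S μ Λ Λ' η ξ - min (dens S μ Λ Λ' η ξ)
        (dens S μ Λ Λ' η' ξ)) ∂P = ∫ ξ, e ξ * r ξ ∂P := rfl
      rw [e0]
      simp only [he']
      rw [hCint _ _ hrm hrb]
      have hn1 := Ch_nonneg (A := A) (ok := ok) n Λ' {b}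
        (fun s t => Phi S μ g δ Λ η (insert b s) t) (fun s t => Phi_nonneg S μ g δ _ _ _ _)
      have hn2 := Ch_nonneg (A := A) (ok := ok) n Λ' {b}
        (fun s t => Phi S μ g δ Λ η s (t+1)) (fun s t => Phi_nonneg S μ g δ _ _ _ _)
      by_cases hgood : ∀ τ ∈ S.tms (Nb 1 b), (∀ a ∈ S.bt τ, a ∈ Nb 1 b ∧ a ∉ Λ) → g τ η
      · -- good surroundings
        have hκ : ∫ ξ, r ξ ∂P ≤ δ := by
          set E : Set (ι → X) := {ω | dens S μ Λ Λ' η' ω < dens S μ Λ Λ' η ω} with hE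
          have hEm : MeasurableSet E := measurableSet_lt hDm' hDm
          set F : (ι → X) → ℝ := E.indicator (fun _ => 1) with hF
          have hFm : Measurable F := measurable_const.indicator hEm
          have hF01 : ∀ ω, 0 ≤ F ω ∧ F ω ≤ 1 := by
            intro ω
            by_cases h : ω ∈ E
            · rw [hF, Set.indicator_of_mem h]; exact ⟨zero_le_one, le_refl _⟩
            · rw [hF, Set.indicator_of_notMem h]; exact ⟨le_refl _, zero_le_one⟩
          have hFb : ∃ K, ∀ ω, |F ω| ≤ K := ⟨1, fun ω => by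
            rw [abs_of_nonneg (hF01 ω).1]; exact (hF01 ω).2⟩
          have hFJ : ∀ ω ω' : ι → X, (∀ i ∈ J, ω i = ω' i) → F ω = F ω' := by
            intro ω ω' h
            have h1 : ω ∈ E ↔ ω' ∈ E := by
              simp only [hE, Set.mem_ofPred_eq]
              rw [dens_dep S μ Λ Λ' η ω ω' h, dens_dep S μ Λ Λ' η' ω ω' h]
            by_cases h2 : ω ∈ E
            · rw [hF, Set.indicator_of_mem h2, Set.indicator_of_mem (h1.1 h2)]
            · rw [hF, Set.indicator_of_notMem h2, Set.indicator_of_notMem (fun h3 => h2 (h1.2 h3))]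
          have hFg : ∀ ξ ζ : ι → X, F (glue J ξ ζ) = F ξ := fun ξ ζ =>
            hFJ _ _ (fun i hi => glue_mem hi)
          have hFd1 : Sys.dep {i | i ∉ S.Fr Λ'} F := by
            intro ω ω' h
            apply hFJ
            intro i hi
            exact h i (Finset.mem_sdiff.1 hi).2
          have hFd2 : Sys.dep {i | ∀ a ∈ S.bl i, (a ∈ Nb 2 b ∧ a ∉ Λ) ∨ a = b} F := by
            intro ω ω' h
            apply hFJ
            intro i hi
            apply h
            rw [hJ, Finset.mem_sdiff] at hi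
            have hbi : b ∈ S.bl i := by
              by_contra hbi
              exact hJb i hi.2 hbi hi.1
            intro x hx
            by_cases hxb : x = b
            · exact Or.inr hxb
            · left
              have h1 := S.diam_bl i b hbi x hx
              refine ⟨mem_Nb.2 (near_mono h1 (by norm_num)), ?_⟩
              intro hxΛ
              apply hi.2
              rw [S.mem_Fr]
              exact ⟨x, hx, Finset.mem_erase.2 ⟨hxb, hxΛ⟩⟩
          have h1 := hQ_ext hF3 hF5 S μ g δ hgl hQ b Λ K hb hbK η η' hag hgood F hFm hF01 hFd2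
          rw [ker_dens S μ hF2 hΛ'Λ F hFm hFb hFd1 η, ker_dens S μ hF2 hΛ'Λ F hFm hFb hFd1 η'] at h1
          simp only [← hJ, ← hP, hFg] at h1
          have i1 : Integrable (fun ξ => F ξ * dens S μ Λ Λ' η ξ) P :=
            int_mul_bdd P (int_bdd P hFm hFb) hDm hDb
          have i2 : Integrable (fun ξ => F ξ * dens S μ Λ Λ' η' ξ) P :=
            int_mul_bdd P (int_bdd P hFm hFb) hDm' hDb'
          have e3 : ∫ ξ, r ξ ∂P = ∫ ξ, (F ξ * dens S μ Λ Λ' η ξ - F ξ * dens S μ Λ Λ' η' ξ) ∂P := by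
            congr 1
            funext ξ
            simp only [hr]
            by_cases h2 : ξ ∈ E
            · rw [hF, Set.indicator_of_mem h2, min_eq_right (le_of_lt h2)]
              ring
            · rw [hF, Set.indicator_of_notMem h2, min_eq_left (not_lt.1 h2)]
              ring
          rw [e3, integral_sub i1 i2]
          linarith
        have h2 : Ch A ok n Λ' {b} (fun s t => ∫ ξ, Phi S μ g δ Λ' (glue J ξ η) s t * r ξ ∂P) ≤
            Ch A ok n Λ' {b} (fun s t => Phi S μ g δ Λ η s (t+1)) := by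
          apply Ch_mono
          intro s _ _ t
          have h3 := Phi_int hF2 hF3 hF5 S μ g δ hgm hΛ'Λ η s t r hrm hr0 hrd
          refine le_trans h3 ?_
          have h4 : Phi S μ g δ Λ η s (t+1) = Real.sqrt δ * Phi S μ g δ Λ η s t := by
            unfold Phi
            rw [pow_succ]
            ring
          rw [h4]
          exact mul_le_mul_of_nonneg_right (Real.sqrt_le_sqrt hκ) (Phi_nonneg S μ g δ _ _ _ _)
        linarith
      · -- bad surroundings
        push Not at hgood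
        obtain ⟨τ, hτ, hτ2, hτ3⟩ := hgood
        have hτΛ : τ ∉ S.tms Λ := by
          intro h
          rw [S.mem_tms] at h
          obtain ⟨x, hx, hxΛ⟩ := h
          exact (hτ2 x hx).2 hxΛ
        have hbad : ∀ ξ : ι → X, Bad S g b (glue (S.Fr Λ) ξ η) := by
          intro ξ
          refine ⟨τ, hτ, fun x hx => (hτ2 x hx).1, ?_⟩
          intro h
          apply hτ3
          refine (hgl τ _ _ (fun i hi => ?_)).1 h
          exact glue_notMem (sp_notMem_Fr S hτΛ hi)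
        have h2 : Ch A ok n Λ' {b} (fun s t => ∫ ξ, Phi S μ g δ Λ' (glue J ξ η) s t * r ξ ∂P) ≤
            Ch A ok n Λ' {b} (fun s t => Phi S μ g δ Λ η (insert b s) t) := by
          apply Ch_mono
          intro s _ _ t
          have h3 := Phi_int hF2 hF3 hF5 S μ g δ hgm hΛ'Λ η s t r hrm hr0 hrd
          refine le_trans h3 ?_
          have h4 : Phi S μ g δ Λ η (insert b s) t = Phi S μ g δ Λ η s t := by
            unfold Phi
            congr 2
            apply ker_congr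
            intro ξ
            unfold BB
            by_cases hbs : b ∈ s
            · rw [Finset.insert_eq_of_mem hbs]
            · rw [Finset.prod_insert hbs, ind_true (hbad ξ), one_mul]
          rw [h4]
          have h5 : Real.sqrt (∫ ξ, r ξ ∂P) ≤ 1 := by
            have h6 := Real.sqrt_le_sqrt hr1
            rwa [Real.sqrt_one] at h6
          calc _ ≤ 1 * Phi S μ g δ Λ η s t :=
                mul_le_mul_of_nonneg_right h5 (Phi_nonneg S μ g δ _ _ _ _)
            _ = _ := one_mul _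
        linarith
    have hstep := Ch_step (A := A) (ok := ok) n Λ {c | c ∉ K} (Phi S μ g δ Λ η)
      (fun s t => Phi_nonneg S μ g δ _ _ _ _) b hb ⟨hd, hbK.trans hK⟩
    linarith

end main

end T2H02.TT.PkgX

namespace T2H02.TT

open PkgX

/-- the abstract coupling theorem -/
theorem pX (hF2 : S_F2) (hF3 : S_F3) (hF5 : S_F5) : S_X := by
  intro ι Tm X _ _ _ S μ _ g p δ q hgm hgl hp hQ hp0 hδ hq hδq hpq hq2 A Λ n hA f hf hf1 hfd η η'
  have hfb : ∃ K, ∀ ω, |f ω| ≤ K := ⟨1, hf1⟩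
  have hq1 : q ≤ 1 := by linarith
  rcases Nat.lt_or_ge n 3 with hn | hn
  · -- small radius
    have e0 : n / 3 = 0 := Nat.div_eq_of_lt hn
    rw [e0, pow_zero, mul_one]
    rcases Finset.eq_empty_or_nonempty A with hA0 | hA0
    · have hconst : ∀ ω ω' : ι → X, f ω = f ω' := by
        intro ω ω'
        apply hfd
        intro i hi
        exfalso
        obtain ⟨a, ha⟩ := S.bl_ne i
        have := hi a ha
        rw [hA0] at this
        exact Finset.notMem_empty a this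
      have e1 : ∀ ζ : ι → X, S.ker μ Λ f ζ = f η := by
        intro ζ
        have : f = fun _ => f η := funext (fun ω => hconst ω η)
        rw [this]
        exact ker_const hF5 S μ Λ _ ζ
      rw [e1, e1, sub_self, abs_zero]
      positivity
    · have h1 := ker_abs hF5 S μ (Λ := Λ) 1 f hf hf1 η
      have h2 := ker_abs hF5 S μ (Λ := Λ) 1 f hf hf1 η'
      have h3 := abs_sub (S.ker μ Λ f η) (S.ker μ Λ f η')
      have h4 : (1:ℝ) ≤ A.card := by exact_mod_cast Finset.card_pos.2 hA0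
      linarith
  · have h1 := claim hF2 hF3 hF5 S μ g δ hgm hgl hQ hδ Λ A f hf hf1 hfd Λ.card Λ Λ (le_refl _)
      (Finset.Subset.refl _) (Finset.Subset.refl _) η η' (by
        intro i hi hi2
        exfalso
        obtain ⟨a, ha⟩ := S.bl_ne i
        apply hi
        rw [S.mem_Fr]
        exact ⟨a, ha, hi2 a ha⟩)
    have h2 := Ch_count (A := A) (ok := fun b => Nb 2 b ⊆ Λ) q hq hq2 Λ n hn hA Λ.card
      (PkgX.Phi S μ g δ Λ η) (by
        intro s _ hs t
        have h3 := ker_BB S g hgm hgl hF3 hF5 μ p hp hp0 q hq hq1 hpq Λ s hs η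
        have h4 : Real.sqrt (S.ker μ Λ (BB S g s) η) ≤ q ^ s.card := by
          rw [Real.sqrt_le_left (by positivity)]
          exact h3
        have h5 : Real.sqrt δ ≤ q := by
          rw [Real.sqrt_le_left hq.le]
          exact hδq
        unfold PkgX.Phi
        calc _ ≤ q ^ t * q ^ s.card :=
              mul_le_mul (pow_le_pow_left₀ (Real.sqrt_nonneg _) h5 t) h4 (Real.sqrt_nonneg _)
                (by positivity)
          _ = _ := by ring)
    calc _ ≤ _ := h1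
      _ ≤ 2 * (3 * A.card * (48 * q) ^ (n / 3)) := by linarith
      _ = _ := by ring

end T2H02.TT

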