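import Pool.Agent.T2H02.TT.StmU
import Pool.Agent.T2H02.TT.X

set_option autoImplicit false
set_option linter.unusedSectionVars false
set_option linter.unusedVariables false

/-!
# Package Xu: the coupling theorem with a radius and two kinds of bad labels

The weights of the chains are `√δ ^ t` times the fourth roots of the two kernels. Instead of a maximal
coupling the product of two fourth roots is split, for every chain, by the inequality of the means
with the factor that is optimal one step before (so no joint law is needed), and the kernels are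
regularised by a small constant `θ`, such that they do not vanish.

Auxiliary lemmas are in the namespace `T2H02.TT.PkgXu`; the result is `T2H02.TT.pXu`.
-/

noncomputable section

open MeasureTheory

namespace T2H02.TT.PkgXu

open T2H02.TT T2H02.TT.PkgX

/-! ### chains with three labels -/

/-- admissible next site of a chain -/
def cnd3 (src : Set Pl) (b : Pl) : Prop := ∃ c ∈ src, d3 b c

open Classical in
/-- sum of the weights of the chains -/
def C3 (A : Finset Pl) :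
    ℕ → Finset Pl → Set Pl → (Finset Pl → Finset Pl → ℕ → ℝ) → ℝ
  | 0, _, src, Φ => if emp A src then Φ ∅ ∅ 0 else 0
  | n+1, Γ, src, Φ => (if emp A src then Φ ∅ ∅ 0 else 0) +
      ∑ b ∈ Γ.filter (cnd3 src), (C3 A n (Γ.erase b) {b} (fun s s' t => Φ (insert b s) s' t) +
        C3 A n (Γ.erase b) {b} (fun s s' t => Φ s (insert b s') t) +
        C3 A n (Γ.erase b) {b} (fun s s' t => Φ s s' (t+1)))

variable {A : Finset Pl}

/-- weights are compared on the sets which can occur -/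
lemma C3_mono (n : ℕ) : ∀ (Γ : Finset Pl) (src : Set Pl) (Φ Ψ : Finset Pl → Finset Pl → ℕ → ℝ),
    (∀ s ⊆ Γ, ∀ s' ⊆ Γ, ∀ t, Φ s s' t ≤ Ψ s s' t) → C3 A n Γ src Φ ≤ C3 A n Γ src Ψ := by
  classical
  induction n with
  | zero =>
    intro Γ src Φ Ψ h
    unfold C3
    split_ifs
    · exact h ∅ (Finset.empty_subset _) ∅ (Finset.empty_subset _) 0
    · exact le_refl _
  | succ n ih =>
    intro Γ src Φ Ψ h
    unfold C3
    apply add_le_add
    · split_ifs
      · exact h ∅ (Finset.empty_subset _) ∅ (Finset.empty_subset _) 0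
      · exact le_refl _
    · apply Finset.sum_le_sum
      intro b hb
      rw [Finset.mem_filter] at hb
      have e1 : ∀ s ⊆ Γ.erase b, s ⊆ Γ := fun s hs => hs.trans (Finset.erase_subset _ _)
      have e2 : ∀ s ⊆ Γ.erase b, insert b s ⊆ Γ := fun s hs =>
        Finset.insert_subset hb.1 (e1 s hs)
      apply add_le_add
      · apply add_le_add
        · exact ih _ _ _ _ (fun s hs s' hs' t => h _ (e2 s hs) _ (e1 s' hs') t)
        · exact ih _ _ _ _ (fun s hs s' hs' t => h _ (e1 s hs) _ (e2 s' hs') t)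
      · exact ih _ _ _ _ (fun s hs s' hs' t => h _ (e1 s hs) _ (e1 s' hs') _)

lemma C3_smul (n : ℕ) : ∀ (Γ : Finset Pl) (src : Set Pl) (Φ : Finset Pl → Finset Pl → ℕ → ℝ) (c : ℝ),
    C3 A n Γ src (fun s s' t => c * Φ s s' t) = c * C3 A n Γ src Φ := by
  classical
  induction n with
  | zero =>
    intro Γ src Φ c
    unfold C3
    split_ifs <;> simp
  | succ n ih =>
    intro Γ src Φ c
    unfold C3
    rw [mul_add, Finset.mul_sum]
    congr 1
    · split_ifs <;> simp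
    · apply Finset.sum_congr rfl
      intro b _
      rw [ih, ih, ih, mul_add, mul_add]

lemma C3_add (n : ℕ) : ∀ (Γ : Finset Pl) (src : Set Pl) (Φ Ψ : Finset Pl → Finset Pl → ℕ → ℝ),
    C3 A n Γ src (fun s s' t => Φ s s' t + Ψ s s' t) = C3 A n Γ src Φ + C3 A n Γ src Ψ := by
  classical
  induction n with
  | zero =>
    intro Γ src Φ Ψ
    unfold C3
    split_ifs <;> simp
  | succ n ih =>
    intro Γ src Φ Ψ
    unfold C3
    have e : ∀ b ∈ Γ.filter (cnd3 src),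
        (C3 A n (Γ.erase b) {b} (fun s s' t => Φ (insert b s) s' t + Ψ (insert b s) s' t) +
        C3 A n (Γ.erase b) {b} (fun s s' t => Φ s (insert b s') t + Ψ s (insert b s') t) +
        C3 A n (Γ.erase b) {b} (fun s s' t => Φ s s' (t+1) + Ψ s s' (t+1))) =
        (C3 A n (Γ.erase b) {b} (fun s s' t => Φ (insert b s) s' t) +
        C3 A n (Γ.erase b) {b} (fun s s' t => Φ s (insert b s') t) +
        C3 A n (Γ.erase b) {b} (fun s s' t => Φ s s' (t+1))) +
        (C3 A n (Γ.erase b) {b} (fun s s' t => Ψ (insert b s) s' t) +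
        C3 A n (Γ.erase b) {b} (fun s s' t => Ψ s (insert b s') t) +
        C3 A n (Γ.erase b) {b} (fun s s' t => Ψ s s' (t+1))) := by
      intro b _
      rw [ih, ih, ih]
      ring
    rw [Finset.sum_congr rfl e, Finset.sum_add_distrib]
    split_ifs <;> ring

lemma C3_zero (n : ℕ) (Γ : Finset Pl) (src : Set Pl) :
    C3 A n Γ src (fun _ _ _ => 0) = 0 := by
  have := C3_smul (A := A) n Γ src (fun _ _ _ => 0) 0
  simpa using this

lemma C3_nonneg (n : ℕ) (Γ : Finset Pl) (src : Set Pl) (Φ : Finset Pl → Finset Pl → ℕ → ℝ)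
    (h : ∀ s s' t, 0 ≤ Φ s s' t) : 0 ≤ C3 A n Γ src Φ := by
  rw [← C3_zero (A := A) n Γ src]
  exact C3_mono n Γ src _ _ (fun s _ s' _ t => h s s' t)

lemma C3_Γ (n : ℕ) : ∀ (Γ Γ' : Finset Pl) (src : Set Pl) (Φ : Finset Pl → Finset Pl → ℕ → ℝ),
    (∀ s s' t, 0 ≤ Φ s s' t) → Γ ⊆ Γ' → C3 A n Γ src Φ ≤ C3 A n Γ' src Φ := by
  classical
  induction n with
  | zero => intro Γ Γ' src Φ _ _; unfold C3; exact le_refl _
  | succ n ih =>
    intro Γ Γ' src Φ h hΓ
    unfold C3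
    apply add_le_add_right
    calc _ ≤ ∑ b ∈ Γ.filter (cnd3 src),
            (C3 A n (Γ'.erase b) {b} (fun s s' t => Φ (insert b s) s' t) +
              C3 A n (Γ'.erase b) {b} (fun s s' t => Φ s (insert b s') t) +
              C3 A n (Γ'.erase b) {b} (fun s s' t => Φ s s' (t+1))) := by
          apply Finset.sum_le_sum
          intro b _
          exact add_le_add (add_le_add
            (ih _ _ _ _ (fun s s' t => h _ _ _) (Finset.erase_subset_erase _ hΓ))
            (ih _ _ _ _ (fun s s' t => h _ _ _) (Finset.erase_subset_erase _ hΓ)))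
            (ih _ _ _ _ (fun s s' t => h _ _ _) (Finset.erase_subset_erase _ hΓ))
      _ ≤ _ := by
          apply Finset.sum_le_sum_of_subset_of_nonneg
          · exact Finset.filter_subset_filter _ hΓ
          · intro b _ _
            exact add_nonneg (add_nonneg (C3_nonneg _ _ _ _ (fun s s' t => h _ _ _))
              (C3_nonneg _ _ _ _ (fun s s' t => h _ _ _)))
              (C3_nonneg _ _ _ _ (fun s s' t => h _ _ _))

lemma C3_fuel (n : ℕ) : ∀ (Γ : Finset Pl) (src : Set Pl) (Φ : Finset Pl → Finset Pl → ℕ → ℝ),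
    (∀ s s' t, 0 ≤ Φ s s' t) → C3 A n Γ src Φ ≤ C3 A (n+1) Γ src Φ := by
  classical
  induction n with
  | zero =>
    intro Γ src Φ h
    have : C3 A 0 Γ src Φ = (if emp A src then Φ ∅ ∅ 0 else 0) := by unfold C3; rfl
    rw [this]
    unfold C3
    apply le_add_of_nonneg_right
    apply Finset.sum_nonneg
    intro b _
    exact add_nonneg (add_nonneg (C3_nonneg _ _ _ _ (fun s s' t => h _ _ _))
              (C3_nonneg _ _ _ _ (fun s s' t => h _ _ _)))
              (C3_nonneg _ _ _ _ (fun s s' t => h _ _ _))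
  | succ n ih =>
    intro Γ src Φ h
    rw [C3, C3]
    apply add_le_add_right
    apply Finset.sum_le_sum
    intro b _
    exact add_le_add (add_le_add (ih _ _ _ (fun s s' t => h _ _ _))
      (ih _ _ _ (fun s s' t => h _ _ _))) (ih _ _ _ (fun s s' t => h _ _ _))

lemma cnd3_mono {src C D : Set Pl} (h : ∀ c ∈ src, c ∈ C ∨ c ∈ D) {b : Pl}
    (he : cnd3 src b) : cnd3 C b ∨ cnd3 D b := by
  obtain ⟨c, hc, hn⟩ := he
  rcases h c hc with h1 | h1
  · exact Or.inl ⟨c, h1, hn⟩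
  · exact Or.inr ⟨c, h1, hn⟩

lemma C3_union (n : ℕ) (Γ : Finset Pl) (src C D : Set Pl) (Φ : Finset Pl → Finset Pl → ℕ → ℝ)
    (hΦ : ∀ s s' t, 0 ≤ Φ s s' t) (h : ∀ c ∈ src, c ∈ C ∨ c ∈ D) :
    C3 A n Γ src Φ ≤ C3 A n Γ C Φ + C3 A n Γ D Φ := by
  classical
  have key : (if emp A src then Φ ∅ ∅ 0 else 0) ≤
      (if emp A C then Φ ∅ ∅ 0 else 0) + (if emp A D then Φ ∅ ∅ 0 else 0) := by
    have h0 := hΦ ∅ ∅ 0
    by_cases h1 : emp A src
    · rcases emp_mono h h1 with h2 | h2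
      · rw [if_pos h1, if_pos h2]
        split_ifs <;> linarith
      · rw [if_pos h1, if_pos h2]
        split_ifs <;> linarith
    · rw [if_neg h1]
      split_ifs <;> linarith
  cases n with
  | zero =>
    unfold C3
    exact key
  | succ n =>
    unfold C3
    have key2 : ∀ G : Pl → ℝ, (∀ b, 0 ≤ G b) → ∑ b ∈ Γ.filter (cnd3 src), G b ≤
        ∑ b ∈ Γ.filter (cnd3 C), G b + ∑ b ∈ Γ.filter (cnd3 D), G b := by
      intro G hG
      rw [Finset.sum_filter, Finset.sum_filter, Finset.sum_filter, ← Finset.sum_add_distrib]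
      apply Finset.sum_le_sum
      intro b _
      have hGb := hG b
      by_cases h1 : cnd3 src b
      · rcases cnd3_mono h h1 with h2 | h2
        · rw [if_pos h1, if_pos h2]
          split_ifs <;> linarith
        · rw [if_pos h1, if_pos h2]
          split_ifs <;> linarith
      · rw [if_neg h1]
        split_ifs <;> linarith
    have := key2 (fun b => C3 A n (Γ.erase b) {b} (fun s s' t => Φ (insert b s) s' t) +
        C3 A n (Γ.erase b) {b} (fun s s' t => Φ s (insert b s') t) +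
        C3 A n (Γ.erase b) {b} (fun s s' t => Φ s s' (t+1)))
      (fun b => add_nonneg (add_nonneg (C3_nonneg _ _ _ _ (fun s s' t => hΦ _ _ _))
              (C3_nonneg _ _ _ _ (fun s s' t => hΦ _ _ _)))
              (C3_nonneg _ _ _ _ (fun s s' t => hΦ _ _ _)))
    linarith

lemma C3_step (n : ℕ) (Γ : Finset Pl) (src : Set Pl) (Φ : Finset Pl → Finset Pl → ℕ → ℝ)
    (hΦ : ∀ s s' t, 0 ≤ Φ s s' t) (b : Pl) (hb : b ∈ Γ) (hc : cnd3 src b) :
    C3 A n (Γ.erase b) src Φ + (C3 A n (Γ.erase b) {b} (fun s s' t => Φ (insert b s) s' t) +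
      C3 A n (Γ.erase b) {b} (fun s s' t => Φ s (insert b s') t) +
      C3 A n (Γ.erase b) {b} (fun s s' t => Φ s s' (t+1))) ≤ C3 A (n+1) Γ src Φ := by
  classical
  have h1 := C3_fuel (A := A) n (Γ.erase b) src Φ hΦ
  refine le_trans (add_le_add_left h1 _) ?_
  rw [C3, C3]
  rw [add_assoc]
  apply add_le_add_right
  have h2 : Γ.filter (cnd3 src) = insert b ((Γ.erase b).filter (cnd3 src)) := by
    ext x
    simp only [Finset.mem_filter, Finset.mem_insert, Finset.mem_erase]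
    constructor
    · rintro ⟨h3, h4⟩
      by_cases h5 : x = b
      · exact Or.inl h5
      · exact Or.inr ⟨⟨h5, h3⟩, h4⟩
    · rintro (rfl | ⟨⟨_, h3⟩, h4⟩)
      · exact ⟨hb, hc⟩
      · exact ⟨h3, h4⟩
  rw [h2, Finset.sum_insert (by simp), add_comm]
  apply add_le_add_right
  apply Finset.sum_le_sum
  intro b' _
  exact add_le_add (add_le_add
    (C3_Γ _ _ _ _ _ (fun s s' t => hΦ _ _ _)
      (Finset.erase_subset_erase _ (Finset.erase_subset _ _)))
    (C3_Γ _ _ _ _ _ (fun s s' t => hΦ _ _ _)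
      (Finset.erase_subset_erase _ (Finset.erase_subset _ _))))
    (C3_Γ _ _ _ _ _ (fun s s' t => hΦ _ _ _)
      (Finset.erase_subset_erase _ (Finset.erase_subset _ _)))

/-- chains and integrals commute -/
lemma C3_integral {Ω : Type} [MeasurableSpace Ω] (ν : Measure Ω) (n : ℕ) :
    ∀ (Γ : Finset Pl) (src : Set Pl) (Φ : Ω → Finset Pl → Finset Pl → ℕ → ℝ),
    (∀ s s' t, Integrable (fun ω => Φ ω s s' t) ν) →
    Integrable (fun ω => C3 A n Γ src (Φ ω)) ν ∧
    ∫ ω, C3 A n Γ src (Φ ω) ∂ν = C3 A n Γ src (fun s s' t => ∫ ω, Φ ω s s' t ∂ν) := by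
  classical
  induction n with
  | zero =>
    intro Γ src Φ h
    unfold C3
    split_ifs
    · exact ⟨h _ _ _, rfl⟩
    · exact ⟨integrable_zero _ _ _, by simp⟩
  | succ n ih =>
    intro Γ src Φ h
    have e0 : Integrable (fun ω => if emp A src then Φ ω ∅ ∅ 0 else 0) ν ∧
        ∫ ω, (if emp A src then Φ ω ∅ ∅ 0 else 0) ∂ν =
          if emp A src then ∫ ω, Φ ω ∅ ∅ 0 ∂ν else 0 := by
      split_ifs
      · exact ⟨h _ _ _, rfl⟩
      · exact ⟨integrable_zero _ _ _, by simp⟩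
    have e1 : ∀ b, Integrable (fun ω =>
        C3 A n (Γ.erase b) {b} (fun s s' t => Φ ω (insert b s) s' t) +
        C3 A n (Γ.erase b) {b} (fun s s' t => Φ ω s (insert b s') t) +
        C3 A n (Γ.erase b) {b} (fun s s' t => Φ ω s s' (t+1))) ν ∧
        ∫ ω, (C3 A n (Γ.erase b) {b} (fun s s' t => Φ ω (insert b s) s' t) +
        C3 A n (Γ.erase b) {b} (fun s s' t => Φ ω s (insert b s') t) +
        C3 A n (Γ.erase b) {b} (fun s s' t => Φ ω s s' (t+1))) ∂ν =
        C3 A n (Γ.erase b) {b} (fun s s' t => ∫ ω, Φ ω (insert b s) s' t ∂ν) +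
        C3 A n (Γ.erase b) {b} (fun s s' t => ∫ ω, Φ ω s (insert b s') t ∂ν) +
        C3 A n (Γ.erase b) {b} (fun s s' t => ∫ ω, Φ ω s s' (t+1) ∂ν) := by
      intro b
      have a1 := ih (Γ.erase b) {b} (fun ω s s' t => Φ ω (insert b s) s' t)
        (fun s s' t => h _ _ _)
      have a2 := ih (Γ.erase b) {b} (fun ω s s' t => Φ ω s (insert b s') t)
        (fun s s' t => h _ _ _)
      have a3 := ih (Γ.erase b) {b} (fun ω s s' t => Φ ω s s' (t+1)) (fun s s' t => h _ _ _)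
      have a12 : Integrable (fun ω =>
        C3 A n (Γ.erase b) {b} (fun s s' t => Φ ω (insert b s) s' t) +
        C3 A n (Γ.erase b) {b} (fun s s' t => Φ ω s (insert b s') t)) ν := a1.1.add a2.1
      refine ⟨a12.add a3.1, ?_⟩
      rw [integral_add a12 a3.1, integral_add a1.1 a2.1, a1.2, a2.2, a3.2]
    have e2 := integrable_finsetSum (Γ.filter (cnd3 src)) (fun b _ => (e1 b).1)
    unfold C3
    refine ⟨e0.1.add e2, ?_⟩
    rw [integral_add e0.1 e2, integral_finsetSum _ (fun b _ => (e1 b).1), e0.2]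
    congr 1
    apply Finset.sum_congr rfl
    intro b _
    exact (e1 b).2

/-- a chain functional started at `b` is bounded by walks -/
lemma C3_le_wk (q : ℝ) (hq : 0 ≤ q) (O : Finset Pl) (n : ℕ) :
    ∀ (Γ : Finset Pl) (b : Pl) (Φ : Finset Pl → Finset Pl → ℕ → ℝ) (K : ℝ), 0 ≤ K →
    (∀ x ∈ Γ, x ∈ O) →
    (∀ s ⊆ Γ, ∀ s' ⊆ Γ, ∀ t, Φ s s' t ≤ K * q ^ (s.card + s'.card + t)) →
    C3 A n Γ {b} Φ ≤ K * ∑ j ∈ Finset.range (n+1), (3 * q) ^ j * wk A O j b := by
  classical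
  induction n with
  | zero =>
    intro Γ b Φ K hK hO h
    unfold C3
    rw [zero_add, Finset.sum_range_one, pow_zero, one_mul]
    unfold wk
    have := h ∅ (Finset.empty_subset _) ∅ (Finset.empty_subset _) 0
    simp only [Finset.card_empty, add_zero, pow_zero, mul_one] at this
    split_ifs
    · linarith
    · simp
  | succ n ih =>
    intro Γ b Φ K hK hO h
    have h0 : (if emp A {b} then Φ ∅ ∅ 0 else 0) ≤ K * wk A O 0 b := by
      unfold wk
      have := h ∅ (Finset.empty_subset _) ∅ (Finset.empty_subset _) 0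
      simp only [Finset.card_empty, add_zero, pow_zero, mul_one] at this
      split_ifs
      · linarith
      · simp
    unfold C3
    rw [Finset.sum_range_succ' _ (n+1)]
    rw [pow_zero, one_mul, mul_add, add_comm]
    refine add_le_add ?_ h0
    have h1 : ∀ b' ∈ Γ.filter (cnd3 {b}),
        (C3 A n (Γ.erase b') {b'} (fun s s' t => Φ (insert b' s) s' t) +
        C3 A n (Γ.erase b') {b'} (fun s s' t => Φ s (insert b' s') t) +
        C3 A n (Γ.erase b') {b'} (fun s s' t => Φ s s' (t+1))) ≤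
        K * (3 * q) * ∑ j ∈ Finset.range (n+1), (3 * q) ^ j * wk A O j b' := by
      intro b' hb'
      rw [Finset.mem_filter] at hb'
      have f1 : ∀ s ⊆ Γ.erase b', s ⊆ Γ := fun s hs => hs.trans (Finset.erase_subset _ _)
      have f2 : ∀ s ⊆ Γ.erase b', insert b' s ⊆ Γ := fun s hs =>
        Finset.insert_subset hb'.1 (f1 s hs)
      have f3 : ∀ s ⊆ Γ.erase b', (insert b' s).card = s.card + 1 := fun s hs =>
        Finset.card_insert_of_notMem (fun h3 => (Finset.notMem_erase b' Γ) (hs h3))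
      have hO' : ∀ x ∈ Γ.erase b', x ∈ O := fun x hx => hO x (Finset.mem_of_mem_erase hx)
      have a1 := ih (Γ.erase b') b' (fun s s' t => Φ (insert b' s) s' t) (K * q)
        (mul_nonneg hK hq) hO' (by
          intro s hs s' hs' t
          have := h (insert b' s) (f2 s hs) s' (f1 s' hs') t
          rw [f3 s hs] at this
          calc _ ≤ _ := this
            _ = _ := by ring)
      have a2 := ih (Γ.erase b') b' (fun s s' t => Φ s (insert b' s') t) (K * q)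
        (mul_nonneg hK hq) hO' (by
          intro s hs s' hs' t
          have := h s (f1 s hs) (insert b' s') (f2 s' hs') t
          rw [f3 s' hs'] at this
          calc _ ≤ _ := this
            _ = _ := by ring)
      have a3 := ih (Γ.erase b') b' (fun s s' t => Φ s s' (t+1)) (K * q)
        (mul_nonneg hK hq) hO' (by
          intro s hs s' hs' t
          have := h s (f1 s hs) s' (f1 s' hs') (t+1)
          calc _ ≤ _ := this
            _ = _ := by ring)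
      calc _ ≤ _ := add_le_add (add_le_add a1 a2) a3
        _ = _ := by ring
    refine le_trans (Finset.sum_le_sum h1) ?_
    have h2 : Γ.filter (cnd3 {b}) ⊆ O.filter (fun b' => d3 b' b) := by
      intro x hx
      rw [Finset.mem_filter] at *
      obtain ⟨hx1, c, hc, hd⟩ := hx
      rw [Set.mem_singleton_iff] at hc
      subst hc
      exact ⟨hO x hx1, hd⟩
    refine le_trans (Finset.sum_le_sum_of_subset_of_nonneg h2 ?_) ?_
    · intro x _ _
      apply mul_nonneg (by positivity)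
      exact Finset.sum_nonneg (fun j _ => mul_nonneg (by positivity) (wk_nonneg O j x))
    · rw [← Finset.mul_sum, Finset.sum_comm]
      rw [mul_assoc]
      apply mul_le_mul_of_nonneg_left _ hK
      rw [Finset.mul_sum]
      apply Finset.sum_le_sum
      intro j _
      rw [← Finset.mul_sum]
      conv_rhs => rw [wk]
      rw [pow_succ]
      apply le_of_eq
      ring

/-- the counting bound for the chains started outside the region `L` -/
lemma C3_count (q : ℝ) (hq : 0 < q) (hq2 : 72 * q ≤ 1 / 2) (L : Finset Pl) (n : ℕ) (hn : 3 ≤ n)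
    (hA : ∀ a ∈ A, Nb n a ⊆ L) (N : ℕ) (Φ : Finset Pl → Finset Pl → ℕ → ℝ)
    (h : ∀ s ⊆ L, ∀ s' ⊆ L, ∀ t, Φ s s' t ≤ 11 / 10 * q ^ (s.card + s'.card + t)) :
    C3 A N L {c | c ∉ L} Φ ≤ 3 * A.card * (72 * q) ^ (n / 3) := by
  classical
  have hfar : ∀ a ∈ A, ∀ c, c ∉ L → ¬ near n a c := by
    intro a ha c hc hnn
    exact hc (hA a ha (PkgX.mem_Nb.2 hnn))
  have hemp : ¬ emp A {c | c ∉ L} := by
    rintro ⟨a, ha, c, hc, hn2⟩
    exact hfar a ha c hc (near_mono hn2 (by exact_mod_cast (by omega : 2 ≤ n)))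
  have hR : 0 ≤ 3 * (A.card : ℝ) * (72 * q) ^ (n / 3) := by positivity
  cases N with
  | zero =>
    unfold C3
    rw [if_neg hemp]
    exact hR
  | succ N =>
    unfold C3
    rw [if_neg hemp, zero_add]
    have h1 : ∀ b ∈ L.filter (cnd3 {c | c ∉ L}),
        (C3 A N (L.erase b) {b} (fun s s' t => Φ (insert b s) s' t) +
        C3 A N (L.erase b) {b} (fun s s' t => Φ s (insert b s') t) +
        C3 A N (L.erase b) {b} (fun s s' t => Φ s s' (t+1))) ≤
        ∑ j ∈ Finset.range (N+1), 11 / 10 * ((3 * q) ^ (j+1) * wk A L j b) := by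
      intro b' hb'
      rw [Finset.mem_filter] at hb'
      have hsub : ∀ x ∈ L.erase b', x ∈ L := fun x hx => Finset.mem_of_mem_erase hx
      have f1 : ∀ s ⊆ L.erase b', s ⊆ L := fun s hs => hs.trans (Finset.erase_subset _ _)
      have f2 : ∀ s ⊆ L.erase b', insert b' s ⊆ L := fun s hs =>
        Finset.insert_subset hb'.1 (f1 s hs)
      have f3 : ∀ s ⊆ L.erase b', (insert b' s).card = s.card + 1 := fun s hs =>
        Finset.card_insert_of_notMem (fun h3 => (Finset.notMem_erase b' L) (hs h3))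
      have hK : (0 : ℝ) ≤ 11 / 10 * q := by positivity
      have a1 := C3_le_wk (A := A) q hq.le L N (L.erase b') b'
        (fun s s' t => Φ (insert b' s) s' t) (11 / 10 * q) hK hsub (by
          intro s hs s' hs' t
          have := h (insert b' s) (f2 s hs) s' (f1 s' hs') t
          rw [f3 s hs] at this
          calc _ ≤ _ := this
            _ = _ := by ring)
      have a2 := C3_le_wk (A := A) q hq.le L N (L.erase b') b'
        (fun s s' t => Φ s (insert b' s') t) (11 / 10 * q) hK hsub (by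
          intro s hs s' hs' t
          have := h s (f1 s hs) (insert b' s') (f2 s' hs') t
          rw [f3 s' hs'] at this
          calc _ ≤ _ := this
            _ = _ := by ring)
      have a3 := C3_le_wk (A := A) q hq.le L N (L.erase b') b'
        (fun s s' t => Φ s s' (t+1)) (11 / 10 * q) hK hsub (by
          intro s hs s' hs' t
          have := h s (f1 s hs) s' (f1 s' hs') (t+1)
          calc _ ≤ _ := this
            _ = _ := by ring)
      calc _ ≤ _ := add_le_add (add_le_add a1 a2) a3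
        _ = 11 / 10 * (3 * q) * ∑ j ∈ Finset.range (N+1), (3 * q) ^ j * wk A L j b' := by ring
        _ = _ := by
            rw [Finset.mul_sum]
            apply Finset.sum_congr rfl
            intro j _
            ring
    refine le_trans (Finset.sum_le_sum h1) ?_
    rw [Finset.sum_comm]
    have h2 : ∀ j ∈ Finset.range (N+1),
        ∑ b ∈ L.filter (cnd3 {c | c ∉ L}), 11 / 10 * ((3 * q) ^ (j+1) * wk A L j b) ≤
        (275 / 240) * A.card * (if n / 3 ≤ j + 1 then (72 * q) ^ (j+1) else 0) := by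
      intro j _
      by_cases hj : n / 3 ≤ j + 1
      · rw [if_pos hj, ← Finset.mul_sum, ← Finset.mul_sum]
        have h3 : ∑ b ∈ L.filter (cnd3 {c | c ∉ L}), wk A L j b ≤ ∑ b ∈ L, wk A L j b := by
          apply Finset.sum_le_sum_of_subset_of_nonneg
          · intro x hx
            rw [Finset.mem_filter] at hx
            exact hx.1
          · intro x _ _
            exact wk_nonneg L j x
        have h4 := le_trans h3 (wk_sum L j)
        calc _ ≤ 11 / 10 * ((3 * q) ^ (j+1) * (25 * A.card * 24 ^ j)) := by gcongr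
          _ = _ := by
            have : (72 * q) ^ (j+1) = (3 * q) ^ (j+1) * 24 ^ (j+1) := by
              rw [← mul_pow]; congr 1; ring
            rw [this, pow_succ 24 j]
            ring
      · rw [if_neg hj, mul_zero]
        apply le_of_eq
        apply Finset.sum_eq_zero
        intro b hb
        rw [Finset.mem_filter] at hb
        obtain ⟨_, c, hc, hd⟩ := hb
        by_cases hw : wk A L j b = 0
        · rw [hw, mul_zero, mul_zero]
        · exfalso
          obtain ⟨a, ha, hn1⟩ := wk_supp L j b hw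
          have h5 := near_trans hn1 hd.1
          refine hfar a ha c hc (near_mono h5 ?_)
          have h6 : 3 * j + 5 ≤ n := by omega
          have h7 : ((3 * j + 5 : ℕ) : ℤ) ≤ (n : ℤ) := by exact_mod_cast h6
          push_cast at h7
          linarith
    refine le_trans (Finset.sum_le_sum h2) ?_
    rw [← Finset.mul_sum]
    have h8 := geo (72 * q) (by positivity) hq2 (n / 3) (by omega) (N+1)
    have h9 : 0 < 2 * (72 * q) ^ (max (n / 3) (N + 1 + 1)) := by positivity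
    have h10 : (∑ j ∈ Finset.range (N+1), if n / 3 ≤ j + 1 then (72 * q) ^ (j+1) else 0) ≤
        2 * (72 * q) ^ (n / 3) := by linarith
    have h11 : 0 ≤ (275 / 240) * (A.card : ℝ) := by positivity
    have h12 := mul_le_mul_of_nonneg_left h10 h11
    have h13 : 0 ≤ (A.card : ℝ) * (72 * q) ^ (n / 3) := by positivity
    nlinarith [h12, h13]

end T2H02.TT.PkgXu

namespace T2H02.TT.PkgXu

open T2H02.TT T2H02.TT.PkgX

/-! ### the coupling inequality with both kinds of errors -/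

section prob

variable {Ω : Type} [MeasurableSpace Ω] (P : Measure Ω) [IsProbabilityMeasure P]

lemma coupling2_one (u u' a a' e e' ρ ρ' : Ω → ℝ) (hu : Measurable u) (hu' : Measurable u')
    (hub : ∃ K, ∀ x, |u x| ≤ K) (hub' : ∃ K, ∀ x, |u' x| ≤ K) (ha : Integrable a P)
    (ha' : Integrable a' P) (he : Integrable e P) (he' : Integrable e' P)
    (ha0 : ∀ x, 0 ≤ a' x) (he0 : ∀ x, 0 ≤ e' x)
    (hρm : Measurable ρ) (hρm' : Measurable ρ') (hρb : ∃ K, ∀ x, |ρ x| ≤ K)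
    (hρb' : ∃ K, ∀ x, |ρ' x| ≤ K)
    (hρ : ∀ x, 0 ≤ ρ x) (hρ' : ∀ x, 0 ≤ ρ' x) (h1 : ∫ x, ρ x ∂P = 1) (h1' : ∫ x, ρ' x ∂P = 1)
    (hd : ∀ x, u x - u' x ≤ 2 * (a x + a' x))
    (hd2 : ∀ x y, u x - u' y ≤ 2 * (a x + e x + (a' y + e' y))) :
    ∫ x, u x * ρ x ∂P - ∫ x, u' x * ρ' x ∂P ≤
      2 * (∫ x, a x * ρ x ∂P + ∫ x, a' x * ρ' x ∂P) +
      2 * (∫ x, e x * (ρ x - min (ρ x) (ρ' x)) ∂P +
        ∫ x, e' x * (ρ' x - min (ρ x) (ρ' x)) ∂P) := by
  obtain ⟨R, hR⟩ := hρb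
  obtain ⟨R', hR'⟩ := hρb'
  obtain ⟨U, hU⟩ := hub
  obtain ⟨U', hU'⟩ := hub'
  set m : Ω → ℝ := fun x => min (ρ x) (ρ' x) with hm
  have hmm : Measurable m := hρm.min hρm'
  have hm0 : ∀ x, 0 ≤ m x := fun x => le_min (hρ x) (hρ' x)
  have hmR : ∀ x, |m x| ≤ R := fun x => by
    rw [abs_of_nonneg (hm0 x)]
    exact le_trans (min_le_left _ _) (le_trans (le_abs_self _) (hR x))
  have hr0 : ∀ x, 0 ≤ ρ x - m x := fun x => sub_nonneg.2 (min_le_left _ _)
  have hr0' : ∀ x, 0 ≤ ρ' x - m x := fun x => sub_nonneg.2 (min_le_right _ _)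
  have hrm : Measurable (fun x => ρ x - m x) := hρm.sub hmm
  have hrm' : Measurable (fun x => ρ' x - m x) := hρm'.sub hmm
  have hrR : ∀ x, |ρ x - m x| ≤ R := fun x => by
    rw [abs_of_nonneg (hr0 x)]
    have := hm0 x
    have := le_trans (le_abs_self _) (hR x)
    linarith
  have hrR' : ∀ x, |ρ' x - m x| ≤ R' := fun x => by
    rw [abs_of_nonneg (hr0' x)]
    have := hm0 x
    have := le_trans (le_abs_self _) (hR' x)
    linarith
  have iu : Integrable u P := int_bdd P hu ⟨U, hU⟩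
  have iu' : Integrable u' P := int_bdd P hu' ⟨U', hU'⟩
  have iρ : Integrable ρ P := int_bdd P hρm ⟨R, hR⟩
  have iρ' : Integrable ρ' P := int_bdd P hρm' ⟨R', hR'⟩
  have im : Integrable m P := int_bdd P hmm ⟨R, hmR⟩
  have ir : Integrable (fun x => ρ x - m x) P := iρ.sub im
  have ir' : Integrable (fun x => ρ' x - m x) P := iρ'.sub im
  have ium := int_mul_bdd P iu hmm ⟨R, hmR⟩
  have iu'm := int_mul_bdd P iu' hmm ⟨R, hmR⟩
  have iur := int_mul_bdd P iu hrm ⟨R, hrR⟩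
  have iu'r' := int_mul_bdd P iu' hrm' ⟨R', hrR'⟩
  have iam := int_mul_bdd P ha hmm ⟨R, hmR⟩
  have iam' := int_mul_bdd P ha' hmm ⟨R, hmR⟩
  have iar := int_mul_bdd P ha hrm ⟨R, hrR⟩
  have iar' := int_mul_bdd P ha' hrm' ⟨R', hrR'⟩
  have ier := int_mul_bdd P he hrm ⟨R, hrR⟩
  have ier' := int_mul_bdd P he' hrm' ⟨R', hrR'⟩
  -- the common mass
  set κ : ℝ := ∫ x, (ρ x - m x) ∂P with hκ
  have hκ2 : ∫ x, (ρ' x - m x) ∂P = κ := by
    rw [hκ, integral_sub iρ im, integral_sub iρ' im, h1, h1']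
  -- splitting
  have e1 : ∫ x, u x * ρ x ∂P = ∫ x, u x * m x ∂P + ∫ x, u x * (ρ x - m x) ∂P := by
    rw [← integral_add ium iur]
    apply integral_congr_ae
    exact Filter.Eventually.of_forall (fun x => by simp only; ring)
  have e2 : ∫ x, u' x * ρ' x ∂P = ∫ x, u' x * m x ∂P + ∫ x, u' x * (ρ' x - m x) ∂P := by
    rw [← integral_add iu'm iu'r']
    apply integral_congr_ae
    exact Filter.Eventually.of_forall (fun x => by simp only; ring)
  have e3 : ∫ x, a x * ρ x ∂P = ∫ x, a x * m x ∂P + ∫ x, a x * (ρ x - m x) ∂P := by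
    rw [← integral_add iam iar]
    apply integral_congr_ae
    exact Filter.Eventually.of_forall (fun x => by simp only; ring)
  have e4 : ∫ x, a' x * ρ' x ∂P = ∫ x, a' x * m x ∂P + ∫ x, a' x * (ρ' x - m x) ∂P := by
    rw [← integral_add iam' iar']
    apply integral_congr_ae
    exact Filter.Eventually.of_forall (fun x => by simp only; ring)
  have iaa : Integrable (fun x => 2 * (a x * m x) + 2 * (a' x * m x)) P :=
    (iam.const_mul 2).add (iam'.const_mul 2)
  have b1 : ∫ x, u x * m x ∂P ≤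
      ∫ x, (u' x * m x + (2 * (a x * m x) + 2 * (a' x * m x))) ∂P := by
    apply integral_mono ium (iu'm.add iaa)
    intro x
    have h3 := mul_le_mul_of_nonneg_right (hd x) (hm0 x)
    simp only [Pi.add_apply]
    linarith
  rw [integral_add iu'm iaa,
    integral_add (iam.const_mul 2) (iam'.const_mul 2), integral_const_mul, integral_const_mul] at b1
  -- the barrier
  obtain ⟨x0⟩ : Nonempty Ω := by
    by_contra hne
    rw [not_nonempty_iff] at hne
    have h2 : (P Set.univ) = 0 := by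
      rw [Set.univ_eq_empty_iff.2 hne]
      exact measure_empty
    rw [measure_univ] at h2
    exact one_ne_zero h2
  have : Nonempty Ω := ⟨x0⟩
  set V : ℝ := ⨅ y, (u' y + 2 * (a' y + e' y)) with hV
  have hbdd : BddBelow (Set.range (fun y => u' y + 2 * (a' y + e' y))) := ⟨-U', by
    rintro _ ⟨y, rfl⟩
    have h2 := (abs_le.1 (hU' y)).1
    have h3 := ha0 y
    have h4 := he0 y
    simp only
    linarith⟩
  have hV1 : ∀ y, V ≤ u' y + 2 * (a' y + e' y) := fun y => ciInf_le hbdd y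
  have hV2 : ∀ x, u x - 2 * (a x + e x) ≤ V := fun x => by
    apply le_ciInf
    intro y
    have := hd2 x y
    linarith
  have iae : Integrable (fun x => 2 * (a x * (ρ x - m x)) + 2 * (e x * (ρ x - m x))) P :=
    (iar.const_mul 2).add (ier.const_mul 2)
  have iae' : Integrable (fun x => 2 * (a' x * (ρ' x - m x)) + 2 * (e' x * (ρ' x - m x))) P :=
    (iar'.const_mul 2).add (ier'.const_mul 2)
  have b2 : ∫ x, u x * (ρ x - m x) ∂P ≤
      ∫ x, (V * (ρ x - m x) + (2 * (a x * (ρ x - m x)) + 2 * (e x * (ρ x - m x)))) ∂P := by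
    apply integral_mono iur ((ir.const_mul V).add iae)
    intro x
    have h3 := mul_le_mul_of_nonneg_right (hV2 x) (hr0 x)
    simp only [Pi.add_apply]
    linarith
  rw [integral_add (ir.const_mul V) iae,
    integral_add (iar.const_mul 2) (ier.const_mul 2), integral_const_mul, integral_const_mul,
    integral_const_mul] at b2
  have b3 : ∫ x, V * (ρ' x - m x) ∂P ≤ ∫ x, (u' x * (ρ' x - m x) +
      (2 * (a' x * (ρ' x - m x)) + 2 * (e' x * (ρ' x - m x)))) ∂P := by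
    apply integral_mono (ir'.const_mul V) (iu'r'.add iae')
    intro x
    have h3 := mul_le_mul_of_nonneg_right (hV1 x) (hr0' x)
    simp only [Pi.add_apply]
    linarith
  rw [integral_const_mul, hκ2, integral_add iu'r' iae',
    integral_add (iar'.const_mul 2) (ier'.const_mul 2), integral_const_mul,
    integral_const_mul] at b3
  rw [e1, e2, e3, e4]
  linarith

lemma coupling2 (u u' a a' e e' ρ ρ' : Ω → ℝ) (hu : Measurable u) (hu' : Measurable u')
    (hub : ∃ K, ∀ x, |u x| ≤ K) (hub' : ∃ K, ∀ x, |u' x| ≤ K) (ha : Integrable a P)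
    (ha' : Integrable a' P) (he : Integrable e P) (he' : Integrable e' P)
    (ha0 : ∀ x, 0 ≤ a x) (he0 : ∀ x, 0 ≤ e x)
    (ha0' : ∀ x, 0 ≤ a' x) (he0' : ∀ x, 0 ≤ e' x)
    (hρm : Measurable ρ) (hρm' : Measurable ρ') (hρb : ∃ K, ∀ x, |ρ x| ≤ K)
    (hρb' : ∃ K, ∀ x, |ρ' x| ≤ K)
    (hρ : ∀ x, 0 ≤ ρ x) (hρ' : ∀ x, 0 ≤ ρ' x) (h1 : ∫ x, ρ x ∂P = 1) (h1' : ∫ x, ρ' x ∂P = 1)
    (hd : ∀ x, |u x - u' x| ≤ 2 * (a x + a' x))
    (hd2 : ∀ x y, |u x - u' y| ≤ 2 * (a x + e x + (a' y + e' y))) :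
    |∫ x, u x * ρ x ∂P - ∫ x, u' x * ρ' x ∂P| ≤
      2 * (∫ x, a x * ρ x ∂P + ∫ x, a' x * ρ' x ∂P) +
      2 * (∫ x, e x * (ρ x - min (ρ x) (ρ' x)) ∂P +
        ∫ x, e' x * (ρ' x - min (ρ x) (ρ' x)) ∂P) := by
  rw [abs_sub_le_iff]
  constructor
  · exact coupling2_one P u u' a a' e e' ρ ρ' hu hu' hub hub' ha ha' he he' ha0' he0' hρm hρm' hρb
      hρb' hρ hρ' h1 h1' (fun x => (le_abs_self _).trans (hd x))
      (fun x y => (le_abs_self _).trans (hd2 x y))
  · have := coupling2_one P u' u a' a e' e ρ' ρ hu' hu hub' hub ha' ha he' he ha0 he0 hρm' hρm hρb'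
      hρb hρ' hρ h1' h1
      (fun x => by
        have h := hd x
        rw [abs_sub_comm] at h
        have := (le_abs_self _).trans h
        linarith)
      (fun x y => by
        have h := hd2 y x
        rw [abs_sub_comm] at h
        have := (le_abs_self _).trans h
        linarith)
    simp only [min_comm (ρ' _) (ρ _)] at this
    linarith

end prob

/-! ### fourth roots -/

/-- the fourth root -/
def qr (x : ℝ) : ℝ := Real.sqrt (Real.sqrt x)

lemma qr_nonneg (x : ℝ) : 0 ≤ qr x := Real.sqrt_nonneg _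

lemma qr_pos {x : ℝ} (h : 0 < x) : 0 < qr x := Real.sqrt_pos.2 (Real.sqrt_pos.2 h)

lemma qr_sq (x : ℝ) : qr x ^ 2 = Real.sqrt x := Real.sq_sqrt (Real.sqrt_nonneg x)

lemma qr_amgm (x y c : ℝ) (hc : 0 < c) :
    qr x * qr y ≤ c / 2 * Real.sqrt x + 1 / (2 * c) * Real.sqrt y := by
  rw [← qr_sq x, ← qr_sq y]
  have h : 0 ≤ (c * qr x - qr y) ^ 2 / (2 * c) := by positivity
  have e : (c * qr x - qr y) ^ 2 / (2 * c) =
      c / 2 * qr x ^ 2 + 1 / (2 * c) * qr y ^ 2 - qr x * qr y := by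
    field_simp
    ring
  linarith

lemma qr_opt {x y : ℝ} (hx : 0 < x) (hy : 0 < y) :
    (qr y / qr x) / 2 * Real.sqrt x + 1 / (2 * (qr y / qr x)) * Real.sqrt y = qr x * qr y := by
  have h1 := qr_pos hx
  have h2 := qr_pos hy
  rw [← qr_sq x, ← qr_sq y]
  field_simp
  ring

lemma qr_le {x y : ℝ} (hy : 0 ≤ y) (h : x ≤ y ^ 4) : qr x ≤ y := by
  unfold qr
  rw [Real.sqrt_le_left hy, Real.sqrt_le_left (by positivity)]
  calc x ≤ y ^ 4 := h
    _ = (y ^ 2) ^ 2 := by ring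

/-! ### the bad squares -/

variable {ι Tm X : Type} [DecidableEq ι] [DecidableEq Tm] [MeasurableSpace X]

section bad

variable (S : Sys ι Tm X) (g : Tm → (ι → X) → Prop) (sr : ℕ)

/-- product of the indicators of bad squares -/
def Bp (T : Finset Pl) (ω : ι → X) : ℝ := ∏ b ∈ T, ind (Bads S g sr b ω)

lemma Bp_nonneg (T : Finset Pl) (ω : ι → X) : 0 ≤ Bp S g sr T ω :=
  Finset.prod_nonneg (fun _ _ => ind_nonneg _)

lemma Bp_le (T : Finset Pl) (ω : ι → X) : Bp S g sr T ω ≤ 1 :=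
  Finset.prod_le_one (fun _ _ => ind_nonneg _) (fun _ _ => ind_le _)

lemma Bp_abs (T : Finset Pl) (ω : ι → X) : |Bp S g sr T ω| ≤ 1 := by
  rw [abs_of_nonneg (Bp_nonneg S g sr T ω)]
  exact Bp_le S g sr T ω

variable (hgm : ∀ τ, MeasurableSet {ω | g τ ω})

include hgm in
lemma bads_meas (b : Pl) : Measurable (fun ω => ind (Bads S g sr b ω)) := by
  unfold ind
  refine Measurable.ite ?_ measurable_const measurable_const
  have : {ω | Bads S g sr b ω} = ⋃ τ ∈ S.tms (Nb sr b),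
      ({_ω | ∀ a ∈ S.bt τ, a ∈ Nb sr b} ∩ {ω | g τ ω}ᶜ) := by
    ext ω
    simp only [Bads, Set.mem_ofPred_eq, Set.mem_iUnion, Set.mem_inter_iff, Set.mem_compl_iff,
      exists_prop]
  rw [this]
  apply Finset.measurableSet_biUnion
  intro τ _
  exact (MeasurableSet.const _).inter (hgm τ).compl

include hgm in
lemma Bp_meas (T : Finset Pl) : Measurable (Bp S g sr T) :=
  Finset.measurable_fun_prod _ (fun b _ => bads_meas S g sr hgm b)

variable (hgl : ∀ τ ω ω', (∀ i ∈ S.sp τ, ω i = ω' i) → (g τ ω ↔ g τ ω'))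

include hgl in
lemma bads_dep (b : Pl) (ω ω' : ι → X) (h : ∀ i, (∀ a ∈ S.bl i, a ∈ Nb sr b) → ω i = ω' i) :
    Bads S g sr b ω ↔ Bads S g sr b ω' := by
  unfold Bads
  apply exists_congr
  intro τ
  apply and_congr_right
  intro _
  apply and_congr_right
  intro h2
  apply not_congr
  apply hgl
  intro i hi
  apply h
  intro a ha
  exact h2 a ((S.bt_iff τ a).2 ⟨i, hi, ha⟩)

variable (hF3 : S_F3) (hF5 : S_F5) (μ : Measure X) [IsProbabilityMeasure μ] (p : ℝ)
  (hp : ∀ b η, S.ker μ (Nb (2 * sr) b) (fun ω => ind (Bads S g sr b ω)) η ≤ p)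

include hgm hgl hF3 hF5 hp in
lemma ker_Bp_class (hp0 : 0 < p) (L : Finset Pl) (s : Finset Pl) :
    (∀ b ∈ s, Nb (2 * sr) b ⊆ L) →
    (∀ b ∈ s, ∀ b' ∈ s, b ≠ b' → ¬ near ((3 * sr : ℕ) : ℤ) b b') →
    ∀ η, S.ker μ L (Bp S g sr s) η ≤ p ^ s.card := by
  classical
  induction s using Finset.induction_on with
  | empty =>
    intro _ _ η
    have : Bp S g sr ∅ = fun _ => 1 := by
      funext ω
      unfold Bp
      rw [Finset.prod_empty]
    rw [this, ker_const hF5 S μ L 1 η]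
    simp
  | insert b₀ s hb₀ ih =>
    intro h1 h2 η
    have ih' := ih (fun b hb => h1 b (Finset.mem_insert_of_mem hb))
      (fun b hb b' hb' => h2 b (Finset.mem_insert_of_mem hb) b' (Finset.mem_insert_of_mem hb')) η
    have e1 : Bp S g sr (insert b₀ s) = fun ω => Bp S g sr s ω * ind (Bads S g sr b₀ ω) := by
      funext ω
      unfold Bp
      rw [Finset.prod_insert hb₀, mul_comm]
    have hdep : Sys.dep {i | i ∉ S.Fr (Nb (2 * sr) b₀)} (Bp S g sr s) := by
      intro ω ω' hω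
      unfold Bp
      apply Finset.prod_congr rfl
      intro b hb
      have : Bads S g sr b ω ↔ Bads S g sr b ω' := by
        apply bads_dep S g sr hgl
        intro i hi
        apply hω
        intro hi2
        rw [S.mem_Fr] at hi2
        obtain ⟨a, ha, ha2⟩ := hi2
        have h3 := hi a ha
        rw [PkgX.mem_Nb] at ha2 h3
        have h4 := near_trans ha2 (near_symm h3)
        refine h2 b₀ (Finset.mem_insert_self _ _) b (Finset.mem_insert_of_mem hb) ?_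
          (near_mono h4 (by push_cast; linarith))
        rintro rfl
        exact hb₀ hb
      simp only [this]
    rw [e1]
    have e2 := hF3 ι Tm X S μ (Nb (2 * sr) b₀) L (h1 b₀ (Finset.mem_insert_self _ _))
      (fun ω => ind (Bads S g sr b₀ ω)) (bads_meas S g sr hgm b₀)
      ⟨1, fun ω => by rw [abs_of_nonneg (ind_nonneg _)]; exact ind_le _⟩
      (Bp S g sr s) (Bp_meas S g sr hgm s) ⟨1, Bp_abs S g sr s⟩ hdep η
    rw [e2]
    have hkm := ker_meas hF5 S μ (Λ := Nb (2 * sr) b₀) (fun ω => ind (Bads S g sr b₀ ω))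
      (bads_meas S g sr hgm b₀) ⟨1, fun ω => by rw [abs_of_nonneg (ind_nonneg _)]; exact ind_le _⟩
    have hka := ker_abs hF5 S μ (Λ := Nb (2 * sr) b₀) 1 (fun ω => ind (Bads S g sr b₀ ω))
      (bads_meas S g sr hgm b₀) (fun ω => by rw [abs_of_nonneg (ind_nonneg _)]; exact ind_le _)
    have e3 : S.ker μ L (fun ω => Bp S g sr s ω * S.ker μ (Nb (2 * sr) b₀)
        (fun ω => ind (Bads S g sr b₀ ω)) ω) η ≤ S.ker μ L (fun ω => p * Bp S g sr s ω) η := by
      apply ker_mono hF5 S μ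
      · exact (Bp_meas S g sr hgm s).mul hkm
      · refine ⟨1, fun ω => ?_⟩
        rw [abs_mul]
        exact mul_le_one₀ (Bp_abs S g sr s ω) (abs_nonneg _) (hka ω)
      · exact measurable_const.mul (Bp_meas S g sr hgm s)
      · refine ⟨|p| * 1, fun ω => ?_⟩
        rw [abs_mul]
        exact mul_le_mul_of_nonneg_left (Bp_abs S g sr s ω) (abs_nonneg _)
      · intro ξ
        rw [mul_comm]
        exact mul_le_mul_of_nonneg_right (hp b₀ _) (Bp_nonneg S g sr s _)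
    refine le_trans e3 ?_
    rw [ker_smul hF5 S μ (Bp S g sr s) (Bp_meas S g sr hgm s) ⟨1, Bp_abs S g sr s⟩ η p,
      Finset.card_insert_of_notMem hb₀, pow_succ, mul_comm]
    exact mul_le_mul_of_nonneg_right ih' hp0.le

include hgm hgl hF3 hF5 hp in
lemma ker_Bp (hp0 : 0 < p) (q : ℝ) (hq : 0 < q) (hq1 : q ≤ 1)
    (hpq : p ≤ q ^ (3 * (4 * sr + 4) ^ 2))
    (L : Finset Pl) (s : Finset Pl) (hs : ∀ b ∈ s, Nb (2 * sr) b ⊆ L) (η : ι → X) :
    S.ker μ L (Bp S g sr s) η ≤ (q ^ s.card) ^ 4 := by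
  classical
  set M : ℕ := 3 * sr + 1 with hM
  have hM0 : (0 : ℤ) < (M : ℤ) := by positivity
  set T : Finset (ℤ × ℤ) := Finset.Ico (0:ℤ) M ×ˢ Finset.Ico (0:ℤ) M with hT
  set cl : Pl → ℤ × ℤ := fun b => (b.1 % M, b.2 % M) with hcl
  have hmaps : ∀ b ∈ s, cl b ∈ T := by
    intro b _
    rw [hT, Finset.mem_product, Finset.mem_Ico, Finset.mem_Ico]
    simp only [hcl]
    exact ⟨⟨Int.emod_nonneg _ hM0.ne', Int.emod_lt_of_pos _ hM0⟩,
      Int.emod_nonneg _ hM0.ne', Int.emod_lt_of_pos _ hM0⟩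
  have hTc : T.card = M ^ 2 := by
    rw [hT, Finset.card_product, Int.card_Ico]
    simp [sq]
  have hsum := Finset.card_eq_sum_card_fiberwise hmaps
  obtain ⟨y, _, hy⟩ : ∃ y ∈ T, s.card ≤ M ^ 2 * (s.filter (fun b => cl b = y)).card := by
    apply Finset.exists_le_of_sum_le
    · rw [← Finset.card_pos, hTc]; positivity
    · rw [← Finset.mul_sum, ← hsum, Finset.sum_const, hTc, smul_eq_mul]
  set s' := s.filter (fun b => cl b = y) with hs'
  have h1 : S.ker μ L (Bp S g sr s) η ≤ S.ker μ L (Bp S g sr s') η := by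
    apply ker_mono hF5 S μ _ _ (Bp_meas S g sr hgm s) ⟨1, Bp_abs S g sr s⟩ (Bp_meas S g sr hgm s')
      ⟨1, Bp_abs S g sr s'⟩
    intro ξ
    unfold Bp
    rw [← Finset.prod_sdiff (Finset.filter_subset (fun b => cl b = y) s)]
    have h5 : ∏ x ∈ s \ s.filter (fun b => cl b = y), ind (Bads S g sr x (glue (S.Fr L) ξ η)) ≤ 1 :=
      Finset.prod_le_one (fun _ _ => ind_nonneg _) (fun _ _ => ind_le _)
    have h6 : 0 ≤ ∏ x ∈ s.filter (fun b => cl b = y), ind (Bads S g sr x (glue (S.Fr L) ξ η)) :=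
      Finset.prod_nonneg (fun _ _ => ind_nonneg _)
    calc _ ≤ 1 * ∏ x ∈ s.filter (fun b => cl b = y), ind (Bads S g sr x (glue (S.Fr L) ξ η)) :=
          mul_le_mul_of_nonneg_right h5 h6
      _ = _ := one_mul _
  have hsep : ∀ x x' : ℤ, x % M = x' % M → |x - x'| ≤ ((3 * sr : ℕ) : ℤ) → x = x' := by
    intro x x' hx hxx
    have h5 : (M : ℤ) ∣ x - x' := (show x' ≡ x [ZMOD (M : ℤ)] from hx.symm).dvd
    have h6 := Int.eq_zero_of_abs_lt_dvd h5 (by rw [hM]; push_cast at hxx ⊢; linarith)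
    linarith
  have h2 := ker_Bp_class S g sr hgm hgl hF3 hF5 μ p hp hp0 L s'
    (fun b hb => hs b (Finset.mem_filter.1 hb).1) (by
      intro b hb b' hb' hne hn
      apply hne
      rw [hs', Finset.mem_filter] at hb hb'
      have e := hb.2.trans hb'.2.symm
      simp only [hcl, Prod.mk.injEq] at e
      unfold near at hn
      apply Prod.ext
      · exact hsep _ _ e.1 hn.1
      · exact hsep _ _ e.2 hn.2) η
  refine le_trans h1 (le_trans h2 ?_)
  calc p ^ s'.card ≤ (q ^ (3 * (4 * sr + 4) ^ 2)) ^ s'.card := pow_le_pow_left₀ hp0.le hpq _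
    _ = q ^ (3 * (4 * sr + 4) ^ 2 * s'.card) := by rw [← pow_mul]
    _ ≤ q ^ (s.card * 4) := by
        apply pow_le_pow_of_le_one hq.le hq1
        have h7 : 4 * M ^ 2 ≤ 3 * (4 * sr + 4) ^ 2 := by rw [hM]; nlinarith
        calc s.card * 4 ≤ (M ^ 2 * s'.card) * 4 := by omega
          _ = 4 * M ^ 2 * s'.card := by ring
          _ ≤ _ := Nat.mul_le_mul_right _ h7
    _ = (q ^ s.card) ^ 4 := by rw [pow_mul]

end bad

end T2H02.TT.PkgXu

namespace T2H02.TT.PkgXu

open T2H02.TT T2H02.TT.PkgX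

variable {ι Tm X : Type} [DecidableEq ι] [DecidableEq Tm] [MeasurableSpace X]

lemma C3_empty {A : Finset Pl} (n : ℕ) (Γ : Finset Pl) (Φ : Finset Pl → Finset Pl → ℕ → ℝ) :
    C3 A n Γ ∅ Φ = 0 := by
  classical
  have h1 : ¬ emp A (∅ : Set Pl) := by
    rintro ⟨a, _, c, hc, _⟩
    exact hc
  cases n with
  | zero =>
    unfold C3
    rw [if_neg h1]
  | succ n =>
    unfold C3
    rw [if_neg h1, zero_add]
    apply Finset.sum_eq_zero
    intro b hb
    rw [Finset.mem_filter] at hb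
    obtain ⟨_, c, hc, _⟩ := hb
    exact absurd hc (Set.notMem_empty c)

section main

variable (hF2 : S_F2) (hF3 : S_F3) (hF5 : S_F5) (S : Sys ι Tm X) (μ : Measure X)
  [IsProbabilityMeasure μ]
  (g : Tm → (ι → X) → Prop) (sr : ℕ) (δ θ : ℝ)
  (hgm : ∀ τ, MeasurableSet {ω | g τ ω})
  (hgl : ∀ τ ω ω', (∀ i ∈ S.sp τ, ω i = ω' i) → (g τ ω ↔ g τ ω'))
  (hθ : 0 < θ)

/-- regularised product of indicators -/
def Bt (T : Finset Pl) (ω : ι → X) : ℝ := Bp S g sr T ω + θ

/-- regularised kernel -/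
def kk (Λ : Finset Pl) (η : ι → X) (T : Finset Pl) : ℝ := S.ker μ Λ (Bt S g sr θ T) η

include hgm in
lemma Bt_meas (T : Finset Pl) : Measurable (Bt S g sr θ T) :=
  (Bp_meas S g sr hgm T).add measurable_const

include hθ in
lemma Bt_nonneg (T : Finset Pl) (ω : ι → X) : 0 ≤ Bt S g sr θ T ω :=
  add_nonneg (Bp_nonneg S g sr T ω) hθ.le

include hθ in
lemma Bt_abs (T : Finset Pl) (ω : ι → X) : |Bt S g sr θ T ω| ≤ 1 + θ := by
  rw [abs_of_nonneg (Bt_nonneg S g sr θ hθ T ω)]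
  exact add_le_add (Bp_le S g sr T ω) le_rfl

include hF5 hgm hθ in
lemma kk_pos (Λ : Finset Pl) (η : ι → X) (T : Finset Pl) : 0 < kk S μ g sr θ Λ η T := by
  have := ker_mono hF5 S μ (Λ := Λ) (fun _ => θ) (Bt S g sr θ T) measurable_const
    ⟨|θ|, fun _ => le_rfl⟩ (Bt_meas S g sr θ hgm T) ⟨1 + θ, Bt_abs S g sr θ hθ T⟩ η
    (fun ξ => le_add_of_nonneg_left (Bp_nonneg S g sr T _))
  rw [ker_const hF5 S μ Λ θ η] at this
  exact lt_of_lt_of_le hθ this

include hF5 hgm hθ in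
lemma kk_meas {Λ' : Finset Pl} (J : Finset ι) (η : ι → X) (T : Finset Pl) :
    Measurable (fun ξ => kk S μ g sr θ Λ' (glue J ξ η) T) :=
  (ker_meas hF5 S μ _ (Bt_meas S g sr θ hgm T) ⟨1 + θ, Bt_abs S g sr θ hθ T⟩).comp
    (meas_glue_left J η)

include hF5 hgm hθ in
lemma kk_le (Λ : Finset Pl) (η : ι → X) (T : Finset Pl) : |kk S μ g sr θ Λ η T| ≤ 1 + θ :=
  ker_abs hF5 S μ (1 + θ) _ (Bt_meas S g sr θ hgm T) (Bt_abs S g sr θ hθ T) η

include hF5 hgm hθ in
/-- the regularised kernel is the kernel plus the constant -/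
lemma kk_eq (Λ : Finset Pl) (η : ι → X) (T : Finset Pl) :
    kk S μ g sr θ Λ η T = S.ker μ Λ (Bp S g sr T) η + θ := by
  have h := ((hF5 ι Tm X S μ Λ).2.2.1 (Bp S g sr T) (fun _ => θ) (Bp_meas S g sr hgm T)
    ⟨1, Bp_abs S g sr T⟩ measurable_const ⟨|θ|, fun _ => le_rfl⟩ η).2.1
  unfold kk Bt
  rw [h, ker_const hF5 S μ Λ θ η]

include hF2 hF3 hF5 in
/-- Cauchy-Schwarz for the square root of a kernel -/
lemma sqint {Λ' Λ : Finset Pl} (h : Λ' ⊆ Λ) (η : ι → X) (f : (ι → X) → ℝ) (hm : Measurable f)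
    (hb : ∃ K, ∀ ω, |f ω| ≤ K) (h0 : ∀ ω, 0 ≤ f ω)
    (r : (ι → X) → ℝ) (hr : Measurable r) (hr0 : ∀ ξ, 0 ≤ r ξ)
    (hrd : ∀ ξ, r ξ ≤ dens S μ Λ Λ' η ξ) :
    ∫ ξ, Real.sqrt (S.ker μ Λ' f (glue (S.Fr Λ \ S.Fr Λ') ξ η)) * r ξ
      ∂(Measure.infinitePi fun _ : ι => μ) ≤
    Real.sqrt (∫ ξ, r ξ ∂(Measure.infinitePi fun _ : ι => μ)) *
      Real.sqrt (S.ker μ Λ f η) := by
  set J := S.Fr Λ \ S.Fr Λ' with hJ
  obtain ⟨D, hD⟩ := dens_bdd S μ Λ Λ' η
  have hrb : ∃ K, ∀ ξ, |r ξ| ≤ K := ⟨D, fun ξ => by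
    rw [abs_of_nonneg (hr0 ξ)]
    exact le_trans (hrd ξ) (le_trans (le_abs_self _) (hD ξ))⟩
  have hφm := int_glue_meas hF2 hF5 S μ (Λ' := Λ') J η f hm hb
  have hφ0 : ∀ ξ : ι → X, 0 ≤ S.ker μ Λ' f (glue J ξ η) := fun ξ =>
    ker_nonneg hF5 S μ _ hm hb h0 _
  have hφb : ∃ K, ∀ ξ : ι → X, |S.ker μ Λ' f (glue J ξ η)| ≤ K := by
    obtain ⟨K, hK⟩ := hb
    exact ⟨K, fun ξ => ker_abs hF5 S μ K _ hm hK _⟩
  have hcs := cs (Measure.infinitePi fun _ : ι => μ)
    (fun ξ => S.ker μ Λ' f (glue J ξ η)) r hφm hφ0 hφb hr hr0 hrb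
  have h3 : ∫ ξ, S.ker μ Λ' f (glue J ξ η) * r ξ
      ∂(Measure.infinitePi fun _ : ι => μ) ≤ S.ker μ Λ f η := by
    have e : ∫ ξ, S.ker μ Λ' f (glue (S.Fr Λ \ S.Fr Λ') ξ η) * dens S μ Λ Λ' η ξ
        ∂(Measure.infinitePi fun _ : ι => μ) = S.ker μ Λ f η := by
      rw [ker_ker hF3 S μ h f hm hb η]
      rw [ker_dens S μ hF2 h (S.ker μ Λ' f) (ker_meas hF5 S μ _ hm hb)
        (ker_bdd hF5 S μ _ hm hb) (ker_dep_out hF5 S μ _) η]
    rw [← e]
    apply integral_mono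
    · exact int_mul_bdd _ (int_bdd _ hφm hφb) hr hrb
    · exact int_mul_bdd _ (int_bdd _ hφm hφb) (dens_meas S μ Λ Λ' η) ⟨D, hD⟩
    · intro ξ
      exact mul_le_mul_of_nonneg_left (hrd ξ) (hφ0 ξ)
  refine le_trans hcs ?_
  exact mul_le_mul_of_nonneg_left (Real.sqrt_le_sqrt h3) (Real.sqrt_nonneg _)

include hF2 hF3 hF5 hgm hθ in
/-- integration of the chains with square roots -/
lemma avg1 {A : Finset Pl} {Λ' Λ : Finset Pl} (h : Λ' ⊆ Λ) (η : ι → X) (n : ℕ) (Γ : Finset Pl)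
    (src : Set Pl)
    (w : Finset Pl → Finset Pl → ℕ → ℝ) (hw : ∀ T T' t, 0 ≤ w T T' t)
    (pr : Finset Pl → Finset Pl → Finset Pl)
    (r : (ι → X) → ℝ) (hr : Measurable r) (hr0 : ∀ ξ, 0 ≤ r ξ)
    (hrd : ∀ ξ, r ξ ≤ dens S μ Λ Λ' η ξ) (c : ℝ)
    (hc : Real.sqrt (∫ ξ, r ξ ∂(Measure.infinitePi fun _ : ι => μ)) ≤ c) :
    ∫ ξ, C3 A n Γ src (fun T T' t => w T T' t *
      Real.sqrt (kk S μ g sr θ Λ' (glue (S.Fr Λ \ S.Fr Λ') ξ η) (pr T T'))) * r ξ
      ∂(Measure.infinitePi fun _ : ι => μ) ≤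
    C3 A n Γ src (fun T T' t => c * (w T T' t * Real.sqrt (kk S μ g sr θ Λ η (pr T T')))) := by
  set P : Measure (ι → X) := Measure.infinitePi fun _ : ι => μ with hP
  set J := S.Fr Λ \ S.Fr Λ' with hJ
  obtain ⟨D, hD⟩ := dens_bdd S μ Λ Λ' η
  have hrb : ∃ K, ∀ ξ, |r ξ| ≤ K := ⟨D, fun ξ => by
    rw [abs_of_nonneg (hr0 ξ)]
    exact le_trans (hrd ξ) (le_trans (le_abs_self _) (hD ξ))⟩
  have hi : ∀ T T' t, Integrable (fun ξ => w T T' t *
      Real.sqrt (kk S μ g sr θ Λ' (glue J ξ η) (pr T T'))) P := by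
    intro T T' t
    apply Integrable.const_mul
    apply int_bdd P (kk_meas hF5 S μ g sr θ hgm hθ J η _).sqrt
    refine ⟨Real.sqrt (1 + θ), fun ξ => ?_⟩
    rw [abs_of_nonneg (Real.sqrt_nonneg _)]
    exact Real.sqrt_le_sqrt (le_trans (le_abs_self _) (kk_le hF5 S μ g sr θ hgm hθ _ _ _))
  have h1 := (C3_integral (A := A) P n Γ src
    (fun ξ T T' t => r ξ * (w T T' t *
      Real.sqrt (kk S μ g sr θ Λ' (glue J ξ η) (pr T T')))) (fun T T' t => by
      have := int_mul_bdd P (hi T T' t) hr hrb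
      simpa only [mul_comm] using this)).2
  simp only [C3_smul] at h1
  simp only [mul_comm _ (r _)]
  rw [h1]
  apply C3_mono
  intro T _ T' _ t
  have h2 := sqint hF2 hF3 hF5 S μ h η (Bt S g sr θ (pr T T')) (Bt_meas S g sr θ hgm _)
    ⟨1 + θ, Bt_abs S g sr θ hθ _⟩ (Bt_nonneg S g sr θ hθ _) r hr hr0 hrd
  have e1 : ∫ ξ, r ξ * (w T T' t *
      Real.sqrt (kk S μ g sr θ Λ' (glue J ξ η) (pr T T'))) ∂P =
      w T T' t * ∫ ξ, Real.sqrt (kk S μ g sr θ Λ' (glue J ξ η) (pr T T')) * r ξ ∂P := by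
    rw [← integral_const_mul]
    congr 1
    funext ξ
    ring
  rw [e1]
  calc _ ≤ w T T' t * (Real.sqrt (∫ ξ, r ξ ∂P) * Real.sqrt (kk S μ g sr θ Λ η (pr T T'))) :=
        mul_le_mul_of_nonneg_left h2 (hw T T' t)
    _ ≤ w T T' t * (c * Real.sqrt (kk S μ g sr θ Λ η (pr T T'))) := by
        apply mul_le_mul_of_nonneg_left _ (hw T T' t)
        exact mul_le_mul_of_nonneg_right hc (Real.sqrt_nonneg _)
    _ = _ := by ring

/-- weights of the chains -/
def Ph (Λ : Finset Pl) (η η' : ι → X) (T T' : Finset Pl) (t : ℕ) : ℝ :=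
  Real.sqrt δ ^ t * (qr (kk S μ g sr θ Λ η T) * qr (kk S μ g sr θ Λ η' T'))

lemma Ph_nonneg (Λ : Finset Pl) (η η' : ι → X) (T T' : Finset Pl) (t : ℕ) :
    0 ≤ Ph S μ g sr δ θ Λ η η' T T' t :=
  mul_nonneg (pow_nonneg (Real.sqrt_nonneg _) _) (mul_nonneg (qr_nonneg _) (qr_nonneg _))

/-- the optimal factor -/
def lam (Λ : Finset Pl) (η η' : ι → X) (T T' : Finset Pl) : ℝ :=
  qr (kk S μ g sr θ Λ η' T') / qr (kk S μ g sr θ Λ η T)

def w1 (Λ : Finset Pl) (η η' : ι → X) (T T' : Finset Pl) (t : ℕ) : ℝ :=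
  Real.sqrt δ ^ t * (lam S μ g sr θ Λ η η' T T' / 2)

def w2 (Λ : Finset Pl) (η η' : ι → X) (T T' : Finset Pl) (t : ℕ) : ℝ :=
  Real.sqrt δ ^ t * (1 / (2 * lam S μ g sr θ Λ η η' T T'))

include hF5 hgm hθ

lemma lam_pos (Λ : Finset Pl) (η η' : ι → X) (T T' : Finset Pl) :
    0 < lam S μ g sr θ Λ η η' T T' :=
  div_pos (qr_pos (kk_pos hF5 S μ g sr θ hgm hθ _ _ _))
    (qr_pos (kk_pos hF5 S μ g sr θ hgm hθ _ _ _))

lemma w1_nonneg (Λ : Finset Pl) (η η' : ι → X) (T T' : Finset Pl) (t : ℕ) :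
    0 ≤ w1 S μ g sr δ θ Λ η η' T T' t := by
  have := lam_pos hF5 S μ g sr θ hgm hθ Λ η η' T T'
  unfold w1
  positivity

lemma w2_nonneg (Λ : Finset Pl) (η η' : ι → X) (T T' : Finset Pl) (t : ℕ) :
    0 ≤ w2 S μ g sr δ θ Λ η η' T T' t := by
  have := lam_pos hF5 S μ g sr θ hgm hθ Λ η η' T T'
  unfold w2
  positivity

lemma Ph_upper (Λ : Finset Pl) (η η' : ι → X) (T T' : Finset Pl) (t : ℕ) :
    w1 S μ g sr δ θ Λ η η' T T' t * Real.sqrt (kk S μ g sr θ Λ η T) +
      w2 S μ g sr δ θ Λ η η' T T' t * Real.sqrt (kk S μ g sr θ Λ η' T') =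
      Ph S μ g sr δ θ Λ η η' T T' t := by
  have := qr_opt (kk_pos hF5 S μ g sr θ hgm hθ Λ η T) (kk_pos hF5 S μ g sr θ hgm hθ Λ η' T')
  unfold w1 w2 Ph lam
  rw [← this]
  ring

lemma Ph_lower (Λ : Finset Pl) (η η' : ι → X) (Λ' : Finset Pl) (ζ ζ' : ι → X)
    (T T' : Finset Pl) (t : ℕ) :
    Ph S μ g sr δ θ Λ' ζ ζ' T T' t ≤
      w1 S μ g sr δ θ Λ η η' T T' t * Real.sqrt (kk S μ g sr θ Λ' ζ T) +
      w2 S μ g sr δ θ Λ η η' T T' t * Real.sqrt (kk S μ g sr θ Λ' ζ' T') := by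
  have h := qr_amgm (kk S μ g sr θ Λ' ζ T) (kk S μ g sr θ Λ' ζ' T') _
    (lam_pos hF5 S μ g sr θ hgm hθ Λ η η' T T')
  have h2 := mul_le_mul_of_nonneg_left h (pow_nonneg (Real.sqrt_nonneg δ) t)
  unfold w1 w2 Ph
  refine h2.trans (le_of_eq ?_)
  ring

include hF2 hF3 in
/-- integration of both kinds of chains -/
lemma avg2 {A : Finset Pl} {Λ' Λ : Finset Pl} (h : Λ' ⊆ Λ) (η η' : ι → X) (n : ℕ) (Γ : Finset Pl)
    (src : Set Pl)
    (r r' : (ι → X) → ℝ) (hr : Measurable r) (hr0 : ∀ ξ, 0 ≤ r ξ)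
    (hrd : ∀ ξ, r ξ ≤ dens S μ Λ Λ' η ξ)
    (hr' : Measurable r') (hr0' : ∀ ξ, 0 ≤ r' ξ)
    (hrd' : ∀ ξ, r' ξ ≤ dens S μ Λ Λ' η' ξ) (c : ℝ)
    (hc : Real.sqrt (∫ ξ, r ξ ∂(Measure.infinitePi fun _ : ι => μ)) ≤ c)
    (hc' : Real.sqrt (∫ ξ, r' ξ ∂(Measure.infinitePi fun _ : ι => μ)) ≤ c) :
    ∫ ξ, C3 A n Γ src (fun T T' t => w1 S μ g sr δ θ Λ η η' T T' t *
      Real.sqrt (kk S μ g sr θ Λ' (glue (S.Fr Λ \ S.Fr Λ') ξ η) T)) * r ξ
      ∂(Measure.infinitePi fun _ : ι => μ) +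
    ∫ ξ, C3 A n Γ src (fun T T' t => w2 S μ g sr δ θ Λ η η' T T' t *
      Real.sqrt (kk S μ g sr θ Λ' (glue (S.Fr Λ \ S.Fr Λ') ξ η') T')) * r' ξ
      ∂(Measure.infinitePi fun _ : ι => μ) ≤
    C3 A n Γ src (fun T T' t => c * Ph S μ g sr δ θ Λ η η' T T' t) := by
  have h1 := avg1 hF2 hF3 hF5 S μ g sr θ hgm hθ (A := A) h η n Γ src
    (w1 S μ g sr δ θ Λ η η') (w1_nonneg hF5 S μ g sr δ θ hgm hθ Λ η η') (fun T _ => T)
    r hr hr0 hrd c hc
  have h2 := avg1 hF2 hF3 hF5 S μ g sr θ hgm hθ (A := A) h η' n Γ src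
    (w2 S μ g sr δ θ Λ η η') (w2_nonneg hF5 S μ g sr δ θ hgm hθ Λ η η') (fun _ T' => T')
    r' hr' hr0' hrd' c hc'
  refine le_trans (add_le_add h1 h2) ?_
  rw [← C3_add]
  apply C3_mono
  intro T _ T' _ t
  rw [← Ph_upper hF5 S μ g sr δ θ hgm hθ Λ η η' T T' t]
  exact le_of_eq (by ring)

include hF2 hF3 in
/-- one step of the comparison -/
lemma step_gen {A : Finset Pl} {Λ' Λ : Finset Pl} (h : Λ' ⊆ Λ) (f : (ι → X) → ℝ)
    (hf : Measurable f) (hf1 : ∀ ω, |f ω| ≤ 1) (η η' : ι → X) (n : ℕ) (Γ : Finset Pl)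
    (src src2 : Set Pl)
    (h1 : ∀ ξ, |S.ker μ Λ' f (glue (S.Fr Λ \ S.Fr Λ') ξ η) -
        S.ker μ Λ' f (glue (S.Fr Λ \ S.Fr Λ') ξ η')| ≤
      2 * C3 A n Γ src (Ph S μ g sr δ θ Λ' (glue (S.Fr Λ \ S.Fr Λ') ξ η)
        (glue (S.Fr Λ \ S.Fr Λ') ξ η')))
    (h2 : ∀ ξ ξ', |S.ker μ Λ' f (glue (S.Fr Λ \ S.Fr Λ') ξ η) -
        S.ker μ Λ' f (glue (S.Fr Λ \ S.Fr Λ') ξ' η')| ≤
      2 * (C3 A n Γ src (Ph S μ g sr δ θ Λ' (glue (S.Fr Λ \ S.Fr Λ') ξ η)
        (glue (S.Fr Λ \ S.Fr Λ') ξ' η')) +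
        C3 A n Γ src2 (Ph S μ g sr δ θ Λ' (glue (S.Fr Λ \ S.Fr Λ') ξ η)
        (glue (S.Fr Λ \ S.Fr Λ') ξ' η'))))
    (c : ℝ)
    (hc : Real.sqrt (∫ ξ, (dens S μ Λ Λ' η ξ - min (dens S μ Λ Λ' η ξ) (dens S μ Λ Λ' η' ξ))
      ∂(Measure.infinitePi fun _ : ι => μ)) ≤ c)
    (hc' : Real.sqrt (∫ ξ, (dens S μ Λ Λ' η' ξ - min (dens S μ Λ Λ' η ξ) (dens S μ Λ Λ' η' ξ))
      ∂(Measure.infinitePi fun _ : ι => μ)) ≤ c) :
    |S.ker μ Λ f η - S.ker μ Λ f η'| ≤
      2 * C3 A n Γ src (Ph S μ g sr δ θ Λ η η') +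
      2 * C3 A n Γ src2 (fun T T' t => c * Ph S μ g sr δ θ Λ η η' T T' t) := by
  have hfb : ∃ K, ∀ ω, |f ω| ≤ K := ⟨1, hf1⟩
  set P : Measure (ι → X) := Measure.infinitePi fun _ : ι => μ with hP
  set J := S.Fr Λ \ S.Fr Λ' with hJ
  have hDm := dens_meas S μ Λ Λ' η
  have hDb := dens_bdd S μ Λ Λ' η
  have hD0 := dens_nonneg S μ Λ Λ' η
  have hDm' := dens_meas S μ Λ Λ' η'
  have hDb' := dens_bdd S μ Λ Λ' η'
  have hD0' := dens_nonneg S μ Λ Λ' η'
  have hD1 := dens_integral S μ hF2 hF5 h η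
  have hD1' := dens_integral S μ hF2 hF5 h η'
  set a : (ι → X) → ℝ := fun ξ => C3 A n Γ src (fun T T' t => w1 S μ g sr δ θ Λ η η' T T' t *
      Real.sqrt (kk S μ g sr θ Λ' (glue J ξ η) T)) with ha
  set a' : (ι → X) → ℝ := fun ξ => C3 A n Γ src (fun T T' t => w2 S μ g sr δ θ Λ η η' T T' t *
      Real.sqrt (kk S μ g sr θ Λ' (glue J ξ η') T')) with ha'
  set e : (ι → X) → ℝ := fun ξ => C3 A n Γ src2 (fun T T' t => w1 S μ g sr δ θ Λ η η' T T' t *
      Real.sqrt (kk S μ g sr θ Λ' (glue J ξ η) T)) with he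
  set e' : (ι → X) → ℝ := fun ξ => C3 A n Γ src2 (fun T T' t => w2 S μ g sr δ θ Λ η η' T T' t *
      Real.sqrt (kk S μ g sr θ Λ' (glue J ξ η') T')) with he'
  have hi : ∀ (ζ : ι → X) (w : ℝ) (T : Finset Pl), Integrable (fun ξ => w *
      Real.sqrt (kk S μ g sr θ Λ' (glue J ξ ζ) T)) P := by
    intro ζ w T
    apply Integrable.const_mul
    apply int_bdd P (kk_meas hF5 S μ g sr θ hgm hθ J ζ _).sqrt
    refine ⟨Real.sqrt (1 + θ), fun ξ => ?_⟩
    rw [abs_of_nonneg (Real.sqrt_nonneg _)]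
    exact Real.sqrt_le_sqrt (le_trans (le_abs_self _) (kk_le hF5 S μ g sr θ hgm hθ _ _ _))
  have ia : Integrable a P := (C3_integral P n Γ src _ (fun T T' t => hi η _ T)).1
  have ia' : Integrable a' P := (C3_integral P n Γ src _ (fun T T' t => hi η' _ T')).1
  have ie : Integrable e P := (C3_integral P n Γ src2 _ (fun T T' t => hi η _ T)).1
  have ie' : Integrable e' P := (C3_integral P n Γ src2 _ (fun T T' t => hi η' _ T')).1
  have n1 := w1_nonneg hF5 S μ g sr δ θ hgm hθ Λ η η'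
  have n2 := w2_nonneg hF5 S μ g sr δ θ hgm hθ Λ η η'
  have na : ∀ ξ, 0 ≤ a ξ := fun ξ => C3_nonneg _ _ _ _ (fun T T' t =>
    mul_nonneg (n1 T T' t) (Real.sqrt_nonneg _))
  have na' : ∀ ξ, 0 ≤ a' ξ := fun ξ => C3_nonneg _ _ _ _ (fun T T' t =>
    mul_nonneg (n2 T T' t) (Real.sqrt_nonneg _))
  have ne : ∀ ξ, 0 ≤ e ξ := fun ξ => C3_nonneg _ _ _ _ (fun T T' t =>
    mul_nonneg (n1 T T' t) (Real.sqrt_nonneg _))
  have ne' : ∀ ξ, 0 ≤ e' ξ := fun ξ => C3_nonneg _ _ _ _ (fun T T' t =>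
    mul_nonneg (n2 T T' t) (Real.sqrt_nonneg _))
  have hle : ∀ (sr' : Set Pl) (ξ ξ' : ι → X),
      C3 A n Γ sr' (Ph S μ g sr δ θ Λ' (glue J ξ η) (glue J ξ' η')) ≤
      C3 A n Γ sr' (fun T T' t => w1 S μ g sr δ θ Λ η η' T T' t *
        Real.sqrt (kk S μ g sr θ Λ' (glue J ξ η) T)) +
      C3 A n Γ sr' (fun T T' t => w2 S μ g sr δ θ Λ η η' T T' t *
        Real.sqrt (kk S μ g sr θ Λ' (glue J ξ' η') T')) := by
    intro sr' ξ ξ'
    rw [← C3_add]
    apply C3_mono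
    intro T _ T' _ t
    exact Ph_lower hF5 S μ g sr δ θ hgm hθ Λ η η' Λ' _ _ T T' t
  have hcoup := coupling2 P (fun ξ => S.ker μ Λ' f (glue J ξ η))
    (fun ξ => S.ker μ Λ' f (glue J ξ η')) a a' e e' (dens S μ Λ Λ' η) (dens S μ Λ Λ' η')
    (int_glue_meas hF2 hF5 S μ J η f hf hfb) (int_glue_meas hF2 hF5 S μ J η' f hf hfb)
    ⟨1, fun ξ => ker_abs hF5 S μ 1 f hf hf1 _⟩ ⟨1, fun ξ => ker_abs hF5 S μ 1 f hf hf1 _⟩
    ia ia' ie ie' na ne na' ne'
    hDm hDm' hDb hDb' hD0 hD0' hD1 hD1'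
    (fun ξ => (h1 ξ).trans (mul_le_mul_of_nonneg_left (hle src ξ ξ) (by norm_num)))
    (fun ξ ξ' => (h2 ξ ξ').trans (by
      have g1 := hle src ξ ξ'
      have g2 := hle src2 ξ ξ'
      simp only [ha, ha', he, he']
      linarith))
  have hker : ∀ ζ : ι → X, S.ker μ Λ f ζ =
      ∫ ξ, S.ker μ Λ' f (glue J ξ ζ) * dens S μ Λ Λ' ζ ξ ∂P := by
    intro ζ
    rw [ker_ker hF3 S μ h f hf hfb ζ]
    exact ker_dens S μ hF2 h (S.ker μ Λ' f) (ker_meas hF5 S μ _ hf hfb)
      (ker_bdd hF5 S μ _ hf hfb) (ker_dep_out hF5 S μ _) ζ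
  rw [hker η, hker η']
  refine le_trans hcoup ?_
  have hA1 := avg2 hF2 hF3 hF5 S μ g sr δ θ hgm hθ (A := A) h η η' n Γ src
    (dens S μ Λ Λ' η) (dens S μ Λ Λ' η') hDm hD0 (fun ξ => le_rfl) hDm' hD0' (fun ξ => le_rfl) 1
    (by rw [hD1, Real.sqrt_one]) (by rw [hD1', Real.sqrt_one])
  simp only [one_mul] at hA1
  have hm0 : ∀ ξ, 0 ≤ min (dens S μ Λ Λ' η ξ) (dens S μ Λ Λ' η' ξ) := fun ξ =>
    le_min (hD0 ξ) (hD0' ξ)
  have hB1 := avg2 hF2 hF3 hF5 S μ g sr δ θ hgm hθ (A := A) h η η' n Γ src2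
    (fun ξ => dens S μ Λ Λ' η ξ - min (dens S μ Λ Λ' η ξ) (dens S μ Λ Λ' η' ξ))
    (fun ξ => dens S μ Λ Λ' η' ξ - min (dens S μ Λ Λ' η ξ) (dens S μ Λ Λ' η' ξ))
    (hDm.sub (hDm.min hDm')) (fun ξ => sub_nonneg.2 (min_le_left _ _))
    (fun ξ => by have := hm0 ξ; linarith)
    (hDm'.sub (hDm.min hDm')) (fun ξ => sub_nonneg.2 (min_le_right _ _))
    (fun ξ => by have := hm0 ξ; linarith) c hc hc'
  have e1 : C3 A n Γ src (Ph S μ g sr δ θ Λ η η') =
      C3 A n Γ src (fun T T' t => Ph S μ g sr δ θ Λ η η' T T' t) := rfl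
  rw [e1]
  linarith

end main

end T2H02.TT.PkgXu

namespace T2H02.TT.PkgXu

open T2H02.TT T2H02.TT.PkgX

variable {ι Tm X : Type} [DecidableEq ι] [DecidableEq Tm] [MeasurableSpace X]

section claim

variable (hF2 : S_F2) (hF3 : S_F3) (hF5 : S_F5) (S : Sys ι Tm X) (μ : Measure X)
  [IsProbabilityMeasure μ]
  (g : Tm → (ι → X) → Prop) (sr : ℕ) (δ θ : ℝ)
  (hgm : ∀ τ, MeasurableSet {ω | g τ ω})
  (hgl : ∀ τ ω ω', (∀ i ∈ S.sp τ, ω i = ω' i) → (g τ ω ↔ g τ ω'))
  (hθ : 0 < θ)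
  (hQ : ∀ b, ∀ Λ : Finset Pl, b ∈ Λ → ∀ η η' : ι → X,
    (∀ i, (∀ a ∈ S.bl i, a ∈ Nb 2 b ∧ a ∉ Λ) → η i = η' i) →
    (∀ τ ∈ S.tms (Nb sr b), (∀ a ∈ S.bt τ, a ∈ Nb sr b ∧ a ∉ Λ) → g τ η ∧ g τ η') →
    ∀ F : (ι → X) → ℝ, Measurable F → (∀ ω, 0 ≤ F ω ∧ F ω ≤ 1) →
      Sys.dep {i | ∀ a ∈ S.bl i, (a ∈ Nb 2 b ∧ a ∉ Λ) ∨ a = b} F →
      S.ker μ Λ F η ≤ S.ker μ Λ F η' + δ)

/-- a fixed term that is not good makes the square bad -/
lemma kk_insert (Λ : Finset Pl) (b : Pl) (η : ι → X) (T : Finset Pl)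
    (hgl : ∀ τ ω ω', (∀ i ∈ S.sp τ, ω i = ω' i) → (g τ ω ↔ g τ ω'))
    (τ : Tm) (hτ : τ ∈ S.tms (Nb sr b)) (hτ2 : ∀ a ∈ S.bt τ, a ∈ Nb sr b ∧ a ∉ Λ)
    (hτ3 : ¬ g τ η) : kk S μ g sr θ Λ η (insert b T) = kk S μ g sr θ Λ η T := by
  classical
  have hτΛ : τ ∉ S.tms Λ := by
    intro h
    rw [S.mem_tms] at h
    obtain ⟨x, hx, hxΛ⟩ := h
    exact (hτ2 x hx).2 hxΛ
  have hbad : ∀ ξ : ι → X, Bads S g sr b (glue (S.Fr Λ) ξ η) := by
    intro ξ
    refine ⟨τ, hτ, fun x hx => (hτ2 x hx).1, ?_⟩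
    intro h
    apply hτ3
    refine (hgl τ _ _ (fun i hi => ?_)).1 h
    exact glue_notMem (sp_notMem_Fr S hτΛ hi)
  unfold kk
  apply ker_congr
  intro ξ
  unfold Bt Bp
  by_cases hbs : b ∈ T
  · rw [Finset.insert_eq_of_mem hbs]
  · rw [Finset.prod_insert hbs, ind_true (hbad ξ), one_mul]

include hF2 hF3 hF5 hgm hgl hθ hQ in
/-- the main estimate -/
theorem claim3 (hδ : 0 < δ) (Λ₁ A : Finset Pl) (f : (ι → X) → ℝ) (hf : Measurable f)
    (hf1 : ∀ ω, |f ω| ≤ 1) (hfd : Sys.dep {i | ∀ a ∈ S.bl i, a ∈ A} f) (n : ℕ) :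
    ∀ Λ K : Finset Pl, Λ.card ≤ n → Λ ⊆ K → K ⊆ Λ₁ → ∀ η η' : ι → X,
      (∀ i, i ∉ S.Fr Λ → (∀ a ∈ S.bl i, a ∈ K) → η i = η' i) →
      |S.ker μ Λ f η - S.ker μ Λ f η'| ≤
        2 * C3 A n Λ {c | c ∉ K} (Ph S μ g sr δ θ Λ η η') := by
  classical
  have hfb : ∃ K, ∀ ω, |f ω| ≤ K := ⟨1, hf1⟩
  -- the three cases, for a given fuel
  have caseI : ∀ (n : ℕ) (Λ K : Finset Pl) (η η' : ι → X), emp A {c | c ∉ K} →
      |S.ker μ Λ f η - S.ker μ Λ f η'| ≤
        2 * C3 A n Λ {c | c ∉ K} (Ph S μ g sr δ θ Λ η η') := by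
    intro n Λ K η η' he
    have h1 := ker_abs hF5 S μ (Λ := Λ) 1 f hf hf1 η
    have h2 := ker_abs hF5 S μ (Λ := Λ) 1 f hf hf1 η'
    have h3 : |S.ker μ Λ f η - S.ker μ Λ f η'| ≤ 2 := by
      have := abs_sub (S.ker μ Λ f η) (S.ker μ Λ f η')
      linarith
    have h4 : 1 ≤ Ph S μ g sr δ θ Λ η η' ∅ ∅ 0 := by
      have h6 : ∀ ζ : ι → X, 1 ≤ kk S μ g sr θ Λ ζ ∅ := by
        intro ζ
        rw [kk_eq hF5 S μ g sr θ hgm hθ]
        have : Bp S g sr ∅ = fun _ => 1 := by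
          funext ω
          unfold Bp
          rw [Finset.prod_empty]
        rw [this, ker_const hF5 S μ Λ 1 ζ]
        linarith
      have h7 : ∀ ζ : ι → X, 1 ≤ qr (kk S μ g sr θ Λ ζ ∅) := by
        intro ζ
        unfold qr
        exact Real.one_le_sqrt.2 (Real.one_le_sqrt.2 (h6 ζ))
      unfold Ph
      rw [pow_zero, one_mul]
      exact one_le_mul_of_one_le_of_one_le (h7 η) (h7 η')
    have h5 : 1 ≤ C3 A n Λ {c | c ∉ K} (Ph S μ g sr δ θ Λ η η') := by
      cases n with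
      | zero => unfold C3; rw [if_pos he]; exact h4
      | succ n =>
        unfold C3
        rw [if_pos he]
        refine h4.trans (le_add_of_nonneg_right ?_)
        apply Finset.sum_nonneg
        intro b _
        exact add_nonneg (add_nonneg
          (C3_nonneg _ _ _ _ (fun s s' t => Ph_nonneg S μ g sr δ θ _ _ _ _ _ _))
          (C3_nonneg _ _ _ _ (fun s s' t => Ph_nonneg S μ g sr δ θ _ _ _ _ _ _)))
          (C3_nonneg _ _ _ _ (fun s s' t => Ph_nonneg S μ g sr δ θ _ _ _ _ _ _))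
    linarith
  have caseII : ∀ (n : ℕ) (Λ K : Finset Pl) (η η' : ι → X), ¬ emp A {c | c ∉ K} →
      (∀ i, i ∉ S.Fr Λ → (∀ a ∈ S.bl i, a ∈ K) → η i = η' i) →
      (∀ b ∈ Λ, ¬ ((∃ c ∈ {c | c ∉ K}, d3 b c) ∧ Nb 2 b ⊆ K)) →
      |S.ker μ Λ f η - S.ker μ Λ f η'| ≤
        2 * C3 A n Λ {c | c ∉ K} (Ph S μ g sr δ θ Λ η η') := by
    intro n Λ K η η' he hag hno
    set Λ' : Finset Pl := Λ.filter (fun x => Nb 3 x ⊆ K) with hΛ'
    have hΛ'Λ : Λ' ⊆ Λ := Finset.filter_subset _ _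
    have hin : ∀ x ∈ Λ, Nb 2 x ⊆ K → x ∈ Λ' := by
      intro x hx hx2
      rw [hΛ', Finset.mem_filter]
      refine ⟨hx, ?_⟩
      intro c hc
      by_contra hcK
      apply hno x hx
      refine ⟨⟨c, hcK, ?_, ?_⟩, hx2⟩
      · rw [PkgX.mem_Nb] at hc; exact_mod_cast hc
      · intro hn
        exact hcK (hx2 (PkgX.mem_Nb.2 (by exact_mod_cast hn)))
    have hself : ∀ (r : ℕ) (x : Pl), x ∈ Nb r x := by
      intro r x
      rw [PkgX.mem_Nb]; unfold near; simp
    have hconst : ∀ ξ ξ' : ι → X, S.ker μ Λ' f (glue (S.Fr Λ) ξ η) =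
        S.ker μ Λ' f (glue (S.Fr Λ) ξ' η') := by
      intro ξ ξ'
      apply ker_dep' hF5 S μ (Λ := Λ') _ f hfd
      rintro i ⟨hi1, hi2⟩
      have hsites : ∀ a ∈ S.bl i, Nb 2 a ⊆ K := by
        intro a ha
        rcases hi2 with hi2 | ⟨τ, hτ, hi2⟩
        · intro c hc
          by_contra hcK
          exact he ⟨a, hi2 a ha, c, hcK, by rw [PkgX.mem_Nb] at hc; exact_mod_cast hc⟩
        · rw [S.mem_tms] at hτ
          obtain ⟨a₀, ha₀, ha₀'⟩ := hτ
          rw [hΛ', Finset.mem_filter] at ha₀'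
          have h1 : near 1 a₀ a := S.diam_bt τ a₀ ha₀ a ((S.bt_iff τ a).2 ⟨i, hi2, ha⟩)
          intro c hc
          apply ha₀'.2
          rw [PkgX.mem_Nb] at hc ⊢
          have := near_trans h1 hc
          exact near_mono this (by norm_num)
      have hiΛ : i ∉ S.Fr Λ := by
        intro h
        rw [S.mem_Fr] at h
        obtain ⟨a, ha, haΛ⟩ := h
        apply hi1
        rw [S.mem_Fr]
        exact ⟨a, ha, hin a haΛ (hsites a ha)⟩
      rw [glue_notMem hiΛ, glue_notMem hiΛ]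
      exact hag i hiΛ (fun a ha => hsites a ha (hself 2 a))
    have e1 : S.ker μ Λ f η = S.ker μ Λ' f (glue (S.Fr Λ) η η') := by
      rw [ker_ker hF3 S μ hΛ'Λ f hf hfb η]
      rw [ker_congr S μ Λ (S.ker μ Λ' f) (fun _ => S.ker μ Λ' f (glue (S.Fr Λ) η η')) η
        (fun ξ => hconst ξ η)]
      exact ker_const hF5 S μ Λ _ η
    have e2 : S.ker μ Λ f η' = S.ker μ Λ' f (glue (S.Fr Λ) η η') := by
      rw [ker_ker hF3 S μ hΛ'Λ f hf hfb η']
      rw [ker_congr S μ Λ (S.ker μ Λ' f) (fun _ => S.ker μ Λ' f (glue (S.Fr Λ) η η')) η'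
        (fun ξ => by rw [← hconst η ξ, hconst η η])]
      exact ker_const hF5 S μ Λ _ η'
    rw [e1, e2, sub_self, abs_zero]
    have := C3_nonneg (A := A) n Λ {c | c ∉ K} (Ph S μ g sr δ θ Λ η η')
      (fun s s' t => Ph_nonneg S μ g sr δ θ _ _ _ _ _ _)
    linarith
  induction n with
  | zero =>
    intro Λ K hcard hΛK hK η η' hag
    have hΛ0 : Λ = ∅ := Finset.card_eq_zero.1 (Nat.le_zero.1 hcard)
    by_cases he : emp A {c | c ∉ K}
    · exact caseI 0 Λ K η η' he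
    · apply caseII 0 Λ K η η' he hag
      intro b hb
      rw [hΛ0] at hb
      exact absurd hb (Finset.notMem_empty b)
  | succ n ih =>
    intro Λ K hcard hΛK hK η η' hag
    by_cases he : emp A {c | c ∉ K}
    · exact caseI (n+1) Λ K η η' he
    by_cases hno : ∀ b ∈ Λ, ¬ ((∃ c ∈ {c | c ∉ K}, d3 b c) ∧ Nb 2 b ⊆ K)
    · exact caseII (n+1) Λ K η η' he hag hno
    push Not at hno
    obtain ⟨b, hb, hd, hbK⟩ := hno
    set Λ' : Finset Pl := Λ.erase b with hΛ'
    have hΛ'Λ : Λ' ⊆ Λ := Finset.erase_subset _ _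
    have hcard' : Λ'.card ≤ n := by
      rw [hΛ', Finset.card_erase_of_mem hb]
      omega
    set J : Finset ι := S.Fr Λ \ S.Fr Λ' with hJ
    set P : Measure (ι → X) := Measure.infinitePi fun _ : ι => μ with hP
    have hDm := dens_meas S μ Λ Λ' η
    have hDb := dens_bdd S μ Λ Λ' η
    have hD0 := dens_nonneg S μ Λ Λ' η
    have hDm' := dens_meas S μ Λ Λ' η'
    have hDb' := dens_bdd S μ Λ Λ' η'
    have hD0' := dens_nonneg S μ Λ Λ' η'
    have hD1 := dens_integral S μ hF2 hF5 hΛ'Λ η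
    have hD1' := dens_integral S μ hF2 hF5 hΛ'Λ η'
    -- agreement off `b`
    have hJb : ∀ i, i ∉ S.Fr Λ' → b ∉ S.bl i → i ∉ S.Fr Λ := by
      intro i hi hbi h
      rw [S.mem_Fr] at h
      obtain ⟨x, hx, hxΛ⟩ := h
      apply hi
      rw [S.mem_Fr]
      refine ⟨x, hx, Finset.mem_erase.2 ⟨?_, hxΛ⟩⟩
      rintro rfl
      exact hbi hx
    have hs1 : ∀ ξ, |S.ker μ Λ' f (glue J ξ η) - S.ker μ Λ' f (glue J ξ η')| ≤
        2 * C3 A n Λ' {c | c ∉ K} (Ph S μ g sr δ θ Λ' (glue J ξ η) (glue J ξ η')) := by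
      intro ξ
      apply ih Λ' K hcard' (hΛ'Λ.trans hΛK) hK
      intro i hi hiK
      by_cases hiJ : i ∈ J
      · rw [glue_mem hiJ, glue_mem hiJ]
      · rw [glue_notMem hiJ, glue_notMem hiJ]
        apply hag i _ hiK
        intro h
        exact hiJ (Finset.mem_sdiff.2 ⟨h, hi⟩)
    have hs2 : ∀ ξ ξ', |S.ker μ Λ' f (glue J ξ η) - S.ker μ Λ' f (glue J ξ' η')| ≤
        2 * (C3 A n Λ' {c | c ∉ K} (Ph S μ g sr δ θ Λ' (glue J ξ η) (glue J ξ' η')) +
          C3 A n Λ' {b} (Ph S μ g sr δ θ Λ' (glue J ξ η) (glue J ξ' η'))) := by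
      intro ξ ξ'
      have h1 := ih Λ' (K.erase b) hcard' (Finset.erase_subset_erase b hΛK)
        ((Finset.erase_subset _ _).trans hK) (glue J ξ η) (glue J ξ' η') (by
          intro i hi hiK
          have h2 : i ∉ S.Fr Λ := by
            apply hJb i hi
            intro h3
            exact (Finset.mem_erase.1 (hiK b h3)).1 rfl
          have h3 : i ∉ J := fun h => h2 (Finset.mem_sdiff.1 h).1
          rw [glue_notMem h3, glue_notMem h3]
          exact hag i h2 (fun x hx => (Finset.mem_erase.1 (hiK x hx)).2))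
      have h2 := C3_union (A := A) n Λ' {c | c ∉ K.erase b} {c | c ∉ K} {b}
        (Ph S μ g sr δ θ Λ' (glue J ξ η) (glue J ξ' η'))
        (fun s s' t => Ph_nonneg S μ g sr δ θ _ _ _ _ _ _) (by
          intro c hc
          by_cases hcb : c = b
          · exact Or.inr hcb
          · left
            intro h
            exact hc (Finset.mem_erase.2 ⟨hcb, h⟩))
      linarith
    have hn1 := C3_nonneg (A := A) n Λ' {b}
      (fun s s' t => Ph S μ g sr δ θ Λ η η' (insert b s) s' t)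
      (fun s s' t => Ph_nonneg S μ g sr δ θ _ _ _ _ _ _)
    have hn2 := C3_nonneg (A := A) n Λ' {b}
      (fun s s' t => Ph S μ g sr δ θ Λ η η' s (insert b s') t)
      (fun s s' t => Ph_nonneg S μ g sr δ θ _ _ _ _ _ _)
    have hn3 := C3_nonneg (A := A) n Λ' {b}
      (fun s s' t => Ph S μ g sr δ θ Λ η η' s s' (t+1))
      (fun s s' t => Ph_nonneg S μ g sr δ θ _ _ _ _ _ _)
    have hstep := C3_step (A := A) n Λ {c | c ∉ K} (Ph S μ g sr δ θ Λ η η')
      (fun s s' t => Ph_nonneg S μ g sr δ θ _ _ _ _ _ _) b hb hd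
    -- masses of the remainders
    set r : (ι → X) → ℝ := fun ξ => dens S μ Λ Λ' η ξ - min (dens S μ Λ Λ' η ξ)
      (dens S μ Λ Λ' η' ξ) with hr
    set r' : (ι → X) → ℝ := fun ξ => dens S μ Λ Λ' η' ξ - min (dens S μ Λ Λ' η ξ)
      (dens S μ Λ Λ' η' ξ) with hr'
    have iD : Integrable (dens S μ Λ Λ' η) P := int_bdd P hDm hDb
    have iD' : Integrable (dens S μ Λ Λ' η') P := int_bdd P hDm' hDb'
    have im : Integrable (fun ξ => min (dens S μ Λ Λ' η ξ) (dens S μ Λ Λ' η' ξ)) P := by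
      apply int_bdd P (hDm.min hDm')
      obtain ⟨D, hD⟩ := hDb
      refine ⟨D, fun ξ => ?_⟩
      rw [abs_of_nonneg (le_min (hD0 ξ) (hD0' ξ))]
      exact (min_le_left _ _).trans ((le_abs_self _).trans (hD ξ))
    have hrr : ∫ ξ, r' ξ ∂P = ∫ ξ, r ξ ∂P := by
      simp only [hr, hr']
      rw [integral_sub iD im, integral_sub iD' im, hD1, hD1']
    have hr1 : ∫ ξ, r ξ ∂P ≤ 1 := by
      simp only [hr]
      rw [integral_sub iD im, hD1]
      have : 0 ≤ ∫ ξ, min (dens S μ Λ Λ' η ξ) (dens S μ Λ Λ' η' ξ) ∂P :=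
        integral_nonneg (fun ξ => le_min (hD0 ξ) (hD0' ξ))
      linarith
    have hS1 : Real.sqrt (∫ ξ, r ξ ∂P) ≤ 1 := by
      have h6 := Real.sqrt_le_sqrt hr1
      rwa [Real.sqrt_one] at h6
    by_cases hgood : ∀ τ ∈ S.tms (Nb sr b), (∀ a ∈ S.bt τ, a ∈ Nb sr b ∧ a ∉ Λ) → g τ η ∧ g τ η'
    · -- good surroundings
      have hκ : ∫ ξ, r ξ ∂P ≤ δ := by
        set E : Set (ι → X) := {ω | dens S μ Λ Λ' η' ω < dens S μ Λ Λ' η ω} with hE
        have hEm : MeasurableSet E := measurableSet_lt hDm' hDm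
        set F : (ι → X) → ℝ := E.indicator (fun _ => 1) with hF
        have hFm : Measurable F := measurable_const.indicator hEm
        have hF01 : ∀ ω, 0 ≤ F ω ∧ F ω ≤ 1 := by
          intro ω
          by_cases h : ω ∈ E
          · rw [hF, Set.indicator_of_mem h]; exact ⟨zero_le_one, le_refl _⟩
          · rw [hF, Set.indicator_of_notMem h]; exact ⟨le_refl _, zero_le_one⟩
        have hFb : ∃ K, ∀ ω, |F ω| ≤ K := ⟨1, fun ω => by
          rw [abs_of_nonneg (hF01 ω).1]; exact (hF01 ω).2⟩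
        have hFJ : ∀ ω ω' : ι → X, (∀ i ∈ J, ω i = ω' i) → F ω = F ω' := by
          intro ω ω' h
          have h1 : ω ∈ E ↔ ω' ∈ E := by
            simp only [hE, Set.mem_ofPred_eq]
            rw [dens_dep S μ Λ Λ' η ω ω' h, dens_dep S μ Λ Λ' η' ω ω' h]
          by_cases h2 : ω ∈ E
          · rw [hF, Set.indicator_of_mem h2, Set.indicator_of_mem (h1.1 h2)]
          · rw [hF, Set.indicator_of_notMem h2, Set.indicator_of_notMem (fun h3 => h2 (h1.2 h3))]
        have hFg : ∀ ξ ζ : ι → X, F (glue J ξ ζ) = F ξ := fun ξ ζ =>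
          hFJ _ _ (fun i hi => glue_mem hi)
        have hFd1 : Sys.dep {i | i ∉ S.Fr Λ'} F := by
          intro ω ω' h
          apply hFJ
          intro i hi
          exact h i (Finset.mem_sdiff.1 hi).2
        have hFd2 : Sys.dep {i | ∀ a ∈ S.bl i, (a ∈ Nb 2 b ∧ a ∉ Λ) ∨ a = b} F := by
          intro ω ω' h
          apply hFJ
          intro i hi
          apply h
          rw [hJ, Finset.mem_sdiff] at hi
          have hbi : b ∈ S.bl i := by
            by_contra hbi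
            exact hJb i hi.2 hbi hi.1
          intro x hx
          by_cases hxb : x = b
          · exact Or.inr hxb
          · left
            have h1 := S.diam_bl i b hbi x hx
            refine ⟨PkgX.mem_Nb.2 (near_mono h1 (by norm_num)), ?_⟩
            intro hxΛ
            apply hi.2
            rw [S.mem_Fr]
            exact ⟨x, hx, Finset.mem_erase.2 ⟨hxb, hxΛ⟩⟩
        have h1 := hQ b Λ hb η η' (by
          intro i hi
          apply hag i
          · intro h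
            rw [S.mem_Fr] at h
            obtain ⟨x, hx, hxΛ⟩ := h
            exact (hi x hx).2 hxΛ
          · intro x hx
            exact hbK (hi x hx).1) hgood F hFm hF01 hFd2
        rw [ker_dens S μ hF2 hΛ'Λ F hFm hFb hFd1 η, ker_dens S μ hF2 hΛ'Λ F hFm hFb hFd1 η'] at h1
        simp only [← hJ, ← hP, hFg] at h1
        have i1 : Integrable (fun ξ => F ξ * dens S μ Λ Λ' η ξ) P :=
          int_mul_bdd P (int_bdd P hFm hFb) hDm hDb
        have i2 : Integrable (fun ξ => F ξ * dens S μ Λ Λ' η' ξ) P :=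
          int_mul_bdd P (int_bdd P hFm hFb) hDm' hDb'
        have e3 : ∫ ξ, r ξ ∂P = ∫ ξ, (F ξ * dens S μ Λ Λ' η ξ - F ξ * dens S μ Λ Λ' η' ξ) ∂P := by
          congr 1
          funext ξ
          simp only [hr]
          by_cases h2 : ξ ∈ E
          · rw [hF, Set.indicator_of_mem h2, min_eq_right (le_of_lt h2)]
            ring
          · rw [hF, Set.indicator_of_notMem h2, min_eq_left (not_lt.1 h2)]
            ring
        rw [e3, integral_sub i1 i2]
        linarith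
      have hfin := step_gen hF2 hF3 hF5 S μ g sr δ θ hgm hθ (A := A) hΛ'Λ f hf hf1 η η' n Λ'
        {c | c ∉ K} {b} hs1 hs2 (Real.sqrt δ) (Real.sqrt_le_sqrt hκ)
        (Real.sqrt_le_sqrt (hrr.le.trans hκ))
      have h4 : (fun T T' t => Real.sqrt δ * Ph S μ g sr δ θ Λ η η' T T' t) =
          (fun T T' t => Ph S μ g sr δ θ Λ η η' T T' (t+1)) := by
        funext T T' t
        unfold Ph
        rw [pow_succ]
        ring
      rw [h4] at hfin
      linarith
    · -- bad surroundings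
      push Not at hgood
      obtain ⟨τ, hτ, hτ2, hτ3⟩ := hgood
      have hfin := step_gen hF2 hF3 hF5 S μ g sr δ θ hgm hθ (A := A) hΛ'Λ f hf hf1 η η' n Λ'
        {c | c ∉ K} {b} hs1 hs2 1 hS1 (by
          have := Real.sqrt_le_sqrt hrr.le
          exact this.trans hS1)
      simp only [one_mul] at hfin
      by_cases hτη : g τ η
      · have hbad := hτ3 hτη
        have h4 : (fun T T' t => Ph S μ g sr δ θ Λ η η' T T' t) =
            (fun T T' t => Ph S μ g sr δ θ Λ η η' T (insert b T') t) := by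
          funext T T' t
          unfold Ph
          rw [kk_insert S μ g sr θ Λ b η' T' hgl τ hτ hτ2 hbad]
        rw [h4] at hfin
        have h5 : C3 A n Λ' {c | c ∉ K} (Ph S μ g sr δ θ Λ η η') =
            C3 A n Λ' {c | c ∉ K} (fun T T' t => Ph S μ g sr δ θ Λ η η' T T' t) := rfl
        linarith
      · have h4 : (fun T T' t => Ph S μ g sr δ θ Λ η η' T T' t) =
            (fun T T' t => Ph S μ g sr δ θ Λ η η' (insert b T) T' t) := by
          funext T T' t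
          unfold Ph
          rw [kk_insert S μ g sr θ Λ b η T hgl τ hτ hτ2 hτη]
        rw [h4] at hfin
        linarith

end claim

end T2H02.TT.PkgXu

namespace T2H02.TT

open PkgX PkgXu

/-- the abstract coupling theorem with radius `s` -/
theorem pXu (hF2 : S_F2) (hF3 : S_F3) (hF5 : S_F5) : S_Xu := by
  classical
  intro ι Tm X _ _ _ S μ _ g sr p δ q hsr hgm hgl hp hQ hp0 hδ hq hδq hpq hq2 A Λ₀ n hA f hf hf1
    hfd η η'
  have hfb : ∃ K, ∀ ω, |f ω| ≤ K := ⟨1, hf1⟩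
  have hq1 : q ≤ 1 := by linarith
  rcases Nat.lt_or_ge n 3 with hn | hn
  · -- small radius
    have e0 : n / 3 = 0 := Nat.div_eq_of_lt hn
    rw [e0, pow_zero, mul_one]
    rcases Finset.eq_empty_or_nonempty A with hA0 | hA0
    · have hconst : ∀ ω ω' : ι → X, f ω = f ω' := by
        intro ω ω'
        apply hfd
        intro i hi
        exfalso
        obtain ⟨a, ha⟩ := S.bl_ne i
        have := hi a ha
        rw [hA0] at this
        exact Finset.notMem_empty a this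
      have e1 : ∀ ζ : ι → X, S.ker μ Λ₀ f ζ = f η := by
        intro ζ
        have : f = fun _ => f η := funext (fun ω => hconst ω η)
        rw [this]
        exact ker_const hF5 S μ Λ₀ _ ζ
      rw [e1, e1, sub_self, abs_zero]
      positivity
    · have h1 := ker_abs hF5 S μ (Λ := Λ₀) 1 f hf hf1 η
      have h2 := ker_abs hF5 S μ (Λ := Λ₀) 1 f hf hf1 η'
      have h3 := abs_sub (S.ker μ Λ₀ f η) (S.ker μ Λ₀ f η')
      have h4 : (1:ℝ) ≤ A.card := by exact_mod_cast Finset.card_pos.2 hA0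
      linarith
  · set Λ₁ : Finset Pl := Λ₀.filter (fun b => Nb (2 * sr) b ⊆ Λ₀) with hΛ₁
    have hΛ10 : Λ₁ ⊆ Λ₀ := Finset.filter_subset _ _
    set θ : ℝ := q ^ (4 * Λ₁.card) / 10 with hθd
    have hθ : 0 < θ := by positivity
    have hAΛ : ∀ a ∈ A, Nb n a ⊆ Λ₁ := by
      intro a ha x hx
      rw [PkgX.mem_Nb] at hx
      have hsub : Nb (2 * sr) x ⊆ Λ₀ := by
        intro y hy
        rw [PkgX.mem_Nb] at hy
        apply hA a ha
        rw [PkgX.mem_Nb]
        exact near_mono (near_trans hx hy) (by push_cast; linarith)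
      rw [hΛ₁, Finset.mem_filter]
      refine ⟨hsub ?_, hsub⟩
      rw [PkgX.mem_Nb]; unfold near; simp
    have hcl : ∀ ζ ζ' : ι → X, |S.ker μ Λ₁ f ζ - S.ker μ Λ₁ f ζ'| ≤
        2 * C3 A Λ₁.card Λ₁ {c | c ∉ Λ₁} (PkgXu.Ph S μ g sr δ θ Λ₁ ζ ζ') := by
      intro ζ ζ'
      apply claim3 hF2 hF3 hF5 S μ g sr δ θ hgm hgl hθ hQ hδ Λ₁ A f hf hf1 hfd Λ₁.card Λ₁ Λ₁
        (le_refl _) (Finset.Subset.refl _) (Finset.Subset.refl _) ζ ζ'
      intro i hi hi2
      exfalso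
      obtain ⟨a, ha⟩ := S.bl_ne i
      apply hi
      rw [S.mem_Fr]
      exact ⟨a, ha, hi2 a ha⟩
    have hstep := step_gen hF2 hF3 hF5 S μ g sr δ θ hgm hθ (A := A) hΛ10 f hf hf1 η η' Λ₁.card Λ₁
      {c | c ∉ Λ₁} ∅ (fun ξ => hcl _ _) (fun ξ ξ' => by
        rw [C3_empty, add_zero]
        exact hcl _ _) _ (le_max_left _ _) (le_max_right _ _)
    rw [C3_empty, mul_zero, add_zero] at hstep
    have hcount := C3_count (A := A) q hq hq2 Λ₁ n hn hAΛ Λ₁.card
      (PkgXu.Ph S μ g sr δ θ Λ₀ η η') (by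
        intro s hs s' hs' t
        have hkk : ∀ (ζ : ι → X) (T : Finset Pl), T ⊆ Λ₁ →
            qr (kk S μ g sr θ Λ₀ ζ T) ≤ qr (11 / 10) * q ^ T.card := by
          intro ζ T hT
          apply qr_le (by have := qr_nonneg (11 / 10); positivity)
          rw [kk_eq hF5 S μ g sr θ hgm hθ]
          have h3 := ker_Bp S g sr hgm hgl hF3 hF5 μ p hp hp0 q hq hq1 hpq Λ₀ T (by
            intro b hb
            exact (Finset.mem_filter.1 (hT hb)).2) ζ
          have h4 : q ^ (4 * Λ₁.card) ≤ (q ^ T.card) ^ 4 := by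
            rw [← pow_mul]
            apply pow_le_pow_of_le_one hq.le hq1
            have := Finset.card_le_card hT
            omega
          have h5 : (qr (11 / 10) : ℝ) ^ 4 = 11 / 10 := by
            have : (qr (11 / 10) : ℝ) ^ 4 = (qr (11 / 10) ^ 2) ^ 2 := by ring
            rw [this, qr_sq, Real.sq_sqrt (by norm_num)]
          rw [mul_pow, h5, hθd]
          linarith
        have h5 : Real.sqrt δ ≤ q := by
          rw [Real.sqrt_le_left hq.le]
          refine hδq.trans ?_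
          exact pow_le_pow_of_le_one hq.le hq1 (by norm_num)
        have h6 := hkk η s hs
        have h7 := hkk η' s' hs'
        have h8 : (qr (11 / 10) : ℝ) * qr (11 / 10) ≤ 11 / 10 := by
          rw [← sq, qr_sq, Real.sqrt_le_left (by norm_num)]
          norm_num
        have h9 := qr_nonneg (11 / 10)
        unfold PkgXu.Ph
        calc _ ≤ q ^ t * ((qr (11 / 10) * q ^ s.card) * (qr (11 / 10) * q ^ s'.card)) := by
              apply mul_le_mul (pow_le_pow_left₀ (Real.sqrt_nonneg _) h5 t) _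
                (mul_nonneg (qr_nonneg _) (qr_nonneg _)) (by positivity)
              exact mul_le_mul h6 h7 (qr_nonneg _) (by positivity)
          _ = (qr (11 / 10) * qr (11 / 10)) * q ^ (s.card + s'.card + t) := by ring
          _ ≤ _ := mul_le_mul_of_nonneg_right h8 (by positivity))
    calc _ ≤ _ := hstep
      _ ≤ 2 * (3 * A.card * (72 * q) ^ (n / 3)) := by linarith
      _ = _ := by ring

end T2H02.TT
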