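import Pool.Agent.T2H02.TT.StmU
import Pool.Agent.T2H02.TT.P1

/-!
# Package P1u : decay for the site-level kernels, rate `c / L` (helper13)
-/

set_option autoImplicit false
set_option linter.unusedSectionVars false

noncomputable section

open MeasureTheory Matrix
open scoped Matrix.Norms.Frobenius

namespace T2H02.TT.PkgP1u

/-- blocks -/
lemma sit_sub {M n m : ℕ} (hM : 0 < M) (hn : (m + 1) * M ≤ n) (A Λ : Finset Pl)
    (hA : ∀ a ∈ A, Nb n a ⊆ Λ) :
    sit M ((A.image (blk M)).biUnion (Nb ((n / M - 1 - m) + m))) ⊆ Λ := by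
  have h0 : m + 1 ≤ n / M := (Nat.le_div_iff_mul_le hM).2 hn
  have h1 : (n / M - 1 - m) + m = n / M - 1 := by omega
  have h2 : M ≤ n := by nlinarith
  rw [h1]
  exact PkgP1.sit_sub hM h2 A Λ hA

/-- arithmetic of the rate -/
lemma rate {β c K q : ℝ} {M n s : ℕ} (hβ : 1 < β) (hc : 0 < c) (hK : 0 < K) (hM : 0 < M)
    (hMK : (M : ℝ) ≤ K * Real.log β) (hq : 0 < q) (hqc : 72 * q ≤ β ^ (-c)) :
    (72 * q) ^ ((n / M - 1 - 2 * s) / 3) ≤
      β ^ ((2 + s) * c) * Real.exp (-(c / (3 * K)) * n) := by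
  have hβ0 : 0 < β := by linarith
  have hl : 0 < Real.log β := Real.log_pos hβ
  have hM' : (0 : ℝ) < M := by exact_mod_cast hM
  have hs0 : (0 : ℝ) ≤ s := Nat.cast_nonneg _
  obtain ⟨j, hj⟩ : ∃ j : ℕ, j = (n / M - 1 - 2 * s) / 3 := ⟨_, rfl⟩
  rw [← hj]
  have hjr : (n : ℝ) / (3 * M) - (2 + s) ≤ j := by
    have h1 : n < M * (n / M) + M := by
      have := Nat.div_add_mod n M
      have := Nat.mod_lt n hM
      omega
    have h2 : n / M ≤ 3 * j + 3 + 2 * s := by omega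
    have h3 : (n : ℝ) < M * ((n / M : ℕ) : ℝ) + M := by exact_mod_cast h1
    have h4 : ((n / M : ℕ) : ℝ) ≤ 3 * j + 3 + 2 * s := by exact_mod_cast h2
    have h5 : (n : ℝ) / (3 * M) ≤ j + (2 + s) := by
      rw [div_le_iff₀ (by positivity)]
      nlinarith [mul_nonneg hM'.le hs0]
    linarith
  calc (72 * q) ^ j ≤ (β ^ (-c)) ^ j := pow_le_pow_left₀ (by positivity) hqc j
    _ = Real.exp (-c * Real.log β * j) := by
        rw [Real.rpow_def_of_pos hβ0, ← Real.exp_nat_mul]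
        congr 1
        ring
    _ ≤ Real.exp ((2 + s) * c * Real.log β + -(c / (3 * K)) * n) := by
        refine Real.exp_le_exp.2 ?_
        have h6 : c / (3 * K) * n ≤ c * Real.log β * (n / (3 * M)) := by
          rw [div_mul_eq_mul_div, mul_div_assoc', div_le_div_iff₀ (by positivity) (by positivity)]
          have h7 : (0 : ℝ) ≤ c * n * 3 := by positivity
          nlinarith [mul_le_mul_of_nonneg_left hMK h7]
        have h8 := mul_le_mul_of_nonneg_left hjr (show 0 ≤ c * Real.log β by positivity)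
        nlinarith
    _ = β ^ ((2 + s) * c) * Real.exp (-(c / (3 * K)) * n) := by
        rw [Real.exp_add, Real.rpow_def_of_pos hβ0]
        congr 2
        ring

theorem pP1u (h3 : S_F3) (h5 : S_F5) (hX : S_Xu) (hZ : S_Zu) : S_P1u := by
  intro N k hN hk
  obtain ⟨c, C₀, K₀, hc, hC₀, HZ⟩ := hZ N k hN hk
  refine ⟨c / (3 * C₀), C₀, K₀, by positivity, hC₀, ?_⟩
  intro L _ β hβ hββ
  obtain ⟨M, s, hM, ε, p, δ, q, hs, hMK, hp, hδ, hq, hδq, hpq, hq2, hqc, hbad, hins⟩ :=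
    HZ L β hβ hββ
  have hL1 : (1 : ℝ) ≤ L := by exact_mod_cast Nat.one_le_iff_ne_zero.2 (NeZero.ne L)
  have hLK : (1 : ℝ) ≤ (L : ℝ) ^ K₀ := one_le_pow₀ hL1
  have hβ1 : 1 < β := by nlinarith
  have hβ0 : 0 < β := by linarith
  have hC0 : 0 < C₀ := by linarith
  have hL0 : (0 : ℝ) < L := by linarith
  obtain ⟨K, hK⟩ : ∃ K : ℝ, K = C₀ * L := ⟨_, rfl⟩
  have hK0 : 0 < K := by rw [hK]; positivity
  rw [← hK] at hMK
  have hrate : c / (3 * C₀) / L = c / (3 * K) := by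
    rw [hK, div_div]
    congr 1
    ring
  refine ⟨(2 + s) * c, by positivity, ?_⟩
  rw [hrate]
  intro A Λ n hA f hf hf1 hfd η η'
  have hN0 : 0 < N := by omega
  obtain ⟨S, hS⟩ : ∃ S, S = sysS N L k β hN hβ := ⟨_, rfl⟩
  rw [← hS] at hbad hins ⊢
  have hcard : (0 : ℝ) ≤ A.card := Nat.cast_nonneg _
  have hs0 : (0 : ℝ) ≤ s := Nat.cast_nonneg _
  rcases Finset.eq_empty_or_nonempty A with hAe | hAne
  · -- the function is constant
    subst hAe
    have hconst : ∀ X Y, f X = f Y := by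
      intro X Y
      refine hfd X Y fun l hl => ?_
      exact absurd (hl l.1.1 ((mem_st _ _).2 (Or.inl rfl))) (Finset.notMem_empty _)
    have hfc : f = fun _ => f η := funext fun X => hconst X η
    obtain ⟨-, hcst, -⟩ := h5 (Lk L) Tm (SU N) S (hm N) Λ
    rw [hfc, hcst, hcst]
    simp
  have hA1 : (1 : ℝ) ≤ A.card := by exact_mod_cast hAne.card_pos
  rcases Nat.lt_or_ge n ((2 * s + 1) * M) with hnM | hnM
  · -- small `n`
    obtain ⟨-, -, -, -, hbd, -⟩ := h5 (Lk L) Tm (SU N) S (hm N) Λ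
    have e1 := hbd 1 f hf hf1 η
    have e2 := hbd 1 f hf hf1 η'
    have e3 : |S.ker (hm N) Λ f η - S.ker (hm N) Λ f η'| ≤ 2 := by
      rw [abs_le] at e1 e2 ⊢
      constructor <;> linarith
    have hl : 0 < Real.log β := Real.log_pos hβ1
    have hnr : (n : ℝ) ≤ (2 * s + 1) * (K * Real.log β) := by
      have h1 : (n : ℝ) ≤ (2 * s + 1) * M := by exact_mod_cast hnM.le
      have h2 : (2 * (s : ℝ) + 1) * M ≤ (2 * s + 1) * (K * Real.log β) :=
        mul_le_mul_of_nonneg_left hMK (by positivity)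
      linarith
    have e4 : 1 ≤ β ^ ((2 + s) * c) * Real.exp (-(c / (3 * K)) * n) := by
      rw [Real.rpow_def_of_pos hβ0, ← Real.exp_add]
      refine Real.one_le_exp ?_
      have h1 : c / (3 * K) * n ≤ c / (3 * K) * ((2 * s + 1) * (K * Real.log β)) :=
        mul_le_mul_of_nonneg_left hnr (by positivity)
      have e5 : c / (3 * K) * ((2 * s + 1) * (K * Real.log β)) = (2 * s + 1) * (c * Real.log β) / 3 := by
        field_simp
      rw [e5] at h1
      have h2 : 0 < c * Real.log β := by positivity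
      nlinarith [mul_nonneg hs0 h2.le]
    calc |S.ker (hm N) Λ f η - S.ker (hm N) Λ f η'| ≤ 2 := e3
      _ ≤ 6 * 1 * 1 := by norm_num
      _ ≤ 6 * A.card * (β ^ ((2 + s) * c) * Real.exp (-(c / (3 * K)) * n)) :=
          mul_le_mul (by linarith) e4 zero_le_one (by positivity)
      _ = _ := by ring
  -- large `n`
  obtain ⟨n', hn'⟩ : ∃ n', n' = n / M - 1 - 2 * s := ⟨_, rfl⟩
  obtain ⟨A', hA'⟩ : ∃ A', A' = A.image (blk M) := ⟨_, rfl⟩
  obtain ⟨Λ', hΛ'⟩ : ∃ Λ', Λ' = A'.biUnion (Nb (n' + 2 * s)) := ⟨_, rfl⟩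
  have hsub : sit M Λ' ⊆ Λ := by
    rw [hΛ', hA', hn']
    exact sit_sub hM hnM A Λ hA
  have key := hX (Lk L) Tm (SU N) (coa S M hM) (hm N) (fun τ X => en k X τ ≤ ε) s p δ q hs
    (fun τ => measurableSet_le (en_cont k τ hN0).measurable measurable_const)
    (fun τ ω ω' h => by
      have hsp : (coa S M hM).sp τ = spt τ := by rw [hS]; rfl
      rw [hsp] at h
      show en k ω τ ≤ ε ↔ en k ω' τ ≤ ε
      rw [en_loc k τ ω ω' h])
    hbad hins hp hδ hq hδq hpq hq2 A' Λ' n'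
    (fun a ha => by
      rw [hΛ']
      exact Finset.subset_biUnion_of_mem (Nb (n' + 2 * s)) ha)
    f hf hf1
    (fun ω ω' h => hfd ω ω' fun l hl => h l (by
      intro a ha
      have hbl : (coa S M hM).bl l = (st l).image (blk M) := by rw [hS]; rfl
      rw [hbl] at ha
      obtain ⟨b, hb, rfl⟩ := Finset.mem_image.1 ha
      rw [hA']
      exact Finset.mem_image_of_mem _ (hl b hb)))
  obtain ⟨B, hB⟩ : ∃ B : ℝ, B = 6 * A.card * β ^ ((2 + s) * c) *
    Real.exp (-(c / (3 * K)) * n) := ⟨_, rfl⟩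
  have hkey : ∀ ω ω', S.ker (hm N) (sit M Λ') f ω ≤ S.ker (hm N) (sit M Λ') f ω' + B := by
    intro ω ω'
    have h6 := key ω ω'
    rw [coa_ker, coa_ker] at h6
    have h7 : (A'.card : ℝ) ≤ A.card := by
      rw [hA']
      exact_mod_cast Finset.card_image_le
    have h8 := rate (n := n) (s := s) hβ1 hc hK0 hM hMK hq hqc
    rw [← hn'] at h8
    have h9 : 6 * (A'.card : ℝ) * (72 * q) ^ (n' / 3) ≤ B := by
      calc 6 * (A'.card : ℝ) * (72 * q) ^ (n' / 3) ≤
            6 * A.card * (β ^ ((2 + s) * c) * Real.exp (-(c / (3 * K)) * n)) :=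
            mul_le_mul (by linarith) h8 (by positivity) (by positivity)
        _ = B := by rw [hB]; ring
    have := (abs_le.1 (h6.trans h9)).2
    linarith
  -- consistency
  have hΔ := h5 (Lk L) Tm (SU N) S (hm N) (sit M Λ')
  obtain ⟨-, -, -, hmea, hbd, -⟩ := hΔ
  have hgm : Measurable (S.ker (hm N) (sit M Λ') f) := hmea f hf ⟨1, hf1⟩
  have hgb : ∃ K, ∀ ω, |S.ker (hm N) (sit M Λ') f ω| ≤ K := ⟨1, fun ω => hbd 1 f hf hf1 ω⟩
  have hcons : ∀ ω, S.ker (hm N) Λ f ω = S.ker (hm N) Λ (S.ker (hm N) (sit M Λ') f) ω := by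
    intro ω
    have := h3 (Lk L) Tm (SU N) S (hm N) (sit M Λ') Λ hsub f hf ⟨1, hf1⟩ (fun _ => 1)
      measurable_const ⟨1, fun _ => by simp⟩ (fun _ _ _ => rfl) ω
    simpa using this
  rw [hcons η, hcons η', ← hB, abs_le]
  have g1 := PkgP1.osc h5 S (hm N) Λ _ hgm hgb B hkey η η'
  have g2 := PkgP1.osc h5 S (hm N) Λ _ hgm hgb B hkey η' η
  constructor <;> linarith

end T2H02.TT.PkgP1u

namespace T2H02.TT

theorem pP1u (h3 : S_F3) (h5 : S_F5) (hX : S_Xu) (hZ : S_Zu) : S_P1u := PkgP1u.pP1u h3 h5 hX hZ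

end T2H02.TT
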