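import Pool.Agent.T2H02.TT.StmU

/-!
# Package Zu: choice of the parameters, uniform in `L`
-/

set_option autoImplicit false

noncomputable section

open MeasureTheory Matrix Filter

namespace T2H02.TT

namespace PkgZu

theorem core {C b lg LK : ℝ} {L D M s : ℕ} {T T2 : ℝ} (hC : 1 ≤ C) (hCb : C ≤ b)
    (hD : (2 * D + 64 : ℝ) ≤ b) (hb : 72 ≤ b) (hlg0 : 1 ≤ lg) (hlg : lg ≤ b) (hL1 : 1 ≤ L)
    (hLb : (L : ℝ) ≤ b) (hLK1 : 1 ≤ LK) (hLK : LK ≤ b) (hs1 : 1 ≤ s) (hs : (s : ℝ) ≤ b)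
    (hM1 : 8 ≤ M) (hM : (M : ℝ) ≤ b) (hT0 : 0 ≤ T) (hT : T ≤ 1 / b ^ 800) (hT20 : 0 ≤ T2)
    (hT2 : T2 ≤ 1 / b ^ 800) (hlg' : Real.exp lg = b ^ 200)
    (hexp : Real.exp (-(b ^ 200) / C) ≤ 1 / b ^ 600) :
    let t := (2 * D + 64 : ℝ) * L ^ 2 * (s * M) ^ 2 * lg / b ^ 200
    let r := C * LK * (s * M : ℝ) ^ 8 * (T + t)
    let q := 1 / b ^ 18
    0 ≤ t ∧ 0 < q ∧ 72 * q ≤ 1 / 2 ∧ 72 * q ≤ 1 / b ^ 10 ∧ r ≤ 1 / C ∧
      s * M * (Real.exp (-(b ^ 200) * t) * (C * LK * b ^ 200) ^ (D * L ^ 2 * (s * M) ^ 2)) ≤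
        q ^ (3 * (4 * s + 4) ^ 2) ∧
      C * LK * M ^ 2 * (b ^ 200 * (r * Real.sqrt r + T2 * r) + Real.exp (-(b ^ 200) / C)) +
        4 * s * M * (Real.exp (-(b ^ 200) * t) * (C * LK * b ^ 200) ^ (D * L ^ 2 * (s * M) ^ 2)) ≤
        q ^ 3 := by
  intro t r q
  have b0 : (0 : ℝ) < b := by linarith
  have b1 : (1 : ℝ) ≤ b := by linarith
  have hM0 : (1 : ℝ) ≤ M := by exact_mod_cast le_trans (by norm_num) hM1
  have hMn : (0 : ℝ) ≤ M := by linarith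
  have hs0 : (1 : ℝ) ≤ s := by exact_mod_cast hs1
  have hsn : (0 : ℝ) ≤ s := by linarith
  have hL0 : (1 : ℝ) ≤ L := by exact_mod_cast hL1
  have hLn : (0 : ℝ) ≤ L := by linarith
  have hLKn : 0 ≤ LK := by linarith
  have hCn : 0 ≤ C := by linarith
  have hlgn : 0 ≤ lg := by linarith
  have hD0 : (0 : ℝ) ≤ 2 * D + 64 := by positivity
  have ht0 : 0 ≤ t := by positivity
  have hsM : (s * M : ℝ) ≤ b ^ 2 := by
    rw [sq]
    gcongr
  -- bounds of t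
  have ht : t ≤ b ^ 8 / b ^ 200 := by
    have : (2 * D + 64 : ℝ) * L ^ 2 * (s * M) ^ 2 * lg ≤ b * b ^ 2 * (b ^ 2) ^ 2 * b := by gcongr
    calc t ≤ (b * b ^ 2 * (b ^ 2) ^ 2 * b) / b ^ 200 := by
          simp only [t]
          gcongr
      _ = b ^ 8 / b ^ 200 := by ring
  have hT' : T ≤ b ^ 8 / b ^ 200 := by
    refine hT.trans ?_
    rw [div_le_div_iff₀ (by positivity) (by positivity), one_mul, ← pow_add]
    exact pow_le_pow_right₀ b1 (by norm_num)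
  have hTt : T + t ≤ b ^ 9 / b ^ 200 := by
    have : b ^ 8 / b ^ 200 + b ^ 8 / b ^ 200 ≤ b ^ 9 / b ^ 200 := by
      rw [← add_div]
      gcongr
      nlinarith [pow_pos b0 8]
    linarith
  have hr0 : 0 ≤ r := by
    have : 0 ≤ T + t := by positivity
    positivity
  have hr : r ≤ b ^ 27 / b ^ 200 := by
    calc r ≤ b * b * (b ^ 2) ^ 8 * (b ^ 9 / b ^ 200) := by
          simp only [r]
          gcongr
      _ = b ^ 27 / b ^ 200 := by ring
  have hr1 : r ≤ 1 / C := by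
    refine hr.trans ?_
    have h1 : 1 / b ≤ 1 / C := one_div_le_one_div_of_le (by linarith) hCb
    refine le_trans ?_ h1
    rw [div_le_div_iff₀ (by positivity) b0, one_mul, ← pow_succ]
    exact pow_le_pow_right₀ b1 (by norm_num)
  have hsr : Real.sqrt r ≤ b ^ 14 / b ^ 100 := by
    rw [Real.sqrt_le_left (by positivity)]
    refine hr.trans ?_
    rw [div_pow, ← pow_mul, ← pow_mul]
    exact div_le_div_of_nonneg_right (pow_le_pow_right₀ b1 (by norm_num)) (by positivity)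
  -- the probability
  have hsM2 : 1 ≤ (s * M) ^ 2 := Nat.one_le_pow _ _ (by positivity)
  have hP : Real.exp (-(b ^ 200) * t) * (C * LK * b ^ 200) ^ (D * L ^ 2 * (s * M) ^ 2) ≤
      1 / (b ^ 200) ^ (64 * (s * M) ^ 2) := by
    have e1 : Real.exp (-(b ^ 200) * t) = 1 / (b ^ 200) ^ ((2 * D + 64) * L ^ 2 * (s * M) ^ 2) := by
      have : -(b ^ 200) * t = -(((2 * D + 64) * L ^ 2 * (s * M) ^ 2 : ℕ) * lg) := by
        simp only [t]
        push_cast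
        field_simp
      rw [this, Real.exp_neg, Real.exp_nat_mul, hlg', one_div]
    have e2 : (C * LK * b ^ 200) ^ (D * L ^ 2 * (s * M) ^ 2) ≤
        (b ^ 200) ^ (2 * (D * L ^ 2 * (s * M) ^ 2)) := by
      rw [pow_mul (b ^ 200) 2]
      refine pow_le_pow_left₀ (by positivity) ?_ _
      rw [sq]
      gcongr
      calc C * LK ≤ b * b := by gcongr
        _ = b ^ 2 := (sq b).symm
        _ ≤ b ^ 200 := pow_le_pow_right₀ b1 (by norm_num)
    have e3 : (2 * D + 64) * L ^ 2 * (s * M) ^ 2 =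
        2 * (D * L ^ 2 * (s * M) ^ 2) + 64 * L ^ 2 * (s * M) ^ 2 := by ring
    calc Real.exp (-(b ^ 200) * t) * (C * LK * b ^ 200) ^ (D * L ^ 2 * (s * M) ^ 2)
        ≤ 1 / (b ^ 200) ^ ((2 * D + 64) * L ^ 2 * (s * M) ^ 2) *
          (b ^ 200) ^ (2 * (D * L ^ 2 * (s * M) ^ 2)) := by
          rw [e1]
          gcongr
      _ = 1 / (b ^ 200) ^ (64 * L ^ 2 * (s * M) ^ 2) := by
          rw [e3, pow_add (b ^ 200)]
          field_simp
      _ ≤ 1 / (b ^ 200) ^ (64 * (s * M) ^ 2) := by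
          refine one_div_le_one_div_of_le (by positivity) (pow_le_pow_right₀
            (one_le_pow₀ b1) ?_)
          have : 1 ≤ L ^ 2 := Nat.one_le_pow _ _ hL1
          nlinarith
  have hP0 : 0 ≤ Real.exp (-(b ^ 200) * t) * (C * LK * b ^ 200) ^ (D * L ^ 2 * (s * M) ^ 2) := by
    positivity
  have hP' : Real.exp (-(b ^ 200) * t) * (C * LK * b ^ 200) ^ (D * L ^ 2 * (s * M) ^ 2) ≤
      1 / b ^ 1600 := by
    refine hP.trans ?_
    rw [← pow_mul]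
    refine one_div_le_one_div_of_le (by positivity) (pow_le_pow_right₀ b1 ?_)
    nlinarith
  refine ⟨ht0, by positivity, ?_, ?_, hr1, ?_, ?_⟩
  · have h1 : b ^ 2 ≤ b ^ 18 := pow_le_pow_right₀ b1 (by norm_num)
    have h2 : (144 : ℝ) ≤ b ^ 2 := by nlinarith
    simp only [q]
    rw [mul_one_div, div_le_div_iff₀ (by positivity) (by norm_num)]
    linarith
  · simp only [q]
    rw [mul_one_div, div_le_div_iff₀ (by positivity) (by positivity), one_mul]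
    have h1 : b ^ 18 = b ^ 8 * b ^ 10 := by rw [← pow_add]
    rw [h1]
    gcongr
    calc (72 : ℝ) ≤ b := hb
      _ = b ^ 1 := (pow_one b).symm
      _ ≤ b ^ 8 := pow_le_pow_right₀ b1 (by norm_num)
  · have h1 : s * M * (Real.exp (-(b ^ 200) * t) *
        (C * LK * b ^ 200) ^ (D * L ^ 2 * (s * M) ^ 2)) ≤
        b ^ 2 * (1 / (b ^ 200) ^ (64 * (s * M) ^ 2)) := by
      gcongr
    refine h1.trans ?_
    simp only [q]
    rw [div_pow, one_pow, ← pow_mul, mul_one_div, div_le_div_iff₀ (by positivity) (by positivity),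
      one_mul, ← pow_mul, ← pow_add]
    refine pow_le_pow_right₀ b1 ?_
    have h2 : (8 * s) ^ 2 ≤ (s * M) ^ 2 := Nat.pow_le_pow_left (by nlinarith) 2
    have h3 : (4 * s + 4) ^ 2 ≤ (8 * s) ^ 2 := Nat.pow_le_pow_left (by omega) 2
    have h4 : 64 * 1 ≤ (8 * s) ^ 2 := by nlinarith
    calc 2 + 18 * (3 * (4 * s + 4) ^ 2) = 2 + 54 * (4 * s + 4) ^ 2 := by ring
      _ ≤ 2 + 54 * (s * M) ^ 2 := by omega
      _ ≤ 200 * (64 * (s * M) ^ 2) := by omega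
  · have a1 : b ^ 200 * (r * Real.sqrt r) ≤ b ^ 41 / b ^ 100 := by
      calc b ^ 200 * (r * Real.sqrt r) ≤ b ^ 200 * (b ^ 27 / b ^ 200 * (b ^ 14 / b ^ 100)) := by
            gcongr
        _ = b ^ 41 / b ^ 100 := by
            field_simp
    have a2 : b ^ 200 * (T2 * r) ≤ b ^ 41 / b ^ 100 := by
      calc b ^ 200 * (T2 * r) ≤ b ^ 200 * (1 / b ^ 800 * (b ^ 27 / b ^ 200)) := by
            gcongr
        _ = b ^ 27 / b ^ 800 := by
            field_simp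
        _ ≤ b ^ 41 / b ^ 100 := by
            rw [div_le_div_iff₀ (by positivity) (by positivity), ← pow_add, ← pow_add]
            exact pow_le_pow_right₀ b1 (by norm_num)
    have a3 : Real.exp (-(b ^ 200) / C) ≤ b ^ 41 / b ^ 100 := by
      refine hexp.trans ?_
      rw [div_le_div_iff₀ (by positivity) (by positivity), ← pow_add, one_mul]
      exact pow_le_pow_right₀ b1 (by norm_num)
    have a4 : b ^ 200 * (r * Real.sqrt r + T2 * r) + Real.exp (-(b ^ 200) / C)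
        ≤ 3 * (b ^ 41 / b ^ 100) := by
      rw [mul_add]
      linarith
    have a4' : 0 ≤ b ^ 200 * (r * Real.sqrt r + T2 * r) + Real.exp (-(b ^ 200) / C) := by
      positivity
    have a5 : C * LK * M ^ 2 * (b ^ 200 * (r * Real.sqrt r + T2 * r) + Real.exp (-(b ^ 200) / C))
        ≤ b * b * b ^ 2 * (3 * (b ^ 41 / b ^ 100)) := by gcongr
    have a6 : 4 * s * M * (Real.exp (-(b ^ 200) * t) *
        (C * LK * b ^ 200) ^ (D * L ^ 2 * (s * M) ^ 2)) ≤ 4 * b * b * (1 / b ^ 1600) := by gcongr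
    have a7 : 4 * b * b * (1 / b ^ 1600) ≤ b ^ 45 / b ^ 100 := by
      rw [mul_one_div, div_le_div_iff₀ (by positivity) (by positivity)]
      have : (4 : ℝ) * b * b * b ^ 100 ≤ b * b * b * b ^ 100 := by gcongr; linarith
      refine this.trans ?_
      have e : b * b * b * b ^ 100 = b ^ 103 := by ring
      rw [e, ← pow_add]
      exact pow_le_pow_right₀ b1 (by norm_num)
    have a8 : b * b * b ^ 2 * (3 * (b ^ 41 / b ^ 100)) = 3 * (b ^ 45 / b ^ 100) := by ring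
    have a9 : 4 * (b ^ 45 / b ^ 100) ≤ q ^ 3 := by
      simp only [q]
      rw [div_pow, one_pow, ← pow_mul, ← mul_div_assoc, div_le_div_iff₀ (by positivity) (by positivity),
        one_mul]
      calc 4 * b ^ 45 * b ^ (18 * 3) ≤ b * b ^ 45 * b ^ (18 * 3) := by gcongr; linarith
        _ = b ^ 100 := by ring
        _ ≤ b ^ 100 := le_rfl
    linarith

theorem params {C c : ℝ} (K D : ℕ) (hC : 1 ≤ C) (hc : 0 < c) :
    ∃ C₀ : ℝ, 2 ≤ C₀ ∧ ∀ (L : ℕ), 1 ≤ L → ∀ β : ℝ, C₀ * (L : ℝ) ^ (200 * (K + 2)) ≤ β →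
      ∃ (M : ℕ) (b : ℝ),
      β = b ^ 200 ∧ β ^ (-(1 / 20) : ℝ) = 1 / b ^ 10 ∧ (M : ℝ) ≤ C₀ * L * Real.log β ∧ C ≤ b ∧
      (2 * D + 64 : ℝ) ≤ b ∧ 72 ≤ b ∧ 1 ≤ Real.log β ∧ Real.log β ≤ b ∧ (L : ℝ) ≤ b ∧
      (L : ℝ) ^ K ≤ b ∧ 8 ≤ M ∧ (M : ℝ) ≤ b ∧
      Real.exp (-(M / C)) ≤ 1 / b ^ 800 ∧ Real.exp (-c * M / L) ≤ 1 / b ^ 800 ∧
      Real.exp (Real.log β) = b ^ 200 ∧
      Real.exp (-(b ^ 200) / C) ≤ 1 / b ^ 600 := by
  obtain ⟨K₂, hK8, hKC, hKc⟩ : ∃ K₂ : ℝ, 8 ≤ K₂ ∧ 4 * C ≤ K₂ ∧ 4 ≤ c * K₂ := by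
    refine ⟨max 8 (max (4 * C) (4 / c)), le_max_left _ _,
      (le_max_left _ _).trans (le_max_right _ _), ?_⟩
    calc (4 : ℝ) = c * (4 / c) := by field_simp
      _ ≤ _ := by
          gcongr
          exact (le_max_right _ _).trans (le_max_right _ _)
  have e1 : ∀ᶠ β : ℝ in atTop, 1 ≤ Real.log β :=
    Real.tendsto_log_atTop.eventually (eventually_ge_atTop 1)
  have e2 : ∀ᶠ β : ℝ in atTop, max (max C (2 * D + 64)) 72 ≤ β ^ (1 / 200 : ℝ) :=
    (tendsto_rpow_atTop (by norm_num)).eventually (eventually_ge_atTop _)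
  have e3 : ∀ᶠ β : ℝ in atTop, (K₂ + 1) * Real.log β ≤ β ^ (1 / 400 : ℝ) := by
    have h := (isLittleO_log_rpow_atTop (show (0 : ℝ) < 1 / 400 by norm_num)).def
      (show (0 : ℝ) < 1 / (K₂ + 1) by positivity)
    filter_upwards [h, e1, eventually_ge_atTop 0] with β h2 h3 h4
    rw [Real.norm_of_nonneg (by linarith), Real.norm_of_nonneg (Real.rpow_nonneg h4 _)] at h2
    rw [one_div, ← div_eq_inv_mul, le_div_iff₀ (by linarith)] at h2
    linarith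
  have e4 : ∀ᶠ β : ℝ in atTop, Real.exp (-β / C) ≤ 1 / β ^ 3 := by
    have h : Tendsto (fun x : ℝ => x ^ 3 * Real.exp (-x)) atTop (nhds 0) :=
      Real.tendsto_pow_mul_exp_neg_atTop_nhds_zero 3
    have h2 : Tendsto (fun β : ℝ => β / C) atTop atTop :=
      tendsto_id.atTop_div_const (by linarith)
    have h3 := (h.comp h2).eventually (ge_mem_nhds (show (0 : ℝ) < 1 / C ^ 3 by positivity))
    filter_upwards [h3, eventually_gt_atTop 0] with β h4 h5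
    simp only [Function.comp] at h4
    rw [le_div_iff₀ (by positivity)]
    have h6 : (β / C) ^ 3 * Real.exp (-(β / C)) * C ^ 3 ≤ 1 / C ^ 3 * C ^ 3 := by gcongr
    have h7 : (β / C) ^ 3 * Real.exp (-(β / C)) * C ^ 3 = Real.exp (-β / C) * β ^ 3 := by
      rw [neg_div]
      field_simp
    rw [h7, one_div, inv_mul_cancel₀ (by positivity)] at h6
    exact h6
  obtain ⟨β₁, hβ₁⟩ := eventually_atTop.1 ((e1.and e2).and (e3.and e4))
  refine ⟨max (max β₁ 2) (K₂ + 1), le_trans (le_max_right _ _) (le_max_left _ _),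
    fun L hL β hβ => ?_⟩
  set C₀ := max (max β₁ 2) (K₂ + 1) with hC₀
  have hC₀β₁ : β₁ ≤ C₀ := (le_max_left _ _).trans (le_max_left _ _)
  have hC₀2 : 2 ≤ C₀ := (le_max_right _ _).trans (le_max_left _ _)
  have hC₀K : K₂ + 1 ≤ C₀ := le_max_right _ _
  have hL1 : (1 : ℝ) ≤ L := by exact_mod_cast hL
  have hLp : (1 : ℝ) ≤ (L : ℝ) ^ (200 * (K + 2)) := one_le_pow₀ hL1
  have hβC : C₀ ≤ β := by nlinarith
  have hβL : (L : ℝ) ^ (200 * (K + 2)) ≤ β := by nlinarith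
  obtain ⟨⟨g1, g2⟩, g3, g4⟩ := hβ₁ β (hC₀β₁.trans hβC)
  have hβ2 : 2 ≤ β := hC₀2.trans hβC
  have hβ0 : 0 ≤ β := by linarith
  have hβp : 0 < β := by linarith
  set b := β ^ (1 / 200 : ℝ) with hb
  set d := β ^ (1 / 400 : ℝ) with hd
  have hb0 : 0 ≤ b := Real.rpow_nonneg hβ0 _
  have hd0 : 0 ≤ d := Real.rpow_nonneg hβ0 _
  have hb200 : β = b ^ 200 := by
    rw [hb, ← Real.rpow_natCast, ← Real.rpow_mul hβ0]
    norm_num
  have hbd : b = d ^ 2 := by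
    rw [hb, hd, ← Real.rpow_natCast, ← Real.rpow_mul hβ0]
    norm_num
  have hb10 : β ^ (-(1 / 20) : ℝ) = 1 / b ^ 10 := by
    rw [hb, ← Real.rpow_natCast, ← Real.rpow_mul hβ0, Real.rpow_neg hβ0, one_div]
    norm_num
  have hLb : (L : ℝ) ^ (K + 2) ≤ b := by
    have : ((L : ℝ) ^ (K + 2)) ^ 200 ≤ b ^ 200 := by
      rw [← hb200, ← pow_mul, mul_comm (K + 2) 200]
      exact hβL
    exact le_of_pow_le_pow_left₀ (by norm_num) hb0 this
  have hL2 : (L : ℝ) ^ 2 ≤ b := (pow_le_pow_right₀ hL1 (by omega)).trans hLb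
  have hLd : (L : ℝ) ≤ d := by
    rw [hbd] at hL2
    exact le_of_pow_le_pow_left₀ (by norm_num) hd0 hL2
  have hlog1 : 1 ≤ L * Real.log β := by nlinarith
  have hM : ((⌈K₂ * (L * Real.log β)⌉₊ : ℕ) : ℝ) ≤ (K₂ + 1) * (L * Real.log β) := by
    have := (Nat.ceil_lt_add_one (show 0 ≤ K₂ * (L * Real.log β) by positivity)).le
    refine this.trans ?_
    rw [add_mul, one_mul]
    linarith
  have hMle : K₂ * (L * Real.log β) ≤ ((⌈K₂ * (L * Real.log β)⌉₊ : ℕ) : ℝ) := Nat.le_ceil _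
  have hlogb : Real.log β ≤ d := by
    refine le_trans ?_ g3
    nlinarith
  have hexp4 : Real.exp (-(4 * Real.log β)) ≤ 1 / b ^ 800 := by
    have h10 : Real.exp (4 * Real.log β) = b ^ 800 := by
      have := Real.exp_nat_mul (Real.log β) 4
      push_cast at this
      rw [this, Real.exp_log hβp, hb200, ← pow_mul]
    rw [Real.exp_neg, h10, one_div]
  have hd1 : 1 ≤ d := hL1.trans hLd
  have hdb : d ≤ b := by rw [hbd]; nlinarith
  refine ⟨⌈K₂ * (L * Real.log β)⌉₊, b, hb200, hb10, ?_, ?_, ?_, ?_, g1, ?_, ?_, ?_, ?_, ?_, ?_, ?_,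
    ?_, ?_⟩
  · refine hM.trans ?_
    rw [mul_assoc C₀]
    gcongr
  · exact (le_max_left _ _).trans ((le_max_left _ _).trans g2)
  · exact (le_max_right _ _).trans ((le_max_left _ _).trans g2)
  · exact (le_max_right _ _).trans g2
  · exact hlogb.trans hdb
  · exact hLd.trans hdb
  · exact (pow_le_pow_right₀ hL1 (by omega)).trans hLb
  · have h8 : (8 : ℝ) ≤ ⌈K₂ * (L * Real.log β)⌉₊ := by
      refine le_trans ?_ hMle
      nlinarith
    exact_mod_cast h8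
  · refine hM.trans ?_
    calc (K₂ + 1) * (L * Real.log β) = L * ((K₂ + 1) * Real.log β) := by ring
      _ ≤ d * d := by gcongr
      _ = b := by rw [hbd]; ring
  · refine le_trans (Real.exp_le_exp.2 ?_) hexp4
    rw [neg_le_neg_iff, le_div_iff₀ (by linarith)]
    calc 4 * Real.log β * C = (4 * C) * Real.log β := by ring
      _ ≤ K₂ * (L * Real.log β) := by
          gcongr
          nlinarith
      _ ≤ _ := hMle
  · refine le_trans (Real.exp_le_exp.2 ?_) hexp4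
    rw [neg_mul, neg_div, neg_le_neg_iff, le_div_iff₀ (by linarith)]
    calc 4 * Real.log β * L ≤ (c * K₂) * Real.log β * L := by gcongr
      _ = c * (K₂ * (L * Real.log β)) := by ring
      _ ≤ _ := by gcongr
  · rw [Real.exp_log hβp, ← hb200]
  · rw [← hb200]
    refine g4.trans (le_of_eq ?_)
    rw [hb200, ← pow_mul]

end PkgZu

theorem pZu (hZ1 : S_Z1u) : S_Zu := by
  intro N k hN hk
  obtain ⟨C, c, K, D, hC, hc, H⟩ := hZ1 N k hN hk
  obtain ⟨C₀, hC₀, hpar⟩ := PkgZu.params K D hC hc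
  refine ⟨1 / 20, C₀, 200 * (K + 2), by norm_num, hC₀, fun L _ β hβ hβ1 => ?_⟩
  have hL : 1 ≤ L := Nat.one_le_iff_ne_zero.2 (NeZero.ne L)
  have hL1 : (1 : ℝ) ≤ L := by exact_mod_cast hL
  obtain ⟨M, b, e1, e2, gM, g2, g3, g4, g5, g6, gL, gLK, g7, g8, g9, g9', g10, g11⟩ :=
    hpar L hL β hβ1
  have hM : 0 < M := by omega
  have hs1 : 1 ≤ L ^ K := Nat.one_le_pow _ _ hL
  have hs : ((L ^ K : ℕ) : ℝ) = (L : ℝ) ^ K := by push_cast; rfl
  have hLK1 : (1 : ℝ) ≤ (L : ℝ) ^ K := one_le_pow₀ hL1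
  have hLK0 : (0 : ℝ) < (L : ℝ) ^ K := by linarith
  have hT : Real.exp (-((L ^ K : ℕ) * M) / (C * (L : ℝ) ^ K)) ≤ 1 / b ^ 800 := by
    refine le_trans (le_of_eq ?_) g9
    congr 1
    rw [hs]
    have : C ≠ 0 := by linarith
    field_simp
  obtain ⟨r1, r2, r3, r4, r5, r6, r7⟩ := PkgZu.core (L := L) (D := D) (M := M) (s := L ^ K)
    (LK := (L : ℝ) ^ K) (T := Real.exp (-((L ^ K : ℕ) * M) / (C * (L : ℝ) ^ K)))
    (T2 := Real.exp (-c * M / L)) hC g2 g3 g4 g5 g6 hL gL hLK1 gLK hs1 (by rw [hs]; exact gLK)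
    g7 g8 (Real.exp_nonneg _) hT (Real.exp_nonneg _) g9' g10 g11
  set t := (2 * D + 64 : ℝ) * L ^ 2 * (((L ^ K : ℕ) : ℝ) * M) ^ 2 * Real.log β / b ^ 200 with ht
  have hβ1' : 1 ≤ β := by
    have : (1 : ℝ) ≤ (L : ℝ) ^ (200 * (K + 2)) := one_le_pow₀ hL1
    nlinarith
  obtain ⟨H1, H2⟩ := H L β hβ hβ1' M (L ^ K) hM t
    (C * (L : ℝ) ^ K * (((L ^ K : ℕ) : ℝ) * M) ^ 2 *
      (Real.exp (-((L ^ K : ℕ) * M) / (C * (L : ℝ) ^ K)) + t))
    (C * (L : ℝ) ^ K * (((L ^ K : ℕ) : ℝ) * M) ^ 8 *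
      (Real.exp (-((L ^ K : ℕ) * M) / (C * (L : ℝ) ^ K)) + t)) g7 hs1 r1 rfl rfl r5
  rw [← e1] at r6 r7
  refine ⟨M, L ^ K, hM, C * (L : ℝ) ^ K * (((L ^ K : ℕ) : ℝ) * M) ^ 2 *
      (Real.exp (-((L ^ K : ℕ) * M) / (C * (L : ℝ) ^ K)) + t), (1 / b ^ 18) ^ (3 * (4 * L ^ K + 4) ^ 2), (1 / b ^ 18) ^ 3, 1 / b ^ 18,
    hs1, gM, by positivity, by positivity, r2, le_rfl, le_rfl, r3, ?_, ?_, ?_⟩
  · rw [e2]
    exact r4
  · intro b' η
    exact (H1 b' η).trans r6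
  · intro b' Λ hb' η η' h3 h4 F hF hF1 hdep
    refine (H2 b' Λ hb' η η' h3 h4 F hF hF1 hdep).trans ?_
    gcongr

end T2H02.TT
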