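import Pool.Agent.T2H02.TT.StmU
import Pool.Agent.T2H02.TT.Z1

/-!
# Package Z1u : the hypotheses of the coupling theorem on the block lattice, constants polynomial in `L`
-/

set_option autoImplicit false
set_option linter.unusedSectionVars false
set_option linter.unusedVariables false

noncomputable section

open MeasureTheory Matrix
open scoped Matrix.Norms.Frobenius

namespace T2H02.TT.PkgZ1u

open T2H02.TT T2H02.TT.PkgZ1

/-! ### geometry of the plane -/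

lemma blk_Nbs {M : ℕ} (hM : 0 < M) {s : ℕ} {a c : Pl} (h : a ∈ Nb (s * M) c) :
    blk M a ∈ Nb s (blk M c) := by
  have hM' : (0 : ℤ) < M := by exact_mod_cast hM
  have key : ∀ u v : ℤ, |u - v| ≤ ((s * M : ℕ) : ℤ) → |u / M - v / M| ≤ (s : ℤ) := by
    intro u v h
    push_cast at h
    rw [abs_le] at h ⊢
    have a1 := Int.emod_nonneg u hM'.ne'
    have a2 := Int.emod_lt_of_pos u hM'
    have a3 := Int.emod_add_mul_ediv u M
    have b1 := Int.emod_nonneg v hM'.ne'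
    have b2 := Int.emod_lt_of_pos v hM'
    have b3 := Int.emod_add_mul_ediv v M
    constructor
    · by_contra hc
      push Not at hc
      have : u / M - v / M ≤ -(s : ℤ) - 1 := by omega
      nlinarith
    · by_contra hc
      push Not at hc
      have : (s : ℤ) + 1 ≤ u / M - v / M := by omega
      nlinarith
  rw [mem_Nb] at h ⊢
  exact ⟨key _ _ h.1, key _ _ h.2⟩

lemma bal_sits {M : ℕ} (hM : 0 < M) (s r : ℕ) (b : Pl) :
    bal (s * M) (sit M (Nb r b)) ⊆ sit M (Nb (r + s) b) := fun a ha => by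
  obtain ⟨c, hc, hac⟩ := (mem_bal _ _ _).1 ha
  rw [mem_sit M hM] at hc ⊢
  have := Nb_Nb (blk_Nbs hM hac) hc
  rwa [add_comm] at this

lemma bal_sits1 {M : ℕ} (hM : 0 < M) (s : ℕ) (b : Pl) :
    bal (s * M) (sit M {b}) ⊆ sit M (Nb s b) := fun a ha => by
  obtain ⟨c, hc, hac⟩ := (mem_bal _ _ _).1 ha
  rw [mem_sit M hM] at hc ⊢
  rw [Finset.mem_singleton] at hc
  rw [← hc]
  exact blk_Nbs hM hac

/-! ### numbers -/

lemma exp1 {cH E x : ℝ} (hc : 1 ≤ cH) (hE : cH ≤ E) (hx : 0 ≤ x) :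
    Real.exp (-(x - 1) / cH) ≤ 3 * Real.exp (-x / E) := by
  have h0 : 0 < cH := by linarith
  have h1 : -(x - 1) / cH ≤ 1 + -x / E := by
    have h2 : x / E ≤ x / cH := by gcongr
    have h3 : 1 / cH ≤ 1 := by
      rw [div_le_one h0]
      exact hc
    have h4 : -(x - 1) / cH = 1 / cH - x / cH := by ring
    have h5 : -x / E = -(x / E) := by ring
    rw [h4, h5]
    linarith
  calc Real.exp (-(x - 1) / cH) ≤ Real.exp (1 + -x / E) := Real.exp_le_exp.2 h1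
    _ = Real.exp 1 * Real.exp (-x / E) := Real.exp_add _ _
    _ ≤ 3 * Real.exp (-x / E) := by
        have := Real.exp_one_lt_d9
        have h := Real.exp_pos (-x / E)
        nlinarith

lemma exp2 {cH E x R : ℝ} (hc : 1 ≤ cH) (hE : 8 * cH ≤ E) (hx : 0 ≤ x) (hR : x ≤ 8 * R) :
    Real.exp (-R / cH) ≤ Real.exp (-x / E) := by
  have h0 : 0 < cH := by linarith
  rw [Real.exp_le_exp, neg_div, neg_div, neg_le_neg_iff]
  have hR0 : 0 ≤ R := by linarith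
  calc x / E ≤ x / (8 * cH) := by gcongr
    _ ≤ 8 * R / (8 * cH) := by gcongr
    _ = R / cH := by
        rw [mul_div_mul_left _ _ (by norm_num : (8 : ℝ) ≠ 0)]

lemma exp3 {cm ℓ R M : ℝ} (hc : 0 < cm) (hℓ : 0 < ℓ) (hR : M ≤ 4 * R) :
    Real.exp (-cm * R / ℓ) ≤ Real.exp (-(cm / 4) * M / ℓ) := by
  rw [Real.exp_le_exp, div_le_div_iff_of_pos_right hℓ]
  nlinarith

lemma num1 {cH E x t W P c : ℝ} (hcH : 1 ≤ cH) (hE : 75 * cH ≤ E)
    (hx : 1 ≤ x) (ht : 0 ≤ t) (hW : 0 ≤ W) (hP : P ≤ 3 * W) (hP0 : 0 ≤ P) (hc0 : 0 ≤ c)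
    (hc : c ≤ 25 * x ^ 2) : cH * (c * (P + 0) + t) ≤ E * x ^ 2 * (W + t) := by
  have hC0 : 0 < cH := by linarith
  have hx2 : 1 ≤ x ^ 2 := by nlinarith
  calc cH * (c * (P + 0) + t) ≤ cH * ((25 * x ^ 2) * (3 * W + 0) + t) := by gcongr
    _ ≤ cH * (75 * x ^ 2 * (W + t)) := by
        have : t ≤ 75 * x ^ 2 * t := by nlinarith
        have h2 : (25 * x ^ 2) * (3 * W + 0) + t ≤ 75 * x ^ 2 * (W + t) := by nlinarith
        gcongr
    _ = (75 * cH) * (x ^ 2 * (W + t)) := by ring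
    _ ≤ E * (x ^ 2 * (W + t)) := by
        have : 0 ≤ W + t := by linarith
        gcongr
    _ = E * x ^ 2 * (W + t) := by ring

lemma num2 {cH E x t W Q n ε : ℝ} (hcH : 1 ≤ cH) (hE : 1 ≤ E) (hx : 1 ≤ x) (ht : 0 ≤ t)
    (hW : 0 ≤ W) (hQ : Q ≤ W) (hQ0 : 0 ≤ Q) (hn0 : 0 ≤ n) (hn : n ≤ 9 * x ^ 2)
    (hε : ε = E * x ^ 2 * (W + t)) :
    cH * (n * (Q + ε) + t) + ε ≤ 20 * cH * (E * x ^ 4 * (W + t)) := by
  have hT : 0 ≤ W + t := by linarith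
  have hx2 : 1 ≤ x ^ 2 := by nlinarith
  have hε0 : 0 ≤ ε := by rw [hε]; positivity
  have y3 : E * x ^ 2 * (W + t) ≤ E * x ^ 4 * (W + t) := by
    have : x ^ 2 ≤ x ^ 4 := by nlinarith
    gcongr
  have y2 : x ^ 2 * (W + t) ≤ E * x ^ 4 * (W + t) := by
    refine le_trans ?_ y3
    have : 0 ≤ x ^ 2 * (W + t) := by positivity
    nlinarith
  have y1 : (W + t) ≤ E * x ^ 4 * (W + t) := by
    refine le_trans ?_ y2
    nlinarith
  have b1 : n * (Q + ε) + t ≤ 19 * (E * x ^ 4 * (W + t)) := by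
    calc n * (Q + ε) + t ≤ (9 * x ^ 2) * (W + ε) + t := by gcongr
      _ = 9 * (x ^ 2 * W) + 9 * (E * x ^ 4 * (W + t)) + t := by rw [hε]; ring
      _ ≤ 9 * (x ^ 2 * (W + t)) + 9 * (E * x ^ 4 * (W + t)) + (W + t) := by
          have : x ^ 2 * W ≤ x ^ 2 * (W + t) := by gcongr; linarith
          linarith
      _ ≤ 19 * (E * x ^ 4 * (W + t)) := by linarith
  have b2 : ε ≤ cH * (E * x ^ 4 * (W + t)) := by
    have h0 : 0 ≤ E * x ^ 4 * (W + t) := by positivity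
    have h1 : ε ≤ E * x ^ 4 * (W + t) := by rw [hε]; exact y3
    nlinarith
  calc cH * (n * (Q + ε) + t) + ε ≤ cH * (19 * (E * x ^ 4 * (W + t))) +
        cH * (E * x ^ 4 * (W + t)) := by gcongr
    _ = 20 * cH * (E * x ^ 4 * (W + t)) := by ring

lemma num3 {cH cM E x t T e m : ℝ} (hcH : 1 ≤ cH) (hcM : 1 ≤ cM) (hE : 1 ≤ E)
    (hx : 1 ≤ x) (hT : 0 ≤ T) (ht : 0 ≤ t) (htT : t ≤ T) (he0 : 0 ≤ e)
    (he : e ≤ 20 * cH * (E * x ^ 4 * T)) (hm0 : 0 ≤ m) (hm : m ≤ 9 * x ^ 2) :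
    cM * m * (m * e + t) ≤ 2000 * cM * cH * (E * x ^ 8 * T) := by
  have hx2 : 1 ≤ x ^ 2 := by nlinarith
  have hx6 : 1 ≤ x ^ 6 := one_le_pow₀ hx
  have y0 : 0 ≤ E * x ^ 6 * T := by positivity
  have y1 : t ≤ cH * (E * x ^ 6 * T) := by
    have h1 : T ≤ E * x ^ 6 * T := by
      have : 1 ≤ E * x ^ 6 := by nlinarith
      nlinarith
    nlinarith
  have y2 : m * e ≤ 180 * cH * (E * x ^ 6 * T) := by
    calc m * e ≤ (9 * x ^ 2) * (20 * cH * (E * x ^ 4 * T)) := by gcongr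
      _ = 180 * cH * (E * x ^ 6 * T) := by ring
  calc cM * m * (m * e + t) ≤ cM * (9 * x ^ 2) * (180 * cH * (E * x ^ 6 * T) +
        cH * (E * x ^ 6 * T)) := by gcongr
    _ = 1629 * (cM * cH * (E * x ^ 8 * T)) := by ring
    _ ≤ 2000 * (cM * cH * (E * x ^ 8 * T)) := by
        have : 0 ≤ cM * cH * (E * x ^ 8 * T) := by positivity
        linarith
    _ = 2000 * cM * cH * (E * x ^ 8 * T) := by ring

lemma num4 {cM K2 κ Cp E β y r r' W Q m : ℝ} (hcM : 1 ≤ cM) (hK2 : 1 ≤ K2) (hκ : 0 < κ)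
    (hκC : κ ≤ Cp) (hE : 9 * cM * K2 ^ 2 ≤ E)
    (hβ : 0 ≤ β) (hr0 : 0 ≤ r) (hr'0 : 0 ≤ r') (hr : r' ≤ K2 * r) (hW : 0 ≤ W) (hQ0 : 0 ≤ Q)
    (hQ : Q ≤ W) (hm0 : 0 ≤ m) (hm : m ≤ 9 * y ^ 2) :
    cM * m * (β * (r' * Real.sqrt r' + Q * r') + Real.exp (-β / κ)) ≤
      E * y ^ 2 * (β * (r * Real.sqrt r + W * r) + Real.exp (-β / Cp)) := by
  have hK20 : 0 ≤ K2 := by linarith
  have a0 : Real.sqrt K2 ≤ K2 := by
    rw [Real.sqrt_le_left hK20]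
    nlinarith
  have a1 : r' * Real.sqrt r' ≤ K2 ^ 2 * (r * Real.sqrt r) := by
    calc r' * Real.sqrt r' ≤ (K2 * r) * Real.sqrt (K2 * r) := by
          gcongr
      _ = K2 * Real.sqrt K2 * (r * Real.sqrt r) := by
          rw [Real.sqrt_mul hK20]
          ring
      _ ≤ K2 * K2 * (r * Real.sqrt r) := by gcongr
      _ = K2 ^ 2 * (r * Real.sqrt r) := by ring
  have hK22 : 1 ≤ K2 ^ 2 := by nlinarith
  have a2 : Q * r' ≤ K2 ^ 2 * (W * r) := by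
    calc Q * r' ≤ W * (K2 * r) := by gcongr
      _ = K2 * (W * r) := by ring
      _ ≤ K2 ^ 2 * (W * r) := by
          have h0 : K2 ≤ K2 ^ 2 := by nlinarith
          gcongr
  have a3 : Real.exp (-β / κ) ≤ Real.exp (-β / Cp) := by
    rw [Real.exp_le_exp, neg_div, neg_div, neg_le_neg_iff]
    gcongr
  have z1 : 0 ≤ r * Real.sqrt r := by positivity
  have z2 : 0 ≤ W * r := by positivity
  have z3 := Real.exp_pos (-β / Cp)
  have a5 : β * (r' * Real.sqrt r' + Q * r') + Real.exp (-β / κ) ≤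
      K2 ^ 2 * (β * (r * Real.sqrt r + W * r) + Real.exp (-β / Cp)) := by
    have b1 : β * (r' * Real.sqrt r' + Q * r') ≤
        β * (K2 ^ 2 * (r * Real.sqrt r) + K2 ^ 2 * (W * r)) := by gcongr
    have b2 : Real.exp (-β / κ) ≤ K2 ^ 2 * Real.exp (-β / Cp) := by nlinarith
    calc β * (r' * Real.sqrt r' + Q * r') + Real.exp (-β / κ) ≤
          β * (K2 ^ 2 * (r * Real.sqrt r) + K2 ^ 2 * (W * r)) + K2 ^ 2 * Real.exp (-β / Cp) := by
          linarith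
      _ = K2 ^ 2 * (β * (r * Real.sqrt r + W * r) + Real.exp (-β / Cp)) := by ring
  have z4 : 0 ≤ β * (r * Real.sqrt r + W * r) + Real.exp (-β / Cp) := by positivity
  calc cM * m * (β * (r' * Real.sqrt r' + Q * r') + Real.exp (-β / κ))
      ≤ cM * (9 * y ^ 2) * (K2 ^ 2 * (β * (r * Real.sqrt r + W * r) + Real.exp (-β / Cp))) := by
        gcongr
    _ = 9 * cM * K2 ^ 2 * (y ^ 2 * (β * (r * Real.sqrt r + W * r) + Real.exp (-β / Cp))) := by ring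
    _ ≤ E * (y ^ 2 * (β * (r * Real.sqrt r + W * r) + Real.exp (-β / Cp))) := by gcongr
    _ = E * y ^ 2 * (β * (r * Real.sqrt r + W * r) + Real.exp (-β / Cp)) := by ring

/-- the trivial case -/
lemma num5 {K2 κ Cp E β y r r' W : ℝ} (hK2 : 1 ≤ K2) (hκ : 1 ≤ κ) (hE : (κ * K2) ^ 2 ≤ E)
    (hβ : 1 ≤ β) (hy : 1 ≤ y) (hr0 : 0 ≤ r) (hr : r' ≤ K2 * r) (hr' : 1 / κ < r') (hW : 0 ≤ W) :
    1 ≤ E * y ^ 2 * (β * (r * Real.sqrt r + W * r) + Real.exp (-β / Cp)) := by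
  have h1 : 1 ≤ κ * K2 := by nlinarith
  have h0 : 0 < κ * K2 := by linarith
  have hκ0 : 0 < κ := by linarith
  have hK0 : 0 < K2 := by linarith
  set u : ℝ := 1 / (κ * K2) with hu
  have hu0 : 0 < u := by positivity
  have hu1 : u ≤ 1 := by
    rw [hu, div_le_one h0]
    exact h1
  have hur : u ≤ r := by
    have h2 : 1 / κ < K2 * r := lt_of_lt_of_le hr' hr
    rw [div_lt_iff₀ hκ0] at h2
    rw [hu, div_le_iff₀ h0]
    nlinarith
  have hsu : u ≤ Real.sqrt u := by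
    rw [Real.le_sqrt' hu0]
    nlinarith
  have h3 : u ^ 2 ≤ r * Real.sqrt r := by
    calc u ^ 2 = u * u := sq u
      _ ≤ r * Real.sqrt r := by
          have : u ≤ Real.sqrt r := hsu.trans (Real.sqrt_le_sqrt hur)
          gcongr
  have h4 : 1 = (κ * K2) ^ 2 * u ^ 2 := by
    rw [← mul_pow, hu, mul_one_div_cancel h0.ne', one_pow]
  have hE0 : 0 ≤ E := le_trans (by positivity) hE
  have h5 : (1 : ℝ) ≤ y ^ 2 := by nlinarith
  have h6 : r * Real.sqrt r ≤ β * (r * Real.sqrt r + W * r) + Real.exp (-β / Cp) := by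
    have z1 : 0 ≤ r * Real.sqrt r := by positivity
    have z2 : 0 ≤ W * r := by positivity
    have z3 := Real.exp_pos (-β / Cp)
    nlinarith
  calc (1 : ℝ) = (κ * K2) ^ 2 * u ^ 2 := h4
    _ ≤ E * (r * Real.sqrt r) := by gcongr
    _ ≤ E * y ^ 2 * (r * Real.sqrt r) := by
        have z1 : 0 ≤ r * Real.sqrt r := by positivity
        have : E ≤ E * y ^ 2 := le_mul_of_one_le_right hE0 h5
        gcongr
    _ ≤ E * y ^ 2 * (β * (r * Real.sqrt r + W * r) + Real.exp (-β / Cp)) := by gcongr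

/-! ### the two properties -/

section main

variable {N L : ℕ} [NeZero L]

lemma bads_meas (hN : 0 < N) (k : ℕ) {S : Sys (Lk L) Tm (SU N)} (ε : ℝ) (s : ℕ) (b : Pl) :
    MeasurableSet {X : Cf N L | Bads S (fun τ X => en k X τ ≤ ε) s b X} := by
  have h : {X : Cf N L | Bads S (fun τ X => en k X τ ≤ ε) s b X} =
      ⋃ τ ∈ S.tms (Nb s b), {X : Cf N L | (∀ a ∈ S.bt τ, a ∈ Nb s b) ∧ ¬ en k X τ ≤ ε} := by
    ext X
    simp only [Bads, Set.mem_ofPred_eq, Set.mem_iUnion, exists_prop]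
  rw [h]
  refine Finset.measurableSet_biUnion _ fun τ _ => ?_
  by_cases hh : ∀ a ∈ S.bt τ, a ∈ Nb s b
  · have : {X : Cf N L | (∀ a ∈ S.bt τ, a ∈ Nb s b) ∧ ¬ en k X τ ≤ ε} =
        {X : Cf N L | en k X τ ≤ ε}ᶜ := by
      ext X
      simp only [Set.mem_ofPred_eq, Set.mem_compl_iff]
      exact ⟨fun h => h.2, fun h => ⟨hh, h⟩⟩
    rw [this]
    exact (measurableSet_le (en_meas hN k τ) measurable_const).compl
  · have : {X : Cf N L | (∀ a ∈ S.bt τ, a ∈ Nb s b) ∧ ¬ en k X τ ≤ ε} = ∅ := by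
      ext X
      simp only [Set.mem_ofPred_eq, Set.mem_empty_iff_false, iff_false]
      exact fun h => hh h.1
    rw [this]
    exact MeasurableSet.empty

/-- first part: bad squares are rare -/
theorem part1 (hF5 : S_F5) {k : ℕ} (hN : 2 ≤ N) {cH : ℝ} {dH : ℕ} (hcH : 1 ≤ cH)
    {β : ℝ} (hβ : 0 ≤ β) (hβ1 : 1 ≤ β)
    (hH : ∀ (Λ B : Finset Pl) (R : ℕ) (e t : ℝ), 0 ≤ e → 0 ≤ t → ∀ η : Cf N L,
      (∀ τ : Tm, (∀ a ∈ cor τ, a ∈ bal (R + 1) B ∧ a ∉ Λ) → en k η τ ≤ e) →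
      (sysS N L k β hN hβ).ker (hm N) Λ (fun X =>
        ind (cH * ((bal (R + 1) B).card * (Real.exp (-R / cH) + e) + t) ≤
          ∑ τ ∈ tml (B ∩ Λ), en k X τ)) η ≤
        (R + 1) * (Real.exp (-β * t) * (cH * β) ^ (dH * (bal (R + 1) B).card)))
    {E : ℝ} {d : ℕ} (hE : 75 * cH ≤ E) (hd : 25 * dH ≤ d)
    (M s : ℕ) (hM : 0 < M) (hs : 1 ≤ s) (t : ℝ) (ht : 0 ≤ t) (b : Pl) (η : Cf N L) :
    (coa (sysS N L k β hN hβ) M hM).ker (hm N) (Nb (2 * s) b)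
      (fun ω => ind (Bads (coa (sysS N L k β hN hβ) M hM)
        (fun τ X => en k X τ ≤ E * (s * M : ℝ) ^ 2 * (Real.exp (-(s * M) / E) + t)) s b ω)) η ≤
        s * M * (Real.exp (-β * t) * (E * β) ^ (d * (s * M) ^ 2)) := by
  rw [coa_ker]
  set S := sysS N L k β hN hβ with hS
  set B : Finset Pl := sit M (Nb s b) with hB
  set Λ : Finset Pl := sit M (Nb (2 * s) b) with hΛ
  have hsM : 0 < s * M := Nat.mul_pos hs hM
  have hBΛ : B ⊆ Λ := sit_mono hM fun a ha => PkgZ1.Nb_mono (by omega) ha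
  have hM1 : s * M - 1 + 1 = s * M := Nat.sub_add_cancel hsM
  have hbal : bal (s * M) B ⊆ Λ := by
    have := bal_sits hM s s b
    rwa [← two_mul] at this
  have hcard : (bal (s * M) B).card ≤ 25 * (s * M) ^ 2 := by
    refine (card_sit_Nb (2 * s) b hbal).trans ?_
    have h1 : 2 * (2 * s) + 1 ≤ 5 * s := by omega
    calc (2 * (2 * s) + 1) ^ 2 * M ^ 2 ≤ (5 * s) ^ 2 * M ^ 2 :=
          Nat.mul_le_mul_right _ (Nat.pow_le_pow_left h1 2)
      _ = 25 * (s * M) ^ 2 := by ring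
  have hx : (1 : ℝ) ≤ s * M := by exact_mod_cast hsM
  have hcard' : ((bal (s * M) B).card : ℝ) ≤ 25 * ((s : ℝ) * M) ^ 2 := by exact_mod_cast hcard
  have hE0 : cH ≤ E := by linarith
  have hHb := hH Λ B (s * M - 1) 0 t le_rfl ht η (fun τ hτ => by
    obtain ⟨a, ha⟩ := cor_ne τ
    rw [hM1] at hτ
    exact absurd (hbal (hτ a ha).1) (hτ a ha).2)
  rw [hM1] at hHb
  have hcast1 : ((s * M - 1 : ℕ) : ℝ) = (s : ℝ) * M - 1 := by
    have h := congrArg (fun n : ℕ => (n : ℝ)) hM1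
    push_cast at h
    linarith
  rw [hcast1] at hHb
  obtain ⟨-, -, hlin, -, -, -, -⟩ := hF5 _ _ _ S (hm N) Λ
  have hthr := thr_meas (L := L) (show 0 < N by omega) k (tml (B ∩ Λ))
    (cH * ((bal (s * M) B).card * (Real.exp (-((s : ℝ) * M - 1) / cH) + 0) + t))
  have hbm := bads_meas (L := L) (show 0 < N by omega) k (S := coa S M hM)
    (E * (s * M : ℝ) ^ 2 * (Real.exp (-(s * M) / E) + t)) s b
  have hmono := (hlin _ _ (ind_meas hbm) ⟨1, fun ω => ind_bdd _⟩ (ind_meas hthr)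
    ⟨1, fun ω => ind_bdd _⟩ η).1 (fun ξ => ind_mono (fun hbad => by
      obtain ⟨τ, hτ, hcor, hgt⟩ := hbad
      have hτ' : τ ∈ tml (B ∩ Λ) := by
        rw [Finset.inter_eq_left.2 hBΛ]
        exact hτ
      have h1 : cH * ((bal (s * M) B).card * (Real.exp (-((s : ℝ) * M - 1) / cH) + 0) + t) ≤
          E * (s * M : ℝ) ^ 2 * (Real.exp (-(s * M) / E) + t) := by
        refine num1 hcH hE hx ht (Real.exp_pos _).le ?_ (Real.exp_pos _).le (by positivity) hcard'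
        exact exp1 hcH hE0 (by linarith)
      refine h1.trans ((not_le.1 hgt).le.trans ?_)
      exact Finset.single_le_sum (f := fun τ => en k (glue (S.Fr Λ) ξ η) τ)
        (fun τ _ => en_nonneg _ _ _) hτ'))
  refine hmono.trans (hHb.trans ?_)
  have hcast : ((s : ℝ) * M - 1 + 1) = s * M := by ring
  rw [hcast]
  have hCHβ : 1 ≤ cH * β := by nlinarith
  have hpow : (cH * β) ^ (dH * (bal (s * M) B).card) ≤ (E * β) ^ (d * (s * M) ^ 2) := by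
    refine pow_le_aux hCHβ (by gcongr) ?_
    calc dH * (bal (s * M) B).card ≤ dH * (25 * (s * M) ^ 2) := Nat.mul_le_mul_left _ hcard
      _ = 25 * dH * (s * M) ^ 2 := by ring
      _ ≤ d * (s * M) ^ 2 := Nat.mul_le_mul_right _ hd
  have he := Real.exp_pos (-β * t)
  gcongr

/-- second part: insensitivity -/
theorem part2 (hF3 : S_F3) (hF5 : S_F5) {k : ℕ} (hN : 2 ≤ N) {cH cM κ cm : ℝ} {dH dM : ℕ}
    (hcH : 1 ≤ cH) (hcM : 1 ≤ cM) (hκ : 1 ≤ κ) (hcm : 0 < cm)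
    {β : ℝ} (hβ : 0 ≤ β) (hβ1 : 1 ≤ β)
    (hH : ∀ (Λ B : Finset Pl) (R : ℕ) (e t : ℝ), 0 ≤ e → 0 ≤ t → ∀ η : Cf N L,
      (∀ τ : Tm, (∀ a ∈ cor τ, a ∈ bal (R + 1) B ∧ a ∉ Λ) → en k η τ ≤ e) →
      (sysS N L k β hN hβ).ker (hm N) Λ (fun X =>
        ind (cH * ((bal (R + 1) B).card * (Real.exp (-R / cH) + e) + t) ≤
          ∑ τ ∈ tml (B ∩ Λ), en k X τ)) η ≤
        (R + 1) * (Real.exp (-β * t) * (cH * β) ^ (dH * (bal (R + 1) B).card)))
    (hMM : ∀ (Λ B : Finset Pl) (R : ℕ) (e t r : ℝ), 0 ≤ e → 0 ≤ t → B ⊆ Λ → Λ ⊆ bal R B →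
      r = cM * Λ.card * (Λ.card * e + t) → r ≤ 1 / κ →
      ∀ η η' : Cf N L, (∀ l, l ∉ Frl L Λ → (∀ a ∈ st l, a ∈ bal R B) → η l = η' l) →
      (∀ τ ∈ rng Λ, en k η τ ≤ e ∧ en k η' τ ≤ e) →
      ∀ F : Cf N L → ℝ, Measurable F → (∀ X, 0 ≤ F X ∧ F X ≤ 1) →
      Sys.dep {l | ∀ a ∈ st l, (a ∈ bal R B ∧ a ∉ Λ) ∨ a ∈ B} F →
      (sysS N L k β hN hβ).ker (hm N) Λ F η ≤ (sysS N L k β hN hβ).ker (hm N) Λ F η' +
        cM * Λ.card * (β * (r * Real.sqrt r + Real.exp (-cm * R / L) * r) + Real.exp (-β / κ)) +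
        2 * (Real.exp (-β * t) * (cM * β) ^ (dM * Λ.card)))
    {E Cp : ℝ} {d : ℕ} (hE1 : 75 * cH ≤ E) (hE2 : (κ * (2000 * cM * cH)) ^ 2 ≤ E)
    (hE3 : 9 * cM * (2000 * cM * cH) ^ 2 ≤ E) (hCp : κ ≤ Cp) (hd : 25 * (dH + dM) ≤ d)
    (M s : ℕ) (hM : 0 < M) (h8 : 8 ≤ M) (hs : 1 ≤ s) (t ε r : ℝ) (ht : 0 ≤ t)
    (hε : ε = E * (s * M : ℝ) ^ 2 * (Real.exp (-(s * M) / E) + t))
    (hr : r = E * (s * M : ℝ) ^ 8 * (Real.exp (-(s * M) / E) + t))
    (b : Pl) (Λ : Finset Pl) (hb : b ∈ Λ) (η η' : Cf N L)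
    (hag : ∀ i : Lk L, (∀ a ∈ st i, blk M a ∈ Nb 2 b ∧ blk M a ∉ Λ) → η i = η' i)
    (hgd : ∀ τ ∈ tml (sit M (Nb s b)), (∀ a ∈ cor τ, blk M a ∈ Nb s b ∧ blk M a ∉ Λ) →
      en k η τ ≤ ε ∧ en k η' τ ≤ ε)
    (F : Cf N L → ℝ) (hF : Measurable F) (hF1 : ∀ ω, 0 ≤ F ω ∧ F ω ≤ 1)
    (hFd : Sys.dep {i : Lk L | ∀ a ∈ st i, (blk M a ∈ Nb 2 b ∧ blk M a ∉ Λ) ∨ blk M a = b} F) :
    (sysS N L k β hN hβ).ker (hm N) (sit M Λ) F η ≤
      (sysS N L k β hN hβ).ker (hm N) (sit M Λ) F η' +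
        (E * M ^ 2 * (β * (r * Real.sqrt r + Real.exp (-(cm / 4) * M / L) * r) +
            Real.exp (-β / Cp)) +
          4 * s * M * (Real.exp (-β * t) * (E * β) ^ (d * (s * M) ^ 2))) := by
  set S := sysS N L k β hN hβ with hS
  set Λs : Finset Pl := sit M Λ with hΛs
  set B : Finset Pl := sit M {b} with hB
  set R₁ : ℕ := M / 2 with hR₁
  set R : ℕ := s * M - R₁ - 3 with hR
  set Λ2 : Finset Pl := Λs ∩ bal R₁ B with hΛ2
  set B' : Finset Pl := bal (R₁ + 2) B with hB'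
  have hMsM : M ≤ s * M := Nat.le_mul_of_pos_left M hs
  have hR1' : 1 ≤ R₁ := by omega
  have hRR : R + 1 + (R₁ + 2) = s * M := by omega
  have hBΛ : B ⊆ Λs := sit_mono hM (Finset.singleton_subset_iff.2 hb)
  have hbalM : bal M B ⊆ sit M (Nb 1 b) := bal_sit1 hM b
  have hbalsM : bal (s * M) B ⊆ sit M (Nb s b) := bal_sits1 hM s b
  have hbal' : bal (R + 1) B' ⊆ sit M (Nb s b) := by
    refine (bal_bal _ _ _).trans ?_
    rw [hRR]
    exact hbalsM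
  have hy : (1 : ℝ) ≤ M := by exact_mod_cast hM
  have hsM : 0 < s * M := Nat.mul_pos hs hM
  have hx : (1 : ℝ) ≤ s * M := by exact_mod_cast hsM
  set W : ℝ := Real.exp (-(s * M) / E) with hWdef
  have hW : 0 ≤ W := (Real.exp_pos _).le
  have hE0 : 1 ≤ E := by linarith
  have hε0 : 0 ≤ ε := by rw [hε]; positivity
  have hc9 : (bal (R + 1) B').card ≤ 9 * (s * M) ^ 2 := by
    refine (card_sit_Nb s b hbal').trans ?_
    have h1 : 2 * s + 1 ≤ 3 * s := by omega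
    calc (2 * s + 1) ^ 2 * M ^ 2 ≤ (3 * s) ^ 2 * M ^ 2 :=
          Nat.mul_le_mul_right _ (Nat.pow_le_pow_left h1 2)
      _ = 9 * (s * M) ^ 2 := by ring
  have hc9' : ((bal (R + 1) B').card : ℝ) ≤ 9 * ((s : ℝ) * M) ^ 2 := by exact_mod_cast hc9
  have hL2 : Λ2 ⊆ sit M (Nb 1 b) :=
    Finset.inter_subset_right.trans ((bal_mono (by omega) B).trans hbalM)
  have hc2 : Λ2.card ≤ 9 * M ^ 2 := by
    have := card_sit_Nb 1 b hL2
    norm_num at this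
    exact this
  have hc2' : (Λ2.card : ℝ) ≤ 9 * (M : ℝ) ^ 2 := by exact_mod_cast hc2
  have hMs2 : M ^ 2 ≤ (s * M) ^ 2 := Nat.pow_le_pow_left hMsM 2
  have hc2s : Λ2.card ≤ 9 * (s * M) ^ 2 := hc2.trans (Nat.mul_le_mul_left _ hMs2)
  have hc2s' : (Λ2.card : ℝ) ≤ 9 * ((s : ℝ) * M) ^ 2 := by exact_mod_cast hc2s
  -- the modified function
  set F' : Cf N L → ℝ := fun X => F (md M b Λ η X) with hF'
  have hF'm : Measurable F' := hF.comp (md_meas M b Λ η)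
  have hF'1 : ∀ ω, 0 ≤ F' ω ∧ F' ω ≤ 1 := fun ω => hF1 _
  have hF'b : ∃ K, ∀ ω, |F' ω| ≤ K := ⟨1, fun ω => by
    rw [abs_of_nonneg (hF'1 ω).1]
    exact (hF'1 ω).2⟩
  have hmod : ∀ X : Cf N L, agr Λs X η ∨ agr Λs X η' → F' X = F X := by
    intro X hX
    change F (md M b Λ η X) = F X
    congr 1
    funext l
    unfold md
    split_ifs with h0
    · have hl : l ∉ Frl L Λs := not_Frl fun a ha hc => by
        rw [hΛs, mem_sit M hM] at hc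
        exact (h0 a ha).2 hc
      rcases hX with h1 | h1
      · exact (h1 l hl).symm
      · rw [hag l h0]
        exact (h1 l hl).symm
    · rfl
  have hk1 : S.ker (hm N) Λs F η = S.ker (hm N) Λs F' η :=
    ker_congr _ _ _ _ _ _ fun ξ => (hmod _ (Or.inl (agr_glue Λs ξ η))).symm
  have hk2 : S.ker (hm N) Λs F η' = S.ker (hm N) Λs F' η' :=
    ker_congr _ _ _ _ _ _ fun ξ => (hmod _ (Or.inr (agr_glue Λs ξ η'))).symm
  -- consistency
  set G : Cf N L → ℝ := S.ker (hm N) Λ2 F' with hG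
  have hcons : ∀ ζ : Cf N L, S.ker (hm N) Λs F' ζ = S.ker (hm N) Λs G ζ := fun ζ =>
    ker_cons hF3 S (hm N) Finset.inter_subset_left F' hF'm hF'b ζ
  have hker01 : ∀ (Δ : Finset Pl) (f : Cf N L → ℝ), Measurable f → (∀ ω, 0 ≤ f ω ∧ f ω ≤ 1) →
      ∀ ω, 0 ≤ S.ker (hm N) Δ f ω ∧ S.ker (hm N) Δ f ω ≤ 1 := by
    intro Δ f hf hf1 ω
    obtain ⟨-, hc0, hlin2, hmeas2, -, -, -⟩ := hF5 _ _ _ S (hm N) Δ
    have hfb : ∃ K, ∀ ω, |f ω| ≤ K := ⟨1, fun ω => by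
      rw [abs_of_nonneg (hf1 ω).1]
      exact (hf1 ω).2⟩
    constructor
    · have := (hlin2 (fun _ => 0) f measurable_const ⟨0, fun _ => by simp⟩ hf hfb ω).1
        (fun ξ => (hf1 _).1)
      rwa [hc0] at this
    · have := (hlin2 f (fun _ => 1) hf hfb measurable_const ⟨1, fun _ => by simp⟩ ω).1
        (fun ξ => (hf1 _).2)
      rwa [hc0] at this
  obtain ⟨-, hc0, hlin2, hmeas2, -, -, -⟩ := hF5 _ _ _ S (hm N) Λ2
  have hGm : Measurable G := hmeas2 F' hF'm hF'b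
  have hG1 : ∀ ω, 0 ≤ G ω ∧ G ω ≤ 1 := hker01 Λ2 F' hF'm hF'1
  -- the bad event
  set T : Finset Tm := tml (B' ∩ Λs) with hT
  set thr : ℝ := cH * ((bal (R + 1) B').card * (Real.exp (-R / cH) + ε) + t) with hthr
  have hbad := thr_meas (L := L) (show 0 < N by omega) k T thr
  set e₁ : ℝ := thr + ε with he₁
  have hthr0 : 0 ≤ thr := by
    have : 0 < cH := by linarith
    positivity
  have he₁0 : 0 ≤ e₁ := by linarith
  have hRx : (s : ℝ) * M ≤ 8 * R := by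
    have h1 : s * M ≤ 8 * R := by omega
    exact_mod_cast h1
  have he₁b : e₁ ≤ 20 * cH * (E * ((s : ℝ) * M) ^ 4 * (W + t)) :=
    num2 hcH hE0 hx ht hW (exp2 hcH (by linarith) (by linarith) hRx) (Real.exp_pos _).le
      (by positivity) hc9' hε
  set p₁ : ℝ := s * M * (Real.exp (-β * t) * (E * β) ^ (d * (s * M) ^ 2)) with hp₁
  have hE00 := Real.exp_pos (-β * t)
  have hcHE : cH ≤ E := by linarith
  have hp : ∀ ζ : Cf N L, (∀ τ : Tm, (∀ a ∈ cor τ, a ∈ bal (R + 1) B' ∧ a ∉ Λs) → en k ζ τ ≤ ε) →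
      S.ker (hm N) Λs (fun X => ind (thr ≤ ∑ τ ∈ T, en k X τ)) ζ ≤ p₁ := by
    intro ζ hζ
    refine (hH Λs B' R ε t hε0 ht ζ hζ).trans ?_
    have hR' : ((R : ℝ) + 1) ≤ s * M := by
      have : R + 1 ≤ s * M := by omega
      exact_mod_cast this
    have hpow : (cH * β) ^ (dH * (bal (R + 1) B').card) ≤ (E * β) ^ (d * (s * M) ^ 2) := by
      refine pow_le_aux (one_le_mul_of_one_le_of_one_le hcH hβ1) (by gcongr) ?_
      calc dH * (bal (R + 1) B').card ≤ dH * (9 * (s * M) ^ 2) := Nat.mul_le_mul_left _ hc9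
        _ = 9 * dH * (s * M) ^ 2 := by ring
        _ ≤ d * (s * M) ^ 2 := Nat.mul_le_mul_right _ (by omega)
    have : 0 ≤ (cH * β) ^ (dH * (bal (R + 1) B').card) := by
      have : 0 < cH := by linarith
      positivity
    rw [hp₁]
    gcongr
  have hfix : ∀ τ : Tm, (∀ a ∈ cor τ, a ∈ sit M (Nb s b) ∧ a ∉ Λs) →
      en k η τ ≤ ε ∧ en k η' τ ≤ ε := by
    intro τ hτ
    obtain ⟨a, ha⟩ := cor_ne τ
    refine hgd τ ((mem_tml _ _).2 ⟨a, ha, (hτ a ha).1⟩) fun a ha => ⟨?_, fun hc => ?_⟩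
    · exact (mem_sit M hM _ _).1 (hτ a ha).1
    · exact (hτ a ha).2 ((mem_sit M hM _ _).2 hc)
  have hp1 := hp η fun τ hτ => (hfix τ fun a ha => ⟨hbal' (hτ a ha).1, (hτ a ha).2⟩).1
  have hp2 := hp η' fun τ hτ => (hfix τ fun a ha => ⟨hbal' (hτ a ha).1, (hτ a ha).2⟩).2
  -- energies around `Λ2`
  have hrng : ∀ X : Cf N L, (agr Λs X η ∨ agr Λs X η') → ¬ (thr ≤ ∑ τ ∈ T, en k X τ) →
      ∀ τ ∈ rng Λ2, en k X τ ≤ e₁ := by
    intro X hX hnb τ hτ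
    rw [rng, Finset.mem_filter] at hτ
    obtain ⟨-, hτ⟩ := hτ
    have hsub : ∀ a ∈ cor τ, a ∈ bal (R₁ + 1) B := fun a ha => by
      obtain ⟨c, hc, hac⟩ := (mem_pls _ _).1 (hτ a ha).1
      obtain ⟨d, hd, hcd⟩ := (mem_bal _ _ _).1 (Finset.mem_inter.1 hc).2
      have := Nb_Nb hac hcd
      rw [add_comm] at this
      exact (mem_bal _ _ _).2 ⟨d, hd, this⟩
    by_cases htouch : ∃ a ∈ cor τ, a ∈ Λs
    · obtain ⟨a, ha, haΛ⟩ := htouch
      have h1 : τ ∈ T := (mem_tml _ _).2 ⟨a, ha, Finset.mem_inter.2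
        ⟨bal_mono (by omega) B (hsub a ha), haΛ⟩⟩
      have h2 := Finset.single_le_sum (f := fun τ => en k X τ) (fun τ _ => en_nonneg _ _ _) h1
      have h3 := not_le.1 hnb
      linarith
    · push Not at htouch
      have h1 : ∀ a ∈ cor τ, a ∈ sit M (Nb s b) ∧ a ∉ Λs := fun a ha =>
        ⟨hbalsM (bal_mono (by omega) B (hsub a ha)), htouch a ha⟩
      have h2 := hfix τ h1
      rcases hX with h3 | h3
      · rw [en_agr h3 htouch]
        linarith [h2.1]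
      · rw [en_agr h3 htouch]
        linarith [h2.2]
  -- the comparison inside
  set r' : ℝ := cM * Λ2.card * (Λ2.card * e₁ + t) with hr'
  have hr'0 : 0 ≤ r' := by
    have : 0 < cM := by linarith
    positivity
  have hr0 : 0 ≤ r := by rw [hr]; positivity
  have hK2 : 1 ≤ 2000 * cM * cH := by nlinarith [one_le_mul_of_one_le_of_one_le hcM hcH]
  have hr'r : r' ≤ 2000 * cM * cH * r := by
    rw [hr]
    exact num3 hcH hcM hE0 hx (by linarith) ht (by linarith) he₁0 he₁b (by positivity) hc2s'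
  have hL0 : (0 : ℝ) < L := by exact_mod_cast Nat.pos_of_ne_zero (NeZero.ne L)
  have hp₁0 : 0 ≤ p₁ := by positivity
  have h4p : 4 * (s : ℝ) * M * (Real.exp (-β * t) * (E * β) ^ (d * (s * M) ^ 2)) = 4 * p₁ := by
    rw [hp₁]
    ring
  rw [h4p]
  by_cases hcase : r' ≤ 1 / κ
  swap
  · -- trivial case
    have h1 := (hker01 Λs F hF hF1 η).2
    have h2 := (hker01 Λs F hF hF1 η').1
    have h3 := num5 (y := (M : ℝ)) (W := Real.exp (-(cm / 4) * M / L)) (Cp := Cp) hK2 hκ hE2 hβ1 hy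
      hr0 hr'r (not_le.1 hcase) (Real.exp_pos _).le
    linarith
  set δ' : ℝ := cM * Λ2.card * (β * (r' * Real.sqrt r' + Real.exp (-cm * R₁ / L) * r') +
        Real.exp (-β / κ)) + 2 * (Real.exp (-β * t) * (cM * β) ^ (dM * Λ2.card)) with hδ'
  have hδ'0 : 0 ≤ δ' := by
    have h0 : 0 < cM := by linarith
    positivity
  have hBΛ2 : B ⊆ Λ2 := Finset.subset_inter hBΛ (sub_bal _ _)
  have hloc : ∀ l : Lk L, l ∉ Frl L Λ2 → (∀ a ∈ st l, a ∈ bal R₁ B) →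
      (l ∉ Frl L Λs ∧ η l = η' l) := by
    intro l hl hl2
    have h1 : ∀ a ∈ st l, a ∉ Λs := fun a ha hc =>
      hl ((mem_Frl _ _).2 ⟨a, ha, Finset.mem_inter.2 ⟨hc, hl2 a ha⟩⟩)
    refine ⟨not_Frl h1, hag l fun a ha => ⟨?_, fun hc => ?_⟩⟩
    · refine PkgZ1.Nb_mono (r := 1) (by norm_num) ((mem_sit M hM _ _).1 (hbalM ?_))
      exact bal_mono (by omega) B (hl2 a ha)
    · exact h1 a ha ((mem_sit M hM _ _).2 hc)
  have hFd' := md_dep hM hR1' η hFd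
  have hcmp : ∀ ξ ξ' : Cf N L, ¬ (thr ≤ ∑ τ ∈ T, en k (glue (S.Fr Λs) ξ η) τ) →
      ¬ (thr ≤ ∑ τ ∈ T, en k (glue (S.Fr Λs) ξ' η') τ) →
      G (glue (S.Fr Λs) ξ η) ≤ G (glue (S.Fr Λs) ξ' η') + δ' := by
    intro ξ ξ' h1 h2
    have := hMM Λ2 B R₁ e₁ t r' he₁0 ht hBΛ2 Finset.inter_subset_right rfl hcase
      (glue (S.Fr Λs) ξ η) (glue (S.Fr Λs) ξ' η') (fun l hl hl2 => by
        obtain ⟨h3, h4⟩ := hloc l hl hl2
        exact (agr_glue Λs ξ η l h3).trans (h4.trans (agr_glue Λs ξ' η' l h3).symm))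
      (fun τ hτ => ⟨hrng _ (Or.inl (agr_glue Λs ξ η)) h1 τ hτ,
        hrng _ (Or.inr (agr_glue Λs ξ' η')) h2 τ hτ⟩) F' hF'm hF'1 hFd'
    rw [hδ', ← add_assoc]
    exact this
  have hfin := compare hF5 S (hm N) Λs G hGm hG1 (fun X => thr ≤ ∑ τ ∈ T, en k X τ) hbad hδ'0
    η η' hp1 hp2 hcmp
  rw [hk1, hk2, hcons, hcons]
  refine hfin.trans ?_
  have hR4 : (M : ℝ) ≤ 4 * R₁ := by
    have h1 : M ≤ 4 * R₁ := by omega
    exact_mod_cast h1
  have hn4 := num4 (cM := cM) (K2 := 2000 * cM * cH) (κ := κ) (Cp := Cp) (E := E) (y := (M : ℝ))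
    (W := Real.exp (-(cm / 4) * M / L)) (Q := Real.exp (-cm * R₁ / L))
    (m := (Λ2.card : ℝ)) hcM hK2 (by linarith) hCp hE3 hβ hr0 hr'0 hr'r (Real.exp_pos _).le
    (Real.exp_pos _).le (exp3 hcm hL0 hR4) (by positivity) hc2'
  have hcME : cM ≤ E := by
    have h1 : 1 ≤ (2000 * cM * cH) ^ 2 := one_le_pow₀ hK2
    nlinarith
  have hpow2 : Real.exp (-β * t) * (cM * β) ^ (dM * Λ2.card) ≤ p₁ := by
    have h1 : (cM * β) ^ (dM * Λ2.card) ≤ (E * β) ^ (d * (s * M) ^ 2) := by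
      refine pow_le_aux (one_le_mul_of_one_le_of_one_le hcM hβ1) (by gcongr) ?_
      calc dM * Λ2.card ≤ dM * (9 * (s * M) ^ 2) := Nat.mul_le_mul_left _ hc2s
        _ = 9 * dM * (s * M) ^ 2 := by ring
        _ ≤ d * (s * M) ^ 2 := Nat.mul_le_mul_right _ (by omega)
    have h2 : 0 ≤ Real.exp (-β * t) * (E * β) ^ (d * (s * M) ^ 2) := by
      have : 0 < E := by linarith
      positivity
    calc Real.exp (-β * t) * (cM * β) ^ (dM * Λ2.card) ≤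
          Real.exp (-β * t) * (E * β) ^ (d * (s * M) ^ 2) := by gcongr
      _ ≤ s * M * (Real.exp (-β * t) * (E * β) ^ (d * (s * M) ^ 2)) := le_mul_of_one_le_left h2 hx
  linarith

end main

end T2H02.TT.PkgZ1u

namespace T2H02.TT

open PkgZ1 PkgZ1u

theorem pZ1u (hF3 : S_F3) (hF5 : S_F5) (hH : S_Hu) (hM : S_Mu) : S_Z1u := by
  intro N k hN hk
  obtain ⟨CH, KH, DH, hCH, hH⟩ := hH N k hN hk
  obtain ⟨CM, cm, KM, DM, hCM, hcm, hMM⟩ := hM N k hN hk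
  refine ⟨4 * 10 ^ 7 * CM ^ 4 * CH ^ 2, cm / 4, 3 * KM + 2 * KH, 25 * (DH + DM), ?_,
    by positivity, ?_⟩
  · have h1 : 1 ≤ CM ^ 4 := one_le_pow₀ hCM
    have h2 : 1 ≤ CH ^ 2 := one_le_pow₀ hCH
    have h3 := one_le_mul_of_one_le_of_one_le h1 h2
    nlinarith
  intro L _ β hβ hβ1 M s hM0 t ε r h8 hs ht hε hr hr1
  have hL1 : (1 : ℝ) ≤ L := by exact_mod_cast Nat.pos_of_ne_zero (NeZero.ne L)
  set a : ℝ := (L : ℝ) ^ KH with ha
  set c : ℝ := (L : ℝ) ^ KM with hc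
  have ha1 : 1 ≤ a := one_le_pow₀ hL1
  have hc1 : 1 ≤ c := one_le_pow₀ hL1
  set E : ℝ := 4 * 10 ^ 7 * CM ^ 4 * CH ^ 2 * (L : ℝ) ^ (3 * KM + 2 * KH) with hE
  have hEe : E = 4 * 10 ^ 7 * CM ^ 4 * CH ^ 2 * (c ^ 3 * a ^ 2) := by
    rw [hE, ha, hc]
    ring
  have hcH : 1 ≤ CH * a := one_le_mul_of_one_le_of_one_le hCH ha1
  have hcM : 1 ≤ CM * c := one_le_mul_of_one_le_of_one_le hCM hc1
  have hP : ∀ x y : ℝ, 1 ≤ y → 0 ≤ x → x ≤ x * y := fun x y hy hx => le_mul_of_one_le_right hx hy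
  have hE1 : 75 * (CH * a) ≤ E := by
    have h0 : 0 ≤ CH * a := by linarith
    have h1 : E = CH * a * (4 * 10 ^ 7 * (CM ^ 4 * CH * (c ^ 3 * a))) := by
      rw [hEe]; ring
    have h2 : 1 ≤ CM ^ 4 * CH * (c ^ 3 * a) :=
      one_le_mul_of_one_le_of_one_le (one_le_mul_of_one_le_of_one_le (one_le_pow₀ hCM) hCH)
        (one_le_mul_of_one_le_of_one_le (one_le_pow₀ hc1) ha1)
    rw [h1]
    nlinarith
  have hE2 : (CM * (2000 * (CM * c) * (CH * a))) ^ 2 ≤ E := by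
    have h1 : (CM * (2000 * (CM * c) * (CH * a))) ^ 2 =
        4 * 10 ^ 6 * (CM ^ 4 * CH ^ 2 * (c ^ 2 * a ^ 2)) := by ring
    have h2 : E = 4 * 10 ^ 6 * (CM ^ 4 * CH ^ 2 * (c ^ 2 * a ^ 2)) * (10 * c) := by
      rw [hEe]; ring
    rw [h1, h2]
    refine le_mul_of_one_le_right ?_ (by linarith)
    have : 0 < CM := by linarith
    have : 0 < CH := by linarith
    positivity
  have hE3 : 9 * (CM * c) * (2000 * (CM * c) * (CH * a)) ^ 2 ≤ E := by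
    have h1 : 9 * (CM * c) * (2000 * (CM * c) * (CH * a)) ^ 2 =
        36 * 10 ^ 6 * (CM ^ 3 * CH ^ 2 * (c ^ 3 * a ^ 2)) := by ring
    have h2 : E = 36 * 10 ^ 6 * (CM ^ 3 * CH ^ 2 * (c ^ 3 * a ^ 2)) * (10 / 9 * CM) := by
      rw [hEe]; ring
    rw [h1, h2]
    refine le_mul_of_one_le_right ?_ (by linarith)
    have : 0 < CM := by linarith
    have : 0 < CH := by linarith
    positivity
  have hCp : CM ≤ 4 * 10 ^ 7 * CM ^ 4 * CH ^ 2 := by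
    have h1 : 1 ≤ CM ^ 3 * CH ^ 2 :=
      one_le_mul_of_one_le_of_one_le (one_le_pow₀ hCM) (one_le_pow₀ hCH)
    have h2 : 4 * 10 ^ 7 * CM ^ 4 * CH ^ 2 = CM * (4 * 10 ^ 7 * (CM ^ 3 * CH ^ 2)) := by ring
    rw [h2]
    nlinarith
  have hd : 25 * (DH * L ^ 2 + DM * L ^ 2) ≤ 25 * (DH + DM) * L ^ 2 := by
    apply le_of_eq
    ring
  refine ⟨fun b η => ?_, ?_⟩
  · rw [hε]
    exact part1 hF5 hN hcH hβ hβ1 (hH L β hβ hβ1) hE1 (by omega) M s hM0 hs t ht b η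
  · intro b Λ hb η η' hag hgd F hF hF1 hFd
    rw [coa_ker, coa_ker]
    refine part2 hF3 hF5 hN hcH hcM hCM hcm hβ hβ1 (hH L β hβ hβ1) (hMM L β hβ hβ1) hE1 hE2 hE3
      hCp hd M s hM0 h8 hs t ε r ht hε hr b Λ hb η η' (fun i hi => hag i ?_)
      (fun τ hτ hτ2 => hgd τ hτ ?_) F hF hF1 ?_
    · exact Finset.forall_mem_image.2 hi
    · exact Finset.forall_mem_image.2 hτ2
    · intro ω ω' hω
      refine hFd ω ω' fun i hi => hω i ?_
      exact fun a ha => hi (blk M a) (Finset.mem_image_of_mem _ ha)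

end T2H02.TT
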