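import Pool.Agent.T2H02.TT.Fin2

/-!
# Third wave: reflection positivity, centre-projected loops (packages RP ZL DT EG PB UB)

Package `Y` proves `theorem pY : S_Y` (from other statements as hypotheses) in the file
`Pool/Agent/T2H02/TT/Y.lean`, auxiliary lemmas in the namespace `T2H02.TT.PkgY`.
-/

set_option autoImplicit false
set_option linter.unusedSectionVars false

noncomputable section

open MeasureTheory Matrix
open scoped Matrix.Norms.Frobenius

namespace T2H02.TT

variable {N L : ℕ} [NeZero L]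

/-- reflection of the configuration in the line `x.1 = 0` of the plane -/
def rf (X : Cf N L) : Cf N L := fun l =>
  if l.2 = 0 then (X (((-l.1.1.1 - 1, l.1.1.2), l.1.2), 0))⁻¹
  else X (((-l.1.1.1, l.1.1.2), l.1.2), l.2)

/-! ### package RP : reflection positivity in finite volume

(a) `wact k R (rf X) = wact k R X` (the plaquettes in the directions `0, j` are mapped to plaquettes
with the opposite orientation, whose traces are complex conjugate, and their twist is `1`; the others
to themselves; use `wact_eq` and `df`-norms or `df_plq`), and the product measure is invariant under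
`rf` (permutation of the links, and `g ↦ g⁻¹`, which preserves the Haar measure of the compact group).
(b) `wact k R = S₊ + S₀ + S₊ ∘ rf`, `S₀` = plaquettes with all corners in `x.1 = 0`, `S₊` = the others with
all corners in `x.1 ≥ 0`. With `F = f exp (-β (S₊ + S₀ / 2))`, which depends only on finitely many links over
`x.1 ≥ 0`, the numerator is `∫ F (rf X) F X`. Let `J₋` be the (finite) set of links over `R ∪ A ∪` their
mirror images which have a site with `x.1 < 0`, `J₊` its mirror image. By F2 for `J₋`: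
`∫ F (rf X) F X = ∫ K η F η dη`, `K η = ∫ F (rf (glue J₋ ξ η)) dξ = ∫ F (glue J₊ ξ (rf η)) dξ`, and by F2 for `J₊`
`= ∫ K η K' η dη`, `K' η = ∫ F (glue J₊ ξ η) dξ`; finally `K' = K` because `K' η` depends only on the links of
`η` over `x.1 = 0`, where `rf η = η`. -/

def S_RP : Prop := ∀ (N k L : ℕ) [NeZero L], 2 ≤ N → ∀ (β : ℝ) (R : Finset Pl), 0 ≤ β →
  R.image (fun a => (-a.1, a.2)) = R →
  (∀ F : Cf N L → ℝ, Measurable F → (∃ K, ∀ X, |F X| ≤ K) →
    wex N L k β R (fun X => F (rf X)) = wex N L k β R F) ∧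
  (∀ (A : Finset Pl), (∀ a ∈ A, 0 ≤ a.1) → ∀ f : Cf N L → ℝ, Loc A f →
    0 ≤ wex N L k β R (fun X => f (rf X) * f X))

/-! ### centre projection -/

/-- the `N`-th root of unity `z` with the largest `Re (conj z * t)`; `0` if it is not unique -/
def nrt (N : ℕ) (t : ℂ) : ℂ := ∑ m : Fin N,
  if ∀ m' : Fin N, m' ≠ m → (star (om N m') * t).re < (star (om N m) * t).re then om N m else 0

/-- `G` is a measurable gauge fixing of the torus configurations: it brings each of them as close to
the vacuum as possible, up to `ε` -/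
def GF (P Q : SU N) (ε : ℝ) (G : Ph N L → Tor L → SU N) : Prop :=
  Measurable G ∧ ∀ (φ : Ph N L) (g : Tor L → SU N),
    dst (act (G φ) φ) (vac P Q) ≤ dst (act g φ) (vac P Q) + ε

/-- centre-projected plane link from `x` in the direction `m = 0, 1` -/
def zlk (G : Ph N L → Tor L → SU N) (X : Cf N L) (x : Pl) (m : Fin 4) : ℂ :=
  nrt N (∑ y : Tor L,
    ((G (pt X x) y * X ((x, y), m) * (G (pt X (x + pe m)) y)⁻¹ : SU N) : Mt N).trace)

/-- centre-projected rectangular loop with the corner `x` and sides `a`, `b` -/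
def plo (G : Ph N L → Tor L → SU N) (X : Cf N L) (x : Pl) (a b : ℕ) : ℂ :=
  (∏ j ∈ Finset.range b, zlk G X (x + (0, (j : ℤ))) 1) *
    (∏ i ∈ Finset.range a, zlk G X (x + ((i : ℤ), (b : ℤ))) 0) *
    star (∏ j ∈ Finset.range b, zlk G X (x + ((a : ℤ), (j : ℤ))) 1) *
    star (∏ i ∈ Finset.range a, zlk G X (x + ((i : ℤ), 0)) 0)

/-- the half of a loop over `x.1 ≥ 0` : from `(0, 0)` to `(0, b)` through `(a, 0)`, `(a, b)` -/
def hlo (G : Ph N L → Tor L → SU N) (X : Cf N L) (a b : ℕ) : ℂ :=
  (∏ i ∈ Finset.range a, zlk G X ((i : ℤ), (b : ℤ)) 0) *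
    star (∏ j ∈ Finset.range b, zlk G X ((a : ℤ), (j : ℤ)) 1) *
    star (∏ i ∈ Finset.range a, zlk G X ((i : ℤ), 0) 0)

/-- sites of a rectangle -/
def rct (x : Pl) (a b : ℕ) : Finset Pl :=
  Finset.Icc x.1 (x.1 + a) ×ˢ Finset.Icc x.2 (x.2 + b)

/-! ### package ZL : algebra of the centre-projected links

`nrt`: at most one term of the sum is not zero; `nrt N (om N n * t) = om N n * nrt N t` (shift of
`m` modulo `N`, `om N m` is `N`-periodic), `nrt N (star t) = star (nrt N t)` (`m ↦ -m`). Hence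
`zlk` at `(x, 0)` is multiplied by `om N n` under `mvh x n` (`mvh` does not change torus links);
`zlk G (rf X) x 0 = star (zlk G X (-x.1 - 1, x.2) 0)` (inverse of a unitary matrix: the trace is
conjugated), `zlk G (rf X) x 1 = zlk G X (-x.1, x.2) 1`; `zlk G (shf v X) x m = zlk G X (x + v) m`;
`zlk G (swp X) x 0 = zlk G X x.swap 1` and conversely. -/

def S_ZL : Prop := ∀ (N L : ℕ) [NeZero L], 2 ≤ N → ∀ G : Ph N L → Tor L → SU N, Measurable G →
  -- bounds, measurability, locality
  (∀ X x m, ‖zlk G X x m‖ ≤ 1) ∧ (∀ x m, Measurable fun X : Cf N L => zlk G X x m) ∧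
  (∀ (x : Pl) (a b : ℕ) (X Y : Cf N L), (∀ l, (∀ c ∈ st l, c ∈ rct x a b) → X l = Y l) →
    plo G X x a b = plo G Y x a b) ∧
  (∀ (a b : ℕ) (X Y : Cf N L), (∀ l, (∀ c ∈ st l, c ∈ rct 0 a b) → X l = Y l) →
    hlo G X a b = hlo G Y a b) ∧
  -- centre charge
  (∀ (x : Pl) (a b : ℕ) (x' : Pl) (n : ℕ) (X : Cf N L),
    plo G (mvh (x' + (0, 1)) n X) x a b =
      om N n ^ (if x.1 ≤ x'.1 ∧ x'.1 < x.1 + a ∧ x.2 ≤ x'.2 ∧ x'.2 < x.2 + b then 1 else 0) *
      (star (om N n)) ^ (if x.1 ≤ x'.1 ∧ x'.1 < x.1 + a ∧ x.2 ≤ x'.2 + 1 ∧ x'.2 + 1 < x.2 + b then 1 else 0) *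
      plo G X x a b) ∧
  -- reflection, translation, exchange of the directions
  (∀ (a a' b : ℕ) (X : Cf N L),
    plo G X (-(a : ℤ), 0) (a + a') b = star (hlo G (rf X) a b) * hlo G X a' b) ∧
  (∀ (v x : Pl) (a b : ℕ) (X : Cf N L), plo G (shf v X) x a b = plo G X (x + v) a b) ∧
  (∀ (x : Pl) (a b : ℕ) (X : Cf N L), plo G (swp X) x a b = star (plo G X x.swap b a))

/-! ### package DT : no flux through good plaquettes (uses B1 or D1, J, JI)

By D1 and the definition of `GF`, at each corner `c` of the plaquette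
`dst (act (G (pt X c)) (pt X c)) vac ≤ C ε + ε`. By J (applied to `φ, ψ` = gauge fixed torus links at
both ends and `U y` = gauge fixed plane link; the sum in J is `2 eK` by gauge invariance) the gauge
fixed plane links are within `C' ε` (squared distance, summed over `y`) of `om N m • 1`; so the trace
sum is within `C'' √ε` of `N L² om N m`, and `nrt` of it is `om N m` if `ε` is small. Since
`eP X 1 x ≤ ε`, the product of the four central elements is `1` if `ε` is small (`|om N m - 1|` is bounded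
below for `om N m ≠ 1`). For the `2 × 2` loop: the product of the four loops of side one around the
centre; the inner links cancel (`zlk * star zlk = 1`). -/

def S_DT : Prop := ∀ (N k L : ℕ) [NeZero L], 2 ≤ N → Nat.Coprime k N → ∀ P Q : SU N, PQ k P Q →
  ∃ ε : ℝ, 0 < ε ∧ ∀ G : Ph N L → Tor L → SU N, GF P Q ε G → ∀ X : Cf N L,
    (∀ τ ∈ tin (Nb 1 0), en1 k X τ ≤ ε) → plo G X (-1, -1) 2 2 = 1

/-! ### package EG : existence of measurable gauge fixings

`Tor L → SU N` is compact; the function `(g, φ) ↦ dst (act g φ) vac` is uniformly continuous; choose a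
finite `δ`-net `g_1, ..., g_n` and let `G φ` be the first `g_i` for which `dst (act g_i φ) vac` is minimal
among them (measurable: finitely many values on measurable sets). Second part: `PQ` elements exist (A1)
is not needed here. -/

def S_EG : Prop := ∀ (N L : ℕ) [NeZero L], 2 ≤ N → ∀ P Q : SU N, ∀ ε : ℝ, 0 < ε →
  ∃ G : Ph N L → Tor L → SU N, GF P Q ε G

/-! ### package PB : large energies are exponentially rare in the original measure
(uses F4 F5 H O, `wex_ex` in `Fin2.lean`)

Let `A = Nb 1 0`, `f = ind (∃ τ ∈ tin A, ε < en1 k X τ)`; by `wex_ex` `wex R f = ex (tin R) (hat k β A f)`.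
If `en k X τ ≤ ε / 2` for all `τ ∈ tin A` and `f X = 1`, then some plane term has
`en1 = eP X 1 x > ε` but `en ≤ ε / 2`, and its factor in `hat` is
`exp (-β eP X 1 x) / wt ≤ N exp (-β ε / 2)` (`wt ≥ exp (-β en) / N`), the other factors are `≤ N`. So
`hat ≤ N^9 exp (-β ε / 2) + N^9 ind (ε / 2 < ∑_{τ ∈ tml A} en k X τ)`. By F4 with `Δ = Nb n' 0` and H
(`B = A`, `Λ = Δ = bal (R'+1) A`, no fixed terms inside, `e = 0`) with `R'` such that
`θ^R' C #bal (R'+1) A ≤ ε / 8`, `t = ε / (8 C)`, the last probability is at most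
`(R' + 1) exp (-β t) (C β)^D'`. -/

def S_PB : Prop := ∀ (N k L : ℕ) [NeZero L], 2 ≤ N → Nat.Coprime k N → ∀ ε : ℝ, 0 < ε →
  ∃ (c β₀ : ℝ) (n : ℕ), 0 < c ∧ 0 < β₀ ∧ ∀ β : ℝ, β₀ ≤ β → ∀ R : Finset Pl, Nb n 0 ⊆ R →
    wex N L k β R (fun X => ind (∃ τ ∈ tin (Nb 1 0), ε < en1 k X τ)) ≤ Real.exp (-c * β)

/-! ### package UB : area law for the centre-projected loops (uses OA, ZL; compare `AR.lean`) -/

def S_UB : Prop := ∀ (N k L : ℕ) [NeZero L], 2 ≤ N → ∀ (β : ℝ), 0 ≤ β →
  ∀ G : Ph N L → Tor L → SU N, Measurable G → ∀ (R : Finset Pl) (x : Pl) (a b : ℕ), rct x a b ⊆ R →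
    ‖wexC N L k β R (fun X => plo G X x a b)‖ ≤ (1 - Real.exp (-2 * N * L ^ 2 * β)) ^ (a * b)

end T2H02.TT
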