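import Pool.Agent.T2H02.TT.Fin6

/-!
# Assembly: the final statement from the packages P1, O, SY, AR
-/

set_option autoImplicit false
set_option linter.unusedSectionVars false

noncomputable section

open MeasureTheory Matrix Filter Topology
open scoped Matrix.Norms.Frobenius

namespace T2H02.TT

variable {N L : ℕ} [NeZero L]

/-- the constant for observables in a square of radius `r` -/
def cst (N r : ℕ) (m : ℝ) : ℝ :=
  12 * (N : ℝ) ^ (2 * (2 * r + 1) ^ 2) * ((2 * r + 1) ^ 2 : ℕ) * Real.exp (m * (2 * r + 2))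

lemma cst_ge (N r : ℕ) (m : ℝ) (hN : 2 ≤ N) : 2 * Real.exp (m * (2 * r + 2)) ≤ cst N r m := by
  unfold cst
  have h1 : (1 : ℝ) ≤ (N : ℝ) ^ (2 * (2 * r + 1) ^ 2) := one_le_pow₀ (by exact_mod_cast (by omega : 1 ≤ N))
  have h2 : (1 : ℝ) ≤ ((2 * r + 1) ^ 2 : ℕ) := by exact_mod_cast Nat.one_le_pow _ _ (by omega)
  have h3 := Real.exp_pos (m * (2 * r + 2))
  have h4 : (1 : ℝ) ≤ (N : ℝ) ^ (2 * (2 * r + 1) ^ 2) * ((2 * r + 1) ^ 2 : ℕ) :=
    one_le_mul_of_one_le_of_one_le h1 h2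
  nlinarith

variable {k : ℕ} (hN : 2 ≤ N) {β : ℝ} (hβ : 0 ≤ β) {m κ : ℝ}

lemma lim_rate (hmm : 0 < m) (hκ : 0 ≤ κ) (h1 : 1 ≤ β) (hO : S_O) (hD : Dec N L k hN β hβ m κ)
    (r : ℕ) (a : Pl) (f : Cf N L → ℝ) (hf : Loc (Nb r a) f) (n : ℕ) (R : Finset Pl)
    (hR : Nb n a ⊆ R) :
    |wex N L k β R f - Phi N L k β f| ≤ cst N r m * β ^ κ * Real.exp (-m * n) := by
  have hb : (1 : ℝ) ≤ β ^ κ := Real.one_le_rpow h1 hκ
  have hc := cst_ge N r m hN
  by_cases hn : n < r + 1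
  · have e1 := wex_abs k hβ R f hf.1 hf.2.1
    have e2 := phi_abs hN hβ hmm hO hD r a f hf
    have e3 : |wex N L k β R f - Phi N L k β f| ≤ 2 := (abs_sub _ _).trans (by linarith)
    refine e3.trans ?_
    have hn' : (n : ℝ) ≤ 2 * r + 2 := by
      have : (n : ℝ) < r + 1 := by exact_mod_cast hn
      have : (0 : ℝ) ≤ r := Nat.cast_nonneg r
      linarith
    calc (2 : ℝ) = 2 * Real.exp 0 := by simp
      _ ≤ 2 * Real.exp (m * (2 * r + 2) + -m * n) := by
          gcongr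
          nlinarith
      _ = 2 * Real.exp (m * (2 * r + 2)) * Real.exp (-m * n) := by rw [Real.exp_add]; ring
      _ ≤ cst N r m * β ^ κ * Real.exp (-m * n) := by
          refine mul_le_mul_of_nonneg_right ?_ (Real.exp_pos _).le
          have := (Real.exp_pos (m * (2 * r + 2))).le
          nlinarith
  · push Not at hn
    obtain ⟨n', rfl⟩ := Nat.exists_eq_add_of_le hn
    have e1 := phi_near hN hβ hmm hO hD r a f hf n' R
      (by rw [show r + (n' + 1) = r + 1 + n' by ring]; exact hR)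
    refine e1.trans ?_
    unfold err cst
    have hp : (N : ℝ) ^ ((2 * r + 1) ^ 2) ≤ (N : ℝ) ^ (2 * (2 * r + 1) ^ 2) :=
      pow_le_pow_right₀ (by exact_mod_cast (by omega : 1 ≤ N)) (by omega)
    have hexp : Real.exp (-m * n') ≤ Real.exp (m * (2 * r + 2)) * Real.exp (-m * ((r + 1 + n' : ℕ) : ℝ)) := by
      rw [← Real.exp_add]
      apply Real.exp_le_exp.2
      push_cast
      have : (0 : ℝ) ≤ r := Nat.cast_nonneg r
      nlinarith
    calc 2 * ((N : ℝ) ^ ((2 * r + 1) ^ 2) * (6 * ((2 * r + 1) ^ 2 : ℕ) * β ^ κ * Real.exp (-m * n')))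
        ≤ 2 * ((N : ℝ) ^ (2 * (2 * r + 1) ^ 2) * (6 * ((2 * r + 1) ^ 2 : ℕ) * β ^ κ *
          (Real.exp (m * (2 * r + 2)) * Real.exp (-m * ((r + 1 + n' : ℕ) : ℝ))))) := by gcongr
      _ = _ := by ring

lemma clu_rate (hmm : 0 < m) (hκ : 0 ≤ κ) (h1 : 1 ≤ β) (hO : S_O) (hS : S_SY)
    (hD : Dec N L k hN β hβ m κ) (r : ℕ) (a b : Pl) (f g : Cf N L → ℝ) (hf : Loc (Nb r a) f)
    (hg : Loc (Nb r b) g) :
    |Phi N L k β (fun X => f X * g X) - Phi N L k β f * Phi N L k β g| ≤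
      cst N r m * β ^ κ * Real.exp (-m * dpl a b) := by
  have hb : (1 : ℝ) ≤ β ^ κ := Real.one_le_rpow h1 hκ
  have hc := cst_ge N r m hN
  have hcomm : (fun X : Cf N L => f X * g X) = fun X => g X * f X := by
    funext X; ring
  rw [hcomm, mul_comm (Phi N L k β f)]
  -- the bound of `clu1`
  have hmain : ∀ (a b : Pl) (f g : Cf N L → ℝ), Loc (Nb r a) f → Loc (Nb r b) g →
      2 * r + 2 ≤ (a.1 - b.1).natAbs →
      |Phi N L k β (fun X => g X * f X) - Phi N L k β g * Phi N L k β f| ≤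
      cst N r m * β ^ κ * Real.exp (-m * dpl a b) := by
    intro a b f g hf hg hab
    have hd : 2 * r + 1 ≤ dpl a b := by
      unfold dpl
      exact (by omega : 2 * r + 1 ≤ (a.1 - b.1).natAbs).trans (le_max_left _ _)
    obtain ⟨n, hn⟩ := Nat.exists_eq_add_of_le hd
    have e1 := clu1 hN hβ hmm hO hD r a b hab n (by omega) f g hf hg
    refine e1.trans ?_
    unfold err cst
    rw [hn]
    have hexp : Real.exp (-m * n) ≤ Real.exp (m * (2 * r + 2)) *
        Real.exp (-m * ((2 * r + 1 + n : ℕ) : ℝ)) := by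
      rw [← Real.exp_add]
      apply Real.exp_le_exp.2
      push_cast
      nlinarith
    calc 2 * (N : ℝ) ^ ((2 * r + 1) ^ 2) * ((N : ℝ) ^ ((2 * r + 1) ^ 2) *
          (6 * ((2 * r + 1) ^ 2 : ℕ) * β ^ κ * Real.exp (-m * n)))
        ≤ 2 * (N : ℝ) ^ ((2 * r + 1) ^ 2) * ((N : ℝ) ^ ((2 * r + 1) ^ 2) *
          (6 * ((2 * r + 1) ^ 2 : ℕ) * β ^ κ * (Real.exp (m * (2 * r + 2)) *
        Real.exp (-m * ((2 * r + 1 + n : ℕ) : ℝ))))) := by gcongr
      _ = _ := by
          rw [show 2 * (2 * r + 1) ^ 2 = (2 * r + 1) ^ 2 + (2 * r + 1) ^ 2 by ring, pow_add]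
          ring
  by_cases hA : 2 * r + 2 ≤ (a.1 - b.1).natAbs
  · exact hmain a b f g hf hg hA
  · by_cases hB : 2 * r + 2 ≤ (a.2 - b.2).natAbs
    · have e1 := hmain a.swap b.swap _ _ (loc_swp r a f hf) (loc_swp r b g hg) hB
      have hd : dpl a.swap b.swap = dpl a b := by
        unfold dpl
        exact max_comm _ _
      rw [hd, phi_swp hN hβ hmm hO hS hD r a f hf, phi_swp hN hβ hmm hO hS hD r b g hg] at e1
      have hfg := loc_mul r (r + dpl a b) a b le_rfl f g hf hg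
      have e2 := phi_swp hN hβ hmm hO hS hD (r + dpl a b) a _ hfg
      rw [e2] at e1
      exact e1
    · have e1 := phi_abs hN hβ hmm hO hD r a f hf
      have e2 := phi_abs hN hβ hmm hO hD r b g hg
      have hfg := loc_mul r (r + dpl a b) a b le_rfl f g hf hg
      have e3 := phi_abs hN hβ hmm hO hD (r + dpl a b) a _ hfg
      have e4 : |Phi N L k β (fun X => g X * f X) - Phi N L k β g * Phi N L k β f| ≤ 2 := by
        refine (abs_sub _ _).trans ?_
        rw [abs_mul]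
        have := mul_le_mul e2 e1 (abs_nonneg _) zero_le_one
        linarith
      refine e4.trans ?_
      have hn' : (dpl a b : ℝ) ≤ 2 * r + 2 := by
        have : dpl a b ≤ 2 * r + 2 := by
          unfold dpl
          apply max_le <;> omega
        exact_mod_cast this
      calc (2 : ℝ) = 2 * Real.exp 0 := by simp
        _ ≤ 2 * Real.exp (m * (2 * r + 2) + -m * dpl a b) := by
            gcongr
            nlinarith
        _ = 2 * Real.exp (m * (2 * r + 2)) * Real.exp (-m * dpl a b) := by rw [Real.exp_add]; ring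
        _ ≤ cst N r m * β ^ κ * Real.exp (-m * dpl a b) := by
            refine mul_le_mul_of_nonneg_right ?_ (Real.exp_pos _).le
            have := (Real.exp_pos (m * (2 * r + 2))).le
            nlinarith

theorem final (hP : S_P1) (hO : S_O) (hS : S_SY) (hA : S_AR) (N k L : ℕ) [NeZero L] (hN : 2 ≤ N)
    (hk : Nat.Coprime k N) :
    (∃ β₀ m κ : ℝ, 0 < m ∧ ∀ r : ℕ, ∃ C : ℝ, ∀ β : ℝ, β₀ ≤ β → ∀ (a : Pl) (f : Cf N L → ℝ),
      Loc (Nb r a) f →
        (∀ (n : ℕ) (R : Finset Pl), Nb n a ⊆ R →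
          |wex N L k β R f - Phi N L k β f| ≤ C * β ^ κ * Real.exp (-m * n)) ∧
        (∀ v : Pl, Phi N L k β (fun X => f (shf v X)) = Phi N L k β f) ∧
        ∀ (b : Pl) (g : Cf N L → ℝ), Loc (Nb r b) g →
          |Phi N L k β (fun X => f X * g X) - Phi N L k β f * Phi N L k β g| ≤
            C * β ^ κ * Real.exp (-m * dpl a b)) ∧
    ∀ β : ℝ, 0 ≤ β → ∀ (R : Finset Pl) (x : Pl) (y : Tor L) (a b : ℕ),
      (∀ i j : ℕ, i ≤ a → j ≤ b → x + ((i : ℤ), (j : ℤ)) ∈ R) →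
        ‖wexC N L k β R (fun X => wlp X x y a b)‖ ≤ (1 - Real.exp (-2 * N * L ^ 2 * β)) ^ (a * b) := by
  refine ⟨?_, fun β hβ R x y a b h => hA N k L hN β hβ R x y a b h⟩
  obtain ⟨m, κ, β₀, hm0, hκ, hβ0, h⟩ := hP N k L hN hk
  refine ⟨β₀, m, κ, hm0, fun r => ⟨cst N r m, fun β hβ a f hf => ?_⟩⟩
  have h1 : 1 ≤ β := by linarith
  have h0 : 0 ≤ β := by linarith
  have hD : Dec N L k hN β h0 m κ := h β h0 hβ
  exact ⟨fun n R hR => lim_rate hN h0 hm0 hκ h1 hO hD r a f hf n R hR,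
    fun v => phi_shf hN h0 hm0 hO hS hD r a v f hf,
    fun b g hg => clu_rate hN h0 hm0 hκ h1 hO hS hD r a b f g hf hg⟩

end T2H02.TT
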