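import Pool.Agent.T2H02.TT.Stm2

/-!
# Package G : the energy estimate
-/

set_option autoImplicit false
set_option linter.unusedSectionVars false

noncomputable section

open MeasureTheory Matrix
open scoped Matrix.Norms.Frobenius

namespace T2H02.TT.PkgG

variable {N L : ℕ} [NeZero L]

lemma rng_en (k : ℕ) (U : Finset Pl) (ξ η : Cf N L) (τ : Tm) (hτ : τ ∈ rng U) :
    en k (glue (Frl L U) ξ η) τ = en k η τ := by
  refine en_loc k τ _ _ fun l hl => ?_
  have h := (Finset.mem_filter.1 hτ).2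
  have hl' : l ∉ Frl L U := by
    rw [mem_Frl]
    rintro ⟨a, ha, haU⟩
    exact (h a ((cor_iff τ a).2 ⟨l, hl, ha⟩)).2 haU
  simp [glue, hl']

lemma card_tml (U : Finset Pl) : (tml U).card ≤ 16 * U.card := by
  unfold tml
  refine (Finset.card_filter_le _ _).trans ?_
  rw [Finset.card_product, Finset.card_univ, Fintype.card_fin]
  have h1 : (U.image (fun x : Pl => x - (1, 0))).card ≤ U.card := Finset.card_image_le
  have h2 : (U.image (fun x : Pl => x - (0, 1))).card ≤ U.card := Finset.card_image_le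
  have h3 : (U.image (fun x : Pl => x - (1, 1))).card ≤ U.card := Finset.card_image_le
  have h4 := Finset.card_union_le (U ∪ U.image (fun x : Pl => x - (1, 0)) ∪
    U.image (fun x : Pl => x - (0, 1))) (U.image (fun x : Pl => x - (1, 1)))
  have h5 := Finset.card_union_le (U ∪ U.image (fun x : Pl => x - (1, 0)))
    (U.image (fun x : Pl => x - (0, 1)))
  have h6 := Finset.card_union_le U (U.image (fun x : Pl => x - (1, 0)))
  omega

lemma card_Frl (U : Finset Pl) : (Frl L U).card ≤ 12 * L ^ 2 * U.card := by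
  unfold Frl
  refine (Finset.card_filter_le _ _).trans ?_
  rw [Finset.card_product, Finset.card_product, Finset.card_univ, Finset.card_univ,
    Fintype.card_fin, Fintype.card_prod, ZMod.card]
  have h1 : (U.image (fun x : Pl => x - (1, 0))).card ≤ U.card := Finset.card_image_le
  have h2 : (U.image (fun x : Pl => x - (0, 1))).card ≤ U.card := Finset.card_image_le
  have h5 := Finset.card_union_le (U ∪ U.image (fun x : Pl => x - (1, 0)))
    (U.image (fun x : Pl => x - (0, 1)))
  have h6 := Finset.card_union_le U (U.image (fun x : Pl => x - (1, 0)))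
  have h7 : (U ∪ U.image (fun x : Pl => x - (1, 0)) ∪
    U.image (fun x : Pl => x - (0, 1))).card ≤ 3 * U.card := by omega
  calc (U ∪ U.image (fun x : Pl => x - (1, 0)) ∪
    U.image (fun x : Pl => x - (0, 1))).card * (L * L) * 4 ≤ 3 * U.card * (L * L) * 4 := by gcongr
    _ = 12 * L ^ 2 * U.card := by ring

lemma glue_meas (J : Finset (Lk L)) (η : Cf N L) :
    Measurable fun ξ : Cf N L => glue J ξ η := by
  refine measurable_pi_iff.2 fun l => ?_
  unfold glue
  split_ifs
  · exact measurable_pi_apply l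
  · exact measurable_const

/-- arithmetic at the end -/
lemma fin_ar {C c β q1 E0 C1 t : ℝ} {D2 m n M1 M2 : ℕ} (hc0 : 0 < c) (hC1 : 1 ≤ C)
    (hCc : 1 / c ≤ C) (hCC : 2 * C1 ≤ C) (hE0 : 0 ≤ E0) (hβ : 1 ≤ β) (hq : 0 < q1)
    (hq1 : 1 ≤ q1 * C) (hm : m ≤ M1) (hn : n ≤ M2) :
    Real.exp (-β * (C * E0 + t)) ≤ Real.exp (-β * t) * (C * β) ^ (M1 + M2 * (D2 + 1)) *
      (Real.exp (-2 * β * (C1 * E0)) * q1 ^ m * (c * (1 / β) ^ D2) ^ n) := by
  have hβ0 : 0 < β := by linarith
  have hC0 : 0 < C := by linarith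
  have hb : 1 ≤ C * β := one_le_mul_of_one_le_of_one_le hC1 hβ
  have e1 : Real.exp (-β * (C * E0 + t)) ≤ Real.exp (-β * t) * Real.exp (-2 * β * (C1 * E0)) := by
    rw [← Real.exp_add]
    refine Real.exp_le_exp.2 ?_
    have : 0 ≤ β * E0 * (C - 2 * C1) := by
      have : 0 ≤ C - 2 * C1 := by linarith
      positivity
    nlinarith
  have e2 : (C * β) ^ m * ((C * β) ^ (D2 + 1)) ^ n ≤ (C * β) ^ (M1 + M2 * (D2 + 1)) := by
    rw [← pow_mul, ← pow_add]
    refine pow_le_pow_right₀ hb ?_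
    have : (D2 + 1) * n ≤ M2 * (D2 + 1) := by
      rw [mul_comm]
      exact Nat.mul_le_mul_right _ hn
    omega
  have e3 : 1 ≤ (q1 * (C * β)) ^ m := by
    refine one_le_pow₀ ?_
    calc (1 : ℝ) ≤ q1 * C * 1 := by linarith
      _ ≤ q1 * C * β := mul_le_mul_of_nonneg_left hβ (by positivity)
      _ = q1 * (C * β) := by ring
  have e4 : 1 ≤ (c * (1 / β) ^ D2 * (C * β) ^ (D2 + 1)) ^ n := by
    refine one_le_pow₀ ?_
    have h1 : c * (1 / β) ^ D2 * (C * β) ^ (D2 + 1) = (c * C) * C ^ D2 * β := by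
      rw [one_div, inv_pow, mul_pow, pow_succ, pow_succ]
      have : β ^ D2 ≠ 0 := by positivity
      field_simp
    rw [h1]
    have h2 : 1 ≤ c * C := by
      rw [div_le_iff₀ hc0] at hCc
      linarith
    have h3 : 1 ≤ C ^ D2 := one_le_pow₀ hC1
    calc (1 : ℝ) ≤ (c * C) * C ^ D2 := one_le_mul_of_one_le_of_one_le h2 h3
      _ ≤ (c * C) * C ^ D2 * β := le_mul_of_one_le_right (by positivity) hβ
  calc Real.exp (-β * (C * E0 + t)) ≤ Real.exp (-β * t) * Real.exp (-2 * β * (C1 * E0)) := e1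
    _ ≤ Real.exp (-β * t) * Real.exp (-2 * β * (C1 * E0)) *
        ((q1 * (C * β)) ^ m * (c * (1 / β) ^ D2 * (C * β) ^ (D2 + 1)) ^ n) :=
        le_mul_of_one_le_right (by positivity) (one_le_mul_of_one_le_of_one_le e3 e4)
    _ = Real.exp (-β * t) * ((C * β) ^ m * ((C * β) ^ (D2 + 1)) ^ n) *
        (Real.exp (-2 * β * (C1 * E0)) * q1 ^ m * (c * (1 / β) ^ D2) ^ n) := by
        rw [mul_pow, mul_pow (c * (1 / β) ^ D2)]
        ring
    _ ≤ _ := by
        refine mul_le_mul_of_nonneg_right (mul_le_mul_of_nonneg_left e2 (by positivity)) ?_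
        positivity

theorem pG (h1 : S_G1) (h2 : S_G2) (h3 : S_G3) : S_G := by
  intro N k L _ hN hk
  obtain ⟨C1, hC1, H1⟩ := h1 N k L hN hk
  obtain ⟨c, D2, hc0, hc1, H2⟩ := h2 N hN
  obtain ⟨C3, hC3, H3a, H3b, H3c⟩ := h3 N k L hN
  have hN0 : (0 : ℝ) < N := by exact_mod_cast (by omega : 0 < N)
  obtain ⟨C, hCa, hCb, hCc, hCd⟩ : ∃ C : ℝ, 1 ≤ C ∧ 2 * C1 ≤ C ∧ N * Real.exp C3 ≤ C ∧
      1 / c ≤ C :=
    ⟨max (max 1 (2 * C1)) (max (N * Real.exp C3) (1 / c)),
      (le_max_left _ _).trans (le_max_left _ _), (le_max_right _ _).trans (le_max_left _ _),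
      (le_max_left _ _).trans (le_max_right _ _), (le_max_right _ _).trans (le_max_right _ _)⟩
  refine ⟨C, 16 + 12 * L ^ 2 * (D2 + 1), hCa, fun β hβ hβ1 U t ht η => ?_⟩
  have hβ0 : 0 < β := by linarith
  obtain ⟨X0, hX0, hE⟩ := H1 U η
  obtain ⟨E0, hE0d⟩ : ∃ E0, E0 = ∑ τ ∈ rng U, en k η τ := ⟨_, rfl⟩
  have hE0 : 0 ≤ E0 := hE0d ▸ Finset.sum_nonneg fun τ _ => en_nonneg k η τ
  rw [← hE0d] at hE
  have hrng : ∀ ξ, ∑ τ ∈ rng U, en k (glue (Frl L U) ξ η) τ = E0 := fun ξ => by
    rw [hE0d]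
    exact Finset.sum_congr rfl fun τ hτ => rng_en k U ξ η τ hτ
  have hWle : ∀ X : Cf N L, ∏ τ ∈ tml U, wt k β τ X ≤ Real.exp (-β * ∑ τ ∈ tml U, en k X τ) := by
    intro X
    calc ∏ τ ∈ tml U, wt k β τ X ≤ ∏ τ ∈ tml U, Real.exp (-β * en k X τ) :=
          Finset.prod_le_prod (fun τ _ => (wt_pos k β τ X (by omega)).le)
            fun τ _ => (H3c β X τ hβ).2
      _ = Real.exp (-β * ∑ τ ∈ tml U, en k X τ) := by
          rw [← Real.exp_sum, Finset.mul_sum]
  have hWpos : ∀ X : Cf N L, 0 < ∏ τ ∈ tml U, wt k β τ X := fun X =>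
    Finset.prod_pos fun τ _ => wt_pos k β τ X (by omega)
  -- the numerator
  have hnum : (sysS N L k β hN hβ).num (hm N) U (fun X =>
      ind (C * ∑ τ ∈ rng U, en k X τ + t ≤ ∑ τ ∈ tml U, en k X τ)) η ≤
      Real.exp (-β * (C * E0 + t)) := by
    unfold Sys.num
    calc _ ≤ ∫ _ξ : Cf N L, Real.exp (-β * (C * E0 + t)) ∂(pm N L) := by
          refine integral_mono_of_nonneg (Filter.Eventually.of_forall fun ξ => ?_)
            (integrable_const _) (Filter.Eventually.of_forall fun ξ => ?_)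
          · refine mul_nonneg ?_ (hWpos _).le
            change 0 ≤ ind (C * ∑ τ ∈ rng U, en k (glue (Frl L U) ξ η) τ + t ≤
              ∑ τ ∈ tml U, en k (glue (Frl L U) ξ η) τ)
            unfold ind
            split_ifs <;> norm_num
          · change ind (C * ∑ τ ∈ rng U, en k (glue (Frl L U) ξ η) τ + t ≤
              ∑ τ ∈ tml U, en k (glue (Frl L U) ξ η) τ) *
              ∏ τ ∈ tml U, wt k β τ (glue (Frl L U) ξ η) ≤ _
            rw [hrng]
            unfold ind
            split_ifs with h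
            · rw [one_mul]
              refine (hWle _).trans (Real.exp_le_exp.2 ?_)
              nlinarith
            · rw [zero_mul]
              exact (Real.exp_pos _).le
      _ = Real.exp (-β * (C * E0 + t)) := by simp
  -- the denominator
  obtain ⟨q1, hq1d⟩ : ∃ q1 : ℝ, q1 = Real.exp (-C3) / N := ⟨_, rfl⟩
  have hq1 : 0 < q1 := by rw [hq1d]; positivity
  have hq1C : 1 ≤ q1 * C := by
    calc (1 : ℝ) = q1 * (N * Real.exp C3) := by
          rw [hq1d, Real.exp_neg]
          field_simp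
      _ ≤ q1 * C := mul_le_mul_of_nonneg_left hCc hq1.le
  obtain ⟨w0, hw0d⟩ : ∃ w0 : ℝ, w0 = Real.exp (-2 * β * (C1 * E0)) * q1 ^ (tml U).card := ⟨_, rfl⟩
  have hw0 : 0 < w0 := by rw [hw0d]; positivity
  let box : Set (Cf N L) := Set.pi (Frl L U : Set (Lk L)) fun l =>
    {g : SU N | ‖(g : Mt N) - (X0 l : Mt N)‖ ≤ 1 / β}
  have hballm : ∀ l : Lk L, MeasurableSet {g : SU N | ‖(g : Mt N) - (X0 l : Mt N)‖ ≤ 1 / β} := by
    intro l
    refine (isClosed_le ?_ continuous_const).measurableSet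
    exact (continuous_subtype_val.sub continuous_const).norm
  have hboxm : MeasurableSet box := MeasurableSet.pi (Finset.countable_toSet _) fun l _ => hballm l
  have hlow : ∀ ξ ∈ box, w0 ≤ ∏ τ ∈ tml U, wt k β τ (glue (Frl L U) ξ η) := by
    intro ξ hξ
    have hr : ∀ l, ‖(X0 l : Mt N) - ((glue (Frl L U) ξ η l : SU N) : Mt N)‖ ≤ 1 / β := by
      intro l
      unfold glue
      split_ifs with h
      · rw [norm_sub_rev]
        exact hξ l h
      · rw [hX0 l h, sub_self, norm_zero]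
        positivity
    have h4 : ∀ τ, Real.exp (-2 * β * en k X0 τ) * q1 ≤ wt k β τ (glue (Frl L U) ξ η) := by
      intro τ
      refine le_trans ?_ (H3c β _ τ hβ).1
      rw [hq1d, ← mul_div_assoc]
      refine div_le_div_of_nonneg_right ?_ hN0.le
      rw [← Real.exp_add]
      refine Real.exp_le_exp.2 ?_
      have h5 := H3a X0 (glue (Frl L U) ξ η) τ (1 / β) (by positivity) fun l _ => hr l
      have h6 : β * (C3 * (1 / β) ^ 2) ≤ C3 := by
        have : β * (C3 * (1 / β) ^ 2) = C3 * (1 / β) := by field_simp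
        rw [this]
        exact mul_le_of_le_one_right hC3.le ((div_le_one hβ0).2 hβ1)
      have h7 := mul_le_mul_of_nonneg_left h5 hβ
      nlinarith
    calc w0 ≤ Real.exp (-2 * β * ∑ τ ∈ tml U, en k X0 τ) * q1 ^ (tml U).card := by
          rw [hw0d]
          refine mul_le_mul_of_nonneg_right (Real.exp_le_exp.2 ?_) (by positivity)
          nlinarith
      _ = ∏ τ ∈ tml U, (Real.exp (-2 * β * en k X0 τ) * q1) := by
          rw [Finset.prod_mul_distrib, ← Real.exp_sum, Finset.mul_sum, Finset.prod_const]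
      _ ≤ _ := Finset.prod_le_prod (fun τ _ => by positivity) fun τ _ => h4 τ
  have hmeas : Measurable fun ξ : Cf N L => ∏ τ ∈ tml U, wt k β τ (glue (Frl L U) ξ η) :=
    Finset.measurable_prod _ fun τ _ =>
      ((sysS N L k β hN hβ).w_meas τ).comp (glue_meas (Frl L U) η)
  have hint : Integrable (fun ξ : Cf N L => ∏ τ ∈ tml U, wt k β τ (glue (Frl L U) ξ η))
      (pm N L) := by
    refine Integrable.of_bound hmeas.aestronglyMeasurable 1 (Filter.Eventually.of_forall fun ξ => ?_)
    rw [Real.norm_eq_abs, abs_of_pos (hWpos _)]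
    exact Finset.prod_le_one (fun τ _ => (wt_pos k β τ _ (by omega)).le)
      fun τ _ => wt_le k β hβ τ _ (by omega)
  have hboxv : (c * (1 / β) ^ D2) ^ (Frl L U).card ≤ (pm N L).real box := by
    have h5 : (pm N L).real box = ∏ l ∈ Frl L U,
        (hm N).real {g : SU N | ‖(g : Mt N) - (X0 l : Mt N)‖ ≤ 1 / β} := by
      unfold Measure.real
      rw [show pm N L box = _ from Measure.infinitePi_pi (fun _ : Lk L => hm N)
        fun l _ => hballm l, ENNReal.toReal_prod]
    rw [h5, ← Finset.prod_const]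
    refine Finset.prod_le_prod (fun l _ => by positivity) fun l _ => ?_
    exact H2 (1 / β) (X0 l) (by positivity) ((div_le_one hβ0).2 hβ1)
  have hden : w0 * (c * (1 / β) ^ D2) ^ (Frl L U).card ≤
      (sysS N L k β hN hβ).num (hm N) U (fun _ => 1) η := by
    unfold Sys.num
    calc w0 * (c * (1 / β) ^ D2) ^ (Frl L U).card ≤ w0 * (pm N L).real box :=
          mul_le_mul_of_nonneg_left hboxv hw0.le
      _ = ∫ ξ : Cf N L, box.indicator (fun _ => w0) ξ ∂(pm N L) := by
          rw [integral_indicator_const _ hboxm, smul_eq_mul, mul_comm]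
      _ ≤ ∫ ξ : Cf N L, ∏ τ ∈ tml U, wt k β τ (glue (Frl L U) ξ η) ∂(pm N L) := by
          refine integral_mono_of_nonneg (Filter.Eventually.of_forall fun ξ => ?_) hint
            (Filter.Eventually.of_forall fun ξ => ?_)
          · exact Set.indicator_nonneg (fun _ _ => hw0.le) ξ
          · by_cases hξ : ξ ∈ box
            · simp only [Set.indicator_of_mem hξ]
              exact hlow ξ hξ
            · simp only [Set.indicator_of_notMem hξ]
              exact (hWpos _).le
      _ = _ := by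
          refine integral_congr_ae (Filter.Eventually.of_forall fun ξ => ?_)
          change _ = 1 * ∏ τ ∈ tml U, wt k β τ (glue (Frl L U) ξ η)
          rw [one_mul]
  have hdpos : 0 < (sysS N L k β hN hβ).num (hm N) U (fun _ => 1) η :=
    lt_of_lt_of_le (by positivity) hden
  unfold Sys.ker
  rw [div_le_iff₀ hdpos]
  refine hnum.trans ?_
  have key := fin_ar (C := C) (c := c) (β := β) (q1 := q1) (E0 := E0) (C1 := C1) (t := t)
    (D2 := D2) hc0 hCa hCd hCb hE0 hβ1 hq1 hq1C (card_tml U) (card_Frl (L := L) U)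
  refine key.trans ?_
  rw [← hw0d]
  have e : (16 + 12 * L ^ 2 * (D2 + 1)) * U.card =
      16 * U.card + 12 * L ^ 2 * U.card * (D2 + 1) := by ring
  rw [e]
  exact mul_le_mul_of_nonneg_left hden (by positivity)

end T2H02.TT.PkgG

namespace T2H02.TT

theorem pG (_h5 : S_F5) (h1 : S_G1) (h2 : S_G2) (h3 : S_G3) : S_G := PkgG.pG h1 h2 h3

end T2H02.TT
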