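import Pool.Agent.T2H02.TT.Stm2

/-!
# Package O : centre sums
-/

set_option autoImplicit false
set_option linter.unusedSectionVars false
set_option maxHeartbeats 400000

noncomputable section

open MeasureTheory Matrix
open scoped Matrix.Norms.Frobenius

namespace T2H02.TT.PkgO

open T2H02.TT

variable {N L : ℕ} [NeZero L]

/-! ### invariance of the product measure -/

lemma mp_mul (c : Lk L → SU N) :
    MeasurePreserving (fun (X : Cf N L) (l : Lk L) => c l * X l) (pm N L) (pm N L) := by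
  have hm1 : ∀ l : Lk L, Measurable (fun g : SU N => c l * g) := fun l => measurable_const_mul _
  refine ⟨measurable_pi_lambda _ fun l => (hm1 l).comp (measurable_pi_apply l), ?_⟩
  have h := Measure.infinitePi_map_pi (μ := fun _ : Lk L => hm N)
    (f := fun (l : Lk L) (g : SU N) => c l * g) hm1
  rw [h]
  have h2 : (fun l : Lk L => (hm N).map (fun g : SU N => c l * g)) = fun _ => hm N := by
    funext l
    exact map_mul_left_eq_self (hm N) (c l)
  rw [h2]

lemma mvh_eq (v : Pl) (n : ℕ) : (mvh v n : Cf N L → Cf N L) =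
    fun (X : Cf N L) (l : Lk L) => (if l.2 = 0 ∧ l.1.1 = v then cen N n else 1) * X l := by
  funext X l
  unfold mvh
  split_ifs <;> simp

lemma mp_mvh (v : Pl) (n : ℕ) : MeasurePreserving (mvh v n : Cf N L → Cf N L) (pm N L) (pm N L) := by
  rw [mvh_eq]
  exact mp_mul _

lemma meas_mvh (v : Pl) (n : ℕ) : Measurable (mvh v n : Cf N L → Cf N L) := (mp_mvh v n).measurable

lemma int_mvh (v : Pl) (n : ℕ) (F : Cf N L → ℝ) (hF : Measurable F) :
    ∫ X, F (mvh v n X) ∂(pm N L) = ∫ X, F X ∂(pm N L) := by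
  have h := (mp_mvh (N := N) (L := L) v n)
  have h2 : ∫ X, F X ∂((pm N L).map (mvh v n)) = ∫ X, F (mvh v n X) ∂(pm N L) :=
    integral_map h.measurable.aemeasurable hF.aestronglyMeasurable
  rw [← h2, h.map_eq]

lemma int_mvhC (v : Pl) (n : ℕ) (F : Cf N L → ℂ) (hF : Measurable F) :
    ∫ X, F (mvh v n X) ∂(pm N L) = ∫ X, F X ∂(pm N L) := by
  have h := (mp_mvh (N := N) (L := L) v n)
  have h2 : ∫ X, F X ∂((pm N L).map (mvh v n)) = ∫ X, F (mvh v n X) ∂(pm N L) :=
    integral_map h.measurable.aemeasurable hF.aestronglyMeasurable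
  rw [← h2, h.map_eq]

/-! ### roots of unity -/

lemma om_norm (n : ℕ) : ‖om N n‖ = 1 := by
  rw [om, show 2 * (Real.pi : ℂ) * Complex.I * n / N = ((2 * Real.pi * n / N : ℝ) : ℂ) * Complex.I by
    push_cast; ring, Complex.norm_exp_ofReal_mul_I]

lemma om_add (m n : ℕ) : om N (m + n) = om N m * om N n := by
  rw [om, om, om, ← Complex.exp_add]
  congr 1
  push_cast
  ring

lemma om_N (hN : 0 < N) : om N N = 1 := by
  have hN' : (N : ℂ) ≠ 0 := by exact_mod_cast hN.ne'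
  rw [om, mul_div_assoc, div_self hN', mul_one, Complex.exp_two_pi_mul_I]

lemma om_zero : om N 0 = 1 := by simp [om]

lemma om_mulN (hN : 0 < N) (q : ℕ) : om N (N * q) = 1 := by
  induction q with
  | zero => simpa using om_zero
  | succ q ih => rw [Nat.mul_succ, om_add, ih, om_N hN, one_mul]

lemma om_mod (hN : 0 < N) (n : ℕ) : om N (n % N) = om N n := by
  conv_rhs => rw [← Nat.mod_add_div n N, om_add, om_mulN hN, mul_one]

lemma star_mul_om (n : ℕ) : star (om N n) * om N n = 1 := by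
  rw [Complex.star_def, ← Complex.normSq_eq_conj_mul_self, Complex.normSq_eq_norm_sq, om_norm]
  norm_num

lemma om_mul_star (n : ℕ) : om N n * star (om N n) = 1 := by
  rw [mul_comm, star_mul_om]

lemma sum_shift {M : Type*} [AddCommMonoid M] (hN : 0 < N) (F : ℂ → M) (n : ℕ) :
    ∑ m : Fin N, F (om N m * om N n) = ∑ m : Fin N, F (om N m) := by
  have : NeZero N := ⟨hN.ne'⟩
  rw [← Equiv.sum_comp (Equiv.addRight (Fin.ofNat N n)) (fun m : Fin N => F (om N m))]
  refine Finset.sum_congr rfl fun m _ => ?_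
  congr 1
  rw [Equiv.coe_addRight, Fin.val_add, om_mod hN, om_add, Fin.val_ofNat, om_mod hN]

lemma sum_star {M : Type*} [AddCommMonoid M] (hN : 0 < N) (F : ℂ → M) :
    ∑ m : Fin N, F (star (om N m)) = ∑ m : Fin N, F (om N m) := by
  have : NeZero N := ⟨hN.ne'⟩
  rw [← Equiv.sum_comp (Equiv.neg (Fin N)) (fun m : Fin N => F (om N m))]
  refine Finset.sum_congr rfl fun m _ => ?_
  congr 1
  have h1 : om N ((-m : Fin N) : ℕ) * om N (m : ℕ) = 1 := by
    rw [← om_add, ← om_mod hN, ← Fin.val_add, neg_add_cancel]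
    simpa using om_zero
  have h2 := om_mul_star (N := N) (m : ℕ)
  rw [Equiv.neg_apply]
  calc star (om N m) = (om N ((-m : Fin N) : ℕ) * om N (m : ℕ)) * star (om N m) := by rw [h1, one_mul]
    _ = om N ((-m : Fin N) : ℕ) * (om N (m : ℕ) * star (om N m)) := by ring
    _ = _ := by rw [h2, mul_one]

lemma sum_shift_star {M : Type*} [AddCommMonoid M] (hN : 0 < N) (F : ℂ → M) (n : ℕ) :
    ∑ m : Fin N, F (om N m * star (om N n)) = ∑ m : Fin N, F (om N m) := by
  have h := sum_shift hN (fun z => F (z * star (om N n))) n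
  simp only [mul_assoc, om_mul_star, mul_one] at h
  exact h.symm

/-! ### energies under the moves -/

lemma mvh_ne (v : Pl) (n : ℕ) (X : Cf N L) (p : Pt L) (i : Fin 4) (hi : i ≠ 0) :
    mvh v n X (p, i) = X (p, i) := by
  unfold mvh
  exact if_neg fun h => hi h.1

lemma mvh_oth (v : Pl) (n : ℕ) (X : Cf N L) (x : Pl) (y : Tor L) (i : Fin 4) (hx : x ≠ v) :
    mvh v n X ((x, y), i) = X ((x, y), i) := by
  unfold mvh
  exact if_neg fun h => hx h.2

lemma cen_coe (n : ℕ) (g : SU N) : ((cen N n * g : SU N) : Mt N) = om N n • (g : Mt N) := by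
  have : ((cen N n * g : SU N) : Mt N) = (om N n • (1 : Mt N)) * (g : Mt N) := rfl
  rw [this, smul_mul_assoc, one_mul]

lemma mvh_at (n : ℕ) (X : Cf N L) (x : Pl) (y : Tor L) :
    ((mvh x n X ((x, y), 0) : SU N) : Mt N) = om N n • (X ((x, y), 0) : Mt N) := by
  have : mvh x n X ((x, y), 0) = cen N n * X ((x, y), 0) := by
    unfold mvh
    exact if_pos ⟨rfl, rfl⟩
  rw [this, cen_coe]

lemma ne_up (x : Pl) : x ≠ x + (0, 1) := by
  intro h
  have := congrArg Prod.snd h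
  simp at this

lemma df_def01 (X : Cf N L) (z : ℂ) (x : Pl) (y : Tor L) : df X z (x, y) 0 1 =
    (X ((x, y), 0) : Mt N) * (X ((x + (1, 0), y), 1) : Mt N) -
      z • ((X ((x, y), 1) : Mt N) * (X ((x + (0, 1), y), 0) : Mt N)) := by
  unfold df
  rw [nx0, nx1]

lemma df_top (x : Pl) (y : Tor L) (n : ℕ) (z : ℂ) (X : Cf N L) :
    df (mvh (x + (0, 1)) n X) z (x, y) 0 1 = df X (z * om N n) (x, y) 0 1 := by
  rw [df_def01, df_def01, mvh_at, mvh_oth _ _ _ x y 0 (ne_up x), mvh_ne _ _ _ _ 1 (by decide),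
    mvh_ne _ _ _ _ 1 (by decide), mul_smul_comm, smul_smul]

lemma df_bot (x : Pl) (y : Tor L) (n : ℕ) (z : ℂ) (X : Cf N L) :
    df (mvh x n X) z (x, y) 0 1 = om N n • df X (z * star (om N n)) (x, y) 0 1 := by
  rw [df_def01, df_def01, mvh_at, mvh_oth _ _ _ (x + (0, 1)) y 0 (ne_up x).symm,
    mvh_ne _ _ _ _ 1 (by decide), mvh_ne _ _ _ _ 1 (by decide), smul_mul_assoc, smul_sub,
    smul_smul (om N n) (z * star (om N n))]
  have : om N n * (z * star (om N n)) = z := by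
    calc _ = z * (om N n * star (om N n)) := by ring
      _ = z := by rw [om_mul_star, mul_one]
  rw [this]

lemma df_oth (v x : Pl) (h0 : x ≠ v) (h1 : x + (0, 1) ≠ v) (y : Tor L) (n : ℕ) (z : ℂ)
    (X : Cf N L) : df (mvh v n X) z (x, y) 0 1 = df X z (x, y) 0 1 := by
  rw [df_def01, df_def01, mvh_oth _ _ _ x y 0 h0, mvh_oth _ _ _ (x + (0, 1)) y 0 h1,
    mvh_ne _ _ _ _ 1 (by decide), mvh_ne _ _ _ _ 1 (by decide)]

lemma eP_top (x : Pl) (n : ℕ) (z : ℂ) (X : Cf N L) :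
    eP (mvh (x + (0, 1)) n X) z x = eP X (z * om N n) x := by
  unfold eP
  exact Finset.sum_congr rfl fun y _ => by rw [df_top]

lemma eP_bot (x : Pl) (n : ℕ) (z : ℂ) (X : Cf N L) :
    eP (mvh x n X) z x = eP X (z * star (om N n)) x := by
  unfold eP
  exact Finset.sum_congr rfl fun y _ => by rw [df_bot, norm_smul, om_norm, one_mul]

lemma eP_oth (v x : Pl) (h0 : x ≠ v) (h1 : x + (0, 1) ≠ v) (n : ℕ) (z : ℂ) (X : Cf N L) :
    eP (mvh v n X) z x = eP X z x := by
  unfold eP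
  exact Finset.sum_congr rfl fun y _ => by rw [df_oth v x h0 h1]

/-- central average -/
def wp (N : ℕ) {L : ℕ} [NeZero L] (β : ℝ) (x : Pl) (X : Cf N L) : ℝ :=
  (∑ m : Fin N, Real.exp (-β * eP X (om N m) x)) / N

lemma wp_mvh (hN : 0 < N) (β : ℝ) (v x : Pl) (n : ℕ) (X : Cf N L) :
    wp N β x (mvh v n X) = wp N β x X := by
  unfold wp
  refine congrArg (fun t : ℝ => t / (N : ℝ)) ?_
  by_cases h1 : x + (0, 1) = v
  · subst h1
    rw [← sum_shift hN (fun z => Real.exp (-β * eP X z x)) n]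
    exact Finset.sum_congr rfl fun m _ => by rw [eP_top]
  · by_cases h0 : x = v
    · subst h0
      rw [← sum_shift_star hN (fun z => Real.exp (-β * eP X z x)) n]
      exact Finset.sum_congr rfl fun m _ => by rw [eP_bot]
    · exact Finset.sum_congr rfl fun m _ => by rw [eP_oth v x h0 h1]

lemma df_def02 (X : Cf N L) (z : ℂ) (x : Pl) (y : Tor L) : df X z (x, y) 0 2 =
    (X ((x, y), 0) : Mt N) * (X ((x + (1, 0), y), 2) : Mt N) -
      z • ((X ((x, y), 2) : Mt N) * (X ((x, tsh y 0), 0) : Mt N)) := by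
  unfold df
  rw [nx0, nx2]

lemma df_def03 (X : Cf N L) (z : ℂ) (x : Pl) (y : Tor L) : df X z (x, y) 0 3 =
    (X ((x, y), 0) : Mt N) * (X ((x + (1, 0), y), 3) : Mt N) -
      z • ((X ((x, y), 3) : Mt N) * (X ((x, tsh y 1), 0) : Mt N)) := by
  unfold df
  rw [nx0, nx3]

lemma df02_norm (v x : Pl) (y : Tor L) (n : ℕ) (X : Cf N L) :
    ‖df (mvh v n X) 1 (x, y) 0 2‖ = ‖df X 1 (x, y) 0 2‖ := by
  rw [df_def02, df_def02, mvh_ne _ _ _ _ 2 (by decide), mvh_ne _ _ _ _ 2 (by decide)]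
  by_cases hx : x = v
  · subst hx
    rw [mvh_at, mvh_at, smul_mul_assoc, mul_smul_comm, one_smul, one_smul, ← smul_sub, norm_smul,
      om_norm, one_mul]
  · rw [mvh_oth _ _ _ x y 0 hx, mvh_oth _ _ _ x _ 0 hx]

lemma df03_norm (v x : Pl) (y : Tor L) (n : ℕ) (X : Cf N L) :
    ‖df (mvh v n X) 1 (x, y) 0 3‖ = ‖df X 1 (x, y) 0 3‖ := by
  rw [df_def03, df_def03, mvh_ne _ _ _ _ 3 (by decide), mvh_ne _ _ _ _ 3 (by decide)]
  by_cases hx : x = v
  · subst hx
    rw [mvh_at, mvh_at, smul_mul_assoc, mul_smul_comm, one_smul, one_smul, ← smul_sub, norm_smul,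
      om_norm, one_mul]
  · rw [mvh_oth _ _ _ x y 0 hx, mvh_oth _ _ _ x _ 0 hx]

lemma eK0_mvh (v x : Pl) (n : ℕ) (X : Cf N L) : eK (mvh v n X) x 0 = eK X x 0 := by
  unfold eK
  exact Finset.sum_congr rfl fun y _ => by rw [df02_norm, df03_norm]

lemma df_ne (v : Pl) (n : ℕ) (X : Cf N L) (z : ℂ) (p : Pt L) (i j : Fin 4) (hi : i ≠ 0)
    (hj : j ≠ 0) : df (mvh v n X) z p i j = df X z p i j := by
  unfold df
  rw [mvh_ne _ _ _ _ i hi, mvh_ne _ _ _ _ i hi, mvh_ne _ _ _ _ j hj, mvh_ne _ _ _ _ j hj]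

lemma eK1_mvh (v x : Pl) (n : ℕ) (X : Cf N L) : eK (mvh v n X) x 1 = eK X x 1 := by
  unfold eK
  exact Finset.sum_congr rfl fun y _ => by
    rw [df_ne _ _ _ _ _ 1 2 (by decide) (by decide), df_ne _ _ _ _ _ 1 3 (by decide) (by decide)]

lemma eV_mvh (k : ℕ) (v x : Pl) (n : ℕ) (X : Cf N L) : eV k (mvh v n X) x = eV k X x := by
  unfold eV
  exact Finset.sum_congr rfl fun y _ => by rw [df_ne _ _ _ _ _ 2 3 (by decide) (by decide)]

lemma en1_mvh (k : ℕ) (v : Pl) (n : ℕ) (X : Cf N L) (τ : Tm) (hτ : τ.2 ≠ 3) :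
    en1 k (mvh v n X) τ = en1 k X τ := by
  obtain ⟨x, i⟩ := τ
  unfold en1
  fin_cases i
  · exact eV_mvh k v x n X
  · exact eK0_mvh v x n X
  · exact eK1_mvh v x n X
  · exact absurd rfl hτ

lemma wt_eq (k : ℕ) (β : ℝ) (τ : Tm) (hτ : τ.2 ≠ 3) (X : Cf N L) :
    wt k β τ X = Real.exp (-β * en1 k X τ) := by
  obtain ⟨x, i⟩ := τ
  unfold wt en en1
  fin_cases i
  · rfl
  · rfl
  · rfl
  · exact absurd rfl hτ

lemma wt3 (k : ℕ) (β : ℝ) (x : Pl) (X : Cf N L) : wt k β (x, 3) X = wp N β x X := by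
  unfold wt wp
  exact if_pos rfl

/-! ### one step -/

lemma eE_cont (β : ℝ) (z : ℂ) (x : Pl) : Continuous fun X : Cf N L => Real.exp (-β * eP X z x) :=
  (continuous_const.mul (eP_cont z x)).rexp

lemma wp_cont (β : ℝ) (x : Pl) : Continuous fun X : Cf N L => wp N β x X := by
  unfold wp
  exact (continuous_finsetSum _ fun m _ => eE_cont β _ x).div_const _

lemma bdd_cont (F : Cf N L → ℝ) (hF : Continuous F) : ∃ K, ∀ X, |F X| ≤ K := by
  obtain ⟨K, hK⟩ := isCompact_univ.exists_bound_of_continuousOn (f := F) hF.continuousOn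
  exact ⟨K, fun X => hK X (Set.mem_univ _)⟩

lemma integrable_bdd (F : Cf N L → ℝ) (hF : Measurable F) (hb : ∃ K, ∀ X, |F X| ≤ K) :
    Integrable F (pm N L) := by
  obtain ⟨K, hK⟩ := hb
  exact Integrable.of_bound hF.aestronglyMeasurable K (Filter.Eventually.of_forall hK)

lemma bdd_mul (F G : Cf N L → ℝ) (hF : ∃ K, ∀ X, |F X| ≤ K) (hG : ∃ K, ∀ X, |G X| ≤ K) :
    ∃ K, ∀ X, |F X * G X| ≤ K := by
  obtain ⟨K, hK⟩ := hF
  obtain ⟨K', hK'⟩ := hG
  refine ⟨K * K', fun X => ?_⟩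
  rw [abs_mul]
  exact mul_le_mul (hK X) (hK' X) (abs_nonneg _) (le_trans (abs_nonneg _) (hK X))

lemma step (hN : 0 < N) (g : Cf N L → ℝ) (hg : Measurable g) (hgb : ∃ K, ∀ X, |g X| ≤ K) (β : ℝ)
    (v x : Pl) (hv : v = x + (0, 1) ∨ v = x) (hinv : ∀ n X, g (mvh v n X) = g X) :
    ∫ X, g X * Real.exp (-β * eP X 1 x) ∂(pm N L) = ∫ X, g X * wp N β x X ∂(pm N L) := by
  have hN' : (N : ℝ) ≠ 0 := by exact_mod_cast hN.ne'
  have hE := eE_cont (N := N) (L := L) β 1 x
  obtain ⟨F, hFd⟩ : ∃ F : Cf N L → ℝ, F = fun X => g X * Real.exp (-β * eP X 1 x) := ⟨_, rfl⟩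
  have hF : Measurable F := by rw [hFd]; exact hg.mul hE.measurable
  have hFb : ∃ K, ∀ X, |F X| ≤ K := by
    rw [hFd]
    exact bdd_mul g _ hgb (bdd_cont _ hE)
  have hFm : ∀ n, Integrable (fun X => F (mvh v n X)) (pm N L) := fun n => by
    obtain ⟨K, hK⟩ := hFb
    exact integrable_bdd _ (hF.comp (meas_mvh v n)) ⟨K, fun X => hK _⟩
  have h1 : ∀ X, g X * wp N β x X = (1 / (N : ℝ)) * ∑ m : Fin N, F (mvh v m X) := by
    intro X
    have h2 : ∑ m : Fin N, F (mvh v m X) =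
        g X * ∑ m : Fin N, Real.exp (-β * eP X (om N m) x) := by
      rw [Finset.mul_sum, hFd]
      rcases hv with hv | hv
      · subst hv
        refine Finset.sum_congr rfl fun m _ => ?_
        simp only
        rw [hinv, eP_top, one_mul]
      · subst hv
        have h3 := sum_star hN (fun z => g X * Real.exp (-β * eP X z v))
        rw [← h3]
        refine Finset.sum_congr rfl fun m _ => ?_
        simp only
        rw [hinv, eP_bot, one_mul]
    rw [h2]
    unfold wp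
    field_simp
  calc ∫ X, g X * Real.exp (-β * eP X 1 x) ∂(pm N L) = ∫ X, F X ∂(pm N L) := by rw [hFd]
    _ = (1 / (N : ℝ)) * ∑ m : Fin N, ∫ X, F X ∂(pm N L) := by
        rw [Finset.sum_const, Finset.card_univ, Fintype.card_fin, nsmul_eq_mul]
        field_simp
    _ = (1 / (N : ℝ)) * ∑ m : Fin N, ∫ X, F (mvh v m X) ∂(pm N L) := by
        refine congrArg (fun t : ℝ => (1 / (N : ℝ)) * t) ?_
        exact Finset.sum_congr rfl fun m _ => (int_mvh v m F hF).symm
    _ = (1 / (N : ℝ)) * ∫ X, ∑ m : Fin N, F (mvh v m X) ∂(pm N L) := by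
        rw [integral_finsetSum Finset.univ (fun (m : Fin N) _ => hFm (m : ℕ))]
    _ = ∫ X, (1 / (N : ℝ)) * ∑ m : Fin N, F (mvh v m X) ∂(pm N L) := by
        rw [integral_const_mul]
    _ = ∫ X, g X * wp N β x X ∂(pm N L) := by
        exact integral_congr_ae (Filter.Eventually.of_forall fun X => (h1 X).symm)

/-! ### the induction -/

/-- mixed product -/
def MP (k : ℕ) (β : ℝ) (T S : Finset Tm) (X : Cf N L) : ℝ :=
  (∏ τ ∈ T \ S, Real.exp (-β * en1 k X τ)) * ∏ τ ∈ S, wt k β τ X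

lemma en1_cont (k : ℕ) (τ : Tm) : Continuous fun X : Cf N L => en1 k X τ := by
  unfold en1
  split_ifs
  · exact eV_cont _ _
  · exact eK_cont _ _
  · exact eK_cont _ _
  · exact eP_cont _ _

lemma e1_cont (k : ℕ) (β : ℝ) (τ : Tm) :
    Continuous fun X : Cf N L => Real.exp (-β * en1 k X τ) :=
  (continuous_const.mul (en1_cont k τ)).rexp

lemma MP_cont (k : ℕ) (β : ℝ) (T S : Finset Tm) : Continuous (MP (N := N) (L := L) k β T S) := by
  unfold MP
  exact (continuous_finsetProd _ fun τ _ => e1_cont k β τ).mul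
    (continuous_finsetProd _ fun τ _ => wt_cont k β τ)

lemma wt_mvh (hN : 0 < N) (k : ℕ) (β : ℝ) (v : Pl) (n : ℕ) (X : Cf N L) (τ : Tm) :
    wt k β τ (mvh v n X) = wt k β τ X := by
  by_cases h3 : τ.2 = 3
  · obtain ⟨x, i⟩ := τ
    simp only at h3
    subst h3
    rw [wt3, wt3, wp_mvh hN]
  · rw [wt_eq k β τ h3, wt_eq k β τ h3, en1_mvh k v n X τ h3]

lemma en1_3 (k : ℕ) (X : Cf N L) (x : Pl) : en1 k X (x, 3) = eP X 1 x := rfl

lemma en1_3_mvh (k : ℕ) (v : Pl) (n : ℕ) (X : Cf N L) (τ : Tm) (h0 : τ.2 = 3 → τ.1 ≠ v)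
    (h1 : τ.2 = 3 → τ.1 + (0, 1) ≠ v) : en1 k (mvh v n X) τ = en1 k X τ := by
  by_cases h3 : τ.2 = 3
  · obtain ⟨x, i⟩ := τ
    simp only at h3
    subst h3
    rw [en1_3, en1_3]
    exact eP_oth v x (h0 rfl) (h1 rfl) n 1 X
  · exact en1_mvh k v n X τ h3

lemma step2 (hN : 0 < N) (k : ℕ) (β : ℝ) (f : Cf N L → ℝ) (hf : Measurable f)
    (hfb : ∃ K, ∀ X, |f X| ≤ K) (T S : Finset Tm) (x v : Pl) (hv : v = x + (0, 1) ∨ v = x)
    (hx : (x, (3 : Fin 4)) ∈ T) (hxS : (x, (3 : Fin 4)) ∉ S)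
    (hfv : ∀ n X, f (mvh v n X) = f X)
    (h0 : ∀ x', (x', (3 : Fin 4)) ∈ T → (x', (3 : Fin 4)) ∉ S → x' ≠ x → x' ≠ v)
    (h1 : ∀ x', (x', (3 : Fin 4)) ∈ T → (x', (3 : Fin 4)) ∉ S → x' ≠ x → x' + (0, 1) ≠ v) :
    ∫ X, f X * MP k β T (insert (x, 3) S) X ∂(pm N L) = ∫ X, f X * MP k β T S X ∂(pm N L) := by
  obtain ⟨g, hgd⟩ : ∃ g : Cf N L → ℝ, g = fun X => f X *
      ((∏ τ ∈ T \ insert (x, 3) S, Real.exp (-β * en1 k X τ)) * ∏ τ ∈ S, wt k β τ X) := ⟨_, rfl⟩
  have hcont : Continuous fun X : Cf N L =>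
      ((∏ τ ∈ T \ insert (x, 3) S, Real.exp (-β * en1 k X τ)) * ∏ τ ∈ S, wt k β τ X) :=
    (continuous_finsetProd _ fun τ _ => e1_cont k β τ).mul
      (continuous_finsetProd _ fun τ _ => wt_cont k β τ)
  have hg : Measurable g := by rw [hgd]; exact hf.mul hcont.measurable
  have hgb : ∃ K, ∀ X, |g X| ≤ K := by rw [hgd]; exact bdd_mul f _ hfb (bdd_cont _ hcont)
  have hinv : ∀ n X, g (mvh v n X) = g X := by
    intro n X
    rw [hgd]
    simp only
    rw [hfv]
    have e1 : ∏ τ ∈ T \ insert (x, 3) S, Real.exp (-β * en1 k (mvh v n X) τ) =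
        ∏ τ ∈ T \ insert (x, 3) S, Real.exp (-β * en1 k X τ) := by
      refine Finset.prod_congr rfl fun τ hτ => ?_
      rw [Finset.mem_sdiff, Finset.mem_insert, not_or] at hτ
      have hne : τ.2 = 3 → τ.1 ≠ x := by
        intro h3 hx'
        exact hτ.2.1 (Prod.ext hx' h3)
      have hT : τ.2 = 3 → (τ.1, (3 : Fin 4)) ∈ T := by
        intro h3
        rw [← h3]
        exact hτ.1
      have hS : τ.2 = 3 → (τ.1, (3 : Fin 4)) ∉ S := by
        intro h3
        rw [← h3]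
        exact hτ.2.2
      rw [en1_3_mvh k v n X τ (fun h3 => h0 _ (hT h3) (hS h3) (hne h3))
        (fun h3 => h1 _ (hT h3) (hS h3) (hne h3))]
    have e2 : ∏ τ ∈ S, wt k β τ (mvh v n X) = ∏ τ ∈ S, wt k β τ X :=
      Finset.prod_congr rfl fun τ _ => wt_mvh hN k β v n X τ
    rw [e1, e2]
  have hs := step hN g hg hgb β v x hv hinv
  have hL : ∀ X, f X * MP k β T S X = g X * Real.exp (-β * eP X 1 x) := by
    intro X
    rw [hgd]
    unfold MP
    have hxT : (x, (3 : Fin 4)) ∈ T \ S := Finset.mem_sdiff.2 ⟨hx, hxS⟩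
    have hT2 : T \ S = insert (x, 3) (T \ insert (x, 3) S) := by
      ext τ
      simp only [Finset.mem_sdiff, Finset.mem_insert, not_or]
      constructor
      · rintro ⟨a, b⟩
        by_cases hτ : τ = (x, 3)
        · exact Or.inl hτ
        · exact Or.inr ⟨a, hτ, b⟩
      · rintro (rfl | ⟨a, b, c⟩)
        · exact ⟨hx, hxS⟩
        · exact ⟨a, c⟩
    have hni : (x, (3 : Fin 4)) ∉ T \ insert (x, 3) S := fun h =>
      (Finset.mem_sdiff.1 h).2 (Finset.mem_insert_self _ _)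
    rw [hT2, Finset.prod_insert hni, en1_3]
    ring
  have hR : ∀ X, f X * MP k β T (insert (x, 3) S) X = g X * wp N β x X := by
    intro X
    rw [hgd]
    unfold MP
    rw [Finset.prod_insert hxS, wt3]
    ring
  rw [integral_congr_ae (Filter.Eventually.of_forall hL),
    integral_congr_ae (Filter.Eventually.of_forall hR), hs]

/-- no two vertically higher corners in `A` -/
def above (A : Finset Pl) (x : Pl) : Prop := ∀ h, x.2 < h → ¬ ((x.1, h) ∈ A ∧ (x.1 + 1, h) ∈ A)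

lemma f_inv (A : Finset Pl) (f : Cf N L → ℝ) (hd : Sys.dep {l | ∀ a ∈ st l, a ∈ A} f) (v : Pl)
    (hv : ¬ (v ∈ A ∧ v + (1, 0) ∈ A)) (n : ℕ) (X : Cf N L) : f (mvh v n X) = f X := by
  refine hd _ _ fun l hl => ?_
  unfold mvh
  refine if_neg ?_
  rintro ⟨h0, h1⟩
  apply hv
  have hl' : ∀ a ∈ st l, a ∈ A := hl
  refine ⟨hl' v ((mem_st l v).2 (Or.inl h1.symm)), hl' (v + (1, 0)) ((mem_st l _).2 (Or.inr ?_))⟩
  rw [h0, h1]
  rfl

lemma not_tin_iff (A : Finset Pl) (x : Pl) : (x, (3 : Fin 4)) ∈ tin A ↔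
    x ∈ A ∧ x + (1, 0) ∈ A ∧ x + (0, 1) ∈ A ∧ x + (1, 1) ∈ A := by
  unfold tin
  rw [Finset.mem_filter, mem_tml]
  constructor
  · rintro ⟨_, h⟩
    exact ⟨h _ ((mem_cor3 x _).2 (Or.inl rfl)), h _ ((mem_cor3 x _).2 (Or.inr (Or.inl rfl))),
      h _ ((mem_cor3 x _).2 (Or.inr (Or.inr (Or.inl rfl)))),
      h _ ((mem_cor3 x _).2 (Or.inr (Or.inr (Or.inr rfl))))⟩
  · rintro ⟨h0, h1, h2, h3⟩
    refine ⟨⟨x, (mem_cor3 x _).2 (Or.inl rfl), h0⟩, ?_⟩
    intro a ha
    rcases (mem_cor3 x a).1 ha with rfl | rfl | rfl | rfl <;> assumption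

open Classical in
theorem mainO (k : ℕ) (hN : 2 ≤ N) (β : ℝ) (A : Finset Pl)
    (hA : ∀ a ∈ A, ∀ b ∈ A, a.1 = b.1 → ∀ c, a.2 ≤ c → c ≤ b.2 → (a.1, c) ∈ A)
    (T : Finset Tm) (hT : tin A ⊆ T) (f : Cf N L → ℝ) (hf : Measurable f)
    (hfb : ∃ K, ∀ X, |f X| ≤ K) (hd : Sys.dep {l | ∀ a ∈ st l, a ∈ A} f) :
    ∫ X, f X * ∏ τ ∈ T, Real.exp (-β * en1 k X τ) ∂(pm N L) =
      ∫ X, (f X * ∏ τ ∈ (tin A).filter (fun τ => τ.2 = 3),
        (Real.exp (-β * en1 k X τ) / wt k β τ X)) * ∏ τ ∈ T, wt k β τ X ∂(pm N L) := by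
  have hN0 : 0 < N := by omega
  obtain ⟨I, hI⟩ : ∃ I : Finset Tm → ℝ, I = fun S => ∫ X, f X * MP k β T S X ∂(pm N L) := ⟨_, rfl⟩
  obtain ⟨Oa, hOa⟩ : ∃ Oa : Finset Tm, Oa = T.filter (fun τ => τ.2 = 3 ∧ above A τ.1) := ⟨_, rfl⟩
  obtain ⟨Ob, hOb⟩ : ∃ Ob : Finset Tm,
    Ob = T.filter (fun τ => τ.2 = 3 ∧ ¬ above A τ.1 ∧ τ ∉ tin A) := ⟨_, rfl⟩
  have mOa : ∀ τ, τ ∈ Oa ↔ τ ∈ T ∧ τ.2 = 3 ∧ above A τ.1 := fun τ => by
    rw [hOa, Finset.mem_filter]
  have mOb : ∀ τ, τ ∈ Ob ↔ τ ∈ T ∧ τ.2 = 3 ∧ ¬ above A τ.1 ∧ τ ∉ tin A := fun τ => by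
    rw [hOb, Finset.mem_filter]
  -- first phase
  have hphase1 : ∀ S : Finset Tm, S ⊆ Oa →
      (∀ τ ∈ S, (τ.1 + (0, 1), (3 : Fin 4)) ∈ Oa → (τ.1 + (0, 1), (3 : Fin 4)) ∈ S) →
      I S = I ∅ := by
    intro S
    induction S using Finset.induction_on_min_value (fun τ : Tm => τ.1.2) with
    | empty => intro _ _; rfl
    | insert a s has hmin ih =>
      intro hsub hcl
      have haO := (mOa a).1 (hsub (Finset.mem_insert_self _ _))
      obtain ⟨x, i⟩ := a
      obtain ⟨haT, ha3, hab⟩ := haO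
      simp only at ha3
      subst ha3
      have hups : ∀ z, z ∈ s → (z.1 + (0, 1), (3 : Fin 4)) ∈ Oa →
          (z.1 + (0, 1), (3 : Fin 4)) ∈ s := by
        intro z hz hzO
        rcases Finset.mem_insert.1 (hcl z (Finset.mem_insert_of_mem hz) hzO) with h | h
        · exfalso
          have h1 := hmin z hz
          have h2 := congrArg (fun t : Tm => t.1.2) h
          simp at h1 h2
          omega
        · exact h
      have ihs := ih (fun z hz => hsub (Finset.mem_insert_of_mem hz)) hups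
      rw [← ihs, hI]
      refine step2 hN0 k β f hf hfb T s x (x + (0, 1)) (Or.inl rfl) haT has
        (fun n X => f_inv A f hd _ ?_ n X) ?_ ?_
      · intro h
        refine hab (x.2 + 1) (by simp only; omega) ?_
        have e1 : x + (0, 1) = (x.1, x.2 + 1) := by ext <;> simp
        have e2 : x + (0, 1) + (1, 0) = (x.1 + 1, x.2 + 1) := by ext <;> simp
        rw [← e1, ← e2]
        exact h
      · intro x' hx'T hx's hne heq
        apply hx's
        subst heq
        have hO : (x + (0, 1), (3 : Fin 4)) ∈ Oa := by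
          rw [mOa]
          refine ⟨hx'T, rfl, ?_⟩
          intro h hh hc
          have e1 : (x + ((0 : ℤ), (1 : ℤ))).1 = x.1 := by simp
          have e2 : (x + ((0 : ℤ), (1 : ℤ))).2 = x.2 + 1 := by simp
          simp only at hh hc
          rw [e1] at hc
          rw [e2] at hh
          exact hab h (by simp only; omega) hc
        rcases Finset.mem_insert.1 (hcl _ (Finset.mem_insert_self _ _) hO) with h | h
        · exfalso
          have h2 := congrArg (fun t : Tm => t.1.2) h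
          simp at h2
        · exact h
      · intro x' _ _ hne heq
        exact hne (add_right_cancel heq)
  have h1 : I Oa = I ∅ := hphase1 Oa (Finset.Subset.refl _) (fun τ _ h => h)
  -- second phase
  have hphase2 : ∀ S : Finset Tm, S ⊆ Ob →
      (∀ τ ∈ S, (τ.1 - (0, 1), (3 : Fin 4)) ∈ Ob → (τ.1 - (0, 1), (3 : Fin 4)) ∈ S) →
      I (Oa ∪ S) = I Oa := by
    intro S
    induction S using Finset.induction_on_max_value (fun τ : Tm => τ.1.2) with
    | empty => intro _ _; rw [Finset.union_empty]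
    | insert a s has hmax ih =>
      intro hsub hcl
      have haO := (mOb a).1 (hsub (Finset.mem_insert_self _ _))
      obtain ⟨x, i⟩ := a
      obtain ⟨haT, ha3, hab, hain⟩ := haO
      simp only at ha3
      subst ha3
      have hups : ∀ z, z ∈ s → (z.1 - (0, 1), (3 : Fin 4)) ∈ Ob →
          (z.1 - (0, 1), (3 : Fin 4)) ∈ s := by
        intro z hz hzO
        rcases Finset.mem_insert.1 (hcl z (Finset.mem_insert_of_mem hz) hzO) with h | h
        · exfalso
          have h1 := hmax z hz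
          have h2 := congrArg (fun t : Tm => t.1.2) h
          simp at h1 h2
          omega
        · exact h
      have ihs := ih (fun z hz => hsub (Finset.mem_insert_of_mem hz)) hups
      rw [Finset.union_insert, ← ihs, hI]
      -- witnesses
      unfold above at hab
      push Not at hab
      obtain ⟨h, hh, hh1, hh2⟩ := hab
      simp only at hh hh1 hh2
      have hxA : ¬ (x ∈ A ∧ x + (1, 0) ∈ A) := by
        rintro ⟨g1, g2⟩
        apply hain
        rw [not_tin_iff]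
        refine ⟨g1, g2, ?_, ?_⟩
        · have := hA x g1 (x.1, h) hh1 rfl (x.2 + 1) (by omega) (by simp only; omega)
          have e : x + (0, 1) = (x.1, x.2 + 1) := by ext <;> simp
          rw [e]
          exact this
        · have e0 : x + (1, 0) = (x.1 + 1, x.2) := by ext <;> simp
          rw [e0] at g2
          have := hA (x.1 + 1, x.2) g2 (x.1 + 1, h) hh2 rfl (x.2 + 1) (by simp only; omega)
            (by simp only; omega)
          have e : x + (1, 1) = (x.1 + 1, x.2 + 1) := by ext <;> simp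
          rw [e]
          exact this
      have hxOa : (x, (3 : Fin 4)) ∉ Oa := by
        rw [mOa]
        rintro ⟨_, _, hc⟩
        exact hc h hh ⟨hh1, hh2⟩
      refine step2 hN0 k β f hf hfb T (Oa ∪ s) x x (Or.inr rfl) haT ?_
        (fun n X => f_inv A f hd _ hxA n X) ?_ ?_
      · rw [Finset.mem_union, not_or]
        exact ⟨hxOa, has⟩
      · intro x' _ _ hne heq
        exact hne heq
      · intro x' hx'T hx's hne heq
        apply hx's
        subst heq
        refine Finset.mem_union_right _ ?_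
        have hO : (x', (3 : Fin 4)) ∈ Ob := by
          rw [mOb]
          refine ⟨hx'T, rfl, ?_, ?_⟩
          · intro hc
            have e1 : (x' + ((0 : ℤ), (1 : ℤ))).1 = x'.1 := by simp
            have e2 : (x' + ((0 : ℤ), (1 : ℤ))).2 = x'.2 + 1 := by simp
            rw [e1] at hh1 hh2
            rw [e2] at hh
            exact hc h (by simp only; omega) ⟨hh1, hh2⟩
          · rw [not_tin_iff]
            rintro ⟨_, _, g3, g4⟩
            apply hxA
            refine ⟨g3, ?_⟩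
            have e : x' + (0, 1) + (1, 0) = x' + (1, 1) := by ext <;> simp
            rw [e]
            exact g4
        have hO2 : (x' + (0, 1) - (0, 1), (3 : Fin 4)) ∈ Ob := by
          rw [add_sub_cancel_right]
          exact hO
        rcases Finset.mem_insert.1 (hcl _ (Finset.mem_insert_self _ _) hO2) with h | h
        · exfalso
          have h2 := congrArg (fun t : Tm => t.1.2) h
          simp at h2
        · simp only [add_sub_cancel_right] at h
          exact h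
  have h2 : I (Oa ∪ Ob) = I Oa := hphase2 Ob (Finset.Subset.refl _) (fun τ _ h => h)
  have h3 : I (Oa ∪ Ob) = I ∅ := h2.trans h1
  -- conclusion
  have hL : ∫ X, f X * ∏ τ ∈ T, Real.exp (-β * en1 k X τ) ∂(pm N L) = I ∅ := by
    rw [hI]
    refine integral_congr_ae (Filter.Eventually.of_forall fun X => ?_)
    simp [MP]
  rw [hL, ← h3, hI]
  refine integral_congr_ae (Filter.Eventually.of_forall fun X => ?_)
  simp only
  unfold MP
  have hSub : Oa ∪ Ob ⊆ T := by
    intro τ hτ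
    rcases Finset.mem_union.1 hτ with h | h
    · exact ((mOa τ).1 h).1
    · exact ((mOb τ).1 h).1
  have hprodT : ∏ τ ∈ T, wt k β τ X =
      (∏ τ ∈ T \ (Oa ∪ Ob), wt k β τ X) * ∏ τ ∈ Oa ∪ Ob, wt k β τ X :=
    (Finset.prod_sdiff hSub).symm
  have hIn : (tin A).filter (fun τ => τ.2 = 3) ⊆ T \ (Oa ∪ Ob) := by
    intro τ hτ
    rw [Finset.mem_filter] at hτ
    refine Finset.mem_sdiff.2 ⟨hT hτ.1, ?_⟩
    rw [Finset.mem_union, not_or]
    constructor
    · rw [mOa]
      rintro ⟨_, _, hc⟩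
      obtain ⟨x, i⟩ := τ
      obtain ⟨hτ1, hτ2⟩ := hτ
      simp only at hτ2
      subst hτ2
      rw [not_tin_iff] at hτ1
      refine hc (x.2 + 1) (by simp only; omega) ⟨?_, ?_⟩
      · have e : x + (0, 1) = (x.1, x.2 + 1) := by ext <;> simp
        rw [← e]
        exact hτ1.2.2.1
      · have e : x + (1, 1) = (x.1 + 1, x.2 + 1) := by ext <;> simp
        rw [← e]
        exact hτ1.2.2.2
    · rw [mOb]
      rintro ⟨_, _, _, hc⟩
      exact hc hτ.1
  have hprodS : ∏ τ ∈ T \ (Oa ∪ Ob), Real.exp (-β * en1 k X τ) =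
      (∏ τ ∈ T \ (Oa ∪ Ob), wt k β τ X) * ∏ τ ∈ (tin A).filter (fun τ => τ.2 = 3),
        (Real.exp (-β * en1 k X τ) / wt k β τ X) := by
    have e1 : ∏ τ ∈ (tin A).filter (fun τ => τ.2 = 3),
        (Real.exp (-β * en1 k X τ) / wt k β τ X) =
        ∏ τ ∈ T \ (Oa ∪ Ob), if τ ∈ (tin A).filter (fun τ => τ.2 = 3) then
          (Real.exp (-β * en1 k X τ) / wt k β τ X) else 1 := by
      rw [Finset.prod_ite_mem, Finset.inter_eq_right.2 hIn]
    rw [e1, ← Finset.prod_mul_distrib]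
    refine Finset.prod_congr rfl fun τ hτ => ?_
    by_cases hin : τ ∈ (tin A).filter (fun τ => τ.2 = 3)
    · rw [if_pos hin]
      have := wt_pos k β τ X hN0
      field_simp
    · rw [if_neg hin, mul_one]
      have h3' : τ.2 ≠ 3 := by
        intro h3'
        obtain ⟨hτT, hτO⟩ := Finset.mem_sdiff.1 hτ
        apply hτO
        have hnin : τ ∉ tin A := fun hc => hin (Finset.mem_filter.2 ⟨hc, h3'⟩)
        by_cases hab : above A τ.1
        · exact Finset.mem_union_left _ ((mOa τ).2 ⟨hτT, h3', hab⟩)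
        · exact Finset.mem_union_right _ ((mOb τ).2 ⟨hτT, h3', hab, hnin⟩)
      exact (wt_eq k β τ h3' X).symm
  rw [hprodS, hprodT]
  ring

end T2H02.TT.PkgO

namespace T2H02.TT

theorem pO : S_O := by
  intro N k L _ hN β A hA T hT f hf hfb hd
  exact PkgO.mainO k hN β A hA T hT f hf hfb hd

end T2H02.TT
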