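import Pool.Agent.T2H02.TT.A
import Pool.Agent.T2H02.TT.B
import Pool.Agent.T2H02.TT.C
import Pool.Agent.T2H02.TT.D
import Pool.Agent.T2H02.TT.E
import Pool.Agent.T2H02.TT.F
import Pool.Agent.T2H02.TT.X
import Pool.Agent.T2H02.TT.J
import Pool.Agent.T2H02.TT.JM
import Pool.Agent.T2H02.TT.K
import Pool.Agent.T2H02.TT.G1
import Pool.Agent.T2H02.TT.G2
import Pool.Agent.T2H02.TT.G
import Pool.Agent.T2H02.TT.H
import Pool.Agent.T2H02.TT.I1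
import Pool.Agent.T2H02.TT.I
import Pool.Agent.T2H02.TT.LL
import Pool.Agent.T2H02.TT.M0
import Pool.Agent.T2H02.TT.M1
import Pool.Agent.T2H02.TT.M
import Pool.Agent.T2H02.TT.Z1
import Pool.Agent.T2H02.TT.Z
import Pool.Agent.T2H02.TT.O
import Pool.Agent.T2H02.TT.OA
import Pool.Agent.T2H02.TT.P1
import Pool.Agent.T2H02.TT.SY
import Pool.Agent.T2H02.TT.AR
import Pool.Agent.T2H02.TT.Fin7

/-!
# All packages together
-/

set_option autoImplicit false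

namespace T2H02.TT

theorem aB1 : S_B1 := pB1 pA2
theorem aB2 : S_B2 := pB2 pA3
theorem aB3 : S_B3 := pB3 pA3
theorem aC1 : S_C1 := pC1 aB3
theorem aC2 : S_C2 := pC2 aB3
theorem aD1 : S_D1 := pD1 pB0 aB1 aC1 aC2 pE4
theorem aD2 : S_D2 := pD2 aB2 aC1 pE4
theorem aJ : S_J := pJ aD2
theorem aJI : S_JI := pJI pE2
theorem aJM : S_JM := pJM pF1 pE3
theorem aK : S_K := pK pE1 pE3 pE4
theorem aG1 : S_G1 := pG1 pA1 pB0 aD1 aJ aJI
theorem aG : S_G := pG pF5 aG1 pG2 pG3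
theorem aH : S_H := pH pF3 pF5 aG pG3
theorem aI1 : S_I1 := pI1 aC1 aC2
theorem aI : S_I := pI aI1
theorem aL1 : S_L1 := pL1 pB0
theorem aM0 : S_M0 := pM0 pE4 aI aK aL1 pL3
theorem aM1 : S_M1 := pM1 pB0 aD1 pE4 aG pG3 aJ aJI aJM pL2 aM0
theorem aM : S_M := pM pA1 aD1 aJ aJI aJM aM1
theorem aZ1 : S_Z1 := pZ1 pF3 pF5 aH aM
theorem aZ : S_Z := pZ aZ1
theorem aX : S_X := pX pF2 pF3 pF5
theorem aP1 : S_P1 := pP1 pF3 pF5 aX aZ
theorem aAR : S_AR := pAR pOA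

end T2H02.TT
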