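import Pool.Agent.T2H02.TT.Fin8

/-!
# Spectral gap from clustering and reflection positivity
-/

set_option autoImplicit false
set_option linter.unusedSectionVars false

noncomputable section

open MeasureTheory Matrix Filter Topology
open scoped Matrix.Norms.Frobenius

namespace T2H02.TT

variable {N L : ℕ} [NeZero L]

lemma img_Nb (j : ℕ) : (Nb j 0).image (fun a : Pl => ((-a.1, a.2) : Pl)) = Nb j 0 := by
  ext b
  rw [Finset.mem_image]
  constructor
  · rintro ⟨c, hc, rfl⟩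
    rw [mem_Nb] at *
    simpa [abs_neg] using hc
  · intro hb
    refine ⟨(-b.1, b.2), ?_, by simp⟩
    rw [mem_Nb] at *
    simpa [abs_neg] using hb

lemma loc_bd (A : Finset Pl) (f : Cf N L → ℝ) (hf : Loc A f) : ∃ K, ∀ X, |f X| ≤ K := ⟨1, hf.2.1⟩

lemma mul_bd (f g : Cf N L → ℝ) (hf : ∀ X, |f X| ≤ 1) (hg : ∀ X, |g X| ≤ 1) (X : Cf N L) :
    |f X * g X| ≤ 1 := by
  rw [abs_mul]
  calc |f X| * |g X| ≤ 1 * 1 := mul_le_mul (hf X) (hg X) (abs_nonneg _) zero_le_one
    _ = 1 := one_mul 1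

/-- Cauchy-Schwarz in finite volume -/
lemma wex_cs (hR : S_RP) (hN : 2 ≤ N) (k : ℕ) {β : ℝ} (hβ : 0 ≤ β) (j : ℕ) (A : Finset Pl)
    (hA : ∀ a ∈ A, 0 ≤ a.1) (f g : Cf N L → ℝ) (hf : Loc A f) (hg : Loc A g) :
    wex N L k β (Nb j 0) (fun X => f (rf X) * g X) ^ 2 ≤
      wex N L k β (Nb j 0) (fun X => f (rf X) * f X) * wex N L k β (Nb j 0) (fun X => g (rf X) * g X) := by
  obtain ⟨hinv, hpos⟩ := hR N k L hN β (Nb j 0) hβ (img_Nb j)
  have mrf : ∀ f : Cf N L → ℝ, Measurable f → Measurable fun X => f (rf X) :=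
    fun f hf => hf.comp rf_cont.measurable
  have hsym : wex N L k β (Nb j 0) (fun X => g (rf X) * f X) =
      wex N L k β (Nb j 0) (fun X => f (rf X) * g X) := by
    rw [← hinv (fun X => f (rf X) * g X) ((mrf f hf.1).mul hg.1) ⟨1, fun X =>
      mul_bd (fun X => f (rf X)) g (fun X => hf.2.1 _) hg.2.1 X⟩]
    congr 1
    funext X
    rw [rf_rf, mul_comm]
  refine cs_real _ _ _ (hpos A hA g hg) fun t => ?_
  have ht : 0 < 1 + |t| := by positivity
  have hL : Loc A (fun X => (1 + |t|)⁻¹ * (f X + t * g X)) := by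
    refine ⟨(hf.1.add (hg.1.const_mul t)).const_mul _, fun X => ?_, fun X Y h => ?_⟩
    · rw [abs_mul, abs_of_pos (inv_pos.2 ht), inv_mul_le_iff₀ ht, mul_one]
      refine (abs_add_le _ _).trans ?_
      rw [abs_mul]
      have h1 := hf.2.1 X
      have h2 := hg.2.1 X
      have h3 := abs_nonneg t
      nlinarith
    · show (1 + |t|)⁻¹ * (f X + t * g X) = (1 + |t|)⁻¹ * (f Y + t * g Y)
      rw [hf.2.2 X Y h, hg.2.2 X Y h]
  have h1 := hpos A hA _ hL
  have b1 := fun X => mul_bd (fun X => f (rf X)) f (fun X => hf.2.1 _) hf.2.1 X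
  have b2 := fun X => mul_bd (fun X => f (rf X)) g (fun X => hf.2.1 _) hg.2.1 X
  have b3 := fun X => mul_bd (fun X => g (rf X)) f (fun X => hg.2.1 _) hf.2.1 X
  have b4 := fun X => mul_bd (fun X => g (rf X)) g (fun X => hg.2.1 _) hg.2.1 X
  have m1 := (mrf f hf.1).mul hf.1
  have m2 := (mrf f hf.1).mul hg.1
  have m3 := (mrf g hg.1).mul hf.1
  have m4 := (mrf g hg.1).mul hg.1
  have e : (fun X : Cf N L => (1 + |t|)⁻¹ * (f (rf X) + t * g (rf X)) * ((1 + |t|)⁻¹ * (f X + t * g X))) =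
      fun X => (1 + |t|)⁻¹ ^ 2 * ((f (rf X) * f X + t * (f (rf X) * g X)) +
        (t * (g (rf X) * f X) + t ^ 2 * (g (rf X) * g X))) := by
    funext X
    ring
  rw [e, wex_mul,
    wex_add k hβ _ (fun X => f (rf X) * f X + t * (f (rf X) * g X))
      (fun X => t * (g (rf X) * f X) + t ^ 2 * (g (rf X) * g X)) (m1.add (m2.const_mul t))
      ⟨1 + |t| * 1, fun X => (abs_add_le _ _).trans (add_le_add (b1 X) (by
        rw [abs_mul]; exact mul_le_mul_of_nonneg_left (b2 X) (abs_nonneg _)))⟩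
      ((m3.const_mul t).add (m4.const_mul (t ^ 2)))
      ⟨|t| * 1 + |t ^ 2| * 1, fun X => (abs_add_le _ _).trans (add_le_add (by
        rw [abs_mul]; exact mul_le_mul_of_nonneg_left (b3 X) (abs_nonneg _)) (by
        rw [abs_mul]; exact mul_le_mul_of_nonneg_left (b4 X) (abs_nonneg _)))⟩,
    wex_add k hβ _ (fun X => f (rf X) * f X) (fun X => t * (f (rf X) * g X)) m1 ⟨1, b1⟩
      (m2.const_mul t) ⟨|t| * 1, fun X => by
        rw [abs_mul]; exact mul_le_mul_of_nonneg_left (b2 X) (abs_nonneg _)⟩,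
    wex_add k hβ _ (fun X => t * (g (rf X) * f X)) (fun X => t ^ 2 * (g (rf X) * g X))
      (m3.const_mul t) ⟨|t| * 1, fun X => by
        rw [abs_mul]; exact mul_le_mul_of_nonneg_left (b3 X) (abs_nonneg _)⟩ (m4.const_mul (t ^ 2))
      ⟨|t ^ 2| * 1, fun X => by
        rw [abs_mul]; exact mul_le_mul_of_nonneg_left (b4 X) (abs_nonneg _)⟩,
    wex_mul, wex_mul, wex_mul, hsym] at h1
  have h2 : 0 < (1 + |t|)⁻¹ ^ 2 := by positivity
  have h3 := nonneg_of_mul_nonneg_right h1 h2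
  linarith

variable {k : ℕ} (hN : 2 ≤ N) {β : ℝ} (hβ : 0 ≤ β) {m κ : ℝ}

/-- a common square around the origin -/
lemma loc_big (A : Finset Pl) : ∃ r : ℕ, A ⊆ Nb r 0 := by
  refine ⟨A.sup fun a => a.1.natAbs + a.2.natAbs, fun a ha => ?_⟩
  have h := Finset.le_sup (f := fun a : Pl => a.1.natAbs + a.2.natAbs) ha
  have := Nb_abs 0 (A.sup fun a => a.1.natAbs + a.2.natAbs) a (by simpa using h)
  exact this (by rw [mem_Nb]; simp)

lemma loc_mul0 (r : ℕ) (f g : Cf N L → ℝ) (hf : Loc (Nb r 0) f) (hg : Loc (Nb r 0) g) :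
    Loc (Nb r 0) (fun X => f X * g X) :=
  ⟨hf.1.mul hg.1, mul_bd f g hf.2.1 hg.2.1, fun X Y h => by
    show f X * g X = f Y * g Y
    rw [hf.2.2 X Y h, hg.2.2 X Y h]⟩

/-- Cauchy-Schwarz for the infinite volume state -/
lemma phi_cs (hmm : 0 < m) (hO : S_O) (hR : S_RP) (hD : Dec N L k hN β hβ m κ) (A : Finset Pl)
    (hA : ∀ a ∈ A, 0 ≤ a.1) (f g : Cf N L → ℝ) (hf : Loc A f) (hg : Loc A g) :
    Phi N L k β (fun X => f (rf X) * g X) ^ 2 ≤
      Phi N L k β (fun X => f (rf X) * f X) * Phi N L k β (fun X => g (rf X) * g X) := by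
  obtain ⟨r, hr⟩ := loc_big A
  have hf' := loc_mono A _ hr f hf
  have hg' := loc_mono A _ hr g hg
  have t1 := tends hN hβ hmm hO hD r 0 _ (loc_mul0 r _ _ (loc_rf r f hf') hg')
  have t2 := tends hN hβ hmm hO hD r 0 _ (loc_mul0 r _ _ (loc_rf r f hf') hf')
  have t3 := tends hN hβ hmm hO hD r 0 _ (loc_mul0 r _ _ (loc_rf r g hg') hg')
  exact le_of_tendsto_of_tendsto' (t1.pow 2) (t2.mul t3) fun j => wex_cs hR hN k hβ j A hA f g hf hg

lemma phi_rp (hmm : 0 < m) (hO : S_O) (hR : S_RP) (hD : Dec N L k hN β hβ m κ) (A : Finset Pl)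
    (hA : ∀ a ∈ A, 0 ≤ a.1) (f : Cf N L → ℝ) (hf : Loc A f) :
    0 ≤ Phi N L k β (fun X => f (rf X) * f X) := by
  obtain ⟨r, hr⟩ := loc_big A
  have hf' := loc_mono A _ hr f hf
  have t2 := tends hN hβ hmm hO hD r 0 _ (loc_mul0 r _ _ (loc_rf r f hf') hf')
  exact ge_of_tendsto' t2 fun j => (hR N k L hN β (Nb j 0) hβ (img_Nb j)).2 A hA f hf

lemma phi_rf (hmm : 0 < m) (hO : S_O) (hR : S_RP) (hD : Dec N L k hN β hβ m κ) (r : ℕ)
    (f : Cf N L → ℝ) (hf : Loc (Nb r 0) f) :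
    Phi N L k β (fun X => f (rf X)) = Phi N L k β f := by
  have t1 := tends hN hβ hmm hO hD r 0 _ (loc_rf r f hf)
  have t2 := tends hN hβ hmm hO hD r 0 _ hf
  have e : (fun j : ℕ => wex N L k β (Nb j 0) fun X => f (rf X)) = fun j => wex N L k β (Nb j 0) f := by
    funext j
    exact (hR N k L hN β (Nb j 0) hβ (img_Nb j)).1 f hf.1 ⟨1, hf.2.1⟩
  rw [e] at t1
  exact tendsto_nhds_unique t1 t2

/-- translation of a function into the half plane -/
lemma loc_shf0 (A : Finset Pl) (n : ℕ) (f : Cf N L → ℝ) (hf : Loc A f) :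
    Loc (A.image fun a => a + ((n : ℤ), 0)) (fun X : Cf N L => f (shf ((n : ℤ), 0) X)) := by
  refine ⟨hf.1.comp ?_, fun X => hf.2.1 _, fun X Y h => hf.2.2 _ _ fun l hl => h _ fun c hc => ?_⟩
  · exact measurable_pi_lambda _ fun l => measurable_pi_apply _
  · rw [Finset.mem_image]
    refine ⟨c - ((n : ℤ), 0), hl _ ?_, by simp⟩
    rw [mem_st] at hc ⊢
    rcases hc with h | h
    · left; rw [h]; simp
    · right; rw [h]; show l.1.1 + ((n : ℤ), 0) + pe l.2 - ((n : ℤ), 0) = l.1.1 + pe l.2; abel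

lemma loc_phi_shf (hmm : 0 < m) (hO : S_O) (hS : S_SY) (hD : Dec N L k hN β hβ m κ) (A : Finset Pl)
    (v : Pl) (f : Cf N L → ℝ) (hf : Loc A f) :
    Phi N L k β (fun X : Cf N L => f (shf v X)) = Phi N L k β f := by
  obtain ⟨r, hr⟩ := loc_big A
  exact phi_shf hN hβ hmm hO hS hD r 0 v f (loc_mono A _ hr f hf)

/-- spectral gap: connected two point functions of half space observables -/
lemma gap (hmm : 0 < m) (hκ : 0 ≤ κ) (h1β : 1 ≤ β) (hO : S_O) (hS : S_SY) (hR : S_RP)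
    (hD : Dec N L k hN β hβ m κ) (A : Finset Pl) (hA : ∀ a ∈ A, 0 ≤ a.1) (f : Cf N L → ℝ)
    (hf : Loc A f) (n : ℕ) :
    |Phi N L k β (fun X => f (rf X) * f (shf ((n : ℤ), 0) X)) - Phi N L k β f ^ 2| ≤
      Real.exp (-m * n) * (Phi N L k β (fun X => f (rf X) * f X) - Phi N L k β f ^ 2) := by
  obtain ⟨r, hr⟩ := loc_big A
  have hfr := loc_mono A _ hr f hf
  set c := Phi N L k β f with hc
  have hc1 : |c| ≤ 1 := phi_abs hN hβ hmm hO hD r 0 f hfr
  set g : Cf N L → ℝ := fun X => (f X - c) / 2 with hg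
  have hgA : Loc A g := by
    refine ⟨(hf.1.sub_const c).div_const 2, fun X => ?_, fun X Y h => ?_⟩
    · show |(f X - c) / 2| ≤ 1
      rw [abs_div, abs_two, div_le_one (by norm_num)]
      exact (abs_sub _ _).trans (by linarith [hf.2.1 X])
    · show (f X - c) / 2 = (f Y - c) / 2
      rw [hf.2.2 X Y h]
  -- the two point function of `g`
  have key : ∀ n : ℕ, Phi N L k β (fun X => g (rf X) * g (shf ((n : ℤ), 0) X)) =
      (Phi N L k β (fun X => f (rf X) * f (shf ((n : ℤ), 0) X)) - c ^ 2) / 4 := by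
    intro n
    obtain ⟨r', hr'⟩ := loc_big (A ∪ A.image fun a => a + ((n : ℤ), 0))
    have l1 : Loc (Nb r' 0) (fun X : Cf N L => f (rf X)) :=
      loc_rf r' f (loc_mono A _ (Finset.subset_union_left.trans hr') f hf)
    have l2 : Loc (Nb r' 0) (fun X : Cf N L => f (shf ((n : ℤ), 0) X)) :=
      loc_mono _ _ (Finset.subset_union_right.trans hr') _ (loc_shf0 A n f hf)
    have l3 := loc_mul0 r' _ _ l1 l2
    have l4 : Loc (Nb r' 0) (fun X : Cf N L => g (rf X)) :=
      loc_rf r' g (loc_mono A _ (Finset.subset_union_left.trans hr') g hgA)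
    have l5 : Loc (Nb r' 0) (fun X : Cf N L => g (shf ((n : ℤ), 0) X)) :=
      loc_mono _ _ (Finset.subset_union_right.trans hr') _ (loc_shf0 A n g hgA)
    have t0 := tends hN hβ hmm hO hD r' 0 _ (loc_mul0 r' _ _ l4 l5)
    have t1 := tends hN hβ hmm hO hD r' 0 _ l1
    have t2 := tends hN hβ hmm hO hD r' 0 _ l2
    have t3 := tends hN hβ hmm hO hD r' 0 _ l3
    have e1 : Phi N L k β (fun X : Cf N L => f (rf X)) = c := phi_rf hN hβ hmm hO hR hD r f hfr
    have e2 : Phi N L k β (fun X : Cf N L => f (shf ((n : ℤ), 0) X)) = c :=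
      loc_phi_shf hN hβ hmm hO hS hD A _ f hf
    rw [e1] at t1
    rw [e2] at t2
    have e3 : (fun j : ℕ => wex N L k β (Nb j 0) fun X => g (rf X) * g (shf ((n : ℤ), 0) X)) =
        fun j => (wex N L k β (Nb j 0) (fun X => f (rf X) * f (shf ((n : ℤ), 0) X)) -
          c * wex N L k β (Nb j 0) (fun X => f (rf X)) -
          c * wex N L k β (Nb j 0) (fun X => f (shf ((n : ℤ), 0) X)) + c ^ 2) / 4 := by
      funext j
      have e4 : (fun X : Cf N L => g (rf X) * g (shf ((n : ℤ), 0) X)) = fun X =>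
          (1 / 4 : ℝ) * (((f (rf X) * f (shf ((n : ℤ), 0) X)) + (-c) * f (rf X)) +
            ((-c) * f (shf ((n : ℤ), 0) X) + c ^ 2)) := by
        funext X
        simp only [hg]
        ring
      rw [e4, wex_mul,
        wex_add k hβ _ (fun X => (f (rf X) * f (shf ((n : ℤ), 0) X)) + (-c) * f (rf X))
          (fun X => (-c) * f (shf ((n : ℤ), 0) X) + c ^ 2)
          (l3.1.add (l1.1.const_mul _)) ⟨1 + |(-c)| * 1, fun X => (abs_add_le _ _).trans (add_le_add
            (l3.2.1 X) (by rw [abs_mul]; exact mul_le_mul_of_nonneg_left (l1.2.1 X) (abs_nonneg _)))⟩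
          ((l2.1.const_mul _).add_const _) ⟨|(-c)| * 1 + |c ^ 2|, fun X => (abs_add_le _ _).trans
            (add_le_add (by rw [abs_mul]; exact mul_le_mul_of_nonneg_left (l2.2.1 X) (abs_nonneg _))
              le_rfl)⟩,
        wex_add k hβ _ (fun X => f (rf X) * f (shf ((n : ℤ), 0) X)) (fun X => (-c) * f (rf X))
          l3.1 ⟨1, l3.2.1⟩ (l1.1.const_mul _) ⟨|(-c)| * 1, fun X => by
            rw [abs_mul]; exact mul_le_mul_of_nonneg_left (l1.2.1 X) (abs_nonneg _)⟩,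
        wex_add k hβ _ (fun X => (-c) * f (shf ((n : ℤ), 0) X)) (fun _ => c ^ 2)
          (l2.1.const_mul _) ⟨|(-c)| * 1, fun X => by
            rw [abs_mul]; exact mul_le_mul_of_nonneg_left (l2.2.1 X) (abs_nonneg _)⟩
          measurable_const ⟨|c ^ 2|, fun _ => le_rfl⟩,
        wex_mul, wex_mul, wex_const k hβ]
      ring
    rw [e3] at t0
    have t4 := (((t3.sub (t1.const_mul c)).sub (t2.const_mul c)).add_const (c ^ 2)).div_const 4
    have := tendsto_nhds_unique t0 t4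
    rw [this]
    ring
  set H : ℕ → ℝ := fun n => Phi N L k β (fun X => g (rf X) * g (shf ((n : ℤ), 0) X)) with hH
  have sh0 : ∀ X : Cf N L, shf (((0 : ℕ) : ℤ), 0) X = X := by
    intro X
    funext l
    obtain ⟨⟨⟨x1, x2⟩, y⟩, i⟩ := l
    simp [shf]
  -- shifted functions
  have hsh : ∀ a b : ℕ, Phi N L k β (fun X => g (shf ((a : ℤ), 0) (rf X)) * g (shf ((b : ℤ), 0) X)) =
      H (a + b) := by
    intro a b
    obtain ⟨r', hr'⟩ := loc_big ((A.image fun x => x + ((a : ℤ), 0)) ∪ A.image fun x => x + ((b : ℤ), 0))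
    have l1 : Loc (Nb r' 0) (fun X : Cf N L => g (shf ((a : ℤ), 0) X)) :=
      loc_mono _ _ (Finset.subset_union_left.trans hr') _ (loc_shf0 A a g hgA)
    have l2 : Loc (Nb r' 0) (fun X : Cf N L => g (shf ((b : ℤ), 0) X)) :=
      loc_mono _ _ (Finset.subset_union_right.trans hr') _ (loc_shf0 A b g hgA)
    have l3 := loc_mul0 r' _ _ (loc_rf r' _ l1) l2
    rw [← loc_phi_shf hN hβ hmm hO hS hD (Nb r' 0) ((a : ℤ), 0) _ l3, hH]
    show Phi N L k β (fun X => g (shf ((a : ℤ), 0) (rf (shf ((a : ℤ), 0) X))) *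
      g (shf ((b : ℤ), 0) (shf ((a : ℤ), 0) X))) = _
    congr 1
    funext X
    rw [shf_rf, shf_shf]
    have : (((b : ℤ), 0) : Pl) + ((a : ℤ), 0) = (((a + b : ℕ) : ℤ), 0) := by
      ext <;> simp [add_comm]
    rw [this]
  have hcs : ∀ a b : ℕ, H (a + b) ^ 2 ≤ H (2 * a) * H (2 * b) := by
    intro a b
    set A' := (A.image fun x => x + ((a : ℤ), 0)) ∪ A.image fun x => x + ((b : ℤ), 0) with hA'
    have hA0 : ∀ x ∈ A', 0 ≤ x.1 := by
      intro x hx
      rw [hA', Finset.mem_union, Finset.mem_image, Finset.mem_image] at hx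
      rcases hx with ⟨y, hy, rfl⟩ | ⟨y, hy, rfl⟩
      · have := hA y hy
        simp only [Prod.fst_add]
        positivity
      · have := hA y hy
        simp only [Prod.fst_add]
        positivity
    have l1 : Loc A' (fun X : Cf N L => g (shf ((a : ℤ), 0) X)) :=
      loc_mono _ _ Finset.subset_union_left _ (loc_shf0 A a g hgA)
    have l2 : Loc A' (fun X : Cf N L => g (shf ((b : ℤ), 0) X)) :=
      loc_mono _ _ Finset.subset_union_right _ (loc_shf0 A b g hgA)
    have := phi_cs hN hβ hmm hO hR hD A' hA0 _ _ l1 l2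
    rw [hsh a b, hsh a a, hsh b b, ← two_mul, ← two_mul] at this
    exact this
  have hpos : ∀ a : ℕ, 0 ≤ H (2 * a) := by
    intro a
    have hA0 : ∀ x ∈ (A.image fun x => x + ((a : ℤ), 0)), 0 ≤ x.1 := by
      intro x hx
      rw [Finset.mem_image] at hx
      obtain ⟨y, hy, rfl⟩ := hx
      have := hA y hy
      simp only [Prod.fst_add]
      positivity
    have := phi_rp hN hβ hmm hO hR hD _ hA0 _ (loc_shf0 A a g hgA)
    rw [hsh a a, ← two_mul] at this
    exact this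
  -- decay
  have hgm : Phi N L k β g = 0 := by
    have t1 := tends hN hβ hmm hO hD r 0 g (loc_mono A _ hr g hgA)
    have t2 := tends hN hβ hmm hO hD r 0 f hfr
    have e3 : (fun j : ℕ => wex N L k β (Nb j 0) g) = fun j => (wex N L k β (Nb j 0) f - c) / 2 := by
      funext j
      have e4 : g = fun X => (1 / 2 : ℝ) * (f X + (-c)) := by
        funext X
        simp only [hg]
        ring
      rw [e4, wex_mul, wex_add k hβ _ f (fun _ => -c) hf.1 ⟨1, hf.2.1⟩ measurable_const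
        ⟨|(-c)|, fun _ => le_rfl⟩, wex_const k hβ]
      ring
    rw [e3] at t1
    have := tendsto_nhds_unique t1 ((t2.sub_const c).div_const 2)
    rw [this, ← hc]
    simp
  have hgr := loc_mono A _ hr g hgA
  have hdec : ∀ n : ℕ, |H n| ≤ cst N r m * β ^ κ * Real.exp (-m * n) := by
    intro n
    have := clu_rate hN hβ hmm hκ h1β hO hS hD r 0 ((n : ℤ), 0) _ _ (loc_rf r g hgr)
      (by
        have := loc_shf r 0 ((n : ℤ), 0) g hgr
        rwa [zero_add] at this)
    rw [phi_rf hN hβ hmm hO hR hD r g hgr, hgm, zero_mul, sub_zero] at this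
    have e : dpl 0 ((n : ℤ), 0) = n := by
      simp [dpl]
    rw [e] at this
    exact this
  have h2 : ∀ j, H (2 * j) ≤ (cst N r m * β ^ κ) * (Real.exp (-(2 * m))) ^ j := by
    intro j
    refine (le_abs_self _).trans ((hdec (2 * j)).trans (le_of_eq ?_))
    rw [← Real.exp_nat_mul]
    congr 2
    push_cast
    ring
  have h3 := logconv (fun j => H (2 * j)) _ _ (Real.exp_pos _) hpos (fun j => by
    have := hcs j (j + 2)
    rw [show j + (j + 2) = 2 * (j + 1) by ring] at this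
    exact this) h2
  have h0 : 0 ≤ H 0 := hpos 0
  have hfin : |H n| ≤ H 0 * Real.exp (-m * n) := by
    have e1 : H n ^ 2 ≤ H 0 * H (2 * n) := by
      have := hcs 0 n
      simpa using this
    have e2 : H (2 * n) ≤ H 0 * (Real.exp (-(2 * m))) ^ n := by simpa using h3 n
    have e3 : (Real.exp (-(2 * m))) ^ n = Real.exp (-m * n) ^ 2 := by
      rw [← Real.exp_nat_mul, ← Real.exp_nat_mul]
      congr 1
      push_cast
      ring
    rw [e3] at e2
    have e4 : H n ^ 2 ≤ (H 0 * Real.exp (-m * n)) ^ 2 := by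
      calc H n ^ 2 ≤ H 0 * H (2 * n) := e1
        _ ≤ H 0 * (H 0 * Real.exp (-m * n) ^ 2) := mul_le_mul_of_nonneg_left e2 h0
        _ = _ := by ring
    exact abs_le_of_sq_le_sq e4 (mul_nonneg h0 (Real.exp_pos _).le)
  have k1 : H n = (Phi N L k β (fun X => f (rf X) * f (shf ((n : ℤ), 0) X)) - c ^ 2) / 4 := key n
  have k0 : H 0 = (Phi N L k β (fun X => f (rf X) * f X) - c ^ 2) / 4 := by
    have := key 0
    simp only [sh0] at this
    rw [← this]
    simp only [hH, sh0]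
  rw [k1, k0, abs_div, abs_of_pos (by norm_num : (0 : ℝ) < 4)] at hfin
  linarith

end T2H02.TT
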