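import Pool.Agent.T2H02.TT.Fin11
import Pool.Agent.T2H02.TT.Fin9
import Pool.Agent.T2H02.TT.Fin7

/-!
# Assembly: the final statement with spectral gap and centre-projected loops
-/

set_option autoImplicit false
set_option linter.unusedSectionVars false

noncomputable section

open MeasureTheory Matrix Filter Topology
open scoped Matrix.Norms.Frobenius

namespace T2H02.TT

variable {N L : ℕ} [NeZero L]

/-- existence of the limit, clustering and spectral gap, for one torus, uniformly in the coupling -/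
theorem mass (hP : S_P1) (hO : S_O) (hS : S_SY) (hR : S_RP) (N k L : ℕ) [NeZero L] (hN : 2 ≤ N)
    (hk : Nat.Coprime k N) :
    ∃ β₀ m κ : ℝ, 0 < m ∧
      (∀ r : ℕ, ∃ C : ℝ, ∀ β : ℝ, β₀ ≤ β → ∀ (a : Pl) (f : Cf N L → ℝ), Loc (Nb r a) f →
        (∀ (n : ℕ) (R : Finset Pl), Nb n a ⊆ R →
          |wex N L k β R f - Phi N L k β f| ≤ C * β ^ κ * Real.exp (-m * n)) ∧
        (∀ v : Pl, Phi N L k β (fun X => f (shf v X)) = Phi N L k β f) ∧
        ∀ (b : Pl) (g : Cf N L → ℝ), Loc (Nb r b) g →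
          |Phi N L k β (fun X => f X * g X) - Phi N L k β f * Phi N L k β g| ≤
            C * β ^ κ * Real.exp (-m * dpl a b)) ∧
      ∀ β : ℝ, β₀ ≤ β → ∀ A : Finset Pl, (∀ a ∈ A, 0 ≤ a.1) → ∀ f : Cf N L → ℝ, Loc A f →
        ∀ n : ℕ, |Phi N L k β (fun X => f (rf X) * f (shf ((n : ℤ), 0) X)) - Phi N L k β f ^ 2| ≤
          Real.exp (-m * n) * (Phi N L k β (fun X => f (rf X) * f X) - Phi N L k β f ^ 2) := by
  obtain ⟨m, κ, β₀, hm0, hκ, hβ0, h⟩ := hP N k L hN hk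
  refine ⟨β₀, m, κ, hm0, fun r => ⟨cst N r m, fun β hβ a f hf => ?_⟩, fun β hβ A hA' f hf n => ?_⟩
  · have h1 : 1 ≤ β := by linarith
    have h0 : 0 ≤ β := by linarith
    have hD : Dec N L k hN β h0 m κ := h β h0 hβ
    exact ⟨fun n R hR => lim_rate hN h0 hm0 hκ h1 hO hD r a f hf n R hR,
      fun v => phi_shf hN h0 hm0 hO hS hD r a v f hf,
      fun b g hg => clu_rate hN h0 hm0 hκ h1 hO hS hD r a b f g hf hg⟩
  · have h1 : 1 ≤ β := by linarith
    have h0 : 0 ≤ β := by linarith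
    have hD : Dec N L k hN β h0 m κ := h β h0 hβ
    exact gap hN h0 hm0 hκ h1 hO hS hR hD A hA' f hf n

/-- area law for Wilson loops, two-sided bounds for centre-projected loops -/
theorem tens (hP : S_P1) (hO : S_O) (hS : S_SY) (hA : S_AR) (hR : S_RP) (hZ : S_ZL) (hDT : S_DT)
    (hEG : S_EG) (hPB : S_PB) (hU : S_UB) (N k L : ℕ) [NeZero L] (hN : 2 ≤ N)
    (hk : Nat.Coprime k N) :
    (∀ β : ℝ, 0 ≤ β → ∀ (R : Finset Pl) (x : Pl) (y : Tor L) (a b : ℕ),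
      (∀ i j : ℕ, i ≤ a → j ≤ b → x + ((i : ℤ), (j : ℤ)) ∈ R) →
        ‖wexC N L k β R (fun X => wlp X x y a b)‖ ≤
          (1 - Real.exp (-2 * N * L ^ 2 * β)) ^ (a * b)) ∧
    ∀ P Q : SU N, PQ k P Q → ∃ ε c β₁ : ℝ, 0 < ε ∧ 0 < c ∧
      (∃ G : Ph N L → Tor L → SU N, GF P Q ε G) ∧
      ∀ G : Ph N L → Tor L → SU N, GF P Q ε G → ∀ β : ℝ, β₁ ≤ β → ∀ i j : ℕ,
        (1 - Real.exp (-c * β)) ^ ((i + 1) * (j + 1)) ≤
          Phi N L k β (fun X => (plo G X 0 (2 * (i + 1)) (2 * (j + 1))).re) ∧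
        Phi N L k β (fun X => (plo G X 0 (2 * (i + 1)) (2 * (j + 1))).re) ≤
          (1 - Real.exp (-2 * N * L ^ 2 * β)) ^ (2 * (i + 1) * (2 * (j + 1))) :=
  ⟨fun β hβ R x y a b h => hA N k L hN β hβ R x y a b h,
    fun P Q hPQ => proj hP hO hS hR hZ hDT hEG hPB hU N k L hN hk P Q hPQ⟩

end T2H02.TT
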