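import Pool.Agent.T2H02.TT.Fin3

/-!
# Assembly, third part: infinite volume limit
-/

set_option autoImplicit false
set_option linter.unusedSectionVars false

noncomputable section

open MeasureTheory Matrix Filter Topology
open scoped Matrix.Norms.Frobenius

namespace T2H02.TT

variable {N L : ℕ} [NeZero L]

/-- uniform decay of the influence of the boundary, for one value of the coupling -/
def Dec (N L : ℕ) [NeZero L] (k : ℕ) (hN : 2 ≤ N) (β : ℝ) (hβ : 0 ≤ β) (m κ : ℝ) : Prop :=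
  ∀ (A Λ : Finset Pl) (n : ℕ), (∀ a ∈ A, Nb n a ⊆ Λ) →
    ∀ f : Cf N L → ℝ, Measurable f → (∀ X, |f X| ≤ 1) → Sys.dep {l | ∀ a ∈ st l, a ∈ A} f →
    ∀ η η' : Cf N L, |(sysS N L k β hN hβ).ker (hm N) Λ f η - (sysS N L k β hN hβ).ker (hm N) Λ f η'| ≤
      6 * A.card * β ^ κ * Real.exp (-m * n)

lemma mem_Nb (r : ℕ) (a b : Pl) : b ∈ Nb r a ↔ |b.1 - a.1| ≤ r ∧ |b.2 - a.2| ≤ r := by
  unfold Nb
  rw [Finset.mem_product, Finset.mem_Icc, Finset.mem_Icc, abs_le, abs_le]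
  constructor
  · rintro ⟨⟨h1, h2⟩, h3, h4⟩
    exact ⟨⟨by linarith, by linarith⟩, by linarith, by linarith⟩
  · rintro ⟨⟨h1, h2⟩, h3, h4⟩
    exact ⟨⟨by linarith, by linarith⟩, by linarith, by linarith⟩

lemma Nb_trans (r s : ℕ) (a b c : Pl) (h : b ∈ Nb r a) (h' : c ∈ Nb s b) : c ∈ Nb (r + s) a := by
  rw [mem_Nb] at *
  push_cast
  constructor
  · calc |c.1 - a.1| = |(c.1 - b.1) + (b.1 - a.1)| := by ring_nf
      _ ≤ _ := (abs_add_le _ _).trans (by linarith [h.1, h'.1])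
  · calc |c.2 - a.2| = |(c.2 - b.2) + (b.2 - a.2)| := by ring_nf
      _ ≤ _ := (abs_add_le _ _).trans (by linarith [h.2, h'.2])

lemma Nb_mono (r s : ℕ) (h : r ≤ s) (a : Pl) : Nb r a ⊆ Nb s a := by
  intro b hb
  rw [mem_Nb] at *
  have : (r : ℤ) ≤ s := by exact_mod_cast h
  exact ⟨hb.1.trans this, hb.2.trans this⟩

lemma card_Nb (r : ℕ) (a : Pl) : (Nb r a).card = (2 * r + 1) ^ 2 := by
  unfold Nb
  rw [Finset.card_product, Int.card_Icc, Int.card_Icc]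
  have h1 : (a.1 + r + 1 - (a.1 - r)).toNat = 2 * r + 1 := by omega
  have h2 : (a.2 + r + 1 - (a.2 - r)).toNat = 2 * r + 1 := by omega
  rw [h1, h2]
  ring

lemma ccv_Nb (r : ℕ) (a : Pl) : ccv (Nb r a) := by
  intro x hx y hy _ c h1 h2
  rw [mem_Nb, abs_le, abs_le] at *
  exact ⟨hx.1, by constructor <;> linarith [hx.2.1, hx.2.2, hy.2.1, hy.2.2]⟩

lemma tml_tin (A R : Finset Pl) (n : ℕ) (h : ∀ a ∈ A, Nb (n + 1) a ⊆ R) :
    tml (A.biUnion (Nb n)) ⊆ tin R := by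
  intro τ hτ
  rw [mem_tml] at hτ
  obtain ⟨a, ha, ha2⟩ := hτ
  rw [Finset.mem_biUnion] at ha2
  obtain ⟨c, hc, ha3⟩ := ha2
  rw [mem_tin]
  intro b hb
  refine h c hc (Nb_trans n 1 c a b ha3 ?_)
  rw [mem_Nb]
  have := diam_cor τ b hb a ha
  exact_mod_cast this

variable {k : ℕ} (hN : 2 ≤ N) {β : ℝ} (hβ : 0 ≤ β) {m κ : ℝ}

lemma key1 (hD : Dec N L k hN β hβ m κ) (A : Finset Pl) (n : ℕ) (f : Cf N L → ℝ)
    (hf : Loc A f) (η η' : Cf N L) :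
    |(sysS N L k β hN hβ).ker (hm N) (A.biUnion (Nb n)) (hat k β A f) η -
      (sysS N L k β hN hβ).ker (hm N) (A.biUnion (Nb n)) (hat k β A f) η'| ≤
      (N : ℝ) ^ A.card * (6 * A.card * β ^ κ * Real.exp (-m * n)) := by
  have hN0 : (0 : ℝ) < (N : ℝ) ^ A.card := by
    have : (0 : ℝ) < N := by exact_mod_cast (by omega : 0 < N)
    positivity
  have h1 := hD A (A.biUnion (Nb n)) n (fun a ha => Finset.subset_biUnion_of_mem (Nb n) ha)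
    (fun X => ((N : ℝ) ^ A.card)⁻¹ * hat k β A f X) ((hat_meas hN k β A f hf.1).const_mul _)
    (fun X => by
      rw [abs_mul, abs_of_pos (inv_pos.2 hN0)]
      have := hat_bd hN k β A f hf.2.1 X
      rw [inv_mul_le_iff₀ hN0, mul_one]
      exact this)
    (fun X Y h => by
      show _ * _ = _ * _
      rw [hat_dep k β A f (fun X Y h => hf.2.2 X Y h) X Y h]) η η'
  have h5 := pF5 (Lk L) Tm (SU N) (sysS N L k β hN hβ) (hm N) (A.biUnion (Nb n))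
  obtain ⟨-, -, hlin, -⟩ := h5
  have hm1 := hat_meas (L := L) hN k β A f hf.1
  have hb1 : ∃ K, ∀ X, |hat k β A f X| ≤ K := ⟨_, hat_bd hN k β A f hf.2.1⟩
  rw [(hlin _ _ hm1 hb1 hm1 hb1 η).2.2, (hlin _ _ hm1 hb1 hm1 hb1 η').2.2, ← mul_sub, abs_mul,
    abs_of_pos (inv_pos.2 hN0), inv_mul_le_iff₀ hN0] at h1
  exact h1

lemma hker_meas (A Λ : Finset Pl) (f : Cf N L → ℝ) (hf : Loc A f) :
    Measurable ((sysS N L k β hN hβ).ker (hm N) Λ (hat k β A f)) ∧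
    ∃ K, ∀ X, |(sysS N L k β hN hβ).ker (hm N) Λ (hat k β A f) X| ≤ K := by
  have h5 := pF5 (Lk L) Tm (SU N) (sysS N L k β hN hβ) (hm N) Λ
  have hm1 := hat_meas (L := L) hN k β A f hf.1
  exact ⟨h5.2.2.2.1 _ hm1 ⟨_, hat_bd hN k β A f hf.2.1⟩,
    ⟨_, h5.2.2.2.2.1 _ _ hm1 (hat_bd hN k β A f hf.2.1)⟩⟩

lemma key2 (hO : S_O) (hD : Dec N L k hN β hβ m κ) (A R : Finset Pl) (n : ℕ) (hA : ccv A)
    (hAR : A ⊆ R) (hR : ∀ a ∈ A, Nb (n + 1) a ⊆ R) (f : Cf N L → ℝ) (hf : Loc A f)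
    (η : Cf N L) :
    |wex N L k β R f - (sysS N L k β hN hβ).ker (hm N) (A.biUnion (Nb n)) (hat k β A f) η| ≤
      (N : ℝ) ^ A.card * (6 * A.card * β ^ κ * Real.exp (-m * n)) := by
  rw [wex_ex hO hN k β hβ A R hA hAR f hf.1 hf.2.1 (fun X Y h => hf.2.2 X Y h)]
  have h4 := pF4 (Lk L) Tm (SU N) (sysS N L k β hN hβ) (hm N) (A.biUnion (Nb n)) (tin R)
    (tml_tin A R n hR) (hat k β A f) (hat_meas hN k β A f hf.1) ⟨_, hat_bd hN k β A f hf.2.1⟩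
    (fun _ => (1 : ℝ)) measurable_const ⟨1, fun _ => by simp⟩ (fun _ _ _ => rfl)
  simp only [one_mul] at h4
  have h4' : (sysS N L k β hN hβ).ex (hm N) (tin R) (hat k β A f) =
      (sysS N L k β hN hβ).ex (hm N) (tin R)
        ((sysS N L k β hN hβ).ker (hm N) (A.biUnion (Nb n)) (hat k β A f)) := h4
  rw [h4']
  exact ex_near (sysS N L k β hN hβ) (hm N) (tin R) _ (hker_meas hN hβ A _ f hf).1 _ _
    fun ω => key1 hN hβ hD A n f hf ω η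

/-- the error for a box of radius `r` -/
def err (N r : ℕ) (β κ m : ℝ) (n : ℕ) : ℝ :=
  (N : ℝ) ^ ((2 * r + 1) ^ 2) * (6 * ((2 * r + 1) ^ 2 : ℕ) * β ^ κ * Real.exp (-m * n))

lemma key3 (hO : S_O) (hD : Dec N L k hN β hβ m κ) (r : ℕ) (a : Pl) (f : Cf N L → ℝ)
    (hf : Loc (Nb r a) f) (n : ℕ) (R R' : Finset Pl) (hR : Nb (r + (n + 1)) a ⊆ R)
    (hR' : Nb (r + (n + 1)) a ⊆ R') :
    |wex N L k β R f - wex N L k β R' f| ≤ 2 * err N r β κ m n := by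
  have hs : ∀ R : Finset Pl, Nb (r + (n + 1)) a ⊆ R → Nb r a ⊆ R ∧ ∀ b ∈ Nb r a, Nb (n + 1) b ⊆ R :=
    fun R hR => ⟨(Nb_mono _ _ (by omega) a).trans hR, fun b hb c hc => hR (Nb_trans _ _ _ _ _ hb hc)⟩
  have h1 := key2 hN hβ hO hD (Nb r a) R n (ccv_Nb r a) (hs R hR).1 (hs R hR).2 f hf (fun _ => 1)
  have h2 := key2 hN hβ hO hD (Nb r a) R' n (ccv_Nb r a) (hs R' hR').1 (hs R' hR').2 f hf
    (fun _ => 1)
  rw [card_Nb] at h1 h2
  rw [abs_le] at *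
  unfold err
  constructor <;> linarith [h1.1, h1.2, h2.1, h2.2]

end T2H02.TT
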