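import Pool.Agent.T2H02.TT.Stm4
import Pool.Agent.T2H02.TT.Fin4
import Pool.Agent.T2H02.TT.H

/-!
# Package PB : large energies are exponentially rare in the original measure
-/

set_option autoImplicit false
set_option linter.unusedSectionVars false

noncomputable section

open MeasureTheory Matrix Filter Topology
open scoped Matrix.Norms.Frobenius

namespace T2H02.TT

namespace PkgPB

variable {N L : ℕ} [NeZero L]

/-- indicator of the event -/
def fe (N L : ℕ) [NeZero L] (k : ℕ) (A : Finset Pl) (ε : ℝ) (X : Cf N L) : ℝ :=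
  ind (∃ τ ∈ tin A, ε < en1 k X τ)

lemma fe_meas (k : ℕ) (A : Finset Pl) (ε : ℝ) : Measurable (fe N L k A ε) := by
  unfold fe ind
  refine Measurable.ite ?_ measurable_const measurable_const
  have h : {X : Cf N L | ∃ τ ∈ tin A, ε < en1 k X τ} =
      ⋃ τ ∈ tin A, {X : Cf N L | ε < en1 k X τ} := by
    ext X
    simp
  rw [h]
  exact Finset.measurableSet_biUnion _ fun τ _ =>
    measurableSet_lt measurable_const (en1_cont k τ).measurable

lemma fe_abs (k : ℕ) (A : Finset Pl) (ε : ℝ) (X : Cf N L) : |fe N L k A ε X| ≤ 1 := PkgH.ind_abs _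

lemma fe_dep (k : ℕ) (A : Finset Pl) (ε : ℝ) :
    Sys.dep {l : Lk L | ∀ a ∈ st l, a ∈ A} (fe N L k A ε) := by
  intro X Y h
  unfold fe
  have h1 : ∀ τ ∈ tin A, en1 k X τ = en1 k Y τ := by
    intro τ hτ
    refine en1_loc k τ X Y fun l hl => h l fun a ha => ?_
    exact (mem_tin _ τ).1 hτ a ((cor_iff τ a).2 ⟨l, hl, ha⟩)
  congr 1
  apply propext
  constructor
  · rintro ⟨τ, hτ, h2⟩
    exact ⟨τ, hτ, by rw [← h1 τ hτ]; exact h2⟩
  · rintro ⟨τ, hτ, h2⟩
    exact ⟨τ, hτ, by rw [h1 τ hτ]; exact h2⟩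

lemma tin_tml (A : Finset Pl) : tin A ⊆ tml A := Finset.filter_subset _ _

lemma wt_ge (hN : 2 ≤ N) (k : ℕ) (β : ℝ) (τ : Tm) (h3 : τ.2 = 3) (X : Cf N L) :
    Real.exp (-β * en k X τ) / N ≤ wt k β τ X := by
  have hne : Nonempty (Fin N) := ⟨⟨0, by omega⟩⟩
  have hN0 : (0 : ℝ) < N := by exact_mod_cast (by omega : 0 < N)
  obtain ⟨m, hm⟩ := exists_eq_ciInf_of_finite (f := fun m : Fin N => eP X (om N m) τ.1)
  have h1 : en k X τ = eP X (om N m) τ.1 := by
    rw [hm]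
    simp [en, h3]
  rw [h1, wt, if_pos h3]
  refine div_le_div_of_nonneg_right ?_ hN0.le
  exact Finset.single_le_sum (f := fun m : Fin N => Real.exp (-β * eP X (om N m) τ.1))
    (fun _ _ => (Real.exp_pos _).le) (Finset.mem_univ m)

lemma en_eq (k : ℕ) (X : Cf N L) (τ : Tm) (h3 : τ.2 ≠ 3) : en1 k X τ = en k X τ := by
  obtain ⟨x, i⟩ := τ
  fin_cases i
  · simp [en, en1]
  · simp [en, en1]
  · simp [en, en1]
  · exact absurd rfl h3

lemma hat_le (hN : 2 ≤ N) (k : ℕ) (β : ℝ) (hβ : 0 ≤ β) (A : Finset Pl) (hc : A.card = 9) (ε : ℝ)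
    (X : Cf N L) :
    hat k β A (fe N L k A ε) X ≤ (N : ℝ) ^ 9 * Real.exp (-β * (ε / 2)) +
      (N : ℝ) ^ 9 * ind (ε / 2 ≤ ∑ τ ∈ tml A, en k X τ) := by
  have hN1 : (1 : ℝ) ≤ N := by exact_mod_cast (by omega : 1 ≤ N)
  have hN0 : (0 : ℝ) < N := by linarith
  by_cases hS : ε / 2 ≤ ∑ τ ∈ tml A, en k X τ
  · rw [PkgH.ind_true hS, mul_one]
    have h1 := hat_bd hN k β A (fe N L k A ε) (fe_abs k A ε) X
    rw [hc] at h1
    have h2 := le_abs_self (hat k β A (fe N L k A ε) X)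
    have h3 : 0 ≤ (N : ℝ) ^ 9 * Real.exp (-β * (ε / 2)) := by positivity
    linarith
  · have h0 : ind (ε / 2 ≤ ∑ τ ∈ tml A, en k X τ) = 0 := by
      unfold ind
      rw [if_neg hS]
    rw [h0, mul_zero, add_zero]
    push Not at hS
    by_cases hf : ∃ τ ∈ tin A, ε < en1 k X τ
    · have hf1 : fe N L k A ε X = 1 := PkgH.ind_true hf
      obtain ⟨τ, hτ, hτε⟩ := hf
      have hle : en k X τ ≤ ε / 2 := by
        refine le_trans ?_ hS.le
        exact Finset.single_le_sum (f := fun τ => en k X τ) (fun σ _ => en_nonneg k X σ)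
          (tin_tml _ hτ)
      have hε : 0 < ε := by
        have := en_nonneg k X τ
        by_contra hcon
        push Not at hcon
        have h2 : ε / 2 ≤ 0 := by linarith
        have h3 : 0 ≤ ∑ τ ∈ tml A, en k X τ :=
          Finset.sum_nonneg fun σ _ => en_nonneg k X σ
        linarith
      have h3 : τ.2 = 3 := by
        by_contra h3
        rw [en_eq k X τ h3] at hτε
        linarith
      unfold hat
      rw [hf1, one_mul]
      have hmem : τ ∈ (tin A).filter (fun τ => τ.2 = 3) := Finset.mem_filter.2 ⟨hτ, h3⟩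
      calc ∏ σ ∈ (tin A).filter (fun τ => τ.2 = 3),
            (Real.exp (-β * en1 k X σ) / wt k β σ X)
          ≤ ∏ σ ∈ (tin A).filter (fun τ => τ.2 = 3),
            ((N : ℝ) * if σ = τ then Real.exp (-β * (ε / 2)) else 1) := by
            refine Finset.prod_le_prod (fun σ hσ =>
              (ratio_bd hN k β σ (Finset.mem_filter.1 hσ).2 X).1) fun σ hσ => ?_
            by_cases hst : σ = τ
            · rw [if_pos hst, hst, div_le_iff₀ (wt_pos k β τ X (by omega))]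
              have h4 := wt_ge hN k β τ h3 X
              have h5 : Real.exp (-β * en1 k X τ) ≤
                  Real.exp (-β * (ε / 2)) * Real.exp (-β * en k X τ) := by
                rw [← Real.exp_add]
                refine Real.exp_le_exp.2 ?_
                nlinarith
              calc Real.exp (-β * en1 k X τ)
                  ≤ Real.exp (-β * (ε / 2)) * Real.exp (-β * en k X τ) := h5
                _ = (N * Real.exp (-β * (ε / 2))) * (Real.exp (-β * en k X τ) / N) := by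
                    field_simp
                _ ≤ (N * Real.exp (-β * (ε / 2))) * wt k β τ X :=
                    mul_le_mul_of_nonneg_left h4 (by positivity)
            · rw [if_neg hst, mul_one]
              exact (ratio_bd hN k β σ (Finset.mem_filter.1 hσ).2 X).2
        _ = (N : ℝ) ^ ((tin A).filter (fun τ => τ.2 = 3)).card *
            Real.exp (-β * (ε / 2)) := by
            rw [Finset.prod_mul_distrib, Finset.prod_const, Finset.prod_ite_eq' _ τ, if_pos hmem]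
        _ ≤ (N : ℝ) ^ 9 * Real.exp (-β * (ε / 2)) := by
            refine mul_le_mul_of_nonneg_right ?_ (Real.exp_pos _).le
            refine pow_le_pow_right₀ hN1 ?_
            rw [← hc]
            exact card_plq _
    · have hf0 : fe N L k A ε X = 0 := by
        unfold fe ind
        rw [if_neg hf]
      unfold hat
      rw [hf0, zero_mul]
      positivity

lemma hat_nonneg (hN : 2 ≤ N) (k : ℕ) (β : ℝ) (A : Finset Pl) (ε : ℝ) (X : Cf N L) :
    0 ≤ hat k β A (fe N L k A ε) X :=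
  mul_nonneg (PkgH.ind_nonneg _) (prod_bd hN k β _ X).1

lemma card_bal (R : ℕ) : ((bal (R + 1) (Nb 1 0)).card : ℝ) ≤ (2 * R + 5) ^ 2 := by
  have h1 : bal (R + 1) (Nb 1 0) ⊆ Nb (1 + (R + 1)) 0 := by
    intro a ha
    rw [bal, Finset.mem_biUnion] at ha
    obtain ⟨b, hb, hab⟩ := ha
    exact Nb_trans _ _ _ _ _ hb hab
  have h2 := Finset.card_le_card h1
  rw [card_Nb] at h2
  calc ((bal (R + 1) (Nb 1 0)).card : ℝ) ≤ (((2 * (1 + (R + 1)) + 1) ^ 2 : ℕ) : ℝ) := by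
        exact_mod_cast h2
    _ = (2 * R + 5) ^ 2 := by
        push_cast
        ring

lemma choose_R (θ C ε : ℝ) (h0 : 0 < θ) (h1 : θ < 1) (hC : 1 ≤ C) (hε : 0 < ε) :
    ∃ R : ℕ, θ ^ R * C * (bal (R + 1) (Nb 1 0)).card ≤ ε / 8 := by
  have h := tendsto_pow_const_mul_const_pow_of_abs_lt_one 2 (by rw [abs_of_pos h0]; exact h1)
  have h2 := (h.eventually (gt_mem_nhds (show 0 < ε / (8 * 49 * C) by positivity))).and
    (eventually_ge_atTop 1)
  obtain ⟨R, hR, hR1⟩ := h2.exists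
  refine ⟨R, ?_⟩
  have hR1' : (1 : ℝ) ≤ R := by exact_mod_cast hR1
  have h3 := card_bal R
  have h4 : (2 * (R : ℝ) + 5) ^ 2 ≤ 49 * (R : ℝ) ^ 2 := by nlinarith
  have hθ : 0 < θ ^ R := pow_pos h0 R
  rw [lt_div_iff₀ (by positivity)] at hR
  calc θ ^ R * C * (bal (R + 1) (Nb 1 0)).card ≤ θ ^ R * C * (49 * (R : ℝ) ^ 2) :=
        mul_le_mul_of_nonneg_left (h3.trans h4) (by positivity)
    _ ≤ ε / 8 := by nlinarith

/-- real analysis: choice of the coupling -/
lemma choose_β (a b ε t : ℝ) (E : ℕ) (hε : 0 < ε) (ht : 0 < t) (hte : t ≤ ε / 2) (C : ℝ) :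
    ∃ β₀ : ℝ, 1 ≤ β₀ ∧ ∀ β : ℝ, β₀ ≤ β →
      a * Real.exp (-β * (ε / 2)) + b * (Real.exp (-β * t) * (C * β) ^ E) ≤
        Real.exp (-(t / 2) * β) := by
  have h1 := tendsto_rpow_mul_exp_neg_mul_atTop_nhds_zero (0 : ℝ) (ε / 2 - t / 2) (by linarith)
  have h2 := tendsto_rpow_mul_exp_neg_mul_atTop_nhds_zero (E : ℝ) (t / 2) (by linarith)
  have h3 := (h1.const_mul a).add (h2.const_mul (b * C ^ E))
  rw [mul_zero, mul_zero, add_zero] at h3
  have h4 := h3.eventually (gt_mem_nhds (show (0 : ℝ) < 1 by norm_num))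
  obtain ⟨β₀, hβ₀⟩ := eventually_atTop.1 h4
  refine ⟨max β₀ 1, le_max_right _ _, fun β hβ => ?_⟩
  have h5 := hβ₀ β ((le_max_left _ _).trans hβ)
  rw [Real.rpow_zero, Real.rpow_natCast, one_mul] at h5
  have e1 : Real.exp (-β * (ε / 2)) = Real.exp (-(t / 2) * β) * Real.exp (-(ε / 2 - t / 2) * β) := by
    rw [← Real.exp_add]
    congr 1
    ring
  have e2 : Real.exp (-β * t) = Real.exp (-(t / 2) * β) * Real.exp (-(t / 2) * β) := by
    rw [← Real.exp_add]
    congr 1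
    ring
  rw [e1, e2, mul_pow]
  have h6 := Real.exp_pos (-(t / 2) * β)
  nlinarith

end PkgPB

open PkgPB

theorem PkgPB.core (h4 : S_F4) (h5 : S_F5) (hH : S_H) (hO : S_O) (A : Finset Pl) (hcA : A.card = 9)
    (hccv : ccv A) (hA1 : ∀ a ∈ A, a ∈ Nb 1 0)
    (hRA : ∀ θ C ε : ℝ, 0 < θ → θ < 1 → 1 ≤ C → 0 < ε →
      ∃ R : ℕ, θ ^ R * C * (bal (R + 1) A).card ≤ ε / 8)
    (N k L : ℕ) [NeZero L] (hN : 2 ≤ N) (hk : Nat.Coprime k N) (ε : ℝ) (hε : 0 < ε) :
    ∃ (c β₀ : ℝ) (n : ℕ), 0 < c ∧ 0 < β₀ ∧ ∀ β : ℝ, β₀ ≤ β → ∀ R : Finset Pl, Nb n 0 ⊆ R →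
      wex N L k β R (fun X => ind (∃ τ ∈ tin A, ε < en1 k X τ)) ≤ Real.exp (-c * β) := by
  obtain ⟨C, θ, D, hC, hθ0, hθ1, hHH⟩ := hH N k L hN hk
  obtain ⟨R', hR'⟩ := hRA θ C ε hθ0 hθ1 hC hε
  set Δ : Finset Pl := bal (R' + 1) A with hΔ
  set t : ℝ := ε / (8 * C) with ht
  have hC0 : 0 < C := by linarith
  have ht0 : 0 < t := by positivity
  have hCt : C * t = ε / 8 := by
    rw [ht]
    field_simp
  have hte : t ≤ ε / 2 := by nlinarith
  obtain ⟨β₀, hβ1, hfin⟩ := choose_β ((N : ℝ) ^ 9) ((N : ℝ) ^ 9 * (R' + 1)) ε t (D * Δ.card) hε ht0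
    hte C
  refine ⟨t / 2, β₀, 1 + (R' + 1 + 1), by linarith, by linarith, fun β hβ R hR => ?_⟩
  have hβ0 : 0 ≤ β := by linarith
  have hAR : A ⊆ R := fun a ha => hR (Nb_mono 1 _ (by omega) 0 (hA1 a ha))
  have hsub : ∀ a ∈ A, Nb (R' + 1 + 1) a ⊆ R := fun a ha b hb =>
    hR (Nb_trans _ _ _ _ _ (hA1 a ha) hb)
  have hAΔ : A ∩ Δ = A := by
    refine Finset.inter_eq_left.2 fun a ha => ?_
    rw [hΔ, bal, Finset.mem_biUnion]
    refine ⟨a, ha, ?_⟩
    rw [mem_Nb]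
    simp
    omega
  set S := sysS N L k β hN hβ0 with hS
  have hw : wex N L k β R (fun X => ind (∃ τ ∈ tin A, ε < en1 k X τ)) =
      S.ex (hm N) (tin R) (hat k β A (fe N L k A ε)) :=
    wex_ex hO hN k β hβ0 A R hccv hAR (fe N L k A ε) (fe_meas k A ε) (fe_abs k A ε)
      (fe_dep k A ε)
  have hm1 := hat_meas (L := L) hN k β A (fe N L k A ε) (fe_meas k A ε)
  have hb1 : ∃ K, ∀ X, |hat k β A (fe N L k A ε) X| ≤ K :=
    ⟨_, hat_bd hN k β A (fe N L k A ε) (fe_abs k A ε)⟩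
  have h4' := h4 (Lk L) Tm (SU N) S (hm N) Δ (tin R) (tml_tin A R (R' + 1) hsub)
    (hat k β A (fe N L k A ε)) hm1 hb1 (fun _ => (1 : ℝ)) measurable_const ⟨1, fun _ => by simp⟩
    (fun _ _ _ => rfl)
  simp only [one_mul] at h4'
  have h4'' : S.ex (hm N) (tin R) (hat k β A (fe N L k A ε)) =
      S.ex (hm N) (tin R) (S.ker (hm N) Δ (hat k β A (fe N L k A ε))) := h4'
  rw [hw, h4'']
  obtain ⟨-, hconst, hlin, hmeas, -⟩ := h5 (Lk L) Tm (SU N) S (hm N) Δ
  -- the rare event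
  set G : Cf N L → ℝ := fun X => ind (ε / 2 ≤ ∑ τ ∈ tml A, en k X τ) with hG
  have hGm : Measurable G := PkgH.ind_meas _ _ measurable_const (PkgH.en_meas k hN _)
  have hGb : ∃ K, ∀ X, |G X| ≤ K := ⟨1, fun X => PkgH.ind_abs _⟩
  set G' : Cf N L → ℝ := fun X => ind (θ ^ R' * C * Δ.card + C * Δ.card * 0 + C * t ≤
    ∑ τ ∈ tml (A ∩ Δ), en k X τ) with hG'
  have hGm' : Measurable G' := PkgH.ind_meas _ _ measurable_const (PkgH.en_meas k hN _)
  have hGb' : ∃ K, ∀ X, |G' X| ≤ K := ⟨1, fun X => PkgH.ind_abs _⟩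
  have hGG : ∀ X, G X ≤ G' X := by
    intro X
    by_cases h : ε / 2 ≤ ∑ τ ∈ tml A, en k X τ
    · have h' : θ ^ R' * C * Δ.card + C * Δ.card * 0 + C * t ≤ ∑ τ ∈ tml (A ∩ Δ), en k X τ := by
        rw [hAΔ]
        refine le_trans ?_ h
        rw [hCt]
        linarith
      show ind _ ≤ ind _
      rw [PkgH.ind_true h, PkgH.ind_true h']
    · show ind _ ≤ ind _
      have : ind (ε / 2 ≤ ∑ τ ∈ tml A, en k X τ) = 0 := by
        unfold ind
        rw [if_neg h]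
      rw [this]
      exact PkgH.ind_nonneg _
  set p : ℝ := (R' + 1) * (Real.exp (-β * t) * (C * β) ^ (D * Δ.card)) with hp
  have hGp : ∀ η, S.ker (hm N) Δ G η ≤ p := by
    intro η
    refine ((hlin G G' hGm hGb hGm' hGb' η).1 fun ξ => hGG _).trans ?_
    refine hHH β hβ0 (by linarith) Δ A R' 0 t le_rfl ht0.le η fun τ hτ => ?_
    exact absurd (hτ τ.1 (self_cor τ)).1 (hτ τ.1 (self_cor τ)).2
  set c : ℝ := (N : ℝ) ^ 9 * Real.exp (-β * (ε / 2)) + (N : ℝ) ^ 9 * p with hc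
  have hker : ∀ η, 0 ≤ S.ker (hm N) Δ (hat k β A (fe N L k A ε)) η ∧
      S.ker (hm N) Δ (hat k β A (fe N L k A ε)) η ≤ c := by
    intro η
    constructor
    · have h0 := (hlin (fun _ => (0 : ℝ)) (hat k β A (fe N L k A ε)) measurable_const
        ⟨0, fun _ => by simp⟩ hm1 hb1 η).1 fun ξ => hat_nonneg hN k β A ε _
      rwa [hconst 0 η] at h0
    · have hH1 : Measurable fun X : Cf N L => (N : ℝ) ^ 9 * G X := hGm.const_mul _
      have hH2 : ∃ K, ∀ X : Cf N L, |(N : ℝ) ^ 9 * G X| ≤ K := by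
        obtain ⟨K, hK⟩ := hGb
        refine ⟨(N : ℝ) ^ 9 * K, fun X => ?_⟩
        rw [abs_mul, abs_of_nonneg (by positivity : (0 : ℝ) ≤ (N : ℝ) ^ 9)]
        exact mul_le_mul_of_nonneg_left (hK X) (by positivity)
      set e : ℝ := (N : ℝ) ^ 9 * Real.exp (-β * (ε / 2)) with he
      have hadd := (hlin (fun _ => e) (fun X : Cf N L => (N : ℝ) ^ 9 * G X) measurable_const
        ⟨|e|, fun _ => le_rfl⟩ hH1 hH2 η).2.1
      have hsm := (hlin G G hGm hGb hGm hGb η).2.2 ((N : ℝ) ^ 9)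
      have hle := (hlin (hat k β A (fe N L k A ε)) (fun X : Cf N L => e + (N : ℝ) ^ 9 * G X) hm1 hb1
        (hH1.const_add _) (by
          obtain ⟨K, hK⟩ := hH2
          exact ⟨|e| + K, fun X => (abs_add_le _ _).trans (by linarith [hK X])⟩) η).1
        fun ξ => hat_le hN k β hβ0 A hcA ε _
      rw [hadd, hconst, hsm] at hle
      refine hle.trans ?_
      have := mul_le_mul_of_nonneg_left (hGp η) (by positivity : (0 : ℝ) ≤ (N : ℝ) ^ 9)
      linarith
  have hnear := ex_near S (hm N) (tin R) (S.ker (hm N) Δ (hat k β A (fe N L k A ε)))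
    (hmeas _ hm1 hb1) (c / 2) (c / 2) fun ω => by
      have := hker ω
      rw [abs_le]
      constructor <;> linarith [this.1, this.2]
  rw [abs_le] at hnear
  have hcfin := hfin β hβ
  rw [hc, hp] at hnear
  linarith [hnear.2]

/-- **Package PB.** -/
theorem pPB (h4 : S_F4) (h5 : S_F5) (hH : S_H) (hO : S_O) : S_PB := by
  intro N k L _ hN hk ε hε
  exact PkgPB.core h4 h5 hH hO (Nb 1 0) (by rw [card_Nb]; norm_num) (ccv_Nb 1 0) (fun _ h => h)
    choose_R N k L hN hk ε hε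

end T2H02.TT
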