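import Pool.Agent.T2H02.TT.Stm4
import Pool.Agent.T2H02.TT.AR

/-! Package UB: area law for the centre-projected loops. -/

set_option autoImplicit false
set_option linter.unusedSectionVars false

noncomputable section

open MeasureTheory Matrix
open scoped Matrix.Norms.Frobenius

namespace T2H02.TT

namespace PkgUB

open PkgAR

/-- the area law for functions with the centre charges of a loop -/
theorem area (hOA : S_OA) (N k L : ℕ) [NeZero L] (hN : 2 ≤ N) (β : ℝ) (hβ : 0 ≤ β)
    (R : Finset Pl) (x : Pl) (a b : ℕ) (F : Cf N L → ℂ) (hFm : Measurable F)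
    (hF1 : ∀ X, ‖F X‖ ≤ 1)
    (hFc : ∀ (v : Pl) (n : ℕ) (X : Cf N L), F (mvh (v + (0, 1)) n X) =
      om N n ^ chg x a b v * (star (om N n)) ^ chg x a b (v + (0, 1)) * F X)
    (hR : ∀ i j : ℕ, i ≤ a → j ≤ b → x + ((i : ℤ), (j : ℤ)) ∈ R) :
    ‖wexC N L k β R F‖ ≤ (1 - Real.exp (-2 * N * L ^ 2 * β)) ^ (a * b) := by
  set T := tin R with hT
  set δ : ℝ := Real.exp (-2 * N * L ^ 2 * β) with hδ
  have hδ0 : 0 < δ := Real.exp_pos _
  have hδ1 : δ ≤ 1 := by
    rw [hδ, Real.exp_le_one_iff]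
    have : 0 ≤ 2 * (N : ℝ) * L ^ 2 * β := by positivity
    linarith
  -- the charges vanish outside
  have hs : ∀ x', (x', (3 : Fin 4)) ∉ T → chg x a b x' = 0 := by
    intro x' hx'
    unfold chg
    rw [if_neg]
    rintro ⟨⟨h1, h2⟩, h3, h4⟩
    apply hx'
    rw [hT, mem_tin]
    obtain ⟨i, hi⟩ := Int.eq_ofNat_of_zero_le (show 0 ≤ x'.1 - x.1 by omega)
    obtain ⟨j, hj⟩ := Int.eq_ofNat_of_zero_le (show 0 ≤ x'.2 - x.2 by omega)
    have key : ∀ u v : ℕ, u ≤ 1 → v ≤ 1 → x' + ((u : ℤ), (v : ℤ)) ∈ R := by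
      intro u v hu hv
      have := hR (i + u) (j + v) (by omega) (by omega)
      convert this using 1
      ext
      · simp only [Prod.fst_add]
        push_cast
        omega
      · simp only [Prod.snd_add]
        push_cast
        omega
    intro c hc
    rcases (mem_cor3 _ _).1 hc with rfl | rfl | rfl | rfl
    · have := key 0 0 (by omega) (by omega)
      simpa [h00] using this
    · simpa using key 1 0 (by omega) (by omega)
    · simpa using key 0 1 (by omega) (by omega)
    · simpa using key 1 1 (by omega) (by omega)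
  obtain ⟨hnum, hch⟩ := hOA N k L hN β hβ T (chg x a b) F
    hFm ⟨1, hF1⟩ hs
    (fun v n X => hFc v n X)
  obtain ⟨hden, -⟩ := hOA N k L hN β hβ T (fun _ => 0) (fun _ => 1) measurable_const
    ⟨1, fun X => by simp⟩ (fun _ _ => rfl) (fun v n X => by simp)
  -- the real weight
  set w : Cf N L → ℝ := fun X => (∏ τ ∈ T.filter (fun τ => τ.2 ≠ 3), Real.exp (-β * en1 k X τ)) *
    ∏ τ ∈ T.filter (fun τ => τ.2 = 3), wt k β τ X with hw
  have hN0 : 0 < N := by omega
  have hwt0 : ∀ τ X, 0 < wt (N := N) (L := L) k β τ X := fun τ X => wt_pos k β τ X hN0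
  have hen1 : ∀ (τ : Tm), τ.2 ≠ 3 → ∀ X : Cf N L, Real.exp (-β * en1 k X τ) = wt k β τ X := by
    intro τ hτ X
    unfold wt en en1
    obtain ⟨v, i⟩ := τ
    fin_cases i
    · simp
    · simp
    · simp
    · exact absurd rfl hτ
  have hw2 : ∀ X, w X = ∏ τ ∈ T, wt k β τ X := by
    intro X
    rw [hw]
    simp only
    rw [Finset.prod_congr rfl (fun τ hτ => hen1 τ (Finset.mem_filter.1 hτ).2 X), mul_comm,
      Finset.prod_filter_mul_prod_filter_not]
  have hw0 : ∀ X, 0 < w X := fun X => by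
    rw [hw2]
    exact Finset.prod_pos fun τ _ => hwt0 τ X
  have hw1 : ∀ X, w X ≤ 1 := fun X => by
    rw [hw2]
    exact Finset.prod_le_one (fun τ _ => (hwt0 τ X).le) fun τ _ => wt_le k β hβ τ X hN0
  have hwm : Measurable w := by
    have : w = fun X => ∏ τ ∈ T, wt k β τ X := funext hw2
    rw [this]
    exact Finset.measurable_prod _ fun τ _ => (wt_cont k β τ).measurable
  have hwi : Integrable w (pm N L) :=
    Integrable.of_bound hwm.aestronglyMeasurable 1 (Filter.Eventually.of_forall fun X => by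
      rw [Real.norm_eq_abs, abs_of_pos (hw0 X)]
      exact hw1 X)
  have hch0 : ∀ (v : Pl) (X : Cf N L), wch N β 0 v X = ((wt k β (v, 3) X : ℝ) : ℂ) := by
    intro v X
    unfold wch wt
    simp
  -- the denominator
  have hexp : ∀ X : Cf N L, Real.exp (-β * wact k R X) = ∏ τ ∈ T, Real.exp (-β * en1 k X τ) := by
    intro X
    rw [wact_eq, Finset.mul_sum, Real.exp_sum]
  have hD : ((∫ X, Real.exp (-β * wact k R X) ∂(pm N L) : ℝ) : ℂ) = ((∫ X, w X ∂(pm N L) : ℝ) : ℂ) := by
    rw [← integral_complex_ofReal, ← integral_complex_ofReal]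
    have e1 : (∫ X, ((Real.exp (-β * wact k R X) : ℝ) : ℂ) ∂(pm N L)) =
        ∫ X, (1 : ℂ) * ∏ τ ∈ T, (Real.exp (-β * en1 k X τ) : ℂ) ∂(pm N L) := by
      refine integral_congr_ae (Filter.Eventually.of_forall fun X => ?_)
      simp only
      rw [hexp, one_mul]
      push_cast
      rfl
    rw [e1, hden]
    refine integral_congr_ae (Filter.Eventually.of_forall fun X => ?_)
    simp only
    rw [one_mul, hw]
    push_cast
    congr 1
    refine Finset.prod_congr rfl fun τ hτ => ?_
    obtain ⟨v, i⟩ := τ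
    have : i = 3 := (Finset.mem_filter.1 hτ).2
    subst this
    exact hch0 v X
  -- the numerator
  have hcount : a * b ≤ ((T.filter (fun τ => τ.2 = 3)).filter (fun τ => chg x a b τ.1 = 1)).card := by
    have h1 : ((Finset.range a ×ˢ Finset.range b).image
        fun s : ℕ × ℕ => ((x + ((s.1 : ℤ), (s.2 : ℤ)), 3) : Tm)).card = a * b := by
      rw [Finset.card_image_of_injective, Finset.card_product, Finset.card_range,
        Finset.card_range]
      intro s s' h
      simp only [Prod.mk.injEq, and_true, add_right_inj] at h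
      ext
      · exact_mod_cast h.1
      · exact_mod_cast h.2
    rw [← h1]
    refine Finset.card_le_card fun τ hτ => ?_
    rw [Finset.mem_image] at hτ
    obtain ⟨s, hs', rfl⟩ := hτ
    rw [Finset.mem_product, Finset.mem_range, Finset.mem_range] at hs'
    have h2 : chg x a b (x + ((s.1 : ℤ), (s.2 : ℤ))) = 1 := by
      unfold chg
      rw [if_pos]
      simp only [Prod.fst_add, Prod.snd_add]
      omega
    rw [Finset.mem_filter, Finset.mem_filter]
    refine ⟨⟨?_, rfl⟩, h2⟩
    by_contra hc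
    have := hs _ hc
    omega
  have hbound : ∀ X : Cf N L,
      ‖F X * (∏ τ ∈ T.filter (fun τ => τ.2 ≠ 3), (Real.exp (-β * en1 k X τ) : ℂ)) *
        ∏ τ ∈ T.filter (fun τ => τ.2 = 3), wch N β (chg x a b τ.1) τ.1 X‖ ≤
      (1 - δ) ^ (a * b) * w X := by
    intro X
    rw [norm_mul, norm_mul, norm_prod, norm_prod]
    have e1 : ∏ τ ∈ T.filter (fun τ => τ.2 ≠ 3), ‖(Real.exp (-β * en1 k X τ) : ℂ)‖ =
        ∏ τ ∈ T.filter (fun τ => τ.2 ≠ 3), Real.exp (-β * en1 k X τ) :=
      Finset.prod_congr rfl fun τ _ => by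
        rw [Complex.norm_real, Real.norm_eq_abs, abs_of_pos (Real.exp_pos _)]
    rw [e1]
    have e2 : ∏ τ ∈ T.filter (fun τ => τ.2 = 3), ‖wch N β (chg x a b τ.1) τ.1 X‖ ≤
        (1 - δ) ^ (a * b) * ∏ τ ∈ T.filter (fun τ => τ.2 = 3), wt k β τ X := by
      calc ∏ τ ∈ T.filter (fun τ => τ.2 = 3), ‖wch N β (chg x a b τ.1) τ.1 X‖ ≤
          ∏ τ ∈ T.filter (fun τ => τ.2 = 3),
            ((if chg x a b τ.1 = 1 then (1 - δ) else 1) * wt k β τ X) := by
            refine Finset.prod_le_prod (fun _ _ => norm_nonneg _) fun τ hτ => ?_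
            obtain ⟨v, i⟩ := τ
            have : i = 3 := (Finset.mem_filter.1 hτ).2
            subst this
            simp only
            by_cases hc : chg x a b v = 1
            · rw [if_pos hc, hc]
              exact hch v X
            · have hc0 : chg x a b v = 0 := by
                unfold chg at hc ⊢
                by_cases hcc : (x.1 ≤ v.1 ∧ v.1 < x.1 + a) ∧ (x.2 ≤ v.2 ∧ v.2 < x.2 + b)
                · rw [if_pos hcc] at hc
                  exact absurd rfl hc
                · rw [if_neg hcc]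
              rw [if_neg hc, hc0, hch0, one_mul, Complex.norm_real, Real.norm_eq_abs,
                abs_of_pos (hwt0 _ X)]
        _ = (1 - δ) ^ ((T.filter (fun τ => τ.2 = 3)).filter
              (fun τ => chg x a b τ.1 = 1)).card *
            ∏ τ ∈ T.filter (fun τ => τ.2 = 3), wt k β τ X := by
            rw [Finset.prod_mul_distrib, Finset.prod_ite, Finset.prod_const, Finset.prod_const_one,
              mul_one]
        _ ≤ _ := by
            refine mul_le_mul_of_nonneg_right ?_ (Finset.prod_nonneg fun τ _ => (hwt0 τ X).le)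
            exact pow_le_pow_of_le_one (by linarith) (by linarith) hcount
    have h0 : 0 ≤ ∏ τ ∈ T.filter (fun τ => τ.2 ≠ 3), Real.exp (-β * en1 k X τ) :=
      Finset.prod_nonneg fun _ _ => (Real.exp_pos _).le
    calc ‖F X‖ * (∏ τ ∈ T.filter (fun τ => τ.2 ≠ 3), Real.exp (-β * en1 k X τ)) *
          ∏ τ ∈ T.filter (fun τ => τ.2 = 3), ‖wch N β (chg x a b τ.1) τ.1 X‖ ≤
        1 * (∏ τ ∈ T.filter (fun τ => τ.2 ≠ 3), Real.exp (-β * en1 k X τ)) *
          ((1 - δ) ^ (a * b) * ∏ τ ∈ T.filter (fun τ => τ.2 = 3), wt k β τ X) := by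
          refine mul_le_mul (mul_le_mul_of_nonneg_right (hF1 X) h0) e2
            (Finset.prod_nonneg fun _ _ => norm_nonneg _) (by positivity)
      _ = _ := by
          rw [hw]
          ring
  have hnum2 : ‖∫ X, F X * ((Real.exp (-β * wact k R X) : ℝ) : ℂ) ∂(pm N L)‖ ≤
      (1 - δ) ^ (a * b) * ∫ X, w X ∂(pm N L) := by
    have e1 : (∫ X, F X * ((Real.exp (-β * wact k R X) : ℝ) : ℂ) ∂(pm N L)) =
        ∫ X, F X * ∏ τ ∈ T, (Real.exp (-β * en1 k X τ) : ℂ) ∂(pm N L) := by
      refine integral_congr_ae (Filter.Eventually.of_forall fun X => ?_)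
      simp only
      rw [hexp]
      push_cast
      rfl
    rw [e1, hnum, ← integral_const_mul]
    refine (norm_integral_le_integral_norm _).trans ?_
    refine integral_mono_of_nonneg (Filter.Eventually.of_forall fun X => norm_nonneg _)
      (hwi.const_mul _) (Filter.Eventually.of_forall hbound)
  unfold wexC
  change ‖(∫ X, F X * ((Real.exp (-β * wact k R X) : ℝ) : ℂ) ∂(pm N L)) /
    ((∫ X, Real.exp (-β * wact k R X) ∂(pm N L) : ℝ) : ℂ)‖ ≤ _
  rw [hD, norm_div, Complex.norm_real, Real.norm_eq_abs,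
    abs_of_nonneg (integral_nonneg fun X => (hw0 X).le)]
  have h0 : 0 ≤ ∫ X, w X ∂(pm N L) := integral_nonneg fun X => (hw0 X).le
  have hp : 0 ≤ (1 - δ) ^ (a * b) := pow_nonneg (by linarith) _
  exact div_le_of_le_mul₀ h0 hp hnum2

end PkgUB

open PkgAR PkgUB in
/-- package UB -/
theorem pUB (hOA : S_OA) (hZL : S_ZL) : S_UB := by
  intro N k L _ hN β hβ G hG R x a b hR
  obtain ⟨hz1, hzm, -, -, hch, -, -, -⟩ := hZL N L hN G hG
  have hzm' : ∀ (x : Pl) (m : Fin 4), Measurable fun X : Cf N L => zlk G X x m := hzm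
  refine area hOA N k L hN β hβ R x a b (fun X => plo G X x a b) ?_ ?_ ?_ ?_
  · unfold plo
    refine ((Measurable.mul ?_ ?_).mul ?_).mul ?_
    · exact Finset.measurable_fun_prod _ fun j _ => hzm' _ _
    · exact Finset.measurable_fun_prod _ fun j _ => hzm' _ _
    · exact Complex.continuous_conj.measurable.comp
        (Finset.measurable_fun_prod _ fun j _ => hzm' _ _)
    · exact Complex.continuous_conj.measurable.comp
        (Finset.measurable_fun_prod _ fun j _ => hzm' _ _)
  · intro X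
    have hp : ∀ (s : Finset ℕ) (f : ℕ → ℂ), (∀ i, ‖f i‖ ≤ 1) → ‖∏ i ∈ s, f i‖ ≤ 1 := by
      intro s f hf
      rw [norm_prod]
      exact Finset.prod_le_one (fun _ _ => norm_nonneg _) fun i _ => hf i
    have hm : ∀ u v : ℂ, ‖u‖ ≤ 1 → ‖v‖ ≤ 1 → ‖u * v‖ ≤ 1 := by
      intro u v hu hv
      rw [norm_mul]
      exact mul_le_one₀ hu (norm_nonneg _) hv
    unfold plo
    refine hm _ _ (hm _ _ (hm _ _ (hp _ _ fun i => hz1 _ _ _) (hp _ _ fun i => hz1 _ _ _)) ?_) ?_
    · rw [norm_star]
      exact hp _ _ fun i => hz1 _ _ _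
    · rw [norm_star]
      exact hp _ _ fun i => hz1 _ _ _
  · intro v n X
    have h := hch x a b v n X
    have e1 : chg x a b v = if x.1 ≤ v.1 ∧ v.1 < x.1 + a ∧ x.2 ≤ v.2 ∧ v.2 < x.2 + b then 1
        else 0 := by
      unfold chg
      simp only [and_assoc]
    have e2 : chg x a b (v + (0, 1)) =
        if x.1 ≤ v.1 ∧ v.1 < x.1 + a ∧ x.2 ≤ v.2 + 1 ∧ v.2 + 1 < x.2 + b then 1 else 0 := by
      unfold chg
      simp only [and_assoc, Prod.fst_add, Prod.snd_add, add_zero]
    rw [e1, e2]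
    exact h
  · intro i j hi hj
    refine hR ?_
    unfold rct
    rw [Finset.mem_product, Finset.mem_Icc, Finset.mem_Icc]
    simp only [Prod.fst_add, Prod.snd_add]
    omega

end T2H02.TT
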