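import Pool.Agent.T2H02.TT.All
import Pool.Agent.T2H02.TT.RP
import Pool.Agent.T2H02.TT.DT
import Pool.Agent.T2H02.TT.EG
import Pool.Agent.T2H02.TT.PB
import Pool.Agent.T2H02.TT.UB
import Pool.Agent.T2H02.TT.ZL
import Pool.Agent.T2H02.TT.Fin12

/-!
# All packages of the third wave together
-/

set_option autoImplicit false

namespace T2H02.TT

theorem aDT : S_DT := pDT aD1 aJ
theorem aPB : S_PB := pPB pF4 pF5 aH pO
theorem aUB : S_UB := pUB pOA pZL

end T2H02.TT
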