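import Pool.Agent.T2H02.TT.Fin12
import Pool.Agent.T2H02.TT.StmU

/-!
# Assembly: the statement uniform in `L`
-/

set_option autoImplicit false
set_option linter.unusedSectionVars false

noncomputable section

open MeasureTheory Matrix Filter Topology
open scoped Matrix.Norms.Frobenius

namespace T2H02.TT

/-- everything with the rate `c / L`, for `β ≥ C₀ L ^ K₀` -/
theorem uni (hP : S_P1u) (hO : S_O) (hS : S_SY) (hR : S_RP) (N k : ℕ) (hN : 2 ≤ N)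
    (hk : Nat.Coprime k N) :
    ∃ (c C₀ : ℝ) (K₀ : ℕ), 0 < c ∧ 0 < C₀ ∧ ∀ (L : ℕ) [NeZero L] (β : ℝ), C₀ * (L : ℝ) ^ K₀ ≤ β →
      (∀ r : ℕ, ∃ C : ℝ, ∀ (a : Pl) (f : Cf N L → ℝ), Loc (Nb r a) f →
        (∀ (n : ℕ) (R : Finset Pl), Nb n a ⊆ R →
          |wex N L k β R f - Phi N L k β f| ≤ C * Real.exp (-(c / L) * n)) ∧
        (∀ v : Pl, Phi N L k β (fun X => f (shf v X)) = Phi N L k β f) ∧
        ∀ (b : Pl) (g : Cf N L → ℝ), Loc (Nb r b) g →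
          |Phi N L k β (fun X => f X * g X) - Phi N L k β f * Phi N L k β g| ≤
            C * Real.exp (-(c / L) * dpl a b)) ∧
      ∀ A : Finset Pl, (∀ a ∈ A, 0 ≤ a.1) → ∀ f : Cf N L → ℝ, Loc A f → ∀ n : ℕ,
        |Phi N L k β (fun X => f (rf X) * f (shf ((n : ℤ), 0) X)) - Phi N L k β f ^ 2| ≤
          Real.exp (-(c / L) * n) *
            (Phi N L k β (fun X => f (rf X) * f X) - Phi N L k β f ^ 2) := by
  obtain ⟨c, C₀, K₀, hc, hC, h⟩ := hP N k hN hk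
  refine ⟨c, C₀, K₀, hc, by linarith, fun L _ β hβ => ?_⟩
  have hL : (1 : ℝ) ≤ (L : ℝ) := by exact_mod_cast Nat.one_le_iff_ne_zero.2 (NeZero.ne L)
  have hLK : (1 : ℝ) ≤ (L : ℝ) ^ K₀ := one_le_pow₀ hL
  have h2 : 2 ≤ β := by nlinarith
  have h1 : 1 ≤ β := by linarith
  have h0 : 0 ≤ β := by linarith
  have hm0 : 0 < c / (L : ℝ) := by positivity
  obtain ⟨κ, hκ, hD⟩ := h L β h0 hβ
  refine ⟨fun r => ⟨cst N r (c / L) * β ^ κ, fun a f hf => ?_⟩, fun A hA f hf n => ?_⟩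
  · exact ⟨fun n R hR => lim_rate hN h0 hm0 hκ h1 hO hD r a f hf n R hR,
      fun v => phi_shf hN h0 hm0 hO hS hD r a v f hf,
      fun b g hg => clu_rate hN h0 hm0 hκ h1 hO hS hD r a b f g hf hg⟩
  · exact gap hN h0 hm0 hκ h1 hO hS hR hD A hA f hf n

end T2H02.TT
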