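import Pool.Agent.T2H02.TT.StmU
import Pool.Agent.T2H02.TT.J

/-!
# Package Ju : plane links near the centre, constants polynomial in `L`
-/

set_option autoImplicit false

noncomputable section

open MeasureTheory Matrix
open scoped Matrix.Norms.Frobenius

namespace T2H02.TT

open PkgD PkgJ

theorem pJu (hD2 : S_D2u) : S_Ju := by
  intro N k hN hk P Q hPQ
  obtain ⟨C, K, hC, h⟩ := hD2 N k hN hk P Q hPQ
  refine ⟨9 * C, K, by linarith, fun L _ φ ψ U e h1 h2 h3 => ?_⟩
  obtain ⟨m, hm⟩ := h L U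
  refine ⟨m, hm.trans ?_⟩
  rw [← dst_act_eq] at h3
  have h4 := dst_tri3 (act U (vac P Q)) (act U ψ) φ (vac P Q)
  rw [dst_act, dst_symm (vac P Q) ψ] at h4
  have h5 : dst (act U (vac P Q)) (vac P Q) ≤ 9 * e := by linarith
  have hLK : 0 ≤ C * (L : ℝ) ^ K := by positivity
  calc _ ≤ C * (L : ℝ) ^ K * (9 * e) := mul_le_mul_of_nonneg_left h5 hLK
    _ = _ := by ring

end T2H02.TT
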