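import Pool.Agent.T2H02.TT.All
import Pool.Agent.T2H02.TT.RP
import Pool.Agent.T2H02.TT.C1u
import Pool.Agent.T2H02.TT.D1u
import Pool.Agent.T2H02.TT.E3u
import Pool.Agent.T2H02.TT.Ju
import Pool.Agent.T2H02.TT.Ku
import Pool.Agent.T2H02.TT.G1u
import Pool.Agent.T2H02.TT.G3u
import Pool.Agent.T2H02.TT.Gu
import Pool.Agent.T2H02.TT.Hu
import Pool.Agent.T2H02.TT.I1u
import Pool.Agent.T2H02.TT.Iu
import Pool.Agent.T2H02.TT.LLu
import Pool.Agent.T2H02.TT.M0u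
import Pool.Agent.T2H02.TT.M1u
import Pool.Agent.T2H02.TT.Mu
import Pool.Agent.T2H02.TT.Xu
import Pool.Agent.T2H02.TT.Z1u
import Pool.Agent.T2H02.TT.Zu
import Pool.Agent.T2H02.TT.P1u
import Pool.Agent.T2H02.TT.Fin13

/-!
# All packages of the fourth wave (uniform in `L`) together
-/

set_option autoImplicit false

namespace T2H02.TT

theorem aC1u : S_C1u := pC1u aB3
theorem aC2u : S_C2u := pC2u aB3
theorem aD1u : S_D1u := pD1u aD1
theorem aD2u : S_D2u := pD2u aD2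
theorem aJu : S_Ju := pJu aD2u
theorem aKu : S_Ku := pKu pE1 pE3u pE4
theorem aG1u : S_G1u := pG1u pA1 pB0 aD1u aJu aJI
theorem aGu : S_Gu := pGu pF5 aG1u pG2 pG3u
theorem aHu : S_Hu := pHu pF3 pF5 aGu pG3u
theorem aI1u : S_I1u := pI1u aC1u aC2u
theorem aIu : S_Iu := pIu aI1u
theorem aM0u : S_M0u := pM0u pE4 aIu aKu (pL1u pB0) pL3u
theorem aM1u : S_M1u := pM1u pB0 aD1u pE4 aGu pG3u aJu aJI aJM pL2u aM0u
theorem aMu : S_Mu := pMu pA1 aD1u aJu aJI aJM aM1u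
theorem aXu : S_Xu := pXu pF2 pF3 pF5
theorem aZ1u : S_Z1u := pZ1u pF3 pF5 aHu aMu
theorem aZu : S_Zu := pZu aZ1u
theorem aP1u : S_P1u := pP1u pF3 pF5 aXu aZu

end T2H02.TT
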