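import Pool.Agent.T2H02.TT.Stm5

/-!
# Package CB : centre symmetry of the torus directions
-/

set_option autoImplicit false
set_option linter.unusedSectionVars false

noncomputable section

open MeasureTheory Matrix
open scoped Matrix.Norms.Frobenius

namespace T2H02.TT

namespace PkgCB

variable {N L : ℕ} [NeZero L]

lemma cen_coe (m : ℕ) : ((cen N m : SU N) : Mt N) = om N m • (1 : Mt N) := rfl

lemma cen_mul_coe (m : ℕ) (g : SU N) : ((cen N m * g : SU N) : Mt N) = om N m • (g : Mt N) := by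
  rw [Submonoid.coe_mul, cen_coe, smul_mul_assoc, one_mul]

lemma cen_comm (m : ℕ) (g : SU N) : cen N m * g = g * cen N m := by
  apply Subtype.ext
  rw [cen_mul_coe, Submonoid.coe_mul, cen_coe, mul_smul_comm, mul_one]

lemma alg {G : Type*} [Group G] (a b p q r s : G) (ca : ∀ g, a * g = g * a)
    (cb : ∀ g, b * g = g * b) :
    a * p * (b * q) * (a * r)⁻¹ * (b * s)⁻¹ = p * q * r⁻¹ * s⁻¹ := by
  have e1 : a * p * (b * q) = (p * q) * (a * b) := by
    rw [ca p, cb q, mul_assoc p a, ← mul_assoc a q b, ca q]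
    simp only [mul_assoc]
  have e2 : b * s * (a * r) = (s * r) * (a * b) := by
    rw [cb s, ca r, mul_assoc s b, ← mul_assoc b r a, cb r, ca b]
    simp only [mul_assoc]
  have e3 : (a * r)⁻¹ * (b * s)⁻¹ = (b * s * (a * r))⁻¹ := by
    rw [_root_.mul_inv_rev (b * s)]
  rw [mul_assoc _ (a * r)⁻¹, e3, e1, e2, _root_.mul_inv_rev, ← mul_assoc, mul_assoc (p * q),
    mul_inv_cancel, mul_one, _root_.mul_inv_rev, ← mul_assoc]

/-- the factor of a link -/
def cc (N : ℕ) {L : ℕ} (j : Fin 2) (l : Lk L) : SU N :=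
  if (j = 0 ∧ l.2 = 2 ∧ l.1.2.1 = -1) ∨ (j = 1 ∧ l.2 = 3 ∧ l.1.2.2 = -1) then cen N 1 else 1

lemma cc_comm (j : Fin 2) (l : Lk L) (g : SU N) : cc N j l * g = g * cc N j l := by
  unfold cc
  split_ifs
  · exact cen_comm 1 g
  · simp

lemma cbt_eq (j : Fin 2) : (cbt j : Cf N L → Cf N L) =
    fun (X : Cf N L) (l : Lk L) => cc N j l * X l := by
  funext X l
  unfold cbt cc
  split_ifs <;> simp

/-- the factor does not change in the other directions -/
lemma cc_nx (j : Fin 2) (x : Pl) (y : Tor L) (i i' : Fin 4) (h : i ≠ i') :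
    cc N j (nx (x, y) i', i) = cc N j ((x, y), i) := by
  unfold cc nx tsh
  fin_cases i <;> fin_cases i' <;> fin_cases j <;> simp at h ⊢

lemma plq_cbt (j : Fin 2) (X : Cf N L) (x : Pl) (y : Tor L) (i i' : Fin 4) (h : i ≠ i') :
    plq (cbt j X) (x, y) i i' = plq X (x, y) i i' := by
  rw [cbt_eq]
  unfold plq
  simp only
  rw [cc_nx j x y i i' h, cc_nx j x y i' i h.symm]
  obtain ⟨a, ha⟩ : ∃ a, cc N j ((x, y), i) = a := ⟨_, rfl⟩
  obtain ⟨b, hb⟩ : ∃ b, cc N j ((x, y), i') = b := ⟨_, rfl⟩
  have ca : ∀ g : SU N, a * g = g * a := fun g => by rw [← ha]; exact cc_comm j _ g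
  have cb : ∀ g : SU N, b * g = g * b := fun g => by rw [← hb]; exact cc_comm j _ g
  rw [ha, hb]
  exact alg a b _ _ _ _ ca cb

lemma wact_cbt (k : ℕ) (R : Finset Pl) (j : Fin 2) (X : Cf N L) :
    wact k R (cbt j X) = wact k R X := by
  unfold wact
  refine Finset.sum_congr rfl fun x _ => Finset.sum_congr rfl fun y _ =>
    Finset.sum_congr rfl fun i _ => Finset.sum_congr rfl fun i' _ => ?_
  by_cases h : i < i'
  · rw [plq_cbt j X x y i i' h.ne]
  · simp only [h, false_and, if_false]

lemma wact_cont (k : ℕ) (R : Finset Pl) : Continuous fun X : Cf N L => wact k R X := by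
  unfold wact
  refine continuous_finsetSum _ fun x _ => continuous_finsetSum _ fun y _ =>
    continuous_finsetSum _ fun i _ => continuous_finsetSum _ fun i' _ => ?_
  by_cases h : i < i' ∧ x + pe i ∈ R ∧ x + pe i' ∈ R ∧ x + pe i + pe i' ∈ R
  · simp only [h]
    have h1 : Continuous fun X : Cf N L => plq X (x, y) i i' := by
      unfold plq
      have c1 : ∀ l : Lk L, Continuous fun X : Cf N L => X l := fun l => continuous_apply l
      have c2 : ∀ l : Lk L, Continuous fun X : Cf N L => (X l)⁻¹ := fun l =>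
        (su_contInv N).continuous_inv.comp (c1 l)
      exact (((c1 _).mul (c1 _)).mul (c2 _)).mul (c2 _)
    have h2 : Continuous fun X : Cf N L => (plq X (x, y) i i' : Mt N).trace :=
      (continuous_subtype_val.comp h1).matrix_trace
    exact continuous_const.sub (Complex.continuous_re.comp (continuous_const.mul h2))
  · simp only [h, if_false]
    exact continuous_const

lemma mp_mul (c : Lk L → SU N) :
    MeasurePreserving (fun (X : Cf N L) (l : Lk L) => c l * X l) (pm N L) (pm N L) := by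
  have hm1 : ∀ l : Lk L, Measurable (fun g : SU N => c l * g) := fun l => measurable_const_mul _
  refine ⟨measurable_pi_lambda _ fun l => (hm1 l).comp (measurable_pi_apply l), ?_⟩
  have h := Measure.infinitePi_map_pi (μ := fun _ : Lk L => hm N)
    (f := fun (l : Lk L) (g : SU N) => c l * g) hm1
  rw [h]
  have h2 : (fun l : Lk L => (hm N).map (fun g : SU N => c l * g)) = fun _ => hm N := by
    funext l
    exact map_mul_left_eq_self (hm N) (c l)
  rw [h2]

lemma int_cbt (j : Fin 2) (F : Cf N L → ℝ) (hF : Measurable F) :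
    ∫ X, F (cbt j X) ∂(pm N L) = ∫ X, F X ∂(pm N L) := by
  have h : MeasurePreserving (cbt j : Cf N L → Cf N L) (pm N L) (pm N L) := by
    rw [cbt_eq]; exact mp_mul _
  have h2 : ∫ X, F X ∂((pm N L).map (cbt j)) = ∫ X, F (cbt j X) ∂(pm N L) :=
    integral_map h.measurable.aemeasurable hF.aestronglyMeasurable
  rw [← h2, h.map_eq]

/-- number of passages -/
def cnt {L : ℕ} (n : ℕ) (t : ZMod L) : ℕ :=
  ∑ i ∈ Finset.range n, if t + (i : ZMod L) = -1 then 1 else 0

lemma cnt_succ {L : ℕ} (n : ℕ) (t : ZMod L) :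
    cnt (n + 1) t = (if t = -1 then 1 else 0) + cnt n (t + 1) := by
  unfold cnt
  rw [Finset.sum_range_succ', add_comm]
  congr 1
  · simp
  · refine Finset.sum_congr rfl fun i _ => ?_
    rw [show t + ((i + 1 : ℕ) : ZMod L) = t + 1 + (i : ZMod L) by push_cast; ring]

lemma cnt_L (t : ZMod L) : cnt L t = 1 := by
  unfold cnt
  rw [Finset.sum_eq_single (-1 - t : ZMod L).val]
  · rw [if_pos]
    rw [ZMod.natCast_zmod_val]; ring
  · intro i hi hne
    rw [if_neg]
    intro h
    apply hne
    have h1 : (i : ZMod L) = -1 - t := by rw [← h]; ring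
    rw [← h1, ZMod.val_natCast_of_lt (Finset.mem_range.1 hi)]
  · intro h
    exact absurd (Finset.mem_range.2 (ZMod.val_lt _)) h

/-- the coordinate in the direction `j` -/
def cr {L : ℕ} (j : Fin 2) (y : Tor L) : ZMod L := if j = 0 then y.1 else y.2

lemma cr_tsh (j : Fin 2) (y : Tor L) : cr j (tsh y j) = cr j y + 1 := by
  unfold cr tsh
  fin_cases j <;> simp

lemma pt_cbt (j : Fin 2) (X : Cf N L) (x : Pl) (y : Tor L) :
    pt (cbt j X) x y j = (if cr j y = -1 then cen N 1 else 1) * pt X x y j := by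
  unfold pt cbt cr
  fin_cases j
  · by_cases h : y.1 = -1 <;> simp [h]
  · by_cases h : y.2 = -1 <;> simp [h]

lemma cen_pow_coe (m : ℕ) (g : SU N) :
    ((cen N 1 ^ m * g : SU N) : Mt N) = om N 1 ^ m • (g : Mt N) := by
  induction m with
  | zero => simp
  | succ m ih => rw [pow_succ', mul_assoc, cen_mul_coe, ih, smul_smul, pow_succ']

lemma hol_cbt (j : Fin 2) (X : Cf N L) (x : Pl) (n : ℕ) : ∀ y : Tor L,
    hol (pt (cbt j X) x) j n y = cen N 1 ^ cnt n (cr j y) * hol (pt X x) j n y := by
  induction n with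
  | zero => intro y; simp [hol, cnt]
  | succ n ih =>
    intro y
    have h1 : ∀ φ : Ph N L, hol φ j (n + 1) y = φ y j * hol φ j n (tsh y j) := fun _ => rfl
    rw [h1, h1, ih, pt_cbt, cr_tsh, cnt_succ, pow_add]
    have hc : ∀ (m : ℕ) (g : SU N), g * cen N 1 ^ m = cen N 1 ^ m * g := by
      intro m g
      have : Commute (cen N 1) g := cen_comm 1 g
      exact (this.pow_left m).eq.symm
    obtain ⟨c, hcd⟩ : ∃ c, cnt n (cr j y + 1) = c := ⟨_, rfl⟩
    rw [hcd]
    by_cases h : cr j y = -1
    · rw [if_pos h, if_pos h, pow_one]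
      simp only [mul_assoc]
      rw [← mul_assoc (pt X x y j), hc]
      simp only [mul_assoc]
    · rw [if_neg h, if_neg h, pow_zero, one_mul, one_mul, ← mul_assoc, hc]
      simp only [mul_assoc]

lemma ply_cbt (X : Cf N L) (x : Pl) (y : Tor L) (j : Fin 2) :
    ply (cbt j X) x y j = om N 1 * ply X x y j := by
  unfold ply
  rw [hol_cbt, cnt_L, cen_pow_coe, pow_one, Matrix.trace_smul, smul_eq_mul, mul_div_assoc]

lemma ply_le (X : Cf N L) (x : Pl) (y : Tor L) (j : Fin 2) : ‖ply X x y j‖ ≤ 1 := by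
  unfold ply
  rw [norm_div]
  obtain ⟨g, hg⟩ : ∃ g : SU N, hol (pt X x) j L y = g := ⟨_, rfl⟩
  rw [hg]
  have h1 : ‖(g : Mt N).trace‖ ≤ N := by
    have hU : (g : Mt N) ∈ Matrix.unitaryGroup (Fin N) ℂ :=
      (Matrix.mem_specialUnitaryGroup_iff.1 g.2).1
    unfold Matrix.trace
    refine (norm_sum_le _ _).trans ?_
    calc ∑ i : Fin N, ‖Matrix.diag (g : Mt N) i‖ ≤ ∑ _i : Fin N, (1 : ℝ) :=
          Finset.sum_le_sum fun i _ => entry_norm_bound_of_unitary hU i i
      _ = N := by simp
  rw [Complex.norm_natCast]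
  exact div_le_one_of_le₀ h1 (Nat.cast_nonneg _)

lemma hol_cont (x : Pl) (j : Fin 2) (n : ℕ) : ∀ y : Tor L,
    Continuous fun X : Cf N L => hol (pt X x) j n y := by
  induction n with
  | zero => intro y; exact continuous_const
  | succ n ih =>
    intro y
    have h1 : Continuous fun X : Cf N L => pt X x y j := continuous_apply _
    exact h1.mul (ih (tsh y j))

lemma ply_cont (x : Pl) (y : Tor L) (j : Fin 2) : Continuous fun X : Cf N L => ply X x y j := by
  unfold ply
  exact ((continuous_subtype_val.comp (hol_cont x j L y)).matrix_trace).div_const _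

lemma pt_loc (X Y : Cf N L) (x : Pl) (h : ∀ l : Lk L, st l = {x} → X l = Y l) :
    pt X x = pt Y x := by
  funext y j
  unfold pt
  apply h
  unfold st pe
  fin_cases j <;> simp

end PkgCB

open PkgCB in
/-- **CB.** -/
theorem pCB : S_CB := by
  intro N k L _ hN j
  refine ⟨?_, fun X x y => ply_cbt X x y j, fun X x y => ply_le X x y j,
    fun x y => ply_cont x y j, ?_⟩
  · intro β R F hF _
    unfold wex
    have hmea : Measurable fun X : Cf N L => Real.exp (-β * wact k R X) :=
      (continuous_const.mul (wact_cont k R)).rexp.measurable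
    have h1 := int_cbt j (fun X : Cf N L => F X * Real.exp (-β * wact k R X)) (hF.mul hmea)
    simp only [wact_cbt] at h1
    rw [h1]
  · intro X Y x y h
    unfold ply
    rw [pt_loc X Y x h]

end T2H02.TT
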