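import Pool.Agent.T2H02.TT.StmW
import Pool.Agent.T2H02.TT.C1u

/-!
# Package Cs : sharp linear estimates on the torus
-/

set_option autoImplicit false

noncomputable section

open Finset

namespace T2H02.TT.PkgCs

section abs

variable {V : Type*} [AddCommGroup V] [Module ℝ V] (B : V →ₗ[ℝ] V →ₗ[ℝ] ℝ) (S : V →ₗ[ℝ] V)
  (n : ℕ) [NeZero n]

/-- the orbit -/
def orb (v : V) (i : ZMod n) : V := (S ^ i.val) v

lemma orb_succ (hS : S ^ n = 1) (v : V) (i : ZMod n) : orb S n v (i + 1) = S (orb S n v i) := by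
  unfold orb
  have h1 : (S ^ (i.val + 1)) v = S ((S ^ i.val) v) := by
    rw [pow_succ']; rfl
  rw [← h1]
  have h2 : (i + 1).val = (i.val + 1) % n := by
    rw [ZMod.val_add]
    by_cases hn : n = 1
    · subst hn
      simp [Nat.mod_one]
    · have : Fact (1 < n) := ⟨by have := NeZero.ne n; omega⟩
      rw [ZMod.val_one]
  rw [h2]
  congr 1
  conv_rhs => rw [← Nat.mod_add_div (i.val + 1) n, pow_add, pow_mul, hS, one_pow, mul_one]

lemma orb_zero (v : V) : orb S n v 0 = v := by
  simp [orb]

/-- correlation -/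
def cor' (v : V) (j : ZMod n) : ℝ := B v (orb S n v j)

variable {B S n}

lemma B_orb (hS : S ^ n = 1) (hB : ∀ u v, B (S u) (S v) = B u v) (v : V) (i j : ZMod n) :
    B (orb S n v i) (orb S n v j) = cor' B S n v (j - i) := by
  have key : ∀ m : ℕ, ∀ j : ZMod n, B (orb S n v (m : ZMod n)) (orb S n v j) = cor' B S n v (j - m) := by
    intro m
    induction m with
    | zero =>
      intro j
      simp [cor', orb_zero]
    | succ m ih =>
      intro j
      have h1 : orb S n v j = S (orb S n v (j - 1)) := by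
        rw [← orb_succ S n hS]
        congr 1
        ring
      rw [Nat.cast_succ, orb_succ S n hS, h1, hB, ih]
      congr 1
      ring
  have := key i.val j
  rwa [ZMod.natCast_zmod_val] at this

open ZMod in
/-- Fourier coefficient of the correlation -/
def fc (c : ZMod n → ℝ) (k : ZMod n) : ℝ := ∑ j, c j * (stdAddChar (j * k) : ℂ).re

open ZMod in
lemma char_sub (a b : ZMod n) : (stdAddChar (a - b) : ℂ).re =
    (stdAddChar a : ℂ).re * (stdAddChar b : ℂ).re + (stdAddChar a : ℂ).im * (stdAddChar b : ℂ).im := by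
  rw [AddChar.map_sub_eq_div]
  have h1 : ‖(stdAddChar b : ℂ)‖ = 1 := by
    rw [stdAddChar_apply]
    exact Circle.norm_coe _
  have h2 : (stdAddChar b : ℂ)⁻¹ = (starRingEnd ℂ) (stdAddChar b) := by
    rw [Complex.inv_def, Complex.normSq_eq_norm_sq, h1]
    simp
  rw [div_eq_mul_inv, h2]
  simp [Complex.mul_re]

open ZMod in
lemma fc_nonneg (hS : S ^ n = 1) (hB : ∀ u v, B (S u) (S v) = B u v) (hpos : ∀ v, 0 ≤ B v v)
    (v : V) (k : ZMod n) : 0 ≤ fc (cor' B S n v) k := by
  have h1 : (n : ℝ) * fc (cor' B S n v) k =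
      B (∑ a, (stdAddChar (a * k) : ℂ).re • orb S n v a) (∑ a, (stdAddChar (a * k) : ℂ).re • orb S n v a) +
      B (∑ a, (stdAddChar (a * k) : ℂ).im • orb S n v a) (∑ a, (stdAddChar (a * k) : ℂ).im • orb S n v a) := by
    have h2 : ∀ f : ZMod n → ℝ, B (∑ a, f a • orb S n v a) (∑ a, f a • orb S n v a) =
        ∑ a, ∑ b, f a * f b * cor' B S n v (b - a) := by
      intro f
      have h0 : B (∑ a, f a • orb S n v a) = ∑ a, B (f a • orb S n v a) := map_sum B _ _
      rw [h0, LinearMap.sum_apply]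
      apply Finset.sum_congr rfl
      intro a _
      rw [map_sum]
      apply Finset.sum_congr rfl
      intro b _
      rw [_root_.map_smul, _root_.map_smul, LinearMap.smul_apply, smul_eq_mul, smul_eq_mul, B_orb hS hB]
      ring
    rw [h2, h2, ← Finset.sum_add_distrib]
    have h3 : ∀ a : ZMod n, (∑ b, (stdAddChar (a * k) : ℂ).re * (stdAddChar (b * k) : ℂ).re * cor' B S n v (b - a)) +
        (∑ b, (stdAddChar (a * k) : ℂ).im * (stdAddChar (b * k) : ℂ).im * cor' B S n v (b - a)) =
        fc (cor' B S n v) k := by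
      intro a
      rw [← Finset.sum_add_distrib, fc, ← Equiv.sum_comp (Equiv.subRight a)
        (fun j => cor' B S n v j * (stdAddChar (j * k) : ℂ).re)]
      apply Finset.sum_congr rfl
      intro b _
      simp only [Equiv.subRight_apply]
      rw [sub_mul, char_sub]
      ring
    simp only [h3]
    rw [Finset.sum_const, Finset.card_univ, ZMod.card, nsmul_eq_mul]
  have hn : (0 : ℝ) < n := by
    have := NeZero.ne n
    positivity
  have h2 : 0 ≤ (n : ℝ) * fc (cor' B S n v) k := by
    rw [h1]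
    exact add_nonneg (hpos _) (hpos _)
  by_contra hneg
  push Not at hneg
  have : (n : ℝ) * fc (cor' B S n v) k < 0 := mul_neg_of_pos_of_neg hn hneg
  linarith

open ZMod in
lemma sum_char (a : ZMod n) : ∑ k : ZMod n, (stdAddChar (a * k) : ℂ).re = if a = 0 then (n : ℝ) else 0 := by
  have h := AddChar.sum_mulShift a (isPrimitive_stdAddChar n)
  have h2 := congrArg Complex.re h
  rw [Complex.re_sum] at h2
  simp only [mul_comm _ a] at h2
  rw [h2]
  split_ifs
  · simp [ZMod.card]
  · simp

open ZMod in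
lemma sum_fc (c : ZMod n → ℝ) : ∑ k, fc c k = n * c 0 := by
  unfold fc
  rw [Finset.sum_comm]
  simp only [← Finset.mul_sum, sum_char]
  rw [Finset.sum_eq_single 0]
  · simp [mul_comm]
  · intro b _ hb
    simp [hb]
  · simp

open ZMod in
lemma sum_fc_cos (c : ZMod n → ℝ) :
    ∑ k, fc c k * (stdAddChar k : ℂ).re = n * ((c 1 + c (-1)) / 2) := by
  have h1 : ∀ j k : ZMod n, (stdAddChar (j * k) : ℂ).re * (stdAddChar k : ℂ).re =
      ((stdAddChar ((j - 1) * k) : ℂ).re + (stdAddChar ((j + 1) * k) : ℂ).re) / 2 := by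
    intro j k
    have e1 := char_sub (j * k) k
    have e2 := char_sub (j * k) (-k)
    have e3 : (stdAddChar (-k) : ℂ).re = (stdAddChar k : ℂ).re := by
      have := char_sub 0 k
      rw [zero_sub] at this
      rw [this]; simp
    have e4 : (stdAddChar (-k) : ℂ).im = -(stdAddChar k : ℂ).im := by
      rw [AddChar.map_neg_eq_inv]
      have h1 : ‖(stdAddChar k : ℂ)‖ = 1 := by
        rw [stdAddChar_apply]
        exact Circle.norm_coe _
      rw [Complex.inv_def, Complex.normSq_eq_norm_sq, h1]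
      simp
    rw [e3, e4] at e2
    have e5 : (j - 1) * k = j * k - k := by ring
    have e6 : (j + 1) * k = j * k - (-k) := by ring
    rw [e5, e6, e1, e2]
    ring
  unfold fc
  simp only [Finset.sum_mul]
  rw [Finset.sum_comm]
  have h2 : ∀ j : ZMod n, ∑ k, c j * (stdAddChar (j * k) : ℂ).re * (stdAddChar k : ℂ).re =
      c j * (((if j = 1 then (n : ℝ) else 0) + (if j = -1 then (n : ℝ) else 0)) / 2) := by
    intro j
    have : ∀ k : ZMod n, c j * (stdAddChar (j * k) : ℂ).re * (stdAddChar k : ℂ).re =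
        (c j / 2) * ((stdAddChar ((j - 1) * k) : ℂ).re + (stdAddChar ((j + 1) * k) : ℂ).re) := by
      intro k
      rw [mul_assoc, h1]
      ring
    simp only [this]
    rw [← Finset.mul_sum, Finset.sum_add_distrib, sum_char, sum_char]
    have e1 : (j - 1 = 0) = (j = 1) := by rw [sub_eq_zero]
    have e2 : (j + 1 = 0) = (j = -1) := by rw [add_eq_zero_iff_eq_neg]
    simp only [e1, e2]
    ring
  simp only [h2]
  have h3 : ∀ j : ZMod n, c j * (((if j = 1 then (n : ℝ) else 0) + (if j = -1 then (n : ℝ) else 0)) / 2) =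
      (if j = 1 then c 1 * n / 2 else 0) + (if j = -1 then c (-1) * n / 2 else 0) := by
    intro j
    by_cases h : j = 1 <;> by_cases h' : j = -1
    · rw [if_pos h, if_pos h', if_pos h, if_pos h']
      rw [← h', ← h]
      ring
    · rw [if_pos h, if_neg h', if_pos h, if_neg h', h]; ring
    · rw [if_neg h, if_pos h', if_neg h, if_pos h', h']; ring
    · rw [if_neg h, if_neg h', if_neg h, if_neg h']; ring
  simp only [h3]
  rw [Finset.sum_add_distrib, Finset.sum_ite_eq', Finset.sum_ite_eq']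
  simp
  ring

open ZMod in
lemma char_le (k : ZMod n) (hk : k ≠ 0) :
    (stdAddChar k : ℂ).re ≤ Real.cos (2 * (Real.pi / n)) := by
  have hn0 : 0 < n := Nat.pos_of_ne_zero (NeZero.ne n)
  have hn : (0 : ℝ) < n := by exact_mod_cast hn0
  have hk1 : 1 ≤ k.val := Nat.one_le_iff_ne_zero.mpr (fun h => hk ((ZMod.val_eq_zero k).mp h))
  have hk2 : k.val < n := ZMod.val_lt k
  have h1 : (stdAddChar k : ℂ).re = Real.cos (2 * Real.pi * k.val / n) := by
    conv_lhs => rw [← ZMod.natCast_zmod_val k]
    have := stdAddChar_coe (N := n) (k.val : ℤ)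
    rw [Int.cast_natCast] at this
    rw [this]
    have e : 2 * (Real.pi : ℂ) * Complex.I * ((k.val : ℤ) : ℂ) / (n : ℂ) =
        ((2 * Real.pi * k.val / n : ℝ) : ℂ) * Complex.I := by
      push_cast
      ring
    rw [e, Complex.exp_ofReal_mul_I_re]
  rw [h1]
  have hpi := Real.pi_pos
  have hkr : (1 : ℝ) ≤ k.val := by exact_mod_cast hk1
  have hkn : (k.val : ℝ) ≤ n - 1 := by
    have : k.val + 1 ≤ n := hk2
    have : ((k.val + 1 : ℕ) : ℝ) ≤ n := by exact_mod_cast this
    push_cast at this
    linarith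
  by_cases hc : 2 * (k.val : ℝ) ≤ n
  · apply Real.cos_le_cos_of_nonneg_of_le_pi
    · positivity
    · rw [div_le_iff₀ hn]
      nlinarith
    · have e : 2 * (Real.pi / n) = 2 * Real.pi / n := by ring
      rw [e]
      apply div_le_div_of_nonneg_right _ hn.le
      nlinarith
  · push Not at hc
    have e : Real.cos (2 * Real.pi * k.val / n) = Real.cos (2 * Real.pi * (n - k.val) / n) := by
      rw [← Real.cos_two_pi_sub]
      congr 1
      field_simp
    rw [e]
    apply Real.cos_le_cos_of_nonneg_of_le_pi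
    · positivity
    · rw [div_le_iff₀ hn]
      nlinarith
    · rw [le_div_iff₀ hn]
      have : 2 * (Real.pi / n) * n = 2 * Real.pi := by field_simp
      rw [this]
      nlinarith

/-- Wirtinger for vectors with zero orbit sum -/
lemma wirt0 (hS : S ^ n = 1) (hB : ∀ u v, B (S u) (S v) = B u v) (hpos : ∀ v, 0 ≤ B v v)
    (hsymm : ∀ u v, B u v = B v u) (v : V) (h0 : ∑ i, orb S n v i = 0) :
    4 * Real.sin (Real.pi / n) ^ 2 * B v v ≤ B (v - S v) (v - S v) := by
  set c := cor' B S n v with hc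
  have hn : (0 : ℝ) < n := by
    have := NeZero.ne n
    positivity
  have hc0 : c 0 = B v v := by simp [hc, cor', orb_zero]
  have hc1 : c 1 = B v (S v) := by
    have := orb_succ S n hS v 0
    rw [zero_add, orb_zero] at this
    rw [hc, cor', this]
  have hcm : c (-1) = c 1 := by
    have h1 := B_orb hS hB v 1 0
    rw [zero_sub] at h1
    rw [← hc] at h1
    rw [← h1, orb_zero, hsymm]
    rfl
  have hf0 : fc c 0 = 0 := by
    unfold fc
    simp only [mul_zero, AddChar.map_zero_eq_one, Complex.one_re, mul_one]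
    have : ∑ j, c j = B v (∑ i, orb S n v i) := by
      rw [map_sum]; rfl
    rw [this, h0, map_zero]
  have hsum : ∑ k, fc c k * (ZMod.stdAddChar k : ℂ).re ≤ ∑ k, fc c k * Real.cos (2 * (Real.pi / n)) := by
    apply Finset.sum_le_sum
    intro k _
    by_cases hk : k = 0
    · rw [hk, hf0, zero_mul, zero_mul]
    · exact mul_le_mul_of_nonneg_left (char_le k hk) (fc_nonneg hS hB hpos v k)
  rw [sum_fc_cos, ← Finset.sum_mul, sum_fc, hcm] at hsum
  have h1 : c 1 ≤ c 0 * Real.cos (2 * (Real.pi / n)) := by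
    have : (n : ℝ) * c 1 ≤ n * (c 0 * Real.cos (2 * (Real.pi / n))) := by
      have e : (n : ℝ) * ((c 1 + c 1) / 2) = n * c 1 := by ring
      rw [e] at hsum
      linarith
    exact le_of_mul_le_mul_left this hn
  rw [hc0, hc1, Real.cos_two_mul'] at h1
  have h2 : B (v - S v) (v - S v) = 2 * B v v - 2 * B v (S v) := by
    simp only [map_sub, LinearMap.sub_apply]
    rw [hB, hsymm (S v) v]
    ring
  rw [h2]
  have h3 := Real.sin_sq_add_cos_sq (Real.pi / n)
  nlinarith [hpos v]

variable (S n) in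
/-- average over the orbit -/
def av (v : V) : V := (n : ℝ)⁻¹ • ∑ i, orb S n v i

lemma orb_lin (i : ZMod n) (u v : V) : orb S n (u - v) i = orb S n u i - orb S n v i := by
  simp [orb]

lemma S_av (hS : S ^ n = 1) (v : V) : S (av S n v) = av S n v := by
  unfold av
  rw [map_smul, map_sum]
  congr 1
  rw [← Equiv.sum_comp (Equiv.addRight (1 : ZMod n)) (fun i => orb S n v i)]
  apply Finset.sum_congr rfl
  intro i _
  simp only [Equiv.coe_addRight]
  rw [orb_succ S n hS]

lemma orb_fix (v : V) (h : S v = v) (i : ZMod n) : orb S n v i = v := by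
  unfold orb
  have : ∀ m : ℕ, (S ^ m) v = v := by
    intro m
    induction m with
    | zero => simp
    | succ m ih => rw [pow_succ, Module.End.mul_apply, h, ih]
  exact this _

lemma sum_orb (hS : S ^ n = 1) (v : V) : ∑ i, orb S n (v - av S n v) i = 0 := by
  simp only [orb_lin]
  rw [Finset.sum_sub_distrib]
  simp only [orb_fix (n := n) (av S n v) (S_av hS v)]
  rw [Finset.sum_const, Finset.card_univ, ZMod.card]
  have hn : (n : ℝ) ≠ 0 := by
    have := NeZero.ne n
    positivity
  rw [← Nat.cast_smul_eq_nsmul ℝ]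
  unfold av
  rw [smul_smul, mul_inv_cancel₀ hn, one_smul, sub_self]

lemma B_av (hS : S ^ n = 1) (hB : ∀ u v, B (S u) (S v) = B u v)
    (hsymm : ∀ u v, B u v = B v u) (v : V) : B (v - av S n v) (av S n v) = 0 := by
  have h1 : ∀ i : ZMod n, B (orb S n (v - av S n v) i) (av S n v) = B (v - av S n v) (av S n v) := by
    intro i
    unfold orb
    have : ∀ m : ℕ, ∀ u, B ((S ^ m) u) (av S n v) = B u (av S n v) := by
      intro m
      induction m with
      | zero => intro u; simp
      | succ m ih =>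
        intro u
        rw [pow_succ', Module.End.mul_apply]
        conv_lhs => rw [← S_av hS v]
        rw [hB, ih]
    exact this _ _
  have h2 : ∑ i : ZMod n, B (orb S n (v - av S n v) i) (av S n v) = 0 := by
    have : B (∑ i : ZMod n, orb S n (v - av S n v) i) (av S n v) = 0 := by
      rw [sum_orb hS, map_zero, LinearMap.zero_apply]
    rw [map_sum, LinearMap.sum_apply] at this
    exact this
  simp only [h1] at h2
  rw [Finset.sum_const, Finset.card_univ, ZMod.card, nsmul_eq_mul] at h2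
  have hn : (n : ℝ) ≠ 0 := by
    have := NeZero.ne n
    positivity
  exact (mul_eq_zero.mp h2).resolve_left hn

lemma B_split (hS : S ^ n = 1) (hB : ∀ u v, B (S u) (S v) = B u v)
    (hsymm : ∀ u v, B u v = B v u) (v : V) :
    B v v = B (v - av S n v) (v - av S n v) + B (av S n v) (av S n v) := by
  have h := B_av hS hB hsymm v
  have e : v = (v - av S n v) + av S n v := by abel
  conv_lhs => rw [e]
  simp only [map_add, LinearMap.add_apply]
  rw [h, hsymm (av S n v) (v - av S n v), h]
  ring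

/-- Wirtinger -/
lemma wirt (hS : S ^ n = 1) (hB : ∀ u v, B (S u) (S v) = B u v) (hpos : ∀ v, 0 ≤ B v v)
    (hsymm : ∀ u v, B u v = B v u) (v : V) :
    4 * Real.sin (Real.pi / n) ^ 2 * B (v - av S n v) (v - av S n v) ≤ B (v - S v) (v - S v) := by
  have h := wirt0 hS hB hpos hsymm (v - av S n v) (sum_orb hS v)
  have e : (v - av S n v) - S (v - av S n v) = v - S v := by
    rw [map_sub, S_av hS]
    abel
  rwa [e] at h

/-- two commuting isometries -/
lemma wirt2 (T : V →ₗ[ℝ] V) (hS : S ^ n = 1) (hT : T ^ n = 1) (hB : ∀ u v, B (S u) (S v) = B u v)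
    (hBT : ∀ u v, B (T u) (T v) = B u v) (hpos : ∀ v, 0 ≤ B v v)
    (hsymm : ∀ u v, B u v = B v u) (hcomm : ∀ v, S (T v) = T (S v)) (v : V)
    (h0 : ∀ w, S w = w → T w = w → w = av T n (av S n v) → w = 0) :
    4 * Real.sin (Real.pi / n) ^ 2 * B v v ≤ B (v - S v) (v - S v) + B (v - T v) (v - T v) := by
  have hcm : ∀ m : ℕ, ∀ v, (S ^ m) (T v) = T ((S ^ m) v) := by
    intro m
    induction m with
    | zero => intro v; simp
    | succ m ih => intro v; rw [pow_succ, Module.End.mul_apply, hcomm, ih, Module.End.mul_apply]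
  have hcm' : ∀ m : ℕ, ∀ v, (T ^ m) (S v) = S ((T ^ m) v) := by
    intro m
    induction m with
    | zero => intro v; simp
    | succ m ih => intro v; rw [pow_succ, Module.End.mul_apply, ← hcomm, ih, Module.End.mul_apply]
  have hz : av T n (av S n v) = 0 := by
    apply h0 _ _ (S_av hT _) rfl
    have h1 : S (av T n (av S n v)) = av T n (S (av S n v)) := by
      conv_lhs => unfold av
      conv_rhs => unfold av
      rw [map_smul, map_sum]
      congr 1
      apply Finset.sum_congr rfl
      intro i _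
      unfold orb
      rw [hcm' i.val]
    rw [h1, S_av hS]
  have h1 := wirt hS hB hpos hsymm v
  have h2 := wirt hT hBT hpos hsymm (av S n v)
  rw [hz, sub_zero] at h2
  have h3 : av S n v - T (av S n v) = av S n (v - T v) := by
    unfold av
    rw [map_smul, ← smul_sub, map_sum, ← Finset.sum_sub_distrib]
    congr 1
    apply Finset.sum_congr rfl
    intro i _
    rw [orb_lin]
    unfold orb
    rw [hcm]
  have h4 : B (av S n (v - T v)) (av S n (v - T v)) ≤ B (v - T v) (v - T v) := by
    rw [B_split hS hB hsymm (v - T v)]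
    have := hpos (v - T v - av S n (v - T v))
    linarith
  rw [B_split hS hB hsymm v, mul_add]
  rw [h3] at h2
  linarith

end abs

end T2H02.TT.PkgCs

open MeasureTheory Matrix
open scoped Matrix.Norms.Frobenius

namespace T2H02.TT

namespace PkgCs

open PkgC PkgC1u

variable {N L : ℕ} [NeZero L]

/-- the real inner product of matrix fields -/
def BL : (Tor L → Mt N) →ₗ[ℝ] (Tor L → Mt N) →ₗ[ℝ] ℝ :=
  LinearMap.mk₂ ℝ bi (fun _ _ _ => bi_add_left _ _ _) (fun c _ _ => bi_smul_left c _ _)
    (fun _ _ _ => bi_add_right _ _ _) (fun c _ _ => bi_smul_right c _ _)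

theorem BL_apply (u v : Tor L → Mt N) : BL u v = bi u v := rfl

theorem adj_add' (g : SU N) (M M' : Mt N) : Adj g (M + M') = Adj g M + Adj g M' := by
  simp only [Adj, mul_add, add_mul]

theorem adj_smul' (g : SU N) (c : ℝ) (M : Mt N) : Adj g (c • M) = c • Adj g M := by
  simp only [Adj, mul_smul_comm, smul_mul_assoc]

/-- the transport as a linear map -/
def SL (P Q : SU N) (j : Fin 2) : (Tor L → Mt N) →ₗ[ℝ] (Tor L → Mt N) where
  toFun := Sj P Q j
  map_add' u v := by
    funext y
    simp only [Sj, Pi.add_apply, adj_add']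
  map_smul' c u := by
    funext y
    simp only [Sj, Pi.smul_apply, adj_smul', RingHom.id_apply]

theorem SL_apply (P Q : SU N) (j : Fin 2) (u : Tor L → Mt N) : SL P Q j u = Sj P Q j u := rfl

theorem adj_mul (g h : SU N) (M : Mt N) : Adj (g * h) M = Adj g (Adj h M) := by
  rw [adj_adj]
  rfl

theorem SL_pow (P Q : SU N) (j : Fin 2) (m : ℕ) (u : Tor L → Mt N) :
    ∀ y, ((SL P Q j) ^ m) u y = Adj (hol (vac P Q) j m y) (u (PkgE.stp j m y)) := by
  induction m with
  | zero =>
    intro y
    rw [pow_zero, Module.End.one_apply, PkgE.stp_zero, hol, adj_one]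
  | succ m ih =>
    intro y
    rw [pow_succ', Module.End.mul_apply, SL_apply, Sj, ih, hol, adj_mul, PkgE.stp_succ]

theorem SL_powL (P Q : SU N) (j : Fin 2) (u : Tor L → Mt N) (y : Tor L) :
    ((SL P Q j) ^ L) u y = Adj (if j = 0 then P else Q) (u y) := by
  rw [SL_pow, PkgE.stp_L]
  fin_cases j
  · simp only [Fin.zero_eta, Fin.isValue, if_true]
    rw [PkgE.hol_vac_L0]
  · simp only [Fin.mk_one, Fin.isValue, one_ne_zero, if_false]
    rw [PkgE.hol_vac_L1]

theorem SL_powLm (P Q : SU N) (j : Fin 2) (m : ℕ) (u : Tor L → Mt N) (y : Tor L) :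
    ((SL P Q j) ^ (L * m)) u y = Adj ((if j = 0 then P else Q) ^ m) (u y) := by
  rw [pow_mul]
  induction m generalizing y with
  | zero => rw [pow_zero, pow_zero, Module.End.one_apply, adj_one]
  | succ m ih =>
    rw [pow_succ', Module.End.mul_apply, SL_powL, ih, pow_succ', adj_mul]

theorem scal_of (hA3 : S_A3) {k : ℕ} (hN : 2 ≤ N) (hk : Nat.Coprime k N) {P Q : SU N}
    (h : PQ k P Q) (j : Fin 2) :
    ∃ c : ℂ, (((if j = 0 then P else Q) ^ N : SU N) : Mt N) = c • (1 : Mt N) := by
  apply hA3 N k hN hk P Q h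
  · have hom := (PkgE.om_prim hN hk).pow_eq_one
    by_cases hj : j = 0
    · simp only [hj, if_true]
      change (P : Mt N) ^ N * (P : Mt N) = (P : Mt N) * (P : Mt N) ^ N
      rw [← pow_succ, ← pow_succ']
    · simp only [hj, if_false]
      change (Q : Mt N) ^ N * (P : Mt N) = (P : Mt N) * (Q : Mt N) ^ N
      rw [PkgE.PQ_pow h N, hom, one_smul]
  · have hom := (PkgE.om_prim hN hk).pow_eq_one
    by_cases hj : j = 0
    · simp only [hj, if_true]
      change (P : Mt N) ^ N * (Q : Mt N) = (Q : Mt N) * (P : Mt N) ^ N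
      rw [PkgE.PQ_pow' h N, hom, one_smul]
    · simp only [hj, if_false]
      change (Q : Mt N) ^ N * (Q : Mt N) = (Q : Mt N) * (Q : Mt N) ^ N
      rw [← pow_succ, ← pow_succ']

theorem adj_scal (g : SU N) (c : ℂ) (hg : (g : Mt N) = c • (1 : Mt N)) (M : Mt N) : Adj g M = M := by
  have h1 : (g : Mt N) * ((g⁻¹ : SU N) : Mt N) = 1 := by
    have : ((g * g⁻¹ : SU N) : Mt N) = 1 := by rw [mul_inv_cancel]; rfl
    exact this
  have h2 : (g : Mt N) * M = M * (g : Mt N) := by
    rw [hg, smul_mul_assoc, mul_smul_comm, one_mul, mul_one]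
  rw [Adj, h2, mul_assoc, h1, mul_one]

theorem SL_one (hA3 : S_A3) {k : ℕ} (hN : 2 ≤ N) (hk : Nat.Coprime k N) {P Q : SU N}
    (h : PQ k P Q) (j : Fin 2) : (SL (L := L) P Q j) ^ (N * L) = 1 := by
  obtain ⟨c, hc⟩ := scal_of hA3 hN hk h j
  apply LinearMap.ext
  intro u
  funext y
  rw [mul_comm N L, SL_powLm, adj_scal _ c hc, Module.End.one_apply]

theorem BL_S (P Q : SU N) (j : Fin 2) (u v : Tor L → Mt N) :
    BL (SL P Q j u) (SL P Q j v) = BL u v := bi_S P Q j u v

theorem av_trace (P Q : SU N) (j : Fin 2) (n : ℕ) [NeZero n] (v : Tor L → Mt N)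
    (hv : ∀ y, (v y).trace = 0) (y : Tor L) : (av (SL P Q j) n v y).trace = 0 := by
  unfold av
  rw [Pi.smul_apply, trace_smul, Finset.sum_apply, trace_sum]
  rw [Finset.sum_eq_zero, smul_zero]
  intro i _
  unfold orb
  rw [SL_pow, adj_trace, hv]

end PkgCs

open PkgC PkgC1u PkgCs

theorem sum_dd_eq {N L : ℕ} [NeZero L] (P Q : SU N) (lam : Tor L → Mt N) :
    ∑ y, ∑ j, ‖dd (vac P Q) lam y j‖ ^ 2 =
      bi (lam - Sj P Q 0 lam) (lam - Sj P Q 0 lam) + bi (lam - Sj P Q 1 lam) (lam - Sj P Q 1 lam) := by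
  rw [bi_self, bi_self, ← Finset.sum_add_distrib]
  refine Finset.sum_congr rfl fun y _ => ?_
  rw [Fin.sum_univ_two]
  rfl

theorem pC1s (hA3 : S_A3) (_hB0 : S_B0) (hB3 : S_B3) : S_C1s := by
  intro N k hN hk P Q h L _ lam hlam
  have hn : NeZero (N * L) := ⟨Nat.mul_ne_zero (by omega) (NeZero.ne L)⟩
  have key := wirt2 (B := BL (N := N) (L := L)) (S := SL P Q 0) (n := N * L) (SL P Q 1)
    (SL_one hA3 hN hk h 0) (SL_one hA3 hN hk h 1) (BL_S P Q 0) (BL_S P Q 1)
    (fun v => by rw [BL_apply, bi_self]; positivity) (fun u v => bi_comm u v)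
    (fun v => Sj_comm h v) lam (by
      intro w h1 h2 h3
      obtain ⟨c, hc⟩ := hB3 N k L hN hk P Q h w (by
        intro y j
        fin_cases j
        · have := congrFun h1 y
          change Sj P Q 0 w y = w y at this
          change w y - Sj P Q 0 w y = 0
          rw [this, sub_self]
        · have := congrFun h2 y
          change Sj P Q 1 w y = w y at this
          change w y - Sj P Q 1 w y = 0
          rw [this, sub_self])
      funext y
      have ht : (w y).trace = 0 := by
        rw [h3]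
        exact av_trace P Q 1 (N * L) _ (fun z => av_trace P Q 0 (N * L) _ hlam z) y
      rw [hc y, trace_smul, trace_one, Fintype.card_fin, smul_eq_mul, mul_eq_zero] at ht
      have h3 : c = 0 := by
        rcases ht with h1 | h1
        · exact h1
        · exfalso
          have : N = 0 := by exact_mod_cast h1
          omega
      rw [hc y, h3, zero_smul]
      rfl)
  rw [sum_dd_eq, mu2, ← bi_self]
  have e : (((N * L : ℕ) : ℝ)) = (N : ℝ) * L := by push_cast; ring
  rw [e] at key
  exact key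

theorem pC2s (hC1s : S_C1s) : S_C2s := by
  intro N k hN hk P Q h L _ a ha ho
  let a0 : Tor L → suS N := fun y => ⟨a y 0, ha y 0⟩
  let a1 : Tor L → suS N := fun y => ⟨a y 1, ha y 1⟩
  have hG := G_zero h a0 a1 (by
    intro mu
    have h2 := ho (fun y => (mu y : Mt N)) (fun y => (mu y).2)
    rw [bil_apply, bil_apply, bi, bi, ← Finset.sum_add_distrib]
    rw [← h2]
    refine Finset.sum_congr rfl fun y _ => ?_
    rw [Fin.sum_univ_two]
    rfl)
  have hk2 := key h (fun y => (a0 y : Mt N)) (fun y => (a1 y : Mt N))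
  rw [hG, add_zero] at hk2
  have c0 := hC1s N k hN hk P Q h L (fun y => (a0 y : Mt N)) (fun y => (a0 y).2.2)
  have c1 := hC1s N k hN hk P Q h L (fun y => (a1 y : Mt N)) (fun y => (a1 y).2.2)
  have ecrl : ((fun y => (a0 y : Mt N)) - Sj P Q 1 (fun y => (a0 y : Mt N))) -
      ((fun y => (a1 y : Mt N)) - Sj P Q 0 (fun y => (a1 y : Mt N))) =
      fun y => crl (vac P Q) a y := by
    funext y
    change (a y 0 - Adj ((vac P Q : Ph N L) y 1) (a (tsh y 1) 0)) -
        (a y 1 - Adj ((vac P Q : Ph N L) y 0) (a (tsh y 0) 1)) = _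
    simp only [crl]
    abel
  rw [ecrl, bi_self] at hk2
  rw [sum_dd_eq] at c0 c1
  have hL : ∑ y, ∑ j, ‖a y j‖ ^ 2 = ∑ y, ‖(a0 y : Mt N)‖ ^ 2 + ∑ y, ‖(a1 y : Mt N)‖ ^ 2 := by
    rw [← Finset.sum_add_distrib]
    refine Finset.sum_congr rfl fun y _ => ?_
    rw [Fin.sum_univ_two]
  rw [hL, hk2, mul_add]
  refine (add_le_add c0 c1).trans (le_of_eq ?_)
  ring

end T2H02.TT
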