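import Pool.Agent.T2H02.TT.Fin18

/-!
# Assembly: the exact limit of the mass gap
-/

set_option autoImplicit false
set_option linter.unusedSectionVars false

noncomputable section

open MeasureTheory Matrix Filter Topology
open scoped Matrix.Norms.Frobenius

namespace T2H02.TT

/-- exponential clustering with the rate `m`: truncated correlations of functions supported near the
plane sites `a` and `b` are at most `C exp (-m |a - b|)`, with `C` depending on the size of the
supports only -/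
def ClI (N L : ℕ) [NeZero L] (k : ℕ) (β m : ℝ) : Prop :=
  ∀ r : ℕ, ∃ C : ℝ, ∀ (a b : Pl) (f g : Cf N L → ℝ), Loc (Nb r a) f → Loc (Nb r b) g →
    |Phi N L k β (fun X => f X * g X) - Phi N L k β f * Phi N L k β g| ≤
      C * Real.exp (-m * dpl a b)

variable {N L : ℕ} [NeZero L] {k : ℕ} (hN : 2 ≤ N) {β : ℝ} (hβ : 0 ≤ β) {m κ : ℝ}

/-- clustering implies the spectral gap, by reflection positivity -/
lemma gapC (hmm : 0 < m) (hO : S_O) (hS : S_SY) (hR : S_RP) (hD : Dec N L k hN β hβ m κ) {m' : ℝ}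
    (hcl : ClI N L k β m') : GapI N L k β m' := by
  intro A hA f hf n
  obtain ⟨r, hr⟩ := loc_big A
  have hfr := loc_mono A _ hr f hf
  set c := Phi N L k β f with hc
  have hc1 : |c| ≤ 1 := phi_abs hN hβ hmm hO hD r 0 f hfr
  set g : Cf N L → ℝ := fun X => (f X - c) / 2 with hg
  have hgA : Loc A g := by
    refine ⟨(hf.1.sub_const c).div_const 2, fun X => ?_, fun X Y h => ?_⟩
    · show |(f X - c) / 2| ≤ 1
      rw [abs_div, abs_two, div_le_one (by norm_num)]
      exact (abs_sub _ _).trans (by linarith [hf.2.1 X])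
    · show (f X - c) / 2 = (f Y - c) / 2
      rw [hf.2.2 X Y h]
  -- the two point function of `g`
  have key : ∀ n : ℕ, Phi N L k β (fun X => g (rf X) * g (shf ((n : ℤ), 0) X)) =
      (Phi N L k β (fun X => f (rf X) * f (shf ((n : ℤ), 0) X)) - c ^ 2) / 4 := by
    intro n
    obtain ⟨r', hr'⟩ := loc_big (A ∪ A.image fun a => a + ((n : ℤ), 0))
    have l1 : Loc (Nb r' 0) (fun X : Cf N L => f (rf X)) :=
      loc_rf r' f (loc_mono A _ (Finset.subset_union_left.trans hr') f hf)
    have l2 : Loc (Nb r' 0) (fun X : Cf N L => f (shf ((n : ℤ), 0) X)) :=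
      loc_mono _ _ (Finset.subset_union_right.trans hr') _ (loc_shf0 A n f hf)
    have l3 := loc_mul0 r' _ _ l1 l2
    have l4 : Loc (Nb r' 0) (fun X : Cf N L => g (rf X)) :=
      loc_rf r' g (loc_mono A _ (Finset.subset_union_left.trans hr') g hgA)
    have l5 : Loc (Nb r' 0) (fun X : Cf N L => g (shf ((n : ℤ), 0) X)) :=
      loc_mono _ _ (Finset.subset_union_right.trans hr') _ (loc_shf0 A n g hgA)
    have t0 := tends hN hβ hmm hO hD r' 0 _ (loc_mul0 r' _ _ l4 l5)
    have t1 := tends hN hβ hmm hO hD r' 0 _ l1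
    have t2 := tends hN hβ hmm hO hD r' 0 _ l2
    have t3 := tends hN hβ hmm hO hD r' 0 _ l3
    have e1 : Phi N L k β (fun X : Cf N L => f (rf X)) = c := phi_rf hN hβ hmm hO hR hD r f hfr
    have e2 : Phi N L k β (fun X : Cf N L => f (shf ((n : ℤ), 0) X)) = c :=
      loc_phi_shf hN hβ hmm hO hS hD A _ f hf
    rw [e1] at t1
    rw [e2] at t2
    have e3 : (fun j : ℕ => wex N L k β (Nb j 0) fun X => g (rf X) * g (shf ((n : ℤ), 0) X)) =
        fun j => (wex N L k β (Nb j 0) (fun X => f (rf X) * f (shf ((n : ℤ), 0) X)) -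
          c * wex N L k β (Nb j 0) (fun X => f (rf X)) -
          c * wex N L k β (Nb j 0) (fun X => f (shf ((n : ℤ), 0) X)) + c ^ 2) / 4 := by
      funext j
      have e4 : (fun X : Cf N L => g (rf X) * g (shf ((n : ℤ), 0) X)) = fun X =>
          (1 / 4 : ℝ) * (((f (rf X) * f (shf ((n : ℤ), 0) X)) + (-c) * f (rf X)) +
            ((-c) * f (shf ((n : ℤ), 0) X) + c ^ 2)) := by
        funext X
        simp only [hg]
        ring
      rw [e4, wex_mul,
        wex_add k hβ _ (fun X => (f (rf X) * f (shf ((n : ℤ), 0) X)) + (-c) * f (rf X))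
          (fun X => (-c) * f (shf ((n : ℤ), 0) X) + c ^ 2)
          (l3.1.add (l1.1.const_mul _)) ⟨1 + |(-c)| * 1, fun X => (abs_add_le _ _).trans (add_le_add
            (l3.2.1 X) (by rw [abs_mul]; exact mul_le_mul_of_nonneg_left (l1.2.1 X) (abs_nonneg _)))⟩
          ((l2.1.const_mul _).add_const _) ⟨|(-c)| * 1 + |c ^ 2|, fun X => (abs_add_le _ _).trans
            (add_le_add (by rw [abs_mul]; exact mul_le_mul_of_nonneg_left (l2.2.1 X) (abs_nonneg _))
              le_rfl)⟩,
        wex_add k hβ _ (fun X => f (rf X) * f (shf ((n : ℤ), 0) X)) (fun X => (-c) * f (rf X))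
          l3.1 ⟨1, l3.2.1⟩ (l1.1.const_mul _) ⟨|(-c)| * 1, fun X => by
            rw [abs_mul]; exact mul_le_mul_of_nonneg_left (l1.2.1 X) (abs_nonneg _)⟩,
        wex_add k hβ _ (fun X => (-c) * f (shf ((n : ℤ), 0) X)) (fun _ => c ^ 2)
          (l2.1.const_mul _) ⟨|(-c)| * 1, fun X => by
            rw [abs_mul]; exact mul_le_mul_of_nonneg_left (l2.2.1 X) (abs_nonneg _)⟩
          measurable_const ⟨|c ^ 2|, fun _ => le_rfl⟩,
        wex_mul, wex_mul, wex_const k hβ]
      ring
    rw [e3] at t0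
    have t4 := (((t3.sub (t1.const_mul c)).sub (t2.const_mul c)).add_const (c ^ 2)).div_const 4
    have := tendsto_nhds_unique t0 t4
    rw [this]
    ring
  set H : ℕ → ℝ := fun n => Phi N L k β (fun X => g (rf X) * g (shf ((n : ℤ), 0) X)) with hH
  have sh0 : ∀ X : Cf N L, shf (((0 : ℕ) : ℤ), 0) X = X := by
    intro X
    funext l
    obtain ⟨⟨⟨x1, x2⟩, y⟩, i⟩ := l
    simp [shf]
  -- shifted functions
  have hsh : ∀ a b : ℕ, Phi N L k β (fun X => g (shf ((a : ℤ), 0) (rf X)) * g (shf ((b : ℤ), 0) X)) =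
      H (a + b) := by
    intro a b
    obtain ⟨r', hr'⟩ := loc_big ((A.image fun x => x + ((a : ℤ), 0)) ∪ A.image fun x => x + ((b : ℤ), 0))
    have l1 : Loc (Nb r' 0) (fun X : Cf N L => g (shf ((a : ℤ), 0) X)) :=
      loc_mono _ _ (Finset.subset_union_left.trans hr') _ (loc_shf0 A a g hgA)
    have l2 : Loc (Nb r' 0) (fun X : Cf N L => g (shf ((b : ℤ), 0) X)) :=
      loc_mono _ _ (Finset.subset_union_right.trans hr') _ (loc_shf0 A b g hgA)
    have l3 := loc_mul0 r' _ _ (loc_rf r' _ l1) l2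
    rw [← loc_phi_shf hN hβ hmm hO hS hD (Nb r' 0) ((a : ℤ), 0) _ l3, hH]
    show Phi N L k β (fun X => g (shf ((a : ℤ), 0) (rf (shf ((a : ℤ), 0) X))) *
      g (shf ((b : ℤ), 0) (shf ((a : ℤ), 0) X))) = _
    congr 1
    funext X
    rw [shf_rf, shf_shf]
    have : (((b : ℤ), 0) : Pl) + ((a : ℤ), 0) = (((a + b : ℕ) : ℤ), 0) := by
      ext <;> simp [add_comm]
    rw [this]
  have hcs : ∀ a b : ℕ, H (a + b) ^ 2 ≤ H (2 * a) * H (2 * b) := by
    intro a b
    set A' := (A.image fun x => x + ((a : ℤ), 0)) ∪ A.image fun x => x + ((b : ℤ), 0) with hA'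
    have hA0 : ∀ x ∈ A', 0 ≤ x.1 := by
      intro x hx
      rw [hA', Finset.mem_union, Finset.mem_image, Finset.mem_image] at hx
      rcases hx with ⟨y, hy, rfl⟩ | ⟨y, hy, rfl⟩
      · have := hA y hy
        simp only [Prod.fst_add]
        positivity
      · have := hA y hy
        simp only [Prod.fst_add]
        positivity
    have l1 : Loc A' (fun X : Cf N L => g (shf ((a : ℤ), 0) X)) :=
      loc_mono _ _ Finset.subset_union_left _ (loc_shf0 A a g hgA)
    have l2 : Loc A' (fun X : Cf N L => g (shf ((b : ℤ), 0) X)) :=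
      loc_mono _ _ Finset.subset_union_right _ (loc_shf0 A b g hgA)
    have := phi_cs hN hβ hmm hO hR hD A' hA0 _ _ l1 l2
    rw [hsh a b, hsh a a, hsh b b, ← two_mul, ← two_mul] at this
    exact this
  have hpos : ∀ a : ℕ, 0 ≤ H (2 * a) := by
    intro a
    have hA0 : ∀ x ∈ (A.image fun x => x + ((a : ℤ), 0)), 0 ≤ x.1 := by
      intro x hx
      rw [Finset.mem_image] at hx
      obtain ⟨y, hy, rfl⟩ := hx
      have := hA y hy
      simp only [Prod.fst_add]
      positivity
    have := phi_rp hN hβ hmm hO hR hD _ hA0 _ (loc_shf0 A a g hgA)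
    rw [hsh a a, ← two_mul] at this
    exact this
  -- decay
  have hgm : Phi N L k β g = 0 := by
    have t1 := tends hN hβ hmm hO hD r 0 g (loc_mono A _ hr g hgA)
    have t2 := tends hN hβ hmm hO hD r 0 f hfr
    have e3 : (fun j : ℕ => wex N L k β (Nb j 0) g) = fun j => (wex N L k β (Nb j 0) f - c) / 2 := by
      funext j
      have e4 : g = fun X => (1 / 2 : ℝ) * (f X + (-c)) := by
        funext X
        simp only [hg]
        ring
      rw [e4, wex_mul, wex_add k hβ _ f (fun _ => -c) hf.1 ⟨1, hf.2.1⟩ measurable_const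
        ⟨|(-c)|, fun _ => le_rfl⟩, wex_const k hβ]
      ring
    rw [e3] at t1
    have := tendsto_nhds_unique t1 ((t2.sub_const c).div_const 2)
    rw [this, ← hc]
    simp
  have hgr := loc_mono A _ hr g hgA
  obtain ⟨C', hC'⟩ := hcl r
  have hdec : ∀ n : ℕ, |H n| ≤ C' * Real.exp (-m' * n) := by
    intro n
    have := hC' 0 ((n : ℤ), 0) _ _ (loc_rf r g hgr)
      (by
        have := loc_shf r 0 ((n : ℤ), 0) g hgr
        rwa [zero_add] at this)
    rw [phi_rf hN hβ hmm hO hR hD r g hgr, hgm, zero_mul, sub_zero] at this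
    have e : dpl 0 ((n : ℤ), 0) = n := by
      simp [dpl]
    rw [e] at this
    exact this
  have h2 : ∀ j, H (2 * j) ≤ C' * (Real.exp (-(2 * m'))) ^ j := by
    intro j
    refine (le_abs_self _).trans ((hdec (2 * j)).trans (le_of_eq ?_))
    rw [← Real.exp_nat_mul]
    congr 2
    push_cast
    ring
  have h3 := logconv (fun j => H (2 * j)) _ _ (Real.exp_pos _) hpos (fun j => by
    have := hcs j (j + 2)
    rw [show j + (j + 2) = 2 * (j + 1) by ring] at this
    exact this) h2
  have h0 : 0 ≤ H 0 := hpos 0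
  have hfin : |H n| ≤ H 0 * Real.exp (-m' * n) := by
    have e1 : H n ^ 2 ≤ H 0 * H (2 * n) := by
      have := hcs 0 n
      simpa using this
    have e2 : H (2 * n) ≤ H 0 * (Real.exp (-(2 * m'))) ^ n := by simpa using h3 n
    have e3 : (Real.exp (-(2 * m'))) ^ n = Real.exp (-m' * n) ^ 2 := by
      rw [← Real.exp_nat_mul, ← Real.exp_nat_mul]
      congr 1
      push_cast
      ring
    rw [e3] at e2
    have e4 : H n ^ 2 ≤ (H 0 * Real.exp (-m' * n)) ^ 2 := by
      calc H n ^ 2 ≤ H 0 * H (2 * n) := e1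
        _ ≤ H 0 * (H 0 * Real.exp (-m' * n) ^ 2) := mul_le_mul_of_nonneg_left e2 h0
        _ = _ := by ring
    exact abs_le_of_sq_le_sq e4 (mul_nonneg h0 (Real.exp_pos _).le)
  have k1 : H n = (Phi N L k β (fun X => f (rf X) * f (shf ((n : ℤ), 0) X)) - c ^ 2) / 4 := key n
  have k0 : H 0 = (Phi N L k β (fun X => f (rf X) * f X) - c ^ 2) / 4 := by
    have := key 0
    simp only [sh0] at this
    rw [← this]
    simp only [hH, sh0]
  rw [k1, k0, abs_div, abs_of_pos (by norm_num : (0 : ℝ) < 4)] at hfin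
  linarith


end T2H02.TT
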