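import Pool.Agent.T2H02.TT.Fin13
import Pool.Agent.T2H02.TT.Fin19

/-!
# Assembly: the exact limit of the mass gap, continued
-/

set_option autoImplicit false
set_option linter.unusedSectionVars false

noncomputable section

open MeasureTheory Matrix Filter Topology
open scoped Matrix.Norms.Frobenius

namespace T2H02.TT

/-- the mass gap: supremum of the rates of decay of the connected two point functions of half space
observables -/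
def gapv (N L : ℕ) [NeZero L] (k : ℕ) (β : ℝ) : ℝ := sSup {m : ℝ | GapI N L k β m}

/-- the mass gap is between `(1 - ε) mgp` and `(1 + ε) mgp` for `β ≥ C₀ L ^ K₀` -/
theorem exact1 (hP : S_P1g) (hZ : S_Zg) (hZ1 : ∀ (N k : ℕ) (hN : 2 ≤ N), Nat.Coprime k N → ∀ ε : ℝ, 0 < ε →
      ε < 1 → D_Z1 N k hN fun L => (1 - ε) * mgp N L)
    (hUM : S_UM) (hUK : S_UK) (hUR : S_UR) (hA1 : S_A1) (hPu : S_P1u) (hO : S_O) (hS : S_SY) (hR : S_RP)
    (hCB : S_CB) (N k : ℕ) (hN : 2 ≤ N) (hk : Nat.Coprime k N) (ε : ℝ) (hε : 0 < ε) (hε1 : ε < 1) :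
    ∃ (C₀ : ℝ) (K₀ : ℕ), 0 < C₀ ∧ ∀ (L : ℕ) [NeZero L] (β : ℝ), C₀ * (L : ℝ) ^ K₀ ≤ β →
      (∀ r : ℕ, ∃ C : ℝ, ∀ (a : Pl) (f : Cf N L → ℝ), Loc (Nb r a) f →
        (∀ (n : ℕ) (R : Finset Pl), Nb n a ⊆ R →
          |wex N L k β R f - Phi N L k β f| ≤ C * Real.exp (-((1 - ε) * mgp N L) * n)) ∧
        ∀ v : Pl, Phi N L k β (fun X => f (shf v X)) = Phi N L k β f) ∧
      ClI N L k β ((1 - ε) * mgp N L) ∧ GapI N L k β ((1 - ε) * mgp N L) ∧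
      ∀ m : ℝ, ClI N L k β m ∨ GapI N L k β m → m ≤ (1 + ε) * mgp N L := by
  obtain ⟨C₁, K₁, hC₁, h1⟩ := hP N k hN hk (hZ N k hN hk (hZ1 N k hN hk)) ε hε hε1
  obtain ⟨C₂, K₂, hC₂, h2⟩ := upper hUM hUK hUR hA1 hPu hO hS hCB N k hN hk ε hε hε1
  refine ⟨C₁ + C₂, K₁ + K₂, by linarith, fun L _ β hβ => ?_⟩
  have hLn : 1 ≤ L := Nat.one_le_iff_ne_zero.2 (NeZero.ne L)
  have hL : (1 : ℝ) ≤ (L : ℝ) := by exact_mod_cast hLn
  have p1 : (L : ℝ) ^ K₁ ≤ (L : ℝ) ^ (K₁ + K₂) := pow_le_pow_right₀ hL (by omega)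
  have p2 : (L : ℝ) ^ K₂ ≤ (L : ℝ) ^ (K₁ + K₂) := pow_le_pow_right₀ hL (by omega)
  have p3 : (1 : ℝ) ≤ (L : ℝ) ^ (K₁ + K₂) := one_le_pow₀ hL
  have q1 : C₁ * (L : ℝ) ^ K₁ ≤ C₁ * (L : ℝ) ^ (K₁ + K₂) := mul_le_mul_of_nonneg_left p1 (by linarith)
  have q2 : C₂ * (L : ℝ) ^ K₂ ≤ C₂ * (L : ℝ) ^ (K₁ + K₂) := mul_le_mul_of_nonneg_left p2 hC₂.le
  have q3 : 0 ≤ C₁ * (L : ℝ) ^ (K₁ + K₂) := by positivity
  have q4 : 0 ≤ C₂ * (L : ℝ) ^ (K₁ + K₂) := by positivity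
  rw [add_mul] at hβ
  have b1 : C₁ * (L : ℝ) ^ K₁ ≤ β := by linarith
  have b2 : C₂ * (L : ℝ) ^ K₂ ≤ β := by linarith
  have q5 : C₁ * 1 ≤ C₁ * (L : ℝ) ^ (K₁ + K₂) := mul_le_mul_of_nonneg_left p3 (by linarith)
  have b3 : 1 ≤ β := by linarith
  have b0 : 0 ≤ β := by linarith
  have hm0 : 0 < (1 - ε) * mgp N L := mul_pos (by linarith) (mgp_pos hN hLn)
  obtain ⟨κ, hκ, hD⟩ := h1 L β b0 b1
  refine ⟨fun r => ⟨cst N r ((1 - ε) * mgp N L) * β ^ κ, fun a f hf => ⟨fun n R hR' => ?_, fun v => ?_⟩⟩,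
    fun r => ⟨cst N r ((1 - ε) * mgp N L) * β ^ κ, fun a b f g hf hg => ?_⟩, ?_, ?_⟩
  · exact lim_rate hN b0 hm0 hκ b3 hO hD r a f hf n R hR'
  · exact phi_shf hN b0 hm0 hO hS hD r a v f hf
  · exact clu_rate hN b0 hm0 hκ b3 hO hS hD r a b f g hf hg
  · intro A hA f hf n
    exact gap hN b0 hm0 hκ b3 hO hS hR hD A hA f hf n
  · rintro m (h | h)
    · exact h2 L β b2 m (gapC hN b0 hm0 hO hS hR hD h)
    · exact h2 L β b2 m h

lemma ash_lim : Tendsto (fun t : ℝ => t⁻¹ * Real.arsinh (Real.sin t)) (𝓝[≠] 0) (𝓝 1) := by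
  have h1 : HasDerivAt (fun t : ℝ => Real.arsinh (Real.sin t)) 1 0 := by
    have h2 := (Real.hasDerivAt_arsinh (Real.sin 0)).comp 0 (Real.hasDerivAt_sin 0)
    have e : (fun t : ℝ => Real.arsinh (Real.sin t)) = Real.arsinh ∘ Real.sin := rfl
    rw [e]
    simpa using h2
  have h3 := hasDerivAt_iff_tendsto_slope_zero.1 h1
  simpa using h3

/-- in physical units -/
theorem mgp_lim (N : ℕ) (hN : 2 ≤ N) :
    Tendsto (fun L : ℕ => (L : ℝ) * mgp N L) atTop (𝓝 (2 * Real.pi / N)) := by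
  have hN' : (2 : ℝ) ≤ N := by exact_mod_cast hN
  have hπ := Real.pi_pos
  have hx : Tendsto (fun L : ℕ => Real.pi / ((N : ℝ) * L)) atTop (𝓝[≠] 0) := by
    refine tendsto_nhdsWithin_iff.2 ⟨?_, ?_⟩
    · refine tendsto_const_nhds.div_atTop ?_
      exact tendsto_natCast_atTop_atTop.const_mul_atTop (by linarith)
    · filter_upwards [eventually_ge_atTop 1] with L hL
      have hL' : (1 : ℝ) ≤ L := by exact_mod_cast hL
      have : 0 < Real.pi / ((N : ℝ) * L) := by positivity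
      exact this.ne'
  have h := (ash_lim.comp hx).const_mul (2 * Real.pi / (N : ℝ))
  rw [mul_one] at h
  refine h.congr' ?_
  filter_upwards [eventually_ge_atTop 1] with L hL
  have hL' : (1 : ℝ) ≤ L := by exact_mod_cast hL
  have hL0 : (L : ℝ) ≠ 0 := by positivity
  have hN0 : (N : ℝ) ≠ 0 := by positivity
  show 2 * Real.pi / (N : ℝ) * ((Real.pi / ((N : ℝ) * L))⁻¹ * Real.arsinh (Real.sin (Real.pi / ((N : ℝ) * L)))) =
    (L : ℝ) * mgp N L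
  unfold mgp
  field_simp

/-- the mass gap in physical units converges to `2 π / N`, if `β` grows faster than all powers of `L` -/
theorem cont (N k : ℕ) (hN : 2 ≤ N)
    (hex : ∀ ε : ℝ, 0 < ε → ε < 1 → ∃ (C₀ : ℝ) (K₀ : ℕ), 0 < C₀ ∧ ∀ (L : ℕ) [NeZero L] (β : ℝ),
      C₀ * (L : ℝ) ^ K₀ ≤ β → GapI N L k β ((1 - ε) * mgp N L) ∧
        ∀ m : ℝ, GapI N L k β m → m ≤ (1 + ε) * mgp N L)
    (β : ℕ → ℝ) (hβ : ∀ K : ℕ, ∀ᶠ L : ℕ in atTop, (L : ℝ) ^ K ≤ β L) :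
    Tendsto (fun L : ℕ => ((L + 1 : ℕ) : ℝ) * gapv N (L + 1) k (β (L + 1))) atTop
      (𝓝 (2 * Real.pi / N)) := by
  have hN' : (2 : ℝ) ≤ N := by exact_mod_cast hN
  have hπ := Real.pi_pos
  have hlim := (mgp_lim N hN).comp (tendsto_add_atTop_nat 1)
  have key : ∀ ε : ℝ, 0 < ε → ε < 1 → ∀ᶠ L : ℕ in atTop,
      |((L + 1 : ℕ) : ℝ) * gapv N (L + 1) k (β (L + 1)) - ((L + 1 : ℕ) : ℝ) * mgp N (L + 1)| ≤
        ε * (((L + 1 : ℕ) : ℝ) * mgp N (L + 1)) := by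
    intro ε hε hε1
    obtain ⟨C₀, K₀, hC₀, h⟩ := hex ε hε hε1
    have h1 : ∀ᶠ L : ℕ in atTop, C₀ * (L : ℝ) ^ K₀ ≤ β L := by
      filter_upwards [hβ (K₀ + 1), eventually_ge_atTop ⌈C₀⌉₊] with L hL1 hL2
      have h3 : C₀ ≤ L := (Nat.le_ceil _).trans (by exact_mod_cast hL2)
      calc C₀ * (L : ℝ) ^ K₀ ≤ L * (L : ℝ) ^ K₀ := by gcongr
        _ = (L : ℝ) ^ (K₀ + 1) := by ring
        _ ≤ β L := hL1
    have h2 := (tendsto_add_atTop_nat 1).eventually h1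
    filter_upwards [h2] with L hL
    obtain ⟨g1, g2⟩ := h (L + 1) (β (L + 1)) hL
    have e1 : (1 - ε) * mgp N (L + 1) ≤ gapv N (L + 1) k (β (L + 1)) :=
      le_csSup ⟨(1 + ε) * mgp N (L + 1), fun m hm => g2 m hm⟩ g1
    have e2 : gapv N (L + 1) k (β (L + 1)) ≤ (1 + ε) * mgp N (L + 1) :=
      csSup_le ⟨_, g1⟩ fun m hm => g2 m hm
    have hL0 : (0 : ℝ) < ((L + 1 : ℕ) : ℝ) := by positivity
    rw [← mul_sub, abs_mul, abs_of_pos hL0, mul_left_comm]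
    refine mul_le_mul_of_nonneg_left ?_ hL0.le
    rw [abs_le]
    constructor <;> linarith
  rw [Metric.tendsto_atTop]
  intro δ hδ
  set b : ℝ := 2 * Real.pi / N with hb
  have hb0 : 0 < b := by positivity
  have hlim' : Tendsto (fun L : ℕ => ((L + 1 : ℕ) : ℝ) * mgp N (L + 1)) atTop (𝓝 b) := hlim
  have n1 : ∀ᶠ L : ℕ in atTop, |((L + 1 : ℕ) : ℝ) * mgp N (L + 1) - b| < min (δ / 2) b := by
    have := (Metric.tendsto_atTop.1 hlim') (min (δ / 2) b) (lt_min (by linarith) hb0)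
    obtain ⟨n, hn⟩ := this
    filter_upwards [eventually_ge_atTop n] with L hL
    exact hn L hL
  set ε : ℝ := min (1 / 2) (δ / (8 * b)) with hεd
  have hε0 : 0 < ε := lt_min (by norm_num) (by positivity)
  have hε1 : ε < 1 := (min_le_left _ _).trans_lt (by norm_num)
  have hε2 : ε * (2 * b) ≤ δ / 4 := by
    calc ε * (2 * b) ≤ δ / (8 * b) * (2 * b) := by
          refine mul_le_mul_of_nonneg_right (min_le_right _ _) (by positivity)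
      _ = δ / 4 := by field_simp; norm_num
  obtain ⟨n, hn⟩ := eventually_atTop.1 (n1.and (key ε hε0 hε1))
  refine ⟨n, fun L hL => ?_⟩
  obtain ⟨u1, u2⟩ := hn L hL
  rw [Real.dist_eq]
  have u3 := abs_lt.1 (u1.trans_le (min_le_left _ _))
  have u4 := abs_lt.1 (u1.trans_le (min_le_right _ _))
  have u5 := abs_le.1 u2
  have u6 : ε * (((L + 1 : ℕ) : ℝ) * mgp N (L + 1)) ≤ ε * (2 * b) :=
    mul_le_mul_of_nonneg_left (by linarith [u4.2]) hε0.le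
  rw [abs_lt]
  constructor <;> linarith [u3.1, u3.2, u5.1, u5.2]

end T2H02.TT
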