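import Pool.Agent.T2H02.TT.StmW
import Pool.Agent.T2H02.TT.I1u
import Pool.Agent.T2H02.TT.I

/-!
# Package I1s : the linear problem in the Coulomb gauge, sum of squares
-/

set_option autoImplicit false
set_option linter.unusedSectionVars false

noncomputable section

open MeasureTheory Matrix
open scoped Matrix.Norms.Frobenius

namespace T2H02.TT

open PkgC PkgI1 PkgI1u

namespace PkgI1s

variable {L : ℕ} [NeZero L]

lemma cnt_st (T : Finset (Lk L)) (l' : Lk L) :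
    ((T.filter fun l => st l' ⊆ st l).card : ℝ) ≤ 12 * Fintype.card (Tor L) := by
  have h1 : (T.filter fun l => st l' ⊆ st l) ⊆ Frl L {l'.1.1} := by
    intro l hl
    rw [Finset.mem_filter] at hl
    rw [mem_Frl]
    exact ⟨l'.1.1, hl.2 ((mem_st l' _).2 (Or.inl rfl)), Finset.mem_singleton_self _⟩
  exact_mod_cast (Finset.card_le_card h1).trans (PkgI.Frl_card _)

end PkgI1s

theorem pI1s (hC1 : S_C1u) (hC2 : S_C2u) : S_I1s := by
  intro N k hN hk P Q hPQ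
  obtain ⟨C₁', hC1p', c1'⟩ := hC1 N k hN hk P Q hPQ
  obtain ⟨C₂', hC2p', c2'⟩ := hC2 N k hN hk P Q hPQ
  have hconst : 1 ≤ 3 * C₁' * (3 + 2 * C₂') + C₂' + 1 := by
    have : 0 ≤ 3 * C₁' * (3 + 2 * C₂') := by positivity
    linarith
  refine ⟨6156 * (3 * C₁' * (3 + 2 * C₂') + C₂' + 1), 8, by linarith, fun L _ Λ kk hkk => ?_⟩
  classical
  have hL : (1 : ℝ) ≤ L := by
    exact_mod_cast Nat.one_le_iff_ne_zero.2 (NeZero.ne L)
  obtain ⟨C₁, hC1e⟩ : ∃ C₁ : ℝ, C₁ = C₁' * (L : ℝ) ^ 2 := ⟨_, rfl⟩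
  obtain ⟨C₂, hC2e⟩ : ∃ C₂ : ℝ, C₂ = C₂' * (L : ℝ) ^ 2 := ⟨_, rfl⟩
  have hC1p : 0 < C₁ := by rw [hC1e]; positivity
  have hC2p : 0 < C₂ := by rw [hC2e]; positivity
  have c1 : ∀ lam : Tor L → Mt N, (∀ y, (lam y).trace = 0) →
      ∑ y, ‖lam y‖ ^ 2 ≤ C₁ * ∑ y, ∑ j, ‖dd (vac P Q) lam y j‖ ^ 2 := by
    rw [hC1e]; exact c1' L
  have c2 : ∀ (a : Tor L → Fin 2 → Mt N), (∀ y j, a y j ∈ su N) →
    ∃ lam : Tor L → Mt N, (∀ y, lam y ∈ su N) ∧
      Cou P Q (fun y j => a y j - dd (vac P Q) lam y j) ∧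
      ∑ y, ∑ j, ‖a y j - dd (vac P Q) lam y j‖ ^ 2 ≤ C₂ * ∑ y, ‖crl (vac P Q) a y‖ ^ 2 := by
    rw [hC2e]; exact c2' L
  let kk' : Lk L → Mt N := fun l => if l ∈ Frl L Λ then 0 else kk l
  obtain ⟨e, he, hproj⟩ := exists_proj (Bf P Q (tml Λ))
    (fun a b => by
      rw [Bf_apply, Bf_apply]
      exact Finset.sum_congr rfl fun τ _ => bf_comm _ _ _ _ _)
    (fun a => by
      rw [Bf_apply]
      exact Finset.sum_nonneg fun τ _ => bf_nonneg _ _ _ _) (EE (Frl L Λ)) kk'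
  obtain ⟨h0, hh0⟩ : ∃ h0 : Lk L → Mt N, h0 = kk' - e := ⟨_, rfl⟩
  rw [← hh0] at hproj
  have h0su : ∀ l, h0 l ∈ su N := by
    intro l
    rw [hh0, Pi.sub_apply]
    refine su_sub ?_ (he.1 l)
    by_cases hl : l ∈ Frl L Λ
    · simp only [kk', if_pos hl]
      exact su_zero
    · simp only [kk', if_neg hl]
      exact hkk l
  have h0off : ∀ l, l ∉ Frl L Λ → h0 l = kk l := by
    intro l hl
    rw [hh0, Pi.sub_apply, he.2 l hl, sub_zero]
    simp only [kk', if_neg hl]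
  have hx : ∀ x : Pl, ∃ lam : Tor L → Mt N, (∀ y, lam y ∈ su N) ∧ (x ∉ Λ → ∀ y, lam y = 0) ∧
      (x ∈ Λ → Cou P Q (fun y j => ta h0 x y j - dd (vac P Q) lam y j) ∧
        ∑ y, ∑ j, ‖ta h0 x y j - dd (vac P Q) lam y j‖ ^ 2 ≤
        C₂ * ∑ y, ‖crl (vac P Q) (ta h0 x) y‖ ^ 2) := by
    intro x
    by_cases hxΛ : x ∈ Λ
    · obtain ⟨lam, hl1, hl2, hl3⟩ := c2 (ta h0 x) fun y j => h0su _
      exact ⟨lam, hl1, fun h => absurd hxΛ h, fun _ => ⟨hl2, hl3⟩⟩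
    · exact ⟨fun _ => 0, fun y => su_zero, fun _ y => rfl, fun h => absurd h hxΛ⟩
  choose lam hlsu hloff hlam using hx
  obtain ⟨h, hh⟩ : ∃ h : Lk L → Mt N, h = h0 - Gg P Q lam := ⟨_, rfl⟩
  have hcu : ∀ p i j, cu P Q h p i j = cu P Q h0 p i j := by
    intro p i j
    rw [hh, cu_sub, cu_Gg hPQ, sub_zero]
  have hsu : ∀ l, h l ∈ su N := by
    intro l
    rw [hh, Pi.sub_apply, Gg]
    exact su_sub (h0su l) (su_sub (hlsu _ _) (adj_mem _ (hlsu _ _)))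
  have hoff : ∀ l, l ∉ Frl L Λ → h l = kk l := by
    intro l hl
    rw [mem_Frl] at hl
    push Not at hl
    have a1 : l.1.1 ∉ Λ := hl _ ((mem_st l _).2 (Or.inl rfl))
    have a2 : (nx l.1 l.2).1 ∉ Λ := hl _ ((mem_st l _).2 (Or.inr rfl))
    rw [hh, Pi.sub_apply, Gg, hloff _ a1, hloff _ a2, h0off l (by
      rw [mem_Frl]; push Not; exact hl)]
    simp [Adj]
  have hta : ∀ x, ta h x = fun y j => ta h0 x y j - dd (vac P Q) (lam x) y j := by
    intro x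
    funext y j
    fin_cases j
    · change ta h x y 0 = ta h0 x y 0 - dd (vac P Q) (lam x) y 0
      rw [ta0, ta0, hh, Pi.sub_apply, Gg, dd, vc2, nx2]
    · change ta h x y 1 = ta h0 x y 1 - dd (vac P Q) (lam x) y 1
      rw [ta1, ta1, hh, Pi.sub_apply, Gg, dd, vc3, nx3]
  have hcou : ∀ x ∈ Λ, Cou P Q (ta h x) := by
    intro x hxΛ
    rw [hta]
    exact (hlam x hxΛ).1
  -- the torus links
  have htor : ∀ x ∈ Λ, tor h x ≤ C₂ * bf P Q (x, 0) h h := by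
    intro x hxΛ
    have h1 := (hlam x hxΛ).2
    have e1 : ∑ y, ‖crl (vac P Q) (ta h0 x) y‖ ^ 2 = bf P Q (x, 0) h h := by
      rw [bf0]
      exact Finset.sum_congr rfl fun y _ => by rw [hcu, crl_ta]
    rw [e1] at h1
    refine le_trans (le_of_eq ?_) h1
    unfold tor
    refine Finset.sum_congr rfl fun y _ => ?_
    rw [Fin.sum_univ_two]
    have e2 : h ((x, y), 2) = ta h0 x y 0 - dd (vac P Q) (lam x) y 0 := by
      rw [hh, Pi.sub_apply, Gg, dd, vc2, nx2, ta0]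
    have e3 : h ((x, y), 3) = ta h0 x y 1 - dd (vac P Q) (lam x) y 1 := by
      rw [hh, Pi.sub_apply, Gg, dd, vc3, nx3, ta1]
    rw [← e2, ← e3]
  have hst : ∀ (x' : Pl) (y : Tor L) (j : Fin 4), j = 2 ∨ j = 3 →
      (st (((x', y), j) : Lk L)) = {x'} := by
    intro x' y j hj
    rcases hj with rfl | rfl <;> simp [st, pe, h00]
  have hCC : C₂' ≤ 3 * C₁' * (3 + 2 * C₂') + C₂' + 1 := by
    have : 0 ≤ 3 * C₁' * (3 + 2 * C₂') := by positivity
    linarith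
  have hC1C : C₁' ≤ 3 * C₁' * (3 + 2 * C₂') + C₂' + 1 := by
    have h1 : 0 ≤ C₁' * C₂' := by positivity
    have e1 : 3 * C₁' * (3 + 2 * C₂') + C₂' + 1 = 9 * C₁' + 6 * (C₁' * C₂') + C₂' + 1 := by ring
    rw [e1]
    linarith
  have hfo : ∀ a : Lk L → Mt N, (∀ l, a l ∈ su N) → (∀ l, l ∉ Frl L Λ → a l = 0) →
      ∑ τ ∈ tml Λ, bf P Q τ a h = 0 := by
    intro a ha1 ha2
    have h1 := hproj a ⟨ha1, ha2⟩
    rw [Bf_apply] at h1
    rw [← h1]
    exact Finset.sum_congr rfl fun τ _ => bf_eq_of_cu _ _ _ hcu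
  have hlast : ∀ l ∈ Frl L Λ, ‖h l‖ ^ 2 ≤ (3 * C₁' * (3 + 2 * C₂') + C₂' + 1) * (L : ℝ) ^ 4 *
      (∑ τ ∈ (tml Λ).filter (fun τ => cor τ ⊆ st l), bf P Q τ h h +
        ∑ l' ∈ (bdl L Λ).filter (fun l' => st l' ⊆ st l), ‖kk l'‖ ^ 2) := by
    intro l hl
    obtain ⟨S₁, hS1⟩ : ∃ S₁, S₁ = ∑ τ ∈ (tml Λ).filter (fun τ => cor τ ⊆ st l),
      bf P Q τ h h := ⟨_, rfl⟩
    obtain ⟨S₂, hS2⟩ : ∃ S₂, S₂ = ∑ l' ∈ (bdl L Λ).filter (fun l' => st l' ⊆ st l),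
      ‖kk l'‖ ^ 2 := ⟨_, rfl⟩
    rw [← hS1, ← hS2]
    have b1 : ∀ τ ∈ tml Λ, cor τ ⊆ st l → bf P Q τ h h ≤ S₁ := by
      intro τ hτ hc
      rw [hS1]
      exact Finset.single_le_sum (f := fun τ => bf P Q τ h h) (fun τ _ => bf_nonneg _ _ _ _)
        (Finset.mem_filter.2 ⟨hτ, hc⟩)
    have n1 : 0 ≤ S₁ := by
      rw [hS1]; exact Finset.sum_nonneg fun τ _ => bf_nonneg _ _ _ _
    have n2 : 0 ≤ S₂ := by
      rw [hS2]; exact Finset.sum_nonneg fun τ _ => by positivity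
    have b2 : ∀ x' ∈ st l, x' ∈ Λ → tor h x' ≤ C₂ * S₁ := by
      intro x' hx' hx'Λ
      refine (htor x' hx'Λ).trans (mul_le_mul_of_nonneg_left (b1 _ ?_ ?_) hC2p.le)
      · exact (mem_tml _ _).2 ⟨x', (mem_cor0 _ _).2 rfl, hx'Λ⟩
      · intro a ha
        rw [(mem_cor0 _ _).1 ha]
        exact hx'
    have hfin : (3 * C₁ * (3 + 2 * C₂) + C₂ + 1) ≤
        (3 * C₁' * (3 + 2 * C₂') + C₂' + 1) * (L : ℝ) ^ 4 := by
      have hL2 : (1 : ℝ) ≤ (L : ℝ) ^ 2 := one_le_pow₀ hL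
      have hL4 : (L : ℝ) ^ 2 ≤ (L : ℝ) ^ 4 := pow_le_pow_right₀ hL (by norm_num)
      have e1 : (3 * C₁' * (3 + 2 * C₂') + C₂' + 1) * (L : ℝ) ^ 4 - (3 * C₁ * (3 + 2 * C₂) + C₂ + 1) =
          9 * C₁' * ((L : ℝ) ^ 4 - (L : ℝ) ^ 2) + C₂' * ((L : ℝ) ^ 4 - (L : ℝ) ^ 2) +
            ((L : ℝ) ^ 4 - 1) := by
        rw [hC1e, hC2e]; ring
      have h1 : 0 ≤ 9 * C₁' * ((L : ℝ) ^ 4 - (L : ℝ) ^ 2) :=
        mul_nonneg (by positivity) (by linarith)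
      have h2 : 0 ≤ C₂' * ((L : ℝ) ^ 4 - (L : ℝ) ^ 2) := mul_nonneg (by positivity) (by linarith)
      linarith
    suffices hs : ‖h l‖ ^ 2 ≤ (3 * C₁ * (3 + 2 * C₂) + C₂ + 1) * (S₁ + S₂) by
      exact hs.trans (mul_le_mul_of_nonneg_right hfin (by linarith))
    obtain ⟨⟨x, y⟩, i⟩ := l
    by_cases hi : i = 0 ∨ i = 1
    · -- plane links
      have hτ : ∃ τ : Tm, cor τ = st (((x, y), i) : Lk L) ∧ bf P Q τ h h =
          ∑ y, (‖cu P Q h (x, y) i 2‖ ^ 2 + ‖cu P Q h (x, y) i 3‖ ^ 2) ∧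
          ∀ x' ∈ st (((x, y), i) : Lk L), ∀ (y' : Tor L) (j : Fin 4), j = 2 ∨ j = 3 →
            (((x', y'), j) : Lk L) ∈ (spt τ : Finset (Lk L)) := by
        rcases hi with rfl | rfl
        · refine ⟨(x, 1), ?_, bf1 _ _ _ _, ?_⟩
          · ext a
            rw [mem_cor1, mem_st]
            simp [pe]
          · intro x' hx' y' j hj
            rw [mem_spt1]
            rw [mem_st] at hx'
            refine ⟨y', ?_⟩
            rcases hx' with rfl | rfl <;> rcases hj with rfl | rfl <;> simp [pe]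
        · refine ⟨(x, 2), ?_, bf2 _ _ _ _, ?_⟩
          · ext a
            rw [mem_cor2, mem_st]
            simp [pe]
          · intro x' hx' y' j hj
            rw [mem_spt2]
            rw [mem_st] at hx'
            refine ⟨y', ?_⟩
            rcases hx' with rfl | rfl <;> rcases hj with rfl | rfl <;> simp [pe]
      obtain ⟨τ, hτ1, hτ2, hτ3⟩ := hτ
      have hτm : τ ∈ tml Λ := by
        rw [mem_tml, hτ1]
        exact (mem_Frl _ _).1 hl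
      have b3 : ∀ x' ∈ st (((x, y), i) : Lk L), tor h x' ≤ C₂ * S₁ + S₂ := by
        intro x' hx'
        by_cases hx'Λ : x' ∈ Λ
        · have := b2 x' hx' hx'Λ
          linarith
        · have c0 : ∀ (y' : Tor L) (j : Fin 4), j = 2 ∨ j = 3 →
              (((x', y'), j) : Lk L) ∉ Frl L Λ := by
            intro y' j hj
            rw [mem_Frl, hst x' y' j hj]
            simpa using hx'Λ
          have c3 : ∀ (y' : Tor L) (j : Fin 4), j = 2 ∨ j = 3 →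
              (((x', y'), j) : Lk L) ∈ (bdl L Λ).filter (fun l' => st l' ⊆ st ((x, y), i)) := by
            intro y' j hj
            rw [Finset.mem_filter, bdl, Finset.mem_sdiff, Finset.mem_biUnion]
            refine ⟨⟨⟨τ, hτm, hτ3 x' hx' y' j hj⟩, c0 y' j hj⟩, ?_⟩
            rw [hst x' y' j hj]
            simpa using hx'
          have c4 : tor h x' ≤ S₂ := by
            have c5 : tor h x' = ∑ l' ∈ (Finset.univ : Finset (Tor L × Fin 2)).image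
                (fun q => (((x', q.1), if q.2 = 0 then 2 else 3) : Lk L)), ‖kk l'‖ ^ 2 := by
              rw [Finset.sum_image]
              · rw [← Finset.univ_product_univ, Finset.sum_product]
                unfold tor
                refine Finset.sum_congr rfl fun y' _ => ?_
                rw [Fin.sum_univ_two, hoff _ (c0 y' 2 (Or.inl rfl)), hoff _ (c0 y' 3 (Or.inr rfl))]
                simp
              · rintro ⟨y1, j1⟩ _ ⟨y2, j2⟩ _ hq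
                simp only [Prod.mk.injEq, true_and] at hq
                obtain ⟨rfl, hq⟩ := hq
                fin_cases j1 <;> fin_cases j2 <;> simp_all
            rw [c5, hS2]
            refine Finset.sum_le_sum_of_subset_of_nonneg ?_ fun _ _ _ => by positivity
            intro l' hl'
            obtain ⟨⟨y', j'⟩, -, rfl⟩ := Finset.mem_image.1 hl'
            refine c3 y' _ ?_
            simp only
            split_ifs
            · exact Or.inl rfl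
            · exact Or.inr rfl
          have := mul_nonneg hC2p.le n1
          linarith
      have d1 := b3 x ((mem_st _ _).2 (Or.inl rfl))
      have d2 := b3 (x + pe i) ((mem_st _ _).2 (Or.inr rfl))
      have d3 := b1 τ hτm hτ1.subset
      rw [hτ2] at d3
      have d4 := plane hC1p c1 hsu x i hi
      have d5 : ‖h ((x, y), i)‖ ^ 2 ≤ ∑ y, ‖h ((x, y), i)‖ ^ 2 :=
        Finset.single_le_sum (f := fun y => ‖h ((x, y), i)‖ ^ 2) (fun _ _ => by positivity)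
          (Finset.mem_univ y)
      have d6 : 3 * C₁ * (∑ y, (‖cu P Q h (x, y) i 2‖ ^ 2 + ‖cu P Q h (x, y) i 3‖ ^ 2) +
          tor h x + tor h (x + pe i)) ≤ 3 * C₁ * (S₁ + (C₂ * S₁ + S₂) + (C₂ * S₁ + S₂)) := by
        gcongr
      have d7 : 3 * C₁ * (S₁ + (C₂ * S₁ + S₂) + (C₂ * S₁ + S₂)) ≤
          3 * C₁ * (3 + 2 * C₂) * (S₁ + S₂) := by
        have a1 := mul_nonneg hC1p.le n1
        have a2 := mul_nonneg hC1p.le n2
        have a3 := mul_nonneg (mul_nonneg hC1p.le hC2p.le) n2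
        have e1 : 3 * C₁ * (S₁ + (C₂ * S₁ + S₂) + (C₂ * S₁ + S₂)) =
          3 * (C₁ * S₁) + 6 * (C₁ * C₂ * S₁) + 6 * (C₁ * S₂) := by ring
        have e2 : 3 * C₁ * (3 + 2 * C₂) * (S₁ + S₂) = 9 * (C₁ * S₁) + 6 * (C₁ * C₂ * S₁) +
          9 * (C₁ * S₂) + 6 * (C₁ * C₂ * S₂) := by ring
        rw [e1, e2]
        linarith
      have d8 : 0 ≤ (C₂ + 1) * (S₁ + S₂) := by positivity
      calc ‖h ((x, y), i)‖ ^ 2 ≤ 3 * C₁ * (3 + 2 * C₂) * (S₁ + S₂) := by linarith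
        _ ≤ _ := by linarith
    · -- torus links
      have hi' : i = 2 ∨ i = 3 :=
        (by decide : ∀ i : Fin 4, ¬ (i = 0 ∨ i = 1) → i = 2 ∨ i = 3) i hi
      have hxΛ : x ∈ Λ := by
        rw [mem_Frl, hst x y i hi'] at hl
        simpa using hl
      have d1 := b2 x ((mem_st _ _).2 (Or.inl rfl)) hxΛ
      have d2 : ‖h ((x, y), i)‖ ^ 2 ≤ tor h x := by
        have d3 : ‖h ((x, y), i)‖ ^ 2 ≤ ‖h ((x, y), 2)‖ ^ 2 + ‖h ((x, y), 3)‖ ^ 2 := by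
          rcases hi' with rfl | rfl
          · nlinarith [sq_nonneg ‖h ((x, y), 3)‖]
          · nlinarith [sq_nonneg ‖h ((x, y), 2)‖]
        refine d3.trans ?_
        unfold tor
        exact Finset.single_le_sum (f := fun y => ‖h ((x, y), 2)‖ ^ 2 + ‖h ((x, y), 3)‖ ^ 2)
          (fun _ _ => by positivity) (Finset.mem_univ y)
      have d8 : 0 ≤ 3 * C₁ * (3 + 2 * C₂) * (S₁ + S₂) := by positivity
      have d9 := mul_nonneg hC2p.le n2
      have e1 : (3 * C₁ * (3 + 2 * C₂) + C₂ + 1) * (S₁ + S₂) =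
        3 * C₁ * (3 + 2 * C₂) * (S₁ + S₂) + C₂ * S₁ + C₂ * S₂ + S₁ + S₂ := by ring
      rw [e1]
      linarith


  have hcard : (Fintype.card (Tor L) : ℝ) = (L : ℝ) ^ 2 := by
    rw [Fintype.card_prod, ZMod.card]
    push_cast
    ring
  obtain ⟨C, hC⟩ : ∃ C : ℝ, C = 3 * C₁' * (3 + 2 * C₂') + C₂' + 1 := ⟨_, rfl⟩
  obtain ⟨K, hK⟩ : ∃ K : ℝ, K = ∑ l' ∈ bdl L Λ, ‖kk l'‖ ^ 2 := ⟨_, rfl⟩
  rw [← hC] at hlast hconst
  have hK0 : 0 ≤ K := by rw [hK]; positivity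
  refine ⟨h, hsu, hoff, hfo, fun x hxΛ mu hmu => hcou x hxΛ mu hmu, ?_⟩
  rw [← hC, ← hK]
  have hE : ∑ τ ∈ tml Λ, bf P Q τ h h ≤ 512 * (L : ℝ) ^ 2 * K := by
    have := PkgI.energy_total P Q Λ h kk hsu hoff hfo
    rw [← hK, hcard] at this
    linarith
  have hs1 : ∑ l ∈ Frl L Λ, ∑ τ ∈ (tml Λ).filter (fun τ => cor τ ⊆ st l), bf P Q τ h h ≤
      12 * (L : ℝ) ^ 2 * (512 * (L : ℝ) ^ 2 * K) := by
    have := PkgI.dc (Frl L Λ) (tml Λ) (fun l τ => cor τ ⊆ st l) (fun τ => bf P Q τ h h)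
      (fun τ _ => bf_nonneg _ _ _ _) (12 * (L : ℝ) ^ 2) fun τ _ => by
        rw [← hcard]; exact PkgI.cnt_lk _ τ
    exact this.trans (mul_le_mul_of_nonneg_left hE (by positivity))
  have hs2 : ∑ l ∈ Frl L Λ, ∑ l' ∈ (bdl L Λ).filter (fun l' => st l' ⊆ st l), ‖kk l'‖ ^ 2 ≤
      12 * (L : ℝ) ^ 2 * K := by
    have := PkgI.dc (Frl L Λ) (bdl L Λ) (fun l l' => st l' ⊆ st l) (fun l' => ‖kk l'‖ ^ 2)
      (fun _ _ => by positivity) (12 * (L : ℝ) ^ 2) fun l' _ => by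
        rw [← hcard]; exact PkgI1s.cnt_st _ l'
    rw [hK]
    exact this
  have hC0 : 0 ≤ C := by linarith
  have hL2 : (L : ℝ) ^ 2 ≤ (L : ℝ) ^ 4 := pow_le_pow_right₀ hL (by norm_num)
  have hL2K : (L : ℝ) ^ 2 * K ≤ (L : ℝ) ^ 4 * K := mul_le_mul_of_nonneg_right hL2 hK0
  calc ∑ l ∈ Frl L Λ, ‖h l‖ ^ 2 ≤ ∑ l ∈ Frl L Λ, C * (L : ℝ) ^ 4 *
      (∑ τ ∈ (tml Λ).filter (fun τ => cor τ ⊆ st l), bf P Q τ h h +
        ∑ l' ∈ (bdl L Λ).filter (fun l' => st l' ⊆ st l), ‖kk l'‖ ^ 2) :=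
        Finset.sum_le_sum hlast
    _ = C * (L : ℝ) ^ 4 * (∑ l ∈ Frl L Λ, ∑ τ ∈ (tml Λ).filter (fun τ => cor τ ⊆ st l),
          bf P Q τ h h +
        ∑ l ∈ Frl L Λ, ∑ l' ∈ (bdl L Λ).filter (fun l' => st l' ⊆ st l), ‖kk l'‖ ^ 2) := by
        rw [← Finset.mul_sum, Finset.sum_add_distrib]
    _ ≤ C * (L : ℝ) ^ 4 * (6156 * (L : ℝ) ^ 4 * K) := by
        refine mul_le_mul_of_nonneg_left ?_ (by positivity)
        have e1 : 12 * (L : ℝ) ^ 2 * (512 * (L : ℝ) ^ 2 * K) = 6144 * ((L : ℝ) ^ 4 * K) := by ring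
        have e2 : 12 * (L : ℝ) ^ 2 * K = 12 * ((L : ℝ) ^ 2 * K) := by ring
        rw [e1] at hs1
        rw [e2] at hs2
        linarith
    _ = 6156 * C * (L : ℝ) ^ 8 * K := by ring

end T2H02.TT
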