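import Pool.Agent.T2H02.TT.IsF

/-!
# Package Is : sharp exponential decay of the linear problem
-/

set_option autoImplicit false
set_option linter.unusedSectionVars false

noncomputable section

open MeasureTheory Matrix
open scoped Matrix.Norms.Frobenius

namespace T2H02.TT

namespace PkgIs

open PkgC PkgI1 PkgI1u

variable {N L : ℕ} [NeZero L]

/-- the weighted estimate at one site -/
lemma site_bound (b : Pl) (R : ℕ) (ρ : ℝ) (hρ : 0 ≤ ρ) (hρ2 : ρ ≤ 2) (hR : 2 ≤ R) (t : Pl → ℝ)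
    (δ T : ℝ) (hδ : 0 < δ)
    (h : δ * ∑' x, wt' b R ρ x ^ 2 * t x ^ 2 ≤ 2 * Real.exp (-(2 * ρ * R)) * T) {x : Pl}
    (hx : ds b x ≤ 2) : δ * t x ^ 2 ≤ 2 * Real.exp 8 * Real.exp (-(2 * ρ * R)) * T := by
  have sm : Summable fun x => wt' b R ρ x ^ 2 * t x ^ 2 := smb b R fun x hx => by
    rw [wt'_zero hx]; ring
  have h1 : wt' b R ρ x ^ 2 * t x ^ 2 ≤ ∑' x, wt' b R ρ x ^ 2 * t x ^ 2 :=
    sm.le_tsum x fun z _ => by positivity
  have h2 : Real.exp (-8) ≤ wt' b R ρ x ^ 2 := by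
    unfold wt'
    rw [if_pos (by omega), ← Real.exp_nat_mul, Real.exp_le_exp]
    have h3 : ((max (ds b x) 1 : ℕ) : ℝ) ≤ 2 := by
      have : max (ds b x) 1 ≤ 2 := by omega
      exact_mod_cast this
    have h4 : (0 : ℝ) ≤ (max (ds b x) 1 : ℕ) := by positivity
    push_cast at h3 h4 ⊢
    nlinarith
  have h3 : Real.exp (-8) * t x ^ 2 ≤ wt' b R ρ x ^ 2 * t x ^ 2 :=
    mul_le_mul_of_nonneg_right h2 (sq_nonneg _)
  have h4 : δ * (Real.exp (-8) * t x ^ 2) ≤ 2 * Real.exp (-(2 * ρ * R)) * T :=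
    (mul_le_mul_of_nonneg_left (h3.trans h1) hδ.le).trans h
  have h5 : Real.exp 8 * Real.exp (-8) = 1 := by
    rw [← Real.exp_add]; norm_num
  have h6 := mul_le_mul_of_nonneg_left h4 (Real.exp_pos 8).le
  calc δ * t x ^ 2 = Real.exp 8 * (δ * (Real.exp (-8) * t x ^ 2)) := by
        rw [show Real.exp 8 * (δ * (Real.exp (-8) * t x ^ 2)) =
          (Real.exp 8 * Real.exp (-8)) * (δ * t x ^ 2) by ring, h5, one_mul]
    _ ≤ Real.exp 8 * (2 * Real.exp (-(2 * ρ * R)) * T) := h6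
    _ = _ := by ring

end PkgIs

open PkgC PkgI1 PkgI1u PkgIs

theorem pIs (hI1 : S_I1s) (hC1 : S_C1s) (hC2 : S_C2s) : S_Is := by
  intro N k hN hk ε hε0 hε1 P Q hPQ
  obtain ⟨C, K, hC, hI⟩ := hI1 N k hN hk P Q hPQ
  have c1 := hC1 N k hN hk P Q hPQ
  have c2 := hC2 N k hN hk P Q hPQ
  obtain ⟨A, hA⟩ : ∃ A : ℝ, A = Real.exp 32 + 128 * Real.exp 24 * (N : ℝ) ^ 6 / ε := ⟨_, rfl⟩
  have hA0 : 0 ≤ 128 * Real.exp 24 * (N : ℝ) ^ 6 / ε := by positivity
  have hA1 : 1 ≤ A := by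
    rw [hA]
    have := Real.one_le_exp (show (0 : ℝ) ≤ 32 by norm_num)
    linarith
  refine ⟨C * A, K + 6, ?_, ?_⟩
  · nlinarith
  intro L _ Λ kk hkk
  obtain ⟨h, h1, h2, h3, h4, h5⟩ := hI L Λ kk hkk
  have hL1 : 1 ≤ L := Nat.one_le_iff_ne_zero.2 (NeZero.ne L)
  have hL : (1 : ℝ) ≤ L := by exact_mod_cast hL1
  obtain ⟨K₀, hK₀⟩ : ∃ K₀ : ℝ, K₀ = ∑ l' ∈ bdl L Λ, ‖kk l'‖ ^ 2 := ⟨_, rfl⟩
  have hK0 : 0 ≤ K₀ := by rw [hK₀]; positivity
  obtain ⟨H, hH⟩ : ∃ H : ℝ, H = ∑ l ∈ Frl L Λ, ‖h l‖ ^ 2 := ⟨_, rfl⟩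
  have hH0 : 0 ≤ H := by rw [hH]; positivity
  rw [← hK₀, ← hH] at h5
  rw [← hK₀]
  have hCL : 0 ≤ C * (L : ℝ) ^ K := by positivity
  -- all bounds in terms of `H`
  have hfin : ∀ (c : ℝ) (v : ℝ), 0 ≤ c → v ≤ A * (L : ℝ) ^ 6 * c * H →
      v ≤ C * A * (L : ℝ) ^ (K + 6) * c * K₀ := by
    intro c v hc hv
    refine hv.trans ?_
    have := mul_le_mul_of_nonneg_left h5 (show 0 ≤ A * (L : ℝ) ^ 6 * c by positivity)
    refine this.trans (le_of_eq ?_)
    ring
  have hbd : ∀ l ∈ Frl L Λ, ‖h l‖ ^ 2 ≤ H := by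
    intro l hl
    rw [hH]
    exact Finset.single_le_sum (f := fun l => ‖h l‖ ^ 2) (fun _ _ => by positivity) hl
  have hAL : 1 ≤ A * (L : ℝ) ^ 6 := by
    have := one_le_pow₀ hL (n := 6)
    nlinarith
  refine ⟨h, h1, h2, h3, fun l hl => ?_, ?_⟩
  · have := hfin 1 (‖h l‖ ^ 2) zero_le_one (by
      refine (hbd l hl).trans ?_
      rw [mul_one]
      nlinarith)
    rwa [mul_one] at this
  intro B R hBΛ hz l hl
  obtain ⟨ρ, hρ⟩ : ∃ ρ : ℝ, ρ = (1 - ε) * mgp N L := ⟨_, rfl⟩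
  have hm := mgp_range hN hL1
  have hρ0 : 0 ≤ ρ := by
    rw [hρ]
    exact mul_nonneg (by linarith) hm.1
  have hρ2 : ρ ≤ 2 := by
    rw [hρ]
    nlinarith [hm.1, hm.2]
  have hgoal : ‖h l‖ ^ 2 ≤ A * (L : ℝ) ^ 6 * Real.exp (-(2 * ρ * R)) * H := by
    rcases Nat.lt_or_ge R 8 with hR | hR
    · -- small `R`
      refine (hbd l (PkgI.Frl_mono hBΛ hl)).trans ?_
      have e1 : 1 ≤ Real.exp 32 * Real.exp (-(2 * ρ * R)) := by
        rw [← Real.exp_add]
        apply Real.one_le_exp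
        have : (R : ℝ) ≤ 8 := by exact_mod_cast hR.le
        have hR0 : (0 : ℝ) ≤ R := Nat.cast_nonneg R
        nlinarith
      have e2 : Real.exp 32 ≤ A * (L : ℝ) ^ 6 := by
        have a1 : Real.exp 32 ≤ A := by rw [hA]; linarith
        have a2 := one_le_pow₀ hL (n := 6)
        nlinarith
      have e3 : 1 ≤ A * (L : ℝ) ^ 6 * Real.exp (-(2 * ρ * R)) :=
        e1.trans (mul_le_mul_of_nonneg_right e2 (Real.exp_pos _).le)
      nlinarith
    -- the main case
    obtain ⟨b, hb, hbB⟩ := (mem_Frl B l).1 hl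
    obtain ⟨R', hR'⟩ : ∃ R', R' = R - 4 := ⟨_, rfl⟩
    have hbΛ : b ∈ Λ := hBΛ hbB
    have hball : ∀ c, ds b c ≤ R → c ∈ bal R B := by
      intro c hc
      have h6 := mem_bal1.2 hc
      rw [PkgI.mem_bal] at h6 ⊢
      obtain ⟨b', hb', h7⟩ := h6
      rw [Finset.mem_singleton] at hb'
      exact ⟨b, hbB, by rwa [hb'] at h7⟩
    have hz' : ∀ l, l ∉ Frl L Λ → (∀ c ∈ st l, ds b c ≤ R' + 3) → h l = 0 := by
      intro l hl hc
      rw [h2 l hl]
      exact hz l hl fun c hc' => hball c (by have := hc c hc'; omega)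
    have hcou : ∀ x, ds b x ≤ R' + 3 → Cou P Q (ta h x) := by
      intro x hx
      by_cases hxΛ : x ∈ Λ
      · exact h4 x hxΛ
      · refine cou_zero P Q fun y j => ?_
        have hst : ∀ i : Fin 4, i = 2 ∨ i = 3 → h ((x, y), i) = 0 := by
          intro i hi
          have hpe : pe i = 0 := by
            rcases hi with rfl | rfl <;> simp [pe, h00]
          refine hz' _ ?_ ?_
          · rw [mem_Frl', hpe, add_zero]
            tauto
          · intro c hc
            rw [mem_st] at hc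
            simp only [hpe, add_zero, or_self] at hc
            rw [hc]
            exact hx
        fin_cases j
        · exact (ta0 h x y).trans (hst 2 (Or.inl rfl))
        · exact (ta1 h x y).trans (hst 3 (Or.inr rfl))
    obtain ⟨μ, hμ⟩ : ∃ μ : ℝ, μ = mu2 N L := ⟨_, rfl⟩
    have hμL : 1 ≤ μ * ((N : ℝ) * L) ^ 2 := by rw [hμ]; exact mu2_low hN hL1
    have hμ0 : 0 < μ := by
      by_contra hc
      push Not at hc
      have : μ * ((N : ℝ) * L) ^ 2 ≤ 0 := mul_nonpos_of_nonpos_of_nonneg hc (by positivity)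
      linarith
    have hδ : Real.exp ρ + Real.exp (-ρ) - 2 + ε * μ ≤ μ := by
      have := conv_rate (1 - ε) (mgp N L) (by linarith) (by linarith)
      rw [mgp_eq, ← hρ, ← hμ] at this
      linarith
    have hεμ : 0 < ε * μ := mul_pos hε0 hμ0
    have c1' : ∀ lam : Tor L → Mt N, (∀ y, (lam y).trace = 0) →
        μ * ∑ y, ‖lam y‖ ^ 2 ≤ ∑ y, ∑ j, ‖dd (vac P Q) lam y j‖ ^ 2 := by
      rw [hμ]
      exact fun lam => c1 L lam
    -- the two decay estimates
    have d1 := decay b R' ρ hρ0 (tt h) (fun x => ∑ y, ‖cu P Q h (x, y) 2 3‖ ^ 2)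
      (fun x => Real.sqrt_nonneg _) μ (ε * μ) hδ (fun x hx => by
        rw [tt_sq, hμ]
        refine (c2 L (ta h x) (fun y j => h1 _) (hcou x (by omega))).trans (le_of_eq ?_)
        exact Finset.sum_congr rfl fun y _ => by rw [crl_ta])
      (torus_main P Q Λ h h1 h3 b R' ρ hz' hcou)
    have d2 := decay b R' ρ hρ0 (tf h) (fun x => ∑ y, ∑ j, ‖dd (vac P Q) (FF h x) y j‖ ^ 2)
      (fun x => Real.sqrt_nonneg _) μ (ε * μ) hδ (fun x hx => by
        rw [tf_sq]
        exact c1' (FF h x) fun y => (FF_su h h1 x y).2)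
      (plane_main P Q Λ h h1 h3 b R' ρ hz' hcou)
    have t1 := torus_total Λ h b R' hz'
    have t2 := plane_total Λ h b R' hz'
    rw [← hH] at t1 t2
    have d1' : ε * μ * ∑' x, wt' b R' ρ x ^ 2 * tt h x ^ 2 ≤
        2 * Real.exp (-(2 * ρ * R')) * (2 * H) :=
      d1.trans (mul_le_mul_of_nonneg_left t1 (by positivity))
    have d2' : ε * μ * ∑' x, wt' b R' ρ x ^ 2 * tf h x ^ 2 ≤
        2 * Real.exp (-(2 * ρ * R')) * (16 * H) :=
      d2.trans (mul_le_mul_of_nonneg_left t2 (by positivity))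
    have eR : Real.exp (-(2 * ρ * R')) ≤ Real.exp 16 * Real.exp (-(2 * ρ * R)) := by
      rw [← Real.exp_add, Real.exp_le_exp, hR', Nat.cast_sub (by omega)]
      push_cast
      nlinarith
    have b1 : ∀ x, ds b x ≤ 2 → ε * μ * tt h x ^ 2 ≤
        4 * Real.exp 24 * Real.exp (-(2 * ρ * R)) * H := by
      intro x hx
      have := site_bound b R' ρ hρ0 hρ2 (by omega) (tt h) _ _ hεμ d1' hx
      refine this.trans ?_
      have e1 : Real.exp 24 = Real.exp 8 * Real.exp 16 := by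
        rw [← Real.exp_add]; norm_num
      rw [e1]
      have := mul_le_mul_of_nonneg_left eR (show 0 ≤ 4 * Real.exp 8 * H by positivity)
      linarith
    have b2 : ∀ x, ds b x ≤ 2 → ε * μ * tf h x ^ 2 ≤
        32 * Real.exp 24 * Real.exp (-(2 * ρ * R)) * H := by
      intro x hx
      have := site_bound b R' ρ hρ0 hρ2 (by omega) (tf h) _ _ hεμ d2' hx
      refine this.trans ?_
      have e1 : Real.exp 24 = Real.exp 8 * Real.exp 16 := by
        rw [← Real.exp_add]; norm_num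
      rw [e1]
      have := mul_le_mul_of_nonneg_left eR (show 0 ≤ 32 * Real.exp 8 * H by positivity)
      linarith
    obtain ⟨E, hE⟩ : ∃ E : ℝ, E = Real.exp (-(2 * ρ * R)) * H := ⟨_, rfl⟩
    have hE0 : 0 ≤ E := by rw [hE]; positivity
    have hNL : 1 ≤ (N : ℝ) * L := by
      have hN' : (2 : ℝ) ≤ N := by exact_mod_cast hN
      nlinarith
    -- it suffices to bound `ε μ³ ‖h l‖²`
    have hsuff : ε * μ ^ 3 * ‖h l‖ ^ 2 ≤ 128 * Real.exp 24 * E → ‖h l‖ ^ 2 ≤
        A * (L : ℝ) ^ 6 * Real.exp (-(2 * ρ * R)) * H := by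
      intro hs
      have e1 : 1 ≤ μ ^ 3 * ((N : ℝ) ^ 6 * (L : ℝ) ^ 6) := by
        have := one_le_pow₀ hμL (n := 3)
        refine this.trans (le_of_eq ?_)
        ring
      have e2 : ε * ‖h l‖ ^ 2 ≤ 128 * Real.exp 24 * E * ((N : ℝ) ^ 6 * (L : ℝ) ^ 6) := by
        have a1 := mul_le_mul_of_nonneg_right hs
          (show 0 ≤ (N : ℝ) ^ 6 * (L : ℝ) ^ 6 by positivity)
        have a2 := mul_le_mul_of_nonneg_left e1 (show 0 ≤ ε * ‖h l‖ ^ 2 by positivity)
        linarith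
      have e3 : ‖h l‖ ^ 2 ≤ 128 * Real.exp 24 * (N : ℝ) ^ 6 / ε * (L : ℝ) ^ 6 * E := by
        have : 128 * Real.exp 24 * (N : ℝ) ^ 6 / ε * (L : ℝ) ^ 6 * E =
            (128 * Real.exp 24 * E * ((N : ℝ) ^ 6 * (L : ℝ) ^ 6)) / ε := by ring
        rw [this, le_div_iff₀ hε0]
        linarith
      refine e3.trans ?_
      have e4 : 128 * Real.exp 24 * (N : ℝ) ^ 6 / ε ≤ A := by
        rw [hA]
        have := Real.exp_pos 32
        linarith
      have e5 := mul_le_mul_of_nonneg_right e4 (show 0 ≤ (L : ℝ) ^ 6 * E by positivity)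
      rw [hE] at e5 ⊢
      linarith
    -- the link
    obtain ⟨⟨x, y⟩, i⟩ := l
    rw [mem_st] at hb
    have hi4 : i = 0 ∨ i = 1 ∨ i = 2 ∨ i = 3 := by
      fin_cases i <;> simp
    have hds0 : ds b b = 0 := by unfold ds; simp
    have hlΛ := PkgI.Frl_mono hBΛ hl
    have hfree := (mem_Frl' Λ x y i).1 hlΛ
    have hμ4 : μ ≤ 4 := by
      rw [hμ]
      unfold mu2
      have := Real.sin_sq_le_one (Real.pi / (N * L))
      linarith
    rcases hi4 with rfl | rfl | hi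
    · -- plane link, direction 0
      have hb' : b = x ∨ b = x + (1, 0) := hb
      have hx1 : ds b x ≤ 1 := by
        rcases hb' with h0 | h0
        · rw [← h0, hds0]; omega
        · have := ds_add0 b x
          rw [← h0, hds0] at this
          omega
      have hx2 : ds b (x + pe 0) ≤ 2 := by
        have := (ds_add0 b x).2
        change ds b (x + (1, 0)) ≤ 2
        omega
      have hx3 : ds b (x - (0, 1)) ≤ 2 := by
        have := (ds_sub1 b x).2
        omega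
      have hpe := plane_end0 P Q Λ h h1 h3 x hfree (hcou x (by omega)) (hcou _ (by omega))
      have hlb := link_bound hμ0 c1' h (pk h x 0) (fun y => h1 _) x (x - (0, 1)) hpe
      have hle : ‖h ((x, y), 0)‖ ^ 2 ≤ ∑ y, ‖pk h x 0 y‖ ^ 2 :=
        Finset.single_le_sum (f := fun y => ‖pk h x 0 y‖ ^ 2) (fun _ _ => by positivity)
          (Finset.mem_univ y)
      apply hsuff
      have f1 := b2 x (by omega)
      have f2 := b2 _ hx3
      have f3 := mul_le_mul_of_nonneg_left ((mul_le_mul_of_nonneg_left hle (sq_nonneg μ)).trans hlb)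
        hεμ.le
      rw [hE]
      calc ε * μ ^ 3 * ‖h ((x, y), 0)‖ ^ 2 = ε * μ * (μ ^ 2 * ‖h ((x, y), 0)‖ ^ 2) := by ring
        _ ≤ ε * μ * (2 * (tf h x ^ 2 + tf h (x - (0, 1)) ^ 2)) := f3
        _ ≤ _ := by linarith
    · -- plane link, direction 1
      have hb' : b = x ∨ b = x + (0, 1) := hb
      have hx1 : ds b x ≤ 1 := by
        rcases hb' with h0 | h0
        · rw [← h0, hds0]; omega
        · have := ds_add1 b x
          rw [← h0, hds0] at this
          omega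
      have hx2 : ds b (x + pe 1) ≤ 2 := by
        have := (ds_add1 b x).2
        change ds b (x + (0, 1)) ≤ 2
        omega
      have hx3 : ds b (x - (1, 0)) ≤ 2 := by
        have := (ds_sub0 b x).2
        omega
      have hpe := plane_end1 P Q Λ h h1 h3 x hfree (hcou x (by omega)) (hcou _ (by omega))
      have hlb := link_bound hμ0 c1' h (pk h x 1) (fun y => h1 _) (x - (1, 0)) x hpe
      have hle : ‖h ((x, y), 1)‖ ^ 2 ≤ ∑ y, ‖pk h x 1 y‖ ^ 2 :=
        Finset.single_le_sum (f := fun y => ‖pk h x 1 y‖ ^ 2) (fun _ _ => by positivity)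
          (Finset.mem_univ y)
      apply hsuff
      have f1 := b2 x (by omega)
      have f2 := b2 _ hx3
      have f3 := mul_le_mul_of_nonneg_left ((mul_le_mul_of_nonneg_left hle (sq_nonneg μ)).trans hlb)
        hεμ.le
      rw [hE]
      calc ε * μ ^ 3 * ‖h ((x, y), 1)‖ ^ 2 = ε * μ * (μ ^ 2 * ‖h ((x, y), 1)‖ ^ 2) := by ring
        _ ≤ ε * μ * (2 * (tf h (x - (1, 0)) ^ 2 + tf h x ^ 2)) := f3
        _ ≤ _ := by linarith
    · -- torus link
      have hpe : pe i = 0 := by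
        rcases hi with rfl | rfl <;> simp [pe, h00]
      have hbx : b = x := by
        simp only [hpe, add_zero, or_self] at hb
        exact hb
      have hle : ‖h ((x, y), i)‖ ^ 2 ≤ tt h x ^ 2 := by
        rw [tt_sq]
        refine le_trans ?_ (Finset.single_le_sum (f := fun y => ∑ j, ‖ta h x y j‖ ^ 2)
          (fun _ _ => by positivity) (Finset.mem_univ y))
        rw [Fin.sum_univ_two, ta0, ta1]
        rcases hi with rfl | rfl
        · nlinarith [sq_nonneg ‖h ((x, y), 3)‖]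
        · nlinarith [sq_nonneg ‖h ((x, y), 2)‖]
      apply hsuff
      have f1 := b1 x (by rw [hbx, ← hbx, hds0]; omega)
      rw [hE]
      have f2 : μ ^ 2 ≤ 16 := by nlinarith
      have f3 := mul_le_mul_of_nonneg_left hle hεμ.le
      have f4 : 0 ≤ 4 * Real.exp 24 * Real.exp (-(2 * ρ * R)) * H := by positivity
      calc ε * μ ^ 3 * ‖h ((x, y), i)‖ ^ 2 = μ ^ 2 * (ε * μ * ‖h ((x, y), i)‖ ^ 2) := by ring
        _ ≤ μ ^ 2 * (4 * Real.exp 24 * Real.exp (-(2 * ρ * R)) * H) :=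
          mul_le_mul_of_nonneg_left (f3.trans f1) (sq_nonneg μ)
        _ ≤ 16 * (4 * Real.exp 24 * Real.exp (-(2 * ρ * R)) * H) :=
          mul_le_mul_of_nonneg_right f2 f4
        _ ≤ _ := by linarith
  have := hfin (Real.exp (-(2 * ρ * R))) (‖h l‖ ^ 2) (Real.exp_pos _).le hgoal
  rwa [hρ] at this

end T2H02.TT
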