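import Pool.Agent.T2H02.TT.StmW
import Pool.Agent.T2H02.TT.M0u

/-!
# Package M0g : the deterministic comparison with a general rate
-/

set_option autoImplicit false

noncomputable section

open MeasureTheory Matrix
open scoped Matrix.Norms.Frobenius

namespace T2H02.TT

open PkgM0 PkgM0u in
theorem pM0g (hE4 : S_E4) (hK : S_Ku) (hL1 : S_L1u) (hL3 : S_L3u) : S_M0g := by
  intro N k hN hk rt hrt hI P Q hPQ E C₀ hGE
  obtain ⟨hEm, -, -, hEn, -, ⟨CE, hCE, hEe⟩, -⟩ := hE4 N hN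
  obtain ⟨hC0, hEc, hE0, hEa, hEp⟩ := hGE
  obtain ⟨CK, KK, hCK, hK'⟩ := hK N k hN hk P Q hPQ E C₀ hEc hE0 hEp
  obtain ⟨CL, KL, hCL, hL1'⟩ := hL1 N k hN hk P Q hPQ
  obtain ⟨C3, K3, hC3, hL3a⟩ := hL3 N hN P Q
  obtain ⟨CI, KI, hCI, hI'⟩ := hI P Q hPQ
  have hCK0 : 0 ≤ CK := by linarith
  have hCL0 : 0 ≤ CL := by linarith
  have hC30 : 0 ≤ C3 := by linarith
  have hCI0 : 0 ≤ CI := by linarith
  refine ⟨(4 + CK + 2 * CE) ^ 2 * (320 * CI + 4) + (CK + 2) ^ 2 * (320 * CI + 4) +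
    16 * (2 * CL * (4 + CK + 2 * CE) ^ 3 * (320 * CI + 4) ^ 2 + 5 / 2 * C3 * (320 * CI + 4)) + 1,
    3 * KK + 2 * (KI + 2) + KL + K3, ?_, ?_⟩
  · have : 0 ≤ (4 + CK + 2 * CE) ^ 2 * (320 * CI + 4) + (CK + 2) ^ 2 * (320 * CI + 4) +
        16 * (2 * CL * (4 + CK + 2 * CE) ^ 3 * (320 * CI + 4) ^ 2 +
          5 / 2 * C3 * (320 * CI + 4)) := by positivity
    linarith
  intro L _ Λ B R ρ σ σ' hBΛ hΛB hρ hsmall hnear hagree
  have hL1r : (1 : ℝ) ≤ L := by exact_mod_cast Nat.one_le_iff_ne_zero.2 (NeZero.ne L)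
  have hL0 : (0 : ℝ) < L := by linarith
  have hpow : ∀ n : ℕ, (1 : ℝ) ≤ (L : ℝ) ^ n := fun n => one_le_pow₀ hL1r
  obtain ⟨-, -, -, hL3b⟩ := pL3 N L hN P Q
  have H : Frm P Q L (C3 * (L : ℝ) ^ K3) :=
    ⟨fun τ a b r s hr hs h => hL3a L τ a b r s hr hs h,
      fun τ a b c => (hL3b τ a b c).1, fun τ a b => (hL3b τ a b a).2⟩
  have harith := arith (CK := CK) (CL := CL) (C3 := C3) (A1 := 4 + CK + 2 * CE) (A2 := 320 * CI + 4)
    (K1 := 3 + CK * (L : ℝ) ^ KK + 1 + 2 * CE)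
    (C' := 4 * (CI * (L : ℝ) ^ KI) * (80 * Fintype.card (Tor L)) + 4)
    (a := (L : ℝ) ^ KK) (b := (L : ℝ) ^ (KI + 2)) (l := (L : ℝ) ^ KL) (d := (L : ℝ) ^ K3)
    hCK0 hCL0 hC30 (by positivity) (by positivity) (by positivity) (by positivity)
    (by
      have h1 := hpow KK
      have h2 : 2 * CE * 1 ≤ 2 * CE * (L : ℝ) ^ KK := mul_le_mul_of_nonneg_left h1 (by positivity)
      nlinarith)
    (by
      rw [card_tor]
      have h1 := hpow (KI + 2)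
      have e : 4 * (CI * (L : ℝ) ^ KI) * (80 * (L : ℝ) ^ 2) = 320 * CI * (L : ℝ) ^ (KI + 2) := by
        rw [pow_add]; ring
      rw [e]
      nlinarith)
    (hpow _) (hpow _) (hpow _) (hpow _)
  have hW : ((L : ℝ) ^ KK) ^ 3 * ((L : ℝ) ^ (KI + 2)) ^ 2 * (L : ℝ) ^ KL * (L : ℝ) ^ K3 =
      (L : ℝ) ^ (3 * KK + 2 * (KI + 2) + KL + K3) := by
    rw [← pow_mul, ← pow_mul, ← pow_add, ← pow_add, ← pow_add]
    congr 1
    ring
  rw [hW] at harith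
  exact fixedL (T := fun R : ℕ => Real.exp (-(rt L * R))) hCE
    (CK := CK * (L : ℝ) ^ KK) (CL := CL * (L : ℝ) ^ KL) (C3 := C3 * (L : ℝ) ^ K3)
    (CI := CI * (L : ℝ) ^ KI) (by positivity)
    (by nlinarith [hpow KL]) (by nlinarith [hpow K3]) (by nlinarith [hpow KI])
    hEm hEn hEe (fun h ρ X h1 h2 h3 => hK' L h ρ X h1 h2 h3)
    (fun τ X a ρ h1 h2 h3 => hL1' L τ X a ρ h1 h2 h3) H
    (fun R => (Real.exp_pos _).le)
    (fun R => by
      rw [Real.exp_le_one_iff]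
      have : 0 ≤ rt L * (R : ℝ) := mul_nonneg (hrt L) (Nat.cast_nonneg R)
      linarith)
    (fun Λ kk hkk => by
      obtain ⟨h, h1, h2, h3, h4, h5⟩ := hI' L Λ kk hkk
      refine ⟨h, h1, h2, h3, h4, fun B R hB h6 l hl => (h5 B R hB h6 l hl).trans (le_of_eq ?_)⟩
      have e : Real.exp (-(rt L * R)) ^ 2 = Real.exp (-(2 * rt L * R)) := by
        rw [← Real.exp_nat_mul]
        congr 1
        push_cast
        ring
      rw [e])
    rfl rfl rfl harith Λ B R ρ σ σ' hBΛ hρ hsmall hnear hagree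

end T2H02.TT
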