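import Pool.Agent.T2H02.TT.StmW
import Pool.Agent.T2H02.TT.M1u

/-!
# Package M1g : comparison of kernels, boundary values near the vacuum, with the rate `rt L`

Port of M1u (the theorem `PkgM1u.core` has a general function `T R` in place of the exponential).
-/

set_option autoImplicit false
set_option linter.unusedSectionVars false
set_option linter.unusedVariables false
set_option linter.unusedSimpArgs false

noncomputable section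

open MeasureTheory Matrix
open scoped Matrix.Norms.Frobenius

namespace T2H02.TT

open PkgM1 PkgM1u

theorem pM1g (hB0 : S_B0) (hD1 : S_D1u) (hE4 : S_E4) (hG : S_Gu) (hG3 : S_G3u) (hJ : S_Ju)
    (hJI : S_JI) (hJM : S_JM) (hL2 : S_L2u) : S_M1g := by
  intro N k hN hk rt hrt hM0 P Q hPQ
  obtain ⟨-, -, -, -, -, -, E, C₀, hC₀, hEc, hE0, hEa, hEb⟩ := hE4 N hN
  obtain ⟨CG, KG, D, hCG, HG⟩ := hG N k hN hk
  obtain ⟨C3, K3, hC3, HG3⟩ := hG3 N k hN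
  obtain ⟨CD, KD, hCD, HD⟩ := hD1 N k hN hk P Q hPQ
  obtain ⟨CJ, KJ, hCJ, HJ⟩ := hJ N k hN hk P Q hPQ
  obtain ⟨CL, hCL, HL⟩ := hL2 N k hN P Q
  obtain ⟨CM, KM, hCM, HM⟩ := hM0 P Q hPQ E C₀ ⟨hC₀, hEc, hE0, hEa, hEb⟩
  obtain ⟨a7, ha7⟩ : ∃ a7 : ℝ, a7 = (CJ + 1) * (CD + 4) * (144 * CG * C3 + 1) := ⟨_, rfl⟩
  obtain ⟨k7, hk7⟩ : ∃ k7 : ℕ, k7 = KJ + (KD + 2) + (KG + K3) := ⟨_, rfl⟩
  obtain ⟨aM, haM⟩ : ∃ aM : ℝ, aM = CM + CM * CL ^ 2 + CL ^ 2 := ⟨_, rfl⟩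
  have hCG0 : 0 ≤ CG := by linarith
  have hC30 : 0 ≤ C3 := by linarith
  have hCM0 : 0 ≤ CM := by linarith
  have hCD0 : 0 ≤ CD := by linarith
  have hCJ0 : 0 ≤ CJ := by linarith
  have ha70 : 0 ≤ a7 := by rw [ha7]; positivity
  have haM0 : 0 ≤ aM := by rw [haM]; positivity
  have hN0 : (0 : ℝ) ≤ N := Nat.cast_nonneg N
  obtain ⟨C, hC⟩ : ∃ C : ℝ, C = aM * a7 + a7 + 2 * CM + 32 * N + CL + CG := ⟨_, rfl⟩
  have haMa : 0 ≤ aM * a7 := by positivity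
  have hC1 : 1 ≤ C := by rw [hC]; linarith
  have hCp : 0 < C := by linarith
  refine ⟨C, k7 + KM, D, hC1, ?_⟩
  intro L _
  have hpow : ∀ (x : ℝ) (a b : ℕ), 0 ≤ x → a ≤ b → x * (L : ℝ) ^ a ≤ x * (L : ℝ) ^ b :=
    fun x a b hx hab => mul_le_mul_of_nonneg_left (pw_le hab) hx
  have hone : ∀ (x : ℝ) (a : ℕ), 1 ≤ x → 1 ≤ x * (L : ℝ) ^ a := by
    intro x a hx
    have := pw_one (L := L) a
    nlinarith
  have hL0 : ∀ a : ℕ, 0 ≤ (L : ℝ) ^ a := fun a => by positivity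
  -- constants
  obtain ⟨C6, hC6⟩ : ∃ C6 : ℝ, C6 = (CJ * (L : ℝ) ^ KJ + 1) *
    (CD * (L : ℝ) ^ KD + 2 * (L : ℝ) ^ 2 + 2) := ⟨_, rfl⟩
  have h61 : CJ * (L : ℝ) ^ KJ + 1 ≤ (CJ + 1) * (L : ℝ) ^ KJ := by
    have := pw_one (L := L) KJ
    nlinarith
  have h62 : CD * (L : ℝ) ^ KD + 2 * (L : ℝ) ^ 2 + 2 ≤ (CD + 4) * (L : ℝ) ^ (KD + 2) := by
    have e1 := hpow CD KD (KD + 2) hCD0 (by omega)
    have e2 := hpow 2 2 (KD + 2) (by norm_num) (by omega)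
    have e3 := pw_one (L := L) (KD + 2)
    linarith
  have hC6le : C6 ≤ (CJ + 1) * (CD + 4) * (L : ℝ) ^ (KJ + (KD + 2)) := by
    rw [hC6, pow_add]
    calc (CJ * (L : ℝ) ^ KJ + 1) * (CD * (L : ℝ) ^ KD + 2 * (L : ℝ) ^ 2 + 2)
        ≤ ((CJ + 1) * (L : ℝ) ^ KJ) * ((CD + 4) * (L : ℝ) ^ (KD + 2)) :=
          mul_le_mul h61 h62 (by positivity) (by positivity)
      _ = _ := by ring
  have hC61 : 1 ≤ C6 := by
    rw [hC6]
    have e1 : 0 ≤ CJ * (L : ℝ) ^ KJ := by positivity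
    have e2 : 0 ≤ CD * (L : ℝ) ^ KD + 2 * (L : ℝ) ^ 2 := by positivity
    nlinarith
  obtain ⟨C7, hC7⟩ : ∃ C7 : ℝ, C7 = C6 * (144 * (CG * (L : ℝ) ^ KG) * (C3 * (L : ℝ) ^ K3) + 1) :=
    ⟨_, rfl⟩
  have h71 : 144 * (CG * (L : ℝ) ^ KG) * (C3 * (L : ℝ) ^ K3) + 1 ≤
      (144 * CG * C3 + 1) * (L : ℝ) ^ (KG + K3) := by
    have e1 := pw_one (L := L) (KG + K3)
    have e2 : 144 * (CG * (L : ℝ) ^ KG) * (C3 * (L : ℝ) ^ K3) =
      144 * CG * C3 * (L : ℝ) ^ (KG + K3) := by rw [pow_add]; ring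
    rw [e2]
    linarith
  have hC7le : C7 ≤ a7 * (L : ℝ) ^ k7 := by
    rw [hC7, ha7, hk7, pow_add (L : ℝ) (KJ + (KD + 2))]
    calc C6 * (144 * (CG * (L : ℝ) ^ KG) * (C3 * (L : ℝ) ^ K3) + 1)
        ≤ ((CJ + 1) * (CD + 4) * (L : ℝ) ^ (KJ + (KD + 2))) *
          ((144 * CG * C3 + 1) * (L : ℝ) ^ (KG + K3)) :=
          mul_le_mul hC6le h71 (by positivity) (by positivity)
      _ = _ := by ring
  have hC70 : 0 ≤ C7 := by rw [hC7]; positivity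
  have hCC : ∀ x : ℝ, 0 ≤ x → x ≤ C → ∀ a, a ≤ k7 + KM → x * (L : ℝ) ^ a ≤ C * (L : ℝ) ^ (k7 + KM) :=
    fun x hx hxC a ha => mul_le_mul hxC (pw_le ha) (hL0 _) hCp.le
  have g1 : C7 ≤ C * (L : ℝ) ^ (k7 + KM) :=
    hC7le.trans (hCC a7 ha70 (by rw [hC]; linarith) k7 (by omega))
  have g2 : (CM * (L : ℝ) ^ KM + CM * (L : ℝ) ^ KM * CL ^ 2 + CL ^ 2) * C7 ≤
      C * (C * (L : ℝ) ^ (k7 + KM)) := by
    have e1 : CM * (L : ℝ) ^ KM + CM * (L : ℝ) ^ KM * CL ^ 2 + CL ^ 2 ≤ aM * (L : ℝ) ^ KM := by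
      have e2 := pw_one (L := L) KM
      have e3 : 0 ≤ CL ^ 2 := by positivity
      rw [haM]
      nlinarith
    calc (CM * (L : ℝ) ^ KM + CM * (L : ℝ) ^ KM * CL ^ 2 + CL ^ 2) * C7
        ≤ (aM * (L : ℝ) ^ KM) * (a7 * (L : ℝ) ^ k7) :=
          mul_le_mul e1 hC7le hC70 (by positivity)
      _ = (aM * a7) * (L : ℝ) ^ (k7 + KM) := by rw [pow_add]; ring
      _ ≤ C * (L : ℝ) ^ (k7 + KM) := hCC _ haMa (by rw [hC]; linarith) _ le_rfl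
      _ ≤ C * (C * (L : ℝ) ^ (k7 + KM)) := by
          have : 0 ≤ C * (L : ℝ) ^ (k7 + KM) := by positivity
          exact le_mul_of_one_le_left this hC1
  have g3 : 2 * (CM * (L : ℝ) ^ KM) ≤ C * (L : ℝ) ^ (k7 + KM) := by
    rw [← mul_assoc]
    exact hCC _ (by positivity) (by rw [hC]; linarith) _ (by omega)
  have g4 : 32 * (N : ℝ) ≤ C * (L : ℝ) ^ (k7 + KM) := by
    have := hCC (32 * N) (by positivity) (by rw [hC]; linarith) 0 (by omega)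
    rwa [pow_zero, mul_one] at this
  have g6 : CG * (L : ℝ) ^ KG ≤ C * (L : ℝ) ^ (k7 + KM) :=
    hCC _ hCG0 (by rw [hC]; linarith) _ (by omega)
  have H := core (L := L) (CG := CG * (L : ℝ) ^ KG) (C3 := C3 * (L : ℝ) ^ K3) (C6 := C6) (CL := CL)
    (CM := CM * (L : ℝ) ^ KM) (D := D * L ^ 2) hN hk hPQ hB0 hJI hJM hEc hE0 hEa
    (hone _ _ hCG) (hone _ _ hC3) hC61 hCL (hone _ _ hCM)
    (fun β hβ hβ1 U t ht η => HG L β hβ hβ1 U t ht η) (HG3 L).1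
    (by
      rw [hC6]
      exact gfixu hJI hN (by positivity) (by positivity) (HD L) (HJ L))
    (HL L) (fun R => Real.exp (-(rt L * R))) (fun R => (Real.exp_pos _).le) (HM L)
    (C₁ := C) (C := C * (L : ℝ) ^ (k7 + KM)) (C7 := C7) hC7 hC1 g1 g2 g3 g4 (by rw [hC]; linarith) g6
  exact H

end T2H02.TT
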