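import Pool.Agent.T2H02.TT.StmW
import Pool.Agent.T2H02.TT.M

/-! Package Mg: reduction of good boundary values to boundary values near the vacuum, with the decay rate
`rt L` (port of package Mu). -/

set_option autoImplicit false
set_option linter.unusedSectionVars false

noncomputable section

open MeasureTheory Matrix
open scoped Matrix.Norms.Frobenius

namespace T2H02.TT

open PkgM in
/-- package Mg -/
theorem pMg (hA1 : S_A1) (hD1u : S_D1u) (hJu : S_Ju) (hJI : S_JI) (hJM : S_JM) : S_Mg := by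
  intro N k hN hk rt hrt hM1
  obtain ⟨P, Q, hPQ⟩ := hA1 N k hN hk
  obtain ⟨CD, K₁, hCD, hD⟩ := hD1u N k hN hk P Q hPQ
  obtain ⟨CJ, K₂, hCJ, hJ'⟩ := hJu N k hN hk P Q hPQ
  obtain ⟨C₁, K₃, D, hC₁, hM⟩ := hM1 P Q hPQ
  set C' : ℝ := 1 + (CD + CJ * (CD + 2)) with hC'
  have hC'1 : 1 ≤ C' := by
    have : 0 ≤ CD + CJ * (CD + 2) := by positivity
    linarith
  have hCC : C₁ ≤ C₁ * C' := by nlinarith
  have hC1 : 1 ≤ C₁ * C' := by linarith
  have hC₁0 : 0 < C₁ := by linarith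
  refine ⟨C₁ * C', K₃ + (K₁ + K₂), D, hC1, ?_⟩
  intro L _ β hβ hβ1 Λ B R e t r he ht hBΛ hΛB hr hr1 η η' hηη' hrng F hF hF01 hdep
  have hL1 : (1 : ℝ) ≤ L := by exact_mod_cast NeZero.one_le
  have hP₁ : (1 : ℝ) ≤ (L : ℝ) ^ K₁ := one_le_pow₀ hL1
  have hP₂ : (1 : ℝ) ≤ (L : ℝ) ^ K₂ := one_le_pow₀ hL1
  have hP₃ : (1 : ℝ) ≤ (L : ℝ) ^ K₃ := one_le_pow₀ hL1
  -- the choice of the gauge transformations
  have hDL := fun φ : Ph N L => hD L φ
  choose G hG using hDL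
  -- abbreviations
  obtain ⟨p₁, hp₁⟩ : ∃ p : ℝ, p = (L : ℝ) ^ K₁ := ⟨_, rfl⟩
  obtain ⟨p₂, hp₂⟩ : ∃ p : ℝ, p = (L : ℝ) ^ K₂ := ⟨_, rfl⟩
  obtain ⟨p₃, hp₃⟩ : ∃ p : ℝ, p = (L : ℝ) ^ K₃ := ⟨_, rfl⟩
  have hpow : (L : ℝ) ^ (K₃ + (K₁ + K₂)) = p₃ * (p₁ * p₂) := by
    rw [pow_add, pow_add, hp₁, hp₂, hp₃]
  rw [hpow] at hr ⊢
  rw [← hp₁] at hP₁
  rw [← hp₂] at hP₂
  rw [← hp₃] at hP₃
  have hM' := hM L β hβ hβ1 Λ B R
  rw [← hp₃] at hM'
  have hG' : ∀ φ : Ph N L, dst (act (G φ) φ) (vac P Q) ≤ (CD * p₁) * VV k φ := by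
    intro φ
    rw [hp₁]
    exact hG φ
  have hJL : ∀ (φ ψ : Ph N L) (U : Tor L → SU N) (e : ℝ), dst φ (vac P Q) ≤ e →
      dst ψ (vac P Q) ≤ e →
      ∑ y, ∑ j, ‖(U y : Mt N) * (ψ y j : Mt N) - (φ y j : Mt N) * (U (tsh y j) : Mt N)‖ ^ 2 ≤ e →
      ∃ m : Fin N, ∑ y, ‖(U y : Mt N) - om N m • (1 : Mt N)‖ ^ 2 ≤ (CJ * p₂) * e := by
    intro φ ψ U e h1 h2 h3
    rw [hp₂]
    exact hJ' L φ ψ U e h1 h2 h3
  have hp₁0 : 0 < p₁ := by linarith
  have hp₂0 : 0 < p₂ := by linarith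
  have hp₃0 : 0 < p₃ := by linarith
  have hCD' : 0 < CD * p₁ := by positivity
  have hCJ' : 0 < CJ * p₂ := by positivity
  -- the constants `a = C₁ p₃`, `b = C' p₁ p₂`
  obtain ⟨a, ha⟩ : ∃ a : ℝ, a = C₁ * p₃ := ⟨_, rfl⟩
  obtain ⟨b, hb⟩ : ∃ b : ℝ, b = C' * (p₁ * p₂) := ⟨_, rfl⟩
  have ha1 : 1 ≤ a := by
    rw [ha]
    exact one_le_mul_of_one_le_of_one_le hC₁ hP₃
  have hp12 : 1 ≤ p₁ * p₂ := one_le_mul_of_one_le_of_one_le hP₁ hP₂
  have hb1 : 1 ≤ b := by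
    rw [hb]
    exact one_le_mul_of_one_le_of_one_le hC'1 hp12
  have hab : C₁ * C' * (p₃ * (p₁ * p₂)) = a * b := by
    rw [ha, hb]
    ring
  rw [hab] at hr ⊢
  rw [← ha] at hM'
  have haab : a ≤ a * b := by nlinarith
  have hbound : CD * p₁ + CJ * p₂ * (CD * p₁ + 2) ≤ b := by
    have h1 : p₁ ≤ p₁ * p₂ := by nlinarith
    have h2 : p₂ ≤ p₁ * p₂ := by nlinarith
    have h3 : CD * p₁ ≤ CD * (p₁ * p₂) := mul_le_mul_of_nonneg_left h1 (by positivity)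
    have h4 : CJ * 2 * p₂ ≤ CJ * 2 * (p₁ * p₂) := mul_le_mul_of_nonneg_left h2 (by positivity)
    rw [hb, hC']
    nlinarith
  set r₁ : ℝ := a * Λ.card * (Λ.card * (b * e) + t) with hr₁
  have hr₁0 : 0 ≤ r₁ := by positivity
  have hr₁r : r₁ ≤ r := by
    rw [hr, hr₁]
    have h1 : (Λ.card : ℝ) * (b * e) + t ≤ b * (Λ.card * e + t) := by
      have : t ≤ b * t := by nlinarith
      nlinarith
    calc a * Λ.card * (Λ.card * (b * e) + t) ≤ a * Λ.card * (b * (Λ.card * e + t)) :=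
          mul_le_mul_of_nonneg_left h1 (by positivity)
      _ = _ := by ring
  have hr0 : 0 ≤ r := hr₁0.trans hr₁r
  have hr₁1 : r₁ ≤ 1 / C₁ :=
    hr₁r.trans (hr1.trans (one_div_le_one_div_of_le hC₁0 hCC))
  -- the transformed functions
  set g := gg G Λ η with hg
  set z := zz hN G Λ η with hz
  have hfun : (fun X => F (ti (gg G Λ η') (zz hN G Λ η') X)) = fun X => F (ti g z X) := by
    funext X
    refine hdep _ _ fun l hl => ?_
    refine (ti_agree hN hηη' (fun a ha => ?_) X).symm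
    rcases hl a ha with h | h
    · exact Or.inr h.1
    · exact Or.inl (hBΛ h)
  have h1 := hM' (b * e) t r₁ (by positivity) ht hBΛ hΛB hr₁ hr₁1
    (sg hN G Λ η) (sg hN G Λ η') (fun l hl hlB => sg_agree hN hηη' hl hlB)
    (fun l hl hlp => by
      have h2 : (CD * p₁ + CJ * p₂ * (CD * p₁ + 2)) * e ≤ b * e :=
        mul_le_mul_of_nonneg_right hbound he
      exact ⟨(near_vac hN hJI k P Q hCD' hCJ' hG' hJL he (fun τ hτ => (hrng τ hτ).1) hl hlp).trans h2,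
        (near_vac hN hJI k P Q hCD' hCJ' hG' hJL he (fun τ hτ => (hrng τ hτ).2) hl hlp).trans h2⟩)
    (fun X => F (ti g z X)) (hF.comp (ti_meas g z)) (fun X => hF01 _) (by
      intro X Y hXY
      refine hdep _ _ fun l hl => ?_
      rw [ti_apply, ti_apply, hXY l hl])
  rw [ker_tr hN hJI hJM k β hβ g z Λ F hF hF01 η,
    ker_tr hN hJI hJM k β hβ (gg G Λ η') (zz hN G Λ η') Λ F hF hF01 η', hfun]
  refine h1.trans ?_
  have hcard : (0 : ℝ) ≤ Λ.card := Nat.cast_nonneg _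
  have h2 : a * Λ.card * (β * (r₁ * Real.sqrt r₁ + Real.exp (-(rt L * R)) * r₁) +
        Real.exp (-β / C₁)) ≤
      a * b * Λ.card * (β * (r * Real.sqrt r + Real.exp (-(rt L * R)) * r) +
        Real.exp (-β / (C₁ * C'))) := by
    have h3 : r₁ * Real.sqrt r₁ ≤ r * Real.sqrt r :=
      mul_le_mul hr₁r (Real.sqrt_le_sqrt hr₁r) (Real.sqrt_nonneg _) hr0
    have h4 : Real.exp (-(rt L * R)) * r₁ ≤ Real.exp (-(rt L * R)) * r :=
      mul_le_mul_of_nonneg_left hr₁r (Real.exp_pos _).le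
    have h5 : Real.exp (-β / C₁) ≤ Real.exp (-β / (C₁ * C')) := by
      rw [Real.exp_le_exp, neg_div, neg_div, neg_le_neg_iff]
      exact div_le_div_of_nonneg_left hβ hC₁0 hCC
    refine mul_le_mul (mul_le_mul_of_nonneg_right haab hcard) ?_ (by positivity) (by positivity)
    exact add_le_add (mul_le_mul_of_nonneg_left (add_le_add h3 h4) hβ) h5
  have h6 : Real.exp (-β * t) * (a * β) ^ (D * L ^ 2 * Λ.card) ≤
      Real.exp (-β * t) * (a * b * β) ^ (D * L ^ 2 * Λ.card) := by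
    refine mul_le_mul_of_nonneg_left ?_ (Real.exp_pos _).le
    exact pow_le_pow_left₀ (by positivity) (mul_le_mul_of_nonneg_right haab hβ) _
  change _ ≤ (sysS N L k β hN hβ).ker (hm N) Λ (fun X => F (ti g z X))
    (tr (gg G Λ η') (zz hN G Λ η') η') + _ + _
  change (sysS N L k β hN hβ).ker (hm N) Λ (fun X => F (ti g z X)) (sg hN G Λ η') + _ + _ ≤
    (sysS N L k β hN hβ).ker (hm N) Λ (fun X => F (ti g z X)) (sg hN G Λ η') + _ + _
  linarith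

end T2H02.TT
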