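import Pool.Agent.T2H02.TT.StmW
import Pool.Agent.T2H02.TT.P1
import Pool.Agent.T2H02.TT.P1u

/-!
# Package P1g : decay for the site-level kernels with the sharp rate (helper55, port of P1u of helper13)
-/

set_option autoImplicit false
set_option linter.unusedSectionVars false

noncomputable section

open MeasureTheory Matrix
open scoped Matrix.Norms.Frobenius

namespace T2H02.TT.PkgP1g

lemma mgp_nonneg (N L : ℕ) (hN : 0 < N) (hL : 0 < L) : 0 ≤ mgp N L := by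
  unfold mgp
  have h1 : (1 : ℝ) ≤ (N : ℝ) * L := by
    have h2 : 1 ≤ N * L := Nat.mul_pos hN hL
    exact_mod_cast h2
  have h2 : 0 ≤ Real.pi / ((N : ℝ) * L) := by positivity
  have h3 : Real.pi / ((N : ℝ) * L) ≤ Real.pi := div_le_self Real.pi_pos.le h1
  have h4 : 0 ≤ Real.sin (Real.pi / ((N : ℝ) * L)) := Real.sin_nonneg_of_nonneg_of_le_pi h2 h3
  have h5 : 0 ≤ Real.arsinh (Real.sin (Real.pi / ((N : ℝ) * L))) := Real.arsinh_nonneg_iff.2 h4
  linarith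

/-- arithmetic of the rate -/
lemma rate {ρ Q : ℝ} {M n s w : ℕ} (hρ : 0 ≤ ρ) (hM : 0 < M) (hw : 0 < w) (hQ : 0 < Q)
    (hQρ : Q ≤ Real.exp (-(ρ * (w * M)))) (hn : (2 * s + 1) * M ≤ n) :
    Q ^ ((n / M - 1 - 2 * s) / w) ≤ Real.exp (ρ * (M * (2 + 2 * s + w))) * Real.exp (-ρ * n) := by
  have hM' : (0 : ℝ) < M := by exact_mod_cast hM
  have hw' : (0 : ℝ) < w := by exact_mod_cast hw
  obtain ⟨j, hj⟩ : ∃ j : ℕ, j = (n / M - 1 - 2 * s) / w := ⟨_, rfl⟩
  rw [← hj]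
  have hjr : (n : ℝ) ≤ w * M * j + M * (2 + 2 * s + w) := by
    have h1 : n < M * (n / M) + M := by
      have := Nat.div_add_mod n M
      have := Nat.mod_lt n hM
      omega
    have h0 : 2 * s + 1 ≤ n / M := (Nat.le_div_iff_mul_le hM).2 hn
    have h2 : n / M - 1 - 2 * s < j * w + w := by
      rw [hj]
      exact Nat.lt_div_mul_add hw
    have h2' : n / M ≤ j * w + w + 1 + 2 * s := by omega
    have h3 : (n : ℝ) < M * ((n / M : ℕ) : ℝ) + M := by exact_mod_cast h1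
    have h4 : ((n / M : ℕ) : ℝ) ≤ j * w + w + 1 + 2 * s := by exact_mod_cast h2'
    have h5 := mul_le_mul_of_nonneg_left h4 hM'.le
    nlinarith
  calc Q ^ j ≤ (Real.exp (-(ρ * (w * M)))) ^ j := pow_le_pow_left₀ hQ.le hQρ j
    _ = Real.exp (-(ρ * (w * M * j))) := by
        rw [← Real.exp_nat_mul]
        congr 1
        ring
    _ ≤ Real.exp (ρ * (M * (2 + 2 * s + w)) + -ρ * n) := by
        refine Real.exp_le_exp.2 ?_
        have h6 := mul_le_mul_of_nonneg_left hjr hρ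
        nlinarith
    _ = _ := by rw [Real.exp_add]

theorem pP1g (h3 : S_F3) (h5 : S_F5) (hX : S_Xg) : S_P1g := by
  intro N k hN hk hZ ε hε hε1
  obtain ⟨C₀, K₀, hC₀, HZ⟩ := hZ ε hε hε1
  refine ⟨C₀, K₀, hC₀, ?_⟩
  intro L _ β hβ hββ
  obtain ⟨M, s, w, j, hM, ε', p, δ, q, hw, hws, hj, hp, hδ, hq, hδq, hpq, hq2, hqc, hbad, hins⟩ :=
    HZ L β hβ hββ
  have hN0 : 0 < N := by omega
  have hL0 : 0 < L := Nat.pos_of_ne_zero (NeZero.ne L)
  have hL1 : (1 : ℝ) ≤ L := by exact_mod_cast hL0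
  have hLK : (1 : ℝ) ≤ (L : ℝ) ^ K₀ := one_le_pow₀ hL1
  have hβ1 : 1 < β := by nlinarith
  have hβ0 : 0 < β := by linarith
  have hl : 0 < Real.log β := Real.log_pos hβ1
  have hw0 : 0 < w := by omega
  have hw1 : (1 : ℝ) ≤ w := by exact_mod_cast hw0
  have hM0 : (0 : ℝ) < M := by exact_mod_cast hM
  have hs0 : (0 : ℝ) ≤ s := Nat.cast_nonneg _
  obtain ⟨ρ, hρd⟩ : ∃ ρ : ℝ, ρ = (1 - ε) * mgp N L := ⟨_, rfl⟩
  have hρ : 0 ≤ ρ := by
    rw [hρd]
    exact mul_nonneg (by linarith) (mgp_nonneg N L hN0 hL0)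
  rw [← hρd] at hqc ⊢
  obtain ⟨T, hT⟩ : ∃ T : ℝ, T = ρ * (M * (2 + 2 * s + w)) := ⟨_, rfl⟩
  have hT0 : 0 ≤ T := by rw [hT]; positivity
  have hlw : 0 ≤ Real.log w := Real.log_nonneg hw1
  obtain ⟨κ, hκ⟩ : ∃ κ : ℝ, κ = (Real.log w + T) / Real.log β := ⟨_, rfl⟩
  have hκ0 : 0 ≤ κ := by rw [hκ]; positivity
  have hβκ : β ^ κ = w * Real.exp T := by
    rw [Real.rpow_def_of_pos hβ0, hκ, mul_div_cancel₀ _ hl.ne', Real.exp_add,
      Real.exp_log (by linarith)]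
  refine ⟨κ, hκ0, ?_⟩
  intro A Λ n hA f hf hf1 hfd η η'
  obtain ⟨S, hS⟩ : ∃ S, S = sysS N L k β hN hβ := ⟨_, rfl⟩
  rw [← hS] at hbad hins ⊢
  have hcard : (0 : ℝ) ≤ A.card := Nat.cast_nonneg _
  rcases Finset.eq_empty_or_nonempty A with hAe | hAne
  · -- the function is constant
    subst hAe
    have hconst : ∀ X Y, f X = f Y := by
      intro X Y
      refine hfd X Y fun l hl => ?_
      exact absurd (hl l.1.1 ((mem_st _ _).2 (Or.inl rfl))) (Finset.notMem_empty _)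
    have hfc : f = fun _ => f η := funext fun X => hconst X η
    obtain ⟨-, hcst, -⟩ := h5 (Lk L) Tm (SU N) S (hm N) Λ
    rw [hfc, hcst, hcst]
    simp
  have hA1 : (1 : ℝ) ≤ A.card := by exact_mod_cast hAne.card_pos
  rcases Nat.lt_or_ge n ((2 * s + 1) * M) with hnM | hnM
  · -- small `n`
    obtain ⟨-, -, -, -, hbd, -⟩ := h5 (Lk L) Tm (SU N) S (hm N) Λ
    have e1 := hbd 1 f hf hf1 η
    have e2 := hbd 1 f hf hf1 η'
    have e3 : |S.ker (hm N) Λ f η - S.ker (hm N) Λ f η'| ≤ 2 := by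
      rw [abs_le] at e1 e2 ⊢
      constructor <;> linarith
    have hnr : (n : ℝ) ≤ (2 * s + 1) * M := by exact_mod_cast hnM.le
    have e4 : 1 ≤ β ^ κ * Real.exp (-ρ * n) := by
      rw [hβκ, mul_assoc, ← Real.exp_add]
      have h1 : ρ * n ≤ ρ * ((2 * s + 1) * M) := mul_le_mul_of_nonneg_left hnr hρ
      have h2 : ρ * ((2 * s + 1) * M) ≤ T := by
        rw [hT]
        refine mul_le_mul_of_nonneg_left ?_ hρ
        nlinarith
      have h3 : 1 ≤ Real.exp (T + -ρ * n) := Real.one_le_exp (by linarith)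
      nlinarith
    calc |S.ker (hm N) Λ f η - S.ker (hm N) Λ f η'| ≤ 2 := e3
      _ ≤ 6 * 1 * 1 := by norm_num
      _ ≤ 6 * A.card * (β ^ κ * Real.exp (-ρ * n)) :=
          mul_le_mul (by linarith) e4 zero_le_one (by positivity)
      _ = _ := by ring
  -- large `n`
  obtain ⟨n', hn'⟩ : ∃ n', n' = n / M - 1 - 2 * s := ⟨_, rfl⟩
  obtain ⟨A', hA'⟩ : ∃ A', A' = A.image (blk M) := ⟨_, rfl⟩
  obtain ⟨Λ', hΛ'⟩ : ∃ Λ', Λ' = A'.biUnion (Nb (n' + 2 * s)) := ⟨_, rfl⟩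
  have hsub : sit M Λ' ⊆ Λ := by
    rw [hΛ', hA', hn']
    exact PkgP1u.sit_sub hM hnM A Λ hA
  have key := hX (Lk L) Tm (SU N) (coa S M hM) (hm N) (fun τ X => en k X τ ≤ ε') s w j p δ q
    hw hws hj
    (fun τ => measurableSet_le (en_cont k τ hN0).measurable measurable_const)
    (fun τ ω ω' h => by
      have hsp : (coa S M hM).sp τ = spt τ := by rw [hS]; rfl
      rw [hsp] at h
      show en k ω τ ≤ ε' ↔ en k ω' τ ≤ ε'
      rw [en_loc k τ ω ω' h])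
    hbad hins hp hδ hq hδq hpq hq2 A' Λ' n'
    (fun a ha => by
      rw [hΛ']
      exact Finset.subset_biUnion_of_mem (Nb (n' + 2 * s)) ha)
    f hf hf1
    (fun ω ω' h => hfd ω ω' fun l hl => h l (by
      intro a ha
      have hbl : (coa S M hM).bl l = (st l).image (blk M) := by rw [hS]; rfl
      rw [hbl] at ha
      obtain ⟨b, hb, rfl⟩ := Finset.mem_image.1 ha
      rw [hA']
      exact Finset.mem_image_of_mem _ (hl b hb)))
  obtain ⟨B, hB⟩ : ∃ B : ℝ, B = 6 * A.card * β ^ κ * Real.exp (-ρ * n) := ⟨_, rfl⟩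
  have hkey : ∀ ω ω', S.ker (hm N) (sit M Λ') f ω ≤ S.ker (hm N) (sit M Λ') f ω' + B := by
    intro ω ω'
    have h6 := key ω ω'
    rw [coa_ker, coa_ker] at h6
    have h7 : (A'.card : ℝ) ≤ A.card := by
      rw [hA']
      exact_mod_cast Finset.card_image_le
    have h8 := rate (n := n) (s := s) (w := w) hρ hM hw0 (Q := 24 * w * q) (by positivity) hqc hnM
    rw [← hn', ← hT] at h8
    have h9 : 6 * w * (A'.card : ℝ) * (24 * w * q) ^ (n' / w) ≤ B := by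
      calc 6 * w * (A'.card : ℝ) * (24 * w * q) ^ (n' / w) ≤
            6 * w * A.card * (Real.exp T * Real.exp (-ρ * n)) :=
            mul_le_mul (mul_le_mul_of_nonneg_left h7 (by positivity)) h8 (by positivity)
              (by positivity)
        _ = B := by rw [hB, hβκ]; ring
    have := (abs_le.1 (h6.trans h9)).2
    linarith
  -- consistency
  have hΔ := h5 (Lk L) Tm (SU N) S (hm N) (sit M Λ')
  obtain ⟨-, -, -, hmea, hbd, -⟩ := hΔ
  have hgm : Measurable (S.ker (hm N) (sit M Λ') f) := hmea f hf ⟨1, hf1⟩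
  have hgb : ∃ K, ∀ ω, |S.ker (hm N) (sit M Λ') f ω| ≤ K := ⟨1, fun ω => hbd 1 f hf hf1 ω⟩
  have hcons : ∀ ω, S.ker (hm N) Λ f ω = S.ker (hm N) Λ (S.ker (hm N) (sit M Λ') f) ω := by
    intro ω
    have := h3 (Lk L) Tm (SU N) S (hm N) (sit M Λ') Λ hsub f hf ⟨1, hf1⟩ (fun _ => 1)
      measurable_const ⟨1, fun _ => by simp⟩ (fun _ _ _ => rfl) ω
    simpa using this
  rw [hcons η, hcons η', ← hB, abs_le]
  have g1 := PkgP1.osc h5 S (hm N) Λ _ hgm hgb B hkey η η'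
  have g2 := PkgP1.osc h5 S (hm N) Λ _ hgm hgb B hkey η' η
  constructor <;> linarith

end T2H02.TT.PkgP1g

namespace T2H02.TT

theorem pP1g (h3 : S_F3) (h5 : S_F5) (hX : S_Xg) : S_P1g := PkgP1g.pP1g h3 h5 hX

end T2H02.TT
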