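import Pool.Agent.T2H02.TT.StmV
import Pool.Agent.T2H02.TT.M

/-! Package UJ: the Ward identity for good boundary values (from UI, as Mu from M1u). -/

set_option autoImplicit false
set_option linter.unusedSectionVars false

noncomputable section

open MeasureTheory Matrix
open scoped Matrix.Norms.Frobenius

namespace T2H02.TT

namespace PkgUJ

open PkgM

variable {N L : ℕ} [NeZero L]

lemma num_trB (hN : 2 ≤ N) (hJI : S_JI) (hJM : S_JM) (k : ℕ) (β : ℝ) (hβ : 0 ≤ β)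
    (g : Pt L → SU N) (z : Pl → Fin 4 → ℕ) (Λ : Finset Pl) (F : Cf N L → ℝ) (hF : Measurable F)
    {B : ℝ} (hb : ∀ X, |F X| ≤ B) (η : Cf N L) :
    (sysS N L k β hN hβ).num (hm N) Λ F η =
      (sysS N L k β hN hβ).num (hm N) Λ (fun X => F (ti g z X)) (tr g z η) := by
  set S := sysS N L k β hN hβ with hS
  have hWm : Measurable (S.W Λ) := by
    unfold Sys.W
    exact Finset.measurable_prod _ fun τ _ => S.w_meas τ
  have hW0 : ∀ X, 0 < S.W Λ X := fun X => Finset.prod_pos fun τ _ => S.w_pos τ X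
  have hW1 : ∀ X, S.W Λ X ≤ 1 := fun X =>
    Finset.prod_le_one (fun τ _ => (S.w_pos τ X).le) fun τ _ => S.w_le τ X
  have h1 := (hJM N L hN (Frl L Λ) (fun X => F (ti g z X) * S.W Λ X)
    ((hF.comp (ti_meas g z)).mul hWm) ⟨B, fun X => by
      rw [abs_mul, abs_of_pos (hW0 X)]
      calc |F (ti g z X)| * S.W Λ X ≤ |F (ti g z X)| * 1 :=
            mul_le_mul_of_nonneg_left (hW1 X) (abs_nonneg _)
        _ ≤ B := by rw [mul_one]; exact hb _⟩ η).1 g z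
  change ∫ ξ, F (ti g z (tr g z (glue (Frl L Λ) ξ η))) * S.W Λ (tr g z (glue (Frl L Λ) ξ η))
    ∂(pm N L) = ∫ ξ, F (ti g z (glue (Frl L Λ) ξ (tr g z η))) *
      S.W Λ (glue (Frl L Λ) ξ (tr g z η)) ∂(pm N L) at h1
  unfold Sys.num
  rw [show S.Fr Λ = Frl L Λ from rfl]
  rw [← h1]
  refine integral_congr_ae (Filter.Eventually.of_forall fun ξ => ?_)
  simp only
  rw [ti_tr (by omega), hS, W_tr hN hJI]

lemma ker_trB (hN : 2 ≤ N) (hJI : S_JI) (hJM : S_JM) (k : ℕ) (β : ℝ) (hβ : 0 ≤ β)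
    (g : Pt L → SU N) (z : Pl → Fin 4 → ℕ) (Λ : Finset Pl) (F : Cf N L → ℝ) (hF : Measurable F)
    {B : ℝ} (hb : ∀ X, |F X| ≤ B) (η : Cf N L) :
    (sysS N L k β hN hβ).ker (hm N) Λ F η =
      (sysS N L k β hN hβ).ker (hm N) Λ (fun X => F (ti g z X)) (tr g z η) := by
  unfold Sys.ker
  rw [num_trB hN hJI hJM k β hβ g z Λ F hF hb η,
    num_tr hN hJI hJM k β hβ g z Λ (fun _ => 1) measurable_const
      (fun _ => ⟨zero_le_one, le_rfl⟩) η]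

lemma pt_cmv (z : Pl → Fin 4 → ℕ) (X : Cf N L) (x : Pl) : pt (cmv z X) x = pt X x := by
  funext y j
  unfold pt cmv
  rw [if_neg]
  fin_cases j <;> simp

lemma pt_ti (g : Pt L → SU N) (z : Pl → Fin 4 → ℕ) (X : Cf N L) (x : Pl) :
    pt (ti g z X) x = act (fun y => (g (x, y))⁻¹) (pt X x) := by
  unfold ti tr
  rw [pt_gau, pt_cmv]

lemma pt_cont (x : Pl) : Continuous fun X : Cf N L => pt X x := by
  unfold pt
  fun_prop

lemma obs_meas (ψ : Pl → ℝ) {G : Ph N L → ℝ} (hG : Continuous G) (Λ : Finset Pl) (b : Pl) :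
    Measurable (obs ψ G Λ b) := by
  have h1 : ∀ x : Pl, Continuous fun X : Cf N L => G (pt X x) := fun x => hG.comp (pt_cont x)
  have h2 : Continuous (obs ψ G Λ b) :=
    (h1 b).mul (continuous_finset_sum _ fun x _ => continuous_const.mul (h1 x))
  exact h2.measurable

lemma obs_bdd (ψ : Pl → ℝ) {G : Ph N L → ℝ} {C : ℝ} (hC : ∀ φ, |G φ| ≤ C) (Λ : Finset Pl) (b : Pl)
    (X : Cf N L) : |obs ψ G Λ b X| ≤ C * ∑ x ∈ Λ, |lap ψ x + mu2 N L * ψ x| * C := by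
  have hC0 : 0 ≤ C := (abs_nonneg _).trans (hC (pt X b))
  unfold obs
  rw [abs_mul]
  refine mul_le_mul (hC _) ?_ (abs_nonneg _) hC0
  refine (Finset.abs_sum_le_sum_abs _ _).trans (Finset.sum_le_sum fun x _ => ?_)
  rw [abs_mul]
  exact mul_le_mul_of_nonneg_left (hC _) (abs_nonneg _)

lemma obs_ti (ψ : Pl → ℝ) {G : Ph N L → ℝ} (hG : ∀ (g : Tor L → SU N) (φ : Ph N L), G (act g φ) = G φ)
    (Λ : Finset Pl) (b : Pl) (g : Pt L → SU N) (z : Pl → Fin 4 → ℕ) (X : Cf N L) :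
    obs ψ G Λ b (ti g z X) = obs ψ G Λ b X := by
  unfold obs
  simp only [pt_ti, hG]

end PkgUJ

open PkgM PkgUJ in
/-- package UJ -/
theorem pUJ (hD1u : S_D1u) (hJu : S_Ju) (hJI : S_JI) (hJM : S_JM) (hUI : S_UI) : S_UJ := by
  intro N k hN hk P Q hPQ Cg Kg
  obtain ⟨CD, K₁, hCD, hD⟩ := hD1u N k hN hk P Q hPQ
  obtain ⟨CJ, K₂, hCJ, hJ'⟩ := hJu N k hN hk P Q hPQ
  obtain ⟨C₁, K₃, D, hC₁, hM⟩ := hUI N k hN hk P Q hPQ Cg Kg
  set C' : ℝ := 1 + (CD + CJ * (CD + 2)) with hC'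
  have hC'1 : 1 ≤ C' := by
    have : 0 ≤ CD + CJ * (CD + 2) := by positivity
    linarith
  have hCC : C₁ ≤ C₁ * C' := by nlinarith
  have hC1 : 1 ≤ C₁ * C' := by linarith
  have hC₁0 : 0 < C₁ := by linarith
  refine ⟨C₁ * C', K₃ + (K₁ + K₂), D, hC1, ?_⟩
  intro L _ β hβ hβ1 Em Gm hMod Λ e t r he ht hr hrβ hr1 η hrng ψ hψ1 hψΛ b₀ hb₀
  have hL1 : (1 : ℝ) ≤ L := by exact_mod_cast NeZero.one_le
  have hP₁ : (1 : ℝ) ≤ (L : ℝ) ^ K₁ := one_le_pow₀ hL1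
  have hP₂ : (1 : ℝ) ≤ (L : ℝ) ^ K₂ := one_le_pow₀ hL1
  have hP₃ : (1 : ℝ) ≤ (L : ℝ) ^ K₃ := one_le_pow₀ hL1
  -- the choice of the gauge transformations
  have hDL := fun φ : Ph N L => hD L φ
  choose G hG using hDL
  -- abbreviations
  obtain ⟨p₁, hp₁⟩ : ∃ p : ℝ, p = (L : ℝ) ^ K₁ := ⟨_, rfl⟩
  obtain ⟨p₂, hp₂⟩ : ∃ p : ℝ, p = (L : ℝ) ^ K₂ := ⟨_, rfl⟩
  obtain ⟨p₃, hp₃⟩ : ∃ p : ℝ, p = (L : ℝ) ^ K₃ := ⟨_, rfl⟩
  have hpow : (L : ℝ) ^ (K₃ + (K₁ + K₂)) = p₃ * (p₁ * p₂) := by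
    rw [pow_add, pow_add, hp₁, hp₂, hp₃]
  rw [hpow] at hr hr1 ⊢
  rw [← hp₁] at hP₁
  rw [← hp₂] at hP₂
  rw [← hp₃] at hP₃
  have hM' := hM L β hβ hβ1 Em Gm hMod Λ
  rw [← hp₃] at hM'
  have hG' : ∀ φ : Ph N L, dst (act (G φ) φ) (vac P Q) ≤ (CD * p₁) * VV k φ := by
    intro φ
    rw [hp₁]
    exact hG φ
  have hJL : ∀ (φ ψ : Ph N L) (U : Tor L → SU N) (e : ℝ), dst φ (vac P Q) ≤ e →
      dst ψ (vac P Q) ≤ e →
      ∑ y, ∑ j, ‖(U y : Mt N) * (ψ y j : Mt N) - (φ y j : Mt N) * (U (tsh y j) : Mt N)‖ ^ 2 ≤ e →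
      ∃ m : Fin N, ∑ y, ‖(U y : Mt N) - om N m • (1 : Mt N)‖ ^ 2 ≤ (CJ * p₂) * e := by
    intro φ ψ U e h1 h2 h3
    rw [hp₂]
    exact hJ' L φ ψ U e h1 h2 h3
  have hp₁0 : 0 < p₁ := by linarith
  have hp₂0 : 0 < p₂ := by linarith
  have hp₃0 : 0 < p₃ := by linarith
  have hCD' : 0 < CD * p₁ := by positivity
  have hCJ' : 0 < CJ * p₂ := by positivity
  -- the constants `a = C₁ p₃`, `b = C' p₁ p₂`
  obtain ⟨a, ha⟩ : ∃ a : ℝ, a = C₁ * p₃ := ⟨_, rfl⟩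
  obtain ⟨b, hb⟩ : ∃ b : ℝ, b = C' * (p₁ * p₂) := ⟨_, rfl⟩
  have ha1 : 1 ≤ a := by
    rw [ha]
    exact one_le_mul_of_one_le_of_one_le hC₁ hP₃
  have hp12 : 1 ≤ p₁ * p₂ := one_le_mul_of_one_le_of_one_le hP₁ hP₂
  have hb1 : 1 ≤ b := by
    rw [hb]
    exact one_le_mul_of_one_le_of_one_le hC'1 hp12
  have hab : C₁ * C' * (p₃ * (p₁ * p₂)) = a * b := by
    rw [ha, hb]
    ring
  rw [hab] at hr hr1 ⊢
  rw [← ha] at hM'
  have haab : a ≤ a * b := by nlinarith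
  have hbound : CD * p₁ + CJ * p₂ * (CD * p₁ + 2) ≤ b := by
    have h1 : p₁ ≤ p₁ * p₂ := by nlinarith
    have h2 : p₂ ≤ p₁ * p₂ := by nlinarith
    have h3 : CD * p₁ ≤ CD * (p₁ * p₂) := mul_le_mul_of_nonneg_left h1 (by positivity)
    have h4 : CJ * 2 * p₂ ≤ CJ * 2 * (p₁ * p₂) := mul_le_mul_of_nonneg_left h2 (by positivity)
    rw [hb, hC']
    nlinarith
  have hcard1 : (1 : ℝ) ≤ Λ.card := by exact_mod_cast Finset.card_pos.2 ⟨b₀, hb₀⟩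
  have hcard0 : (0 : ℝ) < Λ.card := by linarith
  obtain ⟨e', he'⟩ : ∃ e' : ℝ, e' = b * e + (b - 1) * t / Λ.card := ⟨_, rfl⟩
  have hbe' : b * e ≤ e' := by
    rw [he']
    have : 0 ≤ (b - 1) * t / Λ.card := div_nonneg (mul_nonneg (by linarith) ht) hcard0.le
    linarith
  have he'0 : 0 ≤ e' := le_trans (by positivity) hbe'
  have hre : r = a * Λ.card * (Λ.card * e' + t) := by
    rw [hr, he']
    field_simp
    ring
  have hr0 : 0 ≤ r := by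
    rw [hre]
    positivity
  have hcond : a * Λ.card * (β * (r * Real.sqrt (Real.sqrt r))) ≤ 1 := by
    refine le_trans ?_ hr1
    have : 0 ≤ β * (r * Real.sqrt (Real.sqrt r)) := by positivity
    gcongr
  -- the transformed functions
  have h1 := hM' e' t r he'0 ht hre hrβ hcond (sg hN G Λ η)
    (fun l hl hlp => by
      have h2 : (CD * p₁ + CJ * p₂ * (CD * p₁ + 2)) * e ≤ b * e :=
        mul_le_mul_of_nonneg_right hbound he
      exact ((near_vac hN hJI k P Q hCD' hCJ' hG' hJL he hrng hl hlp).trans h2).trans hbe')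
    ψ hψ1 hψΛ b₀ hb₀
  obtain ⟨-, -, -, -, hGc, hGa, hGb, -, -⟩ := hMod
  rw [ker_trB hN hJI hJM k β hβ (gg G Λ η) (zz hN G Λ η) Λ (obs ψ Gm Λ b₀)
    (obs_meas ψ hGc Λ b₀) (obs_bdd ψ hGb Λ b₀) η]
  have hfun : (fun X => obs ψ Gm Λ b₀ (ti (gg G Λ η) (zz hN G Λ η) X)) = obs ψ Gm Λ b₀ := by
    funext X
    exact obs_ti ψ hGa Λ b₀ _ _ X
  rw [hfun]
  refine h1.trans ?_
  have h5 : Real.exp (-β / C₁) ≤ Real.exp (-β / (C₁ * C')) := by
    rw [Real.exp_le_exp, neg_div, neg_div, neg_le_neg_iff]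
    exact div_le_div_of_nonneg_left hβ hC₁0 hCC
  have h6 : Real.exp (-β * t) * (a * β) ^ (D * L ^ 2 * Λ.card) ≤
      Real.exp (-β * t) * (a * b * β) ^ (D * L ^ 2 * Λ.card) := by
    refine mul_le_mul_of_nonneg_left ?_ (Real.exp_pos _).le
    exact pow_le_pow_left₀ (by positivity) (mul_le_mul_of_nonneg_right haab hβ) _
  refine mul_le_mul (mul_le_mul_of_nonneg_right haab (by positivity)) ?_ (by positivity)
    (by positivity)
  exact add_le_add le_rfl (mul_le_mul_of_nonneg_left (add_le_add h6 h5) (by positivity))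

end T2H02.TT
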