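import Pool.Agent.T2H02.TT.StmV
import Pool.Agent.T2H02.TT.E
import Pool.Agent.T2H02.TT.A
import Pool.Agent.T2H02.TT.B
import Pool.Agent.T2H02.TT.C1u

/-!
# Package UM : the lightest mode and the Polyakov observable
-/

set_option autoImplicit false
set_option linter.unusedSectionVars false

noncomputable section

open MeasureTheory Matrix
open scoped Matrix.Norms.Frobenius

namespace T2H02.TT

namespace PkgUM

variable {N : ℕ}

/-! ### the matrices `i (x W⁻¹ + conj x W)` -/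

/-- the basic matrix -/
def Bm (W : SU N) (x : ℂ) : Mt N := Complex.I • (x • (W : Mt N)ᴴ + star x • (W : Mt N))

lemma Bm_ct (W : SU N) (x : ℂ) : (Bm W x)ᴴ = - Bm W x := by
  unfold Bm
  rw [conjTranspose_smul, conjTranspose_add, conjTranspose_smul, conjTranspose_smul,
    conjTranspose_conjTranspose, star_star, RCLike.star_def, Complex.conj_I, neg_smul, add_comm]

lemma Bm_mem (W : SU N) (hW : (W : Mt N).trace = 0) (x : ℂ) : Bm W x ∈ su N := by
  refine ⟨Bm_ct W x, ?_⟩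
  unfold Bm
  rw [trace_smul, trace_add, trace_smul, trace_smul, trace_conjTranspose, hW]
  simp

lemma Bm_sub (W : SU N) (x y : ℂ) : Bm W x - Bm W y = Bm W (x - y) := by
  unfold Bm
  rw [← smul_sub, sub_smul, star_sub, sub_smul]
  congr 1
  abel

lemma Bm_smul (W : SU N) (r : ℝ) (x : ℂ) : Bm W (r * x) = r • Bm W x := by
  have h : star ((r : ℂ) * x) = (r : ℂ) * star x := by
    rw [star_mul', RCLike.star_def, Complex.conj_ofReal]
  unfold Bm
  rw [h, smul_comm r Complex.I, smul_add r, mul_smul, mul_smul, Complex.coe_smul, Complex.coe_smul]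

lemma adj_add (g : SU N) (M M' : Mt N) : Adj g (M + M') = Adj g M + Adj g M' := by
  unfold Adj
  rw [Matrix.mul_add, Matrix.add_mul]

lemma adj_Bm (g W : SU N) (z : ℂ) (h : Adj g (W : Mt N) = star z • (W : Mt N)) (x : ℂ) :
    Adj g (Bm W x) = Bm W (z * x) := by
  have h2 : Adj g (W : Mt N)ᴴ = z • (W : Mt N)ᴴ := by
    rw [← PkgE.adj_ct, h, conjTranspose_smul, star_star]
  unfold Bm
  rw [PkgE.adj_smul, adj_add, PkgE.adj_smul, PkgE.adj_smul, h, h2, smul_smul, smul_smul, star_mul',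
    mul_comm x z, mul_comm (star x) (star z)]

lemma ip_Bm (W : SU N) (X : Mt N) (hX : Xᴴ = -X) (x : ℂ) :
    ip X (Bm W x) = 2 * (star x * (X * (W : Mt N)).trace).im := by
  have h1 : (X * (W : Mt N)ᴴ).trace = - star ((X * (W : Mt N)).trace) := by
    rw [← trace_conjTranspose, conjTranspose_mul, hX, mul_neg, trace_neg, neg_neg,
      trace_mul_comm]
  rw [ip, hX, Bm, neg_mul, mul_smul_comm, mul_add, mul_smul_comm, mul_smul_comm, trace_neg,
    trace_smul, trace_add, trace_smul, trace_smul, h1]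
  simp only [smul_eq_mul, RCLike.star_def, Complex.neg_re, Complex.mul_re, Complex.mul_im,
    Complex.add_re, Complex.add_im, Complex.neg_im, Complex.conj_re, Complex.conj_im,
    Complex.I_re, Complex.I_im]
  ring

lemma norm_Bm (W : SU N) (x : ℂ) :
    ‖Bm W x‖ ^ 2 = 2 * (N * ‖x‖ ^ 2 + ((star x) ^ 2 * ((W : Mt N) * (W : Mt N)).trace).re) := by
  rw [← PkgC1u.ip_self, ip_Bm W _ (Bm_ct W x)]
  congr 1
  have h1 : (Bm W x * (W : Mt N)).trace =
      Complex.I * (x * N + star x * ((W : Mt N) * (W : Mt N)).trace) := by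
    rw [Bm, smul_mul_assoc, add_mul, smul_mul_assoc, smul_mul_assoc, PkgE.ct_mul, trace_smul,
      trace_add, trace_smul, trace_smul, trace_one, Fintype.card_fin]
    rfl
  rw [h1]
  have h2 : star x * (Complex.I * (x * N + star x * ((W : Mt N) * (W : Mt N)).trace)) =
      Complex.I * ((N * ‖x‖ ^ 2 : ℝ) + (star x) ^ 2 * ((W : Mt N) * (W : Mt N)).trace) := by
    have h3 : ((‖x‖ : ℂ)) ^ 2 = x * star x := (Complex.mul_conj' _).symm
    push_cast
    rw [h3]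
    ring
  rw [h2, Complex.I_mul_im, Complex.add_re, Complex.ofReal_re]

lemma norm_Bm_add (W : SU N) (x : ℂ) : ‖Bm W x‖ ^ 2 + ‖Bm W (Complex.I * x)‖ ^ 2 = 4 * (N * ‖x‖ ^ 2) := by
  rw [norm_Bm, norm_Bm, star_mul', mul_pow, RCLike.star_def, Complex.conj_I, neg_sq, Complex.I_sq,
    norm_mul, Complex.norm_I, one_mul, neg_one_mul, neg_mul, Complex.neg_re]
  ring

lemma ip_sub_left (A B C : Mt N) : ip (A - B) C = ip A C - ip B C := by
  simp [ip, conjTranspose_sub, sub_mul, trace_sub]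

lemma ip_sub_right (A B C : Mt N) : ip A (B - C) = ip A B - ip A C := by
  simp [ip, mul_sub, trace_sub]

lemma abs_ip (A B : Mt N) : |ip A B| ≤ N * (‖A‖ * ‖B‖) := by
  unfold ip
  refine (Complex.abs_re_le_norm _).trans ((PkgE.norm_trace _).trans ?_)
  refine mul_le_mul_of_nonneg_left ?_ (Nat.cast_nonneg _)
  refine (norm_mul_le _ _).trans ?_
  rw [PkgE.norm_ct]

/-! ### the phases -/

/-- `exp (2 π i y.2.val / (N L))` -/
def zz (N : ℕ) {L : ℕ} (y : Tor L) : ℂ :=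
  Complex.exp ((2 * Real.pi * (y.2.val : ℝ) / (N * L) : ℝ) * Complex.I)

/-- `exp (2 π i / (N L))` -/
def ww (N L : ℕ) : ℂ := Complex.exp ((2 * Real.pi / (N * L) : ℝ) * Complex.I)

lemma norm_zz {L : ℕ} (y : Tor L) : ‖zz N y‖ = 1 := Complex.norm_exp_ofReal_mul_I _

lemma star_ww (N L : ℕ) : star (ww N L) * ww N L = 1 := by
  have h : ‖ww N L‖ = 1 := Complex.norm_exp_ofReal_mul_I _
  have h2 := Complex.mul_conj' (ww N L)
  rw [h] at h2
  rw [RCLike.star_def, mul_comm, h2]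
  norm_num

lemma ww_mu2 (N L : ℕ) : (1 - ww N L) * (1 - star (ww N L)) = ((mu2 N L : ℝ) : ℂ) := by
  have hr : (ww N L).re = Real.cos (2 * Real.pi / (N * L)) := Complex.exp_ofReal_mul_I_re _
  have hi : (ww N L).im = Real.sin (2 * Real.pi / (N * L)) := Complex.exp_ofReal_mul_I_im _
  have e : 2 * Real.pi / (N * L) = 2 * (Real.pi / (N * L)) := by ring
  rw [e] at hr hi
  have h1 := Real.sin_sq_add_cos_sq (2 * (Real.pi / (N * L)))
  have h2 := Real.cos_two_mul (Real.pi / (N * L))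
  have h3 := Real.sin_sq_add_cos_sq (Real.pi / (N * L))
  apply Complex.ext
  · simp only [Complex.mul_re, Complex.sub_re, Complex.one_re, Complex.sub_im, Complex.one_im,
      RCLike.star_def, Complex.conj_re, Complex.conj_im, hr, hi, Complex.ofReal_re]
    unfold mu2
    nlinarith
  · simp only [Complex.mul_im, Complex.sub_re, Complex.one_re, Complex.sub_im, Complex.one_im,
      RCLike.star_def, Complex.conj_re, Complex.conj_im, hr, hi, Complex.ofReal_im]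
    ring

section phase

variable {L : ℕ} [NeZero L]

lemma zz_tsh0 (y : Tor L) : zz N (tsh y 0) = zz N y := by
  have h1 : (tsh y 0).2 = y.2 := by simp [tsh]
  unfold zz
  rw [h1]

lemma zz_stp0 (n : ℕ) (y : Tor L) : zz N (PkgE.stp 0 n y) = zz N y := by
  have h1 : (PkgE.stp 0 n y).2 = y.2 := by simp [PkgE.stp]
  unfold zz
  rw [h1]

lemma zz_succ (y : Tor L) (h : y.2 ≠ -1) : zz N (tsh y 1) = ww N L * zz N y := by
  have h1 : (tsh y 1).2 = y.2 + 1 := by simp [tsh]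
  unfold zz ww
  rw [h1, PkgB.val_succ h, ← Complex.exp_add]
  congr 1
  push_cast
  ring

lemma val_last : ((-1 : ZMod L).val : ℝ) = L - 1 := by
  obtain ⟨n, rfl⟩ : ∃ n, L = n + 1 := ⟨L - 1, by have := NeZero.pos L; omega⟩
  rw [ZMod.val_neg_one]
  push_cast
  ring

lemma zz_last (hN : 2 ≤ N) (y : Tor L) (h : y.2 = -1) :
    zz N (tsh y 1) = 1 ∧ ww N L * zz N y = om N 1 := by
  have h1 : (tsh y 1).2 = 0 := by simp [tsh, h]
  constructor
  · unfold zz
    rw [h1, ZMod.val_zero]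
    simp
  · unfold zz ww om
    rw [h, val_last, ← Complex.exp_add]
    congr 1
    have hN0 : (N : ℂ) ≠ 0 := by
      have : N ≠ 0 := by omega
      exact_mod_cast this
    have hL0 : (L : ℂ) ≠ 0 := by exact_mod_cast (NeZero.ne L)
    push_cast
    field_simp
    ring

/-- the data of the mode -/
structure Dat (P Q W : SU N) : Prop where
  hP : Adj P (W : Mt N) = (W : Mt N)
  hQ : Adj Q (W : Mt N) = star (om N 1) • (W : Mt N)
  tr : (W : Mt N).trace = 0

variable {P Q W : SU N}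

lemma key1 (hN : 2 ≤ N) (D : Dat P Q W) (x : ℂ) (y : Tor L) :
    Adj ((vac P Q : Ph N L) y 1) (Bm W (x * zz N (tsh y 1))) = Bm W (x * (ww N L * zz N y)) := by
  by_cases h : y.2 = -1
  · obtain ⟨h1, h2⟩ := zz_last hN y h
    have h3 : (vac P Q : Ph N L) y 1 = Q := by simp [vac, h]
    rw [h1, h2, h3, adj_Bm Q W _ D.hQ, mul_one, mul_comm]
  · have h3 : (vac P Q : Ph N L) y 1 = 1 := by simp [vac, h]
    rw [h3, PkgB.adj_one, zz_succ y h]

lemma key0 (D : Dat P Q W) (x : ℂ) (y : Tor L) :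
    Adj ((vac P Q : Ph N L) y 0) (Bm W (x * zz N (tsh y 0))) = Bm W (x * zz N y) := by
  rw [zz_tsh0]
  by_cases h : y.1 = -1
  · have h3 : (vac P Q : Ph N L) y 0 = P := by simp [vac, h]
    rw [h3, adj_Bm P W 1 (by rw [star_one, one_smul]; exact D.hP), one_mul]
  · have h3 : (vac P Q : Ph N L) y 0 = 1 := by simp [vac, h]
    rw [h3, PkgB.adj_one]

/-- the mode -/
def Em (L : ℕ) [NeZero L] (W : SU N) (κ : ℂ) (y : Tor L) : Mt N := Bm W (κ * zz N y)

lemma dd0 (D : Dat P Q W) (κ : ℂ) (y : Tor L) : dd (vac P Q) (Em L W κ) y 0 = 0 := by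
  unfold dd Em
  rw [key0 D, sub_self]

lemma dd1 (hN : 2 ≤ N) (D : Dat P Q W) (κ : ℂ) (y : Tor L) :
    dd (vac P Q) (Em L W κ) y 1 = Bm W ((1 - ww N L) * κ * zz N y) := by
  unfold dd Em
  rw [key1 hN D, Bm_sub]
  congr 1
  ring

lemma ward (hN : 2 ≤ N) (D : Dat P Q W) (κ : ℂ) (b : Tor L → Mt N) :
    ∑ y, ip (dd (vac P Q) b y 1) (dd (vac P Q) (Em L W κ) y 1) =
      mu2 N L * ∑ y, ip (b y) (Em L W κ y) := by
  have e1 : ∀ y : Tor L, ip (dd (vac P Q) b y 1) (dd (vac P Q) (Em L W κ) y 1) =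
      ip (b y) (Bm W ((1 - ww N L) * κ * zz N y)) -
        (fun y : Tor L => ip (b y) (Bm W ((1 - ww N L) * κ * star (ww N L) * zz N y))) (tsh y 1) := by
    intro y
    rw [dd1 hN D, dd, ip_sub_left]
    congr 1
    have h1 := key1 hN D ((1 - ww N L) * κ * star (ww N L)) y
    have h2 : (1 - ww N L) * κ * star (ww N L) * (ww N L * zz N y) = (1 - ww N L) * κ * zz N y := by
      have := star_ww N L
      linear_combination (1 - ww N L) * κ * zz N y * this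
    rw [h2] at h1
    rw [← h1, PkgC1u.ip_adj]
  rw [Finset.sum_congr rfl fun y _ => e1 y, Finset.sum_sub_distrib,
    PkgC1u.sum_tsh (fun y : Tor L => ip (b y) (Bm W ((1 - ww N L) * κ * star (ww N L) * zz N y))) 1,
    ← Finset.sum_sub_distrib, Finset.mul_sum]
  refine Finset.sum_congr rfl fun y _ => ?_
  rw [← ip_sub_right, Bm_sub, Em, ← PkgC1u.ip_smul_right, ← Bm_smul]
  congr 2
  rw [← ww_mu2]
  ring

lemma exists_kap (hN : 2 ≤ N) (W : SU N) : ∃ κ : ℂ, ‖κ‖ ≤ 1 ∧ ∑ y, ‖Em L W κ y‖ ^ 2 = 1 := by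
  have hL : (1 : ℝ) ≤ L := by exact_mod_cast NeZero.pos L
  have hN' : (2 : ℝ) ≤ N := by exact_mod_cast hN
  have h1 : ∑ y : Tor L, ‖Em L W 1 y‖ ^ 2 + ∑ y : Tor L, ‖Em L W Complex.I y‖ ^ 2 =
      (L * L : ℝ) * (4 * N) := by
    rw [← Finset.sum_add_distrib]
    have e : ∀ y ∈ (Finset.univ : Finset (Tor L)), ‖Em L W 1 y‖ ^ 2 + ‖Em L W Complex.I y‖ ^ 2 =
        4 * N := by
      intro y _
      unfold Em
      rw [one_mul, norm_Bm_add, norm_zz]
      ring
    rw [Finset.sum_congr rfl e, Finset.sum_const, Finset.card_univ, nsmul_eq_mul,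
      Fintype.card_prod, ZMod.card]
    push_cast
    ring
  obtain ⟨u, hu, hS⟩ : ∃ u : ℂ, ‖u‖ = 1 ∧ 1 ≤ ∑ y : Tor L, ‖Em L W u y‖ ^ 2 := by
    by_contra hc
    push Not at hc
    have a1 := hc 1 (by simp)
    have a2 := hc Complex.I (by simp)
    have a3 : (1 : ℝ) ≤ L * L := by nlinarith
    nlinarith
  obtain ⟨S, hSd⟩ : ∃ S : ℝ, S = ∑ y : Tor L, ‖Em L W u y‖ ^ 2 := ⟨_, rfl⟩
  rw [← hSd] at hS
  have hs : 1 ≤ Real.sqrt S := Real.one_le_sqrt.2 hS
  refine ⟨((Real.sqrt S)⁻¹ : ℝ) * u, ?_, ?_⟩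
  · rw [norm_mul, hu, mul_one, Complex.norm_real, norm_inv, Real.norm_of_nonneg (by positivity)]
    exact inv_le_one_of_one_le₀ hs
  · have e : ∀ y ∈ (Finset.univ : Finset (Tor L)), ‖Em L W (((Real.sqrt S)⁻¹ : ℝ) * u) y‖ ^ 2 =
        S⁻¹ * ‖Em L W u y‖ ^ 2 := by
      intro y _
      unfold Em
      rw [mul_assoc, Bm_smul, norm_smul, mul_pow, norm_inv, inv_pow,
        Real.norm_of_nonneg (Real.sqrt_nonneg _), Real.sq_sqrt (by linarith)]
    rw [Finset.sum_congr rfl e, ← Finset.mul_sum, ← hSd]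
    exact inv_mul_cancel₀ (by linarith)

end phase

/-! ### holonomies -/

section hols

variable {L : ℕ} [NeZero L]

lemma hol_add (φ : Ph N L) (j : Fin 2) (m n : ℕ) : ∀ y : Tor L,
    hol φ j (m + n) y = hol φ j m y * hol φ j n (PkgE.stp j m y) := by
  induction m with
  | zero => intro y; simp [hol, PkgE.stp_zero]
  | succ m ih =>
    intro y
    rw [Nat.add_right_comm, hol, hol, ih, PkgE.stp_succ, mul_assoc]

lemma hol_pow (φ : Ph N L) (j : Fin 2) (a : ℕ) (y : Tor L) :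
    hol φ j (L * a) y = hol φ j L y ^ a := by
  induction a with
  | zero => simp [hol]
  | succ a ih => rw [Nat.mul_succ, add_comm, hol_add, PkgE.stp_L, ih, pow_succ']

/-- the link divided by the vacuum -/
def gq (P Q : SU N) (φ : Ph N L) (y : Tor L) : SU N := φ y 0 * ((vac P Q : Ph N L) y 0)⁻¹

/-- the holonomy divided by the holonomy of the vacuum -/
def Kn (P Q : SU N) (φ : Ph N L) (n : ℕ) (y : Tor L) : SU N :=
  hol φ 0 n y * (hol (vac P Q : Ph N L) 0 n y)⁻¹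

lemma Kn_succ (P Q : SU N) (φ : Ph N L) (n : ℕ) (y : Tor L) :
    Kn P Q φ (n + 1) y = gq P Q φ y *
      ((vac P Q : Ph N L) y 0 * Kn P Q φ n (tsh y 0) * ((vac P Q : Ph N L) y 0)⁻¹) := by
  unfold Kn gq
  rw [hol, hol]
  group

lemma norm_conj_sub (v g : SU N) : ‖((v * g * v⁻¹ : SU N) : Mt N) - 1‖ = ‖(g : Mt N) - 1‖ := by
  have h : ((v * g * v⁻¹ : SU N) : Mt N) - 1 = Adj v ((g : Mt N) - 1) := by
    rw [PkgE.adj_sub, PkgE.adj_one]
    rfl
  rw [h, PkgE.norm_adj]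

lemma norm_mul_one (g g' : SU N) : ‖((g * g' : SU N) : Mt N) - 1‖ ≤
    ‖(g : Mt N) - 1‖ + ‖(g' : Mt N) - 1‖ := by
  have h := PkgE.norm_mul_sub g 1 g' 1
  rw [mul_one] at h
  exact h

variable {P Q W : SU N}

lemma Kn_norm {φ : Ph N L} {δ : ℝ} (h : ∀ y, ‖(gq P Q φ y : Mt N) - 1‖ ≤ δ) (n : ℕ) :
    ∀ y, ‖(Kn P Q φ n y : Mt N) - 1‖ ≤ n * δ := by
  induction n with
  | zero => intro y; simp [Kn, hol]
  | succ n ih =>
    intro y
    rw [Kn_succ]
    refine (norm_mul_one _ _).trans ?_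
    rw [norm_conj_sub]
    have h1 := h y
    have h2 := ih (tsh y 0)
    push_cast
    linarith

/-- the linear functional -/
def ft (W g : SU N) : ℂ := (((g : Mt N) - 1) * (W : Mt N)).trace

lemma ft_mul (W g g' : SU N) : ft W (g * g') = ft W g + ft W g' +
    (((g : Mt N) - 1) * ((g' : Mt N) - 1) * (W : Mt N)).trace := by
  unfold ft
  rw [← trace_add, ← trace_add]
  congr 1
  have : ((g * g' : SU N) : Mt N) = (g : Mt N) * (g' : Mt N) := rfl
  rw [this]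
  noncomm_ring

lemma ft_conj (v g : SU N) (h : v * W = W * v) : ft W (v * g * v⁻¹) = ft W g := by
  have h1 : v⁻¹ * W = W * v⁻¹ := by
    rw [inv_mul_eq_iff_eq_mul, ← mul_assoc, h, mul_inv_cancel_right]
  have h2 : ((v⁻¹ : SU N) : Mt N) * (W : Mt N) = (W : Mt N) * ((v⁻¹ : SU N) : Mt N) :=
    congrArg (fun x : SU N => (x : Mt N)) h1
  have h3 : ((v * g * v⁻¹ : SU N) : Mt N) - 1 = (v : Mt N) * ((g : Mt N) - 1) * ((v⁻¹ : SU N) : Mt N) := by
    have : ((v * g * v⁻¹ : SU N) : Mt N) = (v : Mt N) * (g : Mt N) * ((v⁻¹ : SU N) : Mt N) := rfl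
    rw [this, mul_sub, sub_mul, mul_one, PkgB.coe_mul_inv]
  unfold ft
  rw [h3, mul_assoc, h2, mul_assoc, trace_mul_comm, mul_assoc, mul_assoc, PkgB.coe_inv_mul, mul_one]

lemma norm_ft_le (W : SU N) (M : Mt N) : ‖(M * (W : Mt N)).trace‖ ≤ N * ‖M‖ := by
  refine (PkgE.norm_trace _).trans ?_
  rw [PkgE.norm_mul_su]

lemma ft_sum {φ : Ph N L} {δ : ℝ} (hδ : 0 ≤ δ) (h : ∀ y, ‖(gq P Q φ y : Mt N) - 1‖ ≤ δ)
    (hv : ∀ y : Tor L, (vac P Q : Ph N L) y 0 * W = W * (vac P Q : Ph N L) y 0) (n : ℕ) : ∀ y,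
    ‖ft W (Kn P Q φ n y) - ∑ j ∈ Finset.range n, ft W (gq P Q φ (PkgE.stp 0 j y))‖ ≤
      N * ((n : ℝ) ^ 2 * δ ^ 2) := by
  induction n with
  | zero => intro y; simp [Kn, hol, ft]
  | succ n ih =>
    intro y
    rw [Kn_succ, ft_mul, ft_conj _ _ (hv y), Finset.sum_range_succ', PkgE.stp_zero]
    simp only [PkgE.stp_succ]
    have h1 := ih (tsh y 0)
    have h2 := norm_ft_le W (((gq P Q φ y : Mt N) - 1) * ((((vac P Q : Ph N L) y 0 *
      Kn P Q φ n (tsh y 0) * ((vac P Q : Ph N L) y 0)⁻¹ : SU N) : Mt N) - 1))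
    have h3 : ‖((gq P Q φ y : Mt N) - 1) * ((((vac P Q : Ph N L) y 0 *
      Kn P Q φ n (tsh y 0) * ((vac P Q : Ph N L) y 0)⁻¹ : SU N) : Mt N) - 1)‖ ≤ δ * (n * δ) := by
      refine (norm_mul_le _ _).trans ?_
      rw [norm_conj_sub]
      exact mul_le_mul (h y) (Kn_norm h n _) (norm_nonneg _) hδ
    have h4 := mul_le_mul_of_nonneg_left h3 (Nat.cast_nonneg (α := ℝ) N)
    calc _ = ‖(ft W (Kn P Q φ n (tsh y 0)) -
          ∑ j ∈ Finset.range n, ft W (gq P Q φ (PkgE.stp 0 j (tsh y 0)))) +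
          (((gq P Q φ y : Mt N) - 1) * ((((vac P Q : Ph N L) y 0 *
      Kn P Q φ n (tsh y 0) * ((vac P Q : Ph N L) y 0)⁻¹ : SU N) : Mt N) - 1) * (W : Mt N)).trace‖ := by
          congr 1; ring
      _ ≤ _ := norm_add_le _ _
      _ ≤ N * ((n : ℝ) ^ 2 * δ ^ 2) + N * (δ * (n * δ)) := add_le_add h1 (h2.trans h4)
      _ ≤ _ := by
        have e : (N : ℝ) * (((n + 1 : ℕ) : ℝ) ^ 2 * δ ^ 2) - (N * ((n : ℝ) ^ 2 * δ ^ 2) +
            N * (δ * (n * δ))) = N * ((n + 1) * δ ^ 2) := by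
          push_cast; ring
        have : 0 ≤ (N : ℝ) * ((n + 1) * δ ^ 2) := by positivity
        linarith

lemma ft_hol (φ : Ph N L) (a : ℕ) (hW : W = P ^ a) (ht : (W : Mt N).trace = 0) (y : Tor L) :
    ft W (Kn P Q φ (L * a) y) = ((hol φ 0 L y ^ a : SU N) : Mt N).trace := by
  unfold ft Kn
  rw [hol_pow, hol_pow, PkgE.hol_vac_L0, ← hW, sub_mul, one_mul, trace_sub, ht, sub_zero]
  have : ((hol φ 0 L y ^ a * W⁻¹ : SU N) : Mt N) * (W : Mt N) = ((hol φ 0 L y ^ a : SU N) : Mt N) :=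
    congrArg (fun x : SU N => (x : Mt N)) (inv_mul_cancel_right _ _)
  rw [this]

/-! ### the observable -/

/-- the Polyakov observable -/
def Gf (L : ℕ) [NeZero L] (a : ℕ) (κ : ℂ) (φ : Ph N L) : ℝ :=
  2 / (L * a) * ∑ y : Tor L, (star (κ * zz N y) * ((hol φ 0 L y ^ a : SU N) : Mt N).trace).im

lemma Gf_act (a : ℕ) (κ : ℂ) (g : Tor L → SU N) (φ : Ph N L) : Gf L a κ (act g φ) = Gf L a κ φ := by
  unfold Gf
  congr 1
  refine Finset.sum_congr rfl fun y _ => ?_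
  congr 2
  have h0 : hol (act g φ) 0 L y = g y * hol φ 0 L y * (g y)⁻¹ := by rw [PkgE.hol_act, PkgE.stp_L]
  rw [h0]
  exact (congrArg Matrix.trace (PkgE.conj_pow (g y) (hol φ 0 L y) a)).trans
    (PkgE.adj_trace (g y) ((hol φ 0 L y : Mt N) ^ a))

lemma Gf_cont (a : ℕ) (κ : ℂ) : Continuous (Gf (N := N) L a κ) := by
  unfold Gf
  refine continuous_const.mul (continuous_finsetSum _ fun y _ => ?_)
  refine Complex.continuous_im.comp (continuous_const.mul ?_)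
  exact (continuous_subtype_val.comp ((PkgE.cont_hol 0 L y).pow a)).matrix_trace

lemma Gf_le (hN : 2 ≤ N) (a : ℕ) (ha : 1 ≤ a) (κ : ℂ) (hκ : ‖κ‖ ≤ 1) (φ : Ph N L) :
    |Gf L a κ φ| ≤ 2 * N ^ 2 * L := by
  have hL : (1 : ℝ) ≤ L := by exact_mod_cast NeZero.pos L
  have ha' : (1 : ℝ) ≤ a := by exact_mod_cast ha
  have hN' : (2 : ℝ) ≤ N := by exact_mod_cast hN
  have h1 : ∀ y : Tor L, |(star (κ * zz N y) * ((hol φ 0 L y ^ a : SU N) : Mt N).trace).im| ≤ N ^ 2 := by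
    intro y
    refine (Complex.abs_im_le_norm _).trans ?_
    rw [norm_mul, norm_star, norm_mul, norm_zz, mul_one]
    have h2 := PkgE.norm_trace ((hol φ 0 L y ^ a : SU N) : Mt N)
    rw [PkgE.norm_su] at h2
    have h3 : Real.sqrt N ≤ N := by
      rw [Real.sqrt_le_left (by linarith)]
      nlinarith
    calc ‖κ‖ * ‖((hol φ 0 L y ^ a : SU N) : Mt N).trace‖ ≤ 1 * (N * Real.sqrt N) :=
          mul_le_mul hκ h2 (norm_nonneg _) (by norm_num)
      _ ≤ N ^ 2 := by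
          rw [one_mul, sq]
          exact mul_le_mul_of_nonneg_left h3 (by linarith)
  unfold Gf
  rw [abs_mul, abs_of_nonneg (show (0 : ℝ) ≤ 2 / (L * a) by positivity)]
  have h4 : |∑ y : Tor L, (star (κ * zz N y) * ((hol φ 0 L y ^ a : SU N) : Mt N).trace).im| ≤
      (L * L) * N ^ 2 := by
    refine (Finset.abs_sum_le_sum_abs _ _).trans ((Finset.sum_le_sum fun y _ => h1 y).trans ?_)
    rw [Finset.sum_const, Finset.card_univ, nsmul_eq_mul, Fintype.card_prod, ZMod.card]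
    push_cast
    exact le_rfl
  calc _ ≤ 2 / ((L : ℝ) * a) * ((L * L) * N ^ 2) := mul_le_mul_of_nonneg_left h4 (by positivity)
    _ = 2 * N ^ 2 * L * (1 / a) := by field_simp
    _ ≤ 2 * N ^ 2 * L * 1 := by
        refine mul_le_mul_of_nonneg_left ?_ (by positivity)
        rw [div_le_one (by linarith)]
        exact ha'
    _ = _ := by ring

lemma cen_comm (m : ℕ) (g : SU N) : g * cen N m = cen N m * g := by
  apply Subtype.ext
  show (g : Mt N) * (om N m • (1 : Mt N)) = (om N m • (1 : Mt N)) * (g : Mt N)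
  rw [mul_smul_comm, smul_mul_assoc, mul_one, one_mul]

lemma hol_cph (φ : Ph N L) (n : ℕ) (hn : n ≤ L) : ∀ y : Tor L,
    hol (cph φ) 0 n y = (if ∃ m < n, y.1 + (m : ZMod L) = -1 then cen N 1 else 1) * hol φ 0 n y := by
  induction n with
  | zero => intro y; simp [hol]
  | succ n ih =>
    intro y
    rw [hol, hol, ih (by omega)]
    have ht : (tsh y 0).1 = y.1 + 1 := by simp [tsh]
    rw [ht]
    by_cases h0 : y.1 = -1
    · have h1 : ¬ ∃ m < n, y.1 + 1 + (m : ZMod L) = -1 := by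
        rintro ⟨m, hm, h⟩
        rw [h0, neg_add_cancel, zero_add] at h
        have h2 : ((m + 1 : ℕ) : ZMod L) = 0 := by push_cast; rw [h]; ring
        rw [ZMod.natCast_eq_zero_iff] at h2
        exact absurd (Nat.le_of_dvd (by omega) h2) (by omega)
      have h2 : ∃ m < n + 1, y.1 + (m : ZMod L) = -1 := ⟨0, by omega, by simp [h0]⟩
      rw [if_neg h1, if_pos h2, one_mul]
      simp [cph, h0, mul_assoc]
    · have h3 : (∃ m < n + 1, y.1 + (m : ZMod L) = -1) ↔ ∃ m < n, y.1 + 1 + (m : ZMod L) = -1 := by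
        constructor
        · rintro ⟨m, hm, h⟩
          rcases m with _ | m
          · simp at h; exact absurd h h0
          · refine ⟨m, by omega, ?_⟩
            rw [← h]; push_cast; ring
        · rintro ⟨m, hm, h⟩
          refine ⟨m + 1, by omega, ?_⟩
          rw [← h]; push_cast; ring
      simp only [h3]
      have h4 : cph φ y 0 = φ y 0 := by simp [cph, h0]
      rw [h4]
      split_ifs
      · rw [← mul_assoc, cen_comm, mul_assoc]
      · rw [one_mul, one_mul]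

lemma hol_cph_L (φ : Ph N L) (y : Tor L) : hol (cph φ) 0 L y = cen N 1 * hol φ 0 L y := by
  rw [hol_cph φ L le_rfl y, if_pos (PkgE.exists_step y.1)]

lemma hol_cph_iter (φ : Ph N L) (n : ℕ) (y : Tor L) :
    hol (cph^[n] φ) 0 L y = cen N 1 ^ n * hol φ 0 L y := by
  induction n with
  | zero => simp
  | succ n ih => rw [Function.iterate_succ_apply', hol_cph_L, ih, pow_succ', mul_assoc]

lemma tr_cph_iter (φ : Ph N L) (n a : ℕ) (y : Tor L) :
    ((hol (cph^[n] φ) 0 L y ^ a : SU N) : Mt N).trace =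
      (om N 1 ^ a) ^ n * ((hol φ 0 L y ^ a : SU N) : Mt N).trace := by
  have h1 : Commute (cen N 1 ^ n) (hol φ 0 L y) :=
    (Commute.pow_left (show Commute (cen N 1) (hol φ 0 L y) from (cen_comm 1 _).symm) n)
  have h2 : hol (cph^[n] φ) 0 L y ^ a = (cen N 1 ^ n) ^ a * hol φ 0 L y ^ a := by
    rw [hol_cph_iter, h1.mul_pow]
  have h3 : (((cen N 1 ^ n) ^ a : SU N) : Mt N) = ((om N 1 ^ a) ^ n) • (1 : Mt N) := by
    have : (((cen N 1 ^ n) ^ a : SU N) : Mt N) = ((om N 1 • (1 : Mt N)) ^ n) ^ a := rfl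
    rw [this, smul_pow, smul_pow, one_pow, one_pow, ← pow_mul, ← pow_mul, mul_comm]
  rw [h2]
  have h4 : (((cen N 1 ^ n) ^ a * hol φ 0 L y ^ a : SU N) : Mt N) =
      (((cen N 1 ^ n) ^ a : SU N) : Mt N) * ((hol φ 0 L y ^ a : SU N) : Mt N) := rfl
  rw [h4, h3, smul_mul_assoc, one_mul, trace_smul, smul_eq_mul]

lemma Gf_cph (hN : 2 ≤ N) (a : ℕ) (ha : 1 ≤ a) (haN : a < N) (κ : ℂ) (φ : Ph N L) :
    ∑ n ∈ Finset.range N, Gf L a κ (cph^[n] φ) = 0 := by
  unfold Gf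
  rw [← Finset.mul_sum, Finset.sum_comm]
  have e : ∀ y ∈ (Finset.univ : Finset (Tor L)), ∑ n ∈ Finset.range N,
      (star (κ * zz N y) * ((hol (cph^[n] φ) 0 L y ^ a : SU N) : Mt N).trace).im = 0 := by
    intro y _
    rw [← Complex.im_sum]
    have h1 : ∑ n ∈ Finset.range N, star (κ * zz N y) *
        ((hol (cph^[n] φ) 0 L y ^ a : SU N) : Mt N).trace =
        (∑ n ∈ Finset.range N, (om N 1 ^ a) ^ n) *
          (star (κ * zz N y) * ((hol φ 0 L y ^ a : SU N) : Mt N).trace) := by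
      rw [Finset.sum_mul]
      refine Finset.sum_congr rfl fun n _ => ?_
      rw [tr_cph_iter]
      ring
    have hp : IsPrimitiveRoot (om N 1) N := PkgE.om_prim hN (Nat.coprime_one_left N)
    have h2 : ∑ n ∈ Finset.range N, (om N 1 ^ a) ^ n = 0 := by
      have h3 : om N 1 ^ a ≠ 1 := fun h => hp.pow_ne_one_of_pos_of_lt (by omega) haN h
      have h4 := geom_sum_mul (om N 1 ^ a) N
      have h5 : (om N 1 ^ a) ^ N = 1 := by rw [← pow_mul, mul_comm, pow_mul, hp.pow_eq_one, one_pow]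
      rw [h5, sub_self, mul_eq_zero] at h4
      exact h4.resolve_right (sub_ne_zero.2 h3)
    rw [h1, h2, zero_mul, Complex.zero_im]
  rw [Finset.sum_eq_zero e, mul_zero]

lemma swap_sum (κ : ℂ) (n : ℕ) (f : Tor L → ℂ) :
    ∑ y : Tor L, (star (κ * zz N y) * ∑ j ∈ Finset.range n, f (PkgE.stp 0 j y)).im =
      n * ∑ y : Tor L, (star (κ * zz N y) * f y).im := by
  have e : ∀ y ∈ (Finset.univ : Finset (Tor L)),
      (star (κ * zz N y) * ∑ j ∈ Finset.range n, f (PkgE.stp 0 j y)).im =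
      ∑ j ∈ Finset.range n, (fun y : Tor L => (star (κ * zz N y) * f y).im) (PkgE.stp 0 j y) := by
    intro y _
    simp only [zz_stp0]
    rw [Finset.mul_sum, Complex.im_sum]
  rw [Finset.sum_congr rfl e, Finset.sum_comm]
  have e2 : ∀ j ∈ Finset.range n, ∑ y : Tor L,
      (fun y : Tor L => (star (κ * zz N y) * f y).im) (PkgE.stp 0 j y) =
      ∑ y : Tor L, (star (κ * zz N y) * f y).im := fun j _ =>
    PkgC1u.sum_stp (fun y : Tor L => (star (κ * zz N y) * f y).im) 0 j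
  rw [Finset.sum_congr rfl e2, Finset.sum_const, Finset.card_range, nsmul_eq_mul]

lemma Gf_lin1 (hN : 2 ≤ N) (a : ℕ) (ha : 1 ≤ a) (haN : a < N) (κ : ℂ) (hκ : ‖κ‖ ≤ 1)
    (hW : W = P ^ a) (ht : (W : Mt N).trace = 0)
    (hv : ∀ y : Tor L, (vac P Q : Ph N L) y 0 * W = W * (vac P Q : Ph N L) y 0)
    {φ : Ph N L} {δ : ℝ} (hδ : 0 ≤ δ) (h : ∀ y, ‖(gq P Q φ y : Mt N) - 1‖ ≤ δ) :
    |Gf L a κ φ - 2 * ∑ y : Tor L, (star (κ * zz N y) * ft W (gq P Q φ y)).im| ≤
      2 * N ^ 2 * L ^ 3 * δ ^ 2 := by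
  have hL : (1 : ℝ) ≤ L := by exact_mod_cast NeZero.pos L
  have ha' : (1 : ℝ) ≤ a := by exact_mod_cast ha
  have haN' : (a : ℝ) ≤ N := by exact_mod_cast haN.le
  have h1 : 2 * ∑ y : Tor L, (star (κ * zz N y) * ft W (gq P Q φ y)).im =
      2 / (L * a) * ∑ y : Tor L, (star (κ * zz N y) * ∑ j ∈ Finset.range (L * a),
        ft W (gq P Q φ (PkgE.stp 0 j y))).im := by
    rw [swap_sum κ (L * a) (fun y => ft W (gq P Q φ y))]
    push_cast
    field_simp
  rw [h1]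
  unfold Gf
  rw [← mul_sub, ← Finset.sum_sub_distrib, abs_mul,
    abs_of_nonneg (show (0 : ℝ) ≤ 2 / (L * a) by positivity)]
  have h2 : ∀ y : Tor L, |(star (κ * zz N y) * ((hol φ 0 L y ^ a : SU N) : Mt N).trace).im -
      (star (κ * zz N y) * ∑ j ∈ Finset.range (L * a), ft W (gq P Q φ (PkgE.stp 0 j y))).im| ≤
      N * ((L * a : ℝ) ^ 2 * δ ^ 2) := by
    intro y
    rw [← Complex.sub_im, ← mul_sub]
    refine (Complex.abs_im_le_norm _).trans ?_
    rw [norm_mul, norm_star, norm_mul, norm_zz, mul_one, ← ft_hol φ a hW ht y]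
    have h3 := ft_sum hδ h hv (L * a) y
    rw [Nat.cast_mul] at h3
    calc _ ≤ 1 * (N * ((L * a : ℝ) ^ 2 * δ ^ 2)) :=
          mul_le_mul hκ h3 (norm_nonneg _) (by norm_num)
      _ = _ := one_mul _
  have h4 := (Finset.abs_sum_le_sum_abs (fun y : Tor L =>
    (star (κ * zz N y) * ((hol φ 0 L y ^ a : SU N) : Mt N).trace).im -
      (star (κ * zz N y) * ∑ j ∈ Finset.range (L * a), ft W (gq P Q φ (PkgE.stp 0 j y))).im)
    Finset.univ).trans (Finset.sum_le_sum fun y _ => h2 y)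
  rw [Finset.sum_const, Finset.card_univ, nsmul_eq_mul, Fintype.card_prod, ZMod.card] at h4
  refine (mul_le_mul_of_nonneg_left h4 (show (0 : ℝ) ≤ 2 / (L * a) by positivity)).trans ?_
  have e : 2 / ((L : ℝ) * a) * (((L * L : ℕ) : ℝ) * (N * ((L * a : ℝ) ^ 2 * δ ^ 2))) =
      2 * N * L ^ 3 * δ ^ 2 * a := by
    push_cast
    field_simp
  rw [e]
  calc 2 * (N : ℝ) * L ^ 3 * δ ^ 2 * a ≤ 2 * (N : ℝ) * L ^ 3 * δ ^ 2 * N :=
        mul_le_mul_of_nonneg_left haN' (by positivity)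
    _ = _ := by ring

lemma Gf_lin (hN : 2 ≤ N) (a : ℕ) (ha : 1 ≤ a) (haN : a < N) (κ : ℂ) (hκ : ‖κ‖ ≤ 1)
    (hW : W = P ^ a) (ht : (W : Mt N).trace = 0)
    (hv : ∀ y : Tor L, (vac P Q : Ph N L) y 0 * W = W * (vac P Q : Ph N L) y 0)
    (hE : ∀ y : Tor L, ‖Em L W κ y‖ ≤ 1) (C₀ : ℝ) (hC₀ : 0 < C₀)
    (hpr : ∀ g : SU N, ‖((g : Mt N) - 1) - pr ((g : Mt N) - 1)‖ ≤ C₀ * ‖(g : Mt N) - 1‖ ^ 2)
    (φ : Ph N L) (b : Tor L → Fin 2 → Mt N) (ρ : ℝ) (hρ : 0 ≤ ρ) (hρ1 : ρ ≤ 1)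
    (hb : ∀ y j, ‖b y j‖ ≤ ρ ∧ ‖(φ y j : Mt N) - (1 + b y j) * (vac P Q y j : Mt N)‖ ≤ ρ ^ 2) :
    |Gf L a κ φ - ∑ y, ip (b y 0) (Em L W κ y)| ≤ (8 * N ^ 2 + 12 * N * C₀ + N) * L ^ 3 * ρ ^ 2 := by
  have hL : (1 : ℝ) ≤ L := by exact_mod_cast NeZero.pos L
  have h1 : ∀ y : Tor L, ‖((gq P Q φ y : Mt N) - 1) - b y 0‖ ≤ ρ ^ 2 := by
    intro y
    have h2 := (hb y 0).2
    rw [← PkgE.norm_mul_su _ ((vac P Q : Ph N L) y 0)⁻¹] at h2
    have h3 : ((φ y 0 : Mt N) - (1 + b y 0) * (vac P Q y 0 : Mt N)) *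
        ((((vac P Q : Ph N L) y 0)⁻¹ : SU N) : Mt N) = ((gq P Q φ y : Mt N) - 1) - b y 0 := by
      rw [sub_mul, mul_assoc, PkgB.coe_mul_inv, mul_one]
      have : (gq P Q φ y : Mt N) = (φ y 0 : Mt N) * ((((vac P Q : Ph N L) y 0)⁻¹ : SU N) : Mt N) := rfl
      rw [this]
      abel
    rw [h3] at h2
    exact h2
  have hρ2 : ρ ^ 2 ≤ ρ := by nlinarith
  have hδ : ∀ y : Tor L, ‖(gq P Q φ y : Mt N) - 1‖ ≤ 2 * ρ := by
    intro y
    have e : (gq P Q φ y : Mt N) - 1 = (((gq P Q φ y : Mt N) - 1) - b y 0) + b y 0 := by abel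
    rw [e]
    refine (norm_add_le _ _).trans ?_
    have := h1 y
    have := (hb y 0).1
    linarith
  have hX : ∀ y : Tor L, ‖((gq P Q φ y : Mt N) - 1) - pr ((gq P Q φ y : Mt N) - 1)‖ ≤
      C₀ * (4 * ρ ^ 2) := by
    intro y
    refine (hpr _).trans (mul_le_mul_of_nonneg_left ?_ hC₀.le)
    have := pow_le_pow_left₀ (norm_nonneg _) (hδ y) 2
    linarith
  have h4 := Gf_lin1 hN a ha haN κ hκ hW ht hv (by linarith : (0 : ℝ) ≤ 2 * ρ) hδ
  have h5 : ∀ y : Tor L, |2 * (star (κ * zz N y) * ft W (gq P Q φ y)).im - ip (b y 0) (Em L W κ y)| ≤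
      (12 * N * C₀ + N) * ρ ^ 2 := by
    intro y
    obtain ⟨X, hXd⟩ : ∃ X : Mt N, X = (gq P Q φ y : Mt N) - 1 := ⟨_, rfl⟩
    have hX' := hX y
    have h1' := h1 y
    rw [← hXd] at hX' h1'
    have e1 : ip (pr X) (Em L W κ y) = 2 * (star (κ * zz N y) * (pr X * (W : Mt N)).trace).im :=
      ip_Bm W _ (PkgE.pr_mem hN X).1 _
    have e2 : 2 * (star (κ * zz N y) * ft W (gq P Q φ y)).im - ip (b y 0) (Em L W κ y) =
        2 * (star (κ * zz N y) * ((X - pr X) * (W : Mt N)).trace).im +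
          ip (pr X - b y 0) (Em L W κ y) := by
      rw [ip_sub_left, e1, sub_mul, trace_sub, mul_sub, Complex.sub_im, ft, ← hXd]
      ring
    rw [e2]
    refine (abs_add_le _ _).trans ?_
    have h6 : |2 * (star (κ * zz N y) * ((X - pr X) * (W : Mt N)).trace).im| ≤
        2 * (N * (C₀ * (4 * ρ ^ 2))) := by
      rw [abs_mul, abs_two]
      refine mul_le_mul_of_nonneg_left ?_ (by norm_num)
      refine (Complex.abs_im_le_norm _).trans ?_
      rw [norm_mul, norm_star, norm_mul, norm_zz, mul_one]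
      have h7 := (norm_ft_le W (X - pr X)).trans
        (mul_le_mul_of_nonneg_left hX' (Nat.cast_nonneg (α := ℝ) N))
      calc _ ≤ 1 * (N * (C₀ * (4 * ρ ^ 2))) := mul_le_mul hκ h7 (norm_nonneg _) (by norm_num)
        _ = _ := one_mul _
    have h8 : |ip (pr X - b y 0) (Em L W κ y)| ≤ N * (C₀ * (4 * ρ ^ 2) + ρ ^ 2) := by
      refine (abs_ip _ _).trans (mul_le_mul_of_nonneg_left ?_ (Nat.cast_nonneg _))
      have e3 : pr X - b y 0 = (X - b y 0) - (X - pr X) := by abel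
      have h9 : ‖pr X - b y 0‖ ≤ C₀ * (4 * ρ ^ 2) + ρ ^ 2 := by
        rw [e3]
        refine (norm_sub_le _ _).trans ?_
        linarith
      calc ‖pr X - b y 0‖ * ‖Em L W κ y‖ ≤ (C₀ * (4 * ρ ^ 2) + ρ ^ 2) * 1 :=
            mul_le_mul h9 (hE y) (norm_nonneg _) (by positivity)
        _ = _ := mul_one _
    calc _ ≤ 2 * (N * (C₀ * (4 * ρ ^ 2))) + N * (C₀ * (4 * ρ ^ 2) + ρ ^ 2) := add_le_add h6 h8
      _ = _ := by ring
  have h6 : |2 * ∑ y : Tor L, (star (κ * zz N y) * ft W (gq P Q φ y)).im -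
      ∑ y, ip (b y 0) (Em L W κ y)| ≤ (L * L) * ((12 * N * C₀ + N) * ρ ^ 2) := by
    rw [Finset.mul_sum, ← Finset.sum_sub_distrib]
    refine (Finset.abs_sum_le_sum_abs _ _).trans ((Finset.sum_le_sum fun y _ => h5 y).trans ?_)
    rw [Finset.sum_const, Finset.card_univ, nsmul_eq_mul, Fintype.card_prod, ZMod.card]
    push_cast
    exact le_rfl
  have h7 : (L : ℝ) * L * ((12 * N * C₀ + N) * ρ ^ 2) ≤ L ^ 3 * ((12 * N * C₀ + N) * ρ ^ 2) := by
    refine mul_le_mul_of_nonneg_right ?_ (by positivity)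
    have : (0 : ℝ) ≤ L * L * (L - 1) := by
      have : (0 : ℝ) ≤ L - 1 := by linarith
      positivity
    nlinarith
  calc _ = |(Gf L a κ φ - 2 * ∑ y : Tor L, (star (κ * zz N y) * ft W (gq P Q φ y)).im) +
      (2 * ∑ y : Tor L, (star (κ * zz N y) * ft W (gq P Q φ y)).im -
      ∑ y, ip (b y 0) (Em L W κ y))| := by congr 1; ring
    _ ≤ _ := abs_add_le _ _
    _ ≤ 2 * N ^ 2 * L ^ 3 * (2 * ρ) ^ 2 + L ^ 3 * ((12 * N * C₀ + N) * ρ ^ 2) :=
        add_le_add h4 (h6.trans h7)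
    _ = _ := by ring

end hols

/-- inverse of `k` modulo `N` -/
lemma exists_a {k : ℕ} (hN : 2 ≤ N) (hk : Nat.Coprime k N) :
    ∃ a : ℕ, 1 ≤ a ∧ a < N ∧ om N k ^ a = om N 1 := by
  obtain ⟨a, haN, ha⟩ := Nat.exists_mul_mod_eq_one_of_coprime hk (by omega)
  refine ⟨a, ?_, haN, ?_⟩
  · rcases Nat.eq_zero_or_pos a with h | h
    · rw [h, mul_zero, Nat.zero_mod] at ha
      omega
    · exact h
  · have h1 : k * a = N * (k * a / N) + 1 := by
      have := Nat.div_add_mod (k * a) N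
      rw [ha] at this
      exact this.symm
    have hN0 : (N : ℂ) ≠ 0 := by
      have : N ≠ 0 := by omega
      exact_mod_cast this
    have h2 : (k : ℂ) * a = N * ((k * a / N : ℕ) : ℂ) + 1 := by exact_mod_cast h1
    unfold om
    rw [← Complex.exp_nat_mul]
    have h3 : (a : ℂ) * (2 * Real.pi * Complex.I * k / N) =
        ((k * a / N : ℕ) : ℂ) * (2 * Real.pi * Complex.I) + 2 * Real.pi * Complex.I * (1 : ℕ) / N := by
      have e : (a : ℂ) * (2 * Real.pi * Complex.I * k / N) =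
          2 * Real.pi * Complex.I * ((k : ℂ) * a) / N := by ring
      rw [e, h2]
      push_cast
      field_simp
    rw [h3, Complex.exp_add, Complex.exp_nat_mul_two_pi_mul_I, one_mul]

end PkgUM

open PkgUM

theorem pUM : S_UM := by
  intro N k hN hk P Q h
  obtain ⟨a, ha, haN, hom⟩ := exists_a hN hk
  obtain ⟨C₀, hC₀, hpr⟩ := PkgE.su_sub_pr hN
  have hN' : (2 : ℝ) ≤ N := by exact_mod_cast hN
  obtain ⟨W, hW⟩ : ∃ W : SU N, W = P ^ a := ⟨_, rfl⟩
  have hWc : (W : Mt N) = (P : Mt N) ^ a := by rw [hW]; rfl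
  have ht : (W : Mt N).trace = 0 := by
    have := pA4 N k hN hk P Q h a 0 (fun hc => by
      have := Nat.le_of_dvd (by omega) hc.1
      omega)
    rw [pow_zero, mul_one] at this
    rw [hWc]
    exact this
  have hPW : P * W = W * P := by rw [hW, ← pow_succ, ← pow_succ']
  have hD : Dat P Q W := by
    refine ⟨?_, ?_, ht⟩
    · have : P * W * P⁻¹ = W := by rw [hPW, mul_inv_cancel_right]
      exact congrArg (fun x : SU N => (x : Mt N)) this
    · have h1 := PkgE.PQ_pow' h a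
      rw [hom, ← hWc] at h1
      have h2 : star (om N 1) * om N 1 = 1 := by
        have hn : ‖om N 1‖ = 1 :=
          (PkgE.om_prim hN (Nat.coprime_one_left N)).norm'_eq_one (by omega)
        have h3 := Complex.mul_conj' (om N 1)
        rw [hn] at h3
        rw [RCLike.star_def, mul_comm, h3]
        norm_num
      have h3 : (Q : Mt N) * (W : Mt N) = star (om N 1) • ((W : Mt N) * (Q : Mt N)) := by
        rw [h1, smul_smul, h2, one_smul]
      unfold Adj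
      rw [h3, smul_mul_assoc, mul_assoc, PkgB.coe_mul_inv, mul_one]
  refine ⟨8 * N ^ 2 + 12 * N * C₀ + N, 3, ?_, fun L _ => ?_⟩
  · have : (0 : ℝ) ≤ 12 * N * C₀ := by positivity
    nlinarith
  have hL : (1 : ℝ) ≤ L := by exact_mod_cast NeZero.pos L
  obtain ⟨κ, hκ, hS⟩ := exists_kap (L := L) hN W
  have hv : ∀ y : Tor L, (vac P Q : Ph N L) y 0 * W = W * (vac P Q : Ph N L) y 0 := by
    intro y
    by_cases h0 : y.1 = -1
    · have h3 : (vac P Q : Ph N L) y 0 = P := by simp [vac, h0]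
      rw [h3, hPW]
    · have h3 : (vac P Q : Ph N L) y 0 = 1 := by simp [vac, h0]
      rw [h3, mul_one, one_mul]
  have hE : ∀ y : Tor L, ‖Em L W κ y‖ ≤ 1 := by
    intro y
    have h1 : ‖Em L W κ y‖ ^ 2 ≤ 1 := by
      rw [← hS]
      exact Finset.single_le_sum (f := fun y => ‖Em L W κ y‖ ^ 2) (fun _ _ => by positivity)
        (Finset.mem_univ y)
    nlinarith [norm_nonneg (Em L W κ y)]
  refine ⟨Em L W κ, Gf L a κ, fun y => Bm_mem W ht _, hS, dd0 hD κ, fun b _ => ward hN hD κ b,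
    Gf_cont a κ, fun g φ => Gf_act a κ g φ, fun φ => ?_, Gf_cph hN a ha haN κ, ?_⟩
  · refine (Gf_le hN a ha κ hκ φ).trans ?_
    have h1 : (L : ℝ) ≤ L ^ 3 := by nlinarith [mul_nonneg (sub_nonneg.2 hL) (sub_nonneg.2 hL)]
    have h2 : 2 * (N : ℝ) ^ 2 ≤ 8 * N ^ 2 + 12 * N * C₀ + N := by
      have : (0 : ℝ) ≤ 12 * N * C₀ := by positivity
      nlinarith
    exact mul_le_mul h2 h1 (by positivity) (by positivity)
  · intro φ b ρ hρ hρ1 hb
    exact Gf_lin hN a ha haN κ hκ hW ht hv hE C₀ hC₀ hpr φ b ρ hρ hρ1 hb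

end T2H02.TT
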