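import Pool.Agent.T2H02.TT.StmV

/-!
# Package UR: real analysis
-/

set_option autoImplicit false

noncomputable section

namespace T2H02.TT

namespace PkgUR

/-- telescoping of `d t = c t - λ⁻¹ c (t-1)` -/
lemma tele {lam s η : ℝ} (hl : 1 < lam) (hs : s = lam + lam⁻¹) (c : ℕ → ℝ) (T : ℕ)
    (h : ∀ t, 1 ≤ t → t ≤ T → |s * c t - c (t + 1) - c (t - 1)| ≤ η) :
    (lam⁻¹) ^ T * (c (T + 1) - lam⁻¹ * c T) - η / (lam - 1) * (1 - (lam⁻¹) ^ T) ≤
      c 1 - lam⁻¹ * c 0 := by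
  have hl0 : 0 < lam := by linarith
  induction T with
  | zero => simp
  | succ T ih =>
    have h1 := ih fun t h1 h2 => h t h1 (by omega)
    have h2 := (abs_le.1 (h (T + 1) (by omega) le_rfl)).2
    rw [Nat.add_sub_cancel] at h2
    refine le_trans ?_ h1
    have hp : 0 < (lam⁻¹) ^ T := by positivity
    have e1 : s * c (T + 1) - c (T + 1 + 1) - c T =
        lam * (c (T + 1) - lam⁻¹ * c T) - (c (T + 1 + 1) - lam⁻¹ * c (T + 1)) := by
      rw [hs]
      field_simp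
      ring
    rw [e1] at h2
    have h3 : (lam⁻¹) ^ (T + 1) * (c (T + 1 + 1) - lam⁻¹ * c (T + 1)) ≥
        (lam⁻¹) ^ (T + 1) * (lam * (c (T + 1) - lam⁻¹ * c T) - η) :=
      mul_le_mul_of_nonneg_left (by linarith) (by positivity)
    have h2' := (abs_le.1 (h (T + 1) (by omega) le_rfl)).1
    rw [Nat.add_sub_cancel, e1] at h2'
    have h4 : (lam⁻¹) ^ (T + 1) * (c (T + 1 + 1) - lam⁻¹ * c (T + 1)) ≤
        (lam⁻¹) ^ (T + 1) * (lam * (c (T + 1) - lam⁻¹ * c T) + η) :=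
      mul_le_mul_of_nonneg_left (by linarith) (by positivity)
    have e2 : (lam⁻¹) ^ (T + 1) * (lam * (c (T + 1) - lam⁻¹ * c T) + η) =
        (lam⁻¹) ^ T * (c (T + 1) - lam⁻¹ * c T) + (lam⁻¹) ^ (T + 1) * η := by
      rw [pow_succ]
      field_simp
    have e3 : η / (lam - 1) * (1 - (lam⁻¹) ^ (T + 1)) =
        η / (lam - 1) * (1 - (lam⁻¹) ^ T) + (lam⁻¹) ^ (T + 1) * η := by
      have : lam - 1 ≠ 0 := by linarith
      rw [pow_succ]
      field_simp
      ring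
    linarith

lemma sinh_le {x : ℝ} (h0 : 0 ≤ x) (h1 : x ≤ 1) : Real.sinh x ≤ 2 * x := by
  rw [Real.sinh_eq]
  have h2 := (abs_le.1 (Real.abs_exp_sub_one_sub_id_le (x := x) (by rw [abs_of_nonneg h0]; exact h1))).2
  have h3 := Real.add_one_le_exp (-x)
  nlinarith

lemma cosh_two_arsinh (x : ℝ) : 2 * Real.cosh (2 * Real.arsinh (x / 2)) = 2 + x ^ 2 := by
  rw [Real.cosh_two_mul, Real.cosh_sq, Real.sinh_arsinh]
  ring

end PkgUR

open PkgUR in
theorem pUR : S_UR := by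
  intro ε hε hε1
  refine ⟨10000 / ε, ?_, ?_⟩
  · rw [le_div_iff₀ hε]; linarith
  intro μ κ η m T c hμ hμ2 hκ hκ' hη hη' hT hc h0 hrec hm
  set C : ℝ := 10000 / ε with hC
  have hC1 : 10000 ≤ C := by rw [hC, le_div_iff₀ hε]; linarith
  have hCpos : 0 < C := by linarith
  have hCε : C * ε = 10000 := by rw [hC]; field_simp
  set M : ℝ := 2 * Real.arsinh (μ / 2) with hM
  have hM0 : 0 < M := by
    rw [hM]
    have : 0 < Real.arsinh (μ / 2) := Real.arsinh_pos_iff.2 (by positivity)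
    positivity
  have hsM : Real.sinh (M / 2) = μ / 2 := by
    rw [hM, mul_div_cancel_left₀ _ (two_ne_zero), Real.sinh_arsinh]
  have hMμ : M ≤ μ := by
    have h1 : M / 2 ≤ Real.sinh (M / 2) := Real.self_le_sinh_iff.2 (by positivity)
    rw [hsM] at h1
    linarith
  have hM2 : M ≤ 2 := hMμ.trans hμ2
  have hμM : μ ≤ 2 * M := by
    have h1 := sinh_le (x := M / 2) (by positivity) (by linarith)
    rw [hsM] at h1
    linarith
  have hcM : 2 * Real.cosh M = 2 + μ ^ 2 := cosh_two_arsinh μ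
  have hsq : Real.sqrt (μ ^ 2 + κ) ^ 2 = μ ^ 2 + κ := Real.sq_sqrt (by positivity)
  set θ : ℝ := 2 * Real.arsinh (Real.sqrt (μ ^ 2 + κ) / 2) with hθ
  have hcθ : 2 * Real.cosh θ = 2 + (μ ^ 2 + κ) := by
    have := cosh_two_arsinh (Real.sqrt (μ ^ 2 + κ))
    rwa [hsq] at this
  have hθ0 : 0 ≤ θ := by
    rw [hθ]
    have : 0 ≤ Real.arsinh (Real.sqrt (μ ^ 2 + κ) / 2) := Real.arsinh_nonneg_iff.2 (by positivity)
    positivity
  have hMθ : M ≤ θ := by
    have h1 : Real.cosh M ≤ Real.cosh θ := by linarith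
    have h2 := Real.cosh_le_cosh.1 h1
    rwa [abs_of_pos hM0, abs_of_nonneg hθ0] at h2
  have hθpos : 0 < θ := hM0.trans_le hMθ
  -- `θ ≤ (1 + ε/4) M`
  have hθM : θ ≤ (1 + ε / 4) * M := by
    have h1 : Real.cosh θ ≤ Real.cosh (M + ε / 4 * M) := by
      rw [Real.cosh_add]
      have a1 : 1 ≤ Real.cosh (ε / 4 * M) := Real.one_le_cosh _
      have a2 : ε / 4 * M ≤ Real.sinh (ε / 4 * M) := Real.self_le_sinh_iff.2 (by positivity)
      have a3 : M ≤ Real.sinh M := Real.self_le_sinh_iff.2 hM0.le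
      have a4 : 0 < Real.cosh M := Real.cosh_pos M
      have a5 : Real.cosh M ≤ Real.cosh M * Real.cosh (ε / 4 * M) := le_mul_of_one_le_right a4.le a1
      have a6 : M * (ε / 4 * M) ≤ Real.sinh M * Real.sinh (ε / 4 * M) :=
        mul_le_mul a3 a2 (by positivity) (hM0.le.trans a3)
      have a7 : κ ≤ (2 * M) ^ 2 / C := hκ'.trans (div_le_div_of_nonneg_right
        (pow_le_pow_left₀ hμ.le hμM 2) hCpos.le)
      have a8 : (2 * M) ^ 2 / C ≤ 2 * (M * (ε / 4 * M)) := by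
        rw [div_le_iff₀ hCpos]
        have : 2 * (M * (ε / 4 * M)) * C = M ^ 2 / 2 * (C * ε) := by ring
        rw [this, hCε]
        linarith [sq_nonneg M]
      linarith
    have h2 := Real.cosh_le_cosh.1 h1
    rw [abs_of_nonneg hθ0, abs_of_nonneg (by positivity)] at h2
    linarith
  set lam : ℝ := Real.exp θ with hlam
  have hl1 : θ + 1 ≤ lam := Real.add_one_le_exp θ
  have hl : 1 < lam := by linarith
  have hs : 2 + μ ^ 2 + κ = lam + lam⁻¹ := by
    rw [hlam, ← Real.exp_neg]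
    rw [Real.cosh_eq] at hcθ
    linarith
  have htel := tele hl hs c T hrec
  have hlT : 0 < (lam⁻¹) ^ T := by positivity
  have hlT1 : (lam⁻¹) ^ T ≤ 1 := pow_le_one₀ (by positivity) (inv_le_one_of_one_le₀ hl.le)
  have hcT := abs_le.1 (hc T (by omega))
  have hcT1 := abs_le.1 (hc (T + 1) le_rfl)
  have hc1 := abs_le.1 (hc 1 (by omega))
  have hc00 : 0 ≤ c 0 := (abs_nonneg _).trans (hc 1 (by omega))
  have hc0 : 1 / 20 ≤ c 0 := by
    have h1 := (abs_le.1 h0).1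
    have hμ4 : μ ^ 2 ≤ 4 := by
      calc μ ^ 2 ≤ 2 ^ 2 := pow_le_pow_left₀ hμ.le hμ2 2
        _ = 4 := by norm_num
    have h2 : η ≤ 1 / 2 := hη'.trans (by rw [div_le_iff₀ hCpos]; linarith)
    have h3 : κ ≤ 1 := hκ'.trans (by rw [div_le_iff₀ hCpos]; linarith)
    have h4 : (2 + μ ^ 2 + κ) ≤ 7 := by linarith
    have h5 : 1 / 2 ≤ (2 + μ ^ 2 + κ) * c 0 + 2 * c 0 := by linarith [hc1.1]
    have h6 : (2 + μ ^ 2 + κ) * c 0 ≤ 7 * c 0 := mul_le_mul_of_nonneg_right h4 hc00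
    linarith
  have hc0pos : 0 < c 0 := by linarith
  have hd : -(2 * c 0) ≤ c (T + 1) - lam⁻¹ * c T := by
    have h0 : lam⁻¹ * c T ≤ lam⁻¹ * c 0 := mul_le_mul_of_nonneg_left hcT.2 (by positivity)
    have h1 : lam⁻¹ * c 0 ≤ 1 * c 0 := mul_le_mul_of_nonneg_right (inv_le_one_of_one_le₀ hl.le) hc00
    linarith [hcT1.1]
  have hE : 0 ≤ η / (lam - 1) := div_nonneg hη (by linarith)
  have h7 : lam⁻¹ * c 0 - (lam⁻¹) ^ T * (2 * c 0) - η / (lam - 1) ≤ c 1 := by
    have h8 : (lam⁻¹) ^ T * (-(2 * c 0)) ≤ (lam⁻¹) ^ T * (c (T + 1) - lam⁻¹ * c T) :=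
      mul_le_mul_of_nonneg_left hd hlT.le
    have h9 : η / (lam - 1) * (1 - (lam⁻¹) ^ T) ≤ η / (lam - 1) :=
      mul_le_of_le_one_right hE (by linarith)
    linarith
  have hηθ : η / (lam - 1) ≤ 4 * M / C := by
    calc η / (lam - 1) ≤ η / M := div_le_div_of_nonneg_left hη hM0 (by linarith)
      _ ≤ (μ ^ 2 / C) / M := div_le_div_of_nonneg_right hη' hM0.le
      _ ≤ ((2 * M) ^ 2 / C) / M := by
          refine div_le_div_of_nonneg_right (div_le_div_of_nonneg_right ?_ hCpos.le) hM0.le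
          exact pow_le_pow_left₀ hμ.le hμM 2
      _ = 4 * M / C := by field_simp; ring
  have hlamT : (lam⁻¹) ^ T ≤ 4 * M / C := by
    have e1 : (lam⁻¹) ^ T = (Real.exp (T * θ))⁻¹ := by
      rw [hlam, inv_pow, ← Real.exp_nat_mul]
    rw [e1]
    have h1 : C / (2 * μ) ≤ T * θ := by
      calc C / (2 * μ) = (C / μ ^ 2) * (μ / 2) := by field_simp
        _ ≤ T * θ := mul_le_mul hT (by linarith) (by positivity) (by positivity)
    have h2 : C / (2 * μ) ≤ Real.exp (T * θ) := h1.trans (by linarith [Real.add_one_le_exp (T * θ)])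
    calc (Real.exp (T * θ))⁻¹ ≤ (C / (2 * μ))⁻¹ := inv_anti₀ (by positivity) h2
      _ = 2 * μ / C := by rw [inv_div]
      _ ≤ 4 * M / C := div_le_div_of_nonneg_right (by linarith) hCpos.le
  have h10 : lam⁻¹ - 88 * M / C ≤ Real.exp (-m) := by
    have h11 : lam⁻¹ * c 0 - (lam⁻¹) ^ T * (2 * c 0) - η / (lam - 1) ≤ Real.exp (-m) * c 0 :=
      h7.trans hm
    have h12 : η / (lam - 1) ≤ 20 * (4 * M / C) * c 0 := by
      have : 4 * M / C * 1 ≤ 4 * M / C * (20 * c 0) :=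
        mul_le_mul_of_nonneg_left (by linarith) (by positivity)
      linarith
    have h13 : (lam⁻¹) ^ T * c 0 ≤ (4 * M / C) * c 0 := mul_le_mul_of_nonneg_right hlamT hc0pos.le
    have h14 : (lam⁻¹ - 88 * M / C) * c 0 ≤ Real.exp (-m) * c 0 := by
      have : 88 * M / C = 2 * (4 * M / C) + 20 * (4 * M / C) := by ring
      rw [this]
      linarith
    exact le_of_mul_le_mul_right h14 hc0pos
  by_contra hcon
  push Not at hcon
  have h15 : Real.exp (-m) < Real.exp (-((1 + ε) * M)) := Real.exp_lt_exp.2 (by linarith)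
  have h16 : Real.exp (-((1 + ε / 4) * M)) ≤ lam⁻¹ := by
    rw [hlam, ← Real.exp_neg]
    exact Real.exp_le_exp.2 (by linarith)
  have h17 : Real.exp (-((1 + ε) * M)) * (1 + 3 * ε / 4 * M) ≤ Real.exp (-((1 + ε / 4) * M)) := by
    have e1 : -((1 + ε / 4) * M) = -((1 + ε) * M) + 3 * ε / 4 * M := by ring
    rw [e1, Real.exp_add]
    exact mul_le_mul_of_nonneg_left (by linarith [Real.add_one_le_exp (3 * ε / 4 * M)])
      (Real.exp_pos _).le
  have h18 : (1 : ℝ) / 81 ≤ Real.exp (-((1 + ε) * M)) := by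
    have h1 : Real.exp (-4) ≤ Real.exp (-((1 + ε) * M)) := Real.exp_le_exp.2 (by
      have : (1 + ε) * M ≤ 2 * 2 := mul_le_mul (by linarith) hM2 hM0.le (by norm_num)
      linarith)
    refine le_trans ?_ h1
    rw [Real.exp_neg, one_div]
    refine inv_anti₀ (Real.exp_pos _) ?_
    have h2 : Real.exp 4 = Real.exp 1 ^ 4 := by rw [← Real.exp_nat_mul]; norm_num
    rw [h2]
    have h3 : Real.exp 1 ≤ 3 := by linarith [Real.exp_one_lt_d9]
    calc Real.exp 1 ^ 4 ≤ 3 ^ 4 := pow_le_pow_left₀ (Real.exp_pos 1).le h3 4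
      _ = 81 := by norm_num
  have h19 : 1 / 81 * (3 * ε / 4 * M) ≤ Real.exp (-((1 + ε) * M)) * (3 * ε / 4 * M) :=
    mul_le_mul_of_nonneg_right h18 (by positivity)
  have h20 : 88 * M / C < 1 / 81 * (3 * ε / 4 * M) := by
    rw [div_lt_iff₀ hCpos]
    have : 1 / 81 * (3 * ε / 4 * M) * C = M / 108 * (C * ε) := by ring
    rw [this, hCε]
    linarith
  linarith

end T2H02.TT
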