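import Pool.Agent.T2H02.TT.StmV
import Pool.Agent.T2H02.TT.C1u
import Pool.Agent.T2H02.TT.LL

/-!
# Package UT: quadratic form of the shift field, Lipschitz bound of the change of variables
-/

set_option autoImplicit false
set_option linter.unusedSectionVars false

noncomputable section

open MeasureTheory Matrix
open scoped Matrix.Norms.Frobenius

namespace T2H02.TT

namespace PkgUT

open PkgC1u

variable {N L : ℕ} [NeZero L]

lemma Adj_zero (g : SU N) : Adj g (0 : Mt N) = 0 := by simp [Adj]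

lemma Adj_one' (M : Mt N) : Adj (1 : SU N) M = M := by simp [Adj]

lemma Adj_smul (g : SU N) (c : ℝ) (M : Mt N) : Adj g (c • M) = c • Adj g M := by
  simp [Adj]

lemma Adj_sub (g : SU N) (A B : Mt N) : Adj g (A - B) = Adj g A - Adj g B := by
  simp [Adj, mul_sub, sub_mul]

lemma shm2 (ψ : Pl → ℝ) (E : Tor L → Mt N) (x : Pl) (y : Tor L) :
    shm 1 ψ E ((x, y), 2) = ψ x • E y := by
  unfold shm
  rw [if_pos rfl, one_mul]
  exact (RCLike.real_smul_eq_coe_smul (K := ℂ) (ψ x) (E y)).symm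

lemma shm_ne (ψ : Pl → ℝ) (E : Tor L → Mt N) (p : Pt L) (i : Fin 4) (hi : i ≠ 2) :
    shm 1 ψ E (p, i) = 0 := by
  unfold shm
  exact if_neg hi

lemma cuh23 (P Q : SU N) (ψ : Pl → ℝ) (E : Tor L → Mt N) (x : Pl) (y : Tor L) :
    cu P Q (shm 1 ψ E) (x, y) 2 3 = ψ x • (E - Sj P Q 1 E) y := by
  unfold cu
  rw [nx2, nx3, shm2, shm2, shm_ne _ _ _ 3 (by decide), shm_ne _ _ _ 3 (by decide), Adj_zero,
    PkgLL.vc3, Adj_smul]
  simp only [Pi.sub_apply, Sj, smul_sub]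
  abel

lemma cua23 (P Q : SU N) (a : Lk L → Mt N) (x : Pl) (y : Tor L) :
    cu P Q a (x, y) 2 3 =
      (((fun y => a ((x, y), 2)) - Sj P Q 1 (fun y => a ((x, y), 2))) -
        ((fun y => a ((x, y), 3)) - Sj P Q 0 (fun y => a ((x, y), 3)))) y := by
  unfold cu
  rw [nx2, nx3, PkgLL.vc2, PkgLL.vc3]
  simp only [Pi.sub_apply, Sj]
  abel

lemma cuhm2 (P Q : SU N) (ψ : Pl → ℝ) (E : Tor L → Mt N) (x : Pl) (y : Tor L) (m : Fin 4)
    (hm : m = 0 ∨ m = 1) :
    cu P Q (shm 1 ψ E) (x, y) m 2 = (ψ (x + pe m) - ψ x) • E y := by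
  have hnx : nx (x, y) m = (x + pe m, y) := by
    rcases hm with rfl | rfl
    · rw [nx0]; rfl
    · rw [nx1]; rfl
  have hvc : (vc P Q ((x, y), m) : SU N) = 1 := by
    rcases hm with rfl | rfl
    · exact PkgLL.vc0 _ _ _
    · exact PkgLL.vc1 _ _ _
  have hm2 : m ≠ 2 := by rcases hm with rfl | rfl <;> decide
  unfold cu
  rw [hnx, hvc, shm2, shm2, shm_ne _ _ _ m hm2, shm_ne _ _ _ m hm2, Adj_zero, Adj_one', sub_smul]
  abel

lemma cuhm3 (P Q : SU N) (ψ : Pl → ℝ) (E : Tor L → Mt N) (x : Pl) (y : Tor L) (m : Fin 4)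
    (hm : m = 0 ∨ m = 1) :
    cu P Q (shm 1 ψ E) (x, y) m 3 = 0 := by
  have hm2 : m ≠ 2 := by rcases hm with rfl | rfl <;> decide
  unfold cu
  rw [shm_ne _ _ _ m hm2, shm_ne _ _ _ m hm2, shm_ne _ _ _ 3 (by decide),
    shm_ne _ _ _ 3 (by decide), Adj_zero, Adj_zero]
  simp

lemma cuh01 (P Q : SU N) (ψ : Pl → ℝ) (E : Tor L → Mt N) (x : Pl) (y : Tor L) :
    cu P Q (shm 1 ψ E) (x, y) 0 1 = 0 := by
  unfold cu
  rw [shm_ne _ _ _ 0 (by decide), shm_ne _ _ _ 0 (by decide), shm_ne _ _ _ 1 (by decide),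
    shm_ne _ _ _ 1 (by decide), Adj_zero, Adj_zero]
  simp

lemma cuam2 (P Q : SU N) (a : Lk L → Mt N) (x : Pl) (y : Tor L) (m : Fin 4)
    (hm : m = 0 ∨ m = 1) :
    cu P Q a (x, y) m 2 = (((fun y => a ((x, y), m)) - Sj P Q 0 (fun y => a ((x, y), m))) +
      ((fun y => a ((x + pe m, y), 2)) - (fun y => a ((x, y), 2)))) y := by
  have hnx : nx (x, y) m = (x + pe m, y) := by
    rcases hm with rfl | rfl
    · rw [nx0]; rfl
    · rw [nx1]; rfl
  have hvc : (vc P Q ((x, y), m) : SU N) = 1 := by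
    rcases hm with rfl | rfl
    · exact PkgLL.vc0 _ _ _
    · exact PkgLL.vc1 _ _ _
  unfold cu
  rw [hnx, hvc, Adj_one', nx2, PkgLL.vc2]
  simp only [Pi.sub_apply, Pi.add_apply, Sj]
  abel

/-- orthogonality to the mode -/
lemma zero1 {P Q : SU N} {E : Tor L → Mt N} (hE : Sj P Q 0 E = E) (b : Tor L → Mt N) :
    bi (b - Sj P Q 0 b) E = 0 := by
  have h := bi_S P Q 0 b E
  rw [hE] at h
  rw [bi_sub_left, h, sub_self]

lemma zero2 {k : ℕ} {P Q : SU N} (h : PQ k P Q) {E : Tor L → Mt N} (hE : Sj P Q 0 E = E)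
    (b : Tor L → Mt N) : bi (b - Sj P Q 0 b) (E - Sj P Q 1 E) = 0 := by
  refine zero1 ?_ b
  rw [Sj_sub, Sj_comm h, hE]

/-- translation invariance of sums over the plane -/
lemma ts (f : Pl → ℝ) (v : Pl) : ∑' x, f (x + v) = ∑' x, f x :=
  (Equiv.addRight v).tsum_eq f

end PkgUT

open PkgUT PkgC1u in
theorem pUT1 : S_UT1 := by
  intro N k hN hk P Q hPQ L _ E hEsu hE0 hE1 Λ ψ hψ a ha
  classical
  have hE : Sj P Q 0 E = E := by
    funext y
    have h := hE0 y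
    unfold dd at h
    exact (sub_eq_zero.1 h).symm
  obtain ⟨A, hA⟩ : ∃ A : Pl → ℝ, ∀ x, A x = ∑ y : Tor L, ip (a ((x, y), 2)) (E y) :=
    ⟨_, fun _ => rfl⟩
  have hAbi : ∀ x, A x = bi (fun y => a ((x, y), 2)) E := hA
  -- torus terms
  have b0 : ∀ x, bf P Q (x, 0) a (shm 1 ψ E) = mu2 N L * (ψ x * A x) := by
    intro x
    rw [PkgLL.bf0]
    simp only [cuh23, cua23 P Q a x]
    have e1 : ∑ y : Tor L, ip ((((fun y => a ((x, y), 2)) - Sj P Q 1 (fun y => a ((x, y), 2))) -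
        ((fun y => a ((x, y), 3)) - Sj P Q 0 (fun y => a ((x, y), 3)))) y)
        (ψ x • (E - Sj P Q 1 E) y) =
        bi (((fun y => a ((x, y), 2)) - Sj P Q 1 (fun y => a ((x, y), 2))) -
          ((fun y => a ((x, y), 3)) - Sj P Q 0 (fun y => a ((x, y), 3))))
          (ψ x • (E - Sj P Q 1 E)) := rfl
    rw [e1, bi_smul_right, bi_sub_left, zero2 hPQ hE, sub_zero]
    have h2 := hE1 (fun y => a ((x, y), 2)) fun y => ha _
    have e2 : bi ((fun y => a ((x, y), 2)) - Sj P Q 1 (fun y => a ((x, y), 2)))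
        (E - Sj P Q 1 E) = mu2 N L * A x := by
      rw [hA]
      exact h2
    rw [e2]
    ring
  -- mixed terms
  have bm : ∀ x, ∀ m : Fin 4, (m = 0 ∨ m = 1) →
      ∑ y : Tor L, (ip (cu P Q a (x, y) m 2) (cu P Q (shm 1 ψ E) (x, y) m 2) +
        ip (cu P Q a (x, y) m 3) (cu P Q (shm 1 ψ E) (x, y) m 3)) =
        (ψ (x + pe m) - ψ x) * (A (x + pe m) - A x) := by
    intro x m hm
    have h3 : ∀ M : Mt N, ip M 0 = 0 := fun M => by simp [ip]
    simp only [cuhm3 P Q ψ E x _ m hm, h3, add_zero, cuhm2 P Q ψ E x _ m hm,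
      cuam2 P Q a x _ m hm]
    have e1 : ∑ y : Tor L, ip ((((fun y => a ((x, y), m)) - Sj P Q 0 (fun y => a ((x, y), m))) +
      ((fun y => a ((x + pe m, y), 2)) - (fun y => a ((x, y), 2)))) y)
        ((ψ (x + pe m) - ψ x) • E y) =
        bi (((fun y => a ((x, y), m)) - Sj P Q 0 (fun y => a ((x, y), m))) +
          ((fun y => a ((x + pe m, y), 2)) - (fun y => a ((x, y), 2))))
          ((ψ (x + pe m) - ψ x) • E) := rfl
    rw [e1, bi_smul_right, bi_add_left, zero1 hE, zero_add, bi_sub_left, ← hAbi, ← hAbi]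
  have b1 : ∀ x, bf P Q (x, 1) a (shm 1 ψ E) =
      (ψ (x + (1, 0)) - ψ x) * (A (x + (1, 0)) - A x) := fun x => by
    rw [PkgLL.bf1]; exact bm x 0 (Or.inl rfl)
  have b2 : ∀ x, bf P Q (x, 2) a (shm 1 ψ E) =
      (ψ (x + (0, 1)) - ψ x) * (A (x + (0, 1)) - A x) := fun x => by
    rw [PkgLL.bf2]; exact bm x 1 (Or.inr rfl)
  have b3 : ∀ x, bf P Q (x, 3) a (shm 1 ψ E) = 0 := fun x => by
    rw [PkgLL.bf3]
    refine Finset.sum_eq_zero fun y _ => ?_
    rw [cuh01]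
    simp [ip]
  -- supports
  have hself : ∀ x, ψ x ≠ 0 → x ∈ Λ := fun x hx => hψ x hx (by
    unfold Nb; simp)
  have hnear : ∀ x v : Pl, |v.1| ≤ 1 → |v.2| ≤ 1 → ψ (x + v) ≠ 0 → x ∈ Λ := by
    intro x v h1 h2 hx
    refine hψ _ hx ?_
    unfold Nb
    rw [Finset.mem_product, Finset.mem_Icc, Finset.mem_Icc]
    rw [abs_le] at h1 h2
    simp only [Prod.fst_add, Prod.snd_add, Nat.cast_one]
    refine ⟨⟨?_, ?_⟩, ?_, ?_⟩ <;> linarith [h1.1, h1.2, h2.1, h2.2]
  have hfin : ∀ v : Pl, ∀ g : Pl → ℝ, Summable fun x => ψ (x + v) * g x := by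
    intro v g
    refine summable_of_ne_finset_zero (s := Λ.image (fun x => x - v)) fun x hx => ?_
    have h1 : ψ (x + v) = 0 := by
      by_contra h
      exact hx (Finset.mem_image.2 ⟨x + v, hself _ h, by simp⟩)
    rw [h1, zero_mul]
  have hfin0 : ∀ g : Pl → ℝ, Summable fun x => ψ x * g x := by
    intro g
    have := hfin 0 g
    simpa using this
  -- the left side as a sum over the plane
  obtain ⟨S, hS⟩ : ∃ S : Finset Pl, S = Λ ∪ Λ.image (fun x => x - (1, 0)) ∪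
      Λ.image (fun x => x - (0, 1)) ∪ Λ.image (fun x => x - (1, 1)) := ⟨_, rfl⟩
  have hoff : ∀ τ : Tm, τ ∉ tml Λ → bf P Q τ a (shm 1 ψ E) = 0 := by
    rintro ⟨x, i⟩ hτ
    have hc : ∀ c ∈ cor (x, i), ψ c = 0 := by
      intro c hc
      by_contra h
      exact hτ ((mem_tml _ _).2 ⟨c, hc, hself c h⟩)
    fin_cases i
    · change bf P Q (x, 0) a _ = 0
      rw [b0, hc x ((mem_cor0 x x).2 rfl)]
      ring
    · change bf P Q (x, 1) a _ = 0
      rw [b1, hc x ((mem_cor1 x x).2 (Or.inl rfl)), hc _ ((mem_cor1 x _).2 (Or.inr rfl))]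
      ring
    · change bf P Q (x, 2) a _ = 0
      rw [b2, hc x ((mem_cor2 x x).2 (Or.inl rfl)), hc _ ((mem_cor2 x _).2 (Or.inr rfl))]
      ring
    · exact b3 x
  have hL1 : ∑ τ ∈ tml Λ, bf P Q τ a (shm 1 ψ E) =
      ∑ x ∈ S, ∑ i : Fin 4, bf P Q (x, i) a (shm 1 ψ E) := by
    rw [← Finset.sum_product']
    refine Finset.sum_subset ?_ fun τ _ hτ => hoff τ hτ
    rw [hS]
    exact Finset.filter_subset _ _
  have hL2 : ∑ x ∈ S, ∑ i : Fin 4, bf P Q (x, i) a (shm 1 ψ E) =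
      ∑' x, ∑ i : Fin 4, bf P Q (x, i) a (shm 1 ψ E) := by
    rw [tsum_eq_sum fun x hx => ?_]
    refine Finset.sum_eq_zero fun i _ => hoff _ fun h => hx ?_
    rw [tml, Finset.mem_filter, Finset.mem_product] at h
    rw [hS]
    exact h.1.1
  have hR : ∑ x ∈ Λ, (lap ψ x + mu2 N L * ψ x) * ∑ y : Tor L, ip (a ((x, y), 2)) (E y) =
      ∑' x, (lap ψ x + mu2 N L * ψ x) * A x := by
    simp only [← hA]
    rw [tsum_eq_sum fun x hx => ?_]
    have c0 : ψ x = 0 := by by_contra h; exact hx (hself x h)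
    have c1 : ψ (x + (1, 0)) = 0 := by by_contra h; exact hx (hnear x (1, 0) (by simp) (by simp) h)
    have c2 : ψ (x + (0, 1)) = 0 := by by_contra h; exact hx (hnear x (0, 1) (by simp) (by simp) h)
    have c3 : ψ (x - (1, 0)) = 0 := by
      by_contra h
      rw [sub_eq_add_neg] at h
      exact hx (hnear x (-(1, 0)) (by simp) (by simp) h)
    have c4 : ψ (x - (0, 1)) = 0 := by
      by_contra h
      rw [sub_eq_add_neg] at h
      exact hx (hnear x (-(0, 1)) (by simp) (by simp) h)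
    rw [lap, c0, c1, c2, c3, c4]
    ring
  rw [hL1, hL2, hR]
  have hterm : ∀ x, ∑ i : Fin 4, bf P Q (x, i) a (shm 1 ψ E) =
      mu2 N L * (ψ x * A x) + (ψ (x + (1, 0)) - ψ x) * (A (x + (1, 0)) - A x) +
      (ψ (x + (0, 1)) - ψ x) * (A (x + (0, 1)) - A x) := by
    intro x
    rw [Fin.sum_univ_four, b0, b1, b2, b3]
    ring
  simp only [hterm]
  -- summation by parts in the direction `v`
  have parts : ∀ v : Pl, (Summable fun x => (ψ (x + v) - ψ x) * (A (x + v) - A x)) ∧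
      ∑' x, (ψ (x + v) - ψ x) * (A (x + v) - A x) =
        ∑' x, (2 * ψ x - ψ (x + v) - ψ (x - v)) * A x := by
    intro v
    have s1 : Summable fun x => ψ (x + v) * A (x + v) := hfin v fun x => A (x + v)
    have s2 : Summable fun x => ψ (x + v) * A x := hfin v A
    have s3 : Summable fun x => ψ x * A (x + v) := hfin0 fun x => A (x + v)
    have s4 : Summable fun x => ψ x * A x := hfin0 A
    have s5 : Summable fun x => ψ (x - v) * A x := by
      have := hfin (-v) A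
      simpa [sub_eq_add_neg] using this
    have t1 : ∑' x, ψ (x + v) * A (x + v) = ∑' x, ψ x * A x := ts (fun x => ψ x * A x) v
    have t3 : ∑' x, ψ x * A (x + v) = ∑' x, ψ (x - v) * A x := by
      have := ts (fun x => ψ (x - v) * A x) v
      simpa using this
    have e1 : (fun x => (ψ (x + v) - ψ x) * (A (x + v) - A x)) =
        fun x => (ψ (x + v) * A (x + v) - ψ (x + v) * A x) - (ψ x * A (x + v) - ψ x * A x) := by
      funext x; ring
    have e2 : (fun x => (2 * ψ x - ψ (x + v) - ψ (x - v)) * A x) =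
        fun x => (ψ x * A x - ψ (x + v) * A x) - (ψ (x - v) * A x - ψ x * A x) := by
      funext x; ring
    rw [e1, e2]
    refine ⟨(s1.sub s2).sub (s3.sub s4), ?_⟩
    rw [(s1.sub s2).tsum_sub (s3.sub s4), s1.tsum_sub s2, s3.tsum_sub s4,
      (s4.sub s2).tsum_sub (s5.sub s4), s4.tsum_sub s2, s5.tsum_sub s4, t1, t3]
  obtain ⟨p1, q1⟩ := parts (1, 0)
  obtain ⟨p2, q2⟩ := parts (0, 1)
  have s0 : Summable fun x => mu2 N L * (ψ x * A x) := (hfin0 A).mul_left _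
  rw [(s0.add p1).tsum_add p2, s0.tsum_add p1, q1, q2]
  have r : ∀ v : Pl, Summable fun x => (2 * ψ x - ψ (x + v) - ψ (x - v)) * A x := by
    intro v
    have s2 : Summable fun x => ψ (x + v) * A x := hfin v A
    have s4 : Summable fun x => ψ x * A x := hfin0 A
    have s5 : Summable fun x => ψ (x - v) * A x := by
      have := hfin (-v) A
      simpa [sub_eq_add_neg] using this
    have e2 : (fun x => (2 * ψ x - ψ (x + v) - ψ (x - v)) * A x) =
        fun x => (ψ x * A x - ψ (x + v) * A x) - (ψ (x - v) * A x - ψ x * A x) := by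
      funext x; ring
    rw [e2]
    exact (s4.sub s2).sub (s5.sub s4)
  rw [← s0.tsum_add (r _), ← (s0.add (r _)).tsum_add (r _)]
  refine tsum_congr fun x => ?_
  rw [lap]
  ring

namespace PkgUT

lemma fac {N : ℕ} {Ex : Mt N → SU N} {C₀ : ℝ} (hG : GE N Ex C₀) (M : Mt N) :
    ‖(Ex M : Mt N) - 1‖ ≤ (1 + C₀ + 2 * Real.sqrt N) * ‖M‖ := by
  obtain ⟨hC, -, -, -, h⟩ := hG
  rcases le_total ‖M‖ 1 with h1 | h1
  · have e : (Ex M : Mt N) - 1 = ((Ex M : Mt N) - 1 - pr M) + pr M := by abel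
    have h2 : ‖(Ex M : Mt N) - 1‖ ≤ C₀ * ‖M‖ ^ 2 + ‖M‖ := by
      rw [e]
      exact (norm_add_le _ _).trans (add_le_add (h M) (PkgE.norm_pr M))
    have h3 : ‖M‖ ^ 2 ≤ ‖M‖ := by nlinarith [norm_nonneg M]
    have h4 : C₀ * ‖M‖ ^ 2 ≤ C₀ * ‖M‖ := mul_le_mul_of_nonneg_left h3 hC.le
    have h5 : 0 ≤ 2 * Real.sqrt N * ‖M‖ := by positivity
    linarith
  · have h2 : ‖(Ex M : Mt N) - 1‖ ≤ 2 * Real.sqrt N := by
      refine (norm_sub_le _ _).trans ?_
      rw [PkgE.norm_su, PkgE.norm_one_mt]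
      linarith
    have h3 : 2 * Real.sqrt N * 1 ≤ 2 * Real.sqrt N * ‖M‖ :=
      mul_le_mul_of_nonneg_left h1 (by positivity)
    have h4 : 0 ≤ (1 + C₀) * ‖M‖ := by positivity
    linarith

lemma fac2 {N : ℕ} {Ex : Mt N → SU N} {C₀ : ℝ} (hG : GE N Ex C₀) (M : Mt N) (X : SU N) {r : ℝ}
    (hM : ‖M‖ ≤ r) : ‖((Ex M * X : SU N) : Mt N) - (X : Mt N)‖ ≤ (1 + C₀ + 2 * Real.sqrt N) * r := by
  have e : ((Ex M * X : SU N) : Mt N) - (X : Mt N) = ((Ex M : Mt N) - 1) * (X : Mt N) := by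
    rw [sub_mul, one_mul]
    rfl
  rw [e, PkgE.norm_mul_su]
  have hC := hG.1
  exact (fac hG M).trans (mul_le_mul_of_nonneg_left hM (by positivity))

end PkgUT

open PkgUT in
theorem pUT2 (hE3 : S_E3u) : S_UT2 := by
  intro N hN P Q Ex C₀ hG
  obtain ⟨C₁, hC₁, h3⟩ := hE3 N hN P Q
  have hC := hG.1
  have hA : 1 ≤ 1 + C₀ + 2 * Real.sqrt N := by
    have : 0 ≤ 2 * Real.sqrt (N : ℝ) := by positivity
    linarith
  refine ⟨(1 + C₀ + 2 * Real.sqrt N) * C₁, by nlinarith, ?_⟩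
  intro L _ h ρ X hρ hh l
  have hfr : ∀ (φ : Ph N L) (y : Tor L), ‖fr P Q φ y (h l)‖ ≤ C₁ * ρ := fun φ y =>
    ((h3 L).2 φ y (h l)).trans (mul_le_mul_of_nonneg_left (hh l) (by linarith))
  have hcU : ∀ Y : Cf N L, ‖((cU P Q Ex h l Y * X l : SU N) : Mt N) - (X l : Mt N)‖ ≤
      (1 + C₀ + 2 * Real.sqrt N) * (C₁ * ρ) := fun Y => fac2 hG _ _ (hfr _ _)
  have hcT : ∀ Y : Cf N L, ‖((cT P Q Ex h l Y * X l : SU N) : Mt N) - (X l : Mt N)‖ ≤
      (1 + C₀ + 2 * Real.sqrt N) * (C₁ * ρ) := fun Y => fac2 hG _ _ (by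
    rw [PkgE.norm_adj]; exact hfr _ _)
  have h0 : ‖(X l : Mt N) - (X l : Mt N)‖ ≤ (1 + C₀ + 2 * Real.sqrt N) * (C₁ * ρ) := by
    rw [sub_self, norm_zero]; positivity
  rw [mul_assoc]
  unfold TM
  by_cases hp : l ∈ Jpl L
  · have he : l ∉ Jev L := fun he => by
      rcases hp with hp | hp <;> rcases he.1 with he | he <;> rw [hp] at he <;> exact absurd he (by decide)
    have ho : l ∉ Jod L := fun ho => by
      rcases hp with hp | hp <;> rcases ho.1 with he | he <;> rw [hp] at he <;> exact absurd he (by decide)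
    have e1 : ∀ Y : Cf N L, stg (Jpl L) (cU P Q Ex h) Y l = cU P Q Ex h l Y * Y l := fun Y => if_pos hp
    have e2 : ∀ Y : Cf N L, stg (Jod L) (cT P Q Ex h) Y l = Y l := fun Y => if_neg ho
    have e3 : ∀ Y : Cf N L, stg (Jev L) (cT P Q Ex h) Y l = Y l := fun Y => if_neg he
    rw [e1, e2, e3]
    exact hcU _
  · have e1 : ∀ Y : Cf N L, stg (Jpl L) (cU P Q Ex h) Y l = Y l := fun Y => if_neg hp
    rw [e1]
    by_cases ho : l ∈ Jod L
    · have he : l ∉ Jev L := fun he => ho.2 he.2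
      have e2 : ∀ Y : Cf N L, stg (Jod L) (cT P Q Ex h) Y l = cT P Q Ex h l Y * Y l := fun Y => if_pos ho
      have e3 : ∀ Y : Cf N L, stg (Jev L) (cT P Q Ex h) Y l = Y l := fun Y => if_neg he
      rw [e2, e3]
      exact hcT _
    · have e2 : ∀ Y : Cf N L, stg (Jod L) (cT P Q Ex h) Y l = Y l := fun Y => if_neg ho
      rw [e2]
      by_cases he : l ∈ Jev L
      · have e3 : ∀ Y : Cf N L, stg (Jev L) (cT P Q Ex h) Y l = cT P Q Ex h l Y * Y l := fun Y => if_pos he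
        rw [e3]
        exact hcT _
      · have e3 : ∀ Y : Cf N L, stg (Jev L) (cT P Q Ex h) Y l = Y l := fun Y => if_neg he
        rw [e3]
        exact h0

end T2H02.TT
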