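import Pool.Agent.T2H02.TT.StmW
import Pool.Agent.T2H02.TT.Xu

set_option autoImplicit false
set_option linter.unusedSectionVars false
set_option linter.unusedVariables false

/-!
# Package Xg: the coupling theorem with step `w` and exponents `1/j`

A copy of `Xu.lean` with the step `w` in place of `3` and the weights `δ ^ (1 - 1/j)` and
`2j`-th roots.
-/

noncomputable section

open MeasureTheory

namespace T2H02.TT.PkgXg

open T2H02.TT T2H02.TT.PkgX T2H02.TT.PkgXu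

/-! ### chains with three labels -/

/-- the set `A` is within distance `w - 1` of the sources -/
def emp (w : ℕ) (A : Finset Pl) (src : Set Pl) : Prop :=
  ∃ a ∈ A, ∃ c ∈ src, near ((w - 1 : ℕ) : ℤ) a c

/-- sup-distance exactly `w` -/
def d3 (w : ℕ) (x y : Pl) : Prop := near (w : ℤ) x y ∧ ¬ near ((w - 1 : ℕ) : ℤ) x y

/-- admissible next site of a chain -/
def cnd3 (w : ℕ) (src : Set Pl) (b : Pl) : Prop := ∃ c ∈ src, d3 w b c

open Classical in
/-- sum of the weights of the chains -/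
def C3 (w : ℕ) (A : Finset Pl) :
    ℕ → Finset Pl → Set Pl → (Finset Pl → Finset Pl → ℕ → ℝ) → ℝ
  | 0, _, src, Φ => if emp w A src then Φ ∅ ∅ 0 else 0
  | n+1, Γ, src, Φ => (if emp w A src then Φ ∅ ∅ 0 else 0) +
      ∑ b ∈ Γ.filter (cnd3 w src), (C3 w A n (Γ.erase b) {b} (fun s s' t => Φ (insert b s) s' t) +
        C3 w A n (Γ.erase b) {b} (fun s s' t => Φ s (insert b s') t) +
        C3 w A n (Γ.erase b) {b} (fun s s' t => Φ s s' (t+1)))

variable {A : Finset Pl} {w : ℕ}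

lemma emp_mono {src C D : Set Pl} (h : ∀ c ∈ src, c ∈ C ∨ c ∈ D) (he : emp w A src) :
    emp w A C ∨ emp w A D := by
  obtain ⟨a, ha, c, hc, hn⟩ := he
  rcases h c hc with h1 | h1
  · exact Or.inl ⟨a, ha, c, h1, hn⟩
  · exact Or.inr ⟨a, ha, c, h1, hn⟩

open Classical in
/-- number of walks of length `j` from `b` to the neighbourhood of `A` -/
def wk (w : ℕ) (A : Finset Pl) (O : Finset Pl) : ℕ → Pl → ℝ
  | 0, b => if emp w A {b} then 1 else 0
  | j+1, b => ∑ b' ∈ O.filter (fun b' => d3 w b' b), wk w A O j b'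

lemma wk_nonneg (O : Finset Pl) (j : ℕ) : ∀ b, 0 ≤ wk w A O j b := by
  classical
  induction j with
  | zero => intro b; unfold wk; split_ifs <;> norm_num
  | succ j ih => intro b; unfold wk; exact Finset.sum_nonneg (fun b' _ => ih b')

lemma wk_supp (O : Finset Pl) (j : ℕ) : ∀ b, wk w A O j b ≠ 0 →
    ∃ a ∈ A, near ((w * j + (w - 1) : ℕ) : ℤ) a b := by
  classical
  induction j with
  | zero =>
    intro b hb
    unfold wk at hb
    have : emp w A {b} := by
      by_contra h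
      rw [if_neg h] at hb
      exact hb rfl
    obtain ⟨a, ha, c, hc, hn⟩ := this
    rw [Set.mem_singleton_iff] at hc
    subst hc
    exact ⟨a, ha, by simpa using hn⟩
  | succ j ih =>
    intro b hb
    unfold wk at hb
    obtain ⟨b', hb', hne⟩ := Finset.exists_ne_zero_of_sum_ne_zero hb
    rw [Finset.mem_filter] at hb'
    obtain ⟨a, ha, hn⟩ := ih b' hne
    refine ⟨a, ha, ?_⟩
    have := near_trans hn hb'.2.1
    refine near_mono this ?_
    push_cast
    linarith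

lemma card_d3 (hw : 1 ≤ w) (O : Finset Pl) (b' : Pl) [DecidablePred fun b => d3 w b' b] :
    (O.filter (fun b => d3 w b' b)).card ≤ 8 * w := by
  classical
  have h1 : O.filter (fun b => d3 w b' b) ⊆ Nb w b' \ Nb (w - 1) b' := by
    intro x hx
    rw [Finset.mem_filter] at hx
    rw [Finset.mem_sdiff, PkgX.mem_Nb, PkgX.mem_Nb]
    exact hx.2
  refine le_trans (Finset.card_le_card h1) ?_
  rw [Finset.card_sdiff_of_subset, PkgX.card_Nb, PkgX.card_Nb]
  · obtain ⟨v, rfl⟩ : ∃ v, w = v + 1 := ⟨w - 1, by omega⟩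
    rw [Nat.add_sub_cancel]
    have e : (2 * (v + 1) + 1) ^ 2 = 8 * (v + 1) + (2 * v + 1) ^ 2 := by ring
    omega
  · intro x hx
    rw [PkgX.mem_Nb] at *
    exact near_mono hx (by exact_mod_cast Nat.sub_le w 1)

lemma wk_sum (hw : 1 ≤ w) (O : Finset Pl) (j : ℕ) :
    ∑ b ∈ O, wk w A O j b ≤ 4 * (w : ℝ) ^ 2 * A.card * (8 * w) ^ j := by
  classical
  induction j with
  | zero =>
    unfold wk
    rw [← Finset.sum_filter, Finset.sum_const, nsmul_eq_mul, mul_one, pow_zero, mul_one]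
    have h1 : O.filter (fun b => emp w A {b}) ⊆ A.biUnion (fun a => Nb (w - 1) a) := by
      intro x hx
      rw [Finset.mem_filter] at hx
      obtain ⟨_, a, ha, c, hc, hn⟩ := hx
      rw [Set.mem_singleton_iff] at hc
      subst hc
      rw [Finset.mem_biUnion]
      exact ⟨a, ha, PkgX.mem_Nb.2 hn⟩
    have h2 : (O.filter (fun b => emp w A {b})).card ≤ A.card * (4 * w ^ 2) := by
      refine le_trans (Finset.card_le_card h1) ?_
      refine Finset.card_biUnion_le_card_mul _ _ _ ?_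
      intro a _
      rw [PkgX.card_Nb]
      obtain ⟨v, rfl⟩ : ∃ v, w = v + 1 := ⟨w - 1, by omega⟩
      rw [Nat.add_sub_cancel]
      nlinarith
    have : ((O.filter (fun b => emp w A {b})).card : ℝ) ≤ ((A.card * (4 * w ^ 2) : ℕ) : ℝ) := by
      exact_mod_cast h2
    push_cast at this
    linarith
  | succ j ih =>
    have e : ∑ b ∈ O, wk w A O (j+1) b =
        ∑ b' ∈ O, ∑ b ∈ O, if d3 w b' b then wk w A O j b' else 0 := by
      rw [Finset.sum_comm]
      apply Finset.sum_congr rfl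
      intro b _
      rw [wk, Finset.sum_filter]
    rw [e]
    calc _ ≤ ∑ b' ∈ O, (8 * w) * wk w A O j b' := by
          apply Finset.sum_le_sum
          intro b' _
          rw [← Finset.sum_filter, Finset.sum_const, nsmul_eq_mul]
          apply mul_le_mul_of_nonneg_right _ (wk_nonneg O j b')
          exact_mod_cast card_d3 hw O b'
      _ = (8 * w) * ∑ b' ∈ O, wk w A O j b' := by rw [Finset.mul_sum]
      _ ≤ (8 * w) * (4 * (w : ℝ) ^ 2 * A.card * (8 * w) ^ j) :=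
          mul_le_mul_of_nonneg_left ih (by positivity)
      _ = _ := by rw [pow_succ]; ring


/-- weights are compared on the sets which can occur -/
lemma C3_mono (n : ℕ) : ∀ (Γ : Finset Pl) (src : Set Pl) (Φ Ψ : Finset Pl → Finset Pl → ℕ → ℝ),
    (∀ s ⊆ Γ, ∀ s' ⊆ Γ, ∀ t, Φ s s' t ≤ Ψ s s' t) → C3 w A n Γ src Φ ≤ C3 w A n Γ src Ψ := by
  classical
  induction n with
  | zero =>
    intro Γ src Φ Ψ h
    unfold C3
    split_ifs
    · exact h ∅ (Finset.empty_subset _) ∅ (Finset.empty_subset _) 0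
    · exact le_refl _
  | succ n ih =>
    intro Γ src Φ Ψ h
    unfold C3
    apply add_le_add
    · split_ifs
      · exact h ∅ (Finset.empty_subset _) ∅ (Finset.empty_subset _) 0
      · exact le_refl _
    · apply Finset.sum_le_sum
      intro b hb
      rw [Finset.mem_filter] at hb
      have e1 : ∀ s ⊆ Γ.erase b, s ⊆ Γ := fun s hs => hs.trans (Finset.erase_subset _ _)
      have e2 : ∀ s ⊆ Γ.erase b, insert b s ⊆ Γ := fun s hs =>
        Finset.insert_subset hb.1 (e1 s hs)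
      apply add_le_add
      · apply add_le_add
        · exact ih _ _ _ _ (fun s hs s' hs' t => h _ (e2 s hs) _ (e1 s' hs') t)
        · exact ih _ _ _ _ (fun s hs s' hs' t => h _ (e1 s hs) _ (e2 s' hs') t)
      · exact ih _ _ _ _ (fun s hs s' hs' t => h _ (e1 s hs) _ (e1 s' hs') _)

lemma C3_smul (n : ℕ) : ∀ (Γ : Finset Pl) (src : Set Pl) (Φ : Finset Pl → Finset Pl → ℕ → ℝ) (c : ℝ),
    C3 w A n Γ src (fun s s' t => c * Φ s s' t) = c * C3 w A n Γ src Φ := by
  classical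
  induction n with
  | zero =>
    intro Γ src Φ c
    unfold C3
    split_ifs <;> simp
  | succ n ih =>
    intro Γ src Φ c
    unfold C3
    rw [mul_add, Finset.mul_sum]
    congr 1
    · split_ifs <;> simp
    · apply Finset.sum_congr rfl
      intro b _
      rw [ih, ih, ih, mul_add, mul_add]

lemma C3_add (n : ℕ) : ∀ (Γ : Finset Pl) (src : Set Pl) (Φ Ψ : Finset Pl → Finset Pl → ℕ → ℝ),
    C3 w A n Γ src (fun s s' t => Φ s s' t + Ψ s s' t) = C3 w A n Γ src Φ + C3 w A n Γ src Ψ := by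
  classical
  induction n with
  | zero =>
    intro Γ src Φ Ψ
    unfold C3
    split_ifs <;> simp
  | succ n ih =>
    intro Γ src Φ Ψ
    unfold C3
    have e : ∀ b ∈ Γ.filter (cnd3 w src),
        (C3 w A n (Γ.erase b) {b} (fun s s' t => Φ (insert b s) s' t + Ψ (insert b s) s' t) +
        C3 w A n (Γ.erase b) {b} (fun s s' t => Φ s (insert b s') t + Ψ s (insert b s') t) +
        C3 w A n (Γ.erase b) {b} (fun s s' t => Φ s s' (t+1) + Ψ s s' (t+1))) =
        (C3 w A n (Γ.erase b) {b} (fun s s' t => Φ (insert b s) s' t) +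
        C3 w A n (Γ.erase b) {b} (fun s s' t => Φ s (insert b s') t) +
        C3 w A n (Γ.erase b) {b} (fun s s' t => Φ s s' (t+1))) +
        (C3 w A n (Γ.erase b) {b} (fun s s' t => Ψ (insert b s) s' t) +
        C3 w A n (Γ.erase b) {b} (fun s s' t => Ψ s (insert b s') t) +
        C3 w A n (Γ.erase b) {b} (fun s s' t => Ψ s s' (t+1))) := by
      intro b _
      rw [ih, ih, ih]
      ring
    rw [Finset.sum_congr rfl e, Finset.sum_add_distrib]
    split_ifs <;> ring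

lemma C3_zero (n : ℕ) (Γ : Finset Pl) (src : Set Pl) :
    C3 w A n Γ src (fun _ _ _ => 0) = 0 := by
  have := C3_smul (A := A) (w := w) n Γ src (fun _ _ _ => 0) 0
  simpa using this

lemma C3_nonneg (n : ℕ) (Γ : Finset Pl) (src : Set Pl) (Φ : Finset Pl → Finset Pl → ℕ → ℝ)
    (h : ∀ s s' t, 0 ≤ Φ s s' t) : 0 ≤ C3 w A n Γ src Φ := by
  rw [← C3_zero (A := A) (w := w) n Γ src]
  exact C3_mono n Γ src _ _ (fun s _ s' _ t => h s s' t)

lemma C3_Γ (n : ℕ) : ∀ (Γ Γ' : Finset Pl) (src : Set Pl) (Φ : Finset Pl → Finset Pl → ℕ → ℝ),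
    (∀ s s' t, 0 ≤ Φ s s' t) → Γ ⊆ Γ' → C3 w A n Γ src Φ ≤ C3 w A n Γ' src Φ := by
  classical
  induction n with
  | zero => intro Γ Γ' src Φ _ _; unfold C3; exact le_refl _
  | succ n ih =>
    intro Γ Γ' src Φ h hΓ
    unfold C3
    apply add_le_add_right
    calc _ ≤ ∑ b ∈ Γ.filter (cnd3 w src),
            (C3 w A n (Γ'.erase b) {b} (fun s s' t => Φ (insert b s) s' t) +
              C3 w A n (Γ'.erase b) {b} (fun s s' t => Φ s (insert b s') t) +
              C3 w A n (Γ'.erase b) {b} (fun s s' t => Φ s s' (t+1))) := by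
          apply Finset.sum_le_sum
          intro b _
          exact add_le_add (add_le_add
            (ih _ _ _ _ (fun s s' t => h _ _ _) (Finset.erase_subset_erase _ hΓ))
            (ih _ _ _ _ (fun s s' t => h _ _ _) (Finset.erase_subset_erase _ hΓ)))
            (ih _ _ _ _ (fun s s' t => h _ _ _) (Finset.erase_subset_erase _ hΓ))
      _ ≤ _ := by
          apply Finset.sum_le_sum_of_subset_of_nonneg
          · exact Finset.filter_subset_filter _ hΓ
          · intro b _ _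
            exact add_nonneg (add_nonneg (C3_nonneg _ _ _ _ (fun s s' t => h _ _ _))
              (C3_nonneg _ _ _ _ (fun s s' t => h _ _ _)))
              (C3_nonneg _ _ _ _ (fun s s' t => h _ _ _))

lemma C3_fuel (n : ℕ) : ∀ (Γ : Finset Pl) (src : Set Pl) (Φ : Finset Pl → Finset Pl → ℕ → ℝ),
    (∀ s s' t, 0 ≤ Φ s s' t) → C3 w A n Γ src Φ ≤ C3 w A (n+1) Γ src Φ := by
  classical
  induction n with
  | zero =>
    intro Γ src Φ h
    have : C3 w A 0 Γ src Φ = (if emp w A src then Φ ∅ ∅ 0 else 0) := by unfold C3; rfl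
    rw [this]
    unfold C3
    apply le_add_of_nonneg_right
    apply Finset.sum_nonneg
    intro b _
    exact add_nonneg (add_nonneg (C3_nonneg _ _ _ _ (fun s s' t => h _ _ _))
              (C3_nonneg _ _ _ _ (fun s s' t => h _ _ _)))
              (C3_nonneg _ _ _ _ (fun s s' t => h _ _ _))
  | succ n ih =>
    intro Γ src Φ h
    rw [C3, C3]
    apply add_le_add_right
    apply Finset.sum_le_sum
    intro b _
    exact add_le_add (add_le_add (ih _ _ _ (fun s s' t => h _ _ _))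
      (ih _ _ _ (fun s s' t => h _ _ _))) (ih _ _ _ (fun s s' t => h _ _ _))

lemma cnd3_mono {src C D : Set Pl} (h : ∀ c ∈ src, c ∈ C ∨ c ∈ D) {b : Pl}
    (he : cnd3 w src b) : cnd3 w C b ∨ cnd3 w D b := by
  obtain ⟨c, hc, hn⟩ := he
  rcases h c hc with h1 | h1
  · exact Or.inl ⟨c, h1, hn⟩
  · exact Or.inr ⟨c, h1, hn⟩

lemma C3_union (n : ℕ) (Γ : Finset Pl) (src C D : Set Pl) (Φ : Finset Pl → Finset Pl → ℕ → ℝ)
    (hΦ : ∀ s s' t, 0 ≤ Φ s s' t) (h : ∀ c ∈ src, c ∈ C ∨ c ∈ D) :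
    C3 w A n Γ src Φ ≤ C3 w A n Γ C Φ + C3 w A n Γ D Φ := by
  classical
  have key : (if emp w A src then Φ ∅ ∅ 0 else 0) ≤
      (if emp w A C then Φ ∅ ∅ 0 else 0) + (if emp w A D then Φ ∅ ∅ 0 else 0) := by
    have h0 := hΦ ∅ ∅ 0
    by_cases h1 : emp w A src
    · rcases emp_mono h h1 with h2 | h2
      · rw [if_pos h1, if_pos h2]
        split_ifs <;> linarith
      · rw [if_pos h1, if_pos h2]
        split_ifs <;> linarith
    · rw [if_neg h1]
      split_ifs <;> linarith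
  cases n with
  | zero =>
    unfold C3
    exact key
  | succ n =>
    unfold C3
    have key2 : ∀ G : Pl → ℝ, (∀ b, 0 ≤ G b) → ∑ b ∈ Γ.filter (cnd3 w src), G b ≤
        ∑ b ∈ Γ.filter (cnd3 w C), G b + ∑ b ∈ Γ.filter (cnd3 w D), G b := by
      intro G hG
      rw [Finset.sum_filter, Finset.sum_filter, Finset.sum_filter, ← Finset.sum_add_distrib]
      apply Finset.sum_le_sum
      intro b _
      have hGb := hG b
      by_cases h1 : cnd3 w src b
      · rcases cnd3_mono h h1 with h2 | h2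
        · rw [if_pos h1, if_pos h2]
          split_ifs <;> linarith
        · rw [if_pos h1, if_pos h2]
          split_ifs <;> linarith
      · rw [if_neg h1]
        split_ifs <;> linarith
    have := key2 (fun b => C3 w A n (Γ.erase b) {b} (fun s s' t => Φ (insert b s) s' t) +
        C3 w A n (Γ.erase b) {b} (fun s s' t => Φ s (insert b s') t) +
        C3 w A n (Γ.erase b) {b} (fun s s' t => Φ s s' (t+1)))
      (fun b => add_nonneg (add_nonneg (C3_nonneg _ _ _ _ (fun s s' t => hΦ _ _ _))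
              (C3_nonneg _ _ _ _ (fun s s' t => hΦ _ _ _)))
              (C3_nonneg _ _ _ _ (fun s s' t => hΦ _ _ _)))
    linarith

lemma C3_step (n : ℕ) (Γ : Finset Pl) (src : Set Pl) (Φ : Finset Pl → Finset Pl → ℕ → ℝ)
    (hΦ : ∀ s s' t, 0 ≤ Φ s s' t) (b : Pl) (hb : b ∈ Γ) (hc : cnd3 w src b) :
    C3 w A n (Γ.erase b) src Φ + (C3 w A n (Γ.erase b) {b} (fun s s' t => Φ (insert b s) s' t) +
      C3 w A n (Γ.erase b) {b} (fun s s' t => Φ s (insert b s') t) +
      C3 w A n (Γ.erase b) {b} (fun s s' t => Φ s s' (t+1))) ≤ C3 w A (n+1) Γ src Φ := by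
  classical
  have h1 := C3_fuel (A := A) (w := w) n (Γ.erase b) src Φ hΦ
  refine le_trans (add_le_add_left h1 _) ?_
  rw [C3, C3]
  rw [add_assoc]
  apply add_le_add_right
  have h2 : Γ.filter (cnd3 w src) = insert b ((Γ.erase b).filter (cnd3 w src)) := by
    ext x
    simp only [Finset.mem_filter, Finset.mem_insert, Finset.mem_erase]
    constructor
    · rintro ⟨h3, h4⟩
      by_cases h5 : x = b
      · exact Or.inl h5
      · exact Or.inr ⟨⟨h5, h3⟩, h4⟩
    · rintro (rfl | ⟨⟨_, h3⟩, h4⟩)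
      · exact ⟨hb, hc⟩
      · exact ⟨h3, h4⟩
  rw [h2, Finset.sum_insert (by simp), add_comm]
  apply add_le_add_right
  apply Finset.sum_le_sum
  intro b' _
  exact add_le_add (add_le_add
    (C3_Γ _ _ _ _ _ (fun s s' t => hΦ _ _ _)
      (Finset.erase_subset_erase _ (Finset.erase_subset _ _)))
    (C3_Γ _ _ _ _ _ (fun s s' t => hΦ _ _ _)
      (Finset.erase_subset_erase _ (Finset.erase_subset _ _))))
    (C3_Γ _ _ _ _ _ (fun s s' t => hΦ _ _ _)
      (Finset.erase_subset_erase _ (Finset.erase_subset _ _)))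

/-- chains and integrals commute -/
lemma C3_integral {Ω : Type} [MeasurableSpace Ω] (ν : Measure Ω) (n : ℕ) :
    ∀ (Γ : Finset Pl) (src : Set Pl) (Φ : Ω → Finset Pl → Finset Pl → ℕ → ℝ),
    (∀ s s' t, Integrable (fun ω => Φ ω s s' t) ν) →
    Integrable (fun ω => C3 w A n Γ src (Φ ω)) ν ∧
    ∫ ω, C3 w A n Γ src (Φ ω) ∂ν = C3 w A n Γ src (fun s s' t => ∫ ω, Φ ω s s' t ∂ν) := by
  classical
  induction n with
  | zero =>
    intro Γ src Φ h
    unfold C3
    split_ifs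
    · exact ⟨h _ _ _, rfl⟩
    · exact ⟨integrable_zero _ _ _, by simp⟩
  | succ n ih =>
    intro Γ src Φ h
    have e0 : Integrable (fun ω => if emp w A src then Φ ω ∅ ∅ 0 else 0) ν ∧
        ∫ ω, (if emp w A src then Φ ω ∅ ∅ 0 else 0) ∂ν =
          if emp w A src then ∫ ω, Φ ω ∅ ∅ 0 ∂ν else 0 := by
      split_ifs
      · exact ⟨h _ _ _, rfl⟩
      · exact ⟨integrable_zero _ _ _, by simp⟩
    have e1 : ∀ b, Integrable (fun ω =>
        C3 w A n (Γ.erase b) {b} (fun s s' t => Φ ω (insert b s) s' t) +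
        C3 w A n (Γ.erase b) {b} (fun s s' t => Φ ω s (insert b s') t) +
        C3 w A n (Γ.erase b) {b} (fun s s' t => Φ ω s s' (t+1))) ν ∧
        ∫ ω, (C3 w A n (Γ.erase b) {b} (fun s s' t => Φ ω (insert b s) s' t) +
        C3 w A n (Γ.erase b) {b} (fun s s' t => Φ ω s (insert b s') t) +
        C3 w A n (Γ.erase b) {b} (fun s s' t => Φ ω s s' (t+1))) ∂ν =
        C3 w A n (Γ.erase b) {b} (fun s s' t => ∫ ω, Φ ω (insert b s) s' t ∂ν) +
        C3 w A n (Γ.erase b) {b} (fun s s' t => ∫ ω, Φ ω s (insert b s') t ∂ν) +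
        C3 w A n (Γ.erase b) {b} (fun s s' t => ∫ ω, Φ ω s s' (t+1) ∂ν) := by
      intro b
      have a1 := ih (Γ.erase b) {b} (fun ω s s' t => Φ ω (insert b s) s' t)
        (fun s s' t => h _ _ _)
      have a2 := ih (Γ.erase b) {b} (fun ω s s' t => Φ ω s (insert b s') t)
        (fun s s' t => h _ _ _)
      have a3 := ih (Γ.erase b) {b} (fun ω s s' t => Φ ω s s' (t+1)) (fun s s' t => h _ _ _)
      have a12 : Integrable (fun ω =>
        C3 w A n (Γ.erase b) {b} (fun s s' t => Φ ω (insert b s) s' t) +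
        C3 w A n (Γ.erase b) {b} (fun s s' t => Φ ω s (insert b s') t)) ν := a1.1.add a2.1
      refine ⟨a12.add a3.1, ?_⟩
      rw [integral_add a12 a3.1, integral_add a1.1 a2.1, a1.2, a2.2, a3.2]
    have e2 := integrable_finsetSum (Γ.filter (cnd3 w src)) (fun b _ => (e1 b).1)
    unfold C3
    refine ⟨e0.1.add e2, ?_⟩
    rw [integral_add e0.1 e2, integral_finsetSum _ (fun b _ => (e1 b).1), e0.2]
    congr 1
    apply Finset.sum_congr rfl
    intro b _
    exact (e1 b).2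

/-- a chain functional started at `b` is bounded by walks -/
lemma C3_le_wk (q : ℝ) (hq : 0 ≤ q) (O : Finset Pl) (n : ℕ) :
    ∀ (Γ : Finset Pl) (b : Pl) (Φ : Finset Pl → Finset Pl → ℕ → ℝ) (K : ℝ), 0 ≤ K →
    (∀ x ∈ Γ, x ∈ O) →
    (∀ s ⊆ Γ, ∀ s' ⊆ Γ, ∀ t, Φ s s' t ≤ K * q ^ (s.card + s'.card + t)) →
    C3 w A n Γ {b} Φ ≤ K * ∑ j ∈ Finset.range (n+1), (3 * q) ^ j * wk w A O j b := by
  classical
  induction n with
  | zero =>
    intro Γ b Φ K hK hO h
    unfold C3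
    rw [zero_add, Finset.sum_range_one, pow_zero, one_mul]
    unfold wk
    have := h ∅ (Finset.empty_subset _) ∅ (Finset.empty_subset _) 0
    simp only [Finset.card_empty, add_zero, pow_zero, mul_one] at this
    split_ifs
    · linarith
    · simp
  | succ n ih =>
    intro Γ b Φ K hK hO h
    have h0 : (if emp w A {b} then Φ ∅ ∅ 0 else 0) ≤ K * wk w A O 0 b := by
      unfold wk
      have := h ∅ (Finset.empty_subset _) ∅ (Finset.empty_subset _) 0
      simp only [Finset.card_empty, add_zero, pow_zero, mul_one] at this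
      split_ifs
      · linarith
      · simp
    unfold C3
    rw [Finset.sum_range_succ' _ (n+1)]
    rw [pow_zero, one_mul, mul_add, add_comm]
    refine add_le_add ?_ h0
    have h1 : ∀ b' ∈ Γ.filter (cnd3 w {b}),
        (C3 w A n (Γ.erase b') {b'} (fun s s' t => Φ (insert b' s) s' t) +
        C3 w A n (Γ.erase b') {b'} (fun s s' t => Φ s (insert b' s') t) +
        C3 w A n (Γ.erase b') {b'} (fun s s' t => Φ s s' (t+1))) ≤
        K * (3 * q) * ∑ j ∈ Finset.range (n+1), (3 * q) ^ j * wk w A O j b' := by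
      intro b' hb'
      rw [Finset.mem_filter] at hb'
      have f1 : ∀ s ⊆ Γ.erase b', s ⊆ Γ := fun s hs => hs.trans (Finset.erase_subset _ _)
      have f2 : ∀ s ⊆ Γ.erase b', insert b' s ⊆ Γ := fun s hs =>
        Finset.insert_subset hb'.1 (f1 s hs)
      have f3 : ∀ s ⊆ Γ.erase b', (insert b' s).card = s.card + 1 := fun s hs =>
        Finset.card_insert_of_notMem (fun h3 => (Finset.notMem_erase b' Γ) (hs h3))
      have hO' : ∀ x ∈ Γ.erase b', x ∈ O := fun x hx => hO x (Finset.mem_of_mem_erase hx)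
      have a1 := ih (Γ.erase b') b' (fun s s' t => Φ (insert b' s) s' t) (K * q)
        (mul_nonneg hK hq) hO' (by
          intro s hs s' hs' t
          have := h (insert b' s) (f2 s hs) s' (f1 s' hs') t
          rw [f3 s hs] at this
          calc _ ≤ _ := this
            _ = _ := by ring)
      have a2 := ih (Γ.erase b') b' (fun s s' t => Φ s (insert b' s') t) (K * q)
        (mul_nonneg hK hq) hO' (by
          intro s hs s' hs' t
          have := h s (f1 s hs) (insert b' s') (f2 s' hs') t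
          rw [f3 s' hs'] at this
          calc _ ≤ _ := this
            _ = _ := by ring)
      have a3 := ih (Γ.erase b') b' (fun s s' t => Φ s s' (t+1)) (K * q)
        (mul_nonneg hK hq) hO' (by
          intro s hs s' hs' t
          have := h s (f1 s hs) s' (f1 s' hs') (t+1)
          calc _ ≤ _ := this
            _ = _ := by ring)
      calc _ ≤ _ := add_le_add (add_le_add a1 a2) a3
        _ = _ := by ring
    refine le_trans (Finset.sum_le_sum h1) ?_
    have h2 : Γ.filter (cnd3 w {b}) ⊆ O.filter (fun b' => d3 w b' b) := by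
      intro x hx
      rw [Finset.mem_filter] at *
      obtain ⟨hx1, c, hc, hd⟩ := hx
      rw [Set.mem_singleton_iff] at hc
      subst hc
      exact ⟨hO x hx1, hd⟩
    refine le_trans (Finset.sum_le_sum_of_subset_of_nonneg h2 ?_) ?_
    · intro x _ _
      apply mul_nonneg (by positivity)
      exact Finset.sum_nonneg (fun j _ => mul_nonneg (by positivity) (wk_nonneg O j x))
    · rw [← Finset.mul_sum, Finset.sum_comm]
      rw [mul_assoc]
      apply mul_le_mul_of_nonneg_left _ hK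
      rw [Finset.mul_sum]
      apply Finset.sum_le_sum
      intro j _
      rw [← Finset.mul_sum]
      conv_rhs => rw [wk]
      rw [pow_succ]
      apply le_of_eq
      ring

/-- the counting bound for the chains started outside the region `L` -/
lemma C3_count (q : ℝ) (hq : 0 < q) (hw : 1 ≤ w) (hq2 : 24 * w * q ≤ 1 / 2) (L : Finset Pl) (n : ℕ) (hn : w ≤ n)
    (hA : ∀ a ∈ A, Nb n a ⊆ L) (N : ℕ) (Φ : Finset Pl → Finset Pl → ℕ → ℝ)
    (h : ∀ s ⊆ L, ∀ s' ⊆ L, ∀ t, Φ s s' t ≤ 11 / 10 * q ^ (s.card + s'.card + t)) :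
    C3 w A N L {c | c ∉ L} Φ ≤
      3 * w * A.card * (24 * w * q) ^ (n / w) := by
  classical
  have hfar : ∀ a ∈ A, ∀ c, c ∉ L → ¬ near n a c := by
    intro a ha c hc hnn
    exact hc (hA a ha (PkgX.mem_Nb.2 hnn))
  have hemp : ¬ emp w A {c | c ∉ L} := by
    rintro ⟨a, ha, c, hc, hn2⟩
    exact hfar a ha c hc (near_mono hn2 (by exact_mod_cast (by omega : w - 1 ≤ n)))
  have hR : 0 ≤ 3 * w * (A.card : ℝ) * (24 * w * q) ^ (n / w) := by positivity
  cases N with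
  | zero =>
    unfold C3
    rw [if_neg hemp]
    exact hR
  | succ N =>
    unfold C3
    rw [if_neg hemp, zero_add]
    have h1 : ∀ b ∈ L.filter (cnd3 w {c | c ∉ L}),
        (C3 w A N (L.erase b) {b} (fun s s' t => Φ (insert b s) s' t) +
        C3 w A N (L.erase b) {b} (fun s s' t => Φ s (insert b s') t) +
        C3 w A N (L.erase b) {b} (fun s s' t => Φ s s' (t+1))) ≤
        ∑ j ∈ Finset.range (N+1), 11 / 10 * ((3 * q) ^ (j+1) * wk w A L j b) := by
      intro b' hb'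
      rw [Finset.mem_filter] at hb'
      have hsub : ∀ x ∈ L.erase b', x ∈ L := fun x hx => Finset.mem_of_mem_erase hx
      have f1 : ∀ s ⊆ L.erase b', s ⊆ L := fun s hs => hs.trans (Finset.erase_subset _ _)
      have f2 : ∀ s ⊆ L.erase b', insert b' s ⊆ L := fun s hs =>
        Finset.insert_subset hb'.1 (f1 s hs)
      have f3 : ∀ s ⊆ L.erase b', (insert b' s).card = s.card + 1 := fun s hs =>
        Finset.card_insert_of_notMem (fun h3 => (Finset.notMem_erase b' L) (hs h3))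
      have hK : (0 : ℝ) ≤ 11 / 10 * q := by positivity
      have a1 := C3_le_wk (A := A) (w := w) q hq.le L N (L.erase b') b'
        (fun s s' t => Φ (insert b' s) s' t) (11 / 10 * q) hK hsub (by
          intro s hs s' hs' t
          have := h (insert b' s) (f2 s hs) s' (f1 s' hs') t
          rw [f3 s hs] at this
          calc _ ≤ _ := this
            _ = _ := by ring)
      have a2 := C3_le_wk (A := A) (w := w) q hq.le L N (L.erase b') b'
        (fun s s' t => Φ s (insert b' s') t) (11 / 10 * q) hK hsub (by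
          intro s hs s' hs' t
          have := h s (f1 s hs) (insert b' s') (f2 s' hs') t
          rw [f3 s' hs'] at this
          calc _ ≤ _ := this
            _ = _ := by ring)
      have a3 := C3_le_wk (A := A) (w := w) q hq.le L N (L.erase b') b'
        (fun s s' t => Φ s s' (t+1)) (11 / 10 * q) hK hsub (by
          intro s hs s' hs' t
          have := h s (f1 s hs) s' (f1 s' hs') (t+1)
          calc _ ≤ _ := this
            _ = _ := by ring)
      calc _ ≤ _ := add_le_add (add_le_add a1 a2) a3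
        _ = 11 / 10 * (3 * q) * ∑ j ∈ Finset.range (N+1), (3 * q) ^ j * wk w A L j b' := by ring
        _ = _ := by
            rw [Finset.mul_sum]
            apply Finset.sum_congr rfl
            intro j _
            ring
    refine le_trans (Finset.sum_le_sum h1) ?_
    rw [Finset.sum_comm]
    have h2 : ∀ j ∈ Finset.range (N+1),
        ∑ b ∈ L.filter (cnd3 w {c | c ∉ L}), 11 / 10 * ((3 * q) ^ (j+1) * wk w A L j b) ≤
        (11 / 20) * w * A.card * (if n / w ≤ j + 1 then (24 * w * q) ^ (j+1) else 0) := by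
      intro j _
      by_cases hj : n / w ≤ j + 1
      · rw [if_pos hj, ← Finset.mul_sum, ← Finset.mul_sum]
        have h3 : ∑ b ∈ L.filter (cnd3 w {c | c ∉ L}), wk w A L j b ≤ ∑ b ∈ L, wk w A L j b := by
          apply Finset.sum_le_sum_of_subset_of_nonneg
          · intro x hx
            rw [Finset.mem_filter] at hx
            exact hx.1
          · intro x _ _
            exact wk_nonneg L j x
        have h4 := le_trans h3 (wk_sum hw L j)
        calc _ ≤ 11 / 10 * ((3 * q) ^ (j+1) * (4 * (w : ℝ) ^ 2 * A.card * (8 * w) ^ j)) := by gcongr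
          _ = _ := by
            have : (24 * w * q) ^ (j+1) = (3 * q) ^ (j+1) * (8 * w) ^ (j+1) := by
              rw [← mul_pow]; congr 1; ring
            rw [this, pow_succ (8 * (w : ℝ)) j]
            ring
      · rw [if_neg hj, mul_zero]
        apply le_of_eq
        apply Finset.sum_eq_zero
        intro b hb
        rw [Finset.mem_filter] at hb
        obtain ⟨_, c, hc, hd⟩ := hb
        by_cases hw : wk w A L j b = 0
        · rw [hw, mul_zero, mul_zero]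
        · exfalso
          obtain ⟨a, ha, hn1⟩ := wk_supp L j b hw
          have h5 := near_trans hn1 hd.1
          refine hfar a ha c hc (near_mono h5 ?_)
          have h6 : (j + 2) * w ≤ n := (Nat.le_div_iff_mul_le (by omega)).1 (by omega)
          have h6' : w * j + (w - 1) + w ≤ n := by
            have e : (j + 2) * w = w * j + 2 * w := by ring
            omega
          exact_mod_cast h6'
    refine le_trans (Finset.sum_le_sum h2) ?_
    rw [← Finset.mul_sum]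
    have hwp : (0 : ℝ) < w := by exact_mod_cast hw
    have h8 := geo (24 * w * q) (by positivity) hq2 (n / w)
      ((Nat.one_le_div_iff (by omega)).2 hn) (N+1)
    have h9 : 0 < 2 * (24 * w * q) ^ (max (n / w) (N + 1 + 1)) := by positivity
    have h10 : (∑ j ∈ Finset.range (N+1), if n / w ≤ j + 1 then (24 * w * q) ^ (j+1) else 0) ≤
        2 * (24 * w * q) ^ (n / w) := by linarith
    have h11 : 0 ≤ (11 / 20) * (w : ℝ) * (A.card : ℝ) := by positivity
    have h12 := mul_le_mul_of_nonneg_left h10 h11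
    have h13 : 0 ≤ (w : ℝ) * (A.card : ℝ) * (24 * w * q) ^ (n / w) := by positivity
    nlinarith [h12, h13]

/-! ### roots -/

section prob

variable {Ω : Type} [MeasurableSpace Ω] (P : Measure Ω) [IsProbabilityMeasure P]

/-- the `j`-th root -/
def rt (j : ℕ) (x : ℝ) : ℝ := (max x 0) ^ (1 / (j : ℝ))

/-- the `2j`-th root -/
def qr (j : ℕ) (x : ℝ) : ℝ := (max x 0) ^ (1 / (2 * (j : ℝ)))

/-- the power `1 - 1/j` -/
def rc (j : ℕ) (x : ℝ) : ℝ := (max x 0) ^ (1 - 1 / (j : ℝ))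

lemma rt_nonneg (j : ℕ) (x : ℝ) : 0 ≤ rt j x := Real.rpow_nonneg (le_max_right _ _) _

lemma rc_nonneg (j : ℕ) (x : ℝ) : 0 ≤ rc j x := Real.rpow_nonneg (le_max_right _ _) _

lemma qr_nonneg (j : ℕ) (x : ℝ) : 0 ≤ qr j x := Real.rpow_nonneg (le_max_right _ _) _

lemma qr_pos (j : ℕ) {x : ℝ} (h : 0 < x) : 0 < qr j x :=
  Real.rpow_pos_of_pos (lt_of_lt_of_le h (le_max_left _ _)) _

lemma rt_mono (j : ℕ) {x y : ℝ} (h : x ≤ y) : rt j x ≤ rt j y :=
  Real.rpow_le_rpow (le_max_right _ _) (max_le_max_right _ h) (by positivity)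

lemma rc_mono {j : ℕ} (hj : 2 ≤ j) {x y : ℝ} (h : x ≤ y) : rc j x ≤ rc j y := by
  have hj' : (1 : ℝ) ≤ j := by exact_mod_cast (by omega : 1 ≤ j)
  refine Real.rpow_le_rpow (le_max_right _ _) (max_le_max_right _ h) ?_
  rw [sub_nonneg, div_le_one (by linarith)]
  exact hj'

lemma rc_one (j : ℕ) : rc j 1 = 1 := by
  unfold rc
  rw [max_eq_left (by norm_num), Real.one_rpow]

lemma rt_meas (j : ℕ) {f : Ω → ℝ} (h : Measurable f) : Measurable (fun x => rt j (f x)) := by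
  unfold rt
  exact (h.max measurable_const).pow_const _

lemma qr_sq (j : ℕ) (x : ℝ) : qr j x ^ 2 = rt j x := by
  unfold qr rt
  rw [← Real.rpow_natCast, ← Real.rpow_mul (le_max_right _ _)]
  congr 1
  push_cast
  rw [one_div, one_div, mul_inv]
  ring

lemma qr_amgm (j : ℕ) (x y c : ℝ) (hc : 0 < c) :
    qr j x * qr j y ≤ c / 2 * rt j x + 1 / (2 * c) * rt j y := by
  rw [← qr_sq j x, ← qr_sq j y]
  have h : 0 ≤ (c * qr j x - qr j y) ^ 2 / (2 * c) := by positivity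
  have e : (c * qr j x - qr j y) ^ 2 / (2 * c) =
      c / 2 * qr j x ^ 2 + 1 / (2 * c) * qr j y ^ 2 - qr j x * qr j y := by
    field_simp
    ring
  linarith

lemma qr_opt (j : ℕ) {x y : ℝ} (hx : 0 < x) (hy : 0 < y) :
    (qr j y / qr j x) / 2 * rt j x + 1 / (2 * (qr j y / qr j x)) * rt j y = qr j x * qr j y := by
  have h1 := qr_pos j hx
  have h2 := qr_pos j hy
  rw [← qr_sq j x, ← qr_sq j y]
  field_simp
  ring

lemma qr_le {j : ℕ} (hj : 2 ≤ j) {x y : ℝ} (hy : 0 ≤ y) (h : x ≤ y ^ (2 * j)) : qr j x ≤ y := by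
  have hj' : (0 : ℝ) < j := by exact_mod_cast (by omega : 0 < j)
  unfold qr
  calc (max x 0) ^ (1 / (2 * (j : ℝ))) ≤ (y ^ (2 * j)) ^ (1 / (2 * (j : ℝ))) :=
        Real.rpow_le_rpow (le_max_right _ _) (max_le h (by positivity)) (by positivity)
    _ = y := by
        rw [← Real.rpow_natCast, ← Real.rpow_mul hy]
        push_cast
        rw [mul_one_div, div_self (by positivity), Real.rpow_one]

lemma one_le_qr (j : ℕ) {x : ℝ} (h : 1 ≤ x) : 1 ≤ qr j x :=
  Real.one_le_rpow (h.trans (le_max_left _ _)) (by positivity)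

/-- the inequality of Hoelder with a weight -/
lemma hol {j : ℕ} (hj : 2 ≤ j) (φ r : Ω → ℝ) (hφ : Measurable φ) (hφ0 : ∀ x, 0 ≤ φ x)
    (hφb : ∃ K, ∀ x, |φ x| ≤ K)
    (hr : Measurable r) (hr0 : ∀ x, 0 ≤ r x) (hrb : ∃ K, ∀ x, |r x| ≤ K) :
    ∫ x, rt j (φ x) * r x ∂P ≤ rc j (∫ x, r x ∂P) * rt j (∫ x, φ x * r x ∂P) := by
  obtain ⟨K, hK⟩ := hφb
  obtain ⟨R, hR⟩ := hrb
  have hj1 : (1 : ℝ) < j := by exact_mod_cast (by omega : 1 < j)
  have hj0 : (0 : ℝ) < j := by linarith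
  have hpq := Real.HolderConjugate.conjExponent hj1
  set q := Real.conjExponent (j : ℝ) with hq
  have hq1 : 1 / q = 1 - 1 / (j : ℝ) := by
    have := hpq.inv_add_inv_eq_one
    rw [one_div, one_div]
    linarith
  have hq0 : 0 < q := hpq.symm.pos
  have hi0 : 0 ≤ 1 - 1 / (j : ℝ) := by rw [← hq1]; positivity
  set F : Ω → ℝ := fun x => (φ x * r x) ^ (1 / (j : ℝ)) with hF
  set G : Ω → ℝ := fun x => (r x) ^ (1 - 1 / (j : ℝ)) with hG
  have hFm : Measurable F := (hφ.mul hr).pow_const _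
  have hGm : Measurable G := hr.pow_const _
  have hF0 : ∀ x, 0 ≤ F x := fun x => Real.rpow_nonneg (mul_nonneg (hφ0 x) (hr0 x)) _
  have hG0 : ∀ x, 0 ≤ G x := fun x => Real.rpow_nonneg (hr0 x) _
  have hFL : MemLp F (ENNReal.ofReal (j : ℝ)) P := by
    refine MemLp.of_bound hFm.aestronglyMeasurable ((K * R) ^ (1 / (j : ℝ)))
      (Filter.Eventually.of_forall fun x => ?_)
    rw [Real.norm_eq_abs, abs_of_nonneg (hF0 x)]
    refine Real.rpow_le_rpow (mul_nonneg (hφ0 x) (hr0 x)) ?_ (by positivity)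
    exact mul_le_mul ((le_abs_self _).trans (hK x)) ((le_abs_self _).trans (hR x)) (hr0 x)
      ((abs_nonneg _).trans (hK x))
  have hGL : MemLp G (ENNReal.ofReal q) P := by
    refine MemLp.of_bound hGm.aestronglyMeasurable (R ^ (1 - 1 / (j : ℝ)))
      (Filter.Eventually.of_forall fun x => ?_)
    rw [Real.norm_eq_abs, abs_of_nonneg (hG0 x)]
    exact Real.rpow_le_rpow (hr0 x) ((le_abs_self _).trans (hR x)) hi0
  have h := integral_mul_le_Lp_mul_Lq_of_nonneg hpq (Filter.Eventually.of_forall hF0)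
    (Filter.Eventually.of_forall hG0) hFL hGL
  have e1 : ∀ x, F x * G x = rt j (φ x) * r x := by
    intro x
    simp only [hF, hG]
    unfold rt
    rw [max_eq_left (hφ0 x), Real.mul_rpow (hφ0 x) (hr0 x), mul_assoc,
      ← Real.rpow_add_of_nonneg (hr0 x) (by positivity) hi0]
    congr 1
    rw [add_sub_cancel, Real.rpow_one]
  have e2 : ∀ x, F x ^ (j : ℝ) = φ x * r x := by
    intro x
    simp only [hF]
    rw [← Real.rpow_mul (mul_nonneg (hφ0 x) (hr0 x)), one_div, inv_mul_cancel₀ hj0.ne',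
      Real.rpow_one]
  have e3 : ∀ x, G x ^ q = r x := by
    intro x
    simp only [hG]
    rw [← Real.rpow_mul (hr0 x), ← hq1, one_div, inv_mul_cancel₀ hq0.ne', Real.rpow_one]
  simp only [e1, e2, e3] at h
  refine h.trans (le_of_eq ?_)
  unfold rc rt
  rw [max_eq_left (integral_nonneg hr0),
    max_eq_left (integral_nonneg fun x => mul_nonneg (hφ0 x) (hr0 x)), ← hq1, mul_comm]

end prob


section bad

variable {ι Tm X : Type} [DecidableEq ι] [DecidableEq Tm] [MeasurableSpace X]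
variable (S : Sys ι Tm X) (g : Tm → (ι → X) → Prop) (sr : ℕ)
variable (hgm : ∀ τ, MeasurableSet {ω | g τ ω})
variable (hgl : ∀ τ ω ω', (∀ i ∈ S.sp τ, ω i = ω' i) → (g τ ω ↔ g τ ω'))
variable (hF3 : S_F3) (hF5 : S_F5) (μ : Measure X) [IsProbabilityMeasure μ] (p : ℝ)
  (hp : ∀ b η, S.ker μ (Nb (2 * sr) b) (fun ω => ind (Bads S g sr b ω)) η ≤ p)

include hgm hgl hF3 hF5 hp in
lemma ker_Bp (hp0 : 0 < p) (q : ℝ) (hq : 0 < q) (hq1 : q ≤ 1)
    (j : ℕ) (hpq : p ≤ q ^ (2 * j * (4 * sr + 4) ^ 2))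
    (L : Finset Pl) (s : Finset Pl) (hs : ∀ b ∈ s, Nb (2 * sr) b ⊆ L) (η : ι → X) :
    S.ker μ L (Bp S g sr s) η ≤ (q ^ s.card) ^ (2 * j) := by
  classical
  set M : ℕ := 3 * sr + 1 with hM
  have hM0 : (0 : ℤ) < (M : ℤ) := by positivity
  set T : Finset (ℤ × ℤ) := Finset.Ico (0:ℤ) M ×ˢ Finset.Ico (0:ℤ) M with hT
  set cl : Pl → ℤ × ℤ := fun b => (b.1 % M, b.2 % M) with hcl
  have hmaps : ∀ b ∈ s, cl b ∈ T := by
    intro b _
    rw [hT, Finset.mem_product, Finset.mem_Ico, Finset.mem_Ico]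
    simp only [hcl]
    exact ⟨⟨Int.emod_nonneg _ hM0.ne', Int.emod_lt_of_pos _ hM0⟩,
      Int.emod_nonneg _ hM0.ne', Int.emod_lt_of_pos _ hM0⟩
  have hTc : T.card = M ^ 2 := by
    rw [hT, Finset.card_product, Int.card_Ico]
    simp [sq]
  have hsum := Finset.card_eq_sum_card_fiberwise hmaps
  obtain ⟨y, _, hy⟩ : ∃ y ∈ T, s.card ≤ M ^ 2 * (s.filter (fun b => cl b = y)).card := by
    apply Finset.exists_le_of_sum_le
    · rw [← Finset.card_pos, hTc]; positivity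
    · rw [← Finset.mul_sum, ← hsum, Finset.sum_const, hTc, smul_eq_mul]
  set s' := s.filter (fun b => cl b = y) with hs'
  have h1 : S.ker μ L (Bp S g sr s) η ≤ S.ker μ L (Bp S g sr s') η := by
    apply ker_mono hF5 S μ _ _ (Bp_meas S g sr hgm s) ⟨1, Bp_abs S g sr s⟩ (Bp_meas S g sr hgm s')
      ⟨1, Bp_abs S g sr s'⟩
    intro ξ
    unfold Bp
    rw [← Finset.prod_sdiff (Finset.filter_subset (fun b => cl b = y) s)]
    have h5 : ∏ x ∈ s \ s.filter (fun b => cl b = y), ind (Bads S g sr x (glue (S.Fr L) ξ η)) ≤ 1 :=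
      Finset.prod_le_one (fun _ _ => ind_nonneg _) (fun _ _ => ind_le _)
    have h6 : 0 ≤ ∏ x ∈ s.filter (fun b => cl b = y), ind (Bads S g sr x (glue (S.Fr L) ξ η)) :=
      Finset.prod_nonneg (fun _ _ => ind_nonneg _)
    calc _ ≤ 1 * ∏ x ∈ s.filter (fun b => cl b = y), ind (Bads S g sr x (glue (S.Fr L) ξ η)) :=
          mul_le_mul_of_nonneg_right h5 h6
      _ = _ := one_mul _
  have hsep : ∀ x x' : ℤ, x % M = x' % M → |x - x'| ≤ ((3 * sr : ℕ) : ℤ) → x = x' := by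
    intro x x' hx hxx
    have h5 : (M : ℤ) ∣ x - x' := (show x' ≡ x [ZMOD (M : ℤ)] from hx.symm).dvd
    have h6 := Int.eq_zero_of_abs_lt_dvd h5 (by rw [hM]; push_cast at hxx ⊢; linarith)
    linarith
  have h2 := ker_Bp_class S g sr hgm hgl hF3 hF5 μ p hp hp0 L s'
    (fun b hb => hs b (Finset.mem_filter.1 hb).1) (by
      intro b hb b' hb' hne hn
      apply hne
      rw [hs', Finset.mem_filter] at hb hb'
      have e := hb.2.trans hb'.2.symm
      simp only [hcl, Prod.mk.injEq] at e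
      unfold near at hn
      apply Prod.ext
      · exact hsep _ _ e.1 hn.1
      · exact hsep _ _ e.2 hn.2) η
  refine le_trans h1 (le_trans h2 ?_)
  calc p ^ s'.card ≤ (q ^ (2 * j * (4 * sr + 4) ^ 2)) ^ s'.card := pow_le_pow_left₀ hp0.le hpq _
    _ = q ^ (2 * j * (4 * sr + 4) ^ 2 * s'.card) := by rw [← pow_mul]
    _ ≤ q ^ (s.card * (2 * j)) := by
        apply pow_le_pow_of_le_one hq.le hq1
        have h7 : M ^ 2 ≤ (4 * sr + 4) ^ 2 := by rw [hM]; nlinarith
        calc s.card * (2 * j) ≤ (M ^ 2 * s'.card) * (2 * j) := Nat.mul_le_mul_right _ hy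
          _ = 2 * j * M ^ 2 * s'.card := by ring
          _ ≤ _ := Nat.mul_le_mul_right _ (Nat.mul_le_mul_left _ h7)
    _ = (q ^ s.card) ^ (2 * j) := by rw [pow_mul]

end bad

variable {ι Tm X : Type} [DecidableEq ι] [DecidableEq Tm] [MeasurableSpace X]

lemma C3_empty {A : Finset Pl} {w : ℕ} (n : ℕ) (Γ : Finset Pl) (Φ : Finset Pl → Finset Pl → ℕ → ℝ) :
    C3 w A n Γ ∅ Φ = 0 := by
  classical
  have h1 : ¬ emp w A (∅ : Set Pl) := by
    rintro ⟨a, _, c, hc, _⟩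
    exact hc
  cases n with
  | zero =>
    unfold C3
    rw [if_neg h1]
  | succ n =>
    unfold C3
    rw [if_neg h1, zero_add]
    apply Finset.sum_eq_zero
    intro b hb
    rw [Finset.mem_filter] at hb
    obtain ⟨_, c, hc, _⟩ := hb
    exact absurd hc (Set.notMem_empty c)

section main

variable (hF2 : S_F2) (hF3 : S_F3) (hF5 : S_F5) (S : Sys ι Tm X) (μ : Measure X)
  [IsProbabilityMeasure μ]
  (g : Tm → (ι → X) → Prop) (sr j : ℕ) (hj : 2 ≤ j) (δ θ : ℝ)
  (hgm : ∀ τ, MeasurableSet {ω | g τ ω})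
  (hgl : ∀ τ ω ω', (∀ i ∈ S.sp τ, ω i = ω' i) → (g τ ω ↔ g τ ω'))
  (hθ : 0 < θ)
  {w : ℕ}

include hF2 hF3 hF5 hj in
/-- the inequality of Hoelder for the root of a kernel -/
lemma sqint {Λ' Λ : Finset Pl} (h : Λ' ⊆ Λ) (η : ι → X) (f : (ι → X) → ℝ) (hm : Measurable f)
    (hb : ∃ K, ∀ ω, |f ω| ≤ K) (h0 : ∀ ω, 0 ≤ f ω)
    (r : (ι → X) → ℝ) (hr : Measurable r) (hr0 : ∀ ξ, 0 ≤ r ξ)
    (hrd : ∀ ξ, r ξ ≤ dens S μ Λ Λ' η ξ) :
    ∫ ξ, rt j (S.ker μ Λ' f (glue (S.Fr Λ \ S.Fr Λ') ξ η)) * r ξ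
      ∂(Measure.infinitePi fun _ : ι => μ) ≤
    rc j (∫ ξ, r ξ ∂(Measure.infinitePi fun _ : ι => μ)) *
      rt j (S.ker μ Λ f η) := by
  set J := S.Fr Λ \ S.Fr Λ' with hJ
  obtain ⟨D, hD⟩ := dens_bdd S μ Λ Λ' η
  have hrb : ∃ K, ∀ ξ, |r ξ| ≤ K := ⟨D, fun ξ => by
    rw [abs_of_nonneg (hr0 ξ)]
    exact le_trans (hrd ξ) (le_trans (le_abs_self _) (hD ξ))⟩
  have hφm := int_glue_meas hF2 hF5 S μ (Λ' := Λ') J η f hm hb
  have hφ0 : ∀ ξ : ι → X, 0 ≤ S.ker μ Λ' f (glue J ξ η) := fun ξ =>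
    ker_nonneg hF5 S μ _ hm hb h0 _
  have hφb : ∃ K, ∀ ξ : ι → X, |S.ker μ Λ' f (glue J ξ η)| ≤ K := by
    obtain ⟨K, hK⟩ := hb
    exact ⟨K, fun ξ => ker_abs hF5 S μ K _ hm hK _⟩
  have hcs := hol (Measure.infinitePi fun _ : ι => μ)
    hj (fun ξ => S.ker μ Λ' f (glue J ξ η)) r hφm hφ0 hφb hr hr0 hrb
  have h3 : ∫ ξ, S.ker μ Λ' f (glue J ξ η) * r ξ
      ∂(Measure.infinitePi fun _ : ι => μ) ≤ S.ker μ Λ f η := by
    have e : ∫ ξ, S.ker μ Λ' f (glue (S.Fr Λ \ S.Fr Λ') ξ η) * dens S μ Λ Λ' η ξ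
        ∂(Measure.infinitePi fun _ : ι => μ) = S.ker μ Λ f η := by
      rw [ker_ker hF3 S μ h f hm hb η]
      rw [ker_dens S μ hF2 h (S.ker μ Λ' f) (ker_meas hF5 S μ _ hm hb)
        (ker_bdd hF5 S μ _ hm hb) (ker_dep_out hF5 S μ _) η]
    rw [← e]
    apply integral_mono
    · exact int_mul_bdd _ (int_bdd _ hφm hφb) hr hrb
    · exact int_mul_bdd _ (int_bdd _ hφm hφb) (dens_meas S μ Λ Λ' η) ⟨D, hD⟩
    · intro ξ
      exact mul_le_mul_of_nonneg_left (hrd ξ) (hφ0 ξ)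
  refine le_trans hcs ?_
  exact mul_le_mul_of_nonneg_left (rt_mono j h3) (rc_nonneg _ _)

include hF2 hF3 hF5 hj hgm hθ in
/-- integration of the chains with square roots -/
lemma avg1 {A : Finset Pl} {Λ' Λ : Finset Pl} (h : Λ' ⊆ Λ) (η : ι → X) (n : ℕ) (Γ : Finset Pl)
    (src : Set Pl)
    (wt : Finset Pl → Finset Pl → ℕ → ℝ) (hwt : ∀ T T' t, 0 ≤ wt T T' t)
    (pr : Finset Pl → Finset Pl → Finset Pl)
    (r : (ι → X) → ℝ) (hr : Measurable r) (hr0 : ∀ ξ, 0 ≤ r ξ)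
    (hrd : ∀ ξ, r ξ ≤ dens S μ Λ Λ' η ξ) (c : ℝ)
    (hc : rc j (∫ ξ, r ξ ∂(Measure.infinitePi fun _ : ι => μ)) ≤ c) :
    ∫ ξ, C3 w A n Γ src (fun T T' t => wt T T' t *
      rt j (kk S μ g sr θ Λ' (glue (S.Fr Λ \ S.Fr Λ') ξ η) (pr T T'))) * r ξ
      ∂(Measure.infinitePi fun _ : ι => μ) ≤
    C3 w A n Γ src (fun T T' t => c * (wt T T' t * rt j (kk S μ g sr θ Λ η (pr T T')))) := by
  set P : Measure (ι → X) := Measure.infinitePi fun _ : ι => μ with hP
  set J := S.Fr Λ \ S.Fr Λ' with hJ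
  obtain ⟨D, hD⟩ := dens_bdd S μ Λ Λ' η
  have hrb : ∃ K, ∀ ξ, |r ξ| ≤ K := ⟨D, fun ξ => by
    rw [abs_of_nonneg (hr0 ξ)]
    exact le_trans (hrd ξ) (le_trans (le_abs_self _) (hD ξ))⟩
  have hi : ∀ T T' t, Integrable (fun ξ => wt T T' t *
      rt j (kk S μ g sr θ Λ' (glue J ξ η) (pr T T'))) P := by
    intro T T' t
    apply Integrable.const_mul
    apply int_bdd P (rt_meas j (kk_meas hF5 S μ g sr θ hgm hθ J η _))
    refine ⟨rt j (1 + θ), fun ξ => ?_⟩
    rw [abs_of_nonneg (rt_nonneg _ _)]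
    exact rt_mono j (le_trans (le_abs_self _) (kk_le hF5 S μ g sr θ hgm hθ _ _ _))
  have h1 := (C3_integral (A := A) (w := w) P n Γ src
    (fun ξ T T' t => r ξ * (wt T T' t *
      rt j (kk S μ g sr θ Λ' (glue J ξ η) (pr T T')))) (fun T T' t => by
      have := int_mul_bdd P (hi T T' t) hr hrb
      simpa only [mul_comm] using this)).2
  simp only [C3_smul] at h1
  simp only [mul_comm _ (r _)]
  rw [h1]
  apply C3_mono
  intro T _ T' _ t
  have h2 := sqint hF2 hF3 hF5 S μ j hj h η (Bt S g sr θ (pr T T')) (Bt_meas S g sr θ hgm _)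
    ⟨1 + θ, Bt_abs S g sr θ hθ _⟩ (Bt_nonneg S g sr θ hθ _) r hr hr0 hrd
  have e1 : ∫ ξ, r ξ * (wt T T' t *
      rt j (kk S μ g sr θ Λ' (glue J ξ η) (pr T T'))) ∂P =
      wt T T' t * ∫ ξ, rt j (kk S μ g sr θ Λ' (glue J ξ η) (pr T T')) * r ξ ∂P := by
    rw [← integral_const_mul]
    congr 1
    funext ξ
    ring
  rw [e1]
  calc _ ≤ wt T T' t * (rc j (∫ ξ, r ξ ∂P) * rt j (kk S μ g sr θ Λ η (pr T T'))) :=
        mul_le_mul_of_nonneg_left h2 (hwt T T' t)
    _ ≤ wt T T' t * (c * rt j (kk S μ g sr θ Λ η (pr T T'))) := by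
        apply mul_le_mul_of_nonneg_left _ (hwt T T' t)
        exact mul_le_mul_of_nonneg_right hc (rt_nonneg _ _)
    _ = _ := by ring

/-- weights of the chains -/
def Ph (Λ : Finset Pl) (η η' : ι → X) (T T' : Finset Pl) (t : ℕ) : ℝ :=
  rc j δ ^ t * (qr j (kk S μ g sr θ Λ η T) * qr j (kk S μ g sr θ Λ η' T'))

lemma Ph_nonneg (Λ : Finset Pl) (η η' : ι → X) (T T' : Finset Pl) (t : ℕ) :
    0 ≤ Ph S μ g sr j δ θ Λ η η' T T' t :=
  mul_nonneg (pow_nonneg (rc_nonneg _ _) _) (mul_nonneg (qr_nonneg _ _) (qr_nonneg _ _))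

/-- the optimal factor -/
def lam (Λ : Finset Pl) (η η' : ι → X) (T T' : Finset Pl) : ℝ :=
  qr j (kk S μ g sr θ Λ η' T') / qr j (kk S μ g sr θ Λ η T)

def w1 (Λ : Finset Pl) (η η' : ι → X) (T T' : Finset Pl) (t : ℕ) : ℝ :=
  rc j δ ^ t * (lam S μ g sr j θ Λ η η' T T' / 2)

def w2 (Λ : Finset Pl) (η η' : ι → X) (T T' : Finset Pl) (t : ℕ) : ℝ :=
  rc j δ ^ t * (1 / (2 * lam S μ g sr j θ Λ η η' T T'))

include hF5 hgm hθ

lemma lam_pos (Λ : Finset Pl) (η η' : ι → X) (T T' : Finset Pl) :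
    0 < lam S μ g sr j θ Λ η η' T T' :=
  div_pos (qr_pos j (kk_pos hF5 S μ g sr θ hgm hθ _ _ _))
    (qr_pos j (kk_pos hF5 S μ g sr θ hgm hθ _ _ _))

lemma w1_nonneg (Λ : Finset Pl) (η η' : ι → X) (T T' : Finset Pl) (t : ℕ) :
    0 ≤ w1 S μ g sr j δ θ Λ η η' T T' t := by
  have := lam_pos hF5 S μ g sr j θ hgm hθ Λ η η' T T'
  have h0 := rc_nonneg j δ
  unfold w1
  positivity

lemma w2_nonneg (Λ : Finset Pl) (η η' : ι → X) (T T' : Finset Pl) (t : ℕ) :
    0 ≤ w2 S μ g sr j δ θ Λ η η' T T' t := by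
  have := lam_pos hF5 S μ g sr j θ hgm hθ Λ η η' T T'
  have h0 := rc_nonneg j δ
  unfold w2
  positivity

lemma Ph_upper (Λ : Finset Pl) (η η' : ι → X) (T T' : Finset Pl) (t : ℕ) :
    w1 S μ g sr j δ θ Λ η η' T T' t * rt j (kk S μ g sr θ Λ η T) +
      w2 S μ g sr j δ θ Λ η η' T T' t * rt j (kk S μ g sr θ Λ η' T') =
      Ph S μ g sr j δ θ Λ η η' T T' t := by
  have := qr_opt j (kk_pos hF5 S μ g sr θ hgm hθ Λ η T) (kk_pos hF5 S μ g sr θ hgm hθ Λ η' T')
  unfold w1 w2 Ph lam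
  rw [← this]
  ring

lemma Ph_lower (Λ : Finset Pl) (η η' : ι → X) (Λ' : Finset Pl) (ζ ζ' : ι → X)
    (T T' : Finset Pl) (t : ℕ) :
    Ph S μ g sr j δ θ Λ' ζ ζ' T T' t ≤
      w1 S μ g sr j δ θ Λ η η' T T' t * rt j (kk S μ g sr θ Λ' ζ T) +
      w2 S μ g sr j δ θ Λ η η' T T' t * rt j (kk S μ g sr θ Λ' ζ' T') := by
  have h := qr_amgm j (kk S μ g sr θ Λ' ζ T) (kk S μ g sr θ Λ' ζ' T') _
    (lam_pos hF5 S μ g sr j θ hgm hθ Λ η η' T T')
  have h2 := mul_le_mul_of_nonneg_left h (pow_nonneg (rc_nonneg j δ) t)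
  unfold w1 w2 Ph
  refine h2.trans (le_of_eq ?_)
  ring

include hF2 hF3 hj in
/-- integration of both kinds of chains -/
lemma avg2 {A : Finset Pl} {Λ' Λ : Finset Pl} (h : Λ' ⊆ Λ) (η η' : ι → X) (n : ℕ) (Γ : Finset Pl)
    (src : Set Pl)
    (r r' : (ι → X) → ℝ) (hr : Measurable r) (hr0 : ∀ ξ, 0 ≤ r ξ)
    (hrd : ∀ ξ, r ξ ≤ dens S μ Λ Λ' η ξ)
    (hr' : Measurable r') (hr0' : ∀ ξ, 0 ≤ r' ξ)
    (hrd' : ∀ ξ, r' ξ ≤ dens S μ Λ Λ' η' ξ) (c : ℝ)
    (hc : rc j (∫ ξ, r ξ ∂(Measure.infinitePi fun _ : ι => μ)) ≤ c)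
    (hc' : rc j (∫ ξ, r' ξ ∂(Measure.infinitePi fun _ : ι => μ)) ≤ c) :
    ∫ ξ, C3 w A n Γ src (fun T T' t => w1 S μ g sr j δ θ Λ η η' T T' t *
      rt j (kk S μ g sr θ Λ' (glue (S.Fr Λ \ S.Fr Λ') ξ η) T)) * r ξ
      ∂(Measure.infinitePi fun _ : ι => μ) +
    ∫ ξ, C3 w A n Γ src (fun T T' t => w2 S μ g sr j δ θ Λ η η' T T' t *
      rt j (kk S μ g sr θ Λ' (glue (S.Fr Λ \ S.Fr Λ') ξ η') T')) * r' ξ
      ∂(Measure.infinitePi fun _ : ι => μ) ≤
    C3 w A n Γ src (fun T T' t => c * Ph S μ g sr j δ θ Λ η η' T T' t) := by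
  have h1 := avg1 hF2 hF3 hF5 S μ g sr j hj θ hgm hθ (A := A) (w := w) h η n Γ src
    (w1 S μ g sr j δ θ Λ η η') (w1_nonneg hF5 S μ g sr j δ θ hgm hθ Λ η η') (fun T _ => T)
    r hr hr0 hrd c hc
  have h2 := avg1 hF2 hF3 hF5 S μ g sr j hj θ hgm hθ (A := A) (w := w) h η' n Γ src
    (w2 S μ g sr j δ θ Λ η η') (w2_nonneg hF5 S μ g sr j δ θ hgm hθ Λ η η') (fun _ T' => T')
    r' hr' hr0' hrd' c hc'
  refine le_trans (add_le_add h1 h2) ?_
  rw [← C3_add]
  apply C3_mono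
  intro T _ T' _ t
  rw [← Ph_upper hF5 S μ g sr j δ θ hgm hθ Λ η η' T T' t]
  exact le_of_eq (by ring)

include hF2 hF3 hj in
/-- one step of the comparison -/
lemma step_gen {A : Finset Pl} {Λ' Λ : Finset Pl} (h : Λ' ⊆ Λ) (f : (ι → X) → ℝ)
    (hf : Measurable f) (hf1 : ∀ ω, |f ω| ≤ 1) (η η' : ι → X) (n : ℕ) (Γ : Finset Pl)
    (src src2 : Set Pl)
    (h1 : ∀ ξ, |S.ker μ Λ' f (glue (S.Fr Λ \ S.Fr Λ') ξ η) -
        S.ker μ Λ' f (glue (S.Fr Λ \ S.Fr Λ') ξ η')| ≤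
      2 * C3 w A n Γ src (Ph S μ g sr j δ θ Λ' (glue (S.Fr Λ \ S.Fr Λ') ξ η)
        (glue (S.Fr Λ \ S.Fr Λ') ξ η')))
    (h2 : ∀ ξ ξ', |S.ker μ Λ' f (glue (S.Fr Λ \ S.Fr Λ') ξ η) -
        S.ker μ Λ' f (glue (S.Fr Λ \ S.Fr Λ') ξ' η')| ≤
      2 * (C3 w A n Γ src (Ph S μ g sr j δ θ Λ' (glue (S.Fr Λ \ S.Fr Λ') ξ η)
        (glue (S.Fr Λ \ S.Fr Λ') ξ' η')) +
        C3 w A n Γ src2 (Ph S μ g sr j δ θ Λ' (glue (S.Fr Λ \ S.Fr Λ') ξ η)
        (glue (S.Fr Λ \ S.Fr Λ') ξ' η'))))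
    (c : ℝ)
    (hc : rc j (∫ ξ, (dens S μ Λ Λ' η ξ - min (dens S μ Λ Λ' η ξ) (dens S μ Λ Λ' η' ξ))
      ∂(Measure.infinitePi fun _ : ι => μ)) ≤ c)
    (hc' : rc j (∫ ξ, (dens S μ Λ Λ' η' ξ - min (dens S μ Λ Λ' η ξ) (dens S μ Λ Λ' η' ξ))
      ∂(Measure.infinitePi fun _ : ι => μ)) ≤ c) :
    |S.ker μ Λ f η - S.ker μ Λ f η'| ≤
      2 * C3 w A n Γ src (Ph S μ g sr j δ θ Λ η η') +
      2 * C3 w A n Γ src2 (fun T T' t => c * Ph S μ g sr j δ θ Λ η η' T T' t) := by
  have hfb : ∃ K, ∀ ω, |f ω| ≤ K := ⟨1, hf1⟩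
  set P : Measure (ι → X) := Measure.infinitePi fun _ : ι => μ with hP
  set J := S.Fr Λ \ S.Fr Λ' with hJ
  have hDm := dens_meas S μ Λ Λ' η
  have hDb := dens_bdd S μ Λ Λ' η
  have hD0 := dens_nonneg S μ Λ Λ' η
  have hDm' := dens_meas S μ Λ Λ' η'
  have hDb' := dens_bdd S μ Λ Λ' η'
  have hD0' := dens_nonneg S μ Λ Λ' η'
  have hD1 := dens_integral S μ hF2 hF5 h η
  have hD1' := dens_integral S μ hF2 hF5 h η'
  set a : (ι → X) → ℝ := fun ξ => C3 w A n Γ src (fun T T' t => w1 S μ g sr j δ θ Λ η η' T T' t *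
      rt j (kk S μ g sr θ Λ' (glue J ξ η) T)) with ha
  set a' : (ι → X) → ℝ := fun ξ => C3 w A n Γ src (fun T T' t => w2 S μ g sr j δ θ Λ η η' T T' t *
      rt j (kk S μ g sr θ Λ' (glue J ξ η') T')) with ha'
  set e : (ι → X) → ℝ := fun ξ => C3 w A n Γ src2 (fun T T' t => w1 S μ g sr j δ θ Λ η η' T T' t *
      rt j (kk S μ g sr θ Λ' (glue J ξ η) T)) with he
  set e' : (ι → X) → ℝ := fun ξ => C3 w A n Γ src2 (fun T T' t => w2 S μ g sr j δ θ Λ η η' T T' t *
      rt j (kk S μ g sr θ Λ' (glue J ξ η') T')) with he'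
  have hi : ∀ (ζ : ι → X) (v : ℝ) (T : Finset Pl), Integrable (fun ξ => v *
      rt j (kk S μ g sr θ Λ' (glue J ξ ζ) T)) P := by
    intro ζ v T
    apply Integrable.const_mul
    apply int_bdd P (rt_meas j (kk_meas hF5 S μ g sr θ hgm hθ J ζ _))
    refine ⟨rt j (1 + θ), fun ξ => ?_⟩
    rw [abs_of_nonneg (rt_nonneg _ _)]
    exact rt_mono j (le_trans (le_abs_self _) (kk_le hF5 S μ g sr θ hgm hθ _ _ _))
  have ia : Integrable a P := (C3_integral P n Γ src _ (fun T T' t => hi η _ T)).1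
  have ia' : Integrable a' P := (C3_integral P n Γ src _ (fun T T' t => hi η' _ T')).1
  have ie : Integrable e P := (C3_integral P n Γ src2 _ (fun T T' t => hi η _ T)).1
  have ie' : Integrable e' P := (C3_integral P n Γ src2 _ (fun T T' t => hi η' _ T')).1
  have n1 := w1_nonneg hF5 S μ g sr j δ θ hgm hθ Λ η η'
  have n2 := w2_nonneg hF5 S μ g sr j δ θ hgm hθ Λ η η'
  have na : ∀ ξ, 0 ≤ a ξ := fun ξ => C3_nonneg _ _ _ _ (fun T T' t =>
    mul_nonneg (n1 T T' t) (rt_nonneg _ _))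
  have na' : ∀ ξ, 0 ≤ a' ξ := fun ξ => C3_nonneg _ _ _ _ (fun T T' t =>
    mul_nonneg (n2 T T' t) (rt_nonneg _ _))
  have ne : ∀ ξ, 0 ≤ e ξ := fun ξ => C3_nonneg _ _ _ _ (fun T T' t =>
    mul_nonneg (n1 T T' t) (rt_nonneg _ _))
  have ne' : ∀ ξ, 0 ≤ e' ξ := fun ξ => C3_nonneg _ _ _ _ (fun T T' t =>
    mul_nonneg (n2 T T' t) (rt_nonneg _ _))
  have hle : ∀ (sr' : Set Pl) (ξ ξ' : ι → X),
      C3 w A n Γ sr' (Ph S μ g sr j δ θ Λ' (glue J ξ η) (glue J ξ' η')) ≤
      C3 w A n Γ sr' (fun T T' t => w1 S μ g sr j δ θ Λ η η' T T' t *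
        rt j (kk S μ g sr θ Λ' (glue J ξ η) T)) +
      C3 w A n Γ sr' (fun T T' t => w2 S μ g sr j δ θ Λ η η' T T' t *
        rt j (kk S μ g sr θ Λ' (glue J ξ' η') T')) := by
    intro sr' ξ ξ'
    rw [← C3_add]
    apply C3_mono
    intro T _ T' _ t
    exact Ph_lower hF5 S μ g sr j δ θ hgm hθ Λ η η' Λ' _ _ T T' t
  have hcoup := coupling2 P (fun ξ => S.ker μ Λ' f (glue J ξ η))
    (fun ξ => S.ker μ Λ' f (glue J ξ η')) a a' e e' (dens S μ Λ Λ' η) (dens S μ Λ Λ' η')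
    (int_glue_meas hF2 hF5 S μ J η f hf hfb) (int_glue_meas hF2 hF5 S μ J η' f hf hfb)
    ⟨1, fun ξ => ker_abs hF5 S μ 1 f hf hf1 _⟩ ⟨1, fun ξ => ker_abs hF5 S μ 1 f hf hf1 _⟩
    ia ia' ie ie' na ne na' ne'
    hDm hDm' hDb hDb' hD0 hD0' hD1 hD1'
    (fun ξ => (h1 ξ).trans (mul_le_mul_of_nonneg_left (hle src ξ ξ) (by norm_num)))
    (fun ξ ξ' => (h2 ξ ξ').trans (by
      have g1 := hle src ξ ξ'
      have g2 := hle src2 ξ ξ'
      simp only [ha, ha', he, he']
      linarith))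
  have hker : ∀ ζ : ι → X, S.ker μ Λ f ζ =
      ∫ ξ, S.ker μ Λ' f (glue J ξ ζ) * dens S μ Λ Λ' ζ ξ ∂P := by
    intro ζ
    rw [ker_ker hF3 S μ h f hf hfb ζ]
    exact ker_dens S μ hF2 h (S.ker μ Λ' f) (ker_meas hF5 S μ _ hf hfb)
      (ker_bdd hF5 S μ _ hf hfb) (ker_dep_out hF5 S μ _) ζ
  rw [hker η, hker η']
  refine le_trans hcoup ?_
  have hA1 := avg2 hF2 hF3 hF5 S μ g sr j hj δ θ hgm hθ (A := A) (w := w) h η η' n Γ src
    (dens S μ Λ Λ' η) (dens S μ Λ Λ' η') hDm hD0 (fun ξ => le_rfl) hDm' hD0' (fun ξ => le_rfl) 1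
    (by rw [hD1, rc_one]) (by rw [hD1', rc_one])
  simp only [one_mul] at hA1
  have hm0 : ∀ ξ, 0 ≤ min (dens S μ Λ Λ' η ξ) (dens S μ Λ Λ' η' ξ) := fun ξ =>
    le_min (hD0 ξ) (hD0' ξ)
  have hB1 := avg2 hF2 hF3 hF5 S μ g sr j hj δ θ hgm hθ (A := A) (w := w) h η η' n Γ src2
    (fun ξ => dens S μ Λ Λ' η ξ - min (dens S μ Λ Λ' η ξ) (dens S μ Λ Λ' η' ξ))
    (fun ξ => dens S μ Λ Λ' η' ξ - min (dens S μ Λ Λ' η ξ) (dens S μ Λ Λ' η' ξ))
    (hDm.sub (hDm.min hDm')) (fun ξ => sub_nonneg.2 (min_le_left _ _))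
    (fun ξ => by have := hm0 ξ; linarith)
    (hDm'.sub (hDm.min hDm')) (fun ξ => sub_nonneg.2 (min_le_right _ _))
    (fun ξ => by have := hm0 ξ; linarith) c hc hc'
  have e1 : C3 w A n Γ src (Ph S μ g sr j δ θ Λ η η') =
      C3 w A n Γ src (fun T T' t => Ph S μ g sr j δ θ Λ η η' T T' t) := rfl
  rw [e1]
  linarith

end main

section claim

variable (hF2 : S_F2) (hF3 : S_F3) (hF5 : S_F5) (S : Sys ι Tm X) (μ : Measure X)
  [IsProbabilityMeasure μ]
  (g : Tm → (ι → X) → Prop) (sr j : ℕ) (hj : 2 ≤ j) (δ θ : ℝ)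
  (hgm : ∀ τ, MeasurableSet {ω | g τ ω})
  (hgl : ∀ τ ω ω', (∀ i ∈ S.sp τ, ω i = ω' i) → (g τ ω ↔ g τ ω'))
  (hθ : 0 < θ)
  {w : ℕ} (hw : 3 ≤ w)
  (hQ : ∀ b, ∀ Λ : Finset Pl, b ∈ Λ → ∀ η η' : ι → X,
    (∀ i, (∀ a ∈ S.bl i, a ∈ Nb (w - 1) b ∧ a ∉ Λ) → η i = η' i) →
    (∀ τ ∈ S.tms (Nb sr b), (∀ a ∈ S.bt τ, a ∈ Nb sr b ∧ a ∉ Λ) → g τ η ∧ g τ η') →
    ∀ F : (ι → X) → ℝ, Measurable F → (∀ ω, 0 ≤ F ω ∧ F ω ≤ 1) →
      Sys.dep {i | ∀ a ∈ S.bl i, (a ∈ Nb (w - 1) b ∧ a ∉ Λ) ∨ a = b} F →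
      S.ker μ Λ F η ≤ S.ker μ Λ F η' + δ)

include hF2 hF3 hF5 hj hgm hgl hθ hw hQ in
/-- the main estimate -/
theorem claim3 (hδ : 0 < δ) (Λ₁ A : Finset Pl) (f : (ι → X) → ℝ) (hf : Measurable f)
    (hf1 : ∀ ω, |f ω| ≤ 1) (hfd : Sys.dep {i | ∀ a ∈ S.bl i, a ∈ A} f) (n : ℕ) :
    ∀ Λ K : Finset Pl, Λ.card ≤ n → Λ ⊆ K → K ⊆ Λ₁ → ∀ η η' : ι → X,
      (∀ i, i ∉ S.Fr Λ → (∀ a ∈ S.bl i, a ∈ K) → η i = η' i) →
      |S.ker μ Λ f η - S.ker μ Λ f η'| ≤
        2 * C3 w A n Λ {c | c ∉ K} (Ph S μ g sr j δ θ Λ η η') := by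
  classical
  have hfb : ∃ K, ∀ ω, |f ω| ≤ K := ⟨1, hf1⟩
  -- the three cases, for a given fuel
  have caseI : ∀ (n : ℕ) (Λ K : Finset Pl) (η η' : ι → X), emp w A {c | c ∉ K} →
      |S.ker μ Λ f η - S.ker μ Λ f η'| ≤
        2 * C3 w A n Λ {c | c ∉ K} (Ph S μ g sr j δ θ Λ η η') := by
    intro n Λ K η η' he
    have h1 := ker_abs hF5 S μ (Λ := Λ) 1 f hf hf1 η
    have h2 := ker_abs hF5 S μ (Λ := Λ) 1 f hf hf1 η'
    have h3 : |S.ker μ Λ f η - S.ker μ Λ f η'| ≤ 2 := by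
      have := abs_sub (S.ker μ Λ f η) (S.ker μ Λ f η')
      linarith
    have h4 : 1 ≤ Ph S μ g sr j δ θ Λ η η' ∅ ∅ 0 := by
      have h6 : ∀ ζ : ι → X, 1 ≤ kk S μ g sr θ Λ ζ ∅ := by
        intro ζ
        rw [kk_eq hF5 S μ g sr θ hgm hθ]
        have : Bp S g sr ∅ = fun _ => 1 := by
          funext ω
          unfold Bp
          rw [Finset.prod_empty]
        rw [this, ker_const hF5 S μ Λ 1 ζ]
        linarith
      have h7 : ∀ ζ : ι → X, 1 ≤ qr j (kk S μ g sr θ Λ ζ ∅) := fun ζ => one_le_qr j (h6 ζ)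
      unfold Ph
      rw [pow_zero, one_mul]
      exact one_le_mul_of_one_le_of_one_le (h7 η) (h7 η')
    have h5 : 1 ≤ C3 w A n Λ {c | c ∉ K} (Ph S μ g sr j δ θ Λ η η') := by
      cases n with
      | zero => unfold C3; rw [if_pos he]; exact h4
      | succ n =>
        unfold C3
        rw [if_pos he]
        refine h4.trans (le_add_of_nonneg_right ?_)
        apply Finset.sum_nonneg
        intro b _
        exact add_nonneg (add_nonneg
          (C3_nonneg _ _ _ _ (fun s s' t => Ph_nonneg S μ g sr j δ θ _ _ _ _ _ _))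
          (C3_nonneg _ _ _ _ (fun s s' t => Ph_nonneg S μ g sr j δ θ _ _ _ _ _ _)))
          (C3_nonneg _ _ _ _ (fun s s' t => Ph_nonneg S μ g sr j δ θ _ _ _ _ _ _))
    linarith
  have caseII : ∀ (n : ℕ) (Λ K : Finset Pl) (η η' : ι → X), ¬ emp w A {c | c ∉ K} →
      (∀ i, i ∉ S.Fr Λ → (∀ a ∈ S.bl i, a ∈ K) → η i = η' i) →
      (∀ b ∈ Λ, ¬ ((∃ c ∈ {c | c ∉ K}, d3 w b c) ∧ Nb (w - 1) b ⊆ K)) →
      |S.ker μ Λ f η - S.ker μ Λ f η'| ≤
        2 * C3 w A n Λ {c | c ∉ K} (Ph S μ g sr j δ θ Λ η η') := by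
    intro n Λ K η η' he hag hno
    set Λ' : Finset Pl := Λ.filter (fun x => Nb w x ⊆ K) with hΛ'
    have hΛ'Λ : Λ' ⊆ Λ := Finset.filter_subset _ _
    have hin : ∀ x ∈ Λ, Nb (w - 1) x ⊆ K → x ∈ Λ' := by
      intro x hx hx2
      rw [hΛ', Finset.mem_filter]
      refine ⟨hx, ?_⟩
      intro c hc
      by_contra hcK
      apply hno x hx
      refine ⟨⟨c, hcK, ?_, ?_⟩, hx2⟩
      · rw [PkgX.mem_Nb] at hc; exact hc
      · intro hn
        exact hcK (hx2 (PkgX.mem_Nb.2 hn))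
    have hself : ∀ (r : ℕ) (x : Pl), x ∈ Nb r x := by
      intro r x
      rw [PkgX.mem_Nb]; unfold near; simp
    have hconst : ∀ ξ ξ' : ι → X, S.ker μ Λ' f (glue (S.Fr Λ) ξ η) =
        S.ker μ Λ' f (glue (S.Fr Λ) ξ' η') := by
      intro ξ ξ'
      apply ker_dep' hF5 S μ (Λ := Λ') _ f hfd
      rintro i ⟨hi1, hi2⟩
      have hsites : ∀ a ∈ S.bl i, Nb (w - 1) a ⊆ K := by
        intro a ha
        rcases hi2 with hi2 | ⟨τ, hτ, hi2⟩
        · intro c hc
          by_contra hcK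
          exact he ⟨a, hi2 a ha, c, hcK, by rw [PkgX.mem_Nb] at hc; exact hc⟩
        · rw [S.mem_tms] at hτ
          obtain ⟨a₀, ha₀, ha₀'⟩ := hτ
          rw [hΛ', Finset.mem_filter] at ha₀'
          have h1 : near 1 a₀ a := S.diam_bt τ a₀ ha₀ a ((S.bt_iff τ a).2 ⟨i, hi2, ha⟩)
          intro c hc
          apply ha₀'.2
          rw [PkgX.mem_Nb] at hc ⊢
          have := near_trans h1 hc
          exact near_mono this (by omega)
      have hiΛ : i ∉ S.Fr Λ := by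
        intro h
        rw [S.mem_Fr] at h
        obtain ⟨a, ha, haΛ⟩ := h
        apply hi1
        rw [S.mem_Fr]
        exact ⟨a, ha, hin a haΛ (hsites a ha)⟩
      rw [glue_notMem hiΛ, glue_notMem hiΛ]
      exact hag i hiΛ (fun a ha => hsites a ha (hself (w - 1) a))
    have e1 : S.ker μ Λ f η = S.ker μ Λ' f (glue (S.Fr Λ) η η') := by
      rw [ker_ker hF3 S μ hΛ'Λ f hf hfb η]
      rw [ker_congr S μ Λ (S.ker μ Λ' f) (fun _ => S.ker μ Λ' f (glue (S.Fr Λ) η η')) η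
        (fun ξ => hconst ξ η)]
      exact ker_const hF5 S μ Λ _ η
    have e2 : S.ker μ Λ f η' = S.ker μ Λ' f (glue (S.Fr Λ) η η') := by
      rw [ker_ker hF3 S μ hΛ'Λ f hf hfb η']
      rw [ker_congr S μ Λ (S.ker μ Λ' f) (fun _ => S.ker μ Λ' f (glue (S.Fr Λ) η η')) η'
        (fun ξ => by rw [← hconst η ξ, hconst η η])]
      exact ker_const hF5 S μ Λ _ η'
    rw [e1, e2, sub_self, abs_zero]
    have := C3_nonneg (A := A) (w := w) n Λ {c | c ∉ K} (Ph S μ g sr j δ θ Λ η η')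
      (fun s s' t => Ph_nonneg S μ g sr j δ θ _ _ _ _ _ _)
    linarith
  induction n with
  | zero =>
    intro Λ K hcard hΛK hK η η' hag
    have hΛ0 : Λ = ∅ := Finset.card_eq_zero.1 (Nat.le_zero.1 hcard)
    by_cases he : emp w A {c | c ∉ K}
    · exact caseI 0 Λ K η η' he
    · apply caseII 0 Λ K η η' he hag
      intro b hb
      rw [hΛ0] at hb
      exact absurd hb (Finset.notMem_empty b)
  | succ n ih =>
    intro Λ K hcard hΛK hK η η' hag
    by_cases he : emp w A {c | c ∉ K}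
    · exact caseI (n+1) Λ K η η' he
    by_cases hno : ∀ b ∈ Λ, ¬ ((∃ c ∈ {c | c ∉ K}, d3 w b c) ∧ Nb (w - 1) b ⊆ K)
    · exact caseII (n+1) Λ K η η' he hag hno
    push Not at hno
    obtain ⟨b, hb, hd, hbK⟩ := hno
    set Λ' : Finset Pl := Λ.erase b with hΛ'
    have hΛ'Λ : Λ' ⊆ Λ := Finset.erase_subset _ _
    have hcard' : Λ'.card ≤ n := by
      rw [hΛ', Finset.card_erase_of_mem hb]
      omega
    set J : Finset ι := S.Fr Λ \ S.Fr Λ' with hJ
    set P : Measure (ι → X) := Measure.infinitePi fun _ : ι => μ with hP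
    have hDm := dens_meas S μ Λ Λ' η
    have hDb := dens_bdd S μ Λ Λ' η
    have hD0 := dens_nonneg S μ Λ Λ' η
    have hDm' := dens_meas S μ Λ Λ' η'
    have hDb' := dens_bdd S μ Λ Λ' η'
    have hD0' := dens_nonneg S μ Λ Λ' η'
    have hD1 := dens_integral S μ hF2 hF5 hΛ'Λ η
    have hD1' := dens_integral S μ hF2 hF5 hΛ'Λ η'
    -- agreement off `b`
    have hJb : ∀ i, i ∉ S.Fr Λ' → b ∉ S.bl i → i ∉ S.Fr Λ := by
      intro i hi hbi h
      rw [S.mem_Fr] at h
      obtain ⟨x, hx, hxΛ⟩ := h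
      apply hi
      rw [S.mem_Fr]
      refine ⟨x, hx, Finset.mem_erase.2 ⟨?_, hxΛ⟩⟩
      rintro rfl
      exact hbi hx
    have hs1 : ∀ ξ, |S.ker μ Λ' f (glue J ξ η) - S.ker μ Λ' f (glue J ξ η')| ≤
        2 * C3 w A n Λ' {c | c ∉ K} (Ph S μ g sr j δ θ Λ' (glue J ξ η) (glue J ξ η')) := by
      intro ξ
      apply ih Λ' K hcard' (hΛ'Λ.trans hΛK) hK
      intro i hi hiK
      by_cases hiJ : i ∈ J
      · rw [glue_mem hiJ, glue_mem hiJ]
      · rw [glue_notMem hiJ, glue_notMem hiJ]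
        apply hag i _ hiK
        intro h
        exact hiJ (Finset.mem_sdiff.2 ⟨h, hi⟩)
    have hs2 : ∀ ξ ξ', |S.ker μ Λ' f (glue J ξ η) - S.ker μ Λ' f (glue J ξ' η')| ≤
        2 * (C3 w A n Λ' {c | c ∉ K} (Ph S μ g sr j δ θ Λ' (glue J ξ η) (glue J ξ' η')) +
          C3 w A n Λ' {b} (Ph S μ g sr j δ θ Λ' (glue J ξ η) (glue J ξ' η'))) := by
      intro ξ ξ'
      have h1 := ih Λ' (K.erase b) hcard' (Finset.erase_subset_erase b hΛK)
        ((Finset.erase_subset _ _).trans hK) (glue J ξ η) (glue J ξ' η') (by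
          intro i hi hiK
          have h2 : i ∉ S.Fr Λ := by
            apply hJb i hi
            intro h3
            exact (Finset.mem_erase.1 (hiK b h3)).1 rfl
          have h3 : i ∉ J := fun h => h2 (Finset.mem_sdiff.1 h).1
          rw [glue_notMem h3, glue_notMem h3]
          exact hag i h2 (fun x hx => (Finset.mem_erase.1 (hiK x hx)).2))
      have h2 := C3_union (A := A) (w := w) n Λ' {c | c ∉ K.erase b} {c | c ∉ K} {b}
        (Ph S μ g sr j δ θ Λ' (glue J ξ η) (glue J ξ' η'))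
        (fun s s' t => Ph_nonneg S μ g sr j δ θ _ _ _ _ _ _) (by
          intro c hc
          by_cases hcb : c = b
          · exact Or.inr hcb
          · left
            intro h
            exact hc (Finset.mem_erase.2 ⟨hcb, h⟩))
      linarith
    have hn1 := C3_nonneg (A := A) (w := w) n Λ' {b}
      (fun s s' t => Ph S μ g sr j δ θ Λ η η' (insert b s) s' t)
      (fun s s' t => Ph_nonneg S μ g sr j δ θ _ _ _ _ _ _)
    have hn2 := C3_nonneg (A := A) (w := w) n Λ' {b}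
      (fun s s' t => Ph S μ g sr j δ θ Λ η η' s (insert b s') t)
      (fun s s' t => Ph_nonneg S μ g sr j δ θ _ _ _ _ _ _)
    have hn3 := C3_nonneg (A := A) (w := w) n Λ' {b}
      (fun s s' t => Ph S μ g sr j δ θ Λ η η' s s' (t+1))
      (fun s s' t => Ph_nonneg S μ g sr j δ θ _ _ _ _ _ _)
    have hstep := C3_step (A := A) (w := w) n Λ {c | c ∉ K} (Ph S μ g sr j δ θ Λ η η')
      (fun s s' t => Ph_nonneg S μ g sr j δ θ _ _ _ _ _ _) b hb hd
    -- masses of the remainders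
    set r : (ι → X) → ℝ := fun ξ => dens S μ Λ Λ' η ξ - min (dens S μ Λ Λ' η ξ)
      (dens S μ Λ Λ' η' ξ) with hr
    set r' : (ι → X) → ℝ := fun ξ => dens S μ Λ Λ' η' ξ - min (dens S μ Λ Λ' η ξ)
      (dens S μ Λ Λ' η' ξ) with hr'
    have iD : Integrable (dens S μ Λ Λ' η) P := int_bdd P hDm hDb
    have iD' : Integrable (dens S μ Λ Λ' η') P := int_bdd P hDm' hDb'
    have im : Integrable (fun ξ => min (dens S μ Λ Λ' η ξ) (dens S μ Λ Λ' η' ξ)) P := by
      apply int_bdd P (hDm.min hDm')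
      obtain ⟨D, hD⟩ := hDb
      refine ⟨D, fun ξ => ?_⟩
      rw [abs_of_nonneg (le_min (hD0 ξ) (hD0' ξ))]
      exact (min_le_left _ _).trans ((le_abs_self _).trans (hD ξ))
    have hrr : ∫ ξ, r' ξ ∂P = ∫ ξ, r ξ ∂P := by
      simp only [hr, hr']
      rw [integral_sub iD im, integral_sub iD' im, hD1, hD1']
    have hr1 : ∫ ξ, r ξ ∂P ≤ 1 := by
      simp only [hr]
      rw [integral_sub iD im, hD1]
      have : 0 ≤ ∫ ξ, min (dens S μ Λ Λ' η ξ) (dens S μ Λ Λ' η' ξ) ∂P :=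
        integral_nonneg (fun ξ => le_min (hD0 ξ) (hD0' ξ))
      linarith
    have hS1 : rc j (∫ ξ, r ξ ∂P) ≤ 1 := by
      have h6 := rc_mono hj hr1
      rwa [rc_one] at h6
    by_cases hgood : ∀ τ ∈ S.tms (Nb sr b), (∀ a ∈ S.bt τ, a ∈ Nb sr b ∧ a ∉ Λ) → g τ η ∧ g τ η'
    · -- good surroundings
      have hκ : ∫ ξ, r ξ ∂P ≤ δ := by
        set E : Set (ι → X) := {ω | dens S μ Λ Λ' η' ω < dens S μ Λ Λ' η ω} with hE
        have hEm : MeasurableSet E := measurableSet_lt hDm' hDm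
        set F : (ι → X) → ℝ := E.indicator (fun _ => 1) with hF
        have hFm : Measurable F := measurable_const.indicator hEm
        have hF01 : ∀ ω, 0 ≤ F ω ∧ F ω ≤ 1 := by
          intro ω
          by_cases h : ω ∈ E
          · rw [hF, Set.indicator_of_mem h]; exact ⟨zero_le_one, le_refl _⟩
          · rw [hF, Set.indicator_of_notMem h]; exact ⟨le_refl _, zero_le_one⟩
        have hFb : ∃ K, ∀ ω, |F ω| ≤ K := ⟨1, fun ω => by
          rw [abs_of_nonneg (hF01 ω).1]; exact (hF01 ω).2⟩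
        have hFJ : ∀ ω ω' : ι → X, (∀ i ∈ J, ω i = ω' i) → F ω = F ω' := by
          intro ω ω' h
          have h1 : ω ∈ E ↔ ω' ∈ E := by
            simp only [hE, Set.mem_ofPred_eq]
            rw [dens_dep S μ Λ Λ' η ω ω' h, dens_dep S μ Λ Λ' η' ω ω' h]
          by_cases h2 : ω ∈ E
          · rw [hF, Set.indicator_of_mem h2, Set.indicator_of_mem (h1.1 h2)]
          · rw [hF, Set.indicator_of_notMem h2, Set.indicator_of_notMem (fun h3 => h2 (h1.2 h3))]
        have hFg : ∀ ξ ζ : ι → X, F (glue J ξ ζ) = F ξ := fun ξ ζ =>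
          hFJ _ _ (fun i hi => glue_mem hi)
        have hFd1 : Sys.dep {i | i ∉ S.Fr Λ'} F := by
          intro ω ω' h
          apply hFJ
          intro i hi
          exact h i (Finset.mem_sdiff.1 hi).2
        have hFd2 : Sys.dep {i | ∀ a ∈ S.bl i, (a ∈ Nb (w - 1) b ∧ a ∉ Λ) ∨ a = b} F := by
          intro ω ω' h
          apply hFJ
          intro i hi
          apply h
          rw [hJ, Finset.mem_sdiff] at hi
          have hbi : b ∈ S.bl i := by
            by_contra hbi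
            exact hJb i hi.2 hbi hi.1
          intro x hx
          by_cases hxb : x = b
          · exact Or.inr hxb
          · left
            have h1 := S.diam_bl i b hbi x hx
            refine ⟨PkgX.mem_Nb.2 (near_mono h1 (by omega)), ?_⟩
            intro hxΛ
            apply hi.2
            rw [S.mem_Fr]
            exact ⟨x, hx, Finset.mem_erase.2 ⟨hxb, hxΛ⟩⟩
        have h1 := hQ b Λ hb η η' (by
          intro i hi
          apply hag i
          · intro h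
            rw [S.mem_Fr] at h
            obtain ⟨x, hx, hxΛ⟩ := h
            exact (hi x hx).2 hxΛ
          · intro x hx
            exact hbK (hi x hx).1) hgood F hFm hF01 hFd2
        rw [ker_dens S μ hF2 hΛ'Λ F hFm hFb hFd1 η, ker_dens S μ hF2 hΛ'Λ F hFm hFb hFd1 η'] at h1
        simp only [← hJ, ← hP, hFg] at h1
        have i1 : Integrable (fun ξ => F ξ * dens S μ Λ Λ' η ξ) P :=
          int_mul_bdd P (int_bdd P hFm hFb) hDm hDb
        have i2 : Integrable (fun ξ => F ξ * dens S μ Λ Λ' η' ξ) P :=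
          int_mul_bdd P (int_bdd P hFm hFb) hDm' hDb'
        have e3 : ∫ ξ, r ξ ∂P = ∫ ξ, (F ξ * dens S μ Λ Λ' η ξ - F ξ * dens S μ Λ Λ' η' ξ) ∂P := by
          congr 1
          funext ξ
          simp only [hr]
          by_cases h2 : ξ ∈ E
          · rw [hF, Set.indicator_of_mem h2, min_eq_right (le_of_lt h2)]
            ring
          · rw [hF, Set.indicator_of_notMem h2, min_eq_left (not_lt.1 h2)]
            ring
        rw [e3, integral_sub i1 i2]
        linarith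
      have hfin := step_gen hF2 hF3 hF5 S μ g sr j hj δ θ hgm hθ (A := A) (w := w) hΛ'Λ f hf hf1 η η' n Λ'
        {c | c ∉ K} {b} hs1 hs2 (rc j δ) (rc_mono hj hκ)
        (rc_mono hj (hrr.le.trans hκ))
      have h4 : (fun T T' t => rc j δ * Ph S μ g sr j δ θ Λ η η' T T' t) =
          (fun T T' t => Ph S μ g sr j δ θ Λ η η' T T' (t+1)) := by
        funext T T' t
        unfold Ph
        rw [pow_succ]
        ring
      rw [h4] at hfin
      linarith
    · -- bad surroundings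
      push Not at hgood
      obtain ⟨τ, hτ, hτ2, hτ3⟩ := hgood
      have hfin := step_gen hF2 hF3 hF5 S μ g sr j hj δ θ hgm hθ (A := A) (w := w) hΛ'Λ f hf hf1 η η' n Λ'
        {c | c ∉ K} {b} hs1 hs2 1 hS1 (by
          have := rc_mono hj hrr.le
          exact this.trans hS1)
      simp only [one_mul] at hfin
      by_cases hτη : g τ η
      · have hbad := hτ3 hτη
        have h4 : (fun T T' t => Ph S μ g sr j δ θ Λ η η' T T' t) =
            (fun T T' t => Ph S μ g sr j δ θ Λ η η' T (insert b T') t) := by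
          funext T T' t
          unfold Ph
          rw [kk_insert S μ g sr θ Λ b η' T' hgl τ hτ hτ2 hbad]
        rw [h4] at hfin
        have h5 : C3 w A n Λ' {c | c ∉ K} (Ph S μ g sr j δ θ Λ η η') =
            C3 w A n Λ' {c | c ∉ K} (fun T T' t => Ph S μ g sr j δ θ Λ η η' T T' t) := rfl
        linarith
      · have h4 : (fun T T' t => Ph S μ g sr j δ θ Λ η η' T T' t) =
            (fun T T' t => Ph S μ g sr j δ θ Λ η η' (insert b T) T' t) := by
          funext T T' t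
          unfold Ph
          rw [kk_insert S μ g sr θ Λ b η T hgl τ hτ hτ2 hτη]
        rw [h4] at hfin
        linarith

end claim

lemma qr_pow {j : ℕ} (hj : 2 ≤ j) {x : ℝ} (hx : 0 ≤ x) : qr j x ^ (2 * j) = x := by
  have hj' : (0 : ℝ) < j := by exact_mod_cast (by omega : 0 < j)
  unfold qr
  rw [max_eq_left hx, ← Real.rpow_natCast, ← Real.rpow_mul hx]
  push_cast
  rw [one_div, inv_mul_cancel₀ (by positivity), Real.rpow_one]

lemma rt_le {j : ℕ} (hj : 2 ≤ j) {x : ℝ} (hx : 1 ≤ x) : rt j x ≤ x := by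
  have hj' : (1 : ℝ) ≤ j := by exact_mod_cast (by omega : 1 ≤ j)
  unfold rt
  rw [max_eq_left (by linarith)]
  calc x ^ (1 / (j : ℝ)) ≤ x ^ (1 : ℝ) := by
        apply Real.rpow_le_rpow_of_exponent_le hx
        rw [div_le_one (by linarith)]
        exact hj'
    _ = x := Real.rpow_one x

lemma rc_le {j : ℕ} (hj : 2 ≤ j) {δ q : ℝ} (hδ : 0 < δ) (hq : 0 < q) (h : δ ^ (j - 1) ≤ q ^ j) :
    rc j δ ≤ q := by
  have hj' : (0 : ℝ) < j := by exact_mod_cast (by omega : 0 < j)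
  have e1 : rc j δ = (δ ^ (j - 1)) ^ (1 / (j : ℝ)) := by
    unfold rc
    rw [max_eq_left hδ.le, ← Real.rpow_natCast, ← Real.rpow_mul hδ.le]
    congr 1
    rw [Nat.cast_sub (by omega)]
    field_simp
    push_cast
    ring
  have e2 : q = (q ^ j) ^ (1 / (j : ℝ)) := by
    rw [← Real.rpow_natCast, ← Real.rpow_mul hq.le, mul_one_div, div_self hj'.ne', Real.rpow_one]
  rw [e1]
  conv_rhs => rw [e2]
  exact Real.rpow_le_rpow (by positivity) h (by positivity)

end T2H02.TT.PkgXg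

namespace T2H02.TT

open PkgX PkgXu

/-- the abstract coupling theorem with radius `s`, step `w` and exponents `1/j` -/
theorem pXg (hF2 : S_F2) (hF3 : S_F3) (hF5 : S_F5) : S_Xg := by
  classical
  intro ι Tm X _ _ _ S μ _ g sr w j p δ q hw hsr hj hgm hgl hp hQ hp0 hδ hq hδq hpq hq2 A Λ₀ n hA
    f hf hf1 hfd η η'
  have hfb : ∃ K, ∀ ω, |f ω| ≤ K := ⟨1, hf1⟩
  have hw3 : (3 : ℝ) ≤ w := by exact_mod_cast hw
  have hq1 : q ≤ 1 := by nlinarith
  rcases Nat.lt_or_ge n w with hn | hn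
  · -- small radius
    have e0 : n / w = 0 := Nat.div_eq_of_lt hn
    rw [e0, pow_zero, mul_one]
    rcases Finset.eq_empty_or_nonempty A with hA0 | hA0
    · have hconst : ∀ ω ω' : ι → X, f ω = f ω' := by
        intro ω ω'
        apply hfd
        intro i hi
        exfalso
        obtain ⟨a, ha⟩ := S.bl_ne i
        have := hi a ha
        rw [hA0] at this
        exact Finset.notMem_empty a this
      have e1 : ∀ ζ : ι → X, S.ker μ Λ₀ f ζ = f η := by
        intro ζ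
        have : f = fun _ => f η := funext (fun ω => hconst ω η)
        rw [this]
        exact ker_const hF5 S μ Λ₀ _ ζ
      rw [e1, e1, sub_self, abs_zero]
      positivity
    · have h1 := ker_abs hF5 S μ (Λ := Λ₀) 1 f hf hf1 η
      have h2 := ker_abs hF5 S μ (Λ := Λ₀) 1 f hf hf1 η'
      have h3 := abs_sub (S.ker μ Λ₀ f η) (S.ker μ Λ₀ f η')
      have h4 : (1:ℝ) ≤ A.card := by exact_mod_cast Finset.card_pos.2 hA0
      nlinarith
  · set Λ₁ : Finset Pl := Λ₀.filter (fun b => Nb (2 * sr) b ⊆ Λ₀) with hΛ₁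
    have hΛ10 : Λ₁ ⊆ Λ₀ := Finset.filter_subset _ _
    set θ : ℝ := q ^ (2 * j * Λ₁.card) / 10 with hθd
    have hθ : 0 < θ := by positivity
    have hAΛ : ∀ a ∈ A, Nb n a ⊆ Λ₁ := by
      intro a ha x hx
      rw [PkgX.mem_Nb] at hx
      have hsub : Nb (2 * sr) x ⊆ Λ₀ := by
        intro y hy
        rw [PkgX.mem_Nb] at hy
        apply hA a ha
        rw [PkgX.mem_Nb]
        exact near_mono (near_trans hx hy) (by push_cast; linarith)
      rw [hΛ₁, Finset.mem_filter]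
      refine ⟨hsub ?_, hsub⟩
      rw [PkgX.mem_Nb]; unfold near; simp
    have hcl : ∀ ζ ζ' : ι → X, |S.ker μ Λ₁ f ζ - S.ker μ Λ₁ f ζ'| ≤
        2 * PkgXg.C3 w A Λ₁.card Λ₁ {c | c ∉ Λ₁} (PkgXg.Ph S μ g sr j δ θ Λ₁ ζ ζ') := by
      intro ζ ζ'
      apply PkgXg.claim3 hF2 hF3 hF5 S μ g sr j hj δ θ hgm hgl hθ hw hQ hδ Λ₁ A f hf hf1 hfd Λ₁.card Λ₁ Λ₁
        (le_refl _) (Finset.Subset.refl _) (Finset.Subset.refl _) ζ ζ'
      intro i hi hi2
      exfalso
      obtain ⟨a, ha⟩ := S.bl_ne i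
      apply hi
      rw [S.mem_Fr]
      exact ⟨a, ha, hi2 a ha⟩
    have hstep := PkgXg.step_gen hF2 hF3 hF5 S μ g sr j hj δ θ hgm hθ (A := A) (w := w) hΛ10 f hf hf1 η η' Λ₁.card Λ₁
      {c | c ∉ Λ₁} ∅ (fun ξ => hcl _ _) (fun ξ ξ' => by
        rw [PkgXg.C3_empty, add_zero]
        exact hcl _ _) _ (le_max_left _ _) (le_max_right _ _)
    rw [PkgXg.C3_empty, mul_zero, add_zero] at hstep
    have hcount := PkgXg.C3_count (A := A) (w := w) q hq (by omega) hq2 Λ₁ n hn hAΛ Λ₁.card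
      (PkgXg.Ph S μ g sr j δ θ Λ₀ η η') (by
        intro s hs s' hs' t
        have hkk : ∀ (ζ : ι → X) (T : Finset Pl), T ⊆ Λ₁ →
            PkgXg.qr j (kk S μ g sr θ Λ₀ ζ T) ≤ PkgXg.qr j (11 / 10) * q ^ T.card := by
          intro ζ T hT
          apply PkgXg.qr_le hj (by have := PkgXg.qr_nonneg j (11 / 10); positivity)
          rw [kk_eq hF5 S μ g sr θ hgm hθ]
          have h3 := PkgXg.ker_Bp S g sr hgm hgl hF3 hF5 μ p hp hp0 q hq hq1 j hpq Λ₀ T (by
            intro b hb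
            exact (Finset.mem_filter.1 (hT hb)).2) ζ
          have h4 : q ^ (2 * j * Λ₁.card) ≤ (q ^ T.card) ^ (2 * j) := by
            rw [← pow_mul]
            apply pow_le_pow_of_le_one hq.le hq1
            rw [mul_comm T.card]
            exact Nat.mul_le_mul_left _ (Finset.card_le_card hT)
          have h5 : PkgXg.qr j (11 / 10) ^ (2 * j) = 11 / 10 := PkgXg.qr_pow hj (by norm_num)
          rw [mul_pow, h5, hθd]
          linarith
        have h5 : PkgXg.rc j δ ≤ q := PkgXg.rc_le hj hδ hq hδq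
        have h6 := hkk η s hs
        have h7 := hkk η' s' hs'
        have h8 : (PkgXg.qr j (11 / 10) : ℝ) * PkgXg.qr j (11 / 10) ≤ 11 / 10 := by
          rw [← sq, PkgXg.qr_sq]
          exact PkgXg.rt_le hj (by norm_num)
        have h9 := PkgXg.qr_nonneg j (11 / 10)
        unfold PkgXg.Ph
        calc _ ≤ q ^ t * ((PkgXg.qr j (11 / 10) * q ^ s.card) * (PkgXg.qr j (11 / 10) * q ^ s'.card)) := by
              apply mul_le_mul (pow_le_pow_left₀ (PkgXg.rc_nonneg _ _) h5 t) _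
                (mul_nonneg (PkgXg.qr_nonneg _ _) (PkgXg.qr_nonneg _ _)) (by positivity)
              exact mul_le_mul h6 h7 (PkgXg.qr_nonneg _ _) (by positivity)
          _ = (PkgXg.qr j (11 / 10) * PkgXg.qr j (11 / 10)) * q ^ (s.card + s'.card + t) := by ring
          _ ≤ _ := mul_le_mul_of_nonneg_right h8 (by positivity))
    calc _ ≤ _ := hstep
      _ ≤ 2 * (3 * w * A.card * (24 * w * q) ^ (n / w)) := by linarith
      _ = _ := by ring

end T2H02.TT
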