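import Pool.Agent.T2H02.TT.StmW

/-!
# Package Zg: choice of the parameters for the sharp rate
-/

set_option autoImplicit false

noncomputable section

open MeasureTheory Matrix Filter

namespace T2H02.TT

namespace PkgZg

theorem arsinh_le {x : ℝ} (hx : 0 ≤ x) : Real.arsinh x ≤ x := by
  have h1 : 0 ≤ Real.arsinh x := Real.arsinh_nonneg_iff.2 hx
  have h2 := Real.self_le_sinh_iff.2 h1
  rwa [Real.sinh_arsinh] at h2

theorem le_arsinh {x : ℝ} (hx : 0 ≤ x) (hx1 : x ≤ 1) : x / 2 ≤ Real.arsinh x := by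
  have h1 : Real.sinh (x / 2) ≤ x := by
    rw [Real.sinh_eq]
    have h2 := Real.abs_exp_sub_one_sub_id_le (x := x / 2) (by rw [abs_le]; constructor <;> linarith)
    have h3 := (abs_le.1 h2).2
    have h4 := Real.add_one_le_exp (-(x / 2))
    nlinarith
  calc x / 2 = Real.arsinh (Real.sinh (x / 2)) := (Real.arsinh_sinh _).symm
    _ ≤ Real.arsinh x := Real.arsinh_le_arsinh.2 h1

theorem sin_nonneg' (N L : ℕ) : 0 ≤ Real.sin (Real.pi / (N * L)) := by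
  apply Real.sin_nonneg_of_nonneg_of_le_pi
  · have := Real.pi_pos.le
    positivity
  · rcases Nat.eq_zero_or_pos (N * L) with h | h
    · have : (N * L : ℝ) = 0 := by exact_mod_cast h
      rw [this, div_zero]
      exact Real.pi_pos.le
    · have : (1 : ℝ) ≤ N * L := by exact_mod_cast h
      exact div_le_self Real.pi_pos.le this

theorem mgp_le (N L : ℕ) : mgp N L ≤ 2 := by
  have h1 := arsinh_le (sin_nonneg' N L)
  have h2 := Real.sin_le_one (Real.pi / (N * L))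
  unfold mgp
  linarith

theorem le_mgp {N L : ℕ} (hN : 2 ≤ N) (hL : 1 ≤ L) : 2 / (N * L : ℝ) ≤ mgp N L := by
  have hN' : (2 : ℝ) ≤ N := by exact_mod_cast hN
  have hL' : (1 : ℝ) ≤ L := by exact_mod_cast hL
  have hNL : (2 : ℝ) ≤ N * L := by nlinarith
  have hp := Real.pi_pos
  have h1 : 2 / Real.pi * (Real.pi / (N * L)) ≤ Real.sin (Real.pi / (N * L)) := by
    apply Real.mul_le_sin
    · positivity
    · gcongr
  have h2 : 2 / Real.pi * (Real.pi / (N * L : ℝ)) = 2 / (N * L) := by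
    field_simp
  rw [h2] at h1
  have h3 := le_arsinh (sin_nonneg' N L) (Real.sin_le_one _)
  unfold mgp
  linarith

theorem getb (A₀ : ℝ) (K n : ℕ) (hn : 0 < n) :
    ∃ C₀ : ℝ, 2 ≤ C₀ ∧ ∀ L : ℕ, 1 ≤ L → ∀ β : ℝ, C₀ * (L : ℝ) ^ (n * (K + 1)) ≤ β →
      ∃ b : ℝ, 1 ≤ b ∧ β = b ^ n ∧ Real.log β = n * Real.log b ∧ A₀ ≤ Real.log b ∧
        n * Real.log b ≤ b ∧ (L : ℝ) ^ (K + 1) ≤ b := by
  have hnp : (0 : ℝ) < 1 / n := by positivity
  have e2 : ∀ᶠ β : ℝ in atTop, A₀ * n ≤ Real.log β :=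
    Real.tendsto_log_atTop.eventually (eventually_ge_atTop _)
  have e3 : ∀ᶠ β : ℝ in atTop, Real.log β ≤ β ^ (1 / n : ℝ) := by
    have h := (isLittleO_log_rpow_atTop hnp).def (show (0 : ℝ) < 1 by norm_num)
    filter_upwards [h, eventually_ge_atTop 1] with β h2 h4
    have h5 : 0 ≤ Real.log β := Real.log_nonneg h4
    rw [Real.norm_of_nonneg h5, Real.norm_of_nonneg (Real.rpow_nonneg (by linarith) _), one_mul] at h2
    exact h2
  obtain ⟨β₁, hβ₁⟩ := eventually_atTop.1 (e2.and e3)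
  refine ⟨max β₁ 2, le_max_right _ _, fun L hL β hβ => ?_⟩
  set C₀ := max β₁ 2 with hC₀
  have hC₀β₁ : β₁ ≤ C₀ := le_max_left _ _
  have hC₀2 : 2 ≤ C₀ := le_max_right _ _
  have hL1 : (1 : ℝ) ≤ L := by exact_mod_cast hL
  have hLp : (1 : ℝ) ≤ (L : ℝ) ^ (n * (K + 1)) := one_le_pow₀ hL1
  have hβC : C₀ ≤ β := by nlinarith
  have hβL : (L : ℝ) ^ (n * (K + 1)) ≤ β := by nlinarith
  obtain ⟨g1, g2⟩ := hβ₁ β (hC₀β₁.trans hβC)
  have hβ2 : 2 ≤ β := hC₀2.trans hβC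
  have hβ0 : 0 ≤ β := by linarith
  have hβp : 0 < β := by linarith
  have hn0 : (n : ℝ) ≠ 0 := by positivity
  set b := β ^ (1 / n : ℝ) with hb
  have hb0 : 0 ≤ b := Real.rpow_nonneg hβ0 _
  have hbn : β = b ^ n := by
    rw [hb, ← Real.rpow_natCast, ← Real.rpow_mul hβ0]
    rw [one_div, inv_mul_cancel₀ hn0, Real.rpow_one]
  have hb1 : 1 ≤ b := by
    rw [hb]
    exact Real.one_le_rpow (by linarith) hnp.le
  have hlog : Real.log β = n * Real.log b := by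
    conv_lhs => rw [hbn]
    rw [Real.log_pow]
  refine ⟨b, hb1, hbn, hlog, ?_, ?_, ?_⟩
  · rw [hlog] at g1
    have hn' : (0 : ℝ) < n := by positivity
    have : A₀ * n ≤ Real.log b * n := by linarith
    exact le_of_mul_le_mul_right this hn'
  · rw [← hlog]
    exact g2
  · have : ((L : ℝ) ^ (K + 1)) ^ n ≤ b ^ n := by
      rw [← hbn, ← pow_mul, mul_comm (K + 1) n]
      exact hβL
    exact le_of_pow_le_pow_left₀ (by omega) hb0 this

theorem core {C b lg LK : ℝ} {L D M s j nn : ℕ} {T Y : ℝ} (hnn : 100 ≤ nn) (hC : 1 ≤ C)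
    (hCb : C ≤ b) (hD : (2 * D + (2 * j + 1) : ℝ) ≤ b) (hb : 72 ≤ b) (hlg0 : 1 ≤ lg) (hlg : lg ≤ b)
    (hL1 : 1 ≤ L) (hLb : (L : ℝ) ≤ b) (hLK1 : 1 ≤ LK) (hLK : LK ≤ b) (hs1 : 1 ≤ s)
    (hs : (s : ℝ) ≤ b ^ 2) (hM1 : 8 ≤ M) (hM : (M : ℝ) ≤ b ^ 3) (hT0 : 0 ≤ T)
    (hT : T ≤ 1 / b ^ (2 * nn)) (hY : b ^ 100 / b ^ nn ≤ Y)
    (hlg' : Real.exp lg = b ^ (2 * nn)) (hj : 1 ≤ j) :
    let t := (2 * D + (2 * j + 1) : ℝ) * L ^ 2 * (s * M) ^ 2 * lg / b ^ (2 * nn)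
    let r := C * LK * (s * M : ℝ) ^ 8 * (T + t)
    0 ≤ t ∧ r ≤ 1 / C ∧
      s * M * (Real.exp (-(b ^ (2 * nn)) * t) *
        (C * LK * b ^ (2 * nn)) ^ (D * L ^ 2 * (s * M) ^ 2)) ≤
        1 / (b ^ (2 * nn)) ^ (2 * j * (4 * s + 4) ^ 2) ∧
      C * LK * (s * M : ℝ) ^ 2 *
          (b ^ (2 * nn) * (r * Real.sqrt r + Y * r) + Real.exp (-(b ^ (2 * nn)) / C)) +
        4 * s * M * (Real.exp (-(b ^ (2 * nn)) * t) *
          (C * LK * b ^ (2 * nn)) ^ (D * L ^ 2 * (s * M) ^ 2)) ≤ b ^ 100 * Y := by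
  intro t r
  have b0 : (0 : ℝ) < b := by linarith
  have b1 : (1 : ℝ) ≤ b := by linarith
  have hM0 : (1 : ℝ) ≤ M := by exact_mod_cast le_trans (by norm_num) hM1
  have hMn : (0 : ℝ) ≤ M := by linarith
  have hs0 : (1 : ℝ) ≤ s := by exact_mod_cast hs1
  have hsn : (0 : ℝ) ≤ s := by linarith
  have hL0 : (1 : ℝ) ≤ L := by exact_mod_cast hL1
  have hLn : (0 : ℝ) ≤ L := by linarith
  have hLKn : 0 ≤ LK := by linarith
  have hCn : 0 ≤ C := by linarith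
  have hlgn : 0 ≤ lg := by linarith
  have hD0 : (0 : ℝ) ≤ 2 * D + (2 * j + 1) := by positivity
  have ht0 : 0 ≤ t := by positivity
  have hBp : (0 : ℝ) < b ^ (2 * nn) := by positivity
  have hnp : (0 : ℝ) < b ^ nn := by positivity
  have hBn : b ^ (2 * nn) = b ^ nn * b ^ nn := by rw [two_mul, pow_add]
  have hY0 : 0 < Y := lt_of_lt_of_le (by positivity) hY
  have hsM : (s * M : ℝ) ≤ b ^ 5 := by
    calc (s * M : ℝ) ≤ b ^ 2 * b ^ 3 := by gcongr
      _ = b ^ 5 := by ring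
  -- bounds of t
  have ht : t ≤ b ^ 14 / b ^ (2 * nn) := by
    have : (2 * D + (2 * j + 1) : ℝ) * L ^ 2 * (s * M) ^ 2 * lg ≤ b * b ^ 2 * (b ^ 5) ^ 2 * b := by
      gcongr
    calc t ≤ (b * b ^ 2 * (b ^ 5) ^ 2 * b) / b ^ (2 * nn) := by
          simp only [t]
          gcongr
      _ = b ^ 14 / b ^ (2 * nn) := by ring
  have hT' : T ≤ b ^ 14 / b ^ (2 * nn) := by
    refine hT.trans ?_
    gcongr
    exact one_le_pow₀ b1
  have hTt : T + t ≤ b ^ 15 / b ^ (2 * nn) := by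
    have : b ^ 14 / b ^ (2 * nn) + b ^ 14 / b ^ (2 * nn) ≤ b ^ 15 / b ^ (2 * nn) := by
      rw [← add_div]
      gcongr
      nlinarith [pow_pos b0 14]
    linarith
  have hTt0 : 0 ≤ T + t := by positivity
  have hr0 : 0 ≤ r := by positivity
  have hr : r ≤ b ^ 57 / b ^ (2 * nn) := by
    calc r ≤ b * b * (b ^ 5) ^ 8 * (b ^ 15 / b ^ (2 * nn)) := by
          simp only [r]
          gcongr
      _ = b ^ 57 / b ^ (2 * nn) := by ring
  have hr1 : r ≤ 1 / C := by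
    refine hr.trans ?_
    have h1 : 1 / b ≤ 1 / C := one_div_le_one_div_of_le (by linarith) hCb
    refine le_trans ?_ h1
    rw [div_le_div_iff₀ (by positivity) b0, one_mul, ← pow_succ]
    exact pow_le_pow_right₀ b1 (by omega)
  have hsr : Real.sqrt r ≤ b ^ 29 / b ^ nn := by
    rw [Real.sqrt_le_left (by positivity)]
    refine hr.trans ?_
    rw [div_pow, ← pow_mul, ← pow_mul, mul_comm nn 2]
    exact div_le_div_of_nonneg_right (pow_le_pow_right₀ b1 (by norm_num)) (by positivity)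
  -- the probability
  have hsM2 : 1 ≤ (s * M) ^ 2 := Nat.one_le_pow _ _ (by positivity)
  have hP : Real.exp (-(b ^ (2 * nn)) * t) * (C * LK * b ^ (2 * nn)) ^ (D * L ^ 2 * (s * M) ^ 2) ≤
      1 / (b ^ (2 * nn)) ^ ((2 * j + 1) * (s * M) ^ 2) := by
    have e1 : Real.exp (-(b ^ (2 * nn)) * t) =
        1 / (b ^ (2 * nn)) ^ ((2 * D + (2 * j + 1)) * L ^ 2 * (s * M) ^ 2) := by
      have : -(b ^ (2 * nn)) * t =
          -(((2 * D + (2 * j + 1)) * L ^ 2 * (s * M) ^ 2 : ℕ) * lg) := by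
        simp only [t]
        push_cast
        field_simp
      rw [this, Real.exp_neg, Real.exp_nat_mul, hlg', one_div]
    have e2 : (C * LK * b ^ (2 * nn)) ^ (D * L ^ 2 * (s * M) ^ 2) ≤
        (b ^ (2 * nn)) ^ (2 * (D * L ^ 2 * (s * M) ^ 2)) := by
      rw [pow_mul (b ^ (2 * nn)) 2]
      refine pow_le_pow_left₀ (by positivity) ?_ _
      rw [sq (b ^ (2 * nn))]
      gcongr
      calc C * LK ≤ b * b := by gcongr
        _ = b ^ 2 := (sq b).symm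
        _ ≤ b ^ (2 * nn) := pow_le_pow_right₀ b1 (by omega)
    have e3 : (2 * D + (2 * j + 1)) * L ^ 2 * (s * M) ^ 2 =
        2 * (D * L ^ 2 * (s * M) ^ 2) + (2 * j + 1) * L ^ 2 * (s * M) ^ 2 := by ring
    calc Real.exp (-(b ^ (2 * nn)) * t) * (C * LK * b ^ (2 * nn)) ^ (D * L ^ 2 * (s * M) ^ 2)
        ≤ 1 / (b ^ (2 * nn)) ^ ((2 * D + (2 * j + 1)) * L ^ 2 * (s * M) ^ 2) *
          (b ^ (2 * nn)) ^ (2 * (D * L ^ 2 * (s * M) ^ 2)) := by
          rw [e1]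
          gcongr
      _ = 1 / (b ^ (2 * nn)) ^ ((2 * j + 1) * L ^ 2 * (s * M) ^ 2) := by
          rw [e3, pow_add (b ^ (2 * nn))]
          field_simp
      _ ≤ 1 / (b ^ (2 * nn)) ^ ((2 * j + 1) * (s * M) ^ 2) := by
          refine one_div_le_one_div_of_le (by positivity) (pow_le_pow_right₀
            (one_le_pow₀ b1) ?_)
          have : 1 ≤ L ^ 2 := Nat.one_le_pow _ _ hL1
          calc (2 * j + 1) * (s * M) ^ 2 = (2 * j + 1) * 1 * (s * M) ^ 2 := by ring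
            _ ≤ (2 * j + 1) * L ^ 2 * (s * M) ^ 2 := by gcongr
  set P := Real.exp (-(b ^ (2 * nn)) * t) *
    (C * LK * b ^ (2 * nn)) ^ (D * L ^ 2 * (s * M) ^ 2) with hPdef
  have hP0 : 0 ≤ P := by positivity
  have hB1 : (1 : ℝ) ≤ b ^ (2 * nn) := one_le_pow₀ b1
  have hP' : P ≤ 1 / b ^ (2 * nn) := by
    refine hP.trans ?_
    refine one_div_le_one_div_of_le (by positivity) ?_
    calc b ^ (2 * nn) = (b ^ (2 * nn)) ^ 1 := (pow_one _).symm
      _ ≤ _ := pow_le_pow_right₀ hB1 (by nlinarith)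
  refine ⟨ht0, hr1, ?_, ?_⟩
  · calc s * M * P ≤ b ^ 5 * (1 / (b ^ (2 * nn)) ^ ((2 * j + 1) * (s * M) ^ 2)) := by
          gcongr
      _ ≤ (b ^ (2 * nn)) ^ 1 * (1 / (b ^ (2 * nn)) ^ ((2 * j + 1) * (s * M) ^ 2)) := by
          gcongr
          rw [pow_one]
          exact pow_le_pow_right₀ b1 (by omega)
      _ ≤ 1 / (b ^ (2 * nn)) ^ (2 * j * (4 * s + 4) ^ 2) := by
          rw [mul_one_div, div_le_div_iff₀ (by positivity) (by positivity), one_mul, ← pow_add]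
          refine pow_le_pow_right₀ hB1 ?_
          have h2 : (8 * s) ^ 2 ≤ (s * M) ^ 2 := Nat.pow_le_pow_left (by nlinarith) 2
          have h3 : (4 * s + 4) ^ 2 ≤ (8 * s) ^ 2 := Nat.pow_le_pow_left (by omega) 2
          have h4 : 2 * j * (4 * s + 4) ^ 2 ≤ 2 * j * (s * M) ^ 2 :=
            Nat.mul_le_mul_left _ (h3.trans h2)
          calc 1 + 2 * j * (4 * s + 4) ^ 2 ≤ (s * M) ^ 2 + 2 * j * (s * M) ^ 2 := by omega
            _ = (2 * j + 1) * (s * M) ^ 2 := by ring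
  · have hYn : 1 / b ^ nn ≤ Y := by
      refine le_trans ?_ hY
      gcongr
      exact one_le_pow₀ b1
    have hY2 : 1 / b ^ (2 * nn) ≤ Y := by
      refine le_trans ?_ hYn
      refine one_div_le_one_div_of_le hnp (pow_le_pow_right₀ b1 (by omega))
    have a1 : b ^ (2 * nn) * (r * Real.sqrt r) ≤ Y := by
      refine le_trans ?_ hY
      calc b ^ (2 * nn) * (r * Real.sqrt r)
          ≤ b ^ (2 * nn) * (b ^ 57 / b ^ (2 * nn) * (b ^ 29 / b ^ nn)) := by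
            gcongr
        _ = b ^ 86 / b ^ nn := by
            field_simp
        _ ≤ b ^ 100 / b ^ nn := by
            gcongr
            norm_num
    have a2 : b ^ (2 * nn) * (Y * r) ≤ b ^ 57 * Y := by
      calc b ^ (2 * nn) * (Y * r) ≤ b ^ (2 * nn) * (Y * (b ^ 57 / b ^ (2 * nn))) := by
            gcongr
        _ = b ^ 57 * Y := by
            field_simp
    have a3 : Real.exp (-(b ^ (2 * nn)) / C) ≤ Y := by
      have h1 : Real.exp (-(b ^ (2 * nn)) / C) ≤ 1 / (b ^ (2 * nn) / C) := by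
        rw [neg_div, Real.exp_neg, ← one_div]
        apply one_div_le_one_div_of_le (by positivity)
        have := Real.add_one_le_exp (b ^ (2 * nn) / C)
        linarith
      refine h1.trans (le_trans ?_ hYn)
      rw [one_div_div, div_le_div_iff₀ (by positivity) (by positivity), one_mul, hBn]
      gcongr
      calc C ≤ b := hCb
        _ = b ^ 1 := (pow_one b).symm
        _ ≤ b ^ nn := pow_le_pow_right₀ b1 (by omega)
    have hb57 : (1 : ℝ) ≤ b ^ 57 := one_le_pow₀ b1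
    have a4 : b ^ (2 * nn) * (r * Real.sqrt r + Y * r) + Real.exp (-(b ^ (2 * nn)) / C)
        ≤ 3 * (b ^ 57 * Y) := by
      rw [mul_add]
      nlinarith
    have a4' : 0 ≤ b ^ (2 * nn) * (r * Real.sqrt r + Y * r) + Real.exp (-(b ^ (2 * nn)) / C) := by
      positivity
    have a5 : C * LK * (s * M : ℝ) ^ 2 *
        (b ^ (2 * nn) * (r * Real.sqrt r + Y * r) + Real.exp (-(b ^ (2 * nn)) / C))
        ≤ b * b * (b ^ 5) ^ 2 * (3 * (b ^ 57 * Y)) := by gcongr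
    have a6 : 4 * s * M * P ≤ 4 * (b ^ 5 * Y) := by
      calc 4 * s * M * P = 4 * (s * M * P) := by ring
        _ ≤ 4 * (b ^ 5 * Y) := by
          have := hP'.trans hY2
          gcongr
    have a7 : b * b * (b ^ 5) ^ 2 * (3 * (b ^ 57 * Y)) = 3 * (b ^ 69 * Y) := by ring
    have a8 : b ^ 5 * Y ≤ b ^ 69 * Y := by
      gcongr
      norm_num
    have a9 : 7 * (b ^ 69 * Y) ≤ b ^ 100 * Y := by
      have h1 : b ^ 100 * Y = b ^ 31 * (b ^ 69 * Y) := by ring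
      have h2 : (7 : ℝ) ≤ b ^ 31 := by
        calc (7 : ℝ) ≤ b := by linarith
          _ = b ^ 1 := (pow_one b).symm
          _ ≤ b ^ 31 := pow_le_pow_right₀ b1 (by norm_num)
      rw [h1]
      gcongr
    linarith

theorem fin1 {ε w lb Z n₁ : ℝ} (hε : 0 < ε) (hε1 : ε < 1) (hw3 : 3 ≤ w) (hwε : 8 ≤ ε * w)
    (hlb : 0 < lb) (hnε : 202 ≤ ε * n₁) (hX3 : n₁ * lb ≤ w * Z) (hZ0 : 0 ≤ Z) :
    (w - 1) * (100 * lb - (1 - ε / 4) * (w - 1) * Z) ≤ w * (-((1 - ε) * (w * Z)) - lb) := by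
  have hkey : 101 * lb ≤ ε / 2 * (w * Z) := by
    calc 101 * lb = 202 / 2 * lb := by ring
      _ ≤ (ε * n₁) / 2 * lb := by gcongr
      _ = ε / 2 * (n₁ * lb) := by ring
      _ ≤ ε / 2 * (w * Z) := by gcongr
  have h4 : (1 - ε / 4) * (w * w) ≤ (w - 1) * (w - 1) := by nlinarith
  have h5 : 1 - ε / 2 ≤ (1 - ε / 4) * (1 - ε / 4) := by nlinarith [sq_nonneg ε]
  have hw0 : 0 ≤ w := by linarith
  have h6 : (1 - ε / 2) * (w * w) ≤ (1 - ε / 4) * ((w - 1) * (w - 1)) := by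
    calc (1 - ε / 2) * (w * w) ≤ (1 - ε / 4) * (1 - ε / 4) * (w * w) := by gcongr
      _ = (1 - ε / 4) * ((1 - ε / 4) * (w * w)) := by ring
      _ ≤ _ := by
          have : 0 ≤ 1 - ε / 4 := by linarith
          gcongr
  have h7 : (1 - ε / 2) * (w * w) * Z ≤ (1 - ε / 4) * ((w - 1) * (w - 1)) * Z := by gcongr
  have h8 : w * (101 * lb) ≤ w * (ε / 2 * (w * Z)) := by gcongr
  have e1 : (w - 1) * (100 * lb - (1 - ε / 4) * (w - 1) * Z) =
    100 * (w * lb) - 100 * lb - (1 - ε / 4) * ((w - 1) * (w - 1)) * Z := by ring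
  have e2 : w * (-((1 - ε) * (w * Z)) - lb) =
    w * (ε / 2 * (w * Z)) - (1 - ε / 2) * (w * w) * Z - w * lb := by ring
  rw [e1, e2]
  linarith

theorem fin2 {ε lb X : ℝ} (hε' : 0 < 1 - ε) (hA7 : 1 / (1 - ε) ≤ lb) (h3 : lb ≤ X) :
    Real.exp (-((1 - ε) * X)) ≤ 1 / 2 := by
  have h1 : 1 ≤ (1 - ε) * X := by
    have h2 : 1 ≤ (1 - ε) * lb := by
      rw [div_le_iff₀ hε'] at hA7
      linarith
    have h4 : (1 - ε) * lb ≤ (1 - ε) * X := by gcongr
    linarith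
  have h2 : Real.exp (-((1 - ε) * X)) ≤ Real.exp (-1) :=
    Real.exp_le_exp.2 (by linarith)
  refine h2.trans ?_
  rw [Real.exp_neg, ← one_div]
  apply one_div_le_one_div_of_le (by norm_num)
  have := Real.add_one_le_exp (1 : ℝ)
  linarith

/-- bounds of `M` -/
theorem fin3 {n₁ lb w m NL b : ℝ} (hn8 : 8 ≤ n₁) (hlb0 : 0 < lb) (hA4 : 24 * w ≤ lb) (hw3 : 3 ≤ w)
    (hm2 : m ≤ 2) (hm0 : 0 < m) (hNL : 0 < NL) (hmL : 2 / NL ≤ m) (hlgb : (32 * n₁) * lb ≤ b)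
    (hNLb : NL ≤ b * b) :
    ∃ M : ℕ, 8 ≤ M ∧ (M : ℝ) ≤ b ^ 3 ∧ m * (w * M) ≤ 2 * n₁ * lb ∧ n₁ * lb ≤ m * (w * M) ∧
      n₁ * lb ≤ 2 * M * w := by
  have hw0 : 0 < w := by linarith
  have hwm : 0 < w * m := by positivity
  have hn0 : 0 < n₁ := by linarith
  obtain ⟨M, hMdef⟩ : ∃ M : ℕ, M = ⌊2 * n₁ * lb / (w * m)⌋₊ := ⟨_, rfl⟩
  have hM1 : (M : ℝ) ≤ 2 * n₁ * lb / (w * m) := by
    rw [hMdef]
    exact Nat.floor_le (by positivity)
  have hM2 : 2 * n₁ * lb / (w * m) < M + 1 := by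
    rw [hMdef]
    exact Nat.lt_floor_add_one _
  have hn1lb : (8 : ℝ) * lb ≤ n₁ * lb := by gcongr
  have hwm2 : w * m ≤ w * 2 := by gcongr
  have hM8 : 8 ≤ M := by
    rw [hMdef]
    apply Nat.le_floor
    rw [le_div_iff₀ hwm]
    push_cast
    linarith
  have hM8' : (8 : ℝ) ≤ M := by exact_mod_cast hM8
  have hMb : (M : ℝ) ≤ b ^ 3 := by
    have h1 : 1 ≤ m * NL / 2 := by
      rw [div_le_iff₀ hNL] at hmL
      linarith
    have h3 : (1 : ℝ) ≤ NL * (w * m) := by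
      have : (1 : ℝ) * (m * NL) ≤ w * (m * NL) := by
        gcongr
        linarith
      linarith
    have h2 : 2 * n₁ * lb / (w * m) ≤ 2 * n₁ * lb * NL := by
      rw [div_le_iff₀ hwm]
      calc 2 * n₁ * lb = 2 * n₁ * lb * 1 := (mul_one _).symm
        _ ≤ 2 * n₁ * lb * (NL * (w * m)) := by gcongr
        _ = _ := by ring
    have h4 : 2 * n₁ * lb ≤ b := by linarith
    have h5 : 0 ≤ 2 * n₁ * lb := by positivity
    have h6 : 0 ≤ b := by linarith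
    calc (M : ℝ) ≤ 2 * n₁ * lb * NL := hM1.trans h2
      _ ≤ b * (b * b) := by
          gcongr
      _ = b ^ 3 := by ring
  rw [le_div_iff₀ hwm] at hM1
  rw [div_lt_iff₀ hwm] at hM2
  have e1 : m * (w * M) = M * (w * m) := by ring
  refine ⟨M, hM8, hMb, by linarith, ?_, ?_⟩
  · rw [e1]
    have : (M + 1) * (w * m) = M * (w * m) + w * m := by ring
    linarith
  · have h3 : (M + 1 : ℝ) * (w * m) ≤ (2 * M) * (w * 2) := by
      gcongr
      linarith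
    linarith

theorem fin4 {ε lb X n₁ : ℝ} (hε : 0 < ε) (hX0 : 0 ≤ X) (hX1 : X ≤ 2 * n₁ * lb) (hlb0 : 0 < lb)
    (hn : 8 ≤ n₁) : -(32 * n₁ * lb) ≤ -((1 - ε) * X) - lb := by
  have h1 : (1 - ε) * X ≤ X := by nlinarith
  have h2 : 8 * lb ≤ n₁ * lb := by gcongr
  linarith

theorem fin5 {ε w m M : ℝ} (hε : 0 < ε) (hε1 : ε < 1) (hw : 3 ≤ w) (hm : 0 ≤ m) (hM : 0 ≤ M) :
    (1 - ε / 4) * m * ((w - 1) * M) ≤ m * (w * M) := by
  have h2 : (1 - ε / 4) * m * ((w - 1) * M) = (1 - ε / 4) * (w - 1) * (m * M) := by ring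
  have h3 : m * (w * M) = w * (m * M) := by ring
  rw [h2, h3]
  have h4 : (1 - ε / 4) * (w - 1 : ℝ) ≤ w := by nlinarith
  gcongr

end PkgZg

theorem pZg : S_Zg := by
  intro N k hN hk HZ ε hε hε1
  -- the numbers `w = j`
  obtain ⟨w, hw3, hwε⟩ : ∃ w : ℕ, 3 ≤ w ∧ 8 ≤ ε * w := by
    obtain ⟨w, hw⟩ := exists_nat_ge (max 3 (8 / ε))
    refine ⟨w, by exact_mod_cast (le_max_left _ _).trans hw, ?_⟩
    calc (8 : ℝ) = ε * (8 / ε) := by field_simp
      _ ≤ ε * w := by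
          gcongr
          exact (le_max_right _ _).trans hw
  have hw3' : (3 : ℝ) ≤ w := by exact_mod_cast hw3
  obtain ⟨C, K, D, hC, H⟩ := HZ (ε / 4) (by linarith) (by linarith)
  obtain ⟨S₀, hS₀⟩ := exists_nat_ge (64 * w * C)
  obtain ⟨n₁, hn8, hnε⟩ : ∃ n₁ : ℕ, 8 ≤ n₁ ∧ 202 ≤ ε * n₁ := by
    obtain ⟨w, hw⟩ := exists_nat_ge (max 8 (202 / ε))
    refine ⟨w, by exact_mod_cast (le_max_left _ _).trans hw, ?_⟩
    calc (202 : ℝ) = ε * (202 / ε) := by field_simp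
      _ ≤ ε * w := by
          gcongr
          exact (le_max_right _ _).trans hw
  have hn8' : (8 : ℝ) ≤ n₁ := by exact_mod_cast hn8
  have hε' : 0 < 1 - ε := by linarith
  obtain ⟨C₀, hC₀, hb⟩ := PkgZg.getb
    (C + (2 * D + (2 * w + 1)) + 72 + 24 * w + S₀ + N + 1 / (1 - ε)) K (2 * (16 * n₁)) (by omega)
  refine ⟨C₀, 2 * (16 * n₁) * (K + 1), hC₀, fun L _ β hβ hβ1 => ?_⟩
  have hL : 1 ≤ L := Nat.one_le_iff_ne_zero.2 (NeZero.ne L)
  have hL1 : (1 : ℝ) ≤ L := by exact_mod_cast hL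
  obtain ⟨b, b1, hbn, hlog, hA, hlb, hLK⟩ := hb L hL β hβ1
  set lb := Real.log b with hlbdef
  have hD0 : (0 : ℝ) ≤ D := by positivity
  have hS0 : (0 : ℝ) ≤ S₀ := by positivity
  have hN0 : (2 : ℝ) ≤ N := by exact_mod_cast hN
  have hi : 0 < 1 / (1 - ε) := by positivity
  have hA1 : C ≤ lb := by linarith
  have hA2 : (2 * D + (2 * w + 1) : ℝ) ≤ lb := by linarith
  have hA3 : 72 ≤ lb := by linarith
  have hA4 : (24 : ℝ) * w ≤ lb := by linarith
  have hA5 : (S₀ : ℝ) ≤ lb := by linarith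
  have hA6 : (N : ℝ) ≤ lb := by linarith
  have hA7 : 1 / (1 - ε) ≤ lb := by linarith
  have hlb0 : 0 < lb := by linarith
  have b0 : 0 < b := by linarith
  have hlbb : lb ≤ b := by
    refine le_trans ?_ hlb
    have : (1 : ℝ) ≤ ((2 * (16 * n₁) : ℕ) : ℝ) := by exact_mod_cast (by omega : 1 ≤ 2 * (16 * n₁))
    exact le_mul_of_one_le_left hlb0.le this
  have hexpb : Real.exp lb = b := Real.exp_log b0
  have hlgb : (32 * n₁ : ℝ) * lb ≤ b := by
    refine le_trans (le_of_eq ?_) hlb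
    push_cast
    ring
  have hexplg : Real.exp (32 * n₁ * lb) = b ^ (2 * (16 * n₁)) := by
    rw [← hexpb, ← Real.exp_nat_mul]
    congr 1
    push_cast
    ring
  -- the mass
  set m := mgp N L with hm
  have hm2 : m ≤ 2 := PkgZg.mgp_le N L
  have hmL : 2 / (N * L : ℝ) ≤ m := PkgZg.le_mgp hN hL
  have hm0 : 0 < m := lt_of_lt_of_le (by positivity) hmL
  have hw0 : (0 : ℝ) < w := by linarith
  have hwm : 0 < w * m := by positivity
  have hLb : (L : ℝ) ≤ b := by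
    refine le_trans ?_ hLK
    calc (L : ℝ) = L ^ 1 := (pow_one _).symm
      _ ≤ _ := pow_le_pow_right₀ hL1 (by omega)
  have hLKb : (L : ℝ) ^ K ≤ b := (pow_le_pow_right₀ hL1 (by omega)).trans hLK
  have hLK1 : (1 : ℝ) ≤ (L : ℝ) ^ K := one_le_pow₀ hL1
  have hNLb : (N * L : ℝ) ≤ b * b := by
    gcongr
    exact hA6.trans hlbb
  obtain ⟨M, hM8, hMb, hX1, hX3, hM2⟩ := PkgZg.fin3 (NL := N * L) hn8' hlb0 hA4 hw3' hm2 hm0
    (by positivity) hmL hlgb hNLb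
  have hM8' : (8 : ℝ) ≤ M := by exact_mod_cast hM8
  have hM : 0 < M := by omega
  -- the number `s`
  obtain ⟨s, hs⟩ : ∃ s : ℕ, s = S₀ * L ^ K := ⟨_, rfl⟩
  have hs' : (s : ℝ) = S₀ * (L : ℝ) ^ K := by rw [hs]; push_cast; ring
  have hwC : 64 * (w : ℝ) ≤ 64 * w * C := le_mul_of_one_le_right (by positivity) hC
  have hSw : 64 * (w : ℝ) ≤ S₀ := hwC.trans hS₀
  have hS1 : (2 * w : ℕ) ≤ S₀ := by
    have : ((2 * w : ℕ) : ℝ) ≤ S₀ := by push_cast; linarith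
    exact_mod_cast this
  have hsw : 2 * w ≤ s := by
    have h1 : 1 ≤ L ^ K := Nat.one_le_pow _ _ hL
    rw [hs]
    calc 2 * w ≤ S₀ * 1 := by omega
      _ ≤ S₀ * L ^ K := by gcongr
  have hsb : (s : ℝ) ≤ b ^ 2 := by
    rw [hs', sq]
    gcongr
    linarith
  have hT : Real.exp (-(s * M) / (C * (L : ℝ) ^ K)) ≤ 1 / b ^ (2 * (16 * n₁)) := by
    rw [← hexplg, one_div, ← Real.exp_neg]
    apply Real.exp_le_exp.2
    have h1 : -(s * M) / (C * (L : ℝ) ^ K) = -(S₀ * M / C) := by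
      rw [hs']
      have : C ≠ 0 := by linarith
      field_simp
    rw [h1, neg_le_neg_iff, le_div_iff₀ (by linarith)]
    calc 32 * n₁ * lb * C = 32 * C * (n₁ * lb) := by ring
      _ ≤ 32 * C * (2 * M * w) := by gcongr
      _ = (64 * w * C) * M := by ring
      _ ≤ S₀ * M := by gcongr
  -- `Y`
  obtain ⟨Y, hYdef⟩ : ∃ Y : ℝ, Y = Real.exp (-((1 - ε / 4) * m * ((w - 1 : ℕ) * M))) := ⟨_, rfl⟩
  have hw1 : ((w - 1 : ℕ) : ℝ) = w - 1 := by
    rw [Nat.cast_sub (by omega)]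
    simp
  have hY0 : 0 < Y := by rw [hYdef]; exact Real.exp_pos _
  have hY : b ^ 100 / b ^ (16 * n₁) ≤ Y := by
    have h1 : Real.exp (-(2 * n₁ * lb)) ≤ Y := by
      rw [hYdef, hw1]
      apply Real.exp_le_exp.2
      rw [neg_le_neg_iff]
      exact (PkgZg.fin5 hε hε1 hw3' hm0.le (by positivity)).trans hX1
    refine le_trans ?_ h1
    have h2 : Real.exp (-(2 * n₁ * lb)) = 1 / b ^ (2 * n₁) := by
      rw [Real.exp_neg, one_div, ← hexpb, ← Real.exp_nat_mul]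
      push_cast
      rfl
    rw [h2, div_le_div_iff₀ (by positivity) (by positivity), one_mul, ← pow_add]
    exact pow_le_pow_right₀ b1 (by omega)
  have hwb : 24 * (w : ℝ) ≤ b := hA4.trans hlbb
  have hlg1 : (1 : ℝ) ≤ 32 * n₁ * lb := by
    have h1 : (32 : ℝ) * 8 * 72 ≤ 32 * n₁ * lb := by gcongr
    linarith
  obtain ⟨r1, r5, r6, r7⟩ := PkgZg.core (C := C) (b := b) (lg := 32 * n₁ * lb) (LK := (L : ℝ) ^ K)
    (L := L) (D := D) (M := M) (s := s) (j := w) (nn := 16 * n₁)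
    (T := Real.exp (-(s * M) / (C * (L : ℝ) ^ K))) (Y := Y) (by omega) hC (hA1.trans hlbb)
    (hA2.trans hlbb) (hA3.trans hlbb) hlg1 hlgb hL hLb hLK1 hLKb (by omega) hsb hM8 hMb
    (Real.exp_nonneg _) hT hY hexplg (by omega)
  set t := (2 * D + (2 * w + 1) : ℝ) * L ^ 2 * (s * M) ^ 2 * (32 * n₁ * lb) / b ^ (2 * (16 * n₁))
    with ht
  have hβ1' : 1 ≤ β := by
    rw [hbn]
    exact one_le_pow₀ b1
  obtain ⟨H1, H2⟩ := H L β hβ hβ1' M s w hM t
    (C * (L : ℝ) ^ K * (s * M : ℝ) ^ 2 * (Real.exp (-(s * M) / (C * (L : ℝ) ^ K)) + t))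
    (C * (L : ℝ) ^ K * (s * M : ℝ) ^ 8 * (Real.exp (-(s * M) / (C * (L : ℝ) ^ K)) + t))
    hM8 hw3 hsw r1 rfl rfl r5
  -- `q`
  obtain ⟨q, hq⟩ : ∃ q : ℝ, q = Real.exp (-((1 - ε) * (m * (w * M)))) / (24 * w) := ⟨_, rfl⟩
  have hq0 : 0 < q := by rw [hq]; positivity
  have hq24 : 24 * w * q = Real.exp (-((1 - ε) * (m * (w * M)))) := by
    rw [hq]
    field_simp
  have hX0 : 0 ≤ m * (w * M) := by positivity
  have hqlow : Real.exp (-((1 - ε) * (m * (w * M))) - lb) ≤ q := by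
    rw [hq, Real.exp_sub, hexpb]
    gcongr
  have hqβ : 1 / b ^ (2 * (16 * n₁)) ≤ q := by
    refine le_trans ?_ hqlow
    rw [← hexplg, one_div, ← Real.exp_neg]
    apply Real.exp_le_exp.2
    exact PkgZg.fin4 hε hX0 hX1 hlb0 hn8'
  rw [← hbn] at r6 r7 hqβ
  refine ⟨M, s, w, w, hM, C * (L : ℝ) ^ K * (s * M : ℝ) ^ 2 *
      (Real.exp (-(s * M) / (C * (L : ℝ) ^ K)) + t), q ^ (2 * w * (4 * s + 4) ^ 2),
    b ^ 100 * Y, q, hw3, hsw, by omega, by positivity, by positivity, hq0, ?_, le_rfl, ?_, ?_, ?_, ?_⟩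
  · -- `δ^(w-1) ≤ q^w`
    have h1 : b ^ 100 * Y = Real.exp (100 * lb - (1 - ε / 4) * m * ((w - 1 : ℕ) * M)) := by
      rw [sub_eq_add_neg, Real.exp_add, ← hYdef]
      congr 1
      rw [← hexpb, ← Real.exp_nat_mul]
      push_cast
      rfl
    have h2 : Real.exp (-((1 - ε) * (m * (w * M))) - lb) ^ w ≤ q ^ w := by gcongr
    refine le_trans ?_ h2
    rw [h1, ← Real.exp_nat_mul, ← Real.exp_nat_mul, hw1]
    apply Real.exp_le_exp.2
    set Z := m * M with hZ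
    have hZ0 : 0 ≤ Z := by positivity
    have e1 : (1 - ε / 4) * m * ((w - 1) * M) = (1 - ε / 4) * (w - 1) * Z := by rw [hZ]; ring
    have e2 : m * (w * M) = w * Z := by rw [hZ]; ring
    rw [e1, e2]
    rw [e2] at hX3
    exact PkgZg.fin1 hε hε1 hw3' hwε hlb0 hnε hX3 hZ0
  · rw [hq24]
    have h3 : lb ≤ n₁ * lb := by
      calc lb = 1 * lb := (one_mul _).symm
        _ ≤ n₁ * lb := by
          gcongr
          linarith
    exact PkgZg.fin2 hε' hA7 (h3.trans hX3)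
  · rw [hq24]
    apply le_of_eq
    congr 1
    ring
  · intro b' η
    refine (H1 b' η).trans (r6.trans ?_)
    rw [← _root_.one_div_pow]
    gcongr
  · intro b' Λ hb' η η' h3 h4 F hF hF1 hdep
    refine (H2 b' Λ hb' η η' h3 h4 F hF hF1 hdep).trans ?_
    rw [hYdef] at r7
    gcongr
    rw [hYdef]
    exact r7

end T2H02.TT
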