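import Pool.Agent.T2H02.TT.All3
import Pool.Agent.T2H02.TT.CB
import Pool.Agent.T2H02.TT.Cs
import Pool.Agent.T2H02.TT.I1s
import Pool.Agent.T2H02.TT.Is
import Pool.Agent.T2H02.TT.M0g
import Pool.Agent.T2H02.TT.M1g
import Pool.Agent.T2H02.TT.Mg
import Pool.Agent.T2H02.TT.Xg
import Pool.Agent.T2H02.TT.Z1g
import Pool.Agent.T2H02.TT.Zg
import Pool.Agent.T2H02.TT.P1g
import Pool.Agent.T2H02.TT.UM
import Pool.Agent.T2H02.TT.UT
import Pool.Agent.T2H02.TT.UI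
import Pool.Agent.T2H02.TT.UJ
import Pool.Agent.T2H02.TT.UR
import Pool.Agent.T2H02.TT.Fin20

/-!
# All packages of the fifth wave (exact limit of the mass gap) together
-/

set_option autoImplicit false

namespace T2H02.TT

theorem aC1s : S_C1s := pC1s pA3 pB0 aB3
theorem aC2s : S_C2s := pC2s aC1s
theorem aI1s : S_I1s := pI1s aC1u aC2u
theorem aIs : S_Is := pIs aI1s aC1s aC2s
theorem aM0g : S_M0g := pM0g pE4 aKu (pL1u pB0) pL3u
theorem aM1g : S_M1g := pM1g pB0 aD1u pE4 aGu pG3u aJu aJI aJM pL2u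
theorem aMg : S_Mg := pMg pA1 aD1u aJu aJI aJM
theorem aXg : S_Xg := pXg pF2 pF3 pF5
theorem aZ1g : S_Z1g := pZ1g pF3 pF5 aHu
theorem aP1g : S_P1g := pP1g pF3 pF5 aXg
theorem aUT2 : S_UT2 := pUT2 pE3u
theorem aUI : S_UI := pUI pB0 aD1u pE4 aGu pG3u aJu aJI aJM aKu (pL1u pB0) pL2u pL3u pUT1 aUT2
theorem aUJ : S_UJ := pUJ aD1u aJu aJI aJM aUI

/-- the chain of the lower bound -/
theorem lowerZ1 (N k : ℕ) (hN : 2 ≤ N) (hk : Nat.Coprime k N) (ε : ℝ) (hε : 0 < ε)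
    (hε1 : ε < 1) : D_Z1 N k hN fun L => (1 - ε) * mgp N L := by
  have h0 : ∀ L : ℕ, 0 ≤ (fun L => (1 - ε) * mgp N L) L := by
    intro L
    refine mul_nonneg (by linarith) ?_
    rcases Nat.eq_zero_or_pos L with h | h
    · subst h
      simp [mgp]
    · exact (mgp_pos hN h).le
  exact aZ1g N k hN hk _ h0 (aMg N k hN hk _ h0 (aM1g N k hN hk _ h0
    (aM0g N k hN hk _ h0 (aIs N k hN hk ε hε hε1))))

end T2H02.TT
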