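import Pool.Agent.T2H02.TT.StmV
import Pool.Agent.T2H02.TT.PB

/-!
# Package UK : the Ward identity for the Wilson expectation in large finite volumes
-/

set_option autoImplicit false
set_option linter.unusedSectionVars false
set_option linter.unusedVariables false

noncomputable section

open MeasureTheory Matrix
open scoped Matrix.Norms.Frobenius

namespace T2H02.TT

namespace PkgUK

/-! ### free expectations -/

section abstractpart

variable {ι Tm X : Type} [DecidableEq ι] [DecidableEq Tm] [MeasurableSpace X]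
  (S : Sys ι Tm X) (μ : Measure X) [IsProbabilityMeasure μ]

lemma ex_dom (T : Finset Tm) (F H : (ι → X) → ℝ) (hF : Measurable F) (bF : ∃ K, ∀ ω, |F ω| ≤ K)
    (hH : Measurable H) (bH : ∃ K, ∀ ω, |H ω| ≤ K) (c : ℝ) (h : ∀ ω, |F ω - c| ≤ H ω) :
    |S.ex μ T F - c| ≤ S.ex μ T H := by
  have hZ := Z_pos S μ T
  have h1 : S.ex μ T F - c = (∫ ω, (F ω - c) * ∏ τ ∈ T, S.w τ ω ∂(Measure.infinitePi fun _ : ι => μ)) /
      ∫ ω, ∏ τ ∈ T, S.w τ ω ∂(Measure.infinitePi fun _ : ι => μ) := by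
    unfold Sys.ex
    rw [eq_div_iff hZ.ne', sub_mul, div_mul_cancel₀ _ hZ.ne']
    simp only [sub_mul]
    rw [integral_sub (f_int S μ T F hF bF) ((pr_int S μ T).const_mul c), integral_const_mul]
  rw [h1, abs_div, abs_of_pos hZ]
  unfold Sys.ex
  refine div_le_div_of_nonneg_right ?_ hZ.le
  have bFc : ∃ K, ∀ ω, |F ω - c| ≤ K := by
    obtain ⟨K, hK⟩ := bF
    exact ⟨K + |c|, fun ω => (abs_sub _ _).trans (by linarith [hK ω])⟩
  calc |∫ ω, (F ω - c) * ∏ τ ∈ T, S.w τ ω ∂(Measure.infinitePi fun _ : ι => μ)|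
      ≤ ∫ ω, |(F ω - c) * ∏ τ ∈ T, S.w τ ω| ∂(Measure.infinitePi fun _ : ι => μ) :=
        abs_integral_le_integral_abs
    _ ≤ ∫ ω, H ω * ∏ τ ∈ T, S.w τ ω ∂(Measure.infinitePi fun _ : ι => μ) := by
        refine integral_mono (f_int S μ T (fun ω => F ω - c) (hF.sub_const c) bFc).abs
          (f_int S μ T H hH bH) fun ω => ?_
        show |(F ω - c) * ∏ τ ∈ T, S.w τ ω| ≤ H ω * ∏ τ ∈ T, S.w τ ω
        rw [abs_mul, abs_of_pos (pr_bd S T ω).1]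
        exact mul_le_mul_of_nonneg_right (h ω) (pr_bd S T ω).1.le

lemma ex_lin (T : Finset Tm) (H : (ι → X) → ℝ) (hH : Measurable H) (bH : ∃ K, ∀ ω, |H ω| ≤ K)
    (a b : ℝ) : S.ex μ T (fun ω => a + b * H ω) = a + b * S.ex μ T H := by
  have hZ := Z_pos S μ T
  unfold Sys.ex
  rw [div_eq_iff hZ.ne', add_mul, mul_div_assoc', div_mul_cancel₀ _ hZ.ne', ← integral_const_mul,
    ← integral_const_mul, ← integral_add ((pr_int S μ T).const_mul a)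
      ((f_int S μ T H hH bH).const_mul b)]
  refine integral_congr_ae (Filter.Eventually.of_forall fun ω => ?_)
  show (a + b * H ω) * _ = a * _ + b * (H ω * _)
  ring

lemma ex_smul (T : Finset Tm) (H : (ι → X) → ℝ) (b : ℝ) :
    S.ex μ T (fun ω => b * H ω) = b * S.ex μ T H := by
  unfold Sys.ex
  rw [← mul_div_assoc, ← integral_const_mul]
  simp only [mul_assoc]

lemma ex_le (T : Finset Tm) (H : (ι → X) → ℝ) (hH : Measurable H) (p : ℝ) (h0 : ∀ ω, 0 ≤ H ω)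
    (h : ∀ ω, H ω ≤ p) : S.ex μ T H ≤ p := by
  have := ex_near S μ T H hH (p / 2) (p / 2) fun ω => by
    rw [abs_le]
    constructor <;> linarith [h0 ω, h ω]
  rw [abs_le] at this
  linarith [this.2]

end abstractpart

variable {N L : ℕ} [NeZero L]

lemma wch_zero (k : ℕ) (β : ℝ) (x : Pl) (X : Cf N L) :
    wch N β 0 x X = (wt k β (x, 3) X : ℂ) := by
  unfold wch wt
  simp

lemma exp_en1 (k : ℕ) (β : ℝ) (τ : Tm) (h : τ.2 ≠ 3) (X : Cf N L) :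
    Real.exp (-β * en1 k X τ) = wt k β τ X := by
  rw [PkgPB.en_eq k X τ h, wt, if_neg h]

lemma num_eq (hOA : S_OA) (hN : 2 ≤ N) (k : ℕ) (β : ℝ) (hβ : 0 ≤ β) (R : Finset Pl)
    (f : Cf N L → ℝ) (hf : Measurable f) (hb : ∃ K, ∀ X, |f X| ≤ K)
    (hinv : ∀ x n X, f (mvh x n X) = f X) :
    ∫ X, f X * Real.exp (-β * wact k R X) ∂(Measure.infinitePi fun _ : Lk L => hm N) =
      ∫ X, f X * ∏ τ ∈ tin R, wt k β τ X ∂(Measure.infinitePi fun _ : Lk L => hm N) := by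
  obtain ⟨K, hK⟩ := hb
  obtain ⟨h, -⟩ := hOA N k L hN β hβ (tin R) (fun _ => 0) (fun X => (f X : ℂ))
    (Complex.measurable_ofReal.comp hf) ⟨K, fun X => by rw [Complex.norm_real]; exact hK X⟩
    (fun _ _ => rfl) (fun x n X => by simp [hinv])
  have e1 : ∀ X : Cf N L, (f X : ℂ) * ∏ τ ∈ tin R, (Real.exp (-β * en1 k X τ) : ℂ) =
      ((f X * Real.exp (-β * wact k R X) : ℝ) : ℂ) := by
    intro X
    rw [exp_wact, Complex.ofReal_mul, Complex.ofReal_prod]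
  have e2 : ∀ X : Cf N L, (f X : ℂ) *
      (∏ τ ∈ (tin R).filter (fun τ => τ.2 ≠ 3), (Real.exp (-β * en1 k X τ) : ℂ)) *
        ∏ τ ∈ (tin R).filter (fun τ => τ.2 = 3), wch N β 0 τ.1 X =
      ((f X * ∏ τ ∈ tin R, wt k β τ X : ℝ) : ℂ) := by
    intro X
    have a1 : ∏ τ ∈ (tin R).filter (fun τ => τ.2 = 3), wch N β 0 τ.1 X =
        ∏ τ ∈ (tin R).filter (fun τ => τ.2 = 3), (wt k β τ X : ℂ) := by
      refine Finset.prod_congr rfl fun τ hτ => ?_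
      rw [wch_zero k]
      congr 2
      exact Prod.ext rfl (Finset.mem_filter.1 hτ).2.symm
    have a2 : ∏ τ ∈ (tin R).filter (fun τ => τ.2 ≠ 3), (Real.exp (-β * en1 k X τ) : ℂ) =
        ∏ τ ∈ (tin R).filter (fun τ => ¬ τ.2 = 3), (wt k β τ X : ℂ) := by
      refine Finset.prod_congr rfl fun τ hτ => ?_
      rw [exp_en1 k β τ (Finset.mem_filter.1 hτ).2 X]
    rw [a1, a2, Complex.ofReal_mul, Complex.ofReal_prod,
      ← Finset.prod_filter_mul_prod_filter_not (tin R) (fun τ => τ.2 = 3)]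
    ring
  have e3 : ∫ X, (f X : ℂ) * ∏ τ ∈ tin R, (Real.exp (-β * en1 k X τ) : ℂ) ∂(pm N L) =
      ((∫ X, f X * Real.exp (-β * wact k R X) ∂(pm N L) : ℝ) : ℂ) := by
    rw [← integral_complex_ofReal]
    exact integral_congr_ae (Filter.Eventually.of_forall e1)
  have e4 : ∫ X, (f X : ℂ) *
      (∏ τ ∈ (tin R).filter (fun τ => τ.2 ≠ 3), (Real.exp (-β * en1 k X τ) : ℂ)) *
        ∏ τ ∈ (tin R).filter (fun τ => τ.2 = 3), wch N β 0 τ.1 X ∂(pm N L) =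
      ((∫ X, f X * ∏ τ ∈ tin R, wt k β τ X ∂(pm N L) : ℝ) : ℂ) := by
    rw [← integral_complex_ofReal]
    exact integral_congr_ae (Filter.Eventually.of_forall e2)
  have h' := (e3.symm.trans h).trans e4
  exact_mod_cast h'

lemma wex_ex0 (hOA : S_OA) (hN : 2 ≤ N) (k : ℕ) (β : ℝ) (hβ : 0 ≤ β) (R : Finset Pl)
    (f : Cf N L → ℝ) (hf : Measurable f) (hb : ∃ K, ∀ X, |f X| ≤ K)
    (hinv : ∀ x n X, f (mvh x n X) = f X) :
    wex N L k β R f = (sysS N L k β hN hβ).ex (hm N) (tin R) f := by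
  have h1 := num_eq (L := L) hOA hN k β hβ R (fun _ => (1 : ℝ)) measurable_const
    ⟨1, fun _ => by simp⟩ (fun _ _ _ => rfl)
  simp only [one_mul] at h1
  unfold wex Sys.ex
  rw [num_eq hOA hN k β hβ R f hf hb hinv, h1]
  rfl

lemma pt_mvh (x : Pl) (n : ℕ) (X : Cf N L) (a : Pl) : pt (mvh x n X) a = pt X a := by
  funext y j
  unfold pt mvh
  have h : (if j = 0 then (2 : Fin 4) else 3) ≠ 0 := by split_ifs <;> decide
  simp [h]

lemma obs_inv (ψ : Pl → ℝ) (G : Ph N L → ℝ) (Λ : Finset Pl) (b : Pl) (x : Pl) (n : ℕ)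
    (X : Cf N L) : obs ψ G Λ b (mvh x n X) = obs ψ G Λ b X := by
  unfold obs
  simp only [pt_mvh]

lemma pt_meas (x : Pl) : Measurable fun X : Cf N L => pt X x :=
  measurable_pi_iff.2 fun _ => measurable_pi_iff.2 fun _ => measurable_pi_apply _

lemma obs_meas (ψ : Pl → ℝ) (G : Ph N L → ℝ) (hG : Continuous G) (Λ : Finset Pl) (b : Pl) :
    Measurable (obs ψ G Λ b : Cf N L → ℝ) := by
  unfold obs
  refine (hG.measurable.comp (pt_meas b)).mul ?_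
  exact Finset.measurable_sum _ fun x _ => (hG.measurable.comp (pt_meas x)).const_mul _

lemma mu2_le (N L : ℕ) : 0 ≤ mu2 N L ∧ mu2 N L ≤ 4 := by
  unfold mu2
  have := Real.sin_sq_le_one (Real.pi / (N * L))
  constructor
  · positivity
  · linarith

lemma obs_bd (ψ : Pl → ℝ) (hψ : ∀ x, |ψ x| ≤ 1) (G : Ph N L → ℝ) (M : ℝ) (hG : ∀ φ, |G φ| ≤ M)
    (Λ : Finset Pl) (b : Pl) (X : Cf N L) : |obs ψ G Λ b X| ≤ 12 * M ^ 2 * Λ.card := by
  have hM : 0 ≤ M := (abs_nonneg _).trans (hG (pt X b))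
  unfold obs
  rw [abs_mul]
  have h1 : |∑ x ∈ Λ, (lap ψ x + mu2 N L * ψ x) * G (pt X x)| ≤ ∑ x ∈ Λ, 12 * M := by
    refine (Finset.abs_sum_le_sum_abs _ _).trans (Finset.sum_le_sum fun x _ => ?_)
    rw [abs_mul]
    refine mul_le_mul ?_ (hG _) (abs_nonneg _) (by norm_num)
    have a1 := abs_le.1 (hψ x)
    have a2 := abs_le.1 (hψ (x + (1, 0)))
    have a3 := abs_le.1 (hψ (x - (1, 0)))
    have a4 := abs_le.1 (hψ (x + (0, 1)))
    have a5 := abs_le.1 (hψ (x - (0, 1)))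
    have a6 : |mu2 N L * ψ x| ≤ 4 := by
      rw [abs_mul, abs_of_nonneg (mu2_le N L).1]
      have := mul_le_mul (mu2_le N L).2 (hψ x) (abs_nonneg _) (by norm_num)
      linarith
    rw [abs_le] at a6
    unfold lap
    rw [abs_le]
    constructor <;> linarith [a1.1, a1.2, a2.1, a2.2, a3.1, a3.2, a4.1, a4.2, a5.1, a5.2, a6.1, a6.2]
  rw [Finset.sum_const, nsmul_eq_mul] at h1
  calc |G (pt X b)| * |∑ x ∈ Λ, (lap ψ x + mu2 N L * ψ x) * G (pt X x)|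
      ≤ M * (Λ.card * (12 * M)) := mul_le_mul (hG _) h1 (abs_nonneg _) hM
    _ = _ := by ring

/-- the probabilistic part -/
lemma core (h4 : S_F4) (h5 : S_F5) (hOA : S_OA) (hN : 2 ≤ N) (k : ℕ) (β : ℝ) (hβ : 0 ≤ β)
    (R Λ Δ : Finset Pl) (hΛ : tml Λ ⊆ tin R) (hΔ : tml Δ ⊆ tin R)
    (f : Cf N L → ℝ) (hf : Measurable f) (F₀ : ℝ) (hb : ∀ X, |f X| ≤ F₀)
    (hinv : ∀ x n X, f (mvh x n X) = f X)
    (Bd : Cf N L → ℝ) (mB : Measurable Bd) (hB : ∀ X, Bd X = 0 ∨ Bd X = 1) (p : ℝ)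
    (hp : ∀ η, (sysS N L k β hN hβ).ker (hm N) Δ Bd η ≤ p) (c er : ℝ) (her : 0 ≤ er)
    (hc : |c| ≤ 1)
    (hgood : ∀ η, Bd η = 0 → |β * (sysS N L k β hN hβ).ker (hm N) Λ f η - c| ≤ er) :
    |β * wex N L k β R f - c| ≤ er + (β * F₀ + 1) * p := by
  set S := sysS N L k β hN hβ with hS
  have hF0 : 0 ≤ F₀ := (abs_nonneg _).trans (hb fun _ => 1)
  have bB : ∀ X, |Bd X| ≤ 1 := fun X => by
    rcases hB X with h | h <;> rw [h] <;> simp
  obtain ⟨-, -, -, hmeas, hbd, -⟩ := h5 (Lk L) Tm (SU N) S (hm N) Λ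
  have mk : Measurable (S.ker (hm N) Λ f) := hmeas f hf ⟨F₀, hb⟩
  have bk : ∀ η, |S.ker (hm N) Λ f η| ≤ F₀ := hbd F₀ f hf hb
  obtain ⟨-, hconst', hlin', hmeas', hbd', -⟩ := h5 (Lk L) Tm (SU N) S (hm N) Δ
  have e1 : wex N L k β R f = S.ex (hm N) (tin R) (S.ker (hm N) Λ f) := by
    rw [wex_ex0 hOA hN k β hβ R f hf ⟨F₀, hb⟩ hinv]
    have h := h4 (Lk L) Tm (SU N) S (hm N) Λ (tin R) hΛ f hf ⟨F₀, hb⟩ (fun _ => (1 : ℝ))
      measurable_const ⟨1, fun _ => by simp⟩ (fun _ _ _ => rfl)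
    simp only [one_mul] at h
    exact h
  have e2 : S.ex (hm N) (tin R) Bd ≤ p := by
    have h := h4 (Lk L) Tm (SU N) S (hm N) Δ (tin R) hΔ Bd mB ⟨1, bB⟩ (fun _ => (1 : ℝ))
      measurable_const ⟨1, fun _ => by simp⟩ (fun _ _ _ => rfl)
    simp only [one_mul] at h
    have h' : S.ex (hm N) (tin R) Bd = S.ex (hm N) (tin R) (S.ker (hm N) Δ Bd) := h
    rw [h']
    refine ex_le S (hm N) (tin R) _ (hmeas' Bd mB ⟨1, bB⟩) p (fun η => ?_) hp
    have h0 := (hlin' (fun _ => (0 : ℝ)) Bd measurable_const ⟨0, fun _ => by simp⟩ mB ⟨1, bB⟩ η).1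
      fun ξ => by rcases hB (glue (S.Fr Δ) ξ η) with h | h <;> rw [h] <;> norm_num
    rwa [hconst' 0 η] at h0
  have e3 : |S.ex (hm N) (tin R) (fun η => β * S.ker (hm N) Λ f η) - c| ≤
      S.ex (hm N) (tin R) (fun η => er + (β * F₀ + 1) * Bd η) := by
    refine ex_dom S (hm N) (tin R) _ _ (mk.const_mul β) ⟨β * F₀, fun η => ?_⟩
      ((mB.const_mul _).const_add _) ⟨er + (β * F₀ + 1) * 1, fun η => ?_⟩ c fun η => ?_
    · rw [abs_mul, abs_of_nonneg hβ]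
      exact mul_le_mul_of_nonneg_left (bk η) hβ
    · have h1 : 0 ≤ β * F₀ + 1 := by positivity
      refine (abs_add_le _ _).trans ?_
      rw [abs_of_nonneg her, abs_mul, abs_of_nonneg h1]
      have := mul_le_mul_of_nonneg_left (bB η) h1
      linarith
    · show |β * S.ker (hm N) Λ f η - c| ≤ er + (β * F₀ + 1) * Bd η
      rcases hB η with h | h
      · rw [h, mul_zero, add_zero]
        exact hgood η h
      · rw [h, mul_one]
        refine (abs_sub _ _).trans ?_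
        rw [abs_mul, abs_of_nonneg hβ]
        have := mul_le_mul_of_nonneg_left (bk η) hβ
        linarith
  rw [ex_lin S (hm N) (tin R) Bd mB ⟨1, bB⟩, ex_smul, ← e1] at e3
  refine e3.trans ?_
  have h1 : 0 ≤ β * F₀ + 1 := by positivity
  have := mul_le_mul_of_nonneg_left e2 h1
  linarith

/-! ### real analysis -/

lemma pow_le_exp (s : ℝ) (hs : 64000000 ≤ s) (j : ℕ) (hj : j ≤ 4000) : s ^ j ≤ Real.exp s := by
  have hs0 : 0 < s := by linarith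
  have h1 : Real.log s ≤ 2 * Real.sqrt s := by
    have h2 : Real.log (Real.sqrt s) = Real.log s / 2 := Real.log_sqrt hs0.le
    have h3 := Real.log_le_sub_one_of_pos (Real.sqrt_pos.2 hs0)
    linarith
  have h2 : (8000 : ℝ) ≤ Real.sqrt s := by
    rw [Real.le_sqrt (by norm_num) hs0.le]
    norm_num
    linarith
  have h3 : Real.sqrt s * Real.sqrt s = s := Real.mul_self_sqrt hs0.le
  have h4 : (4000 : ℝ) * Real.log s ≤ s := by nlinarith
  have h5 : 0 ≤ Real.log s := Real.log_nonneg (by linarith)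
  have h6 : (j : ℝ) ≤ 4000 := by exact_mod_cast hj
  have h7 : (j : ℝ) * Real.log s ≤ s := (mul_le_mul_of_nonneg_right h6 h5).trans h4
  calc s ^ j = Real.exp (j * Real.log s) := by
        rw [← Real.log_pow, Real.exp_log (by positivity)]
    _ ≤ Real.exp s := Real.exp_le_exp.2 h7

lemma neg_exp_le (s : ℝ) (hs : 64000000 ≤ s) (j : ℕ) (hj : j ≤ 4000) :
    Real.exp (-s) ≤ (s ^ j)⁻¹ := by
  rw [Real.exp_neg]
  exact inv_anti₀ (by positivity) (pow_le_exp s hs j hj)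

lemma scale2 (L n : ℝ) (hL : 1 ≤ L) (hn : 0 ≤ n) : L ≤ L * (n + 1) ∧ n + 1 ≤ L * (n + 1) :=
  ⟨by nlinarith, by nlinarith⟩

lemma nin (n : ℝ) (hn : 0 ≤ n) : (2 * (n + 1) + 1) ^ 2 ≤ 9 * (n + 1) ^ 2 := by nlinarith

lemma cub1 (s r : ℝ) (hs : 64000000 ≤ s) (hr : r ≤ s ^ 2 + 1) : r + 1 ≤ s ^ 3 := by
  have : s ^ 3 = s * s ^ 2 := by ring
  nlinarith [sq_nonneg s]

lemma cub2 (s r n : ℝ) (hs : 64000000 ≤ s) (hr : r ≤ s ^ 2 + 1) (hn : n + 1 ≤ s) :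
    2 * (n + 2 + (r + 1)) + 1 ≤ s ^ 3 := by
  have : s ^ 3 = s * s ^ 2 := by ring
  nlinarith [sq_nonneg s]

lemma two_le (A : ℝ) (hA : 1 ≤ A) : 2 ≤ 2 * A ^ 1000 := by
  have := one_le_pow₀ hA (n := 1000)
  linarith

lemma scale (A x β : ℝ) (K : ℕ) (hA : 1 ≤ A) (hx : 1 ≤ x)
    (hβ : 2 * A ^ 1000 * x ^ (K * 1000) ≤ β) :
    ∃ s : ℝ, β = s ^ 1000 ∧ 0 ≤ s ∧ A * x ^ K ≤ s ∧ 1 ≤ β := by
  have hβA : (A * x ^ K) ^ 1000 ≤ β := by
    refine le_trans ?_ hβ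
    rw [mul_pow, ← pow_mul]
    have : 0 ≤ A ^ 1000 * x ^ (K * 1000) := by positivity
    linarith
  have hAx : 1 ≤ A * x ^ K := one_le_mul_of_one_le_of_one_le hA (one_le_pow₀ hx)
  have hβ1 : 1 ≤ β := (one_le_pow₀ hAx).trans hβA
  have hβ0 : 0 ≤ β := by linarith
  have hs0 : 0 ≤ β ^ (1 / 1000 : ℝ) := Real.rpow_nonneg hβ0 _
  have hβs : β = (β ^ (1 / 1000 : ℝ)) ^ 1000 := by
    rw [← Real.rpow_natCast, ← Real.rpow_mul hβ0]
    norm_num
  refine ⟨β ^ (1 / 1000 : ℝ), hβs, hs0, ?_, hβ1⟩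
  rw [hβs] at hβA
  exact le_of_pow_le_pow_left₀ (by norm_num) hs0 hβA

/-- the probability of large energies -/
lemma tail (s β t a : ℝ) (hs : 64000000 ≤ s) (hβ : β = s ^ 1000) (ht : t = s ^ 10 / β)
    (ha : 0 ≤ a) (has : a ≤ s) (m : ℕ) (hm : (m : ℝ) ≤ s ^ 7) (y : ℝ) (hy : 0 ≤ y)
    (hys : y ≤ s ^ 3) :
    y * (Real.exp (-β * t) * (a * β) ^ m) ≤ Real.exp (-s) := by
  have hs0 : 0 < s := by linarith
  have hβ0 : 0 < β := by rw [hβ]; positivity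
  have h1 : -β * t = -s ^ 10 := by
    rw [ht]
    field_simp
  have h2 : a * β ≤ Real.exp s := by
    calc a * β ≤ s * s ^ 1000 := by rw [hβ]; gcongr
      _ = s ^ 1001 := by ring
      _ ≤ Real.exp s := pow_le_exp s hs 1001 (by norm_num)
  have h3 : (a * β) ^ m ≤ Real.exp (s ^ 8) := by
    calc (a * β) ^ m ≤ Real.exp s ^ m := pow_le_pow_left₀ (by positivity) h2 m
      _ = Real.exp (m * s) := by rw [← Real.exp_nat_mul]
      _ ≤ Real.exp (s ^ 8) := by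
          refine Real.exp_le_exp.2 ?_
          calc (m : ℝ) * s ≤ s ^ 7 * s := by gcongr
            _ = s ^ 8 := by ring
  have h4 : y ≤ Real.exp s := hys.trans (pow_le_exp s hs 3 (by norm_num))
  rw [h1]
  calc y * (Real.exp (-s ^ 10) * (a * β) ^ m)
      ≤ Real.exp s * (Real.exp (-s ^ 10) * Real.exp (s ^ 8)) := by gcongr
    _ = Real.exp (s + (-s ^ 10 + s ^ 8)) := by rw [← Real.exp_add, ← Real.exp_add]
    _ ≤ Real.exp (-s) := by
        refine Real.exp_le_exp.2 ?_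
        have h5 : s ≤ s ^ 8 := le_self_pow₀ (by linarith) (by norm_num)
        have h6 : s ^ 10 = s ^ 8 * s ^ 2 := by ring
        have h7 : 3 ≤ s ^ 2 := by nlinarith
        have h8 : 0 ≤ s ^ 8 := by positivity
        nlinarith

lemma real_e (s β t a e : ℝ) (hs : 64000000 ≤ s) (hβ : β = s ^ 1000) (ht : t = s ^ 10 / β)
    (ha : 1 ≤ a) (has : a ≤ s) (R' m : ℕ) (hR : s ^ 2 ≤ R') (hm : (m : ℝ) ≤ s ^ 6)
    (he : e = a * (m * (Real.exp (-R' / a) + 0) + t)) : 0 ≤ e ∧ e ≤ s ^ 12 / β := by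
  have hs0 : 0 < s := by linarith
  have hβ0 : 0 < β := by rw [hβ]; positivity
  have ht0 : 0 ≤ t := by rw [ht]; positivity
  have h1 : Real.exp (-R' / a) ≤ 1 / β := by
    have h2 : s ≤ R' / a := by
      rw [le_div_iff₀ (by linarith)]
      calc s * a ≤ s * s := by gcongr
        _ = s ^ 2 := by ring
        _ ≤ R' := hR
    calc Real.exp (-R' / a) ≤ Real.exp (-s) := Real.exp_le_exp.2 (by rw [neg_div]; linarith)
      _ ≤ (s ^ 1000)⁻¹ := neg_exp_le s hs 1000 (by norm_num)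
      _ = 1 / β := by rw [hβ, one_div]
  constructor
  · rw [he]
    positivity
  · rw [he, add_zero]
    calc a * (m * Real.exp (-R' / a) + t) ≤ s * (s ^ 6 * (1 / β) + s ^ 10 / β) := by
          rw [ht]
          gcongr
      _ = (s ^ 7 + s ^ 11) / β := by field_simp
      _ ≤ s ^ 12 / β := by
          refine div_le_div_of_nonneg_right ?_ hβ0.le
          have h3 : s ^ 7 ≤ s ^ 11 := pow_le_pow_right₀ (by linarith) (by norm_num)
          have h4 : s ^ 12 = s ^ 11 * s := by ring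
          have h5 : 0 ≤ s ^ 11 := by positivity
          nlinarith

lemma real_r (s β t b e r : ℝ) (hs : 64000000 ≤ s) (hβ : β = s ^ 1000) (ht : t = s ^ 10 / β)
    (hb : 1 ≤ b) (hbs : b ≤ s) (m : ℕ) (hm1 : 1 ≤ (m : ℝ)) (hm : (m : ℝ) ≤ s) (he : 0 ≤ e)
    (hes : e ≤ s ^ 12 / β) (hr : r = b * m * (m * e + t)) :
    1 / β ≤ r ∧ r ≤ (s ^ 984)⁻¹ ∧ Real.sqrt (Real.sqrt r) ≤ (s ^ 246)⁻¹ ∧
      b * m * (β * (r * Real.sqrt (Real.sqrt r))) ≤ 1 := by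
  have hs0 : 0 < s := by linarith
  have hβ0 : 0 < β := by rw [hβ]; positivity
  have ht0 : 0 ≤ t := by rw [ht]; positivity
  have h1 : 1 / β ≤ r := by
    have h2 : 1 / β ≤ t := by
      rw [ht]
      exact div_le_div_of_nonneg_right (one_le_pow₀ (by linarith)) hβ0.le
    have h3 : 1 ≤ b * m := one_le_mul_of_one_le_of_one_le hb hm1
    have h4 : 0 ≤ m * e := by positivity
    calc 1 / β ≤ t := h2
      _ ≤ m * e + t := by linarith
      _ ≤ b * m * (m * e + t) := le_mul_of_one_le_left (by positivity) h3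
      _ = r := hr.symm
  have h2 : r ≤ (s ^ 984)⁻¹ := by
    rw [hr]
    calc b * m * (m * e + t) ≤ s * s * (s * (s ^ 12 / β) + s ^ 10 / β) := by
          rw [ht]
          gcongr
      _ = (s ^ 15 + s ^ 12) / β := by field_simp
      _ ≤ s ^ 16 / β := by
          refine div_le_div_of_nonneg_right ?_ hβ0.le
          have h3 : s ^ 12 ≤ s ^ 15 := pow_le_pow_right₀ (by linarith) (by norm_num)
          have h4 : s ^ 16 = s ^ 15 * s := by ring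
          have h5 : 0 ≤ s ^ 15 := by positivity
          nlinarith
      _ = (s ^ 984)⁻¹ := by
          rw [hβ, show (s ^ 1000 : ℝ) = s ^ 16 * s ^ 984 by rw [← pow_add]]
          rw [div_mul_eq_div_div, div_self (by positivity), one_div]
  have h3 : Real.sqrt (Real.sqrt r) ≤ (s ^ 246)⁻¹ := by
    have h4 : r ≤ (((s ^ 246)⁻¹) ^ 2) ^ 2 := by
      refine h2.trans (le_of_eq ?_)
      rw [inv_pow, inv_pow, ← pow_mul, ← pow_mul]
    have h5 : Real.sqrt r ≤ ((s ^ 246)⁻¹) ^ 2 := Real.sqrt_le_iff.2 ⟨by positivity, h4⟩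
    exact Real.sqrt_le_iff.2 ⟨by positivity, h5⟩
  refine ⟨h1, h2, h3, ?_⟩
  have hr0 : 0 ≤ r := le_trans (by positivity) h1
  obtain ⟨U, hU⟩ : ∃ U, U = (s ^ 984)⁻¹ := ⟨_, rfl⟩
  obtain ⟨V, hV⟩ : ∃ V, V = (s ^ 246)⁻¹ := ⟨_, rfl⟩
  have hU0 : 0 ≤ U := by rw [hU]; positivity
  have hV0 : 0 ≤ V := by rw [hV]; positivity
  rw [← hU] at h2
  rw [← hV] at h3
  have h5 : s * s * (β * (U * V)) = (s ^ 228)⁻¹ := by
    rw [hU, hV, hβ, ← mul_inv, ← pow_add, ← mul_assoc, ← sq, ← pow_add,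
      show (984 + 246 : ℕ) = (2 + 1000) + 228 by norm_num, pow_add s (2 + 1000) 228, mul_inv,
      ← mul_assoc, mul_inv_cancel₀ (by positivity), one_mul]
  have h6 : (s ^ 228)⁻¹ ≤ 1 := inv_le_one_of_one_le₀ (one_le_pow₀ (by linarith))
  calc b * m * (β * (r * Real.sqrt (Real.sqrt r))) ≤ s * s * (β * (U * V)) := by gcongr
    _ = (s ^ 228)⁻¹ := h5
    _ ≤ 1 := h6

/-- the final error -/
lemma real_fin (s β b r q p C F : ℝ) (hs : 64000000 ≤ s) (hβ : β = s ^ 1000) (hb : 0 ≤ b)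
    (hbs : b ≤ s) (m : ℕ) (hm : (m : ℝ) ≤ s) (hr0 : 0 ≤ r) (hr : r ≤ (s ^ 984)⁻¹)
    (hrr : Real.sqrt (Real.sqrt r) ≤ (s ^ 246)⁻¹) (hq0 : 0 ≤ q) (hq : q ≤ Real.exp (-s))
    (hp : p ≤ Real.exp (-s)) (hC : 0 < C) (hCs : C ≤ s)
    (hF0 : 0 ≤ F) (hF : F ≤ s ^ 2) :
    b * (m : ℝ) ^ 2 * (β ^ 2 * (r ^ 2 * Real.sqrt (Real.sqrt r)) +
      β ^ 2 * (q + Real.exp (-β / C))) + (β * F + 1) * p ≤ β ^ (-(1 / 5) : ℝ) := by
  have hs0 : 0 < s := by linarith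
  have hβ0 : 0 < β := by rw [hβ]; positivity
  have h1 : β ^ (-(1 / 5) : ℝ) = (s ^ 200)⁻¹ := by
    rw [hβ, ← Real.rpow_natCast, ← Real.rpow_mul hs0.le, ← Real.rpow_natCast, ← Real.rpow_neg hs0.le]
    norm_num
  have h2 : Real.exp (-s) ≤ (s ^ 4000)⁻¹ := neg_exp_le s hs 4000 le_rfl
  have h3 : Real.exp (-β / C) ≤ (s ^ 4000)⁻¹ := by
    refine le_trans (Real.exp_le_exp.2 ?_) h2
    rw [neg_div, neg_le_neg_iff, le_div_iff₀ hC, hβ]
    calc s * C ≤ s * s := by gcongr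
      _ = s ^ 2 := by ring
      _ ≤ s ^ 1000 := pow_le_pow_right₀ (by linarith) (by norm_num)
  have h4 : b * (m : ℝ) ^ 2 * (β ^ 2 * (r ^ 2 * Real.sqrt (Real.sqrt r)) +
      β ^ 2 * (q + Real.exp (-β / C))) ≤ s * s ^ 2 * ((s ^ 1000) ^ 2 * (((s ^ 984)⁻¹) ^ 2 *
        (s ^ 246)⁻¹) + (s ^ 1000) ^ 2 * ((s ^ 4000)⁻¹ + (s ^ 4000)⁻¹)) := by
    have := hq.trans h2
    rw [hβ] at h3 ⊢
    gcongr
  have h5 : (s ^ 1000) ^ 2 * (((s ^ 984)⁻¹) ^ 2 * (s ^ 246)⁻¹) = (s ^ 214)⁻¹ := by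
    rw [inv_pow, ← mul_inv, ← pow_mul, ← pow_mul, ← pow_add,
      show (984 * 2 + 246 : ℕ) = 1000 * 2 + 214 by norm_num, pow_add s (1000 * 2) 214, mul_inv,
      ← mul_assoc, mul_inv_cancel₀ (by positivity), one_mul]
  have h6 : (s ^ 1000) ^ 2 * ((s ^ 4000)⁻¹ + (s ^ 4000)⁻¹) ≤ 2 * (s ^ 214)⁻¹ := by
    have e1 : (s ^ 1000) ^ 2 * (s ^ 4000)⁻¹ ≤ (s ^ 214)⁻¹ := by
      rw [← div_eq_mul_inv, div_le_iff₀ (by positivity), ← pow_mul,
        show (4000 : ℕ) = 214 + 3786 by norm_num, pow_add, ← mul_assoc, inv_mul_cancel₀ (by positivity),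
        one_mul]
      exact pow_le_pow_right₀ (by linarith) (by norm_num)
    linarith
  have h7 : (β * F + 1) * p ≤ (s ^ 214)⁻¹ := by
    have e1 : β * F + 1 ≤ s ^ 1003 := by
      rw [hβ]
      have e2 : s ^ 1000 * F ≤ s ^ 1000 * s ^ 2 := by gcongr
      have e3 : (1 : ℝ) ≤ s ^ 1000 * s ^ 2 := by
        rw [← pow_add]
        exact one_le_pow₀ (by linarith)
      have e4 : s ^ 1003 = s ^ 1000 * s ^ 2 * s := by ring
      rw [e4]
      nlinarith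
    calc (β * F + 1) * p ≤ (β * F + 1) * (s ^ 4000)⁻¹ := by
          have : 0 ≤ β * F + 1 := by positivity
          gcongr
          exact hp.trans h2
      _ ≤ s ^ 1003 * (s ^ 4000)⁻¹ := by gcongr
      _ ≤ (s ^ 214)⁻¹ := by
          rw [← div_eq_mul_inv, div_le_iff₀ (by positivity),
            show (4000 : ℕ) = 214 + 3786 by norm_num, pow_add, ← mul_assoc,
            inv_mul_cancel₀ (by positivity), one_mul]
          exact pow_le_pow_right₀ (by linarith) (by norm_num)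
  rw [h5] at h4
  rw [h1]
  have h8 : 0 ≤ (s ^ 214)⁻¹ := by positivity
  have h9 : s * s ^ 2 * ((s ^ 214)⁻¹ + (s ^ 1000) ^ 2 * ((s ^ 4000)⁻¹ + (s ^ 4000)⁻¹)) ≤
      s ^ 3 * (3 * (s ^ 214)⁻¹) := by
    rw [show s * s ^ 2 = s ^ 3 by ring]
    gcongr
    linarith
  have h10 : s ^ 3 * (3 * (s ^ 214)⁻¹) + (s ^ 214)⁻¹ ≤ (s ^ 200)⁻¹ := by
    rw [show (214 : ℕ) = 200 + 14 by norm_num, pow_add, mul_inv]
    have e1 : (0 : ℝ) < (s ^ 200)⁻¹ := by positivity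
    have e2 : (s ^ 3 * 3 + 1) * (s ^ 14)⁻¹ ≤ 1 := by
      rw [← div_eq_mul_inv, div_le_iff₀ (by positivity), one_mul]
      have e3 : 1 ≤ s ^ 3 := one_le_pow₀ (by linarith)
      have e4 : s ^ 14 = s ^ 3 * s * s ^ 10 := by ring
      have e5 : 1 ≤ s ^ 10 := one_le_pow₀ (by linarith)
      have e6 : s ^ 3 * s ≤ s ^ 3 * s * s ^ 10 := le_mul_of_one_le_right (by positivity) e5
      rw [e4]
      nlinarith
    calc s ^ 3 * (3 * ((s ^ 200)⁻¹ * (s ^ 14)⁻¹)) + (s ^ 200)⁻¹ * (s ^ 14)⁻¹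
        = (s ^ 200)⁻¹ * ((s ^ 3 * 3 + 1) * (s ^ 14)⁻¹) := by ring
      _ ≤ (s ^ 200)⁻¹ * 1 := by gcongr
      _ = _ := mul_one _
  linarith

end PkgUK

open PkgUK

/-- **Package UK.** -/
theorem pUK (h4 : S_F4) (h5 : S_F5) (hH : S_Hu) (hOA : S_OA) (hUJ : S_UJ) : S_UK := by
  intro N k hN hk P Q hPQ C₁ K₁
  obtain ⟨CH, KH, DH, hCH, hHu⟩ := hH N k hN hk
  obtain ⟨CJ, KJ, DJ, hCJ, hJ⟩ := hUJ N k hN hk P Q hPQ C₁ K₁
  obtain ⟨A, hA⟩ : ∃ A : ℝ, A = CH + CJ + DH + DJ + 12 * C₁ ^ 2 + 9 + 64000000 := ⟨_, rfl⟩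
  obtain ⟨K, hK⟩ : ∃ K : ℕ, K = KH + KJ + 2 * K₁ + 2 := ⟨_, rfl⟩
  have hDH0 : (0 : ℝ) ≤ DH := Nat.cast_nonneg _
  have hDJ0 : (0 : ℝ) ≤ DJ := Nat.cast_nonneg _
  have hC1 : 0 ≤ C₁ ^ 2 := sq_nonneg _
  have hA1 : 1 ≤ A := by rw [hA]; linarith
  refine ⟨2 * A ^ 1000, K * 1000, two_le A hA1, ?_⟩
  intro L _ β n hβ E G hMod
  -- the scale
  have hL1 : (1 : ℝ) ≤ L := by exact_mod_cast Nat.one_le_iff_ne_zero.2 (NeZero.ne L)
  have hn0 : (0 : ℝ) ≤ n := Nat.cast_nonneg _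
  obtain ⟨hLx, hnx⟩ := scale2 (L : ℝ) n hL1 hn0
  generalize (L : ℝ) * (n + 1) = x at hLx hnx hβ
  have hx1 : 1 ≤ x := hL1.trans hLx
  obtain ⟨s, hβs, hs0, hsA, hβ1⟩ := scale A x β K hA1 hx1 hβ
  clear hβ
  have hβ0 : 0 ≤ β := le_trans zero_le_one hβ1
  have key : ∀ (c : ℝ) (j : ℕ) (y : ℝ), 0 ≤ c → c ≤ A → j ≤ K → 0 ≤ y → y ≤ x →
      c * y ^ j ≤ s := by
    intro c j y hc hcA hjK hy hyx
    refine le_trans ?_ hsA
    calc c * y ^ j ≤ A * x ^ j := by gcongr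
      _ ≤ A * x ^ K := by
          have := pow_le_pow_right₀ hx1 hjK
          gcongr
  have hs64 : 64000000 ≤ s := by
    have := key 64000000 0 0 (by norm_num) (by rw [hA]; linarith) (by omega) le_rfl (by linarith)
    simpa using this
  have hL0 : (0 : ℝ) ≤ L := by linarith
  have haH : CH * (L : ℝ) ^ KH ≤ s :=
    key _ _ _ (by linarith) (by rw [hA]; linarith) (by omega) hL0 hLx
  have haJ : CJ * (L : ℝ) ^ KJ ≤ s :=
    key _ _ _ (by linarith) (by rw [hA]; linarith) (by omega) hL0 hLx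
  have haH1 : 1 ≤ CH * (L : ℝ) ^ KH := one_le_mul_of_one_le_of_one_le hCH (one_le_pow₀ hL1)
  have haJ1 : 1 ≤ CJ * (L : ℝ) ^ KJ := one_le_mul_of_one_le_of_one_le hCJ (one_le_pow₀ hL1)
  have hdH : (DH : ℝ) * (L : ℝ) ^ 2 ≤ s :=
    key _ _ _ hDH0 (by rw [hA]; linarith) (by omega) hL0 hLx
  have hdJ : (DJ : ℝ) * (L : ℝ) ^ 2 ≤ s :=
    key _ _ _ hDJ0 (by rw [hA]; linarith) (by omega) hL0 hLx
  have hM2 : 12 * (C₁ * (L : ℝ) ^ K₁) ^ 2 ≤ s := by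
    have := key (12 * C₁ ^ 2) (2 * K₁) L (by positivity) (by rw [hA]; linarith) (by omega) hL0 hLx
    calc 12 * (C₁ * (L : ℝ) ^ K₁) ^ 2 = 12 * C₁ ^ 2 * (L : ℝ) ^ (2 * K₁) := by
          rw [mul_pow, ← pow_mul, mul_comm K₁ 2]
          ring
      _ ≤ s := this
  have hns : (n : ℝ) + 1 ≤ s := by
    have := key 1 1 (n + 1) (by norm_num) hA1 (by omega) (by linarith) hnx
    simpa using this
  have hCJs : CJ ≤ s := by
    have := key CJ 0 0 (by linarith) (by rw [hA]; linarith) (by omega) le_rfl (by linarith)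
    simpa using this
  -- the sets
  set Λ : Finset Pl := Nb (n + 1) 0 with hΛ
  set B : Finset Pl := Nb (n + 2) 0 with hB
  have hΛc : ((Λ.card : ℕ) : ℝ) ≤ s := by
    rw [hΛ, card_Nb]
    have := key 9 2 (n + 1) (by norm_num) (by rw [hA]; linarith) (by omega) (by linarith) hnx
    push_cast
    exact le_trans (nin n hn0) this
  have hΛ1 : (1 : ℝ) ≤ Λ.card := by
    rw [hΛ, card_Nb]
    exact_mod_cast Nat.one_le_pow _ _ (by omega)
  obtain ⟨R', hR'1, hR'2⟩ : ∃ R' : ℕ, s ^ 2 ≤ R' ∧ (R' : ℝ) ≤ s ^ 2 + 1 :=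
    ⟨⌈s ^ 2⌉₊, Nat.le_ceil _, (Nat.ceil_lt_add_one (by positivity)).le⟩
  set Δ : Finset Pl := bal (R' + 1) B with hΔ
  have hΔc : ((Δ.card : ℕ) : ℝ) ≤ s ^ 6 := by
    have h1 : Δ ⊆ Nb (n + 2 + (R' + 1)) 0 := by
      intro a ha
      rw [hΔ, bal, Finset.mem_biUnion] at ha
      obtain ⟨b, hb, hab⟩ := ha
      exact Nb_trans _ _ _ _ _ hb hab
    have h2 := Finset.card_le_card h1
    rw [card_Nb] at h2
    have h3 : ((Δ.card : ℕ) : ℝ) ≤ (2 * ((n : ℝ) + 2 + (R' + 1)) + 1) ^ 2 := by exact_mod_cast h2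
    refine h3.trans ?_
    have h4 : 2 * ((n : ℝ) + 2 + (R' + 1)) + 1 ≤ s ^ 3 := cub2 s R' n hs64 hR'2 hns
    calc (2 * ((n : ℝ) + 2 + (R' + 1)) + 1) ^ 2 ≤ (s ^ 3) ^ 2 := by gcongr
      _ = s ^ 6 := by rw [← pow_mul]
  have hΛB : Λ ⊆ B := Nb_mono _ _ (by omega) 0
  have hBΔ : B ⊆ Δ := by
    intro a ha
    rw [hΔ, bal, Finset.mem_biUnion]
    refine ⟨a, ha, ?_⟩
    rw [mem_Nb]
    simp
    omega
  have hBΔ' : B ∩ Δ = B := Finset.inter_eq_left.2 hBΔ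
  have html : ∀ U V : Finset Pl, U ⊆ V → tml U ⊆ tml V := by
    intro U V h τ hτ
    rw [mem_tml] at hτ ⊢
    obtain ⟨a, ha, haU⟩ := hτ
    exact ⟨a, ha, h haU⟩
  refine ⟨(n + 2) + (R' + 1 + 1), fun R hR ψ hψ hψn b hb => ?_⟩
  have hΔR : tml Δ ⊆ tin R :=
    tml_tin B R (R' + 1) fun a ha c hc => hR (Nb_trans _ _ _ _ _ ha hc)
  have hΛR : tml Λ ⊆ tin R := (html _ _ (hΛB.trans hBΔ)).trans hΔR
  -- the mode
  obtain ⟨-, -, -, -, hGc, -, hGb, -⟩ := id hMod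
  -- the parameters
  obtain ⟨t, ht⟩ : ∃ t, t = s ^ 10 / β := ⟨_, rfl⟩
  have ht0 : 0 ≤ t := by rw [ht]; positivity
  obtain ⟨e, he⟩ : ∃ e, e = CH * (L : ℝ) ^ KH *
    (Δ.card * (Real.exp (-R' / (CH * (L : ℝ) ^ KH)) + 0) + t) := ⟨_, rfl⟩
  obtain ⟨he0, hes⟩ := real_e s β t _ e hs64 hβs ht haH1 haH R' Δ.card hR'1 hΔc he
  obtain ⟨r, hr⟩ : ∃ r, r = CJ * (L : ℝ) ^ KJ * Λ.card * (Λ.card * e + t) := ⟨_, rfl⟩
  obtain ⟨hr1, hr2, hr3, hr4⟩ := real_r s β t _ e r hs64 hβs ht haJ1 haJ Λ.card hΛ1 hΛc he0 hes hr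
  have hr0 : 0 ≤ r := le_trans (by positivity) hr1
  -- the bad event
  set Bd : Cf N L → ℝ := fun X => ind (CH * (L : ℝ) ^ KH *
    ((bal (R' + 1) B).card * (Real.exp (-R' / (CH * (L : ℝ) ^ KH)) + 0) + t) ≤
        ∑ τ ∈ tml (B ∩ Δ), en k X τ) with hBd
  have mB : Measurable Bd := PkgH.ind_meas _ _ measurable_const (PkgH.en_meas k hN _)
  have hB01 : ∀ X, Bd X = 0 ∨ Bd X = 1 := by
    intro X
    rw [hBd]
    simp only [ind]
    split_ifs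
    · exact Or.inr rfl
    · exact Or.inl rfl
  set p : ℝ := (R' + 1) * (Real.exp (-β * t) * (CH * (L : ℝ) ^ KH * β) ^ (DH * L ^ 2 * Δ.card)) with hp
  have hker : ∀ η, (sysS N L k β hN hβ0).ker (hm N) Δ Bd η ≤ p := by
    intro η
    refine hHu L β hβ0 hβ1 Δ B R' 0 t le_rfl ht0 η fun τ hτ => ?_
    exact absurd (hτ τ.1 (self_cor τ)).1 (hτ τ.1 (self_cor τ)).2
  have hps : p ≤ Real.exp (-s) := by
    refine tail s β t _ hs64 hβs ht (by linarith) haH _ ?_ _ (by positivity) ?_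
    · push_cast
      calc (DH : ℝ) * (L : ℝ) ^ 2 * Δ.card ≤ s * s ^ 6 := by gcongr
        _ = s ^ 7 := by ring
    · exact cub1 s R' hs64 hR'2
  set q : ℝ := Real.exp (-β * t) * (CJ * (L : ℝ) ^ KJ * β) ^ (DJ * L ^ 2 * Λ.card) with hq
  have hq0 : 0 ≤ q := by positivity
  have hqs : q ≤ Real.exp (-s) := by
    have := tail s β t (CJ * (L : ℝ) ^ KJ) hs64 hβs ht (by linarith) haJ (DJ * L ^ 2 * Λ.card)
      (by
        push_cast
        calc (DJ : ℝ) * (L : ℝ) ^ 2 * Λ.card ≤ s * s := by gcongr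
          _ = s ^ 2 := by ring
          _ ≤ s ^ 7 := pow_le_pow_right₀ (by linarith) (by norm_num)) 1 zero_le_one
      (one_le_pow₀ (by linarith))
    rwa [one_mul] at this
  have hF : 12 * (C₁ * (L : ℝ) ^ K₁) ^ 2 * Λ.card ≤ s ^ 2 := by
    calc 12 * (C₁ * (L : ℝ) ^ K₁) ^ 2 * Λ.card ≤ s * s := by gcongr
      _ = s ^ 2 := by ring
  have hNb1 : ∀ x, ψ x ≠ 0 → Nb 1 x ⊆ Λ := fun x hx c hc =>
    Nb_trans _ _ _ _ _ (hψn x hx) hc
  have hmain := core (L := L) h4 h5 hOA hN k β hβ0 R Λ Δ hΛR hΔR (obs ψ G Λ b)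
    (obs_meas ψ G hGc Λ b) _ (obs_bd ψ hψ G _ hGb Λ b) (obs_inv ψ G Λ b) Bd mB hB01 p hker (ψ b)
    (CJ * (L : ℝ) ^ KJ * (Λ.card : ℝ) ^ 2 * (β ^ 2 * (r ^ 2 * Real.sqrt (Real.sqrt r)) +
        β ^ 2 * (q + Real.exp (-β / CJ)))) (by positivity) (hψ b) (fun η hη => by
      refine hJ L β hβ0 hβ1 E G hMod Λ e t r he0 ht0 hr hr1 hr4 η (fun τ hτ => ?_) ψ hψ hNb1 b
        (Nb_mono _ _ (by omega) 0 hb)
      by_contra hcon
      push Not at hcon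
      have h1 : ind (CH * (L : ℝ) ^ KH *
          ((bal (R' + 1) B).card * (Real.exp (-R' / (CH * (L : ℝ) ^ KH)) + 0) + t) ≤
          ∑ τ ∈ tml (B ∩ Δ), en k η τ) = 1 := by
        refine PkgH.ind_true ?_
        rw [hBΔ', ← hΔ, ← he]
        refine hcon.le.trans ?_
        refine Finset.single_le_sum (f := fun τ => en k η τ) (fun σ _ => en_nonneg k η σ) ?_
        have h2 : τ ∈ tml (pls Λ) := (Finset.mem_filter.1 hτ).1
        refine html (pls Λ) B ?_ h2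
        intro a ha
        rw [pls, Finset.mem_biUnion] at ha
        obtain ⟨c, hc, hac⟩ := ha
        exact Nb_trans (n + 1) 1 _ _ _ hc hac
      have h3 : Bd η = 1 := h1
      rw [h3] at hη
      norm_num at hη)
  refine hmain.trans ?_
  exact real_fin s β _ r q p CJ _ hs64 hβs (by linarith) haJ Λ.card hΛc hr0 hr2 hr3 hq0 hqs hps
    (by linarith) hCJs (by positivity) hF

end T2H02.TT
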