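import Pool.Agent.T2H02.TT.UM

/-!
# The explicit Polyakov observable
-/

set_option autoImplicit false
set_option linter.unusedSectionVars false

noncomputable section

open MeasureTheory Matrix
open scoped Matrix.Norms.Frobenius

namespace T2H02.TT

/-- the Polyakov observable: `√(2/N) / (a L²) ∑_y Re (u exp (-2 π i y₂ / (N L)) tr (P_y ^ a))`, where
`P_y` is the holonomy of the torus loop in the direction `0` at `y` -/
def Gpol (N L : ℕ) [NeZero L] (a : ℕ) (u : ℂ) (φ : Ph N L) : ℝ :=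
  Real.sqrt (2 / N) / (a * (L : ℝ) ^ 2) * ∑ y : Tor L,
    (u * Complex.exp (-((2 * Real.pi * (y.2.val : ℝ) / (N * L) : ℝ) * Complex.I)) *
      ((hol φ 0 L y ^ a : SU N) : Mt N).trace).re

namespace PkgUMx

open PkgUM

variable {N L : ℕ} [NeZero L]

lemma geo (hL : 2 ≤ L) : ∑ m : ZMod L, Complex.exp (2 * Real.pi * Complex.I / L) ^ m.val = 0 := by
  have h1 : ∑ m : ZMod L, Complex.exp (2 * Real.pi * Complex.I / L) ^ m.val =
      ∑ j ∈ Finset.range L, Complex.exp (2 * Real.pi * Complex.I / L) ^ j := by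
    obtain ⟨n, rfl⟩ : ∃ n, L = n + 1 := ⟨L - 1, by omega⟩
    exact Fin.sum_univ_eq_sum_range
      (fun j => Complex.exp (2 * Real.pi * Complex.I / ((n + 1 : ℕ) : ℂ)) ^ j) (n + 1)
  rw [h1]
  exact (Complex.isPrimitiveRoot_exp L (by omega)).geom_sum_eq_zero (by omega)

lemma zz_sq (y : Tor L) : zz 2 y ^ 2 = Complex.exp (2 * Real.pi * Complex.I / L) ^ y.2.val := by
  have hL0 : (L : ℂ) ≠ 0 := by exact_mod_cast (NeZero.ne L)
  unfold zz
  rw [← Complex.exp_nat_mul, ← Complex.exp_nat_mul]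
  congr 1
  push_cast
  field_simp

lemma sum_zz (hL : 2 ≤ L) : ∑ y : Tor L, (star (zz 2 y)) ^ 2 = 0 := by
  have h1 : ∀ y : Tor L, (star (zz 2 y)) ^ 2 =
      star (Complex.exp (2 * Real.pi * Complex.I / L) ^ y.2.val) := fun y => by
    rw [← zz_sq, star_pow]
  rw [Finset.sum_congr rfl fun y _ => h1 y, ← star_sum, Fintype.sum_prod_type]
  have h2 : ∀ x : ZMod L, ∑ m : ZMod L,
      Complex.exp (2 * Real.pi * Complex.I / L) ^ ((x, m) : ZMod L × ZMod L).2.val = 0 :=
    fun x => geo hL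
  rw [Finset.sum_congr rfl fun x _ => h2 x, Finset.sum_const_zero, star_zero]

lemma sum_norm {k a : ℕ} (hN : 2 ≤ N) (hk : Nat.Coprime k N) {P Q : SU N} (hPQ : PQ k P Q)
    (hka : (k * a) % N = 1) (hL : 2 ≤ L) {W : SU N} (hW : W = P ^ a) (κ : ℂ) :
    ∑ y : Tor L, ‖Em L W κ y‖ ^ 2 = 2 * N * (L : ℝ) ^ 2 * ‖κ‖ ^ 2 := by
  have h1 : ∀ y : Tor L, ‖Em L W κ y‖ ^ 2 = 2 * N * ‖κ‖ ^ 2 +
      2 * ((star (zz N y)) ^ 2 * ((star κ) ^ 2 * ((W : Mt N) * (W : Mt N)).trace)).re := by
    intro y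
    unfold Em
    rw [norm_Bm, norm_mul, norm_zz, mul_one, star_mul', mul_pow]
    have : (star κ ^ 2 * star (zz N y) ^ 2 * ((W : Mt N) * (W : Mt N)).trace).re =
        ((star (zz N y)) ^ 2 * ((star κ) ^ 2 * ((W : Mt N) * (W : Mt N)).trace)).re := by
      congr 1
      ring
    rw [this]
    ring
  have h2 : ∑ y : Tor L, ((star (zz N y)) ^ 2 * ((star κ) ^ 2 * ((W : Mt N) * (W : Mt N)).trace)).re
      = 0 := by
    rcases Nat.lt_or_ge 2 N with h3 | h3
    · have h4 : ((W : Mt N) * (W : Mt N)).trace = 0 := by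
        have h5 : ¬ (N ∣ (2 * a) ∧ N ∣ 0) := by
          rintro ⟨h6, -⟩
          have h7 : N ∣ k * (2 * a) := Dvd.dvd.mul_left h6 k
          have h8 : (k * (2 * a)) % N = 2 % N := by
            have : k * (2 * a) = 2 * (k * a) := by ring
            rw [this, Nat.mul_mod, hka, mul_one, Nat.mod_mod]
          rw [Nat.mod_eq_zero_of_dvd h7, Nat.mod_eq_of_lt h3] at h8
          omega
        have h6 := pA4 N k hN hk P Q hPQ (2 * a) 0 h5
        rw [pow_zero, mul_one] at h6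
        have h7 : (W : Mt N) * (W : Mt N) = (P : Mt N) ^ (2 * a) := by
          have : (W : Mt N) = (P : Mt N) ^ a := by rw [hW]; rfl
          rw [this, ← pow_add, two_mul]
        rw [h7]
        exact h6
      refine Finset.sum_eq_zero fun y _ => ?_
      rw [h4, mul_zero, mul_zero, Complex.zero_re]
    · obtain rfl : N = 2 := le_antisymm h3 hN
      rw [← Complex.re_sum, ← Finset.sum_mul, sum_zz hL, zero_mul, Complex.zero_re]
  rw [Finset.sum_congr rfl fun y _ => h1 y, Finset.sum_add_distrib, Finset.sum_const,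
    Finset.card_univ, nsmul_eq_mul, Fintype.card_prod, ZMod.card, ← Finset.mul_sum, h2]
  push_cast
  ring

/-- normalisation -/
def kap (N L : ℕ) (u : ℂ) : ℂ := (((L : ℝ) * Real.sqrt (2 * N))⁻¹ : ℝ) * (-Complex.I * star u)

lemma norm_kap (u : ℂ) (hu : ‖u‖ = 1) : ‖kap N L u‖ = ((L : ℝ) * Real.sqrt (2 * N))⁻¹ := by
  unfold kap
  rw [norm_mul, norm_mul, norm_neg, Complex.norm_I, norm_star, hu, mul_one, mul_one,
    Complex.norm_real, Real.norm_of_nonneg (by positivity)]

lemma Gpol_eq (hN : 2 ≤ N) (a : ℕ) (u : ℂ) :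
    Gpol N L a u = Gf L a (kap N L u) := by
  funext φ
  have hN' : (0 : ℝ) < N := by
    have : 0 < N := by omega
    exact_mod_cast this
  have hL' : (0 : ℝ) < L := by
    have : 0 < L := NeZero.pos L
    exact_mod_cast this
  unfold Gpol Gf
  have h1 : ∀ y : Tor L, (star (kap N L u * zz N y) * ((hol φ 0 L y ^ a : SU N) : Mt N).trace).im =
      ((L : ℝ) * Real.sqrt (2 * N))⁻¹ *
      (u * Complex.exp (-((2 * Real.pi * (y.2.val : ℝ) / (N * L) : ℝ) * Complex.I)) *
      ((hol φ 0 L y ^ a : SU N) : Mt N).trace).re := by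
    intro y
    have h2 : star (zz N y) =
        Complex.exp (-((2 * Real.pi * (y.2.val : ℝ) / (N * L) : ℝ) * Complex.I)) := by
      unfold zz
      rw [RCLike.star_def, ← Complex.exp_conj, map_mul, Complex.conj_ofReal, Complex.conj_I, mul_neg]
    have h3 : star (kap N L u * zz N y) * ((hol φ 0 L y ^ a : SU N) : Mt N).trace =
        (((L : ℝ) * Real.sqrt (2 * N))⁻¹ : ℝ) * (Complex.I * (u * star (zz N y) *
          ((hol φ 0 L y ^ a : SU N) : Mt N).trace)) := by
      unfold kap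
      rw [star_mul', star_mul', star_mul', star_star, star_neg]
      simp only [RCLike.star_def, Complex.conj_ofReal, Complex.conj_I, neg_neg]
      ring
    rw [h3, Complex.im_ofReal_mul, Complex.I_mul_im, h2]
  rw [Finset.sum_congr rfl fun y _ => h1 y, ← Finset.mul_sum, ← mul_assoc]
  congr 1
  have h4 : Real.sqrt (2 / N) = 2 / Real.sqrt (2 * N) := by
    rw [eq_div_iff (by positivity), ← Real.sqrt_mul (by positivity)]
    have : (2 : ℝ) / N * (2 * N) = 2 ^ 2 := by field_simp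
    rw [this, Real.sqrt_sq (by norm_num)]
  rw [h4]
  field_simp

end PkgUMx

open PkgUM PkgUMx

/-- explicit mode and observable -/
def S_UMx : Prop := ∀ N k : ℕ, 2 ≤ N → Nat.Coprime k N → ∀ P Q : SU N, PQ k P Q →
  ∀ a : ℕ, a < N → (k * a) % N = 1 →
  ∃ (C : ℝ) (K : ℕ), 1 ≤ C ∧ ∀ (L : ℕ) [NeZero L], 2 ≤ L → ∀ u : ℂ, ‖u‖ = 1 →
    ∃ E : Tor L → Mt N, Mod N L P Q (C * (L : ℝ) ^ K) E (Gpol N L a u)

theorem pUMx : S_UMx := by
  intro N k hN hk P Q h a haN hka
  have ha : 1 ≤ a := by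
    rcases Nat.eq_zero_or_pos a with h | h
    · rw [h, mul_zero, Nat.zero_mod] at hka
      omega
    · exact h
  have hom : om N k ^ a = om N 1 := by
    have h1 : k * a = N * (k * a / N) + 1 := by
      have := Nat.div_add_mod (k * a) N
      rw [hka] at this
      exact this.symm
    have hN0 : (N : ℂ) ≠ 0 := by
      have : N ≠ 0 := by omega
      exact_mod_cast this
    have h2 : (k : ℂ) * a = N * ((k * a / N : ℕ) : ℂ) + 1 := by exact_mod_cast h1
    unfold om
    rw [← Complex.exp_nat_mul]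
    have h3 : (a : ℂ) * (2 * Real.pi * Complex.I * k / N) =
        ((k * a / N : ℕ) : ℂ) * (2 * Real.pi * Complex.I) + 2 * Real.pi * Complex.I * (1 : ℕ) / N := by
      have e : (a : ℂ) * (2 * Real.pi * Complex.I * k / N) =
          2 * Real.pi * Complex.I * ((k : ℂ) * a) / N := by ring
      rw [e, h2]
      push_cast
      field_simp
    rw [h3, Complex.exp_add, Complex.exp_nat_mul_two_pi_mul_I, one_mul]
  obtain ⟨C₀, hC₀, hpr⟩ := PkgE.su_sub_pr hN
  have hN' : (2 : ℝ) ≤ N := by exact_mod_cast hN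
  obtain ⟨W, hW⟩ : ∃ W : SU N, W = P ^ a := ⟨_, rfl⟩
  have hWc : (W : Mt N) = (P : Mt N) ^ a := by rw [hW]; rfl
  have ht : (W : Mt N).trace = 0 := by
    have := pA4 N k hN hk P Q h a 0 (fun hc => by
      have := Nat.le_of_dvd (by omega) hc.1
      omega)
    rw [pow_zero, mul_one] at this
    rw [hWc]
    exact this
  have hPW : P * W = W * P := by rw [hW, ← pow_succ, ← pow_succ']
  have hD : Dat P Q W := by
    refine ⟨?_, ?_, ht⟩
    · have : P * W * P⁻¹ = W := by rw [hPW, mul_inv_cancel_right]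
      exact congrArg (fun x : SU N => (x : Mt N)) this
    · have h1 := PkgE.PQ_pow' h a
      rw [hom, ← hWc] at h1
      have h2 : star (om N 1) * om N 1 = 1 := by
        have hn : ‖om N 1‖ = 1 :=
          (PkgE.om_prim hN (Nat.coprime_one_left N)).norm'_eq_one (by omega)
        have h3 := Complex.mul_conj' (om N 1)
        rw [hn] at h3
        rw [RCLike.star_def, mul_comm, h3]
        norm_num
      have h3 : (Q : Mt N) * (W : Mt N) = star (om N 1) • ((W : Mt N) * (Q : Mt N)) := by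
        rw [h1, smul_smul, h2, one_smul]
      unfold Adj
      rw [h3, smul_mul_assoc, mul_assoc, PkgB.coe_mul_inv, mul_one]
  refine ⟨8 * N ^ 2 + 12 * N * C₀ + N, 3, ?_, fun L _ hL2 u hu => ?_⟩
  · have : (0 : ℝ) ≤ 12 * N * C₀ := by positivity
    nlinarith
  have hL : (1 : ℝ) ≤ L := by exact_mod_cast NeZero.pos L
  have hsq : (0 : ℝ) < Real.sqrt (2 * N) := Real.sqrt_pos.2 (by positivity)
  have hκ : ‖kap N L u‖ ≤ 1 := by
    rw [norm_kap u hu]
    refine inv_le_one_of_one_le₀ ?_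
    have : 1 ≤ Real.sqrt (2 * N) := Real.one_le_sqrt.2 (by linarith)
    nlinarith
  have hS : ∑ y, ‖Em L W (kap N L u) y‖ ^ 2 = 1 := by
    rw [sum_norm hN hk h hka hL2 hW, norm_kap u hu, inv_pow, mul_pow, Real.sq_sqrt (by positivity)]
    have h1 : (N : ℝ) ≠ 0 := by linarith
    have h2 : (L : ℝ) ≠ 0 := by linarith
    field_simp
  have hv : ∀ y : Tor L, (vac P Q : Ph N L) y 0 * W = W * (vac P Q : Ph N L) y 0 := by
    intro y
    by_cases h0 : y.1 = -1
    · have h3 : (vac P Q : Ph N L) y 0 = P := by simp [vac, h0]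
      rw [h3, hPW]
    · have h3 : (vac P Q : Ph N L) y 0 = 1 := by simp [vac, h0]
      rw [h3, mul_one, one_mul]
  have hE : ∀ y : Tor L, ‖Em L W (kap N L u) y‖ ≤ 1 := by
    intro y
    have h1 : ‖Em L W (kap N L u) y‖ ^ 2 ≤ 1 := by
      rw [← hS]
      exact Finset.single_le_sum (f := fun y => ‖Em L W (kap N L u) y‖ ^ 2)
        (fun _ _ => by positivity) (Finset.mem_univ y)
    nlinarith [norm_nonneg (Em L W (kap N L u) y)]
  rw [Gpol_eq hN]
  refine ⟨Em L W (kap N L u), fun y => Bm_mem W ht _, hS, dd0 hD _,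
    fun b _ => ward hN hD _ b, Gf_cont a _, fun g φ => Gf_act a _ g φ, fun φ => ?_,
    Gf_cph hN a ha haN _, ?_⟩
  · refine (Gf_le hN a ha _ hκ φ).trans ?_
    have h1 : (L : ℝ) ≤ L ^ 3 := by nlinarith [mul_nonneg (sub_nonneg.2 hL) (sub_nonneg.2 hL)]
    have h2 : 2 * (N : ℝ) ^ 2 ≤ 8 * N ^ 2 + 12 * N * C₀ + N := by
      have : (0 : ℝ) ≤ 12 * N * C₀ := by positivity
      nlinarith
    exact mul_le_mul h2 h1 (by positivity) (by positivity)
  · intro φ b ρ hρ hρ1 hb
    exact Gf_lin hN a ha haN _ hκ hW ht hv hE C₀ hC₀ hpr φ b ρ hρ hρ1 hb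

end T2H02.TT
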