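import Pool.Agent.T2H02.TT.StmV
import Pool.Agent.T2H02.TT.M1u
import Pool.Agent.T2H02.TT.M0u
import Pool.Agent.T2H02.TT.JM

/-!
# Package UI : the Ward identity of the Polyakov loops in a finite volume

`absI`: the integral comparison. `det`, `det2`: expansions for the shift by the mode near the vacuum.
`cfg`: the same for configurations which are near the vacuum after a gauge and centre
transformation. `core`: the Ward identity for fixed `L`. `pUI`: constants polynomial in `L`.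
-/

set_option autoImplicit false
set_option linter.unusedSectionVars false
set_option linter.unusedVariables false
set_option linter.unusedSimpArgs false

noncomputable section

open MeasureTheory Matrix
open scoped Matrix.Norms.Frobenius

namespace T2H02.TT.PkgUI

open T2H02.TT T2H02.TT.PkgM1 T2H02.TT.PkgM1u

/-! ### scalar inequalities -/

lemma ind_01 (p : Prop) : 0 ≤ ind p ∧ ind p ≤ 1 := by
  unfold ind
  split_ifs <;> norm_num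

lemma ind_pos' {p : Prop} (h : p) : ind p = 1 := by
  unfold ind; rw [if_pos h]

lemma ind_neg' {p : Prop} (h : ¬ p) : ind p = 0 := by
  unfold ind; rw [if_neg h]

/-- the ratio of the weights -/
lemma ratio {w w' x ε : ℝ} (hw : 0 < w) (h1 : Real.exp (x - ε) * w ≤ w')
    (h2 : Real.exp (-x - ε) * w' ≤ w) (hx : |x| ≤ 1 / 2) (he : 0 ≤ ε) (he1 : ε ≤ 1 / 2) :
    |w' - (1 + x) * w| ≤ (2 * ε + 2 * x ^ 2) * w ∧ w ≤ 3 * w' ∧ w' ≤ 3 * w := by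
  have hx' := abs_le.1 hx
  have hx2 : x ^ 2 ≤ 1 / 4 := by
    rw [← sq_abs]
    nlinarith [abs_nonneg x]
  -- upper bound of `w'`
  have hu : w' ≤ Real.exp (x + ε) * w := by
    have h3 : Real.exp (x + ε) * (Real.exp (-x - ε) * w') ≤ Real.exp (x + ε) * w :=
      mul_le_mul_of_nonneg_left h2 (Real.exp_pos _).le
    rw [← mul_assoc, ← Real.exp_add, show x + ε + (-x - ε) = 0 by ring, Real.exp_zero, one_mul] at h3
    exact h3
  have hb : Real.exp (x + ε) ≤ 1 + x + (2 * ε + 2 * x ^ 2) := by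
    have h3 : |x + ε| ≤ 1 := by
      rw [abs_le]; constructor <;> linarith
    have h4 := Real.abs_exp_sub_one_sub_id_le h3
    have h5 := (abs_le.1 h4).2
    have h6 : (x + ε) ^ 2 ≤ 2 * x ^ 2 + 2 * ε ^ 2 := by nlinarith [sq_nonneg (x - ε)]
    have h7 : 2 * ε ^ 2 ≤ ε := by nlinarith
    linarith
  have hl : 1 + x - ε ≤ Real.exp (x - ε) := by
    have := Real.add_one_le_exp (x - ε)
    linarith
  have a1 : (1 + x - ε) * w ≤ w' := (mul_le_mul_of_nonneg_right hl hw.le).trans h1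
  have a2 : w' ≤ (1 + x + (2 * ε + 2 * x ^ 2)) * w := hu.trans (mul_le_mul_of_nonneg_right hb hw.le)
  have hxx : 0 ≤ x ^ 2 := sq_nonneg x
  refine ⟨?_, ?_, ?_⟩
  · rw [abs_le]
    constructor
    · have : 0 ≤ (ε + 2 * x ^ 2) * w := by positivity
      nlinarith
    · nlinarith
  · have h3 : Real.exp (-1) ≤ Real.exp (x - ε) := Real.exp_le_exp.2 (by linarith)
    have h4 : (1 / 3 : ℝ) ≤ Real.exp (-1) := by
      rw [Real.exp_neg, one_div]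
      have h5 : Real.exp 1 ≤ 3 := by
        have := Real.exp_one_lt_d9
        linarith
      exact inv_anti₀ (Real.exp_pos _) h5
    have h6 : 1 / 3 * w ≤ w' := (mul_le_mul_of_nonneg_right (h4.trans h3) hw.le).trans h1
    linarith
  · refine a2.trans (mul_le_mul_of_nonneg_right ?_ hw.le)
    linarith

/-- the integrand where the transform is good -/
lemma integrand {w w' x ε f f' sψ F₀ s d1 xm : ℝ} (hw : 0 < w)
    (h1 : Real.exp (x - ε) * w ≤ w')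
    (h2 : Real.exp (-x - ε) * w' ≤ w) (hx : |x| ≤ xm) (hxm : xm ≤ 1 / 2) (he : 0 ≤ ε)
    (he1 : ε ≤ 1 / 2) (hs : |sψ| ≤ s) (hf : |f| ≤ F₀) (hf' : |f' - f - sψ| ≤ d1) :
    |f' * w' - (f + sψ + x * f) * w| ≤
      ((F₀ + s) * (2 * ε + 2 * xm ^ 2) + 3 * d1 + s * xm) * w ∧ w ≤ 3 * w' := by
  obtain ⟨r1, r2, r3⟩ := ratio hw h1 h2 (hx.trans hxm) he he1
  refine ⟨?_, r2⟩
  have hx2 : x ^ 2 ≤ xm ^ 2 := by
    rw [← sq_abs]
    exact pow_le_pow_left₀ (abs_nonneg x) hx 2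
  have e : f' * w' - (f + sψ + x * f) * w =
      (f + sψ) * (w' - (1 + x) * w) + (f' - f - sψ) * w' + sψ * (x * w) := by ring
  rw [e]
  have hxm0 : 0 ≤ xm := (abs_nonneg x).trans hx
  have hF0 : 0 ≤ F₀ := (abs_nonneg _).trans hf
  have hs0 : 0 ≤ s := (abs_nonneg _).trans hs
  have hd0 : 0 ≤ d1 := (abs_nonneg _).trans hf'
  have hw'0 : 0 ≤ w' := by linarith
  have t1 : |(f + sψ) * (w' - (1 + x) * w)| ≤ (F₀ + s) * ((2 * ε + 2 * xm ^ 2) * w) := by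
    rw [abs_mul]
    refine mul_le_mul ((abs_add_le _ _).trans (add_le_add hf hs)) (r1.trans ?_) (abs_nonneg _)
      (by linarith)
    exact mul_le_mul_of_nonneg_right (by linarith) hw.le
  have t2 : |(f' - f - sψ) * w'| ≤ d1 * (3 * w) := by
    rw [abs_mul, abs_of_nonneg hw'0]
    exact mul_le_mul hf' r3 hw'0 hd0
  have t3 : |sψ * (x * w)| ≤ s * (xm * w) := by
    rw [abs_mul, abs_mul, abs_of_pos hw]
    exact mul_le_mul hs (mul_le_mul_of_nonneg_right hx hw.le) (by positivity) hs0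
  calc _ ≤ |(f + sψ) * (w' - (1 + x) * w)| + |(f' - f - sψ) * w'| + |sψ * (x * w)| :=
        (abs_add_le _ _).trans (add_le_add (abs_add_le _ _) le_rfl)
    _ ≤ (F₀ + s) * ((2 * ε + 2 * xm ^ 2) * w) + d1 * (3 * w) + s * (xm * w) := by linarith
    _ = _ := by ring

/-! ### the abstract integral comparison -/

lemma absI {Ω : Type} [MeasurableSpace Ω] {μ : Measure Ω} [IsProbabilityMeasure μ]
    {A A' B : Ω → Prop} {f f' q w w' : Ω → ℝ} {u s sψ κ M Mq p : ℝ}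
    (mf : Measurable f) (mf' : Measurable f') (mq : Measurable q) (mw : Measurable w)
    (mw' : Measurable w') (mA : Measurable fun ξ => ind (A ξ)) (mA' : Measurable fun ξ => ind (A' ξ))
    (hw : ∀ ξ, 0 ≤ w ξ) (hw1 : ∀ ξ, w ξ ≤ 1) (hw' : ∀ ξ, 0 ≤ w' ξ) (hw1' : ∀ ξ, w' ξ ≤ 1)
    (hf : ∀ ξ, |f ξ| ≤ M) (hf' : ∀ ξ, |f' ξ| ≤ M) (hq : ∀ ξ, |q ξ| ≤ Mq)
    (e1 : ∫ ξ, f' ξ * ind (A' ξ) * w' ξ ∂μ = ∫ ξ, f ξ * ind (A ξ) * w ξ ∂μ)
    (e2 : ∫ ξ, (1 - ind (A' ξ)) * w' ξ ∂μ = ∫ ξ, (1 - ind (A ξ)) * w ξ ∂μ)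
    (hAB : ∀ ξ, A ξ → B ξ)
    (h1 : ∀ ξ, A' ξ → |f' ξ * w' ξ - (f ξ + sψ - u * (f ξ * q ξ)) * w ξ| ≤ κ * w ξ)
    (h2 : ∀ ξ, B ξ → w ξ ≤ 3 * w' ξ)
    (hp : ∫ ξ, (1 - ind (A ξ)) * w ξ ∂μ ≤ p * ∫ ξ, w ξ ∂μ)
    (hu : 0 ≤ u) (hs : |sψ| ≤ s) (hκ : 0 ≤ κ) :
    |u * ∫ ξ, f ξ * q ξ * w ξ ∂μ - sψ * ∫ ξ, w ξ ∂μ| ≤
      (κ + (5 * M + 4 * s + 4 * (u * (M * Mq))) * p) * ∫ ξ, w ξ ∂μ := by
  obtain ⟨ξ₀⟩ : Nonempty Ω := by
    by_contra hne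
    rw [not_nonempty_iff] at hne
    have h0 : μ Set.univ = 0 := by
      rw [Set.univ_eq_empty_iff.2 hne, measure_empty]
    rw [measure_univ] at h0
    exact one_ne_zero h0
  have hM : 0 ≤ M := (abs_nonneg _).trans (hf ξ₀)
  have hMq : 0 ≤ Mq := (abs_nonneg _).trans (hq ξ₀)
  have hs0 : 0 ≤ s := (abs_nonneg _).trans hs
  have bw : ∀ ξ, |w ξ| ≤ 1 := fun ξ => by rw [abs_of_nonneg (hw ξ)]; exact hw1 ξ
  have bw' : ∀ ξ, |w' ξ| ≤ 1 := fun ξ => by rw [abs_of_nonneg (hw' ξ)]; exact hw1' ξ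
  have ba : ∀ p : Prop, |ind p| ≤ 1 := fun p => by
    rw [abs_of_nonneg (ind_01 p).1]; exact (ind_01 p).2
  have ba' : ∀ p : Prop, |1 - ind p| ≤ 1 := fun p => by
    have := ind_01 p
    rw [abs_le]; constructor <;> linarith
  have mul1 : ∀ {a b A B : ℝ}, |a| ≤ A → |b| ≤ B → |a * b| ≤ A * B := by
    intro a b A B ha hb
    rw [abs_mul]
    exact mul_le_mul ha hb (abs_nonneg _) ((abs_nonneg _).trans ha)
  have iw : Integrable w μ := PkgF.integrable_bdd mw ⟨1, bw⟩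
  have ifw : Integrable (fun ξ => f ξ * w ξ) μ :=
    PkgF.integrable_bdd (mf.mul mw) ⟨M * 1, fun ξ => mul1 (hf ξ) (bw ξ)⟩
  have ifqw : Integrable (fun ξ => f ξ * q ξ * w ξ) μ :=
    PkgF.integrable_bdd ((mf.mul mq).mul mw) ⟨M * Mq * 1, fun ξ => mul1 (mul1 (hf ξ) (hq ξ)) (bw ξ)⟩
  have ifaw : Integrable (fun ξ => f ξ * ind (A ξ) * w ξ) μ :=
    PkgF.integrable_bdd ((mf.mul mA).mul mw) ⟨M * 1 * 1, fun ξ => mul1 (mul1 (hf ξ) (ba _)) (bw ξ)⟩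
  have ifaw' : Integrable (fun ξ => f' ξ * ind (A' ξ) * w' ξ) μ :=
    PkgF.integrable_bdd ((mf'.mul mA').mul mw')
      ⟨M * 1 * 1, fun ξ => mul1 (mul1 (hf' ξ) (ba _)) (bw' ξ)⟩
  have iaw : Integrable (fun ξ => (1 - ind (A ξ)) * w ξ) μ :=
    PkgF.integrable_bdd ((measurable_const.sub mA).mul mw) ⟨1 * 1, fun ξ => mul1 (ba' _) (bw ξ)⟩
  have iaw' : Integrable (fun ξ => (1 - ind (A' ξ)) * w' ξ) μ :=
    PkgF.integrable_bdd ((measurable_const.sub mA').mul mw') ⟨1 * 1, fun ξ => mul1 (ba' _) (bw' ξ)⟩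
  obtain ⟨Z, hZ⟩ : ∃ Z, Z = ∫ ξ, w ξ ∂μ := ⟨_, rfl⟩
  obtain ⟨Pb, hPb⟩ : ∃ Pb, Pb = ∫ ξ, (1 - ind (A ξ)) * w ξ ∂μ := ⟨_, rfl⟩
  obtain ⟨I, hI⟩ : ∃ I, I = ∫ ξ, f ξ * q ξ * w ξ ∂μ := ⟨_, rfl⟩
  obtain ⟨J, hJ⟩ : ∃ J, J = ∫ ξ, f ξ * w ξ ∂μ := ⟨_, rfl⟩
  obtain ⟨Ja, hJa⟩ : ∃ Ja, Ja = ∫ ξ, f ξ * ind (A ξ) * w ξ ∂μ := ⟨_, rfl⟩
  have hPb0 : 0 ≤ Pb := by
    rw [hPb]
    exact integral_nonneg fun ξ => mul_nonneg (by have := ind_01 (A ξ); linarith) (hw ξ)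
  obtain ⟨M₂, hM₂⟩ : ∃ M₂, M₂ = M + s + u * (M * Mq) := ⟨_, rfl⟩
  have hM20 : 0 ≤ M₂ := by rw [hM₂]; positivity
  -- the pointwise estimate
  have hD : ∀ ξ, |f' ξ * ind (A' ξ) * w' ξ - (f ξ * w ξ + sψ * w ξ - u * (f ξ * q ξ * w ξ))| ≤
      κ * w ξ + M₂ * ((1 - ind (A ξ)) * w ξ + 3 * ((1 - ind (A' ξ)) * w' ξ)) := by
    intro ξ
    have hw0 := hw ξ
    have hw0' := hw' ξ
    have hA1 : 0 ≤ 1 - ind (A ξ) := by have := ind_01 (A ξ); linarith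
    by_cases hA' : A' ξ
    · rw [ind_pos' hA', mul_one]
      have e : f ξ * w ξ + sψ * w ξ - u * (f ξ * q ξ * w ξ) =
          (f ξ + sψ - u * (f ξ * q ξ)) * w ξ := by ring
      rw [e]
      refine (h1 ξ hA').trans ?_
      have : 0 ≤ M₂ * ((1 - ind (A ξ)) * w ξ + 3 * ((1 - 1) * w' ξ)) := by
        have : 0 ≤ (1 - ind (A ξ)) * w ξ := mul_nonneg hA1 hw0
        rw [sub_self, zero_mul, mul_zero, add_zero]
        positivity
      linarith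
    · rw [ind_neg' hA', mul_zero, zero_mul, zero_sub, abs_neg]
      have e : f ξ * w ξ + sψ * w ξ - u * (f ξ * q ξ * w ξ) =
          (f ξ + sψ - u * (f ξ * q ξ)) * w ξ := by ring
      rw [e, abs_mul, abs_of_nonneg hw0]
      have h3 : |f ξ + sψ - u * (f ξ * q ξ)| ≤ M₂ := by
        have h4 : |u * (f ξ * q ξ)| ≤ u * (M * Mq) := by
          rw [abs_mul, abs_of_nonneg hu]
          exact mul_le_mul_of_nonneg_left (mul1 (hf ξ) (hq ξ)) hu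
        calc _ ≤ |f ξ + sψ| + |u * (f ξ * q ξ)| := abs_sub _ _
          _ ≤ (|f ξ| + |sψ|) + |u * (f ξ * q ξ)| := by
              have := abs_add_le (f ξ) sψ
              linarith
          _ ≤ M₂ := by
              have := hf ξ
              rw [hM₂]; linarith
      have h5 : w ξ ≤ (1 - ind (A ξ)) * w ξ + 3 * ((1 - 0) * w' ξ) := by
        by_cases hB : B ξ
        · have := h2 ξ hB
          have h6 : 0 ≤ (1 - ind (A ξ)) * w ξ := mul_nonneg hA1 hw0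
          linarith
        · rw [ind_neg' fun h => hB (hAB ξ h)]
          linarith
      have h7 : 0 ≤ κ * w ξ := mul_nonneg hκ hw0
      calc |f ξ + sψ - u * (f ξ * q ξ)| * w ξ ≤ M₂ * w ξ := mul_le_mul_of_nonneg_right h3 hw0
        _ ≤ M₂ * ((1 - ind (A ξ)) * w ξ + 3 * ((1 - 0) * w' ξ)) := mul_le_mul_of_nonneg_left h5 hM20
        _ ≤ _ := by linarith
  -- integrate
  have i1 : Integrable (fun ξ => f ξ * w ξ + sψ * w ξ) μ := ifw.add (iw.const_mul sψ)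
  have i2 : Integrable (fun ξ => f ξ * w ξ + sψ * w ξ - u * (f ξ * q ξ * w ξ)) μ :=
    i1.sub (ifqw.const_mul u)
  have i3 : Integrable (fun ξ => (1 - ind (A ξ)) * w ξ + 3 * ((1 - ind (A' ξ)) * w' ξ)) μ :=
    iaw.add (iaw'.const_mul 3)
  have iD : Integrable (fun ξ => f' ξ * ind (A' ξ) * w' ξ -
      (f ξ * w ξ + sψ * w ξ - u * (f ξ * q ξ * w ξ))) μ := ifaw'.sub i2
  have iR : Integrable (fun ξ => κ * w ξ +
      M₂ * ((1 - ind (A ξ)) * w ξ + 3 * ((1 - ind (A' ξ)) * w' ξ))) μ :=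
    (iw.const_mul κ).add (i3.const_mul M₂)
  have hint := (abs_integral_le_integral_abs (f := fun ξ => f' ξ * ind (A' ξ) * w' ξ -
      (f ξ * w ξ + sψ * w ξ - u * (f ξ * q ξ * w ξ))) (μ := μ)).trans (integral_mono iD.abs iR hD)
  have c1 : ∫ ξ, (f' ξ * ind (A' ξ) * w' ξ -
      (f ξ * w ξ + sψ * w ξ - u * (f ξ * q ξ * w ξ))) ∂μ = Ja - (J + sψ * Z - u * I) := by
    rw [integral_sub ifaw' i2, integral_sub i1 (ifqw.const_mul u),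
      integral_add ifw (iw.const_mul sψ), integral_const_mul,
      integral_const_mul, e1, hJa, hJ, hZ, hI]
  have c2 : ∫ ξ, (κ * w ξ +
      M₂ * ((1 - ind (A ξ)) * w ξ + 3 * ((1 - ind (A' ξ)) * w' ξ))) ∂μ =
      κ * Z + M₂ * (Pb + 3 * Pb) := by
    rw [integral_add (iw.const_mul κ) (i3.const_mul M₂),
      integral_const_mul, integral_const_mul, integral_add iaw (iaw'.const_mul 3),
      integral_const_mul, e2, hPb, hZ]
  rw [c1, c2] at hint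
  have hJJ : |J - Ja| ≤ M * Pb := by
    have e : J - Ja = ∫ ξ, f ξ * ((1 - ind (A ξ)) * w ξ) ∂μ := by
      rw [hJ, hJa, ← integral_sub ifw ifaw]
      refine integral_congr_ae (Filter.Eventually.of_forall fun ξ => ?_)
      dsimp only
      ring
    rw [e, hPb, ← integral_const_mul]
    refine (abs_integral_le_integral_abs).trans (integral_mono ?_ (iaw.const_mul M) fun ξ => ?_)
    · refine Integrable.abs ?_
      have := ifw.sub ifaw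
      refine this.congr (Filter.Eventually.of_forall fun ξ => ?_)
      simp only [Pi.sub_apply]
      ring
    · dsimp only
      have h3 : 0 ≤ (1 - ind (A ξ)) * w ξ :=
        mul_nonneg (by have := ind_01 (A ξ); linarith) (hw ξ)
      rw [abs_mul, abs_of_nonneg h3]
      exact mul_le_mul_of_nonneg_right (hf ξ) h3
  rw [← hPb, ← hZ] at hp
  rw [← hI, ← hZ]
  have e3 : u * I - sψ * Z = (Ja - (J + sψ * Z - u * I)) + (J - Ja) := by ring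
  rw [e3]
  refine (abs_add_le _ _).trans ?_
  have h8 : 4 * M₂ * Pb + M * Pb ≤ (5 * M + 4 * s + 4 * (u * (M * Mq))) * (p * Z) := by
    have h9 : 4 * M₂ * Pb + M * Pb = (5 * M + 4 * s + 4 * (u * (M * Mq))) * Pb := by
      rw [hM₂]; ring
    rw [h9]
    exact mul_le_mul_of_nonneg_left hp (by positivity)
  calc _ ≤ (κ * Z + M₂ * (Pb + 3 * Pb)) + M * Pb := add_le_add hint hJJ
    _ = κ * Z + (4 * M₂ * Pb + M * Pb) := by ring
    _ ≤ κ * Z + (5 * M + 4 * s + 4 * (u * (M * Mq))) * (p * Z) := by linarith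
    _ = _ := by ring

end T2H02.TT.PkgUI

namespace T2H02.TT.PkgUI

open T2H02.TT T2H02.TT.PkgM0

variable {N L : ℕ} [NeZero L] {P Q : SU N}

/-! ### the expansions near the vacuum -/

lemma pt_near {Λ : Finset Pl} {ρ : ℝ} {X : Cf N L}
    (hX2 : ∀ l, (∀ a ∈ st l, a ∈ pls Λ) → ‖(X l : Mt N) - (vc P Q l : Mt N)‖ ≤ ρ) :
    ∀ x ∈ pls Λ, ∀ y j, ‖(pt X x y j : Mt N) - (vac P Q y j : Mt N)‖ ≤ ρ := by
  intro x hx y j
  have h1 : ∀ i : Fin 4, (i = 2 ∨ i = 3) → ∀ a ∈ st (((x, y), i) : Lk L), a ∈ pls Λ := by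
    intro i hi a ha
    rw [mem_st] at ha
    have hpe : pe i = 0 := by rcases hi with rfl | rfl <;> simp [pe, h00]
    rw [hpe, add_zero, or_self] at ha
    rw [ha]
    exact hx
  fin_cases j
  · have := hX2 ((x, y), 2) (h1 2 (Or.inl rfl))
    simpa [pt, vc] using this
  · have := hX2 ((x, y), 3) (h1 3 (Or.inr rfl))
    simpa [pt, vc] using this

theorem det {k : ℕ} {E : Mt N → SU N} {CE CK CL C3 K1 : ℝ} (hCE : 0 ≤ CE) (hCK : 0 ≤ CK)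
    (hEn : ∀ M : Mt N, ‖pr M‖ ≤ ‖M‖)
    (hEe : ∀ g : SU N, ‖((g : Mt N) - 1) - pr ((g : Mt N) - 1)‖ ≤ CE * ‖(g : Mt N) - 1‖ ^ 2)
    (hK : ∀ (h : Lk L → Mt N) (ρ : ℝ) (X : Cf N L), 0 ≤ ρ → ρ ≤ 1 →
      (∀ l, h l ∈ su N ∧ ‖h l‖ ≤ ρ) →
      (∀ l, h l = 0 → TM P Q E h X l = X l) ∧
      (∀ l : Lk L, (∀ y j, ‖(pt X l.1.1 y j : Mt N) - (vac P Q y j : Mt N)‖ ≤ ρ) →
        (l.2 = 2 ∨ l.2 = 3 → ‖(X (l.1, 0) : Mt N) - 1‖ ≤ ρ ∧
          ∀ y j, ‖(pt X (l.1.1 + (1, 0)) y j : Mt N) - (vac P Q y j : Mt N)‖ ≤ ρ) →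
        ‖(TM P Q E h X l : Mt N) - (1 + h l) * (X l : Mt N)‖ ≤ CK * ρ ^ 2))
    (hL1 : ∀ (τ : Tm) (X : Cf N L) (a : Lk L → Mt N) (ρ : ℝ), 0 ≤ ρ → ρ ≤ 1 →
      (∀ l ∈ (spt τ : Finset (Lk L)), ‖a l‖ ≤ ρ ∧
        ‖(X l : Mt N) - (1 + a l) * (vc P Q l : Mt N)‖ ≤ ρ ^ 2) →
      |en1 k X τ - bf P Q τ a a / 2| ≤ CL * ρ ^ 3)
    (H : Frm P Q L C3) (hK1 : 3 ≤ K1) (hK1' : CK + 1 + 2 * CE ≤ K1)
    {Λ : Finset Pl} {ρ : ℝ} (hρ : 0 ≤ ρ) (hsm : K1 * ρ ≤ 1) {h : Lk L → Mt N}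
    (hm : ∀ l, h l ∈ su N) (hn : ∀ l, ‖h l‖ ≤ ρ) (h0 : ∀ l, l ∉ Frl L Λ → h l = 0)
    {X : Cf N L}
    (hX2 : ∀ l, (∀ a ∈ st l, a ∈ pls Λ) → ‖(X l : Mt N) - (vc P Q l : Mt N)‖ ≤ ρ) :
    (∀ l, (∀ a ∈ st l, a ∈ pls Λ) →
      ‖(TM P Q E h X l : Mt N) - (vc P Q l : Mt N)‖ ≤ (CK + 2) * ρ) ∧
    (∀ l, (∀ a ∈ st l, a ∈ pls Λ) → ‖xi P Q X l‖ ≤ ρ ∧ ‖xi P Q X l + h l‖ ≤ K1 * ρ ∧
      ‖(X l : Mt N) - (1 + xi P Q X l) * (vc P Q l : Mt N)‖ ≤ (K1 * ρ) ^ 2 ∧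
      ‖(TM P Q E h X l : Mt N) - (1 + (xi P Q X l + h l)) * (vc P Q l : Mt N)‖ ≤ (K1 * ρ) ^ 2) ∧
    |∑ τ ∈ tml Λ, (en1 k (TM P Q E h X) τ - en1 k X τ) -
      ∑ τ ∈ tml Λ, (bf P Q τ (xi P Q X) h + bf P Q τ h h / 2)| ≤
        (tml Λ).card * (2 * (CL * (K1 * ρ) ^ 3)) := by
  have hρ1 : ρ ≤ 1 := by nlinarith
  obtain ⟨hKa, hKb⟩ := hK h ρ X hρ hρ1 fun l => ⟨hm l, hn l⟩
  have hpt := pt_near (P := P) (Q := Q) hX2
  have hTM : ∀ l, (∀ a ∈ st l, a ∈ pls Λ) →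
      ‖(TM P Q E h X l : Mt N) - (1 + h l) * (X l : Mt N)‖ ≤ CK * ρ ^ 2 := by
    intro l hpl
    by_cases hl : l ∈ Frl L Λ
    · refine hKb l (hpt _ (hpl _ ((mem_st l _).2 (Or.inl rfl)))) fun h23 => ?_
      have hpe : pe l.2 = 0 := by rcases h23 with h | h <;> rw [h] <;> simp [pe, h00]
      have hx : l.1.1 ∈ Λ := by
        obtain ⟨a, ha, haΛ⟩ := (mem_Frl Λ l).1 hl
        rw [mem_st, hpe, add_zero, or_self] at ha
        rwa [← ha]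
      have hx1 : l.1.1 + (1, 0) ∈ pls Λ := near_pls hx (by unfold near; simp)
      have hx0 : l.1.1 ∈ pls Λ := near_pls hx (by unfold near; simp)
      refine ⟨?_, hpt _ hx1⟩
      have h1 : ∀ a ∈ st ((l.1, 0) : Lk L), a ∈ pls Λ := by
        intro a ha
        rw [mem_st] at ha
        rcases ha with rfl | rfl
        · exact hx0
        · simpa [pe] using hx1
      have := hX2 (l.1, 0) h1
      simpa [vc] using this
    · rw [hKa l (h0 l hl), h0 l hl, add_zero, Matrix.one_mul, sub_self, norm_zero]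
      positivity
  have hxn : ∀ l, (∀ a ∈ st l, a ∈ pls Λ) → ‖xi P Q X l‖ ≤ ρ := fun l hl =>
    (xi_norm hEn P Q X l).trans (hX2 l hl)
  have hxe : ∀ l, (∀ a ∈ st l, a ∈ pls Λ) →
      ‖(X l : Mt N) - (1 + xi P Q X l) * (vc P Q l : Mt N)‖ ≤ CE * ρ ^ 2 := fun l hl =>
    (xi_err hEe P Q X l).trans (mul_le_mul_of_nonneg_left
      (pow_le_pow_left₀ (norm_nonneg _) (hX2 l hl) 2) hCE)
  have hρsq0 : 0 ≤ ρ ^ 2 := sq_nonneg _
  have hK1sq : CK + 1 + 2 * CE ≤ K1 ^ 2 := by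
    have : K1 * 1 ≤ K1 * K1 := mul_le_mul_of_nonneg_left (by linarith) (by linarith)
    rw [sq]
    linarith
  have h3K : 3 * ρ ≤ K1 * ρ := mul_le_mul_of_nonneg_right hK1 hρ
  have hlist : ∀ l, (∀ a ∈ st l, a ∈ pls Λ) → ‖xi P Q X l‖ ≤ ρ ∧ ‖xi P Q X l + h l‖ ≤ K1 * ρ ∧
      ‖(X l : Mt N) - (1 + xi P Q X l) * (vc P Q l : Mt N)‖ ≤ (K1 * ρ) ^ 2 ∧
      ‖(TM P Q E h X l : Mt N) - (1 + (xi P Q X l + h l)) * (vc P Q l : Mt N)‖ ≤
        (K1 * ρ) ^ 2 := by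
    intro l hl
    refine ⟨hxn l hl, ?_, ?_, ?_⟩
    · have h1 := hxn l hl
      have h2 := hn l
      have := norm_add_le (xi P Q X l) (h l)
      linarith
    · refine (hxe l hl).trans ?_
      rw [mul_pow]
      exact mul_le_mul_of_nonneg_right (by linarith) hρsq0
    · rw [mul_pow]
      have e : (TM P Q E h X l : Mt N) - (1 + (xi P Q X l + h l)) * (vc P Q l : Mt N) =
          ((TM P Q E h X l : Mt N) - (1 + h l) * (X l : Mt N)) +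
          ((((X l : Mt N) - (1 + xi P Q X l) * (vc P Q l : Mt N)) +
          h l * ((X l : Mt N) - (1 + xi P Q X l) * (vc P Q l : Mt N))) +
          h l * xi P Q X l * (vc P Q l : Mt N)) := by
        noncomm_ring
      rw [e]
      have h1 := hTM l hl
      have h2 := hxe l hl
      have h3 : ‖h l * ((X l : Mt N) - (1 + xi P Q X l) * (vc P Q l : Mt N))‖ ≤
          CE * ρ ^ 2 := by
        refine (norm_mul_le _ _).trans ?_
        calc _ ≤ 1 * (CE * ρ ^ 2) := mul_le_mul ((hn l).trans hρ1) h2 (norm_nonneg _)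
              zero_le_one
          _ = _ := one_mul _
      have h4 : ‖h l * xi P Q X l * (vc P Q l : Mt N)‖ ≤ ρ ^ 2 := by
        rw [PkgE.norm_mul_su]
        refine (norm_mul_le _ _).trans ?_
        rw [sq]
        exact mul_le_mul (hn l) (hxn l hl) (norm_nonneg _) hρ
      calc _ ≤ CK * ρ ^ 2 + ((CE * ρ ^ 2 + CE * ρ ^ 2) + ρ ^ 2) :=
            (norm_add_le _ _).trans (add_le_add h1 ((norm_add_le _ _).trans
              (add_le_add ((norm_add_le _ _).trans (add_le_add h2 h3)) h4)))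
        _ = (CK + 1 + 2 * CE) * ρ ^ 2 := by ring
        _ ≤ K1 ^ 2 * ρ ^ 2 := mul_le_mul_of_nonneg_right hK1sq hρsq0
  refine ⟨fun l hl => ?_, hlist, ?_⟩
  · have e : (TM P Q E h X l : Mt N) - (vc P Q l : Mt N) =
        ((TM P Q E h X l : Mt N) - (1 + h l) * (X l : Mt N)) +
        (h l * (X l : Mt N) + ((X l : Mt N) - (vc P Q l : Mt N))) := by
      rw [add_mul, Matrix.one_mul]; abel
    rw [e]
    have h1 := hTM l hl
    have h2 : ‖h l * (X l : Mt N)‖ ≤ ρ := by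
      rw [PkgE.norm_mul_su]; exact hn l
    have h3 := hX2 l hl
    have h4 : CK * ρ ^ 2 ≤ CK * ρ := by
      refine mul_le_mul_of_nonneg_left ?_ hCK
      nlinarith
    calc _ ≤ CK * ρ ^ 2 + (ρ + ρ) :=
          (norm_add_le _ _).trans (add_le_add h1 ((norm_add_le _ _).trans (add_le_add h2 h3)))
      _ ≤ (CK + 2) * ρ := by linarith
  · have hKρ0 : 0 ≤ K1 * ρ := by positivity
    rw [← Finset.sum_sub_distrib]
    refine (Finset.abs_sum_le_sum_abs _ _).trans ?_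
    rw [← nsmul_eq_mul]
    refine Finset.sum_le_card_nsmul _ _ _ fun τ hτ => ?_
    have hpl : ∀ l ∈ (spt τ : Finset (Lk L)), ∀ a ∈ st l, a ∈ pls Λ := fun l hl => spt_pls hτ hl
    have hA : |en1 k X τ - bf P Q τ (xi P Q X) (xi P Q X) / 2| ≤ CL * (K1 * ρ) ^ 3 := by
      refine hL1 τ X _ _ hKρ0 hsm fun l hl => ⟨?_, (hlist l (hpl l hl)).2.2.1⟩
      have := (hlist l (hpl l hl)).1
      linarith
    have hB : |en1 k (TM P Q E h X) τ - bf P Q τ (fun l => xi P Q X l + h l)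
        (fun l => xi P Q X l + h l) / 2| ≤ CL * (K1 * ρ) ^ 3 :=
      hL1 τ _ _ _ hKρ0 hsm fun l hl => ⟨(hlist l (hpl l hl)).2.1, (hlist l (hpl l hl)).2.2.2⟩
    have e1 : bf P Q τ (fun l => xi P Q X l + h l) (fun l => xi P Q X l + h l) =
        bf P Q τ (xi P Q X) (xi P Q X) + 2 * bf P Q τ (xi P Q X) h + bf P Q τ h h := by
      rw [H.add τ (xi P Q X) h, H.add' τ (xi P Q X) h, H.add' τ (xi P Q X) h,
        H.comm τ h (xi P Q X)]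
      ring
    rw [e1] at hB
    rw [abs_le] at hA hB ⊢
    constructor <;> linarith [hA.1, hA.2, hB.1, hB.2]

/-! ### the mode -/

lemma abs_sum_ip {a F : Tor L → Mt N} {r : ℝ} (hr : 0 ≤ r) (ha : ∀ y, ‖a y‖ ≤ r)
    (hF : ∀ y, ‖F y‖ ≤ 1) : |∑ y, ip (a y) (F y)| ≤ (L : ℝ) ^ 2 * (N * r) := by
  refine (Finset.abs_sum_le_sum_abs _ _).trans ?_
  calc ∑ y, |ip (a y) (F y)| ≤ ∑ _y : Tor L, (N : ℝ) * r := by
        refine Finset.sum_le_sum fun y _ => (PkgLL.abs_ip _ _).trans ?_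
        refine mul_le_mul_of_nonneg_left ?_ (Nat.cast_nonneg N)
        calc ‖a y‖ * ‖F y‖ ≤ r * 1 := mul_le_mul (ha y) (hF y) (norm_nonneg _) hr
          _ = r := mul_one r
    _ = (L : ℝ) ^ 2 * (N * r) := by
        rw [Finset.sum_const, nsmul_eq_mul, Finset.card_univ, PkgM0u.card_tor]

lemma F_le {F : Tor L → Mt N} (h : ∑ y, ‖F y‖ ^ 2 = 1) (y : Tor L) : ‖F y‖ ≤ 1 := by
  have h1 : ‖F y‖ ^ 2 ≤ 1 := by
    rw [← h]
    exact Finset.single_le_sum (f := fun y => ‖F y‖ ^ 2) (fun _ _ => by positivity)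
      (Finset.mem_univ y)
  nlinarith [norm_nonneg (F y)]

lemma shm_su {F : Tor L → Mt N} (hF : ∀ y, F y ∈ su N) (s : ℝ) (ψ : Pl → ℝ) (l : Lk L) :
    shm s ψ F l ∈ su N := by
  unfold shm
  split_ifs
  · obtain ⟨h1, h2⟩ := hF l.1.2
    refine ⟨?_, ?_⟩
    · rw [conjTranspose_smul, h1, Complex.star_def, Complex.conj_ofReal, smul_neg]
    · rw [trace_smul, h2, smul_zero]
  · exact su_zero

lemma shm_norm {F : Tor L → Mt N} (hF : ∀ y, ‖F y‖ ≤ 1) {s : ℝ} (hs : 0 ≤ s) {ψ : Pl → ℝ}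
    (hψ : ∀ x, |ψ x| ≤ 1) (l : Lk L) : ‖shm s ψ F l‖ ≤ s := by
  unfold shm
  split_ifs
  · rw [norm_smul, Complex.norm_real, Real.norm_eq_abs, abs_mul, abs_of_nonneg hs]
    have h1 : s * |ψ l.1.1| ≤ s * 1 := mul_le_mul_of_nonneg_left (hψ _) hs
    calc s * |ψ l.1.1| * ‖F l.1.2‖ ≤ (s * 1) * 1 :=
          mul_le_mul h1 (hF _) (norm_nonneg _) (by linarith)
      _ = s := by ring
  · rw [norm_zero]; exact hs

lemma shm_off {F : Tor L → Mt N} {s : ℝ} {Λ : Finset Pl} {ψ : Pl → ℝ}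
    (hψ : ∀ x, ψ x ≠ 0 → Nb 1 x ⊆ Λ) (l : Lk L) (hl : l ∉ Frl L Λ) : shm s ψ F l = 0 := by
  unfold shm
  split_ifs with h
  · by_cases h1 : ψ l.1.1 = 0
    · rw [h1, mul_zero, Complex.ofReal_zero, zero_smul]
    · exfalso
      refine hl ((mem_Frl _ _).2 ⟨l.1.1, (mem_st _ _).2 (Or.inl rfl), hψ _ h1 ?_⟩)
      exact (PkgM1.mem_Nb1 _ _).2 (by unfold near; simp)
  · rfl

lemma shm_one (F : Tor L → Mt N) (s : ℝ) (ψ : Pl → ℝ) :
    shm 1 (fun x => s * ψ x) F = (shm s ψ F : Lk L → Mt N) := by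
  funext l
  unfold shm
  split_ifs
  · rw [one_mul]
  · rfl

lemma lap_le {ψ : Pl → ℝ} (hψ : ∀ x, |ψ x| ≤ 1) (x : Pl) : |lap ψ x| ≤ 8 := by
  unfold lap
  have h1 := abs_le.1 (hψ x)
  have h2 := abs_le.1 (hψ (x + (1, 0)))
  have h3 := abs_le.1 (hψ (x - (1, 0)))
  have h4 := abs_le.1 (hψ (x + (0, 1)))
  have h5 := abs_le.1 (hψ (x - (0, 1)))
  rw [abs_le]
  constructor <;> linarith [h1.1, h1.2, h2.1, h2.2, h3.1, h3.2, h4.1, h4.2, h5.1, h5.2]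

lemma mu2_le (N L : ℕ) : 0 ≤ mu2 N L ∧ mu2 N L ≤ 4 := by
  unfold mu2
  have h1 := Real.sin_sq_le_one (Real.pi / (N * L))
  have h2 := sq_nonneg (Real.sin (Real.pi / (N * L)))
  constructor <;> linarith

/-- the coefficients of the observable -/
def cf (N L : ℕ) (ψ : Pl → ℝ) (x : Pl) : ℝ := lap ψ x + mu2 N L * ψ x

lemma cf_le {ψ : Pl → ℝ} (hψ : ∀ x, |ψ x| ≤ 1) (x : Pl) : |cf N L ψ x| ≤ 12 := by
  unfold cf
  have h1 := lap_le hψ x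
  obtain ⟨h2, h3⟩ := mu2_le N L
  calc _ ≤ |lap ψ x| + |mu2 N L * ψ x| := abs_add_le _ _
    _ ≤ 8 + 4 * 1 := by
        rw [abs_mul, abs_of_nonneg h2]
        exact add_le_add h1 (mul_le_mul h3 (hψ x) (abs_nonneg _) (by norm_num))
    _ = 12 := by norm_num

/-- the source of the observable -/
def Qf (ψ : Pl → ℝ) (G : Ph N L → ℝ) (Λ : Finset Pl) (X : Cf N L) : ℝ :=
  ∑ x ∈ Λ, cf N L ψ x * G (pt X x)

lemma obs_eq (ψ : Pl → ℝ) (G : Ph N L → ℝ) (Λ : Finset Pl) (b : Pl) (X : Cf N L) :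
    obs ψ G Λ b X = G (pt X b) * Qf ψ G Λ X := rfl

lemma sum_cf {ψ : Pl → ℝ} (hψ : ∀ x, |ψ x| ≤ 1) {Λ : Finset Pl} {v : Pl → ℝ} {r : ℝ}
    (hv : ∀ x ∈ Λ, |v x| ≤ r) : |∑ x ∈ Λ, cf N L ψ x * v x| ≤ Λ.card * (12 * r) := by
  refine (Finset.abs_sum_le_sum_abs _ _).trans ?_
  rw [← nsmul_eq_mul]
  refine Finset.sum_le_card_nsmul _ _ _ fun x hx => ?_
  rw [abs_mul]
  exact mul_le_mul (cf_le hψ x) (hv x hx) (abs_nonneg _) (by norm_num)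

/-- expansions for the shift by the mode, near the vacuum -/
theorem det2 {k : ℕ} {E : Mt N → SU N} {CE CK CL C3 K1 CG D1 : ℝ} (hCE : 0 ≤ CE) (hCK : 0 ≤ CK)
    (hCL : 0 ≤ CL) (hC3 : 0 ≤ C3)
    (hEm : ∀ M : Mt N, pr M ∈ su N) (hEn : ∀ M : Mt N, ‖pr M‖ ≤ ‖M‖)
    (hEe : ∀ g : SU N, ‖((g : Mt N) - 1) - pr ((g : Mt N) - 1)‖ ≤ CE * ‖(g : Mt N) - 1‖ ^ 2)
    (hK : ∀ (h : Lk L → Mt N) (ρ : ℝ) (X : Cf N L), 0 ≤ ρ → ρ ≤ 1 →
      (∀ l, h l ∈ su N ∧ ‖h l‖ ≤ ρ) →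
      (∀ l, h l = 0 → TM P Q E h X l = X l) ∧
      (∀ l : Lk L, (∀ y j, ‖(pt X l.1.1 y j : Mt N) - (vac P Q y j : Mt N)‖ ≤ ρ) →
        (l.2 = 2 ∨ l.2 = 3 → ‖(X (l.1, 0) : Mt N) - 1‖ ≤ ρ ∧
          ∀ y j, ‖(pt X (l.1.1 + (1, 0)) y j : Mt N) - (vac P Q y j : Mt N)‖ ≤ ρ) →
        ‖(TM P Q E h X l : Mt N) - (1 + h l) * (X l : Mt N)‖ ≤ CK * ρ ^ 2))
    (hL1 : ∀ (τ : Tm) (X : Cf N L) (a : Lk L → Mt N) (ρ : ℝ), 0 ≤ ρ → ρ ≤ 1 →
      (∀ l ∈ (spt τ : Finset (Lk L)), ‖a l‖ ≤ ρ ∧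
        ‖(X l : Mt N) - (1 + a l) * (vc P Q l : Mt N)‖ ≤ ρ ^ 2) →
      |en1 k X τ - bf P Q τ a a / 2| ≤ CL * ρ ^ 3)
    (H : Frm P Q L C3) (hK1 : 3 ≤ K1) (hK1' : CK + 1 + 2 * CE ≤ K1)
    {F : Tor L → Mt N} {G : Ph N L → ℝ} (hMod : Mod N L P Q CG F G)
    (hT1 : ∀ (Λ : Finset Pl) (ψ : Pl → ℝ), (∀ x, ψ x ≠ 0 → Nb 1 x ⊆ Λ) →
      ∀ a : Lk L → Mt N, (∀ l, a l ∈ su N) →
        ∑ τ ∈ tml Λ, bf P Q τ a (shm 1 ψ F) =
          ∑ x ∈ Λ, (lap ψ x + mu2 N L * ψ x) * ∑ y : Tor L, ip (a ((x, y), 2)) (F y))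
    (hD1 : D1 = 32 * CL * K1 ^ 3 + 8 * C3 + 12 * CG * K1 ^ 2 + (L : ℝ) ^ 2 * N)
    {Λ : Finset Pl} {ρ s : ℝ} (hρ : 0 ≤ ρ) (hsm : K1 * ρ ≤ 1) (hs : 0 ≤ s) (hsρ : s ^ 2 = ρ ^ 3)
    {ψ : Pl → ℝ} (hψ : ∀ x, |ψ x| ≤ 1) (hψ2 : ∀ x, ψ x ≠ 0 → Nb 1 x ⊆ Λ)
    {X : Cf N L}
    (hX2 : ∀ l, (∀ a ∈ st l, a ∈ pls Λ) → ‖(X l : Mt N) - (vc P Q l : Mt N)‖ ≤ ρ) :
    (∀ l, (∀ a ∈ st l, a ∈ pls Λ) →
      ‖(TM P Q E (shm s ψ F) X l : Mt N) - (vc P Q l : Mt N)‖ ≤ (CK + 2) * ρ) ∧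
    |∑ τ ∈ tml Λ, (en1 k (TM P Q E (shm s ψ F) X) τ - en1 k X τ) - s * Qf ψ G Λ X| ≤
      Λ.card * (D1 * ρ ^ 3) ∧
    (∀ b ∈ Λ, |G (pt (TM P Q E (shm s ψ F) X) b) - G (pt X b) - s * ψ b| ≤ D1 * ρ ^ 2) ∧
    (∀ x ∈ Λ, |G (pt X x)| ≤ D1 * ρ) := by
  obtain ⟨hFs, hF1, hF0, hFe, hGc, hGg, hGb, hGz, hGl⟩ := hMod
  have hCG : 0 ≤ CG := (abs_nonneg _).trans (hGb fun _ _ => 1)
  have hρ1 : ρ ≤ 1 := by nlinarith
  have hsle : s ≤ ρ := by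
    have h1 : s ^ 2 ≤ ρ ^ 2 := by
      rw [hsρ, pow_succ ρ 2]
      exact mul_le_of_le_one_right (sq_nonneg _) hρ1
    exact (sq_le_sq₀ hs hρ).1 h1
  have hFn := F_le hF1
  obtain ⟨h, hh⟩ : ∃ h : Lk L → Mt N, h = shm s ψ F := ⟨_, rfl⟩
  rw [← hh]
  have hhm : ∀ l, h l ∈ su N := fun l => by rw [hh]; exact shm_su hFs s ψ l
  have hhn : ∀ l, ‖h l‖ ≤ s := fun l => by rw [hh]; exact shm_norm hFn hs hψ l
  obtain ⟨d1, d2, d3⟩ := det (CL := CL) hCE hCK hEn hEe hK hL1 H hK1 hK1' hρ hsm hhm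
    (fun l => (hhn l).trans hsle) (fun l hl => by rw [hh]; exact shm_off hψ2 l hl) hX2
  -- the torus components
  have hself : ∀ x ∈ Λ, x ∈ pls Λ := fun x hx => near_pls hx (by unfold near; simp)
  have htor : ∀ x ∈ Λ, ∀ (y : Tor L) (i : Fin 4), (i = 2 ∨ i = 3) →
      ∀ a ∈ st (((x, y), i) : Lk L), a ∈ pls Λ := by
    intro x hx y i hi a ha
    rw [mem_st] at ha
    have hpe : pe i = 0 := by rcases hi with rfl | rfl <;> simp [pe, h00]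
    rw [hpe, add_zero, or_self] at ha
    rw [ha]
    exact hself x hx
  obtain ⟨g, hg⟩ : ∃ g : Pl → ℝ, g = fun x => ∑ y : Tor L, ip (xi P Q X ((x, y), 2)) (F y) :=
    ⟨_, rfl⟩
  have hKρ0 : 0 ≤ K1 * ρ := by positivity
  have hG1 : ∀ x ∈ Λ, |G (pt X x) - g x| ≤ CG * (K1 * ρ) ^ 2 := by
    intro x hx
    have := hGl (pt X x) (fun y j => xi P Q X ((x, y), if j = 0 then 2 else 3)) (K1 * ρ) hKρ0 hsm
      (fun y j => by
        fin_cases j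
        · obtain ⟨r1, r2, r3, r4⟩ := d2 ((x, y), 2) (htor x hx y 2 (Or.inl rfl))
          refine ⟨by simpa using r1.trans (by nlinarith), ?_⟩
          simpa [pt, vc] using r3
        · obtain ⟨r1, r2, r3, r4⟩ := d2 ((x, y), 3) (htor x hx y 3 (Or.inr rfl))
          refine ⟨by simpa using r1.trans (by nlinarith), ?_⟩
          simpa [pt, vc] using r3)
    rw [hg]
    simpa using this
  have hG2 : ∀ x ∈ Λ, |G (pt (TM P Q E h X) x) - (g x + s * ψ x)| ≤ CG * (K1 * ρ) ^ 2 := by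
    intro x hx
    have h1 := hGl (pt (TM P Q E h X) x)
      (fun y j => xi P Q X ((x, y), if j = 0 then 2 else 3) + h ((x, y), if j = 0 then 2 else 3))
      (K1 * ρ) hKρ0 hsm
      (fun y j => by
        fin_cases j
        · obtain ⟨r1, r2, r3, r4⟩ := d2 ((x, y), 2) (htor x hx y 2 (Or.inl rfl))
          refine ⟨by simpa using r2, ?_⟩
          simpa [pt, vc] using r4
        · obtain ⟨r1, r2, r3, r4⟩ := d2 ((x, y), 3) (htor x hx y 3 (Or.inr rfl))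
          refine ⟨by simpa using r2, ?_⟩
          simpa [pt, vc] using r4)
    have h2 : ∑ y : Tor L, ip (xi P Q X ((x, y), 2) + h ((x, y), 2)) (F y) = g x + s * ψ x := by
      rw [hg]
      dsimp only
      have h3 : ∀ y : Tor L, ip (xi P Q X ((x, y), 2) + h ((x, y), 2)) (F y) =
          ip (xi P Q X ((x, y), 2)) (F y) + s * ψ x * ‖F y‖ ^ 2 := by
        intro y
        rw [PkgLL.ip_add]
        congr 1
        have h4 : h ((x, y), 2) = ((s * ψ x : ℝ) : ℂ) • F y := by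
          rw [hh]; unfold shm; simp
        rw [h4, ← PkgLL.ip_self]
        unfold ip
        rw [conjTranspose_smul, Matrix.smul_mul, trace_smul, Complex.star_def, Complex.conj_ofReal,
          smul_eq_mul, Complex.re_ofReal_mul]
      rw [Finset.sum_congr rfl fun y _ => h3 y, Finset.sum_add_distrib, ← Finset.mul_sum, hF1,
        mul_one]
    simp only [if_true] at h1
    rw [h2] at h1
    exact h1
  have hgle : ∀ x ∈ Λ, |g x| ≤ (L : ℝ) ^ 2 * (N * ρ) := by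
    intro x hx
    rw [hg]
    exact abs_sum_ip hρ (fun y => (d2 ((x, y), 2) (htor x hx y 2 (Or.inl rfl))).1) hFn
  -- constants
  have hCLK : 0 ≤ 32 * CL * K1 ^ 3 := by positivity
  have hCGK : 0 ≤ CG * K1 ^ 2 := by positivity
  have hLN : 0 ≤ (L : ℝ) ^ 2 * N := by positivity
  refine ⟨d1, ?_, ?_, ?_⟩
  · -- energies
    have hxis : ∀ l, xi P Q X l ∈ su N := fun l => hEm _
    have hbf : ∑ τ ∈ tml Λ, bf P Q τ (xi P Q X) h = s * ∑ x ∈ Λ, cf N L ψ x * g x := by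
      have h1 := hT1 Λ (fun x => s * ψ x) (fun x hx => hψ2 x fun h0 => hx (by rw [h0, mul_zero]))
        (xi P Q X) hxis
      rw [shm_one, ← hh] at h1
      rw [h1, Finset.mul_sum]
      refine Finset.sum_congr rfl fun x _ => ?_
      rw [hg]
      unfold lap cf lap
      ring
    have hcard : ((tml Λ).card : ℝ) ≤ 16 * Λ.card := by exact_mod_cast PkgM0.card_tml Λ
    have hbb : |∑ τ ∈ tml Λ, bf P Q τ h h / 2| ≤ (tml Λ).card * (C3 * s * s / 2) := by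
      refine (Finset.abs_sum_le_sum_abs _ _).trans ?_
      rw [← nsmul_eq_mul]
      refine Finset.sum_le_card_nsmul _ _ _ fun τ hτ => ?_
      rw [abs_div, abs_two]
      exact div_le_div_of_nonneg_right (H.bd τ h h s s hs hs fun l _ => ⟨hhn l, hhn l⟩)
        (by norm_num)
    have hQ : |Qf ψ G Λ X - ∑ x ∈ Λ, cf N L ψ x * g x| ≤ Λ.card * (12 * (CG * (K1 * ρ) ^ 2)) := by
      unfold Qf
      rw [← Finset.sum_sub_distrib]
      have := sum_cf (N := N) (L := L) (v := fun x => G (pt X x) - g x) hψ hG1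
      refine le_trans (le_of_eq ?_) this
      congr 1
      refine Finset.sum_congr rfl fun x _ => ?_
      ring
    rw [Finset.sum_add_distrib (f := fun τ => bf P Q τ (xi P Q X) h), hbf] at d3
    have e : ∑ τ ∈ tml Λ, (en1 k (TM P Q E h X) τ - en1 k X τ) - s * Qf ψ G Λ X =
        (∑ τ ∈ tml Λ, (en1 k (TM P Q E h X) τ - en1 k X τ) -
          (s * ∑ x ∈ Λ, cf N L ψ x * g x + ∑ τ ∈ tml Λ, bf P Q τ h h / 2)) +
        ∑ τ ∈ tml Λ, bf P Q τ h h / 2 - s * (Qf ψ G Λ X - ∑ x ∈ Λ, cf N L ψ x * g x) := by ring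
    rw [e]
    have hsQ : |s * (Qf ψ G Λ X - ∑ x ∈ Λ, cf N L ψ x * g x)| ≤
        ρ * (Λ.card * (12 * (CG * (K1 * ρ) ^ 2))) := by
      rw [abs_mul, abs_of_nonneg hs]
      exact mul_le_mul hsle hQ (abs_nonneg _) hρ
    have hn0 : (0 : ℝ) ≤ Λ.card := Nat.cast_nonneg _
    have hρ3 : 0 ≤ ρ ^ 3 := by positivity
    have t1 : (tml Λ).card * (2 * (CL * (K1 * ρ) ^ 3)) ≤
        (16 * Λ.card) * (2 * (CL * (K1 * ρ) ^ 3)) :=
      mul_le_mul_of_nonneg_right hcard (by positivity)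
    have t2 : (tml Λ).card * (C3 * s * s / 2) ≤ (16 * Λ.card) * (C3 * s * s / 2) :=
      mul_le_mul_of_nonneg_right hcard (by positivity)
    have t3 : C3 * s * s = C3 * ρ ^ 3 := by rw [mul_assoc, ← sq, hsρ]
    rw [t3] at t2
    rw [t3] at hbb
    have t4 : 0 ≤ Λ.card * (((L : ℝ) ^ 2 * N) * ρ ^ 3) := by positivity
    calc _ ≤ |∑ τ ∈ tml Λ, (en1 k (TM P Q E h X) τ - en1 k X τ) -
          (s * ∑ x ∈ Λ, cf N L ψ x * g x + ∑ τ ∈ tml Λ, bf P Q τ h h / 2)| +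
          |∑ τ ∈ tml Λ, bf P Q τ h h / 2| +
          |s * (Qf ψ G Λ X - ∑ x ∈ Λ, cf N L ψ x * g x)| :=
          (abs_sub _ _).trans (add_le_add (abs_add_le _ _) le_rfl)
      _ ≤ (16 * Λ.card) * (2 * (CL * (K1 * ρ) ^ 3)) + (16 * Λ.card) * (C3 * ρ ^ 3 / 2) +
          ρ * (Λ.card * (12 * (CG * (K1 * ρ) ^ 2))) := by linarith
      _ = Λ.card * ((32 * CL * K1 ^ 3 + 8 * C3 + 12 * CG * K1 ^ 2) * ρ ^ 3) := by ring
      _ ≤ Λ.card * ((32 * CL * K1 ^ 3 + 8 * C3 + 12 * CG * K1 ^ 2) * ρ ^ 3) +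
          Λ.card * (((L : ℝ) ^ 2 * N) * ρ ^ 3) := by linarith
      _ = _ := by rw [hD1]; ring
  · intro b hb
    have h1 := hG1 b hb
    have h2 := hG2 b hb
    have e : G (pt (TM P Q E h X) b) - G (pt X b) - s * ψ b =
        (G (pt (TM P Q E h X) b) - (g b + s * ψ b)) - (G (pt X b) - g b) := by ring
    rw [e]
    have h3 : 2 * (CG * K1 ^ 2) ≤ D1 := by rw [hD1]; linarith
    calc _ ≤ CG * (K1 * ρ) ^ 2 + CG * (K1 * ρ) ^ 2 := (abs_sub _ _).trans (add_le_add h2 h1)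
      _ = (2 * (CG * K1 ^ 2)) * ρ ^ 2 := by ring
      _ ≤ D1 * ρ ^ 2 := mul_le_mul_of_nonneg_right h3 (sq_nonneg _)
  · intro x hx
    have h1 := hG1 x hx
    have h2 := hgle x hx
    have e : G (pt X x) = (G (pt X x) - g x) + g x := by ring
    rw [e]
    have h3 : CG * K1 ^ 2 + (L : ℝ) ^ 2 * N ≤ D1 := by rw [hD1]; linarith
    have h4 : ρ ^ 2 ≤ ρ := by nlinarith
    calc _ ≤ CG * (K1 * ρ) ^ 2 + (L : ℝ) ^ 2 * (N * ρ) := (abs_add_le _ _).trans (add_le_add h1 h2)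
      _ = (CG * K1 ^ 2) * ρ ^ 2 + ((L : ℝ) ^ 2 * N) * ρ := by ring
      _ ≤ (CG * K1 ^ 2) * ρ + ((L : ℝ) ^ 2 * N) * ρ := by
          have := mul_le_mul_of_nonneg_left h4 hCGK
          linarith
      _ = (CG * K1 ^ 2 + (L : ℝ) ^ 2 * N) * ρ := by ring
      _ ≤ D1 * ρ := mul_le_mul_of_nonneg_right h3 hρ

end T2H02.TT.PkgUI

namespace T2H02.TT.PkgUI

open T2H02.TT T2H02.TT.PkgM1

/-! ### arithmetic of the error terms -/

lemma arith {C D1 n N' β θ x₀ x₁ p p' M : ℝ} (hn : 1 ≤ n) (hN : 0 ≤ N') (hβ : 1 ≤ β)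
    (hθ : 0 < θ) (hθ1 : θ ≤ 1) (hβθ : 1 ≤ β * θ ^ 4) (hD : 1 ≤ D1) (hp : 0 ≤ p) (hpp : p ≤ p')
    (hx : 0 ≤ x₀) (hxx : x₀ ≤ x₁) (hM : 0 ≤ M)
    (k7 : 4 * D1 ^ 2 + 576 * D1 ^ 3 + 15 * D1 ≤ C) (k8 : 64 * D1 * N' ≤ C)
    (k9 : 5 * M + 4 + 48 * M ^ 2 ≤ C) :
    (D1 * θ ^ 2 + θ ^ 3) * (2 * (β * (n * (D1 * θ ^ 6)) + 16 * n * N' * x₀) +
        2 * (β * θ ^ 3 * (n * (12 * (D1 * θ ^ 2)))) ^ 2) + 3 * (D1 * θ ^ 4) +
        θ ^ 3 * (β * θ ^ 3 * (n * (12 * (D1 * θ ^ 2)))) +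
        (5 * M + 4 * θ ^ 3 + 4 * (β * θ ^ 3 * (M * (n * (12 * M))))) * p ≤
      θ ^ 3 * (C * n ^ 2 * (β ^ 2 * θ ^ 9 + β ^ 2 * (p' + x₁))) := by
  have hn0 : 0 ≤ n := by linarith
  have hβ0 : 0 ≤ β := by linarith
  have hD0 : 0 ≤ D1 := by linarith
  have hθ0 : 0 ≤ θ := hθ.le
  have hnn : n ≤ n ^ 2 := by nlinarith
  have hn2 : 1 ≤ n ^ 2 := by nlinarith
  have hββ : β ≤ β ^ 2 := by nlinarith
  have q1 : θ ≤ β * θ ^ 5 := by
    have := mul_le_mul_of_nonneg_right hβθ hθ0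
    calc θ = 1 * θ := (one_mul θ).symm
      _ ≤ β * θ ^ 4 * θ := this
      _ = β * θ ^ 5 := by ring
  have q2 : β * θ ^ 5 ≤ β ^ 2 * θ ^ 9 := by
    have h0 : 0 ≤ β * θ ^ 5 := by positivity
    have := mul_le_mul_of_nonneg_right hβθ h0
    calc β * θ ^ 5 = 1 * (β * θ ^ 5) := (one_mul _).symm
      _ ≤ β * θ ^ 4 * (β * θ ^ 5) := this
      _ = _ := by ring
  have q3 : 1 ≤ β * θ := by
    refine hβθ.trans (mul_le_mul_of_nonneg_left ?_ hβ0)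
    exact pow_le_of_le_one hθ0 hθ1 (by norm_num)
  have q4 : 1 ≤ β * θ ^ 3 := by
    refine hβθ.trans (mul_le_mul_of_nonneg_left ?_ hβ0)
    exact pow_le_pow_of_le_one hθ0 hθ1 (by norm_num)
  have q5 : 1 ≤ β ^ 2 * θ := by nlinarith
  have q6 : 1 ≤ β ^ 2 * θ ^ 3 := by nlinarith [pow_pos hθ 3]
  have hθ3 : D1 * θ ^ 2 + θ ^ 3 ≤ 2 * (D1 * θ ^ 2) := by
    have h1 : θ ^ 3 ≤ θ ^ 2 := pow_le_pow_of_le_one hθ0 hθ1 (by norm_num)
    have h2 : 1 * θ ^ 2 ≤ D1 * θ ^ 2 := mul_le_mul_of_nonneg_right hD (sq_nonneg _)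
    linarith
  obtain ⟨Y, hY⟩ : ∃ Y, Y = β ^ 2 * θ ^ 9 := ⟨_, rfl⟩
  have hY0 : 0 ≤ Y := by rw [hY]; positivity
  rw [← hY] at q2 ⊢
  have r1 : n * (β * θ ^ 5) ≤ n ^ 2 * Y := mul_le_mul hnn q2 (by positivity) (by positivity)
  have r2 : θ ≤ n ^ 2 * Y := by
    calc θ ≤ Y := q1.trans q2
      _ = 1 * Y := (one_mul Y).symm
      _ ≤ n ^ 2 * Y := mul_le_mul_of_nonneg_right hn2 hY0
  have r3 : n * (θ ^ 2 * x₀) ≤ θ ^ 3 * (n ^ 2 * (β ^ 2 * x₀)) := by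
    have h1 : θ ^ 2 * 1 ≤ θ ^ 2 * (β ^ 2 * θ) := mul_le_mul_of_nonneg_left q5 (sq_nonneg _)
    have h2 : θ ^ 2 * x₀ ≤ θ ^ 3 * (β ^ 2 * x₀) := by
      calc θ ^ 2 * x₀ = θ ^ 2 * 1 * x₀ := by ring
        _ ≤ θ ^ 2 * (β ^ 2 * θ) * x₀ := mul_le_mul_of_nonneg_right h1 hx
        _ = _ := by ring
    calc n * (θ ^ 2 * x₀) ≤ n ^ 2 * (θ ^ 3 * (β ^ 2 * x₀)) :=
          mul_le_mul hnn h2 (by positivity) (by positivity)
      _ = _ := by ring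
  have r4 : p ≤ θ ^ 3 * (n ^ 2 * (β ^ 2 * p)) := by
    have h1 : 1 * p ≤ β ^ 2 * θ ^ 3 * p := mul_le_mul_of_nonneg_right q6 hp
    have h2 : 0 ≤ β ^ 2 * θ ^ 3 * p := by positivity
    calc p = 1 * p := (one_mul p).symm
      _ ≤ 1 * (β ^ 2 * θ ^ 3 * p) := by linarith
      _ ≤ n ^ 2 * (β ^ 2 * θ ^ 3 * p) := mul_le_mul_of_nonneg_right hn2 h2
      _ = _ := by ring
  have r5 : p ≤ n ^ 2 * (β ^ 2 * p) := by
    have h0 : 1 ≤ β ^ 2 := by linarith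
    have h1 : 1 * p ≤ β ^ 2 * p := mul_le_mul_of_nonneg_right h0 hp
    have h2 : 0 ≤ β ^ 2 * p := by positivity
    calc p ≤ 1 * (β ^ 2 * p) := by linarith
      _ ≤ n ^ 2 * (β ^ 2 * p) := mul_le_mul_of_nonneg_right hn2 h2
  have r6 : n * (β * p) ≤ n ^ 2 * (β ^ 2 * p) :=
    mul_le_mul hnn (mul_le_mul_of_nonneg_right hββ hp) (by positivity) (by positivity)
  have hθ3' : 0 ≤ θ ^ 3 := by positivity
  -- the terms
  have t1 : (D1 * θ ^ 2 + θ ^ 3) * (2 * (β * (n * (D1 * θ ^ 6)))) ≤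
      θ ^ 3 * (4 * D1 ^ 2 * (n ^ 2 * Y)) := by
    calc _ ≤ 2 * (D1 * θ ^ 2) * (2 * (β * (n * (D1 * θ ^ 6)))) :=
          mul_le_mul_of_nonneg_right hθ3 (by positivity)
      _ = θ ^ 3 * (4 * D1 ^ 2 * (n * (β * θ ^ 5))) := by ring
      _ ≤ _ := mul_le_mul_of_nonneg_left (mul_le_mul_of_nonneg_left r1 (by positivity)) hθ3'
  have t2 : (D1 * θ ^ 2 + θ ^ 3) * (2 * (16 * n * N' * x₀)) ≤
      θ ^ 3 * (64 * D1 * N' * (n ^ 2 * (β ^ 2 * x₀))) := by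
    calc _ ≤ 2 * (D1 * θ ^ 2) * (2 * (16 * n * N' * x₀)) :=
          mul_le_mul_of_nonneg_right hθ3 (by positivity)
      _ = 64 * D1 * N' * (n * (θ ^ 2 * x₀)) := by ring
      _ ≤ 64 * D1 * N' * (θ ^ 3 * (n ^ 2 * (β ^ 2 * x₀))) :=
          mul_le_mul_of_nonneg_left r3 (by positivity)
      _ = _ := by ring
  have t3 : (D1 * θ ^ 2 + θ ^ 3) * (2 * (β * θ ^ 3 * (n * (12 * (D1 * θ ^ 2)))) ^ 2) ≤
      θ ^ 3 * (576 * D1 ^ 3 * (n ^ 2 * Y)) := by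
    calc _ ≤ 2 * (D1 * θ ^ 2) * (2 * (β * θ ^ 3 * (n * (12 * (D1 * θ ^ 2)))) ^ 2) :=
          mul_le_mul_of_nonneg_right hθ3 (by positivity)
      _ = _ := by rw [hY]; ring
  have t4 : 3 * (D1 * θ ^ 4) ≤ θ ^ 3 * (3 * D1 * (n ^ 2 * Y)) := by
    calc 3 * (D1 * θ ^ 4) = θ ^ 3 * (3 * D1 * θ) := by ring
      _ ≤ _ := mul_le_mul_of_nonneg_left (mul_le_mul_of_nonneg_left r2 (by positivity)) hθ3'
  have t5 : θ ^ 3 * (β * θ ^ 3 * (n * (12 * (D1 * θ ^ 2)))) ≤ θ ^ 3 * (12 * D1 * (n ^ 2 * Y)) := by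
    calc _ = θ ^ 3 * (12 * D1 * (n * (β * θ ^ 5))) := by ring
      _ ≤ _ := mul_le_mul_of_nonneg_left (mul_le_mul_of_nonneg_left r1 (by positivity)) hθ3'
  have t6 : 5 * M * p ≤ θ ^ 3 * (5 * M * (n ^ 2 * (β ^ 2 * p))) := by
    calc 5 * M * p ≤ 5 * M * (θ ^ 3 * (n ^ 2 * (β ^ 2 * p))) :=
          mul_le_mul_of_nonneg_left r4 (by positivity)
      _ = _ := by ring
  have t7 : 4 * θ ^ 3 * p ≤ θ ^ 3 * (4 * (n ^ 2 * (β ^ 2 * p))) := by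
    calc 4 * θ ^ 3 * p = θ ^ 3 * (4 * p) := by ring
      _ ≤ _ := mul_le_mul_of_nonneg_left (by linarith) hθ3'
  have t8 : 4 * (β * θ ^ 3 * (M * (n * (12 * M)))) * p ≤
      θ ^ 3 * (48 * M ^ 2 * (n ^ 2 * (β ^ 2 * p))) := by
    calc _ = θ ^ 3 * (48 * M ^ 2 * (n * (β * p))) := by ring
      _ ≤ _ := mul_le_mul_of_nonneg_left (mul_le_mul_of_nonneg_left r6 (by positivity)) hθ3'
  have s1 : (4 * D1 ^ 2 + 576 * D1 ^ 3 + 15 * D1) * (n ^ 2 * Y) ≤ C * (n ^ 2 * Y) :=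
    mul_le_mul_of_nonneg_right k7 (by positivity)
  have s2 : 64 * D1 * N' * (n ^ 2 * (β ^ 2 * x₀)) ≤ C * (n ^ 2 * (β ^ 2 * x₀)) :=
    mul_le_mul_of_nonneg_right k8 (by positivity)
  have s3 : (5 * M + 4 + 48 * M ^ 2) * (n ^ 2 * (β ^ 2 * p)) ≤ C * (n ^ 2 * (β ^ 2 * p)) :=
    mul_le_mul_of_nonneg_right k9 (by positivity)
  have hC0 : 0 ≤ C := le_trans (by positivity) k9
  have s4 : C * (n ^ 2 * (β ^ 2 * x₀)) ≤ C * (n ^ 2 * (β ^ 2 * x₁)) := by gcongr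
  have s5 : C * (n ^ 2 * (β ^ 2 * p)) ≤ C * (n ^ 2 * (β ^ 2 * p')) := by gcongr
  have fin : θ ^ 3 * ((4 * D1 ^ 2 + 576 * D1 ^ 3 + 15 * D1) * (n ^ 2 * Y) +
      64 * D1 * N' * (n ^ 2 * (β ^ 2 * x₀)) + (5 * M + 4 + 48 * M ^ 2) * (n ^ 2 * (β ^ 2 * p))) ≤
      θ ^ 3 * (C * (n ^ 2 * Y) + C * (n ^ 2 * (β ^ 2 * x₁)) + C * (n ^ 2 * (β ^ 2 * p'))) :=
    mul_le_mul_of_nonneg_left (by linarith) hθ3'
  calc _ = (D1 * θ ^ 2 + θ ^ 3) * (2 * (β * (n * (D1 * θ ^ 6)))) +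
        (D1 * θ ^ 2 + θ ^ 3) * (2 * (16 * n * N' * x₀)) +
        (D1 * θ ^ 2 + θ ^ 3) * (2 * (β * θ ^ 3 * (n * (12 * (D1 * θ ^ 2)))) ^ 2) +
        3 * (D1 * θ ^ 4) + θ ^ 3 * (β * θ ^ 3 * (n * (12 * (D1 * θ ^ 2)))) +
        5 * M * p + 4 * θ ^ 3 * p + 4 * (β * θ ^ 3 * (M * (n * (12 * M)))) * p := by ring
    _ ≤ θ ^ 3 * (4 * D1 ^ 2 * (n ^ 2 * Y)) + θ ^ 3 * (64 * D1 * N' * (n ^ 2 * (β ^ 2 * x₀))) +
        θ ^ 3 * (576 * D1 ^ 3 * (n ^ 2 * Y)) + θ ^ 3 * (3 * D1 * (n ^ 2 * Y)) +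
        θ ^ 3 * (12 * D1 * (n ^ 2 * Y)) + θ ^ 3 * (5 * M * (n ^ 2 * (β ^ 2 * p))) +
        θ ^ 3 * (4 * (n ^ 2 * (β ^ 2 * p))) + θ ^ 3 * (48 * M ^ 2 * (n ^ 2 * (β ^ 2 * p))) := by
        linarith
    _ = θ ^ 3 * ((4 * D1 ^ 2 + 576 * D1 ^ 3 + 15 * D1) * (n ^ 2 * Y) +
      64 * D1 * N' * (n ^ 2 * (β ^ 2 * x₀)) + (5 * M + 4 + 48 * M ^ 2) * (n ^ 2 * (β ^ 2 * p))) := by
        ring
    _ ≤ _ := fin
    _ = _ := by ring

end T2H02.TT.PkgUI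

namespace T2H02.TT.PkgUI

open T2H02.TT T2H02.TT.PkgM1

variable {N L : ℕ} [NeZero L] {P Q : SU N}

/-! ### measurability -/

lemma TM_meas (hN : 2 ≤ N) (P Q : SU N) {E : Mt N → SU N} (hE : Continuous E) (h : Lk L → Mt N) :
    Measurable (TM P Q E h : Cf N L → Cf N L) := by
  have mT : ∀ l, Measurable (cT P Q E h l : Cf N L → SU N) := fun l =>
    (PkgJM.cT_cont pE3 hN P Q E hE h l).measurable
  have mU : ∀ l, Measurable (cU P Q E h l : Cf N L → SU N) := fun l =>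
    (PkgJM.cU_cont pE3 hN P Q E hE h l).measurable
  exact (PkgJM.meas_stg _ _ mU).comp ((PkgJM.meas_stg _ _ mT).comp (PkgJM.meas_stg _ _ mT))

lemma G_cont {G : Ph N L → ℝ} (hG : Continuous G) (x : Pl) :
    Continuous fun X : Cf N L => G (pt X x) := hG.comp (PkgJM.pt_cont x)

lemma Qf_cont {G : Ph N L → ℝ} (hG : Continuous G) (ψ : Pl → ℝ) (Λ : Finset Pl) :
    Continuous (Qf ψ G Λ : Cf N L → ℝ) := by
  unfold Qf
  exact continuous_finsetSum _ fun x _ => (G_cont hG x).const_mul _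

/-- the event that all energies are at most `e` -/
def Al (k : ℕ) (Λ : Finset Pl) (e : ℝ) (X : Cf N L) : Prop := ∀ τ ∈ tml Λ, en k X τ ≤ e

lemma Al_meas (hN : 2 ≤ N) (k : ℕ) (Λ : Finset Pl) (e : ℝ) :
    Measurable fun X : Cf N L => ind (Al k Λ e X) := by
  have h1 : MeasurableSet {X : Cf N L | Al k Λ e X} := by
    have h2 : {X : Cf N L | Al k Λ e X} = ⋂ τ ∈ tml Λ, {X : Cf N L | en k X τ ≤ e} := by
      ext X
      simp only [Al, Set.mem_ofPred_eq, Set.mem_iInter]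
    rw [h2]
    refine Finset.measurableSet_biInter _ fun τ _ => ?_
    exact measurableSet_le (en_cont k τ (by omega)).measurable measurable_const
  unfold ind
  exact Measurable.ite h1 measurable_const measurable_const

/-! ### configurations with small energies -/

theorem cfg (hJI : S_JI) {k : ℕ} (hN : 2 ≤ N) {E : Mt N → SU N}
    (hEa : ∀ (g : SU N) (M : Mt N), E (Adj g M) = g * E M * g⁻¹) {CK C2 D1 : ℝ} (hC2 : 0 < C2)
    (HL : ∀ (τ : Tm) (X : Cf N L),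
      (∀ l ∈ (spt τ : Finset (Lk L)), ‖(X l : Mt N) - (vc P Q l : Mt N)‖ ≤ 1 / C2) →
      ∀ β : ℝ, 0 ≤ β →
        (if τ.2 = 3 then (1 / N : ℝ) else 1) * Real.exp (-β * en1 k X τ) ≤ wt k β τ X ∧
        wt k β τ X ≤ (if τ.2 = 3 then (1 / N : ℝ) else 1) * Real.exp (-β * en1 k X τ) *
          (1 + N * Real.exp (-β / C2)))
    {F : Tor L → Mt N} {G : Ph N L → ℝ} (hGg : ∀ (g : Tor L → SU N) (φ : Ph N L), G (act g φ) = G φ)
    {Λ : Finset Pl} {ρ s : ℝ} (hCK : 0 ≤ CK) (hρ : 0 ≤ ρ) {ψ : Pl → ℝ}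
    (hdet : ∀ X : Cf N L,
      (∀ l, (∀ a ∈ st l, a ∈ pls Λ) → ‖(X l : Mt N) - (vc P Q l : Mt N)‖ ≤ ρ) →
      (∀ l, (∀ a ∈ st l, a ∈ pls Λ) →
        ‖(TM P Q E (shm s ψ F) X l : Mt N) - (vc P Q l : Mt N)‖ ≤ (CK + 2) * ρ) ∧
      |∑ τ ∈ tml Λ, (en1 k (TM P Q E (shm s ψ F) X) τ - en1 k X τ) - s * Qf ψ G Λ X| ≤
        Λ.card * (D1 * ρ ^ 3) ∧
      (∀ b ∈ Λ, |G (pt (TM P Q E (shm s ψ F) X) b) - G (pt X b) - s * ψ b| ≤ D1 * ρ ^ 2) ∧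
      (∀ x ∈ Λ, |G (pt X x)| ≤ D1 * ρ))
    (hρ2 : (CK + 2) * ρ ≤ 1 / C2) {β : ℝ} (hβ : 0 ≤ β) (X : Cf N L)
    (g : Pt L → SU N) (z : Pl → Fin 4 → ℕ)
    (hgz : ∀ l : Lk L, (∀ a ∈ st l, a ∈ pls Λ) →
        ‖((gau g (cmv z X) l : SU N) : Mt N) - (vc P Q l : Mt N)‖ ≤ ρ) :
    Real.exp (-(β * s * Qf ψ G Λ X) - (β * (Λ.card * (D1 * ρ ^ 3)) +
      16 * Λ.card * N * Real.exp (-β / C2))) * (sysS N L k β hN hβ).W Λ X ≤
        (sysS N L k β hN hβ).W Λ (TM P Q E (shm s ψ F) X) ∧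
    Real.exp (-(-(β * s * Qf ψ G Λ X)) - (β * (Λ.card * (D1 * ρ ^ 3)) +
      16 * Λ.card * N * Real.exp (-β / C2))) *
        (sysS N L k β hN hβ).W Λ (TM P Q E (shm s ψ F) X) ≤ (sysS N L k β hN hβ).W Λ X ∧
    (∀ b ∈ Λ, |G (pt (TM P Q E (shm s ψ F) X) b) - G (pt X b) - s * ψ b| ≤ D1 * ρ ^ 2) ∧
    (∀ x ∈ Λ, |G (pt X x)| ≤ D1 * ρ) := by
  have hWeq : ∀ X : Cf N L, (sysS N L k β hN hβ).W Λ X = ∏ τ ∈ tml Λ, wt k β τ X := fun X => rfl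
  have hTg : TM P Q E (shm s ψ F) (gau g (cmv z X)) =
      gau g (cmv z (TM P Q E (shm s ψ F) X)) := by
    rw [((hJI N k L hN g z (cmv z X)).2.2 P Q E _ hEa).1,
      ((hJI N k L hN g z X).2.2 P Q E _ hEa).2]
  have hGi : ∀ (Y : Cf N L) (x : Pl), G (pt (gau g (cmv z Y)) x) = G (pt Y x) := by
    intro Y x
    rw [pt_gau, pt_cmv, hGg]
  have hWi : ∀ Y : Cf N L, ∏ τ ∈ tml Λ, wt k β τ (gau g (cmv z Y)) = ∏ τ ∈ tml Λ, wt k β τ Y := by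
    intro Y
    refine Finset.prod_congr rfl fun τ _ => ?_
    rw [((hJI N k L hN g z (cmv z Y)).2.1 β τ).1, ((hJI N k L hN g z Y).2.1 β τ).2]
  obtain ⟨h1, h2, h3, h4⟩ := hdet (gau g (cmv z X)) hgz
  have hQi : Qf ψ G Λ (gau g (cmv z X)) = Qf ψ G Λ X := by
    unfold Qf
    exact Finset.sum_congr rfl fun x _ => by rw [hGi]
  have hρ1 : ρ ≤ 1 / C2 := by
    refine le_trans ?_ hρ2
    nlinarith
  have n1 : ∀ l : Lk L, (∀ a ∈ st l, a ∈ pls Λ) →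
      ‖((gau g (cmv z X) l : SU N) : Mt N) - (vc P Q l : Mt N)‖ ≤ 1 / C2 :=
    fun l hl => (hgz l hl).trans hρ1
  have n2 : ∀ l : Lk L, (∀ a ∈ st l, a ∈ pls Λ) →
      ‖(TM P Q E (shm s ψ F) (gau g (cmv z X)) l : Mt N) - (vc P Q l : Mt N)‖ ≤ 1 / C2 :=
    fun l hl => (h1 l hl).trans hρ2
  rw [hQi] at h2
  have w1 := wprod hN HL hβ Λ _ _ n1 n2 _ _ h2
  have h2' : |∑ τ ∈ tml Λ, (en1 k (gau g (cmv z X)) τ -
      en1 k (TM P Q E (shm s ψ F) (gau g (cmv z X))) τ) - (-(s * Qf ψ G Λ X))| ≤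
        Λ.card * (D1 * ρ ^ 3) := by
    rw [← abs_neg]
    refine le_trans (le_of_eq ?_) h2
    congr 1
    rw [Finset.sum_sub_distrib, Finset.sum_sub_distrib]
    ring
  have w2 := wprod hN HL hβ Λ _ _ n2 n1 _ _ h2'
  rw [hTg, hWi, hWi] at w1 w2
  rw [hWeq, hWeq]
  refine ⟨?_, ?_, fun b hb => ?_, fun x hx => ?_⟩
  · refine le_trans (le_of_eq ?_) w1
    congr 2
    ring
  · refine le_trans (le_of_eq ?_) w2
    congr 2
    ring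
  · have := h3 b hb
    rwa [hTg, hGi, hGi] at this
  · have := h4 x hx
    rwa [hGi] at this

end T2H02.TT.PkgUI

namespace T2H02.TT.PkgUI

open T2H02.TT T2H02.TT.PkgM1

variable {N L : ℕ} [NeZero L] {P Q : SU N}

/-! ### the Ward identity for fixed `L` -/

theorem core (hJI : S_JI) (hJM : S_JM) (hB0 : S_B0) {k : ℕ} (hN : 2 ≤ N) (hk : Nat.Coprime k N)
    (hPQ : PQ k P Q) {E : Mt N → SU N} (hEc : Continuous E) (hE0 : E 0 = 1)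
    (hEa : ∀ (g : SU N) (M : Mt N), E (Adj g M) = g * E M * g⁻¹)
    {CG Ce C6 C2 CT CK K1 D1 Mo : ℝ} {D : ℕ} (hCG : 1 ≤ CG) (hCe : 1 ≤ Ce) (hC6 : 1 ≤ C6)
    (hC2 : 1 ≤ C2) (hCT : 1 ≤ CT) (hCK : 0 ≤ CK) (hK1 : 3 ≤ K1) (hD1 : 1 ≤ D1)
    (HG : ∀ (β : ℝ) (hβ : 0 ≤ β), 1 ≤ β → ∀ (U : Finset Pl) (t : ℝ), 0 ≤ t →
      ∀ η : Cf N L, (sysS N L k β hN hβ).ker (hm N) U (fun X =>
        ind (CG * ∑ τ ∈ rng U, en k X τ + t ≤ ∑ τ ∈ tml U, en k X τ)) η ≤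
        Real.exp (-β * t) * (CG * β) ^ (D * U.card))
    (HG3 : ∀ (X Y : Cf N L) (τ : Tm) (r : ℝ), 0 ≤ r →
      (∀ l ∈ (spt τ : Finset (Lk L)), ‖(X l : Mt N) - (Y l : Mt N)‖ ≤ r) →
      en k Y τ ≤ 2 * en k X τ + Ce * r ^ 2)
    (H6 : ∀ (Λ : Finset Pl) (e e₂ : ℝ) (X : Cf N L),
      0 ≤ e → 0 ≤ e₂ →
      (∀ l, l ∉ Frl L Λ → (∀ a ∈ st l, a ∈ pls Λ) → ‖(X l : Mt N) - (vc P Q l : Mt N)‖ ^ 2 ≤ e) →
      (∀ τ ∈ tml Λ, en k X τ ≤ e₂) →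
      ∃ (g : Pt L → SU N) (z : Pl → Fin 4 → ℕ), (∀ p, p.1 ∉ Λ → g p = 1) ∧
        (∀ x m, x ∉ Λ → x + pe m ∉ Λ → z x m = 0) ∧
        ∀ l : Lk L, (∀ a ∈ st l, a ∈ pls Λ) →
          ‖((gau g (cmv z X) l : SU N) : Mt N) - (vc P Q l : Mt N)‖ ^ 2 ≤ C6 * (e₂ + e))
    (HL : ∀ (τ : Tm) (X : Cf N L),
      (∀ l ∈ (spt τ : Finset (Lk L)), ‖(X l : Mt N) - (vc P Q l : Mt N)‖ ≤ 1 / C2) →
      ∀ β : ℝ, 0 ≤ β →
        (if τ.2 = 3 then (1 / N : ℝ) else 1) * Real.exp (-β * en1 k X τ) ≤ wt k β τ X ∧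
        wt k β τ X ≤ (if τ.2 = 3 then (1 / N : ℝ) else 1) * Real.exp (-β * en1 k X τ) *
          (1 + N * Real.exp (-β / C2)))
    (HT2 : ∀ (h : Lk L → Mt N) (ρ : ℝ) (X : Cf N L), 0 ≤ ρ → (∀ l, ‖h l‖ ≤ ρ) →
      ∀ l, ‖(TM P Q E h X l : Mt N) - (X l : Mt N)‖ ≤ CT * ρ)
    {F : Tor L → Mt N} {G : Ph N L → ℝ} (hFs : ∀ y, F y ∈ su N) (hFn : ∀ y, ‖F y‖ ≤ 1)
    (hGc : Continuous G) (hGg : ∀ (g : Tor L → SU N) (φ : Ph N L), G (act g φ) = G φ)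
    (hGb : ∀ φ, |G φ| ≤ Mo)
    (hdet : ∀ (Λ : Finset Pl) (ρ s : ℝ), 0 ≤ ρ → K1 * ρ ≤ 1 → 0 ≤ s → s ^ 2 = ρ ^ 3 →
      ∀ ψ : Pl → ℝ, (∀ x, |ψ x| ≤ 1) → (∀ x, ψ x ≠ 0 → Nb 1 x ⊆ Λ) → ∀ X : Cf N L,
      (∀ l, (∀ a ∈ st l, a ∈ pls Λ) → ‖(X l : Mt N) - (vc P Q l : Mt N)‖ ≤ ρ) →
      (∀ l, (∀ a ∈ st l, a ∈ pls Λ) →
        ‖(TM P Q E (shm s ψ F) X l : Mt N) - (vc P Q l : Mt N)‖ ≤ (CK + 2) * ρ) ∧
      |∑ τ ∈ tml Λ, (en1 k (TM P Q E (shm s ψ F) X) τ - en1 k X τ) - s * Qf ψ G Λ X| ≤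
        Λ.card * (D1 * ρ ^ 3) ∧
      (∀ b ∈ Λ, |G (pt (TM P Q E (shm s ψ F) X) b) - G (pt X b) - s * ψ b| ≤ D1 * ρ ^ 2) ∧
      (∀ x ∈ Λ, |G (pt X x)| ≤ D1 * ρ))
    {C C₁ : ℝ} (hC1 : 1 ≤ C₁)
    (k1 : 2 * (C6 * (288 * CG * Ce + 3)) ≤ C) (k2 : 2 * C6 * (Ce * CT ^ 2) ≤ C) (k3 : K1 ≤ C)
    (k4 : (CK + 2) * C2 ≤ C) (k5 : 24 * D1 ≤ C) (k6 : 64 * N * C2 ≤ C)
    (k7 : 4 * D1 ^ 2 + 576 * D1 ^ 3 + 15 * D1 ≤ C) (k8 : 64 * D1 * N ≤ C)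
    (k9 : 5 * Mo + 4 + 48 * Mo ^ 2 ≤ C) (k10 : CG ≤ C) (k11 : C2 ≤ C₁) :
    ∀ (β : ℝ) (hβ : 0 ≤ β), 1 ≤ β →
    ∀ (Λ : Finset Pl) (e t r : ℝ), 0 ≤ e → 0 ≤ t → r = C * Λ.card * (Λ.card * e + t) →
      1 / β ≤ r → C * Λ.card * (β * (r * Real.sqrt (Real.sqrt r))) ≤ 1 →
    ∀ σ : Cf N L, (∀ l, l ∉ Frl L Λ → (∀ a ∈ st l, a ∈ pls Λ) →
        ‖(σ l : Mt N) - (vc P Q l : Mt N)‖ ^ 2 ≤ e) →
    ∀ ψ : Pl → ℝ, (∀ x, |ψ x| ≤ 1) → (∀ x, ψ x ≠ 0 → Nb 1 x ⊆ Λ) → ∀ b ∈ Λ,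
      |β * (sysS N L k β hN hβ).ker (hm N) Λ (obs ψ G Λ b) σ - ψ b| ≤
        C * (Λ.card : ℝ) ^ 2 * (β ^ 2 * (r ^ 2 * Real.sqrt (Real.sqrt r)) +
          β ^ 2 * (Real.exp (-β * t) * (C * β) ^ (D * Λ.card) + Real.exp (-β / C₁))) := by
  intro β hβ hβ1 Λ e t r he ht hr hβr hcond σ hσ ψ hψ hψ2 b hb
  obtain ⟨S, hS⟩ : ∃ S : Sys (Lk L) Tm (SU N), S = sysS N L k β hN hβ := ⟨_, rfl⟩
  have hSF : S.Fr Λ = Frl L Λ := by rw [hS]; rfl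
  rw [← hS]
  obtain ⟨n, hn⟩ : ∃ n : ℝ, n = (Λ.card : ℝ) := ⟨_, rfl⟩
  rw [← hn] at hr hcond ⊢
  have hn1 : 1 ≤ n := by
    rw [hn]
    exact_mod_cast Finset.card_pos.2 ⟨b, hb⟩
  have hn0 : 0 ≤ n := by linarith
  have hCG0 : 0 ≤ CG := by linarith
  have hCe0 : 0 ≤ Ce := by linarith
  have hC60 : 0 ≤ C6 := by linarith
  have hC20 : 0 < C2 := by linarith
  have hD10 : 0 ≤ D1 := by linarith
  have hNp : (0 : ℝ) ≤ N := Nat.cast_nonneg N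
  have hMo : 0 ≤ Mo := (abs_nonneg _).trans (hGb fun _ _ => 1)
  have hC24 : 24 ≤ C := by linarith
  have hC0 : 0 < C := by linarith
  have hβ0 : 0 < β := by linarith
  -- the parameters
  have hr0 : 0 < r := lt_of_lt_of_le (by positivity) hβr
  obtain ⟨ρ, hρ⟩ : ∃ ρ : ℝ, ρ = Real.sqrt r := ⟨_, rfl⟩
  obtain ⟨θ, hθ⟩ : ∃ θ : ℝ, θ = Real.sqrt ρ := ⟨_, rfl⟩
  have hρ0 : 0 < ρ := by rw [hρ]; exact Real.sqrt_pos.2 hr0
  have hθ0 : 0 < θ := by rw [hθ]; exact Real.sqrt_pos.2 hρ0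
  have hρr : ρ ^ 2 = r := by rw [hρ]; exact Real.sq_sqrt hr0.le
  have hθρ : θ ^ 2 = ρ := by rw [hθ]; exact Real.sq_sqrt hρ0.le
  have hθr : θ ^ 4 = r := by rw [← hρr, ← hθρ]; ring
  rw [← hρ, ← hθ] at hcond ⊢
  have hβθ : 1 ≤ β * θ ^ 4 := by
    rw [hθr]
    have := mul_le_mul_of_nonneg_left hβr hβ
    rwa [mul_one_div, div_self hβ0.ne'] at this
  have hcond' : C * n * (β * θ ^ 5) ≤ 1 := by
    refine le_trans (le_of_eq ?_) hcond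
    rw [← hθr]; ring
  have hCn : C ≤ C * n := le_mul_of_one_le_right hC0.le hn1
  have hθle : C * n * θ ≤ 1 := by
    refine le_trans ?_ hcond'
    refine mul_le_mul_of_nonneg_left ?_ (by positivity)
    calc θ = 1 * θ := (one_mul θ).symm
      _ ≤ β * θ ^ 4 * θ := mul_le_mul_of_nonneg_right hβθ hθ0.le
      _ = _ := by ring
  have hCθ : C * θ ≤ 1 := (mul_le_mul_of_nonneg_right hCn hθ0.le).trans hθle
  have hθ1 : θ ≤ 1 := by nlinarith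
  have hρθ : ρ ≤ θ := by rw [← hθρ]; nlinarith
  have hρ1 : ρ ≤ 1 := hρθ.trans hθ1
  have small : ∀ c, 0 ≤ c → c ≤ C → c * ρ ≤ 1 := by
    intro c hc0 hc
    calc c * ρ ≤ C * θ := mul_le_mul hc hρθ hρ0.le hC0.le
      _ ≤ 1 := hCθ
  have hCβ : C * n ≤ β := by
    have h1 : C * n * 1 ≤ C * n * (β * θ ^ 4) := mul_le_mul_of_nonneg_left hβθ (by positivity)
    have h2 : C * n * (β * θ ^ 4) = β * θ ^ 3 * (C * n * θ) := by ring
    have h3 : β * θ ^ 3 * (C * n * θ) ≤ β * θ ^ 3 * 1 :=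
      mul_le_mul_of_nonneg_left hθle (by positivity)
    have h4 : β * θ ^ 3 ≤ β * 1 := mul_le_mul_of_nonneg_left (pow_le_one₀ hθ0.le hθ1) hβ
    linarith
  obtain ⟨s, hs⟩ : ∃ s : ℝ, s = θ ^ 3 := ⟨_, rfl⟩
  have hs0 : 0 < s := by rw [hs]; positivity
  have hs1 : s ≤ 1 := by rw [hs]; exact pow_le_one₀ hθ0.le hθ1
  have hsρ : s ^ 2 = ρ ^ 3 := by rw [hs, ← hθρ]; ring
  obtain ⟨h, hh⟩ : ∃ h : Lk L → Mt N, h = shm s ψ F := ⟨_, rfl⟩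
  have hhn : ∀ l, ‖h l‖ ≤ s := fun l => by rw [hh]; exact shm_norm hFn hs0.le hψ l
  have hh0 : ∀ l, l ∉ Frl L Λ → h l = 0 := fun l hl => by rw [hh]; exact shm_off hψ2 l hl
  have hK1ρ : K1 * ρ ≤ 1 := small K1 (by linarith) k3
  have hdet' := hdet Λ ρ s hρ0.le hK1ρ hs0.le hsρ ψ hψ hψ2
  have hCKρ : (CK + 2) * ρ ≤ 1 / C2 := by
    rw [le_div_iff₀ hC20]
    calc (CK + 2) * ρ * C2 = (CK + 2) * C2 * ρ := by ring
      _ ≤ 1 := small _ (by positivity) k4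
  -- the energies
  obtain ⟨e₂, he₂⟩ : ∃ e₂ : ℝ, e₂ = CG * (144 * n * (Ce * e)) + t := ⟨_, rfl⟩
  have he₂0 : 0 ≤ e₂ := by rw [he₂]; positivity
  obtain ⟨e₃, he₃⟩ : ∃ e₃ : ℝ, e₃ = 2 * e₂ + Ce * (CT * s) ^ 2 := ⟨_, rfl⟩
  have hCTs : 0 ≤ Ce * (CT * s) ^ 2 := by positivity
  have he₃0 : 0 ≤ e₃ := by rw [he₃]; positivity
  have he23 : e₂ ≤ e₃ := by rw [he₃]; linarith
  have hne : 0 ≤ n * e := by positivity
  have he₃r : C6 * (e₃ + e) ≤ ρ ^ 2 := by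
    have h1 : e ≤ n * e := le_mul_of_one_le_left he hn1
    have h2 : C6 * (2 * e₂ + e) ≤ C6 * (288 * CG * Ce + 3) * (n * e + t) := by
      rw [mul_assoc]
      refine mul_le_mul_of_nonneg_left ?_ hC60
      rw [he₂]
      have h3 : 0 ≤ 288 * CG * Ce * t := by positivity
      have h4 : (288 * CG * Ce + 3) * (n * e + t) - (2 * (CG * (144 * n * (Ce * e)) + t) + e) =
          288 * CG * Ce * t + (3 * (n * e) - e) + t := by ring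
      linarith
    have h3 : C6 * (288 * CG * Ce + 3) * (n * e + t) ≤ ρ ^ 2 / 2 := by
      rw [hρr, hr]
      have h4 : 0 ≤ n * e + t := by positivity
      have h5 : n * e + t ≤ n * (n * e + t) := le_mul_of_one_le_left h4 hn1
      have h6 : 2 * (C6 * (288 * CG * Ce + 3)) * (n * e + t) ≤ C * (n * (n * e + t)) :=
        mul_le_mul k1 h5 h4 hC0.le
      have h7 : C * n * (n * e + t) = C * (n * (n * e + t)) := by ring
      rw [h7]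
      linarith
    have h4 : C6 * (Ce * (CT * s) ^ 2) ≤ ρ ^ 2 / 2 := by
      have h5 : C6 * (Ce * (CT * s) ^ 2) = (2 * C6 * (Ce * CT ^ 2) * ρ) * (ρ ^ 2 / 2) := by
        rw [mul_pow, hsρ]; ring
      rw [h5]
      have h6 := small (2 * C6 * (Ce * CT ^ 2)) (by positivity) k2
      have h7 : 0 ≤ ρ ^ 2 / 2 := by positivity
      calc _ ≤ 1 * (ρ ^ 2 / 2) := mul_le_mul_of_nonneg_right h6 h7
        _ = _ := one_mul _
    have h5 : C6 * (e₃ + e) = C6 * (2 * e₂ + e) + C6 * (Ce * (CT * s) ^ 2) := by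
      rw [he₃]; ring
    rw [h5]
    linarith
  -- configurations with small energies
  have hgood : ∀ X : Cf N L, (∀ l, l ∉ Frl L Λ → X l = σ l) → Al k Λ e₃ X →
      ∃ (g : Pt L → SU N) (z : Pl → Fin 4 → ℕ), ∀ l : Lk L, (∀ a ∈ st l, a ∈ pls Λ) →
        ‖((gau g (cmv z X) l : SU N) : Mt N) - (vc P Q l : Mt N)‖ ≤ ρ := by
    intro X hX hA
    obtain ⟨g, z, -, -, hgz⟩ := H6 Λ e e₃ X he he₃0 (fun l hl hl2 => by
      rw [hX l hl]; exact hσ l hl hl2) hA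
    exact ⟨g, z, fun l hl => (sq_le_sq₀ (norm_nonneg _) hρ0.le).1 ((hgz l hl).trans he₃r)⟩
  have hbadA : ∀ X : Cf N L, (∀ l, l ∉ Frl L Λ → X l = σ l) →
      ¬ (CG * ∑ τ ∈ rng Λ, en k X τ + t ≤ ∑ τ ∈ tml Λ, en k X τ) → Al k Λ e₂ X := by
    intro X hX hnb
    push Not at hnb
    have h1 : ∀ τ ∈ rng Λ, en k X τ ≤ Ce * e := by
      intro τ hτ
      have h2 := HG3 (vc P Q) X τ (Real.sqrt e) (Real.sqrt_nonneg e) (fun l hl => by
        obtain ⟨h3, h4⟩ := rng_links hτ hl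
        rw [hX l h3, norm_sub_rev]
        exact Real.le_sqrt_of_sq_le (hσ l h3 h4))
      rwa [en_vc hB0 hN hk hPQ, mul_zero, zero_add, Real.sq_sqrt he] at h2
    have h2 : ∑ τ ∈ rng Λ, en k X τ ≤ 144 * n * (Ce * e) := by
      calc ∑ τ ∈ rng Λ, en k X τ ≤ ∑ τ ∈ rng Λ, Ce * e := Finset.sum_le_sum h1
        _ = (rng Λ).card * (Ce * e) := by rw [Finset.sum_const, nsmul_eq_mul]
        _ ≤ 144 * n * (Ce * e) := by
            refine mul_le_mul_of_nonneg_right ?_ (by positivity)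
            have := card_rng Λ
            rw [hn]
            exact_mod_cast this
    intro τ hτ
    refine (Finset.single_le_sum (f := fun τ => en k X τ) (fun τ _ => en_nonneg k X τ) hτ).trans ?_
    refine hnb.le.trans ?_
    rw [he₂]
    have := mul_le_mul_of_nonneg_left h2 hCG0
    linarith
  -- the functions
  obtain ⟨gl, hgl⟩ : ∃ gl : Cf N L → Cf N L, gl = fun ξ => glue (Frl L Λ) ξ σ := ⟨_, rfl⟩
  have hoff : ∀ ξ l, l ∉ Frl L Λ → gl ξ l = σ l := fun ξ l hl => by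
    rw [hgl]; exact glue_off _ _ l hl
  have mgl : Measurable gl := by rw [hgl]; exact PkgF.meas_glue_left (Frl L Λ) σ
  obtain ⟨T, hT⟩ : ∃ T : Cf N L → Cf N L, T = TM P Q E h := ⟨_, rfl⟩
  have mT : Measurable T := by rw [hT]; exact TM_meas hN P Q hEc h
  have hinv : ∀ Φ : Cf N L → ℝ, Measurable Φ → (∃ K, ∀ X, |Φ X| ≤ K) →
      ∫ ξ, Φ (T (gl ξ)) ∂(pm N L) = ∫ ξ, Φ (gl ξ) ∂(pm N L) := by
    intro Φ hΦ hb'
    rw [hT, hgl]
    exact (hJM N L hN (Frl L Λ) Φ hΦ hb' σ).2 P Q E h hEc hE0 hh0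
  have mW : Measurable (S.W Λ) := PkgF.W_meas S Λ
  have hWp : ∀ X, 0 < S.W Λ X := PkgF.W_pos S Λ
  have hWl : ∀ X, S.W Λ X ≤ 1 := PkgF.W_le S Λ
  have mG : Measurable fun X : Cf N L => G (pt X b) := (G_cont hGc b).measurable
  have mQ : Measurable (Qf ψ G Λ : Cf N L → ℝ) := (Qf_cont hGc ψ Λ).measurable
  have hQb : ∀ X : Cf N L, |Qf ψ G Λ X| ≤ n * (12 * Mo) := by
    intro X
    rw [hn]
    exact sum_cf hψ fun x _ => hGb _
  have mA := Al_meas (L := L) hN k Λ e₂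
  have habs1 : ∀ p : Prop, |ind p| ≤ 1 := fun p => by
    rw [abs_of_nonneg (ind_01 p).1]; exact (ind_01 p).2
  have habs2 : ∀ p : Prop, |1 - ind p| ≤ 1 := fun p => by
    have := ind_01 p
    rw [abs_le]; constructor <;> linarith
  have habsW : ∀ X, |S.W Λ X| ≤ 1 := fun X => by rw [abs_of_pos (hWp X)]; exact hWl X
  have i1 := hinv (fun X => G (pt X b) * ind (Al k Λ e₂ X) * S.W Λ X) ((mG.mul mA).mul mW)
    ⟨Mo * 1 * 1, fun X => by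
      rw [abs_mul, abs_mul]
      exact mul_le_mul (mul_le_mul (hGb _) (habs1 _) (abs_nonneg _) hMo) (habsW X) (abs_nonneg _)
        (by positivity)⟩
  have i2 := hinv (fun X => (1 - ind (Al k Λ e₂ X)) * S.W Λ X) ((measurable_const.sub mA).mul mW)
    ⟨1 * 1, fun X => by
      rw [abs_mul]
      exact mul_le_mul (habs2 _) (habsW X) (abs_nonneg _) zero_le_one⟩
  -- the probability
  obtain ⟨p, hp⟩ : ∃ p : ℝ, p = Real.exp (-β * t) * (CG * β) ^ (D * Λ.card) := ⟨_, rfl⟩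
  have hp0 : 0 ≤ p := by rw [hp]; positivity
  obtain ⟨Z, hZ⟩ : ∃ Z : ℝ, Z = ∫ ξ, S.W Λ (gl ξ) ∂(pm N L) := ⟨_, rfl⟩
  have hZ1 : S.num (hm N) Λ (fun _ => 1) σ = Z := by
    unfold Sys.num
    rw [hSF, hZ, hgl]
    simp only [one_mul]
  have hZpos : 0 < Z := by rw [← hZ1]; exact PkgF.num_pos S (hm N) Λ σ
  obtain ⟨bad, hbad⟩ : ∃ bad : Cf N L → Prop, bad = fun X =>
    CG * ∑ τ ∈ rng Λ, en k X τ + t ≤ ∑ τ ∈ tml Λ, en k X τ := ⟨_, rfl⟩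
  have hbm : Measurable fun X => ind (bad X) := by
    have h1 : MeasurableSet {X : Cf N L | bad X} := by
      rw [hbad]
      refine measurableSet_le ?_ ?_
      · refine Continuous.measurable ?_
        exact ((continuous_finsetSum _ fun τ _ => en_cont k τ (by omega)).const_mul CG).add
          continuous_const
      · refine Continuous.measurable ?_
        exact continuous_finsetSum _ fun τ _ => en_cont k τ (by omega)
    unfold ind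
    exact Measurable.ite h1 measurable_const measurable_const
  have hprob : ∫ ξ, (1 - ind (Al k Λ e₂ (gl ξ))) * S.W Λ (gl ξ) ∂(pm N L) ≤ p * Z := by
    have h1 := HG β hβ hβ1 Λ t ht σ
    rw [← hS, ← hp] at h1
    unfold Sys.ker at h1
    rw [hZ1, div_le_iff₀ hZpos] at h1
    refine le_trans ?_ h1
    unfold Sys.num
    rw [hSF]
    have h2 : Integrable (fun ξ => ind (bad (gl ξ)) * S.W Λ (gl ξ)) (pm N L) :=
      PkgF.integrable_bdd ((hbm.comp mgl).mul (mW.comp mgl)) ⟨1 * 1, fun ξ => by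
        rw [abs_mul]
        exact mul_le_mul (habs1 _) (habsW _) (abs_nonneg _) zero_le_one⟩
    have h3 : Integrable (fun ξ => (1 - ind (Al k Λ e₂ (gl ξ))) * S.W Λ (gl ξ)) (pm N L) :=
      PkgF.integrable_bdd ((measurable_const.sub (mA.comp mgl)).mul (mW.comp mgl))
        ⟨1 * 1, fun ξ => by
          rw [abs_mul]
          exact mul_le_mul (habs2 _) (habsW _) (abs_nonneg _) zero_le_one⟩
    have h4 : ∫ ξ, (1 - ind (Al k Λ e₂ (gl ξ))) * S.W Λ (gl ξ) ∂(pm N L) ≤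
        ∫ ξ, ind (bad (gl ξ)) * S.W Λ (gl ξ) ∂(pm N L) := by
      refine integral_mono h3 h2 fun ξ => ?_
      dsimp only
      refine mul_le_mul_of_nonneg_right ?_ (hWp _).le
      by_cases hb' : bad (gl ξ)
      · rw [ind_pos' hb']
        have := ind_01 (Al k Λ e₂ (gl ξ))
        linarith
      · rw [ind_neg' hb', ind_pos' (hbadA _ (hoff ξ) (by rw [hbad] at hb'; exact hb'))]
        simp
    rw [hbad, hgl] at h4
    rw [hgl]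
    exact h4
  -- the weights
  obtain ⟨ε, hε⟩ : ∃ ε : ℝ, ε = β * (n * (D1 * ρ ^ 3)) + 16 * n * N * Real.exp (-β / C2) := ⟨_, rfl⟩
  have hε0 : 0 ≤ ε := by rw [hε]; positivity
  have hρ3 : ρ ^ 3 = θ ^ 6 := by rw [← hθρ]; ring
  have hε1 : ε ≤ 1 / 2 := by
    have h1 : β * (n * (D1 * ρ ^ 3)) ≤ 1 / 4 := by
      have h2 : 24 * (β * (n * (D1 * ρ ^ 3))) ≤ 1 := by
        rw [hρ3]
        have h3 : θ ^ 6 ≤ θ ^ 5 := pow_le_pow_of_le_one hθ0.le hθ1 (by norm_num)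
        calc 24 * (β * (n * (D1 * θ ^ 6))) = 24 * D1 * n * (β * θ ^ 6) := by ring
          _ ≤ C * n * (β * θ ^ 5) := by
              refine mul_le_mul (mul_le_mul_of_nonneg_right k5 hn0)
                (mul_le_mul_of_nonneg_left h3 hβ) (by positivity) (by positivity)
          _ ≤ 1 := hcond'
      linarith
    have h2 : 16 * n * N * Real.exp (-β / C2) ≤ 1 / 4 := by
      have h3 : Real.exp (-β / C2) ≤ C2 / β := by
        have h4 : β / C2 ≤ Real.exp (β / C2) := by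
          have := Real.add_one_le_exp (β / C2)
          linarith
        rw [neg_div, Real.exp_neg]
        calc (Real.exp (β / C2))⁻¹ ≤ (β / C2)⁻¹ := inv_anti₀ (by positivity) h4
          _ = C2 / β := by rw [inv_div]
      calc 16 * n * N * Real.exp (-β / C2) ≤ 16 * n * N * (C2 / β) :=
            mul_le_mul_of_nonneg_left h3 (by positivity)
        _ = (16 * n * N * C2) / β := by ring
        _ ≤ 1 / 4 := by
            rw [div_le_iff₀ hβ0]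
            have h5 : 64 * N * C2 * n ≤ C * n := mul_le_mul_of_nonneg_right k6 hn0
            linarith
    rw [hε]
    linarith
  obtain ⟨xm, hxm⟩ : ∃ xm : ℝ, xm = β * s * (n * (12 * (D1 * ρ))) := ⟨_, rfl⟩
  have hxm1 : xm ≤ 1 / 2 := by
    have h1 : 2 * xm ≤ 1 := by
      rw [hxm, hs, ← hθρ]
      calc 2 * (β * θ ^ 3 * (n * (12 * (D1 * θ ^ 2)))) = 24 * D1 * n * (β * θ ^ 5) := by ring
        _ ≤ C * n * (β * θ ^ 5) :=
            mul_le_mul_of_nonneg_right (mul_le_mul_of_nonneg_right k5 hn0) (by positivity)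
        _ ≤ 1 := hcond'
    linarith
  have hxm0 : 0 ≤ xm := by rw [hxm]; positivity
  have hβs : 0 ≤ β * s := by positivity
  have hψb : |s * ψ b| ≤ s := by
    rw [abs_mul, abs_of_pos hs0]
    exact mul_le_of_le_one_right hs0.le (hψ b)
  -- the good configurations
  have hkey : ∀ X : Cf N L, (∀ l, l ∉ Frl L Λ → X l = σ l) → Al k Λ e₃ X →
      |G (pt (T X) b) * S.W Λ (T X) -
        (G (pt X b) + s * ψ b - β * s * (G (pt X b) * Qf ψ G Λ X)) * S.W Λ X| ≤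
        ((D1 * ρ + s) * (2 * ε + 2 * xm ^ 2) + 3 * (D1 * ρ ^ 2) + s * xm) * S.W Λ X ∧
      S.W Λ X ≤ 3 * S.W Λ (T X) := by
    intro X hX hA
    obtain ⟨g, z, hgz⟩ := hgood X hX hA
    obtain ⟨c1, c2, c3, c4⟩ := cfg hJI hN hEa hC20 HL hGg hCK hρ0.le hdet' hCKρ hβ X g z hgz
    rw [← hS, ← hh, ← hT, ← hn, ← hε] at c1 c2
    rw [← hh, ← hT] at c3
    have hQx : |Qf ψ G Λ X| ≤ n * (12 * (D1 * ρ)) := by
      rw [hn]
      exact sum_cf hψ c4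
    have hx : |-(β * s * Qf ψ G Λ X)| ≤ xm := by
      rw [abs_neg, abs_mul, abs_of_nonneg hβs, hxm]
      exact mul_le_mul_of_nonneg_left hQx hβs
    have := integrand (f := G (pt X b)) (f' := G (pt (T X) b)) (sψ := s * ψ b) (hWp X) c1 c2 hx
      hxm1 hε0 hε1 hψb (c4 b hb) (c3 b hb)
    refine ⟨?_, this.2⟩
    refine le_trans (le_of_eq ?_) this.1
    congr 1
    ring
  have hTA : ∀ X : Cf N L, Al k Λ e₂ (T X) → Al k Λ e₃ X := by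
    intro X hA τ hτ
    have h1 := HG3 (T X) X τ (CT * s) (by positivity) (fun l _ => by
      rw [hT]; exact HT2 h s X hs0.le hhn l)
    have h2 := hA τ hτ
    rw [he₃]
    linarith
  obtain ⟨κ, hκ⟩ : ∃ κ : ℝ, κ = (D1 * ρ + s) * (2 * ε + 2 * xm ^ 2) + 3 * (D1 * ρ ^ 2) + s * xm :=
    ⟨_, rfl⟩
  have hκ0 : 0 ≤ κ := by rw [hκ]; positivity
  rw [← hκ] at hkey
  have hmain := absI (μ := pm N L) (A := fun ξ => Al k Λ e₂ (gl ξ))
    (A' := fun ξ => Al k Λ e₂ (T (gl ξ))) (B := fun ξ => Al k Λ e₃ (gl ξ))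
    (f := fun ξ => G (pt (gl ξ) b)) (f' := fun ξ => G (pt (T (gl ξ)) b))
    (q := fun ξ => Qf ψ G Λ (gl ξ)) (w := fun ξ => S.W Λ (gl ξ)) (w' := fun ξ => S.W Λ (T (gl ξ)))
    (u := β * s) (s := s) (sψ := s * ψ b) (κ := κ) (M := Mo) (Mq := n * (12 * Mo)) (p := p)
    (mG.comp mgl) (mG.comp (mT.comp mgl)) (mQ.comp mgl) (mW.comp mgl) (mW.comp (mT.comp mgl))
    (mA.comp mgl) (mA.comp (mT.comp mgl)) (fun ξ => (hWp _).le) (fun ξ => hWl _)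
    (fun ξ => (hWp _).le) (fun ξ => hWl _) (fun ξ => hGb _) (fun ξ => hGb _) (fun ξ => hQb _)
    i1 i2 (fun ξ hA τ hτ => (hA τ hτ).trans he23)
    (fun ξ hA' => (hkey _ (hoff ξ) (hTA _ hA')).1) (fun ξ hB => (hkey _ (hoff ξ) hB).2)
    (by rw [← hZ]; exact hprob) hβs hψb hκ0
  obtain ⟨I, hI⟩ : ∃ I : ℝ, I = ∫ ξ, G (pt (gl ξ) b) * Qf ψ G Λ (gl ξ) * S.W Λ (gl ξ) ∂(pm N L) :=
    ⟨_, rfl⟩
  rw [← hI, ← hZ] at hmain
  have hker : S.ker (hm N) Λ (obs ψ G Λ b) σ = I / Z := by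
    unfold Sys.ker
    rw [hZ1]
    congr 1
    unfold Sys.num
    rw [hSF, hI, hgl]
    rfl
  rw [hker]
  have hρ2 : ρ ^ 2 = θ ^ 4 := by rw [← hθρ]; ring
  have har := arith (C := C) (D1 := D1) (n := n) (N' := N) (β := β) (θ := θ)
    (x₀ := Real.exp (-β / C2)) (x₁ := Real.exp (-β / C₁)) (p := p)
    (p' := Real.exp (-β * t) * (C * β) ^ (D * Λ.card)) (M := Mo) hn1 hNp hβ1 hθ0 hθ1 hβθ hD1 hp0
    (by
      rw [hp]
      refine mul_le_mul_of_nonneg_left ?_ (Real.exp_pos _).le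
      exact pow_le_pow_left₀ (by positivity) (mul_le_mul_of_nonneg_right k10 hβ) _)
    (Real.exp_pos _).le
    (by
      apply Real.exp_le_exp.2
      have h3 : β / C₁ ≤ β / C2 := div_le_div_of_nonneg_left hβ hC20 k11
      rw [neg_div, neg_div]
      linarith) hMo k7 k8 k9
  have hκe : κ + (5 * Mo + 4 * s + 4 * (β * s * (Mo * (n * (12 * Mo))))) * p ≤
      s * (C * n ^ 2 * (β ^ 2 * (r ^ 2 * θ) +
        β ^ 2 * (Real.exp (-β * t) * (C * β) ^ (D * Λ.card) + Real.exp (-β / C₁)))) := by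
    have e1 : r ^ 2 * θ = θ ^ 9 := by rw [← hθr]; ring
    rw [e1, hκ, hε, hxm, hs, hρ3, hρ2, ← hθρ]
    exact har
  have hsZ : 0 < s * Z := by positivity
  have e2 : β * (I / Z) - ψ b = (β * s * I - s * ψ b * Z) / (s * Z) := by
    field_simp
  rw [e2, abs_div, abs_of_pos hsZ, div_le_iff₀ hsZ]
  refine hmain.trans ?_
  calc _ ≤ s * (C * n ^ 2 * (β ^ 2 * (r ^ 2 * θ) +
        β ^ 2 * (Real.exp (-β * t) * (C * β) ^ (D * Λ.card) + Real.exp (-β / C₁)))) * Z :=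
        mul_le_mul_of_nonneg_right hκe hZpos.le
    _ = _ := by ring

end T2H02.TT.PkgUI

namespace T2H02.TT.PkgUI

open T2H02.TT T2H02.TT.PkgM1

/-! ### polynomial bounds -/

/-- `f` is nonnegative and bounded by a polynomial on `[1, ∞)` -/
def PB (f : ℝ → ℝ) : Prop := ∃ (C : ℝ) (K : ℕ), 0 ≤ C ∧ ∀ x : ℝ, 1 ≤ x → 0 ≤ f x ∧ f x ≤ C * x ^ K

lemma PB.const {c : ℝ} (hc : 0 ≤ c) : PB fun _ => c :=
  ⟨c, 0, hc, fun x _ => ⟨hc, by rw [pow_zero, mul_one]⟩⟩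

lemma PB.pw (k : ℕ) : PB fun x => x ^ k :=
  ⟨1, k, zero_le_one, fun x hx => ⟨by positivity, by rw [one_mul]⟩⟩

lemma PB.add {f g : ℝ → ℝ} (hf : PB f) (hg : PB g) : PB fun x => f x + g x := by
  obtain ⟨C, K, hC, h⟩ := hf
  obtain ⟨C', K', hC', h'⟩ := hg
  refine ⟨C + C', K + K', by linarith, fun x hx => ⟨add_nonneg (h x hx).1 (h' x hx).1, ?_⟩⟩
  have h1 : x ^ K ≤ x ^ (K + K') := pow_le_pow_right₀ hx (by omega)
  have h2 : x ^ K' ≤ x ^ (K + K') := pow_le_pow_right₀ hx (by omega)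
  calc f x + g x ≤ C * x ^ K + C' * x ^ K' := add_le_add (h x hx).2 (h' x hx).2
    _ ≤ C * x ^ (K + K') + C' * x ^ (K + K') :=
        add_le_add (mul_le_mul_of_nonneg_left h1 hC) (mul_le_mul_of_nonneg_left h2 hC')
    _ = _ := by ring

lemma PB.mul {f g : ℝ → ℝ} (hf : PB f) (hg : PB g) : PB fun x => f x * g x := by
  obtain ⟨C, K, hC, h⟩ := hf
  obtain ⟨C', K', hC', h'⟩ := hg
  refine ⟨C * C', K + K', by positivity, fun x hx => ⟨mul_nonneg (h x hx).1 (h' x hx).1, ?_⟩⟩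
  have hx0 : 0 ≤ x := by linarith
  calc f x * g x ≤ (C * x ^ K) * (C' * x ^ K') :=
        mul_le_mul (h x hx).2 (h' x hx).2 (h' x hx).1 (by positivity)
    _ = _ := by rw [pow_add]; ring

lemma PB.pow {f : ℝ → ℝ} (hf : PB f) (k : ℕ) : PB fun x => f x ^ k := by
  induction k with
  | zero => simpa using PB.const zero_le_one
  | succ n ih =>
    have := ih.mul hf
    simpa [pow_succ] using this

lemma Mod_mono {N L : ℕ} [NeZero L] {P Q : SU N} {C C' : ℝ} (h : C ≤ C') {E : Tor L → Mt N}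
    {G : Ph N L → ℝ} (hM : Mod N L P Q C E G) : Mod N L P Q C' E G := by
  obtain ⟨h1, h2, h3, h4, h5, h6, h7, h8, h9⟩ := hM
  exact ⟨h1, h2, h3, h4, h5, h6, fun φ => (h7 φ).trans h, h8, fun φ a ρ hρ hρ1 h10 =>
    (h9 φ a ρ hρ hρ1 h10).trans (mul_le_mul_of_nonneg_right h (sq_nonneg _))⟩

end T2H02.TT.PkgUI

namespace T2H02.TT

open PkgM0 PkgM1 PkgM1u PkgUI in
theorem pUI (hB0 : S_B0) (hD1 : S_D1u) (hE4 : S_E4) (hG : S_Gu) (hG3 : S_G3u) (hJ : S_Ju)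
    (hJI : S_JI) (hJM : S_JM) (hK : S_Ku) (hL1 : S_L1u) (hL2 : S_L2u) (hL3 : S_L3u)
    (hT1 : S_UT1) (hT2 : S_UT2) : S_UI := by
  intro N k hN hk P Q hPQ C₁ K₁
  obtain ⟨hEm, -, -, hEn, -, ⟨CE, hCE, hEe⟩, E, C₀, hC₀, hEc, hE0, hEa, hEb⟩ := hE4 N hN
  obtain ⟨CK, KK, hCK, HK⟩ := hK N k hN hk P Q hPQ E C₀ hEc hE0 hEb
  obtain ⟨CL, KL, hCL, HL1⟩ := hL1 N k hN hk P Q hPQ
  obtain ⟨C2, hC2, HL2⟩ := hL2 N k hN P Q
  obtain ⟨C3, K3, hC3, HL3⟩ := hL3 N hN P Q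
  obtain ⟨CG, KG, D, hCG, HG⟩ := hG N k hN hk
  obtain ⟨Ce, Ke, hCe, HG3⟩ := hG3 N k hN
  obtain ⟨CD, KD, hCD, HD⟩ := hD1 N k hN hk P Q hPQ
  obtain ⟨CJ, KJ, hCJ, HJ⟩ := hJ N k hN hk P Q hPQ
  obtain ⟨CT, hCT, HT⟩ := hT2 N hN P Q E C₀ ⟨hC₀, hEc, hE0, hEa, hEb⟩
  obtain ⟨c₁, hc₁⟩ : ∃ c₁, c₁ = |C₁| := ⟨_, rfl⟩
  have hc₁0 : 0 ≤ c₁ := by rw [hc₁]; exact abs_nonneg _
  have hCE0 : 0 ≤ CE := hCE.le
  have hCK0 : 0 ≤ CK := by linarith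
  have hCL0 : 0 ≤ CL := by linarith
  have hC20 : 0 ≤ C2 := by linarith
  have hC30 : 0 ≤ C3 := by linarith
  have hCG0 : 0 ≤ CG := by linarith
  have hCe0 : 0 ≤ Ce := by linarith
  have hCD0 : 0 ≤ CD := by linarith
  have hCJ0 : 0 ≤ CJ := by linarith
  have hCT0 : 0 ≤ CT := by linarith
  have hN0 : (0 : ℝ) ≤ N := Nat.cast_nonneg N
  -- the constants as functions of `L`
  obtain ⟨K1, hK1⟩ : ∃ K1 : ℝ → ℝ, K1 = fun x => (3 + CK * x ^ KK + 1) + 2 * CE := ⟨_, rfl⟩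
  obtain ⟨Mo, hMo⟩ : ∃ Mo : ℝ → ℝ, Mo = fun x => c₁ * x ^ K₁ := ⟨_, rfl⟩
  obtain ⟨D1, hD1'⟩ : ∃ D1 : ℝ → ℝ, D1 = fun x => 32 * (CL * x ^ KL) * K1 x ^ 3 +
    8 * (C3 * x ^ K3) + 12 * Mo x * K1 x ^ 2 + x ^ 2 * N := ⟨_, rfl⟩
  obtain ⟨C6, hC6⟩ : ∃ C6 : ℝ → ℝ, C6 = fun x => (CJ * x ^ KJ + 1) *
    (CD * x ^ KD + 2 * x ^ 2 + 2) := ⟨_, rfl⟩
  have bK1 : PB K1 := by
    rw [hK1]
    exact (((PB.const (by norm_num)).add ((PB.const hCK0).mul (PB.pw KK))).add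
      (PB.const zero_le_one)).add (PB.const (by positivity))
  have bMo : PB Mo := by rw [hMo]; exact (PB.const hc₁0).mul (PB.pw K₁)
  have bD1 : PB D1 := by
    rw [hD1']
    exact (((((PB.const (by norm_num)).mul ((PB.const hCL0).mul (PB.pw KL))).mul (bK1.pow 3)).add
      ((PB.const (by norm_num)).mul ((PB.const hC30).mul (PB.pw K3)))).add
      (((PB.const (by norm_num)).mul bMo).mul (bK1.pow 2))).add ((PB.pw 2).mul (PB.const hN0))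
  have bC6 : PB C6 := by
    rw [hC6]
    exact (((PB.const hCJ0).mul (PB.pw KJ)).add (PB.const zero_le_one)).mul
      ((((PB.const hCD0).mul (PB.pw KD)).add ((PB.const (by norm_num)).mul (PB.pw 2))).add
        (PB.const (by norm_num)))
  have bCG : PB fun x => CG * x ^ KG := (PB.const hCG0).mul (PB.pw KG)
  have bCe : PB fun x => Ce * x ^ Ke := (PB.const hCe0).mul (PB.pw Ke)
  have bCK : PB fun x => CK * x ^ KK := (PB.const hCK0).mul (PB.pw KK)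
  have b1 : PB fun x => 2 * (C6 x * (288 * (CG * x ^ KG) * (Ce * x ^ Ke) + 3)) :=
    (PB.const (by norm_num)).mul (bC6.mul ((((PB.const (by norm_num)).mul bCG).mul bCe).add
      (PB.const (by norm_num))))
  have b2 : PB fun x => 2 * C6 x * ((Ce * x ^ Ke) * CT ^ 2) :=
    ((PB.const (by norm_num)).mul bC6).mul (bCe.mul (PB.const (by positivity)))
  have b4 : PB fun x => ((CK * x ^ KK) + 2) * C2 :=
    (bCK.add (PB.const (by norm_num))).mul (PB.const hC20)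
  have b5 : PB fun x => 24 * D1 x := (PB.const (by norm_num)).mul bD1
  have b6 : PB fun _ => 64 * (N : ℝ) * C2 := PB.const (by positivity)
  have b7 : PB fun x => 4 * D1 x ^ 2 + 576 * D1 x ^ 3 + 15 * D1 x :=
    (((PB.const (by norm_num)).mul (bD1.pow 2)).add ((PB.const (by norm_num)).mul (bD1.pow 3))).add
      ((PB.const (by norm_num)).mul bD1)
  have b8 : PB fun x => 64 * D1 x * N := ((PB.const (by norm_num)).mul bD1).mul (PB.const hN0)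
  have b9 : PB fun x => 5 * Mo x + 4 + 48 * Mo x ^ 2 :=
    (((PB.const (by norm_num)).mul bMo).add (PB.const (by norm_num))).add
      ((PB.const (by norm_num)).mul (bMo.pow 2))
  obtain ⟨C', K', hC', hb⟩ := ((((((((b1.add b2).add bK1).add b4).add b5).add b6).add b7).add b8).add
    b9).add bCG
  obtain ⟨C, hC⟩ : ∃ C : ℝ, C = C' + C2 + 1 := ⟨_, rfl⟩
  have hC1 : 1 ≤ C := by rw [hC]; linarith
  refine ⟨C, K', D, hC1, ?_⟩
  intro L _ β hβ hβ1 F G hMod' Λ e t r he ht hr hβr hcond σ hσ ψ hψ hψ2 b hbΛ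
  obtain ⟨x, hx⟩ : ∃ x : ℝ, x = (L : ℝ) := ⟨_, rfl⟩
  have hx1 : 1 ≤ x := by
    rw [hx]
    exact_mod_cast Nat.one_le_iff_ne_zero.2 (NeZero.ne L)
  have hpw : ∀ a : ℕ, 1 ≤ x ^ a := fun a => one_le_pow₀ hx1
  have hxp : ∀ (c : ℝ) (a : ℕ), 1 ≤ c → 1 ≤ c * x ^ a := by
    intro c a hc
    have := hpw a
    nlinarith
  have hMod : Mod N L P Q (Mo x) F G := by
    refine Mod_mono ?_ hMod'
    rw [hMo, hx, hc₁]
    exact mul_le_mul_of_nonneg_right (le_abs_self _) (by positivity)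
  have hbx := (hb x hx1).2
  have hCx : C' * x ^ K' ≤ C * x ^ K' := by
    refine mul_le_mul_of_nonneg_right ?_ (by positivity)
    rw [hC]; linarith
  have p1 := (b1.choose_spec.choose_spec.2 x hx1).1
  have p2 := (b2.choose_spec.choose_spec.2 x hx1).1
  have p3 := (bK1.choose_spec.choose_spec.2 x hx1).1
  have p4 := (b4.choose_spec.choose_spec.2 x hx1).1
  have p5 := (b5.choose_spec.choose_spec.2 x hx1).1
  have p6 := (b6.choose_spec.choose_spec.2 x hx1).1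
  have p7 := (b7.choose_spec.choose_spec.2 x hx1).1
  have p8 := (b8.choose_spec.choose_spec.2 x hx1).1
  have p9 := (b9.choose_spec.choose_spec.2 x hx1).1
  have p10 := (bCG.choose_spec.choose_spec.2 x hx1).1
  have pMo := (bMo.choose_spec.choose_spec.2 x hx1).1
  have hK13 : 3 ≤ K1 x := by
    rw [hK1]
    have : 0 ≤ CK * x ^ KK := by positivity
    dsimp only
    linarith
  have hD11 : 1 ≤ D1 x := by
    rw [hD1']
    dsimp only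
    have h1 := hxp C3 K3 hC3
    have h2 : 0 ≤ 32 * (CL * x ^ KL) * K1 x ^ 3 := by positivity
    have h3 : 0 ≤ 12 * Mo x * K1 x ^ 2 := by positivity
    have h4 : 0 ≤ x ^ 2 * N := by positivity
    linarith
  have hC61 : 1 ≤ C6 x := by
    rw [hC6]
    dsimp only
    have e1 : 0 ≤ CJ * x ^ KJ := by positivity
    have e2 : 0 ≤ CD * x ^ KD + 2 * x ^ 2 := by positivity
    nlinarith
  obtain ⟨hFs, hF1, hF0, hFe, hGc, hGg, hGb, hGz, hGl⟩ := id hMod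
  obtain ⟨-, -, -, hL3b⟩ := pL3 N L hN P Q
  have H : Frm P Q L (C3 * (L : ℝ) ^ K3) :=
    ⟨fun τ a b r s hr hs h => HL3 L τ a b r s hr hs h,
      fun τ a b c => (hL3b τ a b c).1, fun τ a b => (hL3b τ a b a).2⟩
  have := core (L := L) (P := P) (Q := Q) (E := E) (CG := CG * x ^ KG) (Ce := Ce * x ^ Ke)
    (C6 := C6 x) (C2 := C2) (CT := CT) (CK := CK * x ^ KK) (K1 := K1 x) (D1 := D1 x) (Mo := Mo x)
    (D := D * L ^ 2) (F := F) (G := G) (C := C * x ^ K') (C₁ := C) hJI hJM hB0 hN hk hPQ hEc hE0 hEa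
    (hxp _ _ hCG) (hxp _ _ hCe) hC61 hC2 hCT (by positivity) hK13 hD11
    (by rw [hx]; exact fun β hβ hβ1 U t ht η => HG L β hβ hβ1 U t ht η)
    (by rw [hx]; exact (HG3 L).1)
    (by
      rw [hC6, hx]
      exact gfixu hJI hN (by positivity) (by positivity) (HD L) (HJ L))
    (HL2 L) (fun h ρ X h1 h2 l => HT L h ρ X h1 h2 l) hFs (F_le hF1) hGc hGg hGb
    (fun Λ ρ s h1 h2 h3 h4 ψ h5 h6 X h7 =>
      det2 (CL := CL * x ^ KL) (C3 := C3 * x ^ K3) hCE0 (by positivity) (by positivity)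
        (by positivity) hEm hEn hEe (by rw [hx]; exact fun h ρ X h1 h2 h3 => HK L h ρ X h1 h2 h3)
        (by rw [hx]; exact fun τ X a ρ h1 h2 h3 => HL1 L τ X a ρ h1 h2 h3)
        (by rw [hx]; exact H) hK13
        (by
          rw [hK1]
          dsimp only
          linarith) hMod
        (fun Λ ψ h1 a h2 => hT1 N k hN hk P Q hPQ L F hFs hF0 hFe Λ ψ h1 a h2)
        (by rw [hD1', hx]) h1 h2 h3 h4 h5 h6 h7)
    hC1 (by linarith) (by linarith) (by linarith) (by linarith) (by linarith) (by linarith)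
    (by linarith) (by linarith) (by linarith) (by linarith) (by rw [hC]; linarith)
    β hβ hβ1 Λ e t r he ht (by rw [hx]; exact hr) hβr (by rw [hx]; exact hcond) σ hσ ψ hψ hψ2 b hbΛ
  rw [hx] at this
  exact this

end T2H02.TT
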