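import Pool.Agent.T2H02.TT.StmY
import Pool.Agent.T2H02.TT.UK

/-!
# Package VK : the Ward identity for the Wilson expectation in large finite volumes, for bounded
functions of the field (port of UK)
-/

set_option autoImplicit false
set_option linter.unusedSectionVars false
set_option linter.unusedVariables false

noncomputable section

open MeasureTheory Matrix
open scoped Matrix.Norms.Frobenius

namespace T2H02.TT

namespace PkgVK

open PkgUK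

section abstractpart

variable {ι Tm X : Type} [DecidableEq ι] [DecidableEq Tm] [MeasurableSpace X]
  (S : Sys ι Tm X) (μ : Measure X) [IsProbabilityMeasure μ]

lemma ex_add (T : Finset Tm) (F H : (ι → X) → ℝ) (hF : Measurable F) (bF : ∃ K, ∀ ω, |F ω| ≤ K)
    (hH : Measurable H) (bH : ∃ K, ∀ ω, |H ω| ≤ K) (c : ℝ) :
    S.ex μ T (fun ω => F ω + c * H ω) = S.ex μ T F + c * S.ex μ T H := by
  unfold Sys.ex
  rw [← mul_div_assoc, ← add_div, ← integral_const_mul,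
    ← integral_add (f_int S μ T F hF bF) ((f_int S μ T H hH bH).const_mul c)]
  congr 1
  refine integral_congr_ae (Filter.Eventually.of_forall fun ω => ?_)
  show (F ω + c * H ω) * _ = F ω * _ + c * (H ω * _)
  ring

end abstractpart

variable {N L : ℕ} [NeZero L]

lemma fl_inv (β : ℝ) (w : Pl → ℝ) (G : Ph N L → ℝ) (Λ : Finset Pl) (x : Pl) (n : ℕ)
    (X : Cf N L) : fl β w G Λ (mvh x n X) = fl β w G Λ X := by
  unfold fl
  simp only [pt_mvh]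

lemma fl_meas (β : ℝ) (w : Pl → ℝ) (G : Ph N L → ℝ) (hG : Continuous G) (Λ : Finset Pl) :
    Measurable (fl β w G Λ : Cf N L → ℝ) := by
  unfold fl
  exact (Finset.measurable_sum _ fun b _ => (hG.measurable.comp (pt_meas b)).const_mul _).const_mul _

lemma fl_bd (β : ℝ) (w : Pl → ℝ) (c : ℝ) (hw : ∀ x, |w x| ≤ c) (G : Ph N L → ℝ) (M : ℝ)
    (hG : ∀ φ, |G φ| ≤ M) (Λ : Finset Pl) (X : Cf N L) :
    |fl β w G Λ X| ≤ Real.sqrt β * (Λ.card * (c * M)) := by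
  unfold fl
  rw [abs_mul, abs_of_nonneg (Real.sqrt_nonneg _)]
  refine mul_le_mul_of_nonneg_left ?_ (Real.sqrt_nonneg _)
  refine (Finset.abs_sum_le_sum_abs _ _).trans ?_
  calc ∑ b ∈ Λ, |w b * G (pt X b)| ≤ ∑ b ∈ Λ, c * M := Finset.sum_le_sum fun b _ => by
        rw [abs_mul]
        exact mul_le_mul (hw b) (hG _) (abs_nonneg _) ((abs_nonneg _).trans (hw b))
    _ = _ := by rw [Finset.sum_const, nsmul_eq_mul]

lemma sc_bd (ψ : Pl → ℝ) (hψ : ∀ x, |ψ x| ≤ 1) (x : Pl) : |sc N L ψ x| ≤ 12 := by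
  have a1 := abs_le.1 (hψ x)
  have a2 := abs_le.1 (hψ (x + (1, 0)))
  have a3 := abs_le.1 (hψ (x - (1, 0)))
  have a4 := abs_le.1 (hψ (x + (0, 1)))
  have a5 := abs_le.1 (hψ (x - (0, 1)))
  have a6 : |mu2 N L * ψ x| ≤ 4 := by
    rw [abs_mul, abs_of_nonneg (mu2_le N L).1]
    have := mul_le_mul (mu2_le N L).2 (hψ x) (abs_nonneg _) (by norm_num)
    linarith
  rw [abs_le] at a6
  unfold sc lap
  rw [abs_le]
  constructor <;> linarith [a1.1, a1.2, a2.1, a2.2, a3.1, a3.2, a4.1, a4.2, a5.1, a5.2, a6.1, a6.2]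

/-- the probabilistic part -/
lemma core' (h4 : S_F4) (h5 : S_F5) (hOA : S_OA) (hN : 2 ≤ N) (k : ℕ) (β : ℝ) (hβ' : 0 < β)
    (hβ : 0 ≤ β)
    (R Λ Δ : Finset Pl) (hΛ : tml Λ ⊆ tin R) (hΔ : tml Δ ⊆ tin R)
    (f : Cf N L → ℝ) (hf : Measurable f) (F₀ : ℝ) (hb : ∀ X, |f X| ≤ F₀)
    (hinv : ∀ x n X, f (mvh x n X) = f X)
    (Bd : Cf N L → ℝ) (mB : Measurable Bd) (hB : ∀ X, Bd X = 0 ∨ Bd X = 1) (p : ℝ)
    (hp : ∀ η, (sysS N L k β hN hβ).ker (hm N) Δ Bd η ≤ p) (er : ℝ) (her : 0 ≤ er)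
    (hgood : ∀ η, Bd η = 0 → |(sysS N L k β hN hβ).ker (hm N) Λ f η| ≤ er) :
    |wex N L k β R f| ≤ er + (F₀ + 1) * p := by
  have e0 : β * β⁻¹ = 1 := mul_inv_cancel₀ hβ'.ne'
  obtain ⟨-, -, hlin, -, -, -⟩ := h5 (Lk L) Tm (SU N) (sysS N L k β hN hβ) (hm N) Λ
  have h1 := core (L := L) h4 h5 hOA hN k β hβ R Λ Δ hΛ hΔ (fun X => β⁻¹ * f X)
    (hf.const_mul _) (β⁻¹ * F₀) (fun X => by
      rw [abs_mul, abs_of_nonneg (inv_nonneg.2 hβ)]
      exact mul_le_mul_of_nonneg_left (hb X) (inv_nonneg.2 hβ)) (fun x n X => by rw [hinv])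
    Bd mB hB p hp 0 er her (by simp) (fun η hη => by
      rw [(hlin f f hf ⟨F₀, hb⟩ hf ⟨F₀, hb⟩ η).2.2 β⁻¹, ← mul_assoc, e0, one_mul, sub_zero]
      exact hgood η hη)
  have h2 : wex N L k β R (fun X => β⁻¹ * f X) = β⁻¹ * wex N L k β R f := by
    unfold wex
    rw [← mul_div_assoc, ← integral_const_mul]
    simp only [mul_assoc]
  rw [h2, ← mul_assoc, ← mul_assoc, e0, one_mul, one_mul, sub_zero] at h1
  exact h1

end PkgVK

open PkgUK PkgVK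

/-- **Package VK.** -/
theorem pVK (h4 : S_F4) (h5 : S_F5) (hH : S_Hu) (hOA : S_OA) (hVJ : S_VJ) : S_VK := by
  intro N k hN hk P Q hPQ C₁ K₁
  obtain ⟨CH, KH, DH, hCH, hHu⟩ := hH N k hN hk
  obtain ⟨CJ, KJ, DJ, hCJ, hJ⟩ := hVJ N k hN hk P Q hPQ C₁ K₁
  obtain ⟨A, hA⟩ : ∃ A : ℝ, A = CH + CJ + DH + DJ + (12 * |C₁| + 1) + 9 + 64000000 := ⟨_, rfl⟩
  obtain ⟨K, hK⟩ : ∃ K : ℕ, K = KH + KJ + K₁ + 2 := ⟨_, rfl⟩
  have hDH0 : (0 : ℝ) ≤ DH := Nat.cast_nonneg _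
  have hDJ0 : (0 : ℝ) ≤ DJ := Nat.cast_nonneg _
  have hC1 : 0 ≤ |C₁| := abs_nonneg _
  have hA1 : 1 ≤ A := by rw [hA]; linarith
  refine ⟨2 * A ^ 1000, K * 1000, two_le A hA1, ?_⟩
  intro L _ β n hβ E G hMod
  -- the scale
  have hL1 : (1 : ℝ) ≤ L := by exact_mod_cast Nat.one_le_iff_ne_zero.2 (NeZero.ne L)
  have hn0 : (0 : ℝ) ≤ n := Nat.cast_nonneg _
  obtain ⟨hLx, hnx⟩ := scale2 (L : ℝ) n hL1 hn0
  generalize (L : ℝ) * (n + 1) = x at hLx hnx hβ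
  have hx1 : 1 ≤ x := hL1.trans hLx
  obtain ⟨s, hβs, hs0, hsA, hβ1⟩ := scale A x β K hA1 hx1 hβ
  clear hβ
  have hβ0 : 0 ≤ β := le_trans zero_le_one hβ1
  have key : ∀ (c : ℝ) (j : ℕ) (y : ℝ), 0 ≤ c → c ≤ A → j ≤ K → 0 ≤ y → y ≤ x →
      c * y ^ j ≤ s := by
    intro c j y hc hcA hjK hy hyx
    refine le_trans ?_ hsA
    calc c * y ^ j ≤ A * x ^ j := by gcongr
      _ ≤ A * x ^ K := by
          have := pow_le_pow_right₀ hx1 hjK
          gcongr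
  have hs64 : 64000000 ≤ s := by
    have := key 64000000 0 0 (by norm_num) (by rw [hA]; linarith) (by omega) le_rfl (by linarith)
    simpa using this
  have hL0 : (0 : ℝ) ≤ L := by linarith
  have haH : CH * (L : ℝ) ^ KH ≤ s :=
    key _ _ _ (by linarith) (by rw [hA]; linarith) (by omega) hL0 hLx
  have haJ : CJ * (L : ℝ) ^ KJ ≤ s :=
    key _ _ _ (by linarith) (by rw [hA]; linarith) (by omega) hL0 hLx
  have haH1 : 1 ≤ CH * (L : ℝ) ^ KH := one_le_mul_of_one_le_of_one_le hCH (one_le_pow₀ hL1)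
  have haJ1 : 1 ≤ CJ * (L : ℝ) ^ KJ := one_le_mul_of_one_le_of_one_le hCJ (one_le_pow₀ hL1)
  have hdH : (DH : ℝ) * (L : ℝ) ^ 2 ≤ s :=
    key _ _ _ hDH0 (by rw [hA]; linarith) (by omega) hL0 hLx
  have hdJ : (DJ : ℝ) * (L : ℝ) ^ 2 ≤ s :=
    key _ _ _ hDJ0 (by rw [hA]; linarith) (by omega) hL0 hLx
  have hM2 : 12 * (C₁ * (L : ℝ) ^ K₁) + 1 ≤ s := by
    have h1 := key (12 * |C₁| + 1) K₁ L (by positivity) (by rw [hA]; linarith) (by omega) hL0 hLx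
    have h2 : (1 : ℝ) ≤ (L : ℝ) ^ K₁ := one_le_pow₀ hL1
    have h3 : C₁ * (L : ℝ) ^ K₁ ≤ |C₁| * (L : ℝ) ^ K₁ :=
      mul_le_mul_of_nonneg_right (le_abs_self _) (by positivity)
    nlinarith
  have hns : (n : ℝ) + 1 ≤ s := by
    have := key 1 1 (n + 1) (by norm_num) hA1 (by omega) (by linarith) hnx
    simpa using this
  have hCJs : CJ ≤ s := by
    have := key CJ 0 0 (by linarith) (by rw [hA]; linarith) (by omega) le_rfl (by linarith)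
    simpa using this
  -- the sets
  set Λ : Finset Pl := Nb (n + 1) 0 with hΛ
  set B : Finset Pl := Nb (n + 2) 0 with hB
  have hΛc : ((Λ.card : ℕ) : ℝ) ≤ s := by
    rw [hΛ, card_Nb]
    have := key 9 2 (n + 1) (by norm_num) (by rw [hA]; linarith) (by omega) (by linarith) hnx
    push_cast
    exact le_trans (nin n hn0) this
  have hΛ1 : (1 : ℝ) ≤ Λ.card := by
    rw [hΛ, card_Nb]
    exact_mod_cast Nat.one_le_pow _ _ (by omega)
  obtain ⟨R', hR'1, hR'2⟩ : ∃ R' : ℕ, s ^ 2 ≤ R' ∧ (R' : ℝ) ≤ s ^ 2 + 1 :=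
    ⟨⌈s ^ 2⌉₊, Nat.le_ceil _, (Nat.ceil_lt_add_one (by positivity)).le⟩
  set Δ : Finset Pl := bal (R' + 1) B with hΔ
  have hΔc : ((Δ.card : ℕ) : ℝ) ≤ s ^ 6 := by
    have h1 : Δ ⊆ Nb (n + 2 + (R' + 1)) 0 := by
      intro a ha
      rw [hΔ, bal, Finset.mem_biUnion] at ha
      obtain ⟨b, hb, hab⟩ := ha
      exact Nb_trans _ _ _ _ _ hb hab
    have h2 := Finset.card_le_card h1
    rw [card_Nb] at h2
    have h3 : ((Δ.card : ℕ) : ℝ) ≤ (2 * ((n : ℝ) + 2 + (R' + 1)) + 1) ^ 2 := by exact_mod_cast h2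
    refine h3.trans ?_
    have h4 : 2 * ((n : ℝ) + 2 + (R' + 1)) + 1 ≤ s ^ 3 := cub2 s R' n hs64 hR'2 hns
    calc (2 * ((n : ℝ) + 2 + (R' + 1)) + 1) ^ 2 ≤ (s ^ 3) ^ 2 := by gcongr
      _ = s ^ 6 := by rw [← pow_mul]
  have hΛB : Λ ⊆ B := Nb_mono _ _ (by omega) 0
  have hBΔ : B ⊆ Δ := by
    intro a ha
    rw [hΔ, bal, Finset.mem_biUnion]
    refine ⟨a, ha, ?_⟩
    rw [mem_Nb]
    simp
    omega
  have hBΔ' : B ∩ Δ = B := Finset.inter_eq_left.2 hBΔ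
  have html : ∀ U V : Finset Pl, U ⊆ V → tml U ⊆ tml V := by
    intro U V h τ hτ
    rw [mem_tml] at hτ ⊢
    obtain ⟨a, ha, haU⟩ := hτ
    exact ⟨a, ha, h haU⟩
  refine ⟨(n + 2) + (R' + 1 + 1), fun R hR ψ w hψ hw hψn h h' hGd => ?_⟩
  have hΔR : tml Δ ⊆ tin R :=
    tml_tin B R (R' + 1) fun a ha c hc => hR (Nb_trans _ _ _ _ _ ha hc)
  have hΛR : tml Λ ⊆ tin R := (html _ _ (hΛB.trans hBΔ)).trans hΔR
  -- the mode
  obtain ⟨-, -, -, -, hGc, -, hGb, -⟩ := id hMod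
  -- the parameters
  obtain ⟨t, ht⟩ : ∃ t, t = s ^ 10 / β := ⟨_, rfl⟩
  have ht0 : 0 ≤ t := by rw [ht]; positivity
  obtain ⟨e, he⟩ : ∃ e, e = CH * (L : ℝ) ^ KH *
    (Δ.card * (Real.exp (-R' / (CH * (L : ℝ) ^ KH)) + 0) + t) := ⟨_, rfl⟩
  obtain ⟨he0, hes⟩ := real_e s β t _ e hs64 hβs ht haH1 haH R' Δ.card hR'1 hΔc he
  obtain ⟨r, hr⟩ : ∃ r, r = CJ * (L : ℝ) ^ KJ * Λ.card * (Λ.card * e + t) := ⟨_, rfl⟩
  obtain ⟨hr1, hr2, hr3, hr4⟩ := real_r s β t _ e r hs64 hβs ht haJ1 haJ Λ.card hΛ1 hΛc he0 hes hr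
  have hr0 : 0 ≤ r := le_trans (by positivity) hr1
  -- the bad event
  set Bd : Cf N L → ℝ := fun X => ind (CH * (L : ℝ) ^ KH *
    ((bal (R' + 1) B).card * (Real.exp (-R' / (CH * (L : ℝ) ^ KH)) + 0) + t) ≤
        ∑ τ ∈ tml (B ∩ Δ), en k X τ) with hBd
  have mB : Measurable Bd := PkgH.ind_meas _ _ measurable_const (PkgH.en_meas k hN _)
  have hB01 : ∀ X, Bd X = 0 ∨ Bd X = 1 := by
    intro X
    rw [hBd]
    simp only [ind]
    split_ifs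
    · exact Or.inr rfl
    · exact Or.inl rfl
  set p : ℝ := (R' + 1) * (Real.exp (-β * t) * (CH * (L : ℝ) ^ KH * β) ^ (DH * L ^ 2 * Δ.card)) with hp
  have hker : ∀ η, (sysS N L k β hN hβ0).ker (hm N) Δ Bd η ≤ p := by
    intro η
    refine hHu L β hβ0 hβ1 Δ B R' 0 t le_rfl ht0 η fun τ hτ => ?_
    exact absurd (hτ τ.1 (self_cor τ)).1 (hτ τ.1 (self_cor τ)).2
  have hps : p ≤ Real.exp (-s) := by
    refine tail s β t _ hs64 hβs ht (by linarith) haH _ ?_ _ (by positivity) ?_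
    · push_cast
      calc (DH : ℝ) * (L : ℝ) ^ 2 * Δ.card ≤ s * s ^ 6 := by gcongr
        _ = s ^ 7 := by ring
    · exact cub1 s R' hs64 hR'2
  set q : ℝ := Real.exp (-β * t) * (CJ * (L : ℝ) ^ KJ * β) ^ (DJ * L ^ 2 * Λ.card) with hq
  have hq0 : 0 ≤ q := by positivity
  have hqs : q ≤ Real.exp (-s) := by
    have := tail s β t (CJ * (L : ℝ) ^ KJ) hs64 hβs ht (by linarith) haJ (DJ * L ^ 2 * Λ.card)
      (by
        push_cast
        calc (DJ : ℝ) * (L : ℝ) ^ 2 * Λ.card ≤ s * s := by gcongr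
          _ = s ^ 2 := by ring
          _ ≤ s ^ 7 := pow_le_pow_right₀ (by linarith) (by norm_num)) 1 zero_le_one
      (one_le_pow₀ (by linarith))
    rwa [one_mul] at this
  have hM0 : 0 ≤ C₁ * (L : ℝ) ^ K₁ := (abs_nonneg _).trans (hGb fun _ _ => 1)
  have hF : (12 * (C₁ * (L : ℝ) ^ K₁) + 1) * Λ.card ≤ s ^ 2 := by
    calc (12 * (C₁ * (L : ℝ) ^ K₁) + 1) * Λ.card ≤ s * s := by gcongr
      _ = s ^ 2 := by ring
  have hNb1 : ∀ x, ψ x ≠ 0 → Nb 1 x ⊆ Λ := fun x hx c hc =>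
    Nb_trans _ _ _ _ _ (hψn x hx) hc
  obtain ⟨hc1, hc2, hh1, hh2, -⟩ := id hGd
  obtain ⟨W, hW⟩ : ∃ W, W = ∑ b ∈ Λ, w b * ψ b := ⟨_, rfl⟩
  have hWb : |W| ≤ Λ.card := by
    rw [hW]
    refine (Finset.abs_sum_le_sum_abs _ _).trans ?_
    calc ∑ b ∈ Λ, |w b * ψ b| ≤ ∑ b ∈ Λ, (1 : ℝ) := Finset.sum_le_sum fun b _ => by
          rw [abs_mul]
          exact mul_le_one₀ (hw b) (abs_nonneg _) (hψ b)
      _ = Λ.card := by simp
  rw [← hW]
  -- the functions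
  obtain ⟨Y, hY⟩ : ∃ Y : Cf N L → ℝ, Y = fl β w G Λ := ⟨_, rfl⟩
  obtain ⟨Z, hZ⟩ : ∃ Z : Cf N L → ℝ, Z = fl β (sc N L ψ) G Λ := ⟨_, rfl⟩
  have mY : Measurable Y := by rw [hY]; exact fl_meas β w G hGc Λ
  have mZ : Measurable Z := by rw [hZ]; exact fl_meas β _ G hGc Λ
  have bZ : ∀ X, |Z X| ≤ Real.sqrt β * (Λ.card * (12 * (C₁ * (L : ℝ) ^ K₁))) := by
    intro X
    rw [hZ]
    exact fl_bd β _ 12 (sc_bd ψ hψ) G _ hGb Λ X
  have m1 : Measurable fun X => h (Y X) * Z X := (hc1.measurable.comp mY).mul mZ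
  have m2 : Measurable fun X => h' (Y X) := hc2.measurable.comp mY
  have b1 : ∀ X, |h (Y X) * Z X| ≤ Real.sqrt β * (Λ.card * (12 * (C₁ * (L : ℝ) ^ K₁))) := by
    intro X
    rw [abs_mul]
    calc |h (Y X)| * |Z X| ≤ 1 * (Real.sqrt β * (Λ.card * (12 * (C₁ * (L : ℝ) ^ K₁)))) :=
          mul_le_mul (hh1 _) (bZ X) (abs_nonneg _) zero_le_one
      _ = _ := one_mul _
  have b2 : ∀ X, |h' (Y X)| ≤ 1 := fun X => hh2 _
  have i1 : ∀ x n X, h (Y (mvh x n X)) * Z (mvh x n X) = h (Y X) * Z X := by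
    intro x n X
    rw [hY, hZ, fl_inv, fl_inv]
  have i2 : ∀ x n X, h' (Y (mvh x n X)) = h' (Y X) := by
    intro x n X
    rw [hY, fl_inv]
  obtain ⟨f, hf⟩ : ∃ f : Cf N L → ℝ, f = fun X => h (Y X) * Z X + (-W) * h' (Y X) := ⟨_, rfl⟩
  have mf : Measurable f := by rw [hf]; exact m1.add (m2.const_mul _)
  have hsq : Real.sqrt β ≤ β := by
    rw [Real.sqrt_le_left hβ0]
    nlinarith
  have bf : ∀ X, |f X| ≤ β * ((12 * (C₁ * (L : ℝ) ^ K₁) + 1) * Λ.card) := by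
    intro X
    rw [hf]
    refine (abs_add_le _ _).trans ?_
    have k1 := b1 X
    have k2 : |(-W) * h' (Y X)| ≤ β * Λ.card := by
      rw [abs_mul, abs_neg]
      calc |W| * |h' (Y X)| ≤ Λ.card * 1 := mul_le_mul hWb (b2 X) (abs_nonneg _) (by positivity)
        _ = 1 * Λ.card := by ring
        _ ≤ β * Λ.card := mul_le_mul_of_nonneg_right hβ1 (by positivity)
    have k3 : Real.sqrt β * (Λ.card * (12 * (C₁ * (L : ℝ) ^ K₁))) ≤
        β * (Λ.card * (12 * (C₁ * (L : ℝ) ^ K₁))) :=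
      mul_le_mul_of_nonneg_right hsq (by positivity)
    calc _ ≤ β * (Λ.card * (12 * (C₁ * (L : ℝ) ^ K₁))) + β * Λ.card := by linarith
      _ = _ := by ring
  have invf : ∀ x n X, f (mvh x n X) = f X := by
    intro x n X
    rw [hf]
    simp only [i1, i2]
  have hwex : wex N L k β R f = wex N L k β R (fun X => h (Y X) * Z X) -
      W * wex N L k β R (fun X => h' (Y X)) := by
    rw [wex_ex0 hOA hN k β hβ0 R f mf ⟨_, bf⟩ invf,
      wex_ex0 hOA hN k β hβ0 R _ m1 ⟨_, b1⟩ i1, wex_ex0 hOA hN k β hβ0 R _ m2 ⟨_, b2⟩ i2, hf,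
      ex_add _ _ _ _ _ m1 ⟨_, b1⟩ m2 ⟨_, b2⟩]
    ring
  rw [hY, hZ] at hwex
  rw [← hwex]
  have hkf : ∀ η, (sysS N L k β hN hβ0).ker (hm N) Λ f η =
      (sysS N L k β hN hβ0).ker (hm N) Λ (fun X => h (Y X) * Z X) η -
        W * (sysS N L k β hN hβ0).ker (hm N) Λ (fun X => h' (Y X)) η := by
    intro η
    obtain ⟨-, -, hlin, -, -, -⟩ := h5 (Lk L) Tm (SU N) (sysS N L k β hN hβ0) (hm N) Λ
    have a1 := (hlin (fun X => h (Y X) * Z X) (fun X => (-W) * h' (Y X)) m1 ⟨_, b1⟩ (m2.const_mul _)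
      ⟨|W| * 1, fun X => by
        rw [abs_mul, abs_neg]
        exact mul_le_mul_of_nonneg_left (b2 X) (abs_nonneg _)⟩ η).2.1
    have a2 := (hlin (fun X => h' (Y X)) (fun X => h' (Y X)) m2 ⟨_, b2⟩ m2 ⟨_, b2⟩ η).2.2 (-W)
    rw [hf, a1, a2]
    ring
  have hmain := core' (L := L) h4 h5 hOA hN k β (lt_of_lt_of_le zero_lt_one hβ1) hβ0 R Λ Δ hΛR hΔR f
    mf _ bf invf Bd mB hB01 p hker
    (CJ * (L : ℝ) ^ KJ * (Λ.card : ℝ) ^ 2 * (β ^ 2 * (r ^ 2 * Real.sqrt (Real.sqrt r)) +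
        β ^ 2 * (q + Real.exp (-β / CJ)))) (by positivity) (fun η hη => by
      rw [hkf, hY, hZ, hW]
      refine hJ L β hβ0 hβ1 E G hMod Λ e t r he0 ht0 hr hr1 hr4 η (fun τ hτ => ?_) ψ w hψ hw hNb1
        h h' hGd
      by_contra hcon
      push Not at hcon
      have h1 : ind (CH * (L : ℝ) ^ KH *
          ((bal (R' + 1) B).card * (Real.exp (-R' / (CH * (L : ℝ) ^ KH)) + 0) + t) ≤
          ∑ τ ∈ tml (B ∩ Δ), en k η τ) = 1 := by
        refine PkgH.ind_true ?_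
        rw [hBΔ', ← hΔ, ← he]
        refine hcon.le.trans ?_
        refine Finset.single_le_sum (f := fun τ => en k η τ) (fun σ _ => en_nonneg k η σ) ?_
        have h2 : τ ∈ tml (pls Λ) := (Finset.mem_filter.1 hτ).1
        refine html (pls Λ) B ?_ h2
        intro a ha
        rw [pls, Finset.mem_biUnion] at ha
        obtain ⟨c, hc, hac⟩ := ha
        exact Nb_trans (n + 1) 1 _ _ _ hc hac
      have h3 : Bd η = 1 := h1
      rw [h3] at hη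
      norm_num at hη)
  refine hmain.trans ?_
  exact real_fin s β _ r q p CJ _ hs64 hβs (by linarith) haJ Λ.card hΛc hr0 hr2 hr3 hq0 hqs hps
    (by linarith) hCJs (by positivity) hF

end T2H02.TT
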