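import Pool.Agent.T2H02.TT.Fin7
import Pool.Agent.T2H02.TT.Stm4

/-!
# Reflection positivity of the infinite volume state and the spectral gap
-/

set_option autoImplicit false
set_option linter.unusedSectionVars false

noncomputable section

open MeasureTheory Matrix Filter Topology
open scoped Matrix.Norms.Frobenius

namespace T2H02.TT

variable {N L : ℕ} [NeZero L]

/-! ### real lemmas -/

lemma cs_real (A B C : ℝ) (hC : 0 ≤ C) (h : ∀ t : ℝ, 0 ≤ A + 2 * t * B + t ^ 2 * C) : B ^ 2 ≤ A * C := by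
  rcases hC.eq_or_lt with h0 | h0
  · rw [← h0]
    by_contra hB
    have hB' : B ≠ 0 := by
      rintro rfl
      exact hB (by simp)
    have := h (-(A + 1) / (2 * B))
    rw [← h0] at this
    have e : A + 2 * (-(A + 1) / (2 * B)) * B + (-(A + 1) / (2 * B)) ^ 2 * 0 = -1 := by
      field_simp
      ring
    rw [e] at this
    linarith
  · have := h (-B / C)
    have e : A + 2 * (-B / C) * B + (-B / C) ^ 2 * C = (A * C - B ^ 2) / C := by
      field_simp
      ring
    rw [e] at this
    have h2 := mul_nonneg this h0.le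
    rw [div_mul_cancel₀ _ h0.ne'] at h2
    linarith

/-- log-convex sequences with exponential decay -/
lemma logconv (G : ℕ → ℝ) (K ρ : ℝ) (hρ : 0 < ρ) (h0 : ∀ j, 0 ≤ G j)
    (h1 : ∀ j, G (j + 1) ^ 2 ≤ G j * G (j + 2)) (h2 : ∀ j, G j ≤ K * ρ ^ j) (j : ℕ) :
    G j ≤ G 0 * ρ ^ j := by
  by_cases hz : ∃ i, G (i + 1) > ρ * G i
  · exfalso
    obtain ⟨i, hi⟩ := hz
    have hp : 0 < G (i + 1) := lt_of_le_of_lt (mul_nonneg hρ.le (h0 i)) hi
    have hpi : 0 < G i := by
      rcases (h0 i).eq_or_lt with h | h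
      · have := h1 i
        rw [← h, zero_mul] at this
        nlinarith
      · exact h
    set q := G (i + 1) / G i with hq
    have hqρ : ρ < q := by rw [hq, lt_div_iff₀ hpi]; exact hi
    have hq0 : 0 < q := hρ.trans hqρ
    have key : ∀ n, 0 < G (i + n) ∧ q * G (i + n) ≤ G (i + n + 1) := by
      intro n
      induction n with
      | zero =>
        refine ⟨hpi, ?_⟩
        rw [hq]
        simp only [add_zero]
        rw [div_mul_cancel₀ _ hpi.ne']
      | succ n ih =>
        obtain ⟨ih1, ih2⟩ := ih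
        have hp1 : 0 < G (i + (n + 1)) := lt_of_lt_of_le (mul_pos hq0 ih1) ih2
        refine ⟨hp1, ?_⟩
        have h3 := h1 (i + n)
        have h4 : G (i + n + 1) ^ 2 ≤ G (i + n) * G (i + n + 2) := h3
        have h5 : G (i + (n + 1)) = G (i + n + 1) := rfl
        have h6 : G (i + (n + 1) + 1) = G (i + n + 2) := rfl
        rw [h5] at hp1
        rw [h5, h6]
        have h7 : (q * G (i + n)) * G (i + n + 1) ≤ G (i + n) * G (i + n + 2) := by
          calc (q * G (i + n)) * G (i + n + 1) ≤ G (i + n + 1) * G (i + n + 1) :=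
                mul_le_mul_of_nonneg_right ih2 hp1.le
            _ = G (i + n + 1) ^ 2 := by ring
            _ ≤ _ := h4
        have h8 : G (i + n) * (q * G (i + n + 1)) ≤ G (i + n) * G (i + n + 2) := by linarith
        exact le_of_mul_le_mul_left h8 ih1
    have key2 : ∀ n, q ^ n * G i ≤ G (i + n) := by
      intro n
      induction n with
      | zero => simp
      | succ n ih =>
        calc q ^ (n + 1) * G i = q * (q ^ n * G i) := by ring
          _ ≤ q * G (i + n) := mul_le_mul_of_nonneg_left ih hq0.le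
          _ ≤ _ := (key n).2
    have key3 : ∀ n, (q / ρ) ^ n ≤ K * ρ ^ i / G i := by
      intro n
      rw [div_pow, div_le_div_iff₀ (pow_pos hρ n) hpi]
      calc q ^ n * G i ≤ G (i + n) := key2 n
        _ ≤ K * ρ ^ (i + n) := h2 _
        _ = K * ρ ^ i * ρ ^ n := by rw [pow_add]; ring
    have h9 : 1 < q / ρ := (one_lt_div hρ).2 hqρ
    obtain ⟨n, hn⟩ := pow_unbounded_of_one_lt (K * ρ ^ i / G i) h9
    exact absurd (key3 n) (not_le.2 hn)
  · push Not at hz
    induction j with
    | zero => simp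
    | succ j ih =>
      calc G (j + 1) ≤ ρ * G j := hz j
        _ ≤ ρ * (G 0 * ρ ^ j) := mul_le_mul_of_nonneg_left ih hρ.le
        _ = _ := by ring

/-! ### linearity of the finite volume expectation -/

lemma wZ_pos (k : ℕ) {β : ℝ} (hβ : 0 ≤ β) (R : Finset Pl) :
    0 < ∫ X : Cf N L, Real.exp (-β * wact k R X) ∂(Measure.infinitePi fun _ : Lk L => hm N) := by
  have hmea : Measurable fun X : Cf N L => Real.exp (-β * wact k R X) :=
    (continuous_const.mul (wact_cont k R)).rexp.measurable
  have h1 : ∀ X : Cf N L, 0 < Real.exp (-β * wact k R X) ∧ Real.exp (-β * wact k R X) ≤ 1 :=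
    fun X => ⟨Real.exp_pos _, Real.exp_le_one_iff.2 (by have := wact_nonneg k R X; nlinarith)⟩
  have hi : Integrable (fun X : Cf N L => Real.exp (-β * wact k R X))
      (Measure.infinitePi fun _ : Lk L => hm N) :=
    PkgF.integrable_bdd hmea ⟨1, fun X => by rw [abs_of_pos (h1 X).1]; exact (h1 X).2⟩
  rw [integral_pos_iff_support_of_nonneg]
  · have : Function.support (fun X : Cf N L => Real.exp (-β * wact k R X)) = Set.univ := by
      ext ξ
      simp only [Function.mem_support, Set.mem_univ, iff_true]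
      exact (h1 ξ).1.ne'
    rw [this, measure_univ]
    exact one_pos
  · intro ξ
    exact (h1 ξ).1.le
  · exact hi

lemma wf_int (k : ℕ) {β : ℝ} (hβ : 0 ≤ β) (R : Finset Pl) (f : Cf N L → ℝ) (hf : Measurable f)
    (hb : ∃ K, ∀ X, |f X| ≤ K) : Integrable (fun X : Cf N L => f X * Real.exp (-β * wact k R X))
      (Measure.infinitePi fun _ : Lk L => hm N) := by
  have hmea : Measurable fun X : Cf N L => Real.exp (-β * wact k R X) :=
    (continuous_const.mul (wact_cont k R)).rexp.measurable
  obtain ⟨K, hK⟩ := hb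
  refine PkgF.integrable_bdd (hf.mul hmea) ⟨K, fun X => ?_⟩
  have h1 : 0 < Real.exp (-β * wact k R X) ∧ Real.exp (-β * wact k R X) ≤ 1 :=
    ⟨Real.exp_pos _, Real.exp_le_one_iff.2 (by have := wact_nonneg k R X; nlinarith)⟩
  rw [abs_mul, abs_of_pos h1.1]
  have h4 := abs_nonneg (f X)
  have h5 := hK X
  nlinarith [h1.1, h1.2]

lemma wex_add (k : ℕ) {β : ℝ} (hβ : 0 ≤ β) (R : Finset Pl) (f g : Cf N L → ℝ) (hf : Measurable f)
    (hb : ∃ K, ∀ X, |f X| ≤ K) (hg : Measurable g) (hb' : ∃ K, ∀ X, |g X| ≤ K) :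
    wex N L k β R (fun X => f X + g X) = wex N L k β R f + wex N L k β R g := by
  unfold wex
  rw [← add_div, ← integral_add (wf_int k hβ R f hf hb) (wf_int k hβ R g hg hb')]
  simp only [add_mul]

lemma wex_mul (k : ℕ) {β : ℝ} (R : Finset Pl) (c : ℝ) (f : Cf N L → ℝ) :
    wex N L k β R (fun X => c * f X) = c * wex N L k β R f := by
  unfold wex
  rw [← mul_div_assoc, ← integral_const_mul]
  simp only [mul_assoc]

lemma wex_const (k : ℕ) {β : ℝ} (hβ : 0 ≤ β) (R : Finset Pl) (c : ℝ) :
    wex N L k β R (fun _ => c) = c := by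
  unfold wex
  rw [integral_const_mul, mul_div_assoc, div_self (wZ_pos k hβ R).ne', mul_one]

/-! ### the reflection -/

lemma rf_rf (X : Cf N L) : rf (rf X) = X := by
  funext l
  obtain ⟨⟨x, y⟩, i⟩ := l
  by_cases h : i = 0
  · subst h
    simp [rf]
  · simp [rf, h]

lemma rf_cont : Continuous (rf : Cf N L → Cf N L) := by
  refine continuous_pi fun l => ?_
  unfold rf
  split_ifs
  · exact (continuous_apply _).inv
  · exact continuous_apply _

lemma shf_rf (n : ℕ) (X : Cf N L) : shf ((n : ℤ), 0) (rf (shf ((n : ℤ), 0) X)) = rf X := by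
  funext l
  obtain ⟨⟨⟨x1, x2⟩, y⟩, i⟩ := l
  by_cases h : i = 0
  · subst h
    simp [rf, shf]
    congr 3
    ring_nf
  · simp [rf, shf, h]

lemma shf_shf (v w : Pl) (X : Cf N L) : shf v (shf w X) = shf (v + w) X := by
  funext l
  simp only [shf]
  congr 2
  rw [add_assoc]

lemma loc_mono (A A' : Finset Pl) (h : A ⊆ A') (f : Cf N L → ℝ) (hf : Loc A f) : Loc A' f :=
  ⟨hf.1, hf.2.1, fun X Y hXY => hf.2.2 X Y fun l hl => hXY l fun a ha => h (hl a ha)⟩

lemma loc_rf (r : ℕ) (f : Cf N L → ℝ) (hf : Loc (Nb r 0) f) : Loc (Nb r 0) (fun X : Cf N L => f (rf X)) := by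
  refine ⟨hf.1.comp rf_cont.measurable, fun X => hf.2.1 _, fun X Y h => hf.2.2 _ _ fun l hl => ?_⟩
  obtain ⟨⟨x, y⟩, i⟩ := l
  have h0 : ∀ c : Pl, c ∈ Nb r 0 → ((-c.1, c.2) : Pl) ∈ Nb r 0 := by
    intro c hc
    rw [mem_Nb] at *
    simpa [abs_neg] using hc
  by_cases hi : i = 0
  · subst hi
    simp only [rf, if_true]
    congr 1
    refine h _ fun c hc => ?_
    rw [mem_st] at hc
    have hx := hl x (by rw [mem_st]; exact Or.inl rfl)
    have hx' := hl (x + (1, 0)) (by rw [mem_st]; right; simp [pe])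
    rcases hc with rfl | rfl
    · have := h0 _ hx'
      simpa [sub_eq_add_neg, add_comm] using this
    · have := h0 _ hx
      simpa [pe] using this
  · simp only [rf, if_neg hi]
    refine h _ fun c hc => ?_
    rw [mem_st] at hc
    have hx := hl x (by rw [mem_st]; exact Or.inl rfl)
    have hx' := hl (x + pe i) (by rw [mem_st]; right; rfl)
    rcases hc with rfl | rfl
    · exact h0 _ hx
    · have := h0 _ hx'
      have hp : (pe i : Pl).1 = 0 := by
        unfold pe
        rw [if_neg hi]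
        split_ifs <;> simp
      have e : ((-(x + pe i).1, (x + pe i).2) : Pl) = (-x.1, x.2) + pe i := by
        refine Prod.ext ?_ ?_
        · simp [hp]
        · simp
      rw [e] at this
      exact this

end T2H02.TT
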