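import Pool.Agent.T2H02.TT.StmY
import Pool.Agent.T2H02.TT.Fin8

/-!
# Package VO: from the Ward identity to the characteristic function
-/

set_option autoImplicit false
set_option linter.unusedSectionVars false

noncomputable section

open MeasureTheory Matrix Filter Topology
open scoped Matrix.Norms.Frobenius

namespace T2H02.TT

namespace PkgVO

/-- First order Taylor estimate for a function with a `1`-Lipschitz derivative. -/
lemma taylor1 (f f' : ℝ → ℝ) (hf : ∀ x, HasDerivAt f (f' x) x)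
    (hl : ∀ x y, |f' x - f' y| ≤ |x - y|) (a b : ℝ) :
    |f b - f a - f' a * (b - a)| ≤ (b - a) ^ 2 := by
  have h := (convex_uIcc a b).norm_image_sub_le_of_norm_hasDerivWithin_le
    (f := fun t => f t - f' a * t) (f' := fun t => f' t - f' a) (C := |b - a|) (x := a) (y := b)
    (fun x _ => by
      have h1 : HasDerivAt (fun t => f t - f' a * t) (f' x - f' a * 1) x :=
        (hf x).sub ((hasDerivAt_id x).const_mul (f' a))
      rw [mul_one] at h1
      exact h1.hasDerivWithinAt)
    (fun x hx => by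
      rw [Real.norm_eq_abs]
      refine (hl x a).trans ?_
      exact Set.abs_sub_left_of_mem_uIcc hx) Set.left_mem_uIcc Set.right_mem_uIcc
  simp only [Real.norm_eq_abs] at h
  have h2 : f b - f' a * b - (f a - f' a * a) = f b - f a - f' a * (b - a) := by ring
  rw [h2] at h
  refine h.trans (le_of_eq ?_)
  rw [← sq, sq_abs]

lemma taylor_sin (a b : ℝ) : |Real.sin b - Real.sin a - Real.cos a * (b - a)| ≤ (b - a) ^ 2 :=
  taylor1 Real.sin Real.cos Real.hasDerivAt_sin Real.abs_cos_sub_cos_le a b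

lemma taylor_cos (a b : ℝ) : |Real.cos b - Real.cos a - (-Real.sin a) * (b - a)| ≤ (b - a) ^ 2 :=
  taylor1 Real.cos (fun x => -Real.sin x) Real.hasDerivAt_cos (fun x y => by
    have h : -Real.sin x - -Real.sin y = -(Real.sin x - Real.sin y) := by ring
    rw [h, abs_neg]
    exact Real.abs_sin_sub_sin_le x y) a b

lemma gd_sin {τ : ℝ} (hτ : 0 ≤ τ) :
    Gd (fun x => Real.sin (τ * x) / (1 + τ ^ 2)) (fun x => τ * Real.cos (τ * x) / (1 + τ ^ 2)) := by
  have h1 : (0 : ℝ) < 1 + τ ^ 2 := by positivity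
  refine ⟨by fun_prop, by fun_prop, fun a => ?_, fun a => ?_, fun a b => ?_⟩
  · rw [abs_div, abs_of_pos h1, div_le_one h1]
    have := Real.abs_sin_le_one (τ * a)
    nlinarith [sq_nonneg τ]
  · rw [abs_div, abs_of_pos h1, div_le_one h1, abs_mul, abs_of_nonneg hτ]
    have := Real.abs_cos_le_one (τ * a)
    nlinarith [sq_nonneg (τ - 1), abs_nonneg (Real.cos (τ * a))]
  · have h2 := taylor_sin (τ * a) (τ * b)
    have h3 : Real.sin (τ * b) / (1 + τ ^ 2) - Real.sin (τ * a) / (1 + τ ^ 2) -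
        τ * Real.cos (τ * a) / (1 + τ ^ 2) * (b - a) =
        (Real.sin (τ * b) - Real.sin (τ * a) - Real.cos (τ * a) * (τ * b - τ * a)) /
          (1 + τ ^ 2) := by
      field_simp
    rw [h3, abs_div, abs_of_pos h1, div_le_iff₀ h1]
    nlinarith [sq_nonneg (b - a), sq_nonneg τ]

lemma gd_cos {τ : ℝ} (hτ : 0 ≤ τ) :
    Gd (fun x => Real.cos (τ * x) / (1 + τ ^ 2))
      (fun x => -(τ * Real.sin (τ * x)) / (1 + τ ^ 2)) := by
  have h1 : (0 : ℝ) < 1 + τ ^ 2 := by positivity
  refine ⟨by fun_prop, by fun_prop, fun a => ?_, fun a => ?_, fun a b => ?_⟩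
  · rw [abs_div, abs_of_pos h1, div_le_one h1]
    have := Real.abs_cos_le_one (τ * a)
    nlinarith [sq_nonneg τ]
  · rw [abs_div, abs_of_pos h1, div_le_one h1, abs_neg, abs_mul, abs_of_nonneg hτ]
    have := Real.abs_sin_le_one (τ * a)
    nlinarith [sq_nonneg (τ - 1), abs_nonneg (Real.sin (τ * a))]
  · have h2 := taylor_cos (τ * a) (τ * b)
    have h3 : Real.cos (τ * b) / (1 + τ ^ 2) - Real.cos (τ * a) / (1 + τ ^ 2) -
        -(τ * Real.sin (τ * a)) / (1 + τ ^ 2) * (b - a) =
        (Real.cos (τ * b) - Real.cos (τ * a) - (-Real.sin (τ * a)) * (τ * b - τ * a)) /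
          (1 + τ ^ 2) := by
      field_simp
    rw [h3, abs_div, abs_of_pos h1, div_le_iff₀ h1]
    nlinarith [sq_nonneg (b - a), sq_nonneg τ]

/-- The differential inequality. -/
lemma ode (u u' : ℝ → ℝ) (s2 δ τ : ℝ) (hs : 0 ≤ s2) (hδ : 0 ≤ δ) (hτ : 0 ≤ τ)
    (hu : ∀ t, HasDerivAt u (u' t) t)
    (hd : ∀ t, 0 ≤ t → |u' t + s2 * t * u t| ≤ (1 + t ^ 2) * δ) :
    |u τ - Real.exp (-(s2 * τ ^ 2 / 2)) * u 0| ≤ (τ + τ ^ 3) * δ := by
  have hE : ∀ t, HasDerivAt (fun t => Real.exp (s2 * t ^ 2 / 2)) (Real.exp (s2 * t ^ 2 / 2) *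
      (s2 * t)) t := by
    intro t
    have h1 : HasDerivAt (fun t : ℝ => s2 * t ^ 2 / 2) (s2 * t) t := by
      have h2 := ((hasDerivAt_pow 2 t).const_mul s2).div_const 2
      refine h2.congr_deriv ?_
      push_cast
      ring
    exact h1.exp
  have hg : ∀ t, HasDerivAt (fun t => Real.exp (s2 * t ^ 2 / 2) * u t)
      (Real.exp (s2 * t ^ 2 / 2) * (u' t + s2 * t * u t)) t := by
    intro t
    have h2 := (hE t).mul (hu t)
    refine h2.congr_deriv ?_
    ring
  have h := (convex_Icc (0 : ℝ) τ).norm_image_sub_le_of_norm_hasDerivWithin_le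
    (f := fun t => Real.exp (s2 * t ^ 2 / 2) * u t)
    (f' := fun t => Real.exp (s2 * t ^ 2 / 2) * (u' t + s2 * t * u t))
    (C := Real.exp (s2 * τ ^ 2 / 2) * ((1 + τ ^ 2) * δ)) (x := 0) (y := τ)
    (fun x _ => (hg x).hasDerivWithinAt)
    (fun x hx => by
      rw [Real.norm_eq_abs, abs_mul, abs_of_pos (Real.exp_pos _)]
      have hx2 : x ^ 2 ≤ τ ^ 2 := pow_le_pow_left₀ hx.1 hx.2 2
      refine mul_le_mul (Real.exp_le_exp.2 (by nlinarith)) ((hd x hx.1).trans ?_)
        (abs_nonneg _) (Real.exp_pos _).le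
      exact mul_le_mul_of_nonneg_right (by linarith) hδ)
    (Set.left_mem_Icc.2 hτ) (Set.right_mem_Icc.2 hτ)
  simp only [Real.norm_eq_abs, sub_zero] at h
  rw [abs_of_nonneg hτ] at h
  have e0 : Real.exp (s2 * (0 : ℝ) ^ 2 / 2) = 1 := by simp
  rw [e0, one_mul] at h
  have hpos := Real.exp_pos (s2 * τ ^ 2 / 2)
  have h4 : Real.exp (s2 * τ ^ 2 / 2) * u τ - u 0 =
      Real.exp (s2 * τ ^ 2 / 2) * (u τ - Real.exp (-(s2 * τ ^ 2 / 2)) * u 0) := by
    rw [mul_sub, ← mul_assoc, ← Real.exp_add, add_neg_cancel, Real.exp_zero, one_mul]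
  rw [h4, abs_mul, abs_of_pos hpos] at h
  have h5 : Real.exp (s2 * τ ^ 2 / 2) * |u τ - Real.exp (-(s2 * τ ^ 2 / 2)) * u 0| ≤
      Real.exp (s2 * τ ^ 2 / 2) * ((τ + τ ^ 3) * δ) := by
    refine h.trans (le_of_eq ?_)
    ring
  exact le_of_mul_le_mul_left h5 hpos

variable {N L : ℕ} [NeZero L]

/-- Derivative under the expectation. -/
lemma wex_deriv (k : ℕ) {β : ℝ} (hβ : 0 ≤ β) (R : Finset Pl) (Y : Cf N L → ℝ) (K : ℝ)
    (hY : Measurable Y) (hK : ∀ X, |Y X| ≤ K) (f f' : ℝ → ℝ) (hf : ∀ x, HasDerivAt f (f' x) x)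
    (hfc : Continuous f') (hb : ∀ x, |f x| ≤ 1) (hb' : ∀ x, |f' x| ≤ 1) (τ : ℝ) :
    HasDerivAt (fun t => wex N L k β R (fun X => f (t * Y X)))
      (wex N L k β R (fun X => f' (τ * Y X) * Y X)) τ := by
  have hfm : Continuous f := continuous_iff_continuousAt.2 fun x => (hf x).continuousAt
  have hmea : Measurable fun X : Cf N L => Real.exp (-β * wact k R X) :=
    (continuous_const.mul (wact_cont k R)).rexp.measurable
  have h1 : ∀ X : Cf N L, 0 < Real.exp (-β * wact k R X) ∧ Real.exp (-β * wact k R X) ≤ 1 :=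
    fun X => ⟨Real.exp_pos _, Real.exp_le_one_iff.2 (by have := wact_nonneg k R X; nlinarith)⟩
  have key := hasDerivAt_integral_of_dominated_loc_of_deriv_le
    (μ := (Measure.infinitePi fun _ : Lk L => hm N)) (𝕜 := ℝ)
    (F := fun (t : ℝ) (X : Cf N L) => f (t * Y X) * Real.exp (-β * wact k R X))
    (F' := fun (t : ℝ) (X : Cf N L) => f' (t * Y X) * Y X * Real.exp (-β * wact k R X))
    (x₀ := τ) (s := Set.univ) (bound := fun _ => K) univ_mem
    (Eventually.of_forall fun t =>
      ((hfm.measurable.comp (hY.const_mul t)).mul hmea).aestronglyMeasurable)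
    (wf_int k hβ R _ (hfm.measurable.comp (hY.const_mul τ)) ⟨1, fun X => hb _⟩)
    (((hfc.measurable.comp (hY.const_mul τ)).mul hY).mul hmea).aestronglyMeasurable
    (Eventually.of_forall fun X t _ => by
      rw [Real.norm_eq_abs, abs_mul, abs_mul, abs_of_pos (h1 X).1]
      have h2 : |f' (t * Y X)| * |Y X| ≤ 1 * K :=
        mul_le_mul (hb' _) (hK X) (abs_nonneg _) zero_le_one
      calc |f' (t * Y X)| * |Y X| * Real.exp (-β * wact k R X) ≤
          |f' (t * Y X)| * |Y X| * 1 := mul_le_mul_of_nonneg_left (h1 X).2 (by positivity)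
        _ ≤ K := by linarith)
    (integrable_const K)
    (Eventually.of_forall fun X t _ => by
      have h2 : HasDerivAt (fun t : ℝ => t * Y X) (Y X) t := by
        simpa using (hasDerivAt_id t).mul_const (Y X)
      exact ((hf (t * Y X)).comp t h2).mul_const _)
  have h3 := key.2.div_const
    (∫ X, Real.exp (-β * wact k R X) ∂(Measure.infinitePi fun _ : Lk L => hm N))
  exact h3

end PkgVO

open PkgVO

theorem pVO : S_VO := by
  intro N k L _ β hβ R Y K s2 δ hY hK hs hW τ hτ
  have hδ : 0 ≤ δ := (abs_nonneg _).trans (hW _ _ (gd_sin le_rfl))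
  -- the two Ward identities
  have w1 : ∀ t : ℝ, 0 ≤ t → |wex N L k β R (fun X => -Real.sin (t * Y X) * Y X) +
      s2 * t * wex N L k β R (fun X => Real.cos (t * Y X))| ≤ (1 + t ^ 2) * δ := by
    intro t ht
    have h1 : (0 : ℝ) < 1 + t ^ 2 := by positivity
    have h := hW _ _ (gd_sin ht)
    have e1 : (fun X : Cf N L => Real.sin (t * Y X) / (1 + t ^ 2) * Y X) =
        fun X => (-(1 / (1 + t ^ 2))) * (-Real.sin (t * Y X) * Y X) := by
      funext X
      ring
    have e2 : (fun X : Cf N L => t * Real.cos (t * Y X) / (1 + t ^ 2)) =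
        fun X => (t / (1 + t ^ 2)) * Real.cos (t * Y X) := by
      funext X
      ring
    rw [e1, e2, wex_mul, wex_mul] at h
    generalize wex N L k β R (fun X => -Real.sin (t * Y X) * Y X) = p at h ⊢
    generalize wex N L k β R (fun X => Real.cos (t * Y X)) = q at h ⊢
    have e3 : -(1 / (1 + t ^ 2)) * p - s2 * (t / (1 + t ^ 2) * q) =
        -(p + s2 * t * q) / (1 + t ^ 2) := by
      field_simp
      ring
    rw [e3, abs_div, abs_neg, abs_of_pos h1, div_le_iff₀ h1] at h
    linarith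
  have w2 : ∀ t : ℝ, 0 ≤ t → |wex N L k β R (fun X => Real.cos (t * Y X) * Y X) +
      s2 * t * wex N L k β R (fun X => Real.sin (t * Y X))| ≤ (1 + t ^ 2) * δ := by
    intro t ht
    have h1 : (0 : ℝ) < 1 + t ^ 2 := by positivity
    have h := hW _ _ (gd_cos ht)
    have e1 : (fun X : Cf N L => Real.cos (t * Y X) / (1 + t ^ 2) * Y X) =
        fun X => (1 / (1 + t ^ 2)) * (Real.cos (t * Y X) * Y X) := by
      funext X
      ring
    have e2 : (fun X : Cf N L => -(t * Real.sin (t * Y X)) / (1 + t ^ 2)) =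
        fun X => (-(t / (1 + t ^ 2))) * Real.sin (t * Y X) := by
      funext X
      ring
    rw [e1, e2, wex_mul, wex_mul] at h
    generalize wex N L k β R (fun X => Real.cos (t * Y X) * Y X) = p at h ⊢
    generalize wex N L k β R (fun X => Real.sin (t * Y X)) = q at h ⊢
    have e3 : 1 / (1 + t ^ 2) * p - s2 * (-(t / (1 + t ^ 2)) * q) =
        (p + s2 * t * q) / (1 + t ^ 2) := by
      field_simp
      ring
    rw [e3, abs_div, abs_of_pos h1, div_le_iff₀ h1] at h
    linarith
  constructor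
  · have h := ode (fun t => wex N L k β R (fun X => Real.cos (t * Y X)))
      (fun t => wex N L k β R (fun X => -Real.sin (t * Y X) * Y X)) s2 δ τ hs hδ hτ
      (fun t => wex_deriv k hβ R Y K hY hK Real.cos (fun x => -Real.sin x) Real.hasDerivAt_cos
        (by fun_prop) Real.abs_cos_le_one (fun x => by
          rw [abs_neg]; exact Real.abs_sin_le_one x) t) w1
    have h0 : wex N L k β R (fun X : Cf N L => Real.cos (0 * Y X)) = 1 := by
      have : (fun X : Cf N L => Real.cos (0 * Y X)) = fun _ => (1 : ℝ) := by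
        funext X
        simp
      rw [this, wex_const k hβ]
    rw [h0, mul_one] at h
    exact h
  · have h := ode (fun t => wex N L k β R (fun X => Real.sin (t * Y X)))
      (fun t => wex N L k β R (fun X => Real.cos (t * Y X) * Y X)) s2 δ τ hs hδ hτ
      (fun t => wex_deriv k hβ R Y K hY hK Real.sin Real.cos Real.hasDerivAt_sin
        Real.continuous_cos Real.abs_sin_le_one Real.abs_cos_le_one t) w2
    have h0 : wex N L k β R (fun X : Cf N L => Real.sin (0 * Y X)) = 0 := by
      have : (fun X : Cf N L => Real.sin (0 * Y X)) = fun _ => (0 : ℝ) := by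
        funext X
        simp
      rw [this, wex_const k hβ]
    rw [h0, mul_zero, sub_zero] at h
    exact h

end T2H02.TT
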