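import Pool.Agent.T2H02.TT.StmY

/-!
# VR: Riemann sums in the plane
-/

set_option autoImplicit false

noncomputable section

open MeasureTheory Filter Topology
open scoped Pointwise

namespace T2H02.TT

namespace PkgVR

/-- the point of the lattice as a function -/
def pnt (L : ℕ) (x : Pl) : Fin 2 → ℝ := ![(x.1 : ℝ) / L, (x.2 : ℝ) / L]

theorem pnt_inj {L : ℕ} (hL : 0 < L) : Function.Injective (pnt L) := by
  intro x y h
  have hL' : (L : ℝ) ≠ 0 := by positivity
  have h0 := congrFun h 0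
  have h1 := congrFun h 1
  simp only [pnt, Matrix.cons_val_zero, Matrix.cons_val_one] at h0 h1
  rw [div_left_inj' hL', Int.cast_inj] at h0 h1
  exact Prod.ext h0 h1

/-- the square -/
def sq (r : ℕ) : Set (Fin 2 → ℝ) := Set.Icc (fun _ => -(r : ℝ)) (fun _ => (r : ℝ))

theorem set_eq {L : ℕ} (hL : 0 < L) (r : ℕ) :
    sq r ∩ (L : ℝ)⁻¹ • (Submodule.span ℤ (Set.range (Pi.basisFun ℝ (Fin 2))) : Set (Fin 2 → ℝ)) =
      (((Nb (r * L) 0).image (pnt L) : Finset (Fin 2 → ℝ)) : Set (Fin 2 → ℝ)) := by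
  have : NeZero L := ⟨hL.ne'⟩
  have hL' : (0 : ℝ) < L := by positivity
  have key : ∀ v : Fin 2 → ℝ, v ∈ (L : ℝ)⁻¹ • (Submodule.span ℤ (Set.range (Pi.basisFun ℝ (Fin 2))) : Set (Fin 2 → ℝ)) ↔
      ∀ i, (L : ℝ) * v i ∈ Set.range (algebraMap ℤ ℝ) := by
    intro v
    exact BoxIntegral.unitPartition.mem_smul_span_iff
  ext v
  rw [Set.mem_inter_iff, key]
  simp only [Finset.coe_image, Set.mem_image, Finset.mem_coe, Nb, Finset.mem_product, Finset.mem_Icc,
    Prod.fst_zero, Prod.snd_zero, zero_sub, zero_add]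
  constructor
  · rintro ⟨h1, h2⟩
    obtain ⟨a, ha⟩ := h2 0
    obtain ⟨b, hb⟩ := h2 1
    have ha' : (a : ℝ) = L * v 0 := ha
    have hb' : (b : ℝ) = L * v 1 := hb
    have h3 := h1.1 0
    have h4 := h1.1 1
    have h5 := h1.2 0
    have h6 := h1.2 1
    simp only at h3 h4 h5 h6
    refine ⟨(a, b), ⟨⟨?_, ?_⟩, ?_, ?_⟩, ?_⟩
    · have : (-((r * L : ℕ) : ℤ) : ℝ) ≤ a := by push_cast; rw [ha']; nlinarith
      exact_mod_cast this
    · have : (a : ℝ) ≤ ((r * L : ℕ) : ℤ) := by push_cast; rw [ha']; nlinarith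
      exact_mod_cast this
    · have : (-((r * L : ℕ) : ℤ) : ℝ) ≤ b := by push_cast; rw [hb']; nlinarith
      exact_mod_cast this
    · have : (b : ℝ) ≤ ((r * L : ℕ) : ℤ) := by push_cast; rw [hb']; nlinarith
      exact_mod_cast this
    · funext i
      fin_cases i
      · show (a : ℝ) / L = v 0
        rw [ha']; field_simp
      · show (b : ℝ) / L = v 1
        rw [hb']; field_simp
  · rintro ⟨x, ⟨⟨h1, h2⟩, h3, h4⟩, rfl⟩
    have h1' : (-((r * L : ℕ) : ℤ) : ℝ) ≤ x.1 := by exact_mod_cast h1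
    have h2' : (x.1 : ℝ) ≤ ((r * L : ℕ) : ℤ) := by exact_mod_cast h2
    have h3' : (-((r * L : ℕ) : ℤ) : ℝ) ≤ x.2 := by exact_mod_cast h3
    have h4' : (x.2 : ℝ) ≤ ((r * L : ℕ) : ℤ) := by exact_mod_cast h4
    push_cast at h1' h2' h3' h4'
    refine ⟨⟨fun i => ?_, fun i => ?_⟩, fun i => ?_⟩
    · fin_cases i
      · show -(r : ℝ) ≤ (x.1 : ℝ) / L
        rw [le_div_iff₀ hL']; linarith
      · show -(r : ℝ) ≤ (x.2 : ℝ) / L
        rw [le_div_iff₀ hL']; linarith
    · fin_cases i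
      · show (x.1 : ℝ) / L ≤ r
        rw [div_le_iff₀ hL']; linarith
      · show (x.2 : ℝ) / L ≤ r
        rw [div_le_iff₀ hL']; linarith
    · fin_cases i
      · refine ⟨x.1, ?_⟩
        show (x.1 : ℝ) = L * ((x.1 : ℝ) / L)
        field_simp
      · refine ⟨x.2, ?_⟩
        show (x.2 : ℝ) = L * ((x.2 : ℝ) / L)
        field_simp

end PkgVR

open PkgVR

theorem pVR : S_VR := by
  intro F r hF h0
  have h1 := tendsto_tsum_div_pow_atTop_integral (sq r) (fun v : Fin 2 → ℝ => F (v 0, v 1))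
    (by fun_prop) (Metric.isBounded_Icc _ _) measurableSet_Icc
    ((convex_Icc _ _).addHaar_frontier _)
  have h2 : ∫ v in sq r, F (v 0, v 1) = ∫ p, F p := by
    rw [setIntegral_eq_integral_of_forall_compl_eq_zero]
    · exact (volume_preserving_finTwoArrow ℝ).integral_comp (MeasurableEquiv.measurableEmbedding _) F
    · intro v hv
      apply h0
      by_contra hcon
      push Not at hcon
      apply hv
      refine ⟨fun i => ?_, fun i => ?_⟩
      · fin_cases i
        · exact (abs_lt.1 hcon.1).1.le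
        · exact (abs_lt.1 hcon.2).1.le
      · fin_cases i
        · exact (abs_lt.1 hcon.1).2.le
        · exact (abs_lt.1 hcon.2).2.le
  rw [h2] at h1
  refine h1.congr' ?_
  filter_upwards [eventually_gt_atTop 0] with L hL
  rw [Fintype.card_fin, ← Finset.sum_div]
  congr 1
  rw [set_eq hL r]
  rw [Finset.tsum_subtype' ((Nb (r * L) 0).image (pnt L)) (fun v : Fin 2 → ℝ => F (v 0, v 1)),
    Finset.sum_image fun x _ y _ h => pnt_inj hL h]
  rfl

end T2H02.TT
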