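import Pool.Agent.T2H02.TT.StmY

/-! Package VS (helper57): positivity of `- Δ + μ²`. -/

set_option autoImplicit false

namespace T2H02.TT

namespace PkgVS

open Finset

theorem nb_mono (n : ℕ) : Nb n 0 ⊆ Nb (n + 1) 0 := by
  intro x hx
  unfold Nb at *
  rw [mem_product, mem_Icc, mem_Icc] at *
  push_cast
  simp only [Prod.fst_zero, Prod.snd_zero] at *
  omega

theorem sq_shift (n : ℕ) (ψ : Pl → ℝ) (h : ∀ x, ψ x ≠ 0 → x ∈ Nb n 0) (v : Pl) :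
    ∑ x ∈ Nb (n + 1) 0, ψ (x + v) ^ 2 ≤ ∑ x ∈ Nb (n + 1) 0, ψ x ^ 2 := by
  classical
  have e : ∑ x ∈ Nb (n + 1) 0, ψ (x + v) ^ 2 = ∑ y ∈ (Nb (n + 1) 0).image (fun x => x + v), ψ y ^ 2 := by
    rw [sum_image]
    intro a _ b _ hab
    exact add_right_cancel hab
  rw [e, ← sum_filter_ne_zero]
  apply sum_le_sum_of_subset_of_nonneg
  · intro y hy
    rw [mem_filter] at hy
    apply nb_mono
    apply h
    intro h0
    apply hy.2
    rw [h0]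
    norm_num
  · intro i _ _
    positivity

theorem prod_shift (n : ℕ) (ψ : Pl → ℝ) (h : ∀ x, ψ x ≠ 0 → x ∈ Nb n 0) (v : Pl) :
    ∑ x ∈ Nb (n + 1) 0, ψ (x + v) * ψ x ≤ ∑ x ∈ Nb (n + 1) 0, ψ x ^ 2 := by
  have h1 : ∑ x ∈ Nb (n + 1) 0, ψ (x + v) * ψ x ≤ ∑ x ∈ Nb (n + 1) 0, (1 / 2 * ψ (x + v) ^ 2 + 1 / 2 * ψ x ^ 2) := by
    refine sum_le_sum fun x _ => ?_
    nlinarith [sq_nonneg (ψ (x + v) - ψ x)]
  rw [sum_add_distrib, ← mul_sum, ← mul_sum] at h1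
  have h2 := sq_shift n ψ h v
  linarith

end PkgVS

theorem pVS : S_VS := by
  intro N L n ψ h
  have e : ∀ x, sc N L ψ x * ψ x = 4 * ψ x ^ 2 - ψ (x + (1, 0)) * ψ x - ψ (x + (-(1, 0))) * ψ x -
      ψ (x + (0, 1)) * ψ x - ψ (x + (-(0, 1))) * ψ x + mu2 N L * ψ x ^ 2 := by
    intro x
    unfold sc lap
    rw [sub_eq_add_neg x (1, 0), sub_eq_add_neg x (0, 1)]
    ring
  simp_rw [e]
  rw [Finset.sum_add_distrib, Finset.sum_sub_distrib, Finset.sum_sub_distrib, Finset.sum_sub_distrib,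
    Finset.sum_sub_distrib, ← Finset.mul_sum, ← Finset.mul_sum]
  have h1 := PkgVS.prod_shift n ψ h (1, 0)
  have h2 := PkgVS.prod_shift n ψ h (-(1, 0))
  have h3 := PkgVS.prod_shift n ψ h (0, 1)
  have h4 := PkgVS.prod_shift n ψ h (-(0, 1))
  have h5 : 0 ≤ mu2 N L * ∑ x ∈ Nb (n + 1) 0, ψ x ^ 2 := by
    unfold mu2
    positivity
  linarith

end T2H02.TT
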