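import Pool.Agent.T2H02.TT.StmY

/-!
# VT: discretisation error of the Laplacian
-/

set_option autoImplicit false

noncomputable section

open MeasureTheory Filter Topology

namespace T2H02.TT

namespace PkgVT

/-- derivative in the direction `u` -/
def P (u : ℝ × ℝ) (f : ℝ × ℝ → ℝ) (p : ℝ × ℝ) : ℝ := fderiv ℝ f p u

theorem P_contDiff {f : ℝ × ℝ → ℝ} (u : ℝ × ℝ) {n : ℕ} (hf : ContDiff ℝ (n + 1 : ℕ) f) :
    ContDiff ℝ n (P u f) := by
  have h1 : ContDiff ℝ n (fderiv ℝ f) := hf.fderiv_right (by exact_mod_cast le_rfl)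
  exact h1.clm_apply contDiff_const

theorem P_tsupport (u : ℝ × ℝ) (f : ℝ × ℝ → ℝ) : tsupport (P u f) ⊆ tsupport f := by
  refine closure_minimal ?_ (isClosed_tsupport f)
  intro p hp
  apply support_fderiv_subset ℝ
  intro h
  apply hp
  show fderiv ℝ f p u = 0
  rw [h]
  rfl

theorem P_comp {f : ℝ × ℝ → ℝ} (u : ℝ × ℝ) (hf : HasCompactSupport f) : HasCompactSupport (P u f) :=
  hf.mono' ((subset_tsupport _).trans (P_tsupport u f))

theorem hasD1 {f : ℝ × ℝ → ℝ} (hf : Differentiable ℝ f) (y t : ℝ) :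
    HasDerivAt (fun t => f (t, y)) (P (1, 0) f (t, y)) t :=
  (hf (t, y)).hasFDerivAt.comp_hasDerivAt t ((hasDerivAt_id t).prodMk (hasDerivAt_const t y))

theorem hasD2 {f : ℝ × ℝ → ℝ} (hf : Differentiable ℝ f) (x t : ℝ) :
    HasDerivAt (fun t => f (x, t)) (P (0, 1) f (x, t)) t :=
  (hf (x, t)).hasFDerivAt.comp_hasDerivAt t ((hasDerivAt_const t x).prodMk (hasDerivAt_id t))

/-- second difference -/
theorem second {g g1 g2 g3 g4 : ℝ → ℝ} {M : ℝ} (h1 : ∀ t, HasDerivAt g (g1 t) t)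
    (h2 : ∀ t, HasDerivAt g1 (g2 t) t) (h3 : ∀ t, HasDerivAt g2 (g3 t) t)
    (h4 : ∀ t, HasDerivAt g3 (g4 t) t) (hM : ∀ t, |g4 t| ≤ M) (x : ℝ) {h : ℝ} (hh : 0 ≤ h) :
    |g (x + h) + g (x - h) - 2 * g x - h ^ 2 * g2 x| ≤ 2 * M * h ^ 4 := by
  have hM0 : 0 ≤ M := (abs_nonneg _).trans (hM 0)
  -- mean value inequality from `0`
  have mv : ∀ (φ φ' : ℝ → ℝ) (K : ℝ) (n : ℕ), 0 ≤ K → (∀ t, HasDerivAt φ (φ' t) t) → φ 0 = 0 →
      (∀ t, 0 ≤ t → |φ' t| ≤ K * t ^ n) → ∀ t, 0 ≤ t → |φ t| ≤ K * t ^ (n + 1) := by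
    intro φ φ' K n hK hd h0 hb t ht
    have h5 := (convex_Icc 0 t).norm_image_sub_le_of_norm_hasDerivWithin_le (f := φ) (f' := φ')
      (C := K * t ^ n) (fun s _ => (hd s).hasDerivWithinAt) (fun s hs => by
        rw [Real.norm_eq_abs]
        exact (hb s hs.1).trans (mul_le_mul_of_nonneg_left (pow_le_pow_left₀ hs.1 hs.2 n) hK))
      (Set.left_mem_Icc.2 ht) (Set.right_mem_Icc.2 ht)
    rw [h0, sub_zero, sub_zero, Real.norm_eq_abs, Real.norm_eq_abs, abs_of_nonneg ht] at h5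
    calc |φ t| ≤ _ := h5
      _ = _ := by ring
  -- shifts
  have sh : ∀ (φ φ' : ℝ → ℝ), (∀ t, HasDerivAt φ (φ' t) t) → ∀ t,
      HasDerivAt (fun t => φ (x + t)) (φ' (x + t)) t := by
    intro φ φ' hd t
    have := (hd (x + t)).comp t ((hasDerivAt_id t).const_add x)
    rw [mul_one] at this
    exact this
  have sh' : ∀ (φ φ' : ℝ → ℝ), (∀ t, HasDerivAt φ (φ' t) t) → ∀ t,
      HasDerivAt (fun t => φ (x - t)) (-φ' (x - t)) t := by
    intro φ φ' hd t
    have := (hd (x - t)).comp t ((hasDerivAt_id t).const_sub x)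
    rw [mul_neg_one] at this
    exact this
  -- third derivative
  have b3 : ∀ t, 0 ≤ t → |g3 (x + t) - g3 (x - t)| ≤ 2 * M * t ^ 1 := by
    intro t ht
    have h5 := (convex_univ).norm_image_sub_le_of_norm_hasDerivWithin_le (f := g3) (f' := g4)
      (C := M) (fun s _ => (h4 s).hasDerivWithinAt) (fun s _ => hM s)
      (Set.mem_univ (x - t)) (Set.mem_univ (x + t))
    rw [Real.norm_eq_abs, Real.norm_eq_abs] at h5
    have h6 : |x + t - (x - t)| = 2 * t := by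
      rw [show x + t - (x - t) = 2 * t by ring, abs_of_nonneg (by linarith)]
    rw [h6] at h5
    calc |g3 (x + t) - g3 (x - t)| ≤ _ := h5
      _ = _ := by ring
  have b2 : ∀ t, 0 ≤ t → |g2 (x + t) + g2 (x - t) - 2 * g2 x| ≤ 2 * M * t ^ 2 :=
    mv (fun t => g2 (x + t) + g2 (x - t) - 2 * g2 x) (fun t => g3 (x + t) - g3 (x - t)) (2 * M) 1
      (by linarith) (fun t => by
        have := ((sh _ _ h3 t).add (sh' _ _ h3 t)).sub_const (2 * g2 x)
        exact this.congr_deriv (by ring)) (by simp; ring) b3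
  have b1 : ∀ t, 0 ≤ t → |g1 (x + t) - g1 (x - t) - 2 * t * g2 x| ≤ 2 * M * t ^ 3 :=
    mv (fun t => g1 (x + t) - g1 (x - t) - 2 * t * g2 x)
      (fun t => g2 (x + t) + g2 (x - t) - 2 * g2 x) (2 * M) 2
      (by linarith) (fun t => by
        have := ((sh _ _ h2 t).sub (sh' _ _ h2 t)).sub
          (((hasDerivAt_id t).const_mul 2).mul_const (g2 x))
        exact this.congr_deriv (by ring)) (by simp) b2
  have b0 := mv (fun t => g (x + t) + g (x - t) - 2 * g x - t ^ 2 * g2 x)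
      (fun t => g1 (x + t) - g1 (x - t) - 2 * t * g2 x) (2 * M) 3
      (by linarith) (fun t => by
        have := (((sh _ _ h1 t).add (sh' _ _ h1 t)).sub_const (2 * g x)).sub
          (((hasDerivAt_id t).pow 2).mul_const (g2 x))
        exact this.congr_deriv (by simp; ring)) (by simp; ring) b1
  exact b0 h hh

theorem sin_sq (θ : ℝ) (h0 : 0 ≤ θ) : |4 * Real.sin θ ^ 2 - 4 * θ ^ 2| ≤ 4 * θ ^ 4 := by
  have h1 : Real.sin θ ^ 2 ≤ θ ^ 2 := by
    have := Real.abs_sin_le_abs (x := θ)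
    exact sq_le_sq.2 this
  have h2 : |4 * Real.sin θ ^ 2 - 4 * θ ^ 2| = 4 * θ ^ 2 - 4 * Real.sin θ ^ 2 := by
    rw [abs_sub_comm, abs_of_nonneg (by linarith)]
  rw [h2]
  rcases le_total θ 1 with h3 | h3
  · rcases h0.eq_or_lt with h4 | h4
    · subst h4; simp
    · have h5 := Real.sin_gt_sub_cube h4
      have h6 := Real.sin_le h0
      have h7 : 0 ≤ Real.sin θ := Real.sin_nonneg_of_nonneg_of_le_pi h0 (by linarith [Real.pi_gt_three])
      have h8 : (θ - Real.sin θ) * (θ + Real.sin θ) ≤ θ ^ 3 / 6 * (2 * θ) :=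
        mul_le_mul (by linarith) (by linarith) (by linarith) (by positivity)
      nlinarith [pow_pos h4 4]
  · have h5 : θ ^ 2 ≤ θ ^ 4 := pow_le_pow_right₀ h3 (by norm_num)
    nlinarith [sq_nonneg (Real.sin θ)]

end PkgVT

open PkgVT

theorem pVT : S_VT := by
  intro N hN Ψ hΨ hc
  have c4 : ContDiff ℝ (3 + 1 : ℕ) Ψ := by exact_mod_cast hΨ
  -- iterated derivatives in one direction
  have it : ∀ u : ℝ × ℝ, ContDiff ℝ (3 : ℕ) (P u Ψ) ∧ ContDiff ℝ (2 : ℕ) (P u (P u Ψ)) ∧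
      ContDiff ℝ (1 : ℕ) (P u (P u (P u Ψ))) ∧ ContDiff ℝ (0 : ℕ) (P u (P u (P u (P u Ψ)))) := by
    intro u
    have a1 := P_contDiff u c4
    have a2 := P_contDiff u (n := 2) a1
    have a3 := P_contDiff u (n := 1) a2
    have a4 := P_contDiff u (n := 0) a3
    exact ⟨a1, a2, a3, a4⟩
  have dif : Differentiable ℝ Ψ := c4.differentiable (by norm_num)
  have dif1 : ∀ u, Differentiable ℝ (P u Ψ) := fun u => (it u).1.differentiable (by norm_num)
  have dif2 : ∀ u, Differentiable ℝ (P u (P u Ψ)) := fun u => (it u).2.1.differentiable (by norm_num)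
  have dif3 : ∀ u, Differentiable ℝ (P u (P u (P u Ψ))) := fun u =>
    (it u).2.2.1.differentiable (by norm_num)
  have bd : ∀ u, ∃ M, ∀ p, |P u (P u (P u (P u Ψ))) p| ≤ M := fun u =>
    (it u).2.2.2.continuous.bounded_above_of_compact_support (P_comp u (P_comp u (P_comp u (P_comp u hc))))
  obtain ⟨M1, hM1⟩ := bd (1, 0)
  obtain ⟨M2, hM2⟩ := bd (0, 1)
  obtain ⟨M0, hM0⟩ := hΨ.continuous.bounded_above_of_compact_support hc
  -- the Laplacian
  have hlap : ∀ p, lapc Ψ p = P (1, 0) (P (1, 0) Ψ) p + P (0, 1) (P (0, 1) Ψ) p := by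
    intro p
    unfold lapc
    congr 1
    · rw [iteratedDeriv_succ, iteratedDeriv_one]
      have : deriv (fun t => Ψ (t, p.2)) = fun t => P (1, 0) Ψ (t, p.2) := by
        funext t; exact (hasD1 dif p.2 t).deriv
      rw [this]
      exact (hasD1 (dif1 (1, 0)) p.2 p.1).deriv
    · rw [iteratedDeriv_succ, iteratedDeriv_one]
      have : deriv (fun t => Ψ (p.1, t)) = fun t => P (0, 1) Ψ (p.1, t) := by
        funext t; exact (hasD2 dif p.1 t).deriv
      rw [this]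
      exact (hasD2 (dif1 (0, 1)) p.1 p.2).deriv
  have hcont : Continuous (srcc N Ψ) := by
    have : srcc N Ψ = fun p => (2 * Real.pi / N) ^ 2 * Ψ p -
        (P (1, 0) (P (1, 0) Ψ) p + P (0, 1) (P (0, 1) Ψ) p) := by
      funext p; unfold srcc; rw [hlap]
    rw [this]
    exact (hΨ.continuous.const_mul _).sub ((it _).2.1.continuous.add (it _).2.1.continuous)
  have hzero : ∀ p, p ∉ tsupport Ψ → Ψ p = 0 ∧ srcc N Ψ p = 0 := by
    intro p hp
    have z0 : Ψ p = 0 := image_eq_zero_of_notMem_tsupport hp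
    have z1 : ∀ u, P u (P u Ψ) p = 0 := fun u => image_eq_zero_of_notMem_tsupport fun h =>
      hp (P_tsupport u _ (P_tsupport u _ h))
    refine ⟨z0, ?_⟩
    unfold srcc
    rw [hlap, z0, z1, z1]
    ring
  have hsc : HasCompactSupport (srcc N Ψ) := by
    refine hc.mono' ?_
    intro p hp
    by_contra h
    exact hp (hzero p h).2
  obtain ⟨M3, hM3⟩ := hcont.bounded_above_of_compact_support hsc
  refine ⟨hcont, ?_, ?_⟩
  · obtain ⟨R, hR⟩ := hc.isCompact.isBounded.exists_norm_le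
    obtain ⟨r, hr⟩ := exists_nat_gt R
    refine ⟨r, fun p hp => hzero p fun hmem => ?_⟩
    have h1 := hR p hmem
    rw [Prod.norm_def] at h1
    have h2 : |p.1| ≤ R := (le_max_left _ _).trans h1
    have h3 : |p.2| ≤ R := (le_max_right _ _).trans h1
    rcases hp with hp | hp <;> linarith
  · have hM0' : 0 ≤ M0 := (norm_nonneg _).trans (hM0 0)
    have hM1' : 0 ≤ M1 := (abs_nonneg _).trans (hM1 0)
    have hM2' : 0 ≤ M2 := (abs_nonneg _).trans (hM2 0)
    have hM3' : 0 ≤ M3 := (norm_nonneg _).trans (hM3 0)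
    refine ⟨1 + 65 * M0 + 2 * M1 + 2 * M2 + M3, by linarith, fun p => ?_, fun p => ?_, ?_⟩
    · have := hM0 p
      rw [Real.norm_eq_abs] at this
      linarith
    · have := hM3 p
      rw [Real.norm_eq_abs] at this
      linarith
    intro L hL x
    have hL' : (1 : ℝ) ≤ L := by exact_mod_cast hL
    have hL0 : (0 : ℝ) < L := by linarith
    set a : ℝ := (x.1 : ℝ) / L with ha
    set b : ℝ := (x.2 : ℝ) / L with hb
    set h : ℝ := 1 / L with hh
    have hh0 : 0 ≤ h := by positivity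
    have e1 := second (g := fun t => Ψ (t, b)) (fun t => hasD1 dif b t) (fun t => hasD1 (dif1 _) b t)
      (fun t => hasD1 (dif2 _) b t) (fun t => hasD1 (dif3 _) b t) (fun t => hM1 (t, b)) a hh0
    have e2 := second (g := fun t => Ψ (a, t)) (fun t => hasD2 dif a t) (fun t => hasD2 (dif1 _) a t)
      (fun t => hasD2 (dif2 _) a t) (fun t => hasD2 (dif3 _) a t) (fun t => hM2 (a, t)) b hh0
    have e3 : |mu2 N L - (2 * Real.pi / N) ^ 2 / (L : ℝ) ^ 2| ≤ 64 / (L : ℝ) ^ 4 := by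
      have hN' : (2 : ℝ) ≤ N := by exact_mod_cast hN
      have hN0 : (0 : ℝ) < N := by linarith
      have h1 := sin_sq (Real.pi / (N * L)) (by positivity)
      have h2 : (2 * Real.pi / N) ^ 2 / (L : ℝ) ^ 2 = 4 * (Real.pi / (N * L)) ^ 2 := by
        field_simp
        norm_num
      unfold mu2
      rw [h2]
      refine h1.trans ?_
      have h3 : Real.pi / (N * L) ≤ 2 / L := by
        rw [div_le_div_iff₀ (by positivity) hL0]
        nlinarith [Real.pi_le_four, mul_le_mul_of_nonneg_right hN' hL0.le]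
      have h4 : (Real.pi / (N * L)) ^ 4 ≤ (2 / L) ^ 4 := pow_le_pow_left₀ (by positivity) h3 4
      calc 4 * (Real.pi / (N * L)) ^ 4 ≤ 4 * (2 / L) ^ 4 := by linarith
        _ = 64 / (L : ℝ) ^ 4 := by ring
    have f1 : rs L Ψ (x + (1, 0)) = Ψ (a + h, b) := by
      unfold rs
      congr 1
      ext
      · simp [ha, hh]; ring
      · simp [hb]
    have f2 : rs L Ψ (x - (1, 0)) = Ψ (a - h, b) := by
      unfold rs
      congr 1
      ext
      · simp [ha, hh]; ring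
      · simp [hb]
    have f3 : rs L Ψ (x + (0, 1)) = Ψ (a, b + h) := by
      unfold rs
      congr 1
      ext
      · simp [ha]
      · simp [hb, hh]; ring
    have f4 : rs L Ψ (x - (0, 1)) = Ψ (a, b - h) := by
      unfold rs
      congr 1
      ext
      · simp [ha]
      · simp [hb, hh]; ring
    have f0 : rs L Ψ x = Ψ (a, b) := rfl
    have f5 : rs L (srcc N Ψ) x = (2 * Real.pi / N) ^ 2 * Ψ (a, b) -
        (P (1, 0) (P (1, 0) Ψ) (a, b) + P (0, 1) (P (0, 1) Ψ) (a, b)) := by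
      show srcc N Ψ (a, b) = _
      unfold srcc
      rw [hlap]
    have hhL : h ^ 4 = 1 / (L : ℝ) ^ 4 := by rw [hh]; ring
    have key : sc N L (rs L Ψ) x - rs L (srcc N Ψ) x / (L : ℝ) ^ 2 =
        -(Ψ (a + h, b) + Ψ (a - h, b) - 2 * Ψ (a, b) - h ^ 2 * P (1, 0) (P (1, 0) Ψ) (a, b)) -
        (Ψ (a, b + h) + Ψ (a, b - h) - 2 * Ψ (a, b) - h ^ 2 * P (0, 1) (P (0, 1) Ψ) (a, b)) +
        (mu2 N L - (2 * Real.pi / N) ^ 2 / (L : ℝ) ^ 2) * Ψ (a, b) := by
      unfold sc lap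
      rw [f1, f2, f3, f4, f0, f5, hh]
      ring
    rw [key]
    have g0 : |Ψ (a, b)| ≤ M0 := hM0 (a, b)
    have g3 : |(mu2 N L - (2 * Real.pi / N) ^ 2 / (L : ℝ) ^ 2) * Ψ (a, b)| ≤ 64 / (L : ℝ) ^ 4 * M0 := by
      rw [abs_mul]
      exact mul_le_mul e3 g0 (abs_nonneg _) (by positivity)
    refine (abs_add_le _ _).trans ?_
    have g1 := (abs_sub (-(Ψ (a + h, b) + Ψ (a - h, b) - 2 * Ψ (a, b) - h ^ 2 * P (1, 0) (P (1, 0) Ψ) (a, b)))
      (Ψ (a, b + h) + Ψ (a, b - h) - 2 * Ψ (a, b) - h ^ 2 * P (0, 1) (P (0, 1) Ψ) (a, b)))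
    rw [abs_neg] at g1
    have hL4 : 0 < 1 / (L : ℝ) ^ 4 := by positivity
    have fin : (1 + 65 * M0 + 2 * M1 + 2 * M2 + M3) / (L : ℝ) ^ 4 =
      (1 + 65 * M0 + 2 * M1 + 2 * M2 + M3) * (1 / (L : ℝ) ^ 4) := by ring
    have g4 : 64 / (L : ℝ) ^ 4 * M0 = 64 * M0 * (1 / (L : ℝ) ^ 4) := by ring
    rw [fin]
    rw [hhL] at e1 e2
    rw [g4] at g3
    nlinarith [mul_nonneg hM0' hL4.le, mul_nonneg hM3' hL4.le]

end T2H02.TT
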