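import Pool.Agent.T2H02.TT.All5
import Pool.Agent.T2H02.TT.Fin26
import Pool.Agent.T2H02.TT.VI
import Pool.Agent.T2H02.TT.VJ
import Pool.Agent.T2H02.TT.VK
import Pool.Agent.T2H02.TT.VO
import Pool.Agent.T2H02.TT.VT
import Pool.Agent.T2H02.TT.VR
import Pool.Agent.T2H02.TT.VS

/-!
# The scaling limit of the Polyakov loops
-/

set_option autoImplicit false

noncomputable section

open MeasureTheory Matrix Filter Topology

namespace T2H02.TT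

theorem aVI : S_VI :=
  pVI pB0 aD1u pE4 aGu pG3u aJu aJI aJM aKu (pL1u pB0) pL2u pL3u pUT1 aUT2
theorem aVJ : S_VJ := pVJ aD1u aJu aJI aJM aVI
theorem aVK : S_VK := pVK pF4 pF5 aHu pOA aVJ

theorem ascal (N k a : ℕ) (hN : 2 ≤ N) (hk : Nat.Coprime k N) (ha : a < N)
    (hka : (k * a) % N = 1) :
    ∃ K₀ : ℕ, ∀ Ψ : ℝ × ℝ → ℝ, ContDiff ℝ 4 Ψ → HasCompactSupport Ψ → ∀ ε : ℝ, 0 < ε →
      ∃ C₀ : ℝ, 0 < C₀ ∧ ∀ (L : ℕ) [NeZero L] (β : ℝ), C₀ ≤ L → C₀ * (L : ℝ) ^ K₀ ≤ β →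
        ∀ u : ℂ, ‖u‖ = 1 →
          |Phi N L k β (fun X => Real.cos (sfl β (Gpol N L a u) (srcc N Ψ) X)) -
            Real.exp (-((∫ p, srcc N Ψ p * Ψ p) / 2))| ≤ ε ∧
          |Phi N L k β (fun X => Real.sin (sfl β (Gpol N L a u) (srcc N Ψ) X))| ≤ ε :=
  scalx pUMx aUK aVK pVO pVT pVR pVS pA1 aP1u pO pSY N k a hN hk ha hka

end T2H02.TT
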