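import Pool.Agent.T2H02.TT.Fin30

/-!
# Scaling limit of the complex field of Polyakov loops: covariance given by the Green function
-/

set_option autoImplicit false
set_option linter.unusedSectionVars false

noncomputable section

open MeasureTheory Matrix Filter Topology
open scoped Matrix.Norms.Frobenius

namespace T2H02.TT

/-- the lowest Fourier mode of the Polyakov loops:
`√(2/N) / (a L²) ∑_y exp (-2 π i y₂ / (N L)) tr (P_y ^ a)`, `P_y` = holonomy of the torus loop in the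
direction `0` at `y`, `0 ≤ y₂ < L` -/
def Zpol (N L : ℕ) [NeZero L] (a : ℕ) (φ : Ph N L) : ℂ :=
  ((Real.sqrt (2 / N) / (a * (L : ℝ) ^ 2) : ℝ) : ℂ) * ∑ y : Tor L,
    Complex.exp (-((2 * Real.pi * (y.2.val : ℝ) / (N * L) : ℝ) * Complex.I)) *
      ((hol φ 0 L y ^ a : SU N) : Mt N).trace

/-- covariance of the Gaussian free field of mass `m` on `ℝ²` -/
def cov (m : ℝ) (F : ℝ × ℝ → ℝ) : ℝ := ∫ p, ∫ q, F p * GK m (p - q) * F q

lemma Zpol_re (N L : ℕ) [NeZero L] (a : ℕ) (φ : Ph N L) : (Zpol N L a φ).re = Gpol N L a 1 φ := by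
  unfold Zpol Gpol
  rw [Complex.re_ofReal_mul, Complex.re_sum]
  simp only [one_mul]

lemma Zpol_im (N L : ℕ) [NeZero L] (a : ℕ) (φ : Ph N L) :
    (Zpol N L a φ).im = Gpol N L a (-Complex.I) φ := by
  unfold Zpol Gpol
  rw [Complex.im_ofReal_mul, Complex.im_sum]
  congr 1
  refine Finset.sum_congr rfl fun y _ => ?_
  have h : ∀ e t : ℂ, (e * t).im = (-Complex.I * e * t).re := by
    intro e t
    rw [mul_assoc, neg_mul, Complex.neg_re, Complex.I_mul_re, neg_neg]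
  exact h _ _

/-- the scaling limit with explicit covariance -/
theorem scal3 (hUM : S_UMy) (hUK : S_UK) (hQK : S_QK) (hQN : S_QN) (hQM : S_QM) (hQT : S_QT)
    (hQG : S_QG) (hVO : S_VO) (hVR : S_VR) (hVS : S_VS) (hA1 : S_A1) (hP : S_P1u) (hO : S_O)
    (hS : S_SY) (N k a : ℕ) (hN : 2 ≤ N) (hk : Nat.Coprime k N) (ha : a < N)
    (hka : (k * a) % N = 1) :
    ∃ K₀ : ℕ, ∀ F F' : ℝ × ℝ → ℝ, ContDiff ℝ 4 F → ContDiff ℝ 4 F' → HasCompactSupport F →
      HasCompactSupport F' → ∀ ε : ℝ, 0 < ε →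
      ∃ C₀ : ℝ, 0 < C₀ ∧ ∀ (L : ℕ) [NeZero L] (β : ℝ), C₀ ≤ L → C₀ * (L : ℝ) ^ K₀ ≤ β →
        |Phi N L k β (fun X => Real.cos (sfl β (fun φ => (Zpol N L a φ).re) F X +
            sfl β (fun φ => (Zpol N L a φ).im) F' X)) -
          Real.exp (-((cov (2 * Real.pi / N) F + cov (2 * Real.pi / N) F') / 2))| ≤ ε ∧
        |Phi N L k β (fun X => Real.sin (sfl β (fun φ => (Zpol N L a φ).re) F X +
            sfl β (fun φ => (Zpol N L a φ).im) F' X))| ≤ ε := by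
  obtain ⟨K₀, h⟩ := scal2 hUM hUK hQK hQN hQM hQT hVO hVR hVS hA1 hP hO hS N k a hN hk ha hka
  refine ⟨K₀, fun F F' hF hF' hc hc' ε hε => ?_⟩
  have hN' : (0 : ℝ) < N := by
    have : 0 < N := by omega
    exact_mod_cast this
  have hm : 0 < 2 * Real.pi / (N : ℝ) := by positivity
  have key : ∀ F : ℝ × ℝ → ℝ, ContDiff ℝ 4 F → HasCompactSupport F →
      ∃ Ψ : ℝ × ℝ → ℝ, Bd4 Ψ ∧ srcc N Ψ = F ∧ ∫ p, srcc N Ψ p * Ψ p = cov (2 * Real.pi / N) F := by
    intro F hF hc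
    obtain ⟨h1, h2⟩ := hQG _ hm F hF hc
    have e : srcc N (fun p => ∫ q, GK (2 * Real.pi / N) (p - q) * F q) = F := by
      funext p
      exact h2 p
    refine ⟨_, h1, e, ?_⟩
    rw [e]
    unfold cov
    refine integral_congr_ae (Filter.Eventually.of_forall fun p => ?_)
    show F p * (∫ q, GK (2 * Real.pi / N) (p - q) * F q) = ∫ q, F p * GK (2 * Real.pi / N) (p - q) * F q
    rw [← integral_const_mul]
    refine integral_congr_ae (Filter.Eventually.of_forall fun q => ?_)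
    show F p * (GK (2 * Real.pi / N) (p - q) * F q) = _
    ring
  obtain ⟨Ψ, hΨ, e, hcov⟩ := key F hF hc
  obtain ⟨Ψ', hΨ', e', hcov'⟩ := key F' hF' hc'
  obtain ⟨C₀, hC₀, hmain⟩ := h Ψ Ψ' hΨ hΨ' (e.symm ▸ hc) (e'.symm ▸ hc') ε hε
  refine ⟨C₀, hC₀, fun L _ β hL hβ => ?_⟩
  have h3 := hmain L β hL hβ
  rw [hcov, hcov', e, e'] at h3
  simp only [Zpol_re, Zpol_im]
  exact h3

end T2H02.TT
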