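import Pool.Agent.T2H02.TT.StmQ
import Pool.Agent.T2H02.TT.VT

set_option autoImplicit false

noncomputable section

open MeasureTheory Filter Topology Set

namespace T2H02.TT
namespace PkgQG

open PkgVT (P P_contDiff P_tsupport P_comp hasD1 hasD2)

theorem cs_bdd {E : Type} [NormedAddCommGroup E] {F : ℝ × ℝ → E} (hF : Continuous F)
    (hc : HasCompactSupport F) : ∃ C : ℝ, 0 ≤ C ∧ ∀ p, ‖F p‖ ≤ C := by
  obtain ⟨C, hC⟩ := hF.bounded_above_of_compact_support hc
  exact ⟨C, (norm_nonneg _).trans (hC 0), hC⟩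

theorem conv_meas {E : Type} [NormedAddCommGroup E] [NormedSpace ℝ E] {K : ℝ × ℝ → ℝ}
    (hK : Integrable K) {F : ℝ × ℝ → E} (hF : Continuous F) (p : ℝ × ℝ) :
    AEStronglyMeasurable (fun q => K q • F (p - q)) volume := by
  have h1 : Continuous fun q => F (p - q) := hF.comp (continuous_const.sub continuous_id)
  exact hK.aestronglyMeasurable.smul h1.aestronglyMeasurable

theorem conv_int {E : Type} [NormedAddCommGroup E] [NormedSpace ℝ E] {K : ℝ × ℝ → ℝ}
    (hK : Integrable K) {F : ℝ × ℝ → E} (hF : Continuous F) {C : ℝ} (hC : ∀ p, ‖F p‖ ≤ C)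
    (p : ℝ × ℝ) : Integrable (fun q => K q • F (p - q)) := by
  refine (hK.norm.mul_const C).mono' (conv_meas hK hF p) (Eventually.of_forall fun q => ?_)
  rw [norm_smul]
  exact mul_le_mul_of_nonneg_left (hC _) (norm_nonneg _)

theorem conv_cont {E : Type} [NormedAddCommGroup E] [NormedSpace ℝ E] {K : ℝ × ℝ → ℝ}
    (hK : Integrable K) {F : ℝ × ℝ → E} (hF : Continuous F) {C : ℝ} (hC : ∀ p, ‖F p‖ ≤ C) :
    Continuous (fun p => ∫ q, K q • F (p - q)) := by
  refine continuous_of_dominated (bound := fun q => ‖K q‖ * C) (fun p => conv_meas hK hF p)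
    (fun p => Eventually.of_forall fun q => ?_) (hK.norm.mul_const C)
    (Eventually.of_forall fun q => ?_)
  · rw [norm_smul]
    exact mul_le_mul_of_nonneg_left (hC _) (norm_nonneg _)
  · exact (hF.comp (continuous_id.sub continuous_const)).const_smul (K q)

theorem conv_bd {E : Type} [NormedAddCommGroup E] [NormedSpace ℝ E] {K : ℝ × ℝ → ℝ}
    (hK : Integrable K) {F : ℝ × ℝ → E} {C : ℝ} (hC : ∀ p, ‖F p‖ ≤ C) (p : ℝ × ℝ) :
    ‖∫ q, K q • F (p - q)‖ ≤ (∫ q, ‖K q‖) * C := by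
  rw [← integral_mul_const]
  refine norm_integral_le_of_norm_le (hK.norm.mul_const C) (Eventually.of_forall fun q => ?_)
  rw [norm_smul]
  exact mul_le_mul_of_nonneg_left (hC _) (norm_nonneg _)

theorem conv_fderiv {E : Type} [NormedAddCommGroup E] [NormedSpace ℝ E] {K : ℝ × ℝ → ℝ}
    (hK : Integrable K) {F : ℝ × ℝ → E} (hF : ContDiff ℝ 1 F) (hc : HasCompactSupport F)
    (p : ℝ × ℝ) :
    HasFDerivAt (fun p => ∫ q, K q • F (p - q)) (∫ q, K q • fderiv ℝ F (p - q)) p := by
  obtain ⟨C, hC0, hC⟩ := cs_bdd hF.continuous hc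
  have h1 : Continuous (fderiv ℝ F) := hF.continuous_fderiv one_ne_zero
  obtain ⟨D, hD0, hD⟩ := cs_bdd h1 (hc.fderiv ℝ)
  refine hasFDerivAt_integral_of_dominated_of_fderiv_le (s := univ) (bound := fun q => ‖K q‖ * D)
    (F := fun p q => K q • F (p - q)) (F' := fun p q => K q • fderiv ℝ F (p - q)) univ_mem
    (Eventually.of_forall fun p => conv_meas hK hF.continuous p)
    (conv_int hK hF.continuous hC p) (conv_meas hK h1 p)
    (Eventually.of_forall fun q x _ => ?_) (hK.norm.mul_const D)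
    (Eventually.of_forall fun q x _ => ?_)
  · show ‖K q • fderiv ℝ F (x - q)‖ ≤ ‖K q‖ * D
    rw [norm_smul]
    exact mul_le_mul_of_nonneg_left (hD _) (norm_nonneg _)
  · have h2 : HasFDerivAt F (fderiv ℝ F (x - q)) (x - q) :=
      (hF.differentiable one_ne_zero (x - q)).hasFDerivAt
    have h3 : HasFDerivAt (fun x => F (x - q)) (fderiv ℝ F (x - q)) x := by
      have := h2.comp x ((hasFDerivAt_id x).sub_const q)
      rw [ContinuousLinearMap.comp_id] at this
      exact this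
    exact h3.const_smul (K q)

theorem conv_smooth {K : ℝ × ℝ → ℝ} (hK : Integrable K) (n : ℕ) :
    ∀ (E : Type) [NormedAddCommGroup E] [NormedSpace ℝ E] (F : ℝ × ℝ → E), ContDiff ℝ n F →
      HasCompactSupport F → ContDiff ℝ n (fun p => ∫ q, K q • F (p - q)) ∧
      ∃ C : ℝ, 0 ≤ C ∧ ∀ i : ℕ, i ≤ n → ∀ p,
        ‖iteratedFDeriv ℝ i (fun p => ∫ q, K q • F (p - q)) p‖ ≤ C := by
  induction n with
  | zero =>
    intro E _ _ F hF hc
    obtain ⟨C, hC0, hC⟩ := cs_bdd hF.continuous hc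
    refine ⟨?_, (∫ q, ‖K q‖) * C, by positivity, ?_⟩
    · exact contDiff_zero.2 (conv_cont hK hF.continuous hC)
    · intro i hi p
      obtain rfl : i = 0 := by omega
      rw [norm_iteratedFDeriv_zero]
      exact conv_bd hK hC p
  | succ n ih =>
    intro E _ _ F hF hc
    obtain ⟨C, hC0, hC⟩ := cs_bdd hF.continuous hc
    have h1 : ContDiff ℝ 1 F := hF.of_le (by exact_mod_cast Nat.le_add_left 1 n)
    have hfd : ∀ p, HasFDerivAt (fun p => ∫ q, K q • F (p - q))
        (∫ q, K q • fderiv ℝ F (p - q)) p := conv_fderiv hK h1 hc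
    have hfe : fderiv ℝ (fun p => ∫ q, K q • F (p - q)) =
        fun p => ∫ q, K q • fderiv ℝ F (p - q) := by
      funext p; exact (hfd p).fderiv
    have h2 : ContDiff ℝ n (fderiv ℝ F) := hF.fderiv_right (by exact_mod_cast le_rfl)
    obtain ⟨h3, C', hC'0, hC'⟩ := ih (ℝ × ℝ →L[ℝ] E) (fderiv ℝ F) h2 (hc.fderiv ℝ)
    refine ⟨?_, max C' ((∫ q, ‖K q‖) * C), by positivity, ?_⟩
    · have : ContDiff ℝ ((n : WithTop ℕ∞) + 1) (fun p => ∫ q, K q • F (p - q)) := by
        rw [contDiff_succ_iff_fderiv]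
        refine ⟨fun p => (hfd p).differentiableAt, by simp, ?_⟩
        rw [hfe]; exact h3
      exact_mod_cast this
    · intro i hi p
      rcases i with _ | i
      · rw [norm_iteratedFDeriv_zero]
        exact (conv_bd hK hC p).trans (le_max_right _ _)
      · rw [← norm_iteratedFDeriv_fderiv, hfe]
        exact (hC' i (by omega) p).trans (le_max_left _ _)

/-! ### the heat kernel -/

def ht (t : ℝ) (q : ℝ × ℝ) : ℝ := Real.exp (-((q.1 ^ 2 + q.2 ^ 2) / (4 * t))) / (4 * Real.pi * t)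

theorem ht_prod (t : ℝ) (q : ℝ × ℝ) : ht t q =
    (Real.exp (-(1 / (4 * t)) * q.1 ^ 2) * Real.exp (-(1 / (4 * t)) * q.2 ^ 2)) *
      (1 / (4 * Real.pi * t)) := by
  unfold ht
  rw [← Real.exp_add, mul_one_div]
  congr 2
  ring

theorem ht_nonneg {t : ℝ} (ht0 : 0 < t) (q : ℝ × ℝ) : 0 ≤ ht t q := by
  unfold ht; positivity

theorem ht_cont {t : ℝ} (_ : 0 < t) : Continuous (ht t) := by
  unfold ht
  fun_prop

theorem ht_integrable {t : ℝ} (ht0 : 0 < t) : Integrable (ht t) := by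
  have hb : 0 < 1 / (4 * t) := by positivity
  have h1 := integrable_exp_neg_mul_sq hb
  have h2 := (h1.mul_prod h1).mul_const (1 / (4 * Real.pi * t))
  refine h2.congr (Eventually.of_forall fun q => ?_)
  exact (ht_prod t q).symm

theorem ht_integral {t : ℝ} (ht0 : 0 < t) : ∫ q, ht t q = 1 := by
  have hb : 0 < 1 / (4 * t) := by positivity
  have h0 : ht t = fun q : ℝ × ℝ =>
    (Real.exp (-(1 / (4 * t)) * q.1 ^ 2) * Real.exp (-(1 / (4 * t)) * q.2 ^ 2)) *
      (1 / (4 * Real.pi * t)) := funext (ht_prod t)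
  rw [h0, integral_mul_const, Measure.volume_eq_prod,
    integral_prod_mul (fun x => Real.exp (-(1 / (4 * t)) * x ^ 2))
      (fun x => Real.exp (-(1 / (4 * t)) * x ^ 2)), integral_gaussian,
    ← sq, Real.sq_sqrt (by positivity)]
  have := Real.pi_pos
  field_simp

/-- the joint kernel -/
def kk (m t : ℝ) (q : ℝ × ℝ) : ℝ := Real.exp (-(m ^ 2 * t)) * ht t q

theorem kk_eq (m t : ℝ) (q : ℝ × ℝ) :
    Real.exp (-(m ^ 2 * t) - (q.1 ^ 2 + q.2 ^ 2) / (4 * t)) / (4 * Real.pi * t) = kk m t q := by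
  unfold kk ht
  rw [sub_eq_add_neg, Real.exp_add]
  ring

theorem GK_eq (m : ℝ) (q : ℝ × ℝ) : GK m q = ∫ t in Ioi (0 : ℝ), kk m t q := by
  unfold GK
  exact integral_congr_ae (Eventually.of_forall fun t => kk_eq m t q)

theorem kk_meas (m : ℝ) : Measurable (fun z : ℝ × (ℝ × ℝ) => kk m z.1 z.2) := by
  unfold kk ht
  fun_prop

theorem kk_integrable {m : ℝ} (hm : 0 < m) :
    Integrable (fun z : ℝ × (ℝ × ℝ) => kk m z.1 z.2)
      ((volume.restrict (Ioi (0 : ℝ))).prod volume) := by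
  rw [integrable_prod_iff (kk_meas m).aestronglyMeasurable]
  constructor
  · filter_upwards [ae_restrict_mem measurableSet_Ioi] with t ht0
    exact (ht_integrable ht0).const_mul _
  · have h1 : IntegrableOn (fun t : ℝ => Real.exp (-(m ^ 2) * t)) (Ioi 0) :=
      exp_neg_integrableOn_Ioi 0 (by positivity)
    refine Integrable.congr h1 ?_
    filter_upwards [ae_restrict_mem measurableSet_Ioi] with t ht0
    have h2 : ∀ q, ‖kk m t q‖ = Real.exp (-(m ^ 2 * t)) * ht t q := fun q => by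
      rw [Real.norm_eq_abs, abs_of_nonneg]
      · rfl
      · exact mul_nonneg (Real.exp_nonneg _) (ht_nonneg ht0 q)
    show _ = ∫ q, ‖kk m t q‖
    simp_rw [h2]
    rw [integral_const_mul, ht_integral ht0, mul_one, neg_mul]

theorem GK_integrable {m : ℝ} (hm : 0 < m) : Integrable (GK m) := by
  have := (kk_integrable hm).integral_prod_right
  refine this.congr (Eventually.of_forall fun q => ?_)
  exact (GK_eq m q).symm

/-- Fubini -/
theorem conv_GK {m : ℝ} (hm : 0 < m) {S : ℝ × ℝ → ℝ} (hS : Continuous S) {C : ℝ}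
    (hC : ∀ p, ‖S p‖ ≤ C) (p : ℝ × ℝ) :
    ∫ q, GK m q • S (p - q) =
      ∫ t in Ioi (0 : ℝ), Real.exp (-(m ^ 2 * t)) * ∫ q, ht t q * S (p - q) := by
  have h1 : Continuous fun z : ℝ × (ℝ × ℝ) => S (p - z.2) := by fun_prop
  have h2 : Integrable (fun z : ℝ × (ℝ × ℝ) => kk m z.1 z.2 * S (p - z.2))
      ((volume.restrict (Ioi (0 : ℝ))).prod volume) := by
    refine ((kk_integrable hm).norm.mul_const C).mono'
      ((kk_meas m).aestronglyMeasurable.mul h1.aestronglyMeasurable)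
      (Eventually.of_forall fun z => ?_)
    rw [norm_mul]
    exact mul_le_mul_of_nonneg_left (hC _) (norm_nonneg _)
  calc ∫ q, GK m q • S (p - q) = ∫ q, ∫ t in Ioi (0 : ℝ), kk m t q * S (p - q) := by
        refine integral_congr_ae (Eventually.of_forall fun q => ?_)
        show GK m q * S (p - q) = ∫ t in Ioi (0 : ℝ), kk m t q * S (p - q)
        rw [GK_eq, integral_mul_const]
    _ = ∫ t in Ioi (0 : ℝ), ∫ q, kk m t q * S (p - q) := by
        rw [integral_integral_swap]
        exact h2.swap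
    _ = _ := by
        refine integral_congr_ae (Eventually.of_forall fun t => ?_)
        show ∫ q, kk m t q * S (p - q) = Real.exp (-(m ^ 2 * t)) * ∫ q, ht t q * S (p - q)
        rw [← integral_const_mul]
        refine integral_congr_ae (Eventually.of_forall fun q => ?_)
        show kk m t q * S (p - q) = _
        unfold kk; ring

theorem conv_GK_int {m : ℝ} (hm : 0 < m) {S : ℝ × ℝ → ℝ} (hS : Continuous S) {C : ℝ}
    (hC : ∀ p, ‖S p‖ ≤ C) (p : ℝ × ℝ) :
    IntegrableOn (fun t => Real.exp (-(m ^ 2 * t)) * ∫ q, ht t q * S (p - q)) (Ioi (0 : ℝ)) := by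
  have h1 : Continuous fun z : ℝ × (ℝ × ℝ) => S (p - z.2) := by fun_prop
  have h2 : Integrable (fun z : ℝ × (ℝ × ℝ) => kk m z.1 z.2 * S (p - z.2))
      ((volume.restrict (Ioi (0 : ℝ))).prod volume) := by
    refine ((kk_integrable hm).norm.mul_const C).mono'
      ((kk_meas m).aestronglyMeasurable.mul h1.aestronglyMeasurable)
      (Eventually.of_forall fun z => ?_)
    rw [norm_mul]
    exact mul_le_mul_of_nonneg_left (hC _) (norm_nonneg _)
  refine Integrable.congr h2.integral_prod_left (Eventually.of_forall fun t => ?_)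
  show ∫ q, kk m t q * S (p - q) = Real.exp (-(m ^ 2 * t)) * ∫ q, ht t q * S (p - q)
  rw [← integral_const_mul]
  refine integral_congr_ae (Eventually.of_forall fun q => ?_)
  show kk m t q * S (p - q) = _
  unfold kk; ring

/-! ### derivatives of the heat kernel -/

/-- time derivative -/
def hd (t : ℝ) (q : ℝ × ℝ) : ℝ := ht t q * ((q.1 ^ 2 + q.2 ^ 2) / (4 * t ^ 2) - 1 / t)

theorem ht_deriv {t : ℝ} (ht0 : 0 < t) (q : ℝ × ℝ) : HasDerivAt (fun t => ht t q) (hd t q) t := by
  have h0 : t ≠ 0 := ht0.ne'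
  have hp := Real.pi_pos
  have h1 : HasDerivAt (fun t : ℝ => -((q.1 ^ 2 + q.2 ^ 2) / (4 * t)))
      ((q.1 ^ 2 + q.2 ^ 2) / (4 * t ^ 2)) t := by
    have h2 : HasDerivAt (fun t : ℝ => 4 * t) 4 t := by
      simpa using (hasDerivAt_id t).const_mul 4
    have h3 := ((hasDerivAt_const t (q.1 ^ 2 + q.2 ^ 2)).div h2 (by positivity)).neg
    refine h3.congr_deriv ?_
    field_simp
    ring
  have h4 : HasDerivAt (fun t : ℝ => 4 * Real.pi * t) (4 * Real.pi) t := by
    simpa using (hasDerivAt_id t).const_mul (4 * Real.pi)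
  have h5 := h1.exp.div h4 (by positivity)
  refine h5.congr_deriv ?_
  unfold hd ht
  field_simp

theorem ht_smooth (t : ℝ) (n : ℕ) : ContDiff ℝ n (ht t) := by
  unfold ht
  fun_prop

theorem P1_ht {t : ℝ} (ht0 : 0 < t) :
    P (1, 0) (ht t) = fun q => ht t q * (-q.1 / (2 * t)) := by
  funext ⟨x, y⟩
  have h0 : t ≠ 0 := ht0.ne'
  have hp := Real.pi_pos
  have h1 := hasD1 ((ht_smooth t 1).differentiable (by norm_num)) y x
  have h2 : HasDerivAt (fun x : ℝ => ht t (x, y)) (ht t (x, y) * (-x / (2 * t))) x := by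
    have h3 : HasDerivAt (fun x : ℝ => -((x ^ 2 + y ^ 2) / (4 * t))) (-x / (2 * t)) x := by
      have := ((((hasDerivAt_id x).pow 2).add_const (y ^ 2)).div_const (4 * t)).neg
      refine this.congr_deriv ?_
      simp
      field_simp
      ring
    have h4 := h3.exp.div_const (4 * Real.pi * t)
    refine h4.congr_deriv ?_
    unfold ht
    ring
  exact h1.unique h2

theorem P2_ht {t : ℝ} (ht0 : 0 < t) :
    P (0, 1) (ht t) = fun q => ht t q * (-q.2 / (2 * t)) := by
  funext ⟨x, y⟩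
  have h0 : t ≠ 0 := ht0.ne'
  have hp := Real.pi_pos
  have h1 := hasD2 ((ht_smooth t 1).differentiable (by norm_num)) x y
  have h2 : HasDerivAt (fun y : ℝ => ht t (x, y)) (ht t (x, y) * (-y / (2 * t))) y := by
    have h3 : HasDerivAt (fun y : ℝ => -((x ^ 2 + y ^ 2) / (4 * t))) (-y / (2 * t)) y := by
      have := ((((hasDerivAt_id y).pow 2).const_add (x ^ 2)).div_const (4 * t)).neg
      refine this.congr_deriv ?_
      simp
      field_simp
      ring
    have h4 := h3.exp.div_const (4 * Real.pi * t)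
    refine h4.congr_deriv ?_
    unfold ht
    ring
  exact h1.unique h2

theorem P11_ht {t : ℝ} (ht0 : 0 < t) (q : ℝ × ℝ) :
    P (1, 0) (P (1, 0) (ht t)) q = ht t q * (q.1 ^ 2 / (4 * t ^ 2) - 1 / (2 * t)) := by
  obtain ⟨x, y⟩ := q
  have h0 : t ≠ 0 := ht0.ne'
  have hc : ContDiff ℝ (1 : ℕ) (P (1, 0) (ht t)) := P_contDiff _ (ht_smooth t 2)
  have h1 := hasD1 (hc.differentiable (by norm_num)) y x
  have h3 := hasD1 ((ht_smooth t 1).differentiable (by norm_num)) y x
  rw [P1_ht ht0] at h3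
  have h4 : HasDerivAt (fun x : ℝ => -x / (2 * t)) (-1 / (2 * t)) x :=
    ((hasDerivAt_id x).neg).div_const (2 * t)
  have h2 := h3.mul h4
  have h5 : (fun t_1 => P (1, 0) (ht t) (t_1, y)) = (fun t_1 => ht t (t_1, y)) *
      (fun x : ℝ => -x / (2 * t)) := by
    funext z
    rw [P1_ht ht0]
    rfl
  rw [h5] at h1
  rw [h1.unique h2]
  show ht t (x, y) * (-x / (2 * t)) * (-x / (2 * t)) + ht t (x, y) * (-1 / (2 * t)) = _
  field_simp
  ring

theorem P22_ht {t : ℝ} (ht0 : 0 < t) (q : ℝ × ℝ) :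
    P (0, 1) (P (0, 1) (ht t)) q = ht t q * (q.2 ^ 2 / (4 * t ^ 2) - 1 / (2 * t)) := by
  obtain ⟨x, y⟩ := q
  have h0 : t ≠ 0 := ht0.ne'
  have hc : ContDiff ℝ (1 : ℕ) (P (0, 1) (ht t)) := P_contDiff _ (ht_smooth t 2)
  have h1 := hasD2 (hc.differentiable (by norm_num)) x y
  have h3 := hasD2 ((ht_smooth t 1).differentiable (by norm_num)) x y
  rw [P2_ht ht0] at h3
  have h4 : HasDerivAt (fun x : ℝ => -x / (2 * t)) (-1 / (2 * t)) y :=
    ((hasDerivAt_id y).neg).div_const (2 * t)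
  have h2 := h3.mul h4
  have h5 : (fun t_1 => P (0, 1) (ht t) (x, t_1)) = (fun t_1 => ht t (x, t_1)) *
      (fun x : ℝ => -x / (2 * t)) := by
    funext z
    rw [P2_ht ht0]
    rfl
  rw [h5] at h1
  rw [h1.unique h2]
  show ht t (x, y) * (-y / (2 * t)) * (-y / (2 * t)) + ht t (x, y) * (-1 / (2 * t)) = _
  field_simp
  ring

theorem lap_ht {t : ℝ} (ht0 : 0 < t) (q : ℝ × ℝ) :
    P (1, 0) (P (1, 0) (ht t)) q + P (0, 1) (P (0, 1) (ht t)) q = hd t q := by
  rw [P11_ht ht0, P22_ht ht0]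
  unfold hd
  ring

/-! ### integration by parts -/

theorem ibp1 {f G : ℝ × ℝ → ℝ} (u : ℝ × ℝ) (hf : ContDiff ℝ (1 : ℕ) f) (hG : ContDiff ℝ (1 : ℕ) G)
    (hc : HasCompactSupport G) : ∫ q, f q * P u G q = - ∫ q, P u f q * G q := by
  have h1 : Continuous (P u f) := (P_contDiff u (n := 0) hf).continuous
  have h2 : Continuous (P u G) := (P_contDiff u (n := 0) hG).continuous
  refine integral_mul_fderiv_eq_neg_fderiv_mul_of_integrable (f := f) (g := G) (v := u) ?_ ?_ ?_
    (fun q _ => hf.differentiable (by norm_num) q) (fun q _ => hG.differentiable (by norm_num) q)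
  · exact (h1.mul hG.continuous).integrable_of_hasCompactSupport hc.mul_left
  · exact (hf.continuous.mul h2).integrable_of_hasCompactSupport (P_comp u hc).mul_left
  · exact (hf.continuous.mul hG.continuous).integrable_of_hasCompactSupport hc.mul_left

theorem ibp2 {f G : ℝ × ℝ → ℝ} (u : ℝ × ℝ) (hf : ContDiff ℝ (2 : ℕ) f) (hG : ContDiff ℝ (2 : ℕ) G)
    (hc : HasCompactSupport G) : ∫ q, f q * P u (P u G) q = ∫ q, P u (P u f) q * G q := by
  have f1 : ContDiff ℝ (1 : ℕ) f := hf.of_le (by norm_num)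
  have G1 : ContDiff ℝ (1 : ℕ) G := hG.of_le (by norm_num)
  rw [ibp1 u f1 (P_contDiff u hG) (P_comp u hc), ibp1 u (P_contDiff u hf) G1 hc, neg_neg]

/-! ### time derivative of the heat evolution -/

theorem v_deriv {G : ℝ × ℝ → ℝ} (hG : Continuous G) (hc : HasCompactSupport G) {t : ℝ}
    (ht0 : 0 < t) : HasDerivAt (fun t => ∫ q, ht t q * G q) (∫ q, hd t q * G q) t := by
  have hp := Real.pi_pos
  have hB : Continuous fun q : ℝ × ℝ =>
      (1 / (2 * Real.pi * t) * ((q.1 ^ 2 + q.2 ^ 2) / t ^ 2 + 2 / t)) * |G q| := by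
    fun_prop
  have hBc : HasCompactSupport fun q : ℝ × ℝ =>
      (1 / (2 * Real.pi * t) * ((q.1 ^ 2 + q.2 ^ 2) / t ^ 2 + 2 / t)) * |G q| :=
    hc.abs.mul_left
  have hdc : Continuous (hd t) := by
    unfold hd
    exact (ht_cont ht0).mul (by fun_prop)
  refine (hasDerivAt_integral_of_dominated_loc_of_deriv_le (s := Ioo (t / 2) (2 * t))
    (F := fun t q => ht t q * G q) (F' := fun t q => hd t q * G q)
    (Ioo_mem_nhds (by linarith) (by linarith)) ?_ ?_ ?_ ?_
    (hB.integrable_of_hasCompactSupport hBc) ?_).2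
  · filter_upwards [Ioi_mem_nhds ht0] with x hx
    exact ((ht_cont hx).mul hG).aestronglyMeasurable
  · exact ((ht_cont ht0).mul hG).integrable_of_hasCompactSupport hc.mul_left
  · exact (hdc.mul hG).aestronglyMeasurable
  · refine Eventually.of_forall fun q x hx => ?_
    have hx0 : 0 < x := by linarith [hx.1]
    rw [norm_mul, Real.norm_eq_abs, Real.norm_eq_abs]
    refine mul_le_mul_of_nonneg_right ?_ (abs_nonneg _)
    unfold hd
    rw [abs_mul, abs_of_nonneg (ht_nonneg hx0 q)]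
    refine mul_le_mul ?_ ?_ (abs_nonneg _) (by positivity)
    · unfold ht
      refine div_le_div₀ zero_le_one ?_ (by positivity) ?_
      · rw [Real.exp_le_one_iff]
        have : 0 ≤ (q.1 ^ 2 + q.2 ^ 2) / (4 * x) := by positivity
        linarith
      · have := hx.1
        nlinarith
    · have e1 : |(q.1 ^ 2 + q.2 ^ 2) / (4 * x ^ 2) - 1 / x| ≤
          (q.1 ^ 2 + q.2 ^ 2) / (4 * x ^ 2) + 1 / x := by
        rw [abs_le]
        have a1 : 0 ≤ (q.1 ^ 2 + q.2 ^ 2) / (4 * x ^ 2) := by positivity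
        have a2 : 0 ≤ 1 / x := by positivity
        constructor <;> linarith
      refine e1.trans (add_le_add ?_ ?_)
      · refine div_le_div_of_nonneg_left (by positivity) (by positivity) ?_
        have := hx.1
        nlinarith
      · rw [div_le_div_iff₀ hx0 ht0]
        have := hx.1
        linarith
  · refine Eventually.of_forall fun q x hx => ?_
    have hx0 : 0 < x := by linarith [hx.1]
    exact (ht_deriv hx0 q).mul_const (G q)

theorem v_heat {G : ℝ × ℝ → ℝ} (hG : ContDiff ℝ (2 : ℕ) G) (hc : HasCompactSupport G) {t : ℝ}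
    (ht0 : 0 < t) : HasDerivAt (fun t => ∫ q, ht t q * G q)
      (∫ q, ht t q * (P (1, 0) (P (1, 0) G) q + P (0, 1) (P (0, 1) G) q)) t := by
  refine (v_deriv hG.continuous hc ht0).congr_deriv ?_
  have hf := ht_smooth t 2
  have c1 : ∀ u, Continuous (P u (P u G)) := fun u =>
    (P_contDiff u (n := 0) (P_contDiff u (n := 1) hG)).continuous
  have c2 : ∀ u, Continuous (P u (P u (ht t))) := fun u =>
    (P_contDiff u (n := 0) (P_contDiff u (n := 1) hf)).continuous
  have i1 : ∀ u, Integrable fun q => ht t q * P u (P u G) q := fun u =>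
    ((ht_cont ht0).mul (c1 u)).integrable_of_hasCompactSupport (P_comp u (P_comp u hc)).mul_left
  have i2 : ∀ u, Integrable fun q => P u (P u (ht t)) q * G q := fun u =>
    ((c2 u).mul hG.continuous).integrable_of_hasCompactSupport hc.mul_left
  have e1 : ∫ q, hd t q * G q = ∫ q, P (1, 0) (P (1, 0) (ht t)) q * G q +
      P (0, 1) (P (0, 1) (ht t)) q * G q := by
    refine integral_congr_ae (Eventually.of_forall fun q => ?_)
    show hd t q * G q = P (1, 0) (P (1, 0) (ht t)) q * G q + P (0, 1) (P (0, 1) (ht t)) q * G q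
    rw [← lap_ht ht0]; ring
  have e2 : ∫ q, ht t q * (P (1, 0) (P (1, 0) G) q + P (0, 1) (P (0, 1) G) q) =
      ∫ q, ht t q * P (1, 0) (P (1, 0) G) q + ht t q * P (0, 1) (P (0, 1) G) q := by
    refine integral_congr_ae (Eventually.of_forall fun q => ?_)
    show ht t q * (P (1, 0) (P (1, 0) G) q + P (0, 1) (P (0, 1) G) q) =
      ht t q * P (1, 0) (P (1, 0) G) q + ht t q * P (0, 1) (P (0, 1) G) q
    ring
  rw [e1, e2, integral_add (i2 _) (i2 _), integral_add (i1 _) (i1 _), ibp2 _ hf hG hc,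
    ibp2 _ hf hG hc]

/-- substitution -/
theorem v_subst (G : ℝ × ℝ → ℝ) {t : ℝ} (ht0 : 0 < t) :
    ∫ q, ht t q * G q = ∫ z, ht 1 z * G (Real.sqrt t • z) := by
  have hp := Real.pi_pos
  have h1 := Measure.integral_comp_smul (volume : Measure (ℝ × ℝ)) (fun q => ht t q * G q)
    (Real.sqrt t)
  have h2 : Module.finrank ℝ (ℝ × ℝ) = 2 := by simp
  rw [h2, Real.sq_sqrt ht0.le, abs_of_pos (inv_pos.2 ht0), smul_eq_mul] at h1
  have h3 : ∀ z : ℝ × ℝ, ht t (Real.sqrt t • z) = t⁻¹ * ht 1 z := by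
    intro z
    unfold ht
    have e1 : (Real.sqrt t • z).1 ^ 2 + (Real.sqrt t • z).2 ^ 2 = t * (z.1 ^ 2 + z.2 ^ 2) := by
      simp only [Prod.smul_fst, Prod.smul_snd, smul_eq_mul, mul_pow, Real.sq_sqrt ht0.le]
      ring
    rw [e1]
    have e2 : t * (z.1 ^ 2 + z.2 ^ 2) / (4 * t) = (z.1 ^ 2 + z.2 ^ 2) / (4 * 1) := by
      field_simp
    rw [e2]
    field_simp
  have h4 : ∫ x, (fun q => ht t q * G q) (Real.sqrt t • x) =
      t⁻¹ * ∫ z, ht 1 z * G (Real.sqrt t • z) := by
    rw [← integral_const_mul]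
    refine integral_congr_ae (Eventually.of_forall fun z => ?_)
    show ht t (Real.sqrt t • z) * G (Real.sqrt t • z) = t⁻¹ * (ht 1 z * G (Real.sqrt t • z))
    rw [h3]; ring
  rw [h4] at h1
  exact (mul_left_cancel₀ (inv_ne_zero ht0.ne') h1).symm

theorem v_zero {G : ℝ × ℝ → ℝ} (hG : Continuous G) {C : ℝ} (hC : ∀ q, ‖G q‖ ≤ C) :
    Tendsto (fun t => ∫ q, ht t q * G q) (𝓝[>] 0) (𝓝 (G 0)) := by
  have h1 : Tendsto (fun t => ∫ z, ht 1 z * G (Real.sqrt t • z)) (𝓝[>] 0)
      (𝓝 (∫ z, ht 1 z * G 0)) := by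
    refine tendsto_integral_filter_of_dominated_convergence (fun z => ht 1 z * C)
      (Eventually.of_forall fun t => ?_) (Eventually.of_forall fun t =>
        Eventually.of_forall fun z => ?_) ((ht_integrable one_pos).mul_const C)
      (Eventually.of_forall fun z => ?_)
    · have : Continuous fun z => ht 1 z * G (Real.sqrt t • z) :=
        (ht_cont one_pos).mul (hG.comp (continuous_const_smul _))
      exact this.aestronglyMeasurable
    · rw [norm_mul, Real.norm_eq_abs, abs_of_nonneg (ht_nonneg one_pos z)]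
      exact mul_le_mul_of_nonneg_left (hC _) (ht_nonneg one_pos z)
    · have h2 : Continuous fun t : ℝ => ht 1 z * G (Real.sqrt t • z) :=
        continuous_const.mul (hG.comp (Real.continuous_sqrt.smul continuous_const))
      have h3 := (h2.tendsto 0).mono_left (nhdsWithin_le_nhds (s := Ioi (0 : ℝ)))
      simpa using h3
  rw [integral_mul_const, ht_integral one_pos, one_mul] at h1
  refine h1.congr' ?_
  filter_upwards [self_mem_nhdsWithin] with t ht0
  exact (v_subst G ht0).symm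

theorem v_bd {G : ℝ × ℝ → ℝ} {C : ℝ} (hC : ∀ q, ‖G q‖ ≤ C) {t : ℝ} (ht0 : 0 < t) :
    ‖∫ q, ht t q * G q‖ ≤ C := by
  have h1 : ‖∫ q, ht t q * G q‖ ≤ ∫ q, ht t q * C := by
    refine norm_integral_le_of_norm_le ((ht_integrable ht0).mul_const C)
      (Eventually.of_forall fun q => ?_)
    rw [norm_mul, Real.norm_eq_abs, abs_of_nonneg (ht_nonneg ht0 q)]
    exact mul_le_mul_of_nonneg_left (hC _) (ht_nonneg ht0 q)
  rwa [integral_mul_const, ht_integral ht0, one_mul] at h1

/-! ### the equation -/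

theorem main_eq {m : ℝ} (hm : 0 < m) {G : ℝ × ℝ → ℝ} (hG : ContDiff ℝ (2 : ℕ) G)
    (hc : HasCompactSupport G)
    (hint : IntegrableOn (fun t => Real.exp (-(m ^ 2 * t)) *
      ∫ q, ht t q * (m ^ 2 * G q - (P (1, 0) (P (1, 0) G) q + P (0, 1) (P (0, 1) G) q)))
      (Ioi (0 : ℝ))) :
    ∫ t in Ioi (0 : ℝ), Real.exp (-(m ^ 2 * t)) *
      ∫ q, ht t q * (m ^ 2 * G q - (P (1, 0) (P (1, 0) G) q + P (0, 1) (P (0, 1) G) q)) = G 0 := by
  obtain ⟨C, hC0, hC⟩ := cs_bdd hG.continuous hc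
  have c1 : ∀ u, Continuous (P u (P u G)) := fun u =>
    (P_contDiff u (n := 0) (P_contDiff u (n := 1) hG)).continuous
  have i1 : ∀ (t : ℝ), 0 < t → ∀ u, Integrable fun q => ht t q * P u (P u G) q := fun t ht0 u =>
    ((ht_cont ht0).mul (c1 u)).integrable_of_hasCompactSupport (P_comp u (P_comp u hc)).mul_left
  have i0 : ∀ (t : ℝ), 0 < t → Integrable fun q => ht t q * G q := fun t ht0 =>
    ((ht_cont ht0).mul hG.continuous).integrable_of_hasCompactSupport hc.mul_left
  set g : ℝ → ℝ := fun t => Real.exp (-(m ^ 2 * t)) * ∫ q, ht t q * G q with hg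
  set f : ℝ → ℝ := Function.update g 0 (G 0) with hf
  have hfg : ∀ t : ℝ, 0 < t → f =ᶠ[𝓝 t] g := by
    intro t ht0
    filter_upwards [Ioi_mem_nhds ht0] with x hx
    exact Function.update_of_ne (ne_of_gt hx) _ _
  have hcont : ContinuousWithinAt f (Ici 0) 0 := by
    rw [hf, continuousWithinAt_update_same, show Ici (0 : ℝ) \ {0} = Ioi 0 by ext x; simp [lt_iff_le_and_ne, eq_comm]]
    have h1 : Tendsto (fun t : ℝ => Real.exp (-(m ^ 2 * t))) (𝓝[>] 0) (𝓝 1) := by
      have h2 : Continuous fun t : ℝ => Real.exp (-(m ^ 2 * t)) := by fun_prop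
      have h3 := (h2.tendsto 0).mono_left (nhdsWithin_le_nhds (s := Ioi (0 : ℝ)))
      simpa using h3
    have h4 := h1.mul (v_zero hG.continuous hC)
    rwa [one_mul] at h4
  have hder : ∀ t ∈ Ioi (0 : ℝ), HasDerivAt f (-(Real.exp (-(m ^ 2 * t)) *
      ∫ q, ht t q * (m ^ 2 * G q - (P (1, 0) (P (1, 0) G) q + P (0, 1) (P (0, 1) G) q)))) t := by
    intro t ht0
    have ht0' : 0 < t := ht0
    refine HasDerivAt.congr_of_eventuallyEq ?_ (hfg t ht0')
    have h1 : HasDerivAt (fun t : ℝ => Real.exp (-(m ^ 2 * t)))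
        (Real.exp (-(m ^ 2 * t)) * (-(m ^ 2))) t := by
      have h2 : HasDerivAt (fun t : ℝ => -(m ^ 2 * t)) (-(m ^ 2)) t := by
        simpa using ((hasDerivAt_id t).const_mul (m ^ 2)).fun_neg
      exact h2.exp
    have h3 := h1.mul (v_heat hG hc ht0')
    refine h3.congr_deriv ?_
    have e1 : ∫ q, ht t q * (m ^ 2 * G q - (P (1, 0) (P (1, 0) G) q + P (0, 1) (P (0, 1) G) q)) =
        m ^ 2 * (∫ q, ht t q * G q) -
          ∫ q, ht t q * (P (1, 0) (P (1, 0) G) q + P (0, 1) (P (0, 1) G) q) := by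
      rw [← integral_const_mul, ← integral_sub ((i0 t ht0').const_mul _)]
      · refine integral_congr_ae (Eventually.of_forall fun q => ?_)
        show ht t q * (m ^ 2 * G q - (P (1, 0) (P (1, 0) G) q + P (0, 1) (P (0, 1) G) q)) =
          m ^ 2 * (ht t q * G q) -
            ht t q * (P (1, 0) (P (1, 0) G) q + P (0, 1) (P (0, 1) G) q)
        ring
      · refine ((i1 t ht0' (1, 0)).add (i1 t ht0' (0, 1))).congr (Eventually.of_forall fun q => ?_)
        show ht t q * P (1, 0) (P (1, 0) G) q + ht t q * P (0, 1) (P (0, 1) G) q = _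
        ring
    rw [e1]
    ring
  have hlim : Tendsto f atTop (𝓝 0) := by
    have h1 : Tendsto g atTop (𝓝 0) := by
      have h2 : Tendsto (fun t : ℝ => Real.exp (-(m ^ 2 * t)) * C) atTop (𝓝 0) := by
        have h3 : Tendsto (fun t : ℝ => m ^ 2 * t) atTop atTop :=
          tendsto_id.const_mul_atTop (by positivity)
        have h4 := (Real.tendsto_exp_neg_atTop_nhds_zero.comp h3).mul_const C
        rwa [zero_mul] at h4
      refine squeeze_zero_norm' ?_ h2
      filter_upwards [Ioi_mem_atTop 0] with t ht0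
      rw [hg, norm_mul, Real.norm_eq_abs, abs_of_pos (Real.exp_pos _)]
      exact mul_le_mul_of_nonneg_left (v_bd hC ht0) (Real.exp_nonneg _)
    refine h1.congr' ?_
    filter_upwards [Ioi_mem_atTop 0] with t ht0
    exact (Function.update_of_ne (ne_of_gt ht0) _ _).symm
  have hmain := integral_Ioi_of_hasDerivAt_of_tendsto hcont hder hint.neg hlim
  rw [integral_neg, hf, Function.update_self, zero_sub] at hmain
  exact neg_injective hmain

theorem P_conv {K : ℝ × ℝ → ℝ} (hK : Integrable K) {F : ℝ × ℝ → ℝ} (u : ℝ × ℝ)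
    (hF : ContDiff ℝ (1 : ℕ) F) (hc : HasCompactSupport F) :
    P u (fun p => ∫ q, K q • F (p - q)) = fun p => ∫ q, K q • P u F (p - q) := by
  funext p
  have h1 : Continuous (fderiv ℝ F) := hF.continuous_fderiv (by norm_num)
  obtain ⟨D, hD0, hD⟩ := cs_bdd h1 (hc.fderiv ℝ)
  have h2 := conv_fderiv hK (by exact_mod_cast hF) hc p
  show fderiv ℝ (fun p => ∫ q, K q • F (p - q)) p u = _
  rw [h2.fderiv, ContinuousLinearMap.integral_apply (conv_int hK h1 hD p)]
  rfl

theorem P_refl {F : ℝ × ℝ → ℝ} (hF : Differentiable ℝ F) (u p : ℝ × ℝ) :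
    P u (fun q => F (p - q)) = fun q => -P u F (p - q) := by
  funext q
  have h2 : HasFDerivAt F (fderiv ℝ F (p - q)) (p - q) := (hF (p - q)).hasFDerivAt
  have h3 := h2.comp q ((hasFDerivAt_id q).const_sub p)
  show fderiv ℝ (fun q => F (p - q)) q u = _
  have h4 : HasFDerivAt (fun q => F (p - q))
      ((fderiv ℝ F (p - q)).comp (-ContinuousLinearMap.id ℝ (ℝ × ℝ))) q := h3
  rw [h4.fderiv]
  simp [P]

theorem P_neg {F : ℝ × ℝ → ℝ} (u : ℝ × ℝ) : P u (fun q => -F q) = fun q => -P u F q := by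
  funext q
  show fderiv ℝ (fun q => -F q) q u = _
  rw [fderiv_fun_neg]
  rfl

theorem PP_refl {F : ℝ × ℝ → ℝ} (hF : ContDiff ℝ (2 : ℕ) F) (u p : ℝ × ℝ) :
    P u (P u (fun q => F (p - q))) = fun q => P u (P u F) (p - q) := by
  rw [P_refl (hF.differentiable (by norm_num)), P_neg,
    P_refl ((P_contDiff u (n := 1) hF).differentiable (by norm_num))]
  funext q
  exact neg_neg _

theorem lapc_eq {Ψ : ℝ × ℝ → ℝ} (h : ContDiff ℝ (2 : ℕ) Ψ) (p : ℝ × ℝ) :
    lapc Ψ p = P (1, 0) (P (1, 0) Ψ) p + P (0, 1) (P (0, 1) Ψ) p := by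
  have dif : Differentiable ℝ Ψ := h.differentiable (by norm_num)
  have dif1 : ∀ u, Differentiable ℝ (P u Ψ) := fun u =>
    (P_contDiff u (n := 1) h).differentiable (by norm_num)
  unfold lapc
  congr 1
  · rw [iteratedDeriv_succ, iteratedDeriv_one]
    have : deriv (fun t => Ψ (t, p.2)) = fun t => P (1, 0) Ψ (t, p.2) := by
      funext t; exact (hasD1 dif p.2 t).deriv
    rw [this]
    exact (hasD1 (dif1 (1, 0)) p.2 p.1).deriv
  · rw [iteratedDeriv_succ, iteratedDeriv_one]
    have : deriv (fun t => Ψ (p.1, t)) = fun t => P (0, 1) Ψ (p.1, t) := by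
      funext t; exact (hasD2 dif p.1 t).deriv
    rw [this]
    exact (hasD2 (dif1 (0, 1)) p.1 p.2).deriv

end PkgQG

open PkgQG PkgVT in
theorem pQG : S_QG := by
  intro m hm F hF hc
  have hK := GK_integrable hm
  have F4 : ContDiff ℝ (4 : ℕ) F := by exact_mod_cast hF
  have F2 : ContDiff ℝ (2 : ℕ) F := F4.of_le (by norm_num)
  have F1 : ContDiff ℝ (1 : ℕ) F := F4.of_le (by norm_num)
  have hΨ : (fun p => ∫ q, GK m (p - q) * F q) = fun p => ∫ q, GK m q • F (p - q) := by
    funext p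
    have := integral_sub_left_eq_self (fun q => GK m q • F (p - q)) (volume : Measure (ℝ × ℝ)) p
    rw [← this]
    refine integral_congr_ae (Eventually.of_forall fun q => ?_)
    show GK m (p - q) * F q = GK m (p - q) • F (p - (p - q))
    rw [sub_sub_cancel, smul_eq_mul]
  obtain ⟨s1, C, hC0, hC⟩ := conv_smooth hK 4 ℝ F F4 hc
  constructor
  · rw [hΨ]
    exact ⟨by exact_mod_cast s1, C, hC⟩
  · intro p
    rw [hΨ]
    have hΨp : ∫ q, GK m (p - q) * F q = ∫ q, GK m q • F (p - q) := congrFun hΨ p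
    rw [hΨp, lapc_eq (s1.of_le (by norm_num))]
    have e1 : ∀ u, P u (P u (fun p => ∫ q, GK m q • F (p - q))) p =
        ∫ q, GK m q • P u (P u F) (p - q) := by
      intro u
      rw [P_conv hK u F1 hc, P_conv hK u (P_contDiff u F2) (P_comp u hc)]
    rw [e1, e1]
    have cP : ∀ u, Continuous (P u (P u F)) := fun u =>
      (P_contDiff u (n := 0) (P_contDiff u (n := 1) F2)).continuous
    have hcP : ∀ u, HasCompactSupport (P u (P u F)) := fun u => P_comp u (P_comp u hc)
    obtain ⟨A, _, hA⟩ := cs_bdd F2.continuous hc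
    obtain ⟨B, _, hB⟩ := cs_bdd (cP (1, 0)) (hcP (1, 0))
    obtain ⟨D, _, hD⟩ := cs_bdd (cP (0, 1)) (hcP (0, 1))
    set S : ℝ × ℝ → ℝ := fun q =>
      m ^ 2 * F q - (P (1, 0) (P (1, 0) F) q + P (0, 1) (P (0, 1) F) q) with hS
    have cS : Continuous S := (F2.continuous.const_mul _).sub ((cP _).add (cP _))
    have hcS : HasCompactSupport S :=
      (hc.mul_left (f := fun _ => m ^ 2)).sub ((hcP (1, 0)).add (hcP (0, 1)))
    obtain ⟨E, _, hE⟩ := cs_bdd cS hcS
    have e2 : m ^ 2 * (∫ q, GK m q • F (p - q)) - ((∫ q, GK m q • P (1, 0) (P (1, 0) F) (p - q)) +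
        ∫ q, GK m q • P (0, 1) (P (0, 1) F) (p - q)) = ∫ q, GK m q • S (p - q) := by
      have k1 : Integrable (fun q => GK m q • P (1, 0) (P (1, 0) F) (p - q) +
          GK m q • P (0, 1) (P (0, 1) F) (p - q)) :=
        (conv_int hK (cP (1, 0)) hB p).add (conv_int hK (cP (0, 1)) hD p)
      have k2 : Integrable (fun q => m ^ 2 * (GK m q • F (p - q))) :=
        (conv_int hK F2.continuous hA p).const_mul _
      rw [← integral_const_mul, ← integral_add (conv_int hK (cP (1, 0)) hB p)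
        (conv_int hK (cP (0, 1)) hD p), ← integral_sub k2 k1]
      refine integral_congr_ae (Eventually.of_forall fun q => ?_)
      simp only [hS, smul_eq_mul]
      ring
    rw [e2, conv_GK hm cS hE p]
    have G2 : ContDiff ℝ (2 : ℕ) (fun q => F (p - q)) := F2.comp (contDiff_const.sub contDiff_id)
    have Gc : HasCompactSupport (fun q => F (p - q)) := hc.comp_homeomorph (Homeomorph.subLeft p)
    have e3 : ∀ q, S (p - q) = m ^ 2 * (fun q => F (p - q)) q -
        (P (1, 0) (P (1, 0) (fun q => F (p - q))) q +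
          P (0, 1) (P (0, 1) (fun q => F (p - q))) q) := by
      intro q
      rw [PP_refl F2, PP_refl F2]
    have hint := conv_GK_int hm cS hE p
    simp_rw [e3] at hint ⊢
    have := main_eq hm G2 Gc hint
    rw [this, sub_zero]

end T2H02.TT
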