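import Pool.Agent.T2H02.TT.StmQ
import Pool.Agent.T2H02.TT.VI

/-!
# Package QI : the Ward identity with a second observable

Port of `VI`: the field is `Y = fl β v G Λ + fl β v' G' Λ`, where `G'` is the observable of a mode `F'` orthogonal
to the mode `F` of the shift, so `G'` does not change to first order.
-/

set_option autoImplicit false
set_option linter.unusedSectionVars false
set_option linter.unusedVariables false
set_option linter.unusedSimpArgs false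

noncomputable section

open MeasureTheory Matrix
open scoped Matrix.Norms.Frobenius

namespace T2H02.TT.PkgQI

open T2H02.TT T2H02.TT.PkgM0 T2H02.TT.PkgM1 T2H02.TT.PkgM1u T2H02.TT.PkgUI T2H02.TT.PkgVI

variable {N L : ℕ} [NeZero L] {P Q : SU N}

/-- the change of the sum of two smeared fields -/
lemma fl_shift2 {G G' : Ph N L → ℝ} {β : ℝ} {w w' ψ : Pl → ℝ} {Λ : Finset Pl} {X X' : Cf N L} {s d : ℝ}
    (hw : ∀ x, |w x| ≤ 1) (hw' : ∀ x, |w' x| ≤ 1) (hd : 0 ≤ d)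
    (h : ∀ b ∈ Λ, |G (pt X' b) - G (pt X b) - s * ψ b| + |G' (pt X' b) - G' (pt X b)| ≤ d) :
    |(fl β w G Λ X' + fl β w' G' Λ X') - (fl β w G Λ X + fl β w' G' Λ X) -
      Real.sqrt β * s * ∑ b ∈ Λ, w b * ψ b| ≤ Real.sqrt β * (Λ.card * d) := by
  have e : (fl β w G Λ X' + fl β w' G' Λ X') - (fl β w G Λ X + fl β w' G' Λ X) -
      Real.sqrt β * s * ∑ b ∈ Λ, w b * ψ b =
      Real.sqrt β * ∑ b ∈ Λ, (w b * (G (pt X' b) - G (pt X b) - s * ψ b) +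
        w' b * (G' (pt X' b) - G' (pt X b))) := by
    unfold fl
    have e1 : ∑ b ∈ Λ, (w b * (G (pt X' b) - G (pt X b) - s * ψ b) +
        w' b * (G' (pt X' b) - G' (pt X b))) =
        ∑ b ∈ Λ, w b * G (pt X' b) - ∑ b ∈ Λ, w b * G (pt X b) - s * ∑ b ∈ Λ, w b * ψ b +
        (∑ b ∈ Λ, w' b * G' (pt X' b) - ∑ b ∈ Λ, w' b * G' (pt X b)) := by
      rw [Finset.mul_sum, ← Finset.sum_sub_distrib, ← Finset.sum_sub_distrib,
        ← Finset.sum_sub_distrib, ← Finset.sum_add_distrib]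
      exact Finset.sum_congr rfl fun b _ => by ring
    rw [e1]; ring
  rw [e, abs_mul, abs_of_nonneg (Real.sqrt_nonneg β)]
  refine mul_le_mul_of_nonneg_left ?_ (Real.sqrt_nonneg β)
  refine (Finset.abs_sum_le_sum_abs _ _).trans ?_
  rw [← nsmul_eq_mul]
  refine Finset.sum_le_card_nsmul _ _ _ fun b hb => ?_
  refine (abs_add_le _ _).trans (le_trans (add_le_add ?_ ?_) (h b hb))
  · rw [abs_mul]
    calc _ ≤ 1 * _ := mul_le_mul_of_nonneg_right (hw b) (abs_nonneg _)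
      _ = _ := one_mul _
  · rw [abs_mul]
    calc _ ≤ 1 * _ := mul_le_mul_of_nonneg_right (hw' b) (abs_nonneg _)
      _ = _ := one_mul _

/-- the second observable does not change to first order -/
theorem det3 {k : ℕ} {E : Mt N → SU N} {CE CK CL C3 K1 CG : ℝ} (hCE : 0 ≤ CE) (hCK : 0 ≤ CK)
    (hEn : ∀ M : Mt N, ‖pr M‖ ≤ ‖M‖)
    (hEe : ∀ g : SU N, ‖((g : Mt N) - 1) - pr ((g : Mt N) - 1)‖ ≤ CE * ‖(g : Mt N) - 1‖ ^ 2)
    (hK : ∀ (h : Lk L → Mt N) (ρ : ℝ) (X : Cf N L), 0 ≤ ρ → ρ ≤ 1 →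
      (∀ l, h l ∈ su N ∧ ‖h l‖ ≤ ρ) →
      (∀ l, h l = 0 → TM P Q E h X l = X l) ∧
      (∀ l : Lk L, (∀ y j, ‖(pt X l.1.1 y j : Mt N) - (vac P Q y j : Mt N)‖ ≤ ρ) →
        (l.2 = 2 ∨ l.2 = 3 → ‖(X (l.1, 0) : Mt N) - 1‖ ≤ ρ ∧
          ∀ y j, ‖(pt X (l.1.1 + (1, 0)) y j : Mt N) - (vac P Q y j : Mt N)‖ ≤ ρ) →
        ‖(TM P Q E h X l : Mt N) - (1 + h l) * (X l : Mt N)‖ ≤ CK * ρ ^ 2))
    (hL1 : ∀ (τ : Tm) (X : Cf N L) (a : Lk L → Mt N) (ρ : ℝ), 0 ≤ ρ → ρ ≤ 1 →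
      (∀ l ∈ (spt τ : Finset (Lk L)), ‖a l‖ ≤ ρ ∧
        ‖(X l : Mt N) - (1 + a l) * (vc P Q l : Mt N)‖ ≤ ρ ^ 2) →
      |en1 k X τ - bf P Q τ a a / 2| ≤ CL * ρ ^ 3)
    (H : Frm P Q L C3) (hK1 : 3 ≤ K1) (hK1' : CK + 1 + 2 * CE ≤ K1)
    {F F' : Tor L → Mt N} {G G' : Ph N L → ℝ} (hMod : Mod N L P Q CG F G)
    (hMod' : Mod N L P Q CG F' G') (horth : ∑ y, ip (F y) (F' y) = 0)
    {Λ : Finset Pl} {ρ s : ℝ} (hρ : 0 ≤ ρ) (hsm : K1 * ρ ≤ 1) (hs : 0 ≤ s) (hsρ : s ^ 2 = ρ ^ 3)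
    {ψ : Pl → ℝ} (hψ : ∀ x, |ψ x| ≤ 1) (hψ2 : ∀ x, ψ x ≠ 0 → Nb 1 x ⊆ Λ)
    {X : Cf N L}
    (hX2 : ∀ l, (∀ a ∈ st l, a ∈ pls Λ) → ‖(X l : Mt N) - (vc P Q l : Mt N)‖ ≤ ρ) :
    ∀ b ∈ Λ, |G' (pt (TM P Q E (shm s ψ F) X) b) - G' (pt X b)| ≤ 2 * (CG * K1 ^ 2) * ρ ^ 2 := by
  obtain ⟨hFs, hF1, hF0, hFe, hGc, hGg, hGb, hGz, hGl⟩ := hMod
  obtain ⟨hFs', hF1', hF0', hFe', hGc', hGg', hGb', hGz', hGl'⟩ := hMod'
  have hρ1 : ρ ≤ 1 := by nlinarith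
  have hsle : s ≤ ρ := by
    have h1 : s ^ 2 ≤ ρ ^ 2 := by
      rw [hsρ, pow_succ ρ 2]
      exact mul_le_of_le_one_right (sq_nonneg _) hρ1
    exact (sq_le_sq₀ hs hρ).1 h1
  have hFn := F_le hF1
  obtain ⟨h, hh⟩ : ∃ h : Lk L → Mt N, h = shm s ψ F := ⟨_, rfl⟩
  rw [← hh]
  have hhm : ∀ l, h l ∈ su N := fun l => by rw [hh]; exact shm_su hFs s ψ l
  have hhn : ∀ l, ‖h l‖ ≤ s := fun l => by rw [hh]; exact shm_norm hFn hs hψ l
  obtain ⟨d1, d2, d3⟩ := det (CL := CL) hCE hCK hEn hEe hK hL1 H hK1 hK1' hρ hsm hhm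
    (fun l => (hhn l).trans hsle) (fun l hl => by rw [hh]; exact shm_off hψ2 l hl) hX2
  -- the torus components
  have hself : ∀ x ∈ Λ, x ∈ pls Λ := fun x hx => near_pls hx (by unfold near; simp)
  have htor : ∀ x ∈ Λ, ∀ (y : Tor L) (i : Fin 4), (i = 2 ∨ i = 3) →
      ∀ a ∈ st (((x, y), i) : Lk L), a ∈ pls Λ := by
    intro x hx y i hi a ha
    rw [mem_st] at ha
    have hpe : pe i = 0 := by rcases hi with rfl | rfl <;> simp [pe, h00]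
    rw [hpe, add_zero, or_self] at ha
    rw [ha]
    exact hself x hx
  obtain ⟨g, hg⟩ : ∃ g : Pl → ℝ, g = fun x => ∑ y : Tor L, ip (xi P Q X ((x, y), 2)) (F' y) :=
    ⟨_, rfl⟩
  have hKρ0 : 0 ≤ K1 * ρ := by positivity
  intro x hx
  have hG1 : |G' (pt X x) - g x| ≤ CG * (K1 * ρ) ^ 2 := by
    have := hGl' (pt X x) (fun y j => xi P Q X ((x, y), if j = 0 then 2 else 3)) (K1 * ρ) hKρ0 hsm
      (fun y j => by
        fin_cases j
        · obtain ⟨r1, r2, r3, r4⟩ := d2 ((x, y), 2) (htor x hx y 2 (Or.inl rfl))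
          refine ⟨by simpa using r1.trans (by nlinarith), ?_⟩
          simpa [pt, vc] using r3
        · obtain ⟨r1, r2, r3, r4⟩ := d2 ((x, y), 3) (htor x hx y 3 (Or.inr rfl))
          refine ⟨by simpa using r1.trans (by nlinarith), ?_⟩
          simpa [pt, vc] using r3)
    rw [hg]
    simpa using this
  have hG2 : |G' (pt (TM P Q E h X) x) - g x| ≤ CG * (K1 * ρ) ^ 2 := by
    have h1 := hGl' (pt (TM P Q E h X) x)
      (fun y j => xi P Q X ((x, y), if j = 0 then 2 else 3) + h ((x, y), if j = 0 then 2 else 3))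
      (K1 * ρ) hKρ0 hsm
      (fun y j => by
        fin_cases j
        · obtain ⟨r1, r2, r3, r4⟩ := d2 ((x, y), 2) (htor x hx y 2 (Or.inl rfl))
          refine ⟨by simpa using r2, ?_⟩
          simpa [pt, vc] using r4
        · obtain ⟨r1, r2, r3, r4⟩ := d2 ((x, y), 3) (htor x hx y 3 (Or.inr rfl))
          refine ⟨by simpa using r2, ?_⟩
          simpa [pt, vc] using r4)
    have h2 : ∑ y : Tor L, ip (xi P Q X ((x, y), 2) + h ((x, y), 2)) (F' y) = g x := by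
      rw [hg]
      dsimp only
      have h3 : ∀ y : Tor L, ip (xi P Q X ((x, y), 2) + h ((x, y), 2)) (F' y) =
          ip (xi P Q X ((x, y), 2)) (F' y) + s * ψ x * ip (F y) (F' y) := by
        intro y
        rw [PkgLL.ip_add]
        congr 1
        have h4 : h ((x, y), 2) = ((s * ψ x : ℝ) : ℂ) • F y := by
          rw [hh]; unfold shm; simp
        rw [h4]
        unfold ip
        rw [conjTranspose_smul, Matrix.smul_mul, trace_smul, Complex.star_def, Complex.conj_ofReal,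
          smul_eq_mul, Complex.re_ofReal_mul]
      rw [Finset.sum_congr rfl fun y _ => h3 y, Finset.sum_add_distrib, ← Finset.mul_sum, horth,
        mul_zero, add_zero]
    simp only [if_true] at h1
    rw [h2] at h1
    exact h1
  have e : G' (pt (TM P Q E h X) x) - G' (pt X x) =
      (G' (pt (TM P Q E h X) x) - g x) - (G' (pt X x) - g x) := by ring
  rw [e]
  calc _ ≤ CG * (K1 * ρ) ^ 2 + CG * (K1 * ρ) ^ 2 := (abs_sub _ _).trans (add_le_add hG2 hG1)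
    _ = _ := by ring

/-- as `cfg`, with the second observable -/
theorem cfgQ (hJI : S_JI) {k : ℕ} (hN : 2 ≤ N) {E : Mt N → SU N}
    (hEa : ∀ (g : SU N) (M : Mt N), E (Adj g M) = g * E M * g⁻¹) {CK C2 D1 : ℝ} (hC2 : 0 < C2)
    (HL : ∀ (τ : Tm) (X : Cf N L),
      (∀ l ∈ (spt τ : Finset (Lk L)), ‖(X l : Mt N) - (vc P Q l : Mt N)‖ ≤ 1 / C2) →
      ∀ β : ℝ, 0 ≤ β →
        (if τ.2 = 3 then (1 / N : ℝ) else 1) * Real.exp (-β * en1 k X τ) ≤ wt k β τ X ∧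
        wt k β τ X ≤ (if τ.2 = 3 then (1 / N : ℝ) else 1) * Real.exp (-β * en1 k X τ) *
          (1 + N * Real.exp (-β / C2)))
    {F : Tor L → Mt N} {G G' : Ph N L → ℝ} (hGg : ∀ (g : Tor L → SU N) (φ : Ph N L), G (act g φ) = G φ)
    (hGg' : ∀ (g : Tor L → SU N) (φ : Ph N L), G' (act g φ) = G' φ)
    {Λ : Finset Pl} {ρ s : ℝ} (hCK : 0 ≤ CK) (hρ : 0 ≤ ρ) {ψ : Pl → ℝ}
    (hdet : ∀ X : Cf N L,
      (∀ l, (∀ a ∈ st l, a ∈ pls Λ) → ‖(X l : Mt N) - (vc P Q l : Mt N)‖ ≤ ρ) →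
      (∀ l, (∀ a ∈ st l, a ∈ pls Λ) →
        ‖(TM P Q E (shm s ψ F) X l : Mt N) - (vc P Q l : Mt N)‖ ≤ (CK + 2) * ρ) ∧
      |∑ τ ∈ tml Λ, (en1 k (TM P Q E (shm s ψ F) X) τ - en1 k X τ) - s * Qf ψ G Λ X| ≤
        Λ.card * (D1 * ρ ^ 3) ∧
      (∀ b ∈ Λ, |G (pt (TM P Q E (shm s ψ F) X) b) - G (pt X b) - s * ψ b| +
        |G' (pt (TM P Q E (shm s ψ F) X) b) - G' (pt X b)| ≤ D1 * ρ ^ 2) ∧
      (∀ x ∈ Λ, |G (pt X x)| ≤ D1 * ρ))
    (hρ2 : (CK + 2) * ρ ≤ 1 / C2) {β : ℝ} (hβ : 0 ≤ β) (X : Cf N L)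
    (g : Pt L → SU N) (z : Pl → Fin 4 → ℕ)
    (hgz : ∀ l : Lk L, (∀ a ∈ st l, a ∈ pls Λ) →
        ‖((gau g (cmv z X) l : SU N) : Mt N) - (vc P Q l : Mt N)‖ ≤ ρ) :
    Real.exp (-(β * s * Qf ψ G Λ X) - (β * (Λ.card * (D1 * ρ ^ 3)) +
      16 * Λ.card * N * Real.exp (-β / C2))) * (sysS N L k β hN hβ).W Λ X ≤
        (sysS N L k β hN hβ).W Λ (TM P Q E (shm s ψ F) X) ∧
    Real.exp (-(-(β * s * Qf ψ G Λ X)) - (β * (Λ.card * (D1 * ρ ^ 3)) +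
      16 * Λ.card * N * Real.exp (-β / C2))) *
        (sysS N L k β hN hβ).W Λ (TM P Q E (shm s ψ F) X) ≤ (sysS N L k β hN hβ).W Λ X ∧
    (∀ b ∈ Λ, |G (pt (TM P Q E (shm s ψ F) X) b) - G (pt X b) - s * ψ b| +
        |G' (pt (TM P Q E (shm s ψ F) X) b) - G' (pt X b)| ≤ D1 * ρ ^ 2) ∧
    (∀ x ∈ Λ, |G (pt X x)| ≤ D1 * ρ) := by
  have hTg : TM P Q E (shm s ψ F) (gau g (cmv z X)) =
      gau g (cmv z (TM P Q E (shm s ψ F) X)) := by
    rw [((hJI N k L hN g z (cmv z X)).2.2 P Q E _ hEa).1,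
      ((hJI N k L hN g z X).2.2 P Q E _ hEa).2]
  have hGi : ∀ (Y : Cf N L) (x : Pl), G (pt (gau g (cmv z Y)) x) = G (pt Y x) := by
    intro Y x
    rw [pt_gau, pt_cmv, hGg]
  have hGi' : ∀ (Y : Cf N L) (x : Pl), G' (pt (gau g (cmv z Y)) x) = G' (pt Y x) := by
    intro Y x
    rw [pt_gau, pt_cmv, hGg']
  obtain ⟨c1, c2, -, c4⟩ := cfg hJI hN hEa hC2 HL hGg hCK hρ (fun X hX => by
    obtain ⟨a1, a2, a3, a4⟩ := hdet X hX
    exact ⟨a1, a2, fun b hb => by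
      have := a3 b hb
      have h0 := abs_nonneg (G' (pt (TM P Q E (shm s ψ F) X) b) - G' (pt X b))
      linarith, a4⟩) hρ2 hβ X g z hgz
  refine ⟨c1, c2, fun b hb => ?_, c4⟩
  have := (hdet (gau g (cmv z X)) hgz).2.2.1 b hb
  rwa [hTg, hGi, hGi, hGi', hGi'] at this

/-! ### the Ward identity for fixed `L` -/

theorem coreQ (hJI : S_JI) (hJM : S_JM) (hB0 : S_B0) {k : ℕ} (hN : 2 ≤ N) (hk : Nat.Coprime k N)
    (hPQ : PQ k P Q) {E : Mt N → SU N} (hEc : Continuous E) (hE0 : E 0 = 1)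
    (hEa : ∀ (g : SU N) (M : Mt N), E (Adj g M) = g * E M * g⁻¹)
    {CG Ce C6 C2 CT CK K1 D1 Mo : ℝ} {D : ℕ} (hCG : 1 ≤ CG) (hCe : 1 ≤ Ce) (hC6 : 1 ≤ C6)
    (hC2 : 1 ≤ C2) (hCT : 1 ≤ CT) (hCK : 0 ≤ CK) (hK1 : 3 ≤ K1) (hD1 : 1 ≤ D1)
    (HG : ∀ (β : ℝ) (hβ : 0 ≤ β), 1 ≤ β → ∀ (U : Finset Pl) (t : ℝ), 0 ≤ t →
      ∀ η : Cf N L, (sysS N L k β hN hβ).ker (hm N) U (fun X =>
        ind (CG * ∑ τ ∈ rng U, en k X τ + t ≤ ∑ τ ∈ tml U, en k X τ)) η ≤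
        Real.exp (-β * t) * (CG * β) ^ (D * U.card))
    (HG3 : ∀ (X Y : Cf N L) (τ : Tm) (r : ℝ), 0 ≤ r →
      (∀ l ∈ (spt τ : Finset (Lk L)), ‖(X l : Mt N) - (Y l : Mt N)‖ ≤ r) →
      en k Y τ ≤ 2 * en k X τ + Ce * r ^ 2)
    (H6 : ∀ (Λ : Finset Pl) (e e₂ : ℝ) (X : Cf N L),
      0 ≤ e → 0 ≤ e₂ →
      (∀ l, l ∉ Frl L Λ → (∀ a ∈ st l, a ∈ pls Λ) → ‖(X l : Mt N) - (vc P Q l : Mt N)‖ ^ 2 ≤ e) →
      (∀ τ ∈ tml Λ, en k X τ ≤ e₂) →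
      ∃ (g : Pt L → SU N) (z : Pl → Fin 4 → ℕ), (∀ p, p.1 ∉ Λ → g p = 1) ∧
        (∀ x m, x ∉ Λ → x + pe m ∉ Λ → z x m = 0) ∧
        ∀ l : Lk L, (∀ a ∈ st l, a ∈ pls Λ) →
          ‖((gau g (cmv z X) l : SU N) : Mt N) - (vc P Q l : Mt N)‖ ^ 2 ≤ C6 * (e₂ + e))
    (HL : ∀ (τ : Tm) (X : Cf N L),
      (∀ l ∈ (spt τ : Finset (Lk L)), ‖(X l : Mt N) - (vc P Q l : Mt N)‖ ≤ 1 / C2) →
      ∀ β : ℝ, 0 ≤ β →
        (if τ.2 = 3 then (1 / N : ℝ) else 1) * Real.exp (-β * en1 k X τ) ≤ wt k β τ X ∧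
        wt k β τ X ≤ (if τ.2 = 3 then (1 / N : ℝ) else 1) * Real.exp (-β * en1 k X τ) *
          (1 + N * Real.exp (-β / C2)))
    (HT2 : ∀ (h : Lk L → Mt N) (ρ : ℝ) (X : Cf N L), 0 ≤ ρ → (∀ l, ‖h l‖ ≤ ρ) →
      ∀ l, ‖(TM P Q E h X l : Mt N) - (X l : Mt N)‖ ≤ CT * ρ)
    {F : Tor L → Mt N} {G G' : Ph N L → ℝ} (hFs : ∀ y, F y ∈ su N) (hFn : ∀ y, ‖F y‖ ≤ 1)
    (hGc : Continuous G) (hGg : ∀ (g : Tor L → SU N) (φ : Ph N L), G (act g φ) = G φ)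
    (hGb : ∀ φ, |G φ| ≤ Mo)
    (hGc' : Continuous G') (hGg' : ∀ (g : Tor L → SU N) (φ : Ph N L), G' (act g φ) = G' φ)
    (hdet : ∀ (Λ : Finset Pl) (ρ s : ℝ), 0 ≤ ρ → K1 * ρ ≤ 1 → 0 ≤ s → s ^ 2 = ρ ^ 3 →
      ∀ ψ : Pl → ℝ, (∀ x, |ψ x| ≤ 1) → (∀ x, ψ x ≠ 0 → Nb 1 x ⊆ Λ) → ∀ X : Cf N L,
      (∀ l, (∀ a ∈ st l, a ∈ pls Λ) → ‖(X l : Mt N) - (vc P Q l : Mt N)‖ ≤ ρ) →
      (∀ l, (∀ a ∈ st l, a ∈ pls Λ) →
        ‖(TM P Q E (shm s ψ F) X l : Mt N) - (vc P Q l : Mt N)‖ ≤ (CK + 2) * ρ) ∧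
      |∑ τ ∈ tml Λ, (en1 k (TM P Q E (shm s ψ F) X) τ - en1 k X τ) - s * Qf ψ G Λ X| ≤
        Λ.card * (D1 * ρ ^ 3) ∧
      (∀ b ∈ Λ, |G (pt (TM P Q E (shm s ψ F) X) b) - G (pt X b) - s * ψ b| +
        |G' (pt (TM P Q E (shm s ψ F) X) b) - G' (pt X b)| ≤ D1 * ρ ^ 2) ∧
      (∀ x ∈ Λ, |G (pt X x)| ≤ D1 * ρ))
    {C C₁ : ℝ} (hC1 : 1 ≤ C₁)
    (k1 : 2 * (C6 * (288 * CG * Ce + 3)) ≤ C) (k2 : 2 * C6 * (Ce * CT ^ 2) ≤ C) (k3 : K1 ≤ C)
    (k4 : (CK + 2) * C2 ≤ C) (k5 : 24 * D1 ≤ C) (k6 : 64 * N * C2 ≤ C)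
    (k7 : 576 * D1 ^ 2 + 19 * D1 + 3 * (1 + D1) ^ 2 ≤ C) (k8 : 64 * N ≤ C)
    (k9 : 9 + 48 * Mo ≤ C) (k10 : CG ≤ C) (k11 : C2 ≤ C₁) :
    ∀ (β : ℝ) (hβ : 0 ≤ β), 1 ≤ β →
    ∀ (Λ : Finset Pl) (e t r : ℝ), 0 ≤ e → 0 ≤ t → r = C * Λ.card * (Λ.card * e + t) →
      1 / β ≤ r → C * Λ.card * (β * (r * Real.sqrt (Real.sqrt r))) ≤ 1 →
    ∀ σ : Cf N L, (∀ l, l ∉ Frl L Λ → (∀ a ∈ st l, a ∈ pls Λ) →
        ‖(σ l : Mt N) - (vc P Q l : Mt N)‖ ^ 2 ≤ e) →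
    ∀ ψ v v' : Pl → ℝ, (∀ x, |ψ x| ≤ 1) → (∀ x, |v x| ≤ 1) → (∀ x, |v' x| ≤ 1) →
      (∀ x, ψ x ≠ 0 → Nb 1 x ⊆ Λ) →
    ∀ φ φ' : ℝ → ℝ, Gd φ φ' →
      |(sysS N L k β hN hβ).ker (hm N) Λ
          (fun X => φ (fl β v G Λ X + fl β v' G' Λ X) * fl β (sc N L ψ) G Λ X) σ -
        (∑ b ∈ Λ, v b * ψ b) *
          (sysS N L k β hN hβ).ker (hm N) Λ (fun X => φ' (fl β v G Λ X + fl β v' G' Λ X)) σ| ≤
        C * (Λ.card : ℝ) ^ 2 * (β ^ 2 * (r ^ 2 * Real.sqrt (Real.sqrt r)) +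
          β ^ 2 * (Real.exp (-β * t) * (C * β) ^ (D * Λ.card) + Real.exp (-β / C₁))) := by
  intro β hβ hβ1 Λ e t r he ht hr hβr hcond σ hσ ψ v v' hψ hv hv' hψ2 φ φ' hφ
  obtain ⟨S, hS⟩ : ∃ S : Sys (Lk L) Tm (SU N), S = sysS N L k β hN hβ := ⟨_, rfl⟩
  have hSF : S.Fr Λ = Frl L Λ := by rw [hS]; rfl
  rw [← hS]
  obtain ⟨n, hn⟩ : ∃ n : ℝ, n = (Λ.card : ℝ) := ⟨_, rfl⟩
  rw [← hn] at hr hcond ⊢
  have hn1 : 1 ≤ n := by
    rw [hn]
    by_contra hlt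
    have h0 : Λ.card = 0 := by
      by_contra h1
      exact hlt (by exact_mod_cast Nat.one_le_iff_ne_zero.2 h1)
    rw [hn, h0, Nat.cast_zero, mul_zero, zero_mul] at hr
    rw [hr] at hβr
    have h2 : 0 < 1 / β := by positivity
    linarith
  have hn0 : 0 ≤ n := by linarith
  have hCG0 : 0 ≤ CG := by linarith
  have hCe0 : 0 ≤ Ce := by linarith
  have hC60 : 0 ≤ C6 := by linarith
  have hC20 : 0 < C2 := by linarith
  have hD10 : 0 ≤ D1 := by linarith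
  have hNp : (0 : ℝ) ≤ N := Nat.cast_nonneg N
  have hMo : 0 ≤ Mo := (abs_nonneg _).trans (hGb fun _ _ => 1)
  have hC24 : 24 ≤ C := by linarith
  have hC0 : 0 < C := by linarith
  have hβ0 : 0 < β := by linarith
  -- the parameters
  have hr0 : 0 < r := lt_of_lt_of_le (by positivity) hβr
  obtain ⟨ρ, hρ⟩ : ∃ ρ : ℝ, ρ = Real.sqrt r := ⟨_, rfl⟩
  obtain ⟨θ, hθ⟩ : ∃ θ : ℝ, θ = Real.sqrt ρ := ⟨_, rfl⟩
  have hρ0 : 0 < ρ := by rw [hρ]; exact Real.sqrt_pos.2 hr0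
  have hθ0 : 0 < θ := by rw [hθ]; exact Real.sqrt_pos.2 hρ0
  have hρr : ρ ^ 2 = r := by rw [hρ]; exact Real.sq_sqrt hr0.le
  have hθρ : θ ^ 2 = ρ := by rw [hθ]; exact Real.sq_sqrt hρ0.le
  have hθr : θ ^ 4 = r := by rw [← hρr, ← hθρ]; ring
  rw [← hρ, ← hθ] at hcond ⊢
  have hβθ : 1 ≤ β * θ ^ 4 := by
    rw [hθr]
    have := mul_le_mul_of_nonneg_left hβr hβ
    rwa [mul_one_div, div_self hβ0.ne'] at this
  have hcond' : C * n * (β * θ ^ 5) ≤ 1 := by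
    refine le_trans (le_of_eq ?_) hcond
    rw [← hθr]; ring
  have hCn : C ≤ C * n := le_mul_of_one_le_right hC0.le hn1
  have hθle : C * n * θ ≤ 1 := by
    refine le_trans ?_ hcond'
    refine mul_le_mul_of_nonneg_left ?_ (by positivity)
    calc θ = 1 * θ := (one_mul θ).symm
      _ ≤ β * θ ^ 4 * θ := mul_le_mul_of_nonneg_right hβθ hθ0.le
      _ = _ := by ring
  have hCθ : C * θ ≤ 1 := (mul_le_mul_of_nonneg_right hCn hθ0.le).trans hθle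
  have hθ1 : θ ≤ 1 := by nlinarith
  have hρθ : ρ ≤ θ := by rw [← hθρ]; nlinarith
  have hρ1 : ρ ≤ 1 := hρθ.trans hθ1
  have small : ∀ c, 0 ≤ c → c ≤ C → c * ρ ≤ 1 := by
    intro c hc0 hc
    calc c * ρ ≤ C * θ := mul_le_mul hc hρθ hρ0.le hC0.le
      _ ≤ 1 := hCθ
  have hCβ : C * n ≤ β := by
    have h1 : C * n * 1 ≤ C * n * (β * θ ^ 4) := mul_le_mul_of_nonneg_left hβθ (by positivity)
    have h2 : C * n * (β * θ ^ 4) = β * θ ^ 3 * (C * n * θ) := by ring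
    have h3 : β * θ ^ 3 * (C * n * θ) ≤ β * θ ^ 3 * 1 :=
      mul_le_mul_of_nonneg_left hθle (by positivity)
    have h4 : β * θ ^ 3 ≤ β * 1 := mul_le_mul_of_nonneg_left (pow_le_one₀ hθ0.le hθ1) hβ
    linarith
  obtain ⟨s, hs⟩ : ∃ s : ℝ, s = θ ^ 3 := ⟨_, rfl⟩
  have hs0 : 0 < s := by rw [hs]; positivity
  have hs1 : s ≤ 1 := by rw [hs]; exact pow_le_one₀ hθ0.le hθ1
  have hsρ : s ^ 2 = ρ ^ 3 := by rw [hs, ← hθρ]; ring
  obtain ⟨h, hh⟩ : ∃ h : Lk L → Mt N, h = shm s ψ F := ⟨_, rfl⟩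
  have hhn : ∀ l, ‖h l‖ ≤ s := fun l => by rw [hh]; exact shm_norm hFn hs0.le hψ l
  have hh0 : ∀ l, l ∉ Frl L Λ → h l = 0 := fun l hl => by rw [hh]; exact shm_off hψ2 l hl
  have hK1ρ : K1 * ρ ≤ 1 := small K1 (by linarith) k3
  have hdet' := hdet Λ ρ s hρ0.le hK1ρ hs0.le hsρ ψ hψ hψ2
  have hCKρ : (CK + 2) * ρ ≤ 1 / C2 := by
    rw [le_div_iff₀ hC20]
    calc (CK + 2) * ρ * C2 = (CK + 2) * C2 * ρ := by ring
      _ ≤ 1 := small _ (by positivity) k4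
  -- the energies
  obtain ⟨e₂, he₂⟩ : ∃ e₂ : ℝ, e₂ = CG * (144 * n * (Ce * e)) + t := ⟨_, rfl⟩
  have he₂0 : 0 ≤ e₂ := by rw [he₂]; positivity
  obtain ⟨e₃, he₃⟩ : ∃ e₃ : ℝ, e₃ = 2 * e₂ + Ce * (CT * s) ^ 2 := ⟨_, rfl⟩
  have hCTs : 0 ≤ Ce * (CT * s) ^ 2 := by positivity
  have he₃0 : 0 ≤ e₃ := by rw [he₃]; positivity
  have he23 : e₂ ≤ e₃ := by rw [he₃]; linarith
  have hne : 0 ≤ n * e := by positivity
  have he₃r : C6 * (e₃ + e) ≤ ρ ^ 2 := by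
    have h1 : e ≤ n * e := le_mul_of_one_le_left he hn1
    have h2 : C6 * (2 * e₂ + e) ≤ C6 * (288 * CG * Ce + 3) * (n * e + t) := by
      rw [mul_assoc]
      refine mul_le_mul_of_nonneg_left ?_ hC60
      rw [he₂]
      have h3 : 0 ≤ 288 * CG * Ce * t := by positivity
      have h4 : (288 * CG * Ce + 3) * (n * e + t) - (2 * (CG * (144 * n * (Ce * e)) + t) + e) =
          288 * CG * Ce * t + (3 * (n * e) - e) + t := by ring
      linarith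
    have h3 : C6 * (288 * CG * Ce + 3) * (n * e + t) ≤ ρ ^ 2 / 2 := by
      rw [hρr, hr]
      have h4 : 0 ≤ n * e + t := by positivity
      have h5 : n * e + t ≤ n * (n * e + t) := le_mul_of_one_le_left h4 hn1
      have h6 : 2 * (C6 * (288 * CG * Ce + 3)) * (n * e + t) ≤ C * (n * (n * e + t)) :=
        mul_le_mul k1 h5 h4 hC0.le
      have h7 : C * n * (n * e + t) = C * (n * (n * e + t)) := by ring
      rw [h7]
      linarith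
    have h4 : C6 * (Ce * (CT * s) ^ 2) ≤ ρ ^ 2 / 2 := by
      have h5 : C6 * (Ce * (CT * s) ^ 2) = (2 * C6 * (Ce * CT ^ 2) * ρ) * (ρ ^ 2 / 2) := by
        rw [mul_pow, hsρ]; ring
      rw [h5]
      have h6 := small (2 * C6 * (Ce * CT ^ 2)) (by positivity) k2
      have h7 : 0 ≤ ρ ^ 2 / 2 := by positivity
      calc _ ≤ 1 * (ρ ^ 2 / 2) := mul_le_mul_of_nonneg_right h6 h7
        _ = _ := one_mul _
    have h5 : C6 * (e₃ + e) = C6 * (2 * e₂ + e) + C6 * (Ce * (CT * s) ^ 2) := by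
      rw [he₃]; ring
    rw [h5]
    linarith
  -- configurations with small energies
  have hgood : ∀ X : Cf N L, (∀ l, l ∉ Frl L Λ → X l = σ l) → Al k Λ e₃ X →
      ∃ (g : Pt L → SU N) (z : Pl → Fin 4 → ℕ), ∀ l : Lk L, (∀ a ∈ st l, a ∈ pls Λ) →
        ‖((gau g (cmv z X) l : SU N) : Mt N) - (vc P Q l : Mt N)‖ ≤ ρ := by
    intro X hX hA
    obtain ⟨g, z, -, -, hgz⟩ := H6 Λ e e₃ X he he₃0 (fun l hl hl2 => by
      rw [hX l hl]; exact hσ l hl hl2) hA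
    exact ⟨g, z, fun l hl => (sq_le_sq₀ (norm_nonneg _) hρ0.le).1 ((hgz l hl).trans he₃r)⟩
  have hbadA : ∀ X : Cf N L, (∀ l, l ∉ Frl L Λ → X l = σ l) →
      ¬ (CG * ∑ τ ∈ rng Λ, en k X τ + t ≤ ∑ τ ∈ tml Λ, en k X τ) → Al k Λ e₂ X := by
    intro X hX hnb
    push Not at hnb
    have h1 : ∀ τ ∈ rng Λ, en k X τ ≤ Ce * e := by
      intro τ hτ
      have h2 := HG3 (vc P Q) X τ (Real.sqrt e) (Real.sqrt_nonneg e) (fun l hl => by
        obtain ⟨h3, h4⟩ := rng_links hτ hl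
        rw [hX l h3, norm_sub_rev]
        exact Real.le_sqrt_of_sq_le (hσ l h3 h4))
      rwa [en_vc hB0 hN hk hPQ, mul_zero, zero_add, Real.sq_sqrt he] at h2
    have h2 : ∑ τ ∈ rng Λ, en k X τ ≤ 144 * n * (Ce * e) := by
      calc ∑ τ ∈ rng Λ, en k X τ ≤ ∑ τ ∈ rng Λ, Ce * e := Finset.sum_le_sum h1
        _ = (rng Λ).card * (Ce * e) := by rw [Finset.sum_const, nsmul_eq_mul]
        _ ≤ 144 * n * (Ce * e) := by
            refine mul_le_mul_of_nonneg_right ?_ (by positivity)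
            have := card_rng Λ
            rw [hn]
            exact_mod_cast this
    intro τ hτ
    refine (Finset.single_le_sum (f := fun τ => en k X τ) (fun τ _ => en_nonneg k X τ) hτ).trans ?_
    refine hnb.le.trans ?_
    rw [he₂]
    have := mul_le_mul_of_nonneg_left h2 hCG0
    linarith
  -- the functions
  obtain ⟨gl, hgl⟩ : ∃ gl : Cf N L → Cf N L, gl = fun ξ => glue (Frl L Λ) ξ σ := ⟨_, rfl⟩
  have hoff : ∀ ξ l, l ∉ Frl L Λ → gl ξ l = σ l := fun ξ l hl => by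
    rw [hgl]; exact glue_off _ _ l hl
  have mgl : Measurable gl := by rw [hgl]; exact PkgF.meas_glue_left (Frl L Λ) σ
  obtain ⟨T, hT⟩ : ∃ T : Cf N L → Cf N L, T = TM P Q E h := ⟨_, rfl⟩
  have mT : Measurable T := by rw [hT]; exact TM_meas hN P Q hEc h
  have hinv : ∀ Φ : Cf N L → ℝ, Measurable Φ → (∃ K, ∀ X, |Φ X| ≤ K) →
      ∫ ξ, Φ (T (gl ξ)) ∂(pm N L) = ∫ ξ, Φ (gl ξ) ∂(pm N L) := by
    intro Φ hΦ hb'
    rw [hT, hgl]
    exact (hJM N L hN (Frl L Λ) Φ hΦ hb' σ).2 P Q E h hEc hE0 hh0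
  have mW : Measurable (S.W Λ) := PkgF.W_meas S Λ
  have hWp : ∀ X, 0 < S.W Λ X := PkgF.W_pos S Λ
  have hWl : ∀ X, S.W Λ X ≤ 1 := PkgF.W_le S Λ
  obtain ⟨Y, hY⟩ : ∃ Y : Cf N L → ℝ, Y = fun X => fl β v G Λ X + fl β v' G' Λ X := ⟨_, rfl⟩
  have mY : Measurable Y := by
    rw [hY]; exact ((fl_cont hGc β v Λ).add (fl_cont hGc' β v' Λ)).measurable
  have mG : Measurable fun X : Cf N L => φ (Y X) := hφ.1.measurable.comp mY
  have mG' : Measurable fun X : Cf N L => φ' (Y X) := hφ.2.1.measurable.comp mY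
  have hφb : ∀ X : Cf N L, |φ (Y X)| ≤ 1 := fun X => hφ.2.2.1 _
  have hφb' : ∀ X : Cf N L, |φ' (Y X)| ≤ 1 := fun X => hφ.2.2.2.1 _
  have mQ : Measurable (Qf ψ G Λ : Cf N L → ℝ) := (Qf_cont hGc ψ Λ).measurable
  have hQb : ∀ X : Cf N L, |Qf ψ G Λ X| ≤ n * (12 * Mo) := by
    intro X
    rw [hn]
    exact sum_cf hψ fun x _ => hGb _
  have mA := Al_meas (L := L) hN k Λ e₂
  have habs1 : ∀ p : Prop, |ind p| ≤ 1 := fun p => by
    rw [abs_of_nonneg (ind_01 p).1]; exact (ind_01 p).2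
  have habs2 : ∀ p : Prop, |1 - ind p| ≤ 1 := fun p => by
    have := ind_01 p
    rw [abs_le]; constructor <;> linarith
  have habsW : ∀ X, |S.W Λ X| ≤ 1 := fun X => by rw [abs_of_pos (hWp X)]; exact hWl X
  have i1 := hinv (fun X => φ (Y X) * ind (Al k Λ e₂ X) * S.W Λ X) ((mG.mul mA).mul mW)
    ⟨1 * 1 * 1, fun X => by
      rw [abs_mul, abs_mul]
      exact mul_le_mul (mul_le_mul (hφb _) (habs1 _) (abs_nonneg _) zero_le_one) (habsW X)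
        (abs_nonneg _) (by norm_num)⟩
  have i2 := hinv (fun X => (1 - ind (Al k Λ e₂ X)) * S.W Λ X) ((measurable_const.sub mA).mul mW)
    ⟨1 * 1, fun X => by
      rw [abs_mul]
      exact mul_le_mul (habs2 _) (habsW X) (abs_nonneg _) zero_le_one⟩
  -- the probability
  obtain ⟨p, hp⟩ : ∃ p : ℝ, p = Real.exp (-β * t) * (CG * β) ^ (D * Λ.card) := ⟨_, rfl⟩
  have hp0 : 0 ≤ p := by rw [hp]; positivity
  obtain ⟨Z, hZ⟩ : ∃ Z : ℝ, Z = ∫ ξ, S.W Λ (gl ξ) ∂(pm N L) := ⟨_, rfl⟩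
  have hZ1 : S.num (hm N) Λ (fun _ => 1) σ = Z := by
    unfold Sys.num
    rw [hSF, hZ, hgl]
    simp only [one_mul]
  have hZpos : 0 < Z := by rw [← hZ1]; exact PkgF.num_pos S (hm N) Λ σ
  obtain ⟨bad, hbad⟩ : ∃ bad : Cf N L → Prop, bad = fun X =>
    CG * ∑ τ ∈ rng Λ, en k X τ + t ≤ ∑ τ ∈ tml Λ, en k X τ := ⟨_, rfl⟩
  have hbm : Measurable fun X => ind (bad X) := by
    have h1 : MeasurableSet {X : Cf N L | bad X} := by
      rw [hbad]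
      refine measurableSet_le ?_ ?_
      · refine Continuous.measurable ?_
        exact ((continuous_finsetSum _ fun τ _ => en_cont k τ (by omega)).const_mul CG).add
          continuous_const
      · refine Continuous.measurable ?_
        exact continuous_finsetSum _ fun τ _ => en_cont k τ (by omega)
    unfold ind
    exact Measurable.ite h1 measurable_const measurable_const
  have hprob : ∫ ξ, (1 - ind (Al k Λ e₂ (gl ξ))) * S.W Λ (gl ξ) ∂(pm N L) ≤ p * Z := by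
    have h1 := HG β hβ hβ1 Λ t ht σ
    rw [← hS, ← hp] at h1
    unfold Sys.ker at h1
    rw [hZ1, div_le_iff₀ hZpos] at h1
    refine le_trans ?_ h1
    unfold Sys.num
    rw [hSF]
    have h2 : Integrable (fun ξ => ind (bad (gl ξ)) * S.W Λ (gl ξ)) (pm N L) :=
      PkgF.integrable_bdd ((hbm.comp mgl).mul (mW.comp mgl)) ⟨1 * 1, fun ξ => by
        rw [abs_mul]
        exact mul_le_mul (habs1 _) (habsW _) (abs_nonneg _) zero_le_one⟩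
    have h3 : Integrable (fun ξ => (1 - ind (Al k Λ e₂ (gl ξ))) * S.W Λ (gl ξ)) (pm N L) :=
      PkgF.integrable_bdd ((measurable_const.sub (mA.comp mgl)).mul (mW.comp mgl))
        ⟨1 * 1, fun ξ => by
          rw [abs_mul]
          exact mul_le_mul (habs2 _) (habsW _) (abs_nonneg _) zero_le_one⟩
    have h4 : ∫ ξ, (1 - ind (Al k Λ e₂ (gl ξ))) * S.W Λ (gl ξ) ∂(pm N L) ≤
        ∫ ξ, ind (bad (gl ξ)) * S.W Λ (gl ξ) ∂(pm N L) := by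
      refine integral_mono h3 h2 fun ξ => ?_
      dsimp only
      refine mul_le_mul_of_nonneg_right ?_ (hWp _).le
      by_cases hb' : bad (gl ξ)
      · rw [ind_pos' hb']
        have := ind_01 (Al k Λ e₂ (gl ξ))
        linarith
      · rw [ind_neg' hb', ind_pos' (hbadA _ (hoff ξ) (by rw [hbad] at hb'; exact hb'))]
        simp
    rw [hbad, hgl] at h4
    rw [hgl]
    exact h4
  -- the weights
  obtain ⟨ε, hε⟩ : ∃ ε : ℝ, ε = β * (n * (D1 * ρ ^ 3)) + 16 * n * N * Real.exp (-β / C2) := ⟨_, rfl⟩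
  have hε0 : 0 ≤ ε := by rw [hε]; positivity
  have hρ3 : ρ ^ 3 = θ ^ 6 := by rw [← hθρ]; ring
  have hε1 : ε ≤ 1 / 2 := by
    have h1 : β * (n * (D1 * ρ ^ 3)) ≤ 1 / 4 := by
      have h2 : 24 * (β * (n * (D1 * ρ ^ 3))) ≤ 1 := by
        rw [hρ3]
        have h3 : θ ^ 6 ≤ θ ^ 5 := pow_le_pow_of_le_one hθ0.le hθ1 (by norm_num)
        calc 24 * (β * (n * (D1 * θ ^ 6))) = 24 * D1 * n * (β * θ ^ 6) := by ring
          _ ≤ C * n * (β * θ ^ 5) := by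
              refine mul_le_mul (mul_le_mul_of_nonneg_right k5 hn0)
                (mul_le_mul_of_nonneg_left h3 hβ) (by positivity) (by positivity)
          _ ≤ 1 := hcond'
      linarith
    have h2 : 16 * n * N * Real.exp (-β / C2) ≤ 1 / 4 := by
      have h3 : Real.exp (-β / C2) ≤ C2 / β := by
        have h4 : β / C2 ≤ Real.exp (β / C2) := by
          have := Real.add_one_le_exp (β / C2)
          linarith
        rw [neg_div, Real.exp_neg]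
        calc (Real.exp (β / C2))⁻¹ ≤ (β / C2)⁻¹ := inv_anti₀ (by positivity) h4
          _ = C2 / β := by rw [inv_div]
      calc 16 * n * N * Real.exp (-β / C2) ≤ 16 * n * N * (C2 / β) :=
            mul_le_mul_of_nonneg_left h3 (by positivity)
        _ = (16 * n * N * C2) / β := by ring
        _ ≤ 1 / 4 := by
            rw [div_le_iff₀ hβ0]
            have h5 : 64 * N * C2 * n ≤ C * n := mul_le_mul_of_nonneg_right k6 hn0
            linarith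
    rw [hε]
    linarith
  obtain ⟨xm, hxm⟩ : ∃ xm : ℝ, xm = β * s * (n * (12 * (D1 * ρ))) := ⟨_, rfl⟩
  have hxm1 : xm ≤ 1 / 2 := by
    have h1 : 2 * xm ≤ 1 := by
      rw [hxm, hs, ← hθρ]
      calc 2 * (β * θ ^ 3 * (n * (12 * (D1 * θ ^ 2)))) = 24 * D1 * n * (β * θ ^ 5) := by ring
        _ ≤ C * n * (β * θ ^ 5) :=
            mul_le_mul_of_nonneg_right (mul_le_mul_of_nonneg_right k5 hn0) (by positivity)
        _ ≤ 1 := hcond'
    linarith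
  have hxm0 : 0 ≤ xm := by rw [hxm]; positivity
  have hβs : 0 ≤ β * s := by positivity
  obtain ⟨B, hB⟩ : ∃ B : ℝ, B = Real.sqrt β := ⟨_, rfl⟩
  have hB0 : 0 < B := by rw [hB]; exact Real.sqrt_pos.2 hβ0
  have hB1 : 1 ≤ B := by
    rw [hB]
    exact Real.one_le_sqrt.2 hβ1
  have hBβ : B ^ 2 = β := by rw [hB]; exact Real.sq_sqrt hβ
  obtain ⟨w₀, hw₀⟩ : ∃ w₀ : ℝ, w₀ = ∑ b ∈ Λ, v b * ψ b := ⟨_, rfl⟩
  have hw₀n : |w₀| ≤ n := by
    rw [hw₀, hn]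
    have := sum_w (Λ := Λ) hv zero_le_one (fun x _ => hψ x)
    rwa [mul_one] at this
  obtain ⟨Sg, hSg⟩ : ∃ Sg : ℝ, Sg = B * s * n := ⟨_, rfl⟩
  have hSg0 : 0 ≤ Sg := by rw [hSg]; positivity
  have hshift : |B * s * w₀| ≤ Sg := by
    rw [hSg, abs_mul, abs_of_nonneg (show 0 ≤ B * s by positivity)]
    exact mul_le_mul_of_nonneg_left hw₀n (by positivity)
  have hψb : ∀ X : Cf N L, |φ' (Y X) * (B * s * w₀)| ≤ Sg := by
    intro X
    rw [abs_mul]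
    calc _ ≤ 1 * Sg := mul_le_mul (hφb' X) hshift (abs_nonneg _) zero_le_one
      _ = Sg := one_mul _
  obtain ⟨dd, hdd⟩ : ∃ dd : ℝ, dd = B * (n * (D1 * ρ ^ 2)) + (Sg + B * (n * (D1 * ρ ^ 2))) ^ 2 :=
    ⟨_, rfl⟩
  -- the good configurations
  have hkey : ∀ X : Cf N L, (∀ l, l ∉ Frl L Λ → X l = σ l) → Al k Λ e₃ X →
      |φ (Y (T X)) * S.W Λ (T X) -
        (φ (Y X) + φ' (Y X) * (B * s * w₀) - β * s * (φ (Y X) * Qf ψ G Λ X)) * S.W Λ X| ≤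
        ((1 + Sg) * (2 * ε + 2 * xm ^ 2) + 3 * dd + Sg * xm) * S.W Λ X ∧
      S.W Λ X ≤ 3 * S.W Λ (T X) := by
    intro X hX hA
    obtain ⟨g, z, hgz⟩ := hgood X hX hA
    obtain ⟨c1, c2, c3, c4⟩ := cfgQ hJI hN hEa hC20 HL hGg hGg' hCK hρ0.le hdet' hCKρ hβ X g z hgz
    rw [← hS, ← hh, ← hT, ← hn, ← hε] at c1 c2
    rw [← hh, ← hT] at c3
    have hQx : |Qf ψ G Λ X| ≤ n * (12 * (D1 * ρ)) := by
      rw [hn]
      exact sum_cf hψ c4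
    have hx : |-(β * s * Qf ψ G Λ X)| ≤ xm := by
      rw [abs_neg, abs_mul, abs_of_nonneg hβs, hxm]
      exact mul_le_mul_of_nonneg_left hQx hβs
    have hYd : |φ (Y (T X)) - φ (Y X) - φ' (Y X) * (B * s * w₀)| ≤ dd := by
      rw [hdd]
      refine gd_shift hφ hshift ?_
      have := fl_shift2 (β := β) hv hv' (by positivity) c3
      rw [← hw₀, ← hB, ← hn] at this
      rw [hY]
      exact this
    have := integrand (f := φ (Y X)) (f' := φ (Y (T X))) (sψ := φ' (Y X) * (B * s * w₀)) (hWp X)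
      c1 c2 hx hxm1 hε0 hε1 (hψb X) (hφb X) hYd
    refine ⟨?_, this.2⟩
    refine le_trans (le_of_eq ?_) this.1
    congr 1
    ring
  have hTA : ∀ X : Cf N L, Al k Λ e₂ (T X) → Al k Λ e₃ X := by
    intro X hA τ hτ
    have h1 := HG3 (T X) X τ (CT * s) (by positivity) (fun l _ => by
      rw [hT]; exact HT2 h s X hs0.le hhn l)
    have h2 := hA τ hτ
    rw [he₃]
    linarith
  obtain ⟨κ, hκ⟩ : ∃ κ : ℝ, κ = (1 + Sg) * (2 * ε + 2 * xm ^ 2) + 3 * dd + Sg * xm :=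
    ⟨_, rfl⟩
  have hdd0 : 0 ≤ dd := by rw [hdd]; positivity
  have hκ0 : 0 ≤ κ := by rw [hκ]; positivity
  rw [← hκ] at hkey
  have hmain := absV (μ := pm N L) (A := fun ξ => Al k Λ e₂ (gl ξ))
    (A' := fun ξ => Al k Λ e₂ (T (gl ξ))) (B := fun ξ => Al k Λ e₃ (gl ξ))
    (f := fun ξ => φ (Y (gl ξ))) (f' := fun ξ => φ (Y (T (gl ξ))))
    (q := fun ξ => Qf ψ G Λ (gl ξ)) (g := fun ξ => φ' (Y (gl ξ)) * (B * s * w₀))
    (w := fun ξ => S.W Λ (gl ξ)) (w' := fun ξ => S.W Λ (T (gl ξ)))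
    (u := β * s) (s := Sg) (κ := κ) (M := 1) (Mq := n * (12 * Mo)) (p := p)
    (mG.comp mgl) (mG.comp (mT.comp mgl)) (mQ.comp mgl) ((mG'.comp mgl).mul_const _)
    (mW.comp mgl) (mW.comp (mT.comp mgl))
    (mA.comp mgl) (mA.comp (mT.comp mgl)) (fun ξ => (hWp _).le) (fun ξ => hWl _)
    (fun ξ => (hWp _).le) (fun ξ => hWl _) (fun ξ => hφb _) (fun ξ => hφb _) (fun ξ => hQb _)
    i1 i2 (fun ξ hA τ hτ => (hA τ hτ).trans he23)
    (fun ξ hA' => (hkey _ (hoff ξ) (hTA _ hA')).1) (fun ξ hB => (hkey _ (hoff ξ) hB).2)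
    (by rw [← hZ]; exact hprob) hβs (fun ξ => hψb _) hκ0
  obtain ⟨I, hI⟩ : ∃ I : ℝ, I = ∫ ξ, φ (Y (gl ξ)) * Qf ψ G Λ (gl ξ) * S.W Λ (gl ξ) ∂(pm N L) :=
    ⟨_, rfl⟩
  obtain ⟨J, hJ⟩ : ∃ J : ℝ, J = ∫ ξ, φ' (Y (gl ξ)) * S.W Λ (gl ξ) ∂(pm N L) := ⟨_, rfl⟩
  have hJ2 : ∫ ξ, φ' (Y (gl ξ)) * (B * s * w₀) * S.W Λ (gl ξ) ∂(pm N L) = B * s * w₀ * J := by
    rw [hJ, ← integral_const_mul]
    exact integral_congr_ae (Filter.Eventually.of_forall fun ξ => by ring)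
  rw [← hI, ← hZ, hJ2] at hmain
  have hker : S.ker (hm N) Λ (fun X => φ (fl β v G Λ X + fl β v' G' Λ X) *
      fl β (sc N L ψ) G Λ X) σ =
      B * I / Z := by
    unfold Sys.ker
    rw [hZ1]
    congr 1
    unfold Sys.num
    rw [hSF, hI, hgl, ← integral_const_mul]
    refine integral_congr_ae (Filter.Eventually.of_forall fun ξ => ?_)
    dsimp only
    rw [fl_sc, hY, hB]
    dsimp only
    ring
  have hker' : S.ker (hm N) Λ (fun X => φ' (fl β v G Λ X + fl β v' G' Λ X)) σ = J / Z := by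
    unfold Sys.ker
    rw [hZ1]
    congr 1
    unfold Sys.num
    rw [hSF, hJ, hgl, hY]
  rw [hker, hker', ← hw₀]
  have hρ2 : ρ ^ 2 = θ ^ 4 := by rw [← hθρ]; ring
  have hBθ : 1 ≤ B * θ ^ 2 := by
    have h1 : (1 : ℝ) ^ 2 ≤ (B * θ ^ 2) ^ 2 := by
      rw [one_pow]
      refine hβθ.trans (le_of_eq ?_)
      rw [← hBβ]; ring
    exact (sq_le_sq₀ zero_le_one (by positivity)).1 h1
  have hnθ : n * θ ≤ 1 := by
    refine le_trans ?_ hθle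
    refine mul_le_mul_of_nonneg_right ?_ hθ0.le
    exact le_mul_of_one_le_left hn0 (by linarith)
  have har := arithV (C := C) (D1 := D1) (n := n) (N' := N) (b := B) (θ := θ)
    (x₀ := Real.exp (-β / C2)) (x₁ := Real.exp (-β / C₁)) (p := p)
    (p' := Real.exp (-β * t) * (C * β) ^ (D * Λ.card)) (M := Mo) hn1 hNp hB1 hθ0 hθ1 hBθ hnθ hD1
    hp0
    (by
      rw [hp]
      refine mul_le_mul_of_nonneg_left ?_ (Real.exp_pos _).le
      exact pow_le_pow_left₀ (by positivity) (mul_le_mul_of_nonneg_right k10 hβ) _)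
    (Real.exp_pos _).le
    (by
      apply Real.exp_le_exp.2
      have h3 : β / C₁ ≤ β / C2 := div_le_div_of_nonneg_left hβ hC20 k11
      rw [neg_div, neg_div]
      linarith) hMo k7 k8 k9
  have hκe : κ + (5 * 1 + 4 * Sg + 4 * (β * s * (1 * (n * (12 * Mo))))) * p ≤
      B * s * (C * n ^ 2 * (β ^ 2 * (r ^ 2 * θ) +
        β ^ 2 * (Real.exp (-β * t) * (C * β) ^ (D * Λ.card) + Real.exp (-β / C₁)))) := by
    have e1 : r ^ 2 * θ = θ ^ 9 := by rw [← hθr]; ring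
    rw [hBβ] at har
    rw [e1, hκ, hε, hxm, hdd, hSg, hs, hρ3, hρ2, ← hθρ]
    exact har
  have hsZ : 0 < B * s * Z := by positivity
  have e2 : B * I / Z - w₀ * (J / Z) = (β * s * I - B * s * w₀ * J) / (B * s * Z) := by
    rw [← hBβ]
    field_simp
  rw [e2, abs_div, abs_of_pos hsZ, div_le_iff₀ hsZ]
  refine hmain.trans ?_
  calc _ ≤ B * s * (C * n ^ 2 * (β ^ 2 * (r ^ 2 * θ) +
        β ^ 2 * (Real.exp (-β * t) * (C * β) ^ (D * Λ.card) + Real.exp (-β / C₁)))) * Z :=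
        mul_le_mul_of_nonneg_right hκe hZpos.le
    _ = _ := by ring

end T2H02.TT.PkgQI

namespace T2H02.TT

open PkgM0 PkgM1 PkgM1u PkgUI PkgVI PkgQI in
theorem pQI (hB0 : S_B0) (hD1 : S_D1u) (hE4 : S_E4) (hG : S_Gu) (hG3 : S_G3u) (hJ : S_Ju)
    (hJI : S_JI) (hJM : S_JM) (hK : S_Ku) (hL1 : S_L1u) (hL2 : S_L2u) (hL3 : S_L3u)
    (hT1 : S_UT1) (hT2 : S_UT2) : S_QI := by
  intro N k hN hk P Q hPQ C₁ K₁
  obtain ⟨hEm, -, -, hEn, -, ⟨CE, hCE, hEe⟩, E, C₀, hC₀, hEc, hE0, hEa, hEb⟩ := hE4 N hN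
  obtain ⟨CK, KK, hCK, HK⟩ := hK N k hN hk P Q hPQ E C₀ hEc hE0 hEb
  obtain ⟨CL, KL, hCL, HL1⟩ := hL1 N k hN hk P Q hPQ
  obtain ⟨C2, hC2, HL2⟩ := hL2 N k hN P Q
  obtain ⟨C3, K3, hC3, HL3⟩ := hL3 N hN P Q
  obtain ⟨CG, KG, D, hCG, HG⟩ := hG N k hN hk
  obtain ⟨Ce, Ke, hCe, HG3⟩ := hG3 N k hN
  obtain ⟨CD, KD, hCD, HD⟩ := hD1 N k hN hk P Q hPQ
  obtain ⟨CJ, KJ, hCJ, HJ⟩ := hJ N k hN hk P Q hPQ
  obtain ⟨CT, hCT, HT⟩ := hT2 N hN P Q E C₀ ⟨hC₀, hEc, hE0, hEa, hEb⟩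
  obtain ⟨c₁, hc₁⟩ : ∃ c₁, c₁ = |C₁| := ⟨_, rfl⟩
  have hc₁0 : 0 ≤ c₁ := by rw [hc₁]; exact abs_nonneg _
  have hCE0 : 0 ≤ CE := hCE.le
  have hCK0 : 0 ≤ CK := by linarith
  have hCL0 : 0 ≤ CL := by linarith
  have hC20 : 0 ≤ C2 := by linarith
  have hC30 : 0 ≤ C3 := by linarith
  have hCG0 : 0 ≤ CG := by linarith
  have hCe0 : 0 ≤ Ce := by linarith
  have hCD0 : 0 ≤ CD := by linarith
  have hCJ0 : 0 ≤ CJ := by linarith
  have hCT0 : 0 ≤ CT := by linarith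
  have hN0 : (0 : ℝ) ≤ N := Nat.cast_nonneg N
  -- the constants as functions of `L`
  obtain ⟨K1, hK1⟩ : ∃ K1 : ℝ → ℝ, K1 = fun x => (3 + CK * x ^ KK + 1) + 2 * CE := ⟨_, rfl⟩
  obtain ⟨Mo, hMo⟩ : ∃ Mo : ℝ → ℝ, Mo = fun x => c₁ * x ^ K₁ := ⟨_, rfl⟩
  obtain ⟨D0, hD0'⟩ : ∃ D0 : ℝ → ℝ, D0 = fun x => 32 * (CL * x ^ KL) * K1 x ^ 3 +
    8 * (C3 * x ^ K3) + 12 * Mo x * K1 x ^ 2 + x ^ 2 * N := ⟨_, rfl⟩
  obtain ⟨D1, hD1'⟩ : ∃ D1 : ℝ → ℝ, D1 = fun x => 2 * D0 x := ⟨_, rfl⟩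
  obtain ⟨C6, hC6⟩ : ∃ C6 : ℝ → ℝ, C6 = fun x => (CJ * x ^ KJ + 1) *
    (CD * x ^ KD + 2 * x ^ 2 + 2) := ⟨_, rfl⟩
  have bK1 : PB K1 := by
    rw [hK1]
    exact (((PB.const (by norm_num)).add ((PB.const hCK0).mul (PB.pw KK))).add
      (PB.const zero_le_one)).add (PB.const (by positivity))
  have bMo : PB Mo := by rw [hMo]; exact (PB.const hc₁0).mul (PB.pw K₁)
  have bD0 : PB D0 := by
    rw [hD0']
    exact (((((PB.const (by norm_num)).mul ((PB.const hCL0).mul (PB.pw KL))).mul (bK1.pow 3)).add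
      ((PB.const (by norm_num)).mul ((PB.const hC30).mul (PB.pw K3)))).add
      (((PB.const (by norm_num)).mul bMo).mul (bK1.pow 2))).add ((PB.pw 2).mul (PB.const hN0))
  have bD1 : PB D1 := by
    rw [hD1']
    exact (PB.const (by norm_num)).mul bD0
  have bC6 : PB C6 := by
    rw [hC6]
    exact (((PB.const hCJ0).mul (PB.pw KJ)).add (PB.const zero_le_one)).mul
      ((((PB.const hCD0).mul (PB.pw KD)).add ((PB.const (by norm_num)).mul (PB.pw 2))).add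
        (PB.const (by norm_num)))
  have bCG : PB fun x => CG * x ^ KG := (PB.const hCG0).mul (PB.pw KG)
  have bCe : PB fun x => Ce * x ^ Ke := (PB.const hCe0).mul (PB.pw Ke)
  have bCK : PB fun x => CK * x ^ KK := (PB.const hCK0).mul (PB.pw KK)
  have b1 : PB fun x => 2 * (C6 x * (288 * (CG * x ^ KG) * (Ce * x ^ Ke) + 3)) :=
    (PB.const (by norm_num)).mul (bC6.mul ((((PB.const (by norm_num)).mul bCG).mul bCe).add
      (PB.const (by norm_num))))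
  have b2 : PB fun x => 2 * C6 x * ((Ce * x ^ Ke) * CT ^ 2) :=
    ((PB.const (by norm_num)).mul bC6).mul (bCe.mul (PB.const (by positivity)))
  have b4 : PB fun x => ((CK * x ^ KK) + 2) * C2 :=
    (bCK.add (PB.const (by norm_num))).mul (PB.const hC20)
  have b5 : PB fun x => 24 * D1 x := (PB.const (by norm_num)).mul bD1
  have b6 : PB fun _ => 64 * (N : ℝ) * C2 := PB.const (by positivity)
  have b7 : PB fun x => 576 * D1 x ^ 2 + 19 * D1 x + 3 * (1 + D1 x) ^ 2 :=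
    (((PB.const (by norm_num)).mul (bD1.pow 2)).add ((PB.const (by norm_num)).mul bD1)).add
      ((PB.const (by norm_num)).mul (((PB.const zero_le_one).add bD1).pow 2))
  have b8 : PB fun _ => 64 * (N : ℝ) := PB.const (by positivity)
  have b9 : PB fun x => 9 + 48 * Mo x :=
    (PB.const (by norm_num)).add ((PB.const (by norm_num)).mul bMo)
  obtain ⟨C', K', hC', hb⟩ := ((((((((b1.add b2).add bK1).add b4).add b5).add b6).add b7).add b8).add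
    b9).add bCG
  obtain ⟨C, hC⟩ : ∃ C : ℝ, C = C' + C2 + 1 := ⟨_, rfl⟩
  have hC1 : 1 ≤ C := by rw [hC]; linarith
  refine ⟨C, K', D, hC1, ?_⟩
  intro L _ β hβ hβ1 F G hMod₀ F' G' hMod₀' horth Λ e t r he ht hr hβr hcond σ hσ ψ v v' hψ hv hv' hψ2
    φ φ' hφ
  obtain ⟨x, hx⟩ : ∃ x : ℝ, x = (L : ℝ) := ⟨_, rfl⟩
  have hx1 : 1 ≤ x := by
    rw [hx]
    exact_mod_cast Nat.one_le_iff_ne_zero.2 (NeZero.ne L)
  have hpw : ∀ a : ℕ, 1 ≤ x ^ a := fun a => one_le_pow₀ hx1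
  have hxp : ∀ (c : ℝ) (a : ℕ), 1 ≤ c → 1 ≤ c * x ^ a := by
    intro c a hc
    have := hpw a
    nlinarith
  have hMod : Mod N L P Q (Mo x) F G := by
    refine Mod_mono ?_ hMod₀
    rw [hMo, hx, hc₁]
    exact mul_le_mul_of_nonneg_right (le_abs_self _) (by positivity)
  have hMod' : Mod N L P Q (Mo x) F' G' := by
    refine Mod_mono ?_ hMod₀'
    rw [hMo, hx, hc₁]
    exact mul_le_mul_of_nonneg_right (le_abs_self _) (by positivity)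
  have hbx := (hb x hx1).2
  have hCx : C' * x ^ K' ≤ C * x ^ K' := by
    refine mul_le_mul_of_nonneg_right ?_ (by positivity)
    rw [hC]; linarith
  have p1 := (b1.choose_spec.choose_spec.2 x hx1).1
  have p2 := (b2.choose_spec.choose_spec.2 x hx1).1
  have p3 := (bK1.choose_spec.choose_spec.2 x hx1).1
  have p4 := (b4.choose_spec.choose_spec.2 x hx1).1
  have p5 := (b5.choose_spec.choose_spec.2 x hx1).1
  have p6 := (b6.choose_spec.choose_spec.2 x hx1).1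
  have p7 := (b7.choose_spec.choose_spec.2 x hx1).1
  have p8 := (b8.choose_spec.choose_spec.2 x hx1).1
  have p9 := (b9.choose_spec.choose_spec.2 x hx1).1
  have p10 := (bCG.choose_spec.choose_spec.2 x hx1).1
  have pMo := (bMo.choose_spec.choose_spec.2 x hx1).1
  have hK13 : 3 ≤ K1 x := by
    rw [hK1]
    have : 0 ≤ CK * x ^ KK := by positivity
    dsimp only
    linarith
  have hD01 : 1 ≤ D0 x := by
    rw [hD0']
    dsimp only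
    have h1 := hxp C3 K3 hC3
    have h2 : 0 ≤ 32 * (CL * x ^ KL) * K1 x ^ 3 := by positivity
    have h3 : 0 ≤ 12 * Mo x * K1 x ^ 2 := by positivity
    have h4 : 0 ≤ x ^ 2 * N := by positivity
    linarith
  have hD11 : 1 ≤ D1 x := by
    rw [hD1']
    dsimp only
    linarith
  have hD2 : 4 * (Mo x * K1 x ^ 2) ≤ D0 x := by
    rw [hD0']
    dsimp only
    have h1 := hxp C3 K3 hC3
    have h2 : 0 ≤ 32 * (CL * x ^ KL) * K1 x ^ 3 := by positivity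
    have h3 : 0 ≤ Mo x * K1 x ^ 2 := by positivity
    have h4 : 0 ≤ x ^ 2 * N := by positivity
    linarith
  have hC61 : 1 ≤ C6 x := by
    rw [hC6]
    dsimp only
    have e1 : 0 ≤ CJ * x ^ KJ := by positivity
    have e2 : 0 ≤ CD * x ^ KD + 2 * x ^ 2 := by positivity
    nlinarith
  obtain ⟨hFs, hF1, hF0, hFe, hGc, hGg, hGb, hGz, hGl⟩ := id hMod
  obtain ⟨-, -, -, -, hGc', hGg', -, -, -⟩ := id hMod'
  obtain ⟨-, -, -, hL3b⟩ := pL3 N L hN P Q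
  have H : Frm P Q L (C3 * (L : ℝ) ^ K3) :=
    ⟨fun τ a b r s hr hs h => HL3 L τ a b r s hr hs h,
      fun τ a b c => (hL3b τ a b c).1, fun τ a b => (hL3b τ a b a).2⟩
  have := coreQ (L := L) (P := P) (Q := Q) (E := E) (CG := CG * x ^ KG) (Ce := Ce * x ^ Ke)
    (C6 := C6 x) (C2 := C2) (CT := CT) (CK := CK * x ^ KK) (K1 := K1 x) (D1 := D1 x) (Mo := Mo x)
    (D := D * L ^ 2) (F := F) (G := G) (G' := G') (C := C * x ^ K') (C₁ := C) hJI hJM hB0 hN hk hPQ hEc hE0 hEa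
    (hxp _ _ hCG) (hxp _ _ hCe) hC61 hC2 hCT (by positivity) hK13 hD11
    (by rw [hx]; exact fun β hβ hβ1 U t ht η => HG L β hβ hβ1 U t ht η)
    (by rw [hx]; exact (HG3 L).1)
    (by
      rw [hC6, hx]
      exact gfixu hJI hN (by positivity) (by positivity) (HD L) (HJ L))
    (HL2 L) (fun h ρ X h1 h2 l => HT L h ρ X h1 h2 l) hFs (F_le hF1) hGc hGg hGb hGc' hGg'
    (fun Λ ρ s h1 h2 h3 h4 ψ h5 h6 X h7 => by
      have hk2 : CK * x ^ KK + 1 + 2 * CE ≤ K1 x := by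
        rw [hK1]
        dsimp only
        linarith
      obtain ⟨a1, a2, a3, a4⟩ := det2 (CL := CL * x ^ KL) (C3 := C3 * x ^ K3) hCE0
        (show 0 ≤ CK * x ^ KK by positivity) (by positivity)
        (by positivity) hEm hEn hEe (by rw [hx]; exact fun h ρ X h1 h2 h3 => HK L h ρ X h1 h2 h3)
        (by rw [hx]; exact fun τ X a ρ h1 h2 h3 => HL1 L τ X a ρ h1 h2 h3)
        (by rw [hx]; exact H) hK13 hk2 hMod
        (fun Λ ψ h1 a h2 => hT1 N k hN hk P Q hPQ L F hFs hF0 hFe Λ ψ h1 a h2)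
        (D1 := D0 x) (by rw [hD0', hx]) h1 h2 h3 h4 h5 h6 h7
      have a5 := det3 (k := k) (CL := CL * x ^ KL) (C3 := C3 * x ^ K3) hCE0
        (show 0 ≤ CK * x ^ KK by positivity)
        hEn hEe (by rw [hx]; exact fun h ρ X h1 h2 h3 => HK L h ρ X h1 h2 h3)
        (by rw [hx]; exact fun τ X a ρ h1 h2 h3 => HL1 L τ X a ρ h1 h2 h3)
        (by rw [hx]; exact H) hK13 hk2 hMod hMod' horth h1 h2 h3 h4 h5 h6 h7
      have e1 : D1 x = 2 * D0 x := by rw [hD1']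
      refine ⟨a1, a2.trans ?_, fun b hb => (add_le_add (a3 b hb) (a5 b hb)).trans ?_, fun y hy =>
        (a4 y hy).trans ?_⟩
      · refine mul_le_mul_of_nonneg_left ?_ (Nat.cast_nonneg _)
        refine mul_le_mul_of_nonneg_right ?_ (by positivity)
        linarith
      · rw [← add_mul]
        refine mul_le_mul_of_nonneg_right ?_ (by positivity)
        linarith
      · refine mul_le_mul_of_nonneg_right ?_ h1
        linarith)
    hC1 (by linarith) (by linarith) (by linarith) (by linarith) (by linarith) (by linarith)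
    (by linarith) (by linarith) (by linarith) (by linarith) (by rw [hC]; linarith)
    β hβ hβ1 Λ e t r he ht (by rw [hx]; exact hr) hβr (by rw [hx]; exact hcond) σ hσ ψ v v' hψ hv hv' hψ2
    φ φ' hφ
  rw [hx] at this
  exact this

end T2H02.TT
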