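import Pool.Agent.T2H02.TT.StmQ
import Pool.Agent.T2H02.TT.VJ

/-! Package QJ (helper74): the Ward identity with a bounded function of two fields, for good boundary values
(from QI, as VJ from VI). -/

set_option autoImplicit false
set_option linter.unusedSectionVars false

noncomputable section

open MeasureTheory Matrix
open scoped Matrix.Norms.Frobenius

namespace T2H02.TT

open PkgM PkgUJ PkgVJ in
/-- package QJ -/
theorem pQJ (hD1u : S_D1u) (hJu : S_Ju) (hJI : S_JI) (hJM : S_JM) (hQI : S_QI) : S_QJ := by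
  intro N k hN hk P Q hPQ Cg Kg
  obtain ⟨CD, K₁, hCD, hD⟩ := hD1u N k hN hk P Q hPQ
  obtain ⟨CJ, K₂, hCJ, hJ'⟩ := hJu N k hN hk P Q hPQ
  obtain ⟨C₁, K₃, D, hC₁, hM⟩ := hQI N k hN hk P Q hPQ Cg Kg
  set C' : ℝ := 1 + (CD + CJ * (CD + 2)) with hC'
  have hC'1 : 1 ≤ C' := by
    have : 0 ≤ CD + CJ * (CD + 2) := by positivity
    linarith
  have hCC : C₁ ≤ C₁ * C' := by nlinarith
  have hC1 : 1 ≤ C₁ * C' := by linarith
  have hC₁0 : 0 < C₁ := by linarith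
  refine ⟨C₁ * C', K₃ + (K₁ + K₂), D, hC1, ?_⟩
  intro L _ β hβ hβ1 Em Gm hMod Em' Gm' hMod' horth Λ e t r he ht hr hrβ hr1 η hrng ψ w w' hψ1 hw1 hw'1 hψΛ
    h h' hGd
  have hL1 : (1 : ℝ) ≤ L := by exact_mod_cast NeZero.one_le
  have hP₁ : (1 : ℝ) ≤ (L : ℝ) ^ K₁ := one_le_pow₀ hL1
  have hP₂ : (1 : ℝ) ≤ (L : ℝ) ^ K₂ := one_le_pow₀ hL1
  have hP₃ : (1 : ℝ) ≤ (L : ℝ) ^ K₃ := one_le_pow₀ hL1
  -- the choice of the gauge transformations
  have hDL := fun φ : Ph N L => hD L φ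
  choose G hG using hDL
  -- abbreviations
  obtain ⟨p₁, hp₁⟩ : ∃ p : ℝ, p = (L : ℝ) ^ K₁ := ⟨_, rfl⟩
  obtain ⟨p₂, hp₂⟩ : ∃ p : ℝ, p = (L : ℝ) ^ K₂ := ⟨_, rfl⟩
  obtain ⟨p₃, hp₃⟩ : ∃ p : ℝ, p = (L : ℝ) ^ K₃ := ⟨_, rfl⟩
  have hpow : (L : ℝ) ^ (K₃ + (K₁ + K₂)) = p₃ * (p₁ * p₂) := by
    rw [pow_add, pow_add, hp₁, hp₂, hp₃]
  rw [hpow] at hr hr1 ⊢
  rw [← hp₁] at hP₁
  rw [← hp₂] at hP₂
  rw [← hp₃] at hP₃
  have hM' := hM L β hβ hβ1 Em Gm hMod Em' Gm' hMod' horth Λ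
  rw [← hp₃] at hM'
  have hG' : ∀ φ : Ph N L, dst (act (G φ) φ) (vac P Q) ≤ (CD * p₁) * VV k φ := by
    intro φ
    rw [hp₁]
    exact hG φ
  have hJL : ∀ (φ ψ : Ph N L) (U : Tor L → SU N) (e : ℝ), dst φ (vac P Q) ≤ e →
      dst ψ (vac P Q) ≤ e →
      ∑ y, ∑ j, ‖(U y : Mt N) * (ψ y j : Mt N) - (φ y j : Mt N) * (U (tsh y j) : Mt N)‖ ^ 2 ≤ e →
      ∃ m : Fin N, ∑ y, ‖(U y : Mt N) - om N m • (1 : Mt N)‖ ^ 2 ≤ (CJ * p₂) * e := by
    intro φ ψ U e h1 h2 h3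
    rw [hp₂]
    exact hJ' L φ ψ U e h1 h2 h3
  have hp₁0 : 0 < p₁ := by linarith
  have hp₂0 : 0 < p₂ := by linarith
  have hp₃0 : 0 < p₃ := by linarith
  have hCD' : 0 < CD * p₁ := by positivity
  have hCJ' : 0 < CJ * p₂ := by positivity
  -- the constants `a = C₁ p₃`, `b = C' p₁ p₂`
  obtain ⟨a, ha⟩ : ∃ a : ℝ, a = C₁ * p₃ := ⟨_, rfl⟩
  obtain ⟨b, hb⟩ : ∃ b : ℝ, b = C' * (p₁ * p₂) := ⟨_, rfl⟩
  have ha1 : 1 ≤ a := by
    rw [ha]
    exact one_le_mul_of_one_le_of_one_le hC₁ hP₃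
  have hp12 : 1 ≤ p₁ * p₂ := one_le_mul_of_one_le_of_one_le hP₁ hP₂
  have hb1 : 1 ≤ b := by
    rw [hb]
    exact one_le_mul_of_one_le_of_one_le hC'1 hp12
  have hab : C₁ * C' * (p₃ * (p₁ * p₂)) = a * b := by
    rw [ha, hb]
    ring
  rw [hab] at hr hr1 ⊢
  rw [← ha] at hM'
  have haab : a ≤ a * b := by nlinarith
  have hbound : CD * p₁ + CJ * p₂ * (CD * p₁ + 2) ≤ b := by
    have h1 : p₁ ≤ p₁ * p₂ := by nlinarith
    have h2 : p₂ ≤ p₁ * p₂ := by nlinarith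
    have h3 : CD * p₁ ≤ CD * (p₁ * p₂) := mul_le_mul_of_nonneg_left h1 (by positivity)
    have h4 : CJ * 2 * p₂ ≤ CJ * 2 * (p₁ * p₂) := mul_le_mul_of_nonneg_left h2 (by positivity)
    rw [hb, hC']
    nlinarith
  have hΛne : Λ.Nonempty := by
    by_contra hne
    rw [Finset.not_nonempty_iff_eq_empty] at hne
    subst hne
    have h0 : 0 < 1 / β := by positivity
    rw [hr] at hrβ
    simp only [Finset.card_empty, Nat.cast_zero, mul_zero, zero_mul] at hrβ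
    linarith
  have hcard1 : (1 : ℝ) ≤ Λ.card := by exact_mod_cast Finset.card_pos.2 hΛne
  have hcard0 : (0 : ℝ) < Λ.card := by linarith
  obtain ⟨e', he'⟩ : ∃ e' : ℝ, e' = b * e + (b - 1) * t / Λ.card := ⟨_, rfl⟩
  have hbe' : b * e ≤ e' := by
    rw [he']
    have : 0 ≤ (b - 1) * t / Λ.card := div_nonneg (mul_nonneg (by linarith) ht) hcard0.le
    linarith
  have he'0 : 0 ≤ e' := le_trans (by positivity) hbe'
  have hre : r = a * Λ.card * (Λ.card * e' + t) := by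
    rw [hr, he']
    field_simp
    ring
  have hr0 : 0 ≤ r := by
    rw [hre]
    positivity
  have hcond : a * Λ.card * (β * (r * Real.sqrt (Real.sqrt r))) ≤ 1 := by
    refine le_trans ?_ hr1
    have : 0 ≤ β * (r * Real.sqrt (Real.sqrt r)) := by positivity
    gcongr
  -- the transformed functions
  have h1 := hM' e' t r he'0 ht hre hrβ hcond (sg hN G Λ η)
    (fun l hl hlp => by
      have h2 : (CD * p₁ + CJ * p₂ * (CD * p₁ + 2)) * e ≤ b * e :=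
        mul_le_mul_of_nonneg_right hbound he
      exact ((near_vac hN hJI k P Q hCD' hCJ' hG' hJL he hrng hl hlp).trans h2).trans hbe')
    ψ w w' hψ1 hw1 hw'1 hψΛ h h' hGd
  obtain ⟨-, -, -, -, hGc, hGa, hGb, -, -⟩ := hMod
  obtain ⟨-, -, -, -, hGc', hGa', -, -, -⟩ := hMod'
  obtain ⟨hhc, hh'c, hh1, hh'1, -⟩ := hGd
  have hm1 : Measurable fun X : Cf N L => h (fl β w Gm Λ X + fl β w' Gm' Λ X) * fl β (sc N L ψ) Gm Λ X :=
    (hhc.measurable.comp ((fl_meas β w hGc Λ).add (fl_meas β w' hGc' Λ))).mul (fl_meas β (sc N L ψ) hGc Λ)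
  have hm2 : Measurable fun X : Cf N L => h' (fl β w Gm Λ X + fl β w' Gm' Λ X) :=
    hh'c.measurable.comp ((fl_meas β w hGc Λ).add (fl_meas β w' hGc' Λ))
  have hb1' : ∀ X : Cf N L, |h (fl β w Gm Λ X + fl β w' Gm' Λ X) * fl β (sc N L ψ) Gm Λ X| ≤
      1 * (Real.sqrt β * ∑ x ∈ Λ, |sc N L ψ x| * (Cg * (L : ℝ) ^ Kg)) := by
    intro X
    rw [abs_mul]
    exact mul_le_mul (hh1 _) (fl_bdd β (sc N L ψ) hGb Λ X) (abs_nonneg _) zero_le_one
  rw [ker_trB hN hJI hJM k β hβ (gg G Λ η) (zz hN G Λ η) Λ _ hm1 hb1' η,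
    ker_trB hN hJI hJM k β hβ (gg G Λ η) (zz hN G Λ η) Λ _ hm2 (fun X => hh'1 _) η]
  simp only [fl_ti β w hGa, fl_ti β w' hGa', fl_ti β (sc N L ψ) hGa]
  refine h1.trans ?_
  have h5 : Real.exp (-β / C₁) ≤ Real.exp (-β / (C₁ * C')) := by
    rw [Real.exp_le_exp, neg_div, neg_div, neg_le_neg_iff]
    exact div_le_div_of_nonneg_left hβ hC₁0 hCC
  have h6 : Real.exp (-β * t) * (a * β) ^ (D * L ^ 2 * Λ.card) ≤
      Real.exp (-β * t) * (a * b * β) ^ (D * L ^ 2 * Λ.card) := by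
    refine mul_le_mul_of_nonneg_left ?_ (Real.exp_pos _).le
    exact pow_le_pow_left₀ (by positivity) (mul_le_mul_of_nonneg_right haab hβ) _
  refine mul_le_mul (mul_le_mul_of_nonneg_right haab (by positivity)) ?_ (by positivity)
    (by positivity)
  exact add_le_add le_rfl (mul_le_mul_of_nonneg_left (add_le_add h6 h5) (by positivity))

end T2H02.TT
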