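import Pool.Agent.T2H02.TT.StmQ

set_option autoImplicit false

noncomputable section

namespace T2H02.TT

theorem pQM : S_QM := by
  intro N L hμ e M δ hM hδ x
  have hbdd : BddAbove (Set.range fun x => |e x|) := ⟨M, by rintro _ ⟨y, rfl⟩; exact hM y⟩
  set s : ℝ := ⨆ y, |e y| with hs
  have h1 : ∀ y, |e y| ≤ s := fun y => le_ciSup hbdd y
  have h2 : ∀ y, |e y| ≤ (δ + 4 * s) / (4 + mu2 N L) := by
    intro y
    rw [le_div_iff₀ (by linarith)]
    have h3 := hδ y
    have e1 := abs_le.mp (h1 (y + (1, 0)))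
    have e2 := abs_le.mp (h1 (y - (1, 0)))
    have e3 := abs_le.mp (h1 (y + (0, 1)))
    have e4 := abs_le.mp (h1 (y - (0, 1)))
    simp only [sc, lap] at h3
    rw [abs_le] at h3
    rcases abs_cases (e y) with ⟨h4, _⟩ | ⟨h4, _⟩ <;> rw [h4] <;> nlinarith [h3.1, h3.2]
  have h5 : s ≤ (δ + 4 * s) / (4 + mu2 N L) := ciSup_le h2
  rw [le_div_iff₀ (by linarith)] at h5
  have h6 : s ≤ δ / mu2 N L := by
    rw [le_div_iff₀ hμ]
    nlinarith
  exact (h1 x).trans h6

end T2H02.TT
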