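import Pool.Agent.T2H02.TT.StmQ

set_option autoImplicit false

noncomputable section

namespace T2H02.TT

namespace PkgQN

/-- the sum over the four neighbours -/
def A (ψ : Pl → ℝ) (x : Pl) : ℝ := ψ (x + (1, 0)) + ψ (x - (1, 0)) + ψ (x + (0, 1)) + ψ (x - (0, 1))

/-- iterates -/
def Ai (w : Pl → ℝ) : ℕ → Pl → ℝ
  | 0 => w
  | j + 1 => A (Ai w j)

lemma Ai_bd (w : Pl → ℝ) (B : ℝ) (hw : ∀ x, |w x| ≤ B) (j : ℕ) (x : Pl) : |Ai w j x| ≤ 4 ^ j * B := by
  induction j generalizing x with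
  | zero => simpa [Ai] using hw x
  | succ j ih =>
    have e1 := abs_le.mp (ih (x + (1, 0)))
    have e2 := abs_le.mp (ih (x - (1, 0)))
    have e3 := abs_le.mp (ih (x + (0, 1)))
    have e4 := abs_le.mp (ih (x - (0, 1)))
    simp only [Ai, A, pow_succ]
    rw [abs_le]
    constructor <;> linarith [e1.1, e1.2, e2.1, e2.2, e3.1, e3.2, e4.1, e4.2]

lemma memNb0 (r : ℕ) (x : Pl) : x ∈ Nb r 0 ↔ |x.1| ≤ r ∧ |x.2| ≤ r := by
  simp only [Nb, Finset.mem_product, Finset.mem_Icc, Prod.fst_zero, Prod.snd_zero, zero_add, zero_sub, abs_le]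

lemma Ai_supp (w : Pl → ℝ) (n : ℕ) (hw : ∀ x, w x ≠ 0 → x ∈ Nb n 0) (j : ℕ) (x : Pl) (h : Ai w j x ≠ 0) :
    x ∈ Nb (n + j) 0 := by
  induction j generalizing x with
  | zero => exact hw x h
  | succ j ih =>
    by_contra hx
    apply h
    rw [memNb0] at hx
    have key : ∀ y : Pl, |y.1 - x.1| ≤ 1 → |y.2 - x.2| ≤ 1 → Ai w j y = 0 := by
      intro y h1 h2
      by_contra h3
      have h4 := (memNb0 _ _).mp (ih y h3)
      apply hx
      rw [abs_le] at h1 h2 h4
      rw [abs_le] at h4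
      constructor <;> rw [abs_le] <;> push_cast at * <;> constructor <;> linarith [h1.1, h1.2, h2.1, h2.2, h4.1.1, h4.1.2, h4.2.1, h4.2.2]
    simp only [Ai, A]
    rw [key _ (by simp) (by simp), key _ (by simp) (by simp), key _ (by simp) (by simp), key _ (by simp) (by simp)]
    simp

lemma Ai_sum (w : Pl → ℝ) (n : ℕ) (B₁ : ℝ) (hw : ∀ x, w x ≠ 0 → x ∈ Nb n 0) (hB : ∑ x ∈ Nb n 0, |w x| ≤ B₁)
    (j : ℕ) (S : Finset Pl) : ∑ x ∈ S, |Ai w j x| ≤ 4 ^ j * B₁ := by
  classical
  induction j generalizing S with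
  | zero =>
    simp only [Ai, pow_zero, one_mul]
    refine le_trans ?_ hB
    calc ∑ x ∈ S, |w x| = ∑ x ∈ S with w x ≠ 0, |w x| := by
          rw [Finset.sum_filter]
          apply Finset.sum_congr rfl
          intro x _
          by_cases h : w x = 0 <;> simp [h]
      _ ≤ ∑ x ∈ Nb n 0, |w x| := by
          apply Finset.sum_le_sum_of_subset_of_nonneg
          · intro x hx
            rw [Finset.mem_filter] at hx
            exact hw x hx.2
          · intro x _ _
            exact abs_nonneg _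
  | succ j ih =>
    have shift : ∀ v : Pl, ∑ x ∈ S, |Ai w j (x + v)| ≤ 4 ^ j * B₁ := by
      intro v
      have := ih (S.map (addRightEmbedding v))
      rw [Finset.sum_map] at this
      simpa using this
    have h1 := shift (1, 0)
    have h2 := shift (-(1, 0))
    have h3 := shift (0, 1)
    have h4 := shift (-(0, 1))
    have h5 : ∑ x ∈ S, |Ai w (j + 1) x| ≤ ∑ x ∈ S, |Ai w j (x + (1, 0))| + ∑ x ∈ S, |Ai w j (x + -(1, 0))| +
        ∑ x ∈ S, |Ai w j (x + (0, 1))| + ∑ x ∈ S, |Ai w j (x + -(0, 1))| := by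
      rw [← Finset.sum_add_distrib, ← Finset.sum_add_distrib, ← Finset.sum_add_distrib]
      apply Finset.sum_le_sum
      intro x _
      simp only [Ai, A, sub_eq_add_neg]
      refine (abs_add_le _ _).trans (add_le_add_left ?_ _)
      refine (abs_add_le _ _).trans (add_le_add_left ?_ _)
      exact abs_add_le _ _
    refine h5.trans ?_
    rw [pow_succ]
    linarith

end PkgQN

open PkgQN in
theorem pQN : S_QN := by
  intro N L n J hμ hJ w B B₁ hsupp hB hB₁
  set μ := mu2 N L with hμd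
  have hB0 : 0 ≤ B := (abs_nonneg _).trans (hB 0)
  have hB₁0 : 0 ≤ B₁ := (Finset.sum_nonneg fun x _ => abs_nonneg _).trans hB₁
  set t : ℝ := 1 / (4 + μ) with ht
  have h4μ : 0 < 4 + μ := by linarith
  have ht0 : 0 < t := by positivity
  have htm : t * (4 + μ) = 1 := by rw [ht]; field_simp
  let ψ : Pl → ℝ := fun x => ∑ j ∈ Finset.range J, t ^ (j + 1) * Ai w j x
  have hsc : ∀ x, sc N L ψ x = w x - t ^ J * Ai w J x := by
    intro x
    have h1 : sc N L ψ x = ∑ j ∈ Finset.range J, (t ^ j * Ai w j x - t ^ (j + 1) * Ai w (j + 1) x) := by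
      have h2 : sc N L ψ x = (4 + μ) * ψ x - (ψ (x + (1, 0)) + ψ (x - (1, 0)) + ψ (x + (0, 1)) + ψ (x - (0, 1))) := by
        simp only [sc, lap]; ring
      rw [h2]
      simp only [ψ]
      rw [Finset.mul_sum, ← Finset.sum_add_distrib, ← Finset.sum_add_distrib, ← Finset.sum_add_distrib,
        ← Finset.sum_sub_distrib]
      apply Finset.sum_congr rfl
      intro j _
      simp only [Ai, A]
      have h3 : (4 + μ) * (t ^ (j + 1) * Ai w j x) = t ^ j * Ai w j x := by
        rw [pow_succ]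
        calc (4 + μ) * (t ^ j * t * Ai w j x) = (t * (4 + μ)) * (t ^ j * Ai w j x) := by ring
          _ = _ := by rw [htm, one_mul]
      rw [h3]
      ring
    rw [h1]
    have h4 := Finset.sum_range_sub' (fun j => t ^ j * Ai w j x) J
    rw [h4]
    simp [Ai]
  have hdiff : ∀ x, |w x - sc N L ψ x| = t ^ J * |Ai w J x| := by
    intro x
    rw [hsc x, sub_sub_cancel, abs_mul, abs_of_nonneg (by positivity)]
  have hJ0 : (0 : ℝ) < J := by exact_mod_cast hJ
  have hpow : t ^ J * 4 ^ J ≤ 4 / (μ * J) := by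
    have h1 : t * 4 = 1 / (1 + μ / 4) := by
      rw [ht]; field_simp
    rw [← mul_pow, h1, one_div, inv_pow, ← one_div]
    have h2 : 1 + (J : ℝ) * (μ / 4) ≤ (1 + μ / 4) ^ J := one_add_mul_le_pow (by linarith) J
    rw [div_le_div_iff₀ (by positivity) (by positivity)]
    nlinarith
  refine ⟨ψ, ?_, ?_, ?_, ?_⟩
  · intro x hx
    by_contra hn
    apply hx
    simp only [ψ]
    apply Finset.sum_eq_zero
    intro j hj
    have hj' := Finset.mem_range.mp hj
    have : Ai w j x = 0 := by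
      by_contra h
      apply hn
      have h1 := (memNb0 _ _).mp (Ai_supp w n hsupp j x h)
      rw [memNb0]
      have h2 : ((n + j : ℕ) : ℤ) ≤ ((n + J : ℕ) : ℤ) := by exact_mod_cast (by omega : n + j ≤ n + J)
      exact ⟨h1.1.trans h2, h1.2.trans h2⟩
    rw [this, mul_zero]
  · intro x
    have h1 : ∀ j : ℕ, ∑ i ∈ Finset.range j, t ^ (i + 1) * 4 ^ i = (1 - (4 * t) ^ j) / μ := by
      intro j
      induction j with
      | zero => simp
      | succ j ih =>
        rw [Finset.sum_range_succ, ih, pow_succ, eq_div_iff hμ.ne', add_mul, div_mul_cancel₀ _ hμ.ne',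
          mul_pow, pow_succ (4 * t), mul_pow]
        have : t * μ = 1 - 4 * t := by linarith
        have h6 : t ^ j * t * 4 ^ j * μ = t ^ j * 4 ^ j * (t * μ) := by ring
        rw [h6, this]
        ring
    calc |ψ x| ≤ ∑ i ∈ Finset.range J, |t ^ (i + 1) * Ai w i x| := Finset.abs_sum_le_sum_abs _ _
      _ ≤ ∑ i ∈ Finset.range J, t ^ (i + 1) * 4 ^ i * B := by
          apply Finset.sum_le_sum
          intro i _
          rw [abs_mul, abs_of_nonneg (by positivity : 0 ≤ t ^ (i + 1)), mul_assoc]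
          exact mul_le_mul_of_nonneg_left (Ai_bd w B hB i x) (by positivity)
      _ = (1 - (4 * t) ^ J) / μ * B := by rw [← Finset.sum_mul, h1]
      _ ≤ B / μ := by
          rw [div_mul_eq_mul_div]
          apply div_le_div_of_nonneg_right _ hμ.le
          have : 0 ≤ (4 * t) ^ J := by positivity
          nlinarith
  · intro x
    rw [hdiff]
    calc t ^ J * |Ai w J x| ≤ t ^ J * (4 ^ J * B) := mul_le_mul_of_nonneg_left (Ai_bd w B hB J x) (by positivity)
      _ = B * (t ^ J * 4 ^ J) := by ring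
      _ ≤ B * (4 / (μ * J)) := mul_le_mul_of_nonneg_left hpow hB0
  · simp only [hdiff]
    rw [← Finset.mul_sum]
    calc t ^ J * ∑ x ∈ Nb (n + J + 1) 0, |Ai w J x| ≤ t ^ J * (4 ^ J * B₁) :=
          mul_le_mul_of_nonneg_left (Ai_sum w n B₁ hsupp hB₁ J _) (by positivity)
      _ = B₁ * (t ^ J * 4 ^ J) := by ring
      _ ≤ B₁ * (4 / (μ * J)) := mul_le_mul_of_nonneg_left hpow hB₁0

end T2H02.TT
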