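import Pool.Agent.T2H02.TT.StmQ
import Pool.Agent.T2H02.TT.VT

/-!
# QT: discretisation error of the Laplacian, bounded derivatives
-/

set_option autoImplicit false

noncomputable section

open MeasureTheory Filter Topology

namespace T2H02.TT

namespace PkgQT

/-- directional derivatives as values of the iterated derivative -/
theorem P_iter {Ψ : ℝ × ℝ → ℝ} (u : ℝ × ℝ) (k : ℕ)
    (hd : Differentiable ℝ (iteratedFDeriv ℝ k Ψ)) (p : ℝ × ℝ) :
    PkgVT.P u (fun p => iteratedFDeriv ℝ k Ψ p (fun _ => u)) p =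
      iteratedFDeriv ℝ (k + 1) Ψ p (fun _ => u) := by
  unfold PkgVT.P
  have h1 : HasFDerivAt (iteratedFDeriv ℝ k Ψ) (fderiv ℝ (iteratedFDeriv ℝ k Ψ) p) p :=
    (hd p).hasFDerivAt
  have h2 := ((ContinuousMultilinearMap.apply ℝ (fun _ : Fin k => ℝ × ℝ) ℝ
    (fun _ => u)).hasFDerivAt (x := iteratedFDeriv ℝ k Ψ p)).comp p h1
  have h3 : fderiv ℝ (fun p => iteratedFDeriv ℝ k Ψ p (fun _ => u)) p =
      (ContinuousMultilinearMap.apply ℝ (fun _ : Fin k => ℝ × ℝ) ℝ (fun _ => u)).comp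
        (fderiv ℝ (iteratedFDeriv ℝ k Ψ) p) := h2.fderiv
  rw [h3, iteratedFDeriv_succ_apply_left]
  rfl

theorem bd4 {Ψ : ℝ × ℝ → ℝ} (hΨ : ContDiff ℝ 4 Ψ) {C : ℝ}
    (hC : ∀ i : ℕ, i ≤ 4 → ∀ p, ‖iteratedFDeriv ℝ i Ψ p‖ ≤ C) (u : ℝ × ℝ) :
    ∃ M, ∀ p, |PkgVT.P u (PkgVT.P u (PkgVT.P u (PkgVT.P u Ψ))) p| ≤ M := by
  have hd : ∀ k : ℕ, k < 4 → Differentiable ℝ (iteratedFDeriv ℝ k Ψ) := fun k hk =>
    hΨ.differentiable_iteratedFDeriv (by exact_mod_cast hk)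
  have e0 : Ψ = fun p => iteratedFDeriv ℝ 0 Ψ p (fun _ => u) := by
    funext p; rw [iteratedFDeriv_zero_apply]
  have e1 : PkgVT.P u Ψ = fun p => iteratedFDeriv ℝ 1 Ψ p (fun _ => u) := by
    funext p
    rw [← P_iter u 0 (hd 0 (by norm_num)) p, ← e0]
  have e2 : PkgVT.P u (PkgVT.P u Ψ) = fun p => iteratedFDeriv ℝ 2 Ψ p (fun _ => u) := by
    funext p
    rw [← P_iter u 1 (hd 1 (by norm_num)) p, ← e1]
  have e3 : PkgVT.P u (PkgVT.P u (PkgVT.P u Ψ)) = fun p => iteratedFDeriv ℝ 3 Ψ p (fun _ => u) := by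
    funext p
    rw [← P_iter u 2 (hd 2 (by norm_num)) p, ← e2]
  have e4 : PkgVT.P u (PkgVT.P u (PkgVT.P u (PkgVT.P u Ψ))) =
      fun p => iteratedFDeriv ℝ 4 Ψ p (fun _ => u) := by
    funext p
    rw [← P_iter u 3 (hd 3 (by norm_num)) p, ← e3]
  refine ⟨C * ∏ _i : Fin 4, ‖u‖, fun p => ?_⟩
  rw [e4, ← Real.norm_eq_abs]
  exact ((iteratedFDeriv ℝ 4 Ψ p).le_opNorm _).trans
    (mul_le_mul_of_nonneg_right (hC 4 le_rfl p) (Finset.prod_nonneg fun _ _ => norm_nonneg _))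

end PkgQT

open PkgVT

theorem pQT : S_QT := by
  intro N hN Ψ hB hsc
  obtain ⟨hΨ, CB, hCB⟩ := hB
  have c4 : ContDiff ℝ (3 + 1 : ℕ) Ψ := by exact_mod_cast hΨ
  -- iterated derivatives in one direction
  have it : ∀ u : ℝ × ℝ, ContDiff ℝ (3 : ℕ) (P u Ψ) ∧ ContDiff ℝ (2 : ℕ) (P u (P u Ψ)) ∧
      ContDiff ℝ (1 : ℕ) (P u (P u (P u Ψ))) ∧ ContDiff ℝ (0 : ℕ) (P u (P u (P u (P u Ψ)))) := by
    intro u
    have a1 := P_contDiff u c4
    have a2 := P_contDiff u (n := 2) a1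
    have a3 := P_contDiff u (n := 1) a2
    have a4 := P_contDiff u (n := 0) a3
    exact ⟨a1, a2, a3, a4⟩
  have dif : Differentiable ℝ Ψ := c4.differentiable (by norm_num)
  have dif1 : ∀ u, Differentiable ℝ (P u Ψ) := fun u => (it u).1.differentiable (by norm_num)
  have dif2 : ∀ u, Differentiable ℝ (P u (P u Ψ)) := fun u => (it u).2.1.differentiable (by norm_num)
  have dif3 : ∀ u, Differentiable ℝ (P u (P u (P u Ψ))) := fun u =>
    (it u).2.2.1.differentiable (by norm_num)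
  obtain ⟨M1, hM1⟩ := PkgQT.bd4 hΨ hCB (1, 0)
  obtain ⟨M2, hM2⟩ := PkgQT.bd4 hΨ hCB (0, 1)
  have hM0 : ∀ p, ‖Ψ p‖ ≤ CB := fun p => by
    have := hCB 0 (by norm_num) p
    rwa [norm_iteratedFDeriv_zero] at this
  generalize CB = M0 at hM0
  -- the Laplacian
  have hlap : ∀ p, lapc Ψ p = P (1, 0) (P (1, 0) Ψ) p + P (0, 1) (P (0, 1) Ψ) p := by
    intro p
    unfold lapc
    congr 1
    · rw [iteratedDeriv_succ, iteratedDeriv_one]
      have : deriv (fun t => Ψ (t, p.2)) = fun t => P (1, 0) Ψ (t, p.2) := by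
        funext t; exact (hasD1 dif p.2 t).deriv
      rw [this]
      exact (hasD1 (dif1 (1, 0)) p.2 p.1).deriv
    · rw [iteratedDeriv_succ, iteratedDeriv_one]
      have : deriv (fun t => Ψ (p.1, t)) = fun t => P (0, 1) Ψ (p.1, t) := by
        funext t; exact (hasD2 dif p.1 t).deriv
      rw [this]
      exact (hasD2 (dif1 (0, 1)) p.1 p.2).deriv
  have hcont : Continuous (srcc N Ψ) := by
    have : srcc N Ψ = fun p => (2 * Real.pi / N) ^ 2 * Ψ p -
        (P (1, 0) (P (1, 0) Ψ) p + P (0, 1) (P (0, 1) Ψ) p) := by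
      funext p; unfold srcc; rw [hlap]
    rw [this]
    exact (hΨ.continuous.const_mul _).sub ((it _).2.1.continuous.add (it _).2.1.continuous)
  obtain ⟨M3, hM3⟩ := hcont.bounded_above_of_compact_support hsc
  refine ⟨hcont, ?_, ?_⟩
  · obtain ⟨R, hR⟩ := hsc.isCompact.isBounded.exists_norm_le
    obtain ⟨r, hr⟩ := exists_nat_gt R
    refine ⟨r, fun p hp => image_eq_zero_of_notMem_tsupport fun hmem => ?_⟩
    have h1 := hR p hmem
    rw [Prod.norm_def] at h1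
    have h2 : |p.1| ≤ R := (le_max_left _ _).trans h1
    have h3 : |p.2| ≤ R := (le_max_right _ _).trans h1
    rcases hp with hp | hp <;> linarith
  · have hM0' : 0 ≤ M0 := (norm_nonneg _).trans (hM0 0)
    have hM1' : 0 ≤ M1 := (abs_nonneg _).trans (hM1 0)
    have hM2' : 0 ≤ M2 := (abs_nonneg _).trans (hM2 0)
    have hM3' : 0 ≤ M3 := (norm_nonneg _).trans (hM3 0)
    refine ⟨1 + 65 * M0 + 2 * M1 + 2 * M2 + M3, by linarith, fun p => ?_, fun p => ?_, ?_⟩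
    · have := hM0 p
      rw [Real.norm_eq_abs] at this
      linarith
    · have := hM3 p
      rw [Real.norm_eq_abs] at this
      linarith
    intro L hL x
    have hL' : (1 : ℝ) ≤ L := by exact_mod_cast hL
    have hL0 : (0 : ℝ) < L := by linarith
    set a : ℝ := (x.1 : ℝ) / L with ha
    set b : ℝ := (x.2 : ℝ) / L with hb
    set h : ℝ := 1 / L with hh
    have hh0 : 0 ≤ h := by positivity
    have e1 := second (g := fun t => Ψ (t, b)) (fun t => hasD1 dif b t) (fun t => hasD1 (dif1 _) b t)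
      (fun t => hasD1 (dif2 _) b t) (fun t => hasD1 (dif3 _) b t) (fun t => hM1 (t, b)) a hh0
    have e2 := second (g := fun t => Ψ (a, t)) (fun t => hasD2 dif a t) (fun t => hasD2 (dif1 _) a t)
      (fun t => hasD2 (dif2 _) a t) (fun t => hasD2 (dif3 _) a t) (fun t => hM2 (a, t)) b hh0
    have e3 : |mu2 N L - (2 * Real.pi / N) ^ 2 / (L : ℝ) ^ 2| ≤ 64 / (L : ℝ) ^ 4 := by
      have hN' : (2 : ℝ) ≤ N := by exact_mod_cast hN
      have hN0 : (0 : ℝ) < N := by linarith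
      have h1 := sin_sq (Real.pi / (N * L)) (by positivity)
      have h2 : (2 * Real.pi / N) ^ 2 / (L : ℝ) ^ 2 = 4 * (Real.pi / (N * L)) ^ 2 := by
        field_simp
        norm_num
      unfold mu2
      rw [h2]
      refine h1.trans ?_
      have h3 : Real.pi / (N * L) ≤ 2 / L := by
        rw [div_le_div_iff₀ (by positivity) hL0]
        nlinarith [Real.pi_le_four, mul_le_mul_of_nonneg_right hN' hL0.le]
      have h4 : (Real.pi / (N * L)) ^ 4 ≤ (2 / L) ^ 4 := pow_le_pow_left₀ (by positivity) h3 4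
      calc 4 * (Real.pi / (N * L)) ^ 4 ≤ 4 * (2 / L) ^ 4 := by linarith
        _ = 64 / (L : ℝ) ^ 4 := by ring
    have f1 : rs L Ψ (x + (1, 0)) = Ψ (a + h, b) := by
      unfold rs
      congr 1
      ext
      · simp [ha, hh]; ring
      · simp [hb]
    have f2 : rs L Ψ (x - (1, 0)) = Ψ (a - h, b) := by
      unfold rs
      congr 1
      ext
      · simp [ha, hh]; ring
      · simp [hb]
    have f3 : rs L Ψ (x + (0, 1)) = Ψ (a, b + h) := by
      unfold rs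
      congr 1
      ext
      · simp [ha]
      · simp [hb, hh]; ring
    have f4 : rs L Ψ (x - (0, 1)) = Ψ (a, b - h) := by
      unfold rs
      congr 1
      ext
      · simp [ha]
      · simp [hb, hh]; ring
    have f0 : rs L Ψ x = Ψ (a, b) := rfl
    have f5 : rs L (srcc N Ψ) x = (2 * Real.pi / N) ^ 2 * Ψ (a, b) -
        (P (1, 0) (P (1, 0) Ψ) (a, b) + P (0, 1) (P (0, 1) Ψ) (a, b)) := by
      show srcc N Ψ (a, b) = _
      unfold srcc
      rw [hlap]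
    have hhL : h ^ 4 = 1 / (L : ℝ) ^ 4 := by rw [hh]; ring
    have key : sc N L (rs L Ψ) x - rs L (srcc N Ψ) x / (L : ℝ) ^ 2 =
        -(Ψ (a + h, b) + Ψ (a - h, b) - 2 * Ψ (a, b) - h ^ 2 * P (1, 0) (P (1, 0) Ψ) (a, b)) -
        (Ψ (a, b + h) + Ψ (a, b - h) - 2 * Ψ (a, b) - h ^ 2 * P (0, 1) (P (0, 1) Ψ) (a, b)) +
        (mu2 N L - (2 * Real.pi / N) ^ 2 / (L : ℝ) ^ 2) * Ψ (a, b) := by
      unfold sc lap
      rw [f1, f2, f3, f4, f0, f5, hh]
      ring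
    rw [key]
    have g0 : |Ψ (a, b)| ≤ M0 := hM0 (a, b)
    have g3 : |(mu2 N L - (2 * Real.pi / N) ^ 2 / (L : ℝ) ^ 2) * Ψ (a, b)| ≤ 64 / (L : ℝ) ^ 4 * M0 := by
      rw [abs_mul]
      exact mul_le_mul e3 g0 (abs_nonneg _) (by positivity)
    refine (abs_add_le _ _).trans ?_
    have g1 := (abs_sub (-(Ψ (a + h, b) + Ψ (a - h, b) - 2 * Ψ (a, b) - h ^ 2 * P (1, 0) (P (1, 0) Ψ) (a, b)))
      (Ψ (a, b + h) + Ψ (a, b - h) - 2 * Ψ (a, b) - h ^ 2 * P (0, 1) (P (0, 1) Ψ) (a, b)))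
    rw [abs_neg] at g1
    have hL4 : 0 < 1 / (L : ℝ) ^ 4 := by positivity
    have fin : (1 + 65 * M0 + 2 * M1 + 2 * M2 + M3) / (L : ℝ) ^ 4 =
      (1 + 65 * M0 + 2 * M1 + 2 * M2 + M3) * (1 / (L : ℝ) ^ 4) := by ring
    have g4 : 64 / (L : ℝ) ^ 4 * M0 = 64 * M0 * (1 / (L : ℝ) ^ 4) := by ring
    rw [fin]
    rw [hhL] at e1 e2
    rw [g4] at g3
    nlinarith [mul_nonneg hM0' hL4.le, mul_nonneg hM3' hL4.le]

end T2H02.TT
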