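import Pool.Agent.T2H02.TT.All5
import Pool.Agent.T2H02.TT.Fin31
import Pool.Agent.T2H02.TT.QI
import Pool.Agent.T2H02.TT.QJ
import Pool.Agent.T2H02.TT.QK
import Pool.Agent.T2H02.TT.QN
import Pool.Agent.T2H02.TT.QM
import Pool.Agent.T2H02.TT.QT
import Pool.Agent.T2H02.TT.QG
import Pool.Agent.T2H02.TT.VO
import Pool.Agent.T2H02.TT.VR
import Pool.Agent.T2H02.TT.VS

/-!
# The scaling limit of the complex field of Polyakov loops
-/

set_option autoImplicit false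

noncomputable section

open MeasureTheory Matrix Filter Topology

namespace T2H02.TT

theorem aQI : S_QI :=
  pQI pB0 aD1u pE4 aGu pG3u aJu aJI aJM aKu (pL1u pB0) pL2u pL3u pUT1 aUT2
theorem aQJ : S_QJ := pQJ aD1u aJu aJI aJM aQI
theorem aQK : S_QK := pQK pF4 pF5 aHu pOA aQJ

theorem ascal3 (N k a : ℕ) (hN : 2 ≤ N) (hk : Nat.Coprime k N) (ha : a < N)
    (hka : (k * a) % N = 1) :
    ∃ K₀ : ℕ, ∀ F F' : ℝ × ℝ → ℝ, ContDiff ℝ 4 F → ContDiff ℝ 4 F' → HasCompactSupport F →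
      HasCompactSupport F' → ∀ ε : ℝ, 0 < ε →
      ∃ C₀ : ℝ, 0 < C₀ ∧ ∀ (L : ℕ) [NeZero L] (β : ℝ), C₀ ≤ L → C₀ * (L : ℝ) ^ K₀ ≤ β →
        |Phi N L k β (fun X => Real.cos (sfl β (fun φ => (Zpol N L a φ).re) F X +
            sfl β (fun φ => (Zpol N L a φ).im) F' X)) -
          Real.exp (-((cov (2 * Real.pi / N) F + cov (2 * Real.pi / N) F') / 2))| ≤ ε ∧
        |Phi N L k β (fun X => Real.sin (sfl β (fun φ => (Zpol N L a φ).re) F X +
            sfl β (fun φ => (Zpol N L a φ).im) F' X))| ≤ ε :=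
  scal3 pUMy aUK aQK pQN pQM pQT pQG pVO pVR pVS pA1 aP1u pO pSY N k a hN hk ha hka

end T2H02.TT
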