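import Pool.Agent.T2H02.TT.Defs

/-!
# Statements of the group packages (A, B, C, D, E) and of the abstract coupling theorem (X)

Package `Y` proves `theorem pY... : S_Y...` (possibly from other statements as hypotheses) in the
file `Pool/Agent/T2H02/TT/Y.lean` which imports this file. Statements must not be changed.
-/

set_option autoImplicit false

noncomputable section

open MeasureTheory Matrix
open scoped Matrix.Norms.Frobenius

namespace T2H02.TT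

/-- `P Q = exp (2 π i k / N) Q P` -/
def PQ {N : ℕ} (k : ℕ) (P Q : SU N) : Prop :=
  (P : Mt N) * (Q : Mt N) = om N k • ((Q : Mt N) * (P : Mt N))

/-! ### package A : Stone-von Neumann

`ω = om N k` is a primitive `N`-th root of unity. Proof of A2: `A` has a unit eigenvector `v`,
`A v = λ v`; `A (B^j v) = λ ω^j B^j v`, so `(B^j v)_{j<N}` is an orthonormal basis of eigenvectors of
`A` (different eigenvalues of a unitary matrix), `B^N v = μ v`. `det A = λ^N ∏ ω^j = 1` and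
`det B = (-1)^(N-1) μ = 1`, so `λ^N` and `μ` do not depend on `(A, B)`; the eigenvalues `λ ω^j` of `A`
are then all `N`-th roots of `λ^N`, so we can choose `v` with the same `λ` for `(A,B)` and `(P,Q)`
(vector `w`). The unitary map `Q^j w ↦ B^j v` conjugates `P` to `A` and `Q` to `B`; multiply it by a
scalar to have determinant one. A3: `M` commutes with `P`, so it is diagonal in the basis `Q^j w`, and
it commutes with the cyclic shift `Q`, so it is scalar. A4: conjugation by `P`, resp. `Q`, multiplies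
`P^a Q^b` by `ω^b`, resp. `ω^(-a)`, and does not change the trace. A1: clock and shift matrices times
scalars of modulus one. -/

def S_A1 : Prop := ∀ N k : ℕ, 2 ≤ N → Nat.Coprime k N → ∃ P Q : SU N, PQ k P Q

def S_A2 : Prop := ∀ N k : ℕ, 2 ≤ N → Nat.Coprime k N → ∀ P Q A B : SU N, PQ k P Q → PQ k A B →
  ∃ g : SU N, A = g * P * g⁻¹ ∧ B = g * Q * g⁻¹

def S_A3 : Prop := ∀ N k : ℕ, 2 ≤ N → Nat.Coprime k N → ∀ P Q : SU N, PQ k P Q → ∀ M : Mt N,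
  M * (P : Mt N) = (P : Mt N) * M → M * (Q : Mt N) = (Q : Mt N) * M → ∃ c : ℂ, M = c • (1 : Mt N)

def S_A4 : Prop := ∀ N k : ℕ, 2 ≤ N → Nat.Coprime k N → ∀ P Q : SU N, PQ k P Q → ∀ a b : ℕ,
  ¬ (N ∣ a ∧ N ∣ b) → ((P : Mt N) ^ a * (Q : Mt N) ^ b).trace = 0

/-! ### package B : zero energy configurations of the twisted torus

B1 (tree gauge). Let `h 0 = 1`, `h (tsh y 0) = h y * φ y 0` along the row `y.2 = 0`, `y.1 ≠ -1`, and
then `h (tsh y 1) = h y * φ y 1` for `y.2 ≠ -1`. For `φ' = act h φ`: `φ' y 1 = 1` for `y.2 ≠ -1` and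
`φ' y 0 = 1` for `y.2 = 0`, `y.1 ≠ -1`. All plaquettes vanish: those with `y.2 ≠ -1` say that
`φ' y 0` does not depend on `y.2`; so `φ' y 0 = 1` for `y.1 ≠ -1` and `= A` for `y.1 = -1`. Those
with `y.2 = -1`, `y.1 ≠ -1` say that `φ' y 1 = B` for all `y` with `y.2 = -1`, and the corner says
`A B = ω B A`. Then A2. B2: `U y = U (tsh y j)` across links equal to `1` (first `y.1 ≠ -1`, resp.
`y.2 ≠ -1`), so `U` is constant, and it commutes with `P` and `Q`: A3, and `c^N = 1`. B3 the same. -/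

def S_B0 : Prop := ∀ (N k L : ℕ) [NeZero L], 2 ≤ N → Nat.Coprime k N → ∀ P Q : SU N, PQ k P Q →
  VV k (vac P Q : Ph N L) = 0

def S_B1 : Prop := ∀ (N k L : ℕ) [NeZero L], 2 ≤ N → Nat.Coprime k N → ∀ P Q : SU N, PQ k P Q →
  ∀ φ : Ph N L, VV k φ = 0 → ∃ g : Tor L → SU N, φ = act g (vac P Q)

def S_B2 : Prop := ∀ (N k L : ℕ) [NeZero L], 2 ≤ N → Nat.Coprime k N → ∀ P Q : SU N, PQ k P Q →
  ∀ U : Tor L → SU N, act U (vac P Q) = vac P Q →
    ∃ m : Fin N, ∀ y, (U y : Mt N) = om N m • (1 : Mt N)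

def S_B3 : Prop := ∀ (N k L : ℕ) [NeZero L], 2 ≤ N → Nat.Coprime k N → ∀ P Q : SU N, PQ k P Q →
  ∀ lam : Tor L → Mt N, (∀ y j, dd (vac P Q) lam y j = 0) → ∃ c : ℂ, ∀ y, lam y = c • (1 : Mt N)

/-! ### package C : linear estimates (from B0, B3)

C1: the quadratic form on the right vanishes only for `lam = 0` (B3 and trace zero); compactness of
the unit sphere. C2: on the real Hilbert space `H = (Tor L → su N)` the operators
`(S_j lam) y = Adj (vac y j) (lam (tsh y j))` are orthogonal and commute (this is B0: the plaquettes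
of the vacuum are flat up to scalars). With `A_j = 1 - S_j`: `dd lam y j = (A_j lam) y`,
`crl a = A_1 a_0 - A_0 a_1` (directions `0`, `1`), `Δ = A_0* A_0 + A_1* A_1` is invertible by C1
and everything commutes; `lam = Δ⁻¹ (A_0* a_0 + A_1* a_1)` gives
`a_0 - A_0 lam = Δ⁻¹ A_1* (A_1 a_0 - A_0 a_1)` and `a_1 - A_1 lam = - Δ⁻¹ A_0* (A_1 a_0 - A_0 a_1)`. -/

def S_C1 : Prop := ∀ (N k L : ℕ) [NeZero L], 2 ≤ N → Nat.Coprime k N → ∀ P Q : SU N, PQ k P Q →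
  ∃ C : ℝ, 0 < C ∧ ∀ lam : Tor L → Mt N, (∀ y, (lam y).trace = 0) →
    ∑ y, ‖lam y‖ ^ 2 ≤ C * ∑ y, ∑ j, ‖dd (vac P Q) lam y j‖ ^ 2

def S_C2 : Prop := ∀ (N k L : ℕ) [NeZero L], 2 ≤ N → Nat.Coprime k N → ∀ P Q : SU N, PQ k P Q →
  ∃ C : ℝ, 0 < C ∧ ∀ a : Tor L → Fin 2 → Mt N, (∀ y j, a y j ∈ su N) →
    ∃ lam : Tor L → Mt N, (∀ y, lam y ∈ su N) ∧
      ∑ y, ∑ j, ‖a y j - dd (vac P Q) lam y j‖ ^ 2 ≤ C * ∑ y, ‖crl (vac P Q) a y‖ ^ 2

/-! ### package D : quadratic lower bounds (from B, C)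

D1. Let `g` minimise `dst (act g φ) vac` over the compact group, `ψ = act g φ`, `r² = dst ψ vac`.
If `r ≥ ρ`: the minimum of `VV` over the compact set of `φ` with `min_g dst (act g φ) vac ≥ ρ²` is
positive by B1 (`VV` is gauge invariant), and `dst ≤ const`. If `r < ρ`: let `ψ y j = (1 + a y j) vac`
with `a = ξ + O(r²)`, `ξ y j ∈ su N` (`ξ = pr ((ψ - vac) vac⁻¹)`); by minimality
`Re Σ tr ((ψ - vac)* (infinitesimal gauge transformation of ψ by lam)) = 0` for all `lam`, which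
gives `Re Σ ⟨ξ, dd lam⟩ = O(r²) ‖lam‖` for all `lam ∈ su N`. Take `lam` from C2 for `ξ`:
`‖ξ‖² = ⟨ξ, ξ - dd lam⟩ + O(r²) ‖lam‖ ≤ ‖ξ‖ C ‖crl ξ‖ + O(r³)` (with `‖lam‖ ≤ C ‖ξ‖` by C1),
and `√VV = ‖crl ξ‖ / √2 + O(r²)`. So `r² ≤ C VV + C r³`, and `r < ρ` small absorbs the last term.
D2. The same with B2 and C1: if `U` is far from all `om N m • 1` use compactness; if
`U y = om N m • (1 + lam y + O(r²))`, `lam y ∈ su N`, then `dst (act U vac) vac = ‖dd lam‖² + O(r³)`. -/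

def S_D1 : Prop := ∀ (N k L : ℕ) [NeZero L], 2 ≤ N → Nat.Coprime k N → ∀ P Q : SU N, PQ k P Q →
  ∃ C : ℝ, 0 < C ∧ ∀ φ : Ph N L, ∃ g : Tor L → SU N, dst (act g φ) (vac P Q) ≤ C * VV k φ

def S_D2 : Prop := ∀ (N k L : ℕ) [NeZero L], 2 ≤ N → Nat.Coprime k N → ∀ P Q : SU N, PQ k P Q →
  ∃ C : ℝ, 0 < C ∧ ∀ U : Tor L → SU N, ∃ m : Fin N,
    ∑ y, ‖(U y : Mt N) - om N m • (1 : Mt N)‖ ^ 2 ≤ C * dst (act U (vac P Q)) (vac P Q)

/-! ### package E : frames, the projection on `su(N)` and the exponential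

E1: `hol (vac) 0 L y = P`, `hol (vac) 1 L y = Q`, and `P^a Q^b / √N` (`a, b < N`) is an orthonormal
basis of the `N²`-dimensional space of matrices by A4. E2: `hol (act g φ) j L y = g y * hol φ j L y *
(g y)⁻¹` since `L` steps lead back to `y`. E3: products of unitary matrices are 1-Lipschitz in each
factor. -/

def S_E1 : Prop := ∀ (N k L : ℕ) [NeZero L], 2 ≤ N → Nat.Coprime k N → ∀ P Q : SU N, PQ k P Q →
  ∀ (y : Tor L) (M : Mt N), fr P Q (vac P Q) y M = M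

def S_E2 : Prop := ∀ (N L : ℕ) [NeZero L], 2 ≤ N → ∀ P Q : SU N, ∀ (φ : Ph N L) (g : Tor L → SU N)
  (y : Tor L) (M : Mt N), fr P Q (act g φ) y M = Adj (g y) (fr P Q φ y M)

def S_E3 : Prop := ∀ (N L : ℕ) [NeZero L], 2 ≤ N → ∀ P Q : SU N, ∃ C : ℝ, 0 < C ∧
  (∀ (φ ψ : Ph N L) (y : Tor L) (M : Mt N),
    ‖fr P Q φ y M - fr P Q ψ y M‖ ≤ C * Real.sqrt (dst φ ψ) * ‖M‖) ∧
  (∀ (φ : Ph N L) (y : Tor L) (M : Mt N), ‖fr P Q φ y M‖ ≤ C * ‖M‖) ∧
  (∀ (y : Tor L) (M : Mt N), Continuous fun φ : Ph N L => fr P Q φ y M)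

def S_E4 : Prop := ∀ N : ℕ, 2 ≤ N →
  (∀ M : Mt N, pr M ∈ su N) ∧ (∀ M : Mt N, M ∈ su N → pr M = M) ∧
  (∀ (g : SU N) (M : Mt N), pr (Adj g M) = Adj g (pr M)) ∧
  (∀ M : Mt N, ‖pr M‖ ≤ ‖M‖) ∧ (∀ (g : SU N) (M : Mt N), ‖Adj g M‖ = ‖M‖) ∧
  (∃ C : ℝ, 0 < C ∧ ∀ g : SU N, ‖((g : Mt N) - 1) - pr ((g : Mt N) - 1)‖ ≤ C * ‖(g : Mt N) - 1‖ ^ 2) ∧
  ∃ (E : Mt N → SU N) (C : ℝ), 0 < C ∧ Continuous E ∧ E 0 = 1 ∧
    (∀ (g : SU N) (M : Mt N), E (Adj g M) = g * E M * g⁻¹) ∧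
    (∀ M : Mt N, ‖(E M : Mt N) - 1 - pr M‖ ≤ C * ‖M‖ ^ 2)

end T2H02.TT
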