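import Pool.Agent.T2H02.TT.Sys

/-!
# Statements of the measure package F and of the abstract coupling theorem X

## Package F (file `F.lean`): elementary facts on `infinitePi` and on `Sys.ker`

F1: averaging one variable. Both sides are integrals of `f` against probability measures which agree
on boxes (`eq_infinitePi`), or: the map `(ξ, g) ↦ update ξ s g` is measure preserving.
F2: iterate F1 over the finite set `J` (or prove it directly the same way).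
F3 (consistency, DLR): for `Δ ⊆ Λ`, `W Λ = W Δ * R` where `R` (terms touching `Λ` but not `Δ`) does
not depend on the variables in `Fr Δ`; use F2 for `J = Fr Δ`; note `tms Δ ⊆ tms Λ`, `Fr Δ ⊆ Fr Λ`,
and a term not touching `Δ` has no variable in `Fr Δ` (`bt_iff`).
F4: the same for the free expectation. F5: elementary properties of `ker`.

## Package X (file `X.lean`): the coupling theorem

Notation: `N_r(b) = Nb r b`, `dist` the sup-distance, `Bad_b` the indicator of the event that some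
term inside `N_1(b)` is not good, `ρ_η(ξ)` for `b ∈ Λ` the density, with respect to the product
measure, of the variables `J = Fr Λ \ Fr (Λ \ {b})` (they touch `b` and no other site of `Λ`) under
`ker Λ · η`, i.e. `ker Λ F η = ∫ F (glue J ξ η) ρ_η(ξ) dξ` for every `F` not depending on the
variables in `Fr (Λ \ {b})`; `ρ_η ≥ 0`, `∫ ρ_η = 1`.

0. hQ for all finite `Λ ∋ b` (not only `Λ ⊆ N_2(b)`): apply hQ to `Λ ∩ N_2(b)` and F3.

1. Product bound: if `b_1, ..., b_m` have pairwise distance `≥ 4` and `N_2(b_i) ⊆ Λ₀`, then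
`ker Λ₀ (∏ Bad_{b_i}) η ≤ p^m`: by F3 with `Δ = N_2(b_1)`; the other factors do not depend on
`Fr (N_2(b_1))` (their terms lie in `N_1(b_i)`). For an arbitrary finite set of `m` sites choose a
class modulo 4 in both coordinates (16 classes): `ker Λ₀ (∏ Bad_b) η ≤ p^(m/16)`, so that its square
root is `≤ q^m` because `p ≤ q^32`.

2. Fix `Λ₀` (the `Λ` of the theorem), `A`, `f`, and `C₀` = complement of `Λ₀`. A chain from `C` is a
finite sequence `(b_1, l_1), ..., (b_k, l_k)` (`k ≥ 0`) with labels `l_i ∈ {a, c}`,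
`N_2(b_i) ⊆ Λ₀`, `dist (b_1, some element of C) = 3`, `dist (b_i, b_(i+1)) = 3`,
`dist (b_k, A) ≤ 2`; the empty chain is a chain from `C` iff `dist (A, C) ≤ 2`. Weight of a chain in
the state `(Λ, η)`, `Λ ⊆ Λ₀`: `G = δ^(#c / 2) * sqrt (ker Λ (∏_{l_i = a} Bad_{b_i}) η)`.
Let `S(Λ, C, η)` be the sum of the weights of all chains from `C` of length `≤ |Λ|`.

CLAIM: for all `Λ ⊆ Λ₀`, all `C` disjoint from `Λ` with `C₀ ⊆ C`, all `η, η'` that agree on all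
variables `i ∉ Fr Λ` with `bl i ∩ C = ∅`: `|ker Λ f η - ker Λ f η'| ≤ 2 S(Λ, C, η)`.
Proof by induction on `|Λ|`. (i) If `dist (A, C) ≤ 2`: the empty chain has weight 1 and `|f| ≤ 1`.
(ii) Otherwise, if no `b ∈ Λ` has `dist (b, C) = 3`: let `Λ' = {x ∈ Λ : dist (x, C) ≥ 4}`. By F3
`ker Λ f η = ker Λ (ker Λ' f) η`, and `ker Λ' f ω` depends only on variables outside `Fr Λ'` of terms
touching `Λ'` or of `f`; all their sites have distance `≥ 3` from `C`, hence are not in `Λ`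
(the sites of `Λ` at distance 3 do not exist, those at distance `≥ 4` are in `Λ'`), so these
variables are not in `Fr Λ` and agree for `η, η'`: the two expectations are equal.
(iii) Otherwise choose `b ∈ Λ` with `dist (b, C) = 3` (so `N_2(b) ∩ C = ∅`, `N_2(b) ⊆ Λ₀`). With
`g = ker (Λ \ {b}) f`, `η^ξ = glue J ξ η`, `m = min (ρ_η, ρ_η')`, `κ = ∫ (ρ_η - ρ_η')⁺ =
∫ (ρ_η' - ρ_η)⁺`:
`ker Λ f η - ker Λ f η' = ∫ (g(η^ξ) - g(η'^ξ)) m(ξ) dξ +
(1/κ) ∫∫ (g(η^ξ) - g(η'^ξ')) (ρ_η - ρ_η')⁺(ξ) (ρ_η' - ρ_η)⁺(ξ') dξ dξ'`. In the first integral the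
state is `(Λ \ {b}, C)`, in the second one `(Λ \ {b}, C ∪ {b})`; by induction the sum is at most
`2 ∫ S(Λ\{b}, C, η^ξ) m(ξ) dξ + 2 ∫ S(Λ\{b}, C ∪ {b}, η^ξ) (ρ_η - ρ_η')⁺(ξ) dξ`. Chains from
`C ∪ {b}` start from `C` or from `b`. Those from `C` contribute in total at most
`∫ G(Λ\{b}, η^ξ) ρ_η(ξ) dξ ≤ G(Λ, η)` (Jensen for the square root and F3). Those from `b`: let
`ch'` be such a chain. If all terms inside `N_1(b)` without a site in `Λ` are good for `η`: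
`κ ≤ δ` by step 0 with `F` = indicator of `ρ_η > ρ_η'`, and by Cauchy-Schwarz
`∫ G(ch'; η^ξ) (ρ_η - ρ_η')⁺ ≤ δ^(#c/2) κ^(1/2) (∫ ker (Λ\{b}) (∏ Bad) (η^ξ) ρ_η(ξ) dξ)^(1/2)
≤ G((b, c), ch'; η)`. If some such term is not good: `Bad_b = 1` for all `η^ξ` and all their
modifications in `Fr Λ`, so `∫ G(ch'; η^ξ) (ρ_η - ρ_η')⁺ ≤ ∫ G(ch'; η^ξ) ρ_η ≤ G((b, a), ch'; η)`.

3. Counting: `S(Λ₀, C₀, η) ≤ ∑_{k ≥ k₀} 25 |A| 24^(k-1) 2^k q^k` (from `A` backwards: `b_k` is one of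
at most `25 |A|` sites, each further site one of 24, labels `2^k`), where every chain from `C₀` has
`3k + 2 ≥ n + 1`, since `dist (A, C₀) ≥ n + 1`. As `48 q ≤ 1/2` this is at most
`3 |A| (48 q)^(n/3)`.
-/

set_option autoImplicit false

noncomputable section

open MeasureTheory

namespace T2H02.TT

/-- the square of radius `r` around `b` -/
def Nb (r : ℕ) (b : Pl) : Finset Pl :=
  Finset.Icc (b.1 - r) (b.1 + r) ×ˢ Finset.Icc (b.2 - r) (b.2 + r)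

variable {ι Tm X : Type} [DecidableEq ι] [DecidableEq Tm] [MeasurableSpace X]

/-- some term inside the square of radius one around `b` is not good -/
def Bad (S : Sys ι Tm X) (g : Tm → (ι → X) → Prop) (b : Pl) (ω : ι → X) : Prop :=
  ∃ τ ∈ S.tms (Nb 1 b), (∀ a ∈ S.bt τ, a ∈ Nb 1 b) ∧ ¬ g τ ω

open Classical in
/-- indicator -/
def ind (p : Prop) : ℝ := if p then 1 else 0

/-! ### package F -/

def S_F1 : Prop := ∀ (ι X : Type) [DecidableEq ι] [MeasurableSpace X] (μ : Measure X)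
  [IsProbabilityMeasure μ] (s : ι) (f : (ι → X) → ℝ), Measurable f → (∃ K, ∀ ω, |f ω| ≤ K) →
  ∫ ω, f ω ∂(Measure.infinitePi fun _ : ι => μ) =
    ∫ ω, (∫ x, f (Function.update ω s x) ∂μ) ∂(Measure.infinitePi fun _ : ι => μ)

def S_F2 : Prop := ∀ (ι X : Type) [DecidableEq ι] [MeasurableSpace X] (μ : Measure X)
  [IsProbabilityMeasure μ] (J : Finset ι) (f : (ι → X) → ℝ), Measurable f →
  (∃ K, ∀ ω, |f ω| ≤ K) →
  ∫ ω, f ω ∂(Measure.infinitePi fun _ : ι => μ) =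
    ∫ η, (∫ ξ, f (glue J ξ η) ∂(Measure.infinitePi fun _ : ι => μ))
      ∂(Measure.infinitePi fun _ : ι => μ)

/-- consistency, with a factor `h` which does not depend on the free variables of `Δ` -/
def S_F3 : Prop := ∀ (ι Tm X : Type) [DecidableEq ι] [DecidableEq Tm] [MeasurableSpace X]
  (S : Sys ι Tm X) (μ : Measure X) [IsProbabilityMeasure μ] (Δ Λ : Finset Pl), Δ ⊆ Λ →
  ∀ f : (ι → X) → ℝ, Measurable f → (∃ K, ∀ ω, |f ω| ≤ K) →
  ∀ h : (ι → X) → ℝ, Measurable h → (∃ K, ∀ ω, |h ω| ≤ K) → Sys.dep {i | i ∉ S.Fr Δ} h → ∀ η,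
    S.ker μ Λ (fun ω => h ω * f ω) η = S.ker μ Λ (fun ω => h ω * S.ker μ Δ f ω) η

def S_F4 : Prop := ∀ (ι Tm X : Type) [DecidableEq ι] [DecidableEq Tm] [MeasurableSpace X]
  (S : Sys ι Tm X) (μ : Measure X) [IsProbabilityMeasure μ] (Δ : Finset Pl) (T : Finset Tm),
  S.tms Δ ⊆ T →
  ∀ f : (ι → X) → ℝ, Measurable f → (∃ K, ∀ ω, |f ω| ≤ K) →
  ∀ h : (ι → X) → ℝ, Measurable h → (∃ K, ∀ ω, |h ω| ≤ K) → Sys.dep {i | i ∉ S.Fr Δ} h →
    S.ex μ T (fun ω => h ω * f ω) = S.ex μ T (fun ω => h ω * S.ker μ Δ f ω)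

def S_F5 : Prop := ∀ (ι Tm X : Type) [DecidableEq ι] [DecidableEq Tm] [MeasurableSpace X]
  (S : Sys ι Tm X) (μ : Measure X) [IsProbabilityMeasure μ] (Λ : Finset Pl),
  (∀ η, 0 < S.num μ Λ (fun _ => 1) η) ∧
  (∀ c η, S.ker μ Λ (fun _ => c) η = c) ∧
  (∀ f g : (ι → X) → ℝ, Measurable f → (∃ K, ∀ ω, |f ω| ≤ K) → Measurable g →
    (∃ K, ∀ ω, |g ω| ≤ K) → ∀ η,
    ((∀ ξ, f (glue (S.Fr Λ) ξ η) ≤ g (glue (S.Fr Λ) ξ η)) → S.ker μ Λ f η ≤ S.ker μ Λ g η) ∧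
    S.ker μ Λ (fun ω => f ω + g ω) η = S.ker μ Λ f η + S.ker μ Λ g η ∧
    (∀ c : ℝ, S.ker μ Λ (fun ω => c * f ω) η = c * S.ker μ Λ f η)) ∧
  (∀ f : (ι → X) → ℝ, Measurable f → (∃ K, ∀ ω, |f ω| ≤ K) → Measurable (S.ker μ Λ f)) ∧
  (∀ (K : ℝ) (f : (ι → X) → ℝ), Measurable f → (∀ ω, |f ω| ≤ K) → ∀ η, |S.ker μ Λ f η| ≤ K) ∧
  (∀ f : (ι → X) → ℝ, ∀ h : (ι → X) → ℝ, Sys.dep {i | i ∉ S.Fr Λ} h → ∀ η,
    S.ker μ Λ (fun ω => h ω * f ω) η = h η * S.ker μ Λ f η) ∧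
  (∀ (A : Set ι) (f : (ι → X) → ℝ), Sys.dep A f →
    Sys.dep {i | i ∉ S.Fr Λ ∧ (i ∈ A ∨ ∃ τ ∈ S.tms Λ, i ∈ S.sp τ)} (S.ker μ Λ f))

/-! ### package X -/

def S_X : Prop := ∀ (ι Tm X : Type) [DecidableEq ι] [DecidableEq Tm] [MeasurableSpace X]
  (S : Sys ι Tm X) (μ : Measure X) [IsProbabilityMeasure μ] (g : Tm → (ι → X) → Prop)
  (p δ q : ℝ),
  (∀ τ, MeasurableSet {ω | g τ ω}) →
  (∀ τ ω ω', (∀ i ∈ S.sp τ, ω i = ω' i) → (g τ ω ↔ g τ ω')) →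
  -- bad squares are rare, whatever the configuration outside
  (∀ b η, S.ker μ (Nb 2 b) (fun ω => ind (Bad S g b ω)) η ≤ p) →
  -- insensitivity to the configuration outside, if the configuration nearby is good
  (∀ b, ∀ Λ ⊆ Nb 2 b, b ∈ Λ → ∀ η η' : ι → X,
    (∀ i, (∀ a ∈ S.bl i, a ∈ Nb 2 b ∧ a ∉ Λ) → η i = η' i) →
    (∀ τ ∈ S.tms (Nb 1 b), (∀ a ∈ S.bt τ, a ∈ Nb 1 b ∧ a ∉ Λ) → g τ η) →
    ∀ F : (ι → X) → ℝ, Measurable F → (∀ ω, 0 ≤ F ω ∧ F ω ≤ 1) →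
      Sys.dep {i | ∀ a ∈ S.bl i, (a ∈ Nb 2 b ∧ a ∉ Λ) ∨ a = b} F →
      S.ker μ Λ F η ≤ S.ker μ Λ F η' + δ) →
  0 < p → 0 < δ → 0 < q → δ ≤ q ^ 2 → p ≤ q ^ 32 → 48 * q ≤ 1 / 2 →
  ∀ (A Λ : Finset Pl) (n : ℕ), (∀ a ∈ A, Nb n a ⊆ Λ) →
    ∀ f : (ι → X) → ℝ, Measurable f → (∀ ω, |f ω| ≤ 1) → Sys.dep {i | ∀ a ∈ S.bl i, a ∈ A} f →
      ∀ η η' : ι → X, |S.ker μ Λ f η - S.ker μ Λ f η'| ≤ 6 * A.card * (48 * q) ^ (n / 3)

end T2H02.TT
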