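import Pool.Agent.T2H02.TT.Lat
import Pool.Agent.T2H02.TT.Stm
import Pool.Agent.T2H02.TT.StmX

/-!
# Gauge and centre transformations, change of variables, linearised energies, coarse graining
-/

set_option autoImplicit false
set_option linter.unusedSectionVars false

noncomputable section

open MeasureTheory Matrix
open scoped Matrix.Norms.Frobenius

namespace T2H02.TT

/-- the central element `exp (2 π i m / N)` of `SU(N)` -/
def cen (N m : ℕ) : SU N := ⟨om N m • (1 : Mt N), by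
  rw [Matrix.mem_specialUnitaryGroup_iff, Matrix.mem_unitaryGroup_iff']
  constructor
  · rw [star_smul, star_one, smul_mul_smul_comm, one_mul]
    have : star (om N m) * om N m = 1 := by
      rw [Complex.star_def, ← Complex.normSq_eq_conj_mul_self, Complex.normSq_eq_norm_sq, om,
        show 2 * (Real.pi : ℂ) * Complex.I * m / N = ((2 * Real.pi * m / N : ℝ) : ℂ) * Complex.I by
          push_cast; ring, Complex.norm_exp_ofReal_mul_I]
      norm_num
    rw [this, one_smul]
  · rw [Matrix.det_smul, Matrix.det_one, mul_one, Fintype.card_fin]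
    rcases Nat.eq_zero_or_pos N with h | h
    · subst h; simp
    · rw [om, ← Complex.exp_nat_mul]
      have hN : (N : ℂ) ≠ 0 := by exact_mod_cast h.ne'
      rw [show (N : ℂ) * (2 * Real.pi * Complex.I * m / N) = (m : ℕ) * (2 * Real.pi * Complex.I) by
        field_simp]
      exact Complex.exp_nat_mul_two_pi_mul_I m⟩

/-- sites within distance one of `U` -/
def pls (U : Finset Pl) : Finset Pl := U.biUnion (Nb 1)

/-- sites within distance `R` of `B` -/
def bal (R : ℕ) (B : Finset Pl) : Finset Pl := B.biUnion (Nb R)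

/-- terms around `U`, not touching `U` -/
def rng (U : Finset Pl) : Finset Tm := (tml (pls U)).filter fun τ => ∀ a ∈ cor τ, a ∈ pls U ∧ a ∉ U

section

variable {N L : ℕ} [NeZero L]

/-- gauge transformation -/
def gau (g : Pt L → SU N) (X : Cf N L) : Cf N L := fun l => g l.1 * X l * (g (nx l.1 l.2))⁻¹

/-- multiplication of the plane links by central elements -/
def cmv (z : Pl → Fin 4 → ℕ) (X : Cf N L) : Cf N L := fun l =>
  if l.2 = 0 ∨ l.2 = 1 then cen N (z l.1.1 l.2) * X l else X l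

/-- torus links at the site `x` -/
def pt (X : Cf N L) (x : Pl) : Ph N L := fun y j => X ((x, y), if j = 0 then 2 else 3)

/-- the vacuum -/
def vc (P Q : SU N) : Cf N L := fun l =>
  if l.2 = 2 then vac P Q l.1.2 0 else if l.2 = 3 then vac P Q l.1.2 1 else 1

open Classical in
/-- multiply the variables in `J` -/
def stg (J : Set (Lk L)) (c : Lk L → Cf N L → SU N) (X : Cf N L) : Cf N L := fun l =>
  if l ∈ J then c l X * X l else X l

/-- the factor for the torus links: frame of the neighbour, transported -/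
def cT (P Q : SU N) (E : Mt N → SU N) (h : Lk L → Mt N) (l : Lk L) (X : Cf N L) : SU N :=
  E (Adj (X (l.1, 0)) (fr P Q (pt X (l.1.1 + (1, 0))) l.1.2 (h l)))

/-- the factor for the plane links -/
def cU (P Q : SU N) (E : Mt N → SU N) (h : Lk L → Mt N) (l : Lk L) (X : Cf N L) : SU N :=
  E (fr P Q (pt X l.1.1) l.1.2 (h l))

/-- torus links at sites with even, resp. odd, first coordinate; plane links -/
def Jev (L : ℕ) : Set (Lk L) := {l | (l.2 = 2 ∨ l.2 = 3) ∧ Even l.1.1.1}
/-- see `Jev` -/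
def Jod (L : ℕ) : Set (Lk L) := {l | (l.2 = 2 ∨ l.2 = 3) ∧ ¬ Even l.1.1.1}
/-- see `Jev` -/
def Jpl (L : ℕ) : Set (Lk L) := {l | l.2 = 0 ∨ l.2 = 1}

/-- the change of variables -/
def TM (P Q : SU N) (E : Mt N → SU N) (h : Lk L → Mt N) (X : Cf N L) : Cf N L :=
  stg (Jpl L) (cU P Q E h) (stg (Jod L) (cT P Q E h) (stg (Jev L) (cT P Q E h) X))

/-- linearised plaquette -/
def cu (P Q : SU N) (a : Lk L → Mt N) (p : Pt L) (i j : Fin 4) : Mt N :=
  a (p, i) + Adj (vc P Q (p, i)) (a (nx p i, j)) - a (p, j) - Adj (vc P Q (p, j)) (a (nx p j, i))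

/-- real inner product of matrices -/
def ip (A B : Mt N) : ℝ := (Aᴴ * B).trace.re

/-- bilinear form of a term -/
def bf (P Q : SU N) (τ : Tm) (a b : Lk L → Mt N) : ℝ := ∑ y : Tor L,
  if τ.2 = 0 then ip (cu P Q a (τ.1, y) 2 3) (cu P Q b (τ.1, y) 2 3)
  else if τ.2 = 1 then ip (cu P Q a (τ.1, y) 0 2) (cu P Q b (τ.1, y) 0 2) +
    ip (cu P Q a (τ.1, y) 0 3) (cu P Q b (τ.1, y) 0 3)
  else if τ.2 = 2 then ip (cu P Q a (τ.1, y) 1 2) (cu P Q b (τ.1, y) 1 2) +
    ip (cu P Q a (τ.1, y) 1 3) (cu P Q b (τ.1, y) 1 3)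
  else ip (cu P Q a (τ.1, y) 0 1) (cu P Q b (τ.1, y) 0 1)

/-- energy of a term without the minimum over the centre -/
def en1 (k : ℕ) (X : Cf N L) (τ : Tm) : ℝ :=
  if τ.2 = 0 then eV k X τ.1 else if τ.2 = 1 then eK X τ.1 0 else if τ.2 = 2 then eK X τ.1 1 else
    eP X 1 τ.1

/-- boundary links of `Λ`: links not touching `Λ` of the terms touching `Λ` -/
def bdl (L : ℕ) [NeZero L] (Λ : Finset Pl) : Finset (Lk L) := ((tml Λ).biUnion spt) \ Frl L Λ

end

/-! ### coarse graining -/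

/-- block of a site -/
def blk (M : ℕ) (a : Pl) : Pl := (a.1 / M, a.2 / M)

/-- sites of a set of blocks -/
def sit (M : ℕ) (Λ : Finset Pl) : Finset Pl := Λ.biUnion fun b =>
  Finset.Ico (M * b.1) (M * b.1 + M) ×ˢ Finset.Ico (M * b.2) (M * b.2 + M)

lemma mem_sit (M : ℕ) (hM : 0 < M) (Λ : Finset Pl) (a : Pl) : a ∈ sit M Λ ↔ blk M a ∈ Λ := by
  have hM' : (0 : ℤ) < M := by exact_mod_cast hM
  have key : ∀ u v : ℤ, (M * v ≤ u ∧ u < M * v + M) ↔ u / M = v := by
    intro u v
    constructor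
    · rintro ⟨h1, h2⟩
      apply le_antisymm
      · rw [← Int.lt_add_one_iff]
        refine (Int.ediv_lt_iff_lt_mul hM').2 ?_
        nlinarith
      · refine (Int.le_ediv_iff_mul_le hM').2 ?_
        nlinarith
    · rintro rfl
      have h1 := Int.emod_nonneg u hM'.ne'
      have h2 := Int.emod_lt_of_pos u hM'
      have h3 := Int.emod_add_mul_ediv u M
      constructor <;> linarith
  unfold sit blk
  rw [Finset.mem_biUnion]
  constructor
  · rintro ⟨b, hb, h⟩
    rw [Finset.mem_product, Finset.mem_Ico, Finset.mem_Ico] at h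
    rw [(key _ _).1 h.1, (key _ _).1 h.2]
    exact hb
  · intro h
    refine ⟨_, h, ?_⟩
    rw [Finset.mem_product, Finset.mem_Ico, Finset.mem_Ico]
    exact ⟨(key _ _).2 rfl, (key _ _).2 rfl⟩

lemma blk_near (M : ℕ) (hM : 0 < M) (a b : Pl) (h : near 1 a b) : near 1 (blk M a) (blk M b) := by
  have hM' : (0 : ℤ) < M := by exact_mod_cast hM
  have key : ∀ u v : ℤ, |u - v| ≤ 1 → |u / M - v / M| ≤ 1 := by
    intro u v h
    rw [abs_le] at h ⊢
    have a1 := Int.emod_nonneg u hM'.ne'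
    have a2 := Int.emod_lt_of_pos u hM'
    have a3 := Int.emod_add_mul_ediv u M
    have b1 := Int.emod_nonneg v hM'.ne'
    have b2 := Int.emod_lt_of_pos v hM'
    have b3 := Int.emod_add_mul_ediv v M
    constructor
    · by_contra hc
      push Not at hc
      have : u / M - v / M ≤ -2 := by omega
      nlinarith
    · by_contra hc
      push Not at hc
      have : 2 ≤ u / M - v / M := by omega
      nlinarith
  exact ⟨key _ _ h.1, key _ _ h.2⟩

/-- the same system on the lattice of blocks -/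
def coa {ι Tm X : Type} [DecidableEq ι] [DecidableEq Tm] [MeasurableSpace X] (S : Sys ι Tm X)
    (M : ℕ) (hM : 0 < M) : Sys ι Tm X where
  bl := fun i => (S.bl i).image (blk M)
  bt := fun τ => (S.bt τ).image (blk M)
  sp := S.sp
  w := S.w
  Fr := fun Λ => S.Fr (sit M Λ)
  tms := fun Λ => S.tms (sit M Λ)
  mem_Fr := fun Λ i => by
    rw [S.mem_Fr]
    constructor
    · rintro ⟨a, ha, h⟩
      exact ⟨blk M a, Finset.mem_image_of_mem _ ha, (mem_sit M hM Λ a).1 h⟩
    · rintro ⟨a, ha, h⟩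
      obtain ⟨c, hc, rfl⟩ := Finset.mem_image.1 ha
      exact ⟨c, hc, (mem_sit M hM Λ c).2 h⟩
  mem_tms := fun Λ τ => by
    rw [S.mem_tms]
    constructor
    · rintro ⟨a, ha, h⟩
      exact ⟨blk M a, Finset.mem_image_of_mem _ ha, (mem_sit M hM Λ a).1 h⟩
    · rintro ⟨a, ha, h⟩
      obtain ⟨c, hc, rfl⟩ := Finset.mem_image.1 ha
      exact ⟨c, hc, (mem_sit M hM Λ c).2 h⟩
  bt_iff := fun τ a => by
    simp only [Finset.mem_image]
    constructor
    · rintro ⟨c, hc, rfl⟩
      obtain ⟨i, hi, h⟩ := (S.bt_iff τ c).1 hc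
      exact ⟨i, hi, c, h, rfl⟩
    · rintro ⟨i, hi, c, h, rfl⟩
      exact ⟨c, (S.bt_iff τ c).2 ⟨i, hi, h⟩, rfl⟩
  diam_bt := fun τ a ha b hb => by
    obtain ⟨c, hc, rfl⟩ := Finset.mem_image.1 ha
    obtain ⟨d, hd, rfl⟩ := Finset.mem_image.1 hb
    exact blk_near M hM c d (S.diam_bt τ c hc d hd)
  diam_bl := fun τ a ha b hb => by
    obtain ⟨c, hc, rfl⟩ := Finset.mem_image.1 ha
    obtain ⟨d, hd, rfl⟩ := Finset.mem_image.1 hb
    exact blk_near M hM c d (S.diam_bl τ c hc d hd)
  bl_ne := fun i => (S.bl_ne i).image _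
  w_pos := S.w_pos
  w_le := S.w_le
  w_meas := S.w_meas
  w_loc := S.w_loc

lemma coa_ker {ι Tm X : Type} [DecidableEq ι] [DecidableEq Tm] [MeasurableSpace X] (S : Sys ι Tm X)
    (M : ℕ) (hM : 0 < M) (μ : Measure X) (Λ : Finset Pl) (f : (ι → X) → ℝ) (η : ι → X) :
    (coa S M hM).ker μ Λ f η = S.ker μ (sit M Λ) f η := rfl

end T2H02.TT
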