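import Pool.Agent.T2H02.TT.Sys

/-!
# Twisted lattice Yang-Mills theory on `ℤ² × (ℤ/L)²`: basic definitions
-/

set_option autoImplicit false

noncomputable section

open MeasureTheory Matrix
open scoped Matrix.Norms.Frobenius

namespace T2H02.TT

/-- complex matrices -/
abbrev Mt (N : ℕ) := Matrix (Fin N) (Fin N) ℂ

/-- the group `SU(N)` -/
abbrev SU (N : ℕ) := Matrix.specialUnitaryGroup (Fin N) ℂ

/-- `exp (2 π i k / N)` -/
def om (N k : ℕ) : ℂ := Complex.exp (2 * Real.pi * Complex.I * k / N)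

/-- the torus `(ℤ/L)²` -/
abbrev Tor (L : ℕ) := ZMod L × ZMod L

/-- torus neighbours: direction `0` or `1` -/
def tsh {L : ℕ} (y : Tor L) (j : Fin 2) : Tor L := if j = 0 then (y.1 + 1, y.2) else (y.1, y.2 + 1)

/-- the twist: `exp (2 π i k / N)` at the corner, `1` elsewhere -/
def tw (N k : ℕ) {L : ℕ} (y : Tor L) : ℂ := if y = (-1, -1) then om N k else 1

/-- configurations of the torus links (at one site of the plane) -/
abbrev Ph (N L : ℕ) := Tor L → Fin 2 → SU N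

section torus

variable {N L : ℕ} [NeZero L]

/-- energy of the twisted torus plaquettes -/
def VV (k : ℕ) (φ : Ph N L) : ℝ :=
  ∑ y : Tor L, ‖(φ y 0 : Mt N) * (φ (tsh y 0) 1 : Mt N) -
    tw N k y • ((φ y 1 : Mt N) * (φ (tsh y 1) 0 : Mt N))‖ ^ 2 / 2

/-- gauge transformation of torus links -/
def act (g : Tor L → SU N) (φ : Ph N L) : Ph N L := fun y j => g y * φ y j * (g (tsh y j))⁻¹

/-- squared distance of two torus configurations -/
def dst (φ ψ : Ph N L) : ℝ := ∑ y : Tor L, ∑ j : Fin 2, ‖(φ y j : Mt N) - (ψ y j : Mt N)‖ ^ 2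

/-- the vacuum built from `P`, `Q` -/
def vac (P Q : SU N) : Ph N L := fun y j =>
  if j = 0 then (if y.1 = -1 then P else 1) else (if y.2 = -1 then Q else 1)

/-- `g M g⁻¹` -/
def Adj (g : SU N) (M : Mt N) : Mt N := (g : Mt N) * M * ((g⁻¹ : SU N) : Mt N)

/-- covariant gradient of `lam` in the background `φ` -/
def dd (φ : Ph N L) (lam : Tor L → Mt N) (y : Tor L) (j : Fin 2) : Mt N :=
  lam y - Adj (φ y j) (lam (tsh y j))

/-- covariant curl in the background `φ` -/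
def crl (φ : Ph N L) (a : Tor L → Fin 2 → Mt N) (y : Tor L) : Mt N :=
  a y 0 + Adj (φ y 0) (a (tsh y 0) 1) - a y 1 - Adj (φ y 1) (a (tsh y 1) 0)

/-- the Lie algebra `su(N)` -/
def su (N : ℕ) : Set (Mt N) := {M | Mᴴ = -M ∧ M.trace = 0}

/-- the orthogonal projection on `su(N)` -/
def pr (M : Mt N) : Mt N := (1 / 2 : ℂ) • (M - Mᴴ) - ((1 / 2 : ℂ) * (M - Mᴴ).trace / N) • (1 : Mt N)

/-- holonomy of `n` steps in the direction `j` from `y` -/
def hol (φ : Ph N L) (j : Fin 2) : ℕ → Tor L → SU N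
  | 0, _ => 1
  | n + 1, y => φ y j * hol φ j n (tsh y j)

/-- the frame at `y` : equal to the identity for the vacuum and equivariant -/
def fr (P Q : SU N) (φ : Ph N L) (y : Tor L) (M : Mt N) : Mt N :=
  (1 / N : ℂ) • ∑ a : Fin N, ∑ b : Fin N,
    (M * ((P : Mt N) ^ (a : ℕ) * (Q : Mt N) ^ (b : ℕ))ᴴ).trace •
      ((hol φ 0 L y : Mt N) ^ (a : ℕ) * (hol φ 1 L y : Mt N) ^ (b : ℕ))

end torus

/-! ### the lattice `ℤ² × (ℤ/L)²` -/

/-- points -/
abbrev Pt (L : ℕ) := Pl × Tor L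

/-- links -/
abbrev Lk (L : ℕ) := Pt L × Fin 4

/-- configurations -/
abbrev Cf (N L : ℕ) := Lk L → SU N

/-- unit vectors of the plane -/
def pe (i : Fin 4) : Pl := if i = 0 then (1, 0) else if i = 1 then (0, 1) else (0, 0)

/-- next point in the direction `i` -/
def nx {L : ℕ} (p : Pt L) (i : Fin 4) : Pt L :=
  (p.1 + pe i, if i = 2 then tsh p.2 0 else if i = 3 then tsh p.2 1 else p.2)

section lattice

variable {N L : ℕ} [NeZero L]

/-- `X_i(p) X_j(p+i) - z X_j(p) X_i(p+j)` -/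
def df (X : Cf N L) (z : ℂ) (p : Pt L) (i j : Fin 4) : Mt N :=
  (X (p, i) : Mt N) * (X (nx p i, j) : Mt N) - z • ((X (p, j) : Mt N) * (X (nx p j, i) : Mt N))

/-- torus energy at `x` -/
def eV (k : ℕ) (X : Cf N L) (x : Pl) : ℝ := ∑ y : Tor L, ‖df X (tw N k y) (x, y) 2 3‖ ^ 2 / 2

/-- energy of the mixed plaquettes from `x` in the plane direction `m` (`m = 0, 1`) -/
def eK (X : Cf N L) (x : Pl) (m : Fin 4) : ℝ :=
  ∑ y : Tor L, (‖df X 1 (x, y) m 2‖ ^ 2 / 2 + ‖df X 1 (x, y) m 3‖ ^ 2 / 2)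

/-- energy of the plane plaquettes at `x`, multiplied by the central element `z` -/
def eP (X : Cf N L) (z : ℂ) (x : Pl) : ℝ := ∑ y : Tor L, ‖df X z (x, y) 0 1‖ ^ 2 / 2

/-- terms: a site and a kind (`0` torus, `1`, `2` mixed, `3` plane) -/
abbrev Tm := Pl × Fin 4

/-- corners of a term -/
def cor (τ : Tm) : Finset Pl :=
  if τ.2 = 0 then {τ.1} else if τ.2 = 1 then {τ.1, τ.1 + (1, 0)} else
    if τ.2 = 2 then {τ.1, τ.1 + (0, 1)} else {τ.1, τ.1 + (1, 0), τ.1 + (0, 1), τ.1 + (1, 1)}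

/-- energy of a term (minimum over the centre for plane terms) -/
def en (k : ℕ) (X : Cf N L) (τ : Tm) : ℝ :=
  if τ.2 = 0 then eV k X τ.1 else if τ.2 = 1 then eK X τ.1 0 else if τ.2 = 2 then eK X τ.1 1 else
    ⨅ m : Fin N, eP X (om N m) τ.1

/-- weight of a term (average over the centre for plane terms) -/
def wt (k : ℕ) (β : ℝ) (τ : Tm) (X : Cf N L) : ℝ :=
  if τ.2 = 3 then (∑ m : Fin N, Real.exp (-β * eP X (om N m) τ.1)) / N
  else Real.exp (-β * en k X τ)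

/-- plane sites touched by a link -/
def st (l : Lk L) : Finset Pl := {l.1.1, l.1.1 + pe l.2}

/-- links of a term -/
def spt (τ : Tm) : Finset (Lk L) :=
  Finset.univ.biUnion fun y : Tor L =>
    if τ.2 = 0 then {((τ.1, y), 2), ((τ.1, y), 3)}
    else if τ.2 = 1 then {((τ.1, y), 0), ((τ.1, y), 2), ((τ.1, y), 3), ((τ.1 + (1, 0), y), 2),
      ((τ.1 + (1, 0), y), 3)}
    else if τ.2 = 2 then {((τ.1, y), 1), ((τ.1, y), 2), ((τ.1, y), 3), ((τ.1 + (0, 1), y), 2),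
      ((τ.1 + (0, 1), y), 3)}
    else {((τ.1, y), 0), ((τ.1, y), 1), ((τ.1 + (1, 0), y), 1), ((τ.1 + (0, 1), y), 0)}

/-- links touching `Λ` -/
def Frl (L : ℕ) [NeZero L] (Λ : Finset Pl) : Finset (Lk L) :=
  (((Λ ∪ Λ.image (fun x => x - (1, 0)) ∪ Λ.image (fun x => x - (0, 1))) ×ˢ Finset.univ) ×ˢ
    Finset.univ).filter fun l => ∃ a ∈ st l, a ∈ Λ

/-- terms touching `Λ` -/
def tml (Λ : Finset Pl) : Finset Tm :=
  ((Λ ∪ Λ.image (fun x => x - (1, 0)) ∪ Λ.image (fun x => x - (0, 1)) ∪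
    Λ.image (fun x => x - (1, 1))) ×ˢ Finset.univ).filter fun τ => ∃ a ∈ cor τ, a ∈ Λ

end lattice

end T2H02.TT
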