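import Pool.Agent.T2H02.TT.Def2

/-!
# Statements of the lattice packages (J JM K G1 G2 G H I1 I LL M0 M1 M Z1 Z O OA)

Package `Y` proves `theorem pY : S_Y` (from other statements as hypotheses) in the file
`Pool/Agent/T2H02/TT/Y.lean`. Statements must not be changed. The proofs are in the comments.
Notation: `V_x = en (x,0)`, `K_{x,m} = en (x, m+1)` (`m = 0, 1`), `P_x = en (x,3)`; all are `≥ 0`.
-/

set_option autoImplicit false

noncomputable section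

open MeasureTheory Matrix
open scoped Matrix.Norms.Frobenius

namespace T2H02.TT

/-- the product of the Haar measures -/
abbrev pm (N L : ℕ) : Measure (Cf N L) := Measure.infinitePi fun _ : Lk L => hm N

/-! ### package J : plane links near the centre, invariances

J: (uses D2) `∑_y ∑_j ‖U y ψ y j - φ y j U (tsh y j)‖² = dst (act U ψ) φ`, and `dst` is invariant
under `act U`, so `dst (act U vac) vac ≤ 3 (dst ψ vac + dst (act U ψ) φ + dst φ vac)`; apply D2.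
JI: direct computations. `df (gau g X) z p i j = g p * df X z p i j * (g (p + i + j))⁻¹` (for the
torus directions note `nx (nx p i) j = nx (nx p j) i`), Frobenius norms are invariant.
`cmv z`: in mixed plaquettes the central factor of `((x,y),m)` and of `((x, tsh y j), m)` is the same
`z x m`; in plane plaquettes `eP (cmv z X) ζ x = eP X (ζ * c) x` with `c` a power of `om N 1`, and
`m ↦ om N m` is periodic of period `N`, so sum and infimum over `m : Fin N` do not change.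
`TM`: the factors are equivariant by E2 (`pt (gau g X) x = act (g (x, ·)) (pt X x)`) and
`Adj (g h) = Adj g ∘ Adj h`; `Adj (cen) = id` and `cmv` commutes with left multiplication. -/

def S_J : Prop := ∀ (N k L : ℕ) [NeZero L], 2 ≤ N → Nat.Coprime k N → ∀ P Q : SU N, PQ k P Q →
  ∃ C : ℝ, 0 < C ∧ ∀ (φ ψ : Ph N L) (U : Tor L → SU N) (e : ℝ), dst φ (vac P Q) ≤ e →
    dst ψ (vac P Q) ≤ e →
    ∑ y, ∑ j, ‖(U y : Mt N) * (ψ y j : Mt N) - (φ y j : Mt N) * (U (tsh y j) : Mt N)‖ ^ 2 ≤ e →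
    ∃ m : Fin N, ∑ y, ‖(U y : Mt N) - om N m • (1 : Mt N)‖ ^ 2 ≤ C * e

def S_JI : Prop := ∀ (N k L : ℕ) [NeZero L], 2 ≤ N →
  ∀ (g : Pt L → SU N) (z : Pl → Fin 4 → ℕ) (X : Cf N L),
  (∀ τ, en k (gau g X) τ = en k X τ ∧ en k (cmv z X) τ = en k X τ) ∧
  (∀ β τ, wt k β τ (gau g X) = wt k β τ X ∧ wt k β τ (cmv z X) = wt k β τ X) ∧
  (∀ (P Q : SU N) (E : Mt N → SU N) (h : Lk L → Mt N),
    (∀ (g : SU N) (M : Mt N), E (Adj g M) = g * E M * g⁻¹) →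
    TM P Q E h (gau g X) = gau g (TM P Q E h X) ∧ TM P Q E h (cmv z X) = cmv z (TM P Q E h X))

/-! ### package JM : invariance of the product measure

First part: for every link `l` the map multiplies `X l` from the left and the right by constants:
for `l ∈ J` use the left and right invariance of Haar measure (compact group: `hm` is also right
invariant) one variable at a time (F1), for `l ∉ J` nothing is integrated. Second part: it is enough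
to show `∫ Φ (stg J' c (glue J ξ η)) dξ = ∫ Φ (glue J ξ η) dξ` for one stage, where the factors
`c l` (`l ∈ J'`) do not depend on the variables in `J'` (`cT` at an even site uses torus links of an
odd site and plane links, and conversely; `cU` uses only torus links) and are `1` for `l ∉ J`
(`fr .. 0 = 0`, `Adj g 0 = 0`, `E 0 = 1`): then the links of `J' ∩ J` can be updated one at a time
and each single update preserves the measure by F1 and left invariance. Apply this three times with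
`Φ`, `Φ ∘ stg ..`. Measurability: everything is continuous (E3, third part; `E` continuous), the
topology of `Cf N L` is second countable. -/

def S_JM : Prop := ∀ (N L : ℕ) [NeZero L], 2 ≤ N → ∀ (J : Finset (Lk L)) (Φ : Cf N L → ℝ),
  Measurable Φ → (∃ K, ∀ X, |Φ X| ≤ K) → ∀ η : Cf N L,
  (∀ (g : Pt L → SU N) (z : Pl → Fin 4 → ℕ),
    ∫ ξ, Φ (gau g (cmv z (glue J ξ η))) ∂(pm N L) =
      ∫ ξ, Φ (glue J ξ (gau g (cmv z η))) ∂(pm N L)) ∧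
  (∀ (P Q : SU N) (E : Mt N → SU N) (h : Lk L → Mt N), Continuous E → E 0 = 1 →
    (∀ l, l ∉ J → h l = 0) →
    ∫ ξ, Φ (TM P Q E h (glue J ξ η)) ∂(pm N L) = ∫ ξ, Φ (glue J ξ η) ∂(pm N L))

/-! ### package K : the change of variables near the vacuum

`fr`, `Adj`, `pr` are linear in `M`, `fr P Q (vac P Q) y M = M` (E1) and `fr` is Lipschitz (E3), so all
frames used are the identity up to `C ρ`: for a torus link at an even site `x` the frame of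
`pt X (x + e_0)` and the link `X ((x,y),0)` are those of `X`; for an odd site the neighbour has been
updated by factors `E M`, `‖M‖ ≤ C ρ`, `‖E M - 1‖ ≤ C ρ`; for plane links the torus links at `x` have
been updated in the same way. So the argument of `E` is `h l + O(ρ²)` and `E M = 1 + pr M + O(ρ²)`,
`pr (h l) = h l` (E4). -/

def S_K : Prop := ∀ (N k L : ℕ) [NeZero L], 2 ≤ N → Nat.Coprime k N → ∀ P Q : SU N, PQ k P Q →
  ∀ (E : Mt N → SU N) (C₀ : ℝ), Continuous E → E 0 = 1 →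
    (∀ M : Mt N, ‖(E M : Mt N) - 1 - pr M‖ ≤ C₀ * ‖M‖ ^ 2) →
  ∃ C : ℝ, 0 < C ∧ ∀ (h : Lk L → Mt N) (ρ : ℝ) (X : Cf N L), 0 ≤ ρ → ρ ≤ 1 →
    (∀ l, h l ∈ su N ∧ ‖h l‖ ≤ ρ) →
    (∀ l, h l = 0 → TM P Q E h X l = X l) ∧
    (∀ l : Lk L, (∀ y j, ‖(pt X l.1.1 y j : Mt N) - (vac P Q y j : Mt N)‖ ≤ ρ) →
      (l.2 = 2 ∨ l.2 = 3 → ‖(X (l.1, 0) : Mt N) - 1‖ ≤ ρ ∧
        ∀ y j, ‖(pt X (l.1.1 + (1, 0)) y j : Mt N) - (vac P Q y j : Mt N)‖ ≤ ρ) →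
      ‖(TM P Q E h X l : Mt N) - (1 + h l) * (X l : Mt N)‖ ≤ C * ρ ^ 2)

/-! ### package G1 : a competitor (uses A1 B0 D1 D2 J JI)

Let `g_x : Tor L → SU N` be given by D1 for `φ = pt η x` if `x ∉ U`, `g_x = 1` if `x ∈ U`. `X` : torus
links of `x ∈ U` equal to the vacuum; plane links `((x,y),m)` with `x ∈ U` or `x + e_m ∈ U` equal to
`(g_x y)⁻¹ g_{x+e_m} y`; all other links as in `η`. After the gauge transformation `g` (JI):
torus links at `x` have distance² `≤ C V_x(η)` from the vacuum (`0` if `x ∈ U`), plane links touching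
`U` are `1`, and a plane link `(x,m)` with both ends outside `U` is (J) within distance²
`C (V_x + V_{x+e_m} + K_{x,m})(η)` of a central element (the same for all `y`). Hence for
`x ∈ U`: `V_x(X) = 0` (B0); `K_{x,m}(X) ≤ C (V_x + V_{x+e_m})(η)` with only the terms of sites outside
`U`; `P_x(X) ≤ C` times the sum of the `V`, `K` of sites/links of the plaquette outside `U` (choose the
centre element equal to the product of those of the links). All these terms of `η` belong to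
`rng U`, and every term is used a bounded number of times. -/

def S_G1 : Prop := ∀ (N k L : ℕ) [NeZero L], 2 ≤ N → Nat.Coprime k N → ∃ C : ℝ, 0 < C ∧
  ∀ (U : Finset Pl) (η : Cf N L), ∃ X : Cf N L, (∀ l, l ∉ Frl L U → X l = η l) ∧
    ∑ τ ∈ tml U, en k X τ ≤ C * ∑ τ ∈ rng U, en k η τ

/-! ### package G2 : volume of balls, Lipschitz bounds

G2: the entries of `g ∈ SU N` lie in the unit disc; divide the set of matrices into the cells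
`{⌊Re M_ij / s⌋ = n_ij, ⌊Im M_ij / s⌋ = n'_ij}`, `s = r / (2 N)`: at most `(2/s + 3)^(2 N²)` cells meet
`SU N`, each is contained in the ball of radius `r` around any of its points, and all balls
`{g | ‖g - g₀‖ ≤ r}` have the same measure by invariance. G3: `‖A B - A' B'‖ ≤ ...`, products of
unitary matrices; `‖a + b‖² ≤ 2‖a‖² + 2‖b‖²`; the infimum over the centre is a minimum. -/

def S_G2 : Prop := ∀ N : ℕ, 2 ≤ N → ∃ (c : ℝ) (D : ℕ), 0 < c ∧ c ≤ 1 ∧ ∀ (r : ℝ) (g₀ : SU N), 0 < r →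
  r ≤ 1 → c * r ^ D ≤ (hm N).real {g : SU N | ‖(g : Mt N) - (g₀ : Mt N)‖ ≤ r}

def S_G3 : Prop := ∀ (N k L : ℕ) [NeZero L], 2 ≤ N → ∃ C : ℝ, 0 < C ∧
  (∀ (X Y : Cf N L) (τ : Tm) (r : ℝ), 0 ≤ r →
    (∀ l ∈ (spt τ : Finset (Lk L)), ‖(X l : Mt N) - (Y l : Mt N)‖ ≤ r) →
    en k Y τ ≤ 2 * en k X τ + C * r ^ 2) ∧
  (∀ (X : Cf N L) (τ : Tm), en k X τ ≤ C) ∧
  (∀ (β : ℝ) (X : Cf N L) (τ : Tm), 0 ≤ β →
    Real.exp (-β * en k X τ) / N ≤ wt k β τ X ∧ wt k β τ X ≤ Real.exp (-β * en k X τ))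

/-! ### package G : the energy estimate (uses F5 G1 G2 G3)

Let `X⁰` be the competitor of G1 for `η`, `E₀ = ∑_{rng U} en η`, `r = β^(-1/2)`. Integrating only over
the balls of radius `r` around `X⁰ l`, `l ∈ Fr U`:
`num U 1 η ≥ (c r^D)^(#Fr U) ∏_{τ ∈ tml U} exp (-β (2 en X⁰ τ + C r²)) / N
 ≥ (C' β)^(-D' #U) exp (-2 C β E₀)` (note `#Fr U, #tml U ≤ C #U`), whereas the numerator of the
conditional probability is at most `exp (-β (2 C E₀ + t))`. (The terms of `rng U` do not depend on the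
variables in `Fr U`. For `U = ∅` the two sides are `≤ exp (-β t)` resp. the sum is empty: check
`C * 0 + t ≤ 0` forces `t = 0`.) -/

def S_G : Prop := ∀ (N k L : ℕ) [NeZero L] (hN : 2 ≤ N), Nat.Coprime k N → ∃ (C : ℝ) (D : ℕ), 1 ≤ C ∧
  ∀ (β : ℝ) (hβ : 0 ≤ β), 1 ≤ β → ∀ (U : Finset Pl) (t : ℝ), 0 ≤ t → ∀ η : Cf N L,
    (sysS N L k β hN hβ).ker (hm N) U (fun X =>
      ind (C * ∑ τ ∈ rng U, en k X τ + t ≤ ∑ τ ∈ tml U, en k X τ)) η ≤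
      Real.exp (-β * t) * (C * β) ^ (D * U.card)

/-! ### package H : small energies inside (uses F3 F5 G G3)

`U_r = bal r B ∩ Λ`, `E_r = ∑_{tml U_r} en X`, `0 ≤ r ≤ R + 1`. For `0 ≤ r ≤ R`, by G for `U_r` and F3
(`Δ = U_r ⊆ Λ`): except with probability `exp (-β t) (C β)^(D #bal (R+1) B)`,
`E_r < C ∑_{rng U_r} en X + t`. A term of `rng U_r` has its corners in `bal (r+1) B`; if it touches `Λ`
it touches `U_(r+1)` and not `U_r`; otherwise its energy is at most `e` (it does not depend on the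
free variables). So `E_r ≤ C (E_(r+1) - E_r + 4 #bal (R+1) B * e) + t`, i.e.
`E_r ≤ θ E_(r+1) + 4 # e + t`, `θ = C/(1+C)`; iterate, `E_(R+1) ≤ C' #bal (R+1) B` by G3. -/

def S_H : Prop := ∀ (N k L : ℕ) [NeZero L] (hN : 2 ≤ N), Nat.Coprime k N →
  ∃ (C θ : ℝ) (D : ℕ), 1 ≤ C ∧ 0 < θ ∧ θ < 1 ∧ ∀ (β : ℝ) (hβ : 0 ≤ β), 1 ≤ β →
  ∀ (Λ B : Finset Pl) (R : ℕ) (e t : ℝ), 0 ≤ e → 0 ≤ t → ∀ η : Cf N L,
    (∀ τ : Tm, (∀ a ∈ cor τ, a ∈ bal (R + 1) B ∧ a ∉ Λ) → en k η τ ≤ e) →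
    (sysS N L k β hN hβ).ker (hm N) Λ (fun X =>
      ind (θ ^ R * C * (bal (R + 1) B).card + C * (bal (R + 1) B).card * e + C * t ≤
        ∑ τ ∈ tml (B ∩ Λ), en k X τ)) η ≤
      (R + 1) * (Real.exp (-β * t) * (C * β) ^ (D * (bal (R + 1) B).card))

/-! ### packages I1, I2 : the linear problem (uses B0 C1 C2; purely linear algebra)

I1. `cu` is linear in `a` and `bf τ a a = ∑ ‖cu a‖² ≥ 0`. Existence: in the finite-dimensional real
inner product space of families of matrices indexed by the plaquettes of the terms in `tml Λ`,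
let `W` be the image of `{a : a l ∈ su N, a = 0 off Frl Λ}` under `a ↦ cu a`, and let `cu a₀` be the
orthogonal projection on `W` of `cu kk'`, `kk' = kk` off `Frl Λ` and `0` on `Frl Λ`; `h = kk' - a₀`
satisfies the first order condition. Gauge fixing: if `lam x : Tor L → Mt N`, `lam x y ∈ su N`,
`lam x = 0` for `x ∉ Λ`, then replacing `h l` by `h l - (lam p - Adj (vc l) (lam (nx p i)))`,
`l = (p, i)`, does not change any `cu h` (the vacuum is flat, B0) nor the boundary values. For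
`x ∈ Λ` let `lam x` be given by C2 for `a y j = h ((x,y), j+2)`. The new `h` satisfies
`∑_{torus links l at x} ‖h l‖² ≤ C bf (x,0) h h` for `x ∈ Λ`; and for the plane links at `(x,m)`
in `Frl Λ`: `cu h (x,y) m (j+2) = dd vac (h ((x,·),m)) y j + h ((x+e_m,y),j+2) - h ((x,y),j+2)`,
so by C1 `∑_y ‖h ((x,y),m)‖² ≤ C (bf (x,m+1) h h + torus links at x and x + e_m)`.
I2. Write `e_r = ∑_{tml (Λ ∩ bal r B)} bf h h`, `|kk|² = ∑_{bdl Λ} ‖kk‖²`. By the first order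
condition `∑_{tml Λ} bf h h ≤ ∑_{tml Λ} bf h' h'` for every `h'` equal to `kk` off `Frl Λ`
(`h' l ∈ su N`). `h' = kk` off `Frl Λ` and `0` on `Frl Λ` gives `∑_{tml Λ} bf h h ≤ C |kk|²`, then the
bound on `‖h l‖` from I1. For `r + 1 ≤ R` take `h' = 0` on `Frl (Λ ∩ bal r B)`, `h` elsewhere: terms
not touching `Λ ∩ bal r B` are unchanged, the others are `≤ C ∑ ‖h l‖²` over their links `l` not
touching `Λ ∩ bal r B`; such `l` has its sites in `bal (r+1) B`: if `l ∉ Frl Λ` then `h l = 0`;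
otherwise by I1 `‖h l‖² ≤ C` times the sum of `bf h h` over the `τ ∈ tml Λ` with `cor τ ⊆ st l` (the
boundary values vanish there), and these `τ` touch `Λ ∩ bal (r+1) B` and not `Λ ∩ bal r B`. So
`e_r ≤ C (e_(r+1) - e_r)`, `e_0 ≤ θ^(R-1) C |kk|²`, and I1 again for `l ∈ Frl B`, `R ≥ 1`. -/

def S_I1 : Prop := ∀ (N k L : ℕ) [NeZero L], 2 ≤ N → Nat.Coprime k N → ∀ P Q : SU N, PQ k P Q →
  ∃ C : ℝ, 1 ≤ C ∧ ∀ (Λ : Finset Pl) (kk : Lk L → Mt N), (∀ l, kk l ∈ su N) →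
    ∃ h : Lk L → Mt N, (∀ l, h l ∈ su N) ∧ (∀ l, l ∉ Frl L Λ → h l = kk l) ∧
      (∀ a : Lk L → Mt N, (∀ l, a l ∈ su N) → (∀ l, l ∉ Frl L Λ → a l = 0) →
        ∑ τ ∈ tml Λ, bf P Q τ a h = 0) ∧
      (∀ l ∈ Frl L Λ, ‖h l‖ ^ 2 ≤ C * (∑ τ ∈ (tml Λ).filter (fun τ => cor τ ⊆ st l), bf P Q τ h h +
        ∑ l' ∈ (bdl L Λ).filter (fun l' => st l' ⊆ st l), ‖kk l'‖ ^ 2))

def S_I : Prop := ∀ (N k L : ℕ) [NeZero L], 2 ≤ N → Nat.Coprime k N → ∀ P Q : SU N, PQ k P Q →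
  ∃ C θ : ℝ, 1 ≤ C ∧ 0 < θ ∧ θ < 1 ∧ ∀ (Λ : Finset Pl) (kk : Lk L → Mt N), (∀ l, kk l ∈ su N) →
    ∃ h : Lk L → Mt N, (∀ l, h l ∈ su N) ∧ (∀ l, l ∉ Frl L Λ → h l = kk l) ∧
      (∀ a : Lk L → Mt N, (∀ l, a l ∈ su N) → (∀ l, l ∉ Frl L Λ → a l = 0) →
        ∑ τ ∈ tml Λ, bf P Q τ a h = 0) ∧
      (∀ l ∈ Frl L Λ, ‖h l‖ ^ 2 ≤ C * ∑ l' ∈ bdl L Λ, ‖kk l'‖ ^ 2) ∧
      ∀ (B : Finset Pl) (R : ℕ), B ⊆ Λ →
        (∀ l, l ∉ Frl L Λ → (∀ a ∈ st l, a ∈ bal R B) → kk l = 0) →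
        ∀ l ∈ Frl L B, ‖h l‖ ^ 2 ≤ C * θ ^ R * ∑ l' ∈ bdl L Λ, ‖kk l'‖ ^ 2

/-! ### package LL : expansions near the vacuum (uses B0)

L1: for one plaquette `X_l = (1 + a_l) vc_l + O(ρ²)` gives
`df X z p i j = cu a p i j * (vc (p,i) * vc (nx p i, j)) + O(ρ²)` (the vacuum is flat up to the phase
`z`: B0), and `‖cu a‖ ≤ 4 ρ`; so each square is `‖cu a‖² + O(ρ³)`. L2: for plane plaquettes of `X`
near `1` : `‖df X z‖ ≥ |1 - z| √N - C/C'` and `‖df X 1‖` small, so for `z = om N m ≠ 1` the energy is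
`≥ 1/C + eP X 1`. L3: bounds of the forms. L4: `‖pr‖`. -/

def S_L1 : Prop := ∀ (N k L : ℕ) [NeZero L], 2 ≤ N → Nat.Coprime k N → ∀ P Q : SU N, PQ k P Q →
  ∃ C : ℝ, 1 ≤ C ∧ ∀ (τ : Tm) (X : Cf N L) (a : Lk L → Mt N) (ρ : ℝ), 0 ≤ ρ → ρ ≤ 1 →
    (∀ l ∈ (spt τ : Finset (Lk L)), ‖a l‖ ≤ ρ ∧
      ‖(X l : Mt N) - (1 + a l) * (vc P Q l : Mt N)‖ ≤ ρ ^ 2) →
    |en1 k X τ - bf P Q τ a a / 2| ≤ C * ρ ^ 3

def S_L2 : Prop := ∀ (N k L : ℕ) [NeZero L], 2 ≤ N → ∀ P Q : SU N,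
  ∃ C : ℝ, 1 ≤ C ∧ ∀ (τ : Tm) (X : Cf N L),
    (∀ l ∈ (spt τ : Finset (Lk L)), ‖(X l : Mt N) - (vc P Q l : Mt N)‖ ≤ 1 / C) →
    ∀ β : ℝ, 0 ≤ β →
      (if τ.2 = 3 then (1 / N : ℝ) else 1) * Real.exp (-β * en1 k X τ) ≤ wt k β τ X ∧
      wt k β τ X ≤ (if τ.2 = 3 then (1 / N : ℝ) else 1) * Real.exp (-β * en1 k X τ) *
        (1 + N * Real.exp (-β / C))

def S_L3 : Prop := ∀ (N L : ℕ) [NeZero L], 2 ≤ N → ∀ P Q : SU N, ∃ C : ℝ, 1 ≤ C ∧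
  (∀ (τ : Tm) (a b : Lk L → Mt N) (r s : ℝ), 0 ≤ r → 0 ≤ s →
    (∀ l ∈ (spt τ : Finset (Lk L)), ‖a l‖ ≤ r ∧ ‖b l‖ ≤ s) → |bf P Q τ a b| ≤ C * r * s) ∧
  (∀ (τ : Tm) (a b c : Lk L → Mt N), bf P Q τ (fun l => a l + b l) c = bf P Q τ a c + bf P Q τ b c ∧
    bf P Q τ a b = bf P Q τ b a)

/-! ### package M0 : the deterministic comparison (uses B0 E4 I K L1 L3)

`xi X l = pr ((X l) (vc l)⁻¹ - 1)`; `‖X l - (1 + xi X l) vc l‖ ≤ C ‖X l - vc l‖²` by E4. Links of terms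
`τ ∈ tml Λ` have their sites in `pls Λ`. Let `kk l = xi σ' l - xi σ l` for `l ∈ bdl L Λ`, `0` otherwise
(so `‖kk l‖ ≤ 2 ρ`, `#bdl ≤ C #Λ`, and `kk = 0` on the links outside `Frl Λ` inside `bal R B`),
`hI` given by I, `h = hI` on `Frl Λ \ Frl B`, `0` elsewhere, `u = hI` on `Frl B`, `0` elsewhere:
`‖hI l‖ ≤ ρ₁`, `ρ₁² = C #Λ ρ²`, `‖u l‖ ≤ C θ^(R/2) ρ₁`. Let `Y = glue (Frl Λ) (TM h X) σ'` and
`aY = xi X + hI - u` on the links of `tml Λ`. By K (for `l ∈ Frl Λ` the site `l.1.1` and, for torus links,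
`l.1.1 + (1,0)`, are in `pls Λ`) `Y l = (1 + h l) X l + O(ρ₁²) = (1 + aY l) vc l + O(ρ₁²)`; for
`l ∈ bdl Λ`, `Y l = σ' l = (1 + xi σ l + kk l) vc l + O(ρ²)` and `xi X l = xi σ l`. By L1 and L3 (sums over
`τ ∈ tml Λ`, `#tml Λ ≤ 16 #Λ`): `∑ (en1 Y - en1 X) = ∑ (bf aY aY - bf (xi X) (xi X)) / 2 + O(#Λ ρ₁³)
= ∑ (bf (xi X) hI + bf hI hI / 2) + O(#Λ ρ₁² θ^(R/2)) + O(#Λ ρ₁³)`, and `∑ bf (xi X) hI = ∑ bf x₀ hI`,
`x₀ = xi σ` off `Frl Λ`, `0` on `Frl Λ`, by the first order condition of I. So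
`c = ∑ (bf x₀ hI + bf hI hI / 2)`. For the reversed pair the boundary field is `-kk`, and `-hI` is
its solution, so `c' = ∑ (- bf x₀' hI + bf hI hI / 2)`, `x₀' = x₀ + kk` on the links of `tml Λ` off
`Frl Λ`; `c + c' = ∑ bf (hI - kk) hI = 0` by the first order condition (`kk := 0` on `Frl Λ`). -/

/-- properties of the exponential -/
def GE (N : ℕ) (E : Mt N → SU N) (C₀ : ℝ) : Prop := 0 < C₀ ∧ Continuous E ∧ E 0 = 1 ∧
  (∀ (g : SU N) (M : Mt N), E (Adj g M) = g * E M * g⁻¹) ∧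
  ∀ M : Mt N, ‖(E M : Mt N) - 1 - pr M‖ ≤ C₀ * ‖M‖ ^ 2

def S_M0 : Prop := ∀ (N k L : ℕ) [NeZero L], 2 ≤ N → Nat.Coprime k N → ∀ P Q : SU N, PQ k P Q →
  ∀ (E : Mt N → SU N) (C₀ : ℝ), GE N E C₀ → ∃ C θ : ℝ, 1 ≤ C ∧ 0 < θ ∧ θ < 1 ∧
  ∀ (Λ B : Finset Pl) (R : ℕ) (ρ : ℝ) (σ σ' : Cf N L), B ⊆ Λ → Λ ⊆ bal R B → 0 ≤ ρ →
    C * Λ.card * ρ ^ 2 ≤ 1 →
    (∀ l, l ∉ Frl L Λ → (∀ a ∈ st l, a ∈ pls Λ) →
      ‖(σ l : Mt N) - (vc P Q l : Mt N)‖ ≤ ρ ∧ ‖(σ' l : Mt N) - (vc P Q l : Mt N)‖ ≤ ρ) →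
    (∀ l, l ∉ Frl L Λ → (∀ a ∈ st l, a ∈ bal R B) → σ l = σ' l) →
    ∃ (h : Lk L → Mt N) (c : ℝ), (∀ l, l ∉ Frl L Λ ∨ l ∈ Frl L B → h l = 0) ∧
      (∀ X : Cf N L, (∀ l, l ∉ Frl L Λ → X l = σ l) →
        (∀ l, (∀ a ∈ st l, a ∈ pls Λ) → ‖(X l : Mt N) - (vc P Q l : Mt N)‖ ≤ ρ) →
        (∀ l, (∀ a ∈ st l, a ∈ pls Λ) →
          ‖((glue (Frl L Λ) (TM P Q E h X) σ' l : SU N) : Mt N) - (vc P Q l : Mt N)‖ ^ 2 ≤
            C * Λ.card * ρ ^ 2) ∧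
        |∑ τ ∈ tml Λ, (en1 k (glue (Frl L Λ) (TM P Q E h X) σ') τ - en1 k X τ) - c| ≤
          C * Λ.card * (Λ.card * ρ ^ 2) * (Real.sqrt (Λ.card * ρ ^ 2) + θ ^ R)) ∧
      (∀ X : Cf N L, (∀ l, l ∉ Frl L Λ → X l = σ' l) →
        (∀ l, (∀ a ∈ st l, a ∈ pls Λ) → ‖(X l : Mt N) - (vc P Q l : Mt N)‖ ≤ ρ) →
        (∀ l, (∀ a ∈ st l, a ∈ pls Λ) →
          ‖((glue (Frl L Λ) (TM P Q E (fun l => - h l) X) σ l : SU N) : Mt N) -
            (vc P Q l : Mt N)‖ ^ 2 ≤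
            C * Λ.card * ρ ^ 2) ∧
        |∑ τ ∈ tml Λ, (en1 k (glue (Frl L Λ) (TM P Q E (fun l => - h l) X) σ) τ - en1 k X τ) + c| ≤
          C * Λ.card * (Λ.card * ρ ^ 2) * (Real.sqrt (Λ.card * ρ ^ 2) + θ ^ R))

/-! ### package M1 : comparison of kernels, boundary values near the vacuum
(uses D1 E4 F5 G G3 J JI JM L2 M0)

By G3 (compare with `vc`, whose energies vanish: B0) the terms of `rng Λ` have energy `≤ C e` for `σ`
and `σ'` (`#rng Λ ≤ C #Λ`). By G: under `ker Λ · σ`, except with probability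
`p = exp (-β t) (C β)^(D #Λ)`, all terms of `tml Λ` have energy `≤ e₂ = C #Λ e + t`; call such `X`
(equal to `σ` off `Frl Λ`) good. CLAIM: for good `X` there are `g` (`g p = 1` for `p.1 ∉ Λ`) and `z`
(`z x m = 0` unless the link `(x,m)` touches `Λ`) with `‖(gau g (cmv z X)) l - vc l‖² ≤ ρ² := C (e₂ + e)`
for all `l` with sites in `pls Λ`: `g (x, ·)` from D1 for `x ∈ Λ`; then J for the plane links in `Frl Λ`.
Let `h, c` be given by M0 for this `ρ` and `T X = TM h X`, `Y = glue (Frl Λ) (T X) σ'`. Since `g = 1`,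
`z = 0` off `Λ`, `gau g (cmv z Y) = glue (Frl Λ) (T (gau g (cmv z X))) σ'` (JI), so by M0, L2, JI for
good `X`: `∏_{tml Λ} wt (Y) ≥ exp (-β c - s) ∏_{tml Λ} wt (X)`,
`s = β C #Λ (#Λ ρ²) (sqrt (#Λ ρ²) + θ^R) + 16 #Λ N exp (-β / C)`. By JM (with
`Φ = (F W) (glue (Frl Λ) · σ')`, `glue J (T ..) σ'`), and `F Y = F X` (`F` depends on fixed links, equal
for `σ, σ'`, and on links in `Frl B`, where `h = 0`):
`num F σ' = ∫ F(Y) W(Y) dξ ≥ exp (-β c - s) (num F σ - p Z(σ))`, `Z = num 1`; by the second half of M0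
`Z(σ) ≥ exp (β c - s) (1 - p) Z(σ')`. Hence `ker F σ' ≥ exp (-2 s) (1 - p) (ker F σ - p)` (if
`ker F σ ≥ p`), so `ker F σ ≤ ker F σ' + 2 s + 2 p`. -/

def S_M1 : Prop := ∀ (N k L : ℕ) [NeZero L] (hN : 2 ≤ N), Nat.Coprime k N → ∀ P Q : SU N, PQ k P Q →
  ∃ (C θ : ℝ) (D : ℕ), 1 ≤ C ∧ 0 < θ ∧ θ < 1 ∧ ∀ (β : ℝ) (hβ : 0 ≤ β), 1 ≤ β →
  ∀ (Λ B : Finset Pl) (R : ℕ) (e t r : ℝ), 0 ≤ e → 0 ≤ t → B ⊆ Λ → Λ ⊆ bal R B →
    r = C * Λ.card * (Λ.card * e + t) → r ≤ 1 / C →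
  ∀ σ σ' : Cf N L, (∀ l, l ∉ Frl L Λ → (∀ a ∈ st l, a ∈ bal R B) → σ l = σ' l) →
    (∀ l, l ∉ Frl L Λ → (∀ a ∈ st l, a ∈ pls Λ) →
      ‖(σ l : Mt N) - (vc P Q l : Mt N)‖ ^ 2 ≤ e ∧ ‖(σ' l : Mt N) - (vc P Q l : Mt N)‖ ^ 2 ≤ e) →
    ∀ F : Cf N L → ℝ, Measurable F → (∀ X, 0 ≤ F X ∧ F X ≤ 1) →
      Sys.dep {l | ∀ a ∈ st l, (a ∈ bal R B ∧ a ∉ Λ) ∨ a ∈ B} F →
      (sysS N L k β hN hβ).ker (hm N) Λ F σ ≤ (sysS N L k β hN hβ).ker (hm N) Λ F σ' +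
        C * Λ.card * (β * (r * Real.sqrt r + θ ^ R * r) + Real.exp (-β / C)) +
        2 * (Real.exp (-β * t) * (C * β) ^ (D * Λ.card))

/-! ### package M : the same for good boundary values (uses A1 D1 F5 J JI JM M1)

Choose (by choice) functions `G : Ph N L → (Tor L → SU N)` with `dst (act (G φ) φ) vac ≤ C VV k φ` (D1)
and `m : (Tor L → SU N) → Fin N` with `m U` a minimiser of `∑_y ‖U y - om N m • 1‖²`. For `η` (same for
`η'`): `g (x,y) = G (pt η x) y` for `x ∈ pls Λ \ Λ`, `1` otherwise; `z x i` (`i = 0, 1`) cancels the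
central element `m (U')`, `U' y = g (x,y) η ((x,y),i) g(x + e_i, y)⁻¹`, for the links `(x,i)` with both
ends in `pls Λ \ Λ`, and is `0` otherwise. By J, `σ = gau g (cmv z η)` satisfies
`‖σ l - vc l‖² ≤ C e` for `l ∉ Frl Λ` with sites in `pls Λ` (all the terms used are in `rng Λ`).
For links with sites in `bal R B` off `Frl Λ` (where `η = η'`), `g, z` and `g', z'` agree, so `σ = σ'`.
By JM and JI `ker Λ F η = ker Λ Ft σ`, `Ft X = F (inverse transformation of X)`; `Ft` is the same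
function for `(g, z)` and `(g', z')` because `F` depends only on links with sites in
`(bal R B \ Λ) ∪ B` (on `B ⊆ Λ`: `g = 1`; `z = 0` for links touching `Λ`), and it has the same
dependence. Apply M1 with `C e` for `e`. -/

def S_M : Prop := ∀ (N k L : ℕ) [NeZero L] (hN : 2 ≤ N), Nat.Coprime k N →
  ∃ (C θ : ℝ) (D : ℕ), 1 ≤ C ∧ 0 < θ ∧ θ < 1 ∧ ∀ (β : ℝ) (hβ : 0 ≤ β), 1 ≤ β →
  ∀ (Λ B : Finset Pl) (R : ℕ) (e t r : ℝ), 0 ≤ e → 0 ≤ t → B ⊆ Λ → Λ ⊆ bal R B →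
    r = C * Λ.card * (Λ.card * e + t) → r ≤ 1 / C →
  ∀ η η' : Cf N L, (∀ l, l ∉ Frl L Λ → (∀ a ∈ st l, a ∈ bal R B) → η l = η' l) →
    (∀ τ ∈ rng Λ, en k η τ ≤ e ∧ en k η' τ ≤ e) →
    ∀ F : Cf N L → ℝ, Measurable F → (∀ X, 0 ≤ F X ∧ F X ≤ 1) →
      Sys.dep {l | ∀ a ∈ st l, (a ∈ bal R B ∧ a ∉ Λ) ∨ a ∈ B} F →
      (sysS N L k β hN hβ).ker (hm N) Λ F η ≤ (sysS N L k β hN hβ).ker (hm N) Λ F η' +
        C * Λ.card * (β * (r * Real.sqrt r + θ ^ R * r) + Real.exp (-β / C)) +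
        2 * (Real.exp (-β * t) * (C * β) ^ (D * Λ.card))

/-! ### package Z1 : the hypotheses of the coupling theorem (uses F3 F5 H M)

`Λ_s = sit M Λ`, `M ≥ 8`. Bad squares: H with `Λ = sit M (Nb 2 b)`, `B = sit M (Nb 1 b)`, `R = M - 1`,
`e = 0`: `bal M B = Λ` (`25 M²` sites), so there is no fixed term inside; `Bad` implies that some
`en > ε ≥` the threshold of H. Insensitivity: `Λ ⊆ Nb 2 b`, `b ∈ Λ`, `B = sit M {b}`, `R₁ = ⌊M/2⌋`,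
`Λ'' = Λ_s ∩ bal R₁ B`.
(i) H with `Λ_s`, `bal (R₁ + 2) B` and `R = M - R₁ - 3` (`bal (R+1) (bal (R₁+2) B) = bal M B =
sit M (Nb 1 b)`, `9 M²` sites), `e = ε`, the same `t`: for `η` and for `η'` (which agree on the links of
the terms inside `sit M (Nb 1 b) \ Λ_s`), except with probability `p₁`, all terms touching
`bal (R₁+2) B ∩ Λ_s` have energy `≤ e₁ = θ^R C 9 M² + 9 C M² ε + C t ≤ C' M⁴ (θ'^M + t)`; the terms of
`rng Λ''` are such terms or lie inside `sit M (Nb 1 b) \ Λ_s` (energy `≤ ε ≤ e₁`).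
(ii) `F' X = F (fun l => if all blocks of l are in Nb 2 b \ Λ then η l else X l)`: the same value as
`F` at all configurations that agree with `η` (or `η'`) outside `Fr Λ_s`, and it depends only on the
links `l` touching `B` whose sites are in `B` or in `bal 1 B \ Λ_s`.
(iii) by F3 `ker Λ_s F' η = ker Λ_s (ker Λ'' F') η`; for two configurations `σ, σ'` that agree with `η`,
resp. `η'`, outside `Fr Λ_s` and for which all energies of `rng Λ''` are `≤ e₁`, M (with `R := R₁`,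
`e := e₁`) gives `ker Λ'' F' σ ≤ ker Λ'' F' σ' + δ'`. So
`ker Λ_s F η ≤ p₁ + sup ≤ p₁ + inf + δ' ≤ 2 p₁ + δ' + ker Λ_s F η'` (sup, inf over such `σ`, `σ'`). -/

def S_Z1 : Prop := ∀ (N k L : ℕ) [NeZero L] (hN : 2 ≤ N), Nat.Coprime k N →
  ∃ (C θ : ℝ) (D : ℕ), 1 ≤ C ∧ 0 < θ ∧ θ < 1 ∧ ∀ (β : ℝ) (hβ : 0 ≤ β), 1 ≤ β →
  ∀ (M : ℕ) (hM : 0 < M) (t ε r : ℝ), 8 ≤ M → 0 ≤ t → ε = C * M ^ 2 * (θ ^ M + t) →
    r = C * M ^ 8 * (θ ^ M + t) → r ≤ 1 / C →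
    (∀ b η, (coa (sysS N L k β hN hβ) M hM).ker (hm N) (Nb 2 b)
      (fun ω => ind (Bad (coa (sysS N L k β hN hβ) M hM) (fun τ X => en k X τ ≤ ε) b ω)) η ≤
        M * (Real.exp (-β * t) * (C * β) ^ (D * M ^ 2))) ∧
    (∀ b, ∀ Λ ⊆ Nb 2 b, b ∈ Λ → ∀ η η' : Cf N L,
      (∀ i, (∀ a ∈ (coa (sysS N L k β hN hβ) M hM).bl i, a ∈ Nb 2 b ∧ a ∉ Λ) → η i = η' i) →
      (∀ τ ∈ (coa (sysS N L k β hN hβ) M hM).tms (Nb 1 b),
        (∀ a ∈ (coa (sysS N L k β hN hβ) M hM).bt τ, a ∈ Nb 1 b ∧ a ∉ Λ) → en k η τ ≤ ε) →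
      ∀ F : Cf N L → ℝ, Measurable F → (∀ ω, 0 ≤ F ω ∧ F ω ≤ 1) →
        Sys.dep {i | ∀ a ∈ (coa (sysS N L k β hN hβ) M hM).bl i, (a ∈ Nb 2 b ∧ a ∉ Λ) ∨ a = b} F →
        (coa (sysS N L k β hN hβ) M hM).ker (hm N) Λ F η ≤
          (coa (sysS N L k β hN hβ) M hM).ker (hm N) Λ F η' +
          (C * M ^ 2 * (β * (r * Real.sqrt r + θ ^ M * r) + Real.exp (-β / C)) +
            4 * M * (Real.exp (-β * t) * (C * β) ^ (D * M ^ 2))))

/-! ### package Z : choice of the parameters (real analysis; uses Z1)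

`M = ⌈K log β⌉` with `K log (1/θ) ≥ 4`, `t = K' M² log β / β` with `K'` large (depending on `D`),
`q = β^(-1/6)`, `δ = q²`, `p = q^32`, `c = 1/12`, `β` large: `exp (-β t) = β^(-K' M²)`,
`(C β)^(D M²) ≤ β^(2 D M²)`, `θ^M ≤ β^(-4)`, `r = O((log β)^11 / β)`. -/

def S_Z : Prop := ∀ (N k L : ℕ) [NeZero L] (hN : 2 ≤ N), Nat.Coprime k N →
  ∃ c K β₀ : ℝ, 0 < c ∧ 1 ≤ K ∧ 1 < β₀ ∧ ∀ (β : ℝ) (hβ : 0 ≤ β), β₀ ≤ β →
  ∃ (M : ℕ) (hM : 0 < M) (ε p δ q : ℝ), (M : ℝ) ≤ K * Real.log β ∧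
    0 < p ∧ 0 < δ ∧ 0 < q ∧ δ ≤ q ^ 2 ∧ p ≤ q ^ 32 ∧ 48 * q ≤ 1 / 2 ∧ 48 * q ≤ β ^ (-c) ∧
    (∀ b η, (coa (sysS N L k β hN hβ) M hM).ker (hm N) (Nb 2 b)
      (fun ω => ind (Bad (coa (sysS N L k β hN hβ) M hM) (fun τ X => en k X τ ≤ ε) b ω)) η ≤ p) ∧
    (∀ b, ∀ Λ ⊆ Nb 2 b, b ∈ Λ → ∀ η η' : Cf N L,
      (∀ i, (∀ a ∈ (coa (sysS N L k β hN hβ) M hM).bl i, a ∈ Nb 2 b ∧ a ∉ Λ) → η i = η' i) →
      (∀ τ ∈ (coa (sysS N L k β hN hβ) M hM).tms (Nb 1 b),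
        (∀ a ∈ (coa (sysS N L k β hN hβ) M hM).bt τ, a ∈ Nb 1 b ∧ a ∉ Λ) → en k η τ ≤ ε) →
      ∀ F : Cf N L → ℝ, Measurable F → (∀ ω, 0 ≤ F ω ∧ F ω ≤ 1) →
        Sys.dep {i | ∀ a ∈ (coa (sysS N L k β hN hβ) M hM).bl i, (a ∈ Nb 2 b ∧ a ∉ Λ) ∨ a = b} F →
        (coa (sysS N L k β hN hβ) M hM).ker (hm N) Λ F η ≤
          (coa (sysS N L k β hN hβ) M hM).ker (hm N) Λ F η' + δ)

/-! ### package O : centre sums (uses F1 or the first part of JM)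

`mvh x n` multiplies all links `((x,y),0)`, `y ∈ Tor L`, by `cen N n`; it preserves the product measure
and all terms of kind `0, 1, 2`; the link belongs to the plane plaquettes `x` (as bottom link) and
`x - e_1` (as top link). O: `above x`: for all `h > x.2` not both `(x.1, h)`, `(x.1 + 1, h)` are in `A`.
Process the plane terms `x ∈ T` with `above x` in decreasing order of `x.2`: average over `mvh (x + e_1) n`,
`n < N`: nothing changes except the weight of `x` (`f` does not depend on that link, `x + e_1` is already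
centre averaged, or not in `T`), which is replaced by `wt`. Then the terms which are not `above` and not
inside `A` in increasing order, with `mvh x n` (by convexity of the columns of `A` the link `(x,0)` is
not inside `A`). The remaining ones are inside `A`: `exp (-β en1) = (exp (-β en1) / wt) * wt`.
OA: the same with top links only, in decreasing order of `x.2`, and charges: with
`A_x X = (1/N) ∑_m (om N m)^(s x) exp (-β eP X (om N m) x)` one has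
`A_x (mvh (x + e_1) n X) = (om N n)^(-s x) A_x X`, `A_x (mvh x n X) = (om N n)^(s x) A_x X`, and the charge
of `G` compensates. -/

/-- terms with all corners in `R` -/
def tin (R : Finset Pl) : Finset Tm := (tml R).filter fun τ => ∀ a ∈ cor τ, a ∈ R

/-- multiply the links `((x,y),0)` by `cen N n` -/
def mvh {N L : ℕ} [NeZero L] (x : Pl) (n : ℕ) (X : Cf N L) : Cf N L := fun l =>
  if l.2 = 0 ∧ l.1.1 = x then cen N n * X l else X l

def S_O : Prop := ∀ (N k L : ℕ) [NeZero L], 2 ≤ N → ∀ (β : ℝ) (A : Finset Pl),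
  (∀ a ∈ A, ∀ b ∈ A, a.1 = b.1 → ∀ c, a.2 ≤ c → c ≤ b.2 → (a.1, c) ∈ A) →
  ∀ T : Finset Tm, tin A ⊆ T → ∀ f : Cf N L → ℝ, Measurable f → (∃ K, ∀ X, |f X| ≤ K) →
    Sys.dep {l | ∀ a ∈ st l, a ∈ A} f →
    ∫ X, f X * ∏ τ ∈ T, Real.exp (-β * en1 k X τ) ∂(pm N L) =
      ∫ X, (f X * ∏ τ ∈ (tin A).filter (fun τ => τ.2 = 3),
        (Real.exp (-β * en1 k X τ) / wt k β τ X)) * ∏ τ ∈ T, wt k β τ X ∂(pm N L)

/-- weight of a plane plaquette with charge `s` -/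
def wch (N : ℕ) {L : ℕ} [NeZero L] (β : ℝ) (s : ℕ) (x : Pl) (X : Cf N L) : ℂ :=
  (∑ m : Fin N, om N m ^ s * (Real.exp (-β * eP X (om N m) x) : ℂ)) / N

def S_OA : Prop := ∀ (N k L : ℕ) [NeZero L], 2 ≤ N → ∀ (β : ℝ), 0 ≤ β → ∀ (T : Finset Tm) (s : Pl → ℕ)
  (G : Cf N L → ℂ), Measurable G → (∃ K, ∀ X, ‖G X‖ ≤ K) →
  (∀ x, (x, (3 : Fin 4)) ∉ T → s x = 0) →
  (∀ (x : Pl) (n : ℕ) (X : Cf N L), G (mvh (x + (0, 1)) n X) =
    om N n ^ s x * (star (om N n)) ^ s (x + (0, 1)) * G X) →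
    (∫ X, G X * ∏ τ ∈ T, (Real.exp (-β * en1 k X τ) : ℂ) ∂(pm N L) =
      ∫ X, G X * (∏ τ ∈ T.filter (fun τ => τ.2 ≠ 3), (Real.exp (-β * en1 k X τ) : ℂ)) *
        ∏ τ ∈ T.filter (fun τ => τ.2 = 3), wch N β (s τ.1) τ.1 X ∂(pm N L)) ∧
    (∀ (x : Pl) (X : Cf N L), ‖wch N β 1 x X‖ ≤
      (1 - Real.exp (-2 * N * L ^ 2 * β)) * wt k β (x, 3) X)

end T2H02.TT
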