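import Pool.Agent.T2H02.TT.Model
import Pool.Agent.T2H02.TT.Stm2

/-!
# The Wilson action as a sum of the energies of the terms
-/

set_option autoImplicit false
set_option linter.unusedSectionVars false

noncomputable section

open MeasureTheory Matrix
open scoped Matrix.Norms.Frobenius

namespace T2H02.TT

variable {N L : ℕ} [NeZero L]

lemma mem_tin (R : Finset Pl) (τ : Tm) : τ ∈ tin R ↔ ∀ a ∈ cor τ, a ∈ R := by
  rw [tin, Finset.mem_filter, mem_tml]
  refine ⟨fun h => h.2, fun h => ⟨⟨τ.1, ?_, h _ ?_⟩, h⟩⟩ <;>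
  · obtain ⟨x, i⟩ := τ
    fin_cases i
    · exact (mem_cor0 x x).2 rfl
    · exact (mem_cor1 x x).2 (Or.inl rfl)
    · exact (mem_cor2 x x).2 (Or.inl rfl)
    · exact (mem_cor3 x x).2 (Or.inl rfl)

lemma sum_tin (R : Finset Pl) (e : Tm → ℝ) : ∑ τ ∈ tin R, e τ =
    ∑ x ∈ R, ∑ i : Fin 4, if ∀ a ∈ cor (x, i), a ∈ R then e (x, i) else 0 := by
  rw [← Finset.sum_product', ← Finset.sum_filter]
  refine Finset.sum_congr ?_ fun _ _ => rfl
  ext τ
  rw [mem_tin, Finset.mem_filter, Finset.mem_product]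
  constructor
  · intro h
    refine ⟨⟨h _ ?_, Finset.mem_univ _⟩, h⟩
    obtain ⟨x, i⟩ := τ
    fin_cases i
    · exact (mem_cor0 x x).2 rfl
    · exact (mem_cor1 x x).2 (Or.inl rfl)
    · exact (mem_cor2 x x).2 (Or.inl rfl)
    · exact (mem_cor3 x x).2 (Or.inl rfl)
  · intro h; exact h.2

lemma wact_eq (k : ℕ) (R : Finset Pl) (X : Cf N L) : wact k R X = ∑ τ ∈ tin R, en1 k X τ := by
  rw [sum_tin, wact]
  refine Finset.sum_congr rfl fun x hx => ?_
  rw [Fin.sum_univ_four]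
  have c0 : (∀ a ∈ cor (x, 0), a ∈ R) := fun a ha => by rw [(mem_cor0 x a).1 ha]; exact hx
  have c1 : (∀ a ∈ cor (x, 1), a ∈ R) ↔ x + (1, 0) ∈ R := by
    constructor
    · intro h; exact h _ ((mem_cor1 _ _).2 (Or.inr rfl))
    · intro h a ha
      rcases (mem_cor1 _ _).1 ha with rfl | rfl
      · exact hx
      · exact h
  have c2 : (∀ a ∈ cor (x, 2), a ∈ R) ↔ x + (0, 1) ∈ R := by
    constructor
    · intro h; exact h _ ((mem_cor2 _ _).2 (Or.inr rfl))
    · intro h a ha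
      rcases (mem_cor2 _ _).1 ha with rfl | rfl
      · exact hx
      · exact h
  have c3 : (∀ a ∈ cor (x, 3), a ∈ R) ↔ (x + (1, 0) ∈ R ∧ x + (0, 1) ∈ R ∧ x + (1, 1) ∈ R) := by
    constructor
    · intro h
      exact ⟨h _ ((mem_cor3 _ _).2 (by tauto)), h _ ((mem_cor3 _ _).2 (by tauto)),
        h _ ((mem_cor3 _ _).2 (by tauto))⟩
    · rintro ⟨h1, h2, h3⟩ a ha
      rcases (mem_cor3 _ _).1 ha with rfl | rfl | rfl | rfl
      · exact hx
      · exact h1
      · exact h2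
      · exact h3
  rw [if_pos c0, if_congr c1 rfl rfl, if_congr c2 rfl rfl, if_congr c3 rfl rfl]
  have hp0 : (pe 0 : Pl) = (1, 0) := by simp [pe]
  have hp1 : (pe 1 : Pl) = (0, 1) := by simp [pe]
  have hp2 : (pe 2 : Pl) = 0 := by simp [pe, h00]
  have hp3 : (pe 3 : Pl) = 0 := by simp [pe, h00]
  have h11 : x + ((1 : ℤ), (0 : ℤ)) + ((0 : ℤ), (1 : ℤ)) = x + (1, 1) := by
    rw [add_assoc]; rfl
  have hd : ∀ (z : ℂ), star z * z = 1 → ∀ p i j, (N : ℝ) - (star z * (plq X p i j : Mt N).trace).re =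
      ‖df X z p i j‖ ^ 2 / 2 := fun z hz p i j => (df_plq X z hz p i j).symm
  have htw : ∀ y : Tor L, star (twf N k (x, y) 2 3) * twf N k (x, y) 2 3 = 1 := by
    intro y
    unfold twf
    split_ifs
    · exact om_star N k
    · simp
  have htw2 : ∀ y : Tor L, twf N k (x, y) 2 3 = tw N k y := by
    intro y
    simp [twf, tw]
  have hone : star (1 : ℂ) * 1 = 1 := by simp
  simp only [Fin.sum_univ_four, hp0, hp1, hp2, hp3, add_zero, h11, hx, true_and, and_true]
  simp only [Fin.isValue, lt_self_iff_false, false_and, if_false, zero_add, add_zero,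
    (by decide : (0 : Fin 4) < 1), (by decide : (0 : Fin 4) < 2), (by decide : (0 : Fin 4) < 3),
    (by decide : (1 : Fin 4) < 2), (by decide : (1 : Fin 4) < 3), (by decide : (2 : Fin 4) < 3),
    (by decide : ¬ (1 : Fin 4) < 0), (by decide : ¬ (2 : Fin 4) < 0), (by decide : ¬ (3 : Fin 4) < 0),
    (by decide : ¬ (2 : Fin 4) < 1), (by decide : ¬ (3 : Fin 4) < 1), (by decide : ¬ (3 : Fin 4) < 2),
    true_and, if_true]
  have t01 : ∀ y : Tor L, twf N k (x, y) 0 1 = 1 := fun y => by simp [twf]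
  have t02 : ∀ y : Tor L, twf N k (x, y) 0 2 = 1 := fun y => by simp [twf]
  have t03 : ∀ y : Tor L, twf N k (x, y) 0 3 = 1 := fun y => by simp [twf]
  have t12 : ∀ y : Tor L, twf N k (x, y) 1 2 = 1 := fun y => by simp [twf]
  have t13 : ∀ y : Tor L, twf N k (x, y) 1 3 = 1 := fun y => by simp [twf]
  simp only [t01, t02, t03, t12, t13, hd _ hone, hd _ (htw _)]
  simp only [htw2]
  simp only [en1, eV, eK, eP]
  simp (decide := true) only [if_true, if_false]
  by_cases h1 : x + (1, 0) ∈ R <;> by_cases h2 : x + (0, 1) ∈ R <;>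
    by_cases h3 : x + (1, 1) ∈ R <;>
    simp [h1, h2, h3, Finset.sum_add_distrib] <;> ring

end T2H02.TT
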