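import Pool.Agent.T2H02.TT.Fin9

/-!
# Centre-projected loops: lower bound by reflection positivity
-/

set_option autoImplicit false
set_option linter.unusedSectionVars false

noncomputable section

open MeasureTheory Matrix Filter Topology
open scoped Matrix.Norms.Frobenius

namespace T2H02.TT

variable {N L : ℕ} [NeZero L]

lemma logconv_low (G : ℕ → ℝ) (h0 : ∀ j, 0 ≤ G j) (h1 : ∀ j, G (j + 1) ^ 2 ≤ G j * G (j + 2))
    (h2 : G 0 ≤ 1) (j : ℕ) : G 1 ^ (j + 1) ≤ G (j + 1) := by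
  rcases (h0 1).eq_or_lt with hz | hp
  · rw [← hz, zero_pow (by omega)]
    exact h0 _
  · have key : ∀ j, 0 < G (j + 1) ∧ G 1 * G (j + 1) ≤ G (j + 2) := by
      intro j
      induction j with
      | zero =>
        refine ⟨hp, ?_⟩
        have := h1 0
        calc G 1 * G (0 + 1) = G (0 + 1) ^ 2 := by ring
          _ ≤ G 0 * G (0 + 2) := this
          _ ≤ 1 * G (0 + 2) := mul_le_mul_of_nonneg_right h2 (h0 _)
          _ = _ := one_mul _
      | succ j ih =>
        obtain ⟨i1, i2⟩ := ih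
        have hp2 : 0 < G (j + 1 + 1) := lt_of_lt_of_le (mul_pos hp i1) i2
        refine ⟨hp2, ?_⟩
        have h3 : G (j + 2) ^ 2 ≤ G (j + 1) * G (j + 3) := h1 (j + 1)
        have h4 : G (j + 1) * (G 1 * G (j + 2)) ≤ G (j + 1) * G (j + 3) := by
          calc G (j + 1) * (G 1 * G (j + 2)) = (G 1 * G (j + 1)) * G (j + 2) := by ring
            _ ≤ G (j + 2) * G (j + 2) := mul_le_mul_of_nonneg_right i2 hp2.le
            _ = G (j + 2) ^ 2 := by ring
            _ ≤ _ := h3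
        exact le_of_mul_le_mul_left h4 i1
    induction j with
    | zero => simp
    | succ j ih =>
      calc G 1 ^ (j + 1 + 1) = G 1 * G 1 ^ (j + 1) := by ring
        _ ≤ G 1 * G (j + 1) := mul_le_mul_of_nonneg_left ih hp.le
        _ ≤ _ := (key j).2

lemma cs_two (p q x y z w : ℝ) (hx : 0 ≤ x) (hy : 0 ≤ y) (hz : 0 ≤ z) (hw : 0 ≤ w)
    (h1 : p ^ 2 ≤ x * y) (h2 : q ^ 2 ≤ z * w) : (p + q) ^ 2 ≤ (x + z) * (y + w) := by
  have h3 : (p * q) ^ 2 ≤ (x * w) * (z * y) := by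
    calc (p * q) ^ 2 = p ^ 2 * q ^ 2 := by ring
      _ ≤ (x * y) * (z * w) := mul_le_mul h1 h2 (sq_nonneg _) (mul_nonneg hx hy)
      _ = _ := by ring
  have h4 : 2 * (p * q) ≤ x * w + z * y := by
    have h5 : (2 * (p * q)) ^ 2 ≤ (x * w + z * y) ^ 2 := by nlinarith [sq_nonneg (x * w - z * y)]
    exact le_trans (le_abs_self _) (abs_le_of_sq_le_sq h5 (by positivity))
  nlinarith

variable {k : ℕ} (hN : 2 ≤ N) {β : ℝ} (hβ : 0 ≤ β) {m κ : ℝ}

lemma phi_add (hmm : 0 < m) (hO : S_O) (hD : Dec N L k hN β hβ m κ) (r : ℕ) (f g : Cf N L → ℝ)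
    (hf : Loc (Nb r 0) f) (hg : Loc (Nb r 0) g) (hfg : Loc (Nb r 0) (fun X => f X + g X)) :
    Phi N L k β (fun X => f X + g X) = Phi N L k β f + Phi N L k β g := by
  have t1 := tends hN hβ hmm hO hD r 0 _ hfg
  have t2 := tends hN hβ hmm hO hD r 0 _ hf
  have t3 := tends hN hβ hmm hO hD r 0 _ hg
  have e : (fun j : ℕ => wex N L k β (Nb j 0) fun X => f X + g X) =
      fun j => wex N L k β (Nb j 0) f + wex N L k β (Nb j 0) g := by
    funext j
    exact wex_add k hβ _ f g hf.1 ⟨1, hf.2.1⟩ hg.1 ⟨1, hg.2.1⟩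
  rw [e] at t1
  exact tendsto_nhds_unique t1 (t2.add t3)

lemma rct_big (x : Pl) (a b : ℕ) : ∃ r : ℕ, rct x a b ⊆ Nb r 0 := loc_big _

lemma norm_prod_le_one {s : Finset ℕ} {f : ℕ → ℂ} (h : ∀ i ∈ s, ‖f i‖ ≤ 1) : ‖∏ i ∈ s, f i‖ ≤ 1 := by
  rw [norm_prod]
  exact Finset.prod_le_one (fun _ _ => norm_nonneg _) h

section loops

variable (G : Ph N L → Tor L → SU N)

lemma plo_norm (hZ : S_ZL) (hN : 2 ≤ N) (hG : Measurable G) (X : Cf N L) (x : Pl) (a b : ℕ) :
    ‖plo G X x a b‖ ≤ 1 := by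
  have h := (hZ N L hN G hG).1
  unfold plo
  rw [norm_mul, norm_mul, norm_mul, norm_star, norm_star]
  have h1 := norm_prod_le_one (s := Finset.range b) fun j _ => h X (x + (0, (j : ℤ))) 1
  have h2 := norm_prod_le_one (s := Finset.range a) fun i _ => h X (x + ((i : ℤ), (b : ℤ))) 0
  have h3 := norm_prod_le_one (s := Finset.range b) fun j _ => h X (x + ((a : ℤ), (j : ℤ))) 1
  have h4 := norm_prod_le_one (s := Finset.range a) fun i _ => h X (x + ((i : ℤ), 0)) 0
  have h5 := mul_le_one₀ h1 (norm_nonneg _) h2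
  have h6 := mul_le_one₀ h5 (norm_nonneg _) h3
  exact mul_le_one₀ h6 (norm_nonneg _) h4

lemma hlo_norm (hZ : S_ZL) (hN : 2 ≤ N) (hG : Measurable G) (X : Cf N L) (a b : ℕ) :
    ‖hlo G X a b‖ ≤ 1 := by
  have h := (hZ N L hN G hG).1
  unfold hlo
  rw [norm_mul, norm_mul, norm_star, norm_star]
  have h2 := norm_prod_le_one (s := Finset.range a) fun i _ => h X ((i : ℤ), (b : ℤ)) 0
  have h3 := norm_prod_le_one (s := Finset.range b) fun j _ => h X ((a : ℤ), (j : ℤ)) 1
  have h4 := norm_prod_le_one (s := Finset.range a) fun i _ => h X ((i : ℤ), 0) 0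
  have h6 := mul_le_one₀ h2 (norm_nonneg _) h3
  exact mul_le_one₀ h6 (norm_nonneg _) h4

lemma plo_meas (hZ : S_ZL) (hN : 2 ≤ N) (hG : Measurable G) (x : Pl) (a b : ℕ) :
    Measurable fun X : Cf N L => plo G X x a b := by
  have h := (hZ N L hN G hG).2.1
  unfold plo
  exact (((Finset.measurable_fun_prod _ fun j _ => h _ _).mul
    (Finset.measurable_fun_prod _ fun j _ => h _ _)).mul
    (continuous_star.measurable.comp (Finset.measurable_fun_prod _ fun j _ => h _ _))).mul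
    (continuous_star.measurable.comp (Finset.measurable_fun_prod _ fun j _ => h _ _))

lemma hlo_meas (hZ : S_ZL) (hN : 2 ≤ N) (hG : Measurable G) (a b : ℕ) :
    Measurable fun X : Cf N L => hlo G X a b := by
  have h := (hZ N L hN G hG).2.1
  unfold hlo
  exact ((Finset.measurable_fun_prod _ fun j _ => h _ _).mul
    (continuous_star.measurable.comp (Finset.measurable_fun_prod _ fun j _ => h _ _))).mul
    (continuous_star.measurable.comp (Finset.measurable_fun_prod _ fun j _ => h _ _))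

lemma loc_re (hZ : S_ZL) (hN : 2 ≤ N) (hG : Measurable G) (x : Pl) (a b : ℕ) :
    Loc (rct x a b) (fun X : Cf N L => (plo G X x a b).re) :=
  ⟨Complex.measurable_re.comp (plo_meas G hZ hN hG x a b),
    fun X => (Complex.abs_re_le_norm _).trans (plo_norm G hZ hN hG X x a b),
    fun X Y h => by
      show (plo G X x a b).re = (plo G Y x a b).re
      rw [(hZ N L hN G hG).2.2.1 x a b X Y h]⟩

lemma loc_hre (hZ : S_ZL) (hN : 2 ≤ N) (hG : Measurable G) (a b : ℕ) :
    Loc (rct 0 a b) (fun X : Cf N L => (hlo G X a b).re) ∧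
    Loc (rct 0 a b) (fun X : Cf N L => (hlo G X a b).im) :=
  ⟨⟨Complex.measurable_re.comp (hlo_meas G hZ hN hG a b),
    fun X => (Complex.abs_re_le_norm _).trans (hlo_norm G hZ hN hG X a b),
    fun X Y h => by
      show (hlo G X a b).re = (hlo G Y a b).re
      rw [(hZ N L hN G hG).2.2.2.1 a b X Y h]⟩,
    ⟨Complex.measurable_im.comp (hlo_meas G hZ hN hG a b),
    fun X => (Complex.abs_im_le_norm _).trans (hlo_norm G hZ hN hG X a b),
    fun X Y h => by
      show (hlo G X a b).im = (hlo G Y a b).im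
      rw [(hZ N L hN G hG).2.2.2.1 a b X Y h]⟩⟩

lemma rct_pos (a b : ℕ) : ∀ c ∈ rct 0 a b, 0 ≤ c.1 := by
  intro c hc
  unfold rct at hc
  rw [Finset.mem_product, Finset.mem_Icc] at hc
  exact hc.1.1

/-- expectation of the projected loop of sides `a`, `b` -/
def PL (N L : ℕ) [NeZero L] (k : ℕ) (β : ℝ) (G : Ph N L → Tor L → SU N) (a b : ℕ) : ℝ :=
  Phi N L k β (fun X => (plo G X 0 a b).re)

lemma PL_x (hZ : S_ZL) (hG : Measurable G) (hmm : 0 < m) (hO : S_O) (hS : S_SY)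
    (hD : Dec N L k hN β hβ m κ) (x : Pl) (a b : ℕ) :
    Phi N L k β (fun X => (plo G X x a b).re) = PL N L k β G a b := by
  have h1 := loc_phi_shf hN hβ hmm hO hS hD _ x _ (loc_re G hZ hN hG 0 a b)
  have h2 : (fun X : Cf N L => (plo G (shf x X) 0 a b).re) = fun X => (plo G X x a b).re := by
    funext X
    have h3 := (hZ N L hN G hG).2.2.2.2.2.2.1 x 0 a b X
    rw [zero_add] at h3
    rw [h3]
  rw [h2] at h1
  exact h1

lemma PL_fac (hZ : S_ZL) (hG : Measurable G) (hmm : 0 < m) (hO : S_O) (hS : S_SY)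
    (hD : Dec N L k hN β hβ m κ) (a a' b : ℕ) :
    PL N L k β G (a + a') b =
      Phi N L k β (fun X => (hlo G (rf X) a b).re * (hlo G X a' b).re) +
      Phi N L k β (fun X => (hlo G (rf X) a b).im * (hlo G X a' b).im) := by
  obtain ⟨r, hr⟩ := loc_big (rct 0 a b ∪ rct 0 a' b ∪ rct (-(a : ℤ), 0) (a + a') b)
  have s1 : rct 0 a b ⊆ Nb r 0 :=
    (Finset.subset_union_left.trans Finset.subset_union_left).trans hr
  have s2 : rct 0 a' b ⊆ Nb r 0 :=
    (Finset.subset_union_right.trans Finset.subset_union_left).trans hr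
  have s3 : rct (-(a : ℤ), 0) (a + a') b ⊆ Nb r 0 := Finset.subset_union_right.trans hr
  have l1 := loc_rf r _ (loc_mono _ _ s1 _ (loc_hre G hZ hN hG a b).1)
  have l2 := loc_rf r _ (loc_mono _ _ s1 _ (loc_hre G hZ hN hG a b).2)
  have l3 := loc_mono _ _ s2 _ (loc_hre G hZ hN hG a' b).1
  have l4 := loc_mono _ _ s2 _ (loc_hre G hZ hN hG a' b).2
  have l5 := loc_mono _ _ s3 _ (loc_re G hZ hN hG (-(a : ℤ), 0) (a + a') b)
  have e : (fun X : Cf N L => (plo G X (-(a : ℤ), 0) (a + a') b).re) =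
      fun X => (hlo G (rf X) a b).re * (hlo G X a' b).re +
        (hlo G (rf X) a b).im * (hlo G X a' b).im := by
    funext X
    rw [(hZ N L hN G hG).2.2.2.2.2.1 a a' b X, Complex.mul_re, Complex.star_def, Complex.conj_re,
      Complex.conj_im]
    ring
  rw [← PL_x hN hβ G hZ hG hmm hO hS hD (-(a : ℤ), 0), e]
  rw [e] at l5
  exact phi_add hN hβ hmm hO hD r (fun X => (hlo G (rf X) a b).re * (hlo G X a' b).re)
    (fun X => (hlo G (rf X) a b).im * (hlo G X a' b).im) (loc_mul0 r _ _ l1 l3)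
    (loc_mul0 r _ _ l2 l4) l5

lemma PL_cs (hZ : S_ZL) (hG : Measurable G) (hmm : 0 < m) (hO : S_O) (hS : S_SY) (hR : S_RP)
    (hD : Dec N L k hN β hβ m κ) (a a' b : ℕ) :
    PL N L k β G (a + a') b ^ 2 ≤ PL N L k β G (a + a) b * PL N L k β G (a' + a') b ∧
      0 ≤ PL N L k β G (a + a) b := by
  set A := rct 0 a b ∪ rct 0 a' b with hA
  have hA0 : ∀ c ∈ A, 0 ≤ c.1 := by
    intro c hc
    rw [hA, Finset.mem_union] at hc
    rcases hc with hc | hc
    · exact rct_pos a b c hc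
    · exact rct_pos a' b c hc
  have l1 := loc_mono _ A Finset.subset_union_left _ (loc_hre G hZ hN hG a b).1
  have l2 := loc_mono _ A Finset.subset_union_left _ (loc_hre G hZ hN hG a b).2
  have l3 := loc_mono _ A Finset.subset_union_right _ (loc_hre G hZ hN hG a' b).1
  have l4 := loc_mono _ A Finset.subset_union_right _ (loc_hre G hZ hN hG a' b).2
  have e1 := PL_fac hN hβ G hZ hG hmm hO hS hD a a' b
  have e2 := PL_fac hN hβ G hZ hG hmm hO hS hD a a b
  have e3 := PL_fac hN hβ G hZ hG hmm hO hS hD a' a' b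
  have p1 := phi_rp hN hβ hmm hO hR hD A hA0 (fun X : Cf N L => (hlo G X a b).re) l1
  have p2 := phi_rp hN hβ hmm hO hR hD A hA0 (fun X : Cf N L => (hlo G X a b).im) l2
  have p3 := phi_rp hN hβ hmm hO hR hD A hA0 (fun X : Cf N L => (hlo G X a' b).re) l3
  have p4 := phi_rp hN hβ hmm hO hR hD A hA0 (fun X : Cf N L => (hlo G X a' b).im) l4
  have c1 := phi_cs hN hβ hmm hO hR hD A hA0 (fun X : Cf N L => (hlo G X a b).re)
    (fun X : Cf N L => (hlo G X a' b).re) l1 l3
  have c2 := phi_cs hN hβ hmm hO hR hD A hA0 (fun X : Cf N L => (hlo G X a b).im)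
    (fun X : Cf N L => (hlo G X a' b).im) l2 l4
  rw [e1, e2, e3]
  exact ⟨cs_two _ _ _ _ _ _ p1 p3 p2 p4 c1 c2, add_nonneg p1 p2⟩

lemma PL_le (hZ : S_ZL) (hG : Measurable G) (hmm : 0 < m) (hO : S_O)
    (hD : Dec N L k hN β hβ m κ) (a b : ℕ) : PL N L k β G a b ≤ 1 := by
  obtain ⟨r, hr⟩ := loc_big (rct 0 a b)
  exact (le_abs_self _).trans (phi_abs hN hβ hmm hO hD r 0 _
    (loc_mono _ _ hr _ (loc_re G hZ hN hG 0 a b)))

lemma PL_swap (hZ : S_ZL) (hG : Measurable G) (hmm : 0 < m) (hO : S_O) (hS : S_SY)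
    (hD : Dec N L k hN β hβ m κ) (a b : ℕ) : PL N L k β G a b = PL N L k β G b a := by
  obtain ⟨r, hr⟩ := loc_big (rct 0 b a)
  have h1 := phi_swp hN hβ hmm hO hS hD r 0 _ (loc_mono _ _ hr _ (loc_re G hZ hN hG 0 b a))
  have h2 : (fun X : Cf N L => (plo G (swp X) 0 b a).re) = fun X => (plo G X 0 a b).re := by
    funext X
    have h3 := (hZ N L hN G hG).2.2.2.2.2.2.2 0 b a X
    rw [h3, Complex.star_def, Complex.conj_re]
    rfl
  rw [h2] at h1
  exact h1

lemma PL_low (hZ : S_ZL) (hG : Measurable G) (hmm : 0 < m) (hO : S_O) (hS : S_SY) (hR : S_RP)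
    (hD : Dec N L k hN β hβ m κ) (j b : ℕ) :
    PL N L k β G 2 b ^ (j + 1) ≤ PL N L k β G (2 * (j + 1)) b := by
  have h0 : ∀ j, 0 ≤ PL N L k β G (2 * j) b := fun j => by
    rw [two_mul]
    exact (PL_cs hN hβ G hZ hG hmm hO hS hR hD j j b).2
  have h1 : ∀ j, PL N L k β G (2 * (j + 1)) b ^ 2 ≤
      PL N L k β G (2 * j) b * PL N L k β G (2 * (j + 2)) b := fun j => by
    have := (PL_cs hN hβ G hZ hG hmm hO hS hR hD j (j + 2) b).1
    rw [show j + (j + 2) = 2 * (j + 1) by ring, ← two_mul, ← two_mul] at this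
    exact this
  exact logconv_low (fun j => PL N L k β G (2 * j) b) h0 h1
    (PL_le hN hβ G hZ hG hmm hO hD _ _) j

/-- chessboard lower bound -/
lemma PL_chess (hZ : S_ZL) (hG : Measurable G) (hmm : 0 < m) (hO : S_O) (hS : S_SY) (hR : S_RP)
    (hD : Dec N L k hN β hβ m κ) (i j : ℕ) :
    PL N L k β G 2 2 ^ ((i + 1) * (j + 1)) ≤ PL N L k β G (2 * (i + 1)) (2 * (j + 1)) := by
  have h2 : 0 ≤ PL N L k β G 2 2 := by
    have := (PL_cs hN hβ G hZ hG hmm hO hS hR hD 1 1 2).2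
    exact this
  have h3 := PL_low hN hβ G hZ hG hmm hO hS hR hD j 2
  rw [PL_swap hN hβ G hZ hG hmm hO hS hD (2 * (j + 1)) 2] at h3
  have h4 := PL_low hN hβ G hZ hG hmm hO hS hR hD i (2 * (j + 1))
  refine le_trans ?_ h4
  rw [mul_comm (i + 1), pow_mul]
  exact pow_le_pow_left₀ (pow_nonneg h2 _) h3 _

/-- upper bound -/
lemma PL_up (hZ : S_ZL) (hG : Measurable G) (hmm : 0 < m) (hO : S_O) (hU : S_UB)
    (hD : Dec N L k hN β hβ m κ) (a b : ℕ) :
    PL N L k β G a b ≤ (1 - Real.exp (-2 * N * L ^ 2 * β)) ^ (a * b) := by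
  obtain ⟨r, hr⟩ := loc_big (rct 0 a b)
  have t := tends hN hβ hmm hO hD r 0 _ (loc_mono _ _ hr _ (loc_re G hZ hN hG 0 a b))
  refine le_of_tendsto t ?_
  rw [eventually_atTop]
  refine ⟨r, fun j hj => ?_⟩
  have h := hU N k L hN β hβ G hG (Nb j 0) 0 a b (hr.trans (Nb_mono r j hj 0))
  refine le_trans ?_ h
  have e : wex N L k β (Nb j 0) (fun X => (plo G X 0 a b).re) =
      (wexC N L k β (Nb j 0) (fun X => plo G X 0 a b)).re := by
    unfold wex wexC
    rw [Complex.div_ofReal_re]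
    congr 1
    have hi : Integrable (fun X : Cf N L => plo G X 0 a b * (Real.exp (-β * wact k (Nb j 0) X) : ℂ))
        (Measure.infinitePi fun _ : Lk L => hm N) := by
      have hmea : Measurable fun X : Cf N L => Real.exp (-β * wact k (Nb j 0) X) :=
        (continuous_const.mul (wact_cont k (Nb j 0))).rexp.measurable
      refine Integrable.of_bound ((plo_meas G hZ hN hG 0 a b).mul
        (Complex.measurable_ofReal.comp hmea)).aestronglyMeasurable 1 (Eventually.of_forall fun X => ?_)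
      rw [norm_mul, Complex.norm_real, Real.norm_eq_abs, abs_of_pos (Real.exp_pos _)]
      refine mul_le_one₀ (plo_norm G hZ hN hG X 0 a b) (Real.exp_pos _).le ?_
      exact Real.exp_le_one_iff.2 (by have := wact_nonneg k (Nb j 0) X; nlinarith)
    rw [← RCLike.re_eq_complex_re, ← integral_re hi]
    refine integral_congr_ae (Eventually.of_forall fun X => ?_)
    show (plo G X 0 a b).re * _ = (plo G X 0 a b * _).re
    rw [Complex.re_mul_ofReal]
  rw [e]
  exact (le_abs_self _).trans (Complex.abs_re_le_norm _)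

end loops

end T2H02.TT
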