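import Pool.Agent.T2H02.TT.Fin2

/-!
# Package CB : centre symmetry of the torus directions
-/

set_option autoImplicit false
set_option linter.unusedSectionVars false

noncomputable section

open MeasureTheory Matrix
open scoped Matrix.Norms.Frobenius

namespace T2H02.TT

/-- centre transformation in the torus direction `j` -/
def cbt {N L : ℕ} (j : Fin 2) (X : Cf N L) : Cf N L := fun l =>
  if (j = 0 ∧ l.2 = 2 ∧ l.1.2.1 = -1) ∨ (j = 1 ∧ l.2 = 3 ∧ l.1.2.2 = -1) then cen N 1 * X l else X l

/-- Polyakov loop in the torus direction `j`: normalised trace of the holonomy around the torus -/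
def ply {N L : ℕ} [NeZero L] (X : Cf N L) (x : Pl) (y : Tor L) (j : Fin 2) : ℂ :=
  (hol (pt X x) j L y : Mt N).trace / N

/-- First part: the product measure is invariant (each link is multiplied by a constant from the
left) and all energies `en1` are invariant: in a torus plaquette the two links in the direction `j`
have the same `j`-coordinate, so both or none are multiplied; in a mixed plaquette of the directions
`m, j` both products contain one link in the direction `j`, with the same `y`. Second part: the `L` steps
from `y` in the direction `j` meet the coordinate `-1` exactly once. -/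
def S_CB : Prop := ∀ (N k L : ℕ) [NeZero L], 2 ≤ N → ∀ j : Fin 2,
  (∀ (β : ℝ) (R : Finset Pl) (F : Cf N L → ℝ), Measurable F → (∃ K, ∀ X, |F X| ≤ K) →
    wex N L k β R (fun X => F (cbt j X)) = wex N L k β R F) ∧
  (∀ (X : Cf N L) (x : Pl) (y : Tor L), ply (cbt j X) x y j = om N 1 * ply X x y j) ∧
  (∀ (X : Cf N L) (x : Pl) (y : Tor L), ‖ply X x y j‖ ≤ 1) ∧
  (∀ (x : Pl) (y : Tor L), Continuous fun X : Cf N L => ply X x y j) ∧
  (∀ (X Y : Cf N L) (x : Pl) (y : Tor L), (∀ l : Lk L, st l = {x} → X l = Y l) →
    ply X x y j = ply Y x y j)

end T2H02.TT
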