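import Pool.Agent.T2H02.TT.Fin10
import Pool.Agent.T2H02.TT.Stm5

/-!
# The final statement
-/

set_option autoImplicit false
set_option linter.unusedSectionVars false

noncomputable section

open MeasureTheory Matrix Filter Topology
open scoped Matrix.Norms.Frobenius

namespace T2H02.TT

variable {N L : ℕ} [NeZero L]

lemma wex_mono (k : ℕ) {β : ℝ} (hβ : 0 ≤ β) (R : Finset Pl) (f g : Cf N L → ℝ) (hf : Measurable f)
    (hb : ∃ K, ∀ X, |f X| ≤ K) (hg : Measurable g) (hb' : ∃ K, ∀ X, |g X| ≤ K)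
    (h : ∀ X, f X ≤ g X) : wex N L k β R f ≤ wex N L k β R g := by
  unfold wex
  refine div_le_div_of_nonneg_right ?_ (wZ_pos k hβ R).le
  exact integral_mono (wf_int k hβ R f hf hb) (wf_int k hβ R g hg hb')
    fun X => mul_le_mul_of_nonneg_right (h X) (Real.exp_pos _).le

lemma ind_cases (p : Prop) : (p ∧ ind p = 1) ∨ (¬ p ∧ ind p = 0) := by
  by_cases h : p
  · exact Or.inl ⟨h, by simp [ind, h]⟩
  · exact Or.inr ⟨h, by simp [ind, h]⟩

lemma bad_meas (k : ℕ) (ε : ℝ) (T : Finset Tm) :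
    Measurable fun X : Cf N L => ind (∃ τ ∈ T, ε < en1 k X τ) := by
  classical
  have hs : MeasurableSet {X : Cf N L | ∃ τ ∈ T, ε < en1 k X τ} := by
    have : {X : Cf N L | ∃ τ ∈ T, ε < en1 k X τ} = ⋃ τ ∈ T, {X : Cf N L | ε < en1 k X τ} := by
      ext X
      simp
    rw [this]
    exact (isOpen_biUnion fun τ _ => isOpen_lt continuous_const (en1_cont k τ)).measurableSet
  have e : (fun X : Cf N L => ind (∃ τ ∈ T, ε < en1 k X τ)) =
      Set.indicator {X : Cf N L | ∃ τ ∈ T, ε < en1 k X τ} (fun _ => (1 : ℝ)) := by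
    funext X
    unfold ind Set.indicator
    simp only [Set.mem_ofPred_eq]
    split_ifs <;> simp_all
  rw [e]
  exact measurable_const.indicator hs

variable {k : ℕ} (hN : 2 ≤ N) {β : ℝ} (hβ : 0 ≤ β) {m κ : ℝ}

lemma PL22 (G : Ph N L → Tor L → SU N) (hZ : S_ZL) (hG : Measurable G) (hmm : 0 < m) (hO : S_O)
    (hS : S_SY) (hD : Dec N L k hN β hβ m κ) (ε c : ℝ) (n : ℕ)
    (h1 : ∀ X : Cf N L, (∀ τ ∈ tin (Nb 1 0), en1 k X τ ≤ ε) → plo G X (-1, -1) 2 2 = 1)
    (h2 : ∀ R : Finset Pl, Nb n 0 ⊆ R →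
      wex N L k β R (fun X => ind (∃ τ ∈ tin (Nb 1 0), ε < en1 k X τ)) ≤ Real.exp (-c * β)) :
    1 - 2 * Real.exp (-c * β) ≤ PL N L k β G 2 2 := by
  obtain ⟨r, hr⟩ := loc_big (rct (-1, -1) 2 2)
  have hl := loc_re G hZ hN hG (-1, -1) 2 2
  have t := tends hN hβ hmm hO hD r 0 _ (loc_mono _ _ hr _ hl)
  rw [PL_x hN hβ G hZ hG hmm hO hS hD (-1, -1) 2 2] at t
  refine ge_of_tendsto t ?_
  rw [eventually_atTop]
  refine ⟨n, fun j hj => ?_⟩
  have h3 := h2 (Nb j 0) (Nb_mono n j hj 0)
  have hbm := bad_meas (L := L) (N := N) k ε (tin (Nb 1 0))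
  have hbb : ∀ X : Cf N L, |ind (∃ τ ∈ tin (Nb 1 0), ε < en1 k X τ)| ≤ 1 := by
    intro X
    rcases ind_cases (∃ τ ∈ tin (Nb 1 0), ε < en1 k X τ) with ⟨-, h⟩ | ⟨-, h⟩ <;> rw [h] <;> simp
  have h4 : wex N L k β (Nb j 0) (fun X => 1 + (-2) * ind (∃ τ ∈ tin (Nb 1 0), ε < en1 k X τ)) ≤
      wex N L k β (Nb j 0) (fun X => (plo G X (-1, -1) 2 2).re) := by
    refine wex_mono k hβ _ _ _ (measurable_const.add (hbm.const_mul _)) ⟨3, fun X => ?_⟩ hl.1
      ⟨1, hl.2.1⟩ fun X => ?_
    · refine (abs_add_le _ _).trans ?_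
      rw [abs_mul, abs_one, show |(-2 : ℝ)| = 2 by norm_num]
      have := hbb X
      linarith
    · have h5 := abs_le.1 (hl.2.1 X)
      rcases ind_cases (∃ τ ∈ tin (Nb 1 0), ε < en1 k X τ) with ⟨-, h⟩ | ⟨hn, h⟩
      · rw [h]
        linarith [h5.1]
      · push Not at hn
        rw [h, h1 X hn]
        simp
  rw [wex_add k hβ _ (fun _ => (1 : ℝ)) (fun X => (-2) * ind (∃ τ ∈ tin (Nb 1 0), ε < en1 k X τ))
    measurable_const ⟨1, fun _ => by simp⟩ (hbm.const_mul _) ⟨2 * 1, fun X => by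
      rw [abs_mul, show |(-2 : ℝ)| = 2 by norm_num]
      exact mul_le_mul_of_nonneg_left (hbb X) (by norm_num)⟩, wex_const k hβ, wex_mul] at h4
  linarith

/-- two-sided bound for the centre-projected loops -/
theorem proj (hP : S_P1) (hO : S_O) (hS : S_SY) (hR : S_RP) (hZ : S_ZL) (hDT : S_DT) (hEG : S_EG)
    (hPB : S_PB) (hU : S_UB) (N k L : ℕ) [NeZero L] (hN : 2 ≤ N) (hk : Nat.Coprime k N) (P Q : SU N)
    (hPQ : PQ k P Q) :
    ∃ ε c β₁ : ℝ, 0 < ε ∧ 0 < c ∧ (∃ G : Ph N L → Tor L → SU N, GF P Q ε G) ∧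
      ∀ G : Ph N L → Tor L → SU N, GF P Q ε G → ∀ β : ℝ, β₁ ≤ β → ∀ i j : ℕ,
        (1 - Real.exp (-c * β)) ^ ((i + 1) * (j + 1)) ≤
          Phi N L k β (fun X => (plo G X 0 (2 * (i + 1)) (2 * (j + 1))).re) ∧
        Phi N L k β (fun X => (plo G X 0 (2 * (i + 1)) (2 * (j + 1))).re) ≤
          (1 - Real.exp (-2 * N * L ^ 2 * β)) ^ (2 * (i + 1) * (2 * (j + 1))) := by
  obtain ⟨m, κ, β₀, hm0, hκ, hβ0, h⟩ := hP N k L hN hk
  obtain ⟨ε, hε, hdt⟩ := hDT N k L hN hk P Q hPQ
  obtain ⟨c, β₀', n, hc, hb0, hpb⟩ := hPB N k L hN hk ε hε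
  refine ⟨ε, c / 2, max β₀ (max β₀' (2 * Real.log 2 / c)), hε, by positivity, hEG N L hN P Q ε hε,
    fun G hG β hβ i j => ?_⟩
  have b1 : β₀ ≤ β := (le_max_left _ _).trans hβ
  have b2 : β₀' ≤ β := (le_max_left _ _).trans ((le_max_right _ _).trans hβ)
  have b3 : 2 * Real.log 2 / c ≤ β := (le_max_right _ _).trans ((le_max_right _ _).trans hβ)
  have hβ0' : 0 ≤ β := by linarith
  have hD : Dec N L k hN β hβ0' m κ := h β hβ0' b1
  have e1 := PL22 hN hβ0' G hZ hG.1 hm0 hO hS hD ε c n (hdt G hG) (hpb β b2)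
  have e2 := PL_chess hN hβ0' G hZ hG.1 hm0 hO hS hR hD i j
  refine ⟨le_trans ?_ e2, PL_up hN hβ0' G hZ hG.1 hm0 hO hU hD _ _⟩
  have e3 : 2 * Real.exp (-c * β) ≤ Real.exp (-(c / 2) * β) := by
    have h2 : Real.log 2 ≤ c / 2 * β := by
      rw [div_le_iff₀ hc] at b3
      linarith
    calc 2 * Real.exp (-c * β) = Real.exp (Real.log 2) * Real.exp (-c * β) := by
          rw [Real.exp_log (by norm_num)]
      _ = Real.exp (Real.log 2 + -c * β) := (Real.exp_add _ _).symm
      _ ≤ _ := Real.exp_le_exp.2 (by linarith)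
  have e4 : Real.exp (-(c / 2) * β) ≤ 1 := Real.exp_le_one_iff.2 (by
    have : 0 ≤ c / 2 * β := by positivity
    linarith)
  exact pow_le_pow_left₀ (by linarith) (by linarith) _

/-- torus Polyakov loops -/
lemma poly (hC : S_CB) (hmm : 0 < m) (hκ : 0 ≤ κ) (h1β : 1 ≤ β) (hO : S_O) (hS : S_SY)
    (hD : Dec N L k hN β hβ m κ) (j : Fin 2) (x x' : Pl) (y y' : Tor L) :
    |Phi N L k β (fun X => (ply X x y j * star (ply X x' y' j)).re)| ≤
      2 * cst N 0 m * β ^ κ * Real.exp (-m * dpl x x') := by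
  obtain ⟨c1, c2, c3, c4, c5⟩ := hC N k L hN j
  have hloc : ∀ (x : Pl) (y : Tor L), Loc (Nb 0 x) (fun X : Cf N L => (ply X x y j).re) ∧
      Loc (Nb 0 x) (fun X : Cf N L => (ply X x y j).im) := by
    intro x y
    have hd : ∀ X Y : Cf N L, (∀ l, (∀ a ∈ st l, a ∈ Nb 0 x) → X l = Y l) →
        ply X x y j = ply Y x y j := by
      intro X Y h
      refine c5 X Y x y fun l hl => h l fun a ha => ?_
      rw [hl, Finset.mem_singleton] at ha
      rw [ha, mem_Nb]
      simp
    exact ⟨⟨Complex.measurable_re.comp (c4 x y).measurable,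
      fun X => (Complex.abs_re_le_norm _).trans (c3 X x y), fun X Y h => by
        show (ply X x y j).re = (ply Y x y j).re
        rw [hd X Y h]⟩,
      ⟨Complex.measurable_im.comp (c4 x y).measurable,
      fun X => (Complex.abs_im_le_norm _).trans (c3 X x y), fun X Y h => by
        show (ply X x y j).im = (ply Y x y j).im
        rw [hd X Y h]⟩⟩
  -- the expectation vanishes
  have hzero : ∀ (x : Pl) (y : Tor L), Phi N L k β (fun X : Cf N L => (ply X x y j).re) = 0 ∧
      Phi N L k β (fun X : Cf N L => (ply X x y j).im) = 0 := by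
    intro x y
    have t1 := tends hN hβ hmm hO hD 0 x _ (hloc x y).1
    have t2 := tends hN hβ hmm hO hD 0 x _ (hloc x y).2
    have key : ∀ R : Finset Pl, wex N L k β R (fun X : Cf N L => (ply X x y j).re) = 0 ∧
        wex N L k β R (fun X : Cf N L => (ply X x y j).im) = 0 := by
      intro R
      set u := wex N L k β R (fun X : Cf N L => (ply X x y j).re) with hu
      set v := wex N L k β R (fun X : Cf N L => (ply X x y j).im) with hv
      have mu := (hloc x y).1
      have mv := (hloc x y).2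
      have e1 : u = (om N 1).re * u - (om N 1).im * v := by
        have h1 := c1 β R _ mu.1 ⟨1, mu.2.1⟩
        have h2 : (fun X : Cf N L => (ply (cbt j X) x y j).re) =
            fun X => (om N 1).re * (ply X x y j).re + (-(om N 1).im) * (ply X x y j).im := by
          funext X
          rw [c2, Complex.mul_re]
          ring
        rw [h2, wex_add k hβ R (fun X : Cf N L => (om N 1).re * (ply X x y j).re)
          (fun X : Cf N L => (-(om N 1).im) * (ply X x y j).im) (mu.1.const_mul _)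
          ⟨|(om N 1).re| * 1, fun X => by
            rw [abs_mul]; exact mul_le_mul_of_nonneg_left (mu.2.1 X) (abs_nonneg _)⟩
          (mv.1.const_mul _) ⟨|(-(om N 1).im)| * 1, fun X => by
            rw [abs_mul]; exact mul_le_mul_of_nonneg_left (mv.2.1 X) (abs_nonneg _)⟩,
          wex_mul, wex_mul, ← hu, ← hv] at h1
        linarith
      have e2 : v = (om N 1).re * v + (om N 1).im * u := by
        have h1 := c1 β R _ mv.1 ⟨1, mv.2.1⟩
        have h2 : (fun X : Cf N L => (ply (cbt j X) x y j).im) =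
            fun X => (om N 1).re * (ply X x y j).im + (om N 1).im * (ply X x y j).re := by
          funext X
          rw [c2, Complex.mul_im]
        rw [h2, wex_add k hβ R (fun X : Cf N L => (om N 1).re * (ply X x y j).im)
          (fun X : Cf N L => (om N 1).im * (ply X x y j).re) (mv.1.const_mul _)
          ⟨|(om N 1).re| * 1, fun X => by
            rw [abs_mul]; exact mul_le_mul_of_nonneg_left (mv.2.1 X) (abs_nonneg _)⟩
          (mu.1.const_mul _) ⟨|(om N 1).im| * 1, fun X => by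
            rw [abs_mul]; exact mul_le_mul_of_nonneg_left (mu.2.1 X) (abs_nonneg _)⟩,
          wex_mul, wex_mul, ← hu, ← hv] at h1
        linarith
      have hne : om N 1 ≠ 1 := by
        unfold om
        intro h
        rw [Complex.exp_eq_one_iff] at h
        obtain ⟨n, hn⟩ := h
        have hpi : (2 * Real.pi * Complex.I : ℂ) ≠ 0 := Complex.two_pi_I_ne_zero
        have hN0 : (N : ℂ) ≠ 0 := by
          have : N ≠ 0 := by omega
          exact_mod_cast this
        have h3 : (2 * Real.pi * Complex.I : ℂ) * 1 = (2 * Real.pi * Complex.I) * (n * N) := by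
          field_simp at hn
          push_cast at hn
          linear_combination (2 * Real.pi * Complex.I) * hn
        have h4 : (1 : ℂ) = n * N := mul_left_cancel₀ hpi h3
        have h5 : (1 : ℤ) = n * N := by exact_mod_cast h4
        have h6 : (N : ℤ) ∣ 1 := ⟨n, by linarith⟩
        have h7 := Int.le_of_dvd (by norm_num) h6
        have : (2 : ℤ) ≤ N := by exact_mod_cast hN
        omega
      have hz : (om N 1 - 1) * ((u : ℂ) + v * Complex.I) = 0 := by
        apply Complex.ext
        · simp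
          linarith
        · simp
          linarith
      rcases mul_eq_zero.1 hz with h | h
      · exact absurd (sub_eq_zero.1 h) hne
      · have hr := congrArg Complex.re h
        have hi := congrArg Complex.im h
        simp at hr hi
        exact ⟨hr, hi⟩
    simp only [(key _).1] at t1
    simp only [(key _).2] at t2
    exact ⟨tendsto_nhds_unique t1 tendsto_const_nhds ▸ rfl, tendsto_nhds_unique t2 tendsto_const_nhds ▸ rfl⟩
  have e1 := clu_rate hN hβ hmm hκ h1β hO hS hD 0 x x' _ _ (hloc x y).1 (hloc x' y').1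
  have e2 := clu_rate hN hβ hmm hκ h1β hO hS hD 0 x x' _ _ (hloc x y).2 (hloc x' y').2
  rw [(hzero x y).1, zero_mul, sub_zero] at e1
  rw [(hzero x y).2, zero_mul, sub_zero] at e2
  have hsum : Phi N L k β (fun X => (ply X x y j * star (ply X x' y' j)).re) =
      Phi N L k β (fun X : Cf N L => (ply X x y j).re * (ply X x' y' j).re) +
      Phi N L k β (fun X : Cf N L => (ply X x y j).im * (ply X x' y' j).im) := by
    have e : (fun X : Cf N L => (ply X x y j * star (ply X x' y' j)).re) =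
        fun X => (ply X x y j).re * (ply X x' y' j).re + (ply X x y j).im * (ply X x' y' j).im := by
      funext X
      rw [Complex.mul_re, Complex.star_def, Complex.conj_re, Complex.conj_im]
      ring
    obtain ⟨r, hr⟩ := loc_big (Nb 0 x ∪ Nb 0 x')
    have s1 := Finset.subset_union_left.trans hr
    have s2 := Finset.subset_union_right.trans hr
    have l1 := loc_mul0 r _ _ (loc_mono _ _ s1 _ (hloc x y).1) (loc_mono _ _ s2 _ (hloc x' y').1)
    have l2 := loc_mul0 r _ _ (loc_mono _ _ s1 _ (hloc x y).2) (loc_mono _ _ s2 _ (hloc x' y').2)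
    rw [e]
    refine phi_add hN hβ hmm hO hD r (fun X : Cf N L => (ply X x y j).re * (ply X x' y' j).re)
      (fun X : Cf N L => (ply X x y j).im * (ply X x' y' j).im) l1 l2 ⟨l1.1.add l2.1, fun X => ?_,
        fun X Y h => ?_⟩
    · have h3 : ‖ply X x y j * star (ply X x' y' j)‖ ≤ 1 := by
        rw [norm_mul, norm_star]
        exact mul_le_one₀ (c3 X x y) (norm_nonneg _) (c3 X x' y')
      have h4 := (Complex.abs_re_le_norm _).trans h3
      rw [Complex.mul_re, Complex.star_def, Complex.conj_re, Complex.conj_im] at h4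
      show |(ply X x y j).re * (ply X x' y' j).re + (ply X x y j).im * (ply X x' y' j).im| ≤ 1
      rwa [mul_neg, sub_neg_eq_add] at h4
    · have h3 := l1.2.2 X Y h
      have h4 := l2.2.2 X Y h
      exact congrArg₂ (· + ·) h3 h4
  rw [hsum]
  refine (abs_add_le _ _).trans ?_
  linarith

end T2H02.TT
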