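import Pool.Agent.T2H02.TT.StmV
import Pool.Agent.T2H02.TT.Fin9

/-!
# Upper bound of the mass gap, first part: two point functions of the Polyakov loop observable
-/

set_option autoImplicit false
set_option linter.unusedSectionVars false

noncomputable section

open MeasureTheory Matrix Filter Topology
open scoped Matrix.Norms.Frobenius

namespace T2H02.TT

variable {N L : ℕ} [NeZero L]

lemma pt_cont (x : Pl) : Continuous fun X : Cf N L => pt X x :=
  continuous_pi fun _ => continuous_pi fun _ => continuous_apply _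

lemma pt_shf (v x : Pl) (X : Cf N L) : pt (shf v X) x = pt X (x + v) := rfl

lemma loc_pt (F : Ph N L → ℝ) (hF : Continuous F) (hb : ∀ φ, |F φ| ≤ 1) (x : Pl) :
    Loc {x} (fun X : Cf N L => F (pt X x)) := by
  refine ⟨(hF.comp (pt_cont x)).measurable, fun X => hb _, fun X Y h => ?_⟩
  have : pt X x = pt Y x := by
    funext y j
    refine h _ fun a ha => ?_
    rw [mem_st] at ha
    rw [Finset.mem_singleton]
    rcases ha with rfl | rfl
    · rfl
    · by_cases hj : j = 0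
      · simp [hj, pe]
      · simp [hj, pe]
  show F (pt X x) = F (pt Y x)
  rw [this]

/-- two point function -/
def gg (N L : ℕ) [NeZero L] (k : ℕ) (β : ℝ) (F : Ph N L → ℝ) (x x' : Pl) : ℝ :=
  Phi N L k β (fun X => F (pt X x) * F (pt X x'))

lemma wex_sum (k : ℕ) {β : ℝ} (hβ : 0 ≤ β) (R : Finset Pl) {ι : Type} (s : Finset ι)
    (c : ι → ℝ) (f : ι → Cf N L → ℝ) (hf : ∀ i, Measurable (f i)) (hb : ∀ i, ∃ K, ∀ X, |f i X| ≤ K) :
    wex N L k β R (fun X => ∑ i ∈ s, c i * f i X) = ∑ i ∈ s, c i * wex N L k β R (f i) := by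
  classical
  have key : ∀ s : Finset ι, (Measurable fun X => ∑ i ∈ s, c i * f i X) ∧
      (∃ K, ∀ X, |∑ i ∈ s, c i * f i X| ≤ K) ∧
      wex N L k β R (fun X => ∑ i ∈ s, c i * f i X) = ∑ i ∈ s, c i * wex N L k β R (f i) := by
    intro s
    induction s using Finset.induction_on with
    | empty =>
      refine ⟨by simp, ⟨0, by simp⟩, ?_⟩
      simp only [Finset.sum_empty]
      exact wex_const k hβ R 0
    | insert a s ha ih =>
      obtain ⟨h1, ⟨K, hK⟩, h3⟩ := ih
      obtain ⟨K', hK'⟩ := hb a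
      have hm : Measurable fun X => c a * f a X := (hf a).const_mul _
      have hbd : ∀ X, |c a * f a X| ≤ |c a| * K' := fun X => by
        rw [abs_mul]; exact mul_le_mul_of_nonneg_left (hK' X) (abs_nonneg _)
      simp only [Finset.sum_insert ha]
      refine ⟨hm.add h1, ⟨|c a| * K' + K, fun X => (abs_add_le _ _).trans (add_le_add (hbd X) (hK X))⟩, ?_⟩
      rw [wex_add k hβ R _ _ hm ⟨_, hbd⟩ h1 ⟨K, hK⟩, wex_mul, h3]
  exact (key s).2.2

variable {k : ℕ} (hN : 2 ≤ N) {β : ℝ} (hβ : 0 ≤ β) {m κ : ℝ}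

lemma loc_ff (F : Ph N L → ℝ) (hF : Continuous F) (hb : ∀ φ, |F φ| ≤ 1) (x x' : Pl) :
    ∃ r : ℕ, Loc (Nb r 0) (fun X : Cf N L => F (pt X x) * F (pt X x')) := by
  obtain ⟨r, hr⟩ := loc_big ({x} ∪ {x'} : Finset Pl)
  refine ⟨r, loc_mul0 r _ _ ?_ ?_⟩
  · exact loc_mono _ _ (Finset.subset_union_left.trans hr) _ (loc_pt F hF hb x)
  · exact loc_mono _ _ (Finset.subset_union_right.trans hr) _ (loc_pt F hF hb x')

lemma gg_tends (hmm : 0 < m) (hO : S_O) (hD : Dec N L k hN β hβ m κ) (F : Ph N L → ℝ)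
    (hF : Continuous F) (hb : ∀ φ, |F φ| ≤ 1) (x x' : Pl) :
    Tendsto (fun j : ℕ => wex N L k β (Nb j 0) (fun X => F (pt X x) * F (pt X x'))) atTop
      (𝓝 (gg N L k β F x x')) := by
  obtain ⟨r, hr⟩ := loc_ff F hF hb x x'
  exact tends hN hβ hmm hO hD r 0 _ hr

lemma gg_shift (hmm : 0 < m) (hO : S_O) (hS : S_SY) (hD : Dec N L k hN β hβ m κ) (F : Ph N L → ℝ)
    (hF : Continuous F) (hb : ∀ φ, |F φ| ≤ 1) (x x' v : Pl) :
    gg N L k β F (x + v) (x' + v) = gg N L k β F x x' := by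
  obtain ⟨r, hr⟩ := loc_ff F hF hb x x'
  have h := phi_shf hN hβ hmm hO hS hD r 0 v _ hr
  exact h

lemma gg_symm (F : Ph N L → ℝ) (x x' : Pl) : gg N L k β F x x' = gg N L k β F x' x := by
  unfold gg
  have : (fun X : Cf N L => F (pt X x) * F (pt X x')) = fun X => F (pt X x') * F (pt X x) := by
    funext X; ring
  rw [this]

/-- limit of the expectation of a product of two linear combinations -/
lemma bil_tends (hmm : 0 < m) (hO : S_O) (hD : Dec N L k hN β hβ m κ) (F : Ph N L → ℝ)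
    (hF : Continuous F) (hb : ∀ φ, |F φ| ≤ 1) (s t : Finset Pl) (a b : Pl → ℝ) :
    Tendsto (fun j : ℕ => wex N L k β (Nb j 0)
      (fun X => (∑ x ∈ s, a x * F (pt X x)) * ∑ y ∈ t, b y * F (pt X y))) atTop
      (𝓝 (∑ x ∈ s, a x * ∑ y ∈ t, b y * gg N L k β F x y)) := by
  have e : ∀ j : ℕ, wex N L k β (Nb j 0)
      (fun X => (∑ x ∈ s, a x * F (pt X x)) * ∑ y ∈ t, b y * F (pt X y)) =
      ∑ x ∈ s, a x * ∑ y ∈ t, b y * wex N L k β (Nb j 0) (fun X => F (pt X x) * F (pt X y)) := by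
    intro j
    have hm : ∀ x : Pl, Measurable fun X : Cf N L => F (pt X x) := fun x =>
      (hF.comp (pt_cont x)).measurable
    have h1 : (fun X : Cf N L => (∑ x ∈ s, a x * F (pt X x)) * ∑ y ∈ t, b y * F (pt X y)) =
        fun X => ∑ p ∈ s ×ˢ t, (a p.1 * b p.2) * (F (pt X p.1) * F (pt X p.2)) := by
      funext X
      rw [Finset.sum_mul_sum, Finset.sum_product]
      refine Finset.sum_congr rfl fun x _ => Finset.sum_congr rfl fun y _ => ?_
      ring
    rw [h1, wex_sum k hβ _ (s ×ˢ t) (fun p : Pl × Pl => a p.1 * b p.2)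
      (fun (p : Pl × Pl) (X : Cf N L) => F (pt X p.1) * F (pt X p.2))
      (fun p => (hm p.1).mul (hm p.2)) (fun p => ⟨1, fun X => mul_bd (fun X : Cf N L => F (pt X p.1))
        (fun X : Cf N L => F (pt X p.2)) (fun X => hb (pt X p.1)) (fun X => hb (pt X p.2)) X⟩),
      Finset.sum_product]
    refine Finset.sum_congr rfl fun x _ => ?_
    rw [Finset.mul_sum]
    refine Finset.sum_congr rfl fun y _ => ?_
    ring
  simp only [e]
  refine tendsto_finsetSum _ fun x _ => Tendsto.const_mul _ (tendsto_finsetSum _ fun y _ => ?_)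
  exact (gg_tends hN hβ hmm hO hD F hF hb x y).const_mul _

lemma wex_nonneg (k : ℕ) {β : ℝ} (hβ : 0 ≤ β) (R : Finset Pl) (f : Cf N L → ℝ) (hf : ∀ X, 0 ≤ f X) :
    0 ≤ wex N L k β R f := by
  unfold wex
  refine div_nonneg (integral_nonneg fun X => mul_nonneg (hf X) (Real.exp_pos _).le)
    (wZ_pos k hβ R).le

end T2H02.TT
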