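import Pool.Agent.T2H02.TT.StmV

/-!
# Upper bound of the mass gap, second part: the recursion for the two point function
-/

set_option autoImplicit false
set_option linter.unusedSectionVars false

noncomputable section

open Finset

namespace T2H02.TT

/-- a trapezoid of height one -/
def vv (W : ℕ) (j : ℤ) : ℝ := ((max 0 (2 * (W : ℤ) - |j|) - max 0 ((W : ℤ) - |j|) : ℤ) : ℝ) / W

lemma vv_nonneg (W : ℕ) (j : ℤ) : 0 ≤ vv W j := by
  unfold vv
  refine div_nonneg ?_ (Nat.cast_nonneg _)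
  have : (0 : ℤ) ≤ max 0 (2 * (W : ℤ) - |j|) - max 0 ((W : ℤ) - |j|) := by omega
  exact_mod_cast this

lemma vv_le (W : ℕ) (j : ℤ) : vv W j ≤ 1 := by
  unfold vv
  rcases Nat.eq_zero_or_pos W with h | h
  · subst h; simp
  · have hW : (0 : ℝ) < W := by exact_mod_cast h
    rw [div_le_one hW]
    have h0 := abs_nonneg j
    have : max 0 (2 * (W : ℤ) - |j|) - max 0 ((W : ℤ) - |j|) ≤ W := by omega
    exact_mod_cast this

lemma vv_abs (W : ℕ) (j : ℤ) : |vv W j| ≤ 1 := by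
  rw [abs_of_nonneg (vv_nonneg W j)]; exact vv_le W j

lemma vv_zero (W : ℕ) (j : ℤ) (h : 2 * (W : ℤ) ≤ |j|) : vv W j = 0 := by
  unfold vv
  have : max 0 (2 * (W : ℤ) - |j|) - max 0 ((W : ℤ) - |j|) = 0 := by omega
  rw [this]; simp

lemma vv_one (W : ℕ) (hW : 1 ≤ W) (j : ℤ) (h : |j| ≤ W) : vv W j = 1 := by
  unfold vv
  have : max 0 (2 * (W : ℤ) - |j|) - max 0 ((W : ℤ) - |j|) = W := by omega
  have hW : (0 : ℝ) < W := by exact_mod_cast hW
  rw [this]
  push_cast
  exact div_self hW.ne'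

lemma tri2 (W : ℤ) (hW : 1 ≤ W) (j : ℤ) :
    2 * max 0 (W - |j|) - max 0 (W - |j + 1|) - max 0 (W - |j - 1|) =
      (if j = 0 then 2 else 0) - (if j = W then 1 else 0) - (if j = -W then 1 else 0) := by
  rcases abs_cases j with h1 | h1 <;> rcases abs_cases (j + 1) with h2 | h2 <;>
    rcases abs_cases (j - 1) with h3 | h3 <;> rw [h1.1, h2.1, h3.1] <;>
    split_ifs <;> omega

lemma vv2 (W : ℕ) (hW : 1 ≤ W) (j : ℤ) :
    2 * vv W j - vv W (j + 1) - vv W (j - 1) =
      ((if j = W then 1 else 0) + (if j = -(W : ℤ) then 1 else 0) - (if j = 2 * (W : ℤ) then 1 else 0) -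
        (if j = -(2 * (W : ℤ)) then 1 else 0)) / W := by
  have h1 := tri2 (W : ℤ) (by exact_mod_cast hW) j
  have h2 := tri2 (2 * (W : ℤ)) (by omega) j
  have h3 : (2 * (max 0 (2 * (W : ℤ) - |j|) - max 0 ((W : ℤ) - |j|)) -
      (max 0 (2 * (W : ℤ) - |j + 1|) - max 0 ((W : ℤ) - |j + 1|)) -
      (max 0 (2 * (W : ℤ) - |j - 1|) - max 0 ((W : ℤ) - |j - 1|)) : ℤ) =
      (if j = W then 1 else 0) + (if j = -(W : ℤ) then 1 else 0) - (if j = 2 * (W : ℤ) then 1 else 0) -
        (if j = -(2 * (W : ℤ)) then 1 else 0) := by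
    linarith
  unfold vv
  rw [← mul_div_assoc, ← sub_div, ← sub_div]
  congr 1
  have h4 := congrArg (Int.cast : ℤ → ℝ) h3
  push_cast at h4 ⊢
  linarith

/-- the interval `[-(n+1), n+1]` -/
def II (n : ℕ) : Finset ℤ := Icc (-(n + 1 : ℕ) : ℤ) (n + 1 : ℕ)

lemma mem_II (n : ℕ) (j : ℤ) : j ∈ II n ↔ |j| ≤ n + 1 := by
  unfold II
  rw [mem_Icc, abs_le]
  push_cast
  exact Iff.rfl

/-- two point function of the sums over a slice -/
def AA (γ : Pl → ℝ) (W n : ℕ) (t : ℤ) : ℝ :=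
  ∑ i ∈ II n, vv W i * ∑ j ∈ II n, vv W j * γ (t, j - i)

/-- norm of `vv` -/
def V2 (W n : ℕ) : ℝ := ∑ i ∈ II n, vv W i * vv W i

lemma V2_ge (W n : ℕ) (hW : 1 ≤ W) (hn : W ≤ n) : 2 * (W : ℝ) ≤ V2 W n := by
  have hsub : Icc (-(W : ℤ)) W ⊆ II n := by
    intro j hj
    rw [mem_II, abs_le]
    rw [mem_Icc] at hj
    omega
  have h1 : ∑ i ∈ Icc (-(W : ℤ)) W, vv W i * vv W i ≤ V2 W n :=
    sum_le_sum_of_subset_of_nonneg hsub fun i _ _ => mul_self_nonneg _
  have h2 : ∑ i ∈ Icc (-(W : ℤ)) W, vv W i * vv W i = ∑ i ∈ Icc (-(W : ℤ)) (W : ℤ), (1 : ℝ) := by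
    refine sum_congr rfl fun i hi => ?_
    rw [mem_Icc] at hi
    rw [vv_one W hW i (abs_le.2 hi)]
    norm_num
  rw [h2, sum_const, Int.card_Icc, nsmul_eq_mul, mul_one] at h1
  have h3 : ((W : ℤ) + 1 - -(W : ℤ)).toNat = 2 * W + 1 := by omega
  rw [h3] at h1
  push_cast at h1
  linarith

lemma vv_sum (W n : ℕ) (hW : 1 ≤ W) (hn : 2 * W ≤ n) : ∑ i ∈ II n, vv W i ≤ 4 * (W : ℝ) := by
  have hsub : Icc (-(2 * (W : ℤ) - 1)) (2 * (W : ℤ) - 1) ⊆ II n := by
    intro j hj
    rw [mem_II, abs_le]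
    rw [mem_Icc] at hj
    omega
  have h1 : ∑ i ∈ Icc (-(2 * (W : ℤ) - 1)) (2 * (W : ℤ) - 1), vv W i = ∑ i ∈ II n, vv W i := by
    refine sum_subset hsub fun i _ hi => vv_zero W i ?_
    rw [mem_Icc] at hi
    rcases abs_cases i with h | h <;> omega
  rw [← h1]
  calc ∑ i ∈ Icc (-(2 * (W : ℤ) - 1)) (2 * (W : ℤ) - 1), vv W i
      ≤ ∑ i ∈ Icc (-(2 * (W : ℤ) - 1)) (2 * (W : ℤ) - 1), (1 : ℝ) := sum_le_sum fun i _ => vv_le W i
    _ = ((4 * W - 1 : ℕ) : ℝ) := by
        rw [sum_const, Int.card_Icc, nsmul_eq_mul, mul_one]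
        congr 1
        omega
    _ ≤ 4 * (W : ℝ) := by
        have : ((4 * W - 1 : ℕ) : ℝ) ≤ ((4 * W : ℕ) : ℝ) := by exact_mod_cast (by omega : 4 * W - 1 ≤ 4 * W)
        push_cast at this
        exact this

/-- the slice function -/
def sl (W : ℕ) (t : ℤ) (x : Pl) : ℝ := if x.1 = t then vv W x.2 else 0

lemma sl_abs (W : ℕ) (t : ℤ) (x : Pl) : |sl W t x| ≤ 1 := by
  unfold sl
  split_ifs
  · exact vv_abs W _
  · simp

lemma sl_supp (W n : ℕ) (t : ℤ) (hn : 2 * W ≤ n) (ht : |t| ≤ n) (x : Pl) (h : sl W t x ≠ 0) :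
    x ∈ Nb n 0 := by
  unfold sl at h
  split_ifs at h with h1
  · rw [mem_Nb]
    have h2 : ¬ 2 * (W : ℤ) ≤ |x.2| := fun h3 => h (vv_zero W _ h3)
    simp only [Prod.fst_zero, Prod.snd_zero, sub_zero]
    constructor
    · rw [h1]; exact ht
    · omega
  · exact absurd rfl h

lemma sl_lap (W : ℕ) (hW : 1 ≤ W) (t s j : ℤ) : lap (sl W t) (s, j) =
    (if s = t then 2 * vv W j + ((if j = W then 1 else 0) + (if j = -(W : ℤ) then 1 else 0) -
      (if j = 2 * (W : ℤ) then 1 else 0) - (if j = -(2 * (W : ℤ)) then 1 else 0)) / W else 0) -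
    (if s = t - 1 then vv W j else 0) - (if s = t + 1 then vv W j else 0) := by
  have h := vv2 W hW j
  unfold lap sl
  simp only [Prod.mk_add_mk, Prod.mk_sub_mk, add_zero, sub_zero]
  have e1 : (s + 1 = t) = (s = t - 1) := by
    apply propext; omega
  have e2 : (s - 1 = t) = (s = t + 1) := by
    apply propext; omega
  simp only [e1, e2]
  by_cases h1 : s = t
  · have h2 : ¬ s = t - 1 := by omega
    have h3 : ¬ s = t + 1 := by omega
    simp only [h1, if_true]
    rw [if_neg (by omega), if_neg (by omega)]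
    linarith
  · simp only [h1, if_false]
    ring

lemma sum_pick (n : ℕ) (t : ℤ) (ht : |t| ≤ n + 1) (f : ℤ → ℝ) :
    ∑ s ∈ II n, (if s = t then f s else 0) = f t := by
  rw [sum_ite_eq' (II n) t f, if_pos ((mem_II n t).2 ht)]

lemma Nb_prod (n : ℕ) (f : Pl → ℝ) : ∑ x ∈ Nb (n + 1) 0, f x = ∑ s ∈ II n, ∑ j ∈ II n, f (s, j) := by
  have : Nb (n + 1) 0 = II n ×ˢ II n := by
    unfold Nb II
    simp
  rw [this, sum_product]

/-- the equation tested with a slice -/
lemma slice_eq (γ : Pl → ℝ) (μ2 : ℝ) (W n : ℕ) (hW : 1 ≤ W) (hn : 2 * W ≤ n) (t i : ℤ)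
    (ht : |t| ≤ n) :
    ∑ x ∈ Nb (n + 1) 0, (lap (sl W t) x + μ2 * sl W t x) * γ (x - (0, i)) =
      (2 + μ2) * (∑ j ∈ II n, vv W j * γ (t, j - i)) - (∑ j ∈ II n, vv W j * γ (t - 1, j - i)) -
        (∑ j ∈ II n, vv W j * γ (t + 1, j - i)) +
        (γ (t, W - i) + γ (t, -(W : ℤ) - i) - γ (t, 2 * W - i) - γ (t, -(2 * (W : ℤ)) - i)) / W := by
  rw [Nb_prod]
  have e1 : ∀ s j : ℤ, (lap (sl W t) (s, j) + μ2 * sl W t (s, j)) * γ ((s, j) - (0, i)) =
      (if s = t then ((2 + μ2) * vv W j + ((if j = W then 1 else 0) + (if j = -(W : ℤ) then 1 else 0) -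
        (if j = 2 * (W : ℤ) then 1 else 0) - (if j = -(2 * (W : ℤ)) then 1 else 0)) / W) *
        γ (s, j - i) else 0) -
      (if s = t - 1 then vv W j * γ (s, j - i) else 0) - (if s = t + 1 then vv W j * γ (s, j - i) else 0) := by
    intro s j
    rw [sl_lap W hW]
    simp only [Prod.mk_sub_mk, sub_zero]
    unfold sl
    by_cases h1 : s = t
    · have h2 : ¬ s = t - 1 := by omega
      have h3 : ¬ s = t + 1 := by omega
      simp only [if_pos h1, if_neg h2, if_neg h3]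
      ring
    · simp only [if_neg h1]
      by_cases h2 : s = t - 1
      · have h3 : ¬ s = t + 1 := by omega
        simp only [if_pos h2, if_neg h3]
        ring
      · simp only [if_neg h2]
        by_cases h3 : s = t + 1
        · simp only [if_pos h3]; ring
        · simp only [if_neg h3]; ring
  have e2 : ∑ s ∈ II n, ∑ j ∈ II n, (lap (sl W t) (s, j) + μ2 * sl W t (s, j)) * γ ((s, j) - (0, i)) =
      ∑ j ∈ II n, (((2 + μ2) * vv W j + ((if j = W then 1 else 0) + (if j = -(W : ℤ) then 1 else 0) -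
        (if j = 2 * (W : ℤ) then 1 else 0) - (if j = -(2 * (W : ℤ)) then 1 else 0)) / W) *
        γ (t, j - i) - vv W j * γ (t - 1, j - i) - vv W j * γ (t + 1, j - i)) := by
    rw [sum_comm]
    refine sum_congr rfl fun j _ => ?_
    simp only [e1]
    rw [sum_sub_distrib, sum_sub_distrib]
    rw [abs_le] at ht
    rw [sum_pick n t (by rw [abs_le]; omega) (fun s => ((2 + μ2) * vv W j +
        ((if j = W then 1 else 0) + (if j = -(W : ℤ) then 1 else 0) -
        (if j = 2 * (W : ℤ) then 1 else 0) - (if j = -(2 * (W : ℤ)) then 1 else 0)) / W) *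
        γ (s, j - i)), sum_pick n (t - 1) (by rw [abs_le]; omega) (fun s => vv W j * γ (s, j - i)),
      sum_pick n (t + 1) (by rw [abs_le]; omega) (fun s => vv W j * γ (s, j - i))]
  rw [e2]
  have e3 : ∀ j : ℤ, ((2 + μ2) * vv W j + ((if j = W then 1 else 0) + (if j = -(W : ℤ) then 1 else 0) -
        (if j = 2 * (W : ℤ) then 1 else 0) - (if j = -(2 * (W : ℤ)) then 1 else 0)) / W) *
        γ (t, j - i) - vv W j * γ (t - 1, j - i) - vv W j * γ (t + 1, j - i) =
      (2 + μ2) * (vv W j * γ (t, j - i)) - vv W j * γ (t - 1, j - i) - vv W j * γ (t + 1, j - i) +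
      ((if j = W then γ (t, j - i) / W else 0) + (if j = -(W : ℤ) then γ (t, j - i) / W else 0) -
        (if j = 2 * (W : ℤ) then γ (t, j - i) / W else 0) -
        (if j = -(2 * (W : ℤ)) then γ (t, j - i) / W else 0)) := by
    intro j
    by_cases h1 : j = W
    · have h2 : ¬ j = -(W : ℤ) := by omega
      have h3 : ¬ j = 2 * (W : ℤ) := by omega
      have h4 : ¬ j = -(2 * (W : ℤ)) := by omega
      simp only [if_pos h1, if_neg h2, if_neg h3, if_neg h4]
      ring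
    · by_cases h2 : j = -(W : ℤ)
      · have h3 : ¬ j = 2 * (W : ℤ) := by omega
        have h4 : ¬ j = -(2 * (W : ℤ)) := by omega
        simp only [if_neg h1, if_pos h2, if_neg h3, if_neg h4]
        ring
      · by_cases h3 : j = 2 * (W : ℤ)
        · have h4 : ¬ j = -(2 * (W : ℤ)) := by omega
          simp only [if_neg h1, if_neg h2, if_pos h3, if_neg h4]
          ring
        · simp only [if_neg h1, if_neg h2, if_neg h3]
          by_cases h4 : j = -(2 * (W : ℤ))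
          · simp only [if_pos h4]; ring
          · simp only [if_neg h4]; ring
  rw [sum_congr rfl fun j _ => e3 j, sum_add_distrib, sum_sub_distrib, sum_sub_distrib, ← mul_sum,
    sum_sub_distrib, sum_sub_distrib, sum_add_distrib]
  have hWn : 2 * (W : ℤ) ≤ n := by exact_mod_cast hn
  rw [sum_pick n W (by rw [abs_le]; omega) (fun j => γ (t, j - i) / W),
    sum_pick n (-(W : ℤ)) (by rw [abs_le]; omega) (fun j => γ (t, j - i) / W),
    sum_pick n (2 * (W : ℤ)) (by rw [abs_le]; omega) (fun j => γ (t, j - i) / W),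
    sum_pick n (-(2 * (W : ℤ))) (by rw [abs_le]; omega) (fun j => γ (t, j - i) / W)]
  ring

/-- the recursion for the slice two point function -/
lemma AA_eq (γ : Pl → ℝ) (μ2 δ : ℝ) (W n : ℕ) (hW : 1 ≤ W) (hn : 2 * W ≤ n)
    (h2 : ∀ ψ : Pl → ℝ, (∀ x, |ψ x| ≤ 1) → (∀ x, ψ x ≠ 0 → x ∈ Nb n 0) → ∀ b ∈ Nb n 0,
      |∑ x ∈ Nb (n + 1) 0, (lap ψ x + μ2 * ψ x) * γ (x - b) - ψ b| ≤ δ)
    (h3 : ∀ x, |γ x| ≤ γ 0) (t : ℤ) (ht : |t| ≤ n) :
    |(2 + μ2) * AA γ W n t - AA γ W n (t - 1) - AA γ W n (t + 1) - (if t = 0 then V2 W n else 0)| ≤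
      4 * W * (δ + 4 * γ 0 / W) := by
  have hW' : (0 : ℝ) < W := by exact_mod_cast hW
  have hγ0 : 0 ≤ γ 0 := (abs_nonneg _).trans (h3 0)
  have hone : ∀ i : ℤ, |vv W i * (∑ x ∈ Nb (n + 1) 0, (lap (sl W t) x + μ2 * sl W t x) * γ (x - (0, i)) -
      sl W t (0, i))| ≤ vv W i * δ := by
    intro i
    rw [abs_mul, abs_of_nonneg (vv_nonneg W i)]
    by_cases hi : |i| ≤ n
    · refine mul_le_mul_of_nonneg_left ?_ (vv_nonneg W i)
      refine h2 _ (sl_abs W t) (sl_supp W n t hn ht) (0, i) ?_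
      rw [mem_Nb]
      simp only [Prod.fst_zero, Prod.snd_zero, sub_zero]
      exact ⟨by simp, hi⟩
    · rw [vv_zero W i (by omega)]
      simp
  have hsl : ∀ i : ℤ, sl W t (0, i) = if t = 0 then vv W i else 0 := by
    intro i
    unfold sl
    by_cases h : t = 0
    · simp [h]
    · rw [if_neg (by simpa using fun h' => h h'.symm), if_neg h]
  have e1 : (2 + μ2) * AA γ W n t - AA γ W n (t - 1) - AA γ W n (t + 1) - (if t = 0 then V2 W n else 0) =
      ∑ i ∈ II n, (vv W i * (∑ x ∈ Nb (n + 1) 0, (lap (sl W t) x + μ2 * sl W t x) * γ (x - (0, i)) -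
        sl W t (0, i)) -
        vv W i * ((γ (t, W - i) + γ (t, -(W : ℤ) - i) - γ (t, 2 * W - i) - γ (t, -(2 * (W : ℤ)) - i)) / W)) := by
    have e2 : ∀ i : ℤ, vv W i * (∑ x ∈ Nb (n + 1) 0, (lap (sl W t) x + μ2 * sl W t x) * γ (x - (0, i)) -
        sl W t (0, i)) -
        vv W i * ((γ (t, W - i) + γ (t, -(W : ℤ) - i) - γ (t, 2 * W - i) - γ (t, -(2 * (W : ℤ)) - i)) / W) =
        (2 + μ2) * (vv W i * ∑ j ∈ II n, vv W j * γ (t, j - i)) -
          vv W i * (∑ j ∈ II n, vv W j * γ (t - 1, j - i)) -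
          vv W i * (∑ j ∈ II n, vv W j * γ (t + 1, j - i)) -
          (if t = 0 then vv W i * vv W i else 0) := by
      intro i
      rw [slice_eq γ μ2 W n hW hn t i ht, hsl]
      by_cases h : t = 0
      · simp only [if_pos h]; ring
      · simp only [if_neg h]; ring
    rw [sum_congr rfl fun i _ => e2 i, sum_sub_distrib, sum_sub_distrib, sum_sub_distrib, ← mul_sum]
    have e3 : ∑ i ∈ II n, (if t = 0 then vv W i * vv W i else 0) = if t = 0 then V2 W n else 0 := by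
      by_cases h : t = 0
      · simp only [if_pos h]; rfl
      · simp only [if_neg h]; simp
    rw [e3]
    rfl
  rw [e1]
  have e4 : ∀ i : ℤ, |vv W i * (∑ x ∈ Nb (n + 1) 0, (lap (sl W t) x + μ2 * sl W t x) * γ (x - (0, i)) -
        sl W t (0, i)) -
        vv W i * ((γ (t, W - i) + γ (t, -(W : ℤ) - i) - γ (t, 2 * W - i) - γ (t, -(2 * (W : ℤ)) - i)) / W)| ≤
      vv W i * (δ + 4 * γ 0 / W) := by
    intro i
    refine (abs_sub _ _).trans ?_
    rw [mul_add]
    refine add_le_add (hone i) ?_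
    rw [abs_mul, abs_of_nonneg (vv_nonneg W i)]
    refine mul_le_mul_of_nonneg_left ?_ (vv_nonneg W i)
    rw [abs_div, abs_of_pos hW']
    refine div_le_div_of_nonneg_right ?_ hW'.le
    have a1 := h3 (t, (W : ℤ) - i)
    have a2 := h3 (t, -(W : ℤ) - i)
    have a3 := h3 (t, 2 * (W : ℤ) - i)
    have a4 := h3 (t, -(2 * (W : ℤ)) - i)
    rw [abs_le] at *
    constructor <;> linarith [a1.1, a1.2, a2.1, a2.2, a3.1, a3.2, a4.1, a4.2]
  have hδ : 0 ≤ δ := by
    have := h2 (fun _ => 0) (by simp) (by simp) 0 (by rw [mem_Nb]; simp)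
    exact (abs_nonneg _).trans this
  calc _ ≤ ∑ i ∈ II n, vv W i * (δ + 4 * γ 0 / W) :=
        (abs_sum_le_sum_abs _ _).trans (sum_le_sum fun i _ => e4 i)
    _ = (∑ i ∈ II n, vv W i) * (δ + 4 * γ 0 / W) := by rw [sum_mul]
    _ ≤ 4 * W * (δ + 4 * γ 0 / W) := by
        refine mul_le_mul_of_nonneg_right (vv_sum W n hW hn) ?_
        positivity

lemma AA_neg (γ : Pl → ℝ) (W n : ℕ) (h1 : ∀ x, γ (-x) = γ x) (t : ℤ) : AA γ W n (-t) = AA γ W n t := by
  unfold AA
  simp only [mul_sum]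
  rw [sum_comm]
  refine sum_congr rfl fun i _ => sum_congr rfl fun j _ => ?_
  have : γ (-t, i - j) = γ (t, j - i) := by
    rw [← h1 (t, j - i)]
    congr 1
    simp
  rw [this]
  ring

/-- bound of `γ 0` -/
lemma gam_zero (γ : Pl → ℝ) (μ2 δ : ℝ) (n : ℕ) (hμ : 0 < μ2) (hδ : δ ≤ 1)
    (h2 : ∀ ψ : Pl → ℝ, (∀ x, |ψ x| ≤ 1) → (∀ x, ψ x ≠ 0 → x ∈ Nb n 0) → ∀ b ∈ Nb n 0,
      |∑ x ∈ Nb (n + 1) 0, (lap ψ x + μ2 * ψ x) * γ (x - b) - ψ b| ≤ δ)
    (h3 : ∀ x, |γ x| ≤ γ 0) : γ 0 ≤ 2 / μ2 := by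
  have h := h2 (fun x => if x = 0 then 1 else 0) (fun x => by split_ifs <;> simp)
    (fun x hx => by
      by_cases h : x = 0
      · subst h; rw [mem_Nb]; simp
      · simp [h] at hx) 0 (by rw [mem_Nb]; simp)
  have e1 : ∑ x ∈ Nb (n + 1) 0, (lap (fun x => if x = 0 then (1 : ℝ) else 0) x +
      μ2 * (if x = 0 then (1 : ℝ) else 0)) * γ (x - 0) =
      (4 + μ2) * γ 0 - γ (-1, 0) - γ (1, 0) - γ (0, -1) - γ (0, 1) := by
    have e2 : ∀ x : Pl, (lap (fun x => if x = 0 then (1 : ℝ) else 0) x +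
        μ2 * (if x = 0 then (1 : ℝ) else 0)) * γ (x - 0) =
        (if x = 0 then (4 + μ2) * γ x else 0) - (if x = (-1, 0) then γ x else 0) -
          (if x = (1, 0) then γ x else 0) - (if x = (0, -1) then γ x else 0) -
          (if x = (0, 1) then γ x else 0) := by
      intro x
      unfold lap
      rw [sub_zero]
      have a1 : (x + (1, 0) = 0) = (x = (-1, 0)) := by
        apply propext
        simp only [Prod.ext_iff, Prod.fst_add, Prod.snd_add, Prod.fst_zero, Prod.snd_zero]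
        constructor <;> rintro ⟨h1, h2⟩ <;> constructor <;> omega
      have a2 : (x - (1, 0) = 0) = (x = (1, 0)) := by
        apply propext
        simp only [Prod.ext_iff, Prod.fst_sub, Prod.snd_sub, Prod.fst_zero, Prod.snd_zero]
        constructor <;> rintro ⟨h1, h2⟩ <;> constructor <;> omega
      have a3 : (x + (0, 1) = 0) = (x = (0, -1)) := by
        apply propext
        simp only [Prod.ext_iff, Prod.fst_add, Prod.snd_add, Prod.fst_zero, Prod.snd_zero]
        constructor <;> rintro ⟨h1, h2⟩ <;> constructor <;> omega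
      have a4 : (x - (0, 1) = 0) = (x = (0, 1)) := by
        apply propext
        simp only [Prod.ext_iff, Prod.fst_sub, Prod.snd_sub, Prod.fst_zero, Prod.snd_zero]
        constructor <;> rintro ⟨h1, h2⟩ <;> constructor <;> omega
      simp only [a1, a2, a3, a4]
      by_cases b0 : x = 0
      · subst b0
        rw [if_pos rfl, if_pos rfl, if_neg (by decide), if_neg (by decide), if_neg (by decide),
          if_neg (by decide), if_neg (by decide), if_neg (by decide), if_neg (by decide),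
          if_neg (by decide)]
        ring
      · simp only [if_neg b0]
        split_ifs <;> ring
    rw [sum_congr rfl fun x _ => e2 x, sum_sub_distrib, sum_sub_distrib, sum_sub_distrib,
      sum_sub_distrib]
    have hm : ∀ x : Pl, |x.1| ≤ 1 → |x.2| ≤ 1 → x ∈ Nb (n + 1) 0 := by
      intro x h1 h2
      rw [mem_Nb]
      simp only [Prod.fst_zero, Prod.snd_zero, sub_zero]
      push_cast
      omega
    rw [sum_ite_eq' _ (0 : Pl) (fun x => (4 + μ2) * γ x), if_pos (hm _ (by simp) (by simp)),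
      sum_ite_eq' _ ((-1, 0) : Pl) γ, if_pos (hm _ (by simp) (by simp)),
      sum_ite_eq' _ ((1, 0) : Pl) γ, if_pos (hm _ (by simp) (by simp)),
      sum_ite_eq' _ ((0, -1) : Pl) γ, if_pos (hm _ (by simp) (by simp)),
      sum_ite_eq' _ ((0, 1) : Pl) γ, if_pos (hm _ (by simp) (by simp))]
  rw [e1] at h
  simp only [if_true] at h
  have a1 := (abs_le.1 (h3 (-1, 0))).2
  have a2 := (abs_le.1 (h3 (1, 0))).2
  have a3 := (abs_le.1 (h3 (0, -1))).2
  have a4 := (abs_le.1 (h3 (0, 1))).2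
  have a5 := (abs_le.1 h).2
  rw [le_div_iff₀ hμ]
  nlinarith

end T2H02.TT
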