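import Pool.Agent.T2H02.TT.Fin14
import Pool.Agent.T2H02.TT.Fin15

/-!
# Upper bound of the mass gap, third part
-/

set_option autoImplicit false
set_option linter.unusedSectionVars false

noncomputable section

open MeasureTheory Matrix Filter Topology
open scoped Matrix.Norms.Frobenius

namespace T2H02.TT

/-- the connected two point functions of half space observables decay at least with the rate `m`: the
spectral gap of the transfer matrix is at least `m` -/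
def GapI (N L : ℕ) [NeZero L] (k : ℕ) (β m : ℝ) : Prop :=
  ∀ A : Finset Pl, (∀ a ∈ A, 0 ≤ a.1) → ∀ f : Cf N L → ℝ, Loc A f → ∀ n : ℕ,
    |Phi N L k β (fun X => f (rf X) * f (shf ((n : ℤ), 0) X)) - Phi N L k β f ^ 2| ≤
      Real.exp (-m * n) * (Phi N L k β (fun X => f (rf X) * f X) - Phi N L k β f ^ 2)

variable {N L : ℕ} [NeZero L]

lemma wex_am (k : ℕ) {β : ℝ} (hβ : 0 ≤ β) (R : Finset Pl) (f g : Cf N L → ℝ) (hf : Measurable f)
    (hfb : ∃ K, ∀ X, |f X| ≤ K) (hg : Measurable g) (hgb : ∃ K, ∀ X, |g X| ≤ K) :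
    2 * |wex N L k β R (fun X => f X * g X)| ≤
      wex N L k β R (fun X => f X * f X) + wex N L k β R (fun X => g X * g X) := by
  obtain ⟨Kf, hKf⟩ := hfb
  obtain ⟨Kg, hKg⟩ := hgb
  have b1 : ∀ (u v : Cf N L → ℝ) (Ku Kv : ℝ), (∀ X, |u X| ≤ Ku) → (∀ X, |v X| ≤ Kv) →
      ∀ X, |u X * v X| ≤ Ku * Kv := by
    intro u v Ku Kv hu hv X
    rw [abs_mul]
    exact mul_le_mul (hu X) (hv X) (abs_nonneg _) ((abs_nonneg _).trans (hu X))
  have key : ∀ c : ℝ, c ^ 2 = 1 → 0 ≤ wex N L k β R (fun X => f X * f X) +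
      wex N L k β R (fun X => g X * g X) + 2 * c * wex N L k β R (fun X => f X * g X) := by
    intro c hc
    have h := wex_nonneg k hβ R (fun X : Cf N L => (f X + c * g X) ^ 2) (fun X => sq_nonneg _)
    have e : (fun X : Cf N L => (f X + c * g X) ^ 2) =
        fun X => (f X * f X + g X * g X) + 2 * c * (f X * g X) := by
      funext X
      have : (c * g X) ^ 2 = g X * g X := by rw [mul_pow, hc]; ring
      nlinarith
    have e1 := wex_add k hβ R (fun X : Cf N L => f X * f X + g X * g X)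
      (fun X : Cf N L => 2 * c * (f X * g X)) ((hf.mul hf).add (hg.mul hg))
      ⟨Kf * Kf + Kg * Kg, fun X => (abs_add_le _ _).trans (add_le_add (b1 f f _ _ hKf hKf X)
        (b1 g g _ _ hKg hKg X))⟩ ((hf.mul hg).const_mul _)
      ⟨|2 * c| * (Kf * Kg), fun X => by
        rw [abs_mul]
        exact mul_le_mul_of_nonneg_left (b1 f g _ _ hKf hKg X) (abs_nonneg _)⟩
    have e2 := wex_add k hβ R (fun X : Cf N L => f X * f X) (fun X : Cf N L => g X * g X)
      (hf.mul hf) ⟨_, b1 f f _ _ hKf hKf⟩ (hg.mul hg) ⟨_, b1 g g _ _ hKg hKg⟩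
    have e3 := wex_mul k R (2 * c) (fun X : Cf N L => f X * g X) (β := β)
    rw [e, e1, e2, e3] at h
    exact h
  have h1 := key 1 (by norm_num)
  have h2 := key (-1) (by norm_num)
  rcases abs_cases (wex N L k β R (fun X => f X * g X)) with h | h <;> linarith

variable {k : ℕ} (hN : 2 ≤ N) {β : ℝ} (hβ : 0 ≤ β) {m κ : ℝ}

/-- combination of the observables in a slice -/
def slc (W n : ℕ) (F : Ph N L → ℝ) (t : ℤ) (X : Cf N L) : ℝ :=
  ∑ x ∈ ({t} : Finset ℤ) ×ˢ II n, vv W x.2 * F (pt X x)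

lemma slc_meas (W n : ℕ) (F : Ph N L → ℝ) (hF : Continuous F) (t : ℤ) :
    Measurable (slc (N := N) (L := L) W n F t) :=
  Finset.measurable_sum _ fun x _ => ((hF.comp (pt_cont x)).measurable).const_mul _

lemma slc_bd (W n : ℕ) (hW : 1 ≤ W) (hn : 2 * W ≤ n) (F : Ph N L → ℝ) (hb : ∀ φ, |F φ| ≤ 1) (t : ℤ)
    (X : Cf N L) : |slc W n F t X| ≤ 4 * W := by
  refine le_trans ?_ (vv_sum W n hW hn)
  unfold slc
  rw [Finset.sum_product, Finset.sum_singleton]
  refine (Finset.abs_sum_le_sum_abs _ _).trans (Finset.sum_le_sum fun j _ => ?_)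
  rw [abs_mul, abs_of_nonneg (vv_nonneg W j)]
  calc vv W j * |F (pt X (t, j))| ≤ vv W j * 1 := mul_le_mul_of_nonneg_left (hb _) (vv_nonneg W j)
    _ = vv W j := mul_one _

/-- two point function relative to the origin -/
def g0 (N L : ℕ) [NeZero L] (k : ℕ) (β : ℝ) (F : Ph N L → ℝ) (x : Pl) : ℝ := gg N L k β F 0 x

lemma gg_g0 (hmm : 0 < m) (hO : S_O) (hS : S_SY) (hD : Dec N L k hN β hβ m κ) (F : Ph N L → ℝ)
    (hF : Continuous F) (hb : ∀ φ, |F φ| ≤ 1) (x y : Pl) :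
    gg N L k β F x y = g0 N L k β F (y - x) := by
  have h := gg_shift hN hβ hmm hO hS hD F hF hb 0 (y - x) x
  rw [zero_add, sub_add_cancel] at h
  exact h

lemma g0_neg (hmm : 0 < m) (hO : S_O) (hS : S_SY) (hD : Dec N L k hN β hβ m κ) (F : Ph N L → ℝ)
    (hF : Continuous F) (hb : ∀ φ, |F φ| ≤ 1) (x : Pl) : g0 N L k β F (-x) = g0 N L k β F x := by
  have h := gg_g0 hN hβ hmm hO hS hD F hF hb x 0
  rw [gg_symm, zero_sub] at h
  exact h.symm

lemma slc_tends (hmm : 0 < m) (hO : S_O) (hS : S_SY) (hD : Dec N L k hN β hβ m κ) (W n : ℕ)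
    (F : Ph N L → ℝ) (hF : Continuous F) (hb : ∀ φ, |F φ| ≤ 1) (s t : ℤ) :
    Tendsto (fun j : ℕ => wex N L k β (Nb j 0) (fun X => slc W n F s X * slc W n F t X)) atTop
      (𝓝 (AA (g0 N L k β F) W n (t - s))) := by
  have h := bil_tends hN hβ hmm hO hD F hF hb (({s} : Finset ℤ) ×ˢ II n) (({t} : Finset ℤ) ×ˢ II n)
    (fun x => vv W x.2) (fun x => vv W x.2)
  have e : ∑ x ∈ ({s} : Finset ℤ) ×ˢ II n, vv W x.2 * ∑ y ∈ ({t} : Finset ℤ) ×ˢ II n,
      vv W y.2 * gg N L k β F x y = AA (g0 N L k β F) W n (t - s) := by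
    unfold AA
    rw [Finset.sum_product, Finset.sum_singleton]
    refine Finset.sum_congr rfl fun i _ => ?_
    rw [Finset.sum_product, Finset.sum_singleton]
    congr 1
    refine Finset.sum_congr rfl fun j _ => ?_
    rw [gg_g0 hN hβ hmm hO hS hD F hF hb]
    rfl
  rw [e] at h
  exact h

lemma g0_abs (hmm : 0 < m) (hO : S_O) (hS : S_SY) (hD : Dec N L k hN β hβ m κ)
    (F : Ph N L → ℝ) (hF : Continuous F) (hb : ∀ φ, |F φ| ≤ 1) (x : Pl) :
    |g0 N L k β F x| ≤ g0 N L k β F 0 := by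
  have h1 := (gg_tends hN hβ hmm hO hD F hF hb 0 x).abs.const_mul 2
  have h2 := (gg_tends hN hβ hmm hO hD F hF hb 0 0).add (gg_tends hN hβ hmm hO hD F hF hb x x)
  have h3 := le_of_tendsto_of_tendsto' h1 h2 fun j => wex_am k hβ (Nb j 0)
    (fun X : Cf N L => F (pt X 0)) (fun X : Cf N L => F (pt X x)) (hF.comp (pt_cont 0)).measurable
    ⟨1, fun X => hb _⟩ (hF.comp (pt_cont x)).measurable ⟨1, fun X => hb _⟩
  rw [gg_g0 hN hβ hmm hO hS hD F hF hb x x, sub_self] at h3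
  change 2 * |g0 N L k β F x| ≤ g0 N L k β F 0 + g0 N L k β F 0 at h3
  linarith

lemma AA_abs (hmm : 0 < m) (hO : S_O) (hS : S_SY) (hD : Dec N L k hN β hβ m κ) (W n : ℕ)
    (hW : 1 ≤ W) (hn : 2 * W ≤ n) (F : Ph N L → ℝ) (hF : Continuous F) (hb : ∀ φ, |F φ| ≤ 1) (t : ℤ) :
    |AA (g0 N L k β F) W n t| ≤ AA (g0 N L k β F) W n 0 := by
  have h1 := (slc_tends hN hβ hmm hO hS hD W n F hF hb 0 t).abs.const_mul 2
  have h2 := (slc_tends hN hβ hmm hO hS hD W n F hF hb 0 0).add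
    (slc_tends hN hβ hmm hO hS hD W n F hF hb t t)
  have h3 := le_of_tendsto_of_tendsto' h1 h2 fun j => wex_am k hβ (Nb j 0)
    (fun X : Cf N L => slc W n F 0 X) (fun X : Cf N L => slc W n F t X) (slc_meas W n F hF 0)
    ⟨_, slc_bd W n hW hn F hb 0⟩ (slc_meas W n F hF t) ⟨_, slc_bd W n hW hn F hb t⟩
  rw [sub_zero, sub_self, sub_self] at h3
  linarith

/-! ### the expectation vanishes by centre symmetry -/

lemma pt_cbt (X : Cf N L) (x : Pl) : pt (cbt 0 X) x = cph (pt X x) := by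
  funext y j
  fin_cases j <;> simp [pt, cbt, cph]

lemma wex_zero (hCB : S_CB) (k : ℕ) (hN : 2 ≤ N) {β : ℝ} (hβ : 0 ≤ β) (R : Finset Pl) (F : Ph N L → ℝ)
    (hF : Continuous F) (hb : ∀ φ, |F φ| ≤ 1)
    (hc : ∀ φ, ∑ n ∈ Finset.range N, F (cph^[n] φ) = 0) (x : Pl) :
    wex N L k β R (fun X => F (pt X x)) = 0 := by
  obtain ⟨h1, -, -, -, -⟩ := hCB N k L hN 0
  have hcc : Continuous (cph : Ph N L → Ph N L) := by
    refine continuous_pi fun y => continuous_pi fun j => ?_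
    unfold cph
    split_ifs
    · exact continuous_const.mul ((continuous_apply j).comp (continuous_apply y))
    · exact (continuous_apply j).comp (continuous_apply y)
  have hit : ∀ n : ℕ, Continuous fun X : Cf N L => F (cph^[n] (pt X x)) := fun n =>
    hF.comp ((hcc.iterate n).comp (pt_cont x))
  have h2 : ∀ n : ℕ, wex N L k β R (fun X => F (cph^[n] (pt X x))) = wex N L k β R (fun X => F (pt X x)) := by
    intro n
    induction n with
    | zero => rfl
    | succ n ih =>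
      rw [← ih, ← h1 β R (fun X => F (cph^[n] (pt X x))) (hit n).measurable ⟨1, fun X => hb _⟩]
      simp only [pt_cbt, Function.iterate_succ, Function.comp_apply]
  have h3 := wex_sum k hβ R (Finset.range N) (fun _ => (1 : ℝ))
    (fun (n : ℕ) (X : Cf N L) => F (cph^[n] (pt X x))) (fun n => (hit n).measurable)
    (fun n => ⟨1, fun X => hb _⟩)
  simp only [one_mul, hc, h2, Finset.sum_const, Finset.card_range, nsmul_eq_mul] at h3
  have h4 := wex_const k hβ R (0 : ℝ) (N := N) (L := L)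
  rw [h4] at h3
  have hN0 : (N : ℝ) ≠ 0 := by
    have : 0 < N := by omega
    exact_mod_cast this.ne'
  rcases mul_eq_zero.1 h3.symm with h | h
  · exact absurd h hN0
  · exact h

lemma slc_zero (hCB : S_CB) (k : ℕ) (hN : 2 ≤ N) {β : ℝ} (hβ : 0 ≤ β) (R : Finset Pl) (W n : ℕ)
    (F : Ph N L → ℝ) (hF : Continuous F) (hb : ∀ φ, |F φ| ≤ 1)
    (hc : ∀ φ, ∑ n ∈ Finset.range N, F (cph^[n] φ) = 0) (t : ℤ) :
    wex N L k β R (fun X => slc W n F t X) = 0 := by
  unfold slc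
  rw [wex_sum k hβ R _ (fun x : Pl => vv W x.2) (fun (x : Pl) (X : Cf N L) => F (pt X x))
    (fun x => (hF.comp (pt_cont x)).measurable) (fun x => ⟨1, fun X => hb _⟩)]
  refine Finset.sum_eq_zero fun x _ => ?_
  rw [wex_zero hCB k hN hβ R F hF hb hc x, mul_zero]

/-! ### the normalised slice observable -/

lemma slc_loc (W n : ℕ) (hW : 1 ≤ W) (hn : 2 * W ≤ n) (F : Ph N L → ℝ) (hF : Continuous F)
    (hb : ∀ φ, |F φ| ≤ 1) :
    Loc (({0} : Finset ℤ) ×ˢ II n) (fun X : Cf N L => (4 * (W : ℝ))⁻¹ * slc W n F 0 X) := by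
  have hW' : (0 : ℝ) < W := by exact_mod_cast hW
  refine ⟨(slc_meas W n F hF 0).const_mul _, fun X => ?_, fun X Y h => ?_⟩
  · show |(4 * (W : ℝ))⁻¹ * slc W n F 0 X| ≤ 1
    rw [abs_mul, abs_of_pos (by positivity : (0 : ℝ) < (4 * (W : ℝ))⁻¹)]
    have := slc_bd W n hW hn F hb 0 X
    rw [inv_mul_le_iff₀ (by positivity)]
    linarith
  · show (4 * (W : ℝ))⁻¹ * slc W n F 0 X = (4 * (W : ℝ))⁻¹ * slc W n F 0 Y
    congr 1
    refine Finset.sum_congr rfl fun x hx => ?_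
    congr 1
    refine (loc_pt F hF hb x).2.2 X Y fun l hl => h l fun a ha => ?_
    have := hl a ha
    rw [Finset.mem_singleton] at this
    rw [this]
    exact hx

lemma slc_rf (W n : ℕ) (F : Ph N L → ℝ) (X : Cf N L) : slc W n F 0 (rf X) = slc W n F 0 X := by
  unfold slc
  refine Finset.sum_congr rfl fun x hx => ?_
  rw [Finset.mem_product, Finset.mem_singleton] at hx
  have : pt (rf X) x = pt X x := by
    funext y j
    obtain ⟨x1, x2⟩ := x
    simp only at hx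
    rw [hx.1]
    fin_cases j <;> simp [pt, rf]
  rw [this]

lemma slc_shf (W n : ℕ) (F : Ph N L → ℝ) (X : Cf N L) (t : ℤ) :
    slc W n F 0 (shf (t, 0) X) = slc W n F t X := by
  unfold slc
  rw [Finset.sum_product, Finset.sum_singleton, Finset.sum_product, Finset.sum_singleton]
  refine Finset.sum_congr rfl fun j _ => ?_
  rw [pt_shf]
  simp

/-- the gap inequality for the slice observable -/
lemma slc_gap (hCB : S_CB) (hmm : 0 < m) (hO : S_O) (hS : S_SY) (hD : Dec N L k hN β hβ m κ)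
    (W n : ℕ) (hW : 1 ≤ W) (hn : 2 * W ≤ n) (F : Ph N L → ℝ) (hF : Continuous F)
    (hb : ∀ φ, |F φ| ≤ 1) (hc : ∀ φ, ∑ n ∈ Finset.range N, F (cph^[n] φ) = 0) (m' : ℝ)
    (hG : GapI N L k β m') :
    AA (g0 N L k β F) W n 1 ≤ Real.exp (-m') * AA (g0 N L k β F) W n 0 := by
  have hW' : (0 : ℝ) < W := by exact_mod_cast hW
  have h := hG (({0} : Finset ℤ) ×ˢ II n) (fun a ha => by
    rw [Finset.mem_product, Finset.mem_singleton] at ha
    rw [ha.1]) _ (slc_loc W n hW hn F hF hb) 1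
  have e0 : Phi N L k β (fun X : Cf N L => (4 * (W : ℝ))⁻¹ * slc W n F 0 X) = 0 := by
    unfold Phi
    have : (fun j : ℕ => wex N L k β (Nb j 0) fun X : Cf N L => (4 * (W : ℝ))⁻¹ * slc W n F 0 X) =
        fun _ => 0 := by
      funext j
      rw [wex_mul, slc_zero hCB k hN hβ _ W n F hF hb hc, mul_zero]
    rw [this]
    exact tendsto_const_nhds.limUnder_eq
  have e1 : ∀ t : ℤ, Phi N L k β (fun X : Cf N L => (4 * (W : ℝ))⁻¹ * slc W n F 0 (rf X) *
      ((4 * (W : ℝ))⁻¹ * slc W n F 0 (shf (t, 0) X))) =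
      ((4 * (W : ℝ))⁻¹ * (4 * (W : ℝ))⁻¹) * AA (g0 N L k β F) W n t := by
    intro t
    have h1 := (slc_tends hN hβ hmm hO hS hD W n F hF hb 0 t).const_mul
      ((4 * (W : ℝ))⁻¹ * (4 * (W : ℝ))⁻¹)
    rw [sub_zero] at h1
    have e : (fun j : ℕ => wex N L k β (Nb j 0) fun X : Cf N L => (4 * (W : ℝ))⁻¹ *
        slc W n F 0 (rf X) * ((4 * (W : ℝ))⁻¹ * slc W n F 0 (shf (t, 0) X))) =
        fun j : ℕ => (4 * (W : ℝ))⁻¹ * (4 * (W : ℝ))⁻¹ *
          wex N L k β (Nb j 0) (fun X => slc W n F 0 X * slc W n F t X) := by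
      funext j
      rw [← wex_mul]
      congr 1
      funext X
      rw [slc_rf, slc_shf]
      ring
    unfold Phi
    rw [e]
    exact h1.limUnder_eq
  have e2 : (fun X : Cf N L => (4 * (W : ℝ))⁻¹ * slc W n F 0 (rf X) *
      ((4 * (W : ℝ))⁻¹ * slc W n F 0 X)) = fun X : Cf N L => (4 * (W : ℝ))⁻¹ * slc W n F 0 (rf X) *
      ((4 * (W : ℝ))⁻¹ * slc W n F 0 (shf (0, 0) X)) := by
    funext X
    congr 2
    rw [slc_shf]
  have e3 := e1 ((1 : ℕ) : ℤ)
  have e4 := e1 0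
  rw [← e2] at e4
  rw [e0, e3, e4] at h
  have h5 := (abs_le.1 h).2
  simp only [Nat.cast_one, mul_one] at h5
  have hpos : 0 < (4 * (W : ℝ))⁻¹ * (4 * (W : ℝ))⁻¹ := by positivity
  have h6 : ((4 * (W : ℝ))⁻¹ * (4 * (W : ℝ))⁻¹) * AA (g0 N L k β F) W n 1 ≤
      ((4 * (W : ℝ))⁻¹ * (4 * (W : ℝ))⁻¹) * (Real.exp (-m') * AA (g0 N L k β F) W n 0) := by
    nlinarith
  exact le_of_mul_le_mul_left h6 hpos

end T2H02.TT
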