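import Pool.Agent.T2H02.TT.Fin16

/-!
# Upper bound of the mass gap: conclusion
-/

set_option autoImplicit false
set_option linter.unusedSectionVars false

noncomputable section

open MeasureTheory Matrix Filter Topology
open scoped Matrix.Norms.Frobenius

namespace T2H02.TT

lemma AA_smul (γ : Pl → ℝ) (c : ℝ) (W n : ℕ) (t : ℤ) :
    AA (fun x => c * γ x) W n t = c * AA γ W n t := by
  unfold AA
  rw [Finset.mul_sum]
  refine Finset.sum_congr rfl fun i _ => ?_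
  rw [Finset.mul_sum, Finset.mul_sum, Finset.mul_sum]
  refine Finset.sum_congr rfl fun j _ => ?_
  ring

/-- the mass from the equation of motion, for one value of `L` and `β` -/
lemma upper_one {N L : ℕ} [NeZero L] {k : ℕ} (hN : 2 ≤ N) {β : ℝ} (hβ : 0 < β) {m κ : ℝ} (hmm : 0 < m)
    (hO : S_O) (hS : S_SY) (hCB : S_CB) (hD : Dec N L k hN β hβ.le m κ) {P Q : SU N} {CG : ℝ}
    (hCG : 1 ≤ CG) {E : Tor L → Mt N} {G : Ph N L → ℝ} (hM : Mod N L P Q CG E G) {ε C μ : ℝ} {T W n m₀ : ℕ}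
    (hUR : ∀ (μ κ η m : ℝ) (T : ℕ) (c : ℕ → ℝ), 0 < μ → μ ≤ 2 → 0 ≤ κ → κ ≤ μ ^ 2 / C → 0 ≤ η →
      η ≤ μ ^ 2 / C → C / μ ^ 2 ≤ T → (∀ t, t ≤ T + 1 → |c t| ≤ c 0) →
      |(2 + μ ^ 2 + κ) * c 0 - 2 * c 1 - 1| ≤ η →
      (∀ t, 1 ≤ t → t ≤ T → |(2 + μ ^ 2 + κ) * c t - c (t + 1) - c (t - 1)| ≤ η) →
      c 1 ≤ Real.exp (-m) * c 0 → m ≤ (1 + ε) * (2 * Real.arsinh (μ / 2)))
    (hC : 1 ≤ C) (hμ : 0 < μ) (hμ2 : μ ≤ 2) (hmu : μ ^ 2 = mu2 N L) (hT : C / μ ^ 2 ≤ T) (hW : 1 ≤ W)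
    (hn : 2 * W + T + 2 ≤ n) (hWC : 16 / (W * μ ^ 2) ≤ μ ^ 2 / (2 * C)) {δ : ℝ} (hδ1 : δ ≤ 1)
    (hδ : 2 * δ ≤ μ ^ 2 / (2 * C))
    (hK : ∀ R : Finset Pl, Nb m₀ 0 ⊆ R → ∀ ψ : Pl → ℝ, (∀ x, |ψ x| ≤ 1) → (∀ x, ψ x ≠ 0 → x ∈ Nb n 0) →
      ∀ b ∈ Nb n 0, |β * wex N L k β R (obs ψ G (Nb (n + 1) 0) b) - ψ b| ≤ δ) (m' : ℝ)
    (hGap : GapI N L k β m') : m' ≤ (1 + ε) * (2 * Real.arsinh (μ / 2)) := by
  obtain ⟨-, -, -, -, hGc, -, hGb, hGz, -⟩ := hM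
  have hCG0 : 0 < CG := by linarith
  have hW' : (0 : ℝ) < W := by exact_mod_cast hW
  have hWn : 2 * W ≤ n := by omega
  set F : Ph N L → ℝ := fun φ => CG⁻¹ * G φ with hF
  have hFc : Continuous F := continuous_const.mul hGc
  have hFb : ∀ φ, |F φ| ≤ 1 := fun φ => by
    rw [hF]
    show |CG⁻¹ * G φ| ≤ 1
    rw [abs_mul, abs_of_pos (inv_pos.2 hCG0), inv_mul_le_iff₀ hCG0, mul_one]
    exact hGb φ
  have hFz : ∀ φ, ∑ i ∈ Finset.range N, F (cph^[i] φ) = 0 := fun φ => by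
    rw [hF]
    show ∑ i ∈ Finset.range N, CG⁻¹ * G (cph^[i] φ) = 0
    rw [← Finset.mul_sum, hGz, mul_zero]
  have hGF : ∀ φ, G φ = CG * F φ := fun φ => by
    rw [hF]
    show G φ = CG * (CG⁻¹ * G φ)
    rw [mul_inv_cancel_left₀ hCG0.ne']
  set γ : Pl → ℝ := fun x => (β * CG ^ 2) * g0 N L k β F x with hγ
  have hpos : 0 < β * CG ^ 2 := by positivity
  have g1 : ∀ x, γ (-x) = γ x := fun x => by
    show (β * CG ^ 2) * g0 N L k β F (-x) = (β * CG ^ 2) * g0 N L k β F x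
    rw [g0_neg hN hβ.le hmm hO hS hD F hFc hFb]
  have g3 : ∀ x, |γ x| ≤ γ 0 := fun x => by
    show |(β * CG ^ 2) * g0 N L k β F x| ≤ (β * CG ^ 2) * g0 N L k β F 0
    rw [abs_mul, abs_of_pos hpos]
    exact mul_le_mul_of_nonneg_left (g0_abs hN hβ.le hmm hO hS hD F hFc hFb x) hpos.le
  have g2 : ∀ ψ : Pl → ℝ, (∀ x, |ψ x| ≤ 1) → (∀ x, ψ x ≠ 0 → x ∈ Nb n 0) → ∀ b ∈ Nb n 0,
      |∑ x ∈ Nb (n + 1) 0, (lap ψ x + mu2 N L * ψ x) * γ (x - b) - ψ b| ≤ δ := by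
    intro ψ h1 h2 b hb
    have t1 := (bil_tends hN hβ.le hmm hO hD F hFc hFb {b} (Nb (n + 1) 0) (fun _ => 1)
      (fun x => lap ψ x + mu2 N L * ψ x)).const_mul (β * CG ^ 2)
    have e1 : ∀ j : ℕ, (β * CG ^ 2) * wex N L k β (Nb j 0)
        (fun X => (∑ x ∈ {b}, (1 : ℝ) * F (pt X x)) * ∑ y ∈ Nb (n + 1) 0,
          (lap ψ y + mu2 N L * ψ y) * F (pt X y)) =
        β * wex N L k β (Nb j 0) (obs ψ G (Nb (n + 1) 0) b) := by
      intro j
      rw [mul_assoc, ← wex_mul]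
      congr 2
      funext X
      unfold obs
      rw [Finset.sum_singleton, one_mul, hGF, Finset.mul_sum, Finset.mul_sum, Finset.mul_sum]
      refine Finset.sum_congr rfl fun x _ => ?_
      rw [hGF]
      ring
    have e2 : (β * CG ^ 2) * (∑ x ∈ {b}, (1 : ℝ) * ∑ y ∈ Nb (n + 1) 0,
        (lap ψ y + mu2 N L * ψ y) * gg N L k β F x y) =
        ∑ x ∈ Nb (n + 1) 0, (lap ψ x + mu2 N L * ψ x) * γ (x - b) := by
      rw [Finset.sum_singleton, one_mul, Finset.mul_sum]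
      refine Finset.sum_congr rfl fun x _ => ?_
      rw [gg_g0 hN hβ.le hmm hO hS hD F hFc hFb b x]
      show _ = (lap ψ x + mu2 N L * ψ x) * ((β * CG ^ 2) * g0 N L k β F (x - b))
      ring
    rw [e2] at t1
    simp only [e1] at t1
    refine le_of_tendsto (t1.sub_const (ψ b)).abs ?_
    rw [eventually_atTop]
    exact ⟨m₀, fun j hj => hK (Nb j 0) (Nb_mono m₀ j hj 0) ψ h1 h2 b hb⟩
  have hμ20 : 0 < mu2 N L := by rw [← hmu]; positivity
  have g4 := gam_zero γ (mu2 N L) δ n hμ20 hδ1 g2 g3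
  have hV := V2_ge W n hW (by omega)
  have hVpos : 0 < V2 W n := by linarith
  have hγ0 : 0 ≤ γ 0 := (abs_nonneg _).trans (g3 0)
  have hδ0 : 0 ≤ δ := by
    have := g2 (fun _ => 0) (by simp) (by simp) 0 (by rw [mem_Nb]; simp)
    exact (abs_nonneg _).trans this
  set c : ℕ → ℝ := fun t => AA γ W n t / V2 W n with hc
  set η : ℝ := 2 * δ + 8 * γ 0 / W with hη
  have heq : ∀ t : ℤ, |t| ≤ n → |(2 + mu2 N L) * (AA γ W n t / V2 W n) - AA γ W n (t - 1) / V2 W n -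
      AA γ W n (t + 1) / V2 W n - (if t = 0 then 1 else 0)| ≤ η := by
    intro t ht
    have h := AA_eq γ (mu2 N L) δ W n hW hWn g2 g3 t ht
    have e : (2 + mu2 N L) * (AA γ W n t / V2 W n) - AA γ W n (t - 1) / V2 W n -
        AA γ W n (t + 1) / V2 W n - (if t = 0 then 1 else 0) =
        ((2 + mu2 N L) * AA γ W n t - AA γ W n (t - 1) - AA γ W n (t + 1) -
          (if t = 0 then V2 W n else 0)) / V2 W n := by
      by_cases h0 : t = 0
      · simp only [if_pos h0]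
        field_simp
      · simp only [if_neg h0, sub_zero]
        field_simp
    rw [e, abs_div, abs_of_pos hVpos, div_le_iff₀ hVpos]
    refine h.trans ?_
    have h5 : 0 ≤ δ + 4 * γ 0 / W := by positivity
    calc 4 * (W : ℝ) * (δ + 4 * γ 0 / W) = (2 * δ + 8 * γ 0 / W) * (2 * W) := by ring
      _ ≤ η * V2 W n := mul_le_mul_of_nonneg_left hV (by positivity)
  have hηle : η ≤ μ ^ 2 / C := by
    have h1 : 8 * γ 0 / W ≤ 16 / (W * μ ^ 2) := by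
      rw [hmu]
      calc 8 * γ 0 / W ≤ 8 * (2 / mu2 N L) / W := by gcongr
        _ = _ := by field_simp; norm_num
    have h2 : μ ^ 2 / C = μ ^ 2 / (2 * C) + μ ^ 2 / (2 * C) := by field_simp; norm_num
    rw [h2]
    exact add_le_add hδ (h1.trans hWC)
  refine hUR μ 0 η m' T c hμ hμ2 le_rfl (by positivity) (by positivity) hηle hT ?_ ?_ ?_ ?_
  · intro t _
    show |AA γ W n t / V2 W n| ≤ AA γ W n ((0 : ℕ) : ℤ) / V2 W n
    rw [abs_div, abs_of_pos hVpos]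
    refine div_le_div_of_nonneg_right ?_ hVpos.le
    rw [hγ, AA_smul, AA_smul, abs_mul, abs_of_pos hpos]
    refine mul_le_mul_of_nonneg_left ?_ hpos.le
    exact AA_abs hN hβ.le hmm hO hS hD W n hW hWn F hFc hFb t
  · have h := heq 0 (by simp)
    simp only [if_true] at h
    have e1 : AA γ W n (0 - 1) = AA γ W n ((1 : ℕ) : ℤ) := by
      rw [zero_sub, AA_neg γ W n g1]
      rfl
    rw [e1, zero_add] at h
    rw [add_zero, hmu]
    show |(2 + mu2 N L) * (AA γ W n ((0 : ℕ) : ℤ) / V2 W n) - 2 * (AA γ W n ((1 : ℕ) : ℤ) / V2 W n) - 1| ≤ η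
    push_cast at h ⊢
    convert h using 2
    ring
  · intro t ht1 htT
    have h := heq (t : ℤ) (by rw [Nat.abs_cast]; exact_mod_cast (by omega : t ≤ n))
    have ht0 : ¬ (t : ℤ) = 0 := by omega
    rw [if_neg ht0, sub_zero] at h
    rw [add_zero, hmu]
    show |(2 + mu2 N L) * (AA γ W n (t : ℤ) / V2 W n) - AA γ W n ((t + 1 : ℕ) : ℤ) / V2 W n -
      AA γ W n ((t - 1 : ℕ) : ℤ) / V2 W n| ≤ η
    have e1 : ((t - 1 : ℕ) : ℤ) = (t : ℤ) - 1 := by omega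
    have e2 : ((t + 1 : ℕ) : ℤ) = (t : ℤ) + 1 := by omega
    rw [e1, e2]
    convert h using 2
    ring
  · show AA γ W n ((1 : ℕ) : ℤ) / V2 W n ≤ Real.exp (-m') * (AA γ W n ((0 : ℕ) : ℤ) / V2 W n)
    have h := slc_gap hN hβ.le hCB hmm hO hS hD W n hW hWn F hFc hFb hFz m' hGap
    rw [← mul_div_assoc]
    refine div_le_div_of_nonneg_right ?_ hVpos.le
    rw [hγ, AA_smul, AA_smul]
    push_cast
    calc (β * CG ^ 2) * AA (g0 N L k β F) W n 1 ≤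
        (β * CG ^ 2) * (Real.exp (-m') * AA (g0 N L k β F) W n 0) :=
          mul_le_mul_of_nonneg_left h hpos.le
      _ = _ := by ring

end T2H02.TT
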