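import Pool.Agent.T2H02.TT.Fin17

/-!
# Upper bound of the mass gap, for all `β ≥ C₀ L ^ K₀`
-/

set_option autoImplicit false
set_option linter.unusedSectionVars false

noncomputable section

open MeasureTheory Matrix Filter Topology
open scoped Matrix.Norms.Frobenius

namespace T2H02.TT

lemma sin_ge {N L : ℕ} (hN : 2 ≤ N) (hL : 1 ≤ L) :
    2 / ((N : ℝ) * L) ≤ Real.sin (Real.pi / (N * L)) := by
  have hN' : (2 : ℝ) ≤ N := by exact_mod_cast hN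
  have hL' : (1 : ℝ) ≤ L := by exact_mod_cast hL
  have hNL : (2 : ℝ) ≤ N * L := by nlinarith
  have hπ := Real.pi_pos
  have h0 : 0 ≤ Real.pi / (N * L) := by positivity
  have h1 : Real.pi / (N * L) ≤ Real.pi / 2 := by gcongr
  have h := Real.mul_le_sin h0 h1
  calc 2 / ((N : ℝ) * L) = 2 / Real.pi * (Real.pi / (N * L)) := by field_simp
    _ ≤ _ := h

lemma mgp_pos {N L : ℕ} (hN : 2 ≤ N) (hL : 1 ≤ L) : 0 < mgp N L := by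
  have hN' : (2 : ℝ) ≤ N := by exact_mod_cast hN
  have hL' : (1 : ℝ) ≤ L := by exact_mod_cast hL
  have h := sin_ge hN hL
  have h1 : 0 < 2 / ((N : ℝ) * L) := by positivity
  have h2 : 0 < Real.arsinh (Real.sin (Real.pi / (N * L))) := Real.arsinh_pos_iff.2 (h1.trans_le h)
  unfold mgp
  linarith

lemma up_bet {C₂ B C₃ D l β : ℝ} {K₂ K₃ : ℕ} (hC₂ : 0 ≤ C₂) (hB : 0 ≤ B) (hC₃ : 0 ≤ C₃) (hD : 0 ≤ D)
    (hL : 1 ≤ l) (hβ : (C₂ * B ^ K₂ + C₃ + D + 1) * l ^ (5 * K₂ + K₃ + 10) ≤ β) :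
    C₂ * (l * (B * l ^ 4)) ^ K₂ ≤ β ∧ C₃ * l ^ K₃ ≤ β ∧ D * l ^ 10 ≤ β ∧ 1 ≤ β := by
  have p1 : l ^ (5 * K₂) ≤ l ^ (5 * K₂ + K₃ + 10) := pow_le_pow_right₀ hL (by omega)
  have p2 : l ^ K₃ ≤ l ^ (5 * K₂ + K₃ + 10) := pow_le_pow_right₀ hL (by omega)
  have p3 : l ^ 10 ≤ l ^ (5 * K₂ + K₃ + 10) := pow_le_pow_right₀ hL (by omega)
  have p4 : (1 : ℝ) ≤ l ^ (5 * K₂ + K₃ + 10) := one_le_pow₀ hL
  have q1 : 0 ≤ C₂ * B ^ K₂ := by positivity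
  have r1 := mul_le_mul_of_nonneg_left p1 q1
  have r2 := mul_le_mul_of_nonneg_left p2 hC₃
  have r3 := mul_le_mul_of_nonneg_left p3 hD
  have hl : 0 < l := by linarith
  have z1 : 0 ≤ C₂ * B ^ K₂ * l ^ (5 * K₂) := by positivity
  have z2 : 0 ≤ C₃ * l ^ K₃ := by positivity
  have z3 : 0 ≤ D * l ^ 10 := by positivity
  have hexp : (C₂ * B ^ K₂ + C₃ + D + 1) * l ^ (5 * K₂ + K₃ + 10) =
      C₂ * B ^ K₂ * l ^ (5 * K₂ + K₃ + 10) + C₃ * l ^ (5 * K₂ + K₃ + 10) +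
      D * l ^ (5 * K₂ + K₃ + 10) + l ^ (5 * K₂ + K₃ + 10) := by ring
  rw [hexp] at hβ
  refine ⟨?_, by linarith, by linarith, by linarith⟩
  have e1 : C₂ * (l * (B * l ^ 4)) ^ K₂ = C₂ * B ^ K₂ * l ^ (5 * K₂) := by
    rw [mul_assoc C₂, pow_mul l 5 K₂, ← mul_pow]
    congr 2
    ring
  rw [e1]
  linarith

lemma up_par {CR a μ l : ℝ} (hCR0 : 0 < CR) (ha0 : 0 < a) (hL : 1 ≤ l) (hμ : 0 < μ)
    (hinv : 1 / μ ^ 2 ≤ a * l ^ 2) : ∃ T W : ℕ, CR / μ ^ 2 ≤ T ∧ 1 ≤ W ∧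
      16 / (W * μ ^ 2) ≤ μ ^ 2 / (2 * CR) ∧
      ((2 * W + T + 2 : ℕ) : ℝ) + 1 ≤ (64 * CR * a ^ 2 + CR * a + 8) * l ^ 4 := by
  have hl : 0 < l := by linarith
  have hT1 := Nat.le_ceil (CR * a * l ^ 2)
  have hT2 := (Nat.ceil_lt_add_one (a := CR * a * l ^ 2) (by positivity)).le
  have hW1 := Nat.le_ceil (32 * CR * a ^ 2 * l ^ 4)
  have hW2 := (Nat.ceil_lt_add_one (a := 32 * CR * a ^ 2 * l ^ 4) (by positivity)).le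
  refine ⟨⌈CR * a * l ^ 2⌉₊, ⌈32 * CR * a ^ 2 * l ^ 4⌉₊ + 1, ?_, by omega, ?_, ?_⟩
  · calc CR / μ ^ 2 = CR * (1 / μ ^ 2) := by ring
      _ ≤ CR * (a * l ^ 2) := mul_le_mul_of_nonneg_left hinv hCR0.le
      _ = CR * a * l ^ 2 := by ring
      _ ≤ _ := hT1
  · generalize ⌈32 * CR * a ^ 2 * l ^ 4⌉₊ = W at hW1 hW2
    have hW0 : (0 : ℝ) < ((W + 1 : ℕ) : ℝ) := by positivity
    have h1 : 1 ≤ μ ^ 2 * (a * l ^ 2) := by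
      have := (div_le_iff₀ (by positivity : 0 < μ ^ 2)).1 hinv
      linarith
    have h2 : (1 : ℝ) ≤ (μ ^ 2 * (a * l ^ 2)) ^ 2 := one_le_pow₀ h1
    have h3 : 32 * CR ≤ ((W + 1 : ℕ) : ℝ) * (μ ^ 2) ^ 2 := by
      calc 32 * CR = 32 * CR * 1 := by ring
        _ ≤ 32 * CR * (μ ^ 2 * (a * l ^ 2)) ^ 2 := by gcongr
        _ = (32 * CR * a ^ 2 * l ^ 4) * (μ ^ 2) ^ 2 := by ring
        _ ≤ ((W + 1 : ℕ) : ℝ) * (μ ^ 2) ^ 2 := by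
          refine mul_le_mul_of_nonneg_right ?_ (by positivity)
          push_cast
          linarith
    rw [div_le_div_iff₀ (by positivity) (by positivity)]
    calc 16 * (2 * CR) = 32 * CR := by ring
      _ ≤ ((W + 1 : ℕ) : ℝ) * (μ ^ 2) ^ 2 := h3
      _ = μ ^ 2 * (((W + 1 : ℕ) : ℝ) * μ ^ 2) := by ring
  · have l2 : l ^ 2 ≤ l ^ 4 := pow_le_pow_right₀ hL (by norm_num)
    have l0 : (1 : ℝ) ≤ l ^ 4 := one_le_pow₀ hL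
    have s1 : CR * a * l ^ 2 ≤ CR * a * l ^ 4 := by gcongr
    generalize ⌈32 * CR * a ^ 2 * l ^ 4⌉₊ = W at hW1 hW2
    generalize ⌈CR * a * l ^ 2⌉₊ = T at hT1 hT2
    have e : (64 * CR * a ^ 2 + CR * a + 8) * l ^ 4 = 2 * (32 * CR * a ^ 2 * l ^ 4) + CR * a * l ^ 4 +
        8 * l ^ 4 := by ring
    have e2 : ((2 * (W + 1) + T + 2 : ℕ) : ℝ) + 1 = 2 * (W : ℝ) + T + 5 := by push_cast; ring
    rw [e, e2]
    linarith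

lemma up_del {CR a μ l β : ℝ} (hCR0 : 0 < CR) (ha0 : 0 < a) (hL : 1 ≤ l) (hμ : 0 < μ)
    (hinv : 1 / μ ^ 2 ≤ a * l ^ 2) (b3 : (4 * CR * a) ^ 5 * l ^ 10 ≤ β) :
    2 * β ^ (-(1 / 5) : ℝ) ≤ μ ^ 2 / (2 * CR) := by
  have hl : 0 < l := by linarith
  have y0 : 0 < 4 * CR * a * l ^ 2 := by positivity
  have h1 : (4 * CR * a * l ^ 2) ^ 5 ≤ β := by
    calc (4 * CR * a * l ^ 2) ^ 5 = (4 * CR * a) ^ 5 * l ^ 10 := by ring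
      _ ≤ β := b3
  have h2 : β ^ (-(1 / 5) : ℝ) ≤ ((4 * CR * a * l ^ 2) ^ 5) ^ (-(1 / 5) : ℝ) :=
    Real.rpow_le_rpow_of_nonpos (by positivity) h1 (by norm_num)
  have h3 : ((4 * CR * a * l ^ 2) ^ 5) ^ (-(1 / 5) : ℝ) = (4 * CR * a * l ^ 2)⁻¹ := by
    rw [← Real.rpow_natCast, ← Real.rpow_mul y0.le, ← Real.rpow_neg_one]
    congr 1
    norm_num
  rw [h3] at h2
  have h4 : (4 * CR * a * l ^ 2)⁻¹ ≤ μ ^ 2 / (4 * CR) := by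
    have h5 := (div_le_iff₀ (by positivity : 0 < μ ^ 2)).1 hinv
    rw [inv_eq_one_div, div_le_div_iff₀ y0 (by positivity)]
    calc 1 * (4 * CR) ≤ (a * l ^ 2 * μ ^ 2) * (4 * CR) :=
          mul_le_mul_of_nonneg_right h5 (by positivity)
      _ = μ ^ 2 * (4 * CR * a * l ^ 2) := by ring
  calc 2 * β ^ (-(1 / 5) : ℝ) ≤ 2 * (μ ^ 2 / (4 * CR)) := by linarith
    _ = μ ^ 2 / (2 * CR) := by field_simp; norm_num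

lemma up_inv {N L : ℕ} (hN : 2 ≤ N) (hL : 1 ≤ L) {μ : ℝ} (hμdef : μ = 2 * Real.sin (Real.pi / (N * L))) :
    0 < μ ∧ μ ≤ 2 ∧ μ ^ 2 = mu2 N L ∧ 1 / μ ^ 2 ≤ (N : ℝ) ^ 2 / 16 * (L : ℝ) ^ 2 := by
  have hN' : (2 : ℝ) ≤ N := by exact_mod_cast hN
  have hL' : (1 : ℝ) ≤ L := by exact_mod_cast hL
  have hs := sin_ge hN hL
  have hNL : (0 : ℝ) < N * L := by positivity
  have hμge : 4 / ((N : ℝ) * L) ≤ μ := by
    calc 4 / ((N : ℝ) * L) = 2 * (2 / ((N : ℝ) * L)) := by ring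
      _ ≤ μ := by rw [hμdef]; linarith
  have hμ : 0 < μ := lt_of_lt_of_le (by positivity) hμge
  refine ⟨hμ, ?_, ?_, ?_⟩
  · have := Real.sin_le_one (Real.pi / (N * L))
    rw [hμdef]; linarith
  · rw [hμdef]; unfold mu2; ring
  have h1 : 16 / ((N : ℝ) * L) ^ 2 ≤ μ ^ 2 := by
    calc 16 / ((N : ℝ) * L) ^ 2 = (4 / ((N : ℝ) * L)) ^ 2 := by rw [div_pow]; norm_num
      _ ≤ μ ^ 2 := pow_le_pow_left₀ (by positivity) hμge 2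
  have h2 : 1 ≤ μ ^ 2 * ((N : ℝ) ^ 2 / 16 * (L : ℝ) ^ 2) := by
    calc (1 : ℝ) = 16 / ((N : ℝ) * L) ^ 2 * ((N : ℝ) ^ 2 / 16 * (L : ℝ) ^ 2) := by field_simp
      _ ≤ _ := mul_le_mul_of_nonneg_right h1 (by positivity)
  rw [div_le_iff₀ (by positivity)]
  linarith

/-- the spectral gap is at most `(1 + ε) mgp` -/
theorem upper (hUM : S_UM) (hUK : S_UK) (hUR : S_UR) (hA1 : S_A1) (hP : S_P1u) (hO : S_O) (hS : S_SY)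
    (hCB : S_CB) (N k : ℕ) (hN : 2 ≤ N) (hk : Nat.Coprime k N) (ε : ℝ) (hε : 0 < ε) (hε1 : ε < 1) :
    ∃ (C₀ : ℝ) (K₀ : ℕ), 0 < C₀ ∧ ∀ (L : ℕ) [NeZero L] (β : ℝ), C₀ * (L : ℝ) ^ K₀ ≤ β →
      ∀ m' : ℝ, GapI N L k β m' → m' ≤ (1 + ε) * mgp N L := by
  obtain ⟨P, Q, hPQ⟩ := hA1 N k hN hk
  obtain ⟨C₁, K₁, hC₁, hM⟩ := hUM N k hN hk P Q hPQ
  obtain ⟨CR, hCR, hR⟩ := hUR ε hε hε1
  obtain ⟨C₂, K₂, hC₂, hK⟩ := hUK N k hN hk P Q hPQ C₁ K₁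
  obtain ⟨c, C₃, K₃, hc, hC₃, hD⟩ := hP N k hN hk
  have hN' : (2 : ℝ) ≤ N := by exact_mod_cast hN
  have ha0 : 0 < (N : ℝ) ^ 2 / 16 := by positivity
  have hCR0 : 0 < CR := by linarith
  have hB0 : 0 ≤ 64 * CR * ((N : ℝ) ^ 2 / 16) ^ 2 + CR * ((N : ℝ) ^ 2 / 16) + 8 := by positivity
  have hC₂0 : 0 ≤ C₂ := by linarith
  have hC₃0 : 0 ≤ C₃ := by linarith
  have hD0 : 0 ≤ (4 * CR * ((N : ℝ) ^ 2 / 16)) ^ 5 := by positivity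
  refine ⟨C₂ * (64 * CR * ((N : ℝ) ^ 2 / 16) ^ 2 + CR * ((N : ℝ) ^ 2 / 16) + 8) ^ K₂ + C₃ +
    (4 * CR * ((N : ℝ) ^ 2 / 16)) ^ 5 + 1, 5 * K₂ + K₃ + 10, by positivity, fun L _ β hβ m' hG => ?_⟩
  have hLn : 1 ≤ L := Nat.one_le_iff_ne_zero.2 (NeZero.ne L)
  have hL : (1 : ℝ) ≤ (L : ℝ) := by exact_mod_cast hLn
  obtain ⟨b1, b2, b3, b4⟩ := up_bet hC₂0 hB0 hC₃0 hD0 hL hβ
  have hβ0 : 0 < β := by linarith
  obtain ⟨κ, hκ, hDec⟩ := hD L β hβ0.le b2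
  obtain ⟨E, G, hMod⟩ := hM L
  obtain ⟨hμ, hμ2, hmu, hinv⟩ := up_inv hN hLn rfl
  obtain ⟨T, W, hT, hW, hWC, hn⟩ := up_par hCR0 ha0 hL hμ hinv
  have hδ := up_del hCR0 ha0 hL hμ hinv b3
  have hKβ : C₂ * ((L : ℝ) * (((2 * W + T + 2 : ℕ) : ℝ) + 1)) ^ K₂ ≤ β := by
    refine le_trans ?_ b1
    gcongr
  obtain ⟨m₀, hm₀⟩ := hK L β (2 * W + T + 2) hKβ E G hMod
  have hC₁L : 1 ≤ C₁ * (L : ℝ) ^ K₁ := by
    calc (1 : ℝ) = 1 * 1 := by ring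
      _ ≤ _ := mul_le_mul hC₁ (one_le_pow₀ hL) zero_le_one (by linarith)
  have hδ1 : β ^ (-(1 / 5) : ℝ) ≤ 1 := Real.rpow_le_one_of_one_le_of_nonpos b4 (by norm_num)
  have hm0 : 0 < c / (L : ℝ) := by positivity
  have h := upper_one hN hβ0 hm0 hO hS hCB hDec hC₁L hMod hR hCR hμ hμ2 hmu hT hW le_rfl hWC hδ1 hδ
    hm₀ m' hG
  rwa [mul_div_cancel_left₀ _ (two_ne_zero)] at h

end T2H02.TT
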