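import Pool.Agent.T2H02.TT.All4
import Pool.Agent.T2H02.TT.CB

/-!
# The exact limit of the mass gap, from the Ward identity `S_UK`
-/

set_option autoImplicit false

noncomputable section

open MeasureTheory Matrix Filter Topology

namespace T2H02.TT

theorem bexact1 (hUK : S_UK) (N k : ℕ) (hN : 2 ≤ N) (hk : Nat.Coprime k N) (ε : ℝ) (hε : 0 < ε)
    (hε1 : ε < 1) :
    ∃ (C₀ : ℝ) (K₀ : ℕ), 0 < C₀ ∧ ∀ (L : ℕ) [NeZero L] (β : ℝ), C₀ * (L : ℝ) ^ K₀ ≤ β →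
      (∀ r : ℕ, ∃ C : ℝ, ∀ (a : Pl) (f : Cf N L → ℝ), Loc (Nb r a) f →
        (∀ (n : ℕ) (R : Finset Pl), Nb n a ⊆ R →
          |wex N L k β R f - Phi N L k β f| ≤ C * Real.exp (-((1 - ε) * mgp N L) * n)) ∧
        ∀ v : Pl, Phi N L k β (fun X => f (shf v X)) = Phi N L k β f) ∧
      ClI N L k β ((1 - ε) * mgp N L) ∧ GapI N L k β ((1 - ε) * mgp N L) ∧
      ∀ m : ℝ, ClI N L k β m ∨ GapI N L k β m → m ≤ (1 + ε) * mgp N L :=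
  exact1 aP1g pZg (fun N k hN hk ε hε hε1 => lowerZ1 N k hN hk ε hε hε1) pUM hUK pUR pA1 aP1u pO
    pSY pRP pCB N k hN hk ε hε hε1

theorem bcont (hUK : S_UK) (N k : ℕ) (hN : 2 ≤ N) (hk : Nat.Coprime k N) (β : ℕ → ℝ)
    (hβ : ∀ K : ℕ, ∀ᶠ L : ℕ in atTop, (L : ℝ) ^ K ≤ β L) :
    Tendsto (fun L : ℕ => ((L + 1 : ℕ) : ℝ) * gapv N (L + 1) k (β (L + 1))) atTop
      (𝓝 (2 * Real.pi / N)) := by
  refine cont N k hN (fun ε hε hε1 => ?_) β hβ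
  obtain ⟨C₀, K₀, hC, h⟩ := bexact1 hUK N k hN hk ε hε hε1
  refine ⟨C₀, K₀, hC, fun L _ β hβ => ?_⟩
  obtain ⟨-, -, h3, h4⟩ := h L β hβ
  exact ⟨h3, fun m hm => h4 m (Or.inr hm)⟩

end T2H02.TT
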