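import Pool.Agent.T2H02.TT.StmY
import Pool.Agent.T2H02.TT.Fin20

/-!
# Scaling limit: one value of `L`
-/

set_option autoImplicit false
set_option linter.unusedSectionVars false

noncomputable section

open MeasureTheory Matrix Filter Topology
open scoped Matrix.Norms.Frobenius

namespace T2H02.TT

/-- smeared field with the test function `f` on `ℝ²`, lattice spacing `1 / L` -/
def sfl {N L : ℕ} [NeZero L] (β : ℝ) (G : Ph N L → ℝ) (f : ℝ × ℝ → ℝ) (X : Cf N L) : ℝ :=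
  Real.sqrt β * ∑' x : Pl, rs L f x / (L : ℝ) ^ 2 * G (pt X x)

variable {N L : ℕ} [NeZero L]

lemma rs_zero {f : ℝ × ℝ → ℝ} {r n : ℕ}
    (hf : ∀ p : ℝ × ℝ, (r : ℝ) ≤ |p.1| ∨ (r : ℝ) ≤ |p.2| → f p = 0) (hn : r * L ≤ n) (x : Pl)
    (hx : x ∉ Nb n 0) : rs L f x = 0 := by
  have hLn : 1 ≤ L := Nat.one_le_iff_ne_zero.2 (NeZero.ne L)
  have hL : (0 : ℝ) < L := by exact_mod_cast hLn
  have hn' : (r : ℝ) * L ≤ n := by exact_mod_cast hn
  have key : ∀ a : ℤ, (n : ℤ) < |a| → (r : ℝ) ≤ |(a : ℝ) / L| := by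
    intro a ha
    rw [abs_div, abs_of_pos hL, le_div_iff₀ hL]
    have : (n : ℝ) < |(a : ℝ)| := by exact_mod_cast ha
    linarith
  rw [mem_Nb] at hx
  simp only [Prod.fst_zero, Prod.snd_zero, sub_zero, not_and_or, not_le] at hx
  exact hf _ (hx.imp (key _) (key _))

lemma sfl_eq (β : ℝ) (G : Ph N L → ℝ) {f : ℝ × ℝ → ℝ} {r n : ℕ}
    (hf : ∀ p : ℝ × ℝ, (r : ℝ) ≤ |p.1| ∨ (r : ℝ) ≤ |p.2| → f p = 0) (hn : r * L ≤ n) (X : Cf N L) :
    sfl β G f X = Real.sqrt β * ∑ x ∈ Nb n 0, rs L f x / (L : ℝ) ^ 2 * G (pt X x) := by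
  unfold sfl
  rw [tsum_eq_sum (s := Nb n 0)]
  intro x hx
  rw [rs_zero hf hn x hx]
  simp

lemma fl_cont (β : ℝ) (w : Pl → ℝ) (G : Ph N L → ℝ) (hG : Continuous G) (Λ : Finset Pl) :
    Continuous fun X : Cf N L => fl β w G Λ X :=
  continuous_const.mul (continuous_finsetSum _ fun b _ => continuous_const.mul (hG.comp (pt_cont b)))

lemma fl_abs {β : ℝ} (w : Pl → ℝ) (G : Ph N L → ℝ) {CG : ℝ} (hG : ∀ φ, |G φ| ≤ CG) (Λ : Finset Pl)
    (X : Cf N L) : |fl β w G Λ X| ≤ Real.sqrt β * ∑ b ∈ Λ, |w b| * CG := by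
  unfold fl
  rw [abs_mul, abs_of_nonneg (Real.sqrt_nonneg β)]
  refine mul_le_mul_of_nonneg_left ?_ (Real.sqrt_nonneg β)
  refine (Finset.abs_sum_le_sum_abs _ _).trans (Finset.sum_le_sum fun b _ => ?_)
  rw [abs_mul]
  exact mul_le_mul_of_nonneg_left (hG _) (abs_nonneg _)

lemma loc_fl (β : ℝ) (w : Pl → ℝ) (G : Ph N L → ℝ) (hG : Continuous G) (Λ : Finset Pl) (g : ℝ → ℝ)
    (hg : Continuous g) (hg1 : ∀ a, |g a| ≤ 1) : Loc Λ (fun X : Cf N L => g (fl β w G Λ X)) := by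
  refine ⟨(hg.comp (fl_cont β w G hG Λ)).measurable, fun X => hg1 _, fun X Y h => ?_⟩
  have : fl β w G Λ X = fl β w G Λ Y := by
    unfold fl
    congr 1
    refine Finset.sum_congr rfl fun b hb => ?_
    have : pt X b = pt Y b := by
      funext y j
      refine h _ fun a ha => ?_
      rw [mem_st] at ha
      rcases ha with rfl | rfl
      · exact hb
      · by_cases hj : j = 0
        · have e0 : b + ((0, 0) : Pl) = b := by ext <;> simp
          simpa [hj, pe, e0] using hb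
        · have e0 : b + ((0, 0) : Pl) = b := by ext <;> simp
          simpa [hj, pe, e0] using hb
    rw [this]
  show g (fl β w G Λ X) = g (fl β w G Λ Y)
  rw [this]

/-- a `1`-Lipschitz function of two fields -/
lemma lip_wex {k : ℕ} {β : ℝ} (hβ : 0 ≤ β) (R Λ : Finset Pl) (w w' : Pl → ℝ) (G : Ph N L → ℝ) (hG : Continuous G) {CG : ℝ}
    (hGb : ∀ φ, |G φ| ≤ CG) (g : ℝ → ℝ) (hg : Continuous g) (hg1 : ∀ a, |g a| ≤ 1)
    (hgl : ∀ a b, |g a - g b| ≤ |a - b|) {ρ l : ℝ} (hl : 0 < l) (hw : ∀ x, |w x - w' x| ≤ ρ) :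
    |wex N L k β R (fun X => g (fl β w G Λ X)) - wex N L k β R (fun X => g (fl β w' G Λ X))| ≤
      ρ * ∑ x ∈ Λ, (l + β * wex N L k β R (fun X => G (pt X x) * G (pt X x)) / l) / 2 := by
  have hρ : 0 ≤ ρ := (abs_nonneg _).trans (hw 0)
  have hCG : 0 ≤ CG := (abs_nonneg _).trans (hGb 1)
  have m1 : ∀ w : Pl → ℝ, Measurable fun X : Cf N L => g (fl β w G Λ X) := fun w =>
    (hg.comp (fl_cont β w G hG Λ)).measurable
  have mG : ∀ x : Pl, Measurable fun X : Cf N L => G (pt X x) * G (pt X x) := fun x =>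
    ((hG.comp (pt_cont x)).mul (hG.comp (pt_cont x))).measurable
  have bG : ∀ (x : Pl) (X : Cf N L), |G (pt X x) * G (pt X x)| ≤ CG * CG := fun x X => by
    rw [abs_mul]
    exact mul_le_mul (hGb _) (hGb _) (abs_nonneg _) hCG
  -- pointwise bound
  have pw : ∀ X : Cf N L, |g (fl β w G Λ X) - g (fl β w' G Λ X)| ≤
      ∑ x ∈ Λ, (ρ * l / 2 + ρ * β / (2 * l) * (G (pt X x) * G (pt X x))) := by
    intro X
    refine (hgl _ _).trans ?_
    unfold fl
    rw [← mul_sub, ← Finset.sum_sub_distrib, Finset.mul_sum]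
    refine (Finset.abs_sum_le_sum_abs _ _).trans (Finset.sum_le_sum fun x _ => ?_)
    rw [← sub_mul, abs_mul, abs_mul, abs_of_nonneg (Real.sqrt_nonneg β)]
    have h1 : Real.sqrt β * |G (pt X x)| ≤ (l + β * (G (pt X x) * G (pt X x)) / l) / 2 := by
      have h2 : 0 ≤ (l - Real.sqrt β * |G (pt X x)|) ^ 2 := sq_nonneg _
      have h3 : (Real.sqrt β * |G (pt X x)|) ^ 2 = β * (G (pt X x) * G (pt X x)) := by
        rw [mul_pow, Real.sq_sqrt hβ, sq_abs, pow_two]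
      have h4 : 2 * l * (Real.sqrt β * |G (pt X x)|) ≤ l * l + β * (G (pt X x) * G (pt X x)) := by
        rw [← h3]; linarith
      rw [le_div_iff₀ (by norm_num : (0 : ℝ) < 2)]
      have h5 : l + β * (G (pt X x) * G (pt X x)) / l = (l * l + β * (G (pt X x) * G (pt X x))) / l := by
        field_simp
      rw [h5, le_div_iff₀ hl]
      linarith
    calc Real.sqrt β * (|w x - w' x| * |G (pt X x)|) = |w x - w' x| * (Real.sqrt β * |G (pt X x)|) := by
          ring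
      _ ≤ ρ * ((l + β * (G (pt X x) * G (pt X x)) / l) / 2) :=
          mul_le_mul (hw x) h1 (by positivity) hρ
      _ = _ := by field_simp
  have mS : Measurable fun X : Cf N L => ∑ x ∈ Λ, (ρ * l / 2 + ρ * β / (2 * l) * (G (pt X x) * G (pt X x))) :=
    Finset.measurable_sum _ fun x _ => ((mG x).const_mul _).const_add _
  have bS : ∀ X : Cf N L, |∑ x ∈ Λ, (ρ * l / 2 + ρ * β / (2 * l) * (G (pt X x) * G (pt X x)))| ≤
      ∑ x ∈ Λ, (ρ * l / 2 + ρ * β / (2 * l) * (CG * CG)) := by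
    intro X
    refine (Finset.abs_sum_le_sum_abs _ _).trans (Finset.sum_le_sum fun x _ => ?_)
    have h1 : 0 ≤ ρ * l / 2 := by positivity
    have h2 : 0 ≤ ρ * β / (2 * l) := by positivity
    refine (abs_add_le _ _).trans ?_
    rw [abs_of_nonneg h1, abs_mul, abs_of_nonneg h2]
    exact add_le_add le_rfl (mul_le_mul_of_nonneg_left (bG x X) h2)
  have eS : wex N L k β R (fun X => ∑ x ∈ Λ, (ρ * l / 2 + ρ * β / (2 * l) * (G (pt X x) * G (pt X x)))) =
      ρ * ∑ x ∈ Λ, (l + β * wex N L k β R (fun X => G (pt X x) * G (pt X x)) / l) / 2 := by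
    have e1 : (fun X : Cf N L => ∑ x ∈ Λ, (ρ * l / 2 + ρ * β / (2 * l) * (G (pt X x) * G (pt X x)))) =
        fun X => (∑ x ∈ Λ, ρ * l / 2) + ∑ x ∈ Λ, ρ * β / (2 * l) * (G (pt X x) * G (pt X x)) := by
      funext X
      rw [Finset.sum_add_distrib]
    rw [e1, wex_add k hβ _ _ _ measurable_const ⟨_, fun _ => le_rfl⟩
      (Finset.measurable_sum _ fun x _ => (mG x).const_mul _)
      ⟨∑ x ∈ Λ, ρ * β / (2 * l) * (CG * CG), fun X => ?_⟩, wex_const k hβ,
      wex_sum k hβ _ Λ (fun _ => ρ * β / (2 * l)) (fun x X => G (pt X x) * G (pt X x)) mG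
        (fun x => ⟨_, bG x⟩), Finset.mul_sum, ← Finset.sum_add_distrib]
    · refine Finset.sum_congr rfl fun x _ => ?_
      field_simp
    · refine (Finset.abs_sum_le_sum_abs _ _).trans (Finset.sum_le_sum fun x _ => ?_)
      have h2 : 0 ≤ ρ * β / (2 * l) := by positivity
      rw [abs_mul, abs_of_nonneg h2]
      exact mul_le_mul_of_nonneg_left (bG x X) h2
  rw [abs_le]
  constructor
  · have h1 := wex_mono k hβ R (fun X => g (fl β w' G Λ X))
      (fun X => g (fl β w G Λ X) + ∑ x ∈ Λ, (ρ * l / 2 + ρ * β / (2 * l) * (G (pt X x) * G (pt X x))))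
      (m1 w') ⟨1, fun X => hg1 _⟩ ((m1 w).add mS) ⟨_, fun X => (abs_add_le _ _).trans
        (add_le_add (hg1 _) (bS X))⟩ (fun X => by
          have := (abs_le.1 (pw X)).1
          linarith)
    rw [wex_add k hβ _ _ _ (m1 w) ⟨1, fun X => hg1 _⟩ mS ⟨_, bS⟩, eS] at h1
    linarith
  · have h1 := wex_mono k hβ R (fun X => g (fl β w G Λ X))
      (fun X => g (fl β w' G Λ X) + ∑ x ∈ Λ, (ρ * l / 2 + ρ * β / (2 * l) * (G (pt X x) * G (pt X x))))
      (m1 w) ⟨1, fun X => hg1 _⟩ ((m1 w').add mS) ⟨_, fun X => (abs_add_le _ _).trans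
        (add_le_add (hg1 _) (bS X))⟩ (fun X => by
          have := (abs_le.1 (pw X)).2
          linarith)
    rw [wex_add k hβ _ _ _ (m1 w') ⟨1, fun X => hg1 _⟩ mS ⟨_, bS⟩, eS] at h1
    linarith

end T2H02.TT
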