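import Pool.Agent.T2H02.TT.Fin22

/-!
# Scaling limit: one value of `L`, continued
-/

set_option autoImplicit false
set_option linter.unusedSectionVars false

noncomputable section

open MeasureTheory Matrix Filter Topology
open scoped Matrix.Norms.Frobenius

namespace T2H02.TT

variable {N L : ℕ} [NeZero L]

/-- variance of the field at one site -/
lemma gam_le {k : ℕ} (hN : 2 ≤ N) {β : ℝ} (hβ : 0 < β) {m κ : ℝ} (hmm : 0 < m) (hO : S_O) (hS : S_SY)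
    (hD : Dec N L k hN β hβ.le m κ) {CG : ℝ} (hCG : 1 ≤ CG) {G : Ph N L → ℝ} (hGc : Continuous G)
    (hGb : ∀ φ, |G φ| ≤ CG) {n m₀ : ℕ} {δ : ℝ} (hδ1 : δ ≤ 1) (hmu : 0 < mu2 N L)
    (hK : ∀ R : Finset Pl, Nb m₀ 0 ⊆ R → ∀ ψ : Pl → ℝ, (∀ x, |ψ x| ≤ 1) → (∀ x, ψ x ≠ 0 → x ∈ Nb n 0) →
      ∀ b ∈ Nb n 0, |β * wex N L k β R (obs ψ G (Nb (n + 1) 0) b) - ψ b| ≤ δ) :
    ∃ γ₀ : ℝ, γ₀ ≤ 2 / mu2 N L ∧ ∀ x : Pl, Tendsto (fun j : ℕ =>
      β * wex N L k β (Nb j 0) (fun X => G (pt X x) * G (pt X x))) atTop (𝓝 γ₀) := by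
  have hCG0 : 0 < CG := by linarith
  set F : Ph N L → ℝ := fun φ => CG⁻¹ * G φ with hF
  have hFc : Continuous F := continuous_const.mul hGc
  have hFb : ∀ φ, |F φ| ≤ 1 := fun φ => by
    rw [hF]
    show |CG⁻¹ * G φ| ≤ 1
    rw [abs_mul, abs_of_pos (inv_pos.2 hCG0), inv_mul_le_iff₀ hCG0, mul_one]
    exact hGb φ
  have hGF : ∀ φ, G φ = CG * F φ := fun φ => by
    rw [hF]
    show G φ = CG * (CG⁻¹ * G φ)
    rw [mul_inv_cancel_left₀ hCG0.ne']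
  set γ : Pl → ℝ := fun x => (β * CG ^ 2) * g0 N L k β F x with hγ
  have hpos : 0 < β * CG ^ 2 := by positivity
  have g3 : ∀ x, |γ x| ≤ γ 0 := fun x => by
    show |(β * CG ^ 2) * g0 N L k β F x| ≤ (β * CG ^ 2) * g0 N L k β F 0
    rw [abs_mul, abs_of_pos hpos]
    exact mul_le_mul_of_nonneg_left (g0_abs hN hβ.le hmm hO hS hD F hFc hFb x) hpos.le
  have g2 : ∀ ψ : Pl → ℝ, (∀ x, |ψ x| ≤ 1) → (∀ x, ψ x ≠ 0 → x ∈ Nb n 0) → ∀ b ∈ Nb n 0,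
      |∑ x ∈ Nb (n + 1) 0, (lap ψ x + mu2 N L * ψ x) * γ (x - b) - ψ b| ≤ δ := by
    intro ψ h1 h2 b hb
    have t1 := (bil_tends hN hβ.le hmm hO hD F hFc hFb {b} (Nb (n + 1) 0) (fun _ => 1)
      (fun x => lap ψ x + mu2 N L * ψ x)).const_mul (β * CG ^ 2)
    have e1 : ∀ j : ℕ, (β * CG ^ 2) * wex N L k β (Nb j 0)
        (fun X => (∑ x ∈ {b}, (1 : ℝ) * F (pt X x)) * ∑ y ∈ Nb (n + 1) 0,
          (lap ψ y + mu2 N L * ψ y) * F (pt X y)) =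
        β * wex N L k β (Nb j 0) (obs ψ G (Nb (n + 1) 0) b) := by
      intro j
      rw [mul_assoc, ← wex_mul]
      congr 2
      funext X
      unfold obs
      rw [Finset.sum_singleton, one_mul, hGF, Finset.mul_sum, Finset.mul_sum, Finset.mul_sum]
      refine Finset.sum_congr rfl fun x _ => ?_
      rw [hGF]
      ring
    have e2 : (β * CG ^ 2) * (∑ x ∈ {b}, (1 : ℝ) * ∑ y ∈ Nb (n + 1) 0,
        (lap ψ y + mu2 N L * ψ y) * gg N L k β F x y) =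
        ∑ x ∈ Nb (n + 1) 0, (lap ψ x + mu2 N L * ψ x) * γ (x - b) := by
      rw [Finset.sum_singleton, one_mul, Finset.mul_sum]
      refine Finset.sum_congr rfl fun x _ => ?_
      rw [gg_g0 hN hβ.le hmm hO hS hD F hFc hFb b x]
      show _ = (lap ψ x + mu2 N L * ψ x) * ((β * CG ^ 2) * g0 N L k β F (x - b))
      ring
    rw [e2] at t1
    simp only [e1] at t1
    refine le_of_tendsto (t1.sub_const (ψ b)).abs ?_
    rw [eventually_atTop]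
    exact ⟨m₀, fun j hj => hK (Nb j 0) (Nb_mono m₀ j hj 0) ψ h1 h2 b hb⟩
  refine ⟨γ 0, gam_zero γ (mu2 N L) δ n hmu hδ1 g2 g3, fun x => ?_⟩
  have t1 := (gg_tends hN hβ.le hmm hO hD F hFc hFb x x).const_mul (β * CG ^ 2)
  rw [gg_g0 hN hβ.le hmm hO hS hD F hFc hFb x x, sub_self] at t1
  refine t1.congr fun j => ?_
  rw [mul_assoc, ← wex_mul]
  congr 2
  funext X
  rw [hGF (pt X x)]
  ring

lemma sc_smul (c : ℝ) (ψ : Pl → ℝ) (x : Pl) : sc N L (fun y => c * ψ y) x = c * sc N L ψ x := by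
  unfold sc lap
  ring

/-- characteristic function of the smeared field, one value of `L` -/
lemma scal_one {k : ℕ} (hN : 2 ≤ N) {β : ℝ} (hβ : 0 < β) {m κ : ℝ} (hmm : 0 < m) (hO : S_O) (hS : S_SY)
    (hVO : S_VO) (hVS : S_VS) (hD : Dec N L k hN β hβ.le m κ) {CG : ℝ} (hCG : 1 ≤ CG)
    {G : Ph N L → ℝ} (hGc : Continuous G) (hGb : ∀ φ, |G φ| ≤ CG) {n m₀ m₁ : ℕ} {δ : ℝ} (hδ1 : δ ≤ 1)
    (hmu : 0 < mu2 N L)
    (hUK : ∀ R : Finset Pl, Nb m₀ 0 ⊆ R → ∀ ψ : Pl → ℝ, (∀ x, |ψ x| ≤ 1) →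
      (∀ x, ψ x ≠ 0 → x ∈ Nb n 0) →
      ∀ b ∈ Nb n 0, |β * wex N L k β R (obs ψ G (Nb (n + 1) 0) b) - ψ b| ≤ δ)
    (hVK : ∀ R : Finset Pl, Nb m₁ 0 ⊆ R → ∀ ψ w : Pl → ℝ, (∀ x, |ψ x| ≤ 1) → (∀ x, |w x| ≤ 1) →
      (∀ x, ψ x ≠ 0 → x ∈ Nb n 0) → ∀ h h' : ℝ → ℝ, Gd h h' →
      |wex N L k β R (fun X =>
          h (fl β w G (Nb (n + 1) 0) X) * fl β (sc N L ψ) G (Nb (n + 1) 0) X) -
        (∑ b ∈ Nb (n + 1) 0, w b * ψ b) *
          wex N L k β R (fun X => h' (fl β w G (Nb (n + 1) 0) X))| ≤ δ)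
    {Ψ : ℝ × ℝ → ℝ} {r : ℕ} {C : ℝ}
    (hr : ∀ p : ℝ × ℝ, (r : ℝ) ≤ |p.1| ∨ (r : ℝ) ≤ |p.2| → Ψ p = 0 ∧ srcc N Ψ p = 0)
    (hC : 1 ≤ C) (hΨ : ∀ p, |Ψ p| ≤ C) (hsr : ∀ p, |srcc N Ψ p| ≤ C)
    (hT : ∀ x : Pl, |sc N L (rs L Ψ) x - rs L (srcc N Ψ) x / (L : ℝ) ^ 2| ≤ C / (L : ℝ) ^ 4)
    (hL2 : 2 ≤ L) (hn : r * L ≤ n) :
    |Phi N L k β (fun X => Real.cos (sfl β G (srcc N Ψ) X)) -
        Real.exp (-((∑ x ∈ Nb (n + 1) 0, sc N L (rs L Ψ) x * rs L Ψ x) / 2))| ≤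
      (C + C ^ 3) * δ + C / (L : ℝ) ^ 4 * ((Nb (n + 1) 0).card * ((L + 2 / mu2 N L / L) / 2)) ∧
    |Phi N L k β (fun X => Real.sin (sfl β G (srcc N Ψ) X))| ≤
      (C + C ^ 3) * δ + C / (L : ℝ) ^ 4 * ((Nb (n + 1) 0).card * ((L + 2 / mu2 N L / L) / 2)) := by
  have hC0 : 0 < C := by linarith
  have hL2' : (2 : ℝ) ≤ L := by exact_mod_cast hL2
  have hL0 : (0 : ℝ) < L := by linarith
  set Λ : Finset Pl := Nb (n + 1) 0 with hΛ
  set ψ₁ : Pl → ℝ := fun x => C⁻¹ * rs L Ψ x with hψ₁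
  set w : Pl → ℝ := sc N L ψ₁ with hw
  have hwe : ∀ x, w x = C⁻¹ * sc N L (rs L Ψ) x := fun x => sc_smul _ _ _
  have hψ1 : ∀ x, |ψ₁ x| ≤ 1 := fun x => by
    show |C⁻¹ * rs L Ψ x| ≤ 1
    rw [abs_mul, abs_of_pos (inv_pos.2 hC0), inv_mul_le_iff₀ hC0, mul_one]
    exact hΨ _
  have hw1 : ∀ x, |w x| ≤ 1 := fun x => by
    rw [hwe, abs_mul, abs_of_pos (inv_pos.2 hC0), inv_mul_le_iff₀ hC0, mul_one]
    have h1 := abs_le.1 (hT x)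
    have h2 : |rs L (srcc N Ψ) x / (L : ℝ) ^ 2| ≤ C / 4 := by
      rw [abs_div, abs_of_pos (by positivity : (0 : ℝ) < (L : ℝ) ^ 2)]
      have h4 : (4 : ℝ) ≤ (L : ℝ) ^ 2 := by
        calc (4 : ℝ) = 2 ^ 2 := by norm_num
          _ ≤ (L : ℝ) ^ 2 := pow_le_pow_left₀ (by norm_num) hL2' 2
      exact div_le_div₀ hC0.le (hsr _) (by norm_num) h4
    have h3 : C / (L : ℝ) ^ 4 ≤ C / 16 := by
      have h4 : (16 : ℝ) ≤ (L : ℝ) ^ 4 := by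
        calc (16 : ℝ) = 2 ^ 4 := by norm_num
          _ ≤ (L : ℝ) ^ 4 := pow_le_pow_left₀ (by norm_num) hL2' 4
      exact div_le_div_of_nonneg_left hC0.le (by norm_num) h4
    have h5 := abs_le.1 h2
    rw [abs_le]
    constructor <;> linarith [h1.1, h1.2, h5.1, h5.2]
  have hz : ∀ x, x ∉ Nb n 0 → rs L Ψ x = 0 := fun x hx => rs_zero (fun p hp => (hr p hp).1) hn x hx
  have hsup : ∀ x, ψ₁ x ≠ 0 → x ∈ Nb n 0 := fun x hx => by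
    by_contra hc
    apply hx
    show C⁻¹ * rs L Ψ x = 0
    rw [hz x hc, mul_zero]
  set s2 : ℝ := ∑ x ∈ Λ, w x * ψ₁ x with hs2
  have hs20 : 0 ≤ s2 := hVS N L n ψ₁ hsup
  have hs2C : s2 * C ^ 2 = ∑ x ∈ Λ, sc N L (rs L Ψ) x * rs L Ψ x := by
    rw [hs2, Finset.sum_mul]
    refine Finset.sum_congr rfl fun x _ => ?_
    rw [hwe]
    show C⁻¹ * sc N L (rs L Ψ) x * (C⁻¹ * rs L Ψ x) * C ^ 2 = _
    field_simp
  set w₂ : Pl → ℝ := sc N L (rs L Ψ) with hw₂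
  set w₃ : Pl → ℝ := fun x => rs L (srcc N Ψ) x / (L : ℝ) ^ 2 with hw₃
  have hfl : ∀ X : Cf N L, C * fl β w G Λ X = fl β w₂ G Λ X := by
    intro X
    unfold fl
    rw [mul_left_comm, Finset.mul_sum]
    congr 1
    refine Finset.sum_congr rfl fun x _ => ?_
    rw [hwe]
    show C * (C⁻¹ * sc N L (rs L Ψ) x * G (pt X x)) = sc N L (rs L Ψ) x * G (pt X x)
    rw [← mul_assoc, mul_inv_cancel_left₀ hC0.ne']
  have hsf : ∀ X : Cf N L, sfl β G (srcc N Ψ) X = fl β w₃ G Λ X := fun X =>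
    sfl_eq β G (fun p hp => (hr p hp).2) (hn.trans (Nat.le_succ n)) X
  obtain ⟨γ₀, hγ₀, hγ⟩ := gam_le hN hβ hmm hO hS hD hCG hGc hGb hδ1 hmu hUK
  -- finite volume
  have hfin : ∀ j : ℕ, m₁ ≤ j →
      |wex N L k β (Nb j 0) (fun X => Real.cos (fl β w₂ G Λ X)) -
        Real.exp (-((∑ x ∈ Λ, sc N L (rs L Ψ) x * rs L Ψ x) / 2))| ≤ (C + C ^ 3) * δ ∧
      |wex N L k β (Nb j 0) (fun X => Real.sin (fl β w₂ G Λ X))| ≤ (C + C ^ 3) * δ := by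
    intro j hj
    have h := hVO N k L β hβ.le (Nb j 0) (fun X => fl β w G Λ X)
      (Real.sqrt β * ∑ b ∈ Λ, |w b| * CG) s2 δ (fl_cont β w G hGc Λ).measurable
      (fun X => fl_abs w G hGb Λ X) hs20
      (fun h h' hg => hVK (Nb j 0) (Nb_mono m₁ j hj 0) ψ₁ w hψ1 hw1 hsup h h' hg) C hC0.le
    simp only [hfl] at h
    rw [hs2C] at h
    exact h
  have hlip : ∀ (g : ℝ → ℝ), Continuous g → (∀ a, |g a| ≤ 1) → (∀ a b, |g a - g b| ≤ |a - b|) →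
      ∀ j : ℕ, |wex N L k β (Nb j 0) (fun X => g (fl β w₂ G Λ X)) -
        wex N L k β (Nb j 0) (fun X => g (fl β w₃ G Λ X))| ≤
      C / (L : ℝ) ^ 4 * ∑ x ∈ Λ, (L + β * wex N L k β (Nb j 0)
        (fun X => G (pt X x) * G (pt X x)) / L) / 2 := fun g hg hg1 hgl j =>
    lip_wex hβ.le (Nb j 0) Λ w₂ w₃ G hGc hGb g hg hg1 hgl hL0 hT
  have hlim : Tendsto (fun j : ℕ => C / (L : ℝ) ^ 4 * ∑ x ∈ Λ, (L + β * wex N L k β (Nb j 0)
      (fun X => G (pt X x) * G (pt X x)) / L) / 2) atTop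
      (𝓝 (C / (L : ℝ) ^ 4 * ∑ _x ∈ Λ, (L + γ₀ / L) / 2)) :=
    (tendsto_finsetSum _ fun x _ => (((hγ x).div_const _).const_add _).div_const _).const_mul _
  have hle : C / (L : ℝ) ^ 4 * ∑ _x ∈ Λ, (L + γ₀ / L) / 2 ≤
      C / (L : ℝ) ^ 4 * (Λ.card * ((L + 2 / mu2 N L / L) / 2)) := by
    rw [Finset.sum_const, nsmul_eq_mul]
    gcongr
  have hT3 : ∀ (g : ℝ → ℝ), Continuous g → (∀ a, |g a| ≤ 1) →
      Tendsto (fun j : ℕ => wex N L k β (Nb j 0) (fun X => g (fl β w₃ G Λ X))) atTop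
        (𝓝 (Phi N L k β (fun X => g (fl β w₃ G Λ X)))) := fun g hg hg1 =>
    tends hN hβ.le hmm hO hD (n + 1) 0 _ (loc_fl β w₃ G hGc Λ g hg hg1)
  have hcl : ∀ a b : ℝ, |Real.cos a - Real.cos b| ≤ |a - b| := fun a b => by
    have := Real.abs_cos_sub_cos_le a b
    exact this
  have hsl : ∀ a b : ℝ, |Real.sin a - Real.sin b| ≤ |a - b| := fun a b => by
    have := Real.abs_sin_sub_sin_le a b
    exact this
  simp only [hsf]
  constructor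
  · have t1 := ((hT3 Real.cos Real.continuous_cos Real.abs_cos_le_one).sub_const
      (Real.exp (-((∑ x ∈ Λ, sc N L (rs L Ψ) x * rs L Ψ x) / 2)))).abs
    refine (le_of_tendsto_of_tendsto t1 (hlim.const_add ((C + C ^ 3) * δ)) ?_).trans
      (add_le_add le_rfl hle)
    rw [Filter.EventuallyLE, eventually_atTop]
    refine ⟨m₁, fun j hj => ?_⟩
    have h1 := abs_le.1 (hfin j hj).1
    have h2 := abs_le.1 (hlip Real.cos Real.continuous_cos Real.abs_cos_le_one hcl j)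
    rw [abs_le]
    constructor <;> linarith [h1.1, h1.2, h2.1, h2.2]
  · have t1 := (hT3 Real.sin Real.continuous_sin Real.abs_sin_le_one).abs
    refine (le_of_tendsto_of_tendsto t1 (hlim.const_add ((C + C ^ 3) * δ)) ?_).trans
      (add_le_add le_rfl hle)
    rw [Filter.EventuallyLE, eventually_atTop]
    refine ⟨m₁, fun j hj => ?_⟩
    have h1 := abs_le.1 (hfin j hj).2
    have h2 := abs_le.1 (hlip Real.sin Real.continuous_sin Real.abs_sin_le_one hsl j)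
    rw [abs_le]
    constructor <;> linarith [h1.1, h1.2, h2.1, h2.2]

end T2H02.TT
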