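import Pool.Agent.T2H02.TT.Fin23

/-!
# Scaling limit: the massive free field
-/

set_option autoImplicit false
set_option linter.unusedSectionVars false

noncomputable section

open MeasureTheory Matrix Filter Topology
open scoped Matrix.Norms.Frobenius

namespace T2H02.TT

lemma Nb_card (n : ℕ) : ((Nb n 0).card : ℝ) = (2 * n + 1) ^ 2 := by
  unfold Nb
  rw [Finset.card_product, Int.card_Icc, Int.card_Icc]
  have e : ∀ a : ℤ, (a + (n : ℤ) + 1 - (a - n)).toNat = 2 * n + 1 := fun a => by omega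
  rw [e, e]
  push_cast
  ring

/-- the variance converges -/
lemma s2_lim (hVR : S_VR) {N : ℕ} (hN : 2 ≤ N) {Ψ : ℝ × ℝ → ℝ} {r : ℕ} {C : ℝ}
    (hΨc : Continuous Ψ) (hsc : Continuous (srcc N Ψ))
    (hr : ∀ p : ℝ × ℝ, (r : ℝ) ≤ |p.1| ∨ (r : ℝ) ≤ |p.2| → Ψ p = 0 ∧ srcc N Ψ p = 0)
    (hC : 1 ≤ C) (hΨ : ∀ p, |Ψ p| ≤ C)
    (hT : ∀ L : ℕ, 1 ≤ L → ∀ x : Pl,
      |sc N L (rs L Ψ) x - rs L (srcc N Ψ) x / (L : ℝ) ^ 2| ≤ C / (L : ℝ) ^ 4) :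
    Tendsto (fun L : ℕ => ∑ x ∈ Nb (r * L + 1) 0, sc N L (rs L Ψ) x * rs L Ψ x) atTop
      (𝓝 (∫ p, srcc N Ψ p * Ψ p)) := by
  have h1 := hVR (fun p => srcc N Ψ p * Ψ p) r (hsc.mul hΨc) (fun p hp => by
    show srcc N Ψ p * Ψ p = 0
    rw [(hr p hp).1, mul_zero])
  have h2 : Tendsto (fun L : ℕ => (9 * (r + 1 : ℝ) ^ 2 * C ^ 2) / (L : ℝ) ^ 2) atTop (𝓝 0) := by
    refine tendsto_const_nhds.div_atTop ?_
    exact (tendsto_pow_atTop (by norm_num)).comp tendsto_natCast_atTop_atTop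
  have h3 : Tendsto (fun L : ℕ => (∑ x ∈ Nb (r * L + 1) 0, sc N L (rs L Ψ) x * rs L Ψ x) -
      ∑ x ∈ Nb (r * L) 0, rs L (fun p => srcc N Ψ p * Ψ p) x / (L : ℝ) ^ 2) atTop (𝓝 0) := by
    refine squeeze_zero_norm' ?_ h2
    filter_upwards [eventually_ge_atTop 1] with L hL
    have hL0 : (0 : ℝ) < L := by exact_mod_cast hL
    have hL1 : (1 : ℝ) ≤ L := by exact_mod_cast hL
    haveI : NeZero L := ⟨by omega⟩
    have hz : ∀ x, x ∉ Nb (r * L) 0 → rs L Ψ x = 0 := fun x hx =>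
      rs_zero (fun p hp => (hr p hp).1) le_rfl x hx
    have e1 : ∑ x ∈ Nb (r * L + 1) 0, sc N L (rs L Ψ) x * rs L Ψ x =
        ∑ x ∈ Nb (r * L) 0, sc N L (rs L Ψ) x * rs L Ψ x := by
      symm
      refine Finset.sum_subset (Nb_mono _ _ (Nat.le_succ _) 0) fun x _ hx => ?_
      rw [hz x hx, mul_zero]
    rw [e1, ← Finset.sum_sub_distrib, Real.norm_eq_abs]
    refine (Finset.abs_sum_le_sum_abs _ _).trans ?_
    have e2 : ∀ x ∈ Nb (r * L) 0, |sc N L (rs L Ψ) x * rs L Ψ x -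
        rs L (fun p => srcc N Ψ p * Ψ p) x / (L : ℝ) ^ 2| ≤ C / (L : ℝ) ^ 4 * C := by
      intro x _
      have e3 : sc N L (rs L Ψ) x * rs L Ψ x - rs L (fun p => srcc N Ψ p * Ψ p) x / (L : ℝ) ^ 2 =
          (sc N L (rs L Ψ) x - rs L (srcc N Ψ) x / (L : ℝ) ^ 2) * rs L Ψ x := by
        unfold rs
        ring
      rw [e3, abs_mul]
      exact mul_le_mul (hT L hL x) (hΨ _) (abs_nonneg _) (by positivity)
    refine (Finset.sum_le_sum e2).trans ?_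
    rw [Finset.sum_const, nsmul_eq_mul, Nb_card]
    have h5 : (2 * ((r * L : ℕ) : ℝ) + 1) ^ 2 ≤ (3 * ((r + 1) * L)) ^ 2 := by
      refine pow_le_pow_left₀ (by positivity) ?_ 2
      push_cast
      have : (0 : ℝ) ≤ (r : ℝ) * L := by positivity
      linarith
    calc (2 * ((r * L : ℕ) : ℝ) + 1) ^ 2 * (C / (L : ℝ) ^ 4 * C) ≤
          (3 * ((r + 1) * L)) ^ 2 * (C / (L : ℝ) ^ 4 * C) :=
          mul_le_mul_of_nonneg_right h5 (by positivity)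
      _ = 9 * (r + 1 : ℝ) ^ 2 * C ^ 2 / (L : ℝ) ^ 2 := by field_simp; ring
  have h4 := h3.add h1
  simpa using h4

/-- the scaling limit -/
theorem scal (hUM : S_UM) (hUK : S_UK) (hVK : S_VK) (hVO : S_VO) (hVT : S_VT) (hVR : S_VR)
    (hVS : S_VS) (hA1 : S_A1) (hP : S_P1u) (hO : S_O) (hS : S_SY) (N k : ℕ) (hN : 2 ≤ N)
    (hk : Nat.Coprime k N) :
    ∃ (K₀ : ℕ) (G : ∀ (L : ℕ) [NeZero L], Ph N L → ℝ),
      (∀ (L : ℕ) [NeZero L], Continuous (G L) ∧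
        ∀ (g : Tor L → SU N) (φ : Ph N L), G L (act g φ) = G L φ) ∧
      ∀ Ψ : ℝ × ℝ → ℝ, ContDiff ℝ 4 Ψ → HasCompactSupport Ψ → ∀ ε : ℝ, 0 < ε →
        ∃ C₀ : ℝ, 0 < C₀ ∧ ∀ (L : ℕ) [NeZero L] (β : ℝ), C₀ ≤ L → C₀ * (L : ℝ) ^ K₀ ≤ β →
          |Phi N L k β (fun X => Real.cos (sfl β (G L) (srcc N Ψ) X)) -
            Real.exp (-((∫ p, srcc N Ψ p * Ψ p) / 2))| ≤ ε ∧
          |Phi N L k β (fun X => Real.sin (sfl β (G L) (srcc N Ψ) X))| ≤ ε := by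
  obtain ⟨P, Q, hPQ⟩ := hA1 N k hN hk
  obtain ⟨C₁, K₁, hC₁, hM⟩ := hUM N k hN hk P Q hPQ
  obtain ⟨C₂, K₂, hC₂, hK⟩ := hUK N k hN hk P Q hPQ C₁ K₁
  obtain ⟨C₃, K₃, hC₃, hV⟩ := hVK N k hN hk P Q hPQ C₁ K₁
  obtain ⟨c, C₄, K₄, hc, hC₄, hD⟩ := hP N k hN hk
  choose E G hMod using hM
  refine ⟨2 * K₂ + 2 * K₃ + K₄, fun L inst => @G L inst, fun L inst =>
    ⟨(@hMod L inst).2.2.2.2.1, (@hMod L inst).2.2.2.2.2.1⟩, fun Ψ hΨ hΨs ε hε => ?_⟩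
  obtain ⟨hsc, ⟨r, hr⟩, C, hC, hΨC, hsrC, hT⟩ := hVT N hN Ψ hΨ hΨs
  have hC0 : 0 < C := by linarith
  have hN' : (2 : ℝ) ≤ N := by exact_mod_cast hN
  -- in `L`
  have l1 := s2_lim hVR hN hΨ.continuous hsc hr hC hΨC hT
  have l2 : Tendsto (fun L : ℕ => Real.exp (-((∑ x ∈ Nb (r * L + 1) 0,
      sc N L (rs L Ψ) x * rs L Ψ x) / 2))) atTop (𝓝 (Real.exp (-((∫ p, srcc N Ψ p * Ψ p) / 2)))) :=
    (Real.continuous_exp.tendsto _).comp (l1.div_const 2).neg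
  have l3 : Tendsto (fun L : ℕ => (C * (25 * (r + 1 : ℝ) ^ 2) * ((1 + (N : ℝ) ^ 2 / 8) / 2)) / (L : ℝ))
      atTop (𝓝 0) := tendsto_const_nhds.div_atTop tendsto_natCast_atTop_atTop
  obtain ⟨L₁, hL₁⟩ := Metric.tendsto_atTop.1 l2 (ε / 3) (by linarith)
  obtain ⟨L₂, hL₂⟩ := Metric.tendsto_atTop.1 l3 (ε / 3) (by linarith)
  set B : ℝ := (r : ℝ) + 1 with hB
  have hB0 : 0 < B := by positivity
  refine ⟨C₂ * B ^ K₂ + C₃ * B ^ K₃ + C₄ + ((C + C ^ 3) * 3 / ε) ^ 5 + L₁ + L₂ + 2, by positivity,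
    fun L inst β hL hβ => ?_⟩
  have q2 : 0 ≤ C₂ * B ^ K₂ := by positivity
  have q3 : 0 ≤ C₃ * B ^ K₃ := by positivity
  have q4 : 0 ≤ C₄ := by linarith
  have q5 : 0 ≤ ((C + C ^ 3) * 3 / ε) ^ 5 := by positivity
  have q6 : (0 : ℝ) ≤ L₁ := by positivity
  have q7 : (0 : ℝ) ≤ L₂ := by positivity
  have hL2 : (2 : ℝ) ≤ L := by linarith
  have hLL1 : L₁ ≤ L := by
    have : (L₁ : ℝ) ≤ L := by linarith
    exact_mod_cast this
  have hLL2 : L₂ ≤ L := by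
    have : (L₂ : ℝ) ≤ L := by linarith
    exact_mod_cast this
  have hL2n : 2 ≤ L := by exact_mod_cast hL2
  have hL1 : (1 : ℝ) ≤ L := by linarith
  have hL0 : (0 : ℝ) < L := by linarith
  set A : ℝ := (L : ℝ) ^ (2 * K₂ + 2 * K₃ + K₄) with hA
  have hA1' : 1 ≤ A := one_le_pow₀ hL1
  have p2 : (L : ℝ) ^ (2 * K₂) ≤ A := pow_le_pow_right₀ hL1 (by omega)
  have p3 : (L : ℝ) ^ (2 * K₃) ≤ A := pow_le_pow_right₀ hL1 (by omega)
  have p4 : (L : ℝ) ^ K₄ ≤ A := pow_le_pow_right₀ hL1 (by omega)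
  have hexp : (C₂ * B ^ K₂ + C₃ * B ^ K₃ + C₄ + ((C + C ^ 3) * 3 / ε) ^ 5 + L₁ + L₂ + 2) * A =
      C₂ * B ^ K₂ * A + C₃ * B ^ K₃ * A + C₄ * A + ((C + C ^ 3) * 3 / ε) ^ 5 * A + L₁ * A + L₂ * A +
        2 * A := by ring
  rw [hexp] at hβ
  have hA0 : 0 ≤ A := by linarith
  have z2 := mul_nonneg q2 hA0
  have z3 := mul_nonneg q3 hA0
  have z4 := mul_nonneg q4 hA0
  have z5 := mul_nonneg q5 hA0
  have z6 := mul_nonneg q6 hA0
  have z7 := mul_nonneg q7 hA0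
  have b2 : C₂ * B ^ K₂ * (L : ℝ) ^ (2 * K₂) ≤ β := by
    have := mul_le_mul_of_nonneg_left p2 q2
    linarith
  have b3 : C₃ * B ^ K₃ * (L : ℝ) ^ (2 * K₃) ≤ β := by
    have := mul_le_mul_of_nonneg_left p3 q3
    linarith
  have b4 : C₄ * (L : ℝ) ^ K₄ ≤ β := by
    have := mul_le_mul_of_nonneg_left p4 q4
    linarith
  have b5 : ((C + C ^ 3) * 3 / ε) ^ 5 ≤ β := by
    have := le_mul_of_one_le_right q5 hA1'
    linarith
  have b1 : 1 ≤ β := by linarith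
  have hβ0 : 0 < β := by linarith
  obtain ⟨κ, hκ, hDec⟩ := hD L β hβ0.le b4
  obtain ⟨-, -, -, -, hGc, -, hGb, -, -⟩ := @hMod L inst
  have hln : (L : ℝ) * (((r * L : ℕ) : ℝ) + 1) ≤ B * (L : ℝ) ^ 2 := by
    push_cast
    rw [hB]
    have : (L : ℝ) ≤ (L : ℝ) ^ 2 := by
      calc (L : ℝ) = L * 1 := (mul_one _).symm
        _ ≤ L * L := mul_le_mul_of_nonneg_left hL1 hL0.le
        _ = _ := (pow_two _).symm
    have e : (L : ℝ) * ((r : ℝ) * L + 1) = r * (L : ℝ) ^ 2 + L := by ring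
    rw [e, add_mul, one_mul]
    linarith
  have hpw : ∀ (C' : ℝ) (K' : ℕ), 0 ≤ C' → C' * ((L : ℝ) * (((r * L : ℕ) : ℝ) + 1)) ^ K' ≤
      C' * B ^ K' * (L : ℝ) ^ (2 * K') := by
    intro C' K' hC'
    calc C' * ((L : ℝ) * (((r * L : ℕ) : ℝ) + 1)) ^ K' ≤ C' * (B * (L : ℝ) ^ 2) ^ K' :=
          mul_le_mul_of_nonneg_left (pow_le_pow_left₀ (by positivity) hln K') hC'
      _ = C' * B ^ K' * (L : ℝ) ^ (2 * K') := by rw [mul_pow, ← pow_mul, mul_assoc]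
  obtain ⟨m₀, hm₀⟩ := hK L β (r * L) ((hpw C₂ K₂ (by linarith)).trans b2) (@E L inst) (@G L inst)
    (@hMod L inst)
  obtain ⟨m₁, hm₁⟩ := hV L β (r * L) ((hpw C₃ K₃ (by linarith)).trans b3) (@E L inst) (@G L inst)
    (@hMod L inst)
  have hC₁L : 1 ≤ C₁ * (L : ℝ) ^ K₁ := by
    calc (1 : ℝ) = 1 * 1 := by ring
      _ ≤ _ := mul_le_mul hC₁ (one_le_pow₀ hL1) zero_le_one (by linarith)
  have hδ1 : β ^ (-(1 / 5) : ℝ) ≤ 1 := Real.rpow_le_one_of_one_le_of_nonpos b1 (by norm_num)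
  have hm0 : 0 < c / (L : ℝ) := by positivity
  obtain ⟨hμ, hμ2, hmu, hinv⟩ := up_inv hN (by omega : 1 ≤ L) rfl
  have hmu0 : 0 < mu2 N L := by rw [← hmu]; positivity
  have hres := scal_one hN hβ0 hm0 hO hS hVO hVS hDec hC₁L hGc hGb hδ1 hmu0 hm₀ hm₁ hr hC hΨC hsrC
    (hT L (by omega)) hL2n le_rfl
  -- the errors
  have e1 : (C + C ^ 3) * β ^ (-(1 / 5) : ℝ) ≤ ε / 3 := by
    have y0 : 0 < (C + C ^ 3) * 3 / ε := by positivity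
    have h2 : β ^ (-(1 / 5) : ℝ) ≤ (((C + C ^ 3) * 3 / ε) ^ 5) ^ (-(1 / 5) : ℝ) :=
      Real.rpow_le_rpow_of_nonpos (by positivity) b5 (by norm_num)
    have h3 : (((C + C ^ 3) * 3 / ε) ^ 5) ^ (-(1 / 5) : ℝ) = ((C + C ^ 3) * 3 / ε)⁻¹ := by
      rw [← Real.rpow_natCast, ← Real.rpow_mul y0.le, ← Real.rpow_neg_one]
      congr 1
      norm_num
    rw [h3] at h2
    have hCC : 0 < C + C ^ 3 := by positivity
    calc (C + C ^ 3) * β ^ (-(1 / 5) : ℝ) ≤ (C + C ^ 3) * ((C + C ^ 3) * 3 / ε)⁻¹ :=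
          mul_le_mul_of_nonneg_left h2 hCC.le
      _ = ε / 3 := by field_simp
  have e2 : C / (L : ℝ) ^ 4 * ((Nb (r * L + 1) 0).card * ((L + 2 / mu2 N L / L) / 2)) ≤ ε / 3 := by
    have h1 := hL₂ L hLL2
    rw [Real.dist_eq, sub_zero] at h1
    refine le_trans ?_ ((le_abs_self _).trans h1.le)
    rw [Nb_card]
    have h5 : (2 * ((r * L + 1 : ℕ) : ℝ) + 1) ^ 2 ≤ (5 * (B * L)) ^ 2 := by
      refine pow_le_pow_left₀ (by positivity) ?_ 2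
      push_cast
      rw [hB]
      have : (0 : ℝ) ≤ (r : ℝ) * L := by positivity
      linarith
    have h6 : 2 / mu2 N L / L ≤ (N : ℝ) ^ 2 / 8 * L := by
      rw [← hmu, div_le_iff₀ hL0]
      calc 2 / (2 * Real.sin (Real.pi / (N * L))) ^ 2 =
            2 * (1 / (2 * Real.sin (Real.pi / (N * L))) ^ 2) := by ring
        _ ≤ 2 * ((N : ℝ) ^ 2 / 16 * (L : ℝ) ^ 2) := mul_le_mul_of_nonneg_left hinv (by norm_num)
        _ = (N : ℝ) ^ 2 / 8 * L * L := by ring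
    calc C / (L : ℝ) ^ 4 * ((2 * ((r * L + 1 : ℕ) : ℝ) + 1) ^ 2 * ((L + 2 / mu2 N L / L) / 2)) ≤
          C / (L : ℝ) ^ 4 * ((5 * (B * L)) ^ 2 * ((L + (N : ℝ) ^ 2 / 8 * L) / 2)) := by
          refine mul_le_mul_of_nonneg_left ?_ (by positivity)
          refine mul_le_mul h5 (by linarith) ?_ (by positivity)
          have : 0 ≤ 2 / mu2 N L / L := by positivity
          linarith
      _ = (C * (25 * B ^ 2) * ((1 + (N : ℝ) ^ 2 / 8) / 2)) / (L : ℝ) := by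
          field_simp
          ring
  have e3 : |Real.exp (-((∑ x ∈ Nb (r * L + 1) 0, sc N L (rs L Ψ) x * rs L Ψ x) / 2)) -
      Real.exp (-((∫ p, srcc N Ψ p * Ψ p) / 2))| ≤ ε / 3 := by
    have h1 := hL₁ L hLL1
    rw [Real.dist_eq] at h1
    exact h1.le
  obtain ⟨r1, r2⟩ := hres
  constructor
  · have a1 := abs_le.1 (r1.trans (add_le_add e1 e2))
    have a2 := abs_le.1 e3
    rw [abs_le]
    constructor <;> linarith [a1.1, a1.2, a2.1, a2.2]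
  · refine (r2.trans (add_le_add e1 e2)).trans ?_
    linarith

end T2H02.TT
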