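import Pool.Agent.T2H02.TT.Fin25

/-!
# Two orthogonal modes
-/

set_option autoImplicit false
set_option linter.unusedSectionVars false

noncomputable section

open MeasureTheory Matrix
open scoped Matrix.Norms.Frobenius

namespace T2H02.TT

namespace PkgUMx

open PkgUM

variable {N L : ℕ} [NeZero L]

lemma ip_Bm2 (W : SU N) (x : ℂ) :
    ip (Bm W x) (Bm W (Complex.I * x)) = 2 * ((star x) ^ 2 * ((W : Mt N) * (W : Mt N)).trace).im := by
  rw [ip_Bm W _ (Bm_ct W x)]
  congr 1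
  have h1 : (Bm W x * (W : Mt N)).trace =
      Complex.I * (x * N + star x * ((W : Mt N) * (W : Mt N)).trace) := by
    rw [Bm, smul_mul_assoc, add_mul, smul_mul_assoc, smul_mul_assoc, PkgE.ct_mul, trace_smul,
      trace_add, trace_smul, trace_smul, trace_one, Fintype.card_fin]
    rfl
  rw [h1]
  have h2 : star (Complex.I * x) * (Complex.I * (x * N + star x * ((W : Mt N) * (W : Mt N)).trace)) =
      ((N * ‖x‖ ^ 2 : ℝ) : ℂ) + (star x) ^ 2 * ((W : Mt N) * (W : Mt N)).trace := by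
    have h3 : ((‖x‖ : ℂ)) ^ 2 = x * star x := (Complex.mul_conj' _).symm
    have h4 : Complex.I * Complex.I = -1 := Complex.I_mul_I
    push_cast
    rw [h3, star_mul', RCLike.star_def, Complex.conj_I]
    linear_combination (-(x * (starRingEnd ℂ) x * N) - (starRingEnd ℂ) x ^ 2 *
      ((W : Mt N) * (W : Mt N)).trace) * h4
  rw [h2, Complex.add_im, Complex.ofReal_im, zero_add]

lemma sum_ip {k a : ℕ} (hN : 2 ≤ N) (hk : Nat.Coprime k N) {P Q : SU N} (hPQ : PQ k P Q)
    (hka : (k * a) % N = 1) (hL : 2 ≤ L) {W : SU N} (hW : W = P ^ a) (κ : ℂ) :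
    ∑ y : Tor L, ip (Em L W κ y) (Em L W (Complex.I * κ) y) = 0 := by
  have h1 : ∀ y : Tor L, ip (Em L W κ y) (Em L W (Complex.I * κ) y) =
      2 * ((star (zz N y)) ^ 2 * ((star κ) ^ 2 * ((W : Mt N) * (W : Mt N)).trace)).im := by
    intro y
    unfold Em
    rw [mul_assoc, ip_Bm2, star_mul', mul_pow]
    have : (star κ ^ 2 * star (zz N y) ^ 2 * ((W : Mt N) * (W : Mt N)).trace).im =
        ((star (zz N y)) ^ 2 * ((star κ) ^ 2 * ((W : Mt N) * (W : Mt N)).trace)).im := by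
      congr 1
      ring
    rw [this]
  have h2 : ∑ y : Tor L, ((star (zz N y)) ^ 2 * ((star κ) ^ 2 * ((W : Mt N) * (W : Mt N)).trace)).im
      = 0 := by
    rcases Nat.lt_or_ge 2 N with h3 | h3
    · have h4 : ((W : Mt N) * (W : Mt N)).trace = 0 := by
        have h5 : ¬ (N ∣ (2 * a) ∧ N ∣ 0) := by
          rintro ⟨h6, -⟩
          have h7 : N ∣ k * (2 * a) := Dvd.dvd.mul_left h6 k
          have h8 : (k * (2 * a)) % N = 2 % N := by
            have : k * (2 * a) = 2 * (k * a) := by ring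
            rw [this, Nat.mul_mod, hka, mul_one, Nat.mod_mod]
          rw [Nat.mod_eq_zero_of_dvd h7, Nat.mod_eq_of_lt h3] at h8
          omega
        have h6 := pA4 N k hN hk P Q hPQ (2 * a) 0 h5
        rw [pow_zero, mul_one] at h6
        have h7 : (W : Mt N) * (W : Mt N) = (P : Mt N) ^ (2 * a) := by
          have : (W : Mt N) = (P : Mt N) ^ a := by rw [hW]; rfl
          rw [this, ← pow_add, two_mul]
        rw [h7]
        exact h6
      refine Finset.sum_eq_zero fun y _ => ?_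
      rw [h4, mul_zero, mul_zero, Complex.zero_im]
    · obtain rfl : N = 2 := le_antisymm h3 hN
      rw [← Complex.im_sum, ← Finset.sum_mul, sum_zz hL, zero_mul, Complex.zero_im]
  rw [Finset.sum_congr rfl fun y _ => h1 y, ← Finset.mul_sum, h2, mul_zero]

lemma kap_I (u : ℂ) : kap N L (-Complex.I * u) = Complex.I * kap N L u := by
  unfold kap
  rw [star_mul', star_neg, RCLike.star_def, Complex.conj_I]
  ring

end PkgUMx

open PkgUM PkgUMx

/-- two orthogonal modes with their observables: `Re Z` and `Im Z` -/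
def S_UMy : Prop := ∀ N k : ℕ, 2 ≤ N → Nat.Coprime k N → ∀ P Q : SU N, PQ k P Q →
  ∀ a : ℕ, a < N → (k * a) % N = 1 →
  ∃ (C : ℝ) (K : ℕ), 1 ≤ C ∧ ∀ (L : ℕ) [NeZero L], 2 ≤ L →
    ∃ E E' : Tor L → Mt N, Mod N L P Q (C * (L : ℝ) ^ K) E (Gpol N L a 1) ∧
      Mod N L P Q (C * (L : ℝ) ^ K) E' (Gpol N L a (-Complex.I)) ∧ ∑ y, ip (E y) (E' y) = 0

theorem modx (N k : ℕ) (hN : 2 ≤ N) (hk : Nat.Coprime k N) (P Q : SU N) (h : PQ k P Q) (a : ℕ)
    (haN : a < N) (hka : (k * a) % N = 1) :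
    ∃ (C : ℝ) (K : ℕ), 1 ≤ C ∧ ∀ (L : ℕ) [NeZero L], 2 ≤ L → ∀ u : ℂ, ‖u‖ = 1 →
      Mod N L P Q (C * (L : ℝ) ^ K) (Em L (P ^ a) (kap N L u)) (Gpol N L a u) := by
  have ha : 1 ≤ a := by
    rcases Nat.eq_zero_or_pos a with h | h
    · rw [h, mul_zero, Nat.zero_mod] at hka
      omega
    · exact h
  have hom : om N k ^ a = om N 1 := by
    have h1 : k * a = N * (k * a / N) + 1 := by
      have := Nat.div_add_mod (k * a) N
      rw [hka] at this
      exact this.symm
    have hN0 : (N : ℂ) ≠ 0 := by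
      have : N ≠ 0 := by omega
      exact_mod_cast this
    have h2 : (k : ℂ) * a = N * ((k * a / N : ℕ) : ℂ) + 1 := by exact_mod_cast h1
    unfold om
    rw [← Complex.exp_nat_mul]
    have h3 : (a : ℂ) * (2 * Real.pi * Complex.I * k / N) =
        ((k * a / N : ℕ) : ℂ) * (2 * Real.pi * Complex.I) + 2 * Real.pi * Complex.I * (1 : ℕ) / N := by
      have e : (a : ℂ) * (2 * Real.pi * Complex.I * k / N) =
          2 * Real.pi * Complex.I * ((k : ℂ) * a) / N := by ring
      rw [e, h2]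
      push_cast
      field_simp
    rw [h3, Complex.exp_add, Complex.exp_nat_mul_two_pi_mul_I, one_mul]
  obtain ⟨C₀, hC₀, hpr⟩ := PkgE.su_sub_pr hN
  have hN' : (2 : ℝ) ≤ N := by exact_mod_cast hN
  obtain ⟨W, hW⟩ : ∃ W : SU N, W = P ^ a := ⟨_, rfl⟩
  have hWc : (W : Mt N) = (P : Mt N) ^ a := by rw [hW]; rfl
  have ht : (W : Mt N).trace = 0 := by
    have := pA4 N k hN hk P Q h a 0 (fun hc => by
      have := Nat.le_of_dvd (by omega) hc.1
      omega)
    rw [pow_zero, mul_one] at this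
    rw [hWc]
    exact this
  have hPW : P * W = W * P := by rw [hW, ← pow_succ, ← pow_succ']
  have hD : Dat P Q W := by
    refine ⟨?_, ?_, ht⟩
    · have : P * W * P⁻¹ = W := by rw [hPW, mul_inv_cancel_right]
      exact congrArg (fun x : SU N => (x : Mt N)) this
    · have h1 := PkgE.PQ_pow' h a
      rw [hom, ← hWc] at h1
      have h2 : star (om N 1) * om N 1 = 1 := by
        have hn : ‖om N 1‖ = 1 :=
          (PkgE.om_prim hN (Nat.coprime_one_left N)).norm'_eq_one (by omega)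
        have h3 := Complex.mul_conj' (om N 1)
        rw [hn] at h3
        rw [RCLike.star_def, mul_comm, h3]
        norm_num
      have h3 : (Q : Mt N) * (W : Mt N) = star (om N 1) • ((W : Mt N) * (Q : Mt N)) := by
        rw [h1, smul_smul, h2, one_smul]
      unfold Adj
      rw [h3, smul_mul_assoc, mul_assoc, PkgB.coe_mul_inv, mul_one]
  refine ⟨8 * N ^ 2 + 12 * N * C₀ + N, 3, ?_, fun L _ hL2 u hu => ?_⟩
  · have : (0 : ℝ) ≤ 12 * N * C₀ := by positivity
    nlinarith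
  have hL : (1 : ℝ) ≤ L := by exact_mod_cast NeZero.pos L
  have hsq : (0 : ℝ) < Real.sqrt (2 * N) := Real.sqrt_pos.2 (by positivity)
  have hκ : ‖kap N L u‖ ≤ 1 := by
    rw [norm_kap u hu]
    refine inv_le_one_of_one_le₀ ?_
    have : 1 ≤ Real.sqrt (2 * N) := Real.one_le_sqrt.2 (by linarith)
    nlinarith
  have hS : ∑ y, ‖Em L W (kap N L u) y‖ ^ 2 = 1 := by
    rw [sum_norm hN hk h hka hL2 hW, norm_kap u hu, inv_pow, mul_pow, Real.sq_sqrt (by positivity)]
    have h1 : (N : ℝ) ≠ 0 := by linarith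
    have h2 : (L : ℝ) ≠ 0 := by linarith
    field_simp
  have hv : ∀ y : Tor L, (vac P Q : Ph N L) y 0 * W = W * (vac P Q : Ph N L) y 0 := by
    intro y
    by_cases h0 : y.1 = -1
    · have h3 : (vac P Q : Ph N L) y 0 = P := by simp [vac, h0]
      rw [h3, hPW]
    · have h3 : (vac P Q : Ph N L) y 0 = 1 := by simp [vac, h0]
      rw [h3, mul_one, one_mul]
  have hE : ∀ y : Tor L, ‖Em L W (kap N L u) y‖ ≤ 1 := by
    intro y
    have h1 : ‖Em L W (kap N L u) y‖ ^ 2 ≤ 1 := by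
      rw [← hS]
      exact Finset.single_le_sum (f := fun y => ‖Em L W (kap N L u) y‖ ^ 2)
        (fun _ _ => by positivity) (Finset.mem_univ y)
    nlinarith [norm_nonneg (Em L W (kap N L u) y)]
  rw [Gpol_eq hN, ← hW]
  refine ⟨fun y => Bm_mem W ht _, hS, dd0 hD _,
    fun b _ => ward hN hD _ b, Gf_cont a _, fun g φ => Gf_act a _ g φ, fun φ => ?_,
    Gf_cph hN a ha haN _, ?_⟩
  · refine (Gf_le hN a ha _ hκ φ).trans ?_
    have h1 : (L : ℝ) ≤ L ^ 3 := by nlinarith [mul_nonneg (sub_nonneg.2 hL) (sub_nonneg.2 hL)]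
    have h2 : 2 * (N : ℝ) ^ 2 ≤ 8 * N ^ 2 + 12 * N * C₀ + N := by
      have : (0 : ℝ) ≤ 12 * N * C₀ := by positivity
      nlinarith
    exact mul_le_mul h2 h1 (by positivity) (by positivity)
  · intro φ b ρ hρ hρ1 hb
    exact Gf_lin hN a ha haN _ hκ hW ht hv hE C₀ hC₀ hpr φ b ρ hρ hρ1 hb

theorem pUMy : S_UMy := by
  intro N k hN hk P Q h a haN hka
  obtain ⟨C, K, hC, hM⟩ := modx N k hN hk P Q h a haN hka
  refine ⟨C, K, hC, fun L _ hL => ⟨_, _, hM L hL 1 (by simp), hM L hL (-Complex.I) (by simp), ?_⟩⟩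
  have e : kap N L (-Complex.I) = Complex.I * kap N L 1 := by
    have := kap_I (N := N) (L := L) 1
    rwa [mul_one] at this
  rw [e]
  exact sum_ip hN hk h hka hL rfl (kap N L 1)

end T2H02.TT
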