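import Pool.Agent.T2H02.TT.StmQ
import Pool.Agent.T2H02.TT.Fin24

/-!
# Approximate solution of the lattice equation for a general test function
-/

set_option autoImplicit false
set_option linter.unusedSectionVars false

noncomputable section

open MeasureTheory Matrix Filter Topology
open scoped Matrix.Norms.Frobenius

namespace T2H02.TT

lemma one_fun (hQN : S_QN) (hQM : S_QM) {N : ℕ} (hN : 2 ≤ N) {Ψ F : ℝ × ℝ → ℝ} {r : ℕ} {C : ℝ}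
    (hr : ∀ p : ℝ × ℝ, (r : ℝ) ≤ |p.1| ∨ (r : ℝ) ≤ |p.2| → F p = 0) (hC : 1 ≤ C)
    (hΨ : ∀ p, |Ψ p| ≤ C) (hF : ∀ p, |F p| ≤ C)
    (hT : ∀ L : ℕ, 1 ≤ L → ∀ x : Pl,
      |sc N L (rs L Ψ) x - rs L F x / (L : ℝ) ^ 2| ≤ C / (L : ℝ) ^ 4) :
    ∃ M : ℝ, 1 ≤ M ∧ ∀ L : ℕ, 1 ≤ L → ∃ ψ : Pl → ℝ,
      (∀ x, ψ x ≠ 0 → x ∈ Nb (r * L + L ^ 4) 0) ∧ (∀ x, |ψ x| ≤ M) ∧
      (∀ x, |rs L F x / (L : ℝ) ^ 2| ≤ M) ∧
      ∑ x ∈ Nb (r * L + L ^ 4 + 1) 0, |rs L F x / (L : ℝ) ^ 2 - sc N L ψ x| ≤ M / (L : ℝ) ^ 2 ∧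
      |∑ x ∈ Nb (r * L + L ^ 4 + 1) 0, sc N L ψ x * ψ x -
        ∑ x ∈ Nb (r * L) 0, rs L (fun p => F p * Ψ p) x / (L : ℝ) ^ 2| ≤ M / (L : ℝ) ^ 2 := by
  have hC0 : 0 ≤ C := by linarith
  obtain ⟨ν, hν⟩ : ∃ ν : ℝ, ν = (N : ℝ) ^ 2 / 16 := ⟨_, rfl⟩
  have hν0 : 0 ≤ ν := by rw [hν]; positivity
  obtain ⟨B₁, hB₁⟩ : ∃ B₁ : ℝ, B₁ = C * (2 * r + 1) ^ 2 := ⟨_, rfl⟩
  have hB₁0 : 0 ≤ B₁ := by rw [hB₁]; positivity
  have n1 : 0 ≤ C * ν := by positivity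
  have n2 : 0 ≤ 4 * ν * B₁ := by positivity
  have n3 : 0 ≤ 4 * ν * B₁ * (C * ν) := by positivity
  have n4 : 0 ≤ B₁ * ((4 * ν + 1) * C * ν) := by positivity
  refine ⟨1 + C + C * ν + 4 * ν * B₁ + 4 * ν * B₁ * (C * ν) + B₁ * ((4 * ν + 1) * C * ν), by
    linarith, fun L hL => ?_⟩
  have hL1 : (1 : ℝ) ≤ L := by exact_mod_cast hL
  have hL0 : (0 : ℝ) < L := by linarith
  have hL2 : (0 : ℝ) < (L : ℝ) ^ 2 := by positivity
  obtain ⟨hμ, -, hmu, hinv⟩ := up_inv hN hL rfl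
  rw [hmu, ← hν] at hinv
  have hmu0 : 0 < mu2 N L := by rw [← hmu]; positivity
  set w : Pl → ℝ := fun x => rs L F x / (L : ℝ) ^ 2 with hw
  have hwz : ∀ x, x ∉ Nb (r * L) 0 → w x = 0 := by
    intro x hx
    haveI : NeZero L := ⟨by omega⟩
    show rs L F x / (L : ℝ) ^ 2 = 0
    rw [rs_zero (L := L) hr le_rfl x hx, zero_div]
  have hwB : ∀ x, |w x| ≤ C / (L : ℝ) ^ 2 := by
    intro x
    show |rs L F x / (L : ℝ) ^ 2| ≤ _
    rw [abs_div, abs_of_pos hL2]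
    exact div_le_div_of_nonneg_right (hF _) hL2.le
  have hw1 : ∑ x ∈ Nb (r * L) 0, |w x| ≤ B₁ := by
    calc ∑ x ∈ Nb (r * L) 0, |w x| ≤ ∑ _x ∈ Nb (r * L) 0, C / (L : ℝ) ^ 2 :=
          Finset.sum_le_sum fun x _ => hwB x
      _ = (2 * ((r * L : ℕ) : ℝ) + 1) ^ 2 * (C / (L : ℝ) ^ 2) := by
          rw [Finset.sum_const, nsmul_eq_mul, Nb_card]
      _ ≤ ((2 * r + 1) * L) ^ 2 * (C / (L : ℝ) ^ 2) := by
          refine mul_le_mul_of_nonneg_right (pow_le_pow_left₀ (by positivity) ?_ 2) (by positivity)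
          push_cast
          nlinarith
      _ = B₁ := by rw [hB₁]; field_simp
  obtain ⟨ψ, s1, s2, s3, s4⟩ := hQN N L (r * L) (L ^ 4) hmu0 (Nat.one_le_pow _ _ (by omega)) w
    (C / (L : ℝ) ^ 2) B₁ (fun x hx => by
      by_contra h
      exact hx (hwz x h)) hwB hw1
  have hq : 4 / (mu2 N L * ((L ^ 4 : ℕ) : ℝ)) ≤ 4 * ν / (L : ℝ) ^ 2 := by
    push_cast
    have e : 4 / (mu2 N L * (L : ℝ) ^ 4) = 4 * (1 / mu2 N L) / (L : ℝ) ^ 4 := by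
      field_simp
    rw [e]
    calc 4 * (1 / mu2 N L) / (L : ℝ) ^ 4 ≤ 4 * (ν * (L : ℝ) ^ 2) / (L : ℝ) ^ 4 := by
          refine div_le_div_of_nonneg_right ?_ (by positivity)
          linarith
      _ = 4 * ν / (L : ℝ) ^ 2 := by field_simp
  have hψ : ∀ x, |ψ x| ≤ C * ν := by
    intro x
    refine (s2 x).trans ?_
    calc C / (L : ℝ) ^ 2 / mu2 N L = C / (L : ℝ) ^ 2 * (1 / mu2 N L) := by ring
      _ ≤ C / (L : ℝ) ^ 2 * (ν * (L : ℝ) ^ 2) := mul_le_mul_of_nonneg_left hinv (by positivity)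
      _ = C * ν := by field_simp
  have hv1 : ∑ x ∈ Nb (r * L + L ^ 4 + 1) 0, |w x - sc N L ψ x| ≤ 4 * ν * B₁ / (L : ℝ) ^ 2 := by
    refine s4.trans ?_
    calc B₁ * (4 / (mu2 N L * ((L ^ 4 : ℕ) : ℝ))) ≤ B₁ * (4 * ν / (L : ℝ) ^ 2) :=
          mul_le_mul_of_nonneg_left hq hB₁0
      _ = _ := by ring
  have hv : ∀ x, |w x - sc N L ψ x| ≤ 4 * ν * C / (L : ℝ) ^ 4 := by
    intro x
    refine (s3 x).trans ?_
    calc C / (L : ℝ) ^ 2 * (4 / (mu2 N L * ((L ^ 4 : ℕ) : ℝ))) ≤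
          C / (L : ℝ) ^ 2 * (4 * ν / (L : ℝ) ^ 2) := mul_le_mul_of_nonneg_left hq (by positivity)
      _ = _ := by field_simp
  have he : ∀ x, |ψ x - rs L Ψ x| ≤ (4 * ν + 1) * C * ν / (L : ℝ) ^ 2 := by
    intro x
    have h1 := hQM N L hmu0 (fun x => ψ x - rs L Ψ x) (C * ν + C) ((4 * ν + 1) * C / (L : ℝ) ^ 4)
      (fun x => (abs_sub _ _).trans (add_le_add (hψ x) (hΨ _))) (fun x => by
        have e : sc N L (fun x => ψ x - rs L Ψ x) x =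
            -(w x - sc N L ψ x) - (sc N L (rs L Ψ) x - w x) := by
          unfold sc lap
          ring
        rw [e]
        refine (abs_sub _ _).trans ?_
        rw [abs_neg]
        refine (add_le_add (hv x) (hT L hL x)).trans (le_of_eq ?_)
        ring) x
    refine h1.trans ?_
    calc (4 * ν + 1) * C / (L : ℝ) ^ 4 / mu2 N L =
          (4 * ν + 1) * C / (L : ℝ) ^ 4 * (1 / mu2 N L) := by ring
      _ ≤ (4 * ν + 1) * C / (L : ℝ) ^ 4 * (ν * (L : ℝ) ^ 2) :=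
          mul_le_mul_of_nonneg_left hinv (by positivity)
      _ = _ := by field_simp
  have hCL : C / (L : ℝ) ^ 2 ≤ C := div_le_self hC0 (one_le_pow₀ hL1)
  refine ⟨ψ, s1, fun x => (hψ x).trans (by linarith), fun x => ((hwB x).trans hCL).trans
    (by linarith), hv1.trans (div_le_div_of_nonneg_right (by linarith) hL2.le), ?_⟩
  have hsub : Nb (r * L) 0 ⊆ Nb (r * L + L ^ 4 + 1) (0 : Pl) := Nb_mono _ _ (by omega) 0
  have e1 : ∑ x ∈ Nb (r * L + L ^ 4 + 1) 0, sc N L ψ x * ψ x =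
      ∑ x ∈ Nb (r * L) 0, rs L (fun p => F p * Ψ p) x / (L : ℝ) ^ 2 +
        ∑ x ∈ Nb (r * L) 0, w x * (ψ x - rs L Ψ x) -
        ∑ x ∈ Nb (r * L + L ^ 4 + 1) 0, (w x - sc N L ψ x) * ψ x := by
    have e2 : ∑ x ∈ Nb (r * L + L ^ 4 + 1) 0, w x * ψ x = ∑ x ∈ Nb (r * L) 0, w x * ψ x := by
      symm
      refine Finset.sum_subset hsub fun x _ hx => ?_
      rw [hwz x hx, zero_mul]
    have e3 : ∑ x ∈ Nb (r * L + L ^ 4 + 1) 0, (w x - sc N L ψ x) * ψ x =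
        ∑ x ∈ Nb (r * L + L ^ 4 + 1) 0, w x * ψ x -
          ∑ x ∈ Nb (r * L + L ^ 4 + 1) 0, sc N L ψ x * ψ x := by
      rw [← Finset.sum_sub_distrib]
      exact Finset.sum_congr rfl fun x _ => by ring
    have e4 : ∑ x ∈ Nb (r * L) 0, w x * (ψ x - rs L Ψ x) = ∑ x ∈ Nb (r * L) 0, w x * ψ x -
        ∑ x ∈ Nb (r * L) 0, rs L (fun p => F p * Ψ p) x / (L : ℝ) ^ 2 := by
      rw [← Finset.sum_sub_distrib]
      refine Finset.sum_congr rfl fun x _ => ?_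
      show rs L F x / (L : ℝ) ^ 2 * (ψ x - rs L Ψ x) = _
      unfold rs
      show _ = F _ / (L : ℝ) ^ 2 * ψ x - (F _ * Ψ _) / (L : ℝ) ^ 2
      ring
    rw [e3, e4, e2]
    ring
  rw [e1]
  have t1 : |∑ x ∈ Nb (r * L) 0, w x * (ψ x - rs L Ψ x)| ≤
      B₁ * ((4 * ν + 1) * C * ν / (L : ℝ) ^ 2) := by
    refine (Finset.abs_sum_le_sum_abs _ _).trans ?_
    calc ∑ x ∈ Nb (r * L) 0, |w x * (ψ x - rs L Ψ x)| ≤
          ∑ x ∈ Nb (r * L) 0, |w x| * ((4 * ν + 1) * C * ν / (L : ℝ) ^ 2) := by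
          refine Finset.sum_le_sum fun x _ => ?_
          rw [abs_mul]
          exact mul_le_mul_of_nonneg_left (he x) (abs_nonneg _)
      _ = (∑ x ∈ Nb (r * L) 0, |w x|) * ((4 * ν + 1) * C * ν / (L : ℝ) ^ 2) := by
          rw [Finset.sum_mul]
      _ ≤ _ := mul_le_mul_of_nonneg_right hw1 (by positivity)
  have t2 : |∑ x ∈ Nb (r * L + L ^ 4 + 1) 0, (w x - sc N L ψ x) * ψ x| ≤
      4 * ν * B₁ / (L : ℝ) ^ 2 * (C * ν) := by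
    refine (Finset.abs_sum_le_sum_abs _ _).trans ?_
    calc ∑ x ∈ Nb (r * L + L ^ 4 + 1) 0, |(w x - sc N L ψ x) * ψ x| ≤
          ∑ x ∈ Nb (r * L + L ^ 4 + 1) 0, |w x - sc N L ψ x| * (C * ν) := by
          refine Finset.sum_le_sum fun x _ => ?_
          rw [abs_mul]
          exact mul_le_mul_of_nonneg_left (hψ x) (abs_nonneg _)
      _ = (∑ x ∈ Nb (r * L + L ^ 4 + 1) 0, |w x - sc N L ψ x|) * (C * ν) := by
          rw [Finset.sum_mul]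
      _ ≤ _ := mul_le_mul_of_nonneg_right hv1 n1
  have e5 : ∀ a b c : ℝ, a + b - c - a = b - c := fun a b c => by ring
  rw [e5]
  refine (abs_sub _ _).trans ((add_le_add t1 t2).trans ?_)
  have e6 : B₁ * ((4 * ν + 1) * C * ν / (L : ℝ) ^ 2) + 4 * ν * B₁ / (L : ℝ) ^ 2 * (C * ν) =
      (4 * ν * B₁ * (C * ν) + B₁ * ((4 * ν + 1) * C * ν)) / (L : ℝ) ^ 2 := by ring
  rw [e6]
  exact div_le_div_of_nonneg_right (by linarith) hL2.le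

end T2H02.TT
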