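import Pool.Agent.T2H02.TT.Fin28

/-!
# Scaling limit of two fields: one value of `L`
-/

set_option autoImplicit false
set_option linter.unusedSectionVars false

noncomputable section

open MeasureTheory Matrix Filter Topology
open scoped Matrix.Norms.Frobenius

namespace T2H02.TT

variable {N L : ℕ} [NeZero L]

lemma loc_fl2 (β : ℝ) (w w' : Pl → ℝ) (G G' : Ph N L → ℝ) (hG : Continuous G) (hG' : Continuous G')
    (Λ : Finset Pl) (g : ℝ → ℝ) (hg : Continuous g) (hg1 : ∀ a, |g a| ≤ 1) :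
    Loc Λ (fun X : Cf N L => g (fl β w G Λ X + fl β w' G' Λ X)) := by
  refine ⟨(hg.comp ((fl_cont β w G hG Λ).add (fl_cont β w' G' hG' Λ))).measurable,
    fun X => hg1 _, fun X Y h => ?_⟩
  have hpt : ∀ b ∈ Λ, pt X b = pt Y b := by
    intro b hb
    funext y j
    refine h _ fun a ha => ?_
    rw [mem_st] at ha
    rcases ha with rfl | rfl
    · exact hb
    · by_cases hj : j = 0
      · have e0 : b + ((0, 0) : Pl) = b := by ext <;> simp
        simpa [hj, pe, e0] using hb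
      · have e0 : b + ((0, 0) : Pl) = b := by ext <;> simp
        simpa [hj, pe, e0] using hb
  have e1 : fl β w G Λ X = fl β w G Λ Y := by
    unfold fl
    congr 1
    exact Finset.sum_congr rfl fun b hb => by rw [hpt b hb]
  have e2 : fl β w' G' Λ X = fl β w' G' Λ Y := by
    unfold fl
    congr 1
    exact Finset.sum_congr rfl fun b hb => by rw [hpt b hb]
  show g _ = g _
  rw [e1, e2]

/-- first moment of a field with small coefficients -/
lemma fl_mom {k : ℕ} {β : ℝ} (hβ : 0 ≤ β) (R Λ : Finset Pl) (v : Pl → ℝ) (G : Ph N L → ℝ)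
    (hG : Continuous G) {CG : ℝ} (hGb : ∀ φ, |G φ| ≤ CG) (f : Cf N L → ℝ) (hf : Measurable f)
    (hf1 : ∀ X, |f X| ≤ 1) {l γ : ℝ} (hl : 0 < l)
    (hγ : ∀ x ∈ Λ, β * wex N L k β R (fun X => G (pt X x) * G (pt X x)) ≤ γ) :
    |wex N L k β R (fun X => f X * fl β v G Λ X)| ≤ (∑ x ∈ Λ, |v x|) * ((l + γ / l) / 2) := by
  have hCG : 0 ≤ CG := (abs_nonneg _).trans (hGb 1)
  have mG : ∀ x : Pl, Measurable fun X : Cf N L => G (pt X x) := fun x =>
    (hG.comp (pt_cont x)).measurable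
  have mf : ∀ x : Pl, Measurable fun X : Cf N L => f X * G (pt X x) := fun x => hf.mul (mG x)
  have bf : ∀ (x : Pl) (X : Cf N L), |f X * G (pt X x)| ≤ CG := fun x X => by
    rw [abs_mul]
    calc |f X| * |G (pt X x)| ≤ 1 * CG := mul_le_mul (hf1 X) (hGb _) (abs_nonneg _) zero_le_one
      _ = CG := one_mul _
  have bG : ∀ (x : Pl) (X : Cf N L), |G (pt X x) * G (pt X x)| ≤ CG * CG := fun x X => by
    rw [abs_mul]
    exact mul_le_mul (hGb _) (hGb _) (abs_nonneg _) hCG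
  have e1 : wex N L k β R (fun X => f X * fl β v G Λ X) =
      ∑ x ∈ Λ, (Real.sqrt β * v x) * wex N L k β R (fun X => f X * G (pt X x)) := by
    rw [← wex_sum k hβ R Λ (fun x => Real.sqrt β * v x) (fun x X => f X * G (pt X x)) mf
      (fun x => ⟨CG, bf x⟩)]
    congr 1
    funext X
    unfold fl
    rw [Finset.mul_sum, Finset.mul_sum]
    exact Finset.sum_congr rfl fun x _ => by ring
  rw [e1]
  refine (Finset.abs_sum_le_sum_abs _ _).trans ?_
  rw [Finset.sum_mul]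
  refine Finset.sum_le_sum fun x hx => ?_
  have h0 : Real.sqrt β * |wex N L k β R (fun X => f X * G (pt X x))| ≤ (l + γ / l) / 2 := by
    -- both signs
    have key : ∀ s : ℝ, |s| ≤ 1 → Real.sqrt β * (s * wex N L k β R (fun X => f X * G (pt X x))) ≤
        (l + γ / l) / 2 := by
      intro s hs
      have h1 : Real.sqrt β * (s * wex N L k β R (fun X => f X * G (pt X x))) =
          wex N L k β R (fun X => Real.sqrt β * s * (f X * G (pt X x))) := by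
        rw [wex_mul]; ring
      rw [h1]
      have hs0 := Real.sqrt_nonneg β
      have h2 : wex N L k β R (fun X => Real.sqrt β * s * (f X * G (pt X x))) ≤
          wex N L k β R (fun X => l / 2 + β / (2 * l) * (G (pt X x) * G (pt X x))) := by
        refine wex_mono k hβ R _ _ ((mf x).const_mul _) ⟨|Real.sqrt β * s| * CG, fun X => ?_⟩
          ((((mG x).mul (mG x)).const_mul _).const_add _)
          ⟨l / 2 + β / (2 * l) * (CG * CG), fun X => ?_⟩ fun X => ?_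
        · rw [abs_mul (Real.sqrt β * s)]
          exact mul_le_mul_of_nonneg_left (bf x X) (abs_nonneg _)
        · refine (abs_add_le _ _).trans ?_
          have a1 : 0 ≤ l / 2 := by positivity
          have a2 : 0 ≤ β / (2 * l) := by positivity
          rw [abs_of_nonneg a1, abs_mul, abs_of_nonneg a2]
          exact add_le_add le_rfl (mul_le_mul_of_nonneg_left (bG x X) a2)
        · have h3 : Real.sqrt β * s * (f X * G (pt X x)) ≤ Real.sqrt β * |G (pt X x)| := by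
            refine (le_abs_self _).trans ?_
            rw [abs_mul, abs_mul, abs_mul, abs_of_nonneg hs0, mul_assoc]
            refine mul_le_mul_of_nonneg_left ?_ hs0
            have h4 := mul_le_mul hs (hf1 X) (abs_nonneg _) zero_le_one
            calc |s| * (|f X| * |G (pt X x)|) = (|s| * |f X|) * |G (pt X x)| := by ring
              _ ≤ (1 * 1) * |G (pt X x)| := mul_le_mul_of_nonneg_right h4 (abs_nonneg _)
              _ = _ := by ring
          refine h3.trans ?_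
          have h4 : 0 ≤ (l - Real.sqrt β * |G (pt X x)|) ^ 2 := sq_nonneg _
          have h5 : (Real.sqrt β * |G (pt X x)|) ^ 2 = β * (G (pt X x) * G (pt X x)) := by
            rw [mul_pow, Real.sq_sqrt hβ, sq_abs, pow_two]
          have h6 : 2 * l * (Real.sqrt β * |G (pt X x)|) ≤
              l * l + β * (G (pt X x) * G (pt X x)) := by
            rw [← h5]; linarith
          have h7 : l / 2 + β / (2 * l) * (G (pt X x) * G (pt X x)) =
              (l * l + β * (G (pt X x) * G (pt X x))) / (2 * l) := by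
            field_simp
          rw [h7, le_div_iff₀ (by positivity)]
          linarith
      refine h2.trans ?_
      have mGG : Measurable fun X : Cf N L => G (pt X x) * G (pt X x) := (mG x).mul (mG x)
      have e2 := wex_add k hβ R (fun _ : Cf N L => l / 2)
        (fun X => β / (2 * l) * (G (pt X x) * G (pt X x))) measurable_const
        ⟨|l / 2|, fun _ => le_rfl⟩ (mGG.const_mul _) ⟨|β / (2 * l)| * (CG * CG), fun X => by
          rw [abs_mul (β / (2 * l))]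
          exact mul_le_mul_of_nonneg_left (bG x X) (abs_nonneg _)⟩
      rw [e2, wex_const k hβ, wex_mul]
      have h8 := hγ x hx
      have h9 : β / (2 * l) * wex N L k β R (fun X => G (pt X x) * G (pt X x)) =
          (β * wex N L k β R (fun X => G (pt X x) * G (pt X x))) / (2 * l) := by ring
      rw [h9]
      have h10 : (β * wex N L k β R (fun X => G (pt X x) * G (pt X x))) / (2 * l) ≤ γ / (2 * l) :=
        div_le_div_of_nonneg_right h8 (by positivity)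
      have h11 : γ / (2 * l) = γ / l / 2 := by
        rw [div_div, mul_comm]
      rw [h11] at h10
      linarith
    rcases abs_cases (wex N L k β R (fun X => f X * G (pt X x))) with h | h
    · rw [h.1]
      have := key 1 (by simp)
      rwa [one_mul] at this
    · rw [h.1]
      have := key (-1) (by simp)
      rwa [neg_one_mul] at this
  rw [abs_mul, abs_mul, abs_of_nonneg (Real.sqrt_nonneg β)]
  calc Real.sqrt β * |v x| * |wex N L k β R (fun X => f X * G (pt X x))| =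
        |v x| * (Real.sqrt β * |wex N L k β R (fun X => f X * G (pt X x))|) := by ring
    _ ≤ _ := mul_le_mul_of_nonneg_left h0 (abs_nonneg _)

lemma fl_lin (β : ℝ) (c : ℝ) (w : Pl → ℝ) (G : Ph N L → ℝ) (Λ : Finset Pl) (X : Cf N L) :
    fl β (fun x => c * w x) G Λ X = c * fl β w G Λ X := by
  unfold fl
  have e : ∑ b ∈ Λ, (fun x => c * w x) b * G (pt X b) = c * ∑ b ∈ Λ, w b * G (pt X b) := by
    rw [Finset.mul_sum]
    exact Finset.sum_congr rfl fun x _ => mul_assoc _ _ _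
  rw [e]
  ring

lemma fl_split (β : ℝ) (w v : Pl → ℝ) (G : Ph N L → ℝ) (Λ : Finset Pl) (X : Cf N L) :
    fl β w G Λ X = fl β v G Λ X + fl β (fun x => w x - v x) G Λ X := by
  unfold fl
  rw [← mul_add, ← Finset.sum_add_distrib]
  congr 1
  exact Finset.sum_congr rfl fun x _ => by ring

/-- characteristic function of two smeared fields, one value of `L` -/
lemma scal2_one {k : ℕ} (hN : 2 ≤ N) {β : ℝ} (hβ : 0 < β) {m κ : ℝ} (hmm : 0 < m) (hO : S_O) (hS : S_SY)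
    (hVO : S_VO) (hVS : S_VS) (hD : Dec N L k hN β hβ.le m κ) {CG : ℝ} (hCG : 1 ≤ CG)
    {G G' : Ph N L → ℝ} (hGc : Continuous G) (hGb : ∀ φ, |G φ| ≤ CG) (hGc' : Continuous G')
    (hGb' : ∀ φ, |G' φ| ≤ CG) {n m₀ m₀' m₁ m₁' : ℕ} {δ : ℝ} (hδ1 : δ ≤ 1)
    (hmu : 0 < mu2 N L)
    (hUK : ∀ R : Finset Pl, Nb m₀ 0 ⊆ R → ∀ ψ : Pl → ℝ, (∀ x, |ψ x| ≤ 1) →
      (∀ x, ψ x ≠ 0 → x ∈ Nb n 0) →
      ∀ b ∈ Nb n 0, |β * wex N L k β R (obs ψ G (Nb (n + 1) 0) b) - ψ b| ≤ δ)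
    (hUK' : ∀ R : Finset Pl, Nb m₀' 0 ⊆ R → ∀ ψ : Pl → ℝ, (∀ x, |ψ x| ≤ 1) →
      (∀ x, ψ x ≠ 0 → x ∈ Nb n 0) →
      ∀ b ∈ Nb n 0, |β * wex N L k β R (obs ψ G' (Nb (n + 1) 0) b) - ψ b| ≤ δ)
    (hQK : ∀ R : Finset Pl, Nb m₁ 0 ⊆ R → ∀ ψ w w' : Pl → ℝ, (∀ x, |ψ x| ≤ 1) →
      (∀ x, |w x| ≤ 1) → (∀ x, |w' x| ≤ 1) →
      (∀ x, ψ x ≠ 0 → x ∈ Nb n 0) → ∀ h h' : ℝ → ℝ, Gd h h' →
      |wex N L k β R (fun X => h (fl β w G (Nb (n + 1) 0) X + fl β w' G' (Nb (n + 1) 0) X) *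
          fl β (sc N L ψ) G (Nb (n + 1) 0) X) -
        (∑ b ∈ Nb (n + 1) 0, w b * ψ b) *
          wex N L k β R (fun X => h' (fl β w G (Nb (n + 1) 0) X + fl β w' G' (Nb (n + 1) 0) X))| ≤ δ)
    (hQK' : ∀ R : Finset Pl, Nb m₁' 0 ⊆ R → ∀ ψ w w' : Pl → ℝ, (∀ x, |ψ x| ≤ 1) →
      (∀ x, |w x| ≤ 1) → (∀ x, |w' x| ≤ 1) →
      (∀ x, ψ x ≠ 0 → x ∈ Nb n 0) → ∀ h h' : ℝ → ℝ, Gd h h' →
      |wex N L k β R (fun X => h (fl β w G' (Nb (n + 1) 0) X + fl β w' G (Nb (n + 1) 0) X) *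
          fl β (sc N L ψ) G' (Nb (n + 1) 0) X) -
        (∑ b ∈ Nb (n + 1) 0, w b * ψ b) *
          wex N L k β R (fun X => h' (fl β w G' (Nb (n + 1) 0) X + fl β w' G (Nb (n + 1) 0) X))| ≤ δ)
    {M b : ℝ} (hM : 1 ≤ M) {w w' ψ ψ' : Pl → ℝ} (hw : ∀ x, |w x| ≤ M) (hw' : ∀ x, |w' x| ≤ M)
    (hψ : ∀ x, |ψ x| ≤ M) (hψ' : ∀ x, |ψ' x| ≤ M) (hs : ∀ x, ψ x ≠ 0 → x ∈ Nb n 0)
    (hs' : ∀ x, ψ' x ≠ 0 → x ∈ Nb n 0)
    (hb : ∑ x ∈ Nb (n + 1) 0, |w x - sc N L ψ x| ≤ b)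
    (hb' : ∑ x ∈ Nb (n + 1) 0, |w' x - sc N L ψ' x| ≤ b) :
    |Phi N L k β (fun X => Real.cos (fl β w G (Nb (n + 1) 0) X + fl β w' G' (Nb (n + 1) 0) X)) -
        Real.exp (-((∑ x ∈ Nb (n + 1) 0, sc N L ψ x * ψ x +
          ∑ x ∈ Nb (n + 1) 0, sc N L ψ' x * ψ' x) / 2))| ≤
      (M + M ^ 3) * (2 * δ + 2 * (b * ((L + (2 / mu2 N L + 1) / L) / 2)) + 2 * b) ∧
    |Phi N L k β (fun X => Real.sin (fl β w G (Nb (n + 1) 0) X + fl β w' G' (Nb (n + 1) 0) X))| ≤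
      (M + M ^ 3) * (2 * δ + 2 * (b * ((L + (2 / mu2 N L + 1) / L) / 2)) + 2 * b) := by
  have hM0 : 0 < M := by linarith
  have hLn : 1 ≤ L := Nat.one_le_iff_ne_zero.2 (NeZero.ne L)
  have hL0 : (0 : ℝ) < L := by exact_mod_cast hLn
  set Λ : Finset Pl := Nb (n + 1) 0 with hΛ
  have hb0 : 0 ≤ b := (Finset.sum_nonneg fun x _ => abs_nonneg _).trans hb
  have hMi : M⁻¹ ≤ 1 := inv_le_one_of_one_le₀ hM
  have hMi0 : 0 < M⁻¹ := inv_pos.2 hM0
  -- normalisation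
  have nrm : ∀ {v : Pl → ℝ}, (∀ x, |v x| ≤ M) → ∀ x, |M⁻¹ * v x| ≤ 1 := fun hv x => by
    rw [abs_mul, abs_of_pos hMi0, inv_mul_le_iff₀ hM0, mul_one]
    exact hv x
  have nsup : ∀ {v : Pl → ℝ}, (∀ x, v x ≠ 0 → x ∈ Nb n 0) → ∀ x, M⁻¹ * v x ≠ 0 → x ∈ Nb n 0 :=
    fun hv x hx => hv x fun h0 => hx (by rw [h0, mul_zero])
  set w₁ : Pl → ℝ := fun x => M⁻¹ * w x with hw₁
  set w₂ : Pl → ℝ := fun x => M⁻¹ * w' x with hw₂
  set φ₁ : Pl → ℝ := fun x => M⁻¹ * ψ x with hφ₁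
  set φ₂ : Pl → ℝ := fun x => M⁻¹ * ψ' x with hφ₂
  have hv : ∀ {w ψ : Pl → ℝ}, ∑ x ∈ Λ, |w x - sc N L ψ x| ≤ b →
      ∑ x ∈ Λ, |M⁻¹ * w x - sc N L (fun y => M⁻¹ * ψ y) x| ≤ b := by
    intro w ψ h
    have e : ∀ x, |M⁻¹ * w x - sc N L (fun y => M⁻¹ * ψ y) x| = M⁻¹ * |w x - sc N L ψ x| := by
      intro x
      rw [sc_smul, ← mul_sub, abs_mul, abs_of_pos hMi0]
    rw [Finset.sum_congr rfl fun x _ => e x, ← Finset.mul_sum]
    calc M⁻¹ * ∑ x ∈ Λ, |w x - sc N L ψ x| ≤ 1 * b :=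
          mul_le_mul hMi h (Finset.sum_nonneg fun x _ => abs_nonneg _) zero_le_one
      _ = b := one_mul b
  have hv₁ : ∑ x ∈ Λ, |w₁ x - sc N L φ₁ x| ≤ b := hv hb
  have hv₂ : ∑ x ∈ Λ, |w₂ x - sc N L φ₂ x| ≤ b := hv hb'
  obtain ⟨s2, hs2⟩ : ∃ s2 : ℝ, s2 = ∑ x ∈ Λ, sc N L φ₁ x * φ₁ x + ∑ x ∈ Λ, sc N L φ₂ x * φ₂ x :=
    ⟨_, rfl⟩
  have hs20 : 0 ≤ s2 := by
    rw [hs2]
    exact add_nonneg (hVS N L n φ₁ (nsup hs)) (hVS N L n φ₂ (nsup hs'))
  have hs2M : s2 * M ^ 2 = ∑ x ∈ Λ, sc N L ψ x * ψ x + ∑ x ∈ Λ, sc N L ψ' x * ψ' x := by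
    rw [hs2, add_mul, Finset.sum_mul, Finset.sum_mul]
    have e : ∀ ψ : Pl → ℝ, ∀ x, sc N L (fun y => M⁻¹ * ψ y) x * (M⁻¹ * ψ x) * M ^ 2 =
        sc N L ψ x * ψ x := by
      intro ψ x
      rw [sc_smul]
      field_simp
    congr 1
    · exact Finset.sum_congr rfl fun x _ => e ψ x
    · exact Finset.sum_congr rfl fun x _ => e ψ' x
  -- the coefficient of the Ward identity
  have hcoef : ∀ {w φ : Pl → ℝ}, (∀ x, |φ x| ≤ 1) → ∑ x ∈ Λ, |w x - sc N L φ x| ≤ b →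
      |∑ x ∈ Λ, w x * φ x - ∑ x ∈ Λ, sc N L φ x * φ x| ≤ b := by
    intro w φ h1 h2
    rw [← Finset.sum_sub_distrib]
    refine (Finset.abs_sum_le_sum_abs _ _).trans (le_trans (Finset.sum_le_sum fun x _ => ?_) h2)
    rw [← sub_mul, abs_mul]
    exact mul_le_of_le_one_right (abs_nonneg _) (h1 x)
  obtain ⟨Y, hY⟩ : ∃ Y : Cf N L → ℝ, Y = fun X => fl β w₁ G Λ X + fl β w₂ G' Λ X := ⟨_, rfl⟩
  have cf : ∀ (v : Pl → ℝ), Continuous fun X : Cf N L => fl β v G Λ X := fun v => fl_cont β v G hGc Λ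
  have cf' : ∀ (v : Pl → ℝ), Continuous fun X : Cf N L => fl β v G' Λ X := fun v =>
    fl_cont β v G' hGc' Λ
  have hYc : Continuous Y := by rw [hY]; exact (cf w₁).add (cf' w₂)
  obtain ⟨KY, hKY⟩ : ∃ KY : ℝ, ∀ X, |Y X| ≤ KY := by
    refine ⟨Real.sqrt β * ∑ b ∈ Λ, |w₁ b| * CG + Real.sqrt β * ∑ b ∈ Λ, |w₂ b| * CG, fun X => ?_⟩
    rw [hY]
    exact (abs_add_le _ _).trans (add_le_add (fl_abs w₁ G hGb Λ X) (fl_abs w₂ G' hGb' Λ X))
  have hMY : ∀ X, M * Y X = fl β w G Λ X + fl β w' G' Λ X := by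
    intro X
    rw [hY]
    show M * (fl β w₁ G Λ X + fl β w₂ G' Λ X) = _
    rw [hw₁, hw₂, fl_lin, fl_lin, mul_add, mul_inv_cancel_left₀ hM0.ne', mul_inv_cancel_left₀ hM0.ne']
  obtain ⟨γ₀, hγ₀, hγ⟩ := gam_le hN hβ hmm hO hS hD hCG hGc hGb hδ1 hmu hUK
  obtain ⟨γ₀', hγ₀', hγ'⟩ := gam_le hN hβ hmm hO hS hD hCG hGc' hGb' hδ1 hmu hUK'
  obtain ⟨γ, hγd⟩ : ∃ γ : ℝ, γ = 2 / mu2 N L + 1 := ⟨_, rfl⟩
  have hev : ∀ᶠ j : ℕ in atTop, ∀ x ∈ Λ,
      β * wex N L k β (Nb j 0) (fun X => G (pt X x) * G (pt X x)) ≤ γ := by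
    rw [Filter.eventually_all_finset]
    intro x _
    exact (hγ x).eventually_le_const (by rw [hγd]; linarith)
  have hev' : ∀ᶠ j : ℕ in atTop, ∀ x ∈ Λ,
      β * wex N L k β (Nb j 0) (fun X => G' (pt X x) * G' (pt X x)) ≤ γ := by
    rw [Filter.eventually_all_finset]
    intro x _
    exact (hγ' x).eventually_le_const (by rw [hγd]; linarith)
  rw [← hγd]
  obtain ⟨Δ, hΔ⟩ : ∃ Δ : ℝ, Δ = 2 * δ + 2 * (b * ((L + γ / L) / 2)) + 2 * b := ⟨_, rfl⟩
  rw [← hΔ]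
  have hγ0 : 0 ≤ γ := by rw [hγd]; positivity
  -- finite volume
  have hfin : ∀ᶠ j : ℕ in atTop,
      |wex N L k β (Nb j 0) (fun X => Real.cos (fl β w G Λ X + fl β w' G' Λ X)) -
        Real.exp (-((∑ x ∈ Λ, sc N L ψ x * ψ x + ∑ x ∈ Λ, sc N L ψ' x * ψ' x) / 2))| ≤
        (M + M ^ 3) * Δ ∧
      |wex N L k β (Nb j 0) (fun X => Real.sin (fl β w G Λ X + fl β w' G' Λ X))| ≤
        (M + M ^ 3) * Δ := by
    filter_upwards [hev, hev', eventually_ge_atTop m₁, eventually_ge_atTop m₁'] with j j1 j2 j3 j4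
    have hward : ∀ h h' : ℝ → ℝ, Gd h h' → |wex N L k β (Nb j 0) (fun X => h (Y X) * Y X) -
        s2 * wex N L k β (Nb j 0) (fun X => h' (Y X))| ≤ Δ := by
      intro h h' hg
      obtain ⟨hc, hc', h1, h1', -⟩ := id hg
      have q1 := hQK (Nb j 0) (Nb_mono m₁ j j3 0) φ₁ w₁ w₂ (nrm hψ) (nrm hw) (nrm hw') (nsup hs)
        h h' hg
      have q2 := hQK' (Nb j 0) (Nb_mono m₁' j j4 0) φ₂ w₂ w₁ (nrm hψ') (nrm hw') (nrm hw) (nsup hs')
        h h' hg
      have eY : ∀ X : Cf N L, fl β w₂ G' Λ X + fl β w₁ G Λ X = Y X := fun X => by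
        rw [hY]; exact add_comm _ _
      have eY' : ∀ X : Cf N L, fl β w₁ G Λ X + fl β w₂ G' Λ X = Y X := fun X => by rw [hY]
      simp only [eY] at q2
      simp only [eY'] at q1
      have mh : Measurable fun X => h (Y X) := (hc.comp hYc).measurable
      have q3 := fl_mom (k := k) hβ.le (Nb j 0) Λ (fun x => w₁ x - sc N L φ₁ x) G hGc hGb
        (fun X => h (Y X)) mh (fun X => h1 _) hL0 j1
      have q4 := fl_mom (k := k) hβ.le (Nb j 0) Λ (fun x => w₂ x - sc N L φ₂ x) G' hGc' hGb'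
        (fun X => h (Y X)) mh (fun X => h1 _) hL0 j2
      have q5 := wex_abs k hβ.le (Nb j 0) (fun X => h' (Y X)) ((hc'.comp hYc).measurable)
        (fun X => h1' _)
      have p1 : ∀ (v : Pl → ℝ), Measurable (fun X => h (Y X) * fl β v G Λ X) ∧
          ∃ K, ∀ X, |h (Y X) * fl β v G Λ X| ≤ K := fun v =>
        ⟨mh.mul (cf v).measurable, Real.sqrt β * ∑ b ∈ Λ, |v b| * CG, fun X => by
          rw [abs_mul]
          calc |h (Y X)| * |fl β v G Λ X| ≤ 1 * (Real.sqrt β * ∑ b ∈ Λ, |v b| * CG) :=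
                mul_le_mul (h1 _) (fl_abs v G hGb Λ X) (abs_nonneg _) zero_le_one
            _ = _ := one_mul _⟩
      have p2 : ∀ (v : Pl → ℝ), Measurable (fun X => h (Y X) * fl β v G' Λ X) ∧
          ∃ K, ∀ X, |h (Y X) * fl β v G' Λ X| ≤ K := fun v =>
        ⟨mh.mul (cf' v).measurable, Real.sqrt β * ∑ b ∈ Λ, |v b| * CG, fun X => by
          rw [abs_mul]
          calc |h (Y X)| * |fl β v G' Λ X| ≤ 1 * (Real.sqrt β * ∑ b ∈ Λ, |v b| * CG) :=
                mul_le_mul (h1 _) (fl_abs v G' hGb' Λ X) (abs_nonneg _) zero_le_one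
            _ = _ := one_mul _⟩
      have dec : wex N L k β (Nb j 0) (fun X => h (Y X) * Y X) =
          wex N L k β (Nb j 0) (fun X => h (Y X) * fl β (sc N L φ₁) G Λ X) +
          wex N L k β (Nb j 0) (fun X => h (Y X) * fl β (fun x => w₁ x - sc N L φ₁ x) G Λ X) +
          (wex N L k β (Nb j 0) (fun X => h (Y X) * fl β (sc N L φ₂) G' Λ X) +
          wex N L k β (Nb j 0) (fun X => h (Y X) * fl β (fun x => w₂ x - sc N L φ₂ x) G' Λ X)) := by
        obtain ⟨a1, a2⟩ := p1 (sc N L φ₁)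
        obtain ⟨b1, b2⟩ := p1 (fun x => w₁ x - sc N L φ₁ x)
        obtain ⟨c1, c2⟩ := p2 (sc N L φ₂)
        obtain ⟨d1, d2⟩ := p2 (fun x => w₂ x - sc N L φ₂ x)
        obtain ⟨x1, x2⟩ := p1 w₁
        obtain ⟨y1, y2⟩ := p2 w₂
        rw [← wex_add k hβ.le _ _ _ a1 a2 b1 b2, ← wex_add k hβ.le _ _ _ c1 c2 d1 d2]
        have e1 : (fun X => h (Y X) * fl β (sc N L φ₁) G Λ X +
            h (Y X) * fl β (fun x => w₁ x - sc N L φ₁ x) G Λ X) =
            fun X => h (Y X) * fl β w₁ G Λ X := by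
          funext X
          rw [fl_split β w₁ (sc N L φ₁) G Λ X]
          ring
        have e2 : (fun X => h (Y X) * fl β (sc N L φ₂) G' Λ X +
            h (Y X) * fl β (fun x => w₂ x - sc N L φ₂ x) G' Λ X) =
            fun X => h (Y X) * fl β w₂ G' Λ X := by
          funext X
          rw [fl_split β w₂ (sc N L φ₂) G' Λ X]
          ring
        rw [e1, e2, ← wex_add k hβ.le _ _ _ x1 x2 y1 y2]
        congr 1
        funext X
        rw [← mul_add, eY']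
      have z1 := hcoef (w := w₁) (nrm hψ) hv₁
      have z2 := hcoef (w := w₂) (nrm hψ') hv₂
      have hLγ : 0 ≤ (L + γ / L) / 2 := by positivity
      have z3 : (∑ x ∈ Λ, |w₁ x - sc N L φ₁ x|) * ((L + γ / L) / 2) ≤ b * ((L + γ / L) / 2) :=
        mul_le_mul_of_nonneg_right hv₁ hLγ
      have z4 : (∑ x ∈ Λ, |w₂ x - sc N L φ₂ x|) * ((L + γ / L) / 2) ≤ b * ((L + γ / L) / 2) :=
        mul_le_mul_of_nonneg_right hv₂ hLγ
      obtain ⟨A1, hA1⟩ : ∃ A1, A1 = ∑ x ∈ Λ, w₁ x * φ₁ x := ⟨_, rfl⟩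
      obtain ⟨A2, hA2⟩ : ∃ A2, A2 = ∑ x ∈ Λ, w₂ x * φ₂ x := ⟨_, rfl⟩
      obtain ⟨S1, hS1⟩ : ∃ S1, S1 = ∑ x ∈ Λ, sc N L φ₁ x * φ₁ x := ⟨_, rfl⟩
      obtain ⟨S2, hS2⟩ : ∃ S2, S2 = ∑ x ∈ Λ, sc N L φ₂ x * φ₂ x := ⟨_, rfl⟩
      obtain ⟨W, hW⟩ : ∃ W, W = wex N L k β (Nb j 0) (fun X => h' (Y X)) := ⟨_, rfl⟩
      rw [dec, hs2, ← hS1, ← hS2, ← hW]
      rw [← hA1, ← hS1] at z1
      rw [← hA2, ← hS2] at z2
      rw [← hA1, ← hW] at q1
      rw [← hA2, ← hW] at q2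
      rw [← hW] at q5
      have z5 : |(A1 - S1) * W| ≤ b := by
        rw [abs_mul]
        calc |A1 - S1| * |W| ≤ b * 1 := mul_le_mul z1 q5 (abs_nonneg _) hb0
          _ = b := mul_one b
      have z6 : |(A2 - S2) * W| ≤ b := by
        rw [abs_mul]
        calc |A2 - S2| * |W| ≤ b * 1 := mul_le_mul z2 q5 (abs_nonneg _) hb0
          _ = b := mul_one b
      have y1 := abs_le.1 q1
      have y2 := abs_le.1 q2
      have y3 := abs_le.1 (q3.trans z3)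
      have y4 := abs_le.1 (q4.trans z4)
      have y5 := abs_le.1 z5
      have y6 := abs_le.1 z6
      rw [hΔ, abs_le]
      constructor <;> linarith [y1.1, y1.2, y2.1, y2.2, y3.1, y3.2, y4.1, y4.2, y5.1, y5.2,
        y6.1, y6.2]
    have h := hVO N k L β hβ.le (Nb j 0) Y KY s2 Δ hYc.measurable hKY hs20 hward M hM0.le
    simp only [hMY] at h
    rw [hs2M] at h
    exact h
  have hT3 : ∀ (g : ℝ → ℝ), Continuous g → (∀ a, |g a| ≤ 1) →
      Tendsto (fun j : ℕ => wex N L k β (Nb j 0) (fun X => g (fl β w G Λ X + fl β w' G' Λ X))) atTop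
        (𝓝 (Phi N L k β (fun X => g (fl β w G Λ X + fl β w' G' Λ X)))) := fun g hg hg1 =>
    tends hN hβ.le hmm hO hD (n + 1) 0 _ (loc_fl2 β w w' G G' hGc hGc' Λ g hg hg1)
  constructor
  · exact le_of_tendsto ((hT3 Real.cos Real.continuous_cos Real.abs_cos_le_one).sub_const _).abs
      (hfin.mono fun j hj => hj.1)
  · exact le_of_tendsto (hT3 Real.sin Real.continuous_sin Real.abs_sin_le_one).abs
      (hfin.mono fun j hj => hj.2)

end T2H02.TT
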