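import Pool.Agent.T2H02.TT.Fin2
import Pool.Agent.T2H02.TT.F

/-!
# Assembly, second part: free expectations are close to kernels
-/

set_option autoImplicit false
set_option linter.unusedSectionVars false

noncomputable section

open MeasureTheory Matrix Filter Topology
open scoped Matrix.Norms.Frobenius

namespace T2H02.TT

section abstractpart

variable {ι Tm X : Type} [DecidableEq ι] [DecidableEq Tm] [MeasurableSpace X]
  (S : Sys ι Tm X) (μ : Measure X) [IsProbabilityMeasure μ]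

lemma pr_bd (T : Finset Tm) (ω : ι → X) : 0 < ∏ τ ∈ T, S.w τ ω ∧ ∏ τ ∈ T, S.w τ ω ≤ 1 :=
  ⟨Finset.prod_pos fun τ _ => S.w_pos τ ω,
    Finset.prod_le_one (fun τ _ => (S.w_pos τ ω).le) fun τ _ => S.w_le τ ω⟩

lemma pr_meas (T : Finset Tm) : Measurable (fun ω : ι → X => ∏ τ ∈ T, S.w τ ω) :=
  Finset.measurable_prod _ fun τ _ => S.w_meas τ

lemma pr_int (T : Finset Tm) :
    Integrable (fun ω : ι → X => ∏ τ ∈ T, S.w τ ω) (Measure.infinitePi fun _ : ι => μ) :=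
  PkgF.integrable_bdd (pr_meas S T) ⟨1, fun ω => by
    rw [abs_of_pos (pr_bd S T ω).1]; exact (pr_bd S T ω).2⟩

lemma f_int (T : Finset Tm) (F : (ι → X) → ℝ) (hF : Measurable F) (hb : ∃ K, ∀ ω, |F ω| ≤ K) :
    Integrable (fun ω : ι → X => F ω * ∏ τ ∈ T, S.w τ ω) (Measure.infinitePi fun _ : ι => μ) := by
  obtain ⟨K, hK⟩ := hb
  refine PkgF.integrable_bdd (hF.mul (pr_meas S T)) ⟨K, fun ω => ?_⟩
  rw [abs_mul, abs_of_pos (pr_bd S T ω).1]
  have h2 := (pr_bd S T ω).2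
  have h3 := (pr_bd S T ω).1
  have h4 := abs_nonneg (F ω)
  have h5 := hK ω
  nlinarith

lemma Z_pos (T : Finset Tm) :
    0 < ∫ ω, ∏ τ ∈ T, S.w τ ω ∂(Measure.infinitePi fun _ : ι => μ) := by
  rw [integral_pos_iff_support_of_nonneg]
  · have : Function.support (fun ω : ι → X => ∏ τ ∈ T, S.w τ ω) = Set.univ := by
      ext ξ
      simp only [Function.mem_support, Set.mem_univ, iff_true]
      exact (pr_bd S T ξ).1.ne'
    rw [this, measure_univ]
    exact one_pos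
  · intro ξ
    exact (pr_bd S T ξ).1.le
  · exact pr_int S μ T

lemma ex_near (T : Finset Tm) (F : (ι → X) → ℝ) (hF : Measurable F) (c ε : ℝ)
    (h : ∀ ω, |F ω - c| ≤ ε) : |S.ex μ T F - c| ≤ ε := by
  have hZ := Z_pos S μ T
  have hb : ∃ K, ∀ ω, |F ω| ≤ K := ⟨ε + |c|, fun ω => by
    have := h ω
    have h2 := abs_add_le (F ω - c) c
    rw [sub_add_cancel] at h2
    linarith⟩
  have h1 : S.ex μ T F - c = (∫ ω, (F ω - c) * ∏ τ ∈ T, S.w τ ω ∂(Measure.infinitePi fun _ : ι => μ)) /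
      ∫ ω, ∏ τ ∈ T, S.w τ ω ∂(Measure.infinitePi fun _ : ι => μ) := by
    unfold Sys.ex
    rw [eq_div_iff hZ.ne', sub_mul, div_mul_cancel₀ _ hZ.ne']
    simp only [sub_mul]
    rw [integral_sub (f_int S μ T F hF hb) ((pr_int S μ T).const_mul c), integral_const_mul]
  rw [h1, abs_div, abs_of_pos hZ, div_le_iff₀ hZ]
  calc |∫ ω, (F ω - c) * ∏ τ ∈ T, S.w τ ω ∂(Measure.infinitePi fun _ : ι => μ)|
      ≤ ∫ ω, |(F ω - c) * ∏ τ ∈ T, S.w τ ω| ∂(Measure.infinitePi fun _ : ι => μ) :=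
        abs_integral_le_integral_abs
    _ ≤ ∫ ω, ε * ∏ τ ∈ T, S.w τ ω ∂(Measure.infinitePi fun _ : ι => μ) := by
        refine integral_mono (f_int S μ T (fun ω => F ω - c) (hF.sub_const c) ⟨ε, h⟩).abs
          ((pr_int S μ T).const_mul ε) fun ω => ?_
        show |(F ω - c) * ∏ τ ∈ T, S.w τ ω| ≤ ε * ∏ τ ∈ T, S.w τ ω
        rw [abs_mul, abs_of_pos (pr_bd S T ω).1]
        exact mul_le_mul_of_nonneg_right (h ω) (pr_bd S T ω).1.le
    _ = _ := integral_const_mul _ _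

/-- covariance with a nearly constant function -/
lemma ex_cov (T : Finset Tm) (F G : (ι → X) → ℝ) (hF : Measurable F) (hG : Measurable G) (c ε K : ℝ)
    (h : ∀ ω, |F ω - c| ≤ ε) (hK : ∀ ω, |G ω| ≤ K) :
    |S.ex μ T (fun ω => G ω * F ω) - S.ex μ T G * c| ≤ K * ε := by
  have hZ := Z_pos S μ T
  have hb : ∃ K, ∀ ω, |F ω| ≤ K := ⟨ε + |c|, fun ω => by
    have := h ω
    have h2 := abs_add_le (F ω - c) c
    rw [sub_add_cancel] at h2
    linarith⟩
  obtain ⟨K', hK'⟩ := hb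
  have hK0 : 0 ≤ K ∨ IsEmpty (ι → X) := by
    by_cases he : Nonempty (ι → X)
    · obtain ⟨ω⟩ := he
      exact Or.inl ((abs_nonneg _).trans (hK ω))
    · exact Or.inr (not_nonempty_iff.1 he)
  have hGF : Integrable (fun ω : ι → X => (G ω * F ω) * ∏ τ ∈ T, S.w τ ω)
      (Measure.infinitePi fun _ : ι => μ) :=
    f_int S μ T (fun ω => G ω * F ω) (hG.mul hF) ⟨K * K', fun ω => by
      rw [abs_mul]
      exact mul_le_mul (hK ω) (hK' ω) (abs_nonneg _) ((abs_nonneg _).trans (hK ω))⟩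
  have hGi := f_int S μ T G hG ⟨K, hK⟩
  have h1 : S.ex μ T (fun ω => G ω * F ω) - S.ex μ T G * c =
      (∫ ω, (G ω * (F ω - c)) * ∏ τ ∈ T, S.w τ ω ∂(Measure.infinitePi fun _ : ι => μ)) /
      ∫ ω, ∏ τ ∈ T, S.w τ ω ∂(Measure.infinitePi fun _ : ι => μ) := by
    unfold Sys.ex
    rw [eq_div_iff hZ.ne', sub_mul, div_mul_cancel₀ _ hZ.ne', mul_right_comm,
      div_mul_cancel₀ _ hZ.ne', ← integral_mul_const, ← integral_sub hGF (hGi.mul_const c)]
    refine integral_congr_ae (Eventually.of_forall fun ω => ?_)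
    show G ω * F ω * _ - G ω * _ * c = G ω * (F ω - c) * _
    ring
  rw [h1, abs_div, abs_of_pos hZ, div_le_iff₀ hZ]
  have hGc : ∀ ω, |G ω * (F ω - c)| ≤ K * ε := fun ω => by
    rw [abs_mul]
    exact mul_le_mul (hK ω) (h ω) (abs_nonneg _) ((abs_nonneg _).trans (hK ω))
  calc |∫ ω, (G ω * (F ω - c)) * ∏ τ ∈ T, S.w τ ω ∂(Measure.infinitePi fun _ : ι => μ)|
      ≤ ∫ ω, |(G ω * (F ω - c)) * ∏ τ ∈ T, S.w τ ω| ∂(Measure.infinitePi fun _ : ι => μ) :=
        abs_integral_le_integral_abs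
    _ ≤ ∫ ω, (K * ε) * ∏ τ ∈ T, S.w τ ω ∂(Measure.infinitePi fun _ : ι => μ) := by
        refine integral_mono (f_int S μ T (fun ω => G ω * (F ω - c)) (hG.mul (hF.sub_const c))
          ⟨K * ε, hGc⟩).abs ((pr_int S μ T).const_mul _) fun ω => ?_
        show |(G ω * (F ω - c)) * ∏ τ ∈ T, S.w τ ω| ≤ (K * ε) * ∏ τ ∈ T, S.w τ ω
        rw [abs_mul, abs_of_pos (pr_bd S T ω).1]
        exact mul_le_mul_of_nonneg_right (hGc ω) (pr_bd S T ω).1.le
    _ = _ := integral_const_mul _ _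

end abstractpart

end T2H02.TT
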