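import Pool.Agent.T2H02.TT.Fin29
import Pool.Agent.T2H02.TT.Fin27

/-!
# Scaling limit of the complex field of Polyakov loops
-/

set_option autoImplicit false
set_option linter.unusedSectionVars false

noncomputable section

open MeasureTheory Matrix Filter Topology
open scoped Matrix.Norms.Frobenius

namespace T2H02.TT

lemma err1 {M β ε : ℝ} (hM : 0 < M) (hε : 0 < ε) (b5 : ((M + M ^ 3) * 8 / ε) ^ 5 ≤ β) :
    (M + M ^ 3) * (2 * β ^ (-(1 / 5) : ℝ)) ≤ ε / 4 := by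
  obtain ⟨X, hX⟩ : ∃ X : ℝ, X = (M + M ^ 3) * 8 / ε := ⟨_, rfl⟩
  have hX0 : 0 < X := by rw [hX]; positivity
  rw [← hX] at b5
  have h2 : β ^ (-(1 / 5) : ℝ) ≤ (X ^ 5) ^ (-(1 / 5) : ℝ) :=
    Real.rpow_le_rpow_of_nonpos (by positivity) b5 (by norm_num)
  have h3 : (X ^ 5) ^ (-(1 / 5) : ℝ) = X⁻¹ := by
    rw [← Real.rpow_natCast, ← Real.rpow_mul hX0.le, ← Real.rpow_neg_one]
    congr 1
    norm_num
  rw [h3] at h2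
  have hCC : 0 < M + M ^ 3 := by positivity
  calc (M + M ^ 3) * (2 * β ^ (-(1 / 5) : ℝ)) ≤ (M + M ^ 3) * (2 * X⁻¹) :=
        mul_le_mul_of_nonneg_left (by linarith) hCC.le
    _ = ε / 4 := by rw [hX]; field_simp; norm_num

lemma err2 {N : ℕ} {M ε l μ : ℝ} (hMp : 0 < M) (hL1 : 1 ≤ l)
    (hinv : 1 / μ ≤ (N : ℝ) ^ 2 / 16 * l ^ 2) (hε : 0 < ε)
    (hLV : (M + M ^ 3) * (M * (4 + (N : ℝ) ^ 2 / 8)) * 4 / ε ≤ l) :
    (M + M ^ 3) * (2 * (M / l ^ 2 * ((l + (2 / μ + 1) / l) / 2)) + 2 * (M / l ^ 2)) ≤ ε / 4 := by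
  have hL0 : 0 < l := by linarith
  have h1 : 2 / μ ≤ (N : ℝ) ^ 2 / 8 * l ^ 2 := by
    calc 2 / μ = 2 * (1 / μ) := by ring
      _ ≤ 2 * ((N : ℝ) ^ 2 / 16 * l ^ 2) := by linarith
      _ = _ := by ring
  have h2 : (2 / μ + 1) / l ≤ (N : ℝ) ^ 2 / 8 * l + l := by
    rw [div_le_iff₀ hL0]
    have : (1 : ℝ) ≤ l * l := by nlinarith
    calc 2 / μ + 1 ≤ (N : ℝ) ^ 2 / 8 * l ^ 2 + l * l := by linarith
      _ = _ := by ring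
  have h3 : M / l ^ 2 * ((l + (2 / μ + 1) / l) / 2) ≤
      M / l ^ 2 * ((l + ((N : ℝ) ^ 2 / 8 * l + l)) / 2) :=
    mul_le_mul_of_nonneg_left (by linarith) (by positivity)
  have h4 : M / l ^ 2 * ((l + ((N : ℝ) ^ 2 / 8 * l + l)) / 2) =
      M * (2 + (N : ℝ) ^ 2 / 8) / 2 / l := by
    field_simp
    ring
  have h5 : M / l ^ 2 ≤ M / l :=
    div_le_div_of_nonneg_left hMp.le hL0 (le_self_pow₀ hL1 (by norm_num))
  rw [h4] at h3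
  have h6 : 2 * (M / l ^ 2 * ((l + (2 / μ + 1) / l) / 2)) + 2 * (M / l ^ 2) ≤
      M * (4 + (N : ℝ) ^ 2 / 8) / l := by
    have h7 : M * (4 + (N : ℝ) ^ 2 / 8) / l = 2 * (M * (2 + (N : ℝ) ^ 2 / 8) / 2 / l) +
        2 * (M / l) := by ring
    rw [h7]
    linarith
  have hCC : 0 < M + M ^ 3 := by positivity
  refine (mul_le_mul_of_nonneg_left h6 hCC.le).trans ?_
  have h8 : (M + M ^ 3) * (M * (4 + (N : ℝ) ^ 2 / 8)) * 4 ≤ l * ε := by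
    rwa [div_le_iff₀ hε] at hLV
  calc (M + M ^ 3) * (M * (4 + (N : ℝ) ^ 2 / 8) / l) =
        ((M + M ^ 3) * (M * (4 + (N : ℝ) ^ 2 / 8)) * 4) / (4 * l) := by field_simp
    _ ≤ (l * ε) / (4 * l) := div_le_div_of_nonneg_right h8 (by positivity)
    _ = ε / 4 := by field_simp

lemma err3 {s s' t t' I η b : ℝ} (h1 : |t + t' - I| < η / 2) (h4 : |s - t| ≤ b)
    (h5 : |s' - t'| ≤ b) (h2 : b ≤ η / 8) (hη : 0 < η) : |s + s' - I| < η := by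
  have a1 := abs_lt.1 h1
  have a2 := abs_le.1 h4
  have a3 := abs_le.1 h5
  rw [abs_lt]
  constructor <;> linarith [a1.1, a1.2, a2.1, a2.2, a3.1, a3.2]

/-- the scaling limit for two fields and general test functions -/
theorem scal2 (hUM : S_UMy) (hUK : S_UK) (hQK : S_QK) (hQN : S_QN) (hQM : S_QM) (hQT : S_QT)
    (hVO : S_VO) (hVR : S_VR) (hVS : S_VS) (hA1 : S_A1) (hP : S_P1u) (hO : S_O) (hS : S_SY)
    (N k a : ℕ) (hN : 2 ≤ N) (hk : Nat.Coprime k N) (ha : a < N) (hka : (k * a) % N = 1) :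
    ∃ K₀ : ℕ, ∀ Ψ Ψ' : ℝ × ℝ → ℝ, Bd4 Ψ → Bd4 Ψ' → HasCompactSupport (srcc N Ψ) →
      HasCompactSupport (srcc N Ψ') → ∀ ε : ℝ, 0 < ε →
      ∃ C₀ : ℝ, 0 < C₀ ∧ ∀ (L : ℕ) [NeZero L] (β : ℝ), C₀ ≤ L → C₀ * (L : ℝ) ^ K₀ ≤ β →
        |Phi N L k β (fun X => Real.cos (sfl β (Gpol N L a 1) (srcc N Ψ) X +
            sfl β (Gpol N L a (-Complex.I)) (srcc N Ψ') X)) -
          Real.exp (-(((∫ p, srcc N Ψ p * Ψ p) + ∫ p, srcc N Ψ' p * Ψ' p) / 2))| ≤ ε ∧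
        |Phi N L k β (fun X => Real.sin (sfl β (Gpol N L a 1) (srcc N Ψ) X +
            sfl β (Gpol N L a (-Complex.I)) (srcc N Ψ') X))| ≤ ε := by
  obtain ⟨P, Q, hPQ⟩ := hA1 N k hN hk
  obtain ⟨C₁, K₁, hC₁, hM⟩ := hUM N k hN hk P Q hPQ a ha hka
  obtain ⟨C₂, K₂, hC₂, hK⟩ := hUK N k hN hk P Q hPQ C₁ K₁
  obtain ⟨C₃, K₃, hC₃, hV⟩ := hQK N k hN hk P Q hPQ C₁ K₁
  obtain ⟨c, C₄, K₄, hc, hC₄, hD⟩ := hP N k hN hk
  refine ⟨5 * K₂ + 5 * K₃ + K₄, fun Ψ Ψ' hΨ hΨ' hΨs hΨs' ε hε => ?_⟩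
  obtain ⟨hsc, ⟨r₁, hr₁⟩, C, hC, hΨC, hsrC, hT⟩ := hQT N hN Ψ hΨ hΨs
  obtain ⟨hsc', ⟨r₂, hr₂⟩, C', hC', hΨC', hsrC', hT'⟩ := hQT N hN Ψ' hΨ' hΨs'
  obtain ⟨r, hrd⟩ : ∃ r : ℕ, r = r₁ + r₂ := ⟨_, rfl⟩
  have hr₁r : (r₁ : ℝ) ≤ r := by rw [hrd]; push_cast; linarith [(Nat.cast_nonneg r₂ : (0 : ℝ) ≤ r₂)]
  have hr₂r : (r₂ : ℝ) ≤ r := by rw [hrd]; push_cast; linarith [(Nat.cast_nonneg r₁ : (0 : ℝ) ≤ r₁)]
  have hr : ∀ p : ℝ × ℝ, (r : ℝ) ≤ |p.1| ∨ (r : ℝ) ≤ |p.2| → srcc N Ψ p = 0 := fun p hp =>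
    hr₁ p (hp.imp (fun h => hr₁r.trans h) fun h => hr₁r.trans h)
  have hr' : ∀ p : ℝ × ℝ, (r : ℝ) ≤ |p.1| ∨ (r : ℝ) ≤ |p.2| → srcc N Ψ' p = 0 := fun p hp =>
    hr₂ p (hp.imp (fun h => hr₂r.trans h) fun h => hr₂r.trans h)
  obtain ⟨M₁, hM₁, hone⟩ := one_fun hQN hQM hN hr hC hΨC hsrC hT
  obtain ⟨M₂, hM₂, hone'⟩ := one_fun hQN hQM hN hr' hC' hΨC' hsrC' hT'
  obtain ⟨M, hMd⟩ : ∃ M : ℝ, M = M₁ + M₂ := ⟨_, rfl⟩
  have hM1 : M₁ ≤ M := by rw [hMd]; linarith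
  have hM2 : M₂ ≤ M := by rw [hMd]; linarith
  have hM0 : 1 ≤ M := hM₁.trans hM1
  have hMp : 0 < M := by linarith
  have hN' : (2 : ℝ) ≤ N := by exact_mod_cast hN
  -- in `L`
  obtain ⟨I, hI⟩ : ∃ I : ℝ, I = (∫ p, srcc N Ψ p * Ψ p) + ∫ p, srcc N Ψ' p * Ψ' p := ⟨_, rfl⟩
  have l1 : Tendsto (fun L : ℕ => ∑ x ∈ Nb (r * L) 0,
      rs L (fun p => srcc N Ψ p * Ψ p) x / (L : ℝ) ^ 2 +
      ∑ x ∈ Nb (r * L) 0, rs L (fun p => srcc N Ψ' p * Ψ' p) x / (L : ℝ) ^ 2) atTop (𝓝 I) := by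
    rw [hI]
    exact (hVR (fun p => srcc N Ψ p * Ψ p) r (hsc.mul hΨ.1.continuous) (fun p hp => by
      show srcc N Ψ p * Ψ p = 0
      rw [hr p hp, zero_mul])).add (hVR (fun p => srcc N Ψ' p * Ψ' p) r
      (hsc'.mul hΨ'.1.continuous) (fun p hp => by
      show srcc N Ψ' p * Ψ' p = 0
      rw [hr' p hp, zero_mul]))
  have l2 : Continuous fun x : ℝ => Real.exp (-(x / 2)) := by fun_prop
  obtain ⟨η, hη, hηc⟩ := Metric.continuous_iff.1 l2 I (ε / 4) (by linarith)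
  obtain ⟨L₁, hL₁⟩ := Metric.tendsto_atTop.1 l1 (η / 2) (by linarith)
  obtain ⟨X, hX⟩ : ∃ X : ℝ, X = (M + M ^ 3) * 8 / ε := ⟨_, rfl⟩
  have hX0 : 0 < X := by rw [hX]; positivity
  obtain ⟨V, hV'⟩ : ∃ V : ℝ, V = (M + M ^ 3) * (M * (4 + (N : ℝ) ^ 2 / 8)) * 4 / ε := ⟨_, rfl⟩
  have hV0 : 0 ≤ V := by rw [hV']; positivity
  obtain ⟨B, hB⟩ : ∃ B : ℝ, B = (r : ℝ) + 2 := ⟨_, rfl⟩
  have hB0 : 0 < B := by rw [hB]; positivity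
  have hU0 : 0 ≤ 8 * M / η := by positivity
  refine ⟨C₂ * B ^ K₂ + C₃ * B ^ K₃ + C₄ + X ^ 5 + L₁ + V + 8 * M / η + 2, by positivity,
    fun L inst β hL hβ => ?_⟩
  have q2 : 0 ≤ C₂ * B ^ K₂ := by positivity
  have q3 : 0 ≤ C₃ * B ^ K₃ := by positivity
  have q4 : 0 ≤ C₄ := by linarith
  have q5 : 0 ≤ X ^ 5 := by positivity
  have q6 : (0 : ℝ) ≤ L₁ := by positivity
  have hL2 : (2 : ℝ) ≤ L := by linarith
  have hLL1 : L₁ ≤ L := by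
    have : (L₁ : ℝ) ≤ L := by linarith
    exact_mod_cast this
  have hLV : V ≤ L := by linarith
  have hLM : 8 * M / η ≤ L := by linarith
  have hL2n : 2 ≤ L := by exact_mod_cast hL2
  have hL1n : 1 ≤ L := by omega
  have hL1 : (1 : ℝ) ≤ L := by linarith
  have hL0 : (0 : ℝ) < L := by linarith
  obtain ⟨A, hA⟩ : ∃ A : ℝ, A = (L : ℝ) ^ (5 * K₂ + 5 * K₃ + K₄) := ⟨_, rfl⟩
  have hA1' : 1 ≤ A := by rw [hA]; exact one_le_pow₀ hL1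
  have p2 : (L : ℝ) ^ (5 * K₂) ≤ A := by rw [hA]; exact pow_le_pow_right₀ hL1 (by omega)
  have p3 : (L : ℝ) ^ (5 * K₃) ≤ A := by rw [hA]; exact pow_le_pow_right₀ hL1 (by omega)
  have p4 : (L : ℝ) ^ K₄ ≤ A := by rw [hA]; exact pow_le_pow_right₀ hL1 (by omega)
  rw [← hA] at hβ
  have hexp : (C₂ * B ^ K₂ + C₃ * B ^ K₃ + C₄ + X ^ 5 + L₁ + V + 8 * M / η + 2) * A =
      C₂ * B ^ K₂ * A + C₃ * B ^ K₃ * A + C₄ * A + X ^ 5 * A + L₁ * A + V * A + 8 * M / η * A +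
        2 * A := by ring
  rw [hexp] at hβ
  have hA0 : 0 ≤ A := by linarith
  have z2 := mul_nonneg q2 hA0
  have z3 := mul_nonneg q3 hA0
  have z4 := mul_nonneg q4 hA0
  have z5 := mul_nonneg q5 hA0
  have z6 := mul_nonneg q6 hA0
  have z7 := mul_nonneg hV0 hA0
  have z8 := mul_nonneg hU0 hA0
  have b2 : C₂ * B ^ K₂ * (L : ℝ) ^ (5 * K₂) ≤ β := by
    have := mul_le_mul_of_nonneg_left p2 q2
    linarith
  have b3 : C₃ * B ^ K₃ * (L : ℝ) ^ (5 * K₃) ≤ β := by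
    have := mul_le_mul_of_nonneg_left p3 q3
    linarith
  have b4 : C₄ * (L : ℝ) ^ K₄ ≤ β := by
    have := mul_le_mul_of_nonneg_left p4 q4
    linarith
  have b5 : X ^ 5 ≤ β := by
    have := le_mul_of_one_le_right q5 hA1'
    linarith
  have b1 : 1 ≤ β := by linarith
  have hβ0 : 0 < β := by linarith
  obtain ⟨κ, hκ, hDec⟩ := hD L β hβ0.le b4
  obtain ⟨E, E', hMod, hMod', horth⟩ := hM L hL2n
  obtain ⟨-, -, -, -, hGc, -, hGb, -, -⟩ := id hMod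
  obtain ⟨-, -, -, -, hGc', -, hGb', -, -⟩ := id hMod'
  obtain ⟨n, hn⟩ : ∃ n : ℕ, n = r * L + L ^ 4 := ⟨_, rfl⟩
  have hln : (L : ℝ) * ((n : ℝ) + 1) ≤ B * (L : ℝ) ^ 5 := by
    rw [hn]
    push_cast
    rw [hB]
    have h1 : (L : ℝ) ≤ (L : ℝ) ^ 4 := le_self_pow₀ hL1 (by norm_num)
    have h2 : (1 : ℝ) ≤ (L : ℝ) ^ 4 := one_le_pow₀ hL1
    have h3 : (r : ℝ) * L ≤ r * (L : ℝ) ^ 4 := mul_le_mul_of_nonneg_left h1 (Nat.cast_nonneg r)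
    have h4 : (r : ℝ) * L + (L : ℝ) ^ 4 + 1 ≤ (r + 2) * (L : ℝ) ^ 4 := by
      have : ((r : ℝ) + 2) * (L : ℝ) ^ 4 = r * (L : ℝ) ^ 4 + (L : ℝ) ^ 4 + (L : ℝ) ^ 4 := by ring
      linarith
    calc (L : ℝ) * ((r : ℝ) * L + (L : ℝ) ^ 4 + 1) ≤ L * ((r + 2) * (L : ℝ) ^ 4) :=
          mul_le_mul_of_nonneg_left h4 hL0.le
      _ = _ := by ring
  have hpw : ∀ (C' : ℝ) (K' : ℕ), 0 ≤ C' → C' * ((L : ℝ) * ((n : ℝ) + 1)) ^ K' ≤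
      C' * B ^ K' * (L : ℝ) ^ (5 * K') := by
    intro C' K' hC'
    calc C' * ((L : ℝ) * ((n : ℝ) + 1)) ^ K' ≤ C' * (B * (L : ℝ) ^ 5) ^ K' :=
          mul_le_mul_of_nonneg_left (pow_le_pow_left₀ (by positivity) hln K') hC'
      _ = C' * B ^ K' * (L : ℝ) ^ (5 * K') := by rw [mul_pow, ← pow_mul, mul_assoc]
  have hK' := hK L β n ((hpw C₂ K₂ (by linarith)).trans b2)
  have hV'' := hV L β n ((hpw C₃ K₃ (by linarith)).trans b3)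
  obtain ⟨m₀, hm₀⟩ := hK' E (Gpol N L a 1) hMod
  obtain ⟨m₀', hm₀'⟩ := hK' E' (Gpol N L a (-Complex.I)) hMod'
  obtain ⟨m₁, hm₁⟩ := hV'' E (Gpol N L a 1) hMod E' (Gpol N L a (-Complex.I)) hMod' horth
  obtain ⟨m₁', hm₁'⟩ := hV'' E' (Gpol N L a (-Complex.I)) hMod' E (Gpol N L a 1) hMod (by
    rw [← horth]
    exact Finset.sum_congr rfl fun y _ => PkgC1u.ip_comm _ _)
  have hC₁L : 1 ≤ C₁ * (L : ℝ) ^ K₁ := by
    calc (1 : ℝ) = 1 * 1 := by ring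
      _ ≤ _ := mul_le_mul hC₁ (one_le_pow₀ hL1) zero_le_one (by linarith)
  have hδ1 : β ^ (-(1 / 5) : ℝ) ≤ 1 := Real.rpow_le_one_of_one_le_of_nonpos b1 (by norm_num)
  have hm0 : 0 < c / (L : ℝ) := by positivity
  obtain ⟨hμ, hμ2, hmu, hinv⟩ := up_inv hN hL1n rfl
  rw [hmu] at hinv
  have hmu0 : 0 < mu2 N L := by rw [← hmu]; positivity
  obtain ⟨ψ, s1, s2, s3, s4, s5⟩ := hone L hL1n
  obtain ⟨ψ', s1', s2', s3', s4', s5'⟩ := hone' L hL1n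
  rw [← hn] at s1 s4 s5 s1' s4' s5'
  have hLL : (0 : ℝ) < (L : ℝ) ^ 2 := by positivity
  have hres := scal2_one hN hβ0 hm0 hO hS hVO hVS hDec hC₁L hGc hGb hGc' hGb' hδ1 hmu0 hm₀ hm₀' hm₁
    hm₁' (b := M / (L : ℝ) ^ 2) hM0 (fun x => (s3 x).trans hM1) (fun x => (s3' x).trans hM2)
    (fun x => (s2 x).trans hM1) (fun x => (s2' x).trans hM2) s1 s1'
    (s4.trans (div_le_div_of_nonneg_right hM1 hLL.le))
    (s4'.trans (div_le_div_of_nonneg_right hM2 hLL.le))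
  -- the fields
  have hrn : r * L ≤ n + 1 := by rw [hn]; omega
  have hsf : ∀ X : Cf N L, sfl β (Gpol N L a 1) (srcc N Ψ) X =
      fl β (fun x => rs L (srcc N Ψ) x / (L : ℝ) ^ 2) (Gpol N L a 1) (Nb (n + 1) 0) X := fun X =>
    sfl_eq β _ hr hrn X
  have hsf' : ∀ X : Cf N L, sfl β (Gpol N L a (-Complex.I)) (srcc N Ψ') X =
      fl β (fun x => rs L (srcc N Ψ') x / (L : ℝ) ^ 2) (Gpol N L a (-Complex.I))
        (Nb (n + 1) 0) X := fun X => sfl_eq β _ hr' hrn X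
  simp only [hsf, hsf']
  -- the errors
  have e1 : (M + M ^ 3) * (2 * β ^ (-(1 / 5) : ℝ)) ≤ ε / 4 := err1 hMp hε (hX ▸ b5)
  have e2 : (M + M ^ 3) * (2 * (M / (L : ℝ) ^ 2 * ((L + (2 / mu2 N L + 1) / L) / 2)) +
      2 * (M / (L : ℝ) ^ 2)) ≤ ε / 4 := err2 hMp hL1 hinv hε (hV' ▸ hLV)
  have e12 : (M + M ^ 3) * (2 * β ^ (-(1 / 5) : ℝ) +
      2 * (M / (L : ℝ) ^ 2 * ((L + (2 / mu2 N L + 1) / L) / 2)) + 2 * (M / (L : ℝ) ^ 2)) ≤ ε / 2 := by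
    have : (M + M ^ 3) * (2 * β ^ (-(1 / 5) : ℝ) +
        2 * (M / (L : ℝ) ^ 2 * ((L + (2 / mu2 N L + 1) / L) / 2)) + 2 * (M / (L : ℝ) ^ 2)) =
        (M + M ^ 3) * (2 * β ^ (-(1 / 5) : ℝ)) +
        (M + M ^ 3) * (2 * (M / (L : ℝ) ^ 2 * ((L + (2 / mu2 N L + 1) / L) / 2)) +
      2 * (M / (L : ℝ) ^ 2)) := by ring
    rw [this]
    linarith
  have e3 : |Real.exp (-((∑ x ∈ Nb (n + 1) 0, sc N L ψ x * ψ x +
      ∑ x ∈ Nb (n + 1) 0, sc N L ψ' x * ψ' x) / 2)) - Real.exp (-(I / 2))| ≤ ε / 4 := by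
    have h1 := hL₁ L hLL1
    rw [Real.dist_eq] at h1
    have h2 : M / (L : ℝ) ^ 2 ≤ η / 8 := by
      have h3 : M / (L : ℝ) ^ 2 ≤ M / L :=
        div_le_div_of_nonneg_left hMp.le hL0 (le_self_pow₀ hL1 (by norm_num))
      refine h3.trans ?_
      rw [div_le_iff₀ hL0]
      rw [div_le_iff₀ hη] at hLM
      linarith
    have h4 := s5.trans (div_le_div_of_nonneg_right hM1 hLL.le)
    have h5 := s5'.trans (div_le_div_of_nonneg_right hM2 hLL.le)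
    have h6 := hηc (∑ x ∈ Nb (n + 1) 0, sc N L ψ x * ψ x +
      ∑ x ∈ Nb (n + 1) 0, sc N L ψ' x * ψ' x) (by
        rw [Real.dist_eq]
        exact err3 h1 h4 h5 h2 hη)
    rw [Real.dist_eq] at h6
    exact h6.le
  rw [← hI]
  obtain ⟨r1, r2⟩ := hres
  constructor
  · have a1 := abs_le.1 (r1.trans e12)
    have a2 := abs_le.1 e3
    rw [abs_le]
    constructor <;> linarith [a1.1, a1.2, a2.1, a2.2]
  · refine (r2.trans e12).trans ?_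
    linarith

end T2H02.TT
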