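import Pool.Agent.T2H02.TT.Fin4

/-!
# Assembly, fourth part: infinite volume limit, symmetries, clustering
-/

set_option autoImplicit false
set_option linter.unusedSectionVars false

noncomputable section

open MeasureTheory Matrix Filter Topology
open scoped Matrix.Norms.Frobenius

namespace T2H02.TT

variable {N L : ℕ} [NeZero L]

lemma wact_cont (k : ℕ) (R : Finset Pl) : Continuous fun X : Cf N L => wact k R X := by
  simp only [wact_eq]
  exact continuous_finsetSum _ fun τ _ => en1_cont k τ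

lemma wact_nonneg (k : ℕ) (R : Finset Pl) (X : Cf N L) : 0 ≤ wact k R X := by
  rw [wact_eq]
  exact Finset.sum_nonneg fun τ _ => en1_nonneg k X τ

lemma wex_abs (k : ℕ) {β : ℝ} (hβ : 0 ≤ β) (R : Finset Pl) (f : Cf N L → ℝ) (hf : Measurable f)
    (hb : ∀ X, |f X| ≤ 1) : |wex N L k β R f| ≤ 1 := by
  have hmea : Measurable fun X : Cf N L => Real.exp (-β * wact k R X) :=
    (continuous_const.mul (wact_cont k R)).rexp.measurable
  have h1 : ∀ X : Cf N L, 0 < Real.exp (-β * wact k R X) ∧ Real.exp (-β * wact k R X) ≤ 1 :=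
    fun X => ⟨Real.exp_pos _, Real.exp_le_one_iff.2 (by have := wact_nonneg k R X; nlinarith)⟩
  have hi : Integrable (fun X : Cf N L => Real.exp (-β * wact k R X))
      (Measure.infinitePi fun _ : Lk L => hm N) :=
    PkgF.integrable_bdd hmea ⟨1, fun X => by rw [abs_of_pos (h1 X).1]; exact (h1 X).2⟩
  have hZ : 0 < ∫ X : Cf N L, Real.exp (-β * wact k R X) ∂(Measure.infinitePi fun _ : Lk L => hm N) := by
    rw [integral_pos_iff_support_of_nonneg]
    · have : Function.support (fun X : Cf N L => Real.exp (-β * wact k R X)) = Set.univ := by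
        ext ξ
        simp only [Function.mem_support, Set.mem_univ, iff_true]
        exact (h1 ξ).1.ne'
      rw [this, measure_univ]
      exact one_pos
    · intro ξ
      exact (h1 ξ).1.le
    · exact hi
  unfold wex
  rw [abs_div, abs_of_pos hZ, div_le_one hZ]
  have hfe : ∀ X : Cf N L, |f X * Real.exp (-β * wact k R X)| ≤ Real.exp (-β * wact k R X) := by
    intro X
    rw [abs_mul, abs_of_pos (h1 X).1]
    calc |f X| * Real.exp (-β * wact k R X) ≤ 1 * Real.exp (-β * wact k R X) :=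
          mul_le_mul_of_nonneg_right (hb X) (h1 X).1.le
      _ = _ := one_mul _
  calc _ ≤ ∫ X : Cf N L, |f X * Real.exp (-β * wact k R X)| ∂(Measure.infinitePi fun _ : Lk L => hm N) :=
        abs_integral_le_integral_abs
    _ ≤ _ := integral_mono (PkgF.integrable_bdd (hf.mul hmea) ⟨1, fun X => (hfe X).trans (h1 X).2⟩).abs
        hi hfe

/-- the infinite volume expectation -/
def Phi (N L : ℕ) [NeZero L] (k : ℕ) (β : ℝ) (f : Cf N L → ℝ) : ℝ :=
  limUnder atTop fun j : ℕ => wex N L k β (Nb j 0) f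

lemma Nb_abs (r j : ℕ) (a : Pl) (h : r + (a.1.natAbs + a.2.natAbs) ≤ j) : Nb r a ⊆ Nb j 0 := by
  intro b hb
  rw [mem_Nb] at *
  have h1 : |b.1 - 0| ≤ |b.1 - a.1| + |a.1| := by
    have := abs_add_le (b.1 - a.1) a.1
    rw [sub_add_cancel] at this
    rw [sub_zero]
    exact this
  have h2 : |b.2 - 0| ≤ |b.2 - a.2| + |a.2| := by
    have := abs_add_le (b.2 - a.2) a.2
    rw [sub_add_cancel] at this
    rw [sub_zero]
    exact this
  have h3 : (r : ℤ) + (|a.1| + |a.2|) ≤ j := by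
    rw [Int.abs_eq_natAbs, Int.abs_eq_natAbs]
    exact_mod_cast h
  have h4 := abs_nonneg a.1
  have h5 := abs_nonneg a.2
  have h6 := hb.1
  have h7 := hb.2
  constructor
  · show |b.1 - 0| ≤ (j : ℤ)
    linarith
  · show |b.2 - 0| ≤ (j : ℤ)
    linarith

variable {k : ℕ} (hN : 2 ≤ N) {β : ℝ} (hβ : 0 ≤ β) {m κ : ℝ}

lemma err_tendsto (hmm : 0 < m) (r : ℕ) : Tendsto (fun n : ℕ => err N r β κ m n) atTop (𝓝 0) := by
  unfold err
  have h1 : Tendsto (fun n : ℕ => Real.exp (-m * n)) atTop (𝓝 0) := by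
    refine Real.tendsto_exp_atBot.comp ?_
    exact tendsto_natCast_atTop_atTop.const_mul_atTop_of_neg (by linarith)
  have h2 := (h1.const_mul (6 * (((2 * r + 1) ^ 2 : ℕ) : ℝ) * β ^ κ)).const_mul
    ((N : ℝ) ^ ((2 * r + 1) ^ 2))
  simpa using h2

lemma err_anti (hmm : 0 < m) (hβ : 0 ≤ β) (r n n' : ℕ) (h : n ≤ n') :
    err N r β κ m n' ≤ err N r β κ m n := by
  unfold err
  have h1 : Real.exp (-m * n') ≤ Real.exp (-m * n) := by
    apply Real.exp_le_exp.2
    have : (n : ℝ) ≤ n' := by exact_mod_cast h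
    nlinarith
  have h2 : 0 ≤ β ^ κ := Real.rpow_nonneg hβ κ
  gcongr

lemma tends (hmm : 0 < m) (hO : S_O) (hD : Dec N L k hN β hβ m κ) (r : ℕ) (a : Pl) (f : Cf N L → ℝ)
    (hf : Loc (Nb r a) f) :
    Tendsto (fun j : ℕ => wex N L k β (Nb j 0) f) atTop (𝓝 (Phi N L k β f)) := by
  have hc : CauchySeq (fun j : ℕ => wex N L k β (Nb j 0) f) := by
    rw [Metric.cauchySeq_iff']
    intro ε hε
    have h0 := (err_tendsto (N := N) (β := β) (κ := κ) hmm r).const_mul 2
    rw [mul_zero] at h0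
    obtain ⟨n, hn⟩ := (h0.eventually (gt_mem_nhds hε)).exists
    refine ⟨r + (n + 1) + (a.1.natAbs + a.2.natAbs), fun j hj => ?_⟩
    rw [Real.dist_eq]
    exact (key3 hN hβ hO hD r a f hf n _ _ (Nb_abs _ _ a hj) (Nb_abs _ _ a le_rfl)).trans_lt hn
  exact tendsto_nhds_limUnder (cauchySeq_tendsto_of_complete hc)

lemma phi_near (hmm : 0 < m) (hO : S_O) (hD : Dec N L k hN β hβ m κ) (r : ℕ) (a : Pl)
    (f : Cf N L → ℝ) (hf : Loc (Nb r a) f) (n : ℕ) (R : Finset Pl) (hR : Nb (r + (n + 1)) a ⊆ R) :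
    |wex N L k β R f - Phi N L k β f| ≤ 2 * err N r β κ m n := by
  have h1 := tends hN hβ hmm hO hD r a f hf
  have h2 : Tendsto (fun j : ℕ => |wex N L k β R f - wex N L k β (Nb j 0) f|) atTop
      (𝓝 |wex N L k β R f - Phi N L k β f|) := (tendsto_const_nhds.sub h1).abs
  refine le_of_tendsto h2 ?_
  rw [eventually_atTop]
  exact ⟨r + (n + 1) + (a.1.natAbs + a.2.natAbs), fun j hj =>
    key3 hN hβ hO hD r a f hf n _ _ hR (Nb_abs _ _ a hj)⟩

lemma phi_abs (hmm : 0 < m) (hO : S_O) (hD : Dec N L k hN β hβ m κ) (r : ℕ) (a : Pl)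
    (f : Cf N L → ℝ) (hf : Loc (Nb r a) f) : |Phi N L k β f| ≤ 1 :=
  le_of_tendsto (tends hN hβ hmm hO hD r a f hf).abs
    (Eventually.of_forall fun j => wex_abs k hβ _ f hf.1 hf.2.1)

/-- equality from errors tending to zero -/
lemma eq_of_err (hmm : 0 < m) (x y : ℝ) (r : ℕ) (c : ℝ)
    (h : ∀ n : ℕ, |x - y| ≤ c * err N r β κ m n) : x = y := by
  have h0 := (err_tendsto (N := N) (β := β) (κ := κ) hmm r).const_mul c
  rw [mul_zero] at h0
  have h1 : |x - y| ≤ 0 := ge_of_tendsto' h0 h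
  exact sub_eq_zero.1 (abs_eq_zero.1 (le_antisymm h1 (abs_nonneg _)))

lemma loc_shf (r : ℕ) (a v : Pl) (f : Cf N L → ℝ) (hf : Loc (Nb r a) f) :
    Loc (Nb r (a + v)) (fun X : Cf N L => f (shf v X)) := by
  refine ⟨hf.1.comp ?_, fun X => hf.2.1 _, fun X Y h => hf.2.2 _ _ fun l hl => h _ fun c hc => ?_⟩
  · exact measurable_pi_lambda _ fun l => measurable_pi_apply _
  · have h1 := hl (c - v) (by
      rw [mem_st] at hc ⊢
      rcases hc with h | h
      · left; rw [h]; simp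
      · right; rw [h]; show l.1.1 + v + pe l.2 - v = l.1.1 + pe l.2; abel)
    rw [mem_Nb] at *
    simp only [Prod.fst_sub, Prod.snd_sub, Prod.fst_add, Prod.snd_add] at *
    rw [show c.1 - (a.1 + v.1) = c.1 - v.1 - a.1 by ring,
      show c.2 - (a.2 + v.2) = c.2 - v.2 - a.2 by ring]
    exact h1

lemma phi_shf (hmm : 0 < m) (hO : S_O) (hS : S_SY) (hD : Dec N L k hN β hβ m κ) (r : ℕ) (a v : Pl)
    (f : Cf N L → ℝ) (hf : Loc (Nb r a) f) :
    Phi N L k β (fun X : Cf N L => f (shf v X)) = Phi N L k β f := by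
  refine eq_of_err (N := N) (β := β) (κ := κ) hmm _ _ r 4 fun n => ?_
  set j := r + (n + 1) + (a.1.natAbs + a.2.natAbs) with hj
  have h1 := phi_near hN hβ hmm hO hD r a f hf n (Nb j 0) (Nb_abs _ _ a le_rfl)
  have h2 := phi_near hN hβ hmm hO hD r (a + v) _ (loc_shf r a v f hf) n
    ((Nb j 0).image (fun x => x + v)) (by
      intro b hb
      rw [Finset.mem_image]
      refine ⟨b - v, Nb_abs _ _ a le_rfl ?_, by simp⟩
      rw [mem_Nb] at *
      simp only [Prod.fst_sub, Prod.snd_sub, Prod.fst_add, Prod.snd_add] at *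
      rw [show b.1 - v.1 - a.1 = b.1 - (a.1 + v.1) by ring,
        show b.2 - v.2 - a.2 = b.2 - (a.2 + v.2) by ring]
      exact hb)
  rw [(hS N k L hN β (Nb j 0) f hf.1 ⟨1, hf.2.1⟩).1 v] at h2
  rw [abs_le] at *
  constructor <;> linarith [h1.1, h1.2, h2.1, h2.2]

lemma swap_Nb (j : ℕ) (a : Pl) : (Nb j a).image Prod.swap = Nb j a.swap := by
  ext b
  rw [Finset.mem_image]
  constructor
  · rintro ⟨c, hc, rfl⟩
    rw [mem_Nb] at *
    exact ⟨hc.2, hc.1⟩
  · intro hb
    refine ⟨b.swap, ?_, by simp⟩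
    rw [mem_Nb] at *
    exact ⟨hb.2, hb.1⟩

lemma loc_swp (r : ℕ) (a : Pl) (f : Cf N L → ℝ) (hf : Loc (Nb r a) f) :
    Loc (Nb r a.swap) (fun X : Cf N L => f (swp X)) := by
  refine ⟨hf.1.comp ?_, fun X => hf.2.1 _, fun X Y h => hf.2.2 _ _ fun l hl => h _ fun c hc => ?_⟩
  · exact measurable_pi_lambda _ fun l => measurable_pi_apply _
  · have h1 : c.swap ∈ Nb r a := by
      refine hl _ ?_
      rw [mem_st] at hc ⊢
      rcases hc with h | h
      · left; rw [h]; simp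
      · right
        rw [h]
        obtain ⟨⟨x, y⟩, i⟩ := l
        fin_cases i <;> simp [pe, h00]
    rw [mem_Nb] at *
    exact ⟨h1.2, h1.1⟩

lemma phi_swp (hmm : 0 < m) (hO : S_O) (hS : S_SY) (hD : Dec N L k hN β hβ m κ) (r : ℕ) (a : Pl)
    (f : Cf N L → ℝ) (hf : Loc (Nb r a) f) :
    Phi N L k β (fun X : Cf N L => f (swp X)) = Phi N L k β f := by
  refine eq_of_err (N := N) (β := β) (κ := κ) hmm _ _ r 4 fun n => ?_
  set j := r + (n + 1) + (a.1.natAbs + a.2.natAbs) with hj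
  have h1 := phi_near hN hβ hmm hO hD r a f hf n (Nb j 0) (Nb_abs _ _ a le_rfl)
  have h2 := phi_near hN hβ hmm hO hD r a.swap _ (loc_swp r a f hf) n
    ((Nb j 0).image Prod.swap) (by
      rw [swap_Nb]
      refine Nb_abs _ _ a.swap ?_
      simp only [Prod.fst_swap, Prod.snd_swap]
      omega)
  rw [(hS N k L hN β (Nb j 0) f hf.1 ⟨1, hf.2.1⟩).2] at h2
  rw [abs_le] at *
  constructor <;> linarith [h1.1, h1.2, h2.1, h2.2]

end T2H02.TT
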