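import Pool.Agent.T2H02.TT.Fin5

/-!
# Assembly, fifth part: clustering
-/

set_option autoImplicit false
set_option linter.unusedSectionVars false

noncomputable section

open MeasureTheory Matrix Filter Topology
open scoped Matrix.Norms.Frobenius

namespace T2H02.TT

variable {N L : ℕ} [NeZero L]

/-- sup-distance in the plane -/
def dpl (a b : Pl) : ℕ := max (a.1 - b.1).natAbs (a.2 - b.2).natAbs

variable {k : ℕ} (hN : 2 ≤ N) {β : ℝ} (hβ : 0 ≤ β) {m κ : ℝ}

lemma loc_mul (r r' : ℕ) (a b : Pl) (hr : r + dpl a b ≤ r') (f g : Cf N L → ℝ)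
    (hf : Loc (Nb r a) f) (hg : Loc (Nb r b) g) : Loc (Nb r' a) (fun X => g X * f X) := by
  refine ⟨hg.1.mul hf.1, fun X => ?_, fun X Y h => ?_⟩
  · rw [abs_mul]
    calc |g X| * |f X| ≤ 1 * 1 := mul_le_mul (hg.2.1 X) (hf.2.1 X) (abs_nonneg _) zero_le_one
      _ = 1 := one_mul 1
  · have h1 : f X = f Y := hf.2.2 X Y fun l hl => h l fun c hc => Nb_mono r r' (by omega) a (hl c hc)
    have h2 : g X = g Y := hg.2.2 X Y fun l hl => h l fun c hc => by
      have h3 := hl c hc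
      rw [mem_Nb] at *
      have h4 : |b.1 - a.1| ≤ (dpl a b : ℤ) := by
        rw [abs_sub_comm, Int.abs_eq_natAbs]
        exact_mod_cast le_max_left _ _
      have h5 : |b.2 - a.2| ≤ (dpl a b : ℤ) := by
        rw [abs_sub_comm, Int.abs_eq_natAbs]
        exact_mod_cast le_max_right _ _
      have h6 : (r : ℤ) + (dpl a b : ℤ) ≤ r' := by exact_mod_cast hr
      have h7 : |c.1 - a.1| ≤ |c.1 - b.1| + |b.1 - a.1| := abs_sub_le _ _ _
      have h8 : |c.2 - a.2| ≤ |c.2 - b.2| + |b.2 - a.2| := abs_sub_le _ _ _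
      have h9 := h3.1
      have h10 := h3.2
      constructor <;> linarith
    show g X * f X = g Y * f Y
    rw [h1, h2]

/-- columns apart: the union is column convex and has no mixed plaquettes -/
lemma ccv_union (r : ℕ) (a b : Pl) (h : 2 * r + 2 ≤ (a.1 - b.1).natAbs) :
    ccv (Nb r a ∪ Nb r b) ∧ (tin (Nb r a ∪ Nb r b)).filter (fun τ => τ.2 = 3) =
      (tin (Nb r a)).filter (fun τ => τ.2 = 3) ∪ (tin (Nb r b)).filter (fun τ => τ.2 = 3) ∧
      Disjoint ((tin (Nb r a)).filter (fun τ : Tm => τ.2 = 3))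
        ((tin (Nb r b)).filter (fun τ : Tm => τ.2 = 3)) := by
  refine ⟨?_, ?_, ?_⟩
  · intro x hx y hy hxy c h1 h2
    rw [Finset.mem_union, mem_Nb, mem_Nb, abs_le, abs_le, abs_le, abs_le] at *
    omega
  · ext τ
    rw [Finset.mem_union, Finset.mem_filter, Finset.mem_filter, Finset.mem_filter, mem_tin, mem_tin,
      mem_tin]
    constructor
    · rintro ⟨h1, h3⟩
      obtain ⟨x, i⟩ := τ
      obtain rfl : i = 3 := h3
      have c1 := h1 x ((mem_cor3 x _).2 (Or.inl rfl))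
      have c2 := h1 (x + (1, 0)) ((mem_cor3 x _).2 (Or.inr (Or.inl rfl)))
      have c3 := h1 (x + (0, 1)) ((mem_cor3 x _).2 (Or.inr (Or.inr (Or.inl rfl))))
      have c4 := h1 (x + (1, 1)) ((mem_cor3 x _).2 (Or.inr (Or.inr (Or.inr rfl))))
      rw [Finset.mem_union, mem_Nb, mem_Nb, abs_le, abs_le, abs_le, abs_le] at c1 c2 c3 c4
      simp only [Prod.fst_add, Prod.snd_add] at c1 c2 c3 c4
      by_cases hx : |x.1 - a.1| ≤ (r : ℤ)
      · left
        rw [abs_le] at hx
        refine ⟨fun c hc => ?_, rfl⟩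
        rw [mem_Nb, abs_le, abs_le]
        rcases (mem_cor3 x c).1 hc with rfl | rfl | rfl | rfl <;>
          (try simp only [Prod.fst_add, Prod.snd_add]) <;> omega
      · right
        rw [abs_le] at hx
        refine ⟨fun c hc => ?_, rfl⟩
        rw [mem_Nb, abs_le, abs_le]
        rcases (mem_cor3 x c).1 hc with rfl | rfl | rfl | rfl <;>
          (try simp only [Prod.fst_add, Prod.snd_add]) <;> omega
    · rintro (⟨h1, h3⟩ | ⟨h1, h3⟩)
      · exact ⟨fun c hc => Finset.mem_union_left _ (h1 c hc), h3⟩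
      · exact ⟨fun c hc => Finset.mem_union_right _ (h1 c hc), h3⟩
  · rw [Finset.disjoint_left]
    intro τ h1 h2
    rw [Finset.mem_filter, mem_tin] at h1 h2
    have c1 := h1.1 τ.1 (self_cor τ)
    have c2 := h2.1 τ.1 (self_cor τ)
    rw [mem_Nb, abs_le, abs_le] at c1 c2
    omega

/-- clustering, columns apart -/
lemma clu1 (hmm : 0 < m) (hO : S_O) (hD : Dec N L k hN β hβ m κ) (r : ℕ) (a b : Pl)
    (h : 2 * r + 2 ≤ (a.1 - b.1).natAbs) (n : ℕ) (hn : n + 2 * r + 1 ≤ dpl a b) (f g : Cf N L → ℝ)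
    (hf : Loc (Nb r a) f) (hg : Loc (Nb r b) g) :
    |Phi N L k β (fun X => g X * f X) - Phi N L k β g * Phi N L k β f| ≤
      2 * (N : ℝ) ^ ((2 * r + 1) ^ 2) * err N r β κ m n := by
  obtain ⟨hc, hu, hdj⟩ := ccv_union r a b h
  set A := Nb r a with hA
  set B := Nb r b with hB
  set Λ := A.biUnion (Nb n) with hΛ
  set S := sysS N L k β hN hβ with hS
  have hN1 : (1 : ℝ) ≤ (N : ℝ) ^ ((2 * r + 1) ^ 2) := one_le_pow₀ (by exact_mod_cast (by omega : 1 ≤ N))
  have hfg : Loc (Nb (r + dpl a b) a) (fun X => g X * f X) := loc_mul r _ a b le_rfl f g hf hg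
  have hfg2 : Loc (A ∪ B) (fun X => g X * f X) := by
    refine ⟨hfg.1, hfg.2.1, fun X Y hXY => ?_⟩
    have h1 : f X = f Y := hf.2.2 X Y fun l hl => hXY l fun c hc => Finset.mem_union_left _ (hl c hc)
    have h2 : g X = g Y := hg.2.2 X Y fun l hl => hXY l fun c hc => Finset.mem_union_right _ (hl c hc)
    show g X * f X = g Y * f Y
    rw [h1, h2]
  -- finite volume
  have hfin : ∀ R : Finset Pl, B ⊆ R → (∀ c ∈ A, Nb (n + 1) c ⊆ R) →
      |wex N L k β R (fun X => g X * f X) - wex N L k β R g * wex N L k β R f| ≤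
        2 * (N : ℝ) ^ ((2 * r + 1) ^ 2) * err N r β κ m n := by
    intro R hBR hAR
    have hAR' : A ⊆ R := fun c hc => hAR c hc (by rw [mem_Nb]; simp; omega)
    have e1 := wex_ex hO hN k β hβ (A ∪ B) R hc (Finset.union_subset hAR' hBR) _ hfg2.1 hfg2.2.1
      (fun X Y h => hfg2.2.2 X Y h)
    have e2 : hat k β (A ∪ B) (fun X : Cf N L => g X * f X) = fun X => hat k β B g X * hat k β A f X := by
      funext X
      unfold hat
      rw [hu, Finset.prod_union hdj]
      ring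
    have e3 := wex_ex hO hN k β hβ B R (ccv_Nb r b) hBR g hg.1 hg.2.1 (fun X Y h => hg.2.2 X Y h)
    have hgm := hat_meas (L := L) hN k β B g hg.1
    have hgb : ∀ X, |hat k β B g X| ≤ (N : ℝ) ^ ((2 * r + 1) ^ 2) := by
      intro X
      have := hat_bd hN k β B g hg.2.1 X
      rwa [hB, card_Nb] at this
    have hgd : Sys.dep {i | i ∉ S.Fr Λ} (hat k β B g) := by
      intro X Y hXY
      refine hat_dep k β B g (fun X Y h => hg.2.2 X Y h) X Y fun l hl => hXY l ?_
      show l ∉ Frl L Λ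
      rw [mem_Frl]
      rintro ⟨c, hc1, hc2⟩
      have h3 := hl c hc1
      rw [hΛ, Finset.mem_biUnion] at hc2
      obtain ⟨d, hd, hc3⟩ := hc2
      have h4 := Nb_trans r n a d c hd hc3
      rw [hB, mem_Nb, abs_le, abs_le] at h3
      rw [mem_Nb, abs_le, abs_le] at h4
      push_cast at h4
      have h5 : dpl a b ≤ r + n + r := by
        unfold dpl
        apply max_le <;> omega
      omega
    have e4 := pF4 (Lk L) Tm (SU N) S (hm N) Λ (tin R) (tml_tin A R n hAR) (hat k β A f)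
      (hat_meas hN k β A f hf.1) ⟨_, hat_bd hN k β A f hf.2.1⟩ (hat k β B g) hgm ⟨_, hgb⟩ hgd
    have e5 := ex_cov S (hm N) (tin R) (S.ker (hm N) Λ (hat k β A f)) (hat k β B g)
      (hker_meas hN hβ A Λ f hf).1 hgm (S.ker (hm N) Λ (hat k β A f) (fun _ => 1))
      ((N : ℝ) ^ A.card * (6 * A.card * β ^ κ * Real.exp (-m * n))) ((N : ℝ) ^ ((2 * r + 1) ^ 2))
      (fun ω => key1 hN hβ hD A n f hf ω _) hgb
    have e6 := key2 hN hβ hO hD A R n (ccv_Nb r a) hAR' hAR f hf (fun _ => 1)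
    have e7 := wex_abs k hβ R g hg.1 hg.2.1
    rw [e1, e2, e4]
    rw [← e3] at e5
    rw [hA, card_Nb] at e5 e6
    set c := S.ker (hm N) Λ (hat k β (Nb r a) f) (fun _ => 1) with hc0
    set ε := (N : ℝ) ^ ((2 * r + 1) ^ 2) * (6 * ((2 * r + 1) ^ 2 : ℕ) * β ^ κ * Real.exp (-m * n)) with hε
    have e8 : err N r β κ m n = ε := rfl
    rw [e8]
    have hε0 : 0 ≤ ε := (abs_nonneg _).trans e6
    calc |S.ex (hm N) (tin R) (fun ω => hat k β B g ω * S.ker (hm N) Λ (hat k β A f) ω) -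
          wex N L k β R g * wex N L k β R f|
        = |(S.ex (hm N) (tin R) (fun ω => hat k β B g ω * S.ker (hm N) Λ (hat k β A f) ω) -
          wex N L k β R g * c) - wex N L k β R g * (wex N L k β R f - c)| := by congr 1; ring
      _ ≤ (N : ℝ) ^ ((2 * r + 1) ^ 2) * ε + 1 * ε := by
          refine (abs_sub _ _).trans (add_le_add e5 ?_)
          rw [abs_mul]
          exact mul_le_mul e7 e6 (abs_nonneg _) zero_le_one
      _ ≤ 2 * (N : ℝ) ^ ((2 * r + 1) ^ 2) * ε := by nlinarith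
  -- limit
  have t1 := tends hN hβ hmm hO hD (r + dpl a b) a _ hfg
  have t2 := tends hN hβ hmm hO hD r a f hf
  have t3 := tends hN hβ hmm hO hD r b g hg
  refine le_of_tendsto (t1.sub (t3.mul t2)).abs ?_
  rw [eventually_atTop]
  refine ⟨r + (n + 1) + (a.1.natAbs + a.2.natAbs) + (r + (b.1.natAbs + b.2.natAbs)), fun j hj => ?_⟩
  refine hfin (Nb j 0) (Nb_abs _ _ b (by omega)) fun c hc => ?_
  exact fun d hd => Nb_abs (r + (n + 1)) j a (by omega) (Nb_trans _ _ _ _ _ hc hd)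

end T2H02.TT
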