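import Pool.Agent.T2H02.TT.Defs

set_option autoImplicit false

noncomputable section

open MeasureTheory Matrix
open scoped Matrix.Norms.Frobenius

namespace T2H02.TT

instance su_contMul (N : ℕ) : ContinuousMul (SU N) := inferInstance

instance su_contInv (N : ℕ) : ContinuousInv (SU N) where
  continuous_inv := by
    refine Continuous.subtype_mk (p := fun x => x ∈ Matrix.specialUnitaryGroup (Fin N) ℂ) (f := fun g : SU N => star (g : Mt N)) ?_ _
    exact continuous_subtype_val.star

instance su_topGroup (N : ℕ) : IsTopologicalGroup (SU N) where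

lemma su_closed (N : ℕ) : IsClosed ((Matrix.specialUnitaryGroup (Fin N) ℂ : Submonoid (Mt N)) : Set (Mt N)) := by
  have h : ((Matrix.specialUnitaryGroup (Fin N) ℂ : Submonoid (Mt N)) : Set (Mt N)) =
      {M : Mt N | star M * M = 1} ∩ {M : Mt N | M.det = 1} := by
    ext M
    simp only [SetLike.mem_coe, Matrix.mem_specialUnitaryGroup_iff, Matrix.mem_unitaryGroup_iff', Set.mem_inter_iff, Set.mem_ofPred_eq]
  rw [h]
  refine IsClosed.inter ?_ ?_
  · exact isClosed_eq (continuous_id.star.mul continuous_id) continuous_const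
  · exact isClosed_eq (Continuous.matrix_det continuous_id) continuous_const

lemma norm_su (N : ℕ) (g : SU N) : ‖(g : Mt N)‖ = Real.sqrt N := by
  have h : star (g : Mt N) * (g : Mt N) = 1 := by
    have := g.2
    rw [Matrix.mem_specialUnitaryGroup_iff, Matrix.mem_unitaryGroup_iff'] at this
    exact this.1
  rw [Matrix.frobenius_norm_def]
  have h2 : ∑ i, ∑ j, ‖(g : Mt N) i j‖ ^ (2 : ℝ) = N := by
    have h3 : ∀ j, ∑ i, ‖(g : Mt N) i j‖ ^ (2 : ℝ) = 1 := by
      intro j
      have h4 := congrFun (congrFun h j) j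
      rw [Matrix.mul_apply, Matrix.one_apply_eq] at h4
      have h5 : (∑ i, ‖(g : Mt N) i j‖ ^ (2 : ℝ) : ℝ) = ((∑ i, (star (g : Mt N)) j i * (g : Mt N) i j : ℂ)).re := by
        rw [Complex.re_sum]
        refine Finset.sum_congr rfl fun i _ => ?_
        rw [Matrix.star_apply, Complex.star_def, ← Complex.normSq_eq_conj_mul_self, Complex.ofReal_re, Complex.normSq_eq_norm_sq]
        norm_num
      rw [h5, h4]; simp
    rw [Finset.sum_comm, Finset.sum_congr rfl fun j _ => h3 j]
    simp
  rw [h2, Real.sqrt_eq_rpow]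

instance su_compact (N : ℕ) : CompactSpace (SU N) := by
  have : IsCompact ((Matrix.specialUnitaryGroup (Fin N) ℂ : Submonoid (Mt N)) : Set (Mt N)) := by
    refine Metric.isCompact_of_isClosed_isBounded (su_closed N) ?_
    refine (Metric.isBounded_iff_subset_closedBall (0 : Mt N)).2 ⟨Real.sqrt N, fun M hM => ?_⟩
    rw [mem_closedBall_zero_iff]
    exact (norm_su N ⟨M, hM⟩).le
  exact isCompact_iff_compactSpace.1 this

instance su_meas (N : ℕ) : MeasurableSpace (SU N) := borel _
instance su_borel (N : ℕ) : BorelSpace (SU N) := ⟨rfl⟩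

instance mt_sc (N : ℕ) : SecondCountableTopology (Mt N) := by
  have : ProperSpace (Mt N) := FiniteDimensional.proper ℂ _
  exact secondCountable_of_proper

instance su_sc (N : ℕ) : SecondCountableTopology (SU N) :=
  TopologicalSpace.Subtype.secondCountableTopology _
instance su_t2 (N : ℕ) : T2Space (SU N) := inferInstance

/-- the Haar probability measure of `SU(N)` -/
def hm (N : ℕ) : Measure (SU N) := Measure.haarMeasure ⊤

instance (N : ℕ) : (hm N).IsHaarMeasure := by unfold hm; infer_instance

instance (N : ℕ) : IsProbabilityMeasure (hm N) := ⟨by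
  unfold hm
  have := Measure.haarMeasure_self (K₀ := (⊤ : TopologicalSpace.PositiveCompacts (SU N)))
  simpa using this⟩

end T2H02.TT
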