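import Pool.Agent.T2H02.TT.StmW
import Pool.Agent.T2H02.TT.I
import Pool.Agent.T2H02.TT.I1u

/-!
# Package Is, part A : the weights and the abstract decay estimate
-/

set_option autoImplicit false
set_option linter.unusedSectionVars false

noncomputable section

open MeasureTheory Matrix
open scoped Matrix.Norms.Frobenius

namespace T2H02.TT

namespace PkgIs

/-! ### the weights -/

/-- sup distance from `b` -/
def ds (b x : Pl) : ℕ := max (x.1 - b.1).natAbs (x.2 - b.2).natAbs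

lemma mem_bal1 {R : ℕ} {b x : Pl} : x ∈ bal R {b} ↔ ds b x ≤ R := by
  rw [PkgI.mem_bal]
  unfold ds
  simp only [Finset.mem_singleton, exists_eq_left]
  rw [abs_sub_comm b.1, abs_sub_comm b.2, Int.abs_eq_natAbs, Int.abs_eq_natAbs]
  omega

/-- the weight -/
def wt' (b : Pl) (R : ℕ) (ρ : ℝ) (x : Pl) : ℝ :=
  if ds b x ≤ R then Real.exp (-(ρ * (max (ds b x) 1 : ℕ))) else 0

lemma wt'_nonneg (b : Pl) (R : ℕ) (ρ : ℝ) (x : Pl) : 0 ≤ wt' b R ρ x := by
  unfold wt'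
  split_ifs
  · exact (Real.exp_pos _).le
  · exact le_rfl

lemma wt'_zero {b : Pl} {R : ℕ} {ρ : ℝ} {x : Pl} (h : ¬ ds b x ≤ R) : wt' b R ρ x = 0 := by
  unfold wt'
  rw [if_neg h]

/-- the coefficient of `t x ^ 2` for the bond from `x` to `x'` -/
def al (b : Pl) (R : ℕ) (ρ : ℝ) (x x' : Pl) : ℝ :=
  (if ds b x ≤ R ∧ ds b x' ≤ R ∧ max (ds b x) 1 ≠ max (ds b x') 1 then
    (Real.exp ρ + Real.exp (-ρ) - 2) * wt' b R ρ x ^ 2 else 0) +
  (if (ds b x ≤ R ∧ ¬ ds b x' ≤ R) ∨ (ds b x' ≤ R ∧ ¬ ds b x ≤ R) then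
    Real.exp (-(2 * ρ * R)) else 0)

lemma s2_nonneg (ρ : ℝ) : 0 ≤ Real.exp ρ + Real.exp (-ρ) - 2 := by
  have h1 := Real.add_one_le_exp ρ
  have h2 := Real.add_one_le_exp (-ρ)
  have h3 : Real.exp ρ * Real.exp (-ρ) = 1 := by
    rw [← Real.exp_add, add_neg_cancel, Real.exp_zero]
  nlinarith [sq_nonneg (Real.exp ρ - Real.exp (-ρ)), Real.exp_pos ρ, Real.exp_pos (-ρ),
    sq_nonneg (Real.exp ρ + Real.exp (-ρ) - 2)]

lemma exp_diff (ρ : ℝ) (n : ℕ) :
    (Real.exp (-(ρ * (n + 1 : ℕ))) - Real.exp (-(ρ * n))) ^ 2 =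
      (Real.exp ρ + Real.exp (-ρ) - 2) * (Real.exp (-(ρ * (n + 1 : ℕ))) * Real.exp (-(ρ * n))) := by
  have e1 : Real.exp (-(ρ * (n + 1 : ℕ))) = Real.exp (-ρ) * Real.exp (-(ρ * n)) := by
    rw [← Real.exp_add]
    congr 1
    push_cast
    ring
  have h3 : Real.exp ρ * Real.exp (-ρ) = 1 := by
    rw [← Real.exp_add, add_neg_cancel, Real.exp_zero]
  rw [e1]
  linear_combination (-(Real.exp (-(ρ * n))) ^ 2) * h3

/-- bound for one bond -/
lemma bond (b : Pl) (R : ℕ) (ρ : ℝ) (hρ : 0 ≤ ρ) {x x' : Pl} (hn1 : ds b x ≤ ds b x' + 1)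
    (hn2 : ds b x' ≤ ds b x + 1) {u v : ℝ} (hu : 0 ≤ u) (hv : 0 ≤ v) :
    (wt' b R ρ x' - wt' b R ρ x) ^ 2 * u * v ≤
      (al b R ρ x x' * u ^ 2 + al b R ρ x' x * v ^ 2) / 2 := by
  have hs := s2_nonneg ρ
  by_cases hx : ds b x ≤ R
  · by_cases hx' : ds b x' ≤ R
    · by_cases hne : max (ds b x) 1 = max (ds b x') 1
      · have e1 : wt' b R ρ x' = wt' b R ρ x := by
          unfold wt'
          rw [if_pos hx, if_pos hx', hne]
        have e2 : al b R ρ x x' = 0 := by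
          unfold al
          rw [if_neg (fun h => h.2.2 hne), if_neg (by tauto), add_zero]
        have e3 : al b R ρ x' x = 0 := by
          unfold al
          rw [if_neg (fun h => h.2.2 hne.symm), if_neg (by tauto), add_zero]
        rw [e1, e2, e3]
        simp
      · have e2 : al b R ρ x x' = (Real.exp ρ + Real.exp (-ρ) - 2) * wt' b R ρ x ^ 2 := by
          unfold al
          rw [if_pos ⟨hx, hx', hne⟩, if_neg (by tauto), add_zero]
        have e3 : al b R ρ x' x = (Real.exp ρ + Real.exp (-ρ) - 2) * wt' b R ρ x' ^ 2 := by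
          unfold al
          rw [if_pos ⟨hx', hx, fun h => hne h.symm⟩, if_neg (by tauto), add_zero]
        have e4 : (wt' b R ρ x' - wt' b R ρ x) ^ 2 =
            (Real.exp ρ + Real.exp (-ρ) - 2) * (wt' b R ρ x' * wt' b R ρ x) := by
          unfold wt'
          rw [if_pos hx, if_pos hx']
          rcases (by omega : max (ds b x') 1 = max (ds b x) 1 + 1 ∨
              max (ds b x) 1 = max (ds b x') 1 + 1) with h | h
          · rw [h]
            exact exp_diff ρ _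
          · rw [h]
            have := exp_diff ρ (max (ds b x') 1)
            linarith [this, sq_nonneg (0 : ℝ)]
        rw [e2, e3, e4]
        have h5 : 0 ≤ (Real.exp ρ + Real.exp (-ρ) - 2) * (wt' b R ρ x * u - wt' b R ρ x' * v) ^ 2 :=
          mul_nonneg hs (sq_nonneg _)
        nlinarith [h5]
    · have e1 : wt' b R ρ x' = 0 := wt'_zero hx'
      have e2 : al b R ρ x x' = Real.exp (-(2 * ρ * R)) := by
        unfold al
        rw [if_neg (by tauto), if_pos (by tauto), zero_add]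
      have e3 : al b R ρ x' x = Real.exp (-(2 * ρ * R)) := by
        unfold al
        rw [if_neg (by tauto), if_pos (by tauto), zero_add]
      have e4 : wt' b R ρ x ^ 2 ≤ Real.exp (-(2 * ρ * R)) := by
        unfold wt'
        rw [if_pos hx, ← Real.exp_nat_mul, Real.exp_le_exp]
        have h6 : (R : ℝ) ≤ (max (ds b x) 1 : ℕ) := by
          have : R ≤ max (ds b x) 1 := by omega
          exact_mod_cast this
        push_cast at h6 ⊢
        nlinarith
      rw [e1, e2, e3, zero_sub, neg_sq]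
      have h5 : wt' b R ρ x ^ 2 * (u * v) ≤ Real.exp (-(2 * ρ * R)) * (u * v) :=
        mul_le_mul_of_nonneg_right e4 (mul_nonneg hu hv)
      have h6 : 0 ≤ Real.exp (-(2 * ρ * R)) * (u - v) ^ 2 :=
        mul_nonneg (Real.exp_pos _).le (sq_nonneg _)
      nlinarith
  · by_cases hx' : ds b x' ≤ R
    · have e1 : wt' b R ρ x = 0 := wt'_zero hx
      have e2 : al b R ρ x x' = Real.exp (-(2 * ρ * R)) := by
        unfold al
        rw [if_neg (by tauto), if_pos (by tauto), zero_add]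
      have e3 : al b R ρ x' x = Real.exp (-(2 * ρ * R)) := by
        unfold al
        rw [if_neg (by tauto), if_pos (by tauto), zero_add]
      have e4 : wt' b R ρ x' ^ 2 ≤ Real.exp (-(2 * ρ * R)) := by
        unfold wt'
        rw [if_pos hx', ← Real.exp_nat_mul, Real.exp_le_exp]
        have h6 : (R : ℝ) ≤ (max (ds b x') 1 : ℕ) := by
          have : R ≤ max (ds b x') 1 := by omega
          exact_mod_cast this
        push_cast at h6 ⊢
        nlinarith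
      rw [e1, e2, e3, sub_zero]
      have h5 : wt' b R ρ x' ^ 2 * (u * v) ≤ Real.exp (-(2 * ρ * R)) * (u * v) :=
        mul_le_mul_of_nonneg_right e4 (mul_nonneg hu hv)
      have h6 : 0 ≤ Real.exp (-(2 * ρ * R)) * (u - v) ^ 2 :=
        mul_nonneg (Real.exp_pos _).le (sq_nonneg _)
      nlinarith
    · have e1 : wt' b R ρ x = 0 := wt'_zero hx
      have e1' : wt' b R ρ x' = 0 := wt'_zero hx'
      have e2 : al b R ρ x x' = 0 := by
        unfold al
        rw [if_neg (by tauto), if_neg (by tauto), add_zero]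
      have e3 : al b R ρ x' x = 0 := by
        unfold al
        rw [if_neg (by tauto), if_neg (by tauto), add_zero]
      rw [e1, e1', e2, e3]
      simp

lemma two_chg (a : ℕ) (u : ℤ) (h : max (max u.natAbs a) 1 ≠ max (max (u + 1).natAbs a) 1)
    (h' : max (max u.natAbs a) 1 ≠ max (max (u - 1).natAbs a) 1) : a < u.natAbs := by
  by_contra hc
  have h1 : max u.natAbs a = a := max_eq_right (by omega)
  rw [h1] at h h'
  omega

lemma no_chg (a : ℕ) (u : ℤ) (h : u.natAbs < a) :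
    max (max u.natAbs a) 1 = max (max (u + 1).natAbs a) 1 ∧
      max (max u.natAbs a) 1 = max (max (u - 1).natAbs a) 1 := by
  rw [max_eq_right h.le, max_eq_right (by omega : (u + 1).natAbs ≤ a),
    max_eq_right (by omega : (u - 1).natAbs ≤ a)]
  exact ⟨rfl, rfl⟩

lemma four_le {p1 p2 p3 p4 : Prop} [Decidable p1] [Decidable p2] [Decidable p3] [Decidable p4]
    {s : ℝ} (hs : 0 ≤ s) (h123 : ¬ (p1 ∧ p2 ∧ p3)) (h124 : ¬ (p1 ∧ p2 ∧ p4))
    (h134 : ¬ (p1 ∧ p3 ∧ p4)) (h234 : ¬ (p2 ∧ p3 ∧ p4)) :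
    (if p1 then s else 0) + (if p2 then s else 0) + (if p3 then s else 0) +
      (if p4 then s else 0) ≤ 2 * s := by
  by_cases h1 : p1 <;> by_cases h2 : p2 <;> by_cases h3 : p3 <;> by_cases h4 : p4 <;>
    simp only [h1, h2, h3, h4, if_true, if_false] <;> first | (exfalso; tauto) | linarith

/-- the sum of the coefficients at a site -/
lemma al_sum (b : Pl) (R : ℕ) (ρ : ℝ) (x : Pl) :
    al b R ρ x (x + (1, 0)) + al b R ρ x (x - (1, 0)) + al b R ρ x (x + (0, 1)) +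
      al b R ρ x (x - (0, 1)) ≤ 2 * ((Real.exp ρ + Real.exp (-ρ) - 2) * wt' b R ρ x ^ 2) +
        4 * (if ds b x ≤ R + 1 then Real.exp (-(2 * ρ * R)) else 0) := by
  obtain ⟨u, hu⟩ : ∃ u, u = x.1 - b.1 := ⟨_, rfl⟩
  obtain ⟨v, hv⟩ : ∃ v, v = x.2 - b.2 := ⟨_, rfl⟩
  have d0 : ds b x = max u.natAbs v.natAbs := by rw [ds, hu, hv]
  have d1 : ds b (x + (1, 0)) = max (u + 1).natAbs v.natAbs := by
    rw [ds, hu, hv]
    simp only [Prod.fst_add, Prod.snd_add]
    congr 2 <;> ring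
  have d2 : ds b (x - (1, 0)) = max (u - 1).natAbs v.natAbs := by
    rw [ds, hu, hv]
    simp only [Prod.fst_sub, Prod.snd_sub]
    congr 2 <;> ring
  have d3 : ds b (x + (0, 1)) = max u.natAbs (v + 1).natAbs := by
    rw [ds, hu, hv]
    simp only [Prod.fst_add, Prod.snd_add]
    congr 2 <;> ring
  have d4 : ds b (x - (0, 1)) = max u.natAbs (v - 1).natAbs := by
    rw [ds, hu, hv]
    simp only [Prod.fst_sub, Prod.snd_sub]
    congr 2 <;> ring
  obtain ⟨E, hE⟩ : ∃ E, E = Real.exp (-(2 * ρ * R)) := ⟨_, rfl⟩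
  have hE0 : 0 ≤ E := by rw [hE]; positivity
  have hB : ∀ x' : Pl, ds b x ≤ ds b x' + 1 →
      (if (ds b x ≤ R ∧ ¬ ds b x' ≤ R) ∨ (ds b x' ≤ R ∧ ¬ ds b x ≤ R) then E else 0) ≤
        (if ds b x ≤ R + 1 then E else 0) := by
    intro x' h
    by_cases h1 : (ds b x ≤ R ∧ ¬ ds b x' ≤ R) ∨ (ds b x' ≤ R ∧ ¬ ds b x ≤ R)
    · rw [if_pos h1, if_pos (by omega)]
    · rw [if_neg h1]
      split_ifs
      · exact hE0
      · exact le_rfl
  have hx12 : max (ds b x) 1 ≠ max (ds b (x + (1, 0))) 1 →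
      max (ds b x) 1 ≠ max (ds b (x - (1, 0))) 1 →
      ¬ (max (ds b x) 1 ≠ max (ds b (x + (0, 1))) 1 ∨
        max (ds b x) 1 ≠ max (ds b (x - (0, 1))) 1) := by
    intro h1 h2
    rw [d0, d1] at h1
    rw [d0, d2] at h2
    have h5 := no_chg _ _ (two_chg _ _ h1 h2)
    rw [d0, d3, d4, max_comm u.natAbs, max_comm u.natAbs, max_comm u.natAbs]
    rintro (h | h)
    · exact h h5.1
    · exact h h5.2
  have hx34 : max (ds b x) 1 ≠ max (ds b (x + (0, 1))) 1 →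
      max (ds b x) 1 ≠ max (ds b (x - (0, 1))) 1 →
      ¬ (max (ds b x) 1 ≠ max (ds b (x + (1, 0))) 1 ∨
        max (ds b x) 1 ≠ max (ds b (x - (1, 0))) 1) := by
    intro h1 h2
    rw [d0, d3, max_comm u.natAbs, max_comm u.natAbs] at h1
    rw [d0, d4, max_comm u.natAbs, max_comm u.natAbs] at h2
    have h5 := no_chg _ _ (two_chg _ _ h1 h2)
    rw [d0, d1, d2]
    rintro (h | h)
    · exact h h5.1
    · exact h h5.2
  have b1 := hB (x + (1, 0)) (by omega)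
  have b2 := hB (x - (1, 0)) (by omega)
  have b3 := hB (x + (0, 1)) (by omega)
  have b4 := hB (x - (0, 1)) (by omega)
  have hA := four_le
    (p1 := ds b x ≤ R ∧ ds b (x + (1, 0)) ≤ R ∧ max (ds b x) 1 ≠ max (ds b (x + (1, 0))) 1)
    (p2 := ds b x ≤ R ∧ ds b (x - (1, 0)) ≤ R ∧ max (ds b x) 1 ≠ max (ds b (x - (1, 0))) 1)
    (p3 := ds b x ≤ R ∧ ds b (x + (0, 1)) ≤ R ∧ max (ds b x) 1 ≠ max (ds b (x + (0, 1))) 1)
    (p4 := ds b x ≤ R ∧ ds b (x - (0, 1)) ≤ R ∧ max (ds b x) 1 ≠ max (ds b (x - (0, 1))) 1)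
    (s := (Real.exp ρ + Real.exp (-ρ) - 2) * wt' b R ρ x ^ 2)
    (mul_nonneg (s2_nonneg ρ) (sq_nonneg _))
    (fun h => hx12 h.1.2.2 h.2.1.2.2 (Or.inl h.2.2.2.2))
    (fun h => hx12 h.1.2.2 h.2.1.2.2 (Or.inr h.2.2.2.2))
    (fun h => hx34 h.2.1.2.2 h.2.2.2.2 (Or.inl h.1.2.2))
    (fun h => hx34 h.2.1.2.2 h.2.2.2.2 (Or.inr h.1.2.2))
  unfold al
  rw [← hE]
  linarith

lemma smb {f : Pl → ℝ} (b : Pl) (r : ℕ) (h : ∀ x, ¬ ds b x ≤ r → f x = 0) : Summable f :=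
  summable_of_ne_finset_zero (s := bal r {b}) fun x hx => h x fun h' => hx (mem_bal1.2 h')

lemma shift (f : Pl → ℝ) (e : Pl) : ∑' x, f (x + e) = ∑' x, f x := (Equiv.addRight e).tsum_eq f

lemma ds_add0 (b x : Pl) : ds b x ≤ ds b (x + (1, 0)) + 1 ∧ ds b (x + (1, 0)) ≤ ds b x + 1 := by
  unfold ds
  simp only [Prod.fst_add, Prod.snd_add]
  omega

lemma ds_add1 (b x : Pl) : ds b x ≤ ds b (x + (0, 1)) + 1 ∧ ds b (x + (0, 1)) ≤ ds b x + 1 := by
  unfold ds
  simp only [Prod.fst_add, Prod.snd_add]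
  omega

lemma ds_sub0 (b x : Pl) : ds b x ≤ ds b (x - (1, 0)) + 1 ∧ ds b (x - (1, 0)) ≤ ds b x + 1 := by
  unfold ds
  simp only [Prod.fst_sub, Prod.snd_sub]
  omega

lemma ds_sub1 (b x : Pl) : ds b x ≤ ds b (x - (0, 1)) + 1 ∧ ds b (x - (0, 1)) ≤ ds b x + 1 := by
  unfold ds
  simp only [Prod.fst_sub, Prod.snd_sub]
  omega

lemma al_zero {b : Pl} {R : ℕ} {ρ : ℝ} {x x' : Pl} (h : ¬ ds b x ≤ R) (h' : ¬ ds b x' ≤ R) :
    al b R ρ x x' = 0 := by
  unfold al
  rw [if_neg (by tauto), if_neg (by tauto), add_zero]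

/-- the decay estimate -/
lemma decay (b : Pl) (R : ℕ) (ρ : ℝ) (hρ : 0 ≤ ρ) (t g : Pl → ℝ) (ht : ∀ x, 0 ≤ t x) (μ δ : ℝ)
    (hδ : Real.exp ρ + Real.exp (-ρ) - 2 + δ ≤ μ) (hg : ∀ x, ds b x ≤ R → μ * t x ^ 2 ≤ g x)
    (hmain : ∑' x, wt' b R ρ x ^ 2 * g x ≤
      ∑' x, ((wt' b R ρ (x + (1, 0)) - wt' b R ρ x) ^ 2 * t x * t (x + (1, 0)) +
        (wt' b R ρ (x + (0, 1)) - wt' b R ρ x) ^ 2 * t x * t (x + (0, 1)))) :
    δ * ∑' x, wt' b R ρ x ^ 2 * t x ^ 2 ≤
      2 * Real.exp (-(2 * ρ * R)) * ∑ x ∈ bal (R + 1) {b}, t x ^ 2 := by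
  obtain ⟨w, hw⟩ : ∃ w, w = wt' b R ρ := ⟨_, rfl⟩
  obtain ⟨S2, hS2⟩ : ∃ S2, S2 = Real.exp ρ + Real.exp (-ρ) - 2 := ⟨_, rfl⟩
  rw [← hS2] at hδ
  rw [← hw] at hmain ⊢
  have hw0 : ∀ x, ¬ ds b x ≤ R → w x = 0 := fun x hx => by rw [hw]; exact wt'_zero hx
  -- summability
  have sm1 : Summable fun x => w x ^ 2 * g x := smb b R fun x hx => by rw [hw0 x hx]; ring
  have sm2 : Summable fun x => w x ^ 2 * t x ^ 2 := smb b R fun x hx => by rw [hw0 x hx]; ring
  have z1 : ∀ x, ¬ ds b x ≤ R + 1 → al b R ρ x (x + (1, 0)) = 0 := fun x hx =>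
    al_zero (by omega) (by have := ds_add0 b x; omega)
  have z2 : ∀ x, ¬ ds b x ≤ R + 1 → al b R ρ x (x - (1, 0)) = 0 := fun x hx =>
    al_zero (by omega) (by have := ds_sub0 b x; omega)
  have z3 : ∀ x, ¬ ds b x ≤ R + 1 → al b R ρ x (x + (0, 1)) = 0 := fun x hx =>
    al_zero (by omega) (by have := ds_add1 b x; omega)
  have z4 : ∀ x, ¬ ds b x ≤ R + 1 → al b R ρ x (x - (0, 1)) = 0 := fun x hx =>
    al_zero (by omega) (by have := ds_sub1 b x; omega)
  have z1' : ∀ x, ¬ ds b x ≤ R + 1 → al b R ρ (x + (1, 0)) x = 0 := fun x hx =>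
    al_zero (by have := ds_add0 b x; omega) (by omega)
  have z3' : ∀ x, ¬ ds b x ≤ R + 1 → al b R ρ (x + (0, 1)) x = 0 := fun x hx =>
    al_zero (by have := ds_add1 b x; omega) (by omega)
  have a1 : Summable fun x => al b R ρ x (x + (1, 0)) * t x ^ 2 :=
    smb b (R + 1) fun x hx => by rw [z1 x hx, zero_mul]
  have a2 : Summable fun x => al b R ρ x (x - (1, 0)) * t x ^ 2 :=
    smb b (R + 1) fun x hx => by rw [z2 x hx, zero_mul]
  have a3 : Summable fun x => al b R ρ x (x + (0, 1)) * t x ^ 2 :=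
    smb b (R + 1) fun x hx => by rw [z3 x hx, zero_mul]
  have a4 : Summable fun x => al b R ρ x (x - (0, 1)) * t x ^ 2 :=
    smb b (R + 1) fun x hx => by rw [z4 x hx, zero_mul]
  have a1' : Summable fun x => al b R ρ (x + (1, 0)) x * t (x + (1, 0)) ^ 2 :=
    smb b (R + 1) fun x hx => by rw [z1' x hx, zero_mul]
  have a3' : Summable fun x => al b R ρ (x + (0, 1)) x * t (x + (0, 1)) ^ 2 :=
    smb b (R + 1) fun x hx => by rw [z3' x hx, zero_mul]
  have e2 : ∑' x, al b R ρ (x + (1, 0)) x * t (x + (1, 0)) ^ 2 =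
      ∑' x, al b R ρ x (x - (1, 0)) * t x ^ 2 := by
    rw [← shift (fun x => al b R ρ x (x - (1, 0)) * t x ^ 2) (1, 0)]
    simp only [add_sub_cancel_right]
  have e4 : ∑' x, al b R ρ (x + (0, 1)) x * t (x + (0, 1)) ^ 2 =
      ∑' x, al b R ρ x (x - (0, 1)) * t x ^ 2 := by
    rw [← shift (fun x => al b R ρ x (x - (0, 1)) * t x ^ 2) (0, 1)]
    simp only [add_sub_cancel_right]
  -- the bonds
  have h1 : ∑' x, ((w (x + (1, 0)) - w x) ^ 2 * t x * t (x + (1, 0)) +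
        (w (x + (0, 1)) - w x) ^ 2 * t x * t (x + (0, 1))) ≤
      ∑' x, ((al b R ρ x (x + (1, 0)) * t x ^ 2 + al b R ρ (x + (1, 0)) x * t (x + (1, 0)) ^ 2) +
        (al b R ρ x (x + (0, 1)) * t x ^ 2 + al b R ρ (x + (0, 1)) x * t (x + (0, 1)) ^ 2)) / 2 := by
    refine Summable.tsum_le_tsum (fun x => ?_) ?_ ?_
    · have c1 := bond b R ρ hρ (ds_add0 b x).1 (ds_add0 b x).2 (ht x) (ht (x + (1, 0)))
      have c2 := bond b R ρ hρ (ds_add1 b x).1 (ds_add1 b x).2 (ht x) (ht (x + (0, 1)))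
      rw [hw]
      linarith
    · refine smb b (R + 1) fun x hx => ?_
      rw [hw0 x (by omega), hw0 (x + (1, 0)) (by have := ds_add0 b x; omega),
        hw0 (x + (0, 1)) (by have := ds_add1 b x; omega)]
      ring
    · exact ((a1.add a1').add (a3.add a3')).div_const 2
  have h2 : ∑' x, ((al b R ρ x (x + (1, 0)) * t x ^ 2 + al b R ρ (x + (1, 0)) x *
        t (x + (1, 0)) ^ 2) + (al b R ρ x (x + (0, 1)) * t x ^ 2 + al b R ρ (x + (0, 1)) x *
        t (x + (0, 1)) ^ 2)) / 2 =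
      ∑' x, (al b R ρ x (x + (1, 0)) + al b R ρ x (x - (1, 0)) + al b R ρ x (x + (0, 1)) +
        al b R ρ x (x - (0, 1))) * t x ^ 2 / 2 := by
    rw [tsum_div_const, (a1.add a1').tsum_add (a3.add a3'), a1.tsum_add a1', a3.tsum_add a3', e2,
      e4, ← a1.tsum_add a2, ← a3.tsum_add a4, ← (a1.add a2).tsum_add (a3.add a4), ← tsum_div_const]
    exact tsum_congr fun x => by ring
  have sm3 : Summable fun x => (if ds b x ≤ R + 1 then Real.exp (-(2 * ρ * R)) else 0) * t x ^ 2 :=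
    smb b (R + 1) fun x hx => by rw [if_neg hx, zero_mul]
  have h3 : ∑' x, (al b R ρ x (x + (1, 0)) + al b R ρ x (x - (1, 0)) + al b R ρ x (x + (0, 1)) +
        al b R ρ x (x - (0, 1))) * t x ^ 2 / 2 ≤
      ∑' x, (S2 * (w x ^ 2 * t x ^ 2) +
        2 * ((if ds b x ≤ R + 1 then Real.exp (-(2 * ρ * R)) else 0) * t x ^ 2)) := by
    refine Summable.tsum_le_tsum (fun x => ?_) ?_ ((sm2.mul_left S2).add (sm3.mul_left 2))
    · have := mul_le_mul_of_nonneg_right (al_sum b R ρ x) (sq_nonneg (t x))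
      rw [hw, hS2]
      linarith
    · refine ((((a1.add a2).add (a3.add a4)).div_const 2)).congr fun x => ?_
      ring
  have h4 : ∑' x, (S2 * (w x ^ 2 * t x ^ 2) +
        2 * ((if ds b x ≤ R + 1 then Real.exp (-(2 * ρ * R)) else 0) * t x ^ 2)) =
      S2 * ∑' x, w x ^ 2 * t x ^ 2 +
        2 * Real.exp (-(2 * ρ * R)) * ∑ x ∈ bal (R + 1) {b}, t x ^ 2 := by
    rw [(sm2.mul_left S2).tsum_add (sm3.mul_left 2), tsum_mul_left, tsum_mul_left]
    congr 1
    rw [tsum_eq_sum (s := bal (R + 1) {b}) fun x hx => by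
      rw [if_neg fun h => hx (mem_bal1.2 h), zero_mul]]
    have e5 : ∑ x ∈ bal (R + 1) {b}, (if ds b x ≤ R + 1 then Real.exp (-(2 * ρ * R)) else 0) *
        t x ^ 2 = Real.exp (-(2 * ρ * R)) * ∑ x ∈ bal (R + 1) {b}, t x ^ 2 := by
      rw [Finset.mul_sum]
      refine Finset.sum_congr rfl fun x hx => ?_
      rw [if_pos (mem_bal1.1 hx)]
    rw [e5]
    ring
  have h5 : μ * ∑' x, w x ^ 2 * t x ^ 2 ≤ ∑' x, w x ^ 2 * g x := by
    rw [← tsum_mul_left]
    refine Summable.tsum_le_tsum (fun x => ?_) (sm2.mul_left μ) sm1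
    by_cases hx : ds b x ≤ R
    · have := mul_le_mul_of_nonneg_left (hg x hx) (sq_nonneg (w x))
      linarith
    · rw [hw0 x hx]
      simp
  have h6 : 0 ≤ ∑' x, w x ^ 2 * t x ^ 2 := tsum_nonneg fun x => by positivity
  nlinarith

end PkgIs

end T2H02.TT
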