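import Pool.Agent.T2H02.TT.IsA

/-!
# Package Is, part B : bilinear forms, summation by parts
-/

set_option autoImplicit false
set_option linter.unusedSectionVars false

noncomputable section

open MeasureTheory Matrix
open scoped Matrix.Norms.Frobenius

namespace T2H02.TT

namespace PkgIs

open PkgC PkgI1 PkgI1u

variable {N L : ℕ} [NeZero L]

/-! ### bilinear forms -/

lemma ip_zero_left (A : Mt N) : ip 0 A = 0 := by simp [ip]

lemma ip_zero_right (A : Mt N) : ip A 0 = 0 := by simp [ip]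

lemma ip_sub_right (A B C : Mt N) : ip A (B - C) = ip A B - ip A C := by
  rw [ip_comm, ip_sub_left, ip_comm B, ip_comm C]

lemma ip_smul_left (c : ℝ) (A B : Mt N) : ip (c • A) B = c * ip A B := by
  rw [ip_comm, ip_smul, ip_comm]

/-- Cauchy-Schwarz -/
lemma cs {ι : Type*} (s : Finset ι) (F G : ι → Mt N) :
    |∑ i ∈ s, ip (F i) (G i)| ≤ Real.sqrt (∑ i ∈ s, ‖F i‖ ^ 2) * Real.sqrt (∑ i ∈ s, ‖G i‖ ^ 2) := by
  obtain ⟨a, ha⟩ : ∃ a, a = ∑ i ∈ s, ‖F i‖ ^ 2 := ⟨_, rfl⟩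
  obtain ⟨c, hc⟩ : ∃ c, c = ∑ i ∈ s, ‖G i‖ ^ 2 := ⟨_, rfl⟩
  obtain ⟨β, hβ⟩ : ∃ β, β = ∑ i ∈ s, ip (F i) (G i) := ⟨_, rfl⟩
  rw [← ha, ← hc, ← hβ]
  have ha0 : 0 ≤ a := by rw [ha]; positivity
  have hc0 : 0 ≤ c := by rw [hc]; positivity
  have h1 : ∀ r : ℝ, 0 ≤ a - 2 * r * β + r ^ 2 * c := by
    intro r
    have h2 : 0 ≤ ∑ i ∈ s, ‖F i - r • G i‖ ^ 2 := by positivity
    have h3 : ∑ i ∈ s, ‖F i - r • G i‖ ^ 2 = a - 2 * r * β + r ^ 2 * c := by
      rw [ha, hc, hβ, Finset.mul_sum, Finset.mul_sum, ← Finset.sum_sub_distrib,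
        ← Finset.sum_add_distrib]
      refine Finset.sum_congr rfl fun i _ => ?_
      rw [fr_sq, fr_sq, fr_sq, ip_sub_left, ip_sub_right, ip_sub_right, ip_smul, ip_smul_left,
        ip_smul_left, ip_smul, ip_comm (G i) (F i)]
      ring
    rwa [h3] at h2
  rw [← Real.sqrt_mul ha0]
  refine Real.abs_le_sqrt ?_
  rcases hc0.eq_or_lt with h0 | h0
  · rw [← h0, mul_zero]
    by_contra hne
    have hβ0 : β ≠ 0 := by
      rintro rfl
      simp at hne
    have h2 := h1 ((a + 1) / β)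
    have h3 : a - 2 * ((a + 1) / β) * β + ((a + 1) / β) ^ 2 * c = -a - 2 := by
      rw [← h0]
      field_simp
      ring
    linarith
  · have h2 := h1 (β / c)
    have h3 : a - 2 * (β / c) * β + (β / c) ^ 2 * c = a - β ^ 2 / c := by
      field_simp
      ring
    rw [h3] at h2
    have h4 : β ^ 2 / c ≤ a := by linarith
    rwa [div_le_iff₀ h0] at h4

lemma cs2 (F G : Tor L → Fin 2 → Mt N) :
    |∑ y, ∑ j, ip (F y j) (G y j)| ≤
      Real.sqrt (∑ y, ∑ j, ‖F y j‖ ^ 2) * Real.sqrt (∑ y, ∑ j, ‖G y j‖ ^ 2) := by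
  have := cs ((Finset.univ : Finset (Tor L)) ×ˢ (Finset.univ : Finset (Fin 2)))
    (fun p => F p.1 p.2) (fun p => G p.1 p.2)
  rwa [Finset.sum_product, Finset.sum_product, Finset.sum_product] at this

/-- the `L²` product -/
def II (u v : Tor L → Mt N) : ℝ := ∑ y, ip (u y) (v y)

/-- the product of the gradients -/
def DD (P Q : SU N) (u v : Tor L → Mt N) : ℝ :=
  ∑ y, ∑ j, ip (dd (vac P Q) u y j) (dd (vac P Q) v y j)

lemma II_comm (u v : Tor L → Mt N) : II u v = II v u :=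
  Finset.sum_congr rfl fun _ _ => ip_comm _ _

lemma II_self (u : Tor L → Mt N) : II u u = ∑ y, ‖u y‖ ^ 2 :=
  Finset.sum_congr rfl fun _ _ => (fr_sq _).symm

lemma DD_self (P Q : SU N) (u : Tor L → Mt N) :
    DD P Q u u = ∑ y, ∑ j, ‖dd (vac P Q) u y j‖ ^ 2 :=
  Finset.sum_congr rfl fun _ _ => Finset.sum_congr rfl fun _ _ => (fr_sq _).symm

lemma II_sub (u v w : Tor L → Mt N) : II (u - v) w = II u w - II v w := by
  unfold II
  rw [← Finset.sum_sub_distrib]
  exact Finset.sum_congr rfl fun y _ => ip_sub_left _ _ _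

lemma II_four (u a b c d : Tor L → Mt N) : II u (a + b - c - d) = II u a + II u b - II u c - II u d := by
  unfold II
  rw [← Finset.sum_add_distrib, ← Finset.sum_sub_distrib, ← Finset.sum_sub_distrib]
  refine Finset.sum_congr rfl fun y _ => ?_
  simp only [Pi.sub_apply, Pi.add_apply, ip_sub_right, ip_add]

lemma dd_sub (P Q : SU N) (u v : Tor L → Mt N) (y : Tor L) (j : Fin 2) :
    dd (vac P Q) (u - v) y j = dd (vac P Q) u y j - dd (vac P Q) v y j := by
  unfold dd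
  rw [Pi.sub_apply, Pi.sub_apply, adj_sub]
  abel

lemma dd_add (P Q : SU N) (u v : Tor L → Mt N) (y : Tor L) (j : Fin 2) :
    dd (vac P Q) (u + v) y j = dd (vac P Q) u y j + dd (vac P Q) v y j := by
  unfold dd
  rw [Pi.add_apply, Pi.add_apply, adj_add]
  abel

lemma dd_smul (P Q : SU N) (c : ℝ) (u : Tor L → Mt N) (y : Tor L) (j : Fin 2) :
    dd (vac P Q) (c • u) y j = c • dd (vac P Q) u y j := by
  unfold dd
  rw [Pi.smul_apply, Pi.smul_apply, adj_smulR, smul_sub]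

lemma dd_zero (P Q : SU N) (y : Tor L) (j : Fin 2) :
    dd (vac P Q) (0 : Tor L → Mt N) y j = 0 := by
  unfold dd
  simp [Adj]

lemma DD_sub (P Q : SU N) (u v w : Tor L → Mt N) : DD P Q (u - v) w = DD P Q u w - DD P Q v w := by
  unfold DD
  rw [← Finset.sum_sub_distrib]
  refine Finset.sum_congr rfl fun y _ => ?_
  rw [← Finset.sum_sub_distrib]
  refine Finset.sum_congr rfl fun j _ => ?_
  rw [dd_sub, ip_sub_left]

lemma DD_four (P Q : SU N) (u a b c d : Tor L → Mt N) :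
    DD P Q u (a + b - c - d) = DD P Q u a + DD P Q u b - DD P Q u c - DD P Q u d := by
  unfold DD
  rw [← Finset.sum_add_distrib, ← Finset.sum_sub_distrib, ← Finset.sum_sub_distrib]
  refine Finset.sum_congr rfl fun y _ => ?_
  rw [← Finset.sum_add_distrib, ← Finset.sum_sub_distrib, ← Finset.sum_sub_distrib]
  refine Finset.sum_congr rfl fun j _ => ?_
  rw [dd_sub, dd_sub, dd_add, ip_sub_right, ip_sub_right, ip_add]

lemma DD_smul (P Q : SU N) (c : ℝ) (u v : Tor L → Mt N) : DD P Q (c • u) v = c * DD P Q u v := by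
  unfold DD
  rw [Finset.mul_sum]
  refine Finset.sum_congr rfl fun y _ => ?_
  rw [Finset.mul_sum]
  refine Finset.sum_congr rfl fun j _ => ?_
  rw [dd_smul, ip_smul_left]

lemma II_smul_left (c : ℝ) (u v : Tor L → Mt N) : II (c • u) v = c * II u v := by
  unfold II
  rw [Finset.mul_sum]
  exact Finset.sum_congr rfl fun y _ => ip_smul_left _ _ _

lemma II_zero_right (u : Tor L → Mt N) : II u 0 = 0 :=
  Finset.sum_eq_zero fun _ _ => ip_zero_right _

lemma II_zero_left (u : Tor L → Mt N) : II 0 u = 0 :=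
  Finset.sum_eq_zero fun _ _ => ip_zero_left _

lemma DD_zero_left (P Q : SU N) (u : Tor L → Mt N) : DD P Q 0 u = 0 :=
  Finset.sum_eq_zero fun _ _ => Finset.sum_eq_zero fun _ _ => by rw [dd_zero, ip_zero_left]

lemma DD_zero_right (P Q : SU N) (u : Tor L → Mt N) : DD P Q u 0 = 0 :=
  Finset.sum_eq_zero fun _ _ => Finset.sum_eq_zero fun _ _ => by rw [dd_zero, ip_zero_right]

/-- summation by parts -/
lemma parts {V : Type*} [AddCommGroup V] (B : V → V → ℝ) (h1 : ∀ u v w, B (u - v) w = B u w - B v w)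
    (h2 : ∀ u a b c d, B u (a + b - c - d) = B u a + B u b - B u c - B u d)
    (Φ : Pl → V) (H0 H1 : Pl → V)
    (s0 : Summable fun x => B (Φ x) (H0 x)) (s0' : Summable fun x => B (Φ x) (H0 (x + (0, 1))))
    (s1 : Summable fun x => B (Φ x) (H1 x)) (s1' : Summable fun x => B (Φ x) (H1 (x + (1, 0)))) :
    ∑' x, B (Φ x) (H0 x + H1 (x + (1, 0)) - H1 x - H0 (x + (0, 1))) =
      ∑' x, (B (Φ x - Φ (x - (0, 1))) (H0 x) + B (Φ (x - (1, 0)) - Φ x) (H1 x)) := by
  have t0 : Summable fun x => B (Φ (x - (0, 1))) (H0 x) := by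
    have := (Equiv.addRight ((0, 1) : Pl)).summable_iff (f := fun x => B (Φ (x - (0, 1))) (H0 x))
    refine this.1 (s0'.congr fun x => ?_)
    simp
  have t1 : Summable fun x => B (Φ (x - (1, 0))) (H1 x) := by
    have := (Equiv.addRight ((1, 0) : Pl)).summable_iff (f := fun x => B (Φ (x - (1, 0))) (H1 x))
    refine this.1 (s1'.congr fun x => ?_)
    simp
  have e0 : ∑' x, B (Φ x) (H0 (x + (0, 1))) = ∑' x, B (Φ (x - (0, 1))) (H0 x) := by
    rw [← shift (fun x => B (Φ (x - (0, 1))) (H0 x)) (0, 1)]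
    simp only [add_sub_cancel_right]
  have e1 : ∑' x, B (Φ x) (H1 (x + (1, 0))) = ∑' x, B (Φ (x - (1, 0))) (H1 x) := by
    rw [← shift (fun x => B (Φ (x - (1, 0))) (H1 x)) (1, 0)]
    simp only [add_sub_cancel_right]
  simp only [h1, h2]
  rw [((s0.add s1').sub s1).tsum_sub s0', (s0.add s1').tsum_sub s1, s0.tsum_add s1', e0, e1,
    (s0.sub t0).tsum_add (t1.sub s1), s0.tsum_sub t0, t1.tsum_sub s1]
  ring

end PkgIs

end T2H02.TT
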