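import Pool.Agent.T2H02.TT.IsB

/-!
# Package Is, part C : the terms of the energy, the first order condition as a sum over the plane
-/

set_option autoImplicit false
set_option linter.unusedSectionVars false

noncomputable section

open MeasureTheory Matrix
open scoped Matrix.Norms.Frobenius

namespace T2H02.TT

namespace PkgIs

open PkgC PkgI1 PkgI1u

variable {N L : ℕ} [NeZero L]

/-! ### the forms of the terms -/

/-- the links in the direction `i` at `x` -/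
def pk (h : Lk L → Mt N) (x : Pl) (i : Fin 4) : Tor L → Mt N := fun y => h ((x, y), i)

/-- the plane plaquettes at `x` -/
def FF (h : Lk L → Mt N) (x : Pl) : Tor L → Mt N :=
  pk h x 0 + pk h (x + (1, 0)) 1 - pk h x 1 - pk h (x + (0, 1)) 0

lemma cu01 (P Q : SU N) (h : Lk L → Mt N) (x : Pl) (y : Tor L) :
    cu P Q h (x, y) 0 1 = FF h x y := by
  unfold cu FF pk
  rw [vc0, vc1, adj_one, adj_one, nx0, nx1]
  rfl

lemma bf3' (P Q : SU N) (x : Pl) (a h : Lk L → Mt N) :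
    bf P Q (x, 3) a h = II (FF h x) (FF a x) := by
  unfold bf II
  refine Finset.sum_congr rfl fun y _ => ?_
  simp [cu01, ip_comm (FF a x y)]

lemma bf0' (P Q : SU N) (x : Pl) (a h : Lk L → Mt N) :
    bf P Q (x, 0) a h = ∑ y, ip (cu P Q a (x, y) 2 3) (cu P Q h (x, y) 2 3) := by
  unfold bf
  refine Finset.sum_congr rfl fun y _ => ?_
  rw [if_pos rfl]

/-- a mixed plaquette -/
def mx (P Q : SU N) (a : Lk L → Mt N) (x : Pl) (i : Fin 4) (y : Tor L) (j : Fin 2) : Mt N :=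
  (ta a (x + pe i) y j - ta a x y j) + dd (vac P Q) (pk a x i) y j

lemma cu_mx0 (P Q : SU N) (a : Lk L → Mt N) (x : Pl) (i : Fin 4) (hi : i = 0 ∨ i = 1)
    (y : Tor L) : cu P Q a (x, y) i 2 = mx P Q a x i y 0 := by
  have hnx : ∀ y : Tor L, nx (x, y) i = (x + pe i, y) := by
    intro y
    rcases hi with rfl | rfl
    · rw [nx0]; rfl
    · rw [nx1]; rfl
  have hvc : ∀ y : Tor L, vc P Q ((x, y), i) = 1 := by
    intro y
    rcases hi with rfl | rfl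
    · exact vc0 _ _ _
    · exact vc1 _ _ _
  unfold mx dd cu pk
  rw [hvc, adj_one, hnx, vc2, nx2, ta0, ta0]
  abel

lemma cu_mx1 (P Q : SU N) (a : Lk L → Mt N) (x : Pl) (i : Fin 4) (hi : i = 0 ∨ i = 1)
    (y : Tor L) : cu P Q a (x, y) i 3 = mx P Q a x i y 1 := by
  have hnx : ∀ y : Tor L, nx (x, y) i = (x + pe i, y) := by
    intro y
    rcases hi with rfl | rfl
    · rw [nx0]; rfl
    · rw [nx1]; rfl
  have hvc : ∀ y : Tor L, vc P Q ((x, y), i) = 1 := by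
    intro y
    rcases hi with rfl | rfl
    · exact vc0 _ _ _
    · exact vc1 _ _ _
  unfold mx dd cu pk
  rw [hvc, adj_one, hnx, vc3, nx3, ta1, ta1]
  abel

lemma bf1' (P Q : SU N) (x : Pl) (a h : Lk L → Mt N) :
    bf P Q (x, 1) a h = ∑ y, ∑ j, ip (mx P Q a x 0 y j) (mx P Q h x 0 y j) := by
  unfold bf
  refine Finset.sum_congr rfl fun y _ => ?_
  rw [Fin.sum_univ_two, ← cu_mx0 P Q a x 0 (Or.inl rfl), ← cu_mx0 P Q h x 0 (Or.inl rfl),
    ← cu_mx1 P Q a x 0 (Or.inl rfl), ← cu_mx1 P Q h x 0 (Or.inl rfl)]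
  simp

lemma bf2' (P Q : SU N) (x : Pl) (a h : Lk L → Mt N) :
    bf P Q (x, 2) a h = ∑ y, ∑ j, ip (mx P Q a x 1 y j) (mx P Q h x 1 y j) := by
  unfold bf
  refine Finset.sum_congr rfl fun y _ => ?_
  rw [Fin.sum_univ_two, ← cu_mx0 P Q a x 1 (Or.inr rfl), ← cu_mx0 P Q h x 1 (Or.inr rfl),
    ← cu_mx1 P Q a x 1 (Or.inr rfl), ← cu_mx1 P Q h x 1 (Or.inr rfl)]
  simp

lemma bf_zero_left (P Q : SU N) (τ : Tm) (a h : Lk L → Mt N)
    (h0 : ∀ l ∈ (spt τ : Finset (Lk L)), a l = 0) : bf P Q τ a h = 0 := by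
  rw [PkgI.bf_eq]
  refine Finset.sum_eq_zero fun y _ => Finset.sum_eq_zero fun ij hij => ?_
  rw [PkgI.cu_congr P Q τ a 0 (fun l hl => by rw [h0 l hl]; rfl) y ij hij]
  have : cu P Q (0 : Lk L → Mt N) (τ.1, y) ij.1 ij.2 = 0 := by
    unfold cu
    simp [Adj]
  rw [this, ip_zero_left]

/-- the first order condition as a sum over the plane -/
lemma FO (P Q : SU N) (Λ : Finset Pl) (h : Lk L → Mt N)
    (hfo : ∀ a : Lk L → Mt N, (∀ l, a l ∈ su N) → (∀ l, l ∉ Frl L Λ → a l = 0) →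
        ∑ τ ∈ tml Λ, bf P Q τ a h = 0) (a : Lk L → Mt N) (ha : ∀ l, a l ∈ su N)
    (ha0 : ∀ l, l ∉ Frl L Λ → a l = 0) :
    (∀ i, Summable fun x => bf P Q (x, i) a h) ∧
    ∑' x, (bf P Q (x, 0) a h + bf P Q (x, 1) a h + bf P Q (x, 2) a h + bf P Q (x, 3) a h) = 0 := by
  have h0 : ∀ τ, τ ∉ tml Λ → bf P Q τ a h = 0 := by
    intro τ hτ
    refine bf_zero_left P Q τ a h fun l hl => ha0 l fun hl' => hτ ?_
    rw [mem_Frl] at hl'
    obtain ⟨c, hc, hcΛ⟩ := hl'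
    rw [mem_tml]
    exact ⟨c, PkgI.st_sub hl hc, hcΛ⟩
  obtain ⟨S, hS⟩ : ∃ S : Finset Pl, S = (tml Λ).image Prod.fst := ⟨_, rfl⟩
  have hS0 : ∀ x, x ∉ S → ∀ i, bf P Q (x, i) a h = 0 := by
    intro x hx i
    refine h0 _ fun h1 => hx ?_
    rw [hS]
    exact Finset.mem_image.2 ⟨_, h1, rfl⟩
  refine ⟨fun i => summable_of_ne_finset_zero (s := S) fun x hx => hS0 x hx i, ?_⟩
  rw [tsum_eq_sum (s := S) fun x hx => by rw [hS0 x hx, hS0 x hx, hS0 x hx, hS0 x hx]; ring]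
  have h1 := hfo a ha ha0
  have h2 : ∑ τ ∈ tml Λ, bf P Q τ a h = ∑ τ ∈ S ×ˢ (Finset.univ : Finset (Fin 4)), bf P Q τ a h := by
    refine Finset.sum_subset ?_ fun τ _ hτ => h0 τ hτ
    intro τ hτ
    rw [Finset.mem_product, hS]
    exact ⟨Finset.mem_image.2 ⟨τ, hτ, rfl⟩, Finset.mem_univ _⟩
  rw [h2, Finset.sum_product] at h1
  rw [← h1]
  refine Finset.sum_congr rfl fun x _ => ?_
  rw [Fin.sum_univ_four]

end PkgIs

end T2H02.TT
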