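import Pool.Agent.T2H02.TT.IsC

/-!
# Package Is, part D : the torus links
-/

set_option autoImplicit false
set_option linter.unusedSectionVars false

noncomputable section

open MeasureTheory Matrix
open scoped Matrix.Norms.Frobenius

namespace T2H02.TT

namespace PkgIs

open PkgC PkgI1 PkgI1u

variable {N L : ℕ} [NeZero L]

lemma su_smul (c : ℝ) {M : Mt N} (h : M ∈ su N) : c • M ∈ su N := (suS N).smul_mem c h

lemma su_add {A B : Mt N} (hA : A ∈ su N) (hB : B ∈ su N) : A + B ∈ su N := (suS N).add_mem hA hB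

/-! ### the torus links -/

/-- the norm of the torus components at `x` -/
def tt (h : Lk L → Mt N) (x : Pl) : ℝ := Real.sqrt (∑ y, ∑ j, ‖ta h x y j‖ ^ 2)

lemma mixed_lower (P Q : SU N) (h a : Lk L → Mt N) (hsu : ∀ l, h l ∈ su N) (w : Pl → ℝ)
    (hta : ∀ x y j, ta a x y j = w x ^ 2 • ta h x y j) (x : Pl) (i : Fin 4) (hpk : pk a x i = 0)
    (hc : w x ≠ 0 → Cou P Q (ta h x)) (hc' : w (x + pe i) ≠ 0 → Cou P Q (ta h (x + pe i))) :
    -((w (x + pe i) - w x) ^ 2 * tt h x * tt h (x + pe i)) ≤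
      ∑ y, ∑ j, ip (mx P Q a x i y j) (mx P Q h x i y j) := by
  have k1 : w x ^ 2 * ∑ y, ∑ j, ip (ta h x y j) (dd (vac P Q) (pk h x i) y j) = 0 := by
    by_cases h0 : w x = 0
    · rw [h0]; ring
    · rw [hc h0 (pk h x i) fun y => hsu _, mul_zero]
  have k2 : w (x + pe i) ^ 2 * ∑ y, ∑ j, ip (ta h (x + pe i) y j)
      (dd (vac P Q) (pk h x i) y j) = 0 := by
    by_cases h0 : w (x + pe i) = 0
    · rw [h0]; ring
    · rw [hc' h0 (pk h x i) fun y => hsu _, mul_zero]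
  have e1 : ∑ y, ∑ j, ip (mx P Q a x i y j) (mx P Q h x i y j) =
      ∑ y, ∑ j, ‖w (x + pe i) • ta h (x + pe i) y j - w x • ta h x y j‖ ^ 2 -
        (w (x + pe i) - w x) ^ 2 * ∑ y, ∑ j, ip (ta h x y j) (ta h (x + pe i) y j) +
        (w (x + pe i) ^ 2 * ∑ y, ∑ j, ip (ta h (x + pe i) y j) (dd (vac P Q) (pk h x i) y j) -
          w x ^ 2 * ∑ y, ∑ j, ip (ta h x y j) (dd (vac P Q) (pk h x i) y j)) := by
    rw [Finset.mul_sum, Finset.mul_sum, Finset.mul_sum, ← Finset.sum_sub_distrib,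
      ← Finset.sum_sub_distrib, ← Finset.sum_add_distrib]
    refine Finset.sum_congr rfl fun y _ => ?_
    rw [Finset.mul_sum, Finset.mul_sum, Finset.mul_sum, ← Finset.sum_sub_distrib,
      ← Finset.sum_sub_distrib, ← Finset.sum_add_distrib]
    refine Finset.sum_congr rfl fun j _ => ?_
    unfold mx
    rw [hpk, dd_zero, add_zero, hta, hta, fr_sq]
    simp only [ip_add, ip_sub_left, ip_sub_right, ip_smul, ip_smul_left]
    rw [ip_comm (ta h (x + pe i) y j) (ta h x y j)]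
    ring
  rw [e1, k1, k2]
  have h1 : 0 ≤ ∑ y, ∑ j, ‖w (x + pe i) • ta h (x + pe i) y j - w x • ta h x y j‖ ^ 2 := by
    positivity
  have h2 := (abs_le.1 (cs2 (ta h x) (ta h (x + pe i)))).2
  have h3 := mul_le_mul_of_nonneg_left h2 (sq_nonneg (w (x + pe i) - w x))
  unfold tt
  linarith

lemma torus_main (P Q : SU N) (Λ : Finset Pl) (h : Lk L → Mt N) (hsu : ∀ l, h l ∈ su N)
    (hfo : ∀ a : Lk L → Mt N, (∀ l, a l ∈ su N) → (∀ l, l ∉ Frl L Λ → a l = 0) →
        ∑ τ ∈ tml Λ, bf P Q τ a h = 0) (b : Pl) (R : ℕ) (ρ : ℝ)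
    (hz : ∀ l, l ∉ Frl L Λ → (∀ c ∈ st l, ds b c ≤ R + 3) → h l = 0)
    (hcou : ∀ x, ds b x ≤ R + 3 → Cou P Q (ta h x)) :
    ∑' x, wt' b R ρ x ^ 2 * ∑ y, ‖cu P Q h (x, y) 2 3‖ ^ 2 ≤
      ∑' x, ((wt' b R ρ (x + (1, 0)) - wt' b R ρ x) ^ 2 * tt h x * tt h (x + (1, 0)) +
        (wt' b R ρ (x + (0, 1)) - wt' b R ρ x) ^ 2 * tt h x * tt h (x + (0, 1))) := by
  obtain ⟨w, hw⟩ : ∃ w, w = wt' b R ρ := ⟨_, rfl⟩
  rw [← hw]
  have hw0 : ∀ x, ¬ ds b x ≤ R → w x = 0 := fun x hx => by rw [hw]; exact wt'_zero hx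
  have hwc : ∀ x, w x ≠ 0 → Cou P Q (ta h x) := fun x hx => by
    by_cases hx' : ds b x ≤ R
    · exact hcou x (by omega)
    · exact absurd (hw0 x hx') hx
  obtain ⟨a, ha⟩ : ∃ a : Lk L → Mt N, a = fun l =>
    if l.2 = 2 ∨ l.2 = 3 then w l.1.1 ^ 2 • h l else 0 := ⟨_, rfl⟩
  have ha1 : ∀ l, a l ∈ su N := by
    intro l
    rw [ha]
    simp only
    split_ifs
    · exact su_smul _ (hsu l)
    · exact PkgI1.su_zero
  have ha2 : ∀ l, l ∉ Frl L Λ → a l = 0 := by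
    intro l hl
    rw [ha]
    simp only
    split_ifs with hi
    · by_cases hx : ds b l.1.1 ≤ R
      · rw [hz l hl, smul_zero]
        intro c hc
        have : c = l.1.1 := by
          rw [mem_st] at hc
          rcases hc with rfl | rfl
          · rfl
          · rcases hi with hi | hi <;> rw [hi] <;> simp [pe, h00]
        rw [this]
        omega
      · rw [hw0 _ hx]
        simp
    · rfl
  have hta : ∀ x y j, ta a x y j = w x ^ 2 • ta h x y j := by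
    intro x y j
    fin_cases j
    · change ta a x y 0 = _
      rw [ta0, ha]
      simp [ta0]
    · change ta a x y 1 = _
      rw [ta1, ha]
      simp [ta1]
  have hpk : ∀ x i, i = 0 ∨ i = 1 → pk a x i = 0 := by
    intro x i hi
    funext y
    unfold pk
    rw [ha]
    rcases hi with rfl | rfl <;> simp
  have hFF : ∀ x, FF a x = 0 := by
    intro x
    unfold FF
    rw [hpk _ _ (Or.inl rfl), hpk _ _ (Or.inl rfl), hpk _ _ (Or.inr rfl), hpk _ _ (Or.inr rfl)]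
    simp
  obtain ⟨hs, hF⟩ := FO P Q Λ h hfo a ha1 ha2
  have e0 : ∀ x, bf P Q (x, 0) a h = w x ^ 2 * ∑ y, ‖cu P Q h (x, y) 2 3‖ ^ 2 := by
    intro x
    rw [bf0', Finset.mul_sum]
    refine Finset.sum_congr rfl fun y _ => ?_
    have : cu P Q a (x, y) 2 3 = w x ^ 2 • cu P Q h (x, y) 2 3 := by
      rw [← crl_ta, ← crl_ta]
      unfold crl
      rw [hta, hta, hta, hta, adj_smulR, adj_smulR]
      simp only [smul_add, smul_sub]
    rw [this, ip_smul_left, fr_sq]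
  have e1 : ∀ x, -((w (x + (1, 0)) - w x) ^ 2 * tt h x * tt h (x + (1, 0))) ≤
      bf P Q (x, 1) a h := by
    intro x
    rw [bf1']
    exact mixed_lower P Q h a hsu w hta x 0 (hpk x 0 (Or.inl rfl)) (hwc x) (hwc _)
  have e2 : ∀ x, -((w (x + (0, 1)) - w x) ^ 2 * tt h x * tt h (x + (0, 1))) ≤
      bf P Q (x, 2) a h := by
    intro x
    rw [bf2']
    exact mixed_lower P Q h a hsu w hta x 1 (hpk x 1 (Or.inr rfl)) (hwc x) (hwc _)
  have e3 : ∀ x, bf P Q (x, 3) a h = 0 := by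
    intro x
    rw [bf3', hFF, II_zero_right]
  have sm0 : Summable fun x => w x ^ 2 * ∑ y, ‖cu P Q h (x, y) 2 3‖ ^ 2 :=
    smb b R fun x hx => by rw [hw0 x hx]; ring
  have smB : Summable fun x => (w (x + (1, 0)) - w x) ^ 2 * tt h x * tt h (x + (1, 0)) +
        (w (x + (0, 1)) - w x) ^ 2 * tt h x * tt h (x + (0, 1)) := by
    refine smb b (R + 1) fun x hx => ?_
    rw [hw0 x (by omega), hw0 (x + (1, 0)) (by have := ds_add0 b x; omega),
      hw0 (x + (0, 1)) (by have := ds_add1 b x; omega)]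
    ring
  have h1 : ∑' x, (w x ^ 2 * ∑ y, ‖cu P Q h (x, y) 2 3‖ ^ 2 -
      ((w (x + (1, 0)) - w x) ^ 2 * tt h x * tt h (x + (1, 0)) +
        (w (x + (0, 1)) - w x) ^ 2 * tt h x * tt h (x + (0, 1)))) ≤
      ∑' x, (bf P Q (x, 0) a h + bf P Q (x, 1) a h + bf P Q (x, 2) a h + bf P Q (x, 3) a h) := by
    refine Summable.tsum_le_tsum (fun x => ?_) (sm0.sub smB)
      ((((hs 0).add (hs 1)).add (hs 2)).add (hs 3))
    have := e1 x
    have := e2 x
    rw [e0, e3]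
    linarith
  rw [hF, sm0.tsum_sub smB] at h1
  linarith

end PkgIs

end T2H02.TT
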