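import Pool.Agent.T2H02.TT.IsD

/-!
# Package Is, part E : the plane plaquettes
-/

set_option autoImplicit false
set_option linter.unusedSectionVars false

noncomputable section

open MeasureTheory Matrix
open scoped Matrix.Norms.Frobenius

namespace T2H02.TT

namespace PkgIs

open PkgC PkgI1 PkgI1u

variable {N L : ℕ} [NeZero L]

/-! ### the plane links -/

lemma mem_Frl' (Λ : Finset Pl) (x : Pl) (y : Tor L) (i : Fin 4) :
    (((x, y), i) : Lk L) ∈ Frl L Λ ↔ x ∈ Λ ∨ x + pe i ∈ Λ := by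
  rw [mem_Frl]
  simp only [mem_st]
  constructor
  · rintro ⟨c, rfl | rfl, hc⟩
    · exact Or.inl hc
    · exact Or.inr hc
  · rintro (h | h)
    · exact ⟨_, Or.inl rfl, h⟩
    · exact ⟨_, Or.inr rfl, h⟩

lemma FOplane (P Q : SU N) (Λ : Finset Pl) (h : Lk L → Mt N)
    (hfo : ∀ a : Lk L → Mt N, (∀ l, a l ∈ su N) → (∀ l, l ∉ Frl L Λ → a l = 0) →
        ∑ τ ∈ tml Λ, bf P Q τ a h = 0) (a : Lk L → Mt N) (ha1 : ∀ l, a l ∈ su N)
    (ha2 : ∀ l, l ∉ Frl L Λ → a l = 0) (ha3 : ∀ l : Lk L, l.2 = 2 ∨ l.2 = 3 → a l = 0)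
    (hend : ∀ x i, (i = 0 ∨ i = 1) → pk a x i ≠ 0 →
      Cou P Q (ta h x) ∧ Cou P Q (ta h (x + pe i))) :
    (Summable fun x => DD P Q (pk a x 0) (pk h x 0) + DD P Q (pk a x 1) (pk h x 1)) ∧
    (Summable fun x => II (FF h x - FF h (x - (0, 1))) (pk a x 0) +
      II (FF h (x - (1, 0)) - FF h x) (pk a x 1)) ∧
    ∑' x, (DD P Q (pk a x 0) (pk h x 0) + DD P Q (pk a x 1) (pk h x 1)) +
      ∑' x, (II (FF h x - FF h (x - (0, 1))) (pk a x 0) +
        II (FF h (x - (1, 0)) - FF h x) (pk a x 1)) = 0 := by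
  have hta : ∀ x y j, ta a x y j = 0 := by
    intro x y j
    fin_cases j
    · exact (ta0 a x y).trans (ha3 _ (Or.inl rfl))
    · exact (ta1 a x y).trans (ha3 _ (Or.inr rfl))
  obtain ⟨hs, hF⟩ := FO P Q Λ h hfo a ha1 ha2
  have e0 : ∀ x, bf P Q (x, 0) a h = 0 := by
    intro x
    rw [bf0']
    refine Finset.sum_eq_zero fun y _ => ?_
    rw [← crl_ta]
    unfold crl
    rw [hta, hta, hta, hta]
    simp [Adj, ip_zero_left]
  have key : ∀ x i, (i = 0 ∨ i = 1) → ∑ y, ∑ j, ip (mx P Q a x i y j) (mx P Q h x i y j) =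
      DD P Q (pk a x i) (pk h x i) := by
    intro x i hi
    have e1 : ∀ y j, mx P Q a x i y j = dd (vac P Q) (pk a x i) y j := by
      intro y j
      unfold mx
      rw [hta, hta, sub_zero, zero_add]
    by_cases h0 : pk a x i = 0
    · rw [h0, DD_zero_left]
      refine Finset.sum_eq_zero fun y _ => Finset.sum_eq_zero fun j _ => ?_
      rw [e1, h0, dd_zero, ip_zero_left]
    · obtain ⟨c1, c2⟩ := hend x i hi h0
      have k1 := c1 (pk a x i) fun y => ha1 _
      have k2 := c2 (pk a x i) fun y => ha1 _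
      have e2 : ∑ y, ∑ j, ip (mx P Q a x i y j) (mx P Q h x i y j) =
          ∑ y, ∑ j, ip (ta h (x + pe i) y j) (dd (vac P Q) (pk a x i) y j) -
          ∑ y, ∑ j, ip (ta h x y j) (dd (vac P Q) (pk a x i) y j) + DD P Q (pk a x i) (pk h x i) := by
        unfold DD
        rw [← Finset.sum_sub_distrib, ← Finset.sum_add_distrib]
        refine Finset.sum_congr rfl fun y _ => ?_
        rw [← Finset.sum_sub_distrib, ← Finset.sum_add_distrib]
        refine Finset.sum_congr rfl fun j _ => ?_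
        rw [e1]
        unfold mx
        rw [ip_add, ip_sub_right, ip_comm _ (ta h (x + pe i) y j), ip_comm _ (ta h x y j)]
      rw [e2, k1, k2]
      ring
  obtain ⟨S, hS⟩ : ∃ S : Finset Pl, S = (Frl L Λ).image (fun l => l.1.1) := ⟨_, rfl⟩
  have hS0 : ∀ x, x ∉ S → ∀ i, pk a x i = 0 := by
    intro x hx i
    funext y
    refine ha2 _ fun h1 => hx ?_
    rw [hS]
    exact Finset.mem_image.2 ⟨_, h1, rfl⟩
  have hSe : ∀ x e, x ∉ S.image (fun z => z - e) → ∀ i, pk a (x + e) i = 0 := by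
    intro x e hx i
    refine hS0 _ (fun h1 => hx ?_) i
    exact Finset.mem_image.2 ⟨_, h1, by simp⟩
  have s0 : Summable fun x => II (FF h x) (pk a x 0) :=
    summable_of_ne_finset_zero (s := S) fun x hx => by rw [hS0 x hx, II_zero_right]
  have s0' : Summable fun x => II (FF h x) (pk a (x + (0, 1)) 0) :=
    summable_of_ne_finset_zero (s := S.image fun z => z - (0, 1)) fun x hx => by
      rw [hSe x _ hx, II_zero_right]
  have s1 : Summable fun x => II (FF h x) (pk a x 1) :=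
    summable_of_ne_finset_zero (s := S) fun x hx => by rw [hS0 x hx, II_zero_right]
  have s1' : Summable fun x => II (FF h x) (pk a (x + (1, 0)) 1) :=
    summable_of_ne_finset_zero (s := S.image fun z => z - (1, 0)) fun x hx => by
      rw [hSe x _ hx, II_zero_right]
  have hp := parts II II_sub II_four (FF h) (fun x => pk a x 0) (fun x => pk a x 1) s0 s0' s1 s1'
  have sD : Summable fun x => DD P Q (pk a x 0) (pk h x 0) + DD P Q (pk a x 1) (pk h x 1) :=
    summable_of_ne_finset_zero (s := S) fun x hx => by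
      rw [hS0 x hx, hS0 x hx, DD_zero_left, DD_zero_left, add_zero]
  have sI : Summable fun x => II (FF h x - FF h (x - (0, 1))) (pk a x 0) +
      II (FF h (x - (1, 0)) - FF h x) (pk a x 1) :=
    summable_of_ne_finset_zero (s := S) fun x hx => by
      rw [hS0 x hx, hS0 x hx, II_zero_right, II_zero_right, add_zero]
  refine ⟨sD, sI, ?_⟩
  have e3 : ∀ x, bf P Q (x, 0) a h + bf P Q (x, 1) a h + bf P Q (x, 2) a h + bf P Q (x, 3) a h =
      (DD P Q (pk a x 0) (pk h x 0) + DD P Q (pk a x 1) (pk h x 1)) + II (FF h x)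
        (pk a x 0 + pk a (x + (1, 0)) 1 - pk a x 1 - pk a (x + (0, 1)) 0) := by
    intro x
    rw [e0, bf1', bf2', bf3', key x 0 (Or.inl rfl), key x 1 (Or.inr rfl), zero_add]
    rfl
  simp only [e3] at hF
  have s3 : Summable fun x => II (FF h x)
      (pk a x 0 + pk a (x + (1, 0)) 1 - pk a x 1 - pk a (x + (0, 1)) 0) := by
    simp only [II_four]
    exact ((s0.add s1').sub s1).sub s0'
  rw [sD.tsum_add s3, hp] at hF
  exact hF

/-- the norm of the plane plaquettes at `x` -/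
def tf (h : Lk L → Mt N) (x : Pl) : ℝ := Real.sqrt (∑ y, ‖FF h x y‖ ^ 2)

lemma II_lower (h : Lk L → Mt N) (w : Pl → ℝ) (x x' : Pl) :
    -((w x - w x') ^ 2 * tf h x * tf h x') ≤
      II (FF h x - FF h x') (w x ^ 2 • FF h x - w x' ^ 2 • FF h x') := by
  have e1 : II (FF h x - FF h x') (w x ^ 2 • FF h x - w x' ^ 2 • FF h x') =
      ∑ y, ‖w x • FF h x y - w x' • FF h x' y‖ ^ 2 -
        (w x - w x') ^ 2 * ∑ y, ip (FF h x y) (FF h x' y) := by
    unfold II
    rw [Finset.mul_sum, ← Finset.sum_sub_distrib]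
    refine Finset.sum_congr rfl fun y _ => ?_
    rw [fr_sq]
    simp only [Pi.sub_apply, Pi.smul_apply, ip_sub_left, ip_sub_right, ip_smul, ip_smul_left]
    rw [ip_comm (FF h x' y) (FF h x y)]
    ring
  have h1 : 0 ≤ ∑ y, ‖w x • FF h x y - w x' • FF h x' y‖ ^ 2 := by positivity
  have h2 := (abs_le.1 (cs Finset.univ (FF h x) (FF h x'))).2
  have h3 := mul_le_mul_of_nonneg_left h2 (sq_nonneg (w x - w x'))
  rw [e1]
  unfold tf
  linarith

lemma FF_su (h : Lk L → Mt N) (hsu : ∀ l, h l ∈ su N) (x : Pl) (y : Tor L) : FF h x y ∈ su N := by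
  unfold FF pk
  exact PkgI1.su_sub (PkgI1.su_sub (su_add (hsu _) (hsu _)) (hsu _)) (hsu _)

lemma plane_main (P Q : SU N) (Λ : Finset Pl) (h : Lk L → Mt N) (hsu : ∀ l, h l ∈ su N)
    (hfo : ∀ a : Lk L → Mt N, (∀ l, a l ∈ su N) → (∀ l, l ∉ Frl L Λ → a l = 0) →
        ∑ τ ∈ tml Λ, bf P Q τ a h = 0) (b : Pl) (R : ℕ) (ρ : ℝ)
    (hz : ∀ l, l ∉ Frl L Λ → (∀ c ∈ st l, ds b c ≤ R + 3) → h l = 0)
    (hcou : ∀ x, ds b x ≤ R + 3 → Cou P Q (ta h x)) :
    ∑' x, wt' b R ρ x ^ 2 * ∑ y, ∑ j, ‖dd (vac P Q) (FF h x) y j‖ ^ 2 ≤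
      ∑' x, ((wt' b R ρ (x + (1, 0)) - wt' b R ρ x) ^ 2 * tf h x * tf h (x + (1, 0)) +
        (wt' b R ρ (x + (0, 1)) - wt' b R ρ x) ^ 2 * tf h x * tf h (x + (0, 1))) := by
  classical
  obtain ⟨w, hw⟩ : ∃ w, w = wt' b R ρ := ⟨_, rfl⟩
  rw [← hw]
  have hw0 : ∀ x, ¬ ds b x ≤ R → w x = 0 := fun x hx => by rw [hw]; exact wt'_zero hx
  obtain ⟨Φ, hΦ⟩ : ∃ Φ : Pl → Tor L → Mt N, Φ = fun x => w x ^ 2 • FF h x := ⟨_, rfl⟩
  have hΦ0 : ∀ x, ¬ ds b x ≤ R → Φ x = 0 := fun x hx => by rw [hΦ]; simp [hw0 x hx]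
  have hΦsu : ∀ x y, Φ x y ∈ su N := fun x y => by
    rw [hΦ]; exact su_smul _ (FF_su h hsu x y)
  obtain ⟨a, ha⟩ : ∃ a : Lk L → Mt N, a = fun l => if l ∈ Frl L Λ then
    (if l.2 = 0 then (Φ l.1.1 - Φ (l.1.1 - (0, 1))) l.1.2 else
      if l.2 = 1 then (Φ (l.1.1 - (1, 0)) - Φ l.1.1) l.1.2 else 0) else 0 := ⟨_, rfl⟩
  have ha1 : ∀ l, a l ∈ su N := by
    intro l
    rw [ha]
    simp only
    split_ifs
    · exact PkgI1.su_sub (hΦsu _ _) (hΦsu _ _)
    · exact PkgI1.su_sub (hΦsu _ _) (hΦsu _ _)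
    · exact PkgI1.su_zero
    · exact PkgI1.su_zero
  have ha2 : ∀ l, l ∉ Frl L Λ → a l = 0 := by
    intro l hl
    rw [ha]
    simp only
    rw [if_neg hl]
  have ha3 : ∀ l : Lk L, l.2 = 2 ∨ l.2 = 3 → a l = 0 := by
    intro l hl
    rw [ha]
    simp only
    rcases hl with hl | hl <;> rw [hl] <;> simp
  have hp0 : ∀ x, pk a x 0 = if x ∈ Λ ∨ x + pe 0 ∈ Λ then Φ x - Φ (x - (0, 1)) else 0 := by
    intro x
    funext y
    unfold pk
    rw [ha]
    simp only [mem_Frl', if_true]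
    split_ifs <;> rfl
  have hp1 : ∀ x, pk a x 1 = if x ∈ Λ ∨ x + pe 1 ∈ Λ then Φ (x - (1, 0)) - Φ x else 0 := by
    intro x
    funext y
    unfold pk
    rw [ha]
    simp only [mem_Frl']
    split_ifs <;> first | rfl | simp_all
  -- the ends of the links
  have hnear0 : ∀ x, Φ x - Φ (x - (0, 1)) ≠ 0 → ds b x ≤ R + 1 := by
    intro x hx
    by_contra hc
    apply hx
    rw [hΦ0 x (by omega), hΦ0 (x - (0, 1)) (by have := ds_sub1 b x; omega), sub_zero]
  have hnear1 : ∀ x, Φ (x - (1, 0)) - Φ x ≠ 0 → ds b x ≤ R + 1 := by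
    intro x hx
    by_contra hc
    apply hx
    rw [hΦ0 x (by omega), hΦ0 (x - (1, 0)) (by have := ds_sub0 b x; omega), sub_zero]
  have hpe : ∀ x (i : Fin 4), i = 0 ∨ i = 1 → ds b x ≤ R + 1 → ds b (x + pe i) ≤ R + 2 := by
    intro x i hi hx
    rcases hi with rfl | rfl
    · have := ds_add0 b x
      change ds b (x + (1, 0)) ≤ R + 2
      omega
    · have := ds_add1 b x
      change ds b (x + (0, 1)) ≤ R + 2
      omega
  have hend : ∀ x i, (i = 0 ∨ i = 1) → pk a x i ≠ 0 →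
      Cou P Q (ta h x) ∧ Cou P Q (ta h (x + pe i)) := by
    intro x i hi hne
    have hx : ds b x ≤ R + 1 := by
      rcases hi with rfl | rfl
      · refine hnear0 x fun h0 => hne ?_
        rw [hp0, h0]
        simp
      · refine hnear1 x fun h0 => hne ?_
        rw [hp1, h0]
        simp
    exact ⟨hcou x (by omega), hcou _ (by have := hpe x i hi hx; omega)⟩
  obtain ⟨sD, sI, hF⟩ := FOplane P Q Λ h hfo a ha1 ha2 ha3 hend
  -- links that are not free
  have hnf : ∀ x (i : Fin 4), i = 0 ∨ i = 1 → ds b x ≤ R + 1 → ¬ (x ∈ Λ ∨ x + pe i ∈ Λ) →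
      pk h x i = 0 := by
    intro x i hi hx hn
    funext y
    unfold pk
    refine hz _ (fun h1 => hn ((mem_Frl' Λ x y i).1 h1)) fun c hc => ?_
    rw [mem_st] at hc
    have := hpe x i hi hx
    rcases hc with hc | hc
    · rw [hc]
      change ds b x ≤ R + 3
      omega
    · rw [hc]
      change ds b (x + pe i) ≤ R + 3
      omega
  have eD : ∀ x, DD P Q (pk a x 0) (pk h x 0) + DD P Q (pk a x 1) (pk h x 1) =
      DD P Q (Φ x - Φ (x - (0, 1))) (pk h x 0) + DD P Q (Φ (x - (1, 0)) - Φ x) (pk h x 1) := by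
    intro x
    have c0 : DD P Q (pk a x 0) (pk h x 0) = DD P Q (Φ x - Φ (x - (0, 1))) (pk h x 0) := by
      rw [hp0]
      split_ifs with hc
      · rfl
      · by_cases h0 : Φ x - Φ (x - (0, 1)) = 0
        · rw [h0]
        · rw [hnf x 0 (Or.inl rfl) (hnear0 x h0) hc, DD_zero_right, DD_zero_right]
    have c1 : DD P Q (pk a x 1) (pk h x 1) = DD P Q (Φ (x - (1, 0)) - Φ x) (pk h x 1) := by
      rw [hp1]
      split_ifs with hc
      · rfl
      · by_cases h0 : Φ (x - (1, 0)) - Φ x = 0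
        · rw [h0]
        · rw [hnf x 1 (Or.inr rfl) (hnear1 x h0) hc, DD_zero_right, DD_zero_right]
    rw [c0, c1]
  have hpp := parts (DD P Q) (DD_sub P Q) (DD_four P Q) Φ (fun x => pk h x 0) (fun x => pk h x 1)
    (smb b R fun x hx => by rw [hΦ0 x hx, DD_zero_left])
    (smb b R fun x hx => by rw [hΦ0 x hx, DD_zero_left])
    (smb b R fun x hx => by rw [hΦ0 x hx, DD_zero_left])
    (smb b R fun x hx => by rw [hΦ0 x hx, DD_zero_left])
  have e1 : ∑' x, (DD P Q (pk a x 0) (pk h x 0) + DD P Q (pk a x 1) (pk h x 1)) =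
      ∑' x, w x ^ 2 * ∑ y, ∑ j, ‖dd (vac P Q) (FF h x) y j‖ ^ 2 := by
    simp only [eD]
    rw [← hpp]
    refine tsum_congr fun x => ?_
    change DD P Q (Φ x) (FF h x) = _
    rw [hΦ]
    simp only
    rw [DD_smul, DD_self]
  have sB : Summable fun x => (w x - w (x - (0, 1))) ^ 2 * tf h x * tf h (x - (0, 1)) := by
    refine smb b (R + 1) fun x hx => ?_
    rw [hw0 x (by omega), hw0 (x - (0, 1)) (by have := ds_sub1 b x; omega)]
    ring
  have sB' : Summable fun x => (w (x - (1, 0)) - w x) ^ 2 * tf h (x - (1, 0)) * tf h x := by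
    refine smb b (R + 1) fun x hx => ?_
    rw [hw0 x (by omega), hw0 (x - (1, 0)) (by have := ds_sub0 b x; omega)]
    ring
  have h1 : ∑' x, (-((w x - w (x - (0, 1))) ^ 2 * tf h x * tf h (x - (0, 1)) +
      (w (x - (1, 0)) - w x) ^ 2 * tf h (x - (1, 0)) * tf h x)) ≤
      ∑' x, (II (FF h x - FF h (x - (0, 1))) (pk a x 0) +
        II (FF h (x - (1, 0)) - FF h x) (pk a x 1)) := by
    refine Summable.tsum_le_tsum (fun x => ?_) (sB.add sB').neg sI
    have tf0 : ∀ z, 0 ≤ tf h z := fun z => Real.sqrt_nonneg _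
    have c0 : -((w x - w (x - (0, 1))) ^ 2 * tf h x * tf h (x - (0, 1))) ≤
        II (FF h x - FF h (x - (0, 1))) (pk a x 0) := by
      rw [hp0]
      split_ifs
      · rw [hΦ]
        exact II_lower h w x (x - (0, 1))
      · rw [II_zero_right]
        have := mul_nonneg (mul_nonneg (sq_nonneg (w x - w (x - (0, 1)))) (tf0 x))
          (tf0 (x - (0, 1)))
        linarith
    have c1 : -((w (x - (1, 0)) - w x) ^ 2 * tf h (x - (1, 0)) * tf h x) ≤
        II (FF h (x - (1, 0)) - FF h x) (pk a x 1) := by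
      rw [hp1]
      split_ifs
      · rw [hΦ]
        exact II_lower h w (x - (1, 0)) x
      · rw [II_zero_right]
        have := mul_nonneg (mul_nonneg (sq_nonneg (w (x - (1, 0)) - w x)) (tf0 (x - (1, 0))))
          (tf0 x)
        linarith
    linarith
  have h2 : ∑' x, (-((w x - w (x - (0, 1))) ^ 2 * tf h x * tf h (x - (0, 1)) +
      (w (x - (1, 0)) - w x) ^ 2 * tf h (x - (1, 0)) * tf h x)) =
      -∑' x, ((w (x + (1, 0)) - w x) ^ 2 * tf h x * tf h (x + (1, 0)) +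
        (w (x + (0, 1)) - w x) ^ 2 * tf h x * tf h (x + (0, 1))) := by
    have t1 : Summable fun x => (w (x + (1, 0)) - w x) ^ 2 * tf h x * tf h (x + (1, 0)) := by
      refine smb b (R + 1) fun x hx => ?_
      rw [hw0 x (by omega), hw0 (x + (1, 0)) (by have := ds_add0 b x; omega)]
      ring
    have t2 : Summable fun x => (w (x + (0, 1)) - w x) ^ 2 * tf h x * tf h (x + (0, 1)) := by
      refine smb b (R + 1) fun x hx => ?_
      rw [hw0 x (by omega), hw0 (x + (0, 1)) (by have := ds_add1 b x; omega)]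
      ring
    rw [tsum_neg, sB.tsum_add sB', t1.tsum_add t2]
    rw [← shift (fun x => (w x - w (x - (0, 1))) ^ 2 * tf h x * tf h (x - (0, 1))) (0, 1),
      ← shift (fun x => (w (x - (1, 0)) - w x) ^ 2 * tf h (x - (1, 0)) * tf h x) (1, 0)]
    simp only [add_sub_cancel_right]
    rw [add_comm]
    congr 2
    · refine tsum_congr fun x => ?_
      ring
    · refine tsum_congr fun x => ?_
      ring
  rw [e1] at hF
  linarith

end PkgIs

end T2H02.TT
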