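import Pool.Agent.T2H02.TT.IsE

/-!
# Package Is, part F : the plane links, sums over families of links, the rate
-/

set_option autoImplicit false
set_option linter.unusedSectionVars false

noncomputable section

open MeasureTheory Matrix
open scoped Matrix.Norms.Frobenius

namespace T2H02.TT

namespace PkgIs

open PkgC PkgI1 PkgI1u

variable {N L : ℕ} [NeZero L]

lemma plane_end0 (P Q : SU N) (Λ : Finset Pl) (h : Lk L → Mt N) (hsu : ∀ l, h l ∈ su N)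
    (hfo : ∀ a : Lk L → Mt N, (∀ l, a l ∈ su N) → (∀ l, l ∉ Frl L Λ → a l = 0) →
        ∑ τ ∈ tml Λ, bf P Q τ a h = 0) (x : Pl) (hx : x ∈ Λ ∨ x + pe 0 ∈ Λ)
    (hc : Cou P Q (ta h x)) (hc' : Cou P Q (ta h (x + pe 0))) :
    DD P Q (pk h x 0) (pk h x 0) + II (FF h x - FF h (x - (0, 1))) (pk h x 0) = 0 := by
  classical
  obtain ⟨a, ha⟩ : ∃ a : Lk L → Mt N, a = fun l => if l.1.1 = x ∧ l.2 = 0 then h l else 0 := ⟨_, rfl⟩
  have hp0 : ∀ z, pk a z 0 = if z = x then pk h x 0 else 0 := by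
    intro z
    funext y
    unfold pk
    rw [ha]
    by_cases hz : z = x
    · simp [hz]
    · simp [hz]
  have hp1 : ∀ z, pk a z 1 = 0 := by
    intro z
    funext y
    unfold pk
    rw [ha]
    simp
  obtain ⟨sD, sI, hF⟩ := FOplane P Q Λ h hfo a
    (by
      intro l
      rw [ha]
      simp only
      split_ifs
      · exact hsu l
      · exact PkgI1.su_zero)
    (by
      intro l hl
      rw [ha]
      simp only
      rw [if_neg]
      rintro ⟨h1, h2⟩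
      apply hl
      obtain ⟨⟨z, y⟩, i⟩ := l
      simp only at h1 h2
      subst h1 h2
      exact (mem_Frl' Λ _ y 0).2 hx)
    (by
      intro l hl
      rw [ha]
      rcases hl with hl | hl <;> simp [hl])
    (by
      intro z i hi hne
      rcases hi with rfl | rfl
      · rw [hp0] at hne
        split_ifs at hne with hz
        · rw [hz]
          exact ⟨hc, hc'⟩
        · exact absurd rfl hne
      · exact absurd (hp1 z) hne)
  rw [tsum_eq_single x (fun z hz => by rw [hp0, hp1, if_neg hz, DD_zero_left, DD_zero_left, add_zero]),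
    tsum_eq_single x (fun z hz => by rw [hp0, hp1, if_neg hz, II_zero_right, II_zero_right, add_zero]),
    hp0, hp1, if_pos rfl, DD_zero_left, II_zero_right, add_zero, add_zero] at hF
  exact hF

lemma plane_end1 (P Q : SU N) (Λ : Finset Pl) (h : Lk L → Mt N) (hsu : ∀ l, h l ∈ su N)
    (hfo : ∀ a : Lk L → Mt N, (∀ l, a l ∈ su N) → (∀ l, l ∉ Frl L Λ → a l = 0) →
        ∑ τ ∈ tml Λ, bf P Q τ a h = 0) (x : Pl) (hx : x ∈ Λ ∨ x + pe 1 ∈ Λ)
    (hc : Cou P Q (ta h x)) (hc' : Cou P Q (ta h (x + pe 1))) :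
    DD P Q (pk h x 1) (pk h x 1) + II (FF h (x - (1, 0)) - FF h x) (pk h x 1) = 0 := by
  classical
  obtain ⟨a, ha⟩ : ∃ a : Lk L → Mt N, a = fun l => if l.1.1 = x ∧ l.2 = 1 then h l else 0 := ⟨_, rfl⟩
  have hp1 : ∀ z, pk a z 1 = if z = x then pk h x 1 else 0 := by
    intro z
    funext y
    unfold pk
    rw [ha]
    by_cases hz : z = x
    · simp [hz]
    · simp [hz]
  have hp0 : ∀ z, pk a z 0 = 0 := by
    intro z
    funext y
    unfold pk
    rw [ha]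
    simp
  obtain ⟨sD, sI, hF⟩ := FOplane P Q Λ h hfo a
    (by
      intro l
      rw [ha]
      simp only
      split_ifs
      · exact hsu l
      · exact PkgI1.su_zero)
    (by
      intro l hl
      rw [ha]
      simp only
      rw [if_neg]
      rintro ⟨h1, h2⟩
      apply hl
      obtain ⟨⟨z, y⟩, i⟩ := l
      simp only at h1 h2
      subst h1 h2
      exact (mem_Frl' Λ _ y 1).2 hx)
    (by
      intro l hl
      rw [ha]
      rcases hl with hl | hl <;> simp [hl])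
    (by
      intro z i hi hne
      rcases hi with rfl | rfl
      · exact absurd (hp0 z) hne
      · rw [hp1] at hne
        split_ifs at hne with hz
        · rw [hz]
          exact ⟨hc, hc'⟩
        · exact absurd rfl hne)
  rw [tsum_eq_single x (fun z hz => by rw [hp0, hp1, if_neg hz, DD_zero_left, DD_zero_left, add_zero]),
    tsum_eq_single x (fun z hz => by rw [hp0, hp1, if_neg hz, II_zero_right, II_zero_right, add_zero]),
    hp0, hp1, if_pos rfl, DD_zero_left, II_zero_right, zero_add, zero_add] at hF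
  exact hF

lemma tf_sq (h : Lk L → Mt N) (x : Pl) : tf h x ^ 2 = ∑ y, ‖FF h x y‖ ^ 2 :=
  Real.sq_sqrt (by positivity)

lemma tt_sq (h : Lk L → Mt N) (x : Pl) : tt h x ^ 2 = ∑ y, ∑ j, ‖ta h x y j‖ ^ 2 :=
  Real.sq_sqrt (by positivity)

/-- from the gradient to the links -/
lemma link_bound {P Q : SU N} {μ : ℝ} (hμ : 0 < μ)
    (hC : ∀ lam : Tor L → Mt N, (∀ y, (lam y).trace = 0) →
      μ * ∑ y, ‖lam y‖ ^ 2 ≤ ∑ y, ∑ j, ‖dd (vac P Q) lam y j‖ ^ 2)
    (h : Lk L → Mt N) (u : Tor L → Mt N) (hu : ∀ y, u y ∈ su N) (x x' : Pl)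
    (he : DD P Q u u + II (FF h x - FF h x') u = 0) :
    μ ^ 2 * ∑ y, ‖u y‖ ^ 2 ≤ 2 * (tf h x ^ 2 + tf h x' ^ 2) := by
  obtain ⟨n, hn⟩ : ∃ n, n = Real.sqrt (∑ y, ‖u y‖ ^ 2) := ⟨_, rfl⟩
  obtain ⟨g, hg⟩ : ∃ g, g = Real.sqrt (∑ y, ‖(FF h x - FF h x') y‖ ^ 2) := ⟨_, rfl⟩
  have hn2 : ∑ y, ‖u y‖ ^ 2 = n ^ 2 := by rw [hn, Real.sq_sqrt (by positivity)]
  have hg2 : g ^ 2 = ∑ y, ‖(FF h x - FF h x') y‖ ^ 2 := by rw [hg, Real.sq_sqrt (by positivity)]
  have hn0 : 0 ≤ n := by rw [hn]; exact Real.sqrt_nonneg _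
  have hg0 : 0 ≤ g := by rw [hg]; exact Real.sqrt_nonneg _
  have h1 := hC u fun y => (hu y).2
  rw [← DD_self, hn2] at h1
  have h2 := (abs_le.1 (cs Finset.univ (FF h x - FF h x') u)).1
  change -(Real.sqrt (∑ y, ‖(FF h x - FF h x') y‖ ^ 2) * Real.sqrt (∑ y, ‖u y‖ ^ 2)) ≤
    II (FF h x - FF h x') u at h2
  rw [← hn, ← hg] at h2
  have h3 : μ * n ^ 2 ≤ g * n := by linarith
  have h4 : g ^ 2 ≤ 2 * (tf h x ^ 2 + tf h x' ^ 2) := by
    rw [hg2, tf_sq, tf_sq, ← Finset.sum_add_distrib, Finset.mul_sum]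
    refine Finset.sum_le_sum fun y _ => ?_
    have h5 := norm_sub_le (FF h x y) (FF h x' y)
    rw [Pi.sub_apply]
    have h6 := norm_nonneg (FF h x y - FF h x' y)
    have h7 := norm_nonneg (FF h x y)
    have h8 := norm_nonneg (FF h x' y)
    nlinarith [sq_nonneg (‖FF h x y‖ - ‖FF h x' y‖)]
  rw [hn2]
  refine le_trans ?_ h4
  rcases hn0.eq_or_lt with h0 | h0
  · rw [← h0]
    nlinarith [sq_nonneg g]
  · have h5 : μ * n ≤ g := by
      have : μ * n * n ≤ g * n := by linarith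
      exact le_of_mul_le_mul_right this h0
    have h6 := pow_le_pow_left₀ (by positivity) h5 2
    linarith

/-! ### sums over families of links -/

lemma fam (Λ : Finset Pl) (h : Lk L → Mt N) (S : Finset Pl) (φ : Pl → Pl)
    (hφ : Function.Injective φ) (i : Fin 4)
    (hz : ∀ x ∈ S, ∀ y : Tor L, ((φ x, y), i) ∉ Frl L Λ → h ((φ x, y), i) = 0) :
    ∑ x ∈ S, ∑ y, ‖h ((φ x, y), i)‖ ^ 2 ≤ ∑ l ∈ Frl L Λ, ‖h l‖ ^ 2 := by
  classical
  have e1 : ∑ x ∈ S, ∑ y, ‖h ((φ x, y), i)‖ ^ 2 =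
      ∑ l ∈ (S ×ˢ (Finset.univ : Finset (Tor L))).image (fun p => (((φ p.1, p.2), i) : Lk L)),
        ‖h l‖ ^ 2 := by
    rw [Finset.sum_image, Finset.sum_product]
    rintro ⟨x, y⟩ _ ⟨x', y'⟩ _ he
    simp only [Prod.mk.injEq, and_true] at he
    obtain ⟨e1, e2⟩ := he
    rw [hφ e1, e2]
  rw [e1]
  have e2 : ∑ l ∈ (S ×ˢ (Finset.univ : Finset (Tor L))).image
        (fun p => (((φ p.1, p.2), i) : Lk L)), ‖h l‖ ^ 2 =
      ∑ l ∈ ((S ×ˢ (Finset.univ : Finset (Tor L))).image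
        (fun p => (((φ p.1, p.2), i) : Lk L))).filter (fun l => l ∈ Frl L Λ), ‖h l‖ ^ 2 := by
    symm
    refine Finset.sum_subset (Finset.filter_subset _ _) fun l hl hl' => ?_
    obtain ⟨⟨x, y⟩, hp, rfl⟩ := Finset.mem_image.1 hl
    rw [Finset.mem_product] at hp
    rw [hz x hp.1 y fun hc => hl' (Finset.mem_filter.2 ⟨hl, hc⟩)]
    simp
  rw [e2]
  exact Finset.sum_le_sum_of_subset_of_nonneg
    (fun l hl => (Finset.mem_filter.1 hl).2) fun _ _ _ => by positivity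

lemma torus_total (Λ : Finset Pl) (h : Lk L → Mt N) (b : Pl) (R : ℕ)
    (hz : ∀ l, l ∉ Frl L Λ → (∀ c ∈ st l, ds b c ≤ R + 3) → h l = 0) :
    ∑ x ∈ bal (R + 1) {b}, tt h x ^ 2 ≤ 2 * ∑ l ∈ Frl L Λ, ‖h l‖ ^ 2 := by
  have key : ∀ i : Fin 4, i = 2 ∨ i = 3 →
      ∑ x ∈ bal (R + 1) {b}, ∑ y, ‖h ((x, y), i)‖ ^ 2 ≤ ∑ l ∈ Frl L Λ, ‖h l‖ ^ 2 := by
    intro i hi
    refine fam Λ h _ (fun x => x) (fun _ _ h => h) i fun x hx y hn => hz _ hn fun c hc => ?_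
    rw [mem_st] at hc
    rw [mem_bal1] at hx
    have : c = x := by
      rcases hc with rfl | rfl
      · rfl
      · rcases hi with rfl | rfl <;> simp [pe, h00]
    rw [this]
    omega
  have h2 := key 2 (Or.inl rfl)
  have h3 := key 3 (Or.inr rfl)
  have e : ∑ x ∈ bal (R + 1) {b}, tt h x ^ 2 =
      ∑ x ∈ bal (R + 1) {b}, ∑ y, ‖h ((x, y), 2)‖ ^ 2 +
        ∑ x ∈ bal (R + 1) {b}, ∑ y, ‖h ((x, y), 3)‖ ^ 2 := by
    rw [← Finset.sum_add_distrib]
    refine Finset.sum_congr rfl fun x _ => ?_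
    rw [tt_sq, ← Finset.sum_add_distrib]
    refine Finset.sum_congr rfl fun y _ => ?_
    rw [Fin.sum_univ_two, ta0, ta1]
  rw [e]
  linarith

lemma plane_total (Λ : Finset Pl) (h : Lk L → Mt N) (b : Pl) (R : ℕ)
    (hz : ∀ l, l ∉ Frl L Λ → (∀ c ∈ st l, ds b c ≤ R + 3) → h l = 0) :
    ∑ x ∈ bal (R + 1) {b}, tf h x ^ 2 ≤ 16 * ∑ l ∈ Frl L Λ, ‖h l‖ ^ 2 := by
  have key : ∀ (i : Fin 4) (e : Pl), i = 0 ∨ i = 1 → e = 0 ∨ e = (1, 0) ∨ e = (0, 1) →
      ∑ x ∈ bal (R + 1) {b}, ∑ y, ‖h ((x + e, y), i)‖ ^ 2 ≤ ∑ l ∈ Frl L Λ, ‖h l‖ ^ 2 := by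
    intro i e hi he
    refine fam Λ h _ (fun x => x + e) (add_left_injective e) i
      fun x hx y hn => hz _ hn fun c hc => ?_
    rw [mem_st] at hc
    rw [mem_bal1] at hx
    have h1 : ds b (x + e) ≤ R + 2 := by
      rcases he with rfl | rfl | rfl
      · rw [add_zero]; omega
      · have := ds_add0 b x; omega
      · have := ds_add1 b x; omega
    have h2 : ds b (x + e + pe i) ≤ R + 3 := by
      rcases hi with rfl | rfl
      · have := ds_add0 b (x + e)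
        change ds b (x + e + (1, 0)) ≤ R + 3
        omega
      · have := ds_add1 b (x + e)
        change ds b (x + e + (0, 1)) ≤ R + 3
        omega
    rcases hc with hc | hc
    · rw [hc]
      change ds b (x + e) ≤ R + 3
      omega
    · rw [hc]
      exact h2
  have k1 := key 0 0 (Or.inl rfl) (Or.inl rfl)
  have k2 := key 1 (1, 0) (Or.inr rfl) (Or.inr (Or.inl rfl))
  have k3 := key 1 0 (Or.inr rfl) (Or.inl rfl)
  have k4 := key 0 (0, 1) (Or.inl rfl) (Or.inr (Or.inr rfl))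
  simp only [add_zero] at k1 k3
  have e : ∑ x ∈ bal (R + 1) {b}, tf h x ^ 2 ≤
      4 * (∑ x ∈ bal (R + 1) {b}, ∑ y, ‖h ((x, y), 0)‖ ^ 2 +
        ∑ x ∈ bal (R + 1) {b}, ∑ y, ‖h ((x + (1, 0), y), 1)‖ ^ 2 +
        ∑ x ∈ bal (R + 1) {b}, ∑ y, ‖h ((x, y), 1)‖ ^ 2 +
        ∑ x ∈ bal (R + 1) {b}, ∑ y, ‖h ((x + (0, 1), y), 0)‖ ^ 2) := by
    rw [← Finset.sum_add_distrib, ← Finset.sum_add_distrib, ← Finset.sum_add_distrib,
      Finset.mul_sum]
    refine Finset.sum_le_sum fun x _ => ?_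
    rw [tf_sq, ← Finset.sum_add_distrib, ← Finset.sum_add_distrib, ← Finset.sum_add_distrib,
      Finset.mul_sum]
    refine Finset.sum_le_sum fun y _ => ?_
    obtain ⟨A, hA⟩ : ∃ A, A = h ((x, y), 0) := ⟨_, rfl⟩
    obtain ⟨B, hB⟩ : ∃ B, B = h ((x + (1, 0), y), 1) := ⟨_, rfl⟩
    obtain ⟨C, hC⟩ : ∃ C, C = h ((x, y), 1) := ⟨_, rfl⟩
    obtain ⟨D, hD⟩ : ∃ D, D = h ((x + (0, 1), y), 0) := ⟨_, rfl⟩
    have e1 : FF h x y = A + B - C - D := by rw [hA, hB, hC, hD]; rfl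
    rw [e1, ← hA, ← hB, ← hC, ← hD]
    have h1 : ‖A + B - C - D‖ ≤ ‖A‖ + ‖B‖ + ‖C‖ + ‖D‖ := by
      have := norm_sub_le (A + B - C) D
      have := norm_sub_le (A + B) C
      have := norm_add_le A B
      linarith
    have h2 := pow_le_pow_left₀ (norm_nonneg _) h1 2
    nlinarith [sq_nonneg (‖A‖ - ‖B‖), sq_nonneg (‖A‖ - ‖C‖), sq_nonneg (‖A‖ - ‖D‖),
      sq_nonneg (‖B‖ - ‖C‖), sq_nonneg (‖B‖ - ‖D‖), sq_nonneg (‖C‖ - ‖D‖)]
  linarith

/-! ### the rate -/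

lemma conv_rate (θ m : ℝ) (h0 : 0 ≤ θ) (h1 : θ ≤ 1) :
    Real.exp (θ * m) + Real.exp (-(θ * m)) - 2 ≤ θ * (Real.exp m + Real.exp (-m) - 2) := by
  have a1 := convexOn_exp.2 (Set.mem_univ m) (Set.mem_univ 0) h0 (by linarith : 0 ≤ 1 - θ)
    (by ring)
  have a2 := convexOn_exp.2 (Set.mem_univ (-m)) (Set.mem_univ 0) h0 (by linarith : 0 ≤ 1 - θ)
    (by ring)
  simp only [smul_eq_mul, mul_zero, add_zero, Real.exp_zero, mul_one, mul_neg] at a1 a2
  linarith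

lemma mgp_eq (N L : ℕ) : Real.exp (mgp N L) + Real.exp (-mgp N L) - 2 = mu2 N L := by
  unfold mgp mu2
  obtain ⟨s, hs⟩ : ∃ s, s = Real.sin (Real.pi / (N * L)) := ⟨_, rfl⟩
  rw [← hs]
  have h1 := Real.sinh_arsinh s
  rw [Real.sinh_eq] at h1
  have e1 : Real.exp (2 * Real.arsinh s) = Real.exp (Real.arsinh s) ^ 2 := by
    rw [← Real.exp_nat_mul]; norm_num
  have e2 : Real.exp (-(2 * Real.arsinh s)) = Real.exp (-Real.arsinh s) ^ 2 := by
    rw [← Real.exp_nat_mul]; congr 1; push_cast; ring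
  have e3 : Real.exp (Real.arsinh s) * Real.exp (-Real.arsinh s) = 1 := by
    rw [← Real.exp_add, add_neg_cancel, Real.exp_zero]
  rw [e1, e2]
  have h2 : Real.exp (Real.arsinh s) - Real.exp (-Real.arsinh s) = 2 * s := by linarith
  have h3 : (Real.exp (Real.arsinh s) - Real.exp (-Real.arsinh s)) ^ 2 = 4 * s ^ 2 := by
    rw [h2]; ring
  nlinarith

lemma sin_low {N L : ℕ} (hN : 2 ≤ N) (hL : 1 ≤ L) :
    2 / ((N : ℝ) * L) ≤ Real.sin (Real.pi / (N * L)) ∧ Real.sin (Real.pi / (N * L)) ≤ 1 := by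
  have hN' : (2 : ℝ) ≤ N := by exact_mod_cast hN
  have hL' : (1 : ℝ) ≤ L := by exact_mod_cast hL
  have hNL : (2 : ℝ) ≤ N * L := by nlinarith
  have hpi := Real.pi_pos
  refine ⟨?_, Real.sin_le_one _⟩
  have h1 := Real.mul_le_sin (x := Real.pi / (N * L)) (by positivity) (by
    exact div_le_div_of_nonneg_left hpi.le (by norm_num) hNL)
  refine le_trans (le_of_eq ?_) h1
  field_simp

lemma mgp_range {N L : ℕ} (hN : 2 ≤ N) (hL : 1 ≤ L) : 0 ≤ mgp N L ∧ mgp N L ≤ 2 := by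
  obtain ⟨h1, h2⟩ := sin_low hN hL
  have hN' : (2 : ℝ) ≤ N := by exact_mod_cast hN
  have hL' : (1 : ℝ) ≤ L := by exact_mod_cast hL
  have h3 : 0 ≤ Real.sin (Real.pi / (N * L)) := le_trans (by positivity) h1
  unfold mgp
  constructor
  · have := Real.arsinh_nonneg_iff.2 h3
    linarith
  · have h4 : (1 : ℝ) ≤ Real.sinh 1 := Real.self_le_sinh_iff.2 zero_le_one
    have h5 := Real.arsinh_le_arsinh.2 (h2.trans h4)
    rw [Real.arsinh_sinh] at h5
    linarith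

lemma mu2_low {N L : ℕ} (hN : 2 ≤ N) (hL : 1 ≤ L) : 1 ≤ mu2 N L * ((N : ℝ) * L) ^ 2 := by
  obtain ⟨h1, h2⟩ := sin_low hN hL
  have hN' : (2 : ℝ) ≤ N := by exact_mod_cast hN
  have hL' : (1 : ℝ) ≤ L := by exact_mod_cast hL
  have hNL : (0 : ℝ) < N * L := by positivity
  have h3 : 2 ≤ Real.sin (Real.pi / (N * L)) * (N * L) := by
    rwa [div_le_iff₀ hNL] at h1
  unfold mu2
  have h4 := pow_le_pow_left₀ (by norm_num) h3 2
  nlinarith

end PkgIs

end T2H02.TT
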