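import Pool.Agent.T2H02.TT.Inst

/-!
# The twisted lattice gauge theory as a system `Sys`, gauge and centre transformations, the change
of variables, the linearised problem
-/

set_option autoImplicit false
set_option linter.unusedSectionVars false

noncomputable section

open MeasureTheory Matrix
open scoped Matrix.Norms.Frobenius

namespace T2H02.TT

variable {N L : ℕ} [NeZero L]

lemma h00 : (((0 : ℤ), (0 : ℤ)) : ℤ × ℤ) = 0 := rfl

lemma mem_st (l : Lk L) (a : Pl) : a ∈ st l ↔ a = l.1.1 ∨ a = l.1.1 + pe l.2 := by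
  simp [st]

lemma mem_Frl (Λ : Finset Pl) (l : Lk L) : l ∈ Frl L Λ ↔ ∃ a ∈ st l, a ∈ Λ := by
  rw [Frl, Finset.mem_filter]
  refine ⟨fun h => h.2, fun h => ⟨?_, h⟩⟩
  obtain ⟨a, ha, haΛ⟩ := h
  rw [Finset.mem_product, Finset.mem_product]
  refine ⟨⟨?_, Finset.mem_univ _⟩, Finset.mem_univ _⟩
  rw [Finset.mem_union, Finset.mem_union]
  rw [mem_st] at ha
  rcases ha with rfl | rfl
  · exact Or.inl (Or.inl haΛ)
  · obtain ⟨⟨x, y⟩, i⟩ := l
    fin_cases i
    · exact Or.inl (Or.inr (Finset.mem_image.2 ⟨_, haΛ, by simp [pe]⟩))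
    · exact Or.inr (Finset.mem_image.2 ⟨_, haΛ, by simp [pe]⟩)
    · refine Or.inl (Or.inl ?_)
      simpa [pe, h00] using haΛ
    · refine Or.inl (Or.inl ?_)
      simpa [pe, h00] using haΛ

lemma mem_cor0 (x a : Pl) : a ∈ cor (x, 0) ↔ a = x := by simp [cor]
lemma mem_cor1 (x a : Pl) : a ∈ cor (x, 1) ↔ a = x ∨ a = x + (1, 0) := by simp [cor]
lemma mem_cor2 (x a : Pl) : a ∈ cor (x, 2) ↔ a = x ∨ a = x + (0, 1) := by simp [cor]
lemma mem_cor3 (x a : Pl) : a ∈ cor (x, 3) ↔ a = x ∨ a = x + (1, 0) ∨ a = x + (0, 1) ∨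
    a = x + (1, 1) := by simp [cor]

lemma mem_tml (Λ : Finset Pl) (τ : Tm) : τ ∈ tml Λ ↔ ∃ a ∈ cor τ, a ∈ Λ := by
  rw [tml, Finset.mem_filter]
  refine ⟨fun h => h.2, fun h => ⟨?_, h⟩⟩
  obtain ⟨a, ha, haΛ⟩ := h
  rw [Finset.mem_product]
  refine ⟨?_, Finset.mem_univ _⟩
  rw [Finset.mem_union, Finset.mem_union, Finset.mem_union]
  have key : a = τ.1 ∨ a = τ.1 + (1, 0) ∨ a = τ.1 + (0, 1) ∨ a = τ.1 + (1, 1) := by
    obtain ⟨x, i⟩ := τ
    fin_cases i
    · exact Or.inl ((mem_cor0 x a).1 ha)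
    · rcases (mem_cor1 x a).1 ha with h | h
      · exact Or.inl h
      · exact Or.inr (Or.inl h)
    · rcases (mem_cor2 x a).1 ha with h | h
      · exact Or.inl h
      · exact Or.inr (Or.inr (Or.inl h))
    · exact (mem_cor3 x a).1 ha
  rcases key with rfl | rfl | rfl | rfl
  · exact Or.inl (Or.inl (Or.inl haΛ))
  · exact Or.inl (Or.inl (Or.inr (Finset.mem_image.2 ⟨_, haΛ, by simp⟩)))
  · exact Or.inl (Or.inr (Finset.mem_image.2 ⟨_, haΛ, by simp⟩))
  · exact Or.inr (Finset.mem_image.2 ⟨_, haΛ, by simp⟩)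

lemma cor_iff (τ : Tm) (a : Pl) : a ∈ cor τ ↔ ∃ l ∈ (spt τ : Finset (Lk L)), a ∈ st l := by
  obtain ⟨x, i⟩ := τ
  fin_cases i
  · change a ∈ cor (x, 0) ↔ _
    rw [mem_cor0]
    simp only [spt, st, pe, Finset.mem_biUnion, Finset.mem_univ, true_and]
    constructor
    · rintro rfl
      exact ⟨((a, 0), 2), ⟨0, by simp⟩, by simp⟩
    · rintro ⟨l, ⟨y, hy⟩, ha⟩
      simp at hy
      rcases hy with rfl | rfl <;> simpa [h00] using ha
  · change a ∈ cor (x, 1) ↔ _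
    rw [mem_cor1]
    simp only [spt, st, pe, Finset.mem_biUnion, Finset.mem_univ, true_and]
    constructor
    · rintro (rfl | rfl)
      · exact ⟨((a, 0), 0), ⟨0, by simp⟩, by simp⟩
      · exact ⟨((x, 0), 0), ⟨0, by simp⟩, by simp⟩
    · rintro ⟨l, ⟨y, hy⟩, ha⟩
      simp at hy
      rcases hy with rfl | rfl | rfl | rfl | rfl <;> simp at ha <;> simp [ha]
  · change a ∈ cor (x, 2) ↔ _
    rw [mem_cor2]
    simp only [spt, st, pe, Finset.mem_biUnion, Finset.mem_univ, true_and]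
    constructor
    · rintro (rfl | rfl)
      · exact ⟨((a, 0), 1), ⟨0, by simp⟩, by simp⟩
      · exact ⟨((x, 0), 1), ⟨0, by simp⟩, by simp⟩
    · rintro ⟨l, ⟨y, hy⟩, ha⟩
      simp at hy
      rcases hy with rfl | rfl | rfl | rfl | rfl <;> simp at ha <;> simp [ha]
  · change a ∈ cor (x, 3) ↔ _
    rw [mem_cor3]
    simp only [spt, st, pe, Finset.mem_biUnion, Finset.mem_univ, true_and]
    constructor
    · rintro (rfl | rfl | rfl | rfl)
      · exact ⟨((a, 0), 0), ⟨0, by simp⟩, by simp⟩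
      · exact ⟨((x, 0), 0), ⟨0, by simp⟩, by simp⟩
      · exact ⟨((x, 0), 1), ⟨0, by simp⟩, by simp⟩
      · exact ⟨((x + (1, 0), 0), 1), ⟨0, by simp⟩, by simp [add_assoc]⟩
    · rintro ⟨l, ⟨y, hy⟩, ha⟩
      simp at hy
      rcases hy with rfl | rfl | rfl | rfl <;> simp [add_assoc] at ha <;> tauto

lemma eV_nonneg (k : ℕ) (X : Cf N L) (x : Pl) : 0 ≤ eV k X x :=
  Finset.sum_nonneg fun _ _ => by positivity
lemma eK_nonneg (X : Cf N L) (x : Pl) (m : Fin 4) : 0 ≤ eK X x m :=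
  Finset.sum_nonneg fun _ _ => by positivity
lemma eP_nonneg (X : Cf N L) (z : ℂ) (x : Pl) : 0 ≤ eP X z x :=
  Finset.sum_nonneg fun _ _ => by positivity

lemma en_nonneg (k : ℕ) (X : Cf N L) (τ : Tm) : 0 ≤ en k X τ := by
  unfold en
  split_ifs
  · exact eV_nonneg _ _ _
  · exact eK_nonneg _ _ _
  · exact eK_nonneg _ _ _
  · exact Real.iInf_nonneg fun _ => eP_nonneg _ _ _

lemma df_cont (z : ℂ) (p : Pt L) (i j : Fin 4) : Continuous fun X : Cf N L => df X z p i j := by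
  unfold df
  have h : ∀ l : Lk L, Continuous fun X : Cf N L => ((X l : SU N) : Mt N) := fun l =>
    continuous_subtype_val.comp (continuous_apply l)
  exact ((h _).mul (h _)).sub (((h _).mul (h _)).const_smul z)

lemma eV_cont (k : ℕ) (x : Pl) : Continuous fun X : Cf N L => eV k X x := by
  unfold eV
  exact continuous_finsetSum _ fun y _ => ((df_cont _ _ _ _).norm.pow 2).div_const 2

lemma eK_cont (x : Pl) (m : Fin 4) : Continuous fun X : Cf N L => eK X x m := by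
  unfold eK
  exact continuous_finsetSum _ fun y _ => (((df_cont _ _ _ _).norm.pow 2).div_const 2).add
    (((df_cont _ _ _ _).norm.pow 2).div_const 2)

lemma eP_cont (z : ℂ) (x : Pl) : Continuous fun X : Cf N L => eP X z x := by
  unfold eP
  exact continuous_finsetSum _ fun y _ => ((df_cont _ _ _ _).norm.pow 2).div_const 2

lemma en_cont (k : ℕ) (τ : Tm) (hN : 0 < N) : Continuous fun X : Cf N L => en k X τ := by
  have : Nonempty (Fin N) := ⟨⟨0, hN⟩⟩
  unfold en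
  split_ifs
  · exact eV_cont _ _
  · exact eK_cont _ _
  · exact eK_cont _ _
  · have h : (fun X : Cf N L => ⨅ m : Fin N, eP X (om N m) τ.1) =
        fun X => Finset.univ.inf' Finset.univ_nonempty fun m : Fin N => eP X (om N m) τ.1 := by
      funext X
      rw [Finset.inf'_univ_eq_ciInf]
    rw [h]
    exact Continuous.finset_inf'_apply _ fun m _ => eP_cont _ _

lemma wt_cont (k : ℕ) (β : ℝ) (τ : Tm) : Continuous fun X : Cf N L => wt k β τ X := by
  unfold wt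
  split_ifs with h3
  · exact (continuous_finsetSum _ fun m _ => (continuous_const.mul (eP_cont _ _)).rexp).div_const _
  · have h4 : Continuous fun X : Cf N L => en k X τ := by
      unfold en
      split_ifs with h0 h1 h2
      · exact eV_cont _ _
      · exact eK_cont _ _
      · exact eK_cont _ _
      · exfalso
        obtain ⟨x, i⟩ := τ
        fin_cases i <;> simp_all
    exact (continuous_const.mul h4).rexp

lemma nx0 (x : Pl) (y : Tor L) : nx (x, y) 0 = (x + (1, 0), y) := by simp [nx, pe]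
lemma nx1 (x : Pl) (y : Tor L) : nx (x, y) 1 = (x + (0, 1), y) := by simp [nx, pe]
lemma nx2 (x : Pl) (y : Tor L) : nx (x, y) 2 = (x, tsh y 0) := by simp [nx, pe, h00]
lemma nx3 (x : Pl) (y : Tor L) : nx (x, y) 3 = (x, tsh y 1) := by simp [nx, pe, h00]

lemma mem_spt0 (x : Pl) (l : Lk L) : l ∈ spt (x, 0) ↔ ∃ y, l = ((x, y), 2) ∨ l = ((x, y), 3) := by
  simp [spt]
lemma mem_spt1 (x : Pl) (l : Lk L) : l ∈ spt (x, 1) ↔ ∃ y, l = ((x, y), 0) ∨ l = ((x, y), 2) ∨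
    l = ((x, y), 3) ∨ l = ((x + (1, 0), y), 2) ∨ l = ((x + (1, 0), y), 3) := by
  simp [spt]
lemma mem_spt2 (x : Pl) (l : Lk L) : l ∈ spt (x, 2) ↔ ∃ y, l = ((x, y), 1) ∨ l = ((x, y), 2) ∨
    l = ((x, y), 3) ∨ l = ((x + (0, 1), y), 2) ∨ l = ((x + (0, 1), y), 3) := by
  simp [spt]
lemma mem_spt3 (x : Pl) (l : Lk L) : l ∈ spt (x, 3) ↔ ∃ y, l = ((x, y), 0) ∨ l = ((x, y), 1) ∨
    l = ((x + (1, 0), y), 1) ∨ l = ((x + (0, 1), y), 0) := by
  simp [spt]

lemma eV_loc (k : ℕ) (x : Pl) (X Y : Cf N L) (h : ∀ l ∈ (spt (x, 0) : Finset (Lk L)), X l = Y l) :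
    eV k X x = eV k Y x := by
  unfold eV df
  refine Finset.sum_congr rfl fun y _ => ?_
  simp only [nx2, nx3]
  rw [h ((x, y), 2) ((mem_spt0 _ _).2 ⟨y, Or.inl rfl⟩), h ((x, y), 3) ((mem_spt0 _ _).2 ⟨y, Or.inr rfl⟩),
    h ((x, tsh y 0), 3) ((mem_spt0 _ _).2 ⟨_, Or.inr rfl⟩),
    h ((x, tsh y 1), 2) ((mem_spt0 _ _).2 ⟨_, Or.inl rfl⟩)]

lemma eK0_loc (x : Pl) (X Y : Cf N L) (h : ∀ l ∈ (spt (x, 1) : Finset (Lk L)), X l = Y l) :
    eK X x 0 = eK Y x 0 := by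
  have hm := fun (l : Lk L) hl => h l ((mem_spt1 x l).2 hl)
  unfold eK df
  refine Finset.sum_congr rfl fun y _ => ?_
  simp only [nx0, nx2, nx3]
  rw [hm ((x, y), 0) ⟨_, by simp; tauto⟩, hm ((x, y), 2) ⟨y, by simp⟩, hm ((x, y), 3) ⟨y, by simp⟩,
    hm ((x + (1, 0), y), 2) ⟨y, by simp⟩, hm ((x + (1, 0), y), 3) ⟨y, by simp⟩,
    hm ((x, tsh y 0), 0) ⟨_, Or.inl rfl⟩, hm ((x, tsh y 1), 0) ⟨_, Or.inl rfl⟩]

lemma eK1_loc (x : Pl) (X Y : Cf N L) (h : ∀ l ∈ (spt (x, 2) : Finset (Lk L)), X l = Y l) :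
    eK X x 1 = eK Y x 1 := by
  have hm := fun (l : Lk L) hl => h l ((mem_spt2 x l).2 hl)
  unfold eK df
  refine Finset.sum_congr rfl fun y _ => ?_
  simp only [nx1, nx2, nx3]
  rw [hm ((x, y), 1) ⟨y, by simp⟩, hm ((x, y), 2) ⟨y, by simp⟩, hm ((x, y), 3) ⟨y, by simp⟩,
    hm ((x + (0, 1), y), 2) ⟨y, by simp⟩, hm ((x + (0, 1), y), 3) ⟨y, by simp⟩,
    hm ((x, tsh y 0), 1) ⟨_, Or.inl rfl⟩, hm ((x, tsh y 1), 1) ⟨_, Or.inl rfl⟩]

lemma eP_loc (z : ℂ) (x : Pl) (X Y : Cf N L) (h : ∀ l ∈ (spt (x, 3) : Finset (Lk L)), X l = Y l) :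
    eP X z x = eP Y z x := by
  have hm := fun (l : Lk L) hl => h l ((mem_spt3 x l).2 hl)
  unfold eP df
  refine Finset.sum_congr rfl fun y _ => ?_
  simp only [nx0, nx1]
  rw [hm ((x, y), 0) ⟨y, by simp⟩, hm ((x, y), 1) ⟨y, by simp⟩,
    hm ((x + (1, 0), y), 1) ⟨y, by simp⟩, hm ((x + (0, 1), y), 0) ⟨y, by simp⟩]

lemma en_loc (k : ℕ) (τ : Tm) (X Y : Cf N L) (h : ∀ l ∈ (spt τ : Finset (Lk L)), X l = Y l) :
    en k X τ = en k Y τ := by
  obtain ⟨x, i⟩ := τ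
  fin_cases i
  · exact eV_loc k x X Y h
  · exact eK0_loc x X Y h
  · exact eK1_loc x X Y h
  · unfold en
    simp only [Fin.isValue]
    exact iInf_congr fun m => eP_loc _ x X Y h

lemma wt_loc (k : ℕ) (β : ℝ) (τ : Tm) (X Y : Cf N L)
    (h : ∀ l ∈ (spt τ : Finset (Lk L)), X l = Y l) : wt k β τ X = wt k β τ Y := by
  unfold wt
  split_ifs with h3
  · obtain ⟨x, i⟩ := τ
    simp only at h3
    subst h3
    rw [Finset.sum_congr rfl fun m _ => by rw [eP_loc (om N m) x X Y h]]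
  · rw [en_loc k τ X Y h]

lemma wt_pos (k : ℕ) (β : ℝ) (τ : Tm) (X : Cf N L) (hN : 0 < N) : 0 < wt k β τ X := by
  unfold wt
  have : Nonempty (Fin N) := ⟨⟨0, hN⟩⟩
  split_ifs with h3
  · have : (0 : ℝ) < N := by exact_mod_cast hN
    exact div_pos (Finset.sum_pos (fun m _ => Real.exp_pos _) Finset.univ_nonempty) this
  · exact Real.exp_pos _

lemma wt_le (k : ℕ) (β : ℝ) (hβ : 0 ≤ β) (τ : Tm) (X : Cf N L) (hN : 0 < N) : wt k β τ X ≤ 1 := by
  unfold wt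
  split_ifs with h3
  · have : (0 : ℝ) < N := by exact_mod_cast hN
    rw [div_le_one this]
    calc ∑ m : Fin N, Real.exp (-β * eP X (om N m) τ.1) ≤ ∑ m : Fin N, (1 : ℝ) :=
          Finset.sum_le_sum fun m _ => Real.exp_le_one_iff.2
            (by have := eP_nonneg X (om N m) τ.1; nlinarith)
      _ = N := by simp
  · exact Real.exp_le_one_iff.2 (by have := en_nonneg k X τ; nlinarith)

lemma diam_cor (τ : Tm) : ∀ a ∈ cor τ, ∀ b ∈ cor τ, near 1 a b := by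
  intro a ha b hb
  obtain ⟨x, i⟩ := τ
  unfold near
  fin_cases i
  · rw [show a = x from (mem_cor0 x a).1 ha, show b = x from (mem_cor0 x b).1 hb]
    simp
  · rcases (mem_cor1 x a).1 ha with rfl | rfl <;> rcases (mem_cor1 _ b).1 hb with rfl | rfl <;> simp
  · rcases (mem_cor2 x a).1 ha with rfl | rfl <;> rcases (mem_cor2 _ b).1 hb with rfl | rfl <;> simp
  · rcases (mem_cor3 x a).1 ha with rfl | rfl | rfl | rfl <;>
      rcases (mem_cor3 _ b).1 hb with rfl | rfl | rfl | rfl <;> simp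

lemma diam_st (l : Lk L) : ∀ a ∈ st l, ∀ b ∈ st l, near 1 a b := by
  intro a ha b hb
  obtain ⟨⟨x, y⟩, i⟩ := l
  rw [mem_st] at ha hb
  unfold near
  fin_cases i <;> simp [pe] at ha hb <;> rcases ha with rfl | rfl <;> rcases hb with rfl | rfl <;> simp

/-- the site-level system -/
def sysS (N L : ℕ) [NeZero L] (k : ℕ) (β : ℝ) (hN : 2 ≤ N) (hβ : 0 ≤ β) : Sys (Lk L) Tm (SU N) where
  bl := st
  bt := cor
  sp := spt
  w := wt k β
  Fr := Frl L
  tms := tml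
  mem_Fr := mem_Frl
  mem_tms := mem_tml
  bt_iff := cor_iff
  diam_bt := diam_cor
  diam_bl := diam_st
  bl_ne := fun l => ⟨l.1.1, by rw [mem_st]; exact Or.inl rfl⟩
  w_pos := fun τ X => wt_pos k β τ X (by omega)
  w_le := fun τ X => wt_le k β hβ τ X (by omega)
  w_meas := fun τ => (wt_cont k β τ).measurable
  w_loc := fun τ X Y h => wt_loc k β τ X Y h

end T2H02.TT
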