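import Pool.Agent.T2H02.TT.Fin1

/-!
# Statements of the final packages (P1 SY AR) of TT
-/

set_option autoImplicit false

noncomputable section

open MeasureTheory Matrix
open scoped Matrix.Norms.Frobenius

namespace T2H02.TT

/-! ### package P1 : decay for the site-level kernels (uses F3 F5 X Z)

Let `M ≤ K log β`, `q` be given by Z for `β`; `48 q ≤ min (1/2) (β^(-c))`. If `n < M`: the left side is
at most `2` (F5) and `β^(2c) exp (-m n) ≥ 1` for `m = c / (3 K)`, and `A ≠ ∅` or the function is constant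
(then the left side is `0`). If `n ≥ M`: let `n' = n / M - 1` (natural numbers), `A' = A.image (blk M)`,
`Λ' = A'.biUnion (Nb n')`. For `a ∈ A`, `c ∈ Nb n' (blk M a)` the sites of the block `c` are within distance
`M n' + M - 1 ≤ n` from `a`, so `sit M Λ' ⊆ Λ`. By X for `coa (sysS ..) M hM` (its `ker Λ'` is the
`ker (sit M Λ')` of `sysS`): `|ker (sit M Λ') f η - ker (sit M Λ') f η'| ≤ 6 #A (48 q)^(n'/3)` for all
`η, η'` (`f` depends on the links with all blocks in `A'`), and
`n' / 3 ≥ (n / M - 2) / 3 - 1 ≥ n / (3 M) - 2` (reals), so this is at most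
`6 #A β^(2 c) exp (-c n log β / (3 M)) ≤ 6 #A β^(2c) exp (-m n)`. Finally by F3
`ker Λ f = ker Λ (ker (sit M Λ') f)`, and the oscillation of the inner function is bounded (F5). -/

def S_P1 : Prop := ∀ (N k L : ℕ) [NeZero L] (hN : 2 ≤ N), Nat.Coprime k N →
  ∃ m κ β₀ : ℝ, 0 < m ∧ 0 ≤ κ ∧ 1 < β₀ ∧ ∀ (β : ℝ) (hβ : 0 ≤ β), β₀ ≤ β →
  ∀ (A Λ : Finset Pl) (n : ℕ), (∀ a ∈ A, Nb n a ⊆ Λ) →
    ∀ f : Cf N L → ℝ, Measurable f → (∀ X, |f X| ≤ 1) → Sys.dep {l | ∀ a ∈ st l, a ∈ A} f →
    ∀ η η' : Cf N L, |(sysS N L k β hN hβ).ker (hm N) Λ f η - (sysS N L k β hN hβ).ker (hm N) Λ f η'| ≤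
      6 * A.card * β ^ κ * Real.exp (-m * n)

/-! ### package SY : symmetries

The product measure is invariant under permutations of the index set (`infinitePi` and
`piCongrLeft`, or `eq_infinitePi`); `wact k (R + v) X = wact k R (shf v X)`, and the same for the
reflection `swp` which exchanges the two directions of the plane: the trace of the plaquette in the
directions `1, 0` is the complex conjugate of the one in the directions `0, 1`, twist `1`
(use `df_plq` and `df X 1 p j i = - df X 1 p i j`, or `wact_eq`). -/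

/-- exchange of the two directions of the plane -/
def swp {N L : ℕ} (X : Cf N L) : Cf N L := fun l =>
  X ((l.1.1.swap, l.1.2), if l.2 = 0 then 1 else if l.2 = 1 then 0 else l.2)

def S_SY : Prop := ∀ (N k L : ℕ) [NeZero L], 2 ≤ N → ∀ (β : ℝ) (R : Finset Pl) (f : Cf N L → ℝ),
  Measurable f → (∃ K, ∀ X, |f X| ≤ K) →
  (∀ v : Pl, wex N L k β (R.image (fun x => x + v)) (fun X => f (shf v X)) = wex N L k β R f) ∧
  wex N L k β (R.image Prod.swap) (fun X => f (swp X)) = wex N L k β R f

/-! ### package AR : area law (uses OA; `wact_eq` in `Fin1.lean`)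

`G X = wlp X x y a b`, `s x' = 1` if `x' ∈ [x.1, x.1 + a) × [x.2, x.2 + b)`, `0` otherwise, `T = tin R`. The
loop contains the links `((x + (i, b), y), 0)`, `0 ≤ i < a`, as they are and the links
`((x + (i, 0), y), 0)` inverted; so `G (mvh (x' + (0,1)) n X) = om^(s x') (star om)^(s (x' + (0,1))) G X`
(four cases; `cen N n` is central). `‖G‖ ≤ 1` (trace of a unitary matrix). The terms of `T` of kind `3`
with charge `0` have weight `wch N β 0 = wt ≥ 0`, those with charge `1` at most
`(1 - exp (-2 N L² β)) wt`, and there are `a b` of them; for the other kinds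
`exp (-β en1) = wt`. Denominator: OA with `G = 1`, `s = 0`. -/

def S_AR : Prop := ∀ (N k L : ℕ) [NeZero L], 2 ≤ N → ∀ (β : ℝ), 0 ≤ β → ∀ (R : Finset Pl) (x : Pl)
  (y : Tor L) (a b : ℕ), (∀ i j : ℕ, i ≤ a → j ≤ b → x + ((i : ℤ), (j : ℤ)) ∈ R) →
    ‖wexC N L k β R (fun X => wlp X x y a b)‖ ≤ (1 - Real.exp (-2 * N * L ^ 2 * β)) ^ (a * b)

end T2H02.TT
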