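import Pool.Agent.T2H02.TT.StmY

/-!
# Wave 7: the scaling limit for the complex field of Polyakov loops and all test functions

Package `Y` proves `theorem pY : S_Y` in `Pool/Agent/T2H02/TT/Y.lean` (namespace `T2H02.TT.PkgY` for
the lemmas): QI QJ QK QN QM QT QG. QI, QJ, QK are ports of VI, VJ, VK with a second observable `G'`
(mode `E'` orthogonal to `E`), which the shift by `E` does not change to first order.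
-/

set_option autoImplicit false

noncomputable section

open MeasureTheory Matrix Filter Topology
open scoped Matrix.Norms.Frobenius

namespace T2H02.TT

/-! ### QI, QJ, QK : Ward identity with two observables

QI: as VI with `Y = fl β w G Λ + fl β w' G' Λ`. The only new point is in `det2`: under the same
hypotheses, for `E', G'` with `Mod` and `∑ ip (E y) (E' y) = 0`, also
`|G' (pt (TM P Q E (shm s ψ F) X) b) - G' (pt X b)| ≤ 2 CG (K1 ρ)²` for `b ∈ Λ` (copy `hG1`, `hG2` of `det2`: with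
`g' x = ∑_y ip (xi ((x, y), 2)) (E' y)` both sides are `g' x + O (CG (K1 ρ)²)`, because
`∑_y ip (h ((x, y), 2)) (E' y) = s ψ x ∑_y ip (E y) (E' y) = 0`). So in `hdet` the third conclusion becomes
`|G (pt (T X) b) - G (pt X b) - s ψ b| + |G' (pt (T X) b) - G' (pt X b)| ≤ D1 ρ²` (`4 CG K1² ≤ D1` holds), and
`|Y (T X) - Y X - √β s ∑ w ψ| ≤ √β n D1 ρ²` as before; all the arithmetic (`arithV`) is unchanged. -/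

def S_QI : Prop := ∀ (N k : ℕ) (hN : 2 ≤ N), Nat.Coprime k N → ∀ P Q : SU N, PQ k P Q →
  ∀ (C₁ : ℝ) (K₁ : ℕ), ∃ (C : ℝ) (K D : ℕ), 1 ≤ C ∧ ∀ (L : ℕ) [NeZero L] (β : ℝ) (hβ : 0 ≤ β), 1 ≤ β →
  ∀ (E : Tor L → Mt N) (G : Ph N L → ℝ), Mod N L P Q (C₁ * (L : ℝ) ^ K₁) E G →
  ∀ (E' : Tor L → Mt N) (G' : Ph N L → ℝ), Mod N L P Q (C₁ * (L : ℝ) ^ K₁) E' G' →
    ∑ y, ip (E y) (E' y) = 0 →
  ∀ (Λ : Finset Pl) (e t r : ℝ), 0 ≤ e → 0 ≤ t → r = C * (L : ℝ) ^ K * Λ.card * (Λ.card * e + t) →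
    1 / β ≤ r → C * (L : ℝ) ^ K * Λ.card * (β * (r * Real.sqrt (Real.sqrt r))) ≤ 1 →
  ∀ σ : Cf N L, (∀ l, l ∉ Frl L Λ → (∀ a ∈ st l, a ∈ pls Λ) →
      ‖(σ l : Mt N) - (vc P Q l : Mt N)‖ ^ 2 ≤ e) →
  ∀ ψ w w' : Pl → ℝ, (∀ x, |ψ x| ≤ 1) → (∀ x, |w x| ≤ 1) → (∀ x, |w' x| ≤ 1) →
    (∀ x, ψ x ≠ 0 → Nb 1 x ⊆ Λ) →
  ∀ h h' : ℝ → ℝ, Gd h h' →
    |(sysS N L k β hN hβ).ker (hm N) Λ
        (fun X => h (fl β w G Λ X + fl β w' G' Λ X) * fl β (sc N L ψ) G Λ X) σ -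
      (∑ b ∈ Λ, w b * ψ b) *
        (sysS N L k β hN hβ).ker (hm N) Λ (fun X => h' (fl β w G Λ X + fl β w' G' Λ X)) σ| ≤
      C * (L : ℝ) ^ K * (Λ.card : ℝ) ^ 2 * (β ^ 2 * (r ^ 2 * Real.sqrt (Real.sqrt r)) +
        β ^ 2 * (Real.exp (-β * t) * (C * (L : ℝ) ^ K * β) ^ (D * L ^ 2 * Λ.card) +
          Real.exp (-β / C)))

def S_QJ : Prop := ∀ (N k : ℕ) (hN : 2 ≤ N), Nat.Coprime k N → ∀ P Q : SU N, PQ k P Q →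
  ∀ (C₁ : ℝ) (K₁ : ℕ), ∃ (C : ℝ) (K D : ℕ), 1 ≤ C ∧ ∀ (L : ℕ) [NeZero L] (β : ℝ) (hβ : 0 ≤ β), 1 ≤ β →
  ∀ (E : Tor L → Mt N) (G : Ph N L → ℝ), Mod N L P Q (C₁ * (L : ℝ) ^ K₁) E G →
  ∀ (E' : Tor L → Mt N) (G' : Ph N L → ℝ), Mod N L P Q (C₁ * (L : ℝ) ^ K₁) E' G' →
    ∑ y, ip (E y) (E' y) = 0 →
  ∀ (Λ : Finset Pl) (e t r : ℝ), 0 ≤ e → 0 ≤ t → r = C * (L : ℝ) ^ K * Λ.card * (Λ.card * e + t) →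
    1 / β ≤ r → C * (L : ℝ) ^ K * Λ.card * (β * (r * Real.sqrt (Real.sqrt r))) ≤ 1 →
  ∀ η : Cf N L, (∀ τ ∈ rng Λ, en k η τ ≤ e) →
  ∀ ψ w w' : Pl → ℝ, (∀ x, |ψ x| ≤ 1) → (∀ x, |w x| ≤ 1) → (∀ x, |w' x| ≤ 1) →
    (∀ x, ψ x ≠ 0 → Nb 1 x ⊆ Λ) →
  ∀ h h' : ℝ → ℝ, Gd h h' →
    |(sysS N L k β hN hβ).ker (hm N) Λ
        (fun X => h (fl β w G Λ X + fl β w' G' Λ X) * fl β (sc N L ψ) G Λ X) η -
      (∑ b ∈ Λ, w b * ψ b) *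
        (sysS N L k β hN hβ).ker (hm N) Λ (fun X => h' (fl β w G Λ X + fl β w' G' Λ X)) η| ≤
      C * (L : ℝ) ^ K * (Λ.card : ℝ) ^ 2 * (β ^ 2 * (r ^ 2 * Real.sqrt (Real.sqrt r)) +
        β ^ 2 * (Real.exp (-β * t) * (C * (L : ℝ) ^ K * β) ^ (D * L ^ 2 * Λ.card) +
          Real.exp (-β / C)))

def S_QK : Prop := ∀ (N k : ℕ), 2 ≤ N → Nat.Coprime k N → ∀ P Q : SU N, PQ k P Q →
  ∀ (C₁ : ℝ) (K₁ : ℕ), ∃ (C₀ : ℝ) (K₀ : ℕ), 2 ≤ C₀ ∧ ∀ (L : ℕ) [NeZero L] (β : ℝ) (n : ℕ),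
  C₀ * ((L : ℝ) * (n + 1)) ^ K₀ ≤ β →
  ∀ (E : Tor L → Mt N) (G : Ph N L → ℝ), Mod N L P Q (C₁ * (L : ℝ) ^ K₁) E G →
  ∀ (E' : Tor L → Mt N) (G' : Ph N L → ℝ), Mod N L P Q (C₁ * (L : ℝ) ^ K₁) E' G' →
    ∑ y, ip (E y) (E' y) = 0 →
  ∃ m₀ : ℕ, ∀ R : Finset Pl, Nb m₀ 0 ⊆ R →
  ∀ ψ w w' : Pl → ℝ, (∀ x, |ψ x| ≤ 1) → (∀ x, |w x| ≤ 1) → (∀ x, |w' x| ≤ 1) →
    (∀ x, ψ x ≠ 0 → x ∈ Nb n 0) →
  ∀ h h' : ℝ → ℝ, Gd h h' →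
    |wex N L k β R (fun X => h (fl β w G (Nb (n + 1) 0) X + fl β w' G' (Nb (n + 1) 0) X) *
        fl β (sc N L ψ) G (Nb (n + 1) 0) X) -
      (∑ b ∈ Nb (n + 1) 0, w b * ψ b) *
        wex N L k β R (fun X => h' (fl β w G (Nb (n + 1) 0) X + fl β w' G' (Nb (n + 1) 0) X))| ≤
      β ^ (-(1 / 5) : ℝ)

/-! ### QN : truncated resolvent of the lattice

`A ψ x` = sum of `ψ` over the four neighbours, `sc ψ = (4 + μ²) ψ - A ψ`, `t = 1 / (4 + μ²)`, `μ² = mu2 N L`,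
`ψ = ∑_{j < J} t^(j+1) A^j w`, so `w - sc ψ = t^J A^J w`; `|A^j w| ≤ 4^j B`, `∑ |A^j w| ≤ 4^j B₁`,
`t / (1 - 4 t) = 1 / μ²`, `(4 t)^J = (1 + μ² / 4)^(-J) ≤ 4 / (μ² J)`. -/

def S_QN : Prop := ∀ (N L n J : ℕ), 0 < mu2 N L → 1 ≤ J → ∀ (w : Pl → ℝ) (B B₁ : ℝ),
  (∀ x, w x ≠ 0 → x ∈ Nb n 0) → (∀ x, |w x| ≤ B) → ∑ x ∈ Nb n 0, |w x| ≤ B₁ →
  ∃ ψ : Pl → ℝ, (∀ x, ψ x ≠ 0 → x ∈ Nb (n + J) 0) ∧ (∀ x, |ψ x| ≤ B / mu2 N L) ∧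
    (∀ x, |w x - sc N L ψ x| ≤ B * (4 / (mu2 N L * J))) ∧
    ∑ x ∈ Nb (n + J + 1) 0, |w x - sc N L ψ x| ≤ B₁ * (4 / (mu2 N L * J))

/-- QM : maximum principle: with `M = sup |e|`, `(4 + μ²) |e x| ≤ δ + 4 M` -/
def S_QM : Prop := ∀ (N L : ℕ), 0 < mu2 N L → ∀ (e : Pl → ℝ) (M δ : ℝ), (∀ x, |e x| ≤ M) →
  (∀ x, |sc N L e x| ≤ δ) → ∀ x, |e x| ≤ δ / mu2 N L

/-! ### QT : discretisation error (port of VT; the bounds of the derivatives are assumed) -/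

/-- `Ψ` is of class `C⁴` with bounded derivatives -/
def Bd4 (Ψ : ℝ × ℝ → ℝ) : Prop :=
  ContDiff ℝ 4 Ψ ∧ ∃ C : ℝ, ∀ i : ℕ, i ≤ 4 → ∀ p, ‖iteratedFDeriv ℝ i Ψ p‖ ≤ C

def S_QT : Prop := ∀ N : ℕ, 2 ≤ N → ∀ Ψ : ℝ × ℝ → ℝ, Bd4 Ψ → HasCompactSupport (srcc N Ψ) →
  Continuous (srcc N Ψ) ∧ (∃ r : ℕ, ∀ p : ℝ × ℝ, (r : ℝ) ≤ |p.1| ∨ (r : ℝ) ≤ |p.2| →
    srcc N Ψ p = 0) ∧
  ∃ C : ℝ, 1 ≤ C ∧ (∀ p, |Ψ p| ≤ C) ∧ (∀ p, |srcc N Ψ p| ≤ C) ∧ ∀ L : ℕ, 1 ≤ L → ∀ x : Pl,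
    |sc N L (rs L Ψ) x - rs L (srcc N Ψ) x / (L : ℝ) ^ 2| ≤ C / (L : ℝ) ^ 4

/-! ### QG : the Green function of `- Δ + m²` on the plane

`GK m p = ∫_0^∞ exp (- m² t) h_t(p) dt`, `h_t(p) = exp (- |p|² / (4 t)) / (4 π t)`. `GK m ≥ 0` is integrable
(`∫ h_t = 1`), so `Ψ = GK m ⋆ F` is of class `C⁴` and its derivatives are the convolutions with those of
`F` (Mathlib: `HasCompactSupport.contDiff_convolution_right`, `hasFDerivAt_convolution_right`; or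
differentiate under the integral), bounded by `‖GK‖₁ sup |D^i F|`. `(m² - Δ) Ψ (p) = ∫ GK m q ((m² - Δ) F) (p - q) dq
= ∫_0^∞ exp (- m² t) u (t) dt` with `u (t) = ∫ h_t(q) ((m² - Δ) F) (p - q) dq = m² v - v'`,
`v (t) = ∫ h_t(q) F (p - q) dq = ∫ h_1(z) F (p - √t z) dz → F p` as `t → 0` (`v' = ∫ h_t Δ F`: heat equation
for `h_t` and integration by parts, or the formula with `z` and Gaussian integration by parts), so it is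
`- [exp (- m² t) v (t)]_0^∞ = F p`. -/

def GK (m : ℝ) (p : ℝ × ℝ) : ℝ :=
  ∫ t in Set.Ioi (0 : ℝ), Real.exp (-(m ^ 2 * t) - (p.1 ^ 2 + p.2 ^ 2) / (4 * t)) / (4 * Real.pi * t)

def S_QG : Prop := ∀ m : ℝ, 0 < m → ∀ F : ℝ × ℝ → ℝ, ContDiff ℝ 4 F → HasCompactSupport F →
  Bd4 (fun p => ∫ q, GK m (p - q) * F q) ∧
  ∀ p, m ^ 2 * (∫ q, GK m (p - q) * F q) - lapc (fun p => ∫ q, GK m (p - q) * F q) p = F p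

end T2H02.TT
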