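import Pool.Agent.T2H02.TT.StmW

/-!
# Wave 5, second part: upper bound of the mass gap by the Ward identity of the Polyakov loops

Package `Y` proves `theorem pY : S_Y` in `Pool/Agent/T2H02/TT/Y.lean` (namespace `T2H02.TT.PkgY` for
the lemmas): UM UT UI UJ UK UR.
-/

set_option autoImplicit false

noncomputable section

open MeasureTheory Matrix
open scoped Matrix.Norms.Frobenius

namespace T2H02.TT

/-- `- Δ` on the plane -/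
def lap (ψ : Pl → ℝ) (x : Pl) : ℝ :=
  4 * ψ x - ψ (x + (1, 0)) - ψ (x - (1, 0)) - ψ (x + (0, 1)) - ψ (x - (0, 1))

section

variable {N L : ℕ} [NeZero L]

/-- centre transformation of torus configurations in the direction `0` -/
def cph (φ : Ph N L) : Ph N L := fun y j => if j = 0 ∧ y.1 = -1 then cen N 1 * φ y j else φ y j

/-- `E` is a normalised mode of the lightest gluon, `G` a gauge invariant function whose linearisation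
at the vacuum is the component along `E` of the links in the torus direction `0` -/
def Mod (N L : ℕ) [NeZero L] (P Q : SU N) (C : ℝ) (E : Tor L → Mt N) (G : Ph N L → ℝ) : Prop :=
  (∀ y, E y ∈ su N) ∧ (∑ y, ‖E y‖ ^ 2 = 1) ∧ (∀ y, dd (vac P Q) E y 0 = 0) ∧
  (∀ b : Tor L → Mt N, (∀ y, b y ∈ su N) →
    ∑ y, ip (dd (vac P Q) b y 1) (dd (vac P Q) E y 1) = mu2 N L * ∑ y, ip (b y) (E y)) ∧
  Continuous G ∧ (∀ (g : Tor L → SU N) (φ : Ph N L), G (act g φ) = G φ) ∧ (∀ φ, |G φ| ≤ C) ∧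
  (∀ φ, ∑ n ∈ Finset.range N, G (cph^[n] φ) = 0) ∧
  ∀ (φ : Ph N L) (a : Tor L → Fin 2 → Mt N) (ρ : ℝ), 0 ≤ ρ → ρ ≤ 1 →
    (∀ y j, ‖a y j‖ ≤ ρ ∧ ‖(φ y j : Mt N) - (1 + a y j) * (vac P Q y j : Mt N)‖ ≤ ρ ^ 2) →
    |G φ - ∑ y, ip (a y 0) (E y)| ≤ C * ρ ^ 2

/-- the shift field: `s ψ(x) E(y)` on the torus links in the direction `0` -/
def shm (s : ℝ) (ψ : Pl → ℝ) (E : Tor L → Mt N) : Lk L → Mt N := fun l =>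
  if l.2 = 2 then ((s * ψ l.1.1 : ℝ) : ℂ) • E l.1.2 else 0

/-- `G` at `b` times the source `(- Δ + μ²) ψ` of `G` -/
def obs (ψ : Pl → ℝ) (G : Ph N L → ℝ) (Λ : Finset Pl) (b : Pl) (X : Cf N L) : ℝ :=
  G (pt X b) * ∑ x ∈ Λ, (lap ψ x + mu2 N L * ψ x) * G (pt X x)

end

/-! ### UM : the mode and the observable (uses A3 A4 B0 E4)

`P Q = ω Q P`, `ω = om N k`. Choose `a ∈ [1, N)` with `k a ≡ 1` modulo `N`, `W = P^a` : `Q W Q⁻¹ = ζ⁻¹ W`,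
`ζ = om N 1`, `tr W = 0` (A4). `z(y) = exp (2 π i y.2.val / (N L))`, `c > 0`, `u ∈ {1, i}`:
`E(y) = c i (u z(y) W⁻¹ + conj (u z(y)) W)` is anti-hermitian and traceless, `E(y) = Adj P E(y)` and `E`
does not depend on `y.1`, so `dd E y 0 = 0`. `S_1 E y = Adj (vac y 1) (E (tsh y 1))` is the same with
`u` replaced by `u exp (2 π i / (N L))` (at `y.2 = -1` use `Adj Q W⁻¹ = ζ W⁻¹`); so
`(1 - S_1)* (1 - S_1) E = |1 - exp (2 π i / (N L))|² E = mu2 E` (`S_1` is unitary). For one of the two `u`: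
`∑_y ‖i (u z W⁻¹ + cc) ‖² ≥ 2 N L²` (the sum of both values is `4 N L²`); choose `c` to normalise.
`G φ = (2 c / (a L)) ∑_y Im (conj (u z(y)) tr ((hol φ 0 L y)^a))`. Near the vacuum `tr (hol^a) =
a ∑_{i < L} t (y + i e_0) + O(ρ²)`, `t(y) = tr (a_0(y) P^a)` (`a_0 = a · 0`, `tr P^a = 0`, conjugation by `P`
does not change `t`), and `2 c Im (conj (u z) t) = ip (a_0 y) (E y)` for `a_0 y ∈ su N`; in general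
`a y j` is in `su N` up to `O(ρ²)` because `φ y j (vac y j)⁻¹ ∈ SU N` (E4). Constants polynomial in `L`.
`cph` multiplies each `hol φ 0 L y` by `cen N 1` (one crossing of `y.1 = -1`), so the sum over `n < N` is a
geometric sum of `exp (2 π i a n / N)`, `N ∤ a`. -/

def S_UM : Prop := ∀ N k : ℕ, 2 ≤ N → Nat.Coprime k N → ∀ P Q : SU N, PQ k P Q →
  ∃ (C : ℝ) (K : ℕ), 1 ≤ C ∧ ∀ (L : ℕ) [NeZero L], ∃ (E : Tor L → Mt N) (G : Ph N L → ℝ),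
    Mod N L P Q (C * (L : ℝ) ^ K) E G

/-! ### UT1, UT2 : quadratic form of the shift field, Lipschitz bound of the change of variables

UT1 (uses B0): `h = shm 1 ψ E`. Torus terms: `cu h (x,y) 2 3 = ψ x dd E y 1` and
`∑_y ip (cu a (x,y) 2 3) (dd E y 1) = mu2 ∑_y ip (a ((x,y),2)) (E y)`, because
`cu a (x,y) 2 3 = dd (a ((x,·),2)) y 1 - dd (a ((x,·),3)) y 0` and `∑ ip (dd b y 0) (dd E y 1) = 0` (move
`(1 - S_0)*` to `(1 - S_1) E`; `S_0`, `S_1` unitary and commuting (B0), `S_0 E = E`). Mixed terms: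
`cu h (x,y) m 2 = (ψ (x+e_m) - ψ x) E y`, `cu h (x,y) m 3 = 0`, and `∑_y ip (cu a (x,y) m 2) (E y) =
∑_y ip (a ((x+e_m,y),2) - a ((x,y),2)) (E y)` (`∑ ip (dd b y 0) (E y) = 0`). Plane terms: `0`. Sum by parts;
all bonds meeting the support of `ψ` belong to terms of `tml Λ`.
UT2 (uses E3u E4): `TM` multiplies every link by one factor `E M` with `‖M‖ ≤ C ‖h l‖`, and
`‖E M - 1‖ ≤ C ‖M‖` (for large `M` because `‖E M‖ = √N`). -/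

def S_UT1 : Prop := ∀ N k : ℕ, 2 ≤ N → Nat.Coprime k N → ∀ P Q : SU N, PQ k P Q →
  ∀ (L : ℕ) [NeZero L] (E : Tor L → Mt N), (∀ y, E y ∈ su N) → (∀ y, dd (vac P Q) E y 0 = 0) →
    (∀ b : Tor L → Mt N, (∀ y, b y ∈ su N) →
      ∑ y, ip (dd (vac P Q) b y 1) (dd (vac P Q) E y 1) = mu2 N L * ∑ y, ip (b y) (E y)) →
    ∀ (Λ : Finset Pl) (ψ : Pl → ℝ), (∀ x, ψ x ≠ 0 → Nb 1 x ⊆ Λ) →
    ∀ a : Lk L → Mt N, (∀ l, a l ∈ su N) →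
      ∑ τ ∈ tml Λ, bf P Q τ a (shm 1 ψ E) =
        ∑ x ∈ Λ, (lap ψ x + mu2 N L * ψ x) * ∑ y : Tor L, ip (a ((x, y), 2)) (E y)

def S_UT2 : Prop := ∀ N : ℕ, 2 ≤ N → ∀ (P Q : SU N) (Ex : Mt N → SU N) (C₀ : ℝ), GE N Ex C₀ →
  ∃ C : ℝ, 1 ≤ C ∧ ∀ (L : ℕ) [NeZero L] (h : Lk L → Mt N) (ρ : ℝ) (X : Cf N L), 0 ≤ ρ →
    (∀ l, ‖h l‖ ≤ ρ) → ∀ l, ‖(TM P Q Ex h X l : Mt N) - (X l : Mt N)‖ ≤ C * ρ

/-! ### UI, UJ : the Ward identity in a finite volume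

UI (uses D1u E4 F5 Gu G3u Ju JI JM Ku L1u L2u UT1 UT2; the structure is that of M1u). `n = #Λ`,
`s = r^(3/4) = √r √√r`, `h = shm s ψ E`, `TM = TM P Q Ex h` with `Ex` from E4, `W` = product of the weights of
`tml Λ`, `Z` its integral, `⟨·⟩ = ker Λ · σ`, `Q = ∑_x (lap ψ + mu2 ψ) G_x`, `A` = event that all terms of `tml Λ`
have energy `≤ e₂ = C L^K n e + t`; `⟨1 - 1_A⟩ ≤ p₁ = exp (-β t) (C L^K β)^(D L² n)` (Gu, G3u as in M1u).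
(1) exact invariance (JM, `h = 0` off `Frl Λ`): `⟨G_b 1_A⟩ = ⟨(G_b 1_A)(TM X) W(TM X) / W(X)⟩`.
(2) if `TM X ∈ A` then all energies of `X` are `≤ e₃ = 2 e₂ + C L^K s²` (UT2, G3u): call this event `A₃`.
(3) for `X ∈ A₃` (with the boundary values `σ`) there is a gauge and centre transformation, trivial off
`Λ`, after which all links over `pls Λ` are within `ρ`, `ρ² = C L^K (e₃ + e) ≤ r`, of the vacuum (claim of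
M1u; D1u, Ju); `TM`, the weights and `G_x` are invariant (JI). With `a l = pr ((X l) (vc l)⁻¹ - 1)` (E4,
L1u, L2u, L3u, Ku, UT1): `log (W(TM X) / W(X)) = - β s Q(X) + O(β C L^K n r^(3/2)) + O(n exp (-β/C))`
(`∑ bf a h = s ∑ (lap ψ + mu2 ψ) ∑ ip a_x E`, `= s (Q + O(C L^K n r))`; `∑ bf h h = O(L^K n s²)`),
`G_b (TM X) = G_b X + s ψ(b) + O(C L^K r)`, `|G_x| ≤ C L^K √r`, `|β s Q| ≤ C L^K n β r^(5/4) ≤ 1`.
(4) so `⟨G_b 1_A⟩ = ⟨1_(TM X ∈ A) (G_b + s ψ(b) + O(C L^K r)) (1 - β s Q + O(C L^K n² (β r^(3/2) + β² r^(5/2))))⟩`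
and the indicator may be replaced by `1`: for bounded `Ψ`,
`⟨|Ψ| 1_(A₃, TM X ∉ A)⟩ ≤ 3 sup |Ψ| ⟨1_(TM X ∉ A) W(TM X) / W(X)⟩ = 3 sup |Ψ| ⟨1 - 1_A⟩` (the ratio is
`≥ 1/3` on `A₃`), and `⟨1 - 1_(A₃)⟩ ≤ p₁` as `A ⊆ A₃`.
(5) subtract `⟨G_b⟩`, divide by `s`: `|β ⟨G_b Q⟩ - ψ(b)| ≤ C L^K n² (r^(1/4) + β r^(5/4) + β² r^(9/4)) + bad
terms`, and `β r ≥ 1`.
UJ (uses A1 D1u F5 Ju JI JM UI): as Mu: gauge and centre transformation of the boundary values; `obs` is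
invariant under `gau` and `cmv`. -/

def S_UI : Prop := ∀ (N k : ℕ) (hN : 2 ≤ N), Nat.Coprime k N → ∀ P Q : SU N, PQ k P Q →
  ∀ (C₁ : ℝ) (K₁ : ℕ), ∃ (C : ℝ) (K D : ℕ), 1 ≤ C ∧ ∀ (L : ℕ) [NeZero L] (β : ℝ) (hβ : 0 ≤ β), 1 ≤ β →
  ∀ (E : Tor L → Mt N) (G : Ph N L → ℝ), Mod N L P Q (C₁ * (L : ℝ) ^ K₁) E G →
  ∀ (Λ : Finset Pl) (e t r : ℝ), 0 ≤ e → 0 ≤ t → r = C * (L : ℝ) ^ K * Λ.card * (Λ.card * e + t) →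
    1 / β ≤ r → C * (L : ℝ) ^ K * Λ.card * (β * (r * Real.sqrt (Real.sqrt r))) ≤ 1 →
  ∀ σ : Cf N L, (∀ l, l ∉ Frl L Λ → (∀ a ∈ st l, a ∈ pls Λ) →
      ‖(σ l : Mt N) - (vc P Q l : Mt N)‖ ^ 2 ≤ e) →
  ∀ ψ : Pl → ℝ, (∀ x, |ψ x| ≤ 1) → (∀ x, ψ x ≠ 0 → Nb 1 x ⊆ Λ) → ∀ b ∈ Λ,
    |β * (sysS N L k β hN hβ).ker (hm N) Λ (obs ψ G Λ b) σ - ψ b| ≤
      C * (L : ℝ) ^ K * (Λ.card : ℝ) ^ 2 * (β ^ 2 * (r ^ 2 * Real.sqrt (Real.sqrt r)) +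
        β ^ 2 * (Real.exp (-β * t) * (C * (L : ℝ) ^ K * β) ^ (D * L ^ 2 * Λ.card) +
          Real.exp (-β / C)))

def S_UJ : Prop := ∀ (N k : ℕ) (hN : 2 ≤ N), Nat.Coprime k N → ∀ P Q : SU N, PQ k P Q →
  ∀ (C₁ : ℝ) (K₁ : ℕ), ∃ (C : ℝ) (K D : ℕ), 1 ≤ C ∧ ∀ (L : ℕ) [NeZero L] (β : ℝ) (hβ : 0 ≤ β), 1 ≤ β →
  ∀ (E : Tor L → Mt N) (G : Ph N L → ℝ), Mod N L P Q (C₁ * (L : ℝ) ^ K₁) E G →
  ∀ (Λ : Finset Pl) (e t r : ℝ), 0 ≤ e → 0 ≤ t → r = C * (L : ℝ) ^ K * Λ.card * (Λ.card * e + t) →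
    1 / β ≤ r → C * (L : ℝ) ^ K * Λ.card * (β * (r * Real.sqrt (Real.sqrt r))) ≤ 1 →
  ∀ η : Cf N L, (∀ τ ∈ rng Λ, en k η τ ≤ e) →
  ∀ ψ : Pl → ℝ, (∀ x, |ψ x| ≤ 1) → (∀ x, ψ x ≠ 0 → Nb 1 x ⊆ Λ) → ∀ b ∈ Λ,
    |β * (sysS N L k β hN hβ).ker (hm N) Λ (obs ψ G Λ b) η - ψ b| ≤
      C * (L : ℝ) ^ K * (Λ.card : ℝ) ^ 2 * (β ^ 2 * (r ^ 2 * Real.sqrt (Real.sqrt r)) +
        β ^ 2 * (Real.exp (-β * t) * (C * (L : ℝ) ^ K * β) ^ (D * L ^ 2 * Λ.card) +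
          Real.exp (-β / C)))

/-! ### UK : the Ward identity for the Wilson expectation in large finite volumes
(uses F4 F5 Hu OA UJ; compare `PB.lean`)

`Λ = Nb (n+1) 0`, `f = obs ψ G Λ b` depends only on torus links. By OA with `s = 0` (`wch N β 0 = wt`,
`exp (-β en1) = wt` for the other kinds) and `wact_eq`, for `f` and for `1`:
`wex R f = ex (tin R) f`. By F4 `ex (tin R) f = ex (tin R) (ker Λ f)` if `tml Λ ⊆ tin R`. Except with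
probability `p₂ = (R' + 1) exp (-β t') (C L^K β)^(D L² #bal (R'+1) Λ')`, `Λ' = Nb (n+3) 0` (F4 with
`Δ = bal (R'+1) Λ'`, Hu with `B = Λ'`, `Λ = Δ`, no fixed terms inside, `e = 0`), all terms of `rng Λ` have
energy `≤ e = C L^K (#bal (R'+1) Λ' exp (-R' / (C L^K)) + t')`; there UJ applies, elsewhere
`|β ker Λ f| ≤ C L^K β n²`. Choose `R' = C' L^K' log β`, `t = t'` = `C' (L (n+1))^K' (log β)^2 / β`, then
`r ≤ (L (n+1))^K'' (log β)^K'' / β`; all errors are at most `(L (n+1))^K (log β)^K β^(-1/4) ≤ β^(-1/5)` for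
`β ≥ C₀ (L (n+1))^K₀`. -/

def S_UK : Prop := ∀ (N k : ℕ), 2 ≤ N → Nat.Coprime k N → ∀ P Q : SU N, PQ k P Q →
  ∀ (C₁ : ℝ) (K₁ : ℕ), ∃ (C₀ : ℝ) (K₀ : ℕ), 2 ≤ C₀ ∧ ∀ (L : ℕ) [NeZero L] (β : ℝ) (n : ℕ),
  C₀ * ((L : ℝ) * (n + 1)) ^ K₀ ≤ β →
  ∀ (E : Tor L → Mt N) (G : Ph N L → ℝ), Mod N L P Q (C₁ * (L : ℝ) ^ K₁) E G →
  ∃ m₀ : ℕ, ∀ R : Finset Pl, Nb m₀ 0 ⊆ R →
  ∀ ψ : Pl → ℝ, (∀ x, |ψ x| ≤ 1) → (∀ x, ψ x ≠ 0 → x ∈ Nb n 0) → ∀ b ∈ Nb n 0,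
    |β * wex N L k β R (obs ψ G (Nb (n + 1) 0) b) - ψ b| ≤ β ^ (-(1 / 5) : ℝ)

/-! ### UR : real analysis

`θ > 0` with `2 cosh θ = 2 + μ² + κ`, i.e. `θ = 2 arsinh (√(μ² + κ) / 2) ≤ (1 + ε/4) 2 arsinh (μ/2)` if
`κ ≤ μ² / C`. `d t = c t - exp (-θ) c (t-1)` satisfies `d (t+1) = exp θ d t + O(η)`, and
`d (T+1) ≥ - 2 c 0` as `|c t| ≤ c 0`; so `c 1 ≥ exp (-θ) c 0 - 2 exp (-θ T) c 0 - η / (exp θ - 1)`. The
equation at `0` gives `c 0 ≥ (1 - η) / (4 + μ² + κ) ≥ 1/10`. Hence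
`exp (-m) ≥ exp (-θ) - 2 exp (-θ T) - 10 η / θ`, and the right side is at least
`exp (-(1+ε) 2 arsinh (μ/2))` because `θ ≥ μ / 2`, `exp (-θ T) ≤ exp (-C / (2 μ))`, `η ≤ μ² / C`. -/

def S_UR : Prop := ∀ ε : ℝ, 0 < ε → ε < 1 → ∃ C : ℝ, 1 ≤ C ∧
  ∀ (μ κ η m : ℝ) (T : ℕ) (c : ℕ → ℝ), 0 < μ → μ ≤ 2 → 0 ≤ κ → κ ≤ μ ^ 2 / C → 0 ≤ η →
    η ≤ μ ^ 2 / C → C / μ ^ 2 ≤ T → (∀ t, t ≤ T + 1 → |c t| ≤ c 0) →
    |(2 + μ ^ 2 + κ) * c 0 - 2 * c 1 - 1| ≤ η →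
    (∀ t, 1 ≤ t → t ≤ T → |(2 + μ ^ 2 + κ) * c t - c (t + 1) - c (t - 1)| ≤ η) →
    c 1 ≤ Real.exp (-m) * c 0 → m ≤ (1 + ε) * (2 * Real.arsinh (μ / 2))

end T2H02.TT
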