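import Pool.Agent.T2H02.TT.StmU
import Pool.Agent.T2H02.TT.Stm5
import Pool.Agent.T2H02.TT.Fin9

/-!
# Wave 5: the exact limit of the mass gap

The aim: for every `ε > 0` and all `β ≥ C L^K` (`C`, `K` depending on `ε`) the mass gap lies between
`(1 - ε) mgp` and `(1 + ε) mgp`, `mgp = 2 arsinh (sin (π / (N L)))` (the mass of the lightest gluon
with fractional momentum).

Package `Y` proves `theorem pY : S_Y` in `Pool/Agent/T2H02/TT/Y.lean` (namespace `T2H02.TT.PkgY` for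
the lemmas). Lower bound: Cs I1s Is M0g M1g Mg Xg Z1g Zg P1g. Upper bound: UM UT UI UJ UK UR.
`(L : ℝ) ≥ 1` always; powers of `L` can be enlarged at will.
-/

set_option autoImplicit false

noncomputable section

open MeasureTheory Matrix
open scoped Matrix.Norms.Frobenius

namespace T2H02.TT

/-- the smallest eigenvalue `4 sin² (π / (N L))` -/
def mu2 (N L : ℕ) : ℝ := 4 * Real.sin (Real.pi / (N * L)) ^ 2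

/-- the mass of the lightest gluon -/
def mgp (N L : ℕ) : ℝ := 2 * Real.arsinh (Real.sin (Real.pi / (N * L)))

/-! ### Cs : sharp linear estimates on the torus (uses A3 B0 B3)

On the complex Hilbert space of functions `Tor L → Mt N` (Frobenius) the operators
`S_j lam y = Adj (vac y j) (lam (tsh y j))` are unitary, commute (B0) and `S_j ^ (N L) = 1` (`S_0^L` is
`Ad P`, `S_1^L` is `Ad Q`, and `P^N`, `Q^N` are scalars). For a unitary `S` with `S^n = 1` and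
`Π = (1/n) ∑_j S^j` : `‖(1 - S) v‖² ≥ 4 sin² (π/n) ‖v - Π v‖²` (decompose `v = ∑_z Π_z v` over the `n`-th
roots of unity `z`, `Π_z = (1/n) ∑_j z^(-j) S^j` orthogonal projections; `|1 - z|² ≥ 4 sin² (π/n)` for
`z ≠ 1`). C1s: `‖(1-S_0) v‖² ≥ μ² ‖v - Π_0 v‖²`, `‖(1-S_1) v‖² ≥ ‖(1-S_1) Π_0 v‖² ≥
μ² ‖Π_0 v - Π_1 Π_0 v‖²` and `Π_1 Π_0 v = 0` for `v` with traces `0` (it is invariant under `S_0`, `S_1`: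
B3). C2s: with `A_j = 1 - S_j`: `‖crl a‖² = ‖crl a‖² + ‖A_0* a_0 + A_1* a_1‖² = ∑_{i,j} ‖A_j a_i‖²` (cross
terms cancel, `A_j` normal and commuting), and C1s for `a_0`, `a_1`. -/

def S_C1s : Prop := ∀ N k : ℕ, 2 ≤ N → Nat.Coprime k N → ∀ P Q : SU N, PQ k P Q →
  ∀ (L : ℕ) [NeZero L] (lam : Tor L → Mt N), (∀ y, (lam y).trace = 0) →
    mu2 N L * ∑ y, ‖lam y‖ ^ 2 ≤ ∑ y, ∑ j, ‖dd (vac P Q) lam y j‖ ^ 2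

def S_C2s : Prop := ∀ N k : ℕ, 2 ≤ N → Nat.Coprime k N → ∀ P Q : SU N, PQ k P Q →
  ∀ (L : ℕ) [NeZero L] (a : Tor L → Fin 2 → Mt N), (∀ y j, a y j ∈ su N) →
    (∀ mu : Tor L → Mt N, (∀ y, mu y ∈ su N) → ∑ y, ∑ j, ip (a y j) (dd (vac P Q) mu y j) = 0) →
    mu2 N L * ∑ y, ∑ j, ‖a y j‖ ^ 2 ≤ ∑ y, ‖crl (vac P Q) a y‖ ^ 2

/-! ### I1s, Is : the linear problem with the sharp rate

I1s (uses B0 C1u C2u; port of I1u): the same `h`, Coulomb gauge at every site of `Λ`; the sum of all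
`‖h l‖²` is at most `C L^K ∑_{tml Λ} bf h h + C L^K ∑_{bdl} ‖kk‖²` (last estimate of I1u) and
`∑ bf h h ≤ ∑ bf kk' kk'`, `kk' = kk` off `Frl Λ`, `0` on `Frl Λ`.

Is (uses I1s C1s C2s). It is enough to treat `B = {b}` (a link of `Frl B` is in `Frl {b}` for some
`b ∈ B`, and `bal R {b} ⊆ bal R B`) and `R ≥ 8`. `T_x` = torus components of `h` at `x`, `h_m(x)` = plane
components, functions of `y ∈ Tor L`; everything vanishes on the links off `Frl Λ` inside the ball.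
`ρ = (1 - ε) mgp`, `2 sinh (ρ/2) ≤ (1 - ε) μ` (convexity of `sinh`), `μ² = mu2`. Weight
`w_x = exp (-ρ max (|x - b|, 1))` for `|x - b| ≤ R' := R - 4`, `0` outside (sup distance). For neighbours
`x, x'` with `w_x ≠ w_x'` both positive: `(w_x - w_x')² = (2 sinh (ρ/2))² w_x w_x'`, and every site has at
most two such neighbours.
Torus part: test with `a = w_x² T_x` on torus links, `0` on plane links. With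
`cu h (x,y) m (j+2) = dd (h_m x) y j + (T_(x+e_m) - T_x)_j`, `cu h (x,y) 2 3 = crl T_x y` and the Coulomb
condition (`∑ ip T_x (dd (h_m x)) = 0`): `0 = ∑ bf a h = ∑_x w_x² ‖crl T_x‖² +
∑_{x,m} ip (w'² T' - w² T) (T' - T)`, and `ip (w'² T' - w² T) (T' - T) = ‖w' T' - w T‖² - (w' - w)² ip T T'`.
So `μ² ∑ w² ‖T‖² ≤ ∑ w² ‖crl T‖² ≤ ∑_{bonds} (w'-w)² ‖T‖ ‖T'‖ ≤ (1-ε)² μ² ∑ w² ‖T‖² +
2 exp (-2 ρ R') ∑ ‖T‖²` (C2s; the last term from the bonds at `|x - b| = R'`).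
Plane part: `F_x y = cu h (x,y) 0 1`. Testing with `M y ∈ su N` on one free family `((x,·),m)`:
`∑ ip (dd M) (dd (h_m x)) + ∑_y ip (M y) ((curl* F) y) = 0` (Coulomb at both ends), `curl* F` = difference of
`F` at the two plane plaquettes of the link. As `F_x` is the signed sum of its four `h_l` (`h_l = 0` for
links which are not free): `∑_x w_x² ‖dd F_x‖² = - ∑_{l free} ip ((curl* F)_l) ((curl* (w² F))_l) ≤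
∑_{l free} (w_p - w_p')² ‖F_p‖ ‖F_p'‖`, and C1s as before. Then for free `l` at `b`:
`μ² ‖h_l‖² ≤ ‖dd h_l‖² = - ip h_l (curl* F)_l`. -/

def S_I1s : Prop := ∀ N k : ℕ, 2 ≤ N → Nat.Coprime k N → ∀ P Q : SU N, PQ k P Q →
  ∃ (C : ℝ) (K : ℕ), 1 ≤ C ∧ ∀ (L : ℕ) [NeZero L] (Λ : Finset Pl) (kk : Lk L → Mt N),
    (∀ l, kk l ∈ su N) →
    ∃ h : Lk L → Mt N, (∀ l, h l ∈ su N) ∧ (∀ l, l ∉ Frl L Λ → h l = kk l) ∧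
      (∀ a : Lk L → Mt N, (∀ l, a l ∈ su N) → (∀ l, l ∉ Frl L Λ → a l = 0) →
        ∑ τ ∈ tml Λ, bf P Q τ a h = 0) ∧
      (∀ x ∈ Λ, ∀ mu : Tor L → Mt N, (∀ y, mu y ∈ su N) →
        ∑ y : Tor L, ∑ j : Fin 2, ip (h ((x, y), if j = 0 then 2 else 3)) (dd (vac P Q) mu y j) = 0) ∧
      ∑ l ∈ Frl L Λ, ‖h l‖ ^ 2 ≤ C * (L : ℝ) ^ K * ∑ l' ∈ bdl L Λ, ‖kk l'‖ ^ 2

/-- decay of the linear problem with the rate `rt L` -/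
def S_Ig (N k : ℕ) (rt : ℕ → ℝ) : Prop := ∀ P Q : SU N, PQ k P Q →
  ∃ (C : ℝ) (K : ℕ), 1 ≤ C ∧ ∀ (L : ℕ) [NeZero L] (Λ : Finset Pl) (kk : Lk L → Mt N),
    (∀ l, kk l ∈ su N) →
    ∃ h : Lk L → Mt N, (∀ l, h l ∈ su N) ∧ (∀ l, l ∉ Frl L Λ → h l = kk l) ∧
      (∀ a : Lk L → Mt N, (∀ l, a l ∈ su N) → (∀ l, l ∉ Frl L Λ → a l = 0) →
        ∑ τ ∈ tml Λ, bf P Q τ a h = 0) ∧
      (∀ l ∈ Frl L Λ, ‖h l‖ ^ 2 ≤ C * (L : ℝ) ^ K * ∑ l' ∈ bdl L Λ, ‖kk l'‖ ^ 2) ∧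
      ∀ (B : Finset Pl) (R : ℕ), B ⊆ Λ →
        (∀ l, l ∉ Frl L Λ → (∀ a ∈ st l, a ∈ bal R B) → kk l = 0) →
        ∀ l ∈ Frl L B, ‖h l‖ ^ 2 ≤
          C * (L : ℝ) ^ K * Real.exp (-(2 * rt L * R)) * ∑ l' ∈ bdl L Λ, ‖kk l'‖ ^ 2

def S_Is : Prop := ∀ N k : ℕ, 2 ≤ N → Nat.Coprime k N → ∀ ε : ℝ, 0 < ε → ε < 1 →
  S_Ig N k fun L => (1 - ε) * mgp N L

/-! ### M0g, M1g, Mg : ports of M0u, M1u, Mu with the rate `rt L` instead of `c / L` -/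

/-- conclusion of M0u with the rate `rt L` -/
def D_M0 (N k : ℕ) (rt : ℕ → ℝ) : Prop := ∀ P Q : SU N, PQ k P Q →
  ∀ (E : Mt N → SU N) (C₀ : ℝ), GE N E C₀ → ∃ (C : ℝ) (K : ℕ), 1 ≤ C ∧
  ∀ (L : ℕ) [NeZero L] (Λ B : Finset Pl) (R : ℕ) (ρ : ℝ) (σ σ' : Cf N L), B ⊆ Λ → Λ ⊆ bal R B →
    0 ≤ ρ → C * (L : ℝ) ^ K * Λ.card * ρ ^ 2 ≤ 1 →
    (∀ l, l ∉ Frl L Λ → (∀ a ∈ st l, a ∈ pls Λ) →
      ‖(σ l : Mt N) - (vc P Q l : Mt N)‖ ≤ ρ ∧ ‖(σ' l : Mt N) - (vc P Q l : Mt N)‖ ≤ ρ) →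
    (∀ l, l ∉ Frl L Λ → (∀ a ∈ st l, a ∈ bal R B) → σ l = σ' l) →
    ∃ (h : Lk L → Mt N) (c' : ℝ), (∀ l, l ∉ Frl L Λ ∨ l ∈ Frl L B → h l = 0) ∧
      (∀ X : Cf N L, (∀ l, l ∉ Frl L Λ → X l = σ l) →
        (∀ l, (∀ a ∈ st l, a ∈ pls Λ) → ‖(X l : Mt N) - (vc P Q l : Mt N)‖ ≤ ρ) →
        (∀ l, (∀ a ∈ st l, a ∈ pls Λ) →
          ‖((glue (Frl L Λ) (TM P Q E h X) σ' l : SU N) : Mt N) - (vc P Q l : Mt N)‖ ^ 2 ≤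
            C * (L : ℝ) ^ K * Λ.card * ρ ^ 2) ∧
        |∑ τ ∈ tml Λ, (en1 k (glue (Frl L Λ) (TM P Q E h X) σ') τ - en1 k X τ) - c'| ≤
          C * (L : ℝ) ^ K * Λ.card * (Λ.card * ρ ^ 2) *
            (Real.sqrt (Λ.card * ρ ^ 2) + Real.exp (-(rt L * R)))) ∧
      (∀ X : Cf N L, (∀ l, l ∉ Frl L Λ → X l = σ' l) →
        (∀ l, (∀ a ∈ st l, a ∈ pls Λ) → ‖(X l : Mt N) - (vc P Q l : Mt N)‖ ≤ ρ) →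
        (∀ l, (∀ a ∈ st l, a ∈ pls Λ) →
          ‖((glue (Frl L Λ) (TM P Q E (fun l => - h l) X) σ l : SU N) : Mt N) -
            (vc P Q l : Mt N)‖ ^ 2 ≤ C * (L : ℝ) ^ K * Λ.card * ρ ^ 2) ∧
        |∑ τ ∈ tml Λ, (en1 k (glue (Frl L Λ) (TM P Q E (fun l => - h l) X) σ) τ - en1 k X τ) + c'| ≤
          C * (L : ℝ) ^ K * Λ.card * (Λ.card * ρ ^ 2) *
            (Real.sqrt (Λ.card * ρ ^ 2) + Real.exp (-(rt L * R))))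

def S_M0g : Prop := ∀ N k : ℕ, 2 ≤ N → Nat.Coprime k N → ∀ rt : ℕ → ℝ, (∀ L, 0 ≤ rt L) →
  S_Ig N k rt → D_M0 N k rt

/-- conclusion of M1u with the rate `rt L` -/
def D_M1 (N k : ℕ) (hN : 2 ≤ N) (rt : ℕ → ℝ) : Prop := ∀ P Q : SU N, PQ k P Q →
  ∃ (C : ℝ) (K D : ℕ), 1 ≤ C ∧ ∀ (L : ℕ) [NeZero L] (β : ℝ) (hβ : 0 ≤ β), 1 ≤ β →
  ∀ (Λ B : Finset Pl) (R : ℕ) (e t r : ℝ), 0 ≤ e → 0 ≤ t → B ⊆ Λ → Λ ⊆ bal R B →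
    r = C * (L : ℝ) ^ K * Λ.card * (Λ.card * e + t) → r ≤ 1 / C →
  ∀ σ σ' : Cf N L, (∀ l, l ∉ Frl L Λ → (∀ a ∈ st l, a ∈ bal R B) → σ l = σ' l) →
    (∀ l, l ∉ Frl L Λ → (∀ a ∈ st l, a ∈ pls Λ) →
      ‖(σ l : Mt N) - (vc P Q l : Mt N)‖ ^ 2 ≤ e ∧ ‖(σ' l : Mt N) - (vc P Q l : Mt N)‖ ^ 2 ≤ e) →
    ∀ F : Cf N L → ℝ, Measurable F → (∀ X, 0 ≤ F X ∧ F X ≤ 1) →
      Sys.dep {l | ∀ a ∈ st l, (a ∈ bal R B ∧ a ∉ Λ) ∨ a ∈ B} F →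
      (sysS N L k β hN hβ).ker (hm N) Λ F σ ≤ (sysS N L k β hN hβ).ker (hm N) Λ F σ' +
        C * (L : ℝ) ^ K * Λ.card *
          (β * (r * Real.sqrt r + Real.exp (-(rt L * R)) * r) + Real.exp (-β / C)) +
        2 * (Real.exp (-β * t) * (C * (L : ℝ) ^ K * β) ^ (D * L ^ 2 * Λ.card))

def S_M1g : Prop := ∀ (N k : ℕ) (hN : 2 ≤ N), Nat.Coprime k N → ∀ rt : ℕ → ℝ, (∀ L, 0 ≤ rt L) →
  D_M0 N k rt → D_M1 N k hN rt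

/-- conclusion of Mu with the rate `rt L` -/
def D_M (N k : ℕ) (hN : 2 ≤ N) (rt : ℕ → ℝ) : Prop :=
  ∃ (C : ℝ) (K D : ℕ), 1 ≤ C ∧ ∀ (L : ℕ) [NeZero L] (β : ℝ) (hβ : 0 ≤ β), 1 ≤ β →
  ∀ (Λ B : Finset Pl) (R : ℕ) (e t r : ℝ), 0 ≤ e → 0 ≤ t → B ⊆ Λ → Λ ⊆ bal R B →
    r = C * (L : ℝ) ^ K * Λ.card * (Λ.card * e + t) → r ≤ 1 / C →
  ∀ η η' : Cf N L, (∀ l, l ∉ Frl L Λ → (∀ a ∈ st l, a ∈ bal R B) → η l = η' l) →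
    (∀ τ ∈ rng Λ, en k η τ ≤ e ∧ en k η' τ ≤ e) →
    ∀ F : Cf N L → ℝ, Measurable F → (∀ X, 0 ≤ F X ∧ F X ≤ 1) →
      Sys.dep {l | ∀ a ∈ st l, (a ∈ bal R B ∧ a ∉ Λ) ∨ a ∈ B} F →
      (sysS N L k β hN hβ).ker (hm N) Λ F η ≤ (sysS N L k β hN hβ).ker (hm N) Λ F η' +
        C * (L : ℝ) ^ K * Λ.card *
          (β * (r * Real.sqrt r + Real.exp (-(rt L * R)) * r) + Real.exp (-β / C)) +
        2 * (Real.exp (-β * t) * (C * (L : ℝ) ^ K * β) ^ (D * L ^ 2 * Λ.card))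

def S_Mg : Prop := ∀ (N k : ℕ) (hN : 2 ≤ N), Nat.Coprime k N → ∀ rt : ℕ → ℝ, (∀ L, 0 ≤ rt L) →
  D_M1 N k hN rt → D_M N k hN rt

/-! ### Xg : the coupling theorem with step `w` and exponents `1/j`

As Xu (`w = 3`, `j = 2` there): insensitivity with the radius `w - 1`, steps of the chains at distance
exactly `w` (`8 w` sites), last site within `w - 1` of `A` (`(2w-1)²` sites). Weight of a chain: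
`δ^((1 - 1/j) #c) (ker Λ (∏_{l_i = a} Bad) η)^(1/(2j)) (ker Λ (∏_{l_i = a'} Bad) η')^(1/(2j))`; for the chains
from the new site `b` with label `c`: `∫ u^(1/j) (ρ_η - ρ_η')⁺ ≤ (∫ u ρ_η)^(1/j) κ^(1 - 1/j)` (Hoelder).
Conditions: `δ^(1-1/j) ≤ q`, `p^(1/(2j (4s+4)²)) ≤ q`. Counting: `2 ∑_{k ≥ k₀} (2w-1)² #A (8w)^(k-1) (3q)^k
≤ 2 w #A (24 w q)^(k₀)`, `k₀ ≥ n / w`. -/

def S_Xg : Prop := ∀ (ι Tm X : Type) [DecidableEq ι] [DecidableEq Tm] [MeasurableSpace X]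
  (S : Sys ι Tm X) (μ : Measure X) [IsProbabilityMeasure μ] (g : Tm → (ι → X) → Prop) (s w j : ℕ)
  (p δ q : ℝ), 3 ≤ w → 2 * w ≤ s → 2 ≤ j →
  (∀ τ, MeasurableSet {ω | g τ ω}) →
  (∀ τ ω ω', (∀ i ∈ S.sp τ, ω i = ω' i) → (g τ ω ↔ g τ ω')) →
  (∀ b η, S.ker μ (Nb (2 * s) b) (fun ω => ind (Bads S g s b ω)) η ≤ p) →
  (∀ b, ∀ Λ : Finset Pl, b ∈ Λ → ∀ η η' : ι → X,
    (∀ i, (∀ a ∈ S.bl i, a ∈ Nb (w - 1) b ∧ a ∉ Λ) → η i = η' i) →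
    (∀ τ ∈ S.tms (Nb s b), (∀ a ∈ S.bt τ, a ∈ Nb s b ∧ a ∉ Λ) → g τ η ∧ g τ η') →
    ∀ F : (ι → X) → ℝ, Measurable F → (∀ ω, 0 ≤ F ω ∧ F ω ≤ 1) →
      Sys.dep {i | ∀ a ∈ S.bl i, (a ∈ Nb (w - 1) b ∧ a ∉ Λ) ∨ a = b} F →
      S.ker μ Λ F η ≤ S.ker μ Λ F η' + δ) →
  0 < p → 0 < δ → 0 < q → δ ^ (j - 1) ≤ q ^ j → p ≤ q ^ (2 * j * (4 * s + 4) ^ 2) →
  24 * w * q ≤ 1 / 2 →
  ∀ (A Λ : Finset Pl) (n : ℕ), (∀ a ∈ A, Nb (n + 2 * s) a ⊆ Λ) →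
    ∀ f : (ι → X) → ℝ, Measurable f → (∀ ω, |f ω| ≤ 1) → Sys.dep {i | ∀ a ∈ S.bl i, a ∈ A} f →
      ∀ η η' : ι → X, |S.ker μ Λ f η - S.ker μ Λ f η'| ≤ 6 * w * A.card * (24 * w * q) ^ (n / w)

/-! ### Z1g, Zg, P1g

Z1g (uses F3 F5 Hu; port of Z1u): `B = sit M {b}`, `R₁ = (w - 1) M` (so `bal R₁ B = sit M (Nb (w-1) b)`),
`Λ'' = Λ_s ∩ bal R₁ B`, Hu with depth `R + 1 + (R₁ + 2) = s M` (`R ≥ s M / 8` as `s ≥ 2 w`).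
Zg (real analysis, port of Zu): `j`, `w` large depending on `ε`, then
`M = ⌊c₁ log β / (w mgp)⌋` with a small `c₁` (`exp (- mgp w M) ≥ β^(-c₁)`, `c₁ ≤ 1/8`), `s` = a large power
of `L` times a large constant, `t = K₄ L^K₅ (log β)^3 / β`,
`δ = C L^K' (log β)^K' (β^(-1/2) + exp (-(1-ε/4) mgp (w-1) M))`, `q = δ^(1-1/j)`: as
`exp (-mgp w M) ≥ β^(-1/8)`, everything is bounded by `exp (-(1 - ε) mgp w M)` for `β ≥ C₀ L^K₀`. Use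
`1 / L ≤ C mgp`, `mgp ≤ C / L` (`sin x ≥ 2 x / π`, `arsinh x ≥ x / 2` on `[0, 1]`, `arsinh x ≤ x`).
P1g: as P1u with Xg. -/

/-- conclusion of Z1g -/
def D_Z1 (N k : ℕ) (hN : 2 ≤ N) (rt : ℕ → ℝ) : Prop :=
  ∃ (C : ℝ) (K D : ℕ), 1 ≤ C ∧ ∀ (L : ℕ) [NeZero L] (β : ℝ) (hβ : 0 ≤ β), 1 ≤ β →
  ∀ (M s w : ℕ) (hM : 0 < M) (t ε r : ℝ), 8 ≤ M → 3 ≤ w → 2 * w ≤ s → 0 ≤ t →
    ε = C * (L : ℝ) ^ K * (s * M : ℝ) ^ 2 * (Real.exp (-(s * M) / (C * (L : ℝ) ^ K)) + t) →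
    r = C * (L : ℝ) ^ K * (s * M : ℝ) ^ 8 * (Real.exp (-(s * M) / (C * (L : ℝ) ^ K)) + t) →
    r ≤ 1 / C →
    (∀ b η, (coa (sysS N L k β hN hβ) M hM).ker (hm N) (Nb (2 * s) b)
      (fun ω => ind (Bads (coa (sysS N L k β hN hβ) M hM) (fun τ X => en k X τ ≤ ε) s b ω)) η ≤
        s * M * (Real.exp (-β * t) * (C * (L : ℝ) ^ K * β) ^ (D * L ^ 2 * (s * M) ^ 2))) ∧
    (∀ b, ∀ Λ : Finset Pl, b ∈ Λ → ∀ η η' : Cf N L,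
      (∀ i, (∀ a ∈ (coa (sysS N L k β hN hβ) M hM).bl i, a ∈ Nb (w - 1) b ∧ a ∉ Λ) → η i = η' i) →
      (∀ τ ∈ (coa (sysS N L k β hN hβ) M hM).tms (Nb s b),
        (∀ a ∈ (coa (sysS N L k β hN hβ) M hM).bt τ, a ∈ Nb s b ∧ a ∉ Λ) →
          en k η τ ≤ ε ∧ en k η' τ ≤ ε) →
      ∀ F : Cf N L → ℝ, Measurable F → (∀ ω, 0 ≤ F ω ∧ F ω ≤ 1) →
        Sys.dep {i | ∀ a ∈ (coa (sysS N L k β hN hβ) M hM).bl i,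
          (a ∈ Nb (w - 1) b ∧ a ∉ Λ) ∨ a = b} F →
        (coa (sysS N L k β hN hβ) M hM).ker (hm N) Λ F η ≤
          (coa (sysS N L k β hN hβ) M hM).ker (hm N) Λ F η' +
          (C * (L : ℝ) ^ K * (s * M : ℝ) ^ 2 *
              (β * (r * Real.sqrt r + Real.exp (-(rt L * ((w - 1 : ℕ) * M))) * r) +
                Real.exp (-β / C)) +
            4 * s * M * (Real.exp (-β * t) * (C * (L : ℝ) ^ K * β) ^ (D * L ^ 2 * (s * M) ^ 2))))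

def S_Z1g : Prop := ∀ (N k : ℕ) (hN : 2 ≤ N), Nat.Coprime k N → ∀ rt : ℕ → ℝ, (∀ L, 0 ≤ rt L) →
  D_M N k hN rt → D_Z1 N k hN rt

/-- conclusion of Zg -/
def D_Z (N k : ℕ) (hN : 2 ≤ N) : Prop :=
  ∀ ε : ℝ, 0 < ε → ε < 1 → ∃ (C₀ : ℝ) (K₀ : ℕ), 2 ≤ C₀ ∧ ∀ (L : ℕ) [NeZero L] (β : ℝ) (hβ : 0 ≤ β),
  C₀ * (L : ℝ) ^ K₀ ≤ β →
  ∃ (M s w j : ℕ) (hM : 0 < M) (ε' p δ q : ℝ), 3 ≤ w ∧ 2 * w ≤ s ∧ 2 ≤ j ∧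
    0 < p ∧ 0 < δ ∧ 0 < q ∧ δ ^ (j - 1) ≤ q ^ j ∧ p ≤ q ^ (2 * j * (4 * s + 4) ^ 2) ∧
    24 * w * q ≤ 1 / 2 ∧ 24 * w * q ≤ Real.exp (-((1 - ε) * mgp N L * (w * M))) ∧
    (∀ b η, (coa (sysS N L k β hN hβ) M hM).ker (hm N) (Nb (2 * s) b)
      (fun ω => ind (Bads (coa (sysS N L k β hN hβ) M hM) (fun τ X => en k X τ ≤ ε') s b ω)) η ≤ p) ∧
    (∀ b, ∀ Λ : Finset Pl, b ∈ Λ → ∀ η η' : Cf N L,
      (∀ i, (∀ a ∈ (coa (sysS N L k β hN hβ) M hM).bl i, a ∈ Nb (w - 1) b ∧ a ∉ Λ) → η i = η' i) →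
      (∀ τ ∈ (coa (sysS N L k β hN hβ) M hM).tms (Nb s b),
        (∀ a ∈ (coa (sysS N L k β hN hβ) M hM).bt τ, a ∈ Nb s b ∧ a ∉ Λ) →
          en k η τ ≤ ε' ∧ en k η' τ ≤ ε') →
      ∀ F : Cf N L → ℝ, Measurable F → (∀ ω, 0 ≤ F ω ∧ F ω ≤ 1) →
        Sys.dep {i | ∀ a ∈ (coa (sysS N L k β hN hβ) M hM).bl i,
          (a ∈ Nb (w - 1) b ∧ a ∉ Λ) ∨ a = b} F →
        (coa (sysS N L k β hN hβ) M hM).ker (hm N) Λ F η ≤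
          (coa (sysS N L k β hN hβ) M hM).ker (hm N) Λ F η' + δ)

def S_Zg : Prop := ∀ (N k : ℕ) (hN : 2 ≤ N), Nat.Coprime k N →
  (∀ ε : ℝ, 0 < ε → ε < 1 → D_Z1 N k hN fun L => (1 - ε) * mgp N L) → D_Z N k hN

def S_P1g : Prop := ∀ (N k : ℕ) (hN : 2 ≤ N), Nat.Coprime k N → D_Z N k hN →
  ∀ ε : ℝ, 0 < ε → ε < 1 → ∃ (C₀ : ℝ) (K₀ : ℕ), 2 ≤ C₀ ∧ ∀ (L : ℕ) [NeZero L] (β : ℝ) (hβ : 0 ≤ β),
  C₀ * (L : ℝ) ^ K₀ ≤ β → ∃ κ : ℝ, 0 ≤ κ ∧ Dec N L k hN β hβ ((1 - ε) * mgp N L) κ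

end T2H02.TT
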