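import Pool.Agent.T2H02.TT.StmV

/-!
# Wave 6: scaling limit of the Polyakov loops, the massive Gaussian free field

Package `Y` proves `theorem pY : S_Y` in `Pool/Agent/T2H02/TT/Y.lean` (namespace `T2H02.TT.PkgY` for
the lemmas): VI VJ VK VO VT VR VS. VI, VJ, VK are ports of UI, UJ, UK: the factor `G (pt X b)` is
replaced by a bounded function `h` of the field `√β ∑ w b G (pt X b)`, the result `ψ b` by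
`(∑ w b ψ b) ⟨h'⟩`, the error terms are the same.
-/

set_option autoImplicit false

noncomputable section

open MeasureTheory Matrix Filter Topology
open scoped Matrix.Norms.Frobenius

namespace T2H02.TT

/-- smeared field of the observable `G` -/
def fl {N L : ℕ} [NeZero L] (β : ℝ) (w : Pl → ℝ) (G : Ph N L → ℝ) (Λ : Finset Pl) (X : Cf N L) : ℝ :=
  Real.sqrt β * ∑ b ∈ Λ, w b * G (pt X b)

/-- the source `(- Δ + μ²) ψ` -/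
def sc (N L : ℕ) (ψ : Pl → ℝ) (x : Pl) : ℝ := lap ψ x + mu2 N L * ψ x

/-- bounded function `h` with bounded derivatives, `h'` is its derivative -/
def Gd (h h' : ℝ → ℝ) : Prop :=
  Continuous h ∧ Continuous h' ∧ (∀ a, |h a| ≤ 1) ∧ (∀ a, |h' a| ≤ 1) ∧
    ∀ a b, |h b - h a - h' a * (b - a)| ≤ (b - a) ^ 2

/-! ### VI, VJ : Ward identity in a finite volume

As UI with `F = h (Y)`, `Y = fl β w G Λ` instead of `G_b`, `Q = ∑_x sc ψ x G_x`. On the good event `A₃`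
(`n = #Λ`, `s = r^(3/4)`): `|Y (TM X) - Y X - √β s ∑ w ψ| ≤ √β n C L^K r`, so
`F (TM X) = F X + h' (Y) √β s ∑ w ψ + O(√β n C L^K r + β n² C L^K s²)`, and
`W (TM X) / W X = 1 - β s Q + O(C L^K n² (β r^(3/2) + β² r^(5/2)))` as before. Hence
`⟨F⟩ = ⟨F⟩ - β s ⟨F Q⟩ + √β s (∑ w ψ) ⟨h' (Y)⟩ + errors`; divide by `√β s`: the errors are at most
`C L^K n² (√β r^(3/4) + β^(3/2) r^(7/4) + r^(1/4) + β r^(5/4))`, and as `β r ≥ 1` each of these is at most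
`β^(3/2) r^(7/4) ≤ β² r^(9/4) = β² r² √√r`. The bad terms are bounded as before
(`|√β Q| ≤ 12 √β n C₁ L^K₁`, `|∑ w ψ| ≤ n`, `1 / (√β s) ≤ β^(1/4)`). The proof of UI can be copied with these
changes. VJ is the port of UJ (the function is invariant under `gau` and `cmv`). -/

def S_VI : Prop := ∀ (N k : ℕ) (hN : 2 ≤ N), Nat.Coprime k N → ∀ P Q : SU N, PQ k P Q →
  ∀ (C₁ : ℝ) (K₁ : ℕ), ∃ (C : ℝ) (K D : ℕ), 1 ≤ C ∧ ∀ (L : ℕ) [NeZero L] (β : ℝ) (hβ : 0 ≤ β), 1 ≤ β →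
  ∀ (E : Tor L → Mt N) (G : Ph N L → ℝ), Mod N L P Q (C₁ * (L : ℝ) ^ K₁) E G →
  ∀ (Λ : Finset Pl) (e t r : ℝ), 0 ≤ e → 0 ≤ t → r = C * (L : ℝ) ^ K * Λ.card * (Λ.card * e + t) →
    1 / β ≤ r → C * (L : ℝ) ^ K * Λ.card * (β * (r * Real.sqrt (Real.sqrt r))) ≤ 1 →
  ∀ σ : Cf N L, (∀ l, l ∉ Frl L Λ → (∀ a ∈ st l, a ∈ pls Λ) →
      ‖(σ l : Mt N) - (vc P Q l : Mt N)‖ ^ 2 ≤ e) →
  ∀ ψ w : Pl → ℝ, (∀ x, |ψ x| ≤ 1) → (∀ x, |w x| ≤ 1) → (∀ x, ψ x ≠ 0 → Nb 1 x ⊆ Λ) →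
  ∀ h h' : ℝ → ℝ, Gd h h' →
    |(sysS N L k β hN hβ).ker (hm N) Λ
        (fun X => h (fl β w G Λ X) * fl β (sc N L ψ) G Λ X) σ -
      (∑ b ∈ Λ, w b * ψ b) *
        (sysS N L k β hN hβ).ker (hm N) Λ (fun X => h' (fl β w G Λ X)) σ| ≤
      C * (L : ℝ) ^ K * (Λ.card : ℝ) ^ 2 * (β ^ 2 * (r ^ 2 * Real.sqrt (Real.sqrt r)) +
        β ^ 2 * (Real.exp (-β * t) * (C * (L : ℝ) ^ K * β) ^ (D * L ^ 2 * Λ.card) +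
          Real.exp (-β / C)))

def S_VJ : Prop := ∀ (N k : ℕ) (hN : 2 ≤ N), Nat.Coprime k N → ∀ P Q : SU N, PQ k P Q →
  ∀ (C₁ : ℝ) (K₁ : ℕ), ∃ (C : ℝ) (K D : ℕ), 1 ≤ C ∧ ∀ (L : ℕ) [NeZero L] (β : ℝ) (hβ : 0 ≤ β), 1 ≤ β →
  ∀ (E : Tor L → Mt N) (G : Ph N L → ℝ), Mod N L P Q (C₁ * (L : ℝ) ^ K₁) E G →
  ∀ (Λ : Finset Pl) (e t r : ℝ), 0 ≤ e → 0 ≤ t → r = C * (L : ℝ) ^ K * Λ.card * (Λ.card * e + t) →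
    1 / β ≤ r → C * (L : ℝ) ^ K * Λ.card * (β * (r * Real.sqrt (Real.sqrt r))) ≤ 1 →
  ∀ η : Cf N L, (∀ τ ∈ rng Λ, en k η τ ≤ e) →
  ∀ ψ w : Pl → ℝ, (∀ x, |ψ x| ≤ 1) → (∀ x, |w x| ≤ 1) → (∀ x, ψ x ≠ 0 → Nb 1 x ⊆ Λ) →
  ∀ h h' : ℝ → ℝ, Gd h h' →
    |(sysS N L k β hN hβ).ker (hm N) Λ
        (fun X => h (fl β w G Λ X) * fl β (sc N L ψ) G Λ X) η -
      (∑ b ∈ Λ, w b * ψ b) *
        (sysS N L k β hN hβ).ker (hm N) Λ (fun X => h' (fl β w G Λ X)) η| ≤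
      C * (L : ℝ) ^ K * (Λ.card : ℝ) ^ 2 * (β ^ 2 * (r ^ 2 * Real.sqrt (Real.sqrt r)) +
        β ^ 2 * (Real.exp (-β * t) * (C * (L : ℝ) ^ K * β) ^ (D * L ^ 2 * Λ.card) +
          Real.exp (-β / C)))

/-! ### VK : Ward identity for the Wilson expectation in large finite volumes (port of UK)

`f = h (Y) · fl β (sc ψ) - (∑ w ψ) h' (Y)` depends only on torus links; elsewhere (bad event)
`|ker Λ f| ≤ C L^K √β n²`. Everything else as in UK. -/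

def S_VK : Prop := ∀ (N k : ℕ), 2 ≤ N → Nat.Coprime k N → ∀ P Q : SU N, PQ k P Q →
  ∀ (C₁ : ℝ) (K₁ : ℕ), ∃ (C₀ : ℝ) (K₀ : ℕ), 2 ≤ C₀ ∧ ∀ (L : ℕ) [NeZero L] (β : ℝ) (n : ℕ),
  C₀ * ((L : ℝ) * (n + 1)) ^ K₀ ≤ β →
  ∀ (E : Tor L → Mt N) (G : Ph N L → ℝ), Mod N L P Q (C₁ * (L : ℝ) ^ K₁) E G →
  ∃ m₀ : ℕ, ∀ R : Finset Pl, Nb m₀ 0 ⊆ R →
  ∀ ψ w : Pl → ℝ, (∀ x, |ψ x| ≤ 1) → (∀ x, |w x| ≤ 1) → (∀ x, ψ x ≠ 0 → x ∈ Nb n 0) →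
  ∀ h h' : ℝ → ℝ, Gd h h' →
    |wex N L k β R (fun X =>
        h (fl β w G (Nb (n + 1) 0) X) * fl β (sc N L ψ) G (Nb (n + 1) 0) X) -
      (∑ b ∈ Nb (n + 1) 0, w b * ψ b) *
        wex N L k β R (fun X => h' (fl β w G (Nb (n + 1) 0) X))| ≤ β ^ (-(1 / 5) : ℝ)

/-! ### VO : from the Ward identity to the characteristic function

`c τ = wex (cos (τ Y))`, `c' τ = - wex (Y sin (τ Y))` (derivative under the integral, `Y` bounded). With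
`h = sin (τ ·) / (1 + τ²)`, `h' = τ cos (τ ·) / (1 + τ²)` the hypothesis gives
`|c' τ + s2 τ c τ| ≤ (1 + τ²) δ`, so the derivative of `exp (s2 τ² / 2) c τ` is at most
`exp (s2 τ² / 2) (1 + τ²) δ`; integrate from `0` to `τ`. The same for `sin` (value `0` at `0`). -/

def S_VO : Prop := ∀ (N k L : ℕ) [NeZero L] (β : ℝ), 0 ≤ β → ∀ (R : Finset Pl) (Y : Cf N L → ℝ)
  (K s2 δ : ℝ), Measurable Y → (∀ X, |Y X| ≤ K) → 0 ≤ s2 →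
  (∀ h h' : ℝ → ℝ, Gd h h' → |wex N L k β R (fun X => h (Y X) * Y X) -
    s2 * wex N L k β R (fun X => h' (Y X))| ≤ δ) →
  ∀ τ : ℝ, 0 ≤ τ →
    |wex N L k β R (fun X => Real.cos (τ * Y X)) - Real.exp (-(s2 * τ ^ 2 / 2))| ≤
      (τ + τ ^ 3) * δ ∧
    |wex N L k β R (fun X => Real.sin (τ * Y X))| ≤ (τ + τ ^ 3) * δ

/-! ### VT, VR, VS : calculus -/

/-- rescaled test function -/
def rs (L : ℕ) (Ψ : ℝ × ℝ → ℝ) (x : Pl) : ℝ := Ψ ((x.1 : ℝ) / L, (x.2 : ℝ) / L)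

/-- the Laplacian on `ℝ²` -/
def lapc (Ψ : ℝ × ℝ → ℝ) (p : ℝ × ℝ) : ℝ :=
  iteratedDeriv 2 (fun t => Ψ (t, p.2)) p.1 + iteratedDeriv 2 (fun t => Ψ (p.1, t)) p.2

/-- `(- Δ + (2 π / N)²) Ψ` -/
def srcc (N : ℕ) (Ψ : ℝ × ℝ → ℝ) (p : ℝ × ℝ) : ℝ := (2 * Real.pi / N) ^ 2 * Ψ p - lapc Ψ p

/-- discretisation error (Taylor, fourth derivatives; `|4 sin² x - 4 x²| ≤ 4 x⁴`) -/
def S_VT : Prop := ∀ N : ℕ, 2 ≤ N → ∀ Ψ : ℝ × ℝ → ℝ, ContDiff ℝ 4 Ψ → HasCompactSupport Ψ →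
  Continuous (srcc N Ψ) ∧ (∃ r : ℕ, ∀ p : ℝ × ℝ, (r : ℝ) ≤ |p.1| ∨ (r : ℝ) ≤ |p.2| →
    Ψ p = 0 ∧ srcc N Ψ p = 0) ∧
  ∃ C : ℝ, 1 ≤ C ∧ (∀ p, |Ψ p| ≤ C) ∧ (∀ p, |srcc N Ψ p| ≤ C) ∧ ∀ L : ℕ, 1 ≤ L → ∀ x : Pl,
    |sc N L (rs L Ψ) x - rs L (srcc N Ψ) x / (L : ℝ) ^ 2| ≤ C / (L : ℝ) ^ 4

/-- Riemann sums -/
def S_VR : Prop := ∀ (F : ℝ × ℝ → ℝ) (r : ℕ), Continuous F →
  (∀ p : ℝ × ℝ, (r : ℝ) ≤ |p.1| ∨ (r : ℝ) ≤ |p.2| → F p = 0) →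
  Tendsto (fun L : ℕ => ∑ x ∈ Nb (r * L) 0, rs L F x / (L : ℝ) ^ 2) atTop (𝓝 (∫ p, F p))

/-- positivity of `- Δ + μ²` (summation by parts) -/
def S_VS : Prop := ∀ (N L n : ℕ) (ψ : Pl → ℝ), (∀ x, ψ x ≠ 0 → x ∈ Nb n 0) →
  0 ≤ ∑ x ∈ Nb (n + 1) 0, sc N L ψ x * ψ x

end T2H02.TT
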