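import Mathlib

/-!
# Abstract lattice systems with finite range, and their conditional expectations

`Sys ι Tm X` is a family of variables (index type `ι`, values in `X`) and of positive weights
(index type `Tm`), both placed on the plane `ℤ × ℤ` (`bl i`: the sites touched by the variable `i`,
`bt τ`: the sites touched by the term `τ`). For a finite set `Λ` of sites, `Fr Λ` are the variables
touching `Λ` (the free variables) and `tms Λ` the terms touching `Λ`;
`ker Λ f η` is the conditional expectation of `f` given the variables `η` outside `Fr Λ`.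
-/

set_option autoImplicit false

noncomputable section

open MeasureTheory

namespace T2H02.TT

/-- the plane `ℤ × ℤ` -/
abbrev Pl := ℤ × ℤ

/-- sup-distance at most `r` -/
def near (r : ℤ) (a b : Pl) : Prop := |a.1 - b.1| ≤ r ∧ |a.2 - b.2| ≤ r

/-- `ξ` on `J`, `η` elsewhere -/
def glue {ι X : Type} [DecidableEq ι] (J : Finset ι) (ξ η : ι → X) : ι → X :=
  fun i => if i ∈ J then ξ i else η i

/-- a finite range system of variables and positive weights on the plane -/
structure Sys (ι Tm X : Type) [DecidableEq ι] [DecidableEq Tm] [MeasurableSpace X] where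
  /-- sites touched by a variable -/
  bl : ι → Finset Pl
  /-- sites touched by a term -/
  bt : Tm → Finset Pl
  /-- variables of a term -/
  sp : Tm → Finset ι
  /-- weight of a term -/
  w : Tm → (ι → X) → ℝ
  /-- variables touching a finite set of sites -/
  Fr : Finset Pl → Finset ι
  /-- terms touching a finite set of sites -/
  tms : Finset Pl → Finset Tm
  mem_Fr : ∀ Λ i, i ∈ Fr Λ ↔ ∃ a ∈ bl i, a ∈ Λ
  mem_tms : ∀ Λ τ, τ ∈ tms Λ ↔ ∃ a ∈ bt τ, a ∈ Λ
  bt_iff : ∀ τ a, a ∈ bt τ ↔ ∃ i ∈ sp τ, a ∈ bl i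
  diam_bt : ∀ τ, ∀ a ∈ bt τ, ∀ b ∈ bt τ, near 1 a b
  diam_bl : ∀ i, ∀ a ∈ bl i, ∀ b ∈ bl i, near 1 a b
  bl_ne : ∀ i, (bl i).Nonempty
  w_pos : ∀ τ X, 0 < w τ X
  w_le : ∀ τ X, w τ X ≤ 1
  w_meas : ∀ τ, Measurable (w τ)
  w_loc : ∀ τ X Y, (∀ i ∈ sp τ, X i = Y i) → w τ X = w τ Y

namespace Sys

variable {ι Tm X : Type} [DecidableEq ι] [DecidableEq Tm] [MeasurableSpace X]

/-- product of the weights of the terms touching `Λ` -/
def W (S : Sys ι Tm X) (Λ : Finset Pl) (ω : ι → X) : ℝ := ∏ τ ∈ S.tms Λ, S.w τ ω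

/-- unnormalised conditional integral -/
def num (S : Sys ι Tm X) (μ : Measure X) (Λ : Finset Pl) (f : (ι → X) → ℝ) (η : ι → X) : ℝ :=
  ∫ ξ, f (glue (S.Fr Λ) ξ η) * S.W Λ (glue (S.Fr Λ) ξ η) ∂(Measure.infinitePi fun _ : ι => μ)

/-- conditional expectation of `f` in `Λ` given the configuration `η` outside -/
def ker (S : Sys ι Tm X) (μ : Measure X) (Λ : Finset Pl) (f : (ι → X) → ℝ) (η : ι → X) : ℝ :=
  S.num μ Λ f η / S.num μ Λ (fun _ => 1) η

/-- `f` depends only on the variables in the set `A` -/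
def dep (A : Set ι) (f : (ι → X) → ℝ) : Prop := ∀ ω ω' : ι → X, (∀ i ∈ A, ω i = ω' i) → f ω = f ω'

/-- expectation with the terms in the finite set `T` only (free boundary condition) -/
def ex (S : Sys ι Tm X) (μ : Measure X) (T : Finset Tm) (f : (ι → X) → ℝ) : ℝ :=
  (∫ ω, f ω * ∏ τ ∈ T, S.w τ ω ∂(Measure.infinitePi fun _ : ι => μ)) /
    ∫ ω, ∏ τ ∈ T, S.w τ ω ∂(Measure.infinitePi fun _ : ι => μ)

end Sys

end T2H02.TT
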